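import Pool.Agent.Lib.MP_b2135d_an.Core

/-! Permanence of amenability (PLAN section 5). -/

namespace Pool.Agent.Izumi

variable {G H : Type} [Group G] [Group H]

theorem aa_ncard_eq_sum {Ω : Type} [Fintype Ω] (p : Ω → Prop) [DecidablePred p] :
    (Set.ncard {w | p w} : ℝ) = ∑ w, if p w then (1 : ℝ) else 0 := by
  rw [Finset.sum_boole, ← Set.ncard_coe_finset]
  congr 2
  ext w
  simp

theorem aa_ncard_mono {Ω : Type} [Fintype Ω] {p q : Ω → Prop} (h : ∀ w, p w → q w) :
    (Set.ncard {w | p w} : ℝ) ≤ Set.ncard {w | q w} := by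
  exact_mod_cast Set.ncard_le_ncard (fun w hw => h w hw) (Set.toFinite _)

theorem aa_ncard_prod {A B : Type} [Fintype A] [Fintype B] (p : A × B → Prop) :
    (Set.ncard {w | p w} : ℝ) = ∑ a, (Set.ncard {b | p (a, b)} : ℝ) := by
  classical
  simp only [aa_ncard_eq_sum]
  rw [Fintype.sum_prod_type]

theorem aa_ncard_prod' {A B : Type} [Fintype A] [Fintype B] (p : A × B → Prop) :
    (Set.ncard {w | p w} : ℝ) = ∑ b, (Set.ncard {a | p (a, b)} : ℝ) := by
  classical
  simp only [aa_ncard_eq_sum]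
  rw [Fintype.sum_prod_type_right]

theorem aa_ncard_le_card {Ω : Type} [Fintype Ω] (p : Ω → Prop) :
    (Set.ncard {w | p w} : ℝ) ≤ Fintype.card Ω := by
  have := Set.ncard_le_ncard (Set.subset_univ {w | p w}) (Set.toFinite _)
  rw [Set.ncard_univ, Nat.card_eq_fintype_card] at this
  exact_mod_cast this

theorem MFoel.finite [Finite G] : MFoel G := by
  intro s ε hε
  refine ⟨G, Fintype.ofFinite G, ⟨1⟩, id, fun g _ => ⟨Equiv.mulLeft g, ?_⟩⟩
  have : {w : G | id (Equiv.mulLeft g w) ≠ g * id w} = ∅ := by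
    ext w
    simp
  rw [this, Set.ncard_empty, Nat.cast_zero]
  positivity

theorem MFoel.comm (h : ∀ a b : G, a * b = b * a) : MFoel G := by
  classical
  intro s ε hε
  induction s using Finset.induction_on with
  | empty => exact ⟨Unit, inferInstance, inferInstance, fun _ => 1, by simp⟩
  | insert g s _ ih =>
    obtain ⟨Ω, _, _, x, hx⟩ := ih
    obtain ⟨n, hn⟩ := exists_nat_one_div_lt hε
    refine ⟨Ω × Fin (n + 1), inferInstance, inferInstance, fun w => x w.1 * g ^ (w.2 : ℕ), ?_⟩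
    intro a ha
    rcases Finset.mem_insert.1 ha with rfl | ha
    · refine ⟨Equiv.prodCongr (Equiv.refl _) (finRotate (n + 1)), ?_⟩
      refine (aa_ncard_mono (q := fun w => w.2 = Fin.last n) ?_).trans ?_
      · rintro ⟨w, i⟩ hw
        by_contra hi
        apply hw
        have h1 : ((finRotate (n + 1) i : Fin (n + 1)) : ℕ) = i + 1 := coe_finRotate_of_ne_last hi
        simp only [Equiv.prodCongr_apply, Equiv.coe_refl, Prod.map, id]
        rw [h1, pow_succ, ← mul_assoc, h]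
      · rw [aa_ncard_prod]
        have h1 : ∀ w : Ω, (Set.ncard {b : Fin (n + 1) | (w, b).2 = Fin.last n} : ℝ) = 1 := by
          intro w
          have : {b : Fin (n + 1) | (w, b).2 = Fin.last n} = {Fin.last n} := rfl
          rw [this, Set.ncard_singleton, Nat.cast_one]
        rw [Finset.sum_congr rfl fun w _ => h1 w]
        simp only [Finset.sum_const, Finset.card_univ, nsmul_eq_mul, mul_one, Fintype.card_prod,
          Fintype.card_fin]
        push_cast
        rw [div_lt_iff₀ (by positivity)] at hn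
        have : (0 : ℝ) ≤ Fintype.card Ω := by positivity
        nlinarith
    · obtain ⟨σ, hσ⟩ := hx a ha
      refine ⟨Equiv.prodCongr σ (Equiv.refl _), ?_⟩
      refine (aa_ncard_mono (q := fun w => x (σ w.1) ≠ a * x w.1) ?_).trans ?_
      · rintro ⟨w, i⟩ hw hi
        apply hw
        simp only [Equiv.prodCongr_apply, Equiv.coe_refl, Prod.map, id]
        simp only at hi
        rw [hi, mul_assoc]
      · rw [aa_ncard_prod']
        refine (Finset.sum_le_sum fun b _ => hσ).trans (le_of_eq ?_)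
        simp only [Finset.sum_const, Finset.card_univ, nsmul_eq_mul, Fintype.card_prod]
        push_cast
        ring

theorem MFoel.sub (f : H →* G) (hf : Function.Injective f) (h : MFoel G) : MFoel H := by
  classical
  intro s ε hε
  obtain ⟨Ω, _, _, x, hx⟩ := h (s.image f) ε hε
  let c : G → G := fun g => (Quotient.mk (QuotientGroup.rightRel f.range) g).out
  have hc : ∀ g, ∃ a, f a = g * (c g)⁻¹ := by
    intro g
    have h1 : QuotientGroup.rightRel f.range (c g) g := Quotient.mk_out (s := QuotientGroup.rightRel f.range) g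
    exact QuotientGroup.rightRel_apply.1 h1
  choose r hr using hc
  have hcc : ∀ a g, c (f a * g) = c g := by
    intro a g
    have h1 : Quotient.mk (QuotientGroup.rightRel f.range) g =
        Quotient.mk (QuotientGroup.rightRel f.range) (f a * g) :=
      Quotient.sound (QuotientGroup.rightRel_apply.2 ⟨a, by simp⟩)
    simp only [c, h1]
  refine ⟨Ω, inferInstance, inferInstance, fun w => r (x w), fun a ha => ?_⟩
  obtain ⟨σ, hσ⟩ := hx (f a) (Finset.mem_image_of_mem f ha)
  refine ⟨σ, (aa_ncard_mono fun w hw hi => hw ?_).trans hσ⟩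
  apply hf
  beta_reduce
  rw [hi, map_mul, hr, hr, hcc, mul_assoc]

theorem MFoel.quot (f : G →* H) (hf : Function.Surjective f) (h : MFoel G) : MFoel H := by
  classical
  intro s ε hε
  obtain ⟨Ω, _, _, x, hx⟩ := h (s.image (Function.surjInv hf)) ε hε
  refine ⟨Ω, inferInstance, inferInstance, fun w => f (x w), fun a ha => ?_⟩
  obtain ⟨σ, hσ⟩ := hx _ (Finset.mem_image_of_mem _ ha)
  refine ⟨σ, (aa_ncard_mono fun w hw hi => hw ?_).trans hσ⟩
  beta_reduce
  rw [hi, map_mul, Function.surjInv_eq hf]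

theorem MFoel.ext (N : Subgroup G) [N.Normal] (h₁ : MFoel N) (h₂ : MFoel (G ⧸ N)) : MFoel G := by
  classical
  intro s ε hε
  obtain ⟨Ω₂, _, _, x₂, hx₂⟩ := h₂ (s.image fun g : G => (g : G ⧸ N)) (ε / 2) (half_pos hε)
  have hmem : ∀ (g : G) (w : Ω₂), (((g : G ⧸ N) * x₂ w).out)⁻¹ * (g * (x₂ w).out) ∈ N := by
    intro g w
    rw [← QuotientGroup.eq, QuotientGroup.out_eq', QuotientGroup.mk_mul, QuotientGroup.out_eq']
  let c : G → Ω₂ → N := fun g w => ⟨_, hmem g w⟩
  obtain ⟨Ω₁, _, _, x₁, hx₁⟩ := h₁ ((s ×ˢ (Finset.univ : Finset Ω₂)).image fun p => c p.1 p.2)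
    (ε / 2) (half_pos hε)
  refine ⟨Ω₂ × Ω₁, inferInstance, inferInstance, fun w => (x₂ w.1).out * x₁ w.2, fun g hg => ?_⟩
  obtain ⟨σ, hσ⟩ := hx₂ _ (Finset.mem_image_of_mem _ hg)
  have h3 : ∀ w : Ω₂, ∃ τ : Equiv.Perm Ω₁,
      (Set.ncard {v | x₁ (τ v) ≠ c g w * x₁ v} : ℝ) ≤ ε / 2 * (Fintype.card Ω₁ : ℝ) := fun w =>
    hx₁ _ (Finset.mem_image.2 ⟨(g, w), Finset.mem_product.2 ⟨hg, Finset.mem_univ _⟩, rfl⟩)
  choose τ hτ using h3
  refine ⟨Equiv.prodShear σ τ, ?_⟩
  rw [aa_ncard_prod]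
  have h4 : ∀ w : Ω₂, (Set.ncard {v : Ω₁ | (x₂ (Equiv.prodShear σ τ (w, v)).1).out *
      (x₁ (Equiv.prodShear σ τ (w, v)).2 : G) ≠ g * ((x₂ (w, v).1).out * x₁ (w, v).2)} : ℝ) ≤
      (if x₂ (σ w) ≠ (g : G ⧸ N) * x₂ w then (1 : ℝ) else 0) * Fintype.card Ω₁ +
        ε / 2 * (Fintype.card Ω₁ : ℝ) := by
    intro w
    split_ifs with hw
    · have : 0 ≤ ε / 2 * (Fintype.card Ω₁ : ℝ) := by positivity
      refine (aa_ncard_le_card _).trans ?_
      linarith
    · rw [zero_mul, zero_add]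
      refine (aa_ncard_mono fun v hv hi => hv ?_).trans (hτ w)
      simp only [Equiv.prodShear_apply]
      rw [not_not.1 hw, hi]
      simp only [c, Subgroup.coe_mul]
      group
  refine (Finset.sum_le_sum fun w _ => h4 w).trans ?_
  rw [Finset.sum_add_distrib, ← Finset.sum_mul]
  have h5 := aa_ncard_eq_sum fun w => x₂ (σ w) ≠ (g : G ⧸ N) * x₂ w
  rw [← h5]
  simp only [Finset.sum_const, Finset.card_univ, nsmul_eq_mul, Fintype.card_prod]
  push_cast
  have : (0 : ℝ) ≤ Fintype.card Ω₁ := by positivity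
  nlinarith [mul_le_mul_of_nonneg_right hσ this]

theorem MFoel.union {ι : Type} (K : ι → Subgroup G) (hd : Directed (· ≤ ·) K)
    (hc : ∀ g, ∃ i, g ∈ K i) (h : ∀ i, MFoel (K i)) : MFoel G := by
  classical
  intro s ε hε
  have h1 : ∃ i, ∀ g ∈ s, g ∈ K i := by
    induction s using Finset.induction_on with
    | empty =>
      obtain ⟨i, _⟩ := hc 1
      exact ⟨i, by simp⟩
    | insert a s _ ih =>
      obtain ⟨i, hi⟩ := ih
      obtain ⟨j, hj⟩ := hc a
      obtain ⟨k, hik, hjk⟩ := hd i j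
      refine ⟨k, fun g hg => ?_⟩
      rcases Finset.mem_insert.1 hg with rfl | hg
      · exact hjk hj
      · exact hik (hi g hg)
  obtain ⟨i, hi⟩ := h1
  obtain ⟨Ω, _, _, x, hx⟩ := h i (s.subtype (· ∈ K i)) ε hε
  refine ⟨Ω, inferInstance, inferInstance, fun w => x w, fun g hg => ?_⟩
  obtain ⟨σ, hσ⟩ := hx ⟨g, hi g hg⟩ (Finset.mem_subtype.2 hg)
  refine ⟨σ, (aa_ncard_mono fun w hw hi => hw ?_).trans hσ⟩
  beta_reduce
  rw [hi, Subgroup.coe_mul]

end Pool.Agent.Izumi
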