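import Pool.Agent.Lib.MP_b2135d_an.AA

/-! Foelner sets for elementary amenable groups (PLAN section 5). -/

namespace Pool.Agent.Izumi

variable {G : Type} [Group G]

private lemma abLayer {α : Type} (I : Finset α) (f f' : α → ℕ) (N : ℕ) :
    ∑ t ∈ Finset.range N, (I.filter fun y => t < f y ∧ f' y ≤ t).card ≤ ∑ y ∈ I, (f y - f' y) := by
  classical
  simp only [Finset.card_filter]
  rw [Finset.sum_comm]
  refine Finset.sum_le_sum fun y _ => ?_
  rw [← Finset.card_filter, ← Nat.card_Ico]
  refine Finset.card_le_card fun t ht => ?_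
  rw [Finset.mem_filter] at ht
  exact Finset.mem_Ico.2 ⟨ht.2.2, ht.2.1⟩

private lemma abTotal {α : Type} (I : Finset α) (f : α → ℕ) (N : ℕ) (hf : ∀ y, f y ≤ N) :
    ∑ t ∈ Finset.range N, (I.filter fun y => t < f y).card = ∑ y ∈ I, f y := by
  classical
  simp only [Finset.card_filter]
  rw [Finset.sum_comm]
  refine Finset.sum_congr rfl fun y _ => ?_
  rw [← Finset.card_filter]
  have : (Finset.range N).filter (fun t => t < f y) = Finset.range (f y) := by
    ext t
    simp only [Finset.mem_filter, Finset.mem_range]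
    have := hf y
    omega
  rw [this, Finset.card_range]

theorem MFoel.foel (h : MFoel G) : Foel G := by
  classical
  intro s ε hε
  have hs1 : (0 : ℝ) < s.card + 1 := by positivity
  obtain ⟨Ω, _, _, x, hx⟩ := h s (ε / (s.card + 1)) (by positivity)
  set N := Fintype.card Ω with hN
  have hN0 : (0 : ℝ) < N := by exact_mod_cast Fintype.card_pos
  let f : G → ℕ := fun y => (Finset.univ.filter fun w => x w = y).card
  let I : Finset G := Finset.univ.image x
  have hfN : ∀ y, f y ≤ N := fun y => Finset.card_le_univ _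
  have hI : ∀ y, 0 < f y → y ∈ I := by
    intro y hy
    obtain ⟨w, hw⟩ := Finset.card_pos.1 hy
    exact Finset.mem_image.2 ⟨w, Finset.mem_univ _, (Finset.mem_filter.1 hw).2⟩
  have hsum : ∑ y ∈ I, f y = N := by
    rw [hN, ← Finset.card_univ]
    exact (Finset.card_eq_sum_card_image x Finset.univ).symm
  let Λ : ℕ → Finset G := fun t => I.filter fun y => t < f y
  let bad : G → ℕ → ℕ := fun g t => (I.filter fun y => t < f y ∧ f (g⁻¹ * y) ≤ t).card
  have hΛ : ∑ t ∈ Finset.range N, (Λ t).card = N := (abTotal I f N hfN).trans hsum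
  have hbad : ∀ g ∈ s, ((∑ t ∈ Finset.range N, bad g t : ℕ) : ℝ) ≤ ε / (s.card + 1) * N := by
    intro g hg
    obtain ⟨σ, hσ⟩ := hx g hg
    refine le_trans ?_ hσ
    let B : Finset Ω := Finset.univ.filter fun w => x (σ w) ≠ g * x w
    have hB : Set.ncard {w | x (σ w) ≠ g * x w} = B.card := by
      rw [← Set.ncard_coe_finset]
      congr 1
      ext w
      simp [B]
    rw [hB]
    have h1 : ∀ y ∈ I, f y - f (g⁻¹ * y) ≤ (B.filter fun w => x (σ w) = y).card := by
      intro y _
      have e1 : f y = (Finset.univ.filter fun w => x (σ w) = y).card := by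
        symm
        refine Finset.card_bij (fun w _ => σ w) ?_ ?_ ?_
        · intro w hw
          exact Finset.mem_filter.2 ⟨Finset.mem_univ _, (Finset.mem_filter.1 hw).2⟩
        · intro a _ b _ hab
          exact σ.injective hab
        · intro w hw
          refine ⟨σ.symm w, Finset.mem_filter.2 ⟨Finset.mem_univ _, ?_⟩, σ.apply_symm_apply w⟩
          rw [σ.apply_symm_apply]
          exact (Finset.mem_filter.1 hw).2
      have e2 : (Finset.univ.filter fun w => x (σ w) = y) ⊆
          (B.filter fun w => x (σ w) = y) ∪ (Finset.univ.filter fun w => x w = g⁻¹ * y) := by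
        intro w hw
        have hw' := (Finset.mem_filter.1 hw).2
        by_cases hc : x (σ w) = g * x w
        · refine Finset.mem_union_right _ (Finset.mem_filter.2 ⟨Finset.mem_univ _, ?_⟩)
          rw [← hw', hc, inv_mul_cancel_left]
        · exact Finset.mem_union_left _
            (Finset.mem_filter.2 ⟨Finset.mem_filter.2 ⟨Finset.mem_univ _, hc⟩, hw'⟩)
      have e3 := (Finset.card_le_card e2).trans (Finset.card_union_le _ _)
      rw [← e1] at e3
      exact Nat.sub_le_iff_le_add.2 e3
    have h2 : ∑ y ∈ I, (B.filter fun w => x (σ w) = y).card = B.card :=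
      (Finset.card_eq_sum_card_fiberwise (f := fun w => x (σ w)) (s := B) (t := I)
        fun w _ => Finset.mem_coe.2 (Finset.mem_image.2 ⟨σ w, Finset.mem_univ _, rfl⟩)).symm
    have h3 := (abLayer I f (fun y => f (g⁻¹ * y)) N).trans ((Finset.sum_le_sum h1).trans h2.le)
    exact_mod_cast h3
  have hex : ∃ t, (Λ t).Nonempty ∧ ((∑ g ∈ s, bad g t : ℕ) : ℝ) ≤ ε * (Λ t).card := by
    by_contra hne
    have hall : ∀ t ∈ Finset.range N, ε * ((Λ t).card : ℝ) ≤ ((∑ g ∈ s, bad g t : ℕ) : ℝ) := by
      intro t _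
      rcases (Λ t).eq_empty_or_nonempty with h0 | h0
      · rw [h0, Finset.card_empty, Nat.cast_zero, mul_zero]
        exact Nat.cast_nonneg _
      · by_contra hlt
        exact hne ⟨t, h0, (not_le.1 hlt).le⟩
    have h1 := Finset.sum_le_sum hall
    rw [← Finset.mul_sum, ← Nat.cast_sum, ← Nat.cast_sum, hΛ, Finset.sum_comm, Nat.cast_sum] at h1
    have h2 := h1.trans (Finset.sum_le_sum hbad)
    rw [Finset.sum_const, nsmul_eq_mul] at h2
    have h3 : ε ≤ s.card * (ε / (s.card + 1)) := by
      refine le_of_mul_le_mul_right ?_ hN0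
      linarith
    rw [← mul_div_assoc, le_div_iff₀ hs1] at h3
    linarith
  obtain ⟨t, ht, ht'⟩ := hex
  refine ⟨Λ t, ht, fun g hg => ?_⟩
  have h1 : bad g t ≤ ∑ g ∈ s, bad g t :=
    Finset.single_le_sum (f := fun g => bad g t) (fun _ _ => Nat.zero_le _) hg
  have h2 : (bad g t : ℝ) ≤ ε * (Λ t).card := le_trans (by exact_mod_cast h1) ht'
  have h3 : Set.ncard {y | y ∈ Λ t ∧ g⁻¹ * y ∈ Λ t} =
      ((Λ t).filter fun y => g⁻¹ * y ∈ Λ t).card := by
    rw [← Set.ncard_coe_finset]
    congr 1
    ext y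
    simp only [Set.mem_ofPred_eq, Finset.coe_filter]
  have h4 : Λ t ⊆ ((Λ t).filter fun y => g⁻¹ * y ∈ Λ t) ∪
      (I.filter fun y => t < f y ∧ f (g⁻¹ * y) ≤ t) := by
    intro y hy
    have hy' := Finset.mem_filter.1 hy
    rcases lt_or_ge t (f (g⁻¹ * y)) with hc | hc
    · exact Finset.mem_union_left _ (Finset.mem_filter.2
        ⟨hy, Finset.mem_filter.2 ⟨hI _ (lt_of_le_of_lt (Nat.zero_le _) hc), hc⟩⟩)
    · exact Finset.mem_union_right _ (Finset.mem_filter.2 ⟨hy'.1, hy'.2, hc⟩)
  have h5 := (Finset.card_le_card h4).trans (Finset.card_union_le _ _)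
  have h6 : ((Λ t).card : ℝ) ≤ ((Λ t).filter fun y => g⁻¹ * y ∈ Λ t).card + bad g t := by
    exact_mod_cast h5
  rw [h3]
  linarith

theorem ElemAmenable.mfoel (h : ElemAmenable G) : MFoel G := by
  induction h with
  | finite G => exact MFoel.finite
  | comm G h => exact MFoel.comm h
  | sub H G f hf _ ih => exact MFoel.sub f hf ih
  | quot G H f hf _ ih => exact MFoel.quot f hf ih
  | ext G N _ _ ih₁ ih₂ => exact MFoel.ext N ih₁ ih₂
  | union G ι H hd hc _ ih => exact MFoel.union H hd hc ih

theorem ElemAmenable.foel (h : ElemAmenable G) (K : Subgroup G) : Foel K :=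
  (ElemAmenable.sub K G K.subtype K.subtype_injective h).mfoel.foel

end Pool.Agent.Izumi
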