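import Pool.Agent.Lib.MP_b2135d_an.Core

/-! Trace facts (PLAN section 1). -/

namespace Pool.Agent.Izumi

open scoped ComplexOrder Matrix
open Filter Topology

set_option linter.unusedSectionVars false

variable {A : Type} [CStarAlgebra A] [PartialOrder A] [StarOrderedRing A] {τ : A →ₚ[ℂ] ℂ}

theorem ca_n2_eq (τ : A →ₚ[ℂ] ℂ) (x : A) : n2 τ x = ‖τ.toPreGNS x‖ := rfl

theorem ca_cs (τ : A →ₚ[ℂ] ℂ) (x y : A) : ‖τ (star x * y)‖ ≤ n2 τ x * n2 τ y :=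
  norm_inner_le_norm (𝕜 := ℂ) (τ.toPreGNS x) (τ.toPreGNS y)

theorem ca_left (τ : A →ₚ[ℂ] ℂ) (x y : A) : n2 τ (x * y) ≤ ‖x‖ * n2 τ y := by
  have h1 : star y * (star x * x) * y ≤ ‖star x * x‖ • (star y * y) :=
    CStarAlgebra.star_left_conjugate_le_norm_smul
  have h2 : (τ (star (x * y) * (x * y))).re ≤ ‖x‖ ^ 2 * (τ (star y * y)).re := by
    have h3 := (OrderHomClass.mono τ h1).1
    rw [CStarRing.norm_star_mul_self, ← Complex.coe_smul, map_smul, smul_eq_mul,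
      Complex.re_ofReal_mul] at h3
    have e : star (x * y) * (x * y) = star y * (star x * x) * y := by
      simp only [star_mul, mul_assoc]
    rw [e, sq]
    exact h3
  unfold n2
  calc √((τ (star (x * y) * (x * y))).re) ≤ √(‖x‖ ^ 2 * (τ (star y * y)).re) :=
        Real.sqrt_le_sqrt h2
    _ = ‖x‖ * √((τ (star y * y)).re) := by
        rw [Real.sqrt_mul (sq_nonneg _), Real.sqrt_sq (norm_nonneg _)]

omit [StarOrderedRing A] in
theorem ca_one (h : IsTracialState τ) : n2 τ 1 = 1 := by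
  simp [n2, h.1]

theorem ca_tr_le (h : IsTracialState τ) (x : A) : ‖τ x‖ ≤ n2 τ x := by
  have := ca_cs τ 1 x
  rwa [star_one, one_mul, ca_one h, one_mul] at this

theorem ca_n2_le (h : IsTracialState τ) (x : A) : n2 τ x ≤ ‖x‖ := by
  have := ca_left τ x 1
  rwa [mul_one, ca_one h, mul_one] at this

theorem tr_re_nonneg (τ : A →ₚ[ℂ] ℂ) {x : A} (hx : 0 ≤ x) : 0 ≤ (τ x).re :=
  (τ.map_nonneg hx).1

theorem tr_re_mono (τ : A →ₚ[ℂ] ℂ) {x y : A} (h : x ≤ y) : (τ x).re ≤ (τ y).re :=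
  (OrderHomClass.mono τ h).1

theorem tr_star (τ : A →ₚ[ℂ] ℂ) (x : A) : τ (star x) = star (τ x) :=
  map_star τ x

theorem tr_im_of_sa (τ : A →ₚ[ℂ] ℂ) {x : A} (hx : IsSelfAdjoint x) : (τ x).im = 0 := by
  have h := tr_star τ x
  rw [hx.star_eq] at h
  exact Complex.conj_eq_iff_im.1 h.symm

theorem tr_norm_le (h : IsTracialState τ) (x : A) : ‖τ x‖ ≤ ‖x‖ :=
  (ca_tr_le h x).trans (ca_n2_le h x)

theorem tr_re_le_one (h : IsTracialState τ) {x : A} (hx : x ≤ 1) : (τ x).re ≤ 1 := by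
  have := tr_re_mono τ hx
  rwa [h.1, Complex.one_re] at this

theorem tr_continuous (τ : A →ₚ[ℂ] ℂ) : Continuous τ :=
  map_continuous τ

theorem nontrivial_of_tr (h : IsTracialState τ) : Nontrivial A := by
  refine ⟨⟨1, 0, fun e => ?_⟩⟩
  have h1 := h.1
  rw [e, map_zero] at h1
  exact zero_ne_one h1

theorem tr_mul_nonneg (h : IsTracialState τ) {a b : A} (ha : 0 ≤ a) (hb : 0 ≤ b) :
    0 ≤ (τ (a * b)).re := by
  obtain ⟨s, rfl⟩ := CStarAlgebra.nonneg_iff_eq_star_mul_self.1 ha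
  rw [mul_assoc, h.2]
  exact tr_re_nonneg τ (star_right_conjugate_nonneg hb s)

theorem tr_mul_im (h : IsTracialState τ) {a b : A} (ha : IsSelfAdjoint a)
    (hb : IsSelfAdjoint b) : (τ (a * b)).im = 0 := by
  have h1 := tr_star τ (a * b)
  rw [star_mul, ha.star_eq, hb.star_eq, h.2] at h1
  exact Complex.conj_eq_iff_im.1 h1.symm

theorem tr_mul_le (h : IsTracialState τ) {a b : A} (ha : 0 ≤ a) (hb : b ≤ 1) :
    (τ (a * b)).re ≤ (τ a).re := by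
  have h1 := tr_mul_nonneg h ha (sub_nonneg.2 hb)
  rw [mul_sub, mul_one, map_sub, Complex.sub_re] at h1
  linarith

theorem n2_nonneg (τ : A →ₚ[ℂ] ℂ) (x : A) : 0 ≤ n2 τ x :=
  Real.sqrt_nonneg _

theorem n2_sq (τ : A →ₚ[ℂ] ℂ) (x : A) : n2 τ x ^ 2 = (τ (star x * x)).re :=
  Real.sq_sqrt (tr_re_nonneg τ (star_mul_self_nonneg x))

theorem n2_zero (τ : A →ₚ[ℂ] ℂ) : n2 τ 0 = 0 := by
  simp [n2]

theorem n2_add_le (τ : A →ₚ[ℂ] ℂ) (x y : A) : n2 τ (x + y) ≤ n2 τ x + n2 τ y := by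
  simp only [ca_n2_eq, map_add]
  exact norm_add_le _ _

theorem n2_smul (τ : A →ₚ[ℂ] ℂ) (c : ℂ) (x : A) : n2 τ (c • x) = ‖c‖ * n2 τ x := by
  simp only [ca_n2_eq, map_smul]
  exact norm_smul _ _

theorem n2_real_smul (τ : A →ₚ[ℂ] ℂ) (c : ℝ) (x : A) : n2 τ (c • x) = |c| * n2 τ x := by
  rw [← Complex.coe_smul, n2_smul, Complex.norm_real, Real.norm_eq_abs]

theorem n2_neg (τ : A →ₚ[ℂ] ℂ) (x : A) : n2 τ (-x) = n2 τ x := by
  simp [n2]

theorem n2_sub_comm (τ : A →ₚ[ℂ] ℂ) (x y : A) : n2 τ (x - y) = n2 τ (y - x) := by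
  rw [← n2_neg, neg_sub]

theorem n2_sum_le (τ : A →ₚ[ℂ] ℂ) {ι : Type} (s : Finset ι) (x : ι → A) :
    n2 τ (∑ i ∈ s, x i) ≤ ∑ i ∈ s, n2 τ (x i) := by
  simp only [ca_n2_eq, map_sum]
  exact norm_sum_le _ _

theorem n2_parallelogram (τ : A →ₚ[ℂ] ℂ) (x y : A) :
    n2 τ (x + y) ^ 2 + n2 τ (x - y) ^ 2 = 2 * n2 τ x ^ 2 + 2 * n2 τ y ^ 2 := by
  simp only [n2_sq, star_add, star_sub, add_mul, mul_add, sub_mul, mul_sub, map_add, map_sub,
    Complex.add_re, Complex.sub_re]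
  ring

theorem norm_tr_mul_le (τ : A →ₚ[ℂ] ℂ) (x y : A) : ‖τ (star x * y)‖ ≤ n2 τ x * n2 τ y :=
  ca_cs τ x y

theorem n2_mul_le_left (τ : A →ₚ[ℂ] ℂ) (x y : A) : n2 τ (x * y) ≤ ‖x‖ * n2 τ y :=
  ca_left τ x y

theorem n2_star (h : IsTracialState τ) (x : A) : n2 τ (star x) = n2 τ x := by
  unfold n2
  rw [star_star, h.2]

theorem n2_mul_le_right (h : IsTracialState τ) (x y : A) : n2 τ (x * y) ≤ n2 τ x * ‖y‖ := by
  have h1 := ca_left τ (star y) (star x)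
  rwa [← star_mul, n2_star h, n2_star h, norm_star, mul_comm] at h1

theorem n2_one (h : IsTracialState τ) : n2 τ 1 = 1 :=
  ca_one h

theorem n2_le_norm (h : IsTracialState τ) (x : A) : n2 τ x ≤ ‖x‖ :=
  ca_n2_le h x

theorem norm_tr_le_n2 (h : IsTracialState τ) (x : A) : ‖τ x‖ ≤ n2 τ x :=
  ca_tr_le h x

theorem n2_aut (θ : A ≃⋆ₐ[ℂ] A) (hθ : ∀ x, τ (θ x) = τ x) (x : A) : n2 τ (θ x) = n2 τ x := by
  unfold n2
  rw [← map_star, ← map_mul, hθ]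

theorem ca_pow_sub (h : IsTracialState τ) {a b : A} (ha : ‖a‖ ≤ 1) (hb : ‖b‖ ≤ 1) (m : ℕ) :
    n2 τ (a ^ m - b ^ m) ≤ m * n2 τ (a - b) := by
  have := nontrivial_of_tr h
  induction m with
  | zero => simp [n2_zero]
  | succ m ih =>
    have e : a ^ (m + 1) - b ^ (m + 1) = a * (a ^ m - b ^ m) + (a - b) * b ^ m := by
      rw [pow_succ', pow_succ']; noncomm_ring
    have h1 := n2_mul_le_left τ a (a ^ m - b ^ m)
    have h2 := n2_mul_le_right h (a - b) (b ^ m)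
    have h3 : ‖b ^ m‖ ≤ 1 := (norm_pow_le b m).trans (pow_le_one₀ (norm_nonneg _) hb)
    have h4 := n2_nonneg τ (a - b)
    have h5 := n2_nonneg τ (a ^ m - b ^ m)
    have h6 : ‖a‖ * n2 τ (a ^ m - b ^ m) ≤ n2 τ (a ^ m - b ^ m) := mul_le_of_le_one_left h5 ha
    have h7 : n2 τ (a - b) * ‖b ^ m‖ ≤ n2 τ (a - b) := mul_le_of_le_one_right h4 h3
    have h8 := n2_add_le τ (a * (a ^ m - b ^ m)) ((a - b) * b ^ m)
    rw [e]
    push_cast
    linarith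

theorem tr_pow_sub_le (h : IsTracialState τ) {a b : A} (ha : ‖a‖ ≤ 1) (hb : ‖b‖ ≤ 1) (m : ℕ) :
    ‖τ (a ^ m) - τ (b ^ m)‖ ≤ m * n2 τ (a - b) := by
  rw [← map_sub]
  exact (norm_tr_le_n2 h _).trans (ca_pow_sub h ha hb m)

theorem tr_mu (h : IsTracialState τ) {ι : Type} [Fintype ι] [DecidableEq ι] {e : ι → ι → A}
    (he : IsMU e) {x : A} (hx : ∀ i j, Commute x (e i j)) (i j : ι) :
    τ (x * e i j) = if i = j then τ x / (Fintype.card ι : ℂ) else 0 := by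
  have key : ∀ a b c : ι, τ (x * e a b) = τ (x * (e c b * e a c)) := by
    intro a b c
    have h1 : e a b = e a c * e c b := by rw [he.mul, if_pos rfl]
    rw [h1, ← mul_assoc, h.2, ← mul_assoc, ← (hx c b).eq, mul_assoc]
  split_ifs with hij
  · subst hij
    have h2 : ∀ c, τ (x * e c c) = τ (x * e i i) := by
      intro c
      rw [key c c i, he.mul, if_pos rfl]
    have h3 : τ x = (Fintype.card ι : ℂ) * τ (x * e i i) := by
      calc τ x = τ (x * ∑ c, e c c) := by rw [he.sum, mul_one]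
        _ = ∑ c, τ (x * e c c) := by rw [Finset.mul_sum, map_sum]
        _ = _ := by simp only [h2, Finset.sum_const, Finset.card_univ, nsmul_eq_mul]
    have h4 : (Fintype.card ι : ℂ) ≠ 0 :=
      Nat.cast_ne_zero.2 (Fintype.card_pos_iff.2 ⟨i⟩).ne'
    rw [h3, mul_div_cancel_left₀ _ h4]
  · rw [key i j i, he.mul, if_neg (fun e => hij e.symm), mul_zero, map_zero]

end Pool.Agent.Izumi
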