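import Pool.Agent.Lib.MP_b2135d_an.SA
import Pool.Agent.Lib.MP_b2135d_an.CA

/-! Homomorphisms from approximate homomorphisms (PLAN section 2). -/

namespace Pool.Agent.Izumi

open scoped ComplexOrder Matrix
open Filter Topology

variable {G A : Type} [Group G] [CStarAlgebra A] [PartialOrder A] [StarOrderedRing A]

/-- `Φ` is an approximate unital contractive homomorphism on the finite set `s`. -/
structure ApproxHom {E : Type} [CStarAlgebra E] (s : Finset E) (ε : ℝ) (Φ : E → A) : Prop where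
  add : ∀ x ∈ s, ∀ y ∈ s, ‖Φ (x + y) - (Φ x + Φ y)‖ ≤ ε
  mul : ∀ x ∈ s, ∀ y ∈ s, ‖Φ (x * y) - Φ x * Φ y‖ ≤ ε
  star : ∀ x ∈ s, ‖Φ (star x) - star (Φ x)‖ ≤ ε
  smul_I : ∀ x ∈ s, ‖Φ (Complex.I • x) - Complex.I • Φ x‖ ≤ ε
  one : ‖Φ 1 - 1‖ ≤ ε
  norm : ∀ x ∈ s, ‖Φ x‖ ≤ ‖x‖ + ε

theorem ApproxHom.of_hom {E : Type} [CStarAlgebra E] (s : Finset E) {ε : ℝ} (hε : 0 ≤ ε)
    (φ : E →⋆ₐ[ℂ] A) : ApproxHom s ε φ := by
  refine ⟨fun x _ y _ => ?_, fun x _ y _ => ?_, fun x _ => ?_, fun x _ => ?_, ?_, fun x _ => ?_⟩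
  · rw [map_add, sub_self, norm_zero]; exact hε
  · rw [map_mul, sub_self, norm_zero]; exact hε
  · rw [map_star, sub_self, norm_zero]; exact hε
  · rw [map_smul, sub_self, norm_zero]; exact hε
  · rw [map_one, sub_self, norm_zero]; exact hε
  · exact (NonUnitalStarAlgHom.norm_apply_le φ x).trans (le_add_of_nonneg_right hε)

omit [StarOrderedRing A] in
/-- Saturation for a countable family of conditions with a slack. -/
theorem sb_sat_eps {τ : A →ₚ[ℂ] ℂ} {γ : G →* (A ≃⋆ₐ[ℂ] A)} (h : Saturated τ γ) {ι : Type}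
    [Countable ι] (R : ι → ℝ) {J : Type} [Countable J] (C : J → ℝ → (ι → A) → Prop)
    (hC : ∀ (N : ℕ) (e : J → ℕ), Defn τ γ (fun x => ∀ j, e j ≤ N → C j (1 / ((N : ℝ) + 1)) x))
    (mono : ∀ j ε ε' x, ε ≤ ε' → C j ε x → C j ε' x)
    (H : ∀ (s : Finset J) (ε : ℝ), 0 < ε → ε ≤ 1 →
      ∃ x : ι → A, (∀ i, ‖x i‖ ≤ R i) ∧ ∀ j ∈ s, C j ε x) :
    ∃ x : ι → A, ∀ j ε, 0 < ε → C j ε x := by
  obtain ⟨e, he⟩ := exists_injective_nat J
  obtain ⟨x, -, hx⟩ := h ι R (fun N x => ∀ j, e j ≤ N → C j (1 / ((N : ℝ) + 1)) x)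
    (fun N => hC N e) (fun N => by
      have hfin : {j | e j ≤ N}.Finite := (Set.finite_Iic N).preimage he.injOn
      have hN : (0 : ℝ) ≤ N := Nat.cast_nonneg N
      obtain ⟨x, hx1, hx2⟩ := H hfin.toFinset (1 / ((N : ℝ) + 1)) (by positivity)
        (by rw [div_le_one (by positivity)]; linarith)
      refine ⟨x, hx1, fun n hn j hj => mono j _ _ x ?_ (hx2 j ?_)⟩
      · have : (n : ℝ) ≤ N := by exact_mod_cast hn
        have hn0 : (0 : ℝ) ≤ n := Nat.cast_nonneg n
        exact one_div_le_one_div_of_le (by positivity) (by linarith)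
      · simpa using hj.trans hn)
  refine ⟨x, fun j ε hε => ?_⟩
  obtain ⟨n, hn⟩ := exists_nat_one_div_lt hε
  refine mono j _ _ x ?_ (hx (max n (e j)) j (le_max_right _ _))
  have h1 : (n : ℝ) ≤ ((max n (e j) : ℕ) : ℝ) := by exact_mod_cast le_max_left _ _
  have hn0 : (0 : ℝ) ≤ n := Nat.cast_nonneg n
  exact (one_div_le_one_div_of_le (by positivity) (by linarith)).trans hn.le

/-- A countable dense set closed under the operations. -/
theorem sb_exists_dense {E : Type} [CStarAlgebra E] [TopologicalSpace.SeparableSpace E]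
    {κ : Type} [Countable κ] (ρ : κ → E → E) :
    ∃ D : Set E, D.Countable ∧ Dense D ∧ (1 : E) ∈ D ∧ (∀ a ∈ D, ∀ b ∈ D, a + b ∈ D) ∧
      (∀ a ∈ D, ∀ b ∈ D, a * b ∈ D) ∧ (∀ a ∈ D, star a ∈ D) ∧ (∀ a ∈ D, Complex.I • a ∈ D) ∧
      ∀ k, ∀ a ∈ D, ρ k a ∈ D := by
  obtain ⟨D0, hc, hd⟩ := TopologicalSpace.exists_countable_dense E
  let st : Set E → Set E := fun U => U ∪ Set.image2 (· + ·) U U ∪ Set.image2 (· * ·) U U ∪
    star '' U ∪ (fun a => Complex.I • a) '' U ∪ ⋃ k, ρ k '' U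
  let W : ℕ → Set E := fun n => st^[n] (insert 1 D0)
  have hs : ∀ n, W (n + 1) = st (W n) := fun n => Function.iterate_succ_apply' st n _
  have hW : ∀ n, (W n).Countable := by
    intro n
    induction n with
    | zero => exact hc.insert 1
    | succ n ih =>
      rw [hs]
      exact ((((ih.union (ih.image2 ih _)).union (ih.image2 ih _)).union (ih.image _)).union
        (ih.image _)).union (Set.countable_iUnion fun k => ih.image _)
  have hm : Monotone W := monotone_nat_of_le_succ fun n a ha => by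
    rw [hs]; exact Or.inl (Or.inl (Or.inl (Or.inl (Or.inl ha))))
  refine ⟨⋃ n, W n, Set.countable_iUnion hW, hd.mono fun a ha => ?_, ?_, ?_, ?_, ?_, ?_, ?_⟩
  · exact Set.mem_iUnion.2 ⟨0, Set.mem_insert_of_mem _ ha⟩
  · exact Set.mem_iUnion.2 ⟨0, Set.mem_insert _ _⟩
  · intro a ha b hb
    obtain ⟨m, ha⟩ := Set.mem_iUnion.1 ha
    obtain ⟨n, hb⟩ := Set.mem_iUnion.1 hb
    refine Set.mem_iUnion.2 ⟨max m n + 1, ?_⟩
    rw [hs]
    exact Or.inl (Or.inl (Or.inl (Or.inl (Or.inr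
      (Set.mem_image2_of_mem (hm (le_max_left m n) ha) (hm (le_max_right m n) hb))))))
  · intro a ha b hb
    obtain ⟨m, ha⟩ := Set.mem_iUnion.1 ha
    obtain ⟨n, hb⟩ := Set.mem_iUnion.1 hb
    refine Set.mem_iUnion.2 ⟨max m n + 1, ?_⟩
    rw [hs]
    exact Or.inl (Or.inl (Or.inl (Or.inr
      (Set.mem_image2_of_mem (hm (le_max_left m n) ha) (hm (le_max_right m n) hb)))))
  · intro a ha
    obtain ⟨m, ha⟩ := Set.mem_iUnion.1 ha
    refine Set.mem_iUnion.2 ⟨m + 1, ?_⟩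
    rw [hs]
    exact Or.inl (Or.inl (Or.inr ⟨a, ha, rfl⟩))
  · intro a ha
    obtain ⟨m, ha⟩ := Set.mem_iUnion.1 ha
    refine Set.mem_iUnion.2 ⟨m + 1, ?_⟩
    rw [hs]
    exact Or.inl (Or.inr ⟨a, ha, rfl⟩)
  · intro k a ha
    obtain ⟨m, ha⟩ := Set.mem_iUnion.1 ha
    refine Set.mem_iUnion.2 ⟨m + 1, ?_⟩
    rw [hs]
    exact Or.inr (Set.mem_iUnion.2 ⟨k, a, ha, rfl⟩)

omit [PartialOrder A] [StarOrderedRing A] in
/-- Extension of a contractive homomorphism from a dense subring. -/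
theorem sb_extend {E : Type} [CStarAlgebra E] {D : Set E} (hd : Dense D) (h1 : (1 : E) ∈ D)
    (hadd : ∀ a ∈ D, ∀ b ∈ D, a + b ∈ D) (hmul : ∀ a ∈ D, ∀ b ∈ D, a * b ∈ D)
    (hstar : ∀ a ∈ D, star a ∈ D) (hI : ∀ a ∈ D, Complex.I • a ∈ D) (ψ : E → A)
    (a1 : ∀ a ∈ D, ∀ b ∈ D, ψ (a + b) = ψ a + ψ b) (a2 : ∀ a ∈ D, ∀ b ∈ D, ψ (a * b) = ψ a * ψ b)
    (a3 : ∀ a ∈ D, ψ (star a) = star (ψ a)) (a4 : ∀ a ∈ D, ψ (Complex.I • a) = Complex.I • ψ a)
    (a5 : ψ 1 = 1) (a6 : ∀ a ∈ D, ‖ψ a‖ ≤ ‖a‖) :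
    ∃ φ : E →⋆ₐ[ℂ] A, ∀ a ∈ D, φ a = ψ a := by
  have hII : ∀ {V : Type} [AddCommGroup V] [Module ℂ V] (v : V),
      Complex.I • Complex.I • v = -v := by
    intro V _ _ v
    rw [smul_smul, Complex.I_mul_I, neg_one_smul]
  have hL : LipschitzWith 1 (fun a : D => ψ a) := by
    refine LipschitzWith.of_dist_le_mul fun a b => ?_
    have hb := hI _ (hI _ b.2)
    have e1 := a1 _ a.2 _ hb
    rw [a4 _ (hI _ b.2), a4 _ b.2, hII, hII, ← sub_eq_add_neg, ← sub_eq_add_neg] at e1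
    have e2 := a6 _ (hadd _ a.2 _ hb)
    rw [hII, ← sub_eq_add_neg, e1] at e2
    rw [dist_eq_norm, Subtype.dist_eq, dist_eq_norm]
    simpa using e2
  let f : E → A := hd.extend (fun a : D => ψ a)
  have hf : Continuous f := (hd.uniformContinuous_extend hL.uniformContinuous).continuous
  have hfe : ∀ a ∈ D, f a = ψ a := fun a ha => hd.extend_of_ind hL.uniformContinuous ⟨a, ha⟩
  have fadd : ∀ a b, f (a + b) = f a + f b := by
    have : (fun p : E × E => f (p.1 + p.2)) = fun p => f p.1 + f p.2 :=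
      Continuous.ext_on (hd.prod hd) (by fun_prop) (by fun_prop) fun p hp => by
        show f (p.1 + p.2) = f p.1 + f p.2
        rw [hfe _ (hadd _ hp.1 _ hp.2), hfe _ hp.1, hfe _ hp.2, a1 _ hp.1 _ hp.2]
    exact fun a b => congrFun this (a, b)
  have fmul : ∀ a b, f (a * b) = f a * f b := by
    have : (fun p : E × E => f (p.1 * p.2)) = fun p => f p.1 * f p.2 :=
      Continuous.ext_on (hd.prod hd) (by fun_prop) (by fun_prop) fun p hp => by
        show f (p.1 * p.2) = f p.1 * f p.2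
        rw [hfe _ (hmul _ hp.1 _ hp.2), hfe _ hp.1, hfe _ hp.2, a2 _ hp.1 _ hp.2]
    exact fun a b => congrFun this (a, b)
  have fstar : ∀ a, f (star a) = star (f a) := by
    have : (fun a : E => f (star a)) = fun a => star (f a) :=
      Continuous.ext_on hd (by fun_prop) (by fun_prop) fun a ha => by
        show f (star a) = star (f a)
        rw [hfe _ (hstar _ ha), hfe _ ha, a3 _ ha]
    exact fun a => congrFun this a
  have fI : ∀ a, f (Complex.I • a) = Complex.I • f a := by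
    have : (fun a : E => f (Complex.I • a)) = fun a => Complex.I • f a :=
      Continuous.ext_on hd (by fun_prop) (by fun_prop) fun a ha => by
        show f (Complex.I • a) = Complex.I • f a
        rw [hfe _ (hI _ ha), hfe _ ha, a4 _ ha]
    exact fun a => congrFun this a
  let g : E →+ A := AddMonoidHom.mk' f fadd
  have freal : ∀ (c : ℝ) a, f (c • a) = c • f a := fun c a => map_real_smul g hf c a
  have hdec : ∀ {V : Type} [AddCommGroup V] [Module ℂ V] (c : ℂ) (v : V),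
      c • v = (c.re : ℂ) • v + (c.im : ℂ) • Complex.I • v := by
    intro V _ _ c v
    rw [smul_smul, ← add_smul, Complex.re_add_im]
  have fsmul : ∀ (c : ℂ) a, f (c • a) = c • f a := by
    intro c a
    rw [hdec c a, hdec c (f a), fadd, Complex.coe_smul, Complex.coe_smul, freal, freal, fI,
      Complex.coe_smul, Complex.coe_smul]
  have fone : f 1 = 1 := by rw [hfe _ h1, a5]
  exact ⟨{ toFun := f
           map_one' := fone
           map_mul' := fmul
           map_zero' := map_zero g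
           map_add' := fadd
           commutes' := fun c => by
             rw [Algebra.algebraMap_eq_smul_one, Algebra.algebraMap_eq_smul_one, fsmul, fone]
           map_star' := fstar }, hfe⟩

theorem sb_eq_of_le {V : Type} [NormedAddCommGroup V] {u v : V}
    (h : ∀ ε : ℝ, 0 < ε → ‖u - v‖ ≤ ε) : u = v := by
  rw [← sub_eq_zero, ← norm_le_zero_iff]
  exact le_of_forall_pos_le_add fun ε hε => by simpa using h ε hε

theorem Sat.satHom (S : Sat G A) {E : Type} [CStarAlgebra E]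
    [TopologicalSpace.SeparableSpace E] {κ : Type} [Countable κ] (gs : κ → G) (ρ : κ → E → E)
    (hρ : ∀ k, Continuous (ρ k)) (T T₁ : Set A) (hT : T.Countable) (hT₁ : T₁.Countable)
    (σ : E → ℂ) (hσ : Continuous σ)
    (H : ∀ (s : Finset E) (sk : Finset κ) (sT sT₁ : Finset A) (ε : ℝ), (sT : Set A) ⊆ T →
      (sT₁ : Set A) ⊆ T₁ → 0 < ε → ∃ Φ : E → A, ApproxHom s ε Φ ∧
        (∀ k ∈ sk, ∀ x ∈ s, ‖S.γ (gs k) (Φ x) - Φ (ρ k x)‖ ≤ ε) ∧
        (∀ t ∈ sT, ∀ x ∈ s, ‖Φ x * t - t * Φ x‖ ≤ ε) ∧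
        ∀ t ∈ sT₁, ∀ x ∈ s, ‖S.τ (t * Φ x) - S.τ t * σ x‖ ≤ ε) :
    ∃ φ : E →⋆ₐ[ℂ] A, (∀ k x, φ (ρ k x) = S.γ (gs k) (φ x)) ∧ (∀ x, φ x ∈ cent T) ∧
      ∀ t ∈ T₁, ∀ x, S.τ (t * φ x) = S.τ t * σ x := by
  classical
  obtain ⟨D, hc, hd, h1, hadd, hmul, hstar, hI, hrho⟩ := sb_exists_dense ρ
  have : Countable D := hc.to_subtype
  have : Countable T := hT.to_subtype
  have : Countable T₁ := hT₁.to_subtype
  let X : (D → A) → E → A := fun x e => if h : e ∈ D then x ⟨e, h⟩ else 0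
  have hX : ∀ e, IsTerm S.γ (fun x => X x e) := by
    intro e
    by_cases h : e ∈ D
    · exact (IsTerm.var ⟨e, h⟩).congr fun x => by simp only [X, dif_pos h]
    · exact (IsTerm.const 0).congr fun x => by simp only [X, dif_neg h]
  let U : Set ℂ := {1, -1, Complex.I, -Complex.I}
  have hU : U.Countable := (Set.toFinite U).countable
  let C : D × D × Option κ × Option T × Option T₁ → ℝ → (D → A) → Prop := fun j ε x =>
    ‖X x (j.1 + j.2.1) - (X x j.1 + X x j.2.1)‖ ≤ ε ∧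
    ‖X x (j.1 * j.2.1) - X x j.1 * X x j.2.1‖ ≤ ε ∧
    ‖X x (star (j.1 : E)) - star (X x j.1)‖ ≤ ε ∧
    ‖X x (Complex.I • (j.1 : E)) - Complex.I • X x j.1‖ ≤ ε ∧
    ‖X x 1 - 1‖ ≤ ε ∧ ‖X x j.1‖ ≤ ‖(j.1 : E)‖ + ε ∧
    (∀ k, j.2.2.1 = some k → ‖S.γ (gs k) (X x j.1) - X x (ρ k j.1)‖ ≤ ε) ∧
    (∀ t : T, j.2.2.2.1 = some t → ‖X x j.1 * t - t * X x j.1‖ ≤ ε) ∧
    ∀ t : T₁, j.2.2.2.2 = some t → ∀ c ∈ U,
      (S.τ (c • ((t : A) * X x j.1))).re ≤ (c * (S.τ t * σ j.1)).re + ε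
  obtain ⟨x, hx⟩ := sb_sat_eps S.sat (fun i : D => ‖(i : E)‖ + 1) C
    (fun N e => Defn.forall fun j => Defn.imp _ fun _ =>
      (Defn.norm_le ((hX _).sub ((hX _).add (hX _))) _).and <|
      (Defn.norm_le ((hX _).sub ((hX _).mul (hX _))) _).and <|
      (Defn.norm_le ((hX _).sub (hX _).star) _).and <|
      (Defn.norm_le ((hX _).sub ((hX _).smul _)) _).and <|
      (Defn.norm_le ((hX _).sub (IsTerm.const 1)) _).and <|
      (Defn.norm_le (hX _) _).and <|
      (Defn.forall fun k => Defn.imp _ fun _ =>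
        Defn.norm_le (((hX _).act (gs k)).sub (hX _)) _).and <|
      (Defn.forall fun t : T => Defn.imp _ fun _ =>
        Defn.norm_le (((hX _).mul (IsTerm.const _)).sub ((IsTerm.const _).mul (hX _))) _).and <|
      Defn.forall fun t : T₁ => Defn.imp _ fun _ => Defn.forall_mem hU fun c _ =>
        Defn.tr_le (((IsTerm.const _).mul (hX _)).smul c) _)
    (fun j ε ε' x hle h => by
      obtain ⟨c1, c2, c3, c4, c5, c6, c7, c8, c9⟩ := h
      exact ⟨c1.trans hle, c2.trans hle, c3.trans hle, c4.trans hle, c5.trans hle,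
        c6.trans (by linarith), fun k hk => (c7 k hk).trans hle, fun t ht => (c8 t ht).trans hle,
        fun t ht c hc => (c9 t ht c hc).trans (by linarith)⟩)
    (fun s ε hε hε1 => by
      let sk : Finset κ := s.biUnion fun j => j.2.2.1.toFinset
      let sE : Finset E := s.biUnion fun j =>
        ({(j.1 : E), (j.2.1 : E), (j.1 : E) + j.2.1, (j.1 : E) * j.2.1,
          star (j.1 : E),
          Complex.I • (j.1 : E), 1} : Finset E) ∪ sk.image fun k => ρ k j.1
      let sT : Finset A := (s.biUnion fun j => j.2.2.2.1.toFinset).image Subtype.val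
      let sT₁ : Finset A := (s.biUnion fun j => j.2.2.2.2.toFinset).image Subtype.val
      obtain ⟨Φ, hΦ, p1, p2, p3⟩ := H sE sk sT sT₁ ε
        (fun t ht => by
          obtain ⟨u, -, rfl⟩ := Finset.mem_image.1 (Finset.mem_coe.1 ht)
          exact u.2)
        (fun t ht => by
          obtain ⟨u, -, rfl⟩ := Finset.mem_image.1 (Finset.mem_coe.1 ht)
          exact u.2) hε
      let y : D → A := fun i => if ‖Φ i‖ ≤ ‖(i : E)‖ + 1 then Φ i else 0
      have hy : ∀ e ∈ D, e ∈ sE → X y e = Φ e := by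
        intro e he hs
        have h2 : ‖Φ e‖ ≤ ‖e‖ + 1 := (hΦ.norm e hs).trans (by linarith)
        exact (dif_pos he).trans (if_pos h2)
      refine ⟨y, fun i => ?_, fun j hj => ?_⟩
      · by_cases h : ‖Φ i‖ ≤ ‖(i : E)‖ + 1
        · exact (congrArg norm (if_pos h)).le.trans h
        · refine (congrArg norm (if_neg h)).le.trans ?_
          rw [norm_zero]; positivity
      · have hm : ∀ e, e ∈ ({(j.1 : E), (j.2.1 : E), (j.1 : E) + j.2.1, (j.1 : E) * j.2.1,
          star (j.1 : E),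
            Complex.I • (j.1 : E), 1} : Finset E) → e ∈ sE := fun e he =>
          Finset.mem_biUnion.2 ⟨j, hj, Finset.mem_union_left _ he⟩
        have m1 : (j.1 : E) ∈ sE := hm _ (by simp)
        have m2 : (j.2.1 : E) ∈ sE := hm _ (by simp)
        have e1 := hy _ j.1.2 m1
        have e2 := hy _ j.2.1.2 m2
        have e3 := hy _ (hadd _ j.1.2 _ j.2.1.2) (hm _ (by simp))
        have e4 := hy _ (hmul _ j.1.2 _ j.2.1.2) (hm _ (by simp))
        have e5 := hy _ (hstar _ j.1.2) (hm _ (by simp))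
        have e6 := hy _ (hI _ j.1.2) (hm _ (by simp))
        have e7 := hy _ h1 (hm _ (by simp))
        refine ⟨?_, ?_, ?_, ?_, ?_, ?_, fun k hk => ?_, fun t ht => ?_, fun t ht c hc => ?_⟩
        · rw [e1, e2, e3]; exact hΦ.add _ m1 _ m2
        · rw [e1, e2, e4]; exact hΦ.mul _ m1 _ m2
        · rw [e1, e5]; exact hΦ.star _ m1
        · rw [e1, e6]; exact hΦ.smul_I _ m1
        · rw [e7]; exact hΦ.one
        · rw [e1]; exact hΦ.norm _ m1
        · have hk' : k ∈ sk := Finset.mem_biUnion.2 ⟨j, hj, by simp [hk]⟩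
          rw [e1, hy _ (hrho k _ j.1.2) (Finset.mem_biUnion.2 ⟨j, hj,
            Finset.mem_union_right _ (Finset.mem_image_of_mem _ hk')⟩)]
          exact p1 k hk' _ m1
        · rw [e1]
          exact p2 _ (Finset.mem_image_of_mem _ (Finset.mem_biUnion.2 ⟨j, hj, by simp [ht]⟩)) _ m1
        · rw [e1, map_smul, smul_eq_mul]
          have q := p3 _ (Finset.mem_image_of_mem _
            (Finset.mem_biUnion.2 ⟨j, hj, (by simp [ht] : t ∈ j.2.2.2.2.toFinset)⟩)) _ m1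
          have hc1 : ‖c‖ = 1 := by
            rcases hc with rfl | rfl | rfl | rfl <;> simp
          have q2 := Complex.re_le_norm (c * (S.τ ((t : A) * Φ j.1) - S.τ t * σ j.1))
          rw [norm_mul, hc1, one_mul, mul_sub, Complex.sub_re] at q2
          linarith)
  obtain ⟨φ, hφ⟩ := sb_extend hd h1 hadd hmul hstar hI (X x)
    (fun a ha b hb => sb_eq_of_le fun ε hε => (hx (⟨a, ha⟩, ⟨b, hb⟩, none, none, none) ε hε).1)
    (fun a ha b hb => sb_eq_of_le fun ε hε => (hx (⟨a, ha⟩, ⟨b, hb⟩, none, none, none) ε hε).2.1)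
    (fun a ha => sb_eq_of_le fun ε hε => (hx (⟨a, ha⟩, ⟨a, ha⟩, none, none, none) ε hε).2.2.1)
    (fun a ha => sb_eq_of_le fun ε hε => (hx (⟨a, ha⟩, ⟨a, ha⟩, none, none, none) ε hε).2.2.2.1)
    (sb_eq_of_le fun ε hε => (hx (⟨1, h1⟩, ⟨1, h1⟩, none, none, none) ε hε).2.2.2.2.1)
    (fun a ha => le_of_forall_pos_le_add fun ε hε =>
      (hx (⟨a, ha⟩, ⟨a, ha⟩, none, none, none) ε hε).2.2.2.2.2.1)
  have hφc := hom_continuous φ
  have hcomm : ∀ t ∈ T, ∀ e, φ e * t = t * φ e := by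
    intro t ht e
    have : (fun e => φ e * t) = fun e => t * φ e :=
      Continuous.ext_on hd (by fun_prop) (by fun_prop) fun a ha => by
        show φ a * t = t * φ a
        rw [hφ _ ha]
        exact sb_eq_of_le fun ε hε =>
          (hx (⟨a, ha⟩, ⟨a, ha⟩, none, some ⟨t, ht⟩, none) ε hε).2.2.2.2.2.2.2.1 ⟨t, ht⟩ rfl
    exact congrFun this e
  refine ⟨φ, fun k e => ?_, fun e => ?_, fun t ht e => ?_⟩
  · have : (fun e => φ (ρ k e)) = fun e => S.γ (gs k) (φ e) :=
      Continuous.ext_on hd (hφc.comp (hρ k)) ((aut_continuous _).comp hφc) fun a ha => by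
        show φ (ρ k a) = S.γ (gs k) (φ a)
        rw [hφ _ ha, hφ _ (hrho k _ ha)]
        exact (sb_eq_of_le fun ε hε =>
          (hx (⟨a, ha⟩, ⟨a, ha⟩, some k, none, none) ε hε).2.2.2.2.2.2.1 k rfl).symm
    exact congrFun this e
  · refine mem_cent.2 fun t ht => ⟨hcomm t ht e, ?_⟩
    have h2 := congrArg star (hcomm t ht (star e))
    rw [star_mul, star_mul, map_star, star_star] at h2
    exact h2.symm
  · have : (fun e => S.τ (t * φ e)) = fun e => S.τ t * σ e :=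
      Continuous.ext_on hd ((tr_continuous _).comp (continuous_const.mul hφc))
        (continuous_const.mul hσ) fun a ha => by
        show S.τ (t * φ a) = S.τ t * σ a
        rw [hφ _ ha]
        have q : ∀ c ∈ U, (c * S.τ (t * X x a)).re ≤ (c * (S.τ t * σ a)).re := fun c hc =>
          le_of_forall_pos_le_add fun ε hε => by
            have := (hx (⟨a, ha⟩, ⟨a, ha⟩, none, none, some ⟨t, ht⟩) ε hε).2.2.2.2.2.2.2.2
              ⟨t, ht⟩ rfl c hc
            rwa [map_smul, smul_eq_mul] at this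
        have q1 := q 1 (by simp [U])
        have q2 := q (-1) (by simp [U])
        have q3 := q Complex.I (by simp [U])
        have q4 := q (-Complex.I) (by simp [U])
        generalize S.τ (t * X x a) = u at q1 q2 q3 q4 ⊢
        generalize S.τ t * σ a = v at q1 q2 q3 q4 ⊢
        simp only [one_mul, neg_mul, Complex.neg_re, Complex.I_mul_re, neg_neg] at q1 q2 q3 q4
        exact Complex.ext (by linarith) (by linarith)
    exact congrFun this e

end Pool.Agent.Izumi
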