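import Pool.Agent.Lib.MP_b2135d_an.DA
import Pool.Agent.Lib.MP_b2135d_an.SB

/-! The trivial subgroup and unions (PLAN section 7). -/

namespace Pool.Agent.Izumi

open scoped ComplexOrder Matrix
open Filter Topology

theorem ba_approx {A E ι : Type} [CStarAlgebra A] [CStarAlgebra E] [Nontrivial E] [Fintype ι]
    [DecidableEq ι] (f : Matrix ι ι ℂ →⋆ₐ[ℂ] E) (ψ : Matrix ι ι ℂ →⋆ₐ[ℂ] A) (s : Finset E)
    (M : E → Matrix ι ι ℂ) {δ ε R : ℝ} (hδ0 : 0 ≤ δ) (hδ1 : δ ≤ 1) (hR0 : 0 ≤ R)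
    (hR : ∀ x ∈ s, ‖x‖ ≤ R) (hε : δ * (3 + 2 * R) ≤ ε) (h0 : ∀ x ∈ s, ‖x - f (M x)‖ ≤ δ)
    (h1 : ∀ x ∈ s, ∀ y ∈ s, ‖x + y - f (M (x + y))‖ ≤ δ)
    (h2 : ∀ x ∈ s, ∀ y ∈ s, ‖x * y - f (M (x * y))‖ ≤ δ)
    (h3 : ∀ x ∈ s, ‖star x - f (M (star x))‖ ≤ δ)
    (h4 : ∀ x ∈ s, ‖Complex.I • x - f (M (Complex.I • x))‖ ≤ δ) (h5 : ‖1 - f (M 1)‖ ≤ δ) :
    ApproxHom s ε fun x => ψ (M x) := by
  have hn := mat_hom_norm_le f ψ
  have hδR : 0 ≤ δ * R := mul_nonneg hδ0 hR0
  refine ⟨fun x hx y hy => ?_, fun x hx y hy => ?_, fun x hx => ?_, fun x hx => ?_, ?_,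
    fun x hx => ?_⟩
  · rw [← map_add, ← map_sub]
    refine (hn _).trans ?_
    have e : f (M (x + y) - (M x + M y)) =
        (x - f (M x)) + (y - f (M y)) - (x + y - f (M (x + y))) := by
      rw [map_sub, map_add]
      abel
    rw [e]
    refine (norm_sub_le _ _).trans ?_
    have := norm_add_le (x - f (M x)) (y - f (M y))
    linarith [h0 x hx, h0 y hy, h1 x hx y hy]
  · rw [← map_mul, ← map_sub]
    refine (hn _).trans ?_
    have e : f (M (x * y) - M x * M y) = (x - f (M x)) * y + x * (y - f (M y)) -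
        (x - f (M x)) * (y - f (M y)) - (x * y - f (M (x * y))) := by
      rw [map_sub, map_mul]
      noncomm_ring
    rw [e]
    have a1 : ‖(x - f (M x)) * y‖ ≤ δ * R :=
      (norm_mul_le _ _).trans (mul_le_mul (h0 x hx) (hR y hy) (norm_nonneg _) hδ0)
    have a2 : ‖x * (y - f (M y))‖ ≤ R * δ :=
      (norm_mul_le _ _).trans (mul_le_mul (hR x hx) (h0 y hy) (norm_nonneg _) hR0)
    have a3 : ‖(x - f (M x)) * (y - f (M y))‖ ≤ 1 * δ := (norm_mul_le _ _).trans
      (mul_le_mul ((h0 x hx).trans hδ1) (h0 y hy) (norm_nonneg _) zero_le_one)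
    refine (norm_sub_le _ _).trans ?_
    have a4 := norm_sub_le ((x - f (M x)) * y + x * (y - f (M y))) ((x - f (M x)) * (y - f (M y)))
    have a5 := norm_add_le ((x - f (M x)) * y) (x * (y - f (M y)))
    linarith [h2 x hx y hy]
  · rw [← map_star, ← map_sub]
    refine (hn _).trans ?_
    have e : f (M (star x) - star (M x)) = star (x - f (M x)) - (star x - f (M (star x))) := by
      rw [map_sub, map_star, star_sub]
      abel
    rw [e]
    refine (norm_sub_le _ _).trans ?_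
    rw [norm_star]
    linarith [h0 x hx, h3 x hx]
  · rw [← map_smul, ← map_sub]
    refine (hn _).trans ?_
    have e : f (M (Complex.I • x) - Complex.I • M x) =
        Complex.I • (x - f (M x)) - (Complex.I • x - f (M (Complex.I • x))) := by
      rw [map_sub, map_smul, smul_sub]
      abel
    rw [e]
    refine (norm_sub_le _ _).trans ?_
    rw [norm_smul, Complex.norm_I, one_mul]
    linarith [h0 x hx, h4 x hx]
  · rw [← map_one ψ, ← map_sub]
    refine (hn _).trans ?_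
    rw [map_sub, map_one, norm_sub_rev]
    linarith
  · refine (hn _).trans ?_
    have := norm_sub_norm_le (f (M x)) x
    rw [norm_sub_rev] at this
    linarith [h0 x hx]

theorem ba_comm_le {A : Type} [CStarAlgebra A] {T : Set A} {x t : A} (hx : x ∈ cent T)
    (ht : t ∈ T) {ε : ℝ} (hε : 0 < ε) :
    ‖x * t - t * x‖ ≤ ε ∧ ‖x * star t - star t * x‖ ≤ ε := by
  obtain ⟨h1, h2⟩ := mem_cent.1 hx t ht
  rw [h1.eq, h2.eq, sub_self, sub_self, norm_zero]
  exact ⟨hε.le, hε.le⟩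

theorem ba_flip {A ι : Type} [CStarAlgebra A] [Fintype ι] [DecidableEq ι] {f g : ι → ι → A}
    (hf : IsMU f) (hg : IsMU g) (hc : ∀ i j k l, Commute (f i j) (g k l))
    {C : StarSubalgebra ℂ A} (hfC : ∀ i j, f i j ∈ C) (hgC : ∀ i j, g i j ∈ C) :
    ∃ u ∈ unitary A, u ∈ C ∧ ∀ i j, u * f i j * star u = g i j := by
  obtain ⟨h1, h2, h3⟩ := hf.flip hg hc rfl
  exact ⟨_, Unitary.mem_iff.2 ⟨h1, h2⟩,
    sum_mem fun i _ => sum_mem fun j _ => mul_mem (hfC i j) (hgC j i), h3⟩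

variable {G A : Type} [Group G] [CStarAlgebra A] [PartialOrder A] [StarOrderedRing A] [Countable G]

theorem Sys.emb_bot (X : Sys G A) : X.Emb ⊥ := by
  classical
  intro E _ hU ρ
  have := hU.separable
  obtain ⟨hnt, ⟨c⟩⟩ := hU
  obtain ⟨φ, -, h2, -⟩ := X.toSat.satHom (E := E) (κ := Empty) Empty.elim Empty.elim
    (fun k => k.elim) X.T0 ∅ X.T0_count Set.countable_empty (fun _ => 0) continuous_const
    (fun s sk sT sT₁ ε hT hT₁ hε => by
      have hR0 : 0 ≤ ∑ x ∈ s, ‖x‖ := Finset.sum_nonneg fun x _ => norm_nonneg x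
      have hδ : 0 < min 1 (ε / (3 + 2 * ∑ x ∈ s, ‖x‖)) := by positivity
      obtain ⟨k, -, hk⟩ := c.exists_near (insert 1 (s ∪ Finset.image₂ (· + ·) s s ∪
        Finset.image₂ (· * ·) s s ∪ s.image star ∪ s.image (Complex.I • ·))) hδ 0
      choose! M hM using hk
      obtain ⟨e, he, heF⟩ := X.div0 (c.n k) (c.pos k)
      obtain ⟨ψ, hψ, -⟩ := he.exists_hom
      have hψF : ∀ N, ψ N ∈ cent X.T0 := fun N => by
        rw [hψ]
        exact sum_mem fun i _ => sum_mem fun j _ => SMulMemClass.smul_mem _ (heF i j)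
      refine ⟨fun x => ψ (M x), ba_approx (c.ι k) ψ s M hδ.le (min_le_left _ _) hR0
        (fun x hx => Finset.single_le_sum (fun y _ => norm_nonneg y) hx)
        ((le_div_iff₀ (by positivity)).1 (min_le_right _ _)) (fun x hx => hM _ ?_)
        (fun x hx y hy => hM _ ?_) (fun x hx y hy => hM _ ?_) (fun x hx => hM _ ?_)
        (fun x hx => hM _ ?_) (hM _ (Finset.mem_insert_self _ _)), fun k => k.elim,
        fun t ht x _ => (ba_comm_le (hψF _) (hT ht) hε).1, fun t ht => (hT₁ ht).elim⟩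
      · exact Finset.mem_insert_of_mem (Finset.mem_union_left _ (Finset.mem_union_left _
          (Finset.mem_union_left _ (Finset.mem_union_left _ hx))))
      · exact Finset.mem_insert_of_mem (Finset.mem_union_left _ (Finset.mem_union_left _
          (Finset.mem_union_left _ (Finset.mem_union_right _ (Finset.mem_image₂_of_mem hx hy)))))
      · exact Finset.mem_insert_of_mem (Finset.mem_union_left _ (Finset.mem_union_left _
          (Finset.mem_union_right _ (Finset.mem_image₂_of_mem hx hy))))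
      · exact Finset.mem_insert_of_mem (Finset.mem_union_left _
          (Finset.mem_union_right _ (Finset.mem_image_of_mem _ hx)))
      · exact Finset.mem_insert_of_mem (Finset.mem_union_right _ (Finset.mem_image_of_mem _ hx)))
  refine ⟨φ, h2, fun h x => ?_⟩
  rw [Subsingleton.elim h 1, act_one, OneMemClass.coe_one, act_one]

theorem Sys.uni_bot (X : Sys G A) : X.Uni ⊥ := by
  intro E _ hU ρ T hT φ₁ φ₂ h1 h2 _ _
  have := hU.separable
  obtain ⟨hnt, ⟨c⟩⟩ := hU
  obtain ⟨u, hu, huT, -, h⟩ := X.toSat.sat_uni (κ := Empty) Empty.elim hT φ₁ φ₂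
    (hom_continuous φ₁) (hom_continuous φ₂) (fun s sk ε hε => by
      obtain ⟨k, -, hk⟩ := c.exists_near s (half_pos hε) 0
      have : Nonempty (Fin (c.n k)) := ⟨⟨0, c.pos k⟩⟩
      set f : Fin (c.n k) → Fin (c.n k) → A :=
        fun i j => (φ₁.comp (c.ι k)) (Matrix.single i j 1) with hf
      set g : Fin (c.n k) → Fin (c.n k) → A :=
        fun i j => (φ₂.comp (c.ι k)) (Matrix.single i j 1) with hg
      obtain ⟨e, he, heT⟩ := X.emb_bot.divT (Fin (c.n k))
        (T := T ∪ (Set.range (Function.uncurry f) ∪ Set.range (Function.uncurry g)))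
        (hT.union ((Set.countable_range _).union (Set.countable_range _)))
      have he' := fun i j => X.FT_le_cent _ (heT i j).1
      have heC : ∀ i j, e i j ∈ cent T := fun i j => cent_anti Set.subset_union_left (he' i j)
      obtain ⟨u, hu, huC, h3⟩ := ba_flip (isMU_of_hom (φ₁.comp (c.ι k))) he
        (fun i j a b => (mem_cent.1 (he' a b) _ (Or.inr (Or.inl ⟨(i, j), rfl⟩))).1.symm)
        (fun i j => h1 _) heC
      obtain ⟨v, hv, hvC, h4⟩ := ba_flip he (isMU_of_hom (φ₂.comp (c.ι k)))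
        (fun a b i j => (mem_cent.1 (he' a b) _ (Or.inr (Or.inr ⟨(i, j), rfl⟩))).1)
        heC (fun i j => h2 _)
      have hw := mul_mem hv hu
      refine ⟨v * u, hw, mul_mem hvC huC, fun k => k.elim, fun x hx => ?_⟩
      obtain ⟨M, hM⟩ := hk x hx
      have e1 : v * u * φ₁ (c.ι k M) * star (v * u) = φ₂ (c.ι k M) := by
        have a1 := hom_eq_sum (φ₁.comp (c.ι k)) M
        have a2 := hom_eq_sum (φ₂.comp (c.ι k)) M
        rw [StarAlgHom.comp_apply] at a1 a2
        rw [a1, a2, Finset.mul_sum, Finset.sum_mul]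
        refine Finset.sum_congr rfl fun i _ => ?_
        rw [Finset.mul_sum, Finset.sum_mul]
        refine Finset.sum_congr rfl fun j _ => ?_
        rw [mul_smul_comm, smul_mul_assoc, ← h4 i j, ← h3 i j, star_mul]
        simp only [mul_assoc]
      have e2 : v * u * φ₁ x * star (v * u) - φ₂ x =
          v * u * φ₁ (x - c.ι k M) * star (v * u) - φ₂ (x - c.ι k M) := by
        rw [map_sub, map_sub, mul_sub, sub_mul, e1]
        abel
      rw [e2]
      refine (norm_sub_le _ _).trans ?_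
      rw [CStarRing.norm_mul_mem_unitary _ (Unitary.star_mem hw), CStarRing.norm_mem_unitary_mul _ hw]
      have b1 := NonUnitalStarAlgHom.norm_apply_le φ₁ (x - c.ι k M)
      have b2 := NonUnitalStarAlgHom.norm_apply_le φ₂ (x - c.ι k M)
      linarith)
  refine ⟨u, hu, fun h hh => ?_, huT, h⟩
  rw [Subgroup.mem_bot.1 hh, act_one]

theorem Sys.good_bot (X : Sys G A) : X.Good ⊥ := by
  refine ⟨fun p a hp ha h1 h2 h3 h4 => ?_, X.emb_bot, X.uni_bot⟩
  obtain ⟨s, hs, h5⟩ := X.cmp0 p a hp.1 ha.1 h1 h2 h3 h4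
  refine ⟨s, ⟨hs, fun h hh => ?_⟩, h5⟩
  rw [Subgroup.mem_bot.1 hh, act_one]

theorem Sys.good_union (X : Sys G A) (K : Subgroup G)
    (h : ∀ s : Finset G, (s : Set G) ⊆ K → ∃ H ≤ K, X.Good H ∧ (s : Set G) ⊆ H) : X.Good K := by
  classical
  have h' : ∀ sk : Finset K, ∃ H ≤ K, X.Good H ∧ ∀ k ∈ sk, (k : G) ∈ H := fun sk => by
    obtain ⟨H, h1, h2, h3⟩ := h (sk.image Subtype.val) fun g hg => by
      obtain ⟨k, -, rfl⟩ := Finset.mem_image.1 (Finset.mem_coe.1 hg)
      exact k.2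
    exact ⟨H, h1, h2, fun k hk => h3 (Finset.mem_coe.2 (Finset.mem_image_of_mem _ hk))⟩
  have z : ∀ {x y : A} {ε : ℝ}, 0 < ε → x = y → ‖x - y‖ ≤ ε := fun hε e => by
    rw [e, sub_self, norm_zero]
    exact hε.le
  refine ⟨fun p a hp ha h1 h2 h3 h4 => ?_, fun E _ hU ρ => ?_,
    fun E _ hU ρ T hT φ₁ φ₂ h1 h2 h3 h4 => ?_⟩
  · obtain ⟨s, hs, h5, h6, h7⟩ := X.toSat.sat_cmp (κ := K) Subtype.val X.T0_count p a
      (fun sk sT ε hT hε => by
        obtain ⟨H, hH, hG, hk⟩ := h' sk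
        obtain ⟨s, hs, h5, h6⟩ := hG.1 p a ⟨hp.1, Fix_anti _ hH hp.2⟩ ⟨ha.1, Fix_anti _ hH ha.2⟩
          h1 h2 h3 h4
        exact ⟨s, z hε h5, z hε h6, fun k hk' => z hε (hs.2 _ (hk k hk')),
          fun t ht => ba_comm_le hs.1 (hT ht) hε⟩)
    exact ⟨s, ⟨hs, fun g hg => h7 ⟨g, hg⟩⟩, h5, h6⟩
  · have := hU.separable
    obtain ⟨φ, h1, h2, -⟩ := X.toSat.satHom (E := E) (κ := K) Subtype.val (fun k => ρ k)
      (fun k => aut_continuous _) X.T0 ∅ X.T0_count Set.countable_empty (fun _ => 0)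
      continuous_const (fun s sk sT sT₁ ε hT hT₁ hε => by
        obtain ⟨H, hH, hG, hk⟩ := h' sk
        obtain ⟨φ, h1, h2⟩ := hG.2.1 E hU (ρ.comp (Subgroup.inclusion hH))
        exact ⟨φ, ApproxHom.of_hom s hε.le φ, fun k hk' x _ => z hε (h2 ⟨k, hk k hk'⟩ x).symm,
          fun t ht x _ => (ba_comm_le (h1 x) (hT ht) hε).1, fun t ht => (hT₁ ht).elim⟩)
    exact ⟨φ, h2, h1⟩
  · have := hU.separable
    obtain ⟨u, hu, huT, h5, h6⟩ := X.toSat.sat_uni (κ := K) Subtype.val hT φ₁ φ₂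
      (hom_continuous φ₁) (hom_continuous φ₂) (fun s sk ε hε => by
        obtain ⟨H, hH, hG, hk⟩ := h' sk
        obtain ⟨u, hu, h5, h6, h7⟩ := hG.2.2 E hU (ρ.comp (Subgroup.inclusion hH)) T hT φ₁ φ₂ h1 h2
          (fun g x => h3 _ x) (fun g x => h4 _ x)
        exact ⟨u, hu, h6, fun k hk' => z hε (h5 _ (hk k hk')), fun x _ => z hε (h7 x)⟩)
    exact ⟨u, hu, fun g hg => h5 ⟨g, hg⟩, huT, h6⟩

end Pool.Agent.Izumi
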