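import Pool.Agent.Lib.MP_b2135d_an.Core

/-! Cauchy-Schwarz for sums, orthogonal sums, gluing (PLAN section 1). -/

namespace Pool.Agent.Izumi

open scoped ComplexOrder Matrix
open Filter Topology

variable {A : Type} [CStarAlgebra A] [PartialOrder A] [StarOrderedRing A]

open scoped WithCStarModule in
theorem cb_row_norm {ι : Type} (s : Finset ι) (a : ι → A) :
    ‖(WithCStarModule.equiv A (s → A)).symm fun i => a i‖ = √‖∑ i ∈ s, a i * star (a i)‖ := by
  rw [CStarModule.norm_eq_sqrt_norm_inner_self (A := A), WithCStarModule.pi_inner,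
    ← Finset.sum_coe_sort s]
  rfl

open scoped WithCStarModule in
theorem cs_sum_one {ι : Type} (s : Finset ι) (a b : ι → A) :
    ‖∑ i ∈ s, a i * star (b i)‖ ≤
      √‖∑ i ∈ s, a i * star (a i)‖ * √‖∑ i ∈ s, b i * star (b i)‖ := by
  have := CStarModule.norm_inner_le (A := A) C⋆ᵐᵒᵈ(A, s → A)
    (x := (WithCStarModule.equiv A (s → A)).symm fun i => b i)
    (y := (WithCStarModule.equiv A (s → A)).symm fun i => a i)
  rw [cb_row_norm, cb_row_norm, WithCStarModule.pi_inner, mul_comm] at this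
  rw [← Finset.sum_coe_sort s]
  exact this

theorem cs_sum {ι : Type} (s : Finset ι) (a b d : ι → A) (w : ι → ℝ)
    (hd : ∀ i ∈ s, ‖d i‖ ≤ w i) :
    ‖∑ i ∈ s, a i * d i * star (b i)‖ ≤
      √‖∑ i ∈ s, w i • (a i * star (a i))‖ * √‖∑ i ∈ s, w i • (b i * star (b i))‖ := by
  have w0 : ∀ i ∈ s, 0 ≤ w i := fun i hi => (norm_nonneg _).trans (hd i hi)
  have h := cs_sum_one s (fun i => (√(w i))⁻¹ • (a i * d i)) fun i => √(w i) • b i
  have e1 : ∑ i ∈ s, (√(w i))⁻¹ • (a i * d i) * star (√(w i) • b i) =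
      ∑ i ∈ s, a i * d i * star (b i) := by
    refine Finset.sum_congr rfl fun i hi => ?_
    rcases (w0 i hi).eq_or_lt with h0 | h0
    · have : d i = 0 := norm_le_zero_iff.1 (h0 ▸ hd i hi)
      simp [this]
    · rw [star_smul, star_trivial, smul_mul_smul_comm, inv_mul_cancel₀ (Real.sqrt_pos.2 h0).ne',
        one_smul]
  have e2 : ∑ i ∈ s, √(w i) • b i * star (√(w i) • b i) = ∑ i ∈ s, w i • (b i * star (b i)) :=
    Finset.sum_congr rfl fun i hi => by
      rw [star_smul, star_trivial, smul_mul_smul_comm, Real.mul_self_sqrt (w0 i hi)]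
  rw [e1, e2] at h
  refine h.trans (mul_le_mul_of_nonneg_right (Real.sqrt_le_sqrt ?_) (Real.sqrt_nonneg _))
  refine CStarAlgebra.norm_le_norm_of_nonneg_of_le
    (Finset.sum_nonneg fun i _ => mul_star_self_nonneg _) (Finset.sum_le_sum fun i hi => ?_)
  rw [star_smul, star_trivial, smul_mul_smul_comm, ← mul_inv, Real.mul_self_sqrt (w0 i hi)]
  have h1 : a i * d i * star (a i * d i) ≤ ‖d i * star (d i)‖ • (a i * star (a i)) := by
    have := CStarAlgebra.star_right_conjugate_le_norm_smul (a := a i) (b := d i * star (d i))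
      (IsSelfAdjoint.mul_star_self _)
    simpa only [star_mul, mul_assoc] using this
  have h2 : ‖d i * star (d i)‖ ≤ w i * w i := by
    rw [CStarRing.norm_self_mul_star]
    exact mul_self_le_mul_self (norm_nonneg _) (hd i hi)
  refine (smul_le_smul_of_nonneg_left h1 (inv_nonneg.2 (w0 i hi))).trans ?_
  rw [smul_smul]
  refine smul_le_smul_of_nonneg_right ?_ (mul_star_self_nonneg _)
  rcases (w0 i hi).eq_or_lt with h0 | h0
  · simp [← h0]
  · rwa [inv_mul_le_iff₀ h0]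

theorem norm_sum_mul_star_mono {ι : Type} {s t : Finset ι} (h : s ⊆ t) (a : ι → A) :
    ‖∑ i ∈ s, a i * star (a i)‖ ≤ ‖∑ i ∈ t, a i * star (a i)‖ :=
  CStarAlgebra.norm_le_norm_of_nonneg_of_le (Finset.sum_nonneg fun _ _ => mul_star_self_nonneg _)
    (Finset.sum_le_sum_of_subset_of_nonneg h fun _ _ _ => mul_star_self_nonneg _)

theorem row_add_le {ι : Type} (s : Finset ι) (a b : ι → A) :
    √‖∑ i ∈ s, (a i + b i) * star (a i + b i)‖ ≤
      √‖∑ i ∈ s, a i * star (a i)‖ + √‖∑ i ∈ s, b i * star (b i)‖ := by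
  rw [← cb_row_norm s a, ← cb_row_norm s b, ← cb_row_norm s fun i => a i + b i]
  exact norm_add_le ((WithCStarModule.equiv A (s → A)).symm fun i => a i)
    ((WithCStarModule.equiv A (s → A)).symm fun i => b i)

omit [PartialOrder A] [StarOrderedRing A] in
theorem cb_pow_sum {ι : Type} (s : Finset ι) (b : ι → A)
    (h : ∀ i ∈ s, ∀ j ∈ s, i ≠ j → b i * b j = 0) (n : ℕ) :
    (∑ i ∈ s, b i) ^ (n + 1) = ∑ i ∈ s, b i ^ (n + 1) := by
  induction n with
  | zero => simp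
  | succ n ih =>
    rw [pow_succ, ih, Finset.sum_mul]
    refine Finset.sum_congr rfl fun i hi => ?_
    rw [Finset.mul_sum, Finset.sum_eq_single_of_mem i hi, ← pow_succ]
    intro j hj e
    rw [pow_succ, mul_assoc, h i hi j hj (Ne.symm e), mul_zero]

omit [PartialOrder A] [StarOrderedRing A] in
theorem cb_orth_sa {ι : Type} (s : Finset ι) (b : ι → A) {c : ℝ} (hc : 0 ≤ c)
    (hb : ∀ i ∈ s, IsSelfAdjoint (b i)) (h : ∀ i ∈ s, ∀ j ∈ s, i ≠ j → b i * b j = 0)
    (hn : ∀ i ∈ s, ‖b i‖ ≤ c) : ‖∑ i ∈ s, b i‖ ≤ c := by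
  have sa : IsSelfAdjoint (∑ i ∈ s, b i) := isSelfAdjoint_sum s hb
  have key : ∀ k : ℕ, ‖∑ i ∈ s, b i‖ ^ 2 ^ k ≤ s.card * c ^ 2 ^ k := by
    intro k
    have e : ‖(∑ i ∈ s, b i) ^ 2 ^ k‖ = ‖∑ i ∈ s, b i‖ ^ 2 ^ k := by
      simpa only [NNReal.coe_pow, coe_nnnorm] using congrArg NNReal.toReal (sa.nnnorm_pow_two_pow k)
    obtain ⟨n, hn'⟩ : ∃ n, 2 ^ k = n + 1 := ⟨2 ^ k - 1, (Nat.sub_add_cancel Nat.one_le_two_pow).symm⟩
    rw [← e, hn', cb_pow_sum s b h, ← nsmul_eq_mul]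
    refine (norm_sum_le _ _).trans (Finset.sum_le_card_nsmul _ _ _ fun i hi => ?_)
    exact (norm_pow_le' _ n.succ_pos).trans (pow_le_pow_left₀ (norm_nonneg _) (hn i hi) _)
  by_contra hlt
  replace hlt := not_le.1 hlt
  rcases hc.eq_or_lt with h0 | h0
  · have := key 0
    simp only [← h0, pow_zero, pow_one, mul_zero] at this hlt
    exact hlt.not_ge this
  · obtain ⟨k, hk⟩ := pow_unbounded_of_one_lt (s.card : ℝ) ((one_lt_div h0).2 hlt)
    have h2 := pow_le_pow_right₀ ((one_lt_div h0).2 hlt).le (Nat.lt_two_pow_self (n := k)).le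
    have h3 := hk.trans_le h2
    rw [div_pow, lt_div_iff₀ (pow_pos h0 _)] at h3
    exact h3.not_ge (key k)

set_option linter.unusedSectionVars false in
theorem norm_orth_sum {ι : Type} (s : Finset ι) (x : ι → A) {c : ℝ} (hc : 0 ≤ c)
    (h1 : ∀ i ∈ s, ∀ j ∈ s, i ≠ j → star (x i) * x j = 0)
    (h2 : ∀ i ∈ s, ∀ j ∈ s, i ≠ j → x i * star (x j) = 0) (hn : ∀ i ∈ s, ‖x i‖ ≤ c) :
    ‖∑ i ∈ s, x i‖ ≤ c := by
  have e : star (∑ i ∈ s, x i) * ∑ i ∈ s, x i = ∑ i ∈ s, star (x i) * x i := by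
    rw [star_sum, Finset.sum_mul]
    refine Finset.sum_congr rfl fun i hi => ?_
    rw [Finset.mul_sum, Finset.sum_eq_single_of_mem i hi fun j hj e => h1 i hi j hj (Ne.symm e)]
  have := cb_orth_sa s (fun i => star (x i) * x i) (mul_self_nonneg c)
    (fun i _ => IsSelfAdjoint.star_mul_self _)
    (fun i hi j hj e => by rw [mul_assoc, ← mul_assoc (x i), h2 i hi j hj e, zero_mul, mul_zero])
    fun i hi => by
      rw [CStarRing.norm_star_mul_self]
      exact mul_self_le_mul_self (norm_nonneg _) (hn i hi)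
  rw [← e, CStarRing.norm_star_mul_self] at this
  exact (mul_self_le_mul_self_iff (norm_nonneg _) hc).2 this

set_option linter.unusedSectionVars false in
theorem glue_mul {ι : Type} (s : Finset ι) (p x y : ι → A) (hp : ∀ i ∈ s, IsStarProjection (p i))
    (ho : ∀ i ∈ s, ∀ j ∈ s, i ≠ j → p i * p j = 0) (hy : ∀ i ∈ s, Commute (y i) (p i)) :
    (∑ i ∈ s, x i * p i) * (∑ i ∈ s, y i * p i) = ∑ i ∈ s, x i * y i * p i := by
  rw [Finset.sum_mul]
  refine Finset.sum_congr rfl fun i hi => ?_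
  rw [Finset.mul_sum, Finset.sum_eq_single_of_mem i hi]
  · rw [mul_assoc, ← mul_assoc (p i), ← (hy i hi).eq, mul_assoc, (hp i hi).isIdempotentElem.eq,
      mul_assoc]
  · intro j hj e
    rw [(hy j hj).eq, mul_assoc, ← mul_assoc (p i), ho i hi j hj (Ne.symm e), zero_mul, mul_zero]

set_option linter.unusedSectionVars false in
theorem glue_star {ι : Type} (s : Finset ι) (p x : ι → A) (hp : ∀ i ∈ s, IsStarProjection (p i))
    (hx : ∀ i ∈ s, Commute (x i) (p i)) :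
    star (∑ i ∈ s, x i * p i) = ∑ i ∈ s, star (x i) * p i := by
  rw [star_sum]
  refine Finset.sum_congr rfl fun i hi => ?_
  rw [(hx i hi).eq, star_mul, (hp i hi).isSelfAdjoint.star_eq]

theorem glue_norm {ι : Type} (s : Finset ι) (p x : ι → A) (hp : ∀ i ∈ s, IsStarProjection (p i))
    (ho : ∀ i ∈ s, ∀ j ∈ s, i ≠ j → p i * p j = 0) (hx : ∀ i ∈ s, Commute (x i) (p i)) {c : ℝ}
    (hc : 0 ≤ c) (hn : ∀ i ∈ s, ‖x i‖ ≤ c) : ‖∑ i ∈ s, x i * p i‖ ≤ c := by
  refine norm_orth_sum s _ hc (fun i hi j hj e => ?_) (fun i hi j hj e => ?_) fun i hi => ?_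
  · rw [(hx i hi).eq, (hx j hj).eq, star_mul, (hp i hi).isSelfAdjoint.star_eq, mul_assoc,
      ← mul_assoc (p i), ho i hi j hj e, zero_mul, mul_zero]
  · rw [star_mul, (hp j hj).isSelfAdjoint.star_eq, mul_assoc, ← mul_assoc (p i), ho i hi j hj e,
      zero_mul, mul_zero]
  · refine (norm_mul_le _ _).trans ?_
    exact (mul_le_mul (hn i hi) (hp i hi).norm_le (norm_nonneg _) hc).trans_eq (mul_one c)

end Pool.Agent.Izumi
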