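import Pool.Agent.Lib.MP_b2135d_an.Core

/-! Orthogonality and perturbation lemmas (PLAN section 1). -/

namespace Pool.Agent.Izumi

open scoped ComplexOrder Matrix
open Filter Topology

variable {A : Type} [CStarAlgebra A] [PartialOrder A] [StarOrderedRing A]

theorem orth_of_sum_le {ι : Type} (s : Finset ι) (p : ι → A)
    (hp : ∀ i ∈ s, IsStarProjection (p i)) (h : ∑ i ∈ s, p i ≤ 1) :
    ∀ i ∈ s, ∀ j ∈ s, i ≠ j → p i * p j = 0 := by
  classical
  intro i hi j hj hij
  have hsub : ({i, j} : Finset ι) ⊆ s := by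
    intro k hk
    rcases Finset.mem_insert.1 hk with rfl | hk
    · exact hi
    · rw [Finset.mem_singleton.1 hk]; exact hj
  have h2 : ∑ k ∈ ({i, j} : Finset ι), p k ≤ ∑ k ∈ s, p k :=
    Finset.sum_le_sum_of_subset_of_nonneg hsub (fun k hk _ => (hp k hk).nonneg)
  rw [Finset.sum_pair hij] at h2
  have h3 : p j ≤ 1 - p i := le_sub_iff_add_le'.2 (h2.trans h)
  have h4 := ((hp j hj).le_iff_mul_eq_right (hp i hi).one_sub).1 h3
  rw [sub_mul, one_mul] at h4
  exact sub_eq_self.1 h4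

omit [PartialOrder A] [StarOrderedRing A] in
theorem isStarProjection_sum_aux {ι : Type} (s : Finset ι) (p : ι → A)
    (hp : ∀ i ∈ s, IsStarProjection (p i)) (ho : ∀ i ∈ s, ∀ j ∈ s, i ≠ j → p i * p j = 0) :
    IsStarProjection (∑ i ∈ s, p i) := by
  refine ⟨?_, ?_⟩
  · show (∑ i ∈ s, p i) * (∑ i ∈ s, p i) = ∑ i ∈ s, p i
    rw [Finset.sum_mul]
    refine Finset.sum_congr rfl fun i hi => ?_
    rw [Finset.mul_sum, Finset.sum_eq_single i]
    · exact (hp i hi).isIdempotentElem.eq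
    · intro j hj hji
      exact ho i hi j hj (Ne.symm hji)
    · intro h; exact absurd hi h
  · show star (∑ i ∈ s, p i) = ∑ i ∈ s, p i
    rw [star_sum]
    exact Finset.sum_congr rfl fun i hi => (hp i hi).isSelfAdjoint.star_eq

theorem isStarProjection_sum {ι : Type} (s : Finset ι) (p : ι → A)
    (hp : ∀ i ∈ s, IsStarProjection (p i)) (ho : ∀ i ∈ s, ∀ j ∈ s, i ≠ j → p i * p j = 0) :
    IsStarProjection (∑ i ∈ s, p i) :=
  isStarProjection_sum_aux s p hp ho

theorem mul_eq_of_star_mul_self {s p : A} (hp : IsStarProjection p) (h : star s * s = p) :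
    s * p = s := by
  have h1 : star (s * (1 - p)) * (s * (1 - p)) = 0 := by
    rw [star_mul, hp.one_sub.isSelfAdjoint.star_eq]
    calc (1 - p) * star s * (s * (1 - p)) = (1 - p) * (star s * s) * (1 - p) := by
          simp only [mul_assoc]
      _ = 0 := by rw [h, hp.one_sub_mul_self, zero_mul]
  have h2 := (CStarRing.star_mul_self_eq_zero_iff _).1 h1
  rw [mul_sub, mul_one] at h2
  exact (sub_eq_zero.1 h2).symm

theorem isStarProjection_mul_star {s p : A} (hp : IsStarProjection p) (h : star s * s = p) :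
    IsStarProjection (s * star s) := by
  refine ⟨?_, IsSelfAdjoint.mul_star_self s⟩
  show s * star s * (s * star s) = s * star s
  calc s * star s * (s * star s) = s * (star s * s) * star s := by simp only [mul_assoc]
    _ = s * star s := by rw [h, mul_eq_of_star_mul_self hp h]

theorem norm_le_one_of_star_mul_self {s p : A} (hp : IsStarProjection p) (h : star s * s = p) :
    ‖s‖ ≤ 1 := by
  have h1 : ‖s‖ * ‖s‖ ≤ 1 := by
    rw [← CStarRing.norm_star_mul_self, h]
    exact hp.norm_le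
  nlinarith [norm_nonneg s]

theorem sub_nonneg_of_mul_eq {a r : A} (ha : 0 ≤ a) (hr : IsStarProjection r) (h : a * r = r) :
    0 ≤ a - r := by
  have h' : r * a = r := by
    have := congrArg star h
    rwa [star_mul, hr.isSelfAdjoint.star_eq, ha.star_eq] at this
  have h1 : (1 - r) * a * (1 - r) = a - r := by
    rw [sub_mul, one_mul, h', mul_sub, mul_one, sub_mul, h, hr.isIdempotentElem.eq, sub_self,
      sub_zero]
  rw [← h1]
  exact hr.one_sub.isSelfAdjoint.conjugate_nonneg ha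

theorem conjT_mul_self_diag_nonneg {n : Type} [Fintype n] (z : Matrix n n A) (i : n) :
    0 ≤ (zᴴ * z) i i := by
  rw [Matrix.mul_apply]
  exact Finset.sum_nonneg fun k _ => by
    rw [Matrix.conjTranspose_apply]; exact star_mul_self_nonneg _

theorem eq_zero_of_conjT_mul_self_diag {n : Type} [Fintype n] (z : Matrix n n A)
    (h : ∀ i, (zᴴ * z) i i = 0) : z = 0 := by
  ext k i
  have h1 := h i
  rw [Matrix.mul_apply] at h1
  have h2 := (Finset.sum_eq_zero_iff_of_nonneg (fun k _ => by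
    rw [Matrix.conjTranspose_apply]; exact star_mul_self_nonneg _)).1 h1 k (Finset.mem_univ k)
  rw [Matrix.conjTranspose_apply] at h2
  exact (CStarRing.star_mul_self_eq_zero_iff _).1 h2

theorem mat_orth {n Y : Type} [Fintype n] [DecidableEq n] [Fintype Y] (y : Y → Matrix n n A)
    (hs : ∀ c, (y c)ᴴ = y c) (hi : ∀ c, y c * y c = y c) (h1 : ∑ c, y c = 1) :
    ∀ c c', c ≠ c' → y c * y c' = 0 := by
  classical
  intro c c' hcc
  have e1 : ∀ d, (y d * y c')ᴴ * (y d * y c') = y c' * y d * y c' := by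
    intro d
    rw [Matrix.conjTranspose_mul, hs, hs]
    calc y c' * y d * (y d * y c') = y c' * (y d * y d) * y c' := by simp only [mul_assoc]
      _ = y c' * y d * y c' := by rw [hi]
  have e2 : ∑ d, y c' * y d * y c' = y c' := by
    rw [← Finset.sum_mul, ← Finset.mul_sum, h1, mul_one, hi]
  have e3 : ∑ d ∈ Finset.univ.erase c', (y d * y c')ᴴ * (y d * y c') = 0 := by
    simp only [e1]
    have := Finset.add_sum_erase Finset.univ (fun d => y c' * y d * y c') (Finset.mem_univ c')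
    rw [e2] at this
    simp only [hi] at this
    exact add_eq_left.1 this
  refine eq_zero_of_conjT_mul_self_diag _ fun i => ?_
  have e4 : ∑ d ∈ Finset.univ.erase c', ((y d * y c')ᴴ * (y d * y c')) i i = 0 := by
    rw [← Matrix.sum_apply, e3]; rfl
  exact (Finset.sum_eq_zero_iff_of_nonneg
    (fun d _ => conjT_mul_self_diag_nonneg (y d * y c') i)).1 e4 c
    (Finset.mem_erase.2 ⟨hcc, Finset.mem_univ c⟩)

theorem mat_diag_between {n : Type} [Fintype n] (y : Matrix n n A) (hs : yᴴ = y)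
    (hi : y * y = y) (i : n) : 0 ≤ y i i ∧ y i i ≤ 1 := by
  classical
  constructor
  · have := conjT_mul_self_diag_nonneg y i
    rwa [hs, hi] at this
  · have h := conjT_mul_self_diag_nonneg (1 - y) i
    have e : (1 - y)ᴴ * (1 - y) = 1 - y := by
      rw [Matrix.conjTranspose_sub, Matrix.conjTranspose_one, hs, sub_mul, one_mul, mul_sub,
        mul_one, hi, sub_self, sub_zero]
    rw [e, Matrix.sub_apply, Matrix.one_apply_eq] at h
    exact sub_nonneg.1 h

theorem real_pow_mul_one_sub_le {t : ℝ} (h0 : 0 ≤ t) (h1 : t ≤ 1) (M : ℕ) :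
    t ^ M * (1 - t) ≤ 1 / (M + 1) := by
  have key : ∀ k : ℕ, ((k : ℝ) + 1) * (t ^ k * (1 - t)) ≤ 1 - t ^ (k + 1) := by
    intro k
    induction k with
    | zero => simp
    | succ k ih =>
      have hk : (0 : ℝ) ≤ (k : ℝ) + 1 := by positivity
      have ha : 0 ≤ t ^ k * (1 - t) := mul_nonneg (pow_nonneg h0 k) (sub_nonneg.2 h1)
      have hb : t ^ (k + 1) * (1 - t) ≤ t ^ k * (1 - t) := by
        rw [pow_succ]
        nlinarith
      have hc := mul_le_mul_of_nonneg_left hb hk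
      push_cast
      have hd : t ^ (k + 1 + 1) = t ^ (k + 1) * t := pow_succ _ _
      nlinarith
  have hM : (0 : ℝ) < (M : ℝ) + 1 := by positivity
  rw [le_div_iff₀ hM]
  have := key M
  have h2 : 0 ≤ t ^ (M + 1) := pow_nonneg h0 _
  nlinarith

theorem pow_orth {a b : A} (ha : 0 ≤ a) (hb : 0 ≤ b) (hab : a + b ≤ 1) {N : ℕ} (hN : 0 < N) :
    ‖a ^ N * b ^ N‖ ^ 2 ≤ 1 / (2 * N + 1) := by
  have ha1 : a ≤ 1 := (le_add_of_nonneg_right hb).trans hab
  have hb1 : b ≤ 1 := (le_add_of_nonneg_left ha).trans hab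
  have hsa : IsSelfAdjoint a := ha.isSelfAdjoint
  have hsb : IsSelfAdjoint b := hb.isSelfAdjoint
  have haN : IsSelfAdjoint (a ^ N) := hsa.pow N
  have hbN : IsSelfAdjoint (b ^ N) := hsb.pow N
  have e1 : ‖a ^ N * b ^ N‖ ^ 2 = ‖a ^ N * b ^ (N + N) * a ^ N‖ := by
    rw [sq, ← CStarRing.norm_self_mul_star, star_mul, haN.star_eq, hbN.star_eq, pow_add]
    simp only [mul_assoc]
  have e2 : b ^ (N + N) ≤ 1 - a := by
    have h1 : b ^ (N + N) ≤ b ^ 1 := CStarAlgebra.pow_antitone hb hb1 (by omega : 1 ≤ N + N)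
    rw [pow_one] at h1
    exact h1.trans (le_sub_iff_add_le'.2 hab)
  have e3 : ‖a ^ N * b ^ (N + N) * a ^ N‖ ≤ ‖a ^ N * (1 - a) * a ^ N‖ :=
    CStarAlgebra.norm_le_norm_of_nonneg_of_le
      (haN.conjugate_nonneg (CStarAlgebra.pow_nonneg hb _)) (haN.conjugate_le_conjugate e2)
  have e4 : a ^ N * (1 - a) * a ^ N = cfc (fun t : ℝ => t ^ N * (1 - t) * t ^ N) a := by
    rw [cfc_mul _ _ a, cfc_mul _ _ a, cfc_sub _ _ a, cfc_pow_id a N, cfc_const_one ℝ a,
      cfc_id' ℝ a]
  rw [e1]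
  refine e3.trans ?_
  rw [e4]
  refine norm_cfc_le (by positivity) fun t ht => ?_
  have h0 : 0 ≤ t := spectrum_nonneg_of_nonneg ha ht
  have h1 : t ≤ 1 := (CFC.le_one_iff (R := ℝ) a).1 ha1 t ht
  have h2 := real_pow_mul_one_sub_le h0 h1 (N + N)
  have h3 : t ^ N * (1 - t) * t ^ N = t ^ (N + N) * (1 - t) := by rw [pow_add]; ring
  rw [h3, Real.norm_eq_abs, abs_of_nonneg (mul_nonneg (pow_nonneg h0 _) (sub_nonneg.2 h1))]
  refine h2.trans (le_of_eq ?_)
  push_cast
  ring

theorem near_orth {ι : Type} (s : Finset ι) (x : ι → A) (h0 : ∀ i ∈ s, 0 ≤ x i)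
    (h1 : ∀ i ∈ s, x i ≤ 1) {ε : ℝ} (hε : 0 ≤ ε)
    (h : ∀ i ∈ s, ∀ j ∈ s, i ≠ j → ‖x i * x j‖ ≤ ε) :
    ‖∑ i ∈ s, x i‖ ≤ 1 + (s.card : ℝ) ^ 2 * ε := by
  classical
  set S := ∑ i ∈ s, x i with hS
  have hS0 : 0 ≤ S := Finset.sum_nonneg h0
  have e1 : S * S = ∑ i ∈ s, x i * x i + ∑ i ∈ s, ∑ j ∈ s.erase i, x i * x j := by
    rw [hS, Finset.sum_mul, ← Finset.sum_add_distrib]
    refine Finset.sum_congr rfl fun i hi => ?_
    rw [Finset.mul_sum, Finset.add_sum_erase s (fun j => x i * x j) hi]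
  have e2 : ‖∑ i ∈ s, x i * x i‖ ≤ ‖S‖ := by
    refine CStarAlgebra.norm_le_norm_of_nonneg_of_le
      (Finset.sum_nonneg fun i hi => (h0 i hi).isSelfAdjoint.mul_self_nonneg)
      (Finset.sum_le_sum fun i hi => ?_)
    have := CStarAlgebra.pow_antitone (h0 i hi) (h1 i hi) (by omega : 1 ≤ 2)
    simpa only [pow_one, sq] using this
  have e3 : ‖∑ i ∈ s, ∑ j ∈ s.erase i, x i * x j‖ ≤ (s.card : ℝ) ^ 2 * ε := by
    refine (norm_sum_le _ _).trans ?_
    have : ∀ i ∈ s, ‖∑ j ∈ s.erase i, x i * x j‖ ≤ (s.card : ℝ) * ε := by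
      intro i hi
      refine (norm_sum_le _ _).trans ?_
      have h2 : ∑ j ∈ s.erase i, ‖x i * x j‖ ≤ ∑ _j ∈ s.erase i, ε :=
        Finset.sum_le_sum fun j hj =>
          h i hi j (Finset.mem_of_mem_erase hj) (Finset.ne_of_mem_erase hj).symm
      refine h2.trans ?_
      rw [Finset.sum_const, nsmul_eq_mul]
      exact mul_le_mul_of_nonneg_right (by exact_mod_cast Finset.card_erase_le) hε
    refine (Finset.sum_le_sum this).trans ?_
    rw [Finset.sum_const, nsmul_eq_mul]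
    exact le_of_eq (by ring)
  have e4 : ‖S‖ * ‖S‖ ≤ ‖S‖ + (s.card : ℝ) ^ 2 * ε := by
    have : ‖S * S‖ = ‖S‖ * ‖S‖ := by
      conv_lhs => rw [show S * S = star S * S by rw [hS0.star_eq]]
      exact CStarRing.norm_star_mul_self
    rw [← this, e1]
    exact (norm_add_le _ _).trans (add_le_add e2 e3)
  have hδ : 0 ≤ (s.card : ℝ) ^ 2 * ε := by positivity
  by_contra hc
  have hc' := not_le.1 hc
  nlinarith

theorem near_unitary {x : A} {η : ℝ} (hη : η ≤ 1 / 2) (h1 : ‖star x * x - 1‖ ≤ η)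
    (h2 : ‖x * star x - 1‖ ≤ η) : ∃ u ∈ unitary A, ‖u - x‖ ≤ 2 * η := by
  have hη0 : 0 ≤ η := (norm_nonneg _).trans h1
  set h := star x * x with hh
  have hsa : IsSelfAdjoint h := IsSelfAdjoint.star_mul_self x
  have hspec : ∀ t ∈ spectrum ℝ h, |t - 1| ≤ η := by
    intro t ht
    have e : cfc (fun t : ℝ => t - 1) h = h - 1 := by
      rw [cfc_sub _ _ h, cfc_id' ℝ h, cfc_const_one ℝ h]
    have := norm_apply_le_norm_cfc (fun t : ℝ => t - 1) h ht
    rw [e, Real.norm_eq_abs] at this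
    exact this.trans h1
  have hpos : ∀ t ∈ spectrum ℝ h, 0 < t := by
    intro t ht
    have := (abs_le.1 (hspec t ht)).1
    linarith
  have hcont : ContinuousOn (fun t : ℝ => (√t)⁻¹) (spectrum ℝ h) :=
    Real.continuous_sqrt.continuousOn.inv₀ fun t ht => (Real.sqrt_pos.2 (hpos t ht)).ne'
  have hcont' : ContinuousOn (fun t : ℝ => √t) (spectrum ℝ h) := Real.continuous_sqrt.continuousOn
  set g := cfc (fun t : ℝ => (√t)⁻¹) h with hg
  set r := cfc (fun t : ℝ => √t) h with hr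
  have hgs : IsSelfAdjoint g := cfc_predicate _ _
  have hgr : g * r = 1 := by
    rw [hg, hr, ← cfc_mul _ _ h, ← cfc_const_one ℝ h]
    refine cfc_congr fun t ht => ?_
    exact inv_mul_cancel₀ (Real.sqrt_pos.2 (hpos t ht)).ne'
  have hrg : r * g = 1 := by
    rw [hg, hr, ← cfc_mul _ _ h, ← cfc_const_one ℝ h]
    refine cfc_congr fun t ht => ?_
    exact mul_inv_cancel₀ (Real.sqrt_pos.2 (hpos t ht)).ne'
  have hrr : r * r = h := by
    rw [hr, ← cfc_mul _ _ h]
    conv_rhs => rw [← cfc_id' ℝ h]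
    refine cfc_congr fun t ht => ?_
    exact Real.mul_self_sqrt (hpos t ht).le
  have hu1 : star (x * g) * (x * g) = 1 := by
    rw [star_mul, hgs.star_eq]
    calc g * star x * (x * g) = g * h * g := by simp only [hh, mul_assoc]
      _ = (g * r) * (r * g) := by rw [← hrr]; simp only [mul_assoc]
      _ = 1 := by rw [hgr, hrg, one_mul]
  have hxx : IsUnit (x * star x) := by
    have hlt : ‖1 - x * star x‖ < 1 := by
      rw [norm_sub_rev]; linarith
    have := (Units.oneSub (1 - x * star x) hlt).isUnit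
    simpa using this
  have hu2 : x * g * star (x * g) = 1 := by
    obtain ⟨w, hw⟩ := hxx.exists_right_inv
    have e1 : (x * g) * (r * (star x * w)) = 1 := by
      calc (x * g) * (r * (star x * w)) = x * (g * r) * star x * w := by simp only [mul_assoc]
        _ = 1 := by rw [hgr, mul_one, hw]
    have e2 : star (x * g) = r * (star x * w) := by
      calc star (x * g) = star (x * g) * ((x * g) * (r * (star x * w))) := by rw [e1, mul_one]
        _ = r * (star x * w) := by rw [← mul_assoc, hu1, one_mul]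
    rw [e2, e1]
  refine ⟨x * g, Unitary.mem_iff.2 ⟨hu1, hu2⟩, ?_⟩
  have hn : ‖x * g‖ ≤ 1 := norm_le_one_of_star_mul_self (IsStarProjection.one A) hu1
  have e3 : x * g - x = (x * g) * (1 - r) := by
    rw [mul_sub, mul_one, mul_assoc, hgr, mul_one]
  have e4 : ‖1 - r‖ ≤ η := by
    have e : 1 - r = cfc (fun t : ℝ => 1 - √t) h := by
      rw [cfc_sub _ _ h, cfc_const_one ℝ h]
    rw [e]
    refine norm_cfc_le hη0 fun t ht => ?_
    have ht0 := hpos t ht
    have hs0 : 0 ≤ √t := Real.sqrt_nonneg t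
    have hss : √t * √t = t := Real.mul_self_sqrt ht0.le
    obtain ⟨ha, hb⟩ := abs_le.1 (hspec t ht)
    rw [Real.norm_eq_abs, abs_le]
    constructor <;> nlinarith
  rw [e3]
  calc ‖x * g * (1 - r)‖ ≤ ‖x * g‖ * ‖1 - r‖ := norm_mul_le _ _
    _ ≤ 1 * η := mul_le_mul hn e4 (norm_nonneg _) zero_le_one
    _ ≤ 2 * η := by linarith

end Pool.Agent.Izumi
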