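import Pool.Agent.Lib.MP_b2135d_an.CA
import Pool.Agent.Lib.MP_b2135d_an.CB2

/-! Rank bound and paths of isometries (PLAN section 1). -/

namespace Pool.Agent.Izumi

open scoped ComplexOrder Matrix
open Filter Topology

variable {A : Type} [CStarAlgebra A] [PartialOrder A] [StarOrderedRing A] {τ : A →ₚ[ℂ] ℂ}

/-- A positive element with `y * y ≤ y` is at most `1`. -/
theorem cc_le_one_of_sq_le {y : A} (hy : 0 ≤ y) (h : y * y ≤ y) : y ≤ 1 := by
  have hs : IsSelfAdjoint y := IsSelfAdjoint.of_nonneg hy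
  have h0 : 0 ≤ y * y := by
    have := star_mul_self_nonneg y
    rwa [hs.star_eq] at this
  have h1 : ‖y * y‖ ≤ ‖y‖ := CStarAlgebra.norm_le_norm_of_nonneg_of_le h0 h
  have h2 : ‖y * y‖ = ‖y‖ * ‖y‖ := by
    have := CStarRing.norm_star_mul_self (x := y)
    rwa [hs.star_eq] at this
  have h3 : ‖y‖ ≤ 1 := by
    by_contra hc
    push Not at hc
    nlinarith [norm_nonneg y]
  exact (CStarAlgebra.norm_le_one_iff_of_nonneg y hy).1 h3

/-- The trace of `r K` is at most the trace of `r` when `r ≤ b`, `K` commutes with `b` and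
`b K ≤ 1`. -/
theorem cc_tr_mul_le (h : IsTracialState τ) {r b K : A} (hr : IsStarProjection r) (hrb : r ≤ b)
    (hK : 0 ≤ K) (hbK : Commute b K) (hb1 : b * K ≤ 1) : (τ (r * K)).re ≤ (τ r).re := by
  have hKs : IsSelfAdjoint K := IsSelfAdjoint.of_nonneg hK
  have hrs : star r = r := hr.isSelfAdjoint.star_eq
  have hrr : r * r = r := hr.isIdempotentElem.eq
  have hy0 : 0 ≤ r * K * r := by
    have := star_left_conjugate_nonneg hK r
    rwa [hrs] at this
  have h1 : K * b * K ≤ K := by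
    have hc : Commute K (1 - b * K) :=
      (Commute.one_right K).sub_right (hbK.symm.mul_right (Commute.refl K))
    have := hc.mul_nonneg hK (sub_nonneg.2 hb1)
    rw [mul_sub, mul_one, ← mul_assoc] at this
    exact sub_nonneg.1 this
  have h2 : K * r * K ≤ K * b * K := by
    have := star_left_conjugate_le_conjugate hrb K
    rwa [hKs.star_eq] at this
  have h3 : r * (K * r * K) * r ≤ r * K * r := by
    have := star_left_conjugate_le_conjugate (h2.trans h1) r
    rwa [hrs] at this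
  have h4 : (r * K * r) * (r * K * r) = r * (K * r * K) * r := by
    calc (r * K * r) * (r * K * r) = r * (K * (r * r) * K) * r := by noncomm_ring
      _ = _ := by rw [hrr]
  have h5 : r * K * r ≤ 1 := cc_le_one_of_sq_le hy0 (by rw [h4]; exact h3)
  have h6 := tr_mul_le h hr.nonneg h5
  have h7 : τ (r * (r * K * r)) = τ (r * K) := by
    have e1 : r * (r * K * r) = (r * K) * r := by
      rw [← mul_assoc, ← mul_assoc, hrr]
    rw [e1, h.2 (r * K) r, ← mul_assoc, hrr]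
  rwa [h7] at h6

theorem cc_half_nonneg {r₀ r₁ : A} (h₀ : IsStarProjection r₀) (h₁ : IsStarProjection r₁) :
    0 ≤ 1 - (1 / 2 : ℝ) • (r₀ + r₁) := by
  have e : (1 : A) - (1 / 2 : ℝ) • (r₀ + r₁)
      = (1 / 2 : ℝ) • (1 - r₀) + (1 / 2 : ℝ) • (1 - r₁) := by
    module
  rw [e]
  exact add_nonneg (smul_nonneg (by norm_num) h₀.one_sub.nonneg)
    (smul_nonneg (by norm_num) h₁.one_sub.nonneg)

omit [PartialOrder A] [StarOrderedRing A] in
theorem cc_geom (b : A) (m : ℕ) :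
    1 - (1 - (1 / 2 : ℝ) • b) ^ m
      = b * ((1 / 2 : ℝ) • ∑ k ∈ Finset.range m, (1 - (1 / 2 : ℝ) • b) ^ k) := by
  have := mul_neg_geom_sum (1 - (1 / 2 : ℝ) • b) m
  rw [← this, sub_sub_cancel, smul_mul_assoc, mul_smul_comm]

theorem rank_bound (h : IsTracialState τ) {r₀ r₁ : A} (h₀ : IsStarProjection r₀)
    (h₁ : IsStarProjection r₁) (m : ℕ) :
    (τ (1 - (1 - (1 / 2 : ℝ) • (r₀ + r₁)) ^ m)).re ≤ (τ r₀).re + (τ r₁).re := by
  have hc0 := cc_half_nonneg h₀ h₁
  have hg := cc_geom (r₀ + r₁) m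
  set c : A := 1 - (1 / 2 : ℝ) • (r₀ + r₁) with hcdef
  set K : A := (1 / 2 : ℝ) • ∑ k ∈ Finset.range m, c ^ k with hKdef
  have hK : 0 ≤ K :=
    smul_nonneg (by norm_num) (Finset.sum_nonneg fun k _ => CStarAlgebra.pow_nonneg hc0 k)
  have hbc : Commute (r₀ + r₁) c :=
    (Commute.one_right _).sub_right ((Commute.refl _).smul_right _)
  have hbK : Commute (r₀ + r₁) K :=
    (Commute.sum_right _ _ _ fun k _ => hbc.pow_right k).smul_right _
  have hb1 : (r₀ + r₁) * K ≤ 1 := by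
    rw [← hg]
    exact sub_le_self _ (CStarAlgebra.pow_nonneg hc0 m)
  have e0 := cc_tr_mul_le h h₀ (le_add_of_nonneg_right h₁.nonneg) hK hbK hb1
  have e1 := cc_tr_mul_le h h₁ (le_add_of_nonneg_left h₀.nonneg) hK hbK hb1
  rw [hg, add_mul, map_add, Complex.add_re]
  linarith

omit [PartialOrder A] [StarOrderedRing A] in
theorem cc_smul_mem {C : StarSubalgebra ℂ A} (t : ℝ) {x : A} (hx : x ∈ C) : t • x ∈ C := by
  rw [← Complex.coe_smul]
  exact C.smul_mem hx _

theorem third_iso (h : IsTracialState τ) {C : StarSubalgebra ℂ A} (hc : CmpIn τ C 1)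
    {p a s₀ s₁ : A} (hpC : p ∈ C) (haC : a ∈ C) (h₀C : s₀ ∈ C) (h₁C : s₁ ∈ C)
    (hp : IsStarProjection p) (ha0 : 0 ≤ a) (ha1 : a ≤ 1) (h₀ : star s₀ * s₀ = p)
    (h₁ : star s₁ * s₁ = p) (ha₀ : a * s₀ = s₀) (ha₁ : a * s₁ = s₁)
    (hδ : ∃ δ : ℝ, 0 < δ ∧ ∀ m : ℕ, 3 * (τ p).re + δ ≤ (τ (a ^ m)).re) :
    ∃ s ∈ C, star s * s = p ∧ a * s = s ∧ star s₀ * s = 0 ∧ star s₁ * s = 0 := by
  obtain ⟨δ, hδ0, hδ⟩ := hδ
  have hr₀ := isStarProjection_mul_star hp h₀
  have hr₁ := isStarProjection_mul_star hp h₁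
  have ht₀ : τ (s₀ * star s₀) = τ p := by rw [h.2, h₀]
  have ht₁ : τ (s₁ * star s₁) = τ p := by rw [h.2, h₁]
  have hr₀C : s₀ * star s₀ ∈ C := mul_mem h₀C (star_mem h₀C)
  have hr₁C : s₁ * star s₁ ∈ C := mul_mem h₁C (star_mem h₁C)
  have har₀ : a * (s₀ * star s₀) = s₀ * star s₀ := by rw [← mul_assoc, ha₀]
  have har₁ : a * (s₁ * star s₁) = s₁ * star s₁ := by rw [← mul_assoc, ha₁]
  have key : ∀ r₀ r₁ : A, IsStarProjection r₀ → IsStarProjection r₁ → τ r₀ = τ p → τ r₁ = τ p →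
      r₀ ∈ C → r₁ ∈ C → a * r₀ = r₀ → a * r₁ = r₁ →
      ∃ s ∈ C, star s * s = p ∧ a * s = s ∧ star s * r₀ * s = 0 ∧ star s * r₁ * s = 0 := by
    intro r₀ r₁ hr₀ hr₁ ht₀ ht₁ hr₀C hr₁C har₀ har₁
    have has : star a = a := (IsSelfAdjoint.of_nonneg ha0).star_eq
    have hbs : star (r₀ + r₁) = r₀ + r₁ := (hr₀.isSelfAdjoint.add hr₁.isSelfAdjoint).star_eq
    have hrank := rank_bound h hr₀ hr₁
    have hg := cc_geom (r₀ + r₁)
    have hab : a * (r₀ + r₁) = r₀ + r₁ := by rw [mul_add, har₀, har₁]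
    have hb0 : 0 ≤ r₀ + r₁ := add_nonneg hr₀.nonneg hr₁.nonneg
    have hsub : 0 ≤ a - (1 / 2 : ℝ) • (r₀ + r₁) := by
      have e : a - (1 / 2 : ℝ) • (r₀ + r₁) = (1 / 2 : ℝ) • (a - r₀) + (1 / 2 : ℝ) • (a - r₁) := by
        module
      rw [e]
      exact add_nonneg (smul_nonneg (by norm_num) (sub_nonneg_of_mul_eq ha0 hr₀ har₀))
        (smul_nonneg (by norm_num) (sub_nonneg_of_mul_eq ha0 hr₁ har₁))
    have hbC : r₀ + r₁ ∈ C := add_mem hr₀C hr₁C
    generalize hb : r₀ + r₁ = b at hbs hrank hg hab hb0 hsub hbC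
    have hba : b * a = b := by
      have := congrArg star hab
      rwa [star_mul, hbs, has] at this
    have hcm : Commute a (1 - (1 / 2 : ℝ) • b) :=
      (Commute.one_right _).sub_right (Commute.smul_right (hab.trans hba.symm) _)
    have hpowb : ∀ m : ℕ, a ^ m * b = b := by
      intro m
      induction m with
      | zero => rw [pow_zero, one_mul]
      | succ n ih => rw [pow_succ, mul_assoc, hab, ih]
    have hpow : ∀ m : ℕ, (a - (1 / 2 : ℝ) • b) ^ m
        = a ^ m - (1 - (1 - (1 / 2 : ℝ) • b) ^ m) := by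
      intro m
      have e : a - (1 / 2 : ℝ) • b = a * (1 - (1 / 2 : ℝ) • b) := by
        rw [mul_sub, mul_one, mul_smul_comm, hab]
      have e2 : a ^ m * (1 - (1 - (1 / 2 : ℝ) • b) ^ m) = 1 - (1 - (1 / 2 : ℝ) • b) ^ m := by
        rw [hg m, ← mul_assoc, hpowb]
      rw [e, hcm.mul_pow, ← e2, mul_sub, mul_one, sub_sub_cancel]
    obtain ⟨s, hsC, hs, has'⟩ := hc p (a - (1 / 2 : ℝ) • b) hpC
      (sub_mem haC (cc_smul_mem _ hbC)) hp hsub
      ((sub_le_self _ (smul_nonneg (by norm_num) hb0)).trans ha1)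
      ⟨δ, hδ0, fun m => by
        have e1 := hrank m
        have e2 := hδ m
        rw [hpow m, map_sub, Complex.sub_re]
        rw [ht₀, ht₁] at e1
        linarith⟩
    have hbb : b * (b * s) = 0 := by
      have e1 : b * ((a - (1 / 2 : ℝ) • b) * s) = b * s := by rw [has']
      rw [sub_mul, mul_sub, ← mul_assoc, hba, smul_mul_assoc, mul_smul_comm, sub_eq_self,
        smul_eq_zero] at e1
      rcases e1 with e1 | e1
      · norm_num at e1
      · exact e1
    have hbs0 : b * s = 0 := by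
      have e1 : star (b * s) * (b * s) = 0 := by
        rw [star_mul, hbs, mul_assoc, hbb, mul_zero]
      exact (CStarRing.star_mul_self_eq_zero_iff _).1 e1
    have hsum : star s * r₀ * s + star s * r₁ * s = 0 := by
      rw [← add_mul, ← mul_add, hb, mul_assoc, hbs0, mul_zero]
    have n₀ : 0 ≤ star s * r₀ * s := star_left_conjugate_nonneg hr₀.nonneg s
    have n₁ : 0 ≤ star s * r₁ * s := star_left_conjugate_nonneg hr₁.nonneg s
    have hz := (add_eq_zero_iff_of_nonneg n₀ n₁).1 hsum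
    refine ⟨s, hsC, hs, ?_, hz.1, hz.2⟩
    rw [sub_mul, smul_mul_assoc, hbs0, smul_zero, sub_zero] at has'
    exact has'
  obtain ⟨s, hsC, hs, has, z₀, z₁⟩ := key _ _ hr₀ hr₁ ht₀ ht₁ hr₀C hr₁C har₀ har₁
  refine ⟨s, hsC, hs, has, ?_, ?_⟩
  · apply (CStarRing.star_mul_self_eq_zero_iff _).1
    rw [star_mul, star_star, ← z₀]
    noncomm_ring
  · apply (CStarRing.star_mul_self_eq_zero_iff _).1
    rw [star_mul, star_star, ← z₁]
    noncomm_ring

omit [PartialOrder A] [StarOrderedRing A] in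
theorem cc_comb_sq {p u v : A} (hu : star u * u = p) (hv : star v * v = p)
    (huv : star u * v = 0) (α β : ℝ) :
    star (α • u + β • v) * (α • u + β • v) = (α ^ 2 + β ^ 2) • p := by
  have hvu : star v * u = 0 := by
    have := congrArg star huv
    rwa [star_mul, star_star, star_zero] at this
  rw [star_add, star_smul, star_smul, star_trivial α, star_trivial β]
  simp only [add_mul, mul_add, smul_mul_assoc, mul_smul_comm, hu, hv, huv, hvu, smul_zero,
    add_zero, zero_add, smul_smul]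
  rw [add_smul, sq, sq]

omit [PartialOrder A] [StarOrderedRing A] in
theorem cc_comb_norm {p u v : A} (hp : IsStarProjection p) (hu : star u * u = p)
    (hv : star v * v = p) (huv : star u * v = 0) {α β L : ℝ} (hL : 0 ≤ L)
    (h : α ^ 2 + β ^ 2 ≤ L ^ 2) : ‖α • u + β • v‖ ≤ L := by
  have e1 := CStarRing.norm_star_mul_self (x := α • u + β • v)
  rw [cc_comb_sq hu hv huv, norm_smul, Real.norm_of_nonneg (by positivity)] at e1
  have e2 : ‖p‖ ≤ 1 := hp.norm_le
  have e3 : ‖α • u + β • v‖ ^ 2 ≤ L ^ 2 := by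
    rw [sq, ← e1]
    nlinarith [sq_nonneg α, sq_nonneg β, norm_nonneg p]
  exact (pow_le_pow_iff_left₀ (norm_nonneg _) hL two_ne_zero).1 e3

theorem cc_chord (x y : ℝ) :
    (Real.cos y - Real.cos x) ^ 2 + (Real.sin y - Real.sin x) ^ 2 ≤ (y - x) ^ 2 := by
  have e1 := Real.one_sub_sq_div_two_le_cos (x := y - x)
  rw [Real.cos_sub] at e1
  nlinarith [Real.sin_sq_add_cos_sq x, Real.sin_sq_add_cos_sq y]

theorem chn_iso (h : IsTracialState τ) {C : StarSubalgebra ℂ A} (hc : CmpIn τ C 1)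
    {p a s₀ s₁ : A} (hpC : p ∈ C) (haC : a ∈ C) (h₀C : s₀ ∈ C) (h₁C : s₁ ∈ C)
    (hp : IsStarProjection p) (ha0 : 0 ≤ a) (ha1 : a ≤ 1) (h₀ : star s₀ * s₀ = p)
    (h₁ : star s₁ * s₁ = p) (ha₀ : a * s₀ = s₀) (ha₁ : a * s₁ = s₁)
    (hδ : ∃ δ : ℝ, 0 < δ ∧ ∀ m : ℕ, 3 * (τ p).re + δ ≤ (τ (a ^ m)).re) :
    Chn (fun s => s ∈ C ∧ star s * s = p ∧ a * s = s) 4 s₀ s₁ := by
  obtain ⟨s, hsC, hs, has, z₀, z₁⟩ :=
    third_iso h hc hpC haC h₀C h₁C hp ha0 ha1 h₀ h₁ ha₀ ha₁ hδ
  let f : ℝ → A := fun t => Real.cos t • s₀ + Real.sin t • s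
  let g : ℝ → A := fun t => (-Real.cos t) • s₁ + Real.sin t • s
  let γ : ℝ → A := fun t => if t ≤ Real.pi / 2 then f t else g t
  have hf : ∀ x y : ℝ, x ≤ y → ‖f y - f x‖ ≤ y - x := by
    intro x y hxy
    have e : f y - f x = (Real.cos y - Real.cos x) • s₀ + (Real.sin y - Real.sin x) • s := by
      simp only [f]
      module
    rw [e]
    exact cc_comb_norm hp h₀ hs z₀ (sub_nonneg.2 hxy) (cc_chord x y)
  have hg : ∀ x y : ℝ, x ≤ y → ‖g y - g x‖ ≤ y - x := by
    intro x y hxy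
    have e : g y - g x = (-(Real.cos y - Real.cos x)) • s₁ + (Real.sin y - Real.sin x) • s := by
      simp only [g]
      module
    rw [e]
    refine cc_comb_norm hp h₁ hs z₁ (sub_nonneg.2 hxy) ?_
    rw [neg_sq]
    exact cc_chord x y
  have hfg : f (Real.pi / 2) = g (Real.pi / 2) := by
    simp only [f, g, Real.cos_pi_div_two, neg_zero, zero_smul]
  have hγ : ∀ x y : ℝ, x ≤ y → ‖γ y - γ x‖ ≤ y - x := by
    intro x y hxy
    by_cases hy : y ≤ Real.pi / 2
    · have hx : x ≤ Real.pi / 2 := hxy.trans hy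
      simp only [γ, if_pos hx, if_pos hy]
      exact hf x y hxy
    · by_cases hx : x ≤ Real.pi / 2
      · simp only [γ, if_pos hx, if_neg hy]
        have e1 := hf x _ hx
        have e2 := hg _ y (le_of_not_ge hy)
        have e3 : g y - f x = (g y - g (Real.pi / 2)) + (f (Real.pi / 2) - f x) := by
          rw [hfg]
          abel
        rw [e3]
        exact (norm_add_le _ _).trans (by linarith)
      · simp only [γ, if_neg hx, if_neg hy]
        exact hg x y hxy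
  have hP : ∀ t : ℝ, γ t ∈ C ∧ star (γ t) * γ t = p ∧ a * γ t = γ t := by
    intro t
    by_cases ht : t ≤ Real.pi / 2
    · simp only [γ, if_pos ht, f]
      refine ⟨add_mem (cc_smul_mem _ h₀C) (cc_smul_mem _ hsC), ?_, ?_⟩
      · rw [cc_comb_sq h₀ hs z₀, Real.cos_sq_add_sin_sq, one_smul]
      · rw [mul_add, mul_smul_comm, mul_smul_comm, ha₀, has]
    · simp only [γ, if_neg ht, g]
      refine ⟨add_mem (cc_smul_mem _ h₁C) (cc_smul_mem _ hsC), ?_, ?_⟩
      · rw [cc_comb_sq h₁ hs z₁, neg_sq, Real.cos_sq_add_sin_sq, one_smul]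
      · rw [mul_add, mul_smul_comm, mul_smul_comm, ha₁, has]
  intro m hm
  have hm' : (0 : ℝ) < m := Nat.cast_pos.2 hm
  have hpi := Real.pi_pos
  refine ⟨fun j => γ (((min j m : ℕ) : ℝ) * Real.pi / m), ?_, ?_, fun j => hP _, fun j => ?_⟩
  · have h0 : (0 : ℝ) ≤ Real.pi / 2 := by positivity
    simp only [Nat.zero_min, Nat.cast_zero, zero_mul, zero_div, γ, if_pos h0, f, Real.cos_zero,
      Real.sin_zero, one_smul, zero_smul, add_zero]
  · have e : ((min m m : ℕ) : ℝ) * Real.pi / m = Real.pi := by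
      rw [min_self]
      field_simp
    have h0 : ¬ Real.pi ≤ Real.pi / 2 := by linarith
    simp only [e, γ, if_neg h0, g, Real.cos_pi, Real.sin_pi, neg_neg, one_smul, zero_smul,
      add_zero]
  · have e1 : ((min j m : ℕ) : ℝ) ≤ ((min (j + 1) m : ℕ) : ℝ) := by
      exact_mod_cast min_le_min_right m (Nat.le_succ j)
    have e2 : ((min (j + 1) m : ℕ) : ℝ) ≤ ((min j m : ℕ) : ℝ) + 1 := by
      have : min (j + 1) m ≤ min j m + 1 := by omega
      exact_mod_cast this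
    refine (hγ _ _ (by gcongr)).trans ?_
    rw [← sub_div]
    apply div_le_div_of_nonneg_right _ hm'.le
    nlinarith [Real.pi_le_four]

end Pool.Agent.Izumi
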