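import Pool.Agent.Lib.MP_b2135d_an.Core

/-! Matrix units, flips and unitary chains (PLAN section 1). -/

namespace Pool.Agent.Izumi

open scoped ComplexOrder Matrix
open Filter Topology

variable {A : Type} [CStarAlgebra A]

section MU

variable {ι R : Type} [Fintype ι] [DecidableEq ι] [Ring R] [StarRing R]

theorem IsMU.proj {e : ι → ι → R} (he : IsMU e) (i : ι) : IsStarProjection (e i i) :=
  ⟨by rw [IsIdempotentElem, he.mul, if_pos rfl], he.star i i⟩

theorem IsMU.reindex {κ : Type} [Fintype κ] [DecidableEq κ] {e : ι → ι → R} (he : IsMU e)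
    (σ : κ ≃ ι) : IsMU (fun i j => e (σ i) (σ j)) := by
  refine ⟨fun i j k l => ?_, fun i j => he.star _ _, ?_⟩
  · rw [he.mul]
    by_cases h : j = k
    · rw [if_pos h, if_pos (congrArg σ h)]
    · rw [if_neg h, if_neg fun h' => h (σ.injective h')]
  · rw [Equiv.sum_comp σ (fun i => e i i), he.sum]

theorem IsMU.flip {f g : ι → ι → R} (hf : IsMU f) (hg : IsMU g)
    (hc : ∀ i j k l, Commute (f i j) (g k l)) {U : R} (hU : U = ∑ i, ∑ j, f i j * g j i) :
    Star.star U * U = 1 ∧ U * Star.star U = 1 ∧ ∀ i j, U * f i j * Star.star U = g i j := by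
  have hs : Star.star U = U := by
    rw [hU]
    simp only [star_sum]
    rw [Finset.sum_comm]
    refine Finset.sum_congr rfl fun i _ => Finset.sum_congr rfl fun j _ => ?_
    rw [star_mul, hf.star, hg.star, (hc _ _ _ _).eq]
  have h1 : ∀ a b, U * f a b = ∑ i, f i b * g a i := by
    intro a b
    rw [hU, Finset.sum_mul]
    refine Finset.sum_congr rfl fun i _ => ?_
    rw [Finset.sum_mul, Finset.sum_eq_single a]
    · rw [mul_assoc, ← (hc _ _ _ _).eq, ← mul_assoc, hf.mul, if_pos rfl]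
    · intro j _ hj
      rw [mul_assoc, ← (hc _ _ _ _).eq, ← mul_assoc, hf.mul, if_neg hj, zero_mul]
    · intro h
      exact absurd (Finset.mem_univ a) h
  have h2 : ∀ a b, g a b * U = ∑ i, f i b * g a i := by
    intro a b
    rw [hU, Finset.mul_sum]
    refine Finset.sum_congr rfl fun i _ => ?_
    rw [Finset.mul_sum, Finset.sum_eq_single b]
    · rw [← mul_assoc, ← (hc _ _ _ _).eq, mul_assoc, hg.mul, if_pos rfl]
    · intro j _ hj
      rw [← mul_assoc, ← (hc _ _ _ _).eq, mul_assoc, hg.mul, if_neg hj.symm, mul_zero]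
    · intro h
      exact absurd (Finset.mem_univ b) h
  have h3 : U * U = 1 := by
    have h4 : U * U = ∑ a, ∑ b, U * f a b * g b a := by
      nth_rewrite 2 [hU]
      rw [Finset.mul_sum]
      refine Finset.sum_congr rfl fun a _ => ?_
      rw [Finset.mul_sum]
      exact Finset.sum_congr rfl fun b _ => (mul_assoc _ _ _).symm
    have h5 : ∀ a b, U * f a b * g b a = f b b * g a a := by
      intro a b
      rw [h1, Finset.sum_mul, Finset.sum_eq_single b]
      · rw [mul_assoc, hg.mul, if_pos rfl]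
      · intro j _ hj
        rw [mul_assoc, hg.mul, if_neg hj, mul_zero]
      · intro h
        exact absurd (Finset.mem_univ b) h
    rw [h4]
    simp only [h5]
    rw [Finset.sum_comm, ← Finset.sum_mul_sum, hf.sum, hg.sum, one_mul]
  rw [hs]
  refine ⟨h3, h3, fun i j => ?_⟩
  rw [h1, ← h2, mul_assoc, h3, mul_one]

end MU

theorem IsMU.map_hom {ι B : Type} [Fintype ι] [DecidableEq ι] [CStarAlgebra B] {e : ι → ι → B}
    (he : IsMU e) (φ : B →⋆ₐ[ℂ] A) : IsMU (fun i j => φ (e i j)) := by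
  refine ⟨fun i j k l => ?_, fun i j => ?_, ?_⟩
  · rw [← map_mul, he.mul]
    split_ifs
    · rfl
    · exact map_zero φ
  · rw [← map_star, he.star]
  · rw [← map_sum, he.sum, map_one]

theorem IsMU.map_aut {ι : Type} [Fintype ι] [DecidableEq ι] {e : ι → ι → A} (he : IsMU e)
    (θ : A ≃⋆ₐ[ℂ] A) : IsMU (fun i j => θ (e i j)) := by
  refine ⟨fun i j k l => ?_, fun i j => ?_, ?_⟩
  · rw [← map_mul, he.mul]
    split_ifs
    · rfl
    · exact map_zero θ
  · rw [← map_star, he.star]
  · rw [← map_sum, he.sum, map_one]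

theorem IsMU.norm_le {ι : Type} [Fintype ι] [DecidableEq ι] {e : ι → ι → A} (he : IsMU e)
    (i j : ι) : ‖e i j‖ ≤ 1 := by
  have h1 : ‖e i j‖ * ‖e i j‖ ≤ 1 := by
    rw [← CStarRing.norm_star_mul_self, he.star, he.mul, if_pos rfl]
    exact (he.proj j).norm_le _
  nlinarith [norm_nonneg (e i j)]

theorem IsMU.exists_hom {ι : Type} [Fintype ι] [DecidableEq ι] {e : ι → ι → A} (he : IsMU e) :
    ∃ φ : Matrix ι ι ℂ →⋆ₐ[ℂ] A, (∀ M, φ M = ∑ i, ∑ j, M i j • e i j) ∧
      ∀ i j, φ (Matrix.single i j 1) = e i j := by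
  have hone : ∑ i, ∑ j, (1 : Matrix ι ι ℂ) i j • e i j = 1 := by
    rw [← he.sum]
    refine Finset.sum_congr rfl fun i _ => ?_
    rw [Finset.sum_eq_single i]
    · rw [Matrix.one_apply_eq, one_smul]
    · intro j _ hj
      rw [Matrix.one_apply_ne hj.symm, zero_smul]
    · intro h
      exact absurd (Finset.mem_univ i) h
  let φ : Matrix ι ι ℂ →⋆ₐ[ℂ] A :=
    { toFun := fun M => ∑ i, ∑ j, M i j • e i j
      map_one' := hone
      map_mul' := fun M N => by
        rw [Finset.sum_mul]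
        refine Finset.sum_congr rfl fun i _ => ?_
        have h1 : ∀ j, (M i j • e i j) * ∑ k, ∑ l, N k l • e k l =
            ∑ l, (M i j * N j l) • e i l := by
          intro j
          rw [Finset.mul_sum, Finset.sum_eq_single j]
          · rw [Finset.mul_sum]
            refine Finset.sum_congr rfl fun l _ => ?_
            rw [smul_mul_smul_comm, he.mul, if_pos rfl]
          · intro k _ hk
            rw [Finset.mul_sum]
            refine Finset.sum_eq_zero fun l _ => ?_
            rw [smul_mul_smul_comm, he.mul, if_neg hk.symm, smul_zero]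
          · intro h
            exact absurd (Finset.mem_univ j) h
        rw [Finset.sum_mul]
        simp only [h1]
        rw [Finset.sum_comm]
        refine Finset.sum_congr rfl fun l _ => ?_
        rw [Matrix.mul_apply, Finset.sum_smul]
      map_zero' := by simp
      map_add' := fun M N => by
        simp only [Matrix.add_apply, add_smul, Finset.sum_add_distrib]
      commutes' := fun c => by
        rw [Algebra.algebraMap_eq_smul_one, Algebra.algebraMap_eq_smul_one, ← hone]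
        simp only [Matrix.smul_apply, Finset.smul_sum, smul_eq_mul, mul_smul]
      map_star' := fun M => by
        rw [star_sum, Finset.sum_comm]
        refine Finset.sum_congr rfl fun i _ => ?_
        rw [star_sum]
        refine Finset.sum_congr rfl fun j _ => ?_
        rw [star_smul, he.star, Matrix.star_apply] }
  refine ⟨φ, fun _ => rfl, fun i j => ?_⟩
  change ∑ a, ∑ b, Matrix.single i j (1 : ℂ) a b • e a b = e i j
  rw [Finset.sum_eq_single i, Finset.sum_eq_single j]
  · rw [Matrix.single_apply_same, one_smul]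
  · intro b _ hb
    rw [Matrix.single_apply_of_col_ne _ _ hb.symm, zero_smul]
  · intro h
    exact absurd (Finset.mem_univ j) h
  · intro a _ ha
    refine Finset.sum_eq_zero fun b _ => ?_
    rw [Matrix.single_apply_of_row_ne ha.symm, zero_smul]
  · intro h
    exact absurd (Finset.mem_univ i) h

theorem isMU_of_hom {ι : Type} [Fintype ι] [DecidableEq ι] (φ : Matrix ι ι ℂ →⋆ₐ[ℂ] A) :
    IsMU (fun i j => φ (Matrix.single i j 1)) := by
  refine ⟨fun i j k l => ?_, fun i j => ?_, ?_⟩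
  · rw [← map_mul]
    by_cases h : j = k
    · subst h
      rw [if_pos rfl, Matrix.single_mul_single_same, one_mul]
    · rw [if_neg h, Matrix.single_mul_single_of_ne _ _ _ _ h, map_zero]
  · rw [← map_star, Matrix.star_eq_conjTranspose, Matrix.conjTranspose_single, star_one]
  · rw [← map_sum, Matrix.sum_single_one, map_one]

theorem hom_eq_sum {ι : Type} [Fintype ι] [DecidableEq ι] (φ : Matrix ι ι ℂ →⋆ₐ[ℂ] A)
    (M : Matrix ι ι ℂ) : φ M = ∑ i, ∑ j, M i j • φ (Matrix.single i j 1) := by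
  conv_lhs => rw [Matrix.matrix_eq_sum_single M]
  rw [map_sum]
  refine Finset.sum_congr rfl fun i _ => ?_
  rw [map_sum]
  refine Finset.sum_congr rfl fun j _ => ?_
  rw [← map_smul, Matrix.smul_single, smul_eq_mul, mul_one]

theorem Chn.mono {P Q : A → Prop} {L L' : ℝ} {x y : A} (h : Chn P L x y) (hPQ : ∀ z, P z → Q z)
    (hL : L ≤ L') : Chn Q L' x y := by
  intro m hm
  obtain ⟨z, h0, h1, h2, h3⟩ := h m hm
  exact ⟨z, h0, h1, fun j => hPQ _ (h2 j), fun j => (h3 j).trans
    (div_le_div_of_nonneg_right hL (Nat.cast_nonneg m))⟩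

theorem Chn.right {P : A → Prop} {L : ℝ} {x y : A} (h : Chn P L x y) : P y := by
  obtain ⟨z, -, h1, h2, -⟩ := h 1 one_pos
  exact h1 ▸ h2 1

theorem Chn.mul {C : StarSubalgebra ℂ A} {L L' : ℝ} {x y : A} (hx : Chn (UIn C) L 1 x)
    (hy : Chn (UIn C) L' 1 y) : Chn (UIn C) (L + L') 1 (x * y) := by
  intro m hm
  obtain ⟨z, h0, h1, h2, h3⟩ := hx m hm
  obtain ⟨w, k0, k1, k2, k3⟩ := hy m hm
  refine ⟨fun j => z j * w j, by simp only [h0, k0, mul_one], by simp only [h1, k1],
    fun j => ⟨mul_mem (h2 j).1 (k2 j).1, mul_mem (h2 j).2 (k2 j).2⟩, fun j => ?_⟩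
  have e : z (j + 1) * w (j + 1) - z j * w j =
      (z (j + 1) - z j) * w (j + 1) + z j * (w (j + 1) - w j) := by noncomm_ring
  beta_reduce
  rw [e, add_div]
  refine (norm_add_le _ _).trans (add_le_add ?_ ?_)
  · rw [CStarRing.norm_mul_mem_unitary _ (k2 _).1]
    exact h3 j
  · rw [CStarRing.norm_mem_unitary_mul _ (h2 _).1]
    exact k3 j

theorem Chn.star {C : StarSubalgebra ℂ A} {L : ℝ} {x : A} (hx : Chn (UIn C) L 1 x) :
    Chn (UIn C) L 1 (Star.star x) := by
  intro m hm
  obtain ⟨z, h0, h1, h2, h3⟩ := hx m hm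
  refine ⟨fun j => Star.star (z j), by simp only [h0, star_one], by simp only [h1],
    fun j => ⟨Unitary.star_mem (h2 j).1, star_mem (h2 j).2⟩, fun j => ?_⟩
  beta_reduce
  rw [← star_sub, norm_star]
  exact h3 j

theorem Chn.map_aut {C : StarSubalgebra ℂ A} {L : ℝ} {x : A} (hx : Chn (UIn C) L 1 x)
    (θ : A ≃⋆ₐ[ℂ] A) (hθ : ∀ z ∈ C, θ z ∈ C) : Chn (UIn C) L 1 (θ x) := by
  intro m hm
  obtain ⟨z, h0, h1, h2, h3⟩ := hx m hm
  refine ⟨fun j => θ (z j), by simp only [h0, map_one], by simp only [h1],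
    fun j => ⟨?_, hθ _ (h2 j).2⟩, fun j => ?_⟩
  · obtain ⟨a, b⟩ := Unitary.mem_iff.1 (h2 j).1
    refine Unitary.mem_iff.2 ⟨?_, ?_⟩
    · rw [← map_star, ← map_mul, a, map_one]
    · rw [← map_star, ← map_mul, b, map_one]
  · beta_reduce
    rw [← map_sub, StarAlgEquiv.norm_map]
    exact h3 j

theorem chn_skew_CD {C : StarSubalgebra ℂ A} {K : A} (hK : K ∈ C) (hs : star K = -K)
    (hm : K * K = -1) : Chn (UIn C) 2 1 K := by
  have key : ∀ a b : ℝ, star ((a : ℂ) • (1 : A) + (b : ℂ) • K) = (a : ℂ) • 1 - (b : ℂ) • K := by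
    intro a b
    rw [star_add, star_smul, star_smul, star_one, hs, Complex.star_def, Complex.conj_ofReal,
      Complex.conj_ofReal, smul_neg, sub_eq_add_neg]
  have k1 : ∀ a b : ℂ, (a • (1 : A) - b • K) * (a • 1 + b • K) = (a ^ 2 + b ^ 2) • 1 := by
    intro a b
    simp only [sub_mul, mul_add, smul_mul_smul_comm, one_mul, mul_one, hm]
    module
  have k2 : ∀ a b : ℂ, (a • (1 : A) + b • K) * (a • 1 - b • K) = (a ^ 2 + b ^ 2) • 1 := by
    intro a b
    simp only [add_mul, mul_sub, smul_mul_smul_comm, one_mul, mul_one, hm]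
    module
  intro m hm0
  have hmR : (0 : ℝ) < m := Nat.cast_pos.2 hm0
  set t : ℝ := Real.pi / 2 / m with ht
  refine ⟨fun j => ((Real.cos (j * t) : ℝ) : ℂ) • (1 : A) + ((Real.sin (j * t) : ℝ) : ℂ) • K,
    by simp, ?_, fun j => ⟨?_, ?_⟩, fun j => ?_⟩
  · have h1 : (m : ℝ) * t = Real.pi / 2 := by rw [ht]; field_simp
    simp only [h1, Real.cos_pi_div_two, Real.sin_pi_div_two, Complex.ofReal_zero, zero_smul,
      Complex.ofReal_one, one_smul, zero_add]
  · have h1 : ((Real.cos (j * t) : ℝ) : ℂ) ^ 2 + ((Real.sin (j * t) : ℝ) : ℂ) ^ 2 = 1 := by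
      rw [← Complex.ofReal_pow, ← Complex.ofReal_pow, ← Complex.ofReal_add,
        Real.cos_sq_add_sin_sq, Complex.ofReal_one]
    refine Unitary.mem_iff.2 ⟨?_, ?_⟩
    · rw [key, k1, h1, one_smul]
    · rw [key, k2, h1, one_smul]
  · exact add_mem (SMulMemClass.smul_mem _ (one_mem C)) (SMulMemClass.smul_mem _ hK)
  · set a : ℝ := Real.cos (((j + 1 : ℕ) : ℝ) * t) - Real.cos (j * t) with ha
    set b : ℝ := Real.sin (((j + 1 : ℕ) : ℝ) * t) - Real.sin (j * t) with hb
    have e : ((Real.cos (((j + 1 : ℕ) : ℝ) * t) : ℝ) : ℂ) • (1 : A) +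
        ((Real.sin (((j + 1 : ℕ) : ℝ) * t) : ℝ) : ℂ) • K -
        (((Real.cos (j * t) : ℝ) : ℂ) • (1 : A) + ((Real.sin (j * t) : ℝ) : ℂ) • K) =
        (a : ℂ) • (1 : A) + (b : ℂ) • K := by
      rw [ha, hb, Complex.ofReal_sub, Complex.ofReal_sub]
      module
    beta_reduce
    rw [e]
    have h1 : a ^ 2 + b ^ 2 ≤ t ^ 2 := by
      have h2 : Real.cos t = Real.cos (((j + 1 : ℕ) : ℝ) * t) * Real.cos (j * t) +
          Real.sin (((j + 1 : ℕ) : ℝ) * t) * Real.sin (j * t) := by
        rw [← Real.cos_sub]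
        congr 1
        push_cast
        ring
      have h3 := Real.one_sub_sq_div_two_le_cos (x := t)
      have h4 := Real.cos_sq_add_sin_sq (((j + 1 : ℕ) : ℝ) * t)
      have h5 := Real.cos_sq_add_sin_sq (j * t)
      rw [ha, hb]
      nlinarith
    have h6 : ‖(a : ℂ) • (1 : A) + (b : ℂ) • K‖ * ‖(a : ℂ) • (1 : A) + (b : ℂ) • K‖ ≤ t ^ 2 := by
      rw [← CStarRing.norm_star_mul_self, key, k1, norm_smul, ← Complex.ofReal_pow,
        ← Complex.ofReal_pow, ← Complex.ofReal_add, Complex.norm_real,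
        Real.norm_of_nonneg (by positivity)]
      have h7 : ‖(1 : A)‖ ≤ 1 := (IsStarProjection.one A).norm_le _
      nlinarith [norm_nonneg (1 : A), sq_nonneg a, sq_nonneg b]
    have h8 : 0 ≤ t := by rw [ht]; positivity
    have h9 : t ≤ 2 / m := by
      rw [ht]
      exact div_le_div_of_nonneg_right (by linarith [Real.pi_le_four]) hmR.le
    refine le_trans ?_ h9
    rw [← sq] at h6
    exact (abs_le_of_sq_le_sq' h6 h8).2

theorem mu_mul_CD {e : Fin 2 → Fin 2 → A} (he : IsMU e) (a : A) {b : A}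
    (hb : ∀ i j, Commute b (e i j)) (i j k l : Fin 2) :
    a * e i j * (b * e k l) = if j = k then a * b * e i l else 0 := by
  rw [mul_assoc, ← mul_assoc (e i j), ← (hb i j).eq, mul_assoc, he.mul, ← mul_assoc]
  split_ifs
  · rfl
  · exact mul_zero _

theorem comm_star_CD {e : Fin 2 → Fin 2 → A} (he : IsMU e) {v : A}
    (hc : ∀ i j, Commute v (e i j)) (i j : Fin 2) : Commute (star v) (e i j) := by
  have h := (hc j i).star_star
  rwa [he.star] at h

theorem diag_mul_CD {e : Fin 2 → Fin 2 → A} (he : IsMU e) (a b : A) {a' b' : A}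
    (ha : ∀ i j, Commute a' (e i j)) (hb : ∀ i j, Commute b' (e i j)) :
    (a * e 0 0 + b * e 1 1) * (a' * e 0 0 + b' * e 1 1) = a * a' * e 0 0 + b * b' * e 1 1 := by
  simp only [add_mul, mul_add, mu_mul_CD he _ ha, mu_mul_CD he _ hb]
  simp

theorem chn_off_CD {C : StarSubalgebra ℂ A} {e : Fin 2 → Fin 2 → A} (he : IsMU e)
    (heC : ∀ i j, e i j ∈ C) {v : A} (hv : UIn C v) (hc : ∀ i j, Commute v (e i j)) :
    Chn (UIn C) 2 1 (v * e 0 1 - star v * e 1 0) := by
  have hc' := comm_star_CD he hc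
  obtain ⟨h1, h2⟩ := Unitary.mem_iff.1 hv.1
  refine chn_skew_CD (sub_mem (mul_mem hv.2 (heC _ _)) (mul_mem (star_mem hv.2) (heC _ _))) ?_ ?_
  · rw [star_sub, star_mul, star_mul, star_star, he.star, he.star, ← (hc _ _).eq, ← (hc' _ _).eq,
      neg_sub]
  · have h3 := he.sum
    rw [Fin.sum_univ_two] at h3
    simp only [sub_mul, mul_sub, mu_mul_CD he _ hc, mu_mul_CD he _ hc', h1, h2, one_mul]
    rw [← h3]
    simp
    abel

theorem chn_diag {C : StarSubalgebra ℂ A} {e : Fin 2 → Fin 2 → A} (he : IsMU e)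
    (heC : ∀ i j, e i j ∈ C) {v : A} (hv : UIn C v) (hc : ∀ i j, Commute v (e i j)) :
    Chn (UIn C) 4 1 (v * e 0 0 + star v * e 1 1) := by
  have hn : ∀ i j, Commute (-1 : A) (e i j) := fun i j => Commute.neg_one_left _
  have h1 := chn_off_CD he heC hv hc
  have h2 := chn_off_CD he heC (v := -1) ⟨Unitary.mem_iff.2 (by simp), neg_mem (one_mem C)⟩ hn
  have h3 := h1.mul h2
  have e1 : (v * e 0 1 - star v * e 1 0) * (-1 * e 0 1 - star (-1 : A) * e 1 0) =
      v * e 0 0 + star v * e 1 1 := by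
    rw [star_neg, star_one]
    simp only [sub_mul, mul_sub, mu_mul_CD he _ hn]
    simp
    abel
  rw [e1] at h3
  exact h3.mono (fun _ h => h) (by norm_num)

theorem chn_half_CD {C : StarSubalgebra ℂ A} {e : Fin 2 → Fin 2 → A} (he : IsMU e)
    (heC : ∀ i j, e i j ∈ C) {u y : A} (hu : UIn C u) (hy : UIn C y)
    (hcu : ∀ i j, Commute u (e i j)) (hcy : ∀ i j, Commute y (e i j)) :
    Chn (UIn C) 12 1 (u * star y * star u * y * e 0 0 + 1 * e 1 1) := by
  have hcu' := comm_star_CD he hcu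
  have hcy' := comm_star_CD he hcy
  have hw : ∀ i j, Commute (star u * y) (e i j) := fun i j => (hcu' i j).mul_left (hcy i j)
  have h1 := chn_diag he heC hu hcu
  have h2 := chn_diag he heC (v := star y) ⟨Unitary.star_mem hy.1, star_mem hy.2⟩ hcy'
  have h3 := chn_diag he heC (v := star u * y)
    ⟨mul_mem (Unitary.star_mem hu.1) hy.1, mul_mem (star_mem hu.2) hy.2⟩ hw
  have h4 := (h1.mul h2).mul h3
  rw [diag_mul_CD he _ _ hcy' (comm_star_CD he hcy'),
    diag_mul_CD he _ _ hw (comm_star_CD he hw)] at h4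
  have e1 : star u * star (star y) * star (star u * y) = 1 := by
    rw [star_star, (Unitary.mem_iff.1 (mul_mem (Unitary.star_mem hu.1) hy.1)).2]
  rw [e1, ← mul_assoc] at h4
  exact h4.mono (fun _ h => h) (by norm_num)

theorem chn_commutator {C : StarSubalgebra ℂ A} {e : Fin 2 → Fin 2 → A} (he : IsMU e)
    (heC : ∀ i j, e i j ∈ C) {u y : A} (hu : UIn C u) (hy : UIn C y)
    (hcu : ∀ i j, Commute u (e i j)) (hcy : ∀ i j, Commute y (e i j)) :
    Chn (UIn C) 24 1 (u * star y * star u * y) := by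
  have hcu' := comm_star_CD he hcu
  have hcy' := comm_star_CD he hcy
  have h1 := chn_half_CD he heC hu hy hcu hcy
  have h2 := chn_half_CD (he.reindex (Equiv.swap 0 1)) (fun _ _ => heC _ _) hu hy
    (fun _ _ => hcu _ _) (fun _ _ => hcy _ _)
  simp only [Equiv.swap_apply_left, Equiv.swap_apply_right] at h2
  rw [add_comm] at h2
  have h3 := h1.mul h2
  rw [diag_mul_CD he _ _ (fun _ _ => Commute.one_left _) (fun i j =>
    (((hcu i j).mul_left (hcy' i j)).mul_left (hcu' i j)).mul_left (hcy i j))] at h3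
  have h4 := he.sum
  rw [Fin.sum_univ_two] at h4
  rw [mul_one, one_mul, ← mul_add, h4, mul_one] at h3
  exact h3.mono (fun _ h => h) (by norm_num)

end Pool.Agent.Izumi
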