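import Pool.Agent.Lib.MP_b2135d_an.CA
import Pool.Agent.Lib.MP_b2135d_an.CB2
import Pool.Agent.Lib.MP_b2135d_an.CD

/-! Successive embeddings (PLAN section 1). -/

namespace Pool.Agent.Izumi

open scoped ComplexOrder Matrix
open Filter Topology

variable {A : Type} [CStarAlgebra A] [PartialOrder A] [StarOrderedRing A] {τ : A →ₚ[ℂ] ℂ}

omit [PartialOrder A] [StarOrderedRing A] in
theorem ce_pow_sub {a r : A} (h1 : a * r = r) (h2 : r * a = r) (h3 : r * r = r) (m : ℕ) :
    (a - r) ^ (m + 1) = a ^ (m + 1) - r := by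
  induction m with
  | zero => rw [zero_add, pow_one, pow_one]
  | succ m ih =>
    have h4 : ∀ k : ℕ, a ^ k * r = r := fun k => by
      induction k with
      | zero => rw [pow_zero, one_mul]
      | succ k ih => rw [pow_succ, mul_assoc, h1, ih]
    rw [pow_succ, ih, sub_mul, mul_sub, mul_sub, h4, h2, h3, ← pow_succ, sub_self, sub_zero]

theorem multi_embed (h : IsTracialState τ) {C : StarSubalgebra ℂ A} {κ : ℝ} (hκ : 1 ≤ κ)
    (hc : CmpIn τ C κ) {ι : Type} (s : Finset ι) (p : ι → A) {a : A} {η δ : ℝ} (hδ : 0 < δ)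
    (hpC : ∀ i ∈ s, p i ∈ C) (hp : ∀ i ∈ s, IsStarProjection (p i)) (haC : a ∈ C) (ha0 : 0 ≤ a)
    (ha1 : a ≤ 1) (hη : ∀ i ∈ s, (τ (p i)).re ≤ η)
    (hm : ∀ m : ℕ, ∑ i ∈ s, (τ (p i)).re + (κ - 1) * η + δ ≤ (τ (a ^ m)).re) :
    ∃ v : ι → A, (∀ i ∈ s, v i ∈ C ∧ star (v i) * v i = p i ∧ a * v i = v i) ∧
      ∀ i ∈ s, ∀ j ∈ s, i ≠ j → star (v i) * v j = 0 := by
  classical
  induction s using Finset.induction_on generalizing a with
  | empty => exact ⟨fun _ => 0, fun i hi => absurd hi (Finset.notMem_empty i),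
      fun i hi => absurd hi (Finset.notMem_empty i)⟩
  | insert i s hi ih =>
    have hii := Finset.mem_insert_self i s
    simp only [Finset.sum_insert hi] at hm
    have hs0 : 0 ≤ ∑ j ∈ s, (τ (p j)).re := Finset.sum_nonneg fun j hj =>
      tr_re_nonneg τ (hp j (Finset.mem_insert_of_mem hj)).nonneg
    obtain ⟨w, hwC, hw1, hw2⟩ := hc (p i) a (hpC i hii) haC (hp i hii) ha0 ha1
      ⟨δ, hδ, fun m => by
        have h1 := hm m
        have h2 := mul_le_mul_of_nonneg_left (hη i hii) (sub_nonneg.2 hκ)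
        linarith⟩
    set r := w * star w with hr
    have hrp : IsStarProjection r := isStarProjection_mul_star (hp i hii) hw1
    have har : a * r = r := by rw [hr, ← mul_assoc, hw2]
    have hra : r * a = r := by
      have := congrArg star har
      rwa [star_mul, hrp.isSelfAdjoint.star_eq, (IsSelfAdjoint.of_nonneg ha0).star_eq] at this
    have hrr : r * r = r := hrp.isIdempotentElem
    have hrw : star w * r = star w := by
      have := congrArg star (mul_eq_of_star_mul_self (hp i hii) hw1)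
      rw [hr, ← mul_assoc, hw1]
      rwa [star_mul, (hp i hii).isSelfAdjoint.star_eq] at this
    have htr : τ r = τ (p i) := by rw [hr, h.2, hw1]
    have hle : a - r ≤ 1 := (sub_le_self a hrp.nonneg).trans ha1
    have hm1 : ∀ m : ℕ, ∑ j ∈ s, (τ (p j)).re + (κ - 1) * η + δ ≤ (τ ((a - r) ^ (m + 1))).re := by
      intro m
      have h1 := hm (m + 1)
      rw [ce_pow_sub har hra hrr, map_sub, Complex.sub_re, htr]
      linarith
    obtain ⟨v, hv1, hv2⟩ := ih (a := a - r) (fun j hj => hpC j (Finset.mem_insert_of_mem hj))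
      (fun j hj => hp j (Finset.mem_insert_of_mem hj))
      (sub_mem haC (mul_mem hwC (star_mem hwC))) (sub_nonneg_of_mul_eq ha0 hrp har) hle
      (fun j hj => hη j (Finset.mem_insert_of_mem hj)) (fun m => by
        cases m with
        | zero =>
          have h1 := hm1 0
          rw [zero_add, pow_one] at h1
          rw [pow_zero]
          exact h1.trans (tr_re_mono τ hle)
        | succ m => exact hm1 m)
    have hrv : ∀ j ∈ s, r * v j = 0 := fun j hj => by
      rw [← (hv1 j hj).2.2, ← mul_assoc, mul_sub, hra, hrr, sub_self, zero_mul]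
    have hwv : ∀ j ∈ s, star w * v j = 0 := fun j hj => by
      rw [← hrw, mul_assoc, hrv j hj, mul_zero]
    have hne : ∀ j ∈ s, j ≠ i := fun j hj e => hi (e ▸ hj)
    refine ⟨Function.update v i w, fun j hj => ?_, fun j hj k hk hjk => ?_⟩
    · rcases Finset.mem_insert.1 hj with rfl | hj
      · rw [Function.update_self]
        exact ⟨hwC, hw1, hw2⟩
      · rw [Function.update_of_ne (hne j hj)]
        refine ⟨(hv1 j hj).1, (hv1 j hj).2.1, ?_⟩
        have h1 := (hv1 j hj).2.2
        rwa [sub_mul, hrv j hj, sub_zero] at h1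
    · rcases Finset.mem_insert.1 hj with ej | hj'
      · rcases Finset.mem_insert.1 hk with ek | hk'
        · exact absurd (ej.trans ek.symm) hjk
        · rw [ej, Function.update_self, Function.update_of_ne (hne k hk')]
          exact hwv k hk'
      · rcases Finset.mem_insert.1 hk with ek | hk'
        · rw [ek, Function.update_self, Function.update_of_ne (hne j hj')]
          have := congrArg star (hwv j hj')
          rwa [star_mul, star_star, star_zero] at this
        · rw [Function.update_of_ne (hne j hj'), Function.update_of_ne (hne k hk')]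
          exact hv2 j hj' k hk' hjk

theorem boost (h : IsTracialState τ) {C : StarSubalgebra ℂ A} (hc : CmpIn τ C 3)
    (hdiv : ∀ p ∈ C, ∀ n : ℕ, 0 < n → ∃ e : Fin n → Fin n → A, IsMU e ∧
      ∀ i j, e i j ∈ C ∧ Commute p (e i j)) : CmpIn τ C 1 := by
  rintro p a hpC haC hp ha0 ha1 ⟨δ, hδ, hm⟩
  obtain ⟨n, hn⟩ := exists_nat_gt (4 / δ)
  have hn0 : (0 : ℝ) < n := lt_trans (by positivity) hn
  obtain ⟨e, he, heC⟩ := hdiv p hpC n (by exact_mod_cast hn0)
  have hq : ∀ i, IsStarProjection (p * e i i) := fun i => hp.mul (he.proj i) (heC i i).2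
  have htq : ∀ i, (τ (p * e i i)).re = (τ p).re / n := fun i => by
    rw [tr_mu h he (fun i j => (heC i j).2), if_pos rfl, Fintype.card_fin, Complex.div_natCast_re]
  have hsum : ∑ i, p * e i i = p := by rw [← Finset.mul_sum, he.sum, mul_one]
  have hp1 : (τ p).re ≤ 1 := tr_re_le_one h hp.le_one
  obtain ⟨v, hv1, hv2⟩ := multi_embed h (κ := 3) (by norm_num) hc Finset.univ
    (fun i => p * e i i) (η := 1 / n) (δ := δ / 2) (by positivity)
    (fun i _ => mul_mem hpC (heC i i).1) (fun i _ => hq i) haC ha0 ha1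
    (fun i _ => by rw [htq]; exact div_le_div_of_nonneg_right hp1 hn0.le) (fun m => by
      have h1 := hm m
      have h2 : (3 - 1) * (1 / (n : ℝ)) ≤ δ / 2 := by
        rw [div_lt_iff₀ hδ] at hn
        rw [mul_one_div, div_le_iff₀ hn0]
        linarith
      rw [← Complex.re_sum, ← map_sum, hsum]
      linarith)
  refine ⟨∑ i, v i, sum_mem fun i hi => (hv1 i hi).1, ?_, ?_⟩
  · rw [star_sum, Finset.sum_mul_sum]
    refine Eq.trans (Finset.sum_congr rfl fun i hi => ?_) hsum
    rw [Finset.sum_eq_single i (fun j hj hji => hv2 i hi j hj hji.symm)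
      (fun h => absurd hi h), (hv1 i hi).2.1]
  · rw [Finset.mul_sum]
    exact Finset.sum_congr rfl fun i hi => (hv1 i hi).2.2

theorem embed_row (h : IsTracialState τ) {C : StarSubalgebra ℂ A} (hc : CmpIn τ C 1) {n : Type}
    [Fintype n] [DecidableEq n] (b : Matrix n n A) (hbC : ∀ i j, b i j ∈ C) (hbs : bᴴ = b)
    (hbi : b * b = b) {ψ : n → n → A} (hψ : IsMU ψ) (hψC : ∀ i j, ψ i j ∈ C)
    (hcm : ∀ i j k l, Commute (b i j) (ψ k l)) {q : A} (hqC : q ∈ C) (hq : IsStarProjection q)
    (hlt : ∑ i, (τ (b i i)).re < (τ q).re) :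
    ∃ X : n → A, (∀ i, X i ∈ C ∧ q * X i = X i) ∧ ∀ i j, star (X i) * X j = b i j := by
  rcases isEmpty_or_nonempty n with hn | hn
  · exact ⟨fun _ => 0, fun i => isEmptyElim i, fun i => isEmptyElim i⟩
  have hN : (0 : ℝ) < Fintype.card n := by exact_mod_cast Fintype.card_pos
  have hbs' : ∀ i j, star (b i j) = b j i := fun i j => by
    rw [← Matrix.conjTranspose_apply, hbs]
  have hbb : ∀ i l, ∑ j, b i j * b j l = b i l := fun i l => by
    rw [← Matrix.mul_apply, hbi]
  set Θ : A := ∑ i, ∑ j, b i j * ψ i j with hΘ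
  have hΘψ : ∀ k l, Θ * ψ k l = ∑ i, b i k * ψ i l := fun k l => by
    rw [hΘ, Finset.sum_mul]
    refine Finset.sum_congr rfl fun i _ => ?_
    rw [Finset.sum_mul, Finset.sum_eq_single k]
    · rw [mul_assoc, hψ.mul, if_pos rfl]
    · intro j _ hj
      rw [mul_assoc, hψ.mul, if_neg hj, mul_zero]
    · exact fun h => absurd (Finset.mem_univ k) h
  have hΘp : IsStarProjection Θ := by
    constructor
    · change Θ * Θ = Θ
      conv_lhs => rw [hΘ, Finset.mul_sum]
      simp only [← hΘ, Finset.mul_sum]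
      have e1 : ∀ k l, Θ * (b k l * ψ k l) = ∑ i, b i k * b k l * ψ i l := fun k l => by
        rw [(hcm k l k l).eq, ← mul_assoc, hΘψ, Finset.sum_mul]
        refine Finset.sum_congr rfl fun i _ => ?_
        rw [mul_assoc, ← (hcm k l i l).eq, mul_assoc]
      simp only [e1]
      rw [Finset.sum_comm]
      conv_rhs => rw [hΘ, Finset.sum_comm]
      refine Finset.sum_congr rfl fun l _ => ?_
      rw [Finset.sum_comm]
      refine Finset.sum_congr rfl fun i _ => ?_
      rw [← Finset.sum_mul, hbb]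
    · change star Θ = Θ
      conv_lhs => rw [hΘ, star_sum]
      simp only [star_sum, star_mul, hψ.star, hbs']
      rw [Finset.sum_comm, hΘ]
      exact Finset.sum_congr rfl fun i _ => Finset.sum_congr rfl fun j _ => (hcm i j i j).eq.symm
  have hΘC : Θ ∈ C := sum_mem fun i _ => sum_mem fun j _ => mul_mem (hbC i j) (hψC i j)
  have htΘ : (τ Θ).re = (∑ i, (τ (b i i)).re) / Fintype.card n := by
    rw [hΘ, map_sum, Complex.re_sum, Finset.sum_div]
    refine Finset.sum_congr rfl fun i _ => ?_
    rw [map_sum, Finset.sum_eq_single i]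
    · rw [tr_mu h hψ (hcm i i), if_pos rfl, Complex.div_natCast_re]
    · intro j _ hj
      rw [tr_mu h hψ (hcm i j), if_neg hj.symm]
    · exact fun h => absurd (Finset.mem_univ i) h
  obtain ⟨v, hv1, hv2⟩ := multi_embed h (κ := 1) le_rfl hc (Finset.univ : Finset n)
    (fun _ => Θ) (η := (τ Θ).re) (sub_pos.2 hlt) (fun _ _ => hΘC) (fun _ _ => hΘp) hqC hq.nonneg
    hq.le_one (fun _ _ => le_rfl) (fun m => by
      have h1 : (τ q).re ≤ (τ (q ^ m)).re := by
        cases m with
        | zero => rw [pow_zero]; exact tr_re_mono τ hq.le_one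
        | succ m => rw [hq.isIdempotentElem.pow_succ_eq]
      rw [Finset.sum_const, Finset.card_univ, nsmul_eq_mul, htΘ, mul_div_cancel₀ _ hN.ne']
      linarith)
  refine ⟨fun j => ∑ l, v l * ψ j l, fun j => ⟨sum_mem fun l hl =>
    mul_mem (hv1 l hl).1 (hψC j l), ?_⟩, fun i j => ?_⟩
  · rw [Finset.mul_sum]
    exact Finset.sum_congr rfl fun l hl => by rw [← mul_assoc, (hv1 l hl).2.2]
  · rw [star_sum, Finset.sum_mul_sum]
    have e2 : ∀ l, ∑ k, star (v l * ψ i l) * (v k * ψ j k) = b i j * ψ l l := fun l => by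
      rw [Finset.sum_eq_single l]
      · rw [star_mul, mul_assoc, ← mul_assoc (star (v l)), (hv1 l (Finset.mem_univ l)).2.1, hΘψ,
          hψ.star, Finset.mul_sum, Finset.sum_eq_single i]
        · rw [← mul_assoc, ← (hcm i j l i).eq, mul_assoc, hψ.mul, if_pos rfl]
        · intro k _ hk
          rw [← mul_assoc, ← (hcm k j l i).eq, mul_assoc, hψ.mul, if_neg hk.symm, mul_zero]
        · exact fun h => absurd (Finset.mem_univ i) h
      · intro k _ hk
        rw [star_mul, mul_assoc, ← mul_assoc (star (v l)),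
          hv2 l (Finset.mem_univ l) k (Finset.mem_univ k) hk.symm, zero_mul, mul_zero]
      · exact fun h => absurd (Finset.mem_univ l) h
    simp only [e2]
    rw [← Finset.mul_sum, hψ.sum, mul_one]

end Pool.Agent.Izumi
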