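import Pool.Agent.Lib.MP_b2135d_an.Defs

/-! Internal definitions and a small API for MP_b2135d_an. -/

namespace Pool.Agent.Izumi

open scoped ComplexOrder
open Filter Topology

/-! ### UHF chains, matrix units, traces -/

/-- An increasing chain of unital full matrix subalgebras with dense union. -/
structure UChain (E : Type) [CStarAlgebra E] where
  n : ℕ → ℕ
  ι : ∀ k, Matrix (Fin (n k)) (Fin (n k)) ℂ →⋆ₐ[ℂ] E
  mono : ∀ k, Set.range (ι k) ⊆ Set.range (ι (k + 1))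
  dense : Dense (⋃ k, Set.range (ι k))

/-- UHF algebras and full matrix algebras. -/
def IsUHF (E : Type) [CStarAlgebra E] : Prop := Nontrivial E ∧ Nonempty (UChain E)

theorem IsUniversalUHF.isUHF {D : Type} [CStarAlgebra D] (h : IsUniversalUHF D) : IsUHF D := by
  obtain ⟨h0, n, ι, h1, h2, -⟩ := h
  exact ⟨h0, ⟨⟨n, ι, h1, h2⟩⟩⟩

theorem IsUniversalUHF.exists_chain {D : Type} [CStarAlgebra D] (h : IsUniversalUHF D) :
    ∃ c : UChain D, ∀ m : ℕ, 0 < m → ∃ k, m ∣ c.n k := by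
  obtain ⟨-, n, ι, h1, h2, h3⟩ := h
  exact ⟨⟨n, ι, h1, h2⟩, h3⟩

theorem UChain.mono_le {E : Type} [CStarAlgebra E] (c : UChain E) {k l : ℕ} (h : k ≤ l) :
    Set.range (c.ι k) ⊆ Set.range (c.ι l) := by
  induction h with
  | refl => exact subset_rfl
  | step _ ih => exact ih.trans (c.mono _)

/-- A unital system of matrix units. -/
structure IsMU {ι R : Type} [Fintype ι] [DecidableEq ι] [Ring R] [StarRing R]
    (e : ι → ι → R) : Prop where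
  mul : ∀ i j k l, e i j * e k l = if j = k then e i l else 0
  star : ∀ i j, star (e i j) = e j i
  sum : ∑ i, e i i = 1

/-- The 2-seminorm of a trace. -/
noncomputable def n2 {A : Type} [CStarAlgebra A] [PartialOrder A] (τ : A →ₚ[ℂ] ℂ) (x : A) : ℝ :=
  √((τ (star x * x)).re)

/-- Comparison with constant `κ` inside the subalgebra `C`. -/
def CmpIn {A : Type} [CStarAlgebra A] [PartialOrder A] (τ : A →ₚ[ℂ] ℂ)
    (C : StarSubalgebra ℂ A) (κ : ℝ) : Prop :=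
  ∀ p a : A, p ∈ C → a ∈ C → IsStarProjection p → 0 ≤ a → a ≤ 1 →
    (∃ δ : ℝ, 0 < δ ∧ ∀ m : ℕ, κ * (τ p).re + δ ≤ (τ (a ^ m)).re) →
      ∃ s ∈ C, star s * s = p ∧ a * s = s

/-- Discrete paths of length at most `L` from `x` to `y` inside `P`, of every fineness. -/
def Chn {A : Type} [CStarAlgebra A] (P : A → Prop) (L : ℝ) (x y : A) : Prop :=
  ∀ m : ℕ, 0 < m → ∃ z : ℕ → A, z 0 = x ∧ z m = y ∧ (∀ j, P (z j)) ∧
    ∀ j, ‖z (j + 1) - z j‖ ≤ L / m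

/-- Unitaries of the subalgebra `C`. -/
def UIn {A : Type} [CStarAlgebra A] (C : StarSubalgebra ℂ A) (z : A) : Prop :=
  z ∈ unitary A ∧ z ∈ C

/-- The automorphism `θ` moves almost central projections in trace. -/
def Free {B : Type} [CStarAlgebra B] [PartialOrder B] (τ : B →ₚ[ℂ] ℂ) (θ : B ≃⋆ₐ[ℂ] B) : Prop :=
  ∃ δ : ℝ, 0 < δ ∧ ∀ (s : Finset B) (ε : ℝ), 0 < ε → ∃ p : B, IsStarProjection p ∧
    (∀ b ∈ s, ‖p * b - b * p‖ ≤ ε) ∧ (τ (p * θ p)).re + δ ≤ (τ p).re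

/-! ### Saturated systems -/

/-- Terms in variables indexed by `ι`. -/
inductive IsTerm {G A : Type} [Group G] [CStarAlgebra A] (γ : G →* (A ≃⋆ₐ[ℂ] A)) {ι : Type} :
    ((ι → A) → A) → Prop
  | var (i : ι) : IsTerm γ (fun x => x i)
  | const (a : A) : IsTerm γ (fun _ => a)
  | add {f g : (ι → A) → A} : IsTerm γ f → IsTerm γ g → IsTerm γ (fun x => f x + g x)
  | mul {f g : (ι → A) → A} : IsTerm γ f → IsTerm γ g → IsTerm γ (fun x => f x * g x)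
  | star {f : (ι → A) → A} : IsTerm γ f → IsTerm γ (fun x => star (f x))
  | smul (c : ℂ) {f : (ι → A) → A} : IsTerm γ f → IsTerm γ (fun x => c • f x)
  | act (k : G) {f : (ι → A) → A} : IsTerm γ f → IsTerm γ (fun x => γ k (f x))

/-- Definable predicates: countable conjunctions of norm and trace inequalities. -/
inductive Defn {G A : Type} [Group G] [CStarAlgebra A] [PartialOrder A] (τ : A →ₚ[ℂ] ℂ)
    (γ : G →* (A ≃⋆ₐ[ℂ] A)) {ι : Type} : ((ι → A) → Prop) → Prop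
  | norm_le {f : (ι → A) → A} (hf : IsTerm γ f) (c : ℝ) : Defn τ γ (fun x => ‖f x‖ ≤ c)
  | tr_le {f : (ι → A) → A} (hf : IsTerm γ f) (c : ℝ) : Defn τ γ (fun x => (τ (f x)).re ≤ c)
  | all {P : ℕ → (ι → A) → Prop} (h : ∀ n, Defn τ γ (P n)) : Defn τ γ (fun x => ∀ n, P n x)
  | congr {P Q : (ι → A) → Prop} (h : Defn τ γ P) (e : ∀ x, P x ↔ Q x) : Defn τ γ Q

/-- The countable saturation property. -/
def Saturated {G A : Type} [Group G] [CStarAlgebra A] [PartialOrder A] (τ : A →ₚ[ℂ] ℂ)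
    (γ : G →* (A ≃⋆ₐ[ℂ] A)) : Prop :=
  ∀ (ι : Type) [Countable ι] (R : ι → ℝ) (Z : ℕ → (ι → A) → Prop), (∀ n, Defn τ γ (Z n)) →
    (∀ N, ∃ x : ι → A, (∀ i, ‖x i‖ ≤ R i) ∧ ∀ n ≤ N, Z n x) →
      ∃ x : ι → A, (∀ i, ‖x i‖ ≤ R i) ∧ ∀ n, Z n x

/-- A C*-algebra with an invariant trace, an action and countable saturation. -/
structure Sat (G A : Type) [Group G] [CStarAlgebra A] [PartialOrder A] where
  τ : A →ₚ[ℂ] ℂ
  tr : IsTracialState τ
  γ : G →* (A ≃⋆ₐ[ℂ] A)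
  inv : ∀ g x, τ (γ g x) = τ x
  sat : Saturated τ γ

section Act

variable {G A : Type} [Group G] [CStarAlgebra A]

/-- The commutant of a set and its adjoints. -/
abbrev cent (T : Set A) : StarSubalgebra ℂ A := StarSubalgebra.centralizer ℂ T

theorem mem_cent {T : Set A} {x : A} :
    x ∈ cent T ↔ ∀ t ∈ T, Commute x t ∧ Commute x (star t) := by
  rw [StarSubalgebra.mem_centralizer_iff]
  exact forall₂_congr fun t _ => and_congr eq_comm eq_comm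

theorem isClosed_cent (T : Set A) : IsClosed (cent T : Set A) := Set.isClosed_centralizer _

theorem cent_anti {S T : Set A} (h : S ⊆ T) : cent T ≤ cent S :=
  StarSubalgebra.centralizer_le ℂ S T h

theorem aut_continuous (θ : A ≃⋆ₐ[ℂ] A) : Continuous θ :=
  (StarAlgEquiv.isometry θ).continuous

theorem hom_continuous {E : Type} [CStarAlgebra E] (φ : E →⋆ₐ[ℂ] A) : Continuous φ :=
  AddMonoidHomClass.continuous_of_bound φ 1 fun x => by
    simpa using NonUnitalStarAlgHom.norm_apply_le φ x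

theorem act_act (γ : G →* (A ≃⋆ₐ[ℂ] A)) (g h : G) (x : A) : γ g (γ h x) = γ (g * h) x := by
  rw [map_mul]; rfl

theorem act_one (γ : G →* (A ≃⋆ₐ[ℂ] A)) (x : A) : γ 1 x = x := by
  rw [map_one]; rfl

theorem act_inv_act (γ : G →* (A ≃⋆ₐ[ℂ] A)) (g : G) (x : A) : γ g⁻¹ (γ g x) = x := by
  rw [act_act, inv_mul_cancel, act_one]

theorem act_act_inv (γ : G →* (A ≃⋆ₐ[ℂ] A)) (g : G) (x : A) : γ g (γ g⁻¹ x) = x := by
  rw [act_act, mul_inv_cancel, act_one]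

theorem norm_act (γ : G →* (A ≃⋆ₐ[ℂ] A)) (g : G) (x : A) : ‖γ g x‖ = ‖x‖ :=
  StarAlgEquiv.norm_map _ _

/-- Fixed points of a subgroup. -/
def Fix (γ : G →* (A ≃⋆ₐ[ℂ] A)) (H : Subgroup G) : StarSubalgebra ℂ A where
  carrier := {x | ∀ h ∈ H, γ h x = x}
  mul_mem' := fun ha hb h hh => by rw [map_mul, ha h hh, hb h hh]
  add_mem' := fun ha hb h hh => by rw [map_add, ha h hh, hb h hh]
  algebraMap_mem' := fun c h _ => by simp [Algebra.algebraMap_eq_smul_one]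
  star_mem' := fun ha h hh => by rw [map_star, ha h hh]

theorem mem_Fix {γ : G →* (A ≃⋆ₐ[ℂ] A)} {H : Subgroup G} {x : A} :
    x ∈ Fix γ H ↔ ∀ h ∈ H, γ h x = x := Iff.rfl

theorem isClosed_Fix (γ : G →* (A ≃⋆ₐ[ℂ] A)) (H : Subgroup G) :
    IsClosed (Fix γ H : Set A) := by
  have : (Fix γ H : Set A) = ⋂ h ∈ H, {x | γ h x = x} := by
    ext x; simp [mem_Fix]
  rw [this]
  exact isClosed_biInter fun h _ => isClosed_eq (aut_continuous _) continuous_id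

theorem Fix_anti (γ : G →* (A ≃⋆ₐ[ℂ] A)) {H K : Subgroup G} (h : H ≤ K) : Fix γ K ≤ Fix γ H :=
  fun _ hx k hk => hx k (h hk)

theorem act_mem_Fix {γ : G →* (A ≃⋆ₐ[ℂ] A)} {H : Subgroup G} {g : G}
    (hg : ∀ h ∈ H, g⁻¹ * h * g ∈ H) {x : A} (hx : x ∈ Fix γ H) : γ g x ∈ Fix γ H := by
  intro h hh
  have h1 := hx _ (hg h hh)
  conv_rhs => rw [← h1]
  rw [act_act, act_act]
  congr 2
  group

/-- The orbit of a set. -/
def orb (γ : G →* (A ≃⋆ₐ[ℂ] A)) (T : Set A) : Set A := {x | ∃ g : G, ∃ t ∈ T, x = γ g t}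

theorem subset_orb (γ : G →* (A ≃⋆ₐ[ℂ] A)) (T : Set A) : T ⊆ orb γ T :=
  fun t ht => ⟨1, t, ht, (act_one γ t).symm⟩

theorem act_mem_orb (γ : G →* (A ≃⋆ₐ[ℂ] A)) {T : Set A} (g : G) {x : A} (hx : x ∈ orb γ T) :
    γ g x ∈ orb γ T := by
  obtain ⟨h, t, ht, rfl⟩ := hx
  exact ⟨g * h, t, ht, act_act γ g h t⟩

theorem orb_mono (γ : G →* (A ≃⋆ₐ[ℂ] A)) {S T : Set A} (h : S ⊆ T) : orb γ S ⊆ orb γ T :=
  fun _ ⟨g, t, ht, e⟩ => ⟨g, t, h ht, e⟩

theorem countable_orb [Countable G] (γ : G →* (A ≃⋆ₐ[ℂ] A)) {T : Set A} (hT : T.Countable) :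
    (orb γ T).Countable := by
  have : orb γ T = ⋃ g : G, (γ g) '' T := by
    ext x; simp [orb, eq_comm]
  rw [this]
  exact Set.countable_iUnion fun g => hT.image _

theorem act_mem_cent (γ : G →* (A ≃⋆ₐ[ℂ] A)) {T : Set A} (g : G)
    (hT : ∀ t ∈ T, γ g⁻¹ t ∈ T) {x : A} (hx : x ∈ cent T) : γ g x ∈ cent T := by
  rw [mem_cent] at hx ⊢
  intro t ht
  obtain ⟨h1, h2⟩ := hx _ (hT t ht)
  have h3 := h1.map (γ g)
  have h4 := h2.map (γ g)
  rw [act_act_inv] at h3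
  rw [map_star, act_act_inv] at h4
  exact ⟨h3, h4⟩

end Act

/-- An independent copy map on the subalgebra `𝒮`, with values in the commutant of `T0` and of
the orbit of `T`. -/
structure IsCopy {G A : Type} [Group G] [CStarAlgebra A] [PartialOrder A] (τ : A →ₚ[ℂ] ℂ)
    (γ : G →* (A ≃⋆ₐ[ℂ] A)) (T0 T : Set A) (𝒮 : StarSubalgebra ℂ A) (Ψ : A →ₗ[ℂ] A) : Prop where
  closed : IsClosed (𝒮 : Set A)
  act_mem : ∀ g, ∀ x ∈ 𝒮, γ g x ∈ 𝒮
  map_one : Ψ 1 = 1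
  map_mul : ∀ x ∈ 𝒮, ∀ y ∈ 𝒮, Ψ (x * y) = Ψ x * Ψ y
  map_star : ∀ x ∈ 𝒮, Ψ (star x) = star (Ψ x)
  norm_le : ∀ x ∈ 𝒮, ‖Ψ x‖ ≤ ‖x‖
  map_act : ∀ g, ∀ x ∈ 𝒮, Ψ (γ g x) = γ g (Ψ x)
  mem : ∀ x ∈ 𝒮, Ψ x ∈ cent (T0 ∪ orb γ T)
  indep : ∀ t ∈ T, ∀ x ∈ 𝒮, τ (t * Ψ x) = τ t * τ x
  tr : ∀ x ∈ 𝒮, τ (Ψ x) = τ x

/-- Left Foelner condition. -/
def Foel (Γ : Type) [Group Γ] : Prop :=
  ∀ (s : Finset Γ) (ε : ℝ), 0 < ε → ∃ Λ : Finset Γ, Λ.Nonempty ∧
    ∀ g ∈ s, (1 - ε) * (Λ.card : ℝ) ≤ (Set.ncard {x | x ∈ Λ ∧ g⁻¹ * x ∈ Λ} : ℝ)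

/-- Matching form of amenability. -/
def MFoel (Γ : Type) [Group Γ] : Prop :=
  ∀ (s : Finset Γ) (ε : ℝ), 0 < ε → ∃ (Ω : Type) (_ : Fintype Ω) (_ : Nonempty Ω) (x : Ω → Γ),
    ∀ g ∈ s, ∃ σ : Equiv.Perm Ω,
      (Set.ncard {w | x (σ w) ≠ g * x w} : ℝ) ≤ ε * (Fintype.card Ω : ℝ)

/-- A saturated system with a central sequence algebra. -/
structure Sys (G A : Type) [Group G] [CStarAlgebra A] [PartialOrder A] extends Sat G A where
  T0 : Set A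
  T0_count : T0.Countable
  T0_inv : ∀ g, ∀ t ∈ T0, γ g t ∈ T0
  ic : ∀ S T : Set A, S.Countable → T.Countable → S ⊆ cent T0 →
    ∃ (𝒮 : StarSubalgebra ℂ A) (Ψ : A →ₗ[ℂ] A), S ⊆ 𝒮 ∧ IsCopy τ γ T0 T 𝒮 Ψ
  cmp0 : CmpIn τ (cent T0) 1
  div0 : ∀ n : ℕ, 0 < n → ∃ e : Fin n → Fin n → A, IsMU e ∧ ∀ i j, e i j ∈ cent T0
  free : ∀ h : G, h ≠ 1 → ∃ p ∈ cent T0, IsStarProjection p ∧ (τ (p * γ h p)).re < (τ p).re
  foel : ∀ K : Subgroup G, Foel K

namespace Sys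

variable {G A : Type} [Group G] [CStarAlgebra A] [PartialOrder A] (X : Sys G A)

/-- The central sequence algebra. -/
abbrev F : StarSubalgebra ℂ A := cent X.T0

/-- The part of `F` commuting with the orbit of `T`. -/
abbrev FT (T : Set A) : StarSubalgebra ℂ A := cent (X.T0 ∪ orb X.γ T)

/-- The fixed points of `H` in `F`. -/
abbrev FH (H : Subgroup G) : StarSubalgebra ℂ A := X.F ⊓ Fix X.γ H

theorem FT_le_F (T : Set A) : X.FT T ≤ X.F := cent_anti Set.subset_union_left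

theorem FT_le_cent (T : Set A) : X.FT T ≤ cent T :=
  cent_anti ((subset_orb X.γ T).trans Set.subset_union_right)

theorem FT_anti {S T : Set A} (h : S ⊆ T) : X.FT T ≤ X.FT S :=
  cent_anti (Set.union_subset_union_right _ (orb_mono X.γ h))

theorem act_mem_F (g : G) {x : A} (hx : x ∈ X.F) : X.γ g x ∈ X.F :=
  act_mem_cent X.γ g (X.T0_inv g⁻¹) hx

theorem act_mem_FT (g : G) {T : Set A} {x : A} (hx : x ∈ X.FT T) : X.γ g x ∈ X.FT T :=
  act_mem_cent X.γ g (fun t ht => ht.elim (fun h => Or.inl (X.T0_inv _ t h))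
    (fun h => Or.inr (act_mem_orb X.γ _ h))) hx

theorem commute_of_FT {T : Set A} {x t : A} (hx : x ∈ X.FT T) (ht : t ∈ T) (g h : G) :
    Commute (X.γ g x) (X.γ h t) :=
  (mem_cent.1 (X.act_mem_FT g hx) _ (Or.inr ⟨h, t, ht, rfl⟩)).1

theorem commute_star_of_FT {T : Set A} {x t : A} (hx : x ∈ X.FT T) (ht : t ∈ T) (g h : G) :
    Commute (X.γ g x) (star (X.γ h t)) :=
  (mem_cent.1 (X.act_mem_FT g hx) _ (Or.inr ⟨h, t, ht, rfl⟩)).2

theorem isClosed_FH (H : Subgroup G) : IsClosed (X.FH H : Set A) :=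
  (isClosed_cent _).inter (isClosed_Fix _ _)

theorem countable_FT [Countable G] {T : Set A} (hT : T.Countable) :
    (X.T0 ∪ orb X.γ T).Countable := X.T0_count.union (countable_orb _ hT)

/-- Comparison in the fixed point algebra. -/
def Cmp (H : Subgroup G) : Prop := CmpIn X.τ (X.FH H) 1

/-- Equivariant embeddings of UHF algebras exist. -/
def Emb (H : Subgroup G) : Prop :=
  ∀ (E : Type) [CStarAlgebra E], IsUHF E → ∀ ρ : H →* (E ≃⋆ₐ[ℂ] E),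
    ∃ φ : E →⋆ₐ[ℂ] A, (∀ x, φ x ∈ X.F) ∧ ∀ (h : H) x, φ (ρ h x) = X.γ h (φ x)

/-- Equivariant embeddings of UHF algebras are unique up to invariant unitaries. -/
def Uni (H : Subgroup G) : Prop :=
  ∀ (E : Type) [CStarAlgebra E], IsUHF E → ∀ (ρ : H →* (E ≃⋆ₐ[ℂ] E)) (T : Set A), T.Countable →
    ∀ φ₁ φ₂ : E →⋆ₐ[ℂ] A, (∀ x, φ₁ x ∈ cent T) → (∀ x, φ₂ x ∈ cent T) →
      (∀ (h : H) x, φ₁ (ρ h x) = X.γ h (φ₁ x)) → (∀ (h : H) x, φ₂ (ρ h x) = X.γ h (φ₂ x)) →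
        ∃ u ∈ unitary A, u ∈ Fix X.γ H ∧ u ∈ cent T ∧ ∀ x, u * φ₁ x * star u = φ₂ x

/-- Good subgroups. -/
def Good (H : Subgroup G) : Prop := X.Cmp H ∧ X.Emb H ∧ X.Uni H

end Sys

/-- Preimage in `G` of a subgroup under a homomorphism defined on a subgroup `K`. -/
def pre {G Γ : Type} [Group G] [Group Γ] {K : Subgroup G} (f : K →* Γ) (Φ : Subgroup Γ) :
    Subgroup G := (Φ.comap f).map K.subtype

theorem mem_pre {G Γ : Type} [Group G] [Group Γ] {K : Subgroup G} {f : K →* Γ} {Φ : Subgroup Γ}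
    {x : G} : x ∈ pre f Φ ↔ ∃ hx : x ∈ K, f ⟨x, hx⟩ ∈ Φ := by
  constructor
  · rintro ⟨y, hy, rfl⟩
    exact ⟨y.2, hy⟩
  · rintro ⟨hx, h⟩
    exact ⟨⟨x, hx⟩, h, rfl⟩

theorem coe_mem_pre {G Γ : Type} [Group G] [Group Γ] {K : Subgroup G} {f : K →* Γ}
    {Φ : Subgroup Γ} {k : K} : (k : G) ∈ pre f Φ ↔ f k ∈ Φ := by
  rw [mem_pre]
  exact ⟨fun ⟨_, h⟩ => h, fun h => ⟨k.2, h⟩⟩

theorem pre_le {G Γ : Type} [Group G] [Group Γ] {K : Subgroup G} (f : K →* Γ) (Φ : Subgroup Γ) :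
    pre f Φ ≤ K := fun _ hx => (mem_pre.1 hx).1

theorem pre_top {G Γ : Type} [Group G] [Group Γ] {K : Subgroup G} (f : K →* Γ) :
    pre f ⊤ = K := le_antisymm (pre_le f ⊤) fun _ hx => mem_pre.2 ⟨hx, trivial⟩

/-- `K` is an extension of `H` by the integers, generated by `g`. -/
structure ZCtx {G : Type} [Group G] (H K : Subgroup G) (g : G) : Prop where
  le : H ≤ K
  mem : g ∈ K
  normal : ∀ k ∈ K, ∀ h ∈ H, k * h * k⁻¹ ∈ H
  gen : ∀ k ∈ K, ∃ n : ℤ, ∃ h ∈ H, k = g ^ n * h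
  free : ∀ n : ℤ, g ^ n ∈ H → n = 0

/-- Two Rokhlin towers of heights `m` and `m + 1` inside `C`. -/
structure IsRok {A : Type} [CStarAlgebra A] (α : A ≃⋆ₐ[ℂ] A) (C : StarSubalgebra ℂ A) (m : ℕ)
    (e f : ℕ → A) : Prop where
  e_mem : ∀ i, e i ∈ C
  f_mem : ∀ j, f j ∈ C
  e_proj : ∀ i, IsStarProjection (e i)
  f_proj : ∀ j, IsStarProjection (f j)
  sum : ∑ i ∈ Finset.range m, e i + ∑ j ∈ Finset.range (m + 1), f j = 1
  e_next : ∀ i, i + 1 < m → α (e i) = e (i + 1)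
  f_next : ∀ j, j < m → α (f j) = f (j + 1)

/-- Gluing along two towers. -/
def rglue {A : Type} [CStarAlgebra A] (m : ℕ) (e f x y : ℕ → A) : A :=
  ∑ i ∈ Finset.range m, x i * e i + ∑ j ∈ Finset.range (m + 1), y j * f j

/-- A cyclic tower of height `M` with base `e` inside `C`. -/
structure IsTower {A : Type} [CStarAlgebra A] (α : A ≃⋆ₐ[ℂ] A) (C : StarSubalgebra ℂ A) (M : ℕ)
    (e : A) : Prop where
  mem : e ∈ C
  proj : IsStarProjection e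
  orth : ∀ i, 0 < i → i < M → e * (α ^ i) e = 0
  cyc : (α ^ M) e = e

/-- The permutation of `Fin (M + 1)` that rotates `0, .., M - 1` and fixes `M`. -/
def rotFix (M : ℕ) (a : Fin (M + 1)) : Fin (M + 1) :=
  if h : (a : ℕ) < M then
    ⟨((a : ℕ) + 1) % M, Nat.lt_succ_of_lt (Nat.mod_lt _ (Nat.zero_lt_of_lt h))⟩ else a

/-! ### Ultrapowers -/

/-- Bounded sequences. -/
def Bdd (B : Type) [CStarAlgebra B] : StarSubalgebra ℂ (ℕ → B) where
  carrier := {x | ∃ C : ℝ, ∀ n, ‖x n‖ ≤ C}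
  mul_mem' := fun {x y} ⟨C, hC⟩ ⟨D, hD⟩ => ⟨C * D, fun n =>
    (norm_mul_le _ _).trans (mul_le_mul (hC n) (hD n) (norm_nonneg _)
      ((norm_nonneg _).trans (hC n)))⟩
  add_mem' := fun {x y} ⟨C, hC⟩ ⟨D, hD⟩ => ⟨C + D, fun n =>
    (norm_add_le _ _).trans (add_le_add (hC n) (hD n))⟩
  algebraMap_mem' := fun c => ⟨‖algebraMap ℂ B c‖, fun _ => le_rfl⟩
  star_mem' := fun {x} ⟨C, hC⟩ => ⟨C, fun n => by simpa using hC n⟩

/-- Constant sequences. -/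
def Bdd.const (B : Type) [CStarAlgebra B] : B →⋆ₐ[ℂ] Bdd B where
  toFun b := ⟨fun _ => b, ‖b‖, fun _ => le_rfl⟩
  map_one' := rfl
  map_mul' _ _ := rfl
  map_zero' := rfl
  map_add' _ _ := rfl
  commutes' _ := rfl
  map_star' _ := rfl

/-- Coordinatewise application of a homomorphism. -/
def Bdd.map {B B' : Type} [CStarAlgebra B] [CStarAlgebra B'] (f : B →⋆ₐ[ℂ] B') :
    Bdd B →⋆ₐ[ℂ] Bdd B' where
  toFun x := ⟨fun n => f (x.1 n), by
    obtain ⟨C, hC⟩ := x.2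
    exact ⟨C, fun n => (NonUnitalStarAlgHom.norm_apply_le f _).trans (hC n)⟩⟩
  map_one' := Subtype.ext (funext fun _ => map_one f)
  map_mul' x y := Subtype.ext (funext fun n => map_mul f (x.1 n) (y.1 n))
  map_zero' := Subtype.ext (funext fun _ => map_zero f)
  map_add' x y := Subtype.ext (funext fun n => map_add f (x.1 n) (y.1 n))
  commutes' c := Subtype.ext (funext fun _ => f.commutes c)
  map_star' x := Subtype.ext (funext fun n => map_star f (x.1 n))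

theorem Bdd.const_apply {B : Type} [CStarAlgebra B] (b : B) (n : ℕ) :
    (Bdd.const B b).1 n = b := rfl

theorem Bdd.map_apply {B B' : Type} [CStarAlgebra B] [CStarAlgebra B'] (f : B →⋆ₐ[ℂ] B')
    (x : Bdd B) (n : ℕ) : (Bdd.map f x).1 n = f (x.1 n) := rfl

/-- `q` presents `A` as the norm ultrapower of `B`. -/
structure IsUlt {B A : Type} [CStarAlgebra B] [CStarAlgebra A] (q : Bdd B →⋆ₐ[ℂ] A) : Prop where
  surj : Function.Surjective q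
  norm : ∀ x : Bdd B, Tendsto (fun n => ‖x.1 n‖) (hyperfilter ℕ) (𝓝 ‖q x‖)

/-- The ultrapower of a tracial dynamical system. -/
structure IsUP {G B A : Type} [Group G] [CStarAlgebra B] [PartialOrder B] [CStarAlgebra A]
    [PartialOrder A] (β : G →* (B ≃⋆ₐ[ℂ] B)) (τB : B →ₚ[ℂ] ℂ) (q : Bdd B →⋆ₐ[ℂ] A)
    (γ : G →* (A ≃⋆ₐ[ℂ] A)) (τ : A →ₚ[ℂ] ℂ) : Prop where
  ult : IsUlt q
  trB : IsTracialState τB
  act : ∀ g (x : Bdd B), γ g (q x) = q (Bdd.map (β g : B →⋆ₐ[ℂ] B) x)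
  tr : ∀ x : Bdd B, Tendsto (fun n => τB (x.1 n)) (hyperfilter ℕ) (𝓝 (τ (q x)))

end Pool.Agent.Izumi
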