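import Pool.Agent.Lib.MP_b2135d_an.Core

/-! Representations, induced families and the group theoretic closure properties. -/

namespace Pool.Agent.Izumi

open scoped ComplexOrder Matrix Kronecker

/-- A finite dimensional unitary matrix representation. -/
structure URep (Γ : Type) [Group Γ] where
  n : Type
  [fin : Fintype n]
  [dec : DecidableEq n]
  π : Γ →* Matrix n n ℂ
  unit : ∀ g, (π g)ᴴ = π g⁻¹

instance {Γ : Type} [Group Γ] (r : URep Γ) : Fintype r.n := r.fin
instance {Γ : Type} [Group Γ] (r : URep Γ) : DecidableEq r.n := r.dec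

namespace URep

variable {Γ : Type} [Group Γ]

/-- The character. -/
noncomputable def char (r : URep Γ) : Γ → ℂ := fun g => Matrix.trace (r.π g)

/-- The zero representation. -/
def zero (Γ : Type) [Group Γ] : URep Γ where
  n := Empty
  π := 1
  unit _ := Subsingleton.elim _ _

/-- The trivial one dimensional representation. -/
def one (Γ : Type) [Group Γ] : URep Γ where
  n := Unit
  π := 1
  unit _ := by simp

/-- Direct sum. -/
def sum (r s : URep Γ) : URep Γ where
  n := r.n ⊕ s.n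
  π :=
    { toFun := fun g => Matrix.fromBlocks (r.π g) 0 0 (s.π g)
      map_one' := by simp
      map_mul' := fun g h => by simp [Matrix.fromBlocks_multiply] }
  unit g := by simp [Matrix.fromBlocks_conjTranspose, r.unit, s.unit]

/-- Tensor product. -/
def tensor (r s : URep Γ) : URep Γ where
  n := r.n × s.n
  π :=
    { toFun := fun g => r.π g ⊗ₖ s.π g
      map_one' := by simp
      map_mul' := fun g h => by simp [Matrix.mul_kronecker_mul] }
  unit g := by
    simp only [MonoidHom.coe_mk, OneHom.coe_mk]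
    rw [Matrix.conjTranspose_kronecker, r.unit, s.unit]

theorem star_lin [Finite Γ] (a : Γ →* ℂˣ) (g : Γ) : star (a g : ℂ) = (a g⁻¹ : ℂ) := by
  have h1 : ‖(a g : ℂ)‖ = 1 := by
    have hf : IsOfFinOrder ((Units.coeHom ℂ).comp a g) :=
      MonoidHom.isOfFinOrder _ (isOfFinOrder_of_finite g)
    exact hf.norm_eq_one
  rw [map_inv, Units.val_inv_eq_inv_val, Complex.inv_def, Complex.normSq_eq_norm_sq, h1]
  simp

/-- The one dimensional representation of a linear character. -/
def lin [Finite Γ] (a : Γ →* ℂˣ) : URep Γ where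
  n := Unit
  π :=
    { toFun := fun g => Matrix.of fun _ _ => (a g : ℂ)
      map_one' := by ext i j; simp
      map_mul' := fun g h => by ext i j; simp [Matrix.mul_apply] }
  unit g := by
    ext i j
    simpa using star_lin a g

/-- The permutation representation. -/
def perm (Γ : Type) [Group Γ] (Y : Type) [Fintype Y] [DecidableEq Y] [MulAction Γ Y] :
    URep Γ where
  n := Y
  π :=
    { toFun := fun g => Matrix.of fun i j => if i = g • j then 1 else 0
      map_one' := by ext i j; simp [Matrix.one_apply]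
      map_mul' := fun g h => by ext i j; simp [Matrix.mul_apply, mul_smul] }
  unit g := by
    ext i j
    simp [Matrix.conjTranspose_apply, eq_inv_smul_iff, eq_comm]

theorem one_π (g : Γ) : (one Γ).π g = (1 : Matrix Unit Unit ℂ) := rfl

theorem sum_π (r s : URep Γ) (g : Γ) :
    (r.sum s).π g = Matrix.fromBlocks (r.π g) 0 0 (s.π g) := rfl

theorem tensor_π (r s : URep Γ) (g : Γ) : (r.tensor s).π g = r.π g ⊗ₖ s.π g := rfl

theorem lin_π [Finite Γ] (a : Γ →* ℂˣ) (g : Γ) :
    (lin a).π g = (Matrix.of fun _ _ => (a g : ℂ) : Matrix Unit Unit ℂ) := rfl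

theorem perm_π (Y : Type) [Fintype Y] [DecidableEq Y] [MulAction Γ Y] (g : Γ) :
    (perm Γ Y).π g = (Matrix.of fun i j => if i = g • j then 1 else 0 : Matrix Y Y ℂ) := rfl

theorem char_zero : (zero Γ).char = 0 := by
  funext g; simp [char, Matrix.trace, zero]

theorem char_one : (one Γ).char = 1 := by
  funext g
  change Matrix.trace (1 : Matrix Unit Unit ℂ) = 1
  simp

theorem char_sum (r s : URep Γ) : (r.sum s).char = r.char + s.char := by
  funext g
  change Matrix.trace (Matrix.fromBlocks (r.π g) 0 0 (s.π g)) =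
    Matrix.trace (r.π g) + Matrix.trace (s.π g)
  simp [Matrix.trace, Fintype.sum_sum_type]

theorem char_tensor (r s : URep Γ) : (r.tensor s).char = r.char * s.char := by
  funext g
  exact Matrix.trace_kronecker (r.π g) (s.π g)

theorem char_lin [Finite Γ] (a : Γ →* ℂˣ) : (lin a).char = fun g => (a g : ℂ) := by
  funext g
  change Matrix.trace (Matrix.of fun _ _ => (a g : ℂ) : Matrix Unit Unit ℂ) = _
  simp [Matrix.trace]

theorem char_perm (Y : Type) [Fintype Y] [DecidableEq Y] [MulAction Γ Y] (g : Γ) :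
    (perm Γ Y).char g = (Set.ncard {y : Y | g • y = y} : ℂ) := by
  change Matrix.trace (Matrix.of fun i j => if i = g • j then 1 else 0 : Matrix Y Y ℂ) = _
  simp [Matrix.trace, Set.ncard_eq_toFinset_card', eq_comm]

theorem char_apply_one (r : URep Γ) : r.char 1 = (Fintype.card r.n : ℂ) := by
  simp [char]

end URep

/-- Characters of unitary representations. -/
def IsChar {Γ : Type} [Group Γ] (χ : Γ → ℂ) : Prop := ∃ r : URep Γ, r.char = χ

/-- Virtual characters. -/
def VR {Γ : Type} [Group Γ] (x : Γ → ℂ) : Prop := ∃ χ χ', IsChar χ ∧ IsChar χ' ∧ x = χ - χ'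

/-- Differences of members of `JP`. -/
def VJ {Γ : Type} (JP : (Γ → ℂ) → Prop) (x : Γ → ℂ) : Prop := ∃ χ χ', JP χ ∧ JP χ' ∧ x = χ - χ'

/-- A linear character as a function. -/
def lch {Γ : Type} [Group Γ] (a : Γ →* ℂˣ) : Γ → ℂ := fun g => (a g : ℂ)

/-- The permutation character on cosets. -/
noncomputable def pch {Γ : Type} [Group Γ] (Φ : Subgroup Γ) : Γ → ℂ :=
  fun g => (Set.ncard {y : Γ ⧸ Φ | g • y = y} : ℂ)

/-- The formal properties of induced classes and equivalence of classes. -/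
structure JSys {Γ : Type} [Group Γ] (good : Subgroup Γ → Prop) (JP : (Γ → ℂ) → Prop)
    (Eqv : (Γ → ℂ) → (Γ → ℂ) → Prop) : Prop where
  jp_char : ∀ χ, JP χ → IsChar χ
  jp_zero : JP 0
  jp_add : ∀ χ ψ, JP χ → JP ψ → JP (χ + ψ)
  jp_mul : ∀ χ ψ, IsChar χ → JP ψ → JP (χ * ψ)
  eqv_char : ∀ χ ψ, Eqv χ ψ → IsChar χ ∧ IsChar ψ
  eqv_refl : ∀ χ, IsChar χ → Eqv χ χ
  eqv_symm : ∀ χ ψ, Eqv χ ψ → Eqv ψ χ
  eqv_add : ∀ χ χ' ψ, Eqv χ χ' → IsChar ψ → Eqv (χ + ψ) (χ' + ψ)
  jp_eqv : ∀ χ ψ, Eqv χ ψ → JP χ → JP ψ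
  j3 : ∀ Φ, good Φ → JP (pch Φ)
  j4 : ∀ (a : Γ →* ℂˣ) χ, a ≠ 1 → good a.ker → Eqv (lch a * χ) χ → JP χ
  j5 : ∀ χ ψ, JP χ → JP ψ → χ 1 = ψ 1 → Eqv χ ψ

section Mat

variable {A : Type} [CStarAlgebra A]

/-- A scalar matrix viewed over `A`. -/
noncomputable def sc (A : Type) [CStarAlgebra A] {m n : Type} (M : Matrix m n ℂ) : Matrix m n A :=
  M.map (algebraMap ℂ A)

/-- All entries lie in `C`. -/
def Ent (C : StarSubalgebra ℂ A) {m n : Type} (M : Matrix m n A) : Prop := ∀ i j, M i j ∈ C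

/-- The Fejer type elements of the circle lemma. -/
noncomputable def fej {n : Type} [Fintype n] [DecidableEq n] (N R : ℕ) (v : Matrix n n A)
    (l : ℕ) : Matrix n n A :=
  ((√((N : ℝ) * R) : ℝ) : ℂ)⁻¹ • ∑ s ∈ Finset.range R,
    (Complex.exp (2 * Real.pi * Complex.I * l / N) • v) ^ s

/-- The Fejer mean of a family of elements of `A`. -/
noncomputable def fejS {n : Type} [Fintype n] [DecidableEq n] (N R : ℕ) (v : Matrix n n A)
    (Y : ℕ → A) : Matrix n n A :=
  ∑ l ∈ Finset.range N, (fej N R v l)ᴴ * Matrix.diagonal (fun _ => Y l) * fej N R v l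

end Mat

namespace Sys

variable {G A : Type} [Group G] [CStarAlgebra A] [PartialOrder A] (X : Sys G A)
  {K : Subgroup G} {FF : Type} [Group FF] (q : K →* FF)

/-- Equivariant unitary equivalence over `F`. -/
def REqv (r r' : URep FF) : Prop :=
  ∃ W : Matrix r'.n r.n A, Ent X.F W ∧ Wᴴ * W = 1 ∧ W * Wᴴ = 1 ∧
    ∀ k : K, sc A (r'.π (q k)) * W.map (X.γ k) = W * sc A (r.π (q k))

/-- A permuted partition of unity in the matrices over `F`, indexed by `Y`. -/
structure IsFam (r : URep FF) {Y : Type} [Fintype Y] [MulAction FF Y]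
    (y : Y → Matrix r.n r.n A) : Prop where
  ent : ∀ c, Ent X.F (y c)
  star : ∀ c, (y c)ᴴ = y c
  idem : ∀ c, y c * y c = y c
  sum : ∑ c, y c = 1
  act : ∀ (k : K) c, sc A (r.π (q k)) * (y c).map (X.γ k) = y (q k • c) * sc A (r.π (q k))

/-- Representations whose class is induced from the kernel of `q`. -/
def JP [Fintype FF] (r : URep FF) : Prop := ∃ y : FF → Matrix r.n r.n A, X.IsFam q r y

/-- `JP` on characters. -/
def JPc [Fintype FF] (χ : FF → ℂ) : Prop := ∃ r : URep FF, r.char = χ ∧ X.JP q r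

/-- `REqv` on characters. -/
def Eqvc (χ ψ : FF → ℂ) : Prop := ∃ r r' : URep FF, r.char = χ ∧ r'.char = ψ ∧ X.REqv q r r'

/-- The unit splits as an induced part and a copy of `θ` over the invariant projection `P`. -/
structure IsSplit [Fintype FF] (θ : URep FF) (P : A) (y : FF → A) (S : θ.n → A) : Prop where
  P_mem : P ∈ X.FH K
  P_proj : IsStarProjection P
  y_mem : ∀ c, y c ∈ X.F
  y_proj : ∀ c, IsStarProjection (y c)
  S_mem : ∀ i, S i ∈ X.F
  S_orth : ∀ i j, star (S i) * S j = if i = j then P else 0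
  y_act : ∀ (k : K) c, X.γ k (y c) = y (q k * c)
  S_act : ∀ (k : K) j, X.γ k (S j) = ∑ i, θ.π (q k) i j • S i
  sum : ∑ c, y c + ∑ i, S i * star (S i) = 1

end Sys

/-! ### Group theoretic closure -/

/-- If all finite subgroups of `Γ` have good preimage then the whole group is good. -/
def PP {G : Type} [Group G] (good : Subgroup G → Prop) (Γ : Type) [Group Γ] : Prop :=
  ∀ (K : Subgroup G) (f : K →* Γ), (∀ Φ : Subgroup Γ, Finite Φ → good (pre f Φ)) → good K

/-- A group `Γ` with a normal lattice of finite index, cyclic nontrivial quotient and no nontrivial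
central lattice element. -/
structure GeoCtx {Γ : Type} [Group Γ] {a : ℕ} (ι : Multiplicative (Fin a → ℤ) →* Γ) : Prop where
  inj : Function.Injective ι
  normal : ι.range.Normal
  fin : ι.range.FiniteIndex
  cyc : ∃ t : Γ, Subgroup.zpowers t ⊔ ι.range = ⊤
  ne_top : ι.range ≠ ⊤
  center : ∀ x, ι x ∈ Subgroup.center Γ → x = 1

/-- The closure properties of the class of good subgroups. -/
structure GoodClosure {G : Type} [Group G] (good : Subgroup G → Prop) : Prop where
  union : ∀ K : Subgroup G,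
    (∀ s : Finset G, (s : Set G) ⊆ K → ∃ H ≤ K, good H ∧ (s : Set G) ⊆ H) → good K
  zstep : ∀ (K : Subgroup G) (θ : K →* Multiplicative ℤ), good (pre θ ⊥) → good K
  noncyc : ∀ (K : Subgroup G) (FF : Type) [Group FF] [Finite FF] (q : K →* FF),
    Function.Surjective q → ¬ IsCyclic FF → (∀ Φ : Subgroup FF, Φ ≠ ⊤ → good (pre q Φ)) → good K
  geo : ∀ (K : Subgroup G) (Γ : Type) [Group Γ] (f : K →* Γ) (a : ℕ)
    (ι : Multiplicative (Fin a → ℤ) →* Γ), Function.Surjective f → GeoCtx ι →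
      (∀ Φ : Subgroup Γ, Finite Φ → good (pre f Φ)) →
        (∀ Φ : Subgroup Γ, Φ ⊔ ι.range ≠ ⊤ → good (pre f Φ)) → good K

/-- `B` is a quotient of a subgroup of a finite power of `A`. -/
def Sec (B A : Type) [Group B] [Group A] : Prop :=
  ∃ (ι : Type) (_ : Finite ι) (S : Subgroup (ι → A)) (p : S →* B), Function.Surjective p

/-- `PP` for all finite extensions of sections of finite powers of `A`. -/
def QQ {G : Type} [Group G] (good : Subgroup G → Prop) (A : Type) [Group A] : Prop :=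
  ∀ (Γ : Type) [Group Γ] (B : Subgroup Γ), B.Normal → B.FiniteIndex → Sec B A → PP good Γ

/-- The covering data of the geometric step. -/
structure GeoCover {Γ : Type} [Group Γ] (L : Subgroup Γ) (n : ℕ) (S : Finset Γ) (ε : ℝ)
    (M Δ : Subgroup Γ) (Φ : Fin n → Subgroup Γ) (ψ : Fin n → Γ → ℝ) : Prop where
  normal : M.Normal
  fin : M.FiniteIndex
  le_L : M ≤ L
  le_Δ : M ≤ Δ
  uniq : ∀ g : Γ, Subgroup.zpowers g ⊔ L = ⊤ →
    ∃ x : Γ, x⁻¹ * g * x ∈ Δ ∧ ∀ y : Γ, y⁻¹ * g * y ∈ Δ → x⁻¹ * y ∈ Δ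
  Φ_fin : ∀ i, Finite (Φ i)
  Φ_le : ∀ i, Φ i ≤ Δ
  nonneg : ∀ i g, 0 ≤ ψ i g
  le_one : ∀ i g, ψ i g ≤ 1
  inv : ∀ i g, ∀ φ ∈ Φ i, ψ i (g * φ) = ψ i g
  disj : ∀ i g, ∀ h ∈ Δ, ψ i g ≠ 0 → ψ i (g * h) ≠ 0 → h ∈ Φ i
  slow : ∀ i g, ∀ s ∈ S, |ψ i (s * g) - ψ i g| ≤ ε
  cover : ∀ g, ∃ i, ∃ h ∈ Δ, 1 / 2 ≤ ψ i (g * h)

end Pool.Agent.Izumi
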