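import Pool.Agent.Lib.MP_b2135d_an.CA
import Pool.Agent.Lib.MP_b2135d_an.CD

/-! Basic facts on UHF algebras (PLAN section 4). -/

namespace Pool.Agent.Izumi

open scoped ComplexOrder Matrix
open Filter Topology

variable {B : Type} [CStarAlgebra B]

open scoped Matrix.Norms.L2Operator in
theorem IsUHF.separable (h : IsUHF B) : TopologicalSpace.SeparableSpace B := by
  obtain ⟨-, ⟨c⟩⟩ := h
  have h1 : TopologicalSpace.IsSeparable (⋃ k, Set.range (c.ι k)) :=
    TopologicalSpace.IsSeparable.iUnion fun k =>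
      TopologicalSpace.isSeparable_range (hom_continuous (c.ι k))
  rw [← TopologicalSpace.isSeparable_univ_iff, ← c.dense.closure_eq]
  exact h1.closure

theorem ma_nonempty {ι : Type} [Fintype ι] [DecidableEq ι] [Nontrivial B]
    (f : Matrix ι ι ℂ →⋆ₐ[ℂ] B) : Nonempty ι := by
  by_contra h
  rw [not_nonempty_iff] at h
  have h1 : (1 : Matrix ι ι ℂ) = 0 := Subsingleton.elim _ _
  have h2 := map_one f
  rw [h1, map_zero] at h2
  exact zero_ne_one h2

theorem UChain.pos [Nontrivial B] (c : UChain B) (k : ℕ) : 0 < c.n k :=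
  Fin.pos_iff_nonempty.mpr (ma_nonempty (c.ι k))

theorem UChain.exists_near (c : UChain B) (s : Finset B) {ε : ℝ} (hε : 0 < ε) (k₀ : ℕ) :
    ∃ k, k₀ ≤ k ∧ ∀ b ∈ s, ∃ M, ‖b - c.ι k M‖ ≤ ε := by
  have h1 : ∀ b : B, ∃ k, ∃ M, ‖b - c.ι k M‖ ≤ ε := fun b => by
    obtain ⟨y, hy, hb⟩ := c.dense.exists_dist_lt b hε
    obtain ⟨k, M, rfl⟩ := Set.mem_iUnion.mp hy
    exact ⟨k, M, by rw [← dist_eq_norm]; exact hb.le⟩
  choose K hK using h1
  refine ⟨max k₀ (s.sup K), le_max_left _ _, fun b hb => ?_⟩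
  obtain ⟨M, hM⟩ := hK b
  obtain ⟨N, hN⟩ := c.mono_le ((Finset.le_sup (f := K) hb).trans (le_max_right k₀ _)) ⟨M, rfl⟩
  exact ⟨N, by rw [hN]; exact hM⟩

open scoped Matrix.Norms.L2Operator in
theorem mat_hom_norm_le {ι A : Type} [Fintype ι] [DecidableEq ι] [CStarAlgebra A] [Nontrivial B]
    (f : Matrix ι ι ℂ →⋆ₐ[ℂ] B) (g : Matrix ι ι ℂ →⋆ₐ[ℂ] A) (M : Matrix ι ι ℂ) :
    ‖g M‖ ≤ ‖f M‖ := by
  have := ma_nonempty f
  have hf : Function.Injective f := RingHom.injective f.toAlgHom.toRingHom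
  rw [NonUnitalStarAlgHom.norm_map f hf M]
  exact NonUnitalStarAlgHom.norm_apply_le g M

theorem IsUHF.norm_hom {A : Type} [CStarAlgebra A] [Nontrivial A] (h : IsUHF B)
    (φ : B →⋆ₐ[ℂ] A) (x : B) : ‖φ x‖ = ‖x‖ := by
  obtain ⟨h0, ⟨c⟩⟩ := h
  refine c.dense.induction (P := fun x => ‖φ x‖ = ‖x‖) (fun y hy => ?_)
    (isClosed_eq (hom_continuous φ).norm continuous_norm) x
  obtain ⟨k, M, rfl⟩ := Set.mem_iUnion.mp hy
  exact le_antisymm (mat_hom_norm_le (c.ι k) (φ.comp (c.ι k)) M)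
    (mat_hom_norm_le (φ.comp (c.ι k)) (c.ι k) M)

/-- Relabelling of matrices along a bijection. -/
def maReindex {ι κ : Type} [Fintype ι] [DecidableEq ι] [Fintype κ] [DecidableEq κ] (σ : ι ≃ κ) :
    Matrix ι ι ℂ →⋆ₐ[ℂ] Matrix κ κ ℂ :=
  { (Matrix.reindexAlgEquiv ℂ ℂ σ).toAlgHom with
    map_star' := fun _ => rfl }

theorem maReindex_surjective {ι κ : Type} [Fintype ι] [DecidableEq ι] [Fintype κ] [DecidableEq κ]
    (σ : ι ≃ κ) : Function.Surjective (maReindex σ) :=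
  (Matrix.reindexAlgEquiv ℂ ℂ σ).surjective

open scoped Matrix.Norms.L2Operator in
theorem isUHF_matrix (ι : Type) [Fintype ι] [DecidableEq ι] [Nonempty ι] :
    IsUHF (Matrix ι ι ℂ) := by
  refine ⟨inferInstance, ⟨⟨fun _ => Fintype.card ι,
    fun _ => maReindex (Fintype.equivFin ι).symm, fun _ => subset_rfl, ?_⟩⟩⟩
  rw [Set.iUnion_const, (maReindex_surjective _).range_eq]
  exact dense_univ

theorem mat_tracial {ι : Type} [Fintype ι] [DecidableEq ι] (f : Matrix ι ι ℂ →ₗ[ℂ] ℂ)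
    (hf : ∀ M N, f (M * N) = f (N * M)) (M : Matrix ι ι ℂ) :
    (Fintype.card ι : ℂ) * f M = f 1 * M.trace := by
  have h1 : ∀ i j : ι, i ≠ j → f (Matrix.single i j 1) = 0 := fun i j hij => by
    have := hf (Matrix.single i i 1) (Matrix.single i j 1)
    rw [Matrix.single_mul_single_same, Matrix.single_mul_single_of_ne _ _ _ _ hij.symm,
      map_zero, mul_one] at this
    exact this
  have h2 : ∀ i j : ι, f (Matrix.single i i 1) = f (Matrix.single j j 1) := fun i j => by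
    have := hf (Matrix.single i j 1) (Matrix.single j i 1)
    rwa [Matrix.single_mul_single_same, Matrix.single_mul_single_same, mul_one] at this
  have h3 : ∀ N : Matrix ι ι ℂ, f N = ∑ i, N i i * f (Matrix.single i i 1) := fun N => by
    conv_lhs => rw [Matrix.matrix_eq_sum_single N]
    rw [map_sum]
    refine Finset.sum_congr rfl fun i _ => ?_
    rw [map_sum, Finset.sum_eq_single i]
    · rw [← smul_eq_mul, ← map_smul, Matrix.smul_single, smul_eq_mul, mul_one]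
    · intro j _ hj
      have : Matrix.single i j (N i j) = N i j • Matrix.single i j (1 : ℂ) := by
        rw [Matrix.smul_single, smul_eq_mul, mul_one]
      rw [this, map_smul, h1 i j hj.symm, smul_zero]
    · intro h
      exact absurd (Finset.mem_univ i) h
  have h4 : ∀ i, f 1 = (Fintype.card ι : ℂ) * f (Matrix.single i i 1) := fun i => by
    rw [h3 1, Finset.sum_congr rfl fun j _ => by rw [Matrix.one_apply_eq, one_mul, h2 j i]]
    rw [Finset.sum_const, Finset.card_univ, nsmul_eq_mul]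
  rw [h3 M, Matrix.trace, Finset.mul_sum, Finset.mul_sum]
  refine Finset.sum_congr rfl fun i _ => ?_
  rw [h4 i, Matrix.diag_apply]
  ring

theorem ma_tracial_hom {ι : Type} [Fintype ι] [DecidableEq ι] (f : B →ₗ[ℂ] ℂ)
    (hf : ∀ x y, f (x * y) = f (y * x)) (φ : Matrix ι ι ℂ →⋆ₐ[ℂ] B) (M : Matrix ι ι ℂ) :
    (Fintype.card ι : ℂ) * f (φ M) = f 1 * M.trace := by
  have h := mat_tracial (f.comp φ.toAlgHom.toLinearMap) (fun M N => by
    change f (φ (M * N)) = f (φ (N * M))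
    rw [map_mul φ, map_mul φ, hf]) M
  change (Fintype.card ι : ℂ) * f (φ M) = f (φ 1) * M.trace at h
  rwa [map_one] at h

variable [PartialOrder B] [StarOrderedRing B]

theorem tr_hom {ι : Type} [Fintype ι] [DecidableEq ι] {τ : B →ₚ[ℂ] ℂ} (h : IsTracialState τ)
    (φ : Matrix ι ι ℂ →⋆ₐ[ℂ] B) (M : Matrix ι ι ℂ) :
    τ (φ M) = M.trace / (Fintype.card ι : ℂ) := by
  have := nontrivial_of_tr h
  have := ma_nonempty φ
  have h1 := ma_tracial_hom τ.toLinearMap h.2 φ M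
  change (Fintype.card ι : ℂ) * τ (φ M) = τ 1 * M.trace at h1
  have h2 : (Fintype.card ι : ℂ) ≠ 0 := Nat.cast_ne_zero.mpr Fintype.card_ne_zero
  rw [h.1, one_mul] at h1
  rw [eq_div_iff h2, mul_comm, h1]

theorem IsUHF.trace_unique (h : IsUHF B) (f : B →L[ℂ] ℂ) (hf : ∀ x y, f (x * y) = f (y * x))
    {τ : B →ₚ[ℂ] ℂ} (hτ : IsTracialState τ) (x : B) : f x = f 1 * τ x := by
  obtain ⟨h0, ⟨c⟩⟩ := h
  refine c.dense.induction (P := fun x => f x = f 1 * τ x) (fun y hy => ?_)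
    (isClosed_eq f.continuous (continuous_const.mul (tr_continuous τ))) x
  obtain ⟨k, M, rfl⟩ := Set.mem_iUnion.mp hy
  have := ma_nonempty (c.ι k)
  have h1 := ma_tracial_hom f.toLinearMap hf (c.ι k) M
  change (Fintype.card (Fin (c.n k)) : ℂ) * f (c.ι k M) = f 1 * M.trace at h1
  have h2 : (Fintype.card (Fin (c.n k)) : ℂ) ≠ 0 := Nat.cast_ne_zero.mpr Fintype.card_ne_zero
  rw [tr_hom hτ, ← mul_div_assoc, eq_div_iff h2, mul_comm, h1]

theorem IsUHF.tr_comp {A : Type} [CStarAlgebra A] [PartialOrder A] [StarOrderedRing A]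
    (h : IsUHF B) {τ : B →ₚ[ℂ] ℂ} (hτ : IsTracialState τ) {τA : A →ₚ[ℂ] ℂ}
    (hA : IsTracialState τA) (φ : B →⋆ₐ[ℂ] A) (x : B) : τA (φ x) = τ x := by
  obtain ⟨h0, ⟨c⟩⟩ := h
  refine c.dense.induction (P := fun x => τA (φ x) = τ x) (fun y hy => ?_)
    (isClosed_eq ((tr_continuous τA).comp (hom_continuous φ)) (tr_continuous τ)) x
  obtain ⟨k, M, rfl⟩ := Set.mem_iUnion.mp hy
  exact (tr_hom hA (φ.comp (c.ι k)) M).trans (tr_hom hτ (c.ι k) M).symm

theorem IsUHF.tr_aut (h : IsUHF B) {τ : B →ₚ[ℂ] ℂ} (hτ : IsTracialState τ) (θ : B ≃⋆ₐ[ℂ] B)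
    (x : B) : τ (θ x) = τ x :=
  h.tr_comp hτ hτ (θ : B →⋆ₐ[ℂ] B) x

end Pool.Agent.Izumi
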