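import Pool.Agent.Lib.MP_b2135d_an.SC
import Pool.Agent.Lib.MP_b2135d_an.CD
import Pool.Agent.Lib.MP_b2135d_an.MA

/-! Consequences of the embedding property (PLAN section 7). -/

namespace Pool.Agent.Izumi

open scoped ComplexOrder Matrix
open Filter Topology

variable {G A : Type} [Group G] [CStarAlgebra A] [PartialOrder A] [StarOrderedRing A] [Countable G] {X : Sys G A} {H : Subgroup G}

theorem Sys.Emb.embT (hE : X.Emb H) (E : Type) [CStarAlgebra E] (hU : IsUHF E)
    (ρ : H →* (E ≃⋆ₐ[ℂ] E)) {T : Set A} (hT : T.Countable) :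
    ∃ φ : E →⋆ₐ[ℂ] A, (∀ x, φ x ∈ X.FT T) ∧ ∀ (h : H) x, φ (ρ h x) = X.γ h (φ x) := by
  obtain ⟨φ, hF, he⟩ := hE E hU ρ
  have := hU.separable
  obtain ⟨𝒮, Ψ, hS, hΨ⟩ := X.exists_copy_range φ (hom_continuous φ) hF hT
  obtain ⟨φ', hφ'⟩ := hΨ.exists_hom φ hS
  refine ⟨φ', fun x => ?_, fun h x => ?_⟩
  · rw [hφ']; exact hΨ.mem _ (hS x)
  · rw [hφ', hφ', he, hΨ.map_act _ _ (hS x)]

open scoped Matrix.Norms.L2Operator in
theorem Sys.Emb.divT (hE : X.Emb H) (ι : Type) [Fintype ι] [DecidableEq ι] [Nonempty ι]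
    {T : Set A} (hT : T.Countable) :
    ∃ e : ι → ι → A, IsMU e ∧ ∀ i j, e i j ∈ X.FT T ∧ e i j ∈ Fix X.γ H := by
  obtain ⟨φ, h1, h2⟩ := hE.embT (Matrix ι ι ℂ) (isUHF_matrix ι) 1 hT
  exact ⟨fun i j => φ (Matrix.single i j 1), isMU_of_hom φ, fun i j =>
    ⟨h1 _, fun h hh => (h2 ⟨h, hh⟩ _).symm⟩⟩

/-- Relabelling of matrices along a permutation. -/
def permAut {Y : Type} [Fintype Y] [DecidableEq Y] (σ : Equiv.Perm Y) :
    Matrix Y Y ℂ ≃⋆ₐ[ℂ] Matrix Y Y ℂ :=
  { Matrix.reindexAlgEquiv ℂ ℂ σ with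
    map_star' := fun _ => rfl
    map_smul' := fun _ _ => rfl }

/-- The action of the symmetric group on matrices. -/
def permAutHom (Y : Type) [Fintype Y] [DecidableEq Y] :
    Equiv.Perm Y →* (Matrix Y Y ℂ ≃⋆ₐ[ℂ] Matrix Y Y ℂ) where
  toFun := permAut
  map_one' := rfl
  map_mul' _ _ := rfl

theorem permAut_single {Y : Type} [Fintype Y] [DecidableEq Y] (σ : Equiv.Perm Y) (y : Y) :
    permAut σ (Matrix.single y y (1 : ℂ)) = Matrix.single (σ y) (σ y) 1 := by
  ext i j
  change Matrix.single y y (1 : ℂ) (σ.symm i) (σ.symm j) = _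
  simp [Matrix.single_apply, Equiv.eq_symm_apply]

open scoped Matrix.Norms.L2Operator in
theorem Sys.Emb.rokT (hE : X.Emb H) (Y : Type) [Fintype Y] [Nonempty Y]
    (σ : H →* Equiv.Perm Y) {T : Set A} (hT : T.Countable) :
    ∃ r : Y → A, (∀ y, r y ∈ X.FT T ∧ IsStarProjection (r y)) ∧ ∑ y, r y = 1 ∧
      ∀ (h : H) y, X.γ h (r y) = r (σ h y) := by
  classical
  obtain ⟨φ, h1, h2⟩ := hE.embT (Matrix Y Y ℂ) (isUHF_matrix Y) ((permAutHom Y).comp σ) hT
  have hm := isMU_of_hom φ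
  refine ⟨fun y => φ (Matrix.single y y 1), fun y => ⟨h1 _, hm.proj y⟩, hm.sum, fun h y => ?_⟩
  rw [← h2]
  exact congrArg φ (permAut_single (σ h) y)

theorem star_units_char {FF : Type} [Group FF] [Finite FF] (a : FF →* ℂˣ) (g : FF) :
    star (a g : ℂ) * (a g : ℂ) = 1 := by
  have h1 : ‖(a g : ℂ)‖ = 1 := by
    have hf : IsOfFinOrder ((Units.coeHom ℂ).comp a g) :=
      MonoidHom.isOfFinOrder _ (isOfFinOrder_of_finite g)
    exact hf.norm_eq_one
  rw [Complex.star_def, ← Complex.normSq_eq_conj_mul_self, Complex.normSq_eq_norm_sq, h1]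
  simp

theorem Sys.Emb.eigT (hE : X.Emb H) {FF : Type} [Group FF] [Finite FF] (f : H →* FF)
    (a : FF →* ℂˣ) {T : Set A} (hT : T.Countable) :
    ∃ w ∈ X.FT T, w ∈ unitary A ∧ ∀ h : H, X.γ h w = (a (f h) : ℂ) • w := by
  classical
  have := Fintype.ofFinite FF
  obtain ⟨r, h1, h2, h3⟩ := hE.rokT FF ((MulAction.toPermHom FF FF).comp f) hT
  have ho : ∀ c c', c ≠ c' → r c * r c' = 0 := by
    intro c c' hcc
    have h4 : r c * (∑ y, r y) * r c = r c := by rw [h2, mul_one, (h1 c).2.isIdempotentElem.eq]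
    have h5 : ∑ y ∈ Finset.univ.erase c, star (r y * r c) * (r y * r c) = 0 := by
      rw [Finset.mul_sum, Finset.sum_mul, ← Finset.add_sum_erase _ _ (Finset.mem_univ c),
        (h1 c).2.isIdempotentElem.eq, (h1 c).2.isIdempotentElem.eq, add_eq_left] at h4
      rw [← h4]
      refine Finset.sum_congr rfl fun y _ => ?_
      rw [star_mul, (h1 c).2.isSelfAdjoint.star_eq, (h1 y).2.isSelfAdjoint.star_eq, mul_assoc,
        ← mul_assoc (r y), (h1 y).2.isIdempotentElem.eq, mul_assoc]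
    rw [Finset.sum_eq_zero_iff_of_nonneg fun y _ => star_mul_self_nonneg _] at h5
    have h6 := h5 c' (Finset.mem_erase.2 ⟨hcc.symm, Finset.mem_univ _⟩)
    rw [CStarRing.star_mul_self_eq_zero_iff] at h6
    have h7 := congrArg star h6
    rwa [star_mul, (h1 c).2.isSelfAdjoint.star_eq, (h1 c').2.isSelfAdjoint.star_eq, star_zero] at h7
  have key : ∀ u v : FF → ℂ, (∑ c, u c • r c) * (∑ c, v c • r c) = ∑ c, (u c * v c) • r c := by
    intro u v
    rw [Finset.sum_mul]
    refine Finset.sum_congr rfl fun c _ => ?_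
    rw [Finset.mul_sum, Finset.sum_eq_single c]
    · rw [smul_mul_smul_comm, (h1 c).2.isIdempotentElem.eq]
    · intro c' _ hc
      rw [smul_mul_smul_comm, ho c c' (Ne.symm hc), smul_zero]
    · simp
  have hst : star (∑ c, (a c⁻¹ : ℂ) • r c) = ∑ c, star (a c⁻¹ : ℂ) • r c := by
    rw [star_sum]
    exact Finset.sum_congr rfl fun c _ => by rw [star_smul, (h1 c).2.isSelfAdjoint.star_eq]
  refine ⟨∑ c, (a c⁻¹ : ℂ) • r c, sum_mem fun c _ => SMulMemClass.smul_mem _ (h1 c).1, ?_,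
    fun h => ?_⟩
  · rw [Unitary.mem_iff, hst, key, key]
    constructor
    · simp only [star_units_char, one_smul, h2]
    · simp only [mul_comm _ (star _), star_units_char, one_smul, h2]
  · rw [map_sum, Finset.smul_sum]
    refine Fintype.sum_equiv (Equiv.mulLeft (f h)) _ _ fun c => ?_
    rw [map_smul, h3, smul_smul, ← Units.val_mul, ← map_mul]
    simp

theorem Sys.eig_family (X : Sys G A) {K : Subgroup G} {FF : Type} [Group FF] [Finite FF]
    (q : K →* FF) (a : FF →* ℂˣ) (n : ℕ) (H : Fin n → Subgroup G) (hle : ∀ i, H i ≤ K)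
    (hE : ∀ i, X.Emb (H i)) {T : Set A} (hT : T.Countable) :
    ∃ w : Fin n → A, (∀ i, w i ∈ X.FT T ∧ w i ∈ unitary A ∧
      ∀ k : K, (k : G) ∈ H i → X.γ k (w i) = (a (q k) : ℂ) • w i) ∧
        ∀ i j, i ≠ j → ∀ g h : G, Commute (X.γ g (w i)) (X.γ h (w j)) ∧
          Commute (X.γ g (w i)) (star (X.γ h (w j))) := by
  induction n with
  | zero => exact ⟨Fin.elim0, fun i => i.elim0, fun i => i.elim0⟩
  | succ n ih =>
    obtain ⟨w, hw, hc⟩ := ih (fun i => H i.succ) (fun i => hle _) (fun i => hE _)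
    obtain ⟨w₀, h0, hu, he⟩ := (hE 0).eigT (q.comp (Subgroup.inclusion (hle 0))) a
      (hT.union (Set.countable_range w))
    have hc0 : ∀ j (g h : G), Commute (X.γ g w₀) (X.γ h (w j)) ∧
        Commute (X.γ g w₀) (star (X.γ h (w j))) := fun j g h =>
      ⟨X.commute_of_FT h0 (Or.inr ⟨j, rfl⟩) g h, X.commute_star_of_FT h0 (Or.inr ⟨j, rfl⟩) g h⟩
    refine ⟨Fin.cons w₀ w, fun i => ?_, fun i j hij g h => ?_⟩
    · refine Fin.cases ?_ (fun i => ?_) i
      · exact ⟨X.FT_anti Set.subset_union_left h0, hu, fun k hk => he ⟨k, hk⟩⟩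
      · exact hw i
    · induction i using Fin.cases with
      | zero =>
        induction j using Fin.cases with
        | zero => exact absurd rfl hij
        | succ j => exact hc0 j g h
      | succ i =>
        induction j using Fin.cases with
        | zero =>
          refine ⟨(hc0 i h g).1.symm, ?_⟩
          have := (hc0 i h g).2.star_star
          rw [star_star] at this
          exact this.symm
        | succ j => exact hc i j (fun e => hij (congrArg _ e)) g h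

end Pool.Agent.Izumi
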