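import Pool.Agent.Lib.MP_b2135d_an.JA
import Pool.Agent.Lib.MP_b2135d_an.DA
import Pool.Agent.Lib.MP_b2135d_an.CB

/-! Commuting normal elements of weight a (PLAN section 10). -/

namespace Pool.Agent.Izumi

open scoped ComplexOrder Matrix
open Filter Topology

section Glue

variable {A : Type} [CStarAlgebra A] [PartialOrder A] [StarOrderedRing A] {ι : Type} [Fintype ι]

/-- Gluing along a family with orthogonal ranges. -/
def gbGlue (s B : ι → A) : A := ∑ i, s i * B i * star (s i)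

omit [PartialOrder A] [StarOrderedRing A] in
theorem gbGlue_mul {s B : ι → A} (C : ι → A) (ho : ∀ i j, i ≠ j → star (s i) * s j = 0)
    (hp : ∀ i, s i * (star (s i) * s i) = s i) (hB : ∀ i, Commute (B i) (star (s i) * s i)) :
    gbGlue s B * gbGlue s C = gbGlue s (fun i => B i * C i) := by
  unfold gbGlue
  rw [Finset.sum_mul]
  refine Finset.sum_congr rfl fun i _ => ?_
  rw [Finset.mul_sum, Finset.sum_eq_single i]
  · calc s i * B i * star (s i) * (s i * C i * star (s i))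
        = s i * (B i * (star (s i) * s i)) * C i * star (s i) := by simp only [mul_assoc]
      _ = s i * (star (s i) * s i) * B i * C i * star (s i) := by
          rw [(hB i).eq]; simp only [mul_assoc]
      _ = s i * (B i * C i) * star (s i) := by rw [hp i]; simp only [mul_assoc]
  · intro j _ hj
    calc s i * B i * star (s i) * (s j * C j * star (s j))
        = s i * B i * (star (s i) * s j) * C j * star (s j) := by simp only [mul_assoc]
      _ = 0 := by rw [ho i j (Ne.symm hj)]; simp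
  · simp

omit [PartialOrder A] [StarOrderedRing A] in
theorem gbGlue_star (s B : ι → A) : star (gbGlue s B) = gbGlue s (fun i => star (B i)) := by
  unfold gbGlue
  rw [star_sum]
  exact Finset.sum_congr rfl fun i _ => by simp only [star_mul, star_star, mul_assoc]

theorem gbGlue_norm {s B : ι → A} (ho : ∀ i j, i ≠ j → star (s i) * s j = 0)
    (hs : ∀ i, ‖s i‖ ≤ 1) {c : ℝ} (hc : 0 ≤ c) (hB : ∀ i, ‖B i‖ ≤ c) : ‖gbGlue s B‖ ≤ c := by
  refine norm_orth_sum _ _ hc (fun i _ j _ hij => ?_) (fun i _ j _ hij => ?_) fun i _ => ?_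
  · calc star (s i * B i * star (s i)) * (s j * B j * star (s j))
        = s i * star (B i) * (star (s i) * s j) * B j * star (s j) := by
          simp only [star_mul, star_star, mul_assoc]
      _ = 0 := by rw [ho i j hij]; simp
  · calc s i * B i * star (s i) * star (s j * B j * star (s j))
        = s i * B i * (star (s i) * s j) * star (B j) * star (s j) := by
          simp only [star_mul, star_star, mul_assoc]
      _ = 0 := by rw [ho i j hij]; simp
  · calc ‖s i * B i * star (s i)‖ ≤ ‖s i‖ * ‖B i‖ * ‖star (s i)‖ :=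
          (norm_mul_le _ _).trans (mul_le_mul_of_nonneg_right (norm_mul_le _ _) (norm_nonneg _))
      _ ≤ 1 * c * 1 := by
          rw [norm_star]
          exact mul_le_mul (mul_le_mul (hs i) (hB i) (norm_nonneg _) zero_le_one) (hs i)
            (norm_nonneg _) (by positivity)
      _ = c := by ring

theorem gbGlue_mono (s : ι → A) {B C : ι → A} (h : ∀ i, B i ≤ C i) :
    gbGlue s B ≤ gbGlue s C :=
  Finset.sum_le_sum fun i _ => star_right_conjugate_le_conjugate (h i) (s i)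

omit [PartialOrder A] [StarOrderedRing A] in
theorem gbGlue_sum {κ : Type} [Fintype κ] (s : ι → A) (B : κ → ι → A) :
    ∑ k, gbGlue s (B k) = gbGlue s (fun i => ∑ k, B k i) := by
  unfold gbGlue
  rw [Finset.sum_comm]
  exact Finset.sum_congr rfl fun i _ => by rw [Finset.mul_sum, Finset.sum_mul]

omit [PartialOrder A] [StarOrderedRing A] in
theorem gbGlue_const {s : ι → A} (h1 : ∑ i, s i * star (s i) = 1) (c : ℝ) :
    gbGlue s (fun _ => c • (1 : A)) = c • (1 : A) := by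
  unfold gbGlue
  conv_rhs => rw [← h1, Finset.smul_sum]
  exact Finset.sum_congr rfl fun i _ => by simp

omit [PartialOrder A] [StarOrderedRing A] in
theorem gbGlue_mem {C : StarSubalgebra ℂ A} {s B : ι → A} (hs : ∀ i, s i ∈ C)
    (hB : ∀ i, B i ∈ C) : gbGlue s B ∈ C :=
  sum_mem fun i _ => mul_mem (mul_mem (hs i) (hB i)) (star_mem (hs i))

omit [PartialOrder A] [StarOrderedRing A] in
theorem gbGlue_act (θ : A ≃⋆ₐ[ℂ] A) (σ : Equiv.Perm ι) {s : ι → A} (B : ι → A)
    (hσ : ∀ i, θ (s i) = s (σ i)) (z : ℂ) :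
    θ (gbGlue s B) - z • gbGlue s B =
      gbGlue (fun i => s (σ i)) (fun i => θ (B i) - z • B (σ i)) := by
  unfold gbGlue
  rw [map_sum, ← Equiv.sum_comp σ (fun i => s i * B i * star (s i)), Finset.smul_sum,
    ← Finset.sum_sub_distrib]
  refine Finset.sum_congr rfl fun i _ => ?_
  rw [map_mul, map_mul, map_star, hσ, mul_sub, sub_mul, mul_smul_comm, smul_mul_assoc]

theorem gb_norm_unitary {u : A} (hu : u ∈ unitary A) : ‖u‖ ≤ 1 :=
  norm_le_one_of_star_mul_self (IsStarProjection.one A) (Unitary.star_mul_self_of_mem hu)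

omit [PartialOrder A] [StarOrderedRing A] in
theorem gb_star_mul_of_norm {z : ℂ} (hz : ‖z‖ = 1) : star z * z = 1 := by
  rw [Complex.star_def, ← Complex.normSq_eq_conj_mul_self, Complex.normSq_eq_norm_sq, hz]
  simp

theorem gb_norm_shape {u : A} (hu : u ∈ unitary A) {c : ℝ} (h0 : 0 ≤ c) {z : ℂ} (hz : ‖z‖ = 1) :
    ‖(c : ℂ) • z • u‖ ≤ c := by
  rw [norm_smul, norm_smul, hz, one_mul, Complex.norm_real, Real.norm_of_nonneg h0]
  exact mul_le_of_le_one_right h0 (gb_norm_unitary hu)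

omit [PartialOrder A] [StarOrderedRing A] in
theorem gb_star_mul_shape {u : A} (hu : u ∈ unitary A) (c : ℝ) {z : ℂ} (hz : ‖z‖ = 1) :
    star ((c : ℂ) • z • u) * ((c : ℂ) • z • u) = (c ^ 2) • (1 : A) := by
  rw [star_smul, star_smul, smul_mul_smul_comm, smul_mul_smul_comm, gb_star_mul_of_norm hz,
    Unitary.star_mul_self_of_mem hu, one_smul, ← Complex.coe_smul]
  simp [sq]

omit [PartialOrder A] [StarOrderedRing A] in
theorem gb_commute_star_shape {u : A} (hu : u ∈ unitary A) (c z : ℂ) :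
    Commute (c • z • u) (star (c • z • u)) := by
  rw [star_smul, star_smul]
  have h : Commute u (star u) := by
    rw [Commute, SemiconjBy, Unitary.star_mul_self_of_mem hu, Unitary.mul_star_self_of_mem hu]
  exact (((h.smul_left z).smul_left c).smul_right _).smul_right _

omit [PartialOrder A] [StarOrderedRing A] in
theorem gb_aut_unitary (θ : A ≃⋆ₐ[ℂ] A) {u : A} (hu : u ∈ unitary A) : θ u ∈ unitary A := by
  rw [Unitary.mem_iff] at hu ⊢
  rw [← map_star, ← map_mul, ← map_mul, hu.1, hu.2, map_one]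
  exact ⟨rfl, rfl⟩

theorem gb_norm_units_char {FF : Type} [Group FF] [Finite FF] (a : FF →* ℂˣ) (g : FF) :
    ‖(a g : ℂ)‖ = 1 :=
  (MonoidHom.isOfFinOrder ((Units.coeHom ℂ).comp a) (isOfFinOrder_of_finite g)).norm_eq_one

end Glue

variable {G A : Type} [Group G] [CStarAlgebra A] [PartialOrder A] [StarOrderedRing A] [Countable G] {X : Sys G A}
  {K : Subgroup G} {FF : Type} [Group FF] [Fintype FF] {q : K →* FF}

/-- The slowly varying equivariant function attached to one bump. -/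
theorem Sys.exists_W (X : Sys G A) (q : K →* FF) (Δ : Subgroup FF) (a : FF →* ℂˣ)
    {H : Subgroup G} {w : A} (hw : w ∈ unitary A)
    (he : ∀ k : K, (k : G) ∈ H → X.γ k w = (a (q k) : ℂ) • w) (ψ : K → ℝ)
    (h0 : ∀ κ, 0 ≤ ψ κ) (h1 : ∀ κ, ψ κ ≤ 1) (hinv : ∀ κ φ : K, (φ : G) ∈ H → ψ (κ * φ) = ψ κ)
    (hd : ∀ κ h : K, q h ∈ Δ → ψ κ ≠ 0 → ψ (κ * h) ≠ 0 → (h : G) ∈ H) :
    ∃ D : FF ⧸ Δ → A, (∀ x, ∃ (c : ℝ) (z : ℂ) (g : G), 0 ≤ c ∧ c ≤ 1 ∧ ‖z‖ = 1 ∧
        D x = (c : ℂ) • z • X.γ g w ∧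
          ∀ κ : K, (q κ : FF ⧸ Δ) = x → ψ κ ≤ c) ∧
      ∀ (s κ : K) (ε : ℝ), (∀ κ', |ψ (s * κ') - ψ κ'| ≤ ε) →
        ‖X.γ s (D (q κ)) - (a (q s) : ℂ) • D (q (s * κ))‖ ≤ 2 * ε := by
  classical
  set E : K → A := fun κ => (ψ κ : ℂ) • star (a (q κ) : ℂ) • X.γ κ w with hE
  have hz : ∀ g : FF, ‖star (a g : ℂ)‖ = 1 := fun g => by rw [norm_star, gb_norm_units_char]
  have hu : ∀ g : G, X.γ g w ∈ unitary A := fun g => gb_aut_unitary _ hw
  have hsame : ∀ κ κ' : K, (q κ : FF ⧸ Δ) = q κ' → ψ κ ≠ 0 → ψ κ' ≠ 0 →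
      ψ κ' = ψ κ ∧ E κ' = E κ := by
    intro κ κ' hq hκ hκ'
    obtain ⟨h, rfl⟩ : ∃ h : K, κ' = κ * h := ⟨κ⁻¹ * κ', by group⟩
    have hΔ : q h ∈ Δ := by
      have := QuotientGroup.eq.1 hq
      simpa using this
    have hH := hd κ h hΔ hκ hκ'
    refine ⟨hinv κ h hH, ?_⟩
    simp only [hE]
    rw [hinv κ h hH, Subgroup.coe_mul, ← act_act, he h hH, map_smul, smul_smul (star _), map_mul,
      map_mul, Units.val_mul, star_mul', mul_assoc, star_units_char, mul_one]
  let D : FF ⧸ Δ → A := fun x =>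
    if h : ∃ κ : K, (q κ : FF ⧸ Δ) = x ∧ ψ κ ≠ 0 then E h.choose else 0
  have hD : ∀ (x : FF ⧸ Δ) (κ : K), (q κ : FF ⧸ Δ) = x → ψ κ ≠ 0 → D x = E κ := by
    intro x κ hκ hψ
    have h : ∃ κ : K, (q κ : FF ⧸ Δ) = x ∧ ψ κ ≠ 0 := ⟨κ, hκ, hψ⟩
    simp only [D, dif_pos h]
    exact (hsame κ _ (hκ.trans h.choose_spec.1.symm) hψ h.choose_spec.2).2
  have hD0 : ∀ x : FF ⧸ Δ, (¬ ∃ κ : K, (q κ : FF ⧸ Δ) = x ∧ ψ κ ≠ 0) → D x = 0 :=
    fun x h => dif_neg h
  have hDn : ∀ (x : FF ⧸ Δ) (ε : ℝ), 0 ≤ ε → (∀ κ : K, (q κ : FF ⧸ Δ) = x → ψ κ ≤ ε) →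
      ‖D x‖ ≤ ε := by
    intro x ε hε hx
    by_cases h : ∃ κ : K, (q κ : FF ⧸ Δ) = x ∧ ψ κ ≠ 0
    · obtain ⟨κ, hκ, hψ⟩ := h
      rw [hD x κ hκ hψ]
      exact (gb_norm_shape (hu _) (h0 κ) (hz _)).trans (hx κ hκ)
    · rwa [hD0 x h, norm_zero]
  refine ⟨D, fun x => ?_, fun s κ ε hε => ?_⟩
  · by_cases h : ∃ κ : K, (q κ : FF ⧸ Δ) = x ∧ ψ κ ≠ 0
    · obtain ⟨κ, hκ, hψ⟩ := h
      refine ⟨ψ κ, star (a (q κ) : ℂ), κ, h0 κ, h1 κ, hz _, hD x κ hκ hψ, fun κ' hκ' => ?_⟩
      by_cases hψ' : ψ κ' = 0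
      · rw [hψ']; exact h0 κ
      · exact (hsame κ κ' (hκ.trans hκ'.symm) hψ hψ').1.le
    · refine ⟨0, 1, 1, le_rfl, zero_le_one, norm_one, by simp [hD0 x h], fun κ hκ => ?_⟩
      by_contra hψ
      exact h ⟨κ, hκ, fun e => hψ e.le⟩
  · have hε0 : 0 ≤ ε := (abs_nonneg _).trans (hε 1)
    have hiff : ∀ κ' : K, (q κ' : FF ⧸ Δ) = q κ ↔ (q (s * κ') : FF ⧸ Δ) = q (s * κ) := by
      intro κ'
      rw [QuotientGroup.eq, QuotientGroup.eq]
      simp [mul_assoc]
    by_cases h : ∃ κ' : K, (q κ' : FF ⧸ Δ) = q κ ∧ ψ κ' ≠ 0 ∧ ψ (s * κ') ≠ 0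
    · obtain ⟨κ', hκ', hψ, hψ'⟩ := h
      rw [hD _ κ' hκ' hψ, hD _ (s * κ') ((hiff κ').1 hκ') hψ']
      have e : X.γ s (E κ') - (a (q s) : ℂ) • E (s * κ') =
          ((ψ κ' - ψ (s * κ') : ℝ) : ℂ) • star (a (q κ') : ℂ) • X.γ (s * κ' : K) w := by
        simp only [hE]
        rw [map_smul, map_smul, act_act, Subgroup.coe_mul, smul_comm (a (q s) : ℂ), smul_smul
          (a (q s) : ℂ), map_mul q, map_mul a, Units.val_mul, star_mul', ← mul_assoc,
          mul_comm (a (q s) : ℂ), star_units_char, one_mul, Complex.ofReal_sub, sub_smul]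
      rw [e, norm_smul, norm_smul, hz, one_mul, Complex.norm_real, Real.norm_eq_abs, abs_sub_comm]
      have h2 := gb_norm_unitary (hu (s * κ' : K))
      have h3 := hε κ'
      nlinarith [abs_nonneg (ψ (s * κ') - ψ κ'), norm_nonneg (X.γ (s * κ' : K) w)]
    · have h2 : ‖D (q κ)‖ ≤ ε := by
        refine hDn _ ε hε0 fun κ' hκ' => ?_
        by_cases hψ : ψ κ' = 0
        · rw [hψ]; exact hε0
        · have h3 : ψ (s * κ') = 0 := by
            by_contra h4
            exact h ⟨κ', hκ', hψ, h4⟩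
          have h5 := hε κ'
          rw [h3, zero_sub, abs_neg] at h5
          exact (le_abs_self _).trans h5
      have h3 : ‖D (q (s * κ))‖ ≤ ε := by
        refine hDn _ ε hε0 fun κ'' hκ'' => ?_
        obtain ⟨κ', rfl⟩ : ∃ κ' : K, κ'' = s * κ' := ⟨s⁻¹ * κ'', by group⟩
        by_cases hψ : ψ (s * κ') = 0
        · rw [hψ]; exact hε0
        · have h4 : ψ κ' = 0 := by
            by_contra h4
            exact h ⟨κ', (hiff κ').2 hκ'', h4, hψ⟩
          have h5 := hε κ'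
          rw [h4, sub_zero] at h5
          exact (le_abs_self _).trans h5
      refine (norm_sub_le _ _).trans ?_
      rw [norm_act, norm_smul, gb_norm_units_char, one_mul]
      linarith

theorem Sys.build_V (hq : Function.Surjective q) (Δ : Subgroup FF) [Fintype (FF ⧸ Δ)]
    [DecidableEq (FF ⧸ Δ)] {P : A} {y : FF → A} {S : (URep.perm FF (FF ⧸ Δ)).n → A}
    (hs : X.IsSplit q (URep.perm FF (FF ⧸ Δ)) P y S) (a : FF →* ℂˣ) {n : ℕ}
    (H : Fin n → Subgroup G) (hle : ∀ i, H i ≤ K) (hE : ∀ i, X.Emb (H i)) (ψ : Fin n → K → ℝ)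
    (SK : Set K) {ε : ℝ} (h0 : ∀ i κ, 0 ≤ ψ i κ) (h1 : ∀ i κ, ψ i κ ≤ 1)
    (hinv : ∀ i (κ φ : K), (φ : G) ∈ H i → ψ i (κ * φ) = ψ i κ)
    (hd : ∀ i (κ h : K), q h ∈ Δ → ψ i κ ≠ 0 → ψ i (κ * h) ≠ 0 → (h : G) ∈ H i)
    (hslow : ∀ i κ, ∀ s ∈ SK, |ψ i (s * κ) - ψ i κ| ≤ ε)
    (hcov : ∀ κ : K, ∃ (i : Fin n) (h : K), q h ∈ Δ ∧ 1 / 2 ≤ ψ i (κ * h)) :
    ∃ V : Fin n → A, (∀ i, V i ∈ X.F ∧ ‖V i‖ ≤ 1) ∧
      (∀ i j, Commute (V i) (V j) ∧ Commute (V i) (star (V j))) ∧
      (1 / 4 : ℝ) • (1 : A) ≤ ∑ i, star (V i) * V i ∧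
        ∀ i, ∀ s ∈ SK, ‖X.γ (s : G) (V i) - (a (q s) : ℂ) • V i‖ ≤ 2 * ε := by
  obtain ⟨w, hw, hwc⟩ := X.eig_family q a n H hle hE (Set.countable_singleton P)
  choose D hD hDs using fun i => X.exists_W q Δ a (hw i).2.1 (hw i).2.2 (ψ i) (h0 i) (h1 i)
    (hinv i) (hd i)
  choose c z g hc0 hc1 hz hDe hψc using hD
  let S' : FF ⧸ Δ → A := S
  have hSo : ∀ i j : FF ⧸ Δ, star (S' i) * S' j = if i = j then P else 0 := hs.S_orth
  have hSP : ∀ i, star (S' i) * S' i = P := fun i => by rw [hSo, if_pos rfl]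
  have hsum0 : ∑ c, y c + ∑ i : FF ⧸ Δ, S' i * star (S' i) = 1 := hs.sum
  have hSa : ∀ (k : K) (j : FF ⧸ Δ), X.γ k (S' j) = S' (q k • j) := by
    intro k j
    have h : X.γ k (S' j) = ∑ i : FF ⧸ Δ, (if i = q k • j then (1 : ℂ) else 0) • S' i :=
      hs.S_act k j
    rw [h]
    simp
  have hu : ∀ i (g : G), X.γ g (w i) ∈ unitary A := fun i g => gb_aut_unitary _ (hw i).2.1
  have hza : ∀ g : FF, ‖star (a g : ℂ)‖ = 1 := fun g => by rw [norm_star, gb_norm_units_char]
  let s : (FF ⧸ Δ) ⊕ FF → A := Sum.elim S' y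
  let B : Fin n → (FF ⧸ Δ) ⊕ FF → A := fun i =>
    Sum.elim (D i) fun c => ((1 : ℝ) : ℂ) • star (a c : ℂ) • (1 : A)
  have hyy : ∀ c, star (y c) * y c = y c := fun c => by
    rw [(hs.y_proj c).isSelfAdjoint.star_eq, (hs.y_proj c).isIdempotentElem.eq]
  have hpr : ∀ t, IsStarProjection (star (s t) * s t) := by
    rintro (x | c)
    · change IsStarProjection (star (S' x) * S' x)
      rw [hSP]; exact hs.P_proj
    · change IsStarProjection (star (y c) * y c)
      rw [hyy]; exact hs.y_proj c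
  have hp : ∀ t, s t * (star (s t) * s t) = s t := fun t => mul_eq_of_star_mul_self (hpr t) rfl
  have hsn : ∀ t, ‖s t‖ ≤ 1 := fun t => norm_le_one_of_star_mul_self (hpr t) rfl
  have hsum : ∑ t, s t * star (s t) = 1 := by
    rw [Fintype.sum_sum_type, add_comm, ← hsum0]
    refine congrArg₂ (· + ·) (Finset.sum_congr rfl fun c _ => ?_) rfl
    change y c * star (y c) = y c
    rw [(hs.y_proj c).isSelfAdjoint.star_eq, (hs.y_proj c).isIdempotentElem.eq]
  have ho : ∀ t t', t ≠ t' → star (s t) * s t' = 0 := by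
    intro t t' htt
    have h := orth_of_sum_le Finset.univ (fun t => s t * star (s t))
      (fun t _ => isStarProjection_mul_star (hpr t) rfl) hsum.le t (Finset.mem_univ _) t'
      (Finset.mem_univ _) htt
    have h2 : star (s t) = star (s t) * (s t * star (s t)) := by
      have h3 := congrArg star (hp t)
      rw [star_mul, star_mul, star_star, mul_assoc] at h3
      exact h3.symm
    calc star (s t) * s t'
        = star (s t) * (s t * star (s t)) * (s t' * (star (s t') * s t')) := by rw [← h2, hp t']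
      _ = star (s t) * (s t * star (s t) * (s t' * star (s t'))) * s t' := by
          simp only [mul_assoc]
      _ = 0 := by rw [h]; simp
  have hBP : ∀ i t, Commute (B i t) (star (s t) * s t) := by
    rintro i (x | c)
    · change Commute (D i x) (star (S' x) * S' x)
      rw [hSP, hDe]
      have h := X.commute_of_FT (hw i).1 (Set.mem_singleton P) (g i x) 1
      rw [act_one] at h
      exact (h.smul_left _).smul_left _
    · exact ((Commute.one_left _).smul_left _).smul_left _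
  have hBP' : ∀ i t, Commute (star (B i t)) (star (s t) * s t) := by
    intro i t
    have h := (hBP i t).star_star
    rwa [(hpr t).isSelfAdjoint.star_eq] at h
  have hBc : ∀ i j t, Commute (B i t) (B j t) ∧ Commute (B i t) (star (B j t)) := by
    rintro i j (x | c)
    · change Commute (D i x) (D j x) ∧ Commute (D i x) (star (D j x))
      by_cases hij : i = j
      · subst hij
        refine ⟨Commute.refl _, ?_⟩
        rw [hDe]
        exact gb_commute_star_shape (hu _ _) _ _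
      · obtain ⟨h2, h3⟩ := hwc i j hij (g i x) (g j x)
        rw [hDe, hDe, star_smul, star_smul]
        exact ⟨(((h2.smul_left _).smul_left _).smul_right _).smul_right _,
          (((h3.smul_left _).smul_left _).smul_right _).smul_right _⟩
    · exact ⟨((Commute.one_left _).smul_left _).smul_left _,
        ((Commute.one_left _).smul_left _).smul_left _⟩
  refine ⟨fun i => gbGlue s (B i), fun i => ⟨gbGlue_mem ?_ ?_, gbGlue_norm ho hsn zero_le_one ?_⟩,
    fun i j => ⟨?_, ?_⟩, ?_, fun i k hk => ?_⟩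
  · rintro (x | c)
    · exact hs.S_mem x
    · exact hs.y_mem c
  · rintro (x | c)
    · change D i x ∈ X.F
      rw [hDe]
      exact SMulMemClass.smul_mem _ (SMulMemClass.smul_mem _
        (X.act_mem_F _ (X.FT_le_F _ (hw i).1)))
    · exact SMulMemClass.smul_mem _ (SMulMemClass.smul_mem _ (one_mem _))
  · rintro (x | c)
    · change ‖D i x‖ ≤ 1
      rw [hDe]
      exact (gb_norm_shape (hu _ _) (hc0 i x) (hz i x)).trans (hc1 i x)
    · exact gb_norm_shape (one_mem _) zero_le_one (hza c)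
  · rw [Commute, SemiconjBy, gbGlue_mul _ ho hp (hBP i), gbGlue_mul _ ho hp (hBP j)]
    exact congrArg _ (funext fun t => (hBc i j t).1.eq)
  · rw [Commute, SemiconjBy, gbGlue_star, gbGlue_mul _ ho hp (hBP i), gbGlue_mul _ ho hp (hBP' j)]
    exact congrArg _ (funext fun t => (hBc i j t).2.eq)
  · have e : ∑ i, star (gbGlue s (B i)) * gbGlue s (B i) =
        gbGlue s (fun t => ∑ i, star (B i t) * B i t) := by
      rw [← gbGlue_sum]
      exact Finset.sum_congr rfl fun i _ => by rw [gbGlue_star, gbGlue_mul _ ho hp (hBP' i)]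
    rw [e, ← gbGlue_const hsum]
    refine gbGlue_mono s fun t => ?_
    have key : ∃ i, (1 / 4 : ℝ) • (1 : A) ≤ star (B i t) * B i t := by
      rcases t with x | c
      · obtain ⟨f, rfl⟩ := QuotientGroup.mk_surjective x
        obtain ⟨κ, rfl⟩ := hq f
        obtain ⟨i, h, hh, hψ⟩ := hcov κ
        refine ⟨i, ?_⟩
        change _ ≤ star (D i (q κ)) * D i (q κ)
        rw [hDe, gb_star_mul_shape (hu _ _) _ (hz _ _)]
        have h2 : ψ i (κ * h) ≤ c i (q κ) := by
          refine hψc i _ _ ?_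
          rw [map_mul, QuotientGroup.mk_mul_of_mem _ hh]
        exact smul_le_smul_of_nonneg_right (by nlinarith) zero_le_one
      · obtain ⟨i, -⟩ := hcov 1
        refine ⟨i, ?_⟩
        change _ ≤ star (((1 : ℝ) : ℂ) • star (a c : ℂ) • (1 : A)) *
          (((1 : ℝ) : ℂ) • star (a c : ℂ) • (1 : A))
        rw [gb_star_mul_shape (one_mem _) _ (hza c)]
        exact smul_le_smul_of_nonneg_right (by norm_num) zero_le_one
    obtain ⟨i, hi⟩ := key
    exact hi.trans (Finset.single_le_sum (f := fun i => star (B i t) * B i t)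
      (fun i _ => star_mul_self_nonneg _) (Finset.mem_univ i))
  · have hε0 : 0 ≤ ε := (abs_nonneg _).trans (hslow i 1 k hk)
    let σ : Equiv.Perm ((FF ⧸ Δ) ⊕ FF) :=
      Equiv.sumCongr (MulAction.toPerm (q k)) (Equiv.mulLeft (q k))
    have hσ : ∀ t, X.γ k (s t) = s (σ t) := by
      rintro (x | c)
      · exact hSa k x
      · exact hs.y_act k c
    rw [gbGlue_act (X.γ k) σ (B i) hσ]
    refine gbGlue_norm (fun t t' htt => ho _ _ (σ.injective.ne htt)) (fun t => hsn _)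
      (by positivity) ?_
    rintro (x | c)
    · obtain ⟨f, rfl⟩ := QuotientGroup.mk_surjective x
      obtain ⟨κ, rfl⟩ := hq f
      have h := hDs i k κ ε fun κ' => hslow i κ' k hk
      rw [map_mul q] at h
      exact h
    · change ‖X.γ k (((1 : ℝ) : ℂ) • star (a c : ℂ) • (1 : A)) -
        (a (q k) : ℂ) • ((1 : ℝ) : ℂ) • star (a (q k * c) : ℂ) • (1 : A)‖ ≤ 2 * ε
      rw [map_smul, map_smul, map_one, smul_comm (a (q k) : ℂ), smul_smul (a (q k) : ℂ), map_mul,
        Units.val_mul, star_mul', ← mul_assoc, mul_comm (a (q k) : ℂ), star_units_char, one_mul,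
        sub_self, norm_zero]
      positivity

end Pool.Agent.Izumi
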