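import Pool.Agent.Lib.MP_b2135d_an.CoreJ

/-! Formal properties of PP (PLAN section 11). -/

namespace Pool.Agent.Izumi

variable {G : Type} [Group G] {good : Subgroup G → Prop} {Γ Γ' : Type} [Group Γ] [Group Γ']

theorem pre_comp {K : Subgroup G} (f : K →* Γ) (π : Γ →* Γ') (Φ : Subgroup Γ') :
    pre (π.comp f) Φ = pre f (Φ.comap π) := by
  ext x
  simp only [mem_pre, MonoidHom.comp_apply, Subgroup.mem_comap]

theorem exists_restrict {K : Subgroup G} (f : K →* Γ) (Δ : Subgroup Γ) :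
    ∃ f' : pre f Δ →* Δ, (∀ Φ : Subgroup Δ, pre f' Φ = pre f (Φ.map Δ.subtype)) ∧
      (Function.Surjective f → Function.Surjective f') := by
  refine ⟨(f.comp (Subgroup.inclusion (pre_le f Δ))).codRestrict Δ fun x => (mem_pre.1 x.2).2,
    fun Φ => ?_, fun hf y => ?_⟩
  · ext x
    refine mem_pre.trans (Iff.trans ⟨?_, ?_⟩ mem_pre.symm)
    · rintro ⟨hx, h⟩
      exact ⟨pre_le f Δ hx, _, h, rfl⟩
    · rintro ⟨hx, y, hy, h⟩
      obtain ⟨y, hy'⟩ := y
      obtain rfl : y = _ := h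
      exact ⟨mem_pre.2 ⟨hx, hy'⟩, hy⟩
  · obtain ⟨k, hk⟩ := hf y
    exact ⟨⟨k, coe_mem_pre.2 (hk ▸ y.2)⟩, Subtype.ext hk⟩

theorem finite_map_HA (j : Γ →* Γ') (Φ : Subgroup Γ) (h : Finite Φ) : Finite (Φ.map j) :=
  Finite.of_surjective _ (j.subgroupMap_surjective Φ)

theorem PP.good_pre {K : Subgroup G} {f : K →* Γ}
    (h : ∀ Φ : Subgroup Γ, Finite Φ → good (pre f Φ)) {Δ : Subgroup Γ} (hΔ : PP good Δ) :
    good (pre f Δ) := by
  obtain ⟨f', hf, -⟩ := exists_restrict f Δ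
  exact hΔ _ f' fun Φ hΦ => hf Φ ▸ h _ (finite_map_HA _ Φ hΦ)

theorem PP.finite [Finite Γ] : PP good Γ := fun _ f h => pre_top f ▸ h ⊤ inferInstance

theorem PP.of_injective (j : Γ →* Γ') (hj : Function.Injective j) (h : PP good Γ') :
    PP good Γ := fun K f hf => h K (j.comp f) fun Φ _ => by
  rw [pre_comp]
  exact hf _ (Finite.of_injective (fun x : Φ.comap j => (⟨j x, x.2⟩ : Φ))
    fun x y e => Subtype.ext (hj (congrArg Subtype.val e)))

theorem PP.of_surjective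
    (h : ∀ (K : Subgroup G) (Δ : Subgroup Γ) (f : K →* Δ), Function.Surjective f →
      (∀ Φ : Subgroup Δ, Finite Φ → good (pre f Φ)) → good K) : PP good Γ := fun K f hf => by
  refine h K f.range f.rangeRestrict f.rangeRestrict_surjective fun Φ hΦ => ?_
  have h1 := pre_comp f.rangeRestrict f.range.subtype (Φ.map f.range.subtype)
  rw [Subgroup.comap_map_eq_self_of_injective f.range.subtype_injective] at h1
  exact h1 ▸ hf _ (finite_map_HA _ Φ hΦ)

theorem PP.loc (hc : GoodClosure good)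
    (h : ∀ s : Finset Γ, ∃ Δ : Subgroup Γ, (s : Set Γ) ⊆ Δ ∧ PP good Δ) : PP good Γ := by
  classical
  refine fun K f hf => hc.union K fun s hs => ?_
  obtain ⟨Δ, h1, h2⟩ := h (s.attach.image fun x : s => f ⟨(x : G), hs x.2⟩)
  exact ⟨_, pre_le f Δ, PP.good_pre hf h2, fun x hx => mem_pre.2 ⟨hs hx,
    h1 (Finset.mem_coe.2 (Finset.mem_image.2 ⟨⟨x, hx⟩, Finset.mem_attach _ _, rfl⟩))⟩⟩

theorem PP.ext (π : Γ →* Γ') (h' : PP good Γ')
    (h : ∀ Φ : Subgroup Γ', Finite Φ → PP good (Φ.comap π)) : PP good Γ :=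
  fun K f hf => h' K (π.comp f) fun Φ hΦ => pre_comp f π Φ ▸ PP.good_pre hf (h Φ hΦ)

end Pool.Agent.Izumi
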