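import Pool.Agent.Lib.MP_b2135d_an.DA
import Pool.Agent.Lib.MP_b2135d_an.CB
import Pool.Agent.Lib.MP_b2135d_an.CB2

/-! Averaging over a permuted partition of unity (PLAN section 7). -/

namespace Pool.Agent.Izumi

open scoped ComplexOrder Matrix
open Filter Topology

variable {G A : Type} [Group G] [CStarAlgebra A] [PartialOrder A] [StarOrderedRing A] [Countable G]

omit [Countable G] in
theorem Sys.copy_part_FA (X : Sys G A) {K : Subgroup G} {FF : Type} [Group FF] [Fintype FF]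
    (q : K →* FF) (y : FF → A)
    (hF : ∀ c, y c ∈ X.F) (hp : ∀ c, IsStarProjection (y c)) (h1 : ∑ c, y c = 1)
    (ha : ∀ (k : K) c, X.γ k (y c) = y (q k * c)) {T : Set A} (hT : T.Countable) :
    ∃ z : FF → A, (∀ c, z c ∈ X.FT T) ∧ (∀ c, IsStarProjection (z c)) ∧ ∑ c, z c = 1 ∧
      (∀ (k : K) c, X.γ k (z c) = z (q k * c)) ∧ ∀ c c', c ≠ c' → z c * z c' = 0 := by
  obtain ⟨𝒮, Ψ, hS, hΨ⟩ := X.ic (Set.range y) T (Set.countable_range y) hT
    (by rintro _ ⟨c, rfl⟩; exact hF c)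
  have hm : ∀ c, y c ∈ 𝒮 := fun c => hS ⟨c, rfl⟩
  have hp' : ∀ c, IsStarProjection (Ψ (y c)) := fun c => hΨ.proj (hm c) (hp c)
  have h1' : ∑ c, Ψ (y c) = 1 := by rw [← map_sum, h1, hΨ.map_one]
  refine ⟨fun c => Ψ (y c), fun c => hΨ.mem _ (hm c), hp', h1', fun k c => ?_, fun c c' h => ?_⟩
  · rw [← hΨ.map_act _ _ (hm c), ha]
  · exact orth_of_sum_le Finset.univ (fun c => Ψ (y c)) (fun c _ => hp' c) h1'.le c
      (Finset.mem_univ _) c' (Finset.mem_univ _) h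

theorem sect_mem_FA {G : Type} [Group G] {K : Subgroup G} {FF : Type} [Group FF]
    (q : K →* FF) (σ : FF → K) (hσ : ∀ c, q (σ c) = c) (k : K) (c : FF) :
    (((σ (q k * c))⁻¹ * k * σ c : K) : G) ∈ pre q ⊥ := by
  rw [coe_mem_pre, Subgroup.mem_bot, map_mul, map_mul, map_inv, hσ, hσ]
  group

theorem glue_fix_FA {G A : Type} [Group G] [CStarAlgebra A] (γ : G →* (A ≃⋆ₐ[ℂ] A))
    {K : Subgroup G} {FF : Type} [Group FF] [Fintype FF]
    (q : K →* FF) (σ : FF → K) (hσ : ∀ c, q (σ c) = c) (z : FF → A)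
    (ha : ∀ (k : K) c, γ k (z c) = z (q k * c)) {x : A} (hx : x ∈ Fix γ (pre q ⊥)) :
    ∑ c, γ (σ c) x * z c ∈ Fix γ K := by
  intro k hk
  rw [map_sum]
  refine Fintype.sum_equiv (Equiv.mulLeft (q ⟨k, hk⟩)) _ _ fun c => ?_
  have h1 := hx _ (sect_mem_FA q σ hσ ⟨k, hk⟩ c)
  rw [map_mul, ha ⟨k, hk⟩ c, Equiv.coe_mulLeft]
  congr 1
  conv_rhs => rw [← h1]
  rw [act_act, act_act]
  congr 2
  simp only [Subgroup.coe_mul, Subgroup.coe_inv]
  group

theorem glue_hom_FA {E FF : Type} [CStarAlgebra E] [Fintype FF] (z : FF → A)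
    (hp : ∀ c, IsStarProjection (z c)) (h1 : ∑ c, z c = 1)
    (ho : ∀ c c', c ≠ c' → z c * z c' = 0) (φ : FF → E →⋆ₐ[ℂ] A)
    (hc : ∀ c x, Commute (φ c x) (z c)) :
    ∃ Φ : E →⋆ₐ[ℂ] A, ∀ x, Φ x = ∑ c, φ c x * z c := by
  refine ⟨{ toFun := fun x => ∑ c, φ c x * z c
            map_one' := ?_
            map_mul' := fun x y => ?_
            map_zero' := ?_
            map_add' := fun x y => ?_
            commutes' := fun r => ?_
            map_star' := fun x => ?_ }, fun x => rfl⟩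
  · simp only [map_one, one_mul, h1]
  · rw [glue_mul Finset.univ z (fun c => φ c x) (fun c => φ c y) (fun c _ => hp c)
      (fun c _ c' _ h => ho c c' h) (fun c _ => hc c y)]
    simp only [map_mul]
  · simp only [map_zero, zero_mul, Finset.sum_const_zero]
  · simp only [map_add, add_mul, Finset.sum_add_distrib]
  · simp only [AlgHomClass.commutes, ← Finset.mul_sum, h1, mul_one]
  · rw [glue_star Finset.univ z (fun c => φ c x) (fun c _ => hp c) (fun c _ => hc c x)]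
    simp only [map_star]

omit [StarOrderedRing A] [Countable G] in
theorem Sys.commute_act_FA (X : Sys G A) {T : Set A} {x t : A} (hx : x ∈ X.FT T) (ht : t ∈ T)
    (h : G) : Commute (X.γ h t) x ∧ Commute (star (X.γ h t)) x := by
  have h1 := X.commute_of_FT hx ht 1 h
  have h2 := X.commute_star_of_FT hx ht 1 h
  rw [act_one] at h1 h2
  exact ⟨h1.symm, h2.symm⟩

theorem Sys.good_finite (X : Sys G A) {K : Subgroup G} {FF : Type} [Group FF] [Fintype FF]
    (q : K →* FF) (hq : Function.Surjective q) (hN : X.Good (pre q ⊥)) (y : FF → A)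
    (hF : ∀ c, y c ∈ X.F) (hp : ∀ c, IsStarProjection (y c)) (h1 : ∑ c, y c = 1)
    (ha : ∀ (k : K) c, X.γ k (y c) = y (q k * c)) : X.Good K := by
  choose σ hσ using hq
  have hle : pre q ⊥ ≤ K := pre_le q ⊥
  obtain ⟨hC, hE, hU⟩ := hN
  refine ⟨?_, ?_, ?_⟩
  · intro p a hpm ham hpp h0 h1a hδ
    obtain ⟨s, hs, hs1, hs2⟩ := hC p a ⟨hpm.1, Fix_anti _ hle hpm.2⟩
      ⟨ham.1, Fix_anti _ hle ham.2⟩ hpp h0 h1a hδ
    obtain ⟨z, hz, zp, z1, za, zo⟩ := X.copy_part_FA q y hF hp h1 ha (Set.countable_singleton s)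
    have hc : ∀ c, Commute (X.γ (σ c) s) (z c) := fun c =>
      (X.commute_act_FA (hz c) rfl _).1
    refine ⟨∑ c, X.γ (σ c) s * z c, ⟨?_, glue_fix_FA X.γ q σ hσ z za hs.2⟩, ?_, ?_⟩
    · exact sum_mem fun c _ => mul_mem (X.act_mem_F _ hs.1) (X.FT_le_F _ (hz c))
    · rw [glue_star Finset.univ z _ (fun c _ => zp c) (fun c _ => hc c),
        glue_mul Finset.univ z _ _ (fun c _ => zp c) (fun c _ c' _ h => zo c c' h)
          (fun c _ => hc c)]
      have : ∀ c, star (X.γ (σ c) s) * X.γ (σ c) s = p := fun c => by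
        rw [← map_star, ← map_mul, hs1]; exact hpm.2 _ (σ c).2
      simp only [this, ← Finset.mul_sum, z1, mul_one]
    · rw [Finset.mul_sum]
      refine Finset.sum_congr rfl fun c _ => ?_
      rw [← mul_assoc]
      congr 1
      conv_lhs => rw [← ham.2 _ (σ c).2]
      rw [← map_mul, hs2]
  · intro E _ hUHF ρ
    have := hUHF.separable
    obtain ⟨φ, hφF, hφe⟩ := hE E hUHF (ρ.comp (Subgroup.inclusion hle))
    obtain ⟨T, hT, hTc⟩ := X.exists_test_set φ (hom_continuous φ)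
    obtain ⟨z, hz, zp, z1, za, zo⟩ := X.copy_part_FA q y hF hp h1 ha hT
    obtain ⟨Φ, hΦ⟩ := glue_hom_FA z zp z1 zo
      (fun c => ((X.γ (σ c) : A →⋆ₐ[ℂ] A).comp φ).comp (ρ (σ c)⁻¹ : E →⋆ₐ[ℂ] E))
      (fun c x => by
        have h2 := hTc _ (hz c) 1 (σ c) (ρ (σ c)⁻¹ x)
        rw [act_one] at h2
        exact h2.symm)
    have hΦ' : ∀ x, Φ x = ∑ c, X.γ (σ c) (φ (ρ (σ c)⁻¹ x)) * z c := hΦ
    refine ⟨Φ, fun x => ?_, fun k x => ?_⟩
    · rw [hΦ']
      exact sum_mem fun c _ => mul_mem (X.act_mem_F _ (hφF _)) (X.FT_le_F _ (hz c))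
    · rw [hΦ', hΦ', map_sum]
      symm
      refine Fintype.sum_equiv (Equiv.mulLeft (q k)) _ _ fun c => ?_
      rw [map_mul, za k c, Equiv.coe_mulLeft]
      congr 1
      have h2 := hφe ⟨_, sect_mem_FA q σ hσ k c⟩ (ρ (σ c)⁻¹ x)
      have h3 : (ρ.comp (Subgroup.inclusion hle)) ⟨_, sect_mem_FA q σ hσ k c⟩ (ρ (σ c)⁻¹ x) =
          ρ (σ (q k * c))⁻¹ (ρ k x) := by
        change ρ ((σ (q k * c))⁻¹ * k * σ c) (ρ (σ c)⁻¹ x) = _
        rw [act_act, act_act, mul_inv_cancel_right]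
      rw [← h3, h2, act_act, act_act]
      congr 2
      simp only [Subgroup.coe_mul, Subgroup.coe_inv]
      group
  · intro E _ hUHF ρ T hT φ₁ φ₂ hc₁ hc₂ he₁ he₂
    have := hUHF.separable
    set T' : Set A := {x | ∃ k : K, ∃ t ∈ T, x = X.γ k t} with hT'
    have hT'c : T'.Countable := by
      refine (countable_orb X.γ hT).mono ?_
      rintro _ ⟨k, t, ht, rfl⟩
      exact ⟨k, t, ht, rfl⟩
    have hsub : T ⊆ T' := fun t ht => ⟨1, t, ht, (act_one X.γ t).symm⟩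
    have hinv : ∀ (k : K), ∀ t ∈ T', X.γ (k : G)⁻¹ t ∈ T' := by
      rintro k _ ⟨k', t, ht, rfl⟩
      exact ⟨k⁻¹ * k', t, ht, act_act _ _ _ _⟩
    have hback : ∀ φ : E →⋆ₐ[ℂ] A, (∀ (h : K) x, φ (ρ h x) = X.γ h (φ x)) →
        ∀ (k : K) x, X.γ k (φ (ρ k⁻¹ x)) = φ x := fun φ he k x => by
      rw [← he, act_act_inv]
    have hcent : ∀ φ : E →⋆ₐ[ℂ] A, (∀ x, φ x ∈ cent T) →
        (∀ (h : K) x, φ (ρ h x) = X.γ h (φ x)) → ∀ x, φ x ∈ cent T' := by
      intro φ hc he x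
      rw [mem_cent]
      rintro _ ⟨k, t, ht, rfl⟩
      obtain ⟨h2, h3⟩ := mem_cent.1 (hc (ρ k⁻¹ x)) t ht
      have h4 := h2.map (X.γ k)
      have h5 := h3.map (X.γ k)
      rw [hback φ he] at h4 h5
      rw [map_star] at h5
      exact ⟨h4, h5⟩
    obtain ⟨u, hu, huF, huc, hux⟩ := hU E hUHF (ρ.comp (Subgroup.inclusion hle)) T' hT'c φ₁ φ₂
      (hcent φ₁ hc₁ he₁) (hcent φ₂ hc₂ he₂) (fun h x => he₁ (Subgroup.inclusion hle h) x)
      (fun h x => he₂ (Subgroup.inclusion hle h) x)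
    obtain ⟨T1, hT1, hTc⟩ := X.exists_test_set φ₁ (hom_continuous φ₁)
    obtain ⟨z, hz, zp, z1, za, zo⟩ := X.copy_part_FA q y hF hp h1 ha
      ((hT.union hT1).insert u)
    have hc : ∀ c, Commute (X.γ (σ c) u) (z c) := fun c =>
      (X.commute_act_FA (hz c) (Set.mem_insert _ _) _).1
    have hc' : ∀ c, Commute (star (X.γ (σ c) u)) (z c) := fun c =>
      (X.commute_act_FA (hz c) (Set.mem_insert _ _) _).2
    have hzφ : ∀ c x, Commute (z c) (φ₁ x) := fun c x => by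
      have h2 := hTc _ (X.FT_anti (Set.subset_union_right.trans (Set.subset_insert _ _)) (hz c))
        1 1 x
      rwa [act_one, act_one] at h2
    have hun : (∑ c, X.γ (σ c) u * z c) ∈ unitary A := by
      rw [Unitary.mem_iff, glue_star Finset.univ z _ (fun c _ => zp c) (fun c _ => hc c),
        glue_mul Finset.univ z _ _ (fun c _ => zp c) (fun c _ c' _ h => zo c c' h)
          (fun c _ => hc c),
        glue_mul Finset.univ z _ _ (fun c _ => zp c) (fun c _ c' _ h => zo c c' h)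
          (fun c _ => hc' c)]
      have e1 : ∀ c, star (X.γ (σ c) u) * X.γ (σ c) u = 1 := fun c => by
        rw [← map_star, ← map_mul, (Unitary.mem_iff.1 hu).1, map_one]
      have e2 : ∀ c, X.γ (σ c) u * star (X.γ (σ c) u) = 1 := fun c => by
        rw [← map_star, ← map_mul, (Unitary.mem_iff.1 hu).2, map_one]
      simp only [e1, e2, one_mul, z1, and_self]
    refine ⟨∑ c, X.γ (σ c) u * z c, hun, glue_fix_FA X.γ q σ hσ z za huF, ?_, fun x => ?_⟩
    · refine sum_mem fun c _ => mul_mem (cent_anti hsub (act_mem_cent X.γ _ (hinv (σ c)) huc)) ?_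
      exact cent_anti (Set.subset_union_left.trans (Set.subset_insert _ _)) (X.FT_le_cent _ (hz c))
    · have hu1 : ∀ x, u * φ₁ x = φ₂ x * u := fun x => by
        rw [← hux x, mul_assoc, (Unitary.mem_iff.1 hu).1, mul_one]
      have h2 : (∑ c, X.γ (σ c) u * z c) * φ₁ x = φ₂ x * ∑ c, X.γ (σ c) u * z c := by
        rw [Finset.sum_mul, Finset.mul_sum]
        refine Finset.sum_congr rfl fun c _ => ?_
        rw [mul_assoc, (hzφ c x).eq, ← mul_assoc, ← mul_assoc]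
        congr 1
        rw [← hback φ₁ he₁ (σ c) x, ← hback φ₂ he₂ (σ c) x, ← map_mul, ← map_mul, hu1]
      rw [h2, mul_assoc, (Unitary.mem_iff.1 hun).2, mul_one]

end Pool.Agent.Izumi
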