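import Pool.Agent.Lib.MP_b2135d_an.CoreJ
import Pool.Agent.Lib.MP_b2135d_an.CB

/-! Fejer means over a unitary matrix (PLAN section 9, J4). -/

namespace Pool.Agent.Izumi

open scoped ComplexOrder Matrix
open Filter Topology

namespace JD

/-- The roots of unity of order `N`. -/
noncomputable def ze (N l : ℕ) : ℂ := Complex.exp (2 * Real.pi * Complex.I * l / N)

theorem ze_eq (N l : ℕ) : ze N l = Complex.exp (2 * Real.pi * Complex.I / N) ^ l := by
  rw [ze, ← Complex.exp_nat_mul]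
  congr 1
  ring

theorem ze_mul_star {N : ℕ} (hN : N ≠ 0) (l : ℕ) : ze N l * star (ze N l) = 1 := by
  have h : ‖ze N l‖ = 1 := by
    rw [ze_eq, norm_pow, (Complex.isPrimitiveRoot_exp N hN).norm'_eq_one hN, one_pow]
  rw [Complex.star_def, Complex.mul_conj, Complex.normSq_eq_norm_sq, h]
  norm_num

theorem orth {N a b : ℕ} (ha : a < N) (hb : b < N) :
    ∑ l ∈ Finset.range N, star (ze N l) ^ a * ze N l ^ b = if a = b then (N : ℂ) else 0 := by
  have hN : N ≠ 0 := by omega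
  have h1 := ze_mul_star hN 1
  have hp : IsPrimitiveRoot (ze N 1) N := by
    rw [ze_eq, pow_one]
    exact Complex.isPrimitiveRoot_exp N hN
  have h2 : ∀ l, star (ze N l) ^ a * ze N l ^ b = (star (ze N 1) ^ a * ze N 1 ^ b) ^ l := fun l => by
    rw [ze_eq N l, ze_eq N 1, pow_one, star_pow, mul_pow, ← pow_mul, ← pow_mul, ← pow_mul,
      ← pow_mul, mul_comm l a, mul_comm l b]
  rw [Finset.sum_congr rfl fun l _ => h2 l]
  split_ifs with h
  · rw [h, ← mul_pow, mul_comm, h1]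
    simp only [one_pow, Finset.sum_const, Finset.card_range, nsmul_eq_mul, mul_one]
  · have h3 : star (ze N 1) ^ a * ze N 1 ^ b - 1 ≠ 0 := fun h0 => h (by
      refine hp.pow_inj ha hb ?_
      have h4 : ze N 1 ^ a * star (ze N 1) ^ a = 1 := by rw [← mul_pow, h1, one_pow]
      linear_combination (-ze N 1 ^ a) * h0 + (ze N 1 ^ b) * h4)
    refine mul_right_cancel₀ h3 ?_
    rw [geom_sum_mul, zero_mul, mul_pow, ← pow_mul, ← pow_mul, mul_comm a N, mul_comm b N,
      pow_mul, pow_mul, ← star_pow, hp.pow_eq_one]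
    simp

section Abs

variable {M : Type} [Ring M] [StarRing M] [Algebra ℂ M] [StarModule ℂ M]

/-- A geometric sum. -/
noncomputable def gg (R : ℕ) (z : ℂ) (u : M) : M := ∑ s ∈ Finset.range R, (z • u) ^ s

theorem gg_star (R : ℕ) (z : ℂ) (u : M) : star (gg R z u) = gg R (star z) (star u) := by
  simp only [gg, star_sum, star_pow, star_smul]

omit [StarRing M] [StarModule ℂ M] in
theorem gg_comm {m u : M} (h : Commute m u) (R : ℕ) (z : ℂ) : Commute m (gg R z u) :=
  Commute.sum_right _ _ _ fun s _ => (h.smul_right z).pow_right s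

theorem moment {N R k : ℕ} (hRN : R < N) (hk : k ≤ 1) (u : M) :
    ∑ l ∈ Finset.range N, ze N l ^ k • (star (gg R (ze N l) u) * gg R (ze N l) u) =
      (N : ℂ) • ∑ t ∈ Finset.range R, if t + k < R then star u ^ (t + k) * u ^ t else 0 := by
  have h1 : ∀ l, ze N l ^ k • (star (gg R (ze N l) u) * gg R (ze N l) u) =
      ∑ t ∈ Finset.range R, ∑ s ∈ Finset.range R,
        (star (ze N l) ^ s * ze N l ^ (t + k)) • (star u ^ s * u ^ t) := fun l => by
    rw [gg_star, gg, gg, Finset.sum_mul_sum, Finset.sum_comm, Finset.smul_sum]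
    refine Finset.sum_congr rfl fun t _ => ?_
    rw [Finset.smul_sum]
    refine Finset.sum_congr rfl fun s _ => ?_
    rw [smul_pow, smul_pow, smul_mul_smul_comm, smul_smul]
    congr 1
    ring
  simp only [h1]
  rw [Finset.sum_comm, Finset.smul_sum]
  refine Finset.sum_congr rfl fun t ht => ?_
  rw [Finset.sum_comm]
  have ht' := Finset.mem_range.1 ht
  rw [Finset.sum_congr rfl (g := fun s => if s = t + k then (N : ℂ) • (star u ^ s * u ^ t) else 0)
    fun s hs => by
      rw [← Finset.sum_smul, orth ((Finset.mem_range.1 hs).trans hRN) (by omega), ite_smul,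
        zero_smul]]
  rw [Finset.sum_ite_eq', smul_ite, smul_zero]
  simp only [Finset.mem_range]

omit [Algebra ℂ M] [StarModule ℂ M] in
theorem pow_unit {u : M} (h1 : star u * u = 1) (t : ℕ) : star u ^ t * u ^ t = 1 := by
  induction t with
  | zero => simp
  | succ t ih =>
    rw [pow_succ' (star u), pow_succ u, mul_assoc, ← mul_assoc _ _ u, ih, one_mul, h1]

theorem moment0 {N R : ℕ} (hRN : R < N) {u : M} (h1 : star u * u = 1) :
    ∑ l ∈ Finset.range N, star (gg R (ze N l) u) * gg R (ze N l) u = ((N : ℂ) * R) • (1 : M) := by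
  have h := moment hRN (Nat.zero_le 1) u
  simp only [pow_zero, one_smul, add_zero, pow_unit h1] at h
  rw [h, Finset.sum_congr rfl fun t ht => if_pos (Finset.mem_range.1 ht), Finset.sum_const,
    Finset.card_range, ← Nat.cast_smul_eq_nsmul ℂ, smul_smul]

theorem moment1 {N R : ℕ} (hR : 0 < R) (hRN : R < N) {u : M} (h1 : star u * u = 1) :
    ∑ l ∈ Finset.range N, ze N l • (star (gg R (ze N l) u) * gg R (ze N l) u) =
      ((N : ℂ) * (R - 1)) • star u := by
  have h := moment hRN le_rfl u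
  obtain ⟨r, rfl⟩ := Nat.exists_eq_add_one_of_ne_zero hR.ne'
  simp only [pow_one, pow_succ' (star u), mul_assoc, pow_unit h1, mul_one] at h
  rw [h, Finset.sum_range_succ, if_neg (lt_irrefl _), add_zero, Finset.sum_congr rfl fun t ht =>
    if_pos (Nat.succ_lt_succ (Finset.mem_range.1 ht)), Finset.sum_const, Finset.card_range,
    ← Nat.cast_smul_eq_nsmul ℂ, smul_smul]
  congr 2
  push_cast
  ring

omit [StarRing M] [StarModule ℂ M] in
theorem var_sum (s : Finset ℕ) (f : ℕ → M) (z : ℕ → ℂ) (hz : ∀ l, z l * star (z l) = 1) :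
    ∑ p ∈ s ×ˢ s, ((‖z p.1 - z p.2‖ ^ 2 : ℝ) : ℂ) • (f p.1 * f p.2) =
      (2 : ℂ) • ((∑ l ∈ s, f l) * ∑ l ∈ s, f l) -
        (∑ l ∈ s, z l • f l) * (∑ l ∈ s, star (z l) • f l) -
        (∑ l ∈ s, star (z l) • f l) * ∑ l ∈ s, z l • f l := by
  rw [Finset.sum_mul_sum, Finset.sum_mul_sum, Finset.sum_mul_sum, ← Finset.sum_product',
    ← Finset.sum_product', ← Finset.sum_product', Finset.smul_sum, ← Finset.sum_sub_distrib,
    ← Finset.sum_sub_distrib]
  refine Finset.sum_congr rfl fun p _ => ?_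
  rw [smul_mul_smul_comm, smul_mul_smul_comm, ← sub_smul, ← sub_smul]
  congr 1
  rw [← Complex.normSq_eq_norm_sq, ← Complex.mul_conj, ← Complex.star_def, star_sub]
  linear_combination hz p.1 + hz p.2

omit [StarRing M] [Algebra ℂ M] [StarModule ℂ M] in
theorem idem_sum (s : Finset ℕ) (f D : ℕ → M) (hf : ∀ l l', Commute (f l) (f l'))
    (hD : ∀ l l', Commute (D l) (f l')) (hi : ∀ l, D l * D l = D l) (h1 : ∑ l ∈ s, f l = 1) :
    ∑ p ∈ s ×ˢ s, f p.1 * f p.2 * ((D p.1 - D p.2) * (D p.1 - D p.2)) =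
      ((∑ l ∈ s, f l * D l) - (∑ l ∈ s, f l * D l) * ∑ l ∈ s, f l * D l) +
      ((∑ l ∈ s, f l * D l) - (∑ l ∈ s, f l * D l) * ∑ l ∈ s, f l * D l) := by
  have e1 : ∑ p ∈ s ×ˢ s, f p.1 * D p.1 * f p.2 = ∑ l ∈ s, f l * D l := by
    rw [Finset.sum_product' (f := fun l l' => f l * D l * f l'), ← Finset.sum_mul_sum, h1, mul_one]
  have e2 : ∑ p ∈ s ×ˢ s, f p.1 * (f p.2 * D p.2) = ∑ l ∈ s, f l * D l := by
    rw [Finset.sum_product' (f := fun l l' => f l * (f l' * D l')), ← Finset.sum_mul_sum, h1,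
      one_mul]
  have e3 : ∑ p ∈ s ×ˢ s, f p.1 * D p.1 * (f p.2 * D p.2) =
      (∑ l ∈ s, f l * D l) * ∑ l ∈ s, f l * D l := by
    rw [Finset.sum_product' (f := fun l l' => f l * D l * (f l' * D l')), ← Finset.sum_mul_sum]
  have e4 : ∑ p ∈ s ×ˢ s, f p.2 * D p.2 * (f p.1 * D p.1) =
      (∑ l ∈ s, f l * D l) * ∑ l ∈ s, f l * D l := by
    rw [Finset.sum_product_right' (f := fun l l' => f l' * D l' * (f l * D l)),
      ← Finset.sum_mul_sum]
  rw [← e3]
  conv_rhs => lhs; rw [← e1]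
  rw [e3, ← e4]
  conv_rhs => rhs; rw [← e2]
  rw [e4]
  conv_rhs => lhs; rw [← e3]
  conv_rhs => rhs; rw [← e4]
  rw [← Finset.sum_sub_distrib, ← Finset.sum_sub_distrib, ← Finset.sum_add_distrib]
  refine Finset.sum_congr rfl fun p _ => ?_
  have a1 : f p.1 * D p.1 * f p.2 = f p.1 * f p.2 * D p.1 := by
    rw [mul_assoc, (hD p.1 p.2).eq, mul_assoc]
  have a2 : f p.2 * D p.2 * f p.1 = f p.1 * f p.2 * D p.2 := by
    rw [mul_assoc, (hD p.2 p.1).eq, ← mul_assoc, (hf p.2 p.1).eq]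
  rw [← mul_assoc (f p.1 * D p.1), ← mul_assoc (f p.2 * D p.2), a1, a2, sub_mul,
    mul_sub (D p.1), mul_sub (D p.2), hi, hi]
  noncomm_ring

end Abs

variable {A : Type} [CStarAlgebra A] {n : Type} [Fintype n] [DecidableEq n] {N R : ℕ}
  {v : Matrix n n A}

theorem fej_eq (N R : ℕ) (v : Matrix n n A) (l : ℕ) :
    fej N R v l = ((√((N : ℝ) * R) : ℝ) : ℂ)⁻¹ • gg R (ze N l) v := rfl

theorem fej_sq (N R : ℕ) (v : Matrix n n A) (l : ℕ) : star (fej N R v l) * fej N R v l =
    ((N : ℂ) * R)⁻¹ • (star (gg R (ze N l) v) * gg R (ze N l) v) := by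
  rw [fej_eq, star_smul, smul_mul_smul_comm]
  congr 1
  rw [star_inv₀, Complex.star_def, Complex.conj_ofReal, ← mul_inv, ← Complex.ofReal_mul,
    Real.mul_self_sqrt (by positivity)]
  push_cast
  rfl

theorem comm_fej {m : Matrix n n A} (h : Commute m v) (l : ℕ) : Commute m (fej N R v l) :=
  (gg_comm h R _).smul_right _

theorem comm_fej_star {m : Matrix n n A} (h : Commute m (star v)) (l : ℕ) :
    Commute m (star (fej N R v l)) := by
  rw [fej_eq, star_smul, gg_star]
  exact (gg_comm h R _).smul_right _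

theorem sum0 (hR : 0 < R) (hRN : R < N) (h1 : star v * v = 1) :
    ∑ l ∈ Finset.range N, star (fej N R v l) * fej N R v l = 1 := by
  have hN : (N : ℂ) ≠ 0 := Nat.cast_ne_zero.2 (by omega)
  have hR' : (R : ℂ) ≠ 0 := Nat.cast_ne_zero.2 hR.ne'
  simp only [fej_sq]
  rw [← Finset.smul_sum, moment0 hRN h1, smul_smul, inv_mul_cancel₀ (mul_ne_zero hN hR'), one_smul]

theorem sum1 (hR : 0 < R) (hRN : R < N) (h1 : star v * v = 1) :
    ∑ l ∈ Finset.range N, ze N l • (star (fej N R v l) * fej N R v l) =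
      ((1 - 1 / R : ℝ) : ℂ) • star v := by
  have hN : (N : ℂ) ≠ 0 := Nat.cast_ne_zero.2 (by omega)
  have hR' : (R : ℂ) ≠ 0 := Nat.cast_ne_zero.2 hR.ne'
  simp only [fej_sq, smul_comm (ze N _)]
  rw [← Finset.smul_sum, moment1 hR hRN h1, smul_smul]
  congr 1
  push_cast
  field_simp

theorem sum2 (hR : 0 < R) (hRN : R < N) (h1 : star v * v = 1) :
    ∑ l ∈ Finset.range N, star (ze N l) • (star (fej N R v l) * fej N R v l) =
      ((1 - 1 / R : ℝ) : ℂ) • v := by
  have h := congrArg star (sum1 hR hRN h1)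
  simp only [star_sum, star_smul, star_mul, star_star] at h
  rw [h, Complex.star_def, Complex.conj_ofReal]

variable [PartialOrder A] [StarOrderedRing A]

theorem mat_cs {ι : Type} (s : Finset ι) (x : ι → Matrix n n A) (d : ι → A) (w : ι → ℝ) {B : ℝ}
    (hB : 0 ≤ B) (hd : ∀ t ∈ s, ‖d t‖ ≤ w t)
    (h : ∑ t ∈ s, (w t : ℂ) • (star (x t) * x t) = (B : ℂ) • (1 : Matrix n n A)) (i j : n) :
    ‖(∑ t ∈ s, star (x t) * Matrix.diagonal (fun _ => d t) * x t : Matrix n n A) i j‖ ≤ B := by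
  have h1 : ∀ i, √‖∑ p ∈ s ×ˢ (Finset.univ : Finset n),
      w p.1 • (star (x p.1 p.2 i) * star (star (x p.1 p.2 i)))‖ ≤ √B := fun i => by
    have h2 := congrFun (congrFun h i) i
    simp only [Matrix.sum_apply, Matrix.smul_apply, Matrix.mul_apply, Matrix.star_apply,
      Matrix.one_apply_eq, Complex.coe_smul, Finset.smul_sum] at h2
    refine Real.sqrt_le_sqrt ?_
    rw [Finset.sum_product]
    simp only [star_star]
    rw [h2, norm_smul, Real.norm_of_nonneg hB]
    exact mul_le_of_le_one_right hB (IsStarProjection.one A).norm_le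
  have h2 := cs_sum (s ×ˢ (Finset.univ : Finset n)) (fun p => star (x p.1 p.2 i))
    (fun p => star (x p.1 p.2 j)) (fun p => d p.1) (fun p => w p.1)
    fun p hp => hd _ (Finset.mem_product.1 hp).1
  refine le_trans (le_of_eq ?_) (h2.trans ((mul_le_mul (h1 i) (h1 j) (Real.sqrt_nonneg _)
    (Real.sqrt_nonneg _)).trans (Real.mul_self_sqrt hB).le))
  congr 1
  rw [Finset.sum_product, Matrix.sum_apply]
  refine Finset.sum_congr rfl fun t _ => ?_
  rw [Matrix.mul_apply]
  refine Finset.sum_congr rfl fun k _ => ?_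
  rw [Matrix.mul_diagonal, Matrix.star_apply, star_star]

end JD

variable {A : Type} [CStarAlgebra A] [PartialOrder A] [StarOrderedRing A]
  {n : Type} [Fintype n] [DecidableEq n] {N R : ℕ} {v : Matrix n n A}

theorem fej_sum (hR : 0 < R) (hRN : R < N) (h1 : vᴴ * v = 1) (h2 : v * vᴴ = 1) :
    ∑ l ∈ Finset.range N, (fej N R v l)ᴴ * fej N R v l = 1 :=
  JD.sum0 hR hRN h1

theorem fej_add_period (hN : 0 < N) (l : ℕ) : fej N R v (l + N) = fej N R v l := by
  rw [JD.fej_eq, JD.fej_eq, JD.ze_eq, JD.ze_eq, pow_add,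
    (Complex.isPrimitiveRoot_exp N hN.ne').pow_eq_one, mul_one]

theorem fej_smul (s l : ℕ) :
    fej N R (Complex.exp (2 * Real.pi * Complex.I * s / N) • v) l = fej N R v (l + s) := by
  have h : JD.ze N l • JD.ze N s • v = JD.ze N (l + s) • v := by
    rw [smul_smul, JD.ze_eq, JD.ze_eq, JD.ze_eq, pow_add]
  exact congrArg (fun u : Matrix n n A =>
    ((√((N : ℝ) * R) : ℝ) : ℂ)⁻¹ • ∑ s ∈ Finset.range R, u ^ s) h

theorem fejS_conjTranspose {Y : ℕ → A} (hY : ∀ l, IsSelfAdjoint (Y l)) :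
    (fejS N R v Y)ᴴ = fejS N R v Y := by
  rw [fejS, Matrix.conjTranspose_sum]
  refine Finset.sum_congr rfl fun l _ => ?_
  rw [Matrix.conjTranspose_mul, Matrix.conjTranspose_mul, Matrix.conjTranspose_conjTranspose,
    Matrix.diagonal_conjTranspose, Matrix.mul_assoc]
  have h : star (fun _ : n => Y l) = fun _ => Y l := funext fun _ => (hY l).star_eq
  rw [h]

theorem fejS_norm_le (hR : 0 < R) (hRN : R < N) (h1 : vᴴ * v = 1) (h2 : v * vᴴ = 1) {Y : ℕ → A}
    (hY : ∀ l, ‖Y l‖ ≤ 1) (i j : n) : ‖fejS N R v Y i j‖ ≤ 1 := by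
  refine JD.mat_cs (Finset.range N) (fej N R v) Y (fun _ => 1) zero_le_one (fun l _ => hY l) ?_ i j
  simp only [Complex.ofReal_one, one_smul]
  exact JD.sum0 hR hRN h1

theorem fejS_idem (hR : 0 < R) (hRN : R < N) (h1 : vᴴ * v = 1) (h2 : v * vᴴ = 1) {Y : ℕ → A}
    (hY : ∀ l, IsStarProjection (Y l)) (hc : ∀ l i j, Commute (Y l) (v i j)) {C : ℝ}
    (hlip : ∀ l l' : ℕ, ‖Y l - Y l'‖ ≤ C * ‖Complex.exp (2 * Real.pi * Complex.I * l / N) -
      Complex.exp (2 * Real.pi * Complex.I * l' / N)‖) (i j : n) :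
    ‖(fejS N R v Y * fejS N R v Y - fejS N R v Y) i j‖ ≤ 2 * C ^ 2 / R := by
  have h1' : star v * v = 1 := h1
  have h2' : v * star v = 1 := h2
  have hvv : Commute v (star v) := h2'.trans h1'.symm
  obtain ⟨f, hf⟩ : ∃ f : ℕ → Matrix n n A, ∀ l, f l = star (fej N R v l) * fej N R v l :=
    ⟨_, fun _ => rfl⟩
  have cf : ∀ {m : Matrix n n A}, Commute m v → Commute m (star v) → ∀ l, Commute m (f l) :=
    fun a b l => hf l ▸ (JD.comm_fej_star b l).mul_right (JD.comm_fej a l)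
  have f1 : ∀ l, Commute (f l) v := fun l => (cf (Commute.refl v) hvv l).symm
  have f2 : ∀ l, Commute (f l) (star v) := fun l => (cf hvv.symm (Commute.refl _) l).symm
  have d1 : ∀ l, Commute (Matrix.scalar n (Y l)) v := fun l => Matrix.ext fun a b => by
    rw [Matrix.scalar_apply, Matrix.diagonal_mul, Matrix.mul_diagonal]
    exact (hc l a b).eq
  have d2 : ∀ l, Commute (Matrix.scalar n (Y l)) (star v) := fun l => Matrix.ext fun a b => by
    rw [Matrix.scalar_apply, Matrix.diagonal_mul, Matrix.mul_diagonal, Matrix.star_apply]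
    have h := (hc l b a).star_star
    rw [(hY l).isSelfAdjoint.star_eq] at h
    exact h.eq
  have hS : fejS N R v Y = ∑ l ∈ Finset.range N, f l * Matrix.scalar n (Y l) :=
    Finset.sum_congr rfl fun l _ => by
      rw [hf, mul_assoc, mul_assoc, ← (JD.comm_fej (d1 l) l).eq]
      rfl
  have hx : ∀ l l', star (fej N R v l * fej N R v l') * (fej N R v l * fej N R v l') =
      f l * f l' := fun l l' => by
    rw [star_mul, mul_assoc, ← mul_assoc (star (fej N R v l)), ← hf l, ← mul_assoc,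
      ← (JD.comm_fej_star (f2 l) l').eq, mul_assoc, ← hf l']
  have hid := JD.idem_sum (Finset.range N) f (fun l => Matrix.scalar n (Y l))
    (fun l l' => cf (f1 l) (f2 l) l') (fun l l' => cf (d1 l) (d2 l) l')
    (fun l => by rw [← map_mul, (hY l).isIdempotentElem.eq])
    (by simp only [hf]; exact JD.sum0 hR hRN h1')
  rw [← hS] at hid
  have hR1 : (1 : ℝ) ≤ R := by exact_mod_cast hR
  have hr0 : (0 : ℝ) < 1 / R := by positivity
  have hr1 : 1 / (R : ℝ) ≤ 1 := (div_le_one (by positivity)).2 hR1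
  have hcs := JD.mat_cs (Finset.range N ×ˢ Finset.range N)
    (fun p => fej N R v p.1 * fej N R v p.2) (fun p => (Y p.1 - Y p.2) * (Y p.1 - Y p.2))
    (fun p => C ^ 2 * ‖JD.ze N p.1 - JD.ze N p.2‖ ^ 2) (B := C ^ 2 * (2 - 2 * (1 - 1 / R) ^ 2))
    (mul_nonneg (sq_nonneg C) (by nlinarith)) (fun p _ => by
      refine (norm_mul_le _ _).trans ?_
      rw [← mul_pow, sq]
      exact mul_self_le_mul_self (norm_nonneg _) (hlip p.1 p.2)) (by
      simp only [hx, Complex.ofReal_mul, mul_smul]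
      rw [← Finset.smul_sum, JD.var_sum _ f (JD.ze N) (JD.ze_mul_star (by omega))]
      simp only [hf]
      rw [JD.sum0 hR hRN h1', JD.sum1 hR hRN h1', JD.sum2 hR hRN h1', smul_mul_smul_comm,
        smul_mul_smul_comm, h1', h2', mul_one, ← sub_smul, ← sub_smul]
      congr 2
      push_cast
      ring) i j
  have he : ∑ p ∈ Finset.range N ×ˢ Finset.range N, star (fej N R v p.1 * fej N R v p.2) *
      Matrix.diagonal (fun _ => (Y p.1 - Y p.2) * (Y p.1 - Y p.2)) *
      (fej N R v p.1 * fej N R v p.2) =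
      (fejS N R v Y - fejS N R v Y * fejS N R v Y) +
        (fejS N R v Y - fejS N R v Y * fejS N R v Y) := by
    rw [← hid]
    refine Finset.sum_congr rfl fun p _ => ?_
    have h3 : Commute (Matrix.scalar n (Y p.1) - Matrix.scalar n (Y p.2)) v :=
      (d1 _).sub_left (d1 _)
    have h4 := (JD.comm_fej (N := N) (R := R) (h3.mul_left h3) p.1).mul_right
      (JD.comm_fej (N := N) (R := R) (h3.mul_left h3) p.2)
    rw [← Matrix.scalar_apply, map_mul, map_sub, mul_assoc, h4.eq, ← mul_assoc, hx]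
  rw [he, Matrix.add_apply, ← two_smul ℝ, norm_smul, Real.norm_two] at hcs
  rw [← neg_sub, Matrix.neg_apply, norm_neg, div_eq_mul_one_div]
  nlinarith [mul_nonneg (sq_nonneg C) (sq_nonneg (1 / (R : ℝ)))]

end Pool.Agent.Izumi
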