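import Pool.Agent.Lib.MP_b2135d_an.DB

/-! A loop of partitions of unity (PLAN section 9, J4). -/

namespace Pool.Agent.Izumi

open scoped ComplexOrder Matrix
open Filter Topology

namespace JE

theorem chord {N : ℕ} (hN : 0 < N) (l d : ℕ) (hd : 2 * d ≤ N) :
    4 * (d : ℝ) / N ≤ ‖Complex.exp (2 * Real.pi * Complex.I * ((l + d : ℕ) : ℂ) / (N : ℂ)) -
      Complex.exp (2 * Real.pi * Complex.I * (l : ℂ) / (N : ℂ))‖ := by
  have hN' : (0 : ℝ) < N := by exact_mod_cast hN
  have hd' : 2 * (d : ℝ) ≤ N := by exact_mod_cast hd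
  have hpi := Real.pi_pos
  have e1 : 2 * Real.pi * Complex.I * ((l + d : ℕ) : ℂ) / (N : ℂ) =
      Complex.I * ((2 * Real.pi * l / N : ℝ) : ℂ) + Complex.I * ((2 * Real.pi * d / N : ℝ) : ℂ) := by
    push_cast
    ring
  have e2 : 2 * Real.pi * Complex.I * (l : ℂ) / (N : ℂ) =
      Complex.I * ((2 * Real.pi * l / N : ℝ) : ℂ) := by
    push_cast
    ring
  rw [e1, e2, Complex.exp_add, ← mul_sub_one, norm_mul, Complex.norm_exp_I_mul_ofReal, one_mul,
    Complex.norm_exp_I_mul_ofReal_sub_one, Real.norm_eq_abs]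
  refine le_trans ?_ (le_abs_self _)
  have h0 : 0 ≤ 2 * Real.pi * d / N / 2 := by positivity
  have h1 : 2 * Real.pi * d / N / 2 ≤ Real.pi / 2 := by
    refine div_le_div_of_nonneg_right ?_ (by norm_num)
    rw [div_le_iff₀ hN']
    nlinarith
  have h2 := Real.mul_le_sin h0 h1
  have h3 : 2 / Real.pi * (2 * Real.pi * d / N / 2) = 2 * d / N := by field_simp
  have h4 : 4 * (d : ℝ) / N = 2 * (2 * d / N) := by ring
  linarith

theorem per_mod {α : Type} {f : ℕ → α} {N : ℕ} (h : ∀ l, f (l + N) = f l) (l : ℕ) :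
    f l = f (l % N) := by
  have key : ∀ k a, f (a + N * k) = f a := fun k a => by
    induction k with
    | zero => rfl
    | succ k ih => rw [Nat.mul_succ, ← add_assoc, h, ih]
  conv_lhs => rw [← Nat.mod_add_div l N]
  exact key _ _

theorem all_pairs {r : ℕ → ℕ → Prop} {N : ℕ} (hN : 0 < N) (hs : ∀ a b, r a b → r b a)
    (hm : ∀ a b, r (a % N) (b % N) → r a b) (hp : ∀ a b, r (a + N) b → r a b)
    (hd : ∀ l d, 2 * d ≤ N → r (l + d) l) (l l' : ℕ) : r l l' := by
  have key : ∀ a b, a ≤ b → b < N → r a b := fun a b hab hb => by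
    by_cases h : 2 * (b - a) ≤ N
    · have := hd a (b - a) h
      rw [Nat.add_sub_cancel' hab] at this
      exact hs _ _ this
    · have := hd b (N - (b - a)) (by omega)
      rw [show b + (N - (b - a)) = a + N by omega] at this
      exact hp _ _ this
  refine hm _ _ ?_
  rcases le_total (l % N) (l' % N) with h | h
  · exact key _ _ h (Nat.mod_lt _ hN)
  · exact hs _ _ (key _ _ h (Nat.mod_lt _ hN))

theorem conj_step {A : Type} [CStarAlgebra A] {u v e : A} (hu : u ∈ unitary A) (hv : v ∈ unitary A)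
    (he : ‖e‖ ≤ 1) : ‖u * e * star u - v * e * star v‖ ≤ 2 * ‖u - v‖ := by
  have e1 : u * e * star u - v * e * star v = (u - v) * e * star u + v * (e * star (u - v)) := by
    rw [star_sub]
    noncomm_ring
  have h0 := norm_nonneg (u - v)
  have h1 : ‖(u - v) * e * star u‖ ≤ ‖u - v‖ := by
    rw [CStarRing.norm_mul_mem_unitary _ (Unitary.star_mem hu)]
    exact (norm_mul_le _ _).trans (mul_le_of_le_one_right h0 he)
  have h2 : ‖v * (e * star (u - v))‖ ≤ ‖u - v‖ := by
    rw [CStarRing.norm_mem_unitary_mul _ hv]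
    refine (norm_mul_le _ _).trans ?_
    rw [norm_star]
    exact mul_le_of_le_one_left h0 he
  rw [e1]
  linarith [norm_add_le ((u - v) * e * star u) (v * (e * star (u - v)))]

theorem conj_proj {A : Type} [CStarAlgebra A] {u e : A} (hu : u ∈ unitary A)
    (he : IsStarProjection e) : IsStarProjection (u * e * star u) := by
  refine ⟨?_, ?_⟩
  · change u * e * star u * (u * e * star u) = u * e * star u
    calc u * e * star u * (u * e * star u) = u * (e * (star u * u) * e) * star u := by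
          simp only [mul_assoc]
      _ = _ := by rw [Unitary.star_mul_self_of_mem hu, mul_one, he.isIdempotentElem.eq]
  · exact he.isSelfAdjoint.conjugate u

end JE

variable {G A : Type} [Group G] [CStarAlgebra A] [PartialOrder A] [StarOrderedRing A] [Countable G] {X : Sys G A}
  {H : Subgroup G}

theorem Sys.circle_proj (hE : X.Emb H) (hU : X.Uni H) {g : G} (hg : ∀ h ∈ H, g⁻¹ * h * g ∈ H)
    (p : ℕ) [NeZero p] (hp : g ^ p ∈ H) {T : Set A} (hT : T.Countable) {R : ℕ} (hR : 0 < R) :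
    ∃ Y : ZMod p → ℕ → A, (∀ j l, Y j l ∈ X.FT T ⊓ Fix X.γ H ∧ IsStarProjection (Y j l)) ∧
      (∀ l, ∑ j, Y j l = 1) ∧ (∀ j l, X.γ g (Y j l) = Y (j + 1) (l + R)) ∧
      (∀ j l, Y j (l + p * R) = Y j l) ∧
      ∀ j (l l' : ℕ), ‖Y j l - Y j l'‖ ≤ 12 * (p : ℝ) *
        ‖Complex.exp (2 * Real.pi * Complex.I * l / (p * R : ℕ)) -
          Complex.exp (2 * Real.pi * Complex.I * l' / (p * R : ℕ))‖ := by
  obtain ⟨ψ, hψ, hm⟩ := hE.divT (ZMod p) hT
  have hψ' : IsMU fun i j : ZMod p => X.γ g (ψ (i - 1) (j - 1)) :=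
    (hψ.reindex (Equiv.subRight (1 : ZMod p))).map_aut (X.γ g)
  obtain ⟨u, hu, hc⟩ := Sys.uni_chn_MU hE hU (X.countable_FT hT) hψ hψ'
    (fun i j => ⟨(hm i j).2, (hm i j).1⟩)
    (fun i j => ⟨act_mem_Fix hg (hm _ _).2, X.act_mem_FT g (hm _ _).1⟩)
  obtain ⟨z, z0, zR, hz, hs⟩ := hc R hR
  obtain ⟨Q, hQ⟩ : ∃ Q : ZMod p → ℕ → A, ∀ j t, Q j t = z t * ψ j j * star (z t) :=
    ⟨_, fun _ _ => rfl⟩
  have qF : ∀ j t, Q j t ∈ X.FT T := fun j t => by
    rw [hQ]
    exact mul_mem (mul_mem (hz t).2.2 (hm j j).1) (star_mem (hz t).2.2)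
  have qH : ∀ j t, Q j t ∈ Fix X.γ H := fun j t => by
    rw [hQ]
    exact mul_mem (mul_mem (hz t).2.1 (hm j j).2) (star_mem (hz t).2.1)
  have qR : ∀ j, Q j R = X.γ g (Q (j - 1) 0) := fun j => by
    rw [hQ, hQ, z0, zR, hu, one_mul, star_one, mul_one]
  have hpow : ∀ (n : ℕ) (x : A), x ∈ Fix X.γ H → X.γ (g ^ n) x ∈ Fix X.γ H := fun n x hx => by
    induction n with
    | zero => rwa [pow_zero, act_one]
    | succ n ih =>
      rw [pow_succ', ← act_act]
      exact act_mem_Fix hg ih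
  obtain ⟨Y, hY⟩ : ∃ Y : ZMod p → ℕ → A,
      ∀ j l, Y j l = X.γ (g ^ (l / R)) (Q (j - ((l / R : ℕ) : ZMod p)) (l % R)) :=
    ⟨_, fun _ _ => rfl⟩
  have per : ∀ j l, Y j (l + p * R) = Y j l := fun j l => by
    rw [hY, hY, Nat.add_mul_div_right _ _ hR, Nat.add_mul_mod_self_right, pow_add, ← act_act,
      qH _ _ _ hp, Nat.cast_add, ZMod.natCast_self, add_zero]
  have hR' : (0 : ℝ) < R := by exact_mod_cast hR
  have step : ∀ j l, ‖Y j (l + 1) - Y j l‖ ≤ 48 / R := fun j l => by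
    have e1 : Y j (l + 1) = X.γ (g ^ (l / R)) (Q (j - ((l / R : ℕ) : ZMod p)) (l % R + 1)) := by
      have h1 := Nat.mod_lt l hR
      have h2 := Nat.mod_add_div l R
      by_cases h : l % R + 1 < R
      · have h3 : l + 1 = l % R + 1 + R * (l / R) := by omega
        have h4 : (l + 1) / R = l / R := by
          rw [h3, Nat.add_mul_div_left _ _ hR, Nat.div_eq_of_lt h, zero_add]
        have h5 : (l + 1) % R = l % R + 1 := by
          rw [h3, Nat.add_mul_mod_self_left, Nat.mod_eq_of_lt h]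
        rw [hY, h4, h5]
      · have h3 : l + 1 = R * (l / R + 1) := by rw [Nat.mul_succ]; omega
        have h4 : (l + 1) / R = l / R + 1 := by rw [h3, Nat.mul_div_cancel_left _ hR]
        have h5 : (l + 1) % R = 0 := by rw [h3, Nat.mul_mod_right]
        rw [hY, h4, h5, show l % R + 1 = R by omega, qR, act_act, pow_succ, Nat.cast_succ, sub_sub]
    rw [e1, hY j l, ← map_sub, norm_act, hQ, hQ]
    refine (JE.conj_step (hz _).1 (hz _).1 (hψ.norm_le _ _)).trans ?_
    have h6 := hs (l % R)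
    have h7 : (48 : ℝ) / R = 2 * (24 / R) := by ring
    linarith
  have steps : ∀ j l (d : ℕ), ‖Y j (l + d) - Y j l‖ ≤ d * (48 / R) := fun j l d => by
    induction d with
    | zero => simp
    | succ d ih =>
      have h1 := norm_sub_le_norm_sub_add_norm_sub (Y j (l + d + 1)) (Y j (l + d)) (Y j l)
      have h2 := step j (l + d)
      rw [← add_assoc]
      push_cast
      linarith
  have hp0 : 0 < p := Nat.pos_of_ne_zero (NeZero.ne p)
  have hN : 0 < p * R := Nat.mul_pos hp0 hR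
  refine ⟨Y, fun j l => ⟨⟨?_, ?_⟩, ?_⟩, fun l => ?_, fun j l => ?_, per, fun j => ?_⟩
  · rw [hY]
    exact X.act_mem_FT _ (qF _ _)
  · rw [hY]
    exact hpow _ _ (qH _ _)
  · rw [hY, hQ]
    exact (JE.conj_proj (hz _).1 (hψ.proj _)).map _
  · simp only [hY]
    rw [← map_sum, Fintype.sum_equiv (Equiv.subRight ((l / R : ℕ) : ZMod p))
      (fun j => Q (j - ((l / R : ℕ) : ZMod p)) (l % R)) (fun j => Q j (l % R)) fun _ => rfl]
    simp only [hQ]
    rw [← Finset.sum_mul, ← Finset.mul_sum, hψ.sum, mul_one,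
      Unitary.mul_star_self_of_mem (hz _).1, map_one]
  · rw [hY, hY, Nat.add_div_right _ hR, Nat.add_mod_right, act_act, pow_succ', Nat.cast_succ,
      add_sub_add_right_eq_sub]
  · obtain ⟨e, he⟩ : ∃ e : ℕ → ℂ,
        ∀ l, e l = Complex.exp (2 * Real.pi * Complex.I * l / (p * R : ℕ)) := ⟨_, fun _ => rfl⟩
    have pe : ∀ l, e (l + p * R) = e l := fun l => by
      have h0 : ((p * R : ℕ) : ℂ) ≠ 0 := by exact_mod_cast hN.ne'
      rw [he, he, Nat.cast_add, mul_add, add_div, mul_div_assoc _ ((p * R : ℕ) : ℂ), div_self h0,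
        mul_one, Complex.exp_add, Complex.exp_two_pi_mul_I, mul_one]
    simp only [← he]
    refine JE.all_pairs (r := fun l l' => ‖Y j l - Y j l'‖ ≤ 12 * (p : ℝ) * ‖e l - e l'‖) hN
      (fun a b h => by rwa [norm_sub_rev, norm_sub_rev (e b)]) (fun a b h => ?_) (fun a b h => ?_)
      fun l d hd => ?_
    · rwa [← JE.per_mod (per j), ← JE.per_mod (per j), ← JE.per_mod pe, ← JE.per_mod pe] at h
    · rwa [per, pe] at h
    · refine (steps j l d).trans ?_
      have h1 := JE.chord hN l d hd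
      rw [← he, ← he] at h1
      have hp' : (0 : ℝ) < p := by exact_mod_cast hp0
      refine le_trans (le_of_eq ?_) (mul_le_mul_of_nonneg_left h1 (by positivity))
      push_cast
      field_simp
      ring

end Pool.Agent.Izumi
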