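import Pool.Agent.Lib.MP_b2135d_an.Core

/-! Closure properties of terms and definable predicates (PLAN section 2). -/

namespace Pool.Agent.Izumi

open scoped ComplexOrder Matrix
open Filter Topology

variable {G A : Type} [Group G] [CStarAlgebra A] [PartialOrder A] [StarOrderedRing A] {τ : A →ₚ[ℂ] ℂ} {γ : G →* (A ≃⋆ₐ[ℂ] A)} {ι : Type}

theorem IsTerm.congr {f g : (ι → A) → A} (hf : IsTerm γ f) (h : ∀ x, f x = g x) : IsTerm γ g := by
  have e : f = g := funext h
  exact e ▸ hf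

theorem IsTerm.neg {f : (ι → A) → A} (hf : IsTerm γ f) : IsTerm γ (fun x => -f x) := by
  exact (hf.smul (-1)).congr fun x => by simp

theorem IsTerm.sub {f g : (ι → A) → A} (hf : IsTerm γ f) (hg : IsTerm γ g) :
    IsTerm γ (fun x => f x - g x) := by
  exact (hf.add hg.neg).congr fun x => (sub_eq_add_neg _ _).symm

theorem IsTerm.real_smul (c : ℝ) {f : (ι → A) → A} (hf : IsTerm γ f) :
    IsTerm γ (fun x => c • f x) := by
  exact (hf.smul (c : ℂ)).congr fun x => Complex.coe_smul c (f x)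

theorem IsTerm.sum {κ : Type} (s : Finset κ) {f : κ → (ι → A) → A}
    (hf : ∀ k ∈ s, IsTerm γ (f k)) : IsTerm γ (fun x => ∑ k ∈ s, f k x) := by
  classical
  induction s using Finset.induction_on with
  | empty => exact (IsTerm.const 0).congr fun x => by simp
  | insert a s ha ih =>
    refine ((hf a (Finset.mem_insert_self _ _)).add
      (ih fun k hk => hf k (Finset.mem_insert_of_mem hk))).congr fun x => ?_
    rw [Finset.sum_insert ha]

theorem IsTerm.pow {f : (ι → A) → A} (hf : IsTerm γ f) (m : ℕ) :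
    IsTerm γ (fun x => f x ^ m) := by
  induction m with
  | zero => exact (IsTerm.const 1).congr fun x => (pow_zero _).symm
  | succ m ih => exact (ih.mul hf).congr fun x => (pow_succ _ _).symm

theorem IsTerm.act_pow (g : G) (m : ℕ) {f : (ι → A) → A} (hf : IsTerm γ f) :
    IsTerm γ (fun x => (γ g ^ m) (f x)) := by
  exact (hf.act (g ^ m)).congr fun x => by rw [map_pow]

theorem Defn.const (p : Prop) : Defn τ γ (fun _ : ι → A => p) := by
  by_cases hp : p
  · exact (Defn.norm_le (IsTerm.const 0) 0).congr fun x => by simp [hp]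
  · exact (Defn.norm_le (IsTerm.const 0) (-1)).congr fun x => by simp [hp]

theorem Defn.forall {κ : Type} [Countable κ] {P : κ → (ι → A) → Prop}
    (h : ∀ k, Defn τ γ (P k)) : Defn τ γ (fun x => ∀ k, P k x) := by
  rcases isEmpty_or_nonempty κ with hκ | hκ
  · exact (Defn.const True).congr fun x => by simp
  · obtain ⟨e, he⟩ := exists_surjective_nat κ
    exact (Defn.all fun n => h (e n)).congr fun x => (he.forall (p := fun k => P k x)).symm

theorem Defn.and {P Q : (ι → A) → Prop} (hP : Defn τ γ P) (hQ : Defn τ γ Q) :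
    Defn τ γ (fun x => P x ∧ Q x) := by
  have h : Defn τ γ (fun x => ∀ b : Bool, (bif b then P else Q) x) :=
    Defn.forall fun b => by cases b <;> assumption
  exact h.congr fun x => by rw [Bool.forall_bool]; exact and_comm

theorem Defn.imp (p : Prop) {P : (ι → A) → Prop} (h : p → Defn τ γ P) :
    Defn τ γ (fun x => p → P x) := by
  by_cases hp : p
  · exact (h hp).congr fun x => ⟨fun a _ => a, fun a => a hp⟩
  · exact (Defn.const True).congr fun x => ⟨fun _ a => absurd a hp, fun _ => trivial⟩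

theorem Defn.forall_mem {κ : Type} {T : Set κ} (hT : T.Countable) {P : κ → (ι → A) → Prop}
    (h : ∀ k ∈ T, Defn τ γ (P k)) : Defn τ γ (fun x => ∀ k ∈ T, P k x) := by
  have := hT.to_subtype
  exact (Defn.forall fun k : T => h k.1 k.2).congr fun x => Subtype.forall

theorem Defn.eq {f g : (ι → A) → A} (hf : IsTerm γ f) (hg : IsTerm γ g) :
    Defn τ γ (fun x => f x = g x) := by
  exact (Defn.norm_le (hf.sub hg) 0).congr fun x => by rw [norm_le_zero_iff, sub_eq_zero]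

theorem Defn.tr_ge {f : (ι → A) → A} (hf : IsTerm γ f) (c : ℝ) :
    Defn τ γ (fun x => c ≤ (τ (f x)).re) := by
  refine (Defn.tr_le hf.neg (-c)).congr fun x => ?_
  rw [map_neg, Complex.neg_re, neg_le_neg_iff]

theorem Defn.mem_cent {T : Set A} (hT : T.Countable) {f : (ι → A) → A} (hf : IsTerm γ f) :
    Defn τ γ (fun x => f x ∈ cent T) := by
  refine (Defn.forall_mem hT fun t _ =>
    (Defn.eq (hf.mul (IsTerm.const t)) ((IsTerm.const t).mul hf)).and
      (Defn.eq (hf.mul (IsTerm.const (star t))) ((IsTerm.const (star t)).mul hf))).congr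
    fun x => ?_
  exact Izumi.mem_cent.symm

theorem Defn.mem_Fix [Countable G] (H : Subgroup G) {f : (ι → A) → A} (hf : IsTerm γ f) :
    Defn τ γ (fun x => f x ∈ Fix γ H) := by
  refine (Defn.forall fun h : G => Defn.imp (h ∈ H) fun _ => Defn.eq (hf.act h) hf).congr
    fun x => ?_
  exact Izumi.mem_Fix.symm

theorem nonneg_iff_SA (a : A) (R : ℝ) :
    (0 ≤ a ∧ ‖a‖ ≤ R) ↔ star a = a ∧ ‖a‖ ≤ R ∧ ‖algebraMap ℝ A R - a‖ ≤ R := by
  constructor
  · rintro ⟨h0, hR⟩
    have hR0 : 0 ≤ R := (norm_nonneg a).trans hR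
    have h1 : a ≤ algebraMap ℝ A R := (CStarAlgebra.norm_le_iff_le_algebraMap a hR0 h0).1 hR
    refine ⟨(IsSelfAdjoint.of_nonneg h0).star_eq, hR, ?_⟩
    exact (CStarAlgebra.norm_le_iff_le_algebraMap _ hR0 (sub_nonneg.2 h1)).2 (sub_le_self _ h0)
  · rintro ⟨hs, hR, h1⟩
    refine ⟨?_, hR⟩
    have ha : IsSelfAdjoint a := hs
    have hb : IsSelfAdjoint (algebraMap ℝ A R - a) :=
      (IsSelfAdjoint.algebraMap A (IsSelfAdjoint.all R)).sub ha
    have h2 := hb.le_algebraMap_norm_self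
    have h3 : algebraMap ℝ A ‖algebraMap ℝ A R - a‖ ≤ algebraMap ℝ A R := by
      rw [← sub_nonneg, ← map_sub, Algebra.algebraMap_eq_smul_one]
      exact smul_nonneg (sub_nonneg.2 h1) zero_le_one
    exact (sub_le_self_iff _).1 (h2.trans h3)

theorem Defn.nonneg {f : (ι → A) → A} (hf : IsTerm γ f) (R : ℝ) :
    Defn τ γ (fun x => 0 ≤ f x ∧ ‖f x‖ ≤ R) := by
  refine ((Defn.eq hf.star hf).and ((Defn.norm_le hf R).and
    (Defn.norm_le ((IsTerm.const (algebraMap ℝ A R)).sub hf) R))).congr fun x => ?_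
  exact (nonneg_iff_SA (f x) R).symm

theorem Defn.between {f : (ι → A) → A} (hf : IsTerm γ f) :
    Defn τ γ (fun x => 0 ≤ f x ∧ f x ≤ 1) := by
  refine (Defn.nonneg hf 1).congr fun x => ?_
  exact and_congr_right fun h0 => CStarAlgebra.norm_le_one_iff_of_nonneg _ h0

theorem Defn.proj {f : (ι → A) → A} (hf : IsTerm γ f) :
    Defn τ γ (fun x => IsStarProjection (f x)) := by
  refine ((Defn.eq (hf.mul hf) hf).and (Defn.eq hf.star hf)).congr fun x => ?_
  exact ⟨fun h => ⟨h.1, h.2⟩, fun h => ⟨h.1, h.2⟩⟩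

theorem Defn.unitary {f : (ι → A) → A} (hf : IsTerm γ f) :
    Defn τ γ (fun x => f x ∈ unitary A) := by
  refine ((Defn.eq (hf.star.mul hf) (IsTerm.const 1)).and
    (Defn.eq (hf.mul hf.star) (IsTerm.const 1))).congr fun x => ?_
  exact Unitary.mem_iff.symm

/-- Exact conditions `P`, approximate equations `f k = 0` and approximate trace bounds. -/
theorem Saturated.approx (h : Saturated τ γ) [Countable ι] {κ κ' : Type} [Countable κ]
    [Countable κ'] (R : ι → ℝ) {P : (ι → A) → Prop} (hP : Defn τ γ P) (f : κ → (ι → A) → A)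
    (hf : ∀ k, IsTerm γ (f k)) (g : κ' → (ι → A) → A) (hg : ∀ k, IsTerm γ (g k)) (c : κ' → ℝ)
    (H : ∀ (s : Finset κ) (s' : Finset κ') (ε : ℝ), 0 < ε → ∃ x : ι → A, (∀ i, ‖x i‖ ≤ R i) ∧
      P x ∧ (∀ k ∈ s, ‖f k x‖ ≤ ε) ∧ ∀ k ∈ s', c k - ε ≤ (τ (g k x)).re) :
    ∃ x : ι → A, (∀ i, ‖x i‖ ≤ R i) ∧ P x ∧ (∀ k, f k x = 0) ∧ ∀ k, c k ≤ (τ (g k x)).re := by
  obtain ⟨e, he⟩ := exists_injective_nat κ
  obtain ⟨e', he'⟩ := exists_injective_nat κ'
  have hZ : ∀ n : ℕ, Defn τ γ (fun x => P x ∧ (∀ k, e k ≤ n → ‖f k x‖ ≤ 1 / ((n : ℝ) + 1)) ∧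
      ∀ k, e' k ≤ n → c k - 1 / ((n : ℝ) + 1) ≤ (τ (g k x)).re) := fun n =>
    hP.and ((Defn.forall fun k => Defn.imp _ fun _ => Defn.norm_le (hf k) _).and
      (Defn.forall fun k => Defn.imp _ fun _ => Defn.tr_ge (hg k) _))
  obtain ⟨x, hx, hz⟩ := h ι R _ hZ fun N => by
    have h1 : (e ⁻¹' Set.Iic N).Finite := (Set.finite_Iic N).preimage he.injOn
    have h2 : (e' ⁻¹' Set.Iic N).Finite := (Set.finite_Iic N).preimage he'.injOn
    obtain ⟨x, hx, hPx, h3, h4⟩ := H h1.toFinset h2.toFinset (1 / ((N : ℝ) + 1)) (by positivity)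
    refine ⟨x, hx, fun n hn => ?_⟩
    have h5 : 1 / ((N : ℝ) + 1) ≤ 1 / ((n : ℝ) + 1) := Nat.one_div_le_one_div hn
    refine ⟨hPx, fun k hk => (h3 k (h1.mem_toFinset.2 (hk.trans hn))).trans h5, fun k hk => ?_⟩
    have h6 := h4 k (h2.mem_toFinset.2 (hk.trans hn))
    linarith
  refine ⟨x, hx, (hz 0).1, fun k => ?_, fun k => ?_⟩
  · rw [← norm_le_zero_iff]
    refine ge_of_tendsto tendsto_one_div_add_atTop_nhds_zero_nat ?_
    filter_upwards [eventually_ge_atTop (e k)] with n hn using (hz n).2.1 k hn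
  · have h1 : Tendsto (fun n : ℕ => c k - 1 / ((n : ℝ) + 1)) atTop (𝓝 (c k - 0)) :=
      tendsto_const_nhds.sub tendsto_one_div_add_atTop_nhds_zero_nat
    rw [sub_zero] at h1
    refine le_of_tendsto h1 ?_
    filter_upwards [eventually_ge_atTop (e' k)] with n hn using (hz n).2.2 k hn

/-- Exact conditions `P` and approximate equations `f k = 0`. -/
theorem Saturated.approx_eq (h : Saturated τ γ) [Countable ι] {κ : Type} [Countable κ]
    (R : ι → ℝ) {P : (ι → A) → Prop} (hP : Defn τ γ P) (f : κ → (ι → A) → A)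
    (hf : ∀ k, IsTerm γ (f k))
    (H : ∀ (s : Finset κ) (ε : ℝ), 0 < ε → ∃ x : ι → A, (∀ i, ‖x i‖ ≤ R i) ∧
      P x ∧ ∀ k ∈ s, ‖f k x‖ ≤ ε) :
    ∃ x : ι → A, (∀ i, ‖x i‖ ≤ R i) ∧ P x ∧ ∀ k, f k x = 0 := by
  obtain ⟨x, h1, h2, h3, -⟩ := h.approx (κ' := Empty) R hP f hf (fun k => k.elim)
    (fun k => k.elim) (fun k => k.elim) fun s _ ε hε => by
      obtain ⟨x, h1, h2, h3⟩ := H s ε hε
      exact ⟨x, h1, h2, h3, fun k => k.elim⟩
  exact ⟨x, h1, h2, h3⟩

end Pool.Agent.Izumi
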