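import Pool.Agent.Lib.MP_b2135d_an.JB
import Pool.Agent.Lib.MP_b2135d_an.JD
import Pool.Agent.Lib.MP_b2135d_an.JE
import Pool.Agent.Lib.MP_b2135d_an.SA

/-! The circle lemma (PLAN section 9, J4). -/

namespace Pool.Agent.Izumi

open scoped ComplexOrder Matrix
open Filter Topology

variable {G A : Type} [Group G] [CStarAlgebra A] [PartialOrder A] [StarOrderedRing A] [Countable G] {X : Sys G A}
  {K : Subgroup G} {FF : Type} [Group FF] [Fintype FF] {q : K →* FF}

theorem exists_zmod_of_char {Γ : Type} [Group Γ] [Finite Γ] (a : Γ →* ℂˣ) (ha : a ≠ 1) :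
    ∃ (p : ℕ) (θ : Γ →* Multiplicative (ZMod p)), 2 ≤ p ∧ Function.Surjective θ ∧
      θ.ker = a.ker ∧ ∀ c, θ c = Multiplicative.ofAdd 1 →
        (a c : ℂ) = Complex.exp (2 * Real.pi * Complex.I / p) := by
  have : Finite a.range := Finite.of_surjective _ a.rangeRestrict_surjective
  obtain ⟨p, hp⟩ : ∃ p, p = Nat.card a.range := ⟨_, rfl⟩
  have h2 : 2 ≤ p := by
    rw [hp]
    refine (Subgroup.one_lt_card_iff_ne_bot _).2 fun h => ha ?_
    ext c
    have : a c ∈ a.range := ⟨c, rfl⟩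
    rw [h, Subgroup.mem_bot] at this
    simp [this]
  have : NeZero p := ⟨by omega⟩
  have hζ0 := Complex.isPrimitiveRoot_exp p (by omega)
  have hζ := hζ0.isUnit_unit (NeZero.ne p)
  obtain ⟨ζ, hζ, hζv⟩ : ∃ ζ : ℂˣ, IsPrimitiveRoot ζ p ∧
      (ζ : ℂ) = Complex.exp (2 * Real.pi * Complex.I / p) := ⟨_, hζ, rfl⟩
  have hr : a.range = Subgroup.zpowers ζ := by
    rw [hζ.zpowers_eq]
    refine Subgroup.eq_of_le_of_card_ge (fun x hx => ?_) (by rw [hζ.card_rootsOfUnity', hp])
    rw [mem_rootsOfUnity, hp]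
    exact congrArg Subtype.val (pow_card_eq_one' (x := (⟨x, hx⟩ : a.range)))
  let e : Multiplicative (ZMod p) ≃* Subgroup.zpowers ζ :=
    AddEquiv.toMultiplicativeLeft hζ.zmodEquivZPowers
  have he : ((e (Multiplicative.ofAdd 1) : ℂˣ)) = ζ := by
    have h := hζ.zmodEquivZPowers_apply_coe_nat 1
    rw [Nat.cast_one] at h
    change ((Additive.toMul (hζ.zmodEquivZPowers 1) : Subgroup.zpowers ζ) : ℂˣ) = ζ
    rw [h]
    exact pow_one ζ
  let b : Γ →* Subgroup.zpowers ζ := a.codRestrict _ fun c => hr ▸ ⟨c, rfl⟩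
  refine ⟨p, e.symm.toMonoidHom.comp b, h2, e.symm.surjective.comp ?_, ?_, fun c hc => ?_⟩
  · rintro ⟨x, hx⟩
    rw [← hr] at hx
    obtain ⟨c, rfl⟩ := hx
    exact ⟨c, rfl⟩
  · ext c
    simp only [MonoidHom.mem_ker, MonoidHom.comp_apply, MulEquiv.coe_toMonoidHom,
      EmbeddingLike.map_eq_one_iff]
    exact Subtype.ext_iff
  · have h1 : b c = e (Multiplicative.ofAdd 1) := by
      rw [← hc]
      exact (e.apply_symm_apply _).symm
    rw [← hζv, ← he, ← h1]
    rfl

section Fej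

variable {n : Type} [Fintype n] [DecidableEq n]

omit [PartialOrder A] [StarOrderedRing A] [Fintype n] in
theorem je2_ent_diag {C : StarSubalgebra ℂ A} {y : A} (hy : y ∈ C) :
    Ent C (Matrix.diagonal (fun _ : n => y)) := by
  intro i j
  rw [Matrix.diagonal_apply]
  split_ifs
  · exact hy
  · exact zero_mem C

omit [PartialOrder A] [StarOrderedRing A] [Fintype n] [DecidableEq n] in
theorem je2_ent_smul {C : StarSubalgebra ℂ A} (c : ℂ) {v : Matrix n n A} (hv : Ent C v) :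
    Ent C (c • v) := fun i j => C.smul_mem (hv i j) c

theorem je2_ent_pow {C : StarSubalgebra ℂ A} {v : Matrix n n A} (hv : Ent C v) (s : ℕ) :
    Ent C (v ^ s) := by
  induction s with
  | zero => rw [pow_zero, ← sc_one]; exact ent_sc C _
  | succ s ih => rw [pow_succ]; exact ih.mul hv

theorem je2_ent_fejS {C : StarSubalgebra ℂ A} {v : Matrix n n A} (hv : Ent C v) {Y : ℕ → A}
    (hY : ∀ l, Y l ∈ C) (N R : ℕ) : Ent C (fejS N R v Y) := by
  have hf : ∀ l, Ent C (fej N R v l) := fun l =>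
    je2_ent_smul _ (Ent.sum _ fun s _ => je2_ent_pow (je2_ent_smul _ hv) s)
  exact Ent.sum _ fun l _ => ((hf l).conjTranspose.mul (je2_ent_diag (hY l))).mul (hf l)

omit [PartialOrder A] [StarOrderedRing A] [Fintype n] [DecidableEq n] in
theorem je2_map_smul (θ : A ≃⋆ₐ[ℂ] A) (c : ℂ) (v : Matrix n n A) :
    (c • v).map θ = c • v.map θ := by
  ext i j
  simp

theorem je2_conj_pow (θ : A ≃⋆ₐ[ℂ] A) {U v w : Matrix n n A} (h : U * v.map θ = w * U) (s : ℕ) :
    U * (v ^ s).map θ = w ^ s * U := by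
  induction s with
  | zero => rw [pow_zero, pow_zero, ← sc_one, sc_map_aut, sc_one, mul_one, one_mul]
  | succ s ih =>
    rw [pow_succ, pow_succ, map_aut_mul, ← mul_assoc, ih, mul_assoc, h, mul_assoc]

theorem je2_conj_fej (θ : A ≃⋆ₐ[ℂ] A) {U v w : Matrix n n A} (h : U * v.map θ = w * U)
    (N R l : ℕ) : U * (fej N R v l).map θ = fej N R w l * U := by
  unfold fej
  rw [je2_map_smul, map_aut_sum, mul_smul_comm, smul_mul_assoc, Finset.mul_sum, Finset.sum_mul]
  refine congrArg _ (Finset.sum_congr rfl fun s _ => je2_conj_pow θ ?_ s)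
  rw [je2_map_smul, mul_smul_comm, smul_mul_assoc, h]

omit [PartialOrder A] [StarOrderedRing A] in
theorem je2_sc_diag (θ : A ≃⋆ₐ[ℂ] A) (M : Matrix n n ℂ) (y : A) :
    sc A M * (Matrix.diagonal (fun _ : n => y)).map θ =
      Matrix.diagonal (fun _ : n => θ y) * sc A M := by
  rw [Matrix.diagonal_map (map_zero θ)]
  ext i j
  rw [Matrix.mul_diagonal, Matrix.diagonal_mul]
  exact Algebra.commutes _ _

theorem je2_conj_fejS (θ : A ≃⋆ₐ[ℂ] A) {M : Matrix n n ℂ} {v w : Matrix n n A}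
    (h1 : sc A M * (sc A M)ᴴ = 1) (h2 : (sc A M)ᴴ * sc A M = 1)
    (h : sc A M * v.map θ = w * sc A M) (N R : ℕ) (Y : ℕ → A) :
    sc A M * (fejS N R v Y).map θ = fejS N R w (fun l => θ (Y l)) * sc A M := by
  unfold fejS
  rw [map_aut_sum, Finset.mul_sum, Finset.sum_mul]
  refine Finset.sum_congr rfl fun l _ => ?_
  have e1 := je2_conj_fej θ h N R l
  have e2 : sc A M * (fej N R v l)ᴴ.map θ = (fej N R w l)ᴴ * sc A M := by
    have e3 := congrArg Matrix.conjTranspose e1
    rw [Matrix.conjTranspose_mul, Matrix.conjTranspose_mul, ← map_aut_conjTranspose] at e3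
    calc _ = sc A M * ((fej N R v l)ᴴ.map θ * (sc A M)ᴴ) * sc A M := by
          rw [mul_assoc, mul_assoc, h2, mul_one]
      _ = _ := by rw [e3, ← mul_assoc, h1, one_mul]
  rw [map_aut_mul, map_aut_mul, ← mul_assoc, ← mul_assoc, e2, mul_assoc _ (sc A M),
    je2_sc_diag, mul_assoc, mul_assoc, e1]
  simp only [mul_assoc]

theorem je2_shift {M : Type} [AddCommGroup M] (F : ℕ → M) (N : ℕ) (hF : ∀ l, F (l + N) = F l)
    (s : ℕ) : ∑ l ∈ Finset.range N, F (l + s) = ∑ l ∈ Finset.range N, F l := by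
  induction s with
  | zero => rfl
  | succ s ih =>
    rw [← ih]
    have e1 := Finset.sum_range_succ (fun l => F (l + s)) N
    have e2 := Finset.sum_range_succ' (fun l => F (l + s)) N
    rw [e1, add_comm N s, hF, zero_add] at e2
    rw [add_right_cancel e2]
    exact Finset.sum_congr rfl fun l _ => congrArg F (by omega)

theorem je2_fejS_shift {N : ℕ} (hN : 0 < N) (R s : ℕ) (v : Matrix n n A) {Y : ℕ → A}
    (hY : ∀ l, Y (l + N) = Y l) :
    fejS N R (Complex.exp (2 * Real.pi * Complex.I * s / N) • v) (fun l => Y (l + s)) =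
      fejS N R v Y := by
  unfold fejS
  simp only [fej_smul]
  exact je2_shift (fun l => (fej N R v l)ᴴ * Matrix.diagonal (fun _ => Y l) * fej N R v l) N
    (fun l => by simp only [fej_add_period hN, hY]) s

theorem je2_fejS_sum {ι : Type} [Fintype ι] {N R : ℕ} {v : Matrix n n A} (hR : 0 < R)
    (hRN : R < N) (h1 : vᴴ * v = 1) (h2 : v * vᴴ = 1) {Y : ι → ℕ → A} (hY : ∀ l, ∑ j, Y j l = 1) :
    ∑ j, fejS N R v (Y j) = 1 := by
  unfold fejS
  rw [Finset.sum_comm, ← fej_sum hR hRN h1 h2]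
  refine Finset.sum_congr rfl fun l _ => ?_
  have e : ∑ j, Matrix.diagonal (fun _ : n => Y j l) = 1 := by
    ext a b
    by_cases h : a = b
    · subst h
      simp [Matrix.sum_apply, hY]
    · simp [Matrix.sum_apply, h]
  rw [← Finset.sum_mul, ← Finset.mul_sum, e, mul_one]

end Fej

omit [Countable G] [Fintype FF] in
theorem je2_act_mul {Y : Type} [MulAction FF Y] {r : URep FF} {y : Y → Matrix r.n r.n A}
    {k k' : K}
    (hk : ∀ c, sc A (r.π (q k)) * (y c).map (X.γ k) = y (q k • c) * sc A (r.π (q k)))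
    (hk' : ∀ c, sc A (r.π (q k')) * (y c).map (X.γ k') = y (q k' • c) * sc A (r.π (q k'))) (c : Y) :
    sc A (r.π (q (k * k'))) * (y c).map (X.γ (k * k' : K)) =
      y (q (k * k') • c) * sc A (r.π (q (k * k'))) := by
  have e : (y c).map (X.γ (k * k' : K)) = ((y c).map (X.γ k')).map (X.γ k) := by
    ext i j
    simp only [Matrix.map_apply, act_act, Subgroup.coe_mul]
  rw [e, map_mul, map_mul, sc_mul, mul_smul, mul_assoc, ← sc_map_aut (X.γ k) (r.π (q k')),
    ← map_aut_mul, hk', map_aut_mul, ← mul_assoc, hk, mul_assoc]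

theorem Sys.j4_core (hq : Function.Surjective q) (a : FF →* ℂˣ) (ha : a ≠ 1)
    (hE : X.Emb (pre q a.ker)) (hU : X.Uni (pre q a.ker)) {r : URep FF} (v : Matrix r.n r.n A)
    (hv : Ent X.F v) (h1 : vᴴ * v = 1) (h2 : v * vᴴ = 1)
    (he : ∀ k : K, sc A (r.π (q k)) * v.map (X.γ k) = (a (q k) : ℂ) • (v * sc A (r.π (q k)))) :
    X.JP q r := by
  obtain ⟨p, θ, hp, hθ, hker, hθ1⟩ := exists_zmod_of_char a ha
  have : NeZero p := ⟨by omega⟩
  let : MulAction FF (ZMod p) :=
    { smul := fun c j => (θ c).toAdd + j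
      one_smul := fun j => by
        change (θ 1).toAdd + j = j
        simp
      mul_smul := fun c d j => by
        change (θ (c * d)).toAdd + j = (θ c).toAdd + ((θ d).toAdd + j)
        simp [add_assoc] }
  have hsm : ∀ (c : FF) (j : ZMod p), c • j = (θ c).toAdd + j := fun _ _ => rfl
  have : MulAction.IsPretransitive FF (ZMod p) := ⟨fun x y => by
    obtain ⟨c, hc⟩ := hθ (Multiplicative.ofAdd (y - x))
    exact ⟨c, by rw [hsm, hc]; simp⟩⟩
  have hst : MulAction.stabilizer FF (0 : ZMod p) = a.ker := by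
    rw [← hker]
    ext c
    rw [MulAction.mem_stabilizer_iff, hsm, add_zero, MonoidHom.mem_ker]
    rfl
  obtain ⟨g, hg⟩ := (hθ.comp hq) (Multiplicative.ofAdd 1)
  have hg : θ (q g) = Multiplicative.ofAdd 1 := hg
  have hmem : ∀ k : K, (k : G) ∈ pre q a.ker ↔ θ (q k) = 1 := fun k => by
    rw [coe_mem_pre, ← hker, MonoidHom.mem_ker]
  have hu1 : ∀ c, sc A (r.π c) * (sc A (r.π c))ᴴ = 1 := fun c => by
    rw [sc_conjTranspose, r.unit, r.sc_mul_inv]
  have hu2 : ∀ c, (sc A (r.π c))ᴴ * sc A (r.π c) = 1 := fun c => by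
    have := r.sc_mul_inv (A := A) c⁻¹
    rwa [inv_inv, ← r.unit, ← sc_conjTranspose] at this
  have he' : ∀ k : K, sc A (r.π (q k)) * v.map (X.γ k) =
      ((a (q k) : ℂ) • v) * sc A (r.π (q k)) := fun k => by rw [he, smul_mul_assoc]
  -- approximate families
  have happ : ∀ ε : ℝ, 0 < ε → ∃ y : ZMod p → Matrix r.n r.n A, (∀ c i j, ‖y c i j‖ ≤ 1) ∧
      (∀ c, Ent X.F (y c)) ∧ (∀ c, (y c)ᴴ = y c) ∧ ∑ c, y c = 1 ∧
      (∀ (k : K) c, sc A (r.π (q k)) * (y c).map (X.γ k) = y (q k • c) * sc A (r.π (q k))) ∧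
      ∀ c i j, ‖(y c * y c - y c) i j‖ ≤ ε := by
    intro ε hε
    obtain ⟨R, hR⟩ := exists_nat_gt (2 * (12 * (p : ℝ)) ^ 2 / ε)
    have hR0 : (0 : ℝ) < R := lt_of_le_of_lt (by positivity) hR
    have hR1 : 0 < R := by exact_mod_cast hR0
    have hRN : R < p * R := by nlinarith
    obtain ⟨Y, hY, hY1, hYg, hYp, hYl⟩ := X.circle_proj hE hU (g := g) (fun h hh => by
        have hK := pre_le _ _ hh
        have := (hmem ⟨h, hK⟩).1 hh
        exact (hmem (g⁻¹ * ⟨h, hK⟩ * g)).2 (by simp [this])) p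
      ((hmem (g ^ p)).2 (by rw [map_pow, map_pow, hg, ← ofAdd_nsmul]; simp))
      (Set.countable_range fun ij : r.n × r.n => v ij.1 ij.2) hR1
    have hH : ∀ k : K, θ (q k) = 1 → ∀ c, sc A (r.π (q k)) *
        (fejS (p * R) R v (Y c)).map (X.γ k) =
          fejS (p * R) R v (Y (q k • c)) * sc A (r.π (q k)) := by
      intro k hk c
      have hk' := (hmem k).2 hk
      have ha1 : a (q k) = 1 := coe_mem_pre.1 hk'
      rw [je2_conj_fejS _ (hu1 _) (hu2 _) (he' k), ha1, hsm, hk, Units.val_one, one_smul,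
        toAdd_one, zero_add]
      congr 2
      funext l
      exact (hY c l).1.2 _ hk'
    have hG : ∀ c, sc A (r.π (q g)) * (fejS (p * R) R v (Y c)).map (X.γ g) =
        fejS (p * R) R v (Y (q g • c)) * sc A (r.π (q g)) := by
      intro c
      have e : (2 * Real.pi * Complex.I / p : ℂ) =
          2 * Real.pi * Complex.I * (R : ℕ) / ((p * R : ℕ) : ℂ) := by
        have : (R : ℂ) ≠ 0 := by exact_mod_cast hR1.ne'
        have : (p : ℂ) ≠ 0 := by exact_mod_cast NeZero.ne p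
        push_cast
        field_simp
      rw [je2_conj_fejS _ (hu1 _) (hu2 _) (he' g), hθ1 _ hg, hsm, hg, toAdd_ofAdd, add_comm 1 c, e,
        ← je2_fejS_shift (by omega) R R v (hYp (c + 1))]
      simp only [hYg]
    have hGm : ∀ (m : ℕ) c, sc A (r.π (q (g ^ m))) * (fejS (p * R) R v (Y c)).map (X.γ (g ^ m : K)) =
        fejS (p * R) R v (Y (q (g ^ m) • c)) * sc A (r.π (q (g ^ m))) := by
      intro m
      induction m with
      | zero => rw [pow_zero]; exact hH 1 (by simp)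
      | succ m ih =>
        rw [pow_succ]
        exact je2_act_mul (y := fun c => fejS (p * R) R v (Y c)) ih hG
    refine ⟨fun c => fejS (p * R) R v (Y c), fun c => fejS_norm_le hR1 hRN h1 h2 fun l =>
      (hY c l).2.norm_le _, fun c => je2_ent_fejS hv (fun l => X.FT_le_F _ (hY c l).1.1) _ _,
      fun c => fejS_conjTranspose fun l => (hY c l).2.isSelfAdjoint,
      je2_fejS_sum hR1 hRN h1 h2 hY1, fun k => ?_, fun c i j => ?_⟩
    · have hk : k = g ^ (θ (q k)).toAdd.val * ((g ^ (θ (q k)).toAdd.val)⁻¹ * k) := by group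
      rw [hk]
      refine je2_act_mul (y := fun c => fejS (p * R) R v (Y c)) (hGm _) (hH _ ?_)
      rw [map_mul, map_mul, map_inv, map_inv, map_pow, map_pow, hg, ← ofAdd_nsmul]
      simp
    · refine (fejS_idem hR1 hRN h1 h2 (fun l => (hY c l).2) (fun l i j =>
        (mem_cent.1 (X.FT_le_cent _ (hY c l).1.1) _ ⟨(i, j), rfl⟩).1) (hYl c) i j).trans ?_
      rw [div_le_iff₀ hR0]
      rw [div_lt_iff₀ hε] at hR
      linarith
  -- saturation
  have hT : ∀ c i j, IsTerm X.γ (fun x : ZMod p × r.n × r.n → A => x (c, i, j)) :=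
    fun c i j => IsTerm.var _
  obtain ⟨x, -, ⟨x1, x2, x3, x4⟩, x5⟩ := X.sat.approx_eq (ι := ZMod p × r.n × r.n)
    (κ := ZMod p × r.n × r.n) (fun _ => 1)
    (P := fun x => (∀ t : ZMod p × r.n × r.n, x t ∈ cent X.T0) ∧
      (∀ t : ZMod p × r.n × r.n, star (x (t.1, t.2.2, t.2.1)) = x t) ∧
      (∀ t : r.n × r.n, ∑ c, x (c, t) = (1 : Matrix r.n r.n A) t.1 t.2) ∧
      ∀ t : K × ZMod p × r.n × r.n,
        ∑ l, sc A (r.π (q t.1)) t.2.2.1 l * X.γ t.1 (x (t.2.1, l, t.2.2.2)) =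
          ∑ l, x (q t.1 • t.2.1, t.2.2.1, l) * sc A (r.π (q t.1)) l t.2.2.2)
    ((Defn.forall fun t => Defn.mem_cent X.T0_count (IsTerm.var t)).and
      ((Defn.forall fun t => Defn.eq (IsTerm.var _).star (IsTerm.var t)).and
      ((Defn.forall fun t => Defn.eq (IsTerm.sum _ fun c _ => IsTerm.var _) (IsTerm.const _)).and
      (Defn.forall fun t => Defn.eq
        (IsTerm.sum _ fun l _ => (IsTerm.const _).mul ((IsTerm.var _).act _))
        (IsTerm.sum _ fun l _ => (IsTerm.var _).mul (IsTerm.const _))))))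
    (fun t x => ∑ l, x (t.1, t.2.1, l) * x (t.1, l, t.2.2) - x t)
    (fun t => (IsTerm.sum _ fun l _ => (IsTerm.var _).mul (IsTerm.var _)).sub (IsTerm.var t))
    (fun s ε hε => by
      obtain ⟨y, y0, y1, y2, y3, y4, y5⟩ := happ ε hε
      refine ⟨fun t => y t.1 t.2.1 t.2.2, fun t => y0 _ _ _, ⟨fun t => y1 _ _ _, fun t => ?_,
        fun t => ?_, fun t => ?_⟩, fun t _ => y5 t.1 t.2.1 t.2.2⟩
      · exact congrFun (congrFun (y2 t.1) t.2.1) t.2.2
      · rw [← y3, Matrix.sum_apply]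
      · exact congrFun (congrFun (y4 t.1 t.2.1) t.2.2.1) t.2.2.2)
  refine X.jp_of_fam hq (0 : ZMod p) (hst ▸ hE) (y := fun c => Matrix.of fun i j => x (c, i, j))
    ⟨fun c i j => x1 _, fun c => ?_, fun c => ?_, ?_, fun k c => ?_⟩
  · ext i j
    exact x2 (c, i, j)
  · ext i j
    exact sub_eq_zero.1 (x5 (c, i, j))
  · ext i j
    rw [Matrix.sum_apply]
    exact x3 (i, j)
  · ext i j
    exact x4 (k, c, i, j)

theorem Sys.j4 (hq : Function.Surjective q) (a : FF →* ℂˣ) (ha : a ≠ 1)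
    (hE : X.Emb (pre q a.ker)) (hU : X.Uni (pre q a.ker)) {r : URep FF}
    (h : X.REqv q ((URep.lin a).tensor r) r) : X.JP q r := by
  obtain ⟨W, hW, h1, h2, he⟩ := h
  let W' : Matrix r.n (Unit × r.n) A := W
  have h1' : W'ᴴ * W' = 1 := h1
  have h2' : W' * W'ᴴ = 1 := h2
  refine X.j4_core hq a ha hE hU (Matrix.of fun i j => W' i ((), j)) (fun i j => hW _ _) ?_ ?_
    fun k => ?_
  · ext i j
    have := congrFun (congrFun h1' ((), i)) ((), j)
    simpa [Matrix.mul_apply, Matrix.one_apply] using this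
  · ext i j
    have := congrFun (congrFun h2' i) j
    simpa [Matrix.mul_apply, Fintype.sum_prod_type] using this
  · ext i j
    have h3 : sc A (r.π (q k)) * W'.map (X.γ k) = W' * sc A (Matrix.of fun s t : Unit × r.n =>
        (a (q k) : ℂ) * r.π (q k) s.2 t.2) := he k
    have := congrFun (congrFun h3 i) ((), j)
    simpa [Matrix.mul_apply, Fintype.sum_prod_type, sc, Finset.smul_sum, Algebra.algebraMap_eq_smul_one,
      mul_smul] using this

end Pool.Agent.Izumi
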