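import Pool.Agent.Lib.MP_b2135d_an.JF

/-! Splitting the unit (PLAN section 9, Cor). -/

namespace Pool.Agent.Izumi

open scoped ComplexOrder Matrix
open Filter Topology

section RowJF2

variable {A : Type} [CStarAlgebra A] {n m : Type}

/-- A family of elements viewed as a row matrix. -/
def rowJF2 (S : n → A) : Matrix Unit n A := Matrix.of fun _ j => S j

theorem rowJF2_gram (S : n → A) (i j : n) :
    ((rowJF2 S)ᴴ * rowJF2 S) i j = star (S i) * S j := by
  simp [rowJF2, Matrix.mul_apply]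

theorem rowJF2_self [Fintype n] (S : n → A) :
    (rowJF2 S * (rowJF2 S)ᴴ) () () = ∑ i, S i * star (S i) := by
  simp [rowJF2, Matrix.mul_apply]

theorem rowJF2_mul_sc [Fintype n] (S : n → A) (M : Matrix n m ℂ) (j : m) :
    (rowJF2 S * sc A M) () j = ∑ i, M i j • S i := by
  simp only [rowJF2, sc, Matrix.mul_apply, Matrix.of_apply, Matrix.map_apply]
  refine Finset.sum_congr rfl fun i _ => ?_
  rw [← Algebra.commutes, ← Algebra.smul_def]

omit [CStarAlgebra A] in
theorem rowJF2_eta (R : Matrix Unit n A) : rowJF2 (fun j => R () j) = R := by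
  ext i j; rfl

theorem diag_comm_JF2 [Fintype n] [Fintype m] [DecidableEq n] [DecidableEq m] (P : A)
    (B : Matrix n m A) (h : ∀ i j, Commute P (B i j)) :
    Matrix.diagonal (fun _ : n => P) * B = B * Matrix.diagonal (fun _ : m => P) := by
  ext i j
  rw [Matrix.diagonal_mul, Matrix.mul_diagonal]
  exact (h i j).eq

theorem gram_iff_JF2 [DecidableEq n] (S : n → A) (P : A) :
    (∀ i j, star (S i) * S j = if i = j then P else 0) ↔
      (rowJF2 S)ᴴ * rowJF2 S = Matrix.diagonal (fun _ : n => P) := by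
  constructor
  · intro h
    ext i j
    rw [rowJF2_gram, h, Matrix.diagonal_apply]
  · intro h i j
    rw [← rowJF2_gram, h, Matrix.diagonal_apply]

theorem act_iff_JF2 [Fintype n] (S : n → A) (θ : A ≃⋆ₐ[ℂ] A) (M : Matrix n n ℂ) :
    (∀ j, θ (S j) = ∑ i, M i j • S i) ↔ (rowJF2 S).map θ = rowJF2 S * sc A M := by
  constructor
  · intro h
    ext i j
    rw [rowJF2_mul_sc, ← h]
    rfl
  · intro h j
    rw [← rowJF2_mul_sc, ← h]
    rfl

end RowJF2

variable {G A : Type} [Group G] [CStarAlgebra A] [PartialOrder A] [StarOrderedRing A] [Countable G] {X : Sys G A}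
  {K : Subgroup G} {FF : Type} [Group FF] [Fintype FF] {q : K →* FF}

theorem Sys.IsSplit.of_char {θ θ' : URep FF} {P : A} {y : FF → A} {S : θ.n → A}
    (h : X.IsSplit q θ P y S) (e : θ.char = θ'.char) :
    ∃ S' : θ'.n → A, X.IsSplit q θ' P y S' := by
  obtain ⟨U, h1, h2, h3⟩ := char_iso θ θ' e
  have hg := (gram_iff_JF2 S P).1 h.S_orth
  have hcom : Matrix.diagonal (fun _ : θ.n => P) * sc A Uᴴ =
      sc A Uᴴ * Matrix.diagonal (fun _ : θ'.n => P) :=
    diag_comm_JF2 P _ fun i j => (Algebra.commute_algebraMap_right _ _)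
  have h4 : ∀ g, θ.π g * Uᴴ = Uᴴ * θ'.π g := by
    intro g
    calc θ.π g * Uᴴ = (Uᴴ * U) * θ.π g * Uᴴ := by rw [h1, Matrix.one_mul]
      _ = Uᴴ * (U * θ.π g) * Uᴴ := by simp only [Matrix.mul_assoc]
      _ = Uᴴ * (θ'.π g * U) * Uᴴ := by rw [h3]
      _ = Uᴴ * θ'.π g * (U * Uᴴ) := by simp only [Matrix.mul_assoc]
      _ = Uᴴ * θ'.π g := by rw [h2, Matrix.mul_one]
  refine ⟨fun j => (rowJF2 S * sc A Uᴴ) () j, h.P_mem, h.P_proj, h.y_mem, h.y_proj, ?_, ?_,
    h.y_act, ?_, ?_⟩
  · intro i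
    exact Ent.mul (C := X.F) (M := rowJF2 S) (fun _ j => h.S_mem j) (ent_sc _ _) () i
  · rw [gram_iff_JF2, rowJF2_eta, Matrix.conjTranspose_mul, sc_conjTranspose,
      Matrix.conjTranspose_conjTranspose, Matrix.mul_assoc, ← Matrix.mul_assoc (rowJF2 S)ᴴ, hg,
      hcom, ← Matrix.mul_assoc, ← sc_mul, h2, sc_one, Matrix.one_mul]
  · intro k
    rw [act_iff_JF2, rowJF2_eta, map_aut_mul, sc_map_aut, (act_iff_JF2 S _ _).1 (h.S_act k),
      Matrix.mul_assoc, Matrix.mul_assoc, ← sc_mul, ← sc_mul, h4]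
  · rw [← rowJF2_self, rowJF2_eta, Matrix.conjTranspose_mul, sc_conjTranspose,
      Matrix.conjTranspose_conjTranspose, Matrix.mul_assoc, ← Matrix.mul_assoc (sc A Uᴴ),
      ← sc_mul, h1, sc_one, Matrix.one_mul, rowJF2_self]
    exact h.sum

theorem Sys.IsSplit.drop {θ σ : URep FF} {P : A} {y : FF → A} {S : (θ.sum σ).n → A}
    (h : X.IsSplit q (θ.sum σ) P y S) {B : FF → Matrix σ.n σ.n A} (hB : X.IsFam q σ B)
    (hc : ∀ c i j, Commute P (B c i j)) :
    ∃ y' : FF → A, X.IsSplit q θ P y' (fun i => S (Sum.inl i)) := by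
  classical
  have hdiag : ∀ i, star (S i) * S i = P := fun i => by rw [h.S_orth, if_pos rfl]
  have hSP : ∀ i, S i * P = S i := fun i => mul_eq_of_star_mul_self h.P_proj (hdiag i)
  have hyS : ∀ c i, y c * S i = 0 := by
    intro c i
    have ho := orth_of_sum_le (Finset.univ : Finset (FF ⊕ (θ.sum σ).n))
      (Sum.elim y fun i => S i * star (S i))
      (by
        rintro (c | i) -
        · exact h.y_proj c
        · exact isStarProjection_mul_star h.P_proj (hdiag i))
      (by rw [Fintype.sum_sum_type]; exact h.sum.le)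
      (Sum.inl c) (Finset.mem_univ _) (Sum.inr i) (Finset.mem_univ _) Sum.inl_ne_inr
    have ho' : y c * (S i * star (S i)) = 0 := ho
    calc y c * S i = y c * (S i * (star (S i) * S i)) := by rw [hdiag, hSP]
      _ = y c * (S i * star (S i)) * S i := by simp only [mul_assoc]
      _ = 0 := by rw [ho', zero_mul]
  set Z : Matrix Unit σ.n A := rowJF2 fun j : σ.n => S (Sum.inr j) with hZ
  have hZg : Zᴴ * Z = Matrix.diagonal (fun _ : σ.n => P) := by
    refine (gram_iff_JF2 _ P).1 fun i j => ?_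
    by_cases hij : i = j
    · rw [if_pos hij]
      exact (h.S_orth _ _).trans (if_pos (congrArg Sum.inr hij))
    · rw [if_neg hij]
      exact (h.S_orth _ _).trans (if_neg fun e => hij (Sum.inr_injective e))
  have hZP : Z * Matrix.diagonal (fun _ : σ.n => P) = Z := by
    ext i j
    rw [Matrix.mul_diagonal]
    exact hSP _
  have hZa : ∀ k : K, Z.map (X.γ k) = Z * sc A (σ.π (q k)) := by
    intro k
    refine (act_iff_JF2 _ _ _).1 fun j => ?_
    rw [h.S_act k]
    change ∑ i : θ.n ⊕ σ.n, Matrix.fromBlocks (θ.π (q k)) 0 0 (σ.π (q k)) i (Sum.inr j) • S i = _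
    simp [Fintype.sum_sum_type]
  have hZe : Ent X.F Z := fun _ j => h.S_mem _
  refine ⟨fun c => y c + (Z * B c * Zᴴ) () (), h.P_mem, h.P_proj, ?_, ?_, fun i => h.S_mem _, ?_,
    ?_, ?_, ?_⟩
  · intro c
    exact add_mem (h.y_mem c) ((hZe.mul (hB.ent c)).mul hZe.conjTranspose () ())
  · intro c
    have hs : (Z * B c * Zᴴ)ᴴ = Z * B c * Zᴴ := by
      rw [Matrix.conjTranspose_mul, Matrix.conjTranspose_mul, Matrix.conjTranspose_conjTranspose,
        hB.star, Matrix.mul_assoc]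
    have hi : (Z * B c * Zᴴ) * (Z * B c * Zᴴ) = Z * B c * Zᴴ := by
      calc (Z * B c * Zᴴ) * (Z * B c * Zᴴ) = Z * (B c * (Zᴴ * Z)) * B c * Zᴴ := by
            simp only [Matrix.mul_assoc]
        _ = Z * Matrix.diagonal (fun _ : σ.n => P) * (B c * B c) * Zᴴ := by
            rw [hZg, ← diag_comm_JF2 P (B c) (hc c)]
            simp only [Matrix.mul_assoc]
        _ = Z * B c * Zᴴ := by rw [hZP, hB.idem]
    refine (h.y_proj c).add ⟨?_, ?_⟩ ?_
    · have := congrFun (congrFun hi ()) ()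
      rw [Matrix.mul_apply, Fintype.sum_unique] at this
      exact this
    · have := congrFun (congrFun hs ()) ()
      rw [Matrix.conjTranspose_apply] at this
      exact this
    · rw [Matrix.mul_assoc, Matrix.mul_apply, Finset.mul_sum]
      refine Finset.sum_eq_zero fun j _ => ?_
      have : y c * Z () j = 0 := hyS c _
      rw [← mul_assoc, this, zero_mul]
  · intro i j
    by_cases hij : i = j
    · rw [if_pos hij]
      exact (h.S_orth _ _).trans (if_pos (congrArg Sum.inl hij))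
    · rw [if_neg hij]
      exact (h.S_orth _ _).trans (if_neg fun e => hij (Sum.inl_injective e))
  · intro k c
    have hu : sc A (σ.π (q k)) * (sc A (σ.π (q k)))ᴴ = 1 := by
      rw [sc_conjTranspose, σ.unit, URep.sc_mul_inv]
    have hm : (Z * B c * Zᴴ).map (X.γ k) = Z * B (q k * c) * Zᴴ := by
      rw [map_aut_mul, map_aut_mul, map_aut_conjTranspose, hZa, Matrix.conjTranspose_mul]
      calc Z * sc A (σ.π (q k)) * (B c).map (X.γ k) * ((sc A (σ.π (q k)))ᴴ * Zᴴ)
          = Z * (sc A (σ.π (q k)) * (B c).map (X.γ k)) * (sc A (σ.π (q k)))ᴴ * Zᴴ := by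
            simp only [Matrix.mul_assoc]
        _ = Z * B (q k * c) * (sc A (σ.π (q k)) * (sc A (σ.π (q k)))ᴴ) * Zᴴ := by
            rw [hB.act k c, smul_eq_mul]
            simp only [Matrix.mul_assoc]
        _ = Z * B (q k * c) * Zᴴ := by rw [hu, Matrix.mul_one]
    rw [map_add, h.y_act, ← hm]
    rfl
  · intro k j
    rw [h.S_act k]
    change ∑ i : θ.n ⊕ σ.n, Matrix.fromBlocks (θ.π (q k)) 0 0 (σ.π (q k)) i (Sum.inl j) • S i = _
    simp [Fintype.sum_sum_type]
  · have h1 : ∑ c, (Z * B c * Zᴴ) () () = ∑ j : σ.n, S (Sum.inr j) * star (S (Sum.inr j)) := by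
      rw [← Matrix.sum_apply, ← Matrix.sum_mul, ← Matrix.mul_sum, hB.sum, Matrix.mul_one, hZ,
        rowJF2_self]
    have h2 : ∑ c, y c + ∑ i : θ.n ⊕ σ.n, S i * star (S i) = 1 := h.sum
    rw [Fintype.sum_sum_type] at h2
    rw [Finset.sum_add_distrib, h1, ← h2]
    abel

theorem Sys.split_of_vj (hq : Function.Surjective q) (hN : X.Good (pre q ⊥)) (θ : URep FF)
    (h : VJ (X.JPc q) (θ.char - 1)) : ∃ P y S, X.IsSplit q θ P y S := by
  obtain ⟨χ, χ', ⟨r, rfl, hr⟩, ⟨r', rfl, B, hB⟩, e⟩ := h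
  obtain ⟨P, y, Z, hP, hs⟩ := Sys.absorb hq hN hr
    (T := Set.range fun t : FF × r'.n × r'.n => B t.1 t.2.1 t.2.2) (Set.countable_range _)
  have e' : ((URep.one FF).sum r).char = (θ.sum r').char := by
    rw [URep.char_sum, URep.char_sum, URep.char_one]
    linear_combination -e
  obtain ⟨S', hs'⟩ := hs.of_char e'
  obtain ⟨y', hy'⟩ := hs'.drop hB fun c i j =>
    (mem_cent.1 (X.FT_le_cent _ hP) _ ⟨(c, i, j), rfl⟩).1
  exact ⟨P, y', _, hy'⟩

end Pool.Agent.Izumi
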