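import Pool.Agent.Lib.MP_b2135d_an.CoreJ

/-! Hyperelementary subgroups (PLAN section 9, Solomon). -/

namespace Pool.Agent.Izumi

variable {Γ : Type} [Group Γ] [Finite Γ]

omit [Finite Γ] in
theorem fix_modEq_JH {p : ℕ} (hp : p.Prime) {Y : Type} [Finite Y] [MulAction Γ Y] (g : Γ)
    (k : ℕ) : Set.ncard {y : Y | g ^ p ^ k • y = y} ≡ Set.ncard {y : Y | g • y = y} [MOD p] := by
  classical
  have : Fact p.Prime := ⟨hp⟩
  have := Fintype.ofFinite Y
  let f : Function.End {y : Y | g ^ p ^ k • y = y} := fun y => ⟨g • y.1, by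
    have h : g ^ p ^ k • y.1 = y.1 := y.2
    change g ^ p ^ k • g • y.1 = g • y.1
    rw [smul_smul, ← pow_succ, pow_succ', mul_smul, h]⟩
  have hpow : ∀ (m : ℕ) y, ((f ^ m) y).1 = g ^ m • y.1 := by
    intro m
    induction m with
    | zero => intro y; simp [Function.End.one_def]
    | succ m ih =>
      intro y
      rw [pow_succ', pow_succ', mul_smul, ← ih y]
      rfl
  have hf : f ^ p ^ k = 1 := funext fun y => Subtype.ext ((hpow _ y).trans y.2)
  have h := Equiv.Perm.card_fixedPoints_modEq hf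
  have hfix : ∀ y : Y, g • y = y → g ^ p ^ k • y = y := fun y hy =>
    (MulAction.stabilizer Γ y).pow_mem hy _
  have e : Function.fixedPoints f ≃ {y : Y | g • y = y} :=
    { toFun := fun y => ⟨y.1.1, congrArg Subtype.val y.2⟩
      invFun := fun y => ⟨⟨y.1, hfix y.1 y.2⟩, Subtype.ext y.2⟩
      left_inv := fun _ => rfl
      right_inv := fun _ => rfl }
  rw [← Nat.card_coe_set_eq, ← Nat.card_coe_set_eq, ← Nat.card_congr e, Nat.card_eq_fintype_card,
    Nat.card_eq_fintype_card]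
  exact h

omit [Finite Γ] in
theorem exists_char_JH {p : ℕ} (hp : p.Prime) {Q : Type} [Group Q] [Finite Q] [Nontrivial Q]
    (hQ : IsPGroup p Q) (f : Γ →* Q) (hf : Function.Surjective f) :
    ∃ a : Γ →* ℂˣ, orderOf a = p := by
  have : Fact p.Prime := ⟨hp⟩
  have := hQ.isNilpotent
  obtain ⟨x, -, hx⟩ := SetLike.exists_of_lt (Group.IsSolvable.commutator_lt_top_of_nontrivial Q)
  have hx1 : Abelianization.of x ≠ 1 := by
    intro h
    apply hx
    rw [← Abelianization.ker_of]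
    exact h
  obtain ⟨φ, hφ⟩ :=
    CommGroup.exists_apply_ne_one_of_hasEnoughRootsOfUnity (Abelianization Q) ℂ hx1
  obtain ⟨n, hn⟩ := IsPGroup.iff_card.1 hQ
  let a : Γ →* ℂˣ := (φ.comp Abelianization.of).comp f
  have ha : a ^ p ^ n = 1 := by
    refine MonoidHom.ext fun g => ?_
    rw [MonoidHom.pow_apply, ← map_pow]
    change φ (Abelianization.of (f (g ^ p ^ n))) = 1
    rw [map_pow f, ← hn, pow_card_eq_one', map_one, map_one]
  have ha1 : a ≠ 1 := by
    intro h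
    obtain ⟨g, rfl⟩ := hf x
    exact hφ (DFunLike.congr_fun h g)
  have hd : orderOf a ∣ p ^ n := orderOf_dvd_of_pow_eq_one (by exact ha)
  obtain ⟨j, -, hj⟩ := (Nat.dvd_prime_pow hp).1 hd
  have hj0 : j ≠ 0 := by
    rintro rfl
    exact ha1 (orderOf_eq_one_iff.1 hj)
  refine ⟨a ^ (orderOf a / p), orderOf_pow_orderOf_div ?_ ?_⟩
  · rw [hj]
    exact pow_ne_zero _ hp.ne_zero
  · rw [hj]
    exact dvd_pow_self p hj0

theorem solomon {p : ℕ} (hp : p.Prime) (hc : ¬ IsCyclic Γ) (hn : ∀ a : Γ →* ℂˣ, orderOf a ≠ p)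
    (g : Γ) : ∃ H : Subgroup Γ, H ≠ ⊤ ∧ ¬ p ∣ Set.ncard {y : Γ ⧸ H | g • y = y} := by
  have : Fact p.Prime := ⟨hp⟩
  obtain ⟨c, k, hck, hco⟩ : ∃ (c : Γ) (k : ℕ), c = g ^ p ^ k ∧ p.Coprime (orderOf c) := by
    refine ⟨_, (orderOf g).factorization p, rfl, ?_⟩
    rw [orderOf_pow_of_dvd (pow_ne_zero _ hp.ne_zero) (Nat.ordProj_dvd _ _)]
    exact Nat.coprime_ordCompl hp (orderOf_pos g).ne'
  let C : Subgroup Γ := Subgroup.zpowers c
  let N : Subgroup Γ := Subgroup.normalizer (C : Set Γ)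
  have hCN : C ≤ N := Subgroup.le_normalizer
  have : (C.subgroupOf N).Normal := Subgroup.normal_in_normalizer
  obtain ⟨P⟩ : Nonempty (Sylow p (N ⧸ C.subgroupOf N)) := inferInstance
  let H' : Subgroup N := (P : Subgroup (N ⧸ C.subgroupOf N)).comap (QuotientGroup.mk' _)
  let H : Subgroup Γ := H'.map N.subtype
  have hidx : ¬ p ∣ H'.index := by
    rw [Subgroup.index_comap_of_surjective _ (QuotientGroup.mk'_surjective _)]
    exact P.not_dvd_index
  have hCH : C ≤ H := by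
    intro x hx
    refine ⟨⟨x, hCN hx⟩, ?_, rfl⟩
    have h1 : QuotientGroup.mk' (C.subgroupOf N) ⟨x, hCN hx⟩ = 1 :=
      (QuotientGroup.eq_one_iff _).2 hx
    change QuotientGroup.mk' (C.subgroupOf N) ⟨x, hCN hx⟩ ∈ (P : Subgroup _)
    rw [h1]
    exact one_mem _
  have hHC : ∀ x ∈ H, p.Coprime (orderOf x) → x ∈ C := by
    rintro _ ⟨x, hx, rfl⟩ hxo
    obtain ⟨j, hj⟩ := P.isPGroup' ⟨_, hx⟩
    have h1 : QuotientGroup.mk' (C.subgroupOf N) (x ^ p ^ j) = 1 := by
      rw [map_pow]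
      exact congrArg Subtype.val hj
    have h2 : N.subtype x ^ p ^ j ∈ C :=
      (QuotientGroup.eq_one_iff (N := C.subgroupOf N) (x ^ p ^ j)).1 h1
    obtain ⟨m, hm⟩ := exists_pow_eq_self_of_coprime (hxo.pow_left j)
    rw [← hm]
    exact C.pow_mem h2 m
  refine ⟨H, fun hH => ?_, fun hd => ?_⟩
  · have hall : ∀ x : Γ, x ∈ N := fun x => by
      have hx : x ∈ H := hH ▸ Subgroup.mem_top x
      obtain ⟨y, -, rfl⟩ := hx
      exact y.2
    have hP : ∀ z : N ⧸ C.subgroupOf N, z ∈ (P : Subgroup _) := fun z => by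
      obtain ⟨y, rfl⟩ := QuotientGroup.mk'_surjective _ z
      have hy : y.1 ∈ H := hH ▸ Subgroup.mem_top _
      obtain ⟨y', hy', e⟩ := hy
      rw [← Subtype.ext e]
      exact hy'
    have hQ : IsPGroup p (N ⧸ C.subgroupOf N) := fun z => by
      obtain ⟨j, hj⟩ := P.isPGroup' ⟨z, hP z⟩
      exact ⟨j, congrArg Subtype.val hj⟩
    let f : Γ →* N ⧸ C.subgroupOf N :=
      (QuotientGroup.mk' _).comp ((MonoidHom.id Γ).codRestrict N hall)
    have hf : Function.Surjective f := fun z => by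
      obtain ⟨y, rfl⟩ := QuotientGroup.mk'_surjective _ z
      exact ⟨y.1, rfl⟩
    rcases subsingleton_or_nontrivial (N ⧸ C.subgroupOf N) with h | h
    · refine hc ⟨c, fun x => ?_⟩
      have h1 : f x = 1 := Subsingleton.elim _ _
      exact (QuotientGroup.eq_one_iff (N := C.subgroupOf N) ⟨x, hall x⟩).1 h1
    · obtain ⟨a, ha⟩ := exists_char_JH hp hQ f hf
      exact hn a ha
  · have h1 := fix_modEq_JH hp (Y := Γ ⧸ H) g k
    rw [← hck] at h1
    have h2 : (QuotientGroup.mk : Γ → Γ ⧸ H) ⁻¹' {y : Γ ⧸ H | c • y = y} = (N : Set Γ) := by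
      ext x
      have h3 : x ∈ (QuotientGroup.mk : Γ → Γ ⧸ H) ⁻¹' {y : Γ ⧸ H | c • y = y} ↔
          x⁻¹ * c⁻¹ * x ∈ H := by
        change ((c * x : Γ) : Γ ⧸ H) = x ↔ _
        rw [QuotientGroup.eq, mul_inv_rev]
      rw [h3]
      constructor
      · intro h
        have h4 : x⁻¹ * c⁻¹ * x ∈ C := by
          refine hHC _ h ?_
          have h5 : x⁻¹ * c⁻¹ * x = MulAut.conj x⁻¹ c⁻¹ := by simp
          rw [h5, MulEquiv.orderOf_eq, orderOf_inv]
          exact hco
        have h6 : x⁻¹ ∈ N := by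
          refine Subgroup.mem_normalizer_fintype ?_
          rintro _ ⟨n, rfl⟩
          have h7 : x⁻¹ * c ^ n * x⁻¹⁻¹ = (x⁻¹ * c⁻¹ * x) ^ (-n) := by
            have h8 := conj_zpow (a := x⁻¹) (b := c⁻¹) (i := -n)
            rw [inv_inv] at h8
            rw [h8, inv_zpow', neg_neg, inv_inv]
          change x⁻¹ * c ^ n * x⁻¹⁻¹ ∈ C
          rw [h7]
          exact C.zpow_mem h4 _
        exact inv_mem_iff.1 h6
      · intro h
        exact hCH ((Subgroup.mem_normalizer_iff''.1 h _).1 (C.inv_mem (Subgroup.mem_zpowers c)))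
    have h3 := QuotientGroup.card_preimage_mk H {y : Γ ⧸ H | c • y = y}
    have h4 : Nat.card H = Nat.card H' :=
      Subgroup.card_map_of_injective N.subtype_injective
    have h5 : Nat.card H' * H'.index = Nat.card N := H'.card_mul_index
    rw [h2, h4, Nat.card_coe_set_eq {y : Γ ⧸ H | c • y = y}] at h3
    have h6 : H'.index = Set.ncard {y : Γ ⧸ H | c • y = y} :=
      Nat.eq_of_mul_eq_mul_left Nat.card_pos (h5.trans h3)
    rw [h6] at hidx
    exact hidx ((h1.dvd_iff dvd_rfl).2 hd)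

end Pool.Agent.Izumi
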