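import Pool.Agent.Lib.MP_b2135d_an.JG
import Pool.Agent.Lib.MP_b2135d_an.JH

/-! The non-cyclic case (PLAN section 9, A2). -/

namespace Pool.Agent.Izumi

variable {Γ : Type} [Group Γ] [Finite Γ] {good : Subgroup Γ → Prop} {JP : (Γ → ℂ) → Prop}
  {Eqv : (Γ → ℂ) → (Γ → ℂ) → Prop}

omit [Finite Γ] in
theorem IsChar.ji_vr {χ : Γ → ℂ} (h : IsChar χ) : VR χ :=
  ⟨χ, 0, h, ⟨URep.zero Γ, URep.char_zero⟩, (sub_zero χ).symm⟩

omit [Finite Γ] in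
theorem JSys.ji_of_jp (h : JSys good JP Eqv) {χ : Γ → ℂ} (hχ : JP χ) : VJ JP χ :=
  ⟨χ, 0, hχ, h.jp_zero, (sub_zero χ).symm⟩

theorem JSys.ji_div_prime (h : JSys good JP Eqv) (hg : ∀ Φ : Subgroup Γ, Φ ≠ ⊤ → good Φ)
    {p : ℕ} (hp : p.Prime) (a : Γ →* ℂˣ) (ha : orderOf a = p) {x : Γ → ℂ} (hx : VR x)
    (hv : VJ JP ((p : Γ → ℂ) * x)) : VJ JP x := by
  obtain ⟨R, hR⟩ := exists_subring_VR Γ
  have ha1 : a ≠ 1 := by
    intro e
    rw [e, orderOf_one] at ha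
    exact hp.one_lt.ne ha
  have hker : a.ker ≠ ⊤ := by
    intro e
    apply ha1
    ext g
    have : g ∈ a.ker := by rw [e]; exact Subgroup.mem_top g
    rw [MonoidHom.mem_ker] at this
    simp [this]
  have hap : lch a ^ p = 1 := by
    funext g
    have h1 : a ^ p = 1 := by rw [← ha]; exact pow_orderOf_eq_one a
    have h2 : (a g) ^ p = 1 := by rw [← MonoidHom.pow_apply, h1, MonoidHom.one_apply]
    simp only [lch, Pi.pow_apply, Pi.one_apply]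
    rw [← Units.val_pow_eq_pow_val, h2, Units.val_one]
  have hm : lch a ∈ R := (hR _).2 (isChar_lch a).ji_vr
  obtain ⟨r, hr⟩ := exists_add_pow_prime_eq hp (1 - (⟨lch a, hm⟩ : R)) ⟨lch a, hm⟩
  have hr' := congrArg (fun z : R => (z : Γ → ℂ)) hr
  simp only [sub_add_cancel, one_pow] at hr'
  push_cast at hr'
  rw [hap] at hr'
  refine h.nzd_pow a ha1 (hg _ hker) p hx ?_
  have hu : VR (-((1 - lch a) * lch a * (r : Γ → ℂ))) :=
    (hR _).1 (R.neg_mem (R.mul_mem (R.mul_mem (R.sub_mem R.one_mem hm) hm) r.2))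
  have e : (1 - lch a) ^ p * x = -((1 - lch a) * lch a * (r : Γ → ℂ)) * ((p : Γ → ℂ) * x) := by
    linear_combination (-x) * hr'
  rw [e]
  exact h.vj_mul hu hv

theorem JSys.ji_prod (h : JSys good JP Eqv) (c : Γ → ℕ) (ψ : Γ → Γ → ℂ) (hψ : ∀ g, VJ JP (ψ g))
    (s : Finset Γ) : VR (∏ g ∈ s, ((c g : Γ → ℂ) - ψ g)) ∧
      VJ JP (((∏ g ∈ s, c g : ℕ) : Γ → ℂ) - ∏ g ∈ s, ((c g : Γ → ℂ) - ψ g)) := by
  classical
  obtain ⟨R, hR⟩ := exists_subring_VR Γ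
  have h1 : ∀ s : Finset Γ, VR (∏ g ∈ s, ((c g : Γ → ℂ) - ψ g)) := fun s =>
    (hR _).1 (R.prod_mem fun g _ => R.sub_mem (natCast_mem R _) ((hR _).2 (h.vj_vr (hψ g))))
  refine ⟨h1 s, ?_⟩
  induction s using Finset.induction_on with
  | empty => simpa using h.vj_zero
  | insert g s hgs ih =>
    rw [Finset.prod_insert hgs, Finset.prod_insert hgs, Nat.cast_mul]
    have e : (c g : Γ → ℂ) * ((∏ g ∈ s, c g : ℕ) : Γ → ℂ) -
        ((c g : Γ → ℂ) - ψ g) * ∏ g ∈ s, ((c g : Γ → ℂ) - ψ g) =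
        (c g : Γ → ℂ) * (((∏ g ∈ s, c g : ℕ) : Γ → ℂ) - ∏ g ∈ s, ((c g : Γ → ℂ) - ψ g)) +
          (∏ g ∈ s, ((c g : Γ → ℂ) - ψ g)) * ψ g := by ring
    rw [e]
    exact h.vj_add (h.vj_mul ((hR _).1 (natCast_mem R _)) ih) (h.vj_mul (h1 s) (hψ g))

theorem JSys.ji_coprime (h : JSys good JP Eqv) (hc : ¬ IsCyclic Γ)
    (hg : ∀ Φ : Subgroup Γ, Φ ≠ ⊤ → good Φ) {p : ℕ} (hp : p.Prime)
    (hn : ∀ a : Γ →* ℂˣ, orderOf a ≠ p) : ∃ m : ℕ, ¬ p ∣ m ∧ VJ JP (m : Γ → ℂ) := by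
  classical
  have := Fintype.ofFinite Γ
  choose H hH hd using solomon hp hc hn
  obtain ⟨-, h2⟩ := h.ji_prod (fun g => Set.ncard {y : Γ ⧸ H g | g • y = y}) (fun g => pch (H g))
    (fun g => h.ji_of_jp (h.j3 _ (hg _ (hH g)))) Finset.univ
  refine ⟨∏ g, Set.ncard {y : Γ ⧸ H g | g • y = y}, ?_, ?_⟩
  · intro hdv
    obtain ⟨g, -, hg'⟩ := (hp.prime.dvd_finsetProd_iff _).1 hdv
    exact hd g hg'
  · have e : ∏ g : Γ, (((Set.ncard {y : Γ ⧸ H g | g • y = y} : ℕ) : Γ → ℂ) - pch (H g)) = 0 := by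
      funext g
      rw [Finset.prod_apply, Pi.zero_apply]
      refine Finset.prod_eq_zero (Finset.mem_univ g) ?_
      simp [pch]
    rw [e, sub_zero] at h2
    exact h2

theorem JSys.vj_noncyclic (h : JSys good JP Eqv) (hc : ¬ IsCyclic Γ)
    (hg : ∀ Φ : Subgroup Γ, Φ ≠ ⊤ → good Φ) : VJ JP 1 := by
  classical
  obtain ⟨R, hR⟩ := exists_subring_VR Γ
  have hex : ∃ n : ℕ, 0 < n ∧ VJ JP (n : Γ → ℂ) := by
    obtain ⟨p, hpl, hp⟩ := Nat.exists_infinite_primes (Nat.card Γ + 1)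
    have hn : ∀ a : Γ →* ℂˣ, orderOf a ≠ p := by
      intro a ha
      have h1 : a ^ Nat.card Γ = 1 := by
        ext g
        rw [MonoidHom.pow_apply, ← map_pow, pow_card_eq_one', map_one, MonoidHom.one_apply]
      have h2 : orderOf a ∣ Nat.card Γ := orderOf_dvd_of_pow_eq_one h1
      rw [ha] at h2
      have h3 := Nat.le_of_dvd Nat.card_pos h2
      omega
    obtain ⟨m, hm, hv⟩ := h.ji_coprime hc hg hp hn
    exact ⟨m, Nat.pos_of_ne_zero (fun e => hm (e ▸ dvd_zero p)), hv⟩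
  obtain ⟨hn0, hnv⟩ := Nat.find_spec hex
  have hmin : ∀ m : ℕ, 0 < m → VJ JP (m : Γ → ℂ) → Nat.find hex ≤ m := fun m h1 h2 =>
    Nat.find_min' hex ⟨h1, h2⟩
  generalize Nat.find hex = n at hn0 hnv hmin
  by_cases h1 : n = 1
  · rw [h1, Nat.cast_one] at hnv
    exact hnv
  exfalso
  obtain ⟨p, hp, k, rfl⟩ := Nat.exists_prime_and_dvd h1
  have hk : 0 < k := Nat.pos_of_mul_pos_left hn0
  by_cases ha : ∃ a : Γ →* ℂˣ, orderOf a = p
  · obtain ⟨a, ha⟩ := ha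
    rw [Nat.cast_mul] at hnv
    have h2 := hmin k hk (h.ji_div_prime hg hp a ha ((hR _).1 (natCast_mem R k)) hnv)
    have h3 := hp.two_le
    nlinarith
  · obtain ⟨m, hm, hv⟩ := h.ji_coprime hc hg hp (fun a e => ha ⟨a, e⟩)
    have hmod : m % (p * k) ≠ 0 := fun e =>
      hm ((Dvd.intro k rfl).trans (Nat.dvd_of_mod_eq_zero e))
    have e : ((m % (p * k) : ℕ) : Γ → ℂ) =
        (m : Γ → ℂ) + -(((m / (p * k) : ℕ) : Γ → ℂ) * ((p * k : ℕ) : Γ → ℂ)) := by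
      have h4 := congrArg (fun z : ℕ => (z : Γ → ℂ)) (Nat.mod_add_div m (p * k))
      simp only [Nat.cast_add, Nat.cast_mul] at h4 ⊢
      linear_combination h4
    have h2 : VJ JP ((m % (p * k) : ℕ) : Γ → ℂ) := by
      rw [e]
      exact h.vj_add hv (h.vj_neg (h.vj_mul ((hR _).1 (natCast_mem R _)) hnv))
    have h3 := hmin _ (Nat.pos_of_ne_zero hmod) h2
    have h4 := Nat.mod_lt m hn0
    omega

end Pool.Agent.Izumi
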