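import Pool.Agent.Lib.MP_b2135d_an.JC
import Pool.Agent.Lib.MP_b2135d_an.JE2
import Pool.Agent.Lib.MP_b2135d_an.JF2
import Pool.Agent.Lib.MP_b2135d_an.JI
import Pool.Agent.Lib.MP_b2135d_an.FA

/-! The induced classes form a J-system (PLAN section 9). -/

namespace Pool.Agent.Izumi

open scoped ComplexOrder Matrix
open Filter Topology

variable {G A : Type} [Group G] [CStarAlgebra A] [PartialOrder A] [StarOrderedRing A] [Countable G] {X : Sys G A}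
  {K : Subgroup G} {FF : Type} [Group FF] [Fintype FF] {q : K →* FF}

theorem Sys.jsys (hq : Function.Surjective q) (hN : X.Good (pre q ⊥)) :
    JSys (fun Φ => X.Good (pre q Φ)) (X.JPc q) (X.Eqvc q) := by
  classical
  have tr : ∀ {χ ψ : FF → ℂ}, X.Eqvc q χ ψ → ∀ s s' : URep FF, s.char = χ → s'.char = ψ →
      X.REqv q s s' := by
    rintro χ ψ ⟨r, r', hr, hr', e⟩ s s' hs hs'
    exact ((X.reqv_of_char q (hs.trans hr.symm)).trans e).trans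
      (X.reqv_of_char q (hr'.trans hs'.symm))
  refine
    { jp_char := fun χ ⟨r, hr, _⟩ => ⟨r, hr⟩
      jp_zero := ⟨URep.zero FF, URep.char_zero, X.jp_zero q⟩
      jp_add := ?_
      jp_mul := ?_
      eqv_char := fun χ ψ ⟨r, r', hr, hr', _⟩ => ⟨⟨r, hr⟩, ⟨r', hr'⟩⟩
      eqv_refl := fun χ ⟨r, hr⟩ => ⟨r, r, hr, hr, X.reqv_of_char q rfl⟩
      eqv_symm := fun χ ψ ⟨r, r', hr, hr', e⟩ => ⟨r', r, hr', hr, e.symm⟩
      eqv_add := ?_
      jp_eqv := ?_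
      j3 := fun Φ hΦ => Sys.jp_perm hq Φ hΦ.2.1
      j4 := ?_
      j5 := ?_ }
  · rintro χ ψ ⟨r, rfl, hr⟩ ⟨s, rfl, hs⟩
    exact ⟨r.sum s, URep.char_sum r s, hr.sum hs⟩
  · rintro χ ψ ⟨r, rfl⟩ ⟨s, rfl, hs⟩
    exact ⟨r.tensor s, URep.char_tensor r s, Sys.JP.tensor r hs⟩
  · rintro χ χ' ψ ⟨r, r', rfl, rfl, e⟩ ⟨s, rfl⟩
    exact ⟨r.sum s, r'.sum s, URep.char_sum r s, URep.char_sum r' s, e.sum s⟩
  · rintro χ ψ e ⟨s, hs, hJ⟩
    obtain ⟨r, r', hr, hr', e'⟩ := e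
    exact ⟨r', hr', hJ.of_REqv (tr ⟨r, r', hr, hr', e'⟩ s r' hs hr')⟩
  · intro a χ ha hg e
    obtain ⟨r₀, r, hr₀, hr, e'⟩ := e
    refine ⟨r, hr, Sys.j4 hq a ha hg.2.1 hg.2.2 (tr ⟨r₀, r, hr₀, hr, e'⟩ _ r ?_ hr)⟩
    rw [URep.char_tensor, URep.char_lin, hr]
    rfl
  · rintro χ ψ ⟨r, rfl, hr⟩ ⟨s, rfl, hs⟩ h1
    rw [URep.char_apply_one, URep.char_apply_one, Nat.cast_inj] at h1
    exact ⟨r, s, rfl, rfl, Sys.j5 hq hN.2.1 hr hs h1⟩

theorem Sys.good_of_vj (hq : Function.Surjective q) (hN : X.Good (pre q ⊥))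
    (h : VJ (X.JPc q) 1) : X.Good K := by
  have h' : VJ (X.JPc q) ((URep.zero FF).char - 1) := by
    rw [URep.char_zero, zero_sub]
    exact (Sys.jsys hq hN).vj_neg h
  obtain ⟨P, y, S, hs⟩ := Sys.split_of_vj hq hN _ h'
  have h1 := hs.sum
  have he : IsEmpty (URep.zero FF).n := inferInstanceAs (IsEmpty Empty)
  rw [Finset.univ_eq_empty (α := (URep.zero FF).n), Finset.sum_empty, add_zero] at h1
  exact X.good_finite q hq hN y hs.y_mem hs.y_proj h1 hs.y_act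

theorem Sys.good_noncyc (X : Sys G A) (K : Subgroup G) (FF : Type) [Group FF] [Finite FF]
    (q : K →* FF) (hq : Function.Surjective q) (hc : ¬ IsCyclic FF)
    (hg : ∀ Φ : Subgroup FF, Φ ≠ ⊤ → X.Good (pre q Φ)) : X.Good K := by
  have := Fintype.ofFinite FF
  have hb : (⊥ : Subgroup FF) ≠ ⊤ := by
    intro h
    have : Subsingleton FF := (Subgroup.subsingleton_iff).1 (subsingleton_of_bot_eq_top h)
    exact hc isCyclic_of_subsingleton
  exact Sys.good_of_vj hq (hg ⊥ hb) ((Sys.jsys hq (hg ⊥ hb)).vj_noncyclic hc hg)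

end Pool.Agent.Izumi
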