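import Pool.Agent.Lib.MP_b2135d_an.JA

/-! The Koszul argument (PLAN section 9). -/

namespace Pool.Agent.Izumi

open scoped ComplexOrder Matrix
open Filter Topology

/-- The twist of a representation by a linear character. -/
noncomputable def URep.tw {Γ : Type} [Group Γ] [Finite Γ] (b : Γ →* ℂˣ) (r : URep Γ) : URep Γ where
  n := r.n
  π :=
    { toFun := fun g => (b g : ℂ) • r.π g
      map_one' := by simp
      map_mul' := fun g h => by simp [smul_smul, mul_comm] }
  unit g := by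
    change ((b g : ℂ) • r.π g)ᴴ = (b g⁻¹ : ℂ) • r.π g⁻¹
    rw [Matrix.conjTranspose_smul, r.unit, URep.star_lin]

theorem URep.char_tw {Γ : Type} [Group Γ] [Finite Γ] (b : Γ →* ℂˣ) (r : URep Γ) :
    (r.tw b).char = lch b * r.char := by
  funext g
  exact Matrix.trace_smul (b g : ℂ) (r.π g)

section Aux

variable {A : Type} [CStarAlgebra A] {l m n o : Type}

theorem ka_sc_smul (c : ℂ) (M : Matrix m n ℂ) : sc A (c • M) = c • sc A M := by
  ext i j
  simp [sc, Algebra.smul_def]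

theorem ka_sc_blocks (M : Matrix l m ℂ) (N : Matrix n o ℂ) :
    sc A (Matrix.fromBlocks M 0 0 N) = Matrix.fromBlocks (sc A M) 0 0 (sc A N) := by
  ext (i | i) (j | j) <;> simp [sc]

theorem ka_diag_comm [Fintype m] [Fintype n] [DecidableEq m] [DecidableEq n] {x : A}
    {M : Matrix m n A} (h : ∀ i j, Commute (M i j) x) :
    (Matrix.diagonal (fun _ : m => x) * M : Matrix m n A) =
      (M * Matrix.diagonal (fun _ : n => x) : Matrix m n A) := by
  ext i j
  rw [Matrix.diagonal_mul, Matrix.mul_diagonal, (h i j).eq]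

theorem ka_sc_comm [Fintype m] [Fintype n] [DecidableEq m] [DecidableEq n] (x : A)
    (M : Matrix m n ℂ) :
    (Matrix.diagonal (fun _ : m => x) * sc A M : Matrix m n A) =
      (sc A M * Matrix.diagonal (fun _ : n => x) : Matrix m n A) :=
  ka_diag_comm fun i j => Algebra.commutes (M i j) x

theorem ka_diag_blocks [DecidableEq m] [DecidableEq n] (x : A) :
    Matrix.fromBlocks (Matrix.diagonal fun _ : m => x) 0 0 (Matrix.diagonal fun _ : n => x) =
      Matrix.diagonal fun _ => x := by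
  rw [Matrix.fromBlocks_diagonal]
  exact congrArg Matrix.diagonal (funext fun i => by cases i <;> rfl)

theorem ka_diag_map [DecidableEq n] (θ : A ≃⋆ₐ[ℂ] A) (x : A) :
    (Matrix.diagonal fun _ : n => x).map θ = Matrix.diagonal fun _ => θ x :=
  Matrix.diagonal_map (map_zero θ)

theorem ka_diag_smul [DecidableEq n] (c : ℂ) (x : A) :
    (Matrix.diagonal fun _ : n => c • x) = c • Matrix.diagonal fun _ => x :=
  Matrix.diagonal_smul c fun _ : n => x

theorem ka_diag_star [DecidableEq n] (x : A) :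
    (Matrix.diagonal fun _ : n => x)ᴴ = Matrix.diagonal fun _ => star x :=
  Matrix.diagonal_conjTranspose _

theorem ka_diag_neg [DecidableEq n] (x : A) :
    (Matrix.diagonal fun _ : n => -x) = -Matrix.diagonal fun _ => x :=
  (Matrix.diagonal_neg fun _ : n => x).symm

theorem ka_block [Fintype m] [Fintype n] [DecidableEq m] [DecidableEq n] {v d : A}
    {D : Matrix m n A} (hv : Commute v (star v)) (h1 : ∀ i j, Commute (D i j) v)
    (e1 : Dᴴ * D = Matrix.diagonal fun _ => d)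
    (e2 : D * Dᴴ = Matrix.diagonal fun _ => d) :
    (Matrix.fromBlocks D (Matrix.diagonal fun _ => -star v) (Matrix.diagonal fun _ => v) Dᴴ)ᴴ *
        Matrix.fromBlocks D (Matrix.diagonal fun _ => -star v) (Matrix.diagonal fun _ => v) Dᴴ =
      Matrix.diagonal fun _ => star v * v + d := by
  have h3 : ∀ i j, Commute (Dᴴ i j) (star v) := fun i j => (h1 j i).star_star
  rw [Matrix.fromBlocks_conjTranspose, Matrix.fromBlocks_multiply, ka_diag_star, ka_diag_star,
    Matrix.conjTranspose_conjTranspose, e1, e2, star_neg, star_star, ka_diag_neg, ka_diag_neg,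
    ka_diag_comm h3, Matrix.mul_neg, Matrix.neg_mul, ka_diag_comm h1, neg_add_cancel,
    neg_add_cancel, neg_mul_neg, Matrix.diagonal_mul_diagonal, Matrix.diagonal_mul_diagonal,
    Matrix.diagonal_add, Matrix.diagonal_add, ← ka_diag_blocks]
  simp only [hv.eq, add_comm]

end Aux

variable {G A : Type} [Group G] [CStarAlgebra A] [PartialOrder A] [StarOrderedRing A] [Countable G] {X : Sys G A}
  {K : Subgroup G} {FF : Type} [Group FF] [Fintype FF] {q : K →* FF}

omit [Fintype FF] in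
theorem ka_equiv_star {E O : URep FF} {D : Matrix O.n E.n A} (θ : A ≃⋆ₐ[ℂ] A) (g : FF)
    (h : sc A (O.π g) * D.map θ = D * sc A (E.π g)) :
    sc A (E.π g) * Dᴴ.map θ = Dᴴ * sc A (O.π g) := by
  have h1 := congrArg Matrix.conjTranspose h
  rw [Matrix.conjTranspose_mul, Matrix.conjTranspose_mul, sc_conjTranspose, sc_conjTranspose,
    O.unit, E.unit, ← map_aut_conjTranspose] at h1
  have h2 : sc A (O.π g⁻¹) * sc A (O.π g) = 1 := by
    simpa using O.sc_mul_inv (A := A) g⁻¹
  calc sc A (E.π g) * Dᴴ.map θ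
      = sc A (E.π g) * (Dᴴ.map θ * sc A (O.π g⁻¹)) * sc A (O.π g) := by
        rw [Matrix.mul_assoc, Matrix.mul_assoc, h2, Matrix.mul_one]
    _ = Dᴴ * sc A (O.π g) := by
        rw [h1, ← Matrix.mul_assoc, E.sc_mul_inv, Matrix.one_mul]

omit [Countable G] in
theorem Sys.koszul_step (a : FF →* ℂˣ) {ι : Type} (V : ι → A) (hF : ∀ i, V i ∈ X.F)
    (hc : ∀ i j, Commute (V i) (V j) ∧ Commute (V i) (star (V j)))
    (ha : ∀ (k : K) i, X.γ k (V i) = (a (q k) : ℂ) • V i) (s : Finset ι) :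
    ∃ (E O : URep FF) (D : Matrix O.n E.n A), Ent (X.F ⊓ cent (Set.range V)) D ∧
      (Dᴴ * D = Matrix.diagonal fun _ => ∑ i ∈ s, star (V i) * V i) ∧
      (D * Dᴴ = Matrix.diagonal fun _ => ∑ i ∈ s, star (V i) * V i) ∧
      (∀ k : K, sc A (O.π (q k)) * D.map (X.γ k) = D * sc A (E.π (q k))) ∧
      E.char - O.char = (1 - lch a⁻¹) ^ s.card := by
  classical
  induction s using Finset.induction_on with
  | empty =>
    refine ⟨URep.one FF, URep.zero FF, 0, fun i => i.elim, ?_, ?_, fun k => ?_, ?_⟩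
    · simp
    · simp
    · ext i
      exact i.elim
    · simp [URep.char_one, URep.char_zero]
  | insert i s hi ih =>
    obtain ⟨E, O, D, hD, e1, e2, he, hch⟩ := ih
    have hv : V i ∈ X.F ⊓ cent (Set.range V) :=
      ⟨hF i, mem_cent.2 (by rintro _ ⟨j, rfl⟩; exact hc i j)⟩
    have h1 : ∀ x y, Commute (D x y) (V i) := fun x y => (mem_cent.1 (hD x y).2 _ ⟨i, rfl⟩).1
    have h2 : ∀ x y, Commute (D x y) (star (V i)) := fun x y =>
      (mem_cent.1 (hD x y).2 _ ⟨i, rfl⟩).2
    refine ⟨E.sum (O.tw a⁻¹), O.sum (E.tw a⁻¹), Matrix.fromBlocks D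
      (Matrix.diagonal fun _ => -star (V i)) (Matrix.diagonal fun _ => V i) Dᴴ, ?_, ?_, ?_,
      fun k => ?_, ?_⟩
    · rintro (x | x) (y | y)
      · exact hD x y
      · change Matrix.diagonal (fun _ : O.n => -star (V i)) x y ∈ _
        rw [Matrix.diagonal_apply]
        split_ifs
        exacts [neg_mem (star_mem hv), zero_mem _]
      · change Matrix.diagonal (fun _ : E.n => V i) x y ∈ _
        rw [Matrix.diagonal_apply]
        split_ifs
        exacts [hv, zero_mem _]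
      · exact star_mem (hD y x)
    · rw [Finset.sum_insert hi]
      exact ka_block (hc i i).2 h1 e1 e2
    · rw [Finset.sum_insert hi]
      have h3 := ka_block (v := -V i) (D := Dᴴ) (by simpa using (hc i i).2)
        (fun x y => by simpa using (h2 y x).star_star)
        (by rwa [Matrix.conjTranspose_conjTranspose]) (by rwa [Matrix.conjTranspose_conjTranspose])
      have h4 : (Matrix.fromBlocks D (Matrix.diagonal fun _ : O.n => -star (V i))
          (Matrix.diagonal fun _ : E.n => V i) Dᴴ)ᴴ = Matrix.fromBlocks Dᴴ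
          (Matrix.diagonal fun _ => -star (-V i)) (Matrix.diagonal fun _ => -V i) Dᴴᴴ := by
        rw [Matrix.fromBlocks_conjTranspose, ka_diag_star, ka_diag_star, star_neg, star_star,
          star_neg, neg_neg]
      rw [← h4, Matrix.conjTranspose_conjTranspose, star_neg, neg_mul_neg] at h3
      exact h3
    · have hs : X.γ k (-star (V i)) = ((a (q k))⁻¹ : ℂˣ).1 • (-star (V i)) := by
        rw [map_neg, map_star, ha, star_smul, URep.star_lin, map_inv, smul_neg]
      change sc A (Matrix.fromBlocks (O.π (q k)) 0 0 (((a (q k))⁻¹ : ℂˣ).1 • E.π (q k))) *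
        (Matrix.fromBlocks D (Matrix.diagonal fun _ : O.n => -star (V i))
          (Matrix.diagonal fun _ : E.n => V i) Dᴴ).map (X.γ k) =
        Matrix.fromBlocks D (Matrix.diagonal fun _ : O.n => -star (V i))
          (Matrix.diagonal fun _ : E.n => V i) Dᴴ *
        sc A (Matrix.fromBlocks (E.π (q k)) 0 0 (((a (q k))⁻¹ : ℂˣ).1 • O.π (q k)))
      rw [ka_sc_blocks, ka_sc_blocks, Matrix.fromBlocks_map, Matrix.fromBlocks_multiply,
        Matrix.fromBlocks_multiply, ka_diag_map, ka_diag_map, hs, ha, ka_diag_smul, ka_diag_smul,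
        ka_sc_smul, ka_sc_smul]
      simp only [Matrix.zero_mul, Matrix.mul_zero, add_zero, zero_add, Matrix.mul_smul,
        Matrix.smul_mul, smul_smul, Units.mul_inv, one_smul, smul_zero, he,
        ka_equiv_star _ _ (he k), ka_sc_comm]
    · rw [URep.char_sum, URep.char_sum, URep.char_tw, URep.char_tw, Finset.card_insert_of_notMem hi,
        pow_succ, ← hch]
      ring

theorem Sys.koszul_normalized (a : FF →* ℂˣ) (n : ℕ) (V : Fin n → A) (hF : ∀ i, V i ∈ X.F)
    (hc : ∀ i j, Commute (V i) (V j) ∧ Commute (V i) (star (V j)))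
    (ha : ∀ (k : K) i, X.γ k (V i) = (a (q k) : ℂ) • V i) (h1 : ∑ i, star (V i) * V i = 1) :
    ∃ χ ψ, X.Eqvc q χ ψ ∧ χ - ψ = (1 - lch a⁻¹) ^ n := by
  obtain ⟨E, O, D, hD, e1, e2, he, hch⟩ := Sys.koszul_step a V hF hc ha Finset.univ
  rw [h1, Matrix.diagonal_one] at e1 e2
  rw [Finset.card_univ, Fintype.card_fin] at hch
  exact ⟨_, _, ⟨E, O, rfl, rfl, D, fun i j => (hD i j).1, e1, e2, he⟩, hch⟩

theorem ka_inv_sqrt (S : StarSubalgebra ℂ A) (hS : IsClosed (S : Set A)) {d : A} (hd : d ∈ S)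
    (h1 : (1 / 4 : ℝ) • (1 : A) ≤ d) : ∃ R ∈ S, star R = R ∧ R * d * R = 1 := by
  have h0 : (0 : A) ≤ (1 / 4 : ℝ) • (1 : A) := smul_nonneg (by norm_num) zero_le_one
  have hsa : IsSelfAdjoint d := IsSelfAdjoint.of_nonneg (h0.trans h1)
  have hsp : ∀ x ∈ spectrum ℝ d, (1 / 4 : ℝ) ≤ x := by
    rw [← Algebra.algebraMap_eq_smul_one] at h1
    exact (algebraMap_le_iff_le_spectrum hsa).1 h1
  have hpos : ∀ x ∈ spectrum ℝ d, 0 < x := fun x hx => lt_of_lt_of_le (by norm_num) (hsp x hx)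
  have hf : ContinuousOn (fun x : ℝ => (√x)⁻¹) (spectrum ℝ d) :=
    Real.continuous_sqrt.continuousOn.inv₀ fun x hx => (Real.sqrt_pos.2 (hpos x hx)).ne'
  refine ⟨cfc (fun x : ℝ => (√x)⁻¹) d, cfc_mem (𝕜' := ℂ) _ hd,
    (cfc_predicate (p := IsSelfAdjoint) _ d).star_eq, ?_⟩
  have h2 : cfc (fun x : ℝ => (√x)⁻¹) d * cfc (fun x : ℝ => x) d * cfc (fun x : ℝ => (√x)⁻¹) d =
      cfc (fun _ : ℝ => (1 : ℝ)) d := by
    rw [← cfc_mul _ _ d hf (continuousOn_id' _),
      ← cfc_mul (fun x : ℝ => (√x)⁻¹ * x) _ d (hf.mul (continuousOn_id' _)) hf]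
    refine cfc_congr fun x hx => ?_
    have h3 := Real.mul_self_sqrt (hpos x hx).le
    have h4 := (Real.sqrt_pos.2 (hpos x hx)).ne'
    change (√x)⁻¹ * x * (√x)⁻¹ = 1
    field_simp
    rw [sq, h3]
  rwa [cfc_id' ℝ d hsa, cfc_const_one ℝ d hsa] at h2

theorem Sys.koszul (a : FF →* ℂˣ) (n : ℕ) (V : Fin n → A) (hF : ∀ i, V i ∈ X.F)
    (hc : ∀ i j, Commute (V i) (V j) ∧ Commute (V i) (star (V j)))
    (ha : ∀ (k : K) i, X.γ k (V i) = (a (q k) : ℂ) • V i)
    (h1 : (1 / 4 : ℝ) • (1 : A) ≤ ∑ i, star (V i) * V i) :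
    ∃ χ ψ, X.Eqvc q χ ψ ∧ χ - ψ = (1 - lch a⁻¹) ^ n := by
  have hv : ∀ i, V i ∈ X.F ⊓ cent (Set.range V) := fun i =>
    ⟨hF i, mem_cent.2 (by rintro _ ⟨j, rfl⟩; exact hc i j)⟩
  have hd : ∑ i, star (V i) * V i ∈ (X.F ⊓ cent (Set.range V)) ⊓ Fix X.γ K := by
    refine sum_mem fun i _ => ⟨mul_mem (star_mem (hv i)) (hv i), fun k hk => ?_⟩
    rw [map_mul, map_star, ha ⟨k, hk⟩, star_smul, URep.star_lin, smul_mul_smul_comm, map_inv,
      Units.inv_mul, one_smul]
  obtain ⟨R, ⟨⟨hR1, hR2⟩, hR3⟩, hs, hR⟩ := ka_inv_sqrt _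
    (((isClosed_cent _).inter (isClosed_cent _)).inter (isClosed_Fix X.γ K)) hd h1
  have c1 : ∀ i, Commute R (V i) := fun i => (mem_cent.1 hR2 _ ⟨i, rfl⟩).1
  have c2 : ∀ i, Commute R (star (V i)) := fun i => (mem_cent.1 hR2 _ ⟨i, rfl⟩).2
  refine Sys.koszul_normalized a n (fun i => V i * R) (fun i => mul_mem (hF i) hR1)
    (fun i j => ⟨?_, ?_⟩) (fun k i => ?_) ?_
  · exact ((hc i j).1.mul_right (c1 i).symm).mul_left ((c1 j).mul_right (Commute.refl R))
  · rw [star_mul, hs]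
    exact ((c1 i).symm.mul_right (hc i j).2).mul_left ((Commute.refl R).mul_right (c2 j))
  · rw [map_mul, ha, hR3 k k.2, smul_mul_assoc]
  · rw [← hR, Finset.mul_sum, Finset.sum_mul]
    exact Finset.sum_congr rfl fun i _ => by rw [star_mul, hs]; simp only [mul_assoc]

end Pool.Agent.Izumi
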