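import Pool.Agent.Lib.MP_b2135d_an.GA2
import Pool.Agent.Lib.MP_b2135d_an.GB
import Pool.Agent.Lib.MP_b2135d_an.JS
import Pool.Agent.Lib.MP_b2135d_an.KA
import Pool.Agent.Lib.MP_b2135d_an.HA

/-! The geometric step (PLAN section 10). -/

namespace Pool.Agent.Izumi

open scoped ComplexOrder Matrix
open Filter Topology

variable {G A : Type} [Group G] [CStarAlgebra A] [PartialOrder A] [StarOrderedRing A] [Countable G]

omit [StarOrderedRing A] [Countable G] in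
theorem geo_good_ker {X : Sys G A} {K : Subgroup G} {Γ FF : Type} [Group Γ] [Group FF]
    {f : K →* Γ} {L : Subgroup Γ} (h₂ : ∀ Φ : Subgroup Γ, Φ ⊔ L ≠ ⊤ → X.Good (pre f Φ))
    (π : Γ →* FF) (hπ : Function.Surjective π) (b : FF →* ℂˣ) (hb : b ≠ 1)
    (hL : L ≤ b.ker.comap π) : X.Good (pre (π.comp f) b.ker) := by
  rw [pre_comp]
  refine h₂ _ fun h => hb ?_
  rw [sup_eq_left.2 hL] at h
  ext1 c
  obtain ⟨x, rfl⟩ := hπ c
  have hx : x ∈ b.ker.comap π := h ▸ Subgroup.mem_top x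
  exact hx

omit [StarOrderedRing A] [Countable G] in
theorem geo_good_bot {X : Sys G A} {K : Subgroup G} {Γ : Type} [Group Γ]
    {f : K →* Γ} {L : Subgroup Γ} (hL : L ≠ ⊤)
    (h₂ : ∀ Φ : Subgroup Γ, Φ ⊔ L ≠ ⊤ → X.Good (pre f Φ)) (M : Subgroup Γ) [M.Normal]
    (hM : M ≤ L) : X.Good (pre ((QuotientGroup.mk' M).comp f) ⊥) := by
  rw [pre_comp, MonoidHom.comap_bot, QuotientGroup.ker_mk']
  exact h₂ _ (by rwa [sup_eq_right.2 hM])

theorem geo_mem_map {Γ : Type} [Group Γ] {M Δ : Subgroup Γ} [M.Normal] (h : M ≤ Δ) {x : Γ} :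
    QuotientGroup.mk' M x ∈ Δ.map (QuotientGroup.mk' M) ↔ x ∈ Δ := by
  rw [← Subgroup.mem_comap, Subgroup.comap_map_eq, QuotientGroup.ker_mk', sup_eq_left.2 h]

theorem geo_fixed {Γ : Type} [Group Γ] {M Δ : Subgroup Γ} [M.Normal] (h : M ≤ Δ) (g y : Γ) :
    QuotientGroup.mk' M g • ((QuotientGroup.mk' M y : Γ ⧸ M) :
        (Γ ⧸ M) ⧸ Δ.map (QuotientGroup.mk' M)) = (QuotientGroup.mk' M y : Γ ⧸ M) ↔
      y⁻¹ * g * y ∈ Δ := by
  rw [MulAction.Quotient.smul_coe, smul_eq_mul, eq_comm, QuotientGroup.eq, ← map_mul, ← map_inv,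
    ← map_mul, geo_mem_map h, mul_assoc]

theorem geo_ncard {Γ : Type} [Group Γ] {L M Δ : Subgroup Γ} [M.Normal] (hL : M ≤ L) (h : M ≤ Δ)
    (hu : ∀ g : Γ, Subgroup.zpowers g ⊔ L = ⊤ →
      ∃ x : Γ, x⁻¹ * g * x ∈ Δ ∧ ∀ y : Γ, y⁻¹ * g * y ∈ Δ → x⁻¹ * y ∈ Δ)
    (c : Γ ⧸ M) (hc : Subgroup.zpowers c ⊔ L.map (QuotientGroup.mk' M) = ⊤) :
    Set.ncard {y : (Γ ⧸ M) ⧸ Δ.map (QuotientGroup.mk' M) | c • y = y} = 1 := by
  obtain ⟨g, rfl⟩ := QuotientGroup.mk'_surjective M c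
  have h1 : Subgroup.zpowers g ⊔ L = ⊤ := by
    rw [← MonoidHom.map_zpowers, ← Subgroup.map_sup] at hc
    rw [eq_top_iff]
    intro x _
    exact (geo_mem_map (hL.trans le_sup_right)).1 (hc ▸ Subgroup.mem_top _)
  obtain ⟨x, hx, hy⟩ := hu g h1
  rw [Set.ncard_eq_one]
  refine ⟨(QuotientGroup.mk' M x : Γ ⧸ M), Set.eq_singleton_iff_unique_mem.2
    ⟨(geo_fixed h g x).2 hx, fun z hz => ?_⟩⟩
  obtain ⟨w, rfl⟩ := QuotientGroup.mk_surjective z
  obtain ⟨y, rfl⟩ := QuotientGroup.mk'_surjective M w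
  rw [eq_comm, QuotientGroup.eq, ← map_inv, ← map_mul, geo_mem_map h]
  exact hy y ((geo_fixed h g y).1 hz)

/-- Approximate eigen-elements from one cover. -/
theorem Sys.geo_approx (X : Sys G A) {K : Subgroup G} {Γ : Type} [Group Γ] {f : K →* Γ}
    (hf : Function.Surjective f) {L : Subgroup Γ} [L.Normal] (hL : L ≠ ⊤)
    (hab : ∀ x y : Γ, x * y * x⁻¹ * y⁻¹ ∈ L)
    (h₁ : ∀ Φ : Subgroup Γ, Finite Φ → X.Good (pre f Φ))
    (h₂ : ∀ Φ : Subgroup Γ, Φ ⊔ L ≠ ⊤ → X.Good (pre f Φ)) (a : Γ →* ℂˣ) (ha : L ≤ a.ker) {n : ℕ}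
    {S : Finset Γ} {ε : ℝ} {M Δ : Subgroup Γ} {Φ : Fin n → Subgroup Γ} {ψ : Fin n → Γ → ℝ}
    (hc : GeoCover L n S ε M Δ Φ ψ) :
    ∃ V : Fin n → A, (∀ i, V i ∈ X.F ∧ ‖V i‖ ≤ 1) ∧
      (∀ i j, Commute (V i) (V j) ∧ Commute (V i) (star (V j))) ∧
      (1 / 4 : ℝ) • (1 : A) ≤ ∑ i, star (V i) * V i ∧
        ∀ i (s : K), f s ∈ S → ‖X.γ (s : G) (V i) - (a (f s) : ℂ) • V i‖ ≤ 2 * ε := by
  classical
  have := hc.normal
  have := hc.fin
  let : Fintype (Γ ⧸ M) := Fintype.ofFinite _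
  let : Fintype ((Γ ⧸ M) ⧸ Δ.map (QuotientGroup.mk' M)) := Fintype.ofFinite _
  have hπ := QuotientGroup.mk'_surjective M
  have hq : Function.Surjective ((QuotientGroup.mk' M).comp f) := hπ.comp hf
  have hN := geo_good_bot hL h₂ M hc.le_L
  have : (L.map (QuotientGroup.mk' M)).Normal := Subgroup.Normal.map inferInstance _ hπ
  have hv : VJ (X.JPc ((QuotientGroup.mk' M).comp f))
      ((URep.perm (Γ ⧸ M) ((Γ ⧸ M) ⧸ Δ.map (QuotientGroup.mk' M))).char - 1) := by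
    refine (Sys.jsys hq hN).vj_of_vanish (L.map (QuotientGroup.mk' M)) (fun x y => ?_)
      (fun b hb hLb => geo_good_ker h₂ _ hπ b hb (Subgroup.map_le_iff_le_comap.1 hLb))
      ⟨_, _, ⟨_, rfl⟩, ⟨_, URep.char_one⟩, rfl⟩ fun c hcc => ?_
    · obtain ⟨x, rfl⟩ := hπ x
      obtain ⟨y, rfl⟩ := hπ y
      rw [← map_inv, ← map_inv, ← map_mul, ← map_mul, ← map_mul]
      exact Subgroup.mem_map_of_mem _ (hab x y)
    · rw [Pi.sub_apply, URep.char_perm, geo_ncard hc.le_L hc.le_Δ hc.uniq c hcc]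
      simp
  obtain ⟨P, y, S', hs⟩ := Sys.split_of_vj hq hN _ hv
  exact Sys.build_V hq (Δ.map (QuotientGroup.mk' M)) hs
    (QuotientGroup.lift M a (hc.le_L.trans ha)) (fun i => pre f (Φ i)) (fun i => pre_le f _)
    (fun i => (h₁ _ (hc.Φ_fin i)).2.1) (fun i κ => ψ i (f κ)) {s | f s ∈ S}
    (fun i κ => hc.nonneg i _) (fun i κ => hc.le_one i _)
    (fun i κ φ hφ => by rw [map_mul]; exact hc.inv i _ _ (coe_mem_pre.1 hφ))
    (fun i κ h hh e₁ e₂ => coe_mem_pre.2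
      (hc.disj i _ _ ((geo_mem_map hc.le_Δ).1 hh) e₁ (by rwa [map_mul] at e₂)))
    (fun i κ s hs => by rw [map_mul]; exact hc.slow i _ _ hs)
    (fun κ => by
      obtain ⟨i, h, hh, e⟩ := hc.cover (f κ)
      obtain ⟨h, rfl⟩ := hf h
      exact ⟨i, h, (geo_mem_map hc.le_Δ).2 hh, by rwa [map_mul]⟩)

theorem Sys.good_geo (X : Sys G A) (K : Subgroup G) (Γ : Type) [Group Γ] (f : K →* Γ) (a : ℕ)
    (ι : Multiplicative (Fin a → ℤ) →* Γ) (hf : Function.Surjective f) (hι : GeoCtx ι)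
    (h₁ : ∀ Φ : Subgroup Γ, Finite Φ → X.Good (pre f Φ))
    (h₂ : ∀ Φ : Subgroup Γ, Φ ⊔ ι.range ≠ ⊤ → X.Good (pre f Φ)) : X.Good K := by
  classical
  have := hι.normal
  have := hι.fin
  let : Fintype (Γ ⧸ ι.range) := Fintype.ofFinite _
  have hπ := QuotientGroup.mk'_surjective ι.range
  have hq : Function.Surjective ((QuotientGroup.mk' ι.range).comp f) := hπ.comp hf
  have hN := geo_good_bot hι.ne_top h₂ ι.range le_rfl
  obtain ⟨t, ht⟩ := hι.cyc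
  have hcomm : ∀ x y : Γ ⧸ ι.range, x * y = y * x := by
    have h1 : ∀ x : Γ ⧸ ι.range, ∃ i : ℤ, x = QuotientGroup.mk' ι.range t ^ i := by
      intro x
      obtain ⟨x, rfl⟩ := hπ x
      obtain ⟨i, w, rfl⟩ := hι.exists_eq ht x
      have h2 : QuotientGroup.mk' ι.range (ι w) = 1 := (QuotientGroup.eq_one_iff _).2 ⟨w, rfl⟩
      exact ⟨i, by rw [map_mul, h2, mul_one, map_zpow]⟩
    intro x y
    obtain ⟨i, rfl⟩ := h1 x
    obtain ⟨j, rfl⟩ := h1 y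
    exact zpow_mul_comm _ _ _
  have hab : ∀ x y : Γ, x * y * x⁻¹ * y⁻¹ ∈ ι.range := by
    intro x y
    rw [← QuotientGroup.eq_one_iff, QuotientGroup.mk_mul, QuotientGroup.mk_mul,
      QuotientGroup.mk_mul, hcomm x y, QuotientGroup.mk_inv, QuotientGroup.mk_inv]
    group
  obtain ⟨b, hb⟩ : ∃ b : Γ ⧸ ι.range →* ℂˣ, b ≠ 1 := by
    obtain ⟨x, hx⟩ : ∃ x : Γ, x ∉ ι.range := by
      by_contra h
      exact hι.ne_top (eq_top_iff.2 fun x _ => not_not.1 fun hx => h ⟨x, hx⟩)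
    let : CommGroup (Γ ⧸ ι.range) := { (inferInstance : Group (Γ ⧸ ι.range)) with
      mul_comm := hcomm }
    obtain ⟨b, hb⟩ := CommGroup.exists_apply_ne_one_of_hasEnoughRootsOfUnity (Γ ⧸ ι.range) ℂ
      (a := (x : Γ ⧸ ι.range)) fun h => hx ((QuotientGroup.eq_one_iff _).1 h)
    exact ⟨b, fun h => hb (by rw [h]; rfl)⟩
  have hker : ∀ c : Γ ⧸ ι.range →* ℂˣ, ι.range ≤ c.ker.comap (QuotientGroup.mk' ι.range) := by
    intro c x hx
    have h2 : QuotientGroup.mk' ι.range x = 1 := (QuotientGroup.eq_one_iff _).2 hx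
    rw [Subgroup.mem_comap, h2]
    exact one_mem _
  obtain ⟨n, hn⟩ := hι.cover
  obtain ⟨V, -, ⟨hF, hC, hP, -⟩, hV⟩ := X.sat.approx_eq (ι := Fin n) (κ := Fin n × K) (fun _ => 1)
    (P := fun x => (∀ i, x i ∈ cent X.T0) ∧
      (∀ i j, x i * x j = x j * x i ∧ x i * star (x j) = star (x j) * x i) ∧
      (0 ≤ ∑ i, star (x i) * x i - (1 / 4 : ℝ) • (1 : A) ∧
        ‖∑ i, star (x i) * x i - (1 / 4 : ℝ) • (1 : A)‖ ≤ n + 1))
    ((Defn.forall fun i => Defn.mem_cent X.T0_count (.var i)).and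
      ((Defn.forall fun i => Defn.forall fun j =>
        (Defn.eq ((IsTerm.var i).mul (.var j)) ((IsTerm.var j).mul (.var i))).and
        (Defn.eq ((IsTerm.var i).mul (IsTerm.var j).star)
          ((IsTerm.var j).star.mul (.var i)))).and
      (Defn.nonneg ((IsTerm.sum _ fun i _ => (IsTerm.var i).star.mul (.var i)).sub (.const _)) _)))
    (fun p x => X.γ (p.2 : G) (x p.1) -
      (b ((QuotientGroup.mk' ι.range).comp f p.2) : ℂ) • x p.1)
    (fun p => ((IsTerm.var p.1).act _).sub ((IsTerm.var p.1).smul _))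
    (fun s ε hε => by
      obtain ⟨M, Δ, Φ, ψ, hc⟩ := hn (s.image fun p => f p.2) (ε / 2) (half_pos hε)
      obtain ⟨V, v1, v2, v3, v4⟩ := X.geo_approx hf hι.ne_top hab h₁ h₂
        (b.comp (QuotientGroup.mk' ι.range)) (hker b) hc
      refine ⟨V, fun i => (v1 i).2, ⟨fun i => (v1 i).1, v2, sub_nonneg.2 v3, ?_⟩, fun p hp => ?_⟩
      · have e₁ : ‖∑ i, star (V i) * V i‖ ≤ n := by
          refine (norm_sum_le _ _).trans ?_
          refine (Finset.sum_le_sum (g := fun _ => (1 : ℝ)) fun i _ => ?_).trans (by simp)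
          rw [CStarRing.norm_star_mul_self]
          exact mul_le_one₀ (v1 i).2 (norm_nonneg _) (v1 i).2
        have e₂ : ‖(1 / 4 : ℝ) • (1 : A)‖ ≤ 1 := by
          have e₃ : ‖(1 : A)‖ ≤ 1 := (IsStarProjection.one A).norm_le
          rw [norm_smul, Real.norm_of_nonneg (by norm_num)]
          linarith [norm_nonneg (1 : A)]
        exact (norm_sub_le _ _).trans (add_le_add e₁ e₂)
      · have := v4 p.1 p.2 (Finset.mem_image_of_mem _ hp)
        rwa [mul_div_cancel₀ _ (two_ne_zero' ℝ)] at this)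
  obtain ⟨χ, ψ, he, hχ⟩ := Sys.koszul (X := X) (q := (QuotientGroup.mk' ι.range).comp f) b n V hF
    hC (fun k i => sub_eq_zero.1 (hV (i, k))) (sub_nonneg.1 hP)
  have hb' : b⁻¹ ≠ 1 := fun h => hb (MonoidHom.ext fun c => inv_eq_one.1 (DFunLike.congr_fun h c))
  exact Sys.good_of_vj hq hN ((Sys.jsys hq hN).vj_of_koszul b⁻¹ hb'
    (geo_good_ker h₂ _ hπ _ hb' (hker _)) he hχ)

end Pool.Agent.Izumi
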