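import Pool.Agent.Lib.MP_b2135d_an.HD

/-! Elementary amenable groups, the induction (PLAN section 11). -/

namespace Pool.Agent.Izumi

variable {G : Type} [Group G] {good : Subgroup G → Prop} {A : Type} [Group A]

theorem Sec.of_ker_le_HE {B C D : Type} [Group B] [Group C] [Group D] (h : Sec D A) (ψ : B →* D)
    (p : B →* C) (hp : Function.Surjective p) (hk : ψ.ker ≤ p.ker) : Sec C A := by
  have hs := ψ.rangeRestrict_surjective
  have hk' : ψ.rangeRestrict.ker ≤ p.ker := by rwa [MonoidHom.ker_rangeRestrict]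
  refine (h.of_injective ψ.range.subtype Subtype.val_injective).of_surjective
    (ψ.rangeRestrict.liftOfSurjective hs ⟨p, hk'⟩) fun c => ?_
  obtain ⟨b, rfl⟩ := hp c
  exact ⟨ψ.rangeRestrict b, MonoidHom.liftOfRightInverse_comp_apply _ _ _ _ b⟩

theorem Sec.of_le_HE {Γ : Type} [Group Γ] {B C : Subgroup Γ} (Δ : Subgroup Γ) (h : Sec B A)
    (hle : C ≤ B) : Sec (C.subgroupOf Δ) A := by
  refine h.of_injective
    ((Δ.subtype.comp (C.subgroupOf Δ).subtype).codRestrict B fun x => hle x.2) fun x y hxy => ?_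
  exact Subtype.ext (Subtype.ext (congrArg (Subtype.val : B → Γ) hxy))

theorem QQ.ext (N : Subgroup A) [N.Normal] (h₁ : QQ good N) (h₂ : QQ good (A ⧸ N)) :
    QQ good A := by
  intro Γ _ B hn hf hs
  obtain ⟨B₀, hB₀, s₁, s₂⟩ := hs.split N
  obtain ⟨B₁, hB₁⟩ : ∃ B₁ : Subgroup Γ, B₁ = B₀.map B.subtype := ⟨_, rfl⟩
  have s₃ : Sec B₁ N := by
    rw [hB₁]
    exact s₁.of_surjective (B₀.equivMapOfInjective B.subtype B.subtype_injective).toMonoidHom
      (MulEquiv.surjective _)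
  have hsur := QuotientGroup.mk'_surjective B₁.normalCore
  refine PP.ext (QuotientGroup.mk' B₁.normalCore) ?_ fun Φ hΦ => ?_
  · refine h₂ _ (B.map (QuotientGroup.mk' B₁.normalCore)) (hn.map _ hsur)
      ⟨fun h0 => hf.index_ne_zero (Nat.eq_zero_of_zero_dvd (h0 ▸ B.index_map_dvd hsur))⟩ ?_
    let ψ : B →* ((Γ ⧸ B) → B ⧸ B₀) := MonoidHom.pi fun q =>
      (QuotientGroup.mk' B₀).comp (MulAut.conjNormal q.out⁻¹ : MulAut B).toMonoidHom
    refine (s₂.pi (Γ ⧸ B)).of_ker_le_HE ψ ((QuotientGroup.mk' B₁.normalCore).subgroupMap B)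
      (MonoidHom.subgroupMap_surjective _ _) fun b hb => ?_
    refine Subtype.ext ((QuotientGroup.eq_one_iff _).2 fun g => ?_)
    obtain ⟨c, hc⟩ := QuotientGroup.mk_out_eq_mul B g⁻¹
    have h1 : (MulAut.conjNormal (g⁻¹ : Γ ⧸ B).out⁻¹ : MulAut B) b ∈ B₀ :=
      (QuotientGroup.eq_one_iff _).1 (congrFun hb (g⁻¹ : Γ))
    have h2 := hB₀.conj_mem _ h1 c
    rw [hB₁]
    refine ⟨_, h2, ?_⟩
    change (c : Γ) * ((MulAut.conjNormal (g⁻¹ : Γ ⧸ B).out⁻¹ : MulAut B) b : Γ) * (c : Γ)⁻¹ = _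
    rw [MulAut.conjNormal_apply]
    change (c : Γ) * (((g⁻¹ : Γ) : Γ ⧸ B).out⁻¹ * b * ((g⁻¹ : Γ) : Γ ⧸ B).out⁻¹⁻¹) * (c : Γ)⁻¹ = _
    rw [hc]
    change _ = g * (b : Γ) * g⁻¹
    group
  · refine h₁ _ (B₁.normalCore.subgroupOf _) inferInstance ?_ (s₃.of_le_HE _ B₁.normalCore_le)
    let r : Φ.comap (QuotientGroup.mk' B₁.normalCore) →* Φ :=
      ((QuotientGroup.mk' B₁.normalCore).comp (Subgroup.subtype _)).codRestrict Φ fun x => x.2
    have : r.ker.FiniteIndex := Subgroup.finiteIndex_ker r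
    refine Subgroup.finiteIndex_of_le (H := r.ker) fun x hx => ?_
    exact (QuotientGroup.eq_one_iff (x : Γ)).1 (congrArg Subtype.val hx)

theorem QQ.of_sec_HE {C : Type} [Group C] (h : QQ good A) (hs : Sec C A) : QQ good C :=
  fun Γ _ B hn hf s => h Γ B hn hf (s.trans hs)

theorem QQ.of_elemAmenable (hc : GoodClosure good) (h : ElemAmenable A) : QQ good A := by
  induction h with
  | finite A =>
    rintro Γ _ B hn hf ⟨ι, _, S, p, hp⟩
    have : Finite B := Finite.of_surjective p hp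
    have : Finite Γ := Finite.of_subgroup_quotient B
    exact PP.finite
  | comm A h =>
    rintro Γ _ B hn hf ⟨ι, _, S, p, hp⟩
    refine pp_virt_comm hc B hn hf fun x hx y hy => ?_
    obtain ⟨u, hu⟩ := hp ⟨x, hx⟩
    obtain ⟨v, hv⟩ := hp ⟨y, hy⟩
    have h1 : u * v = v * u := Subtype.ext (funext fun i => h _ _)
    have h2 := congrArg p h1
    rw [map_mul, map_mul, hu, hv] at h2
    exact congrArg Subtype.val h2
  | sub H A f hf _ ih => exact ih.of_sec_HE ((Sec.refl A).of_injective f hf)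
  | quot A H f hf _ ih => exact ih.of_sec_HE ((Sec.refl A).of_surjective f hf)
  | ext A N _ _ ih₁ ih₂ => exact QQ.ext N ih₁ ih₂
  | union A ι H hd hcov _ ih =>
    intro Γ _ B hn hf hs
    refine PP.loc hc fun s => ⟨Subgroup.closure (s : Set Γ), Subgroup.subset_closure, ?_⟩
    have : Group.FG (Subgroup.closure (s : Set Γ)) := Group.closure_finset_fg s
    obtain ⟨i, hi⟩ := (hs.of_le_HE (Subgroup.closure (s : Set Γ)) le_rfl).fg_union H hd hcov
    exact ih i _ (B.subgroupOf _) inferInstance inferInstance hi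

theorem good_top (hc : GoodClosure good) (h : ElemAmenable G)
    (htf : ∀ g : G, IsOfFinOrder g → g = 1) (h0 : good ⊥) : good ⊤ := by
  refine QQ.of_elemAmenable hc h G ⊤ inferInstance inferInstance
    ((Sec.refl G).of_injective _ (⊤ : Subgroup G).subtype_injective) ⊤ (Subgroup.subtype _)
    fun Φ hΦ => ?_
  have : pre (⊤ : Subgroup G).subtype Φ = ⊥ := by
    refine eq_bot_iff.2 fun x hx => ?_
    obtain ⟨_, hx⟩ := mem_pre.1 hx
    exact htf x ((MonoidHom.isOfFinOrder Φ.subtype (isOfFinOrder_of_finite (⟨x, hx⟩ : Φ))))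
  rw [this]
  exact h0

end Pool.Agent.Izumi
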