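import Pool.Agent.Lib.MP_b2135d_an.CB
import Pool.Agent.Lib.MP_b2135d_an.CB2

/-! Gluing along Rokhlin towers (PLAN section 8, Z6). -/

namespace Pool.Agent.Izumi

open scoped ComplexOrder Matrix
open Filter Topology

variable {A : Type} [CStarAlgebra A] [PartialOrder A] [StarOrderedRing A]
  {α : A ≃⋆ₐ[ℂ] A} {C : StarSubalgebra ℂ A} {m : ℕ} {e f : ℕ → A}

theorem zf_eq (m : ℕ) (e f x y : ℕ → A) : rglue m e f x y =
    ∑ i ∈ (Finset.range m).disjSum (Finset.range (m + 1)), Sum.elim x y i * Sum.elim e f i := by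
  rw [Finset.sum_disjSum]; rfl

theorem zf_proj (hr : IsRok α C m e f) :
    ∀ i ∈ (Finset.range m).disjSum (Finset.range (m + 1)), IsStarProjection (Sum.elim e f i) := by
  rintro (i | j) _
  · exact hr.e_proj i
  · exact hr.f_proj j

theorem zf_orth (hr : IsRok α C m e f) :
    ∀ i ∈ (Finset.range m).disjSum (Finset.range (m + 1)),
      ∀ j ∈ (Finset.range m).disjSum (Finset.range (m + 1)), i ≠ j →
        Sum.elim e f i * Sum.elim e f j = 0 :=
  orth_of_sum_le _ _ (zf_proj hr) (by rw [Finset.sum_disjSum]; exact hr.sum.le)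

theorem zf_comm {x y : ℕ → A} (hx : ∀ i < m, Commute (x i) (e i))
    (hy : ∀ j < m + 1, Commute (y j) (f j)) :
    ∀ i ∈ (Finset.range m).disjSum (Finset.range (m + 1)),
      Commute (Sum.elim x y i) (Sum.elim e f i) := by
  rintro (i | j) hi
  · exact hx i (Finset.mem_range.1 (Finset.inl_mem_disjSum.1 hi))
  · exact hy j (Finset.mem_range.1 (Finset.inr_mem_disjSum.1 hi))

theorem rglue_const (hr : IsRok α C m e f) (c : A) :
    rglue m e f (fun _ => c) (fun _ => c) = c := by
  unfold rglue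
  rw [← Finset.mul_sum, ← Finset.mul_sum, ← mul_add, hr.sum, mul_one]

theorem rglue_congr {x x' y y' : ℕ → A} (hx : ∀ i < m, x i = x' i)
    (hy : ∀ j < m + 1, y j = y' j) : rglue m e f x y = rglue m e f x' y' := by
  unfold rglue
  congr 1
  · exact Finset.sum_congr rfl fun i hi => by rw [hx i (Finset.mem_range.1 hi)]
  · exact Finset.sum_congr rfl fun j hj => by rw [hy j (Finset.mem_range.1 hj)]

theorem rglue_add (x x' y y' : ℕ → A) :
    rglue m e f x y + rglue m e f x' y' =
      rglue m e f (fun i => x i + x' i) (fun j => y j + y' j) := by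
  unfold rglue
  simp only [add_mul, Finset.sum_add_distrib]
  abel

theorem rglue_smul (c : ℂ) (x y : ℕ → A) :
    c • rglue m e f x y = rglue m e f (fun i => c • x i) (fun j => c • y j) := by
  unfold rglue
  simp only [smul_add, Finset.smul_sum, smul_mul_assoc]

theorem mul_rglue (c : A) (x y : ℕ → A) :
    c * rglue m e f x y = rglue m e f (fun i => c * x i) (fun j => c * y j) := by
  unfold rglue
  simp only [mul_add, Finset.mul_sum, mul_assoc]

theorem rglue_mul (hr : IsRok α C m e f) (x y : ℕ → A) {x' y' : ℕ → A}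
    (hx : ∀ i < m, Commute (x' i) (e i)) (hy : ∀ j < m + 1, Commute (y' j) (f j)) :
    rglue m e f x y * rglue m e f x' y' =
      rglue m e f (fun i => x i * x' i) (fun j => y j * y' j) := by
  rw [zf_eq, zf_eq, zf_eq, glue_mul _ _ _ _ (zf_proj hr) (zf_orth hr) (zf_comm hx hy)]
  exact Finset.sum_congr rfl fun i _ => by cases i <;> rfl

theorem rglue_star (hr : IsRok α C m e f) {x y : ℕ → A} (hx : ∀ i < m, Commute (x i) (e i))
    (hy : ∀ j < m + 1, Commute (y j) (f j)) :
    star (rglue m e f x y) = rglue m e f (fun i => star (x i)) (fun j => star (y j)) := by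
  rw [zf_eq, zf_eq, glue_star _ _ _ (zf_proj hr) (zf_comm hx hy)]
  exact Finset.sum_congr rfl fun i _ => by cases i <;> rfl

theorem rglue_mem {S : StarSubalgebra ℂ A} (hr : IsRok α C m e f) (hCS : C ≤ S) {x y : ℕ → A}
    (hx : ∀ i < m, x i ∈ S) (hy : ∀ j < m + 1, y j ∈ S) : rglue m e f x y ∈ S := by
  exact add_mem (sum_mem fun i hi => mul_mem (hx i (Finset.mem_range.1 hi)) (hCS (hr.e_mem i)))
    (sum_mem fun j hj => mul_mem (hy j (Finset.mem_range.1 hj)) (hCS (hr.f_mem j)))

theorem glueZ (hr : IsRok α C m e f) (hm : 0 < m) (x x' y y' : ℕ → A) (h0 : x' 0 = y' 0)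
    (hxm : x' m = x' 0) (hym : y' (m + 1) = y' 0) {δ : ℝ} (hδ : 0 ≤ δ)
    (hx : ∀ i < m, ‖α (x i) - x' (i + 1)‖ ≤ δ ∧ Commute (α (x i) - x' (i + 1)) (α (e i)))
    (hy : ∀ j < m + 1, ‖α (y j) - y' (j + 1)‖ ≤ δ ∧ Commute (α (y j) - y' (j + 1)) (α (f j))) :
    ‖α (rglue m e f x y) - rglue m e f x' y'‖ ≤ δ := by
  obtain ⟨k, rfl⟩ : ∃ k, m = k + 1 := ⟨m - 1, by omega⟩
  have hs : ∑ i ∈ Finset.range (k + 1), α (e i) + ∑ j ∈ Finset.range (k + 1 + 1), α (f j) = 1 := by
    rw [← map_sum, ← map_sum, ← map_add, hr.sum, map_one]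
  have he : ∑ i ∈ Finset.range k, α (e i) = ∑ i ∈ Finset.range k, e (i + 1) :=
    Finset.sum_congr rfl fun i hi => hr.e_next i (by have := Finset.mem_range.1 hi; omega)
  have hf : ∑ j ∈ Finset.range (k + 1), α (f j) = ∑ j ∈ Finset.range (k + 1), f (j + 1) :=
    Finset.sum_congr rfl fun j hj => hr.f_next j (Finset.mem_range.1 hj)
  have hend : α (e k) + α (f (k + 1)) = e 0 + f 0 := by
    have h1 := hr.sum
    rw [Finset.sum_range_succ', Finset.sum_range_succ' f] at h1
    rw [Finset.sum_range_succ, Finset.sum_range_succ (fun j => α (f j)), he, hf, ← h1] at hs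
    have : ∑ i ∈ Finset.range k, e (i + 1) + ∑ j ∈ Finset.range (k + 1), f (j + 1) +
        (α (e k) + α (f (k + 1))) = ∑ i ∈ Finset.range k, e (i + 1) +
        ∑ j ∈ Finset.range (k + 1), f (j + 1) + (e 0 + f 0) := by
      calc _ = ∑ i ∈ Finset.range k, e (i + 1) + α (e k) +
            (∑ j ∈ Finset.range (k + 1), f (j + 1) + α (f (k + 1))) := by abel
        _ = _ := by rw [hs]; abel
    exact add_left_cancel this
  have h2 : rglue (k + 1) e f x' y' = rglue (k + 1) (fun i => α (e i)) (fun j => α (f j))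
      (fun i => x' (i + 1)) (fun j => y' (j + 1)) := by
    unfold rglue
    rw [Finset.sum_range_succ', Finset.sum_range_succ' (fun j => y' j * f j),
      Finset.sum_range_succ (fun i => x' (i + 1) * α (e i)),
      Finset.sum_range_succ (fun j => y' (j + 1) * α (f j)), hxm, hym, ← h0]
    have e1 : ∑ i ∈ Finset.range k, x' (i + 1) * α (e i) =
        ∑ i ∈ Finset.range k, x' (i + 1) * e (i + 1) := Finset.sum_congr rfl fun i hi => by
      rw [hr.e_next i (by have := Finset.mem_range.1 hi; omega)]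
    have e2 : ∑ j ∈ Finset.range (k + 1), y' (j + 1) * α (f j) =
        ∑ j ∈ Finset.range (k + 1), y' (j + 1) * f (j + 1) := Finset.sum_congr rfl fun j hj => by
      rw [hr.f_next j (Finset.mem_range.1 hj)]
    rw [e1, e2]
    have e3 : x' 0 * α (e k) + x' 0 * α (f (k + 1)) = x' 0 * e 0 + x' 0 * f 0 := by
      rw [← mul_add, hend, mul_add]
    calc _ = ∑ i ∈ Finset.range k, x' (i + 1) * e (i + 1) +
          ∑ j ∈ Finset.range (k + 1), y' (j + 1) * f (j + 1) + (x' 0 * e 0 + x' 0 * f 0) := by abel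
      _ = _ := by rw [← e3]; abel
  have h3 : α (rglue (k + 1) e f x y) - rglue (k + 1) e f x' y' =
      rglue (k + 1) (fun i => α (e i)) (fun j => α (f j)) (fun i => α (x i) - x' (i + 1))
        (fun j => α (y j) - y' (j + 1)) := by
    rw [h2]
    unfold rglue
    simp only [map_add, map_sum, map_mul, sub_mul, Finset.sum_sub_distrib]
    abel
  have hp : ∀ i ∈ (Finset.range (k + 1)).disjSum (Finset.range (k + 1 + 1)),
      IsStarProjection (Sum.elim (fun i => α (e i)) (fun j => α (f j)) i) := by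
    rintro (i | j) _
    · exact (hr.e_proj i).map α
    · exact (hr.f_proj j).map α
  rw [h3, zf_eq]
  refine glue_norm _ _ _ hp (orth_of_sum_le _ _ hp (by rw [Finset.sum_disjSum]; exact hs.le))
    (zf_comm (fun i hi => (hx i hi).2) (fun j hj => (hy j hj).2)) hδ ?_
  rintro (i | j) hi
  · exact (hx i (Finset.mem_range.1 (Finset.inl_mem_disjSum.1 hi))).1
  · exact (hy j (Finset.mem_range.1 (Finset.inr_mem_disjSum.1 hi))).1

end Pool.Agent.Izumi
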