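import Pool.Agent.Lib.MP_b2135d_an.ZE
import Pool.Agent.Lib.MP_b2135d_an.ZF

/-! Uniqueness passes to extensions by the integers (PLAN section 8, Z8). -/

namespace Pool.Agent.Izumi

open scoped ComplexOrder Matrix
open Filter Topology

variable {G A : Type} [Group G] [CStarAlgebra A] [PartialOrder A] [StarOrderedRing A] [Countable G] {X : Sys G A}
  {H K : Subgroup G} {g : G}

/-- The orbit of a set under a subgroup. -/
def orbZH (γ : G →* (A ≃⋆ₐ[ℂ] A)) (K : Subgroup G) (T : Set A) : Set A :=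
  {x | ∃ k ∈ K, ∃ t ∈ T, x = γ k t}

omit [PartialOrder A] [StarOrderedRing A] in
theorem orbZH_countable (γ : G →* (A ≃⋆ₐ[ℂ] A)) (K : Subgroup G) {T : Set A}
    (hT : T.Countable) : (orbZH γ K T).Countable :=
  (countable_orb γ hT).mono (by
    rintro _ ⟨k, _, t, ht, e⟩
    exact ⟨k, t, ht, e⟩)

omit [PartialOrder A] [StarOrderedRing A] [Countable G] in
theorem subset_orbZH (γ : G →* (A ≃⋆ₐ[ℂ] A)) (K : Subgroup G) (T : Set A) : T ⊆ orbZH γ K T :=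
  fun t ht => ⟨1, K.one_mem, t, ht, (act_one γ t).symm⟩

omit [PartialOrder A] [StarOrderedRing A] [Countable G] in
theorem act_cent_orbZH (γ : G →* (A ≃⋆ₐ[ℂ] A)) {T : Set A} {k : G} (hk : k ∈ K) {x : A}
    (hx : x ∈ cent (orbZH γ K T)) : γ k x ∈ cent (orbZH γ K T) := by
  refine act_mem_cent γ k ?_ hx
  rintro _ ⟨l, hl, t, ht, rfl⟩
  exact ⟨k⁻¹ * l, K.mul_mem (K.inv_mem hk) hl, t, ht, act_act γ _ _ t⟩

omit [PartialOrder A] [StarOrderedRing A] [Countable G] in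
theorem eqv_surjZH {γ : G →* (A ≃⋆ₐ[ℂ] A)} {E : Type} [CStarAlgebra E]
    {ρ : K →* (E ≃⋆ₐ[ℂ] E)} {φ : E →⋆ₐ[ℂ] A} (e : ∀ (h : K) x, φ (ρ h x) = γ h (φ x)) {k : G}
    (hk : k ∈ K) (x : E) : φ x = γ k (φ (ρ (⟨k, hk⟩ : K)⁻¹ x)) := by
  have h := e ⟨k, hk⟩ (ρ (⟨k, hk⟩ : K)⁻¹ x)
  rw [act_act_inv] at h
  exact h

omit [PartialOrder A] [StarOrderedRing A] [Countable G] in
theorem mem_cent_orbZH {γ : G →* (A ≃⋆ₐ[ℂ] A)} {E : Type} [CStarAlgebra E]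
    {ρ : K →* (E ≃⋆ₐ[ℂ] E)} {φ : E →⋆ₐ[ℂ] A} (e : ∀ (h : K) x, φ (ρ h x) = γ h (φ x))
    {T : Set A} (h : ∀ x, φ x ∈ cent T) (x : E) : φ x ∈ cent (orbZH γ K T) := by
  rw [mem_cent]
  rintro _ ⟨k, hk, t, ht, rfl⟩
  obtain ⟨h1, h2⟩ := mem_cent.1 (h (ρ (⟨k, hk⟩ : K)⁻¹ x)) t ht
  rw [eqv_surjZH e hk x, ← map_star]
  exact ⟨h1.map (γ k), h2.map (γ k)⟩

omit [PartialOrder A] [StarOrderedRing A] [Countable G] in
theorem act_conjZH {γ : G →* (A ≃⋆ₐ[ℂ] A)} {E : Type} [CStarAlgebra E]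
    {ρ : K →* (E ≃⋆ₐ[ℂ] E)} {φ₁ φ₂ : E →⋆ₐ[ℂ] A} (e₁ : ∀ (h : K) x, φ₁ (ρ h x) = γ h (φ₁ x))
    (e₂ : ∀ (h : K) x, φ₂ (ρ h x) = γ h (φ₂ x)) {k : G} (hk : k ∈ K) {u : A}
    (hu : ∀ x, u * φ₁ x = φ₂ x * u) (x : E) : γ k u * φ₁ x = φ₂ x * γ k u := by
  rw [eqv_surjZH e₁ hk x, eqv_surjZH e₂ hk x, ← map_mul, ← map_mul, hu]

omit [PartialOrder A] [StarOrderedRing A] [Countable G] in
theorem act_unitaryZH (γ : G →* (A ≃⋆ₐ[ℂ] A)) (k : G) {u : A} (hu : u ∈ unitary A) :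
    γ k u ∈ unitary A := by
  rw [Unitary.mem_iff] at hu ⊢
  rw [← map_star, ← map_mul, ← map_mul, hu.1, hu.2, map_one]
  exact ⟨rfl, rfl⟩

theorem Sys.loopZH (hz : ZCtx H K g) (hH : X.Good H) (E : Type) [CStarAlgebra E] (hE : IsUHF E)
    (ρ : K →* (E ≃⋆ₐ[ℂ] E)) {T : Set A} (hT : T.Countable) (φ₁ φ₂ : E →⋆ₐ[ℂ] A)
    (h₁ : ∀ x, φ₁ x ∈ cent T) (e₁ : ∀ (h : K) x, φ₁ (ρ h x) = X.γ h (φ₁ x))
    (e₂ : ∀ (h : K) x, φ₂ (ρ h x) = X.γ h (φ₂ x)) {u : A} (hu : ∀ x, u * φ₁ x = φ₂ x * u)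
    (hc : Chn (UIn (Fix X.γ H ⊓ cent (orbZH X.γ K T))) 24 1 u) {M : ℕ} (hM : 0 < M) :
    ∃ a : ℕ → A, a 0 = u ∧ a M = u ∧ ∀ i, UIn (Fix X.γ H ⊓ cent (orbZH X.γ K T)) (a i) ∧
      (∀ x, a i * φ₁ x = φ₂ x * a i) ∧ ‖X.γ g (a i) - a (i + 1)‖ ≤ 48 / (M : ℝ) := by
  have hC : ∀ k ∈ K, ∀ z ∈ Fix X.γ H ⊓ cent (orbZH X.γ K T),
      X.γ k z ∈ Fix X.γ H ⊓ cent (orbZH X.γ K T) :=
    fun k hk z h => ⟨hz.act_mem_Fix X.γ hk h.1, act_cent_orbZH X.γ hk h.2⟩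
  have hp : ∀ i : ℕ, g ^ i ∈ K := fun i => K.pow_mem hz.mem i
  have huu := hc.right
  have hu1 := (Unitary.mem_iff.1 huu.1).1
  have hu2 := (Unitary.mem_iff.1 huu.1).2
  have c1 := hc.star.mul (hc.map_aut (X.γ (g ^ M)⁻¹) (hC _ (K.inv_mem (hp M))))
  have hs : ∀ x, star u * φ₂ x = φ₁ x * star u := by
    intro x
    calc star u * φ₂ x = star u * φ₂ x * (u * star u) := by rw [hu2, mul_one]
      _ = star u * (φ₂ x * u) * star u := by simp only [mul_assoc]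
      _ = star u * u * φ₁ x * star u := by rw [← hu]; simp only [mul_assoc]
      _ = _ := by rw [hu1, one_mul]
  have c2 := Sys.move_chn hH.2.1 hH.2.2 E hE (ρ.comp (Subgroup.inclusion hz.le))
    (orbZH_countable X.γ K hT) φ₁ (mem_cent_orbZH e₁ h₁) (fun h x => e₁ ⟨h, hz.le h.2⟩ x)
    (fun x => by
      have h3 := act_conjZH e₁ e₂ (K.inv_mem (hp M)) hu x
      change _ * _ = _ * _
      rw [mul_assoc, h3, ← mul_assoc, hs, mul_assoc]) c1
  obtain ⟨z, z0, zM, hzz, hst⟩ := c2 M hM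
  refine ⟨fun i => X.γ (g ^ i) (u * z i), ?_, ?_, fun i => ⟨⟨?_, ?_⟩, ?_, ?_⟩⟩
  · simp only [pow_zero, z0, mul_one, act_one]
  · simp only [zM]
    rw [← mul_assoc, hu2, one_mul, act_act_inv]
  · exact act_unitaryZH _ _ (mul_mem huu.1 (hzz i).1.1)
  · exact hC _ (hp i) _ (mul_mem huu.2 (hzz i).1.2)
  · refine act_conjZH e₁ e₂ (hp i) (fun x => ?_)
    rw [mul_assoc, ((hzz i).2 x).eq, ← mul_assoc, hu, mul_assoc]
  · simp only []
    rw [act_act, ← pow_succ', ← map_sub, norm_act, ← mul_sub,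
      CStarRing.norm_mem_unitary_mul _ huu.1, norm_sub_rev]
    have h4 := hst i
    norm_num at h4 ⊢
    exact h4

theorem Sys.uni_Z (hz : ZCtx H K g) (hH : X.Good H) : X.Uni K := by
  intro E _ hE ρ T hT φ₁ φ₂ h₁ h₂ e₁ e₂
  have := hE.separable
  have hT' := orbZH_countable X.γ K hT
  obtain ⟨u, hu, hc⟩ := Sys.uni_chn hH.2.1 hH.2.2 E hE (ρ.comp (Subgroup.inclusion hz.le)) hT'
    φ₁ φ₂ (mem_cent_orbZH e₁ h₁) (mem_cent_orbZH e₂ h₂) (fun h x => e₁ ⟨h, hz.le h.2⟩ x)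
    (fun h x => e₂ ⟨h, hz.le h.2⟩ x)
  have hu' : ∀ x, u * φ₁ x = φ₂ x * u := by
    intro x
    rw [← hu, mul_assoc, (Unitary.mem_iff.1 hc.right.1).1, mul_one]
  obtain ⟨T₁, hT₁, ht₁⟩ := X.exists_test_set φ₁ (hom_continuous φ₁)
  obtain ⟨U, hU, hUT, hUf, hUc⟩ := X.toSat.sat_uni (κ := Option H)
    (fun k => k.elim g (fun h => (h : G))) hT φ₁ φ₂ (hom_continuous φ₁) (hom_continuous φ₂)
    (fun s sk ε hε => by
      obtain ⟨m, hm⟩ := exists_nat_gt (48 / ε)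
      have hm0 : (0 : ℝ) < m := lt_trans (by positivity) hm
      have hm1 : 0 < m := by exact_mod_cast hm0
      have hε' : 48 / (m : ℝ) ≤ ε := by
        rw [div_lt_iff₀ hε] at hm
        rw [div_le_iff₀ hm0]
        linarith
      obtain ⟨a, a0, aM, ha⟩ := Sys.loopZH hz hH E hE ρ hT φ₁ φ₂ h₁ e₁ e₂ hu' hc hm1
      obtain ⟨b, b0, bM, hb⟩ := Sys.loopZH hz hH E hE ρ hT φ₁ φ₂ h₁ e₁ e₂ hu' hc (Nat.succ_pos m)
      obtain ⟨e, f, hr⟩ := Sys.rokZ hz hH hm1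
        (((hT.union hT₁).union (Set.countable_range a)).union (Set.countable_range b))
      set S := T ∪ T₁ ∪ Set.range a ∪ Set.range b with hS
      have sa : ∀ i, a i ∈ S := fun i => Or.inl (Or.inr ⟨i, rfl⟩)
      have sb : ∀ i, b i ∈ S := fun i => Or.inr ⟨i, rfl⟩
      have c1 : ∀ p ∈ X.FT S ⊓ Fix X.γ H, ∀ t ∈ S, Commute t p ∧ Commute (star t) p := by
        intro p hp t ht
        obtain ⟨h3, h4⟩ := mem_cent.1 (X.FT_le_cent S hp.1) t ht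
        exact ⟨h3.symm, h4.symm⟩
      have c2 : ∀ p ∈ X.FT S ⊓ Fix X.γ H, ∀ x, Commute (φ₁ x) p := by
        intro p hp x
        have h3 := ht₁ p (X.FT_anti (fun t ht => Or.inl (Or.inl (Or.inr ht))) hp.1) 1 1 x
        rw [act_one, act_one] at h3
        exact h3.symm
      have c3 : ∀ p ∈ X.FT S ⊓ Fix X.γ H, ∀ t ∈ S, ∀ t' ∈ S,
          Commute (X.γ g t - t') (X.γ g p) := by
        intro p hp t ht t' ht'
        have h3 := X.commute_of_FT hp.1 ht' g 1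
        rw [act_one] at h3
        exact (X.commute_of_FT hp.1 ht g g).symm.sub_left h3.symm
      have hst := rglue_star hr (x := a) (y := b) (fun i _ => (c1 _ (hr.e_mem i) _ (sa i)).1)
        (fun j _ => (c1 _ (hr.f_mem j) _ (sb j)).1)
      have u1 : star (rglue m e f a b) * rglue m e f a b = 1 := by
        rw [hst, rglue_mul hr _ _ (fun i _ => (c1 _ (hr.e_mem i) _ (sa i)).1)
          (fun j _ => (c1 _ (hr.f_mem j) _ (sb j)).1), ← rglue_const hr 1]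
        exact rglue_congr (fun i _ => (Unitary.mem_iff.1 (ha i).1.1).1)
          (fun j _ => (Unitary.mem_iff.1 (hb j).1.1).1)
      have u2 : rglue m e f a b * star (rglue m e f a b) = 1 := by
        rw [hst, rglue_mul hr _ _ (fun i _ => (c1 _ (hr.e_mem i) _ (sa i)).2)
          (fun j _ => (c1 _ (hr.f_mem j) _ (sb j)).2), ← rglue_const hr 1]
        exact rglue_congr (fun i _ => (Unitary.mem_iff.1 (ha i).1.1).2)
          (fun j _ => (Unitary.mem_iff.1 (hb j).1.1).2)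
      have hmem : rglue m e f a b ∈ Fix X.γ H ⊓ cent T := by
        refine rglue_mem (S := Fix X.γ H ⊓ cent T) hr (fun p hp => ⟨hp.2, ?_⟩)
          (fun i _ => ⟨(ha i).1.2.1, cent_anti (subset_orbZH X.γ K T) (ha i).1.2.2⟩)
          (fun j _ => ⟨(hb j).1.2.1, cent_anti (subset_orbZH X.γ K T) (hb j).1.2.2⟩)
        exact cent_anti (fun t ht => Or.inl (Or.inl (Or.inl ht))) (X.FT_le_cent S hp.1)
      refine ⟨rglue m e f a b, Unitary.mem_iff.2 ⟨u1, u2⟩, hmem.2, fun k _ => ?_, fun x _ => ?_⟩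
      · cases k with
        | none =>
          refine le_trans (glueZ hr hm1 a a b b (a0.trans b0.symm) (aM.trans a0.symm)
            (bM.trans b0.symm) (δ := 48 / (m : ℝ)) (by positivity)
            (fun i _ => ⟨(ha i).2.2, c3 _ (hr.e_mem i) _ (sa i) _ (sa _)⟩)
            (fun j _ => ⟨(hb j).2.2.trans ?_, c3 _ (hr.f_mem j) _ (sb j) _ (sb _)⟩)) hε'
          exact div_le_div_of_nonneg_left (by norm_num) hm0 (by exact_mod_cast Nat.le_succ m)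
        | some h =>
          have h3 : X.γ h (rglue m e f a b) = rglue m e f a b := hmem.1 h h.2
          simp only [Option.elim, h3, sub_self, norm_zero, hε.le]
      · have h3 : rglue m e f a b * φ₁ x = φ₂ x * rglue m e f a b := by
          rw [mul_rglue]
          conv_lhs => rw [← rglue_const hr (φ₁ x)]
          rw [rglue_mul hr _ _ (fun i _ => c2 _ (hr.e_mem i) x) (fun j _ => c2 _ (hr.f_mem j) x)]
          exact rglue_congr (fun i _ => (ha i).2.1 x) (fun j _ => (hb j).2.1 x)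
        rw [h3, mul_assoc, u2, mul_one, sub_self, norm_zero]
        exact hε.le)
  exact ⟨U, hU, hz.mem_Fix_of (fun h hh => hUf (some ⟨h, hh⟩)) (hUf none), hUT, hUc⟩

end Pool.Agent.Izumi
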