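import Pool.Agent.Lib.MP_b2135d_an.ZG
import Pool.Agent.Lib.MP_b2135d_an.ZH
import Pool.Agent.Lib.MP_b2135d_an.CE

/-! Comparison passes to extensions by the integers (PLAN section 8, Z9). -/

namespace Pool.Agent.Izumi

open scoped ComplexOrder Matrix
open Filter Topology

variable {G A : Type} [Group G] [CStarAlgebra A] [PartialOrder A] [StarOrderedRing A] [Countable G] {X : Sys G A}
  {H K : Subgroup G} {g : G}

/-- A closed chain of isometries: each is moved by `g` close to the next one. -/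
theorem Sys.cmp3_loop (hz : ZCtx H K g) (hH : X.Good H) {p a s₀ : A} (hpK : p ∈ X.FH K)
    (haK : a ∈ X.FH K) (hp : IsStarProjection p) (ha0 : 0 ≤ a) (ha1 : a ≤ 1)
    (hδ : ∃ δ : ℝ, 0 < δ ∧ ∀ m : ℕ, 3 * (X.τ p).re + δ ≤ (X.τ (a ^ m)).re)
    (h₀ : s₀ ∈ X.FH H) (h₁ : star s₀ * s₀ = p) (h₂ : a * s₀ = s₀) {m : ℕ} (hm : 0 < m) :
    ∃ σ : ℕ → A, X.γ (g ^ 0) (σ 0) = s₀ ∧ X.γ (g ^ m) (σ m) = s₀ ∧
      (∀ i, X.γ (g ^ i) (σ i) ∈ X.FH H ∧ star (X.γ (g ^ i) (σ i)) * X.γ (g ^ i) (σ i) = p ∧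
        a * X.γ (g ^ i) (σ i) = X.γ (g ^ i) (σ i)) ∧
      ∀ i, ‖X.γ g (X.γ (g ^ i) (σ i)) - X.γ (g ^ (i + 1)) (σ (i + 1))‖ ≤ 4 / (m : ℝ) := by
  have hpH : p ∈ X.FH H := ⟨hpK.1, Fix_anti X.γ hz.le hpK.2⟩
  have haH : a ∈ X.FH H := ⟨haK.1, Fix_anti X.γ hz.le haK.2⟩
  have key : ∀ k ∈ K, ∀ s : A, s ∈ X.FH H → star s * s = p → a * s = s →
      X.γ k s ∈ X.FH H ∧ star (X.γ k s) * X.γ k s = p ∧ a * X.γ k s = X.γ k s := by
    intro k hk s hs h1 h2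
    refine ⟨hz.act_mem_FH hk hs, ?_, ?_⟩
    · rw [← map_star, ← map_mul, h1]
      exact hpK.2 k hk
    · have h3 : X.γ k a = a := haK.2 k hk
      conv_lhs => rw [← h3]
      rw [← map_mul, h2]
  have hk : (g ^ m)⁻¹ ∈ K := K.inv_mem (K.pow_mem hz.mem m)
  obtain ⟨k1, k2, k3⟩ := key _ hk s₀ h₀ h₁ h₂
  obtain ⟨σ, e0, em, hσ, hn⟩ := chn_iso X.tr hH.1 hpH haH h₀ k1 hp ha0 ha1 h₁ k2 h₂ k3 hδ m hm
  refine ⟨σ, ?_, ?_, fun i => key _ (K.pow_mem hz.mem i) _ (hσ i).1 (hσ i).2.1 (hσ i).2.2,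
    fun i => ?_⟩
  · rw [pow_zero, act_one, e0]
  · rw [em, act_act_inv]
  · rw [act_act, ← pow_succ', ← map_sub, norm_act, norm_sub_rev]
    exact hn i

theorem Sys.cmp3_approx (hz : ZCtx H K g) (hH : X.Good H) {p a : A} (hpK : p ∈ X.FH K)
    (haK : a ∈ X.FH K) (hp : IsStarProjection p) (ha0 : 0 ≤ a) (ha1 : a ≤ 1)
    (hδ : ∃ δ : ℝ, 0 < δ ∧ ∀ m : ℕ, 3 * (X.τ p).re + δ ≤ (X.τ (a ^ m)).re) {ε : ℝ} (hε : 0 < ε) :
    ∃ s ∈ X.FH H, star s * s = p ∧ a * s = s ∧ ‖X.γ g s - s‖ ≤ ε := by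
  have hpH : p ∈ X.FH H := ⟨hpK.1, Fix_anti X.γ hz.le hpK.2⟩
  have haH : a ∈ X.FH H := ⟨haK.1, Fix_anti X.γ hz.le haK.2⟩
  obtain ⟨s₀, h₀, h₁, h₂⟩ := hH.1 p a hpH haH hp ha0 ha1 (by
    obtain ⟨δ, hδ0, hδ⟩ := hδ
    refine ⟨δ, hδ0, fun m => le_trans ?_ (hδ m)⟩
    have := tr_re_nonneg X.τ hp.nonneg
    linarith)
  obtain ⟨m, hm⟩ := exists_nat_gt (4 / ε)
  have hm' : (0 : ℝ) < m := lt_trans (by positivity) hm
  have hm0 : 0 < m := by exact_mod_cast hm'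
  have hε1 : 4 / (m : ℝ) ≤ ε := by
    rw [div_le_iff₀ hm']
    rw [div_lt_iff₀ hε] at hm
    linarith
  have hε2 : 4 / ((m + 1 : ℕ) : ℝ) ≤ ε := by
    refine le_trans ?_ hε1
    push_cast
    gcongr
    linarith
  obtain ⟨σ, a0, am, hσ, hn⟩ := X.cmp3_loop hz hH hpK haK hp ha0 ha1 hδ h₀ h₁ h₂ hm0
  obtain ⟨σ', b0, bm, hσ', hn'⟩ :=
    X.cmp3_loop hz hH hpK haK hp ha0 ha1 hδ h₀ h₁ h₂ (Nat.succ_pos m)
  have hT : (Set.range σ ∪ Set.range σ').Countable :=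
    (Set.countable_range σ).union (Set.countable_range σ')
  obtain ⟨e, f, hr⟩ := Sys.rokZ hz hH hm0 hT
  have cm : ∀ r ∈ X.FT (Set.range σ ∪ Set.range σ') ⊓ Fix X.γ H,
      ∀ t ∈ Set.range σ ∪ Set.range σ', ∀ k l : G, Commute (X.γ k t) (X.γ l r) :=
    fun r hr t ht k l => (X.commute_of_FT hr.1 ht l k).symm
  have cm1 : ∀ r ∈ X.FT (Set.range σ ∪ Set.range σ') ⊓ Fix X.γ H,
      ∀ t ∈ Set.range σ ∪ Set.range σ', ∀ k : G, Commute (X.γ k t) r := fun r hr t ht k => by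
    have := cm r hr t ht k 1
    rwa [act_one] at this
  have m1 : ∀ i, σ i ∈ Set.range σ ∪ Set.range σ' := fun i => Or.inl ⟨i, rfl⟩
  have m2 : ∀ i, σ' i ∈ Set.range σ ∪ Set.range σ' := fun i => Or.inr ⟨i, rfl⟩
  have cx : ∀ i < m, Commute (X.γ (g ^ i) (σ i)) (e i) :=
    fun i _ => cm1 _ (hr.e_mem i) _ (m1 i) _
  have cy : ∀ j < m + 1, Commute (X.γ (g ^ j) (σ' j)) (f j) :=
    fun j _ => cm1 _ (hr.f_mem j) _ (m2 j) _
  refine ⟨rglue m e f (fun i => X.γ (g ^ i) (σ i)) (fun j => X.γ (g ^ j) (σ' j)), ?_, ?_, ?_, ?_⟩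
  · exact rglue_mem hr (inf_le_inf_right _ (X.FT_le_F _)) (fun i _ => (hσ i).1)
      (fun j _ => (hσ' j).1)
  · rw [rglue_star hr cx cy, rglue_mul hr _ _ cx cy]
    refine Eq.trans (rglue_congr (fun i _ => (hσ i).2.1) (fun j _ => (hσ' j).2.1)) ?_
    exact rglue_const hr p
  · rw [mul_rglue]
    exact rglue_congr (fun i _ => (hσ i).2.2) (fun j _ => (hσ' j).2.2)
  · refine glueZ hr hm0 _ _ _ _ (a0.trans b0.symm) (am.trans a0.symm) (bm.trans b0.symm) hε.le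
      (fun i _ => ⟨(hn i).trans hε1, ?_⟩) (fun j _ => ⟨(hn' j).trans hε2, ?_⟩)
    · rw [act_act]
      exact (cm _ (hr.e_mem i) _ (m1 i) _ _).sub_left (cm _ (hr.e_mem i) _ (m1 (i + 1)) _ _)
    · rw [act_act]
      exact (cm _ (hr.f_mem j) _ (m2 j) _ _).sub_left (cm _ (hr.f_mem j) _ (m2 (j + 1)) _ _)

theorem Sys.cmp3_Z (hz : ZCtx H K g) (hH : X.Good H) : CmpIn X.τ (X.FH K) 3 := by
  intro p a hpK haK hp ha0 ha1 hδ
  obtain ⟨s, hs, h1, h2, h3⟩ := X.toSat.sat_cmp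
    (fun k : Option H => k.elim g (fun h => (h : G))) X.T0_count p a (by
      intro sk sT ε hsT hε
      obtain ⟨s, hs, h1, h2, h3⟩ := X.cmp3_approx hz hH hpK haK hp ha0 ha1 hδ hε
      refine ⟨s, ?_, ?_, ?_, ?_⟩
      · rw [h1, sub_self, norm_zero]; exact hε.le
      · rw [h2, sub_self, norm_zero]; exact hε.le
      · intro k _
        cases k with
        | none => exact h3
        | some h =>
          have h4 : X.γ (h : G) s = s := hs.2 h h.2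
          change ‖X.γ (h : G) s - s‖ ≤ ε
          rw [h4, sub_self, norm_zero]; exact hε.le
      · intro t ht
        obtain ⟨c1, c2⟩ := mem_cent.1 hs.1 t (hsT ht)
        rw [c1.eq, c2.eq, sub_self, sub_self, norm_zero]
        exact ⟨hε.le, hε.le⟩)
  exact ⟨s, ⟨hs, hz.mem_Fix_of (fun h hh => h3 (some ⟨h, hh⟩)) (h3 none)⟩, h1, h2⟩

theorem Sys.good_Z (hz : ZCtx H K g) (hH : X.Good H) : X.Good K := by
  refine ⟨boost X.tr (Sys.cmp3_Z hz hH) fun p _ n hn => ?_, Sys.emb_Z hz hH, Sys.uni_Z hz hH⟩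
  have : Nonempty (Fin n) := ⟨⟨0, hn⟩⟩
  obtain ⟨e, he, hm⟩ := (Sys.emb_Z hz hH).divT (Fin n) (Set.countable_singleton p)
  exact ⟨e, he, fun i j => ⟨⟨X.FT_le_F _ (hm i j).1, (hm i j).2⟩,
    (mem_cent.1 (X.FT_le_cent _ (hm i j).1) p rfl).1.symm⟩⟩

theorem Sys.good_zstep (X : Sys G A) (K : Subgroup G) (θ : K →* Multiplicative ℤ)
    (h : X.Good (pre θ ⊥)) : X.Good K := by
  obtain ⟨c, hc⟩ := IsCyclic.exists_generator (α := θ.range)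
  obtain ⟨c, k₀, rfl⟩ := c
  have gen : ∀ k : K, ∃ n : ℤ, θ k₀ ^ n = θ k := fun k => by
    obtain ⟨n, hn⟩ := hc ⟨θ k, k, rfl⟩
    exact ⟨n, congrArg Subtype.val hn⟩
  by_cases h1 : θ k₀ = 1
  · have e : pre θ ⊥ = K := by
      refine le_antisymm (pre_le θ ⊥) fun x hx => mem_pre.2 ⟨hx, ?_⟩
      obtain ⟨n, hn⟩ := gen ⟨x, hx⟩
      rw [← hn, h1, one_zpow]
      exact Subgroup.one_mem _
    rw [e] at h
    exact h
  · refine Sys.good_Z (g := (k₀ : G)) ⟨pre_le θ ⊥, k₀.2, ?_, ?_, ?_⟩ h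
    · intro k hk x hx
      obtain ⟨hx, h2⟩ := mem_pre.1 hx
      have h3 : θ (⟨k, hk⟩ * ⟨x, hx⟩ * ⟨k, hk⟩⁻¹) ∈ (⊥ : Subgroup (Multiplicative ℤ)) := by
        rw [Subgroup.mem_bot] at h2 ⊢
        rw [map_mul, map_mul, map_inv, h2, mul_one, mul_inv_cancel]
      exact coe_mem_pre.2 h3
    · intro k hk
      obtain ⟨n, hn⟩ := gen ⟨k, hk⟩
      have h3 : θ ((k₀ ^ n)⁻¹ * ⟨k, hk⟩) ∈ (⊥ : Subgroup (Multiplicative ℤ)) := by
        rw [Subgroup.mem_bot, map_mul, map_inv, map_zpow, hn, inv_mul_cancel]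
      refine ⟨n, _, coe_mem_pre.2 h3, ?_⟩
      simp
    · intro n hn
      have h3 : θ (k₀ ^ n) ∈ (⊥ : Subgroup (Multiplicative ℤ)) := coe_mem_pre.1 hn
      rw [Subgroup.mem_bot, map_zpow] at h3
      have h4 := congrArg Multiplicative.toAdd h3
      rw [toAdd_zpow, toAdd_one, smul_eq_mul, mul_eq_zero] at h4
      refine h4.resolve_right fun h5 => h1 ?_
      exact Multiplicative.toAdd.injective h5

end Pool.Agent.Izumi
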