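import Pool.Agent.Lib.MP_b2135d_an.BA
import Pool.Agent.Lib.MP_b2135d_an.ZI
import Pool.Agent.Lib.MP_b2135d_an.GC
import Pool.Agent.Lib.MP_b2135d_an.HE

/-! All subgroups of a torsion-free elementary amenable group are good. -/

namespace Pool.Agent.Izumi

open scoped ComplexOrder Matrix
open Filter Topology

variable {G A : Type} [Group G] [CStarAlgebra A] [PartialOrder A] [StarOrderedRing A] [Countable G]

theorem Sys.goodClosure (X : Sys G A) : GoodClosure X.Good :=
  ⟨X.good_union, X.good_zstep, X.good_noncyc, X.good_geo⟩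

theorem Sys.good_top (X : Sys G A) (h : ElemAmenable G)
    (htf : ∀ g : G, IsOfFinOrder g → g = 1) : X.Good ⊤ :=
  Izumi.good_top X.goodClosure h htf X.good_bot

end Pool.Agent.Izumi
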