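import Pool.Agent.Lib.MP_b2135d_an.DA

/-! Conjugating unitaries with short chains (PLAN section 7). -/

namespace Pool.Agent.Izumi

open scoped ComplexOrder Matrix
open Filter Topology

/-- If `Y a Y* = b` and `z` commutes with `b`, then `Y* z Y` commutes with `a`. -/
theorem db_conj_commute {R : Type} [Ring R] [StarRing R] {Y z a b : R} (hY : Y ∈ unitary R)
    (hab : Y * a * star Y = b) (hz : Commute z b) : Commute (star Y * z * Y) a := by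
  have h1 : star Y * Y = 1 := Unitary.star_mul_self_of_mem hY
  have h2 : Y * a = b * Y := by
    rw [← hab, mul_assoc (Y * a), h1, mul_one]
  have h3 : a * star Y = star Y * b := by
    rw [← hab, ← mul_assoc, ← mul_assoc, h1, one_mul]
  change star Y * z * Y * a = a * (star Y * z * Y)
  calc star Y * z * Y * a = star Y * (z * b) * Y := by
        rw [mul_assoc (star Y * z), h2]; simp only [mul_assoc]
    _ = star Y * b * z * Y := by rw [hz.eq]; simp only [mul_assoc]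
    _ = a * (star Y * z * Y) := by rw [← h3]; simp only [mul_assoc]

variable {G A : Type} [Group G] [CStarAlgebra A] [PartialOrder A] [StarOrderedRing A] [Countable G] {X : Sys G A} {H : Subgroup G}

theorem Sys.uni_chn (hE : X.Emb H) (hU : X.Uni H) (E : Type) [CStarAlgebra E] (hE' : IsUHF E)
    (ρ : H →* (E ≃⋆ₐ[ℂ] E)) {T : Set A} (hT : T.Countable) (φ₁ φ₂ : E →⋆ₐ[ℂ] A)
    (h₁ : ∀ x, φ₁ x ∈ cent T) (h₂ : ∀ x, φ₂ x ∈ cent T)
    (e₁ : ∀ (h : H) x, φ₁ (ρ h x) = X.γ h (φ₁ x)) (e₂ : ∀ (h : H) x, φ₂ (ρ h x) = X.γ h (φ₂ x)) :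
    ∃ u, (∀ x, u * φ₁ x * star u = φ₂ x) ∧ Chn (UIn (Fix X.γ H ⊓ cent T)) 24 1 u := by
  obtain ⟨u₀, hu, huF, huT, hu₀⟩ := hU E hE' ρ T hT φ₁ φ₂ h₁ h₂ e₁ e₂
  obtain ⟨φ₃, h₃, e₃⟩ := hE.embT E hE' ρ (hT.insert u₀)
  have h₃' : ∀ x, φ₃ x ∈ cent (insert u₀ T) := fun x => X.FT_le_cent _ (h₃ x)
  obtain ⟨Y, hY, hYF, hYT, hY₀⟩ := hU E hE' ρ T hT φ₁ φ₃ h₁
    (fun x => cent_anti (Set.subset_insert _ _) (h₃' x)) e₁ e₃
  obtain ⟨e, he, hem⟩ := hE.divT (Fin 2) ((hT.insert u₀).insert Y)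
  have hec : ∀ i j, e i j ∈ cent (insert Y (insert u₀ T)) := fun i j =>
    X.FT_le_cent _ (hem i j).1
  refine ⟨u₀ * star Y * star u₀ * Y, fun x => ?_, ?_⟩
  · have hc : Commute (star Y * star u₀ * Y) (φ₁ x) :=
      db_conj_commute hY (hY₀ x) (mem_cent.1 (h₃' x) u₀ (Set.mem_insert _ _)).2.symm
    have hW : star Y * star u₀ * Y ∈ unitary A :=
      mul_mem (mul_mem (Unitary.star_mem hY) (Unitary.star_mem hu)) hY
    have h5 : u₀ * star Y * star u₀ * Y = u₀ * (star Y * star u₀ * Y) := by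
      simp only [mul_assoc]
    rw [h5, star_mul u₀, mul_assoc u₀, hc.eq, ← mul_assoc u₀, mul_assoc (u₀ * φ₁ x),
      ← mul_assoc (star Y * star u₀ * Y), Unitary.mul_star_self_of_mem hW, one_mul, hu₀]
  · refine chn_commutator he (fun i j => ?_) ⟨hu, huF, huT⟩ ⟨hY, hYF, hYT⟩ (fun i j => ?_)
      (fun i j => ?_)
    · exact ⟨(hem i j).2, cent_anti
        ((Set.subset_insert _ _).trans (Set.subset_insert _ _)) (hec i j)⟩
    · exact (mem_cent.1 (hec i j) u₀ (Set.mem_insert_of_mem _ (Set.mem_insert _ _))).1.symm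
    · exact (mem_cent.1 (hec i j) Y (Set.mem_insert _ _)).1.symm

theorem Sys.move_chn (hE : X.Emb H) (hU : X.Uni H) (E : Type) [CStarAlgebra E] (hE' : IsUHF E)
    (ρ : H →* (E ≃⋆ₐ[ℂ] E)) {T : Set A} (hT : T.Countable) (φ₁ : E →⋆ₐ[ℂ] A)
    (h₁ : ∀ x, φ₁ x ∈ cent T) (e₁ : ∀ (h : H) x, φ₁ (ρ h x) = X.γ h (φ₁ x)) {x : A} {L : ℝ}
    (hx : ∀ e, Commute x (φ₁ e)) (hc : Chn (UIn (Fix X.γ H ⊓ cent T)) L 1 x) :
    Chn (fun z => UIn (Fix X.γ H ⊓ cent T) z ∧ ∀ e, Commute z (φ₁ e)) L 1 x := by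
  intro m hm
  obtain ⟨z, hz0, hzm, hzP, hzs⟩ := hc m hm
  obtain ⟨φ₃, h₃, e₃⟩ := hE.embT E hE' ρ ((hT.insert x).union (Set.countable_range z))
  have h₃' : ∀ e, φ₃ e ∈ cent (insert x T ∪ Set.range z) := fun e => X.FT_le_cent _ (h₃ e)
  have h₁' : ∀ e, φ₁ e ∈ cent (insert x T) := by
    intro e
    rw [mem_cent]
    rintro t (rfl | ht)
    · refine ⟨(hx e).symm, ?_⟩
      have h := (hx (star e)).star_star
      rw [map_star, star_star] at h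
      exact h.symm
    · exact mem_cent.1 (h₁ e) t ht
  obtain ⟨Y, hY, hYF, hYT, hY₀⟩ := hU E hE' ρ (insert x T) (hT.insert x) φ₁ φ₃ h₁'
    (fun e => cent_anti Set.subset_union_left (h₃' e)) e₁ e₃
  have hYC : Y ∈ Fix X.γ H ⊓ cent T := ⟨hYF, cent_anti (Set.subset_insert _ _) hYT⟩
  refine ⟨fun j => star Y * z j * Y, ?_, ?_, fun j => ⟨⟨?_, ?_⟩, fun e => ?_⟩, fun j => ?_⟩
  · simp only [hz0, mul_one]
    exact Unitary.star_mul_self_of_mem hY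
  · have hxY : Commute Y x := (mem_cent.1 hYT x (Set.mem_insert _ _)).1
    simp only [hzm]
    rw [mul_assoc, ← hxY.eq, ← mul_assoc, Unitary.star_mul_self_of_mem hY, one_mul]
  · exact mul_mem (mul_mem (Unitary.star_mem hY) (hzP j).1) hY
  · exact mul_mem (mul_mem (star_mem hYC) (hzP j).2) hYC
  · exact db_conj_commute hY (hY₀ e) (mem_cent.1 (h₃' e) (z j) (Or.inr ⟨j, rfl⟩)).1.symm
  · have h6 : star Y * z (j + 1) * Y - star Y * z j * Y = star Y * (z (j + 1) - z j) * Y := by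
      rw [mul_sub, sub_mul]
    simp only []
    rw [h6, CStarRing.norm_mul_mem_unitary _ hY,
      CStarRing.norm_mem_unitary_mul _ (Unitary.star_mem hY)]
    exact hzs j

open scoped Matrix.Norms.L2Operator in
theorem Sys.uni_chn_MU (hE : X.Emb H) (hU : X.Uni H) {ι : Type} [Fintype ι] [DecidableEq ι]
    [Nonempty ι] {T : Set A} (hT : T.Countable) {f₁ f₂ : ι → ι → A} (h₁ : IsMU f₁) (h₂ : IsMU f₂)
    (m₁ : ∀ i j, f₁ i j ∈ Fix X.γ H ⊓ cent T) (m₂ : ∀ i j, f₂ i j ∈ Fix X.γ H ⊓ cent T) :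
    ∃ u, (∀ i j, u * f₁ i j * star u = f₂ i j) ∧ Chn (UIn (Fix X.γ H ⊓ cent T)) 24 1 u := by
  obtain ⟨φ₁, s₁, t₁⟩ := h₁.exists_hom
  obtain ⟨φ₂, s₂, t₂⟩ := h₂.exists_hom
  have k₁ : ∀ M, φ₁ M ∈ Fix X.γ H ⊓ cent T := fun M => by
    rw [s₁]
    exact sum_mem fun i _ => sum_mem fun j _ => SMulMemClass.smul_mem _ (m₁ i j)
  have k₂ : ∀ M, φ₂ M ∈ Fix X.γ H ⊓ cent T := fun M => by
    rw [s₂]
    exact sum_mem fun i _ => sum_mem fun j _ => SMulMemClass.smul_mem _ (m₂ i j)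
  obtain ⟨u, hu, hc⟩ := Sys.uni_chn hE hU (Matrix ι ι ℂ) (isUHF_matrix ι) 1 hT φ₁ φ₂
    (fun M => (k₁ M).2) (fun M => (k₂ M).2) (fun h M => ((k₁ M).1 h h.2).symm)
    (fun h M => ((k₂ M).1 h h.2).symm)
  exact ⟨u, fun i j => by rw [← t₁, hu, t₂], hc⟩

end Pool.Agent.Izumi
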