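import Mathlib

/-! Statement-level definitions for MP_b2135d_an. -/

namespace Pool.Agent.Izumi

open scoped ComplexOrder

/-- `D` is the universal UHF algebra: a nonzero unital C*-algebra which is the closure of an
increasing chain of unital full matrix subalgebras whose sizes are divisible by every positive
integer. -/
def IsUniversalUHF (D : Type) [CStarAlgebra D] : Prop :=
  Nontrivial D ∧
    ∃ (n : ℕ → ℕ) (ι : ∀ k, Matrix (Fin (n k)) (Fin (n k)) ℂ →⋆ₐ[ℂ] D),
      (∀ k, Set.range (ι k) ⊆ Set.range (ι (k + 1))) ∧ Dense (⋃ k, Set.range (ι k)) ∧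
        ∀ m : ℕ, 0 < m → ∃ k, m ∣ n k

/-- A tracial state. -/
def IsTracialState {D : Type} [CStarAlgebra D] [PartialOrder D] (τ : D →ₚ[ℂ] ℂ) : Prop :=
  τ 1 = 1 ∧ ∀ x y, τ (x * y) = τ (y * x)

/-- Some unitary `u` in the double commutant of `π(D)` inside `E` implements `θ`:
`u π(x) u* = π(θ x)` for all `x`. -/
def InnerIn {D E : Type} [CStarAlgebra D] [CStarAlgebra E] (π : D →⋆ₐ[ℂ] E)
    (θ : D ≃⋆ₐ[ℂ] D) : Prop :=
  ∃ u : E, u ∈ unitary E ∧ u ∈ Set.centralizer (Set.centralizer (Set.range π)) ∧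
    ∀ x, u * π x * star u = π (θ x)

/-- The automorphism induced by `θ` on the weak closure (double commutant in the algebra of all
bounded operators on the GNS Hilbert space) of the GNS representation of `τ` is inner. -/
def InnerOnWeakClosure {D : Type} [CStarAlgebra D] [PartialOrder D] [StarOrderedRing D]
    (τ : D →ₚ[ℂ] ℂ) (θ : D ≃⋆ₐ[ℂ] D) : Prop :=
  InnerIn (E := τ.GNS →L[ℂ] τ.GNS) τ.gnsStarAlgHom θ

/-- Strongly outer actions. -/
def StronglyOuter {G D : Type} [Group G] [CStarAlgebra D] [PartialOrder D] [StarOrderedRing D]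
    (α : G →* (D ≃⋆ₐ[ℂ] D)) : Prop :=
  ∀ g : G, g ≠ 1 → ∀ τ : D →ₚ[ℂ] ℂ, IsTracialState τ → (∀ x, τ (α g x) = τ x) →
    ¬ InnerOnWeakClosure τ (α g)

/-- Cocycle conjugacy: `θ ∘ β_g ∘ θ⁻¹ = Ad(u_g) ∘ α_g` for an `α`-cocycle `u`. -/
def CocycleConjugate {G A B : Type} [Group G] [CStarAlgebra A] [CStarAlgebra B]
    (α : G →* (A ≃⋆ₐ[ℂ] A)) (β : G →* (B ≃⋆ₐ[ℂ] B)) : Prop :=
  ∃ (θ : B ≃⋆ₐ[ℂ] A) (u : G → A), (∀ g, u g ∈ unitary A) ∧
    (∀ g h, u (g * h) = u g * α g (u h)) ∧
      ∀ g x, θ (β g (θ.symm x)) = u g * α g x * star (u g)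

/-- Elementary amenable groups: the smallest class containing finite and abelian groups and closed
under subgroups, quotients, extensions and directed unions. -/
inductive ElemAmenable : (G : Type) → [Group G] → Prop
  | finite (G : Type) [Group G] [Finite G] : ElemAmenable G
  | comm (G : Type) [Group G] (h : ∀ a b : G, a * b = b * a) : ElemAmenable G
  | sub (H G : Type) [Group H] [Group G] (f : H →* G) (hf : Function.Injective f)
      (h : ElemAmenable G) : ElemAmenable H
  | quot (G H : Type) [Group G] [Group H] (f : G →* H) (hf : Function.Surjective f)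
      (h : ElemAmenable G) : ElemAmenable H
  | ext (G : Type) [Group G] (N : Subgroup G) [N.Normal] (h₁ : ElemAmenable N)
      (h₂ : ElemAmenable (G ⧸ N)) : ElemAmenable G
  | union (G : Type) [Group G] (ι : Type) (H : ι → Subgroup G) (hd : Directed (· ≤ ·) H)
      (hc : ∀ g, ∃ i, g ∈ H i) (h : ∀ i, ElemAmenable (H i)) : ElemAmenable G

end Pool.Agent.Izumi
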