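import Pool.Agent.Lib.MP_b2135d_an.Defs

/-! Statement-level definitions for the full uniqueness theorem (MP_b2135d_an). -/

namespace Pool.Agent.Izumi

open scoped ComplexOrder Pointwise
open Filter Topology

/-- The operator `∑ x i ⊗ y i` on the (algebraic) tensor product of two inner product spaces has
norm at most `C`. -/
def TensorNormLE {H K : Type} [NormedAddCommGroup H] [InnerProductSpace ℂ H]
    [NormedAddCommGroup K] [InnerProductSpace ℂ K] {n : ℕ} (x : Fin n → H →L[ℂ] H)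
    (y : Fin n → K →L[ℂ] K) (C : ℝ) : Prop :=
  ‖∑ i, TensorProduct.mapL (x i) (y i)‖ ≤ C

/-- `‖∑ π (a i) ⊗ σ (b i)‖ ≤ C` for all unital representations `π`, `σ` on Hilbert spaces. -/
def SpatialLE {D₁ D₂ : Type} [CStarAlgebra D₁] [CStarAlgebra D₂] {n : ℕ} (a : Fin n → D₁)
    (b : Fin n → D₂) (C : ℝ) : Prop :=
  ∀ (H K : Type) [NormedAddCommGroup H] [InnerProductSpace ℂ H] [CompleteSpace H]
    [NormedAddCommGroup K] [InnerProductSpace ℂ K] [CompleteSpace K]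
    (π : D₁ →⋆ₐ[ℂ] (H →L[ℂ] H)) (σ : D₂ →⋆ₐ[ℂ] (K →L[ℂ] K)),
    TensorNormLE (fun i => π (a i)) (fun i => σ (b i)) C

/-- `E` is the minimal tensor product of `D₁` and `D₂`, with `ι₁ x = x ⊗ 1`, `ι₂ y = 1 ⊗ y`. -/
def IsMinTensor {D₁ D₂ E : Type} [CStarAlgebra D₁] [CStarAlgebra D₂] [CStarAlgebra E]
    (ι₁ : D₁ →⋆ₐ[ℂ] E) (ι₂ : D₂ →⋆ₐ[ℂ] E) : Prop :=
  (∀ x y, ι₁ x * ι₂ y = ι₂ y * ι₁ x) ∧
    Dense (Submodule.span ℂ {z : E | ∃ x y, z = ι₁ x * ι₂ y} : Set E) ∧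
      ∀ (n : ℕ) (a : Fin n → D₁) (b : Fin n → D₂),
        IsLeast {C : ℝ | SpatialLE a b C} ‖∑ i, ι₁ (a i) * ι₂ (b i)‖

/-- Strongly self-absorbing C*-algebras. -/
def IsStronglySelfAbsorbing (D : Type) [CStarAlgebra D] : Prop :=
  TopologicalSpace.SeparableSpace D ∧ Nontrivial D ∧ IsEmpty (D ≃⋆ₐ[ℂ] ℂ) ∧
    ∃ (E : Type) (_ : CStarAlgebra E) (ι₁ ι₂ : D →⋆ₐ[ℂ] E) (φ : D ≃⋆ₐ[ℂ] E) (u : ℕ → E),
      IsMinTensor ι₁ ι₂ ∧ (∀ n, u n ∈ unitary E) ∧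
        ∀ d, Tendsto (fun n => u n * φ d * star (u n)) atTop (𝓝 (ι₁ d))

/-- Amenable groups: there is a left-invariant finitely additive probability on all subsets. -/
def IsAmenableGroup (G : Type) [Group G] : Prop :=
  ∃ m : Set G → ℝ, (∀ s, 0 ≤ m s) ∧ m Set.univ = 1 ∧
    (∀ s t, Disjoint s t → m (s ∪ t) = m s + m t) ∧ ∀ (g : G) (s : Set G), m (g • s) = m s

/-- Inner automorphisms. -/
def IsInnerAut {D : Type} [CStarAlgebra D] (θ : D ≃⋆ₐ[ℂ] D) : Prop :=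
  ∃ u ∈ unitary D, ∀ x, θ x = u * x * star u

/-- Strongly outer actions; for an algebra without tracial states: outer actions. -/
def IsStronglyOuter {G D : Type} [Group G] [CStarAlgebra D] [PartialOrder D] [StarOrderedRing D]
    (α : G →* (D ≃⋆ₐ[ℂ] D)) : Prop :=
  StronglyOuter α ∧
    ((∀ τ : D →ₚ[ℂ] ℂ, ¬ IsTracialState τ) → ∀ g : G, g ≠ 1 → ¬ IsInnerAut (α g))

end Pool.Agent.Izumi
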