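import Pool.Agent.Lib.MP_b2135d_an.CoreJ

/-! Lattice and length function (PLAN section 10). -/

namespace Pool.Agent.Izumi

variable {Γ : Type} [Group Γ] {a : ℕ} {ι : Multiplicative (Fin a → ℤ) →* Γ}

theorem GeoCtx.exists_eq (h : GeoCtx ι) {t : Γ} (ht : Subgroup.zpowers t ⊔ ι.range = ⊤) (g : Γ) :
    ∃ (i : ℤ) (x : Multiplicative (Fin a → ℤ)), g = t ^ i * ι x := by
  have := h.normal
  have hg : g ∈ Subgroup.zpowers t ⊔ ι.range := ht ▸ Subgroup.mem_top g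
  obtain ⟨_, ⟨i, rfl⟩, _, ⟨x, rfl⟩, rfl⟩ := Subgroup.mem_sup_of_normal_right.1 hg
  exact ⟨i, x, rfl⟩

theorem GeoCtx.eq_one_GA (h : GeoCtx ι) {t : Γ} (ht : Subgroup.zpowers t ⊔ ι.range = ⊤)
    {x : Multiplicative (Fin a → ℤ)} (hx : Commute t (ι x)) : x = 1 := by
  refine h.center x (Subgroup.mem_center_iff.2 fun g => ?_)
  obtain ⟨j, y, rfl⟩ := h.exists_eq ht g
  have h1 : Commute (ι y) (ι x) := (Commute.all y x).map ι
  exact ((hx.zpow_left j).mul_left h1).eq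

theorem GeoCtx.zpow_mem (h : GeoCtx ι) {t : Γ} (ht : Subgroup.zpowers t ⊔ ι.range = ⊤) {i : ℤ}
    (hi : t ^ i ∈ ι.range) : t ^ i = 1 := by
  obtain ⟨x, hx⟩ := hi
  have h1 : x = 1 := h.eq_one_GA ht (hx ▸ Commute.self_zpow t i)
  rw [← hx, h1, map_one]

theorem GeoCtx.pow_index_GA (h : GeoCtx ι) {t : Γ} (ht : Subgroup.zpowers t ⊔ ι.range = ⊤) :
    t ^ ι.range.index = 1 := by
  have := h.normal
  have h1 := h.zpow_mem ht (i := (ι.range.index : ℤ))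
    (by rw [zpow_natCast]; exact ι.range.pow_index_mem t)
  rwa [zpow_natCast] at h1

/-- Conjugation on the lattice. -/
noncomputable def GeoCtx.cjGA (h : GeoCtx ι) (g : Γ) :
    Multiplicative (Fin a → ℤ) →* Multiplicative (Fin a → ℤ) :=
  MonoidHom.mk' (fun x => Classical.choose (h.normal.conj_mem (ι x) ⟨x, rfl⟩ g)) fun x y => by
    apply h.inj
    rw [Classical.choose_spec (h.normal.conj_mem (ι (x * y)) ⟨x * y, rfl⟩ g),
      map_mul ι (Classical.choose _), Classical.choose_spec (h.normal.conj_mem (ι x) ⟨x, rfl⟩ g),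
      Classical.choose_spec (h.normal.conj_mem (ι y) ⟨y, rfl⟩ g), map_mul]
    group

theorem GeoCtx.cjGA_spec (h : GeoCtx ι) (g : Γ) (x : Multiplicative (Fin a → ℤ)) :
    ι (h.cjGA g x) = g * ι x * g⁻¹ :=
  Classical.choose_spec (h.normal.conj_mem (ι x) ⟨x, rfl⟩ g)

theorem GeoCtx.cjGA_mul (h : GeoCtx ι) (g g' : Γ) (x : Multiplicative (Fin a → ℤ)) :
    h.cjGA g (h.cjGA g' x) = h.cjGA (g * g') x := by
  apply h.inj
  simp only [h.cjGA_spec]
  group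

theorem GeoCtx.cjGA_one (h : GeoCtx ι) (x : Multiplicative (Fin a → ℤ)) : h.cjGA 1 x = x := by
  apply h.inj
  rw [h.cjGA_spec]
  group

theorem exists_bound_GA (f : Multiplicative (Fin a → ℤ) →* Multiplicative (Fin a → ℤ)) :
    ∃ C : ℝ, 0 ≤ C ∧ ∀ x, ‖(f x).toAdd‖ ≤ C * ‖x.toAdd‖ := by
  let φ : (Fin a → ℤ) →+ (Fin a → ℤ) :=
    AddMonoidHom.mk' (fun v => (f (Multiplicative.ofAdd v)).toAdd) fun v w => by
      rw [ofAdd_add, map_mul, toAdd_mul]
  refine ⟨∑ i, ‖φ (Pi.single i 1)‖, Finset.sum_nonneg fun i _ => norm_nonneg _, fun x => ?_⟩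
  have h1 : (f x).toAdd = ∑ i, x.toAdd i • φ (Pi.single i 1) := by
    have h2 : (f x).toAdd = φ x.toAdd := rfl
    rw [h2]
    conv_lhs => rw [pi_eq_sum_univ' x.toAdd]
    rw [map_sum]
    exact Finset.sum_congr rfl fun i _ => map_zsmul φ _ _
  rw [h1, Finset.sum_mul]
  refine (norm_sum_le _ _).trans (Finset.sum_le_sum fun i _ => ?_)
  refine (norm_zsmul_le _ _).trans ?_
  rw [mul_comm]
  exact mul_le_mul_of_nonneg_left (norm_le_pi_norm x.toAdd i) (norm_nonneg _)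

theorem GeoCtx.uniq_GA (h : GeoCtx ι) {t : Γ} (ht : Subgroup.zpowers t ⊔ ι.range = ⊤)
    {i j : ℤ} {x y : Multiplicative (Fin a → ℤ)} (e : t ^ i * ι x = t ^ j * ι y) : x = y := by
  have h1 : t ^ (-j + i) = ι (y * x⁻¹) := by
    rw [zpow_add, zpow_neg, map_mul, map_inv, eq_mul_inv_iff_mul_eq, mul_assoc, e]
    group
  have h2 := h.zpow_mem ht (i := -j + i) ⟨_, h1.symm⟩
  rw [h1, ← map_one ι] at h2
  exact (mul_inv_eq_one.1 (h.inj h2)).symm

theorem GeoCtx.length (h : GeoCtx ι) {t : Γ} (ht : Subgroup.zpowers t ⊔ ι.range = ⊤) :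
    ∃ (ℓ : Γ → ℝ) (c : ℝ), 0 < c ∧ (∀ g, 0 ≤ ℓ g) ∧ (∀ g, ℓ g⁻¹ = ℓ g) ∧
      (∀ g g', ℓ (g * g') ≤ ℓ g + ℓ g') ∧ (∀ x, ‖x.toAdd‖ ≤ ℓ (ι x)) ∧
        ∀ (i : ℤ) x, ℓ (t ^ i * ι x) ≤ c * ‖x.toAdd‖ := by
  classical
  have hfo : IsOfFinOrder t := isOfFinOrder_iff_pow_eq_one.2
    ⟨ι.range.index, Nat.pos_of_ne_zero h.fin.index_ne_zero, h.pow_index_GA ht⟩
  have : Finite (Subgroup.zpowers t) := hfo.finite_zpowers
  let _ : Fintype (Subgroup.zpowers t) := Fintype.ofFinite _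
  let N : Multiplicative (Fin a → ℤ) → ℝ := fun x =>
    ∑ s : Subgroup.zpowers t, ‖(h.cjGA s x).toAdd‖
  have N0 : ∀ x, 0 ≤ N x := fun x => Finset.sum_nonneg fun s _ => norm_nonneg _
  have Ncj : ∀ (i : ℤ) x, N (h.cjGA (t ^ i) x) = N x := fun i x => by
    refine Fintype.sum_equiv (Equiv.mulRight (⟨t ^ i, i, rfl⟩ : Subgroup.zpowers t)) _ _
      fun s => ?_
    rw [h.cjGA_mul]
    rfl
  have Ninv : ∀ x, N x⁻¹ = N x := fun x =>
    Finset.sum_congr rfl fun s _ => by rw [map_inv, toAdd_inv, norm_neg]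
  have Nmul : ∀ x y, N (x * y) ≤ N x + N y := fun x y => by
    rw [← Finset.sum_add_distrib]
    refine Finset.sum_le_sum fun s _ => ?_
    rw [map_mul, toAdd_mul]
    exact norm_add_le _ _
  have Nge : ∀ x, ‖x.toAdd‖ ≤ N x := fun x => by
    have h1 := Finset.single_le_sum
      (f := fun s : Subgroup.zpowers t => ‖(h.cjGA s x).toAdd‖) (s := Finset.univ)
      (fun s _ => norm_nonneg _) (Finset.mem_univ 1)
    rwa [OneMemClass.coe_one, h.cjGA_one] at h1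
  choose C hC0 hC using fun s : Subgroup.zpowers t => exists_bound_GA (h.cjGA s)
  have Nle : ∀ x, N x ≤ (∑ s, C s + 1) * ‖x.toAdd‖ := fun x => by
    rw [add_mul, Finset.sum_mul, one_mul]
    exact (Finset.sum_le_sum fun s _ => hC s x).trans (le_add_of_nonneg_right (norm_nonneg _))
  choose e p hp using h.exists_eq ht
  have hN : ∀ (i : ℤ) x, N (p (t ^ i * ι x)) = N x := fun i x => by
    rw [← h.uniq_GA ht (hp (t ^ i * ι x))]
  refine ⟨fun g => N (p g), ∑ s, C s + 1, ?_, fun g => N0 _, fun g => ?_, fun g g' => ?_,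
    fun x => ?_, fun i x => ?_⟩
  · have := Finset.sum_nonneg (s := Finset.univ) fun s _ => hC0 s
    linarith
  · obtain ⟨i, x, rfl⟩ := h.exists_eq ht g
    have h1 : (t ^ i * ι x)⁻¹ = t ^ (-i) * ι (h.cjGA (t ^ i) x⁻¹) := by
      rw [h.cjGA_spec, map_inv]
      group
    simp only [h1, hN, Ncj, Ninv]
  · obtain ⟨i, x, rfl⟩ := h.exists_eq ht g
    obtain ⟨j, y, rfl⟩ := h.exists_eq ht g'
    have h1 : t ^ i * ι x * (t ^ j * ι y) = t ^ (i + j) * ι (h.cjGA (t ^ (-j)) x * y) := by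
      rw [map_mul, h.cjGA_spec]
      group
    simp only [h1, hN]
    exact (Nmul _ _).trans (by rw [Ncj])
  · have h1 := hN 0 x
    rw [zpow_zero, one_mul] at h1
    simp only [h1]
    exact Nge x
  · simp only [hN]
    exact Nle x

theorem GeoCtx.prod_cj_GA (h : GeoCtx ι) {s : Γ} (hs : Subgroup.zpowers s ⊔ ι.range = ⊤)
    (w : Multiplicative (Fin a → ℤ)) :
    ∏ j ∈ Finset.range ι.range.index, h.cjGA (s ^ j) w = 1 := by
  refine h.eq_one_GA hs ?_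
  have h1 : h.cjGA s (∏ j ∈ Finset.range ι.range.index, h.cjGA (s ^ j) w) =
      ∏ j ∈ Finset.range ι.range.index, h.cjGA (s ^ j) w := by
    have h2 := Finset.prod_range_succ (fun j => h.cjGA (s ^ j) w) ι.range.index
    rw [Finset.prod_range_succ', h.pow_index_GA hs, pow_zero] at h2
    rw [map_prod, ← mul_right_cancel h2]
    exact Finset.prod_congr rfl fun j _ => by rw [h.cjGA_mul, pow_succ']
  have h3 := h.cjGA_spec s (∏ j ∈ Finset.range ι.range.index, h.cjGA (s ^ j) w)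
  rw [h1, eq_mul_inv_iff_mul_eq] at h3
  exact h3.symm

theorem GeoCtx.pow_mem_GA (h : GeoCtx ι) {s : Γ} (hs : Subgroup.zpowers s ⊔ ι.range = ⊤)
    (P : Subgroup (Multiplicative (Fin a → ℤ))) (w : Multiplicative (Fin a → ℤ))
    (hw : ∀ j : ℕ, h.cjGA (s ^ j) (w / h.cjGA s w) ∈ P) : w ^ ι.range.index ∈ P := by
  have h1 : ∀ j : ℕ, w / h.cjGA (s ^ j) w ∈ P := by
    intro j
    induction j with
    | zero => rw [pow_zero, h.cjGA_one, div_self']; exact P.one_mem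
    | succ j ih =>
      have h2 := P.mul_mem ih (hw j)
      rwa [map_div, h.cjGA_mul, ← pow_succ, div_mul_div_cancel] at h2
  have h3 := P.prod_mem (t := Finset.range ι.range.index) fun j _ => h1 j
  rwa [Finset.prod_div_distrib, h.prod_cj_GA hs, div_one, Finset.prod_const,
    Finset.card_range] at h3

theorem mem_of_coprime_GA {W : Type} [CommGroup W] (P : Subgroup W) {w : W} {m k : ℕ}
    (hk : Nat.Coprime m k) (h1 : w ^ m ∈ P) (h2 : w ^ k ∈ P) : w ∈ P := by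
  obtain ⟨u, v, huv⟩ := Nat.isCoprime_iff_coprime.2 hk
  have h3 := P.mul_mem (P.zpow_mem h1 u) (P.zpow_mem h2 v)
  rwa [← zpow_natCast, ← zpow_natCast, ← zpow_mul, ← zpow_mul, ← zpow_add, mul_comm (m : ℤ),
    mul_comm (k : ℤ), huv, zpow_one] at h3

theorem GeoCtx.inj_GA (h : GeoCtx ι) {s : Γ} (hs : Subgroup.zpowers s ⊔ ι.range = ⊤) {m : ℕ}
    (hk : Nat.Coprime m ι.range.index) {w : Multiplicative (Fin a → ℤ)}
    (hw : w / h.cjGA s w ∈ (powMonoidHom m).range) :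
    w ∈ (powMonoidHom m : _ →* Multiplicative (Fin a → ℤ)).range := by
  refine mem_of_coprime_GA _ hk ⟨w, rfl⟩ (h.pow_mem_GA hs _ w fun j => ?_)
  obtain ⟨z, hz⟩ := hw
  refine ⟨h.cjGA (s ^ j) z, ?_⟩
  rw [← hz, powMonoidHom_apply, powMonoidHom_apply, map_pow]

theorem GeoCtx.surj_GA (h : GeoCtx ι) {s : Γ} (hs : Subgroup.zpowers s ⊔ ι.range = ⊤) {m : ℕ}
    (hk : Nat.Coprime m ι.range.index) (w : Multiplicative (Fin a → ℤ)) :
    ∃ v, v / h.cjGA s v / w ∈ (powMonoidHom m : _ →* Multiplicative (Fin a → ℤ)).range := by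
  have h1 : w ∈ (MonoidHom.id _ / h.cjGA s).range ⊔ (powMonoidHom m).range := by
    refine mem_of_coprime_GA _ hk (Subgroup.mem_sup_right ⟨w, rfl⟩)
      (Subgroup.mem_sup_left (h.pow_mem_GA hs _ w fun j => ⟨h.cjGA (s ^ j) w, ?_⟩))
    rw [MonoidHom.div_apply, MonoidHom.id_apply, map_div, h.cjGA_mul, h.cjGA_mul, ← pow_succ,
      ← pow_succ']
  obtain ⟨_, ⟨v, rfl⟩, z, hz, rfl⟩ := Subgroup.mem_sup.1 h1
  refine ⟨v, ?_⟩
  rw [MonoidHom.div_apply, MonoidHom.id_apply, div_mul_cancel_left]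
  exact Subgroup.inv_mem _ hz

theorem GeoCtx.lattice (h : GeoCtx ι) {t : Γ} (ht : Subgroup.zpowers t ⊔ ι.range = ⊤) {m : ℕ}
    (hm : 0 < m) (hk : Nat.Coprime m ι.range.index) {M : Subgroup Γ}
    (hM : M = (ι.comp (powMonoidHom m)).range) :
    M.Normal ∧ M.FiniteIndex ∧ (M ⊔ Subgroup.zpowers t) ⊓ ι.range = M ∧
      ∀ g : Γ, Subgroup.zpowers g ⊔ ι.range = ⊤ → ∃ x : Γ, x⁻¹ * g * x ∈ M ⊔ Subgroup.zpowers t ∧
        ∀ y : Γ, y⁻¹ * g * y ∈ M ⊔ Subgroup.zpowers t → x⁻¹ * y ∈ M ⊔ Subgroup.zpowers t := by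
  have hM' : M = (powMonoidHom m).range.map ι := by rw [hM, MonoidHom.range_comp]
  have hn : M.Normal := ⟨by
    rw [hM]
    rintro _ ⟨x, rfl⟩ g
    refine ⟨h.cjGA g x, ?_⟩
    rw [MonoidHom.comp_apply, MonoidHom.comp_apply, powMonoidHom_apply, powMonoidHom_apply,
      ← map_pow, h.cjGA_spec]⟩
  have hML : M ≤ ι.range := hM' ▸ Subgroup.map_le_range _ _
  have hinf : (M ⊔ Subgroup.zpowers t) ⊓ ι.range = M := by
    refine le_antisymm ?_ (le_inf le_sup_left hML)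
    rintro g ⟨hg, hg'⟩
    obtain ⟨μ, hμ, _, ⟨i, rfl⟩, rfl⟩ := Subgroup.mem_sup_of_normal_left.1 hg
    have h1 : t ^ i = 1 := h.zpow_mem ht ((ι.range.mul_mem_cancel_left (hML hμ)).1 hg')
    simp only [h1, mul_one]
    exact hμ
  have hΔ : ∀ (i : ℤ) x, t ^ i * ι x ∈ M ⊔ Subgroup.zpowers t ↔
      x ∈ (powMonoidHom m : _ →* Multiplicative (Fin a → ℤ)).range := by
    intro i x
    rw [Subgroup.mul_mem_cancel_left _ (Subgroup.mem_sup_right (Subgroup.zpow_mem_zpowers t i))]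
    constructor
    · intro hx
      have h1 : ι x ∈ M := hinf ▸ Subgroup.mem_inf.2 ⟨hx, x, rfl⟩
      rw [hM'] at h1
      obtain ⟨y, hy, e⟩ := h1
      exact h.inj e ▸ hy
    · intro hx
      exact Subgroup.mem_sup_left (hM' ▸ ⟨x, hx, rfl⟩)
  refine ⟨hn, ⟨?_⟩, hinf, fun g hg => ?_⟩
  · rw [hM', Subgroup.index_map, (MonoidHom.ker_eq_bot_iff ι).2 h.inj, sup_bot_eq]
    exact mul_ne_zero
      (Subgroup.finiteIndex_range_powMonoidHom_of_fg _ hm.ne').index_ne_zero h.fin.index_ne_zero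
  · have hs : Subgroup.zpowers g⁻¹ ⊔ ι.range = ⊤ := by rwa [Subgroup.zpowers_inv]
    obtain ⟨i, μ, hgi⟩ := h.exists_eq ht g
    have key : ∀ v, (ι v)⁻¹ * g * ι v = t ^ i * ι (v / h.cjGA g⁻¹ v / μ⁻¹) := by
      intro v
      rw [div_inv_eq_mul, mul_comm _ μ, div_eq_mul_inv, mul_comm v, map_mul, map_mul, map_inv,
        h.cjGA_spec, ← mul_assoc, ← hgi]
      group
    obtain ⟨v, hv⟩ := h.surj_GA hs hk μ⁻¹
    refine ⟨ι v, by rw [key, hΔ]; exact hv, fun y hy => ?_⟩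
    obtain ⟨j, η, rfl⟩ := h.exists_eq ht y
    have hy' : t ^ j * ι η = ι (h.cjGA (t ^ j) η) * t ^ j := by
      rw [h.cjGA_spec]
      group
    have htj : t ^ j ∈ M ⊔ Subgroup.zpowers t := Subgroup.mem_sup_right ⟨j, rfl⟩
    rw [hy'] at hy ⊢
    generalize h.cjGA (t ^ j) η = w at hy ⊢
    have h1 : (ι w)⁻¹ * g * ι w ∈ M ⊔ Subgroup.zpowers t := by
      have h2 := Subgroup.mul_mem _ (Subgroup.mul_mem _ htj hy) (Subgroup.inv_mem _ htj)
      have h3 : t ^ j * ((ι w * t ^ j)⁻¹ * g * (ι w * t ^ j)) * (t ^ j)⁻¹ =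
          (ι w)⁻¹ * g * ι w := by group
      rwa [h3] at h2
    rw [key, hΔ] at h1
    have h4 : w / v / h.cjGA g⁻¹ (w / v) ∈
        (powMonoidHom m : _ →* Multiplicative (Fin a → ℤ)).range := by
      have h5 := Subgroup.div_mem _ h1 hv
      rwa [div_div_div_cancel_right, div_div_div_comm, ← map_div] at h5
    have h6 := (hΔ 0 _).2 (h.inj_GA hs hk h4)
    rw [zpow_zero, one_mul, div_eq_mul_inv, mul_comm, map_mul, map_inv] at h6
    rw [← mul_assoc]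
    exact Subgroup.mul_mem _ h6 htj

end Pool.Agent.Izumi
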