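import Pool.Agent.Lib.MP_b2135d_an.GA

/-! The equivariant cover (PLAN section 10). -/

namespace Pool.Agent.Izumi

variable {Γ : Type} [Group Γ] {a : ℕ} {ι : Multiplicative (Fin a → ℤ) →* Γ}

/-- One of the `k + 1` dyadic windows contains no value. -/
theorem ga2_gap (δ : Γ → ℝ) (Δ : Subgroup Γ) (k : ℕ) {ρ : ℝ} (hρ : 0 < ρ)
    (hf : {h : Γ | h ∈ Δ ∧ δ h ≤ 2 ^ (k + 1) * ρ}.Finite)
    (hk : {h : Γ | h ∈ Δ ∧ δ h ≤ 2 ^ (k + 1) * ρ}.ncard ≤ k) :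
    ∃ j ≤ k, ∀ h ∈ Δ, δ h ≤ 2 ^ (j + 1) * ρ → δ h ≤ 2 ^ j * ρ := by
  by_contra hcon
  push Not at hcon
  choose! f hf1 hf2 hf3 using hcon
  have mono : ∀ i j : ℕ, i ≤ j → (2 : ℝ) ^ i * ρ ≤ 2 ^ j * ρ := fun i j hij =>
    mul_le_mul_of_nonneg_right (pow_le_pow_right₀ (by norm_num) hij) hρ.le
  have hlt : ∀ i j : ℕ, i ≤ k → j ≤ k → i < j → f i ≠ f j := by
    intro i j hi hj hij e
    have a1 := hf2 i hi
    have a2 := hf3 j hj
    have a3 := mono (i + 1) j hij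
    rw [e] at a1
    linarith
  have hle : (Set.Iic k).ncard ≤ {h : Γ | h ∈ Δ ∧ δ h ≤ 2 ^ (k + 1) * ρ}.ncard := by
    refine Set.ncard_le_ncard_of_injOn f (fun j hj => ⟨hf1 j hj, ?_⟩) ?_ hf
    · exact (hf2 j hj).trans (mono _ _ (Nat.succ_le_succ hj))
    · intro i hi j hj e
      rcases lt_trichotomy i j with h | h | h
      · exact absurd e (hlt i j hi hj h)
      · exact h
      · exact absurd e.symm (hlt j i hj hi h)
  have : (Set.Iic k).ncard = k + 1 := by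
    rw [← Finset.coe_Iic, Set.ncard_coe_finset, Nat.card_Iic]
  omega

/-- One bump function around the centre `z`. -/
theorem exists_bump (ℓ : Γ → ℝ) (h0 : ∀ g, 0 ≤ ℓ g) (h1 : ℓ 1 = 0) (hi : ∀ g, ℓ g⁻¹ = ℓ g)
    (hs : ∀ g g', ℓ (g * g') ≤ ℓ g + ℓ g') (Δ : Subgroup Γ) (z : Γ) (k : ℕ) {ρ : ℝ} (hρ : 0 < ρ)
    (hf : {h : Γ | h ∈ Δ ∧ ℓ (z * h * z⁻¹) ≤ 2 ^ (k + 1) * ρ}.Finite)
    (hk : {h : Γ | h ∈ Δ ∧ ℓ (z * h * z⁻¹) ≤ 2 ^ (k + 1) * ρ}.ncard ≤ k) :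
    ∃ (Φ : Subgroup Γ) (ψ : Γ → ℝ), Finite Φ ∧ Φ ≤ Δ ∧ (∀ g, 0 ≤ ψ g) ∧ (∀ g, ψ g ≤ 1) ∧
      (∀ g, ∀ φ ∈ Φ, ψ (g * φ) = ψ g) ∧ (∀ g, ∀ h ∈ Δ, ψ g ≠ 0 → ψ (g * h) ≠ 0 → h ∈ Φ) ∧
      (∀ g s, |ψ (s * g) - ψ g| ≤ ℓ s / ρ) ∧ ∀ g, ℓ (g * z⁻¹) ≤ ρ / 2 → 1 / 2 ≤ ψ g := by
  obtain ⟨j, hjk, hj⟩ := ga2_gap (fun h => ℓ (z * h * z⁻¹)) Δ k hρ hf hk
  have hpos : (0 : ℝ) < 2 ^ j * ρ := by positivity
  have hone : ρ ≤ 2 ^ j * ρ := le_mul_of_one_le_left hρ.le (one_le_pow₀ (by norm_num))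
  let Φ : Subgroup Γ :=
    { carrier := {h | h ∈ Δ ∧ ℓ (z * h * z⁻¹) ≤ 2 ^ j * ρ}
      mul_mem' := by
        rintro x y ⟨hx, hx'⟩ ⟨hy, hy'⟩
        refine ⟨Δ.mul_mem hx hy, hj _ (Δ.mul_mem hx hy) ?_⟩
        have e : z * (x * y) * z⁻¹ = (z * x * z⁻¹) * (z * y * z⁻¹) := by group
        have := hs (z * x * z⁻¹) (z * y * z⁻¹)
        rw [e, pow_succ]
        linarith
      one_mem' := ⟨Δ.one_mem, by simp [h1, hpos.le]⟩
      inv_mem' := by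
        rintro x ⟨hx, hx'⟩
        refine ⟨Δ.inv_mem hx, ?_⟩
        have e : z * x⁻¹ * z⁻¹ = (z * x * z⁻¹)⁻¹ := by group
        rw [e, hi]
        exact hx' }
  have hΦ : ∀ h, h ∈ Φ ↔ h ∈ Δ ∧ ℓ (z * h * z⁻¹) ≤ 2 ^ j * ρ := fun _ => Iff.rfl
  let D : Γ → ℝ := fun g => ⨅ φ : Φ, ℓ (g * φ * z⁻¹)
  have bdd : ∀ g : Γ, BddBelow (Set.range fun φ : Φ => ℓ (g * φ * z⁻¹)) := fun g =>
    ⟨0, by rintro _ ⟨φ, rfl⟩; exact h0 _⟩
  have Dle : ∀ g, ∀ φ ∈ Φ, D g ≤ ℓ (g * φ * z⁻¹) := fun g φ hφ => ciInf_le (bdd g) ⟨φ, hφ⟩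
  have D0 : ∀ g, 0 ≤ D g := fun g => le_ciInf fun φ => h0 _
  have Dinv : ∀ g, ∀ φ ∈ Φ, D g ≤ D (g * φ) := fun g φ hφ => le_ciInf fun φ' => by
    have := Dle g (φ * φ') (Φ.mul_mem hφ φ'.2)
    rwa [← mul_assoc] at this
  have Dlip : ∀ g s, D (s * g) ≤ ℓ s + D g := fun g s => by
    have : D (s * g) - ℓ s ≤ D g := le_ciInf fun φ => by
      have a1 := Dle (s * g) φ φ.2
      have a2 := hs s (g * φ * z⁻¹)
      have e : s * g * φ * z⁻¹ = s * (g * φ * z⁻¹) := by group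
      rw [e] at a1
      linarith
    linarith
  have Dlt : ∀ g, max 0 (1 - D g / ρ) ≠ 0 → ∃ φ ∈ Φ, ℓ (g * φ * z⁻¹) < ρ := by
    intro g hg
    have a1 : 0 < 1 - D g / ρ := by
      by_contra hh
      exact hg (max_eq_left (not_lt.mp hh))
    have a2 : D g < ρ := by
      rw [sub_pos, div_lt_one hρ] at a1
      exact a1
    obtain ⟨φ, hφ⟩ := exists_lt_of_ciInf_lt a2
    exact ⟨φ, φ.2, hφ⟩
  refine ⟨Φ, fun g => max 0 (1 - D g / ρ), ?_, fun h hh => hh.1, fun g => le_max_left _ _,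
    fun g => ?_, fun g φ hφ => ?_, fun g h hh h1 h2 => ?_, fun g s => ?_, fun g hg => ?_⟩
  · have : (Φ : Set Γ).Finite := hf.subset fun h hh => ⟨hh.1, hh.2.trans
      (mul_le_mul_of_nonneg_right (pow_le_pow_right₀ (by norm_num) (by omega)) hρ.le)⟩
    exact this.to_subtype
  · have := div_nonneg (D0 g) hρ.le
    exact max_le zero_le_one (by linarith)
  · have a1 := Dinv g φ hφ
    have a2 := Dinv (g * φ) φ⁻¹ (Φ.inv_mem hφ)
    rw [mul_inv_cancel_right] at a2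
    have e : D (g * φ) = D g := le_antisymm a2 a1
    simp only [e]
  · obtain ⟨φ, hφ, a1⟩ := Dlt g h1
    obtain ⟨φ', hφ', a2⟩ := Dlt (g * h) h2
    have m1 : φ⁻¹ * h * φ' ∈ Δ := Δ.mul_mem (Δ.mul_mem (Δ.inv_mem hφ.1) hh) hφ'.1
    have m2 : φ⁻¹ * h * φ' ∈ Φ := by
      refine (hΦ _).mpr ⟨m1, hj _ m1 ?_⟩
      have e : z * (φ⁻¹ * h * φ') * z⁻¹ = (g * φ * z⁻¹)⁻¹ * (g * h * φ' * z⁻¹) := by group
      have a3 := hs (g * φ * z⁻¹)⁻¹ (g * h * φ' * z⁻¹)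
      rw [hi] at a3
      rw [e, pow_succ]
      linarith
    have e : h = φ * (φ⁻¹ * h * φ') * φ'⁻¹ := by group
    rw [e]
    exact Φ.mul_mem (Φ.mul_mem hφ m2) (Φ.inv_mem hφ')
  · have a1 := Dlip g s
    have a2 := Dlip (s * g) s⁻¹
    rw [inv_mul_cancel_left, hi] at a2
    have a3 : |(1 - D (s * g) / ρ) - (1 - D g / ρ)| ≤ ℓ s / ρ := by
      have e : (1 - D (s * g) / ρ) - (1 - D g / ρ) = (D g - D (s * g)) / ρ := by ring
      rw [e, abs_div, abs_of_pos hρ]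
      refine div_le_div_of_nonneg_right ?_ hρ.le
      rw [abs_le]
      constructor <;> linarith
    refine le_trans ?_ a3
    have := abs_max_sub_max_le_abs (1 - D (s * g) / ρ) (1 - D g / ρ) 0
    rwa [max_comm _ (0 : ℝ), max_comm _ (0 : ℝ)] at this
  · have a1 := Dle g 1 Φ.one_mem
    rw [mul_one] at a1
    have a2 : D g / ρ ≤ 1 / 2 := by
      rw [div_le_iff₀ hρ]
      linarith
    exact le_max_of_le_right (by linarith)

/-- Every lattice point is, modulo `m`, close to one of `R ^ a` centres. -/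
theorem ga2_centre {m R : ℕ} (hm : 0 < m) (hR : 0 < R) (x : Fin a → ℤ) :
    ∃ (j : Fin a → Fin R) (y : Fin a → ℤ),
      ‖x + m • y - fun r => ((j r : ℕ) : ℤ) * ((m / R + 1 : ℕ) : ℤ)‖ ≤ (m : ℝ) / R + 1 := by
  have hm' : (0 : ℤ) < m := by exact_mod_cast hm
  set q : ℕ := m / R + 1 with hq
  have hq0 : 0 < q := Nat.succ_pos _
  have hmq : m < q * R := by
    rw [hq, ← Nat.div_lt_iff_lt_mul hR]
    exact Nat.lt_succ_self _
  have hu : ∀ r, (x r % m).toNat < m := fun r => by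
    have := Int.emod_lt_of_pos (x r) hm'
    have := Int.emod_nonneg (x r) hm'.ne'
    omega
  refine ⟨fun r => ⟨(x r % m).toNat / q, ?_⟩, fun r => -(x r / m), ?_⟩
  · rw [Nat.div_lt_iff_lt_mul hq0, mul_comm]
    exact (hu r).trans hmq
  · have hb : (q : ℝ) ≤ (m : ℝ) / R + 1 := by
      rw [hq]
      push_cast
      linarith [Nat.cast_div_le (α := ℝ) (m := m) (n := R)]
    refine (pi_norm_le_iff_of_nonneg (by positivity)).mpr fun r => ?_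
    have e : (x + m • (fun r => -(x r / m)) - fun r => (((x r % m).toNat / q : ℕ) : ℤ) * (q : ℤ)) r
        = (((x r % m).toNat % q : ℕ) : ℤ) := by
      have a1 := Int.emod_add_mul_ediv (x r) m
      have a2 := Nat.mod_add_div (x r % m).toNat q
      have a3 : (((x r % m).toNat : ℕ) : ℤ) = x r % m :=
        Int.toNat_of_nonneg (Int.emod_nonneg (x r) hm'.ne')
      have a4 : (((x r % m).toNat % q : ℕ) : ℤ) + q * (((x r % m).toNat / q : ℕ) : ℤ) =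
          x r % m := by
        rw [← a3]
        exact_mod_cast a2
      rw [Pi.sub_apply, Pi.add_apply, Pi.smul_apply, nsmul_eq_mul]
      linarith
    rw [e, Int.norm_natCast]
    have : (x r % m).toNat % q ≤ q := (Nat.mod_lt _ hq0).le
    exact le_trans (by exact_mod_cast this) hb

theorem GeoCtx.cover (h : GeoCtx ι) :
    ∃ n : ℕ, ∀ (S : Finset Γ) (ε : ℝ), 0 < ε → ∃ (M Δ : Subgroup Γ) (Φ : Fin n → Subgroup Γ)
      (ψ : Fin n → Γ → ℝ), GeoCover ι.range n S ε M Δ Φ ψ := by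
  obtain ⟨t, ht⟩ := h.cyc
  obtain ⟨ℓ, c, hc, h0, hi, hs, hlow, hup⟩ := h.length ht
  have h1 : ℓ 1 = 0 := by
    have := hup 0 1
    simp only [zpow_zero, map_one, mul_one, toAdd_one, norm_zero, mul_zero] at this
    exact le_antisymm this (h0 1)
  have := h.fin
  set k : ℕ := ι.range.index with hk
  have hk0 : 0 < k := Nat.pos_of_ne_zero Subgroup.FiniteIndex.index_ne_zero
  obtain ⟨R, hR⟩ := exists_nat_ge (c * 2 ^ (k + 5))
  have hR0' : (0 : ℝ) < R := lt_of_lt_of_le (by positivity) hR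
  have hR0 : 0 < R := by exact_mod_cast hR0'
  refine ⟨R ^ a, fun S ε hε => ?_⟩
  obtain ⟨N, hN⟩ := exists_nat_ge (R + (∑ s ∈ S, ℓ s) * 2 ^ (k + 3) / ε)
  set m : ℕ := k * N + 1 with hm
  have hm0 : 0 < m := Nat.succ_pos _
  have hm0' : (0 : ℝ) < m := by exact_mod_cast hm0
  have hNm : (N : ℝ) ≤ m := by
    have : N ≤ m := by nlinarith
    exact_mod_cast this
  have hsum : 0 ≤ ∑ s ∈ S, ℓ s := Finset.sum_nonneg fun s _ => h0 s
  have hnn : 0 ≤ (∑ s ∈ S, ℓ s) * 2 ^ (k + 3) / ε := by positivity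
  have hcop : Nat.Coprime m k := by
    rw [hm]
    simp
  set M : Subgroup Γ := (ι.comp (powMonoidHom m)).range with hM
  obtain ⟨hMn, hMf, hML, huniq⟩ := h.lattice ht hm0 hcop hM
  set Δ : Subgroup Γ := M ⊔ Subgroup.zpowers t with hΔ
  set ρ : ℝ := m / 2 ^ (k + 3) with hρ
  have hρ0 : 0 < ρ := by positivity
  have hinj : ∀ w : Multiplicative (Fin a → ℤ),
      Set.InjOn (fun g : Γ => (g : Γ ⧸ ι.range))
        {g : Γ | g ∈ Δ ∧ ℓ (ι w * g * (ι w)⁻¹) ≤ 2 ^ (k + 1) * ρ} := by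
    rintro w g ⟨hg, hg'⟩ g' ⟨hg2, hg2'⟩ e
    have m1 : g⁻¹ * g' ∈ ι.range := QuotientGroup.eq.mp e
    have m2 : g⁻¹ * g' ∈ M := by
      rw [← hML]
      exact ⟨Δ.mul_mem (Δ.inv_mem hg) hg2, m1⟩
    obtain ⟨x, hx⟩ := m2
    have hx' : ι (x ^ m) = g⁻¹ * g' := hx
    have e1 : ι (x ^ m) = (ι w * g * (ι w)⁻¹)⁻¹ * (ι w * g' * (ι w)⁻¹) := by
      have e2 : (ι w * g * (ι w)⁻¹)⁻¹ * (ι w * g' * (ι w)⁻¹) = ι w * (g⁻¹ * g') * (ι w)⁻¹ := by
        group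
      rw [e2, ← hx', ← map_inv, ← map_mul, ← map_mul, mul_inv_cancel_comm]
    have a1 := hlow (x ^ m)
    have a2 := hs (ι w * g * (ι w)⁻¹)⁻¹ (ι w * g' * (ι w)⁻¹)
    rw [hi, ← e1] at a2
    have a3 : (2 : ℝ) ^ (k + 1) * ρ = m / 4 := by
      rw [hρ]
      field_simp
      ring
    have a4 : x = 1 := by
      ext r
      have b1 : ‖(x ^ m).toAdd r‖ ≤ ‖(x ^ m).toAdd‖ := norm_le_pi_norm _ r
      have b2 : ‖(x ^ m).toAdd r‖ = m * |((x.toAdd r : ℤ) : ℝ)| := by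
        rw [toAdd_pow, Pi.smul_apply, nsmul_eq_mul, Int.norm_eq_abs]
        push_cast
        rw [abs_mul, abs_of_pos hm0']
      have b3 : |((x.toAdd r : ℤ) : ℝ)| < 1 := by
        by_contra hh
        have := mul_le_mul_of_nonneg_left (not_lt.mp hh) hm0'.le
        linarith
      have b4 : |x.toAdd r| < 1 := by exact_mod_cast b3
      simpa using Int.abs_lt_one_iff.mp b4
    rw [a4, one_pow, map_one] at hx'
    exact inv_mul_eq_one.mp hx'.symm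
  let w : Fin (R ^ a) → Multiplicative (Fin a → ℤ) := fun i =>
    Multiplicative.ofAdd fun r => ((finFunctionFinEquiv.symm i r : ℕ) : ℤ) * ((m / R + 1 : ℕ) : ℤ)
  have hb := fun i : Fin (R ^ a) => exists_bump ℓ h0 h1 hi hs Δ (ι (w i)) k hρ0
    (Set.Finite.of_injOn (Set.mapsTo_univ _ _) (hinj (w i)) Set.finite_univ)
    ((Set.ncard_le_ncard_of_injOn _ (Set.mapsTo_univ _ _) (hinj (w i)) Set.finite_univ).trans
      (by rw [Set.ncard_univ]; exact le_rfl))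
  choose Φ ψ b1 b2 b3 b4 b5 b6 b7 b8 using hb
  refine ⟨M, Δ, Φ, ψ, hMn, hMf, ?_, le_sup_left, huniq, b1, b2, b3, b4, b5, b6, ?_, ?_⟩
  · rw [← hML]
    exact inf_le_right
  · intro i g s hsS
    refine (b7 i g s).trans ?_
    have a1 : ℓ s ≤ ∑ s ∈ S, ℓ s := Finset.single_le_sum (fun s _ => h0 s) hsS
    have a2 : (∑ s ∈ S, ℓ s) * 2 ^ (k + 3) / ε ≤ m := by linarith
    rw [div_le_iff₀ hε] at a2
    rw [div_le_iff₀ hρ0, hρ, ← mul_div_assoc, le_div_iff₀ (by positivity)]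
    have a3 : ℓ s * 2 ^ (k + 3) ≤ (∑ s ∈ S, ℓ s) * 2 ^ (k + 3) :=
      mul_le_mul_of_nonneg_right a1 (by positivity)
    linarith
  · intro g
    obtain ⟨i, x, rfl⟩ := h.exists_eq ht g
    obtain ⟨j, y, hy⟩ := ga2_centre hm0 hR0 x.toAdd
    refine ⟨finFunctionFinEquiv j, ι (Multiplicative.ofAdd y ^ m),
      (le_sup_left : M ≤ Δ) ⟨Multiplicative.ofAdd y, rfl⟩, b8 _ _ ?_⟩
    have e : t ^ i * ι x * ι (Multiplicative.ofAdd y ^ m) * (ι (w (finFunctionFinEquiv j)))⁻¹ =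
        t ^ i * ι (x * Multiplicative.ofAdd y ^ m * (w (finFunctionFinEquiv j))⁻¹) := by
      simp only [map_mul, map_inv, mul_assoc]
    have e2 : (x * Multiplicative.ofAdd y ^ m * (w (finFunctionFinEquiv j))⁻¹).toAdd =
        x.toAdd + m • y - fun r => ((j r : ℕ) : ℤ) * ((m / R + 1 : ℕ) : ℤ) := by
      simp only [w, Equiv.symm_apply_apply, toAdd_mul, toAdd_pow, toAdd_ofAdd, toAdd_inv,
        sub_eq_add_neg]
    rw [e]
    refine (hup _ _).trans ?_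
    rw [e2]
    refine (mul_le_mul_of_nonneg_left hy hc.le).trans ?_
    have hRm : (R : ℝ) ≤ m := by linarith
    have a1 : (1 : ℝ) ≤ m / R := by
      rw [le_div_iff₀ hR0']
      linarith
    have a2 : c * (m / R) ≤ m / 2 ^ (k + 5) := by
      rw [← mul_div_assoc, div_le_div_iff₀ hR0' (by positivity)]
      nlinarith
    have a3 : ρ / 2 = 2 * (m / 2 ^ (k + 5)) := by
      rw [hρ]
      field_simp
      ring
    have a4 : c * 1 ≤ c * (m / R) := mul_le_mul_of_nonneg_left a1 hc.le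
    rw [a3]
    linarith

end Pool.Agent.Izumi
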