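import Pool.Agent.Lib.MP_b2135d_an.HA

/-! Virtually free abelian groups (PLAN section 11). -/

namespace Pool.Agent.Izumi

variable {G : Type} [Group G] {good : Subgroup G → Prop} {Γ Γ' : Type} [Group Γ] [Group Γ']

/-- The lattice points that lie in a subgroup. -/
def latSub {a : ℕ} (ι : Multiplicative (Fin a → ℤ) →* Γ) (Δ : Subgroup Γ) :
    Submodule ℤ (Fin a → ℤ) where
  carrier := {v | ι (Multiplicative.ofAdd v) ∈ Δ}
  add_mem' := fun {v w} hv hw => by
    have := Δ.mul_mem hv hw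
    rwa [← map_mul, ← ofAdd_add] at this
  zero_mem' := by simp
  smul_mem' := fun c v hv => by
    have := Δ.zpow_mem hv c
    rwa [← map_zpow, ← ofAdd_zsmul] at this

/-- A subgroup of a virtually free abelian group is one, with smaller invariants. -/
theorem exists_sublattice {a : ℕ} (ι : Multiplicative (Fin a → ℤ) →* Γ)
    (hi : Function.Injective ι) (Δ : Subgroup Γ) :
    ∃ (b : ℕ) (ι' : Multiplicative (Fin b → ℤ) →* Δ), b ≤ a ∧ Function.Injective ι' ∧
      ι'.range = ι.range.subgroupOf Δ ∧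
        ∀ θ : Γ →* Multiplicative ℤ, Δ ≤ θ.ker → ¬ ι.range ≤ θ.ker → b < a := by
  let N := latSub ι Δ
  let e := (Module.finBasis ℤ N).equivFun
  have ha : Module.finrank ℤ (Fin a → ℤ) = a := by simp
  let ι' : Multiplicative (Fin (Module.finrank ℤ N) → ℤ) →* Δ := MonoidHom.mk'
    (fun x => ⟨ι (Multiplicative.ofAdd (e.symm x.toAdd).1), (e.symm x.toAdd).2⟩)
    fun x y => Subtype.ext (by
      simp only [toAdd_mul, map_add, Submodule.coe_add, ofAdd_add, map_mul, Subgroup.coe_mul])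
  refine ⟨Module.finrank ℤ N, ι', (Submodule.finrank_le N).trans ha.le, ?_, ?_, ?_⟩
  · intro x y h
    have h1 := Multiplicative.ofAdd.injective (hi (congrArg Subtype.val h))
    exact Multiplicative.toAdd.injective (e.symm.injective (Subtype.ext h1))
  · ext g
    rw [Subgroup.mem_subgroupOf]
    constructor
    · rintro ⟨x, rfl⟩
      exact ⟨_, rfl⟩
    · rintro ⟨x, hx⟩
      have h1 : x.toAdd ∈ N := by
        show ι (Multiplicative.ofAdd x.toAdd) ∈ Δ
        rw [ofAdd_toAdd, hx]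
        exact g.2
      refine ⟨Multiplicative.ofAdd (e ⟨_, h1⟩), Subtype.ext ?_⟩
      show ι (Multiplicative.ofAdd (e.symm (e ⟨_, h1⟩)).1) = g
      rw [e.symm_apply_apply]
      exact hx
  · intro θ hθ hn
    have h1 := Submodule.finrank_quotient_add_finrank N
    rw [ha] at h1
    by_contra hlt
    have h2 : Module.finrank ℤ ((Fin a → ℤ) ⧸ N) = 0 := by omega
    refine hn ?_
    rintro _ ⟨x, rfl⟩
    obtain ⟨c, hc, h3⟩ := Module.finrank_eq_zero_iff.1 h2 (Submodule.Quotient.mk x.toAdd)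
    rw [← Submodule.Quotient.mk_smul, Submodule.Quotient.mk_eq_zero] at h3
    have h4 : θ (ι (Multiplicative.ofAdd (c • x.toAdd))) = 1 := hθ h3
    rw [ofAdd_zsmul, ofAdd_toAdd, map_zpow, map_zpow] at h4
    have h5 := congrArg Multiplicative.toAdd h4
    rw [toAdd_zpow, toAdd_one, smul_eq_mul, mul_eq_zero] at h5
    exact Multiplicative.toAdd.injective (h5.resolve_left hc)

theorem exists_hom_of_center {a : ℕ} (ι : Multiplicative (Fin a → ℤ) →* Γ)
    (hi : Function.Injective ι) (hf : ι.range.FiniteIndex) {x : Multiplicative (Fin a → ℤ)}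
    (hx : ι x ∈ Subgroup.center Γ) (h1 : x ≠ 1) :
    ∃ θ : Γ →* Multiplicative ℤ, ¬ ι.range ≤ θ.ker := by
  obtain ⟨i, hi0⟩ : ∃ i, x.toAdd i ≠ 0 := by
    by_contra h
    push Not at h
    exact h1 (Multiplicative.toAdd.injective (funext h))
  let c : Multiplicative (Fin a → ℤ) →* Multiplicative ℤ :=
    MonoidHom.mk' (fun v => Multiplicative.ofAdd (v.toAdd i)) fun _ _ => rfl
  let ϕ : ι.range →* Multiplicative ℤ := c.comp (MonoidHom.ofInjective hi).symm.toMonoidHom
  refine ⟨MonoidHom.transfer ϕ, fun h => ?_⟩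
  have key : ∀ (k : ℕ) (g₀ : Γ), g₀⁻¹ * ι x ^ k * g₀ ∈ ι.range → g₀⁻¹ * ι x ^ k * g₀ = ι x ^ k :=
    fun k g₀ _ => by
      rw [mul_assoc, ← Subgroup.mem_center_iff.1 (pow_mem hx k) g₀, inv_mul_cancel_left]
  have h2 : MonoidHom.transfer ϕ (ι x) = 1 := h ⟨x, rfl⟩
  rw [MonoidHom.transfer_eq_pow ϕ (ι x) key] at h2
  have h3 : (⟨ι x ^ ι.range.index, MonoidHom.transfer_eq_pow_aux (ι x) key⟩ : ι.range) =
      MonoidHom.ofInjective hi (x ^ ι.range.index) := Subtype.ext (map_pow ι x _).symm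
  rw [h3] at h2
  have h4 : c (x ^ ι.range.index) = 1 := by
    rw [← h2]
    exact congrArg c ((MonoidHom.ofInjective hi).symm_apply_apply _).symm
  rw [map_pow] at h4
  have h5 := congrArg Multiplicative.toAdd h4
  rw [toAdd_pow, toAdd_one, nsmul_eq_mul, mul_eq_zero] at h5
  rcases h5 with h5 | h5
  · exact hf.index_ne_zero (by exact_mod_cast h5)
  · exact hi0 h5

theorem pp_vz_core (hc : GoodClosure good) {a : ℕ} (ι : Multiplicative (Fin a → ℤ) →* Γ)
    (hi : Function.Injective ι) (hn : ι.range.Normal) (hf : ι.range.FiniteIndex)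
    (IH : ∀ Δ : Subgroup Γ, (Δ ⊔ ι.range ≠ ⊤ ∨
      ∃ θ : Γ →* Multiplicative ℤ, Δ ≤ θ.ker ∧ ¬ ι.range ≤ θ.ker) → PP good Δ)
    (K : Subgroup G) (f : K →* Γ) (hs : Function.Surjective f)
    (h : ∀ Φ : Subgroup Γ, Finite Φ → good (pre f Φ)) : good K := by
  have hπ := QuotientGroup.mk'_surjective ι.range
  by_cases hcy : IsCyclic (Γ ⧸ ι.range)
  · by_cases hz : ∀ x, ι x ∈ Subgroup.center Γ → x = 1
    · by_cases ht : ι.range = ⊤
      · have hsur : Function.Surjective ι := MonoidHom.range_eq_top.1 ht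
        have h1 : ∀ x : Multiplicative (Fin a → ℤ), x = 1 := fun x => hz x (Subgroup.mem_center_iff.2 fun g => by
          obtain ⟨y, rfl⟩ := hsur g
          rw [← map_mul, ← map_mul, mul_comm])
        have : Subsingleton Γ := ⟨fun g g' => by
          obtain ⟨y, rfl⟩ := hsur g
          obtain ⟨y', rfl⟩ := hsur g'
          rw [h1 y, h1 y']⟩
        exact PP.finite K f h
      · refine hc.geo K Γ f a ι hs ⟨hi, hn, hf, ?_, ht, hz⟩ h
          fun Φ hΦ => PP.good_pre h (IH Φ (Or.inl hΦ))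
        obtain ⟨u, hu⟩ := hcy.exists_generator
        obtain ⟨t, rfl⟩ := hπ u
        refine ⟨t, eq_top_iff.2 fun g _ => ?_⟩
        obtain ⟨n, hn'⟩ := hu (QuotientGroup.mk' ι.range g)
        have h1 : (t ^ n)⁻¹ * g ∈ ι.range := by
          rw [← QuotientGroup.eq]
          exact (map_zpow (QuotientGroup.mk' ι.range) t n).trans hn'
        rw [← mul_inv_cancel_left (t ^ n) g]
        exact Subgroup.mul_mem_sup ⟨n, rfl⟩ h1
    · push Not at hz
      obtain ⟨x, hx, h1⟩ := hz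
      obtain ⟨θ, hθ⟩ := exists_hom_of_center ι hi hf hx h1
      refine hc.zstep K (θ.comp f) ?_
      rw [pre_comp]
      exact PP.good_pre h (IH _ (Or.inr ⟨θ, le_rfl, hθ⟩))
  · refine hc.noncyc K (Γ ⧸ ι.range) ((QuotientGroup.mk' ι.range).comp f) (hπ.comp hs) hcy
      fun Φ hΦ => ?_
    rw [pre_comp]
    refine PP.good_pre h (IH _ (Or.inl ?_))
    rw [sup_eq_left.2 (QuotientGroup.le_comap_mk' _ Φ)]
    intro h1
    exact hΦ (Subgroup.comap_injective hπ (h1.trans (Subgroup.comap_top _).symm))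

theorem pp_vz_aux (hc : GoodClosure good) (a k : ℕ) : ∀ (Γ : Type) [Group Γ]
    (ι : Multiplicative (Fin a → ℤ) →* Γ), Function.Injective ι → ι.range.Normal →
      ι.range.FiniteIndex → ι.range.index = k → PP good Γ := by
  induction a using Nat.strong_induction_on generalizing k with
  | _ a ih1 =>
  induction k using Nat.strong_induction_on with
  | _ k ih2 =>
  intro Γ _ ι hi hn hf hk
  refine PP.of_surjective fun K Δ f hs h => ?_
  obtain ⟨b, ι', hb, hi', hr, -⟩ := exists_sublattice ι hi Δ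
  have hn' : ι'.range.Normal := hr ▸ inferInstance
  have hf' : ι'.range.FiniteIndex := hr ▸ inferInstance
  have hk' : ι'.range.index ≤ k := by
    rw [hr, ← hk]
    exact Nat.le_of_dvd (Nat.pos_of_ne_zero hf.index_ne_zero)
      (Subgroup.relIndex_dvd_index_of_normal _ _)
  refine pp_vz_core hc ι' hi' hn' hf' (fun Δ' hΔ' => ?_) K f hs h
  obtain ⟨c, ι'', hc', hi'', hr', hθ⟩ := exists_sublattice ι' hi' Δ'
  have hn'' : ι''.range.Normal := hr' ▸ inferInstance
  have hf'' : ι''.range.FiniteIndex := hr' ▸ inferInstance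
  rcases (hc'.trans hb).lt_or_eq with h1 | h1
  · exact ih1 c h1 _ Δ' ι'' hi'' hn'' hf'' rfl
  subst h1
  refine ih2 _ (lt_of_lt_of_le ?_ hk') Δ' ι'' hi'' hn'' hf'' rfl
  rcases hΔ' with h2 | ⟨θ, h2, h3⟩
  · have h3 := Subgroup.relIndex_mul_index (le_sup_right : ι'.range ≤ Δ' ⊔ ι'.range)
    rw [Subgroup.relIndex_sup_right] at h3
    have h4 : (Δ' ⊔ ι'.range).index ≠ 1 := fun h => h2 (Subgroup.index_eq_one.1 h)
    have h5 := hf'.index_ne_zero
    have h6 : ι''.range.index = ι'.range.relIndex Δ' := by rw [hr']; rfl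
    rw [h6]
    rw [← h3, mul_ne_zero_iff] at h5
    rw [← h3]
    exact lt_mul_of_one_lt_right (Nat.pos_of_ne_zero h5.1) (by omega)
  · have := hθ θ h2 h3
    omega

theorem pp_vz (hc : GoodClosure good) (a : ℕ) (Γ : Type) [Group Γ]
    (ι : Multiplicative (Fin a → ℤ) →* Γ) (hi : Function.Injective ι) (hn : ι.range.Normal)
    (hf : ι.range.FiniteIndex) : PP good Γ :=
  pp_vz_aux hc a _ Γ ι hi hn hf rfl

end Pool.Agent.Izumi
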