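import Pool.Agent.Lib.MP_b2135d_an.HB

/-! Virtually abelian groups (PLAN section 11). -/

namespace Pool.Agent.Izumi

variable {G : Type} [Group G] {good : Subgroup G → Prop} {Γ Γ' : Type} [Group Γ] [Group Γ']

theorem lattice_HC (A : Type) [CommGroup A] [Group.FG A] :
    ∃ (a e : ℕ) (ι : Multiplicative (Fin a → ℤ) →* A), e ≠ 0 ∧ Function.Injective ι ∧
      ι.range = (powMonoidHom e).range := by
  obtain ⟨ι, j, _, _, p, hp, n, ⟨φ⟩⟩ := CommGroup.equiv_free_prod_prod_multiplicative_zmod A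
  have : ∀ i, NeZero (p i ^ n i) := fun i => ⟨pow_ne_zero _ (hp i).ne_zero⟩
  let T := (i : ι) → Multiplicative (ZMod (p i ^ n i))
  let ψ : Multiplicative (Fin (Fintype.card j) → ℤ) ≃* (j → Multiplicative ℤ) :=
    (MulEquiv.funMultiplicative _ ℤ).trans
      (MulEquiv.arrowCongr (Fintype.equivFin j).symm (MulEquiv.refl _))
  have he : Nat.card T ≠ 0 := Nat.card_pos.ne'
  refine ⟨_, Nat.card T, (powMonoidHom (Nat.card T)).comp (φ.symm.toMonoidHom.comp
    ((MonoidHom.inl _ _).comp ψ.toMonoidHom)), he, (injective_iff_map_eq_one _).2 fun x hx => ?_,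
    le_antisymm ?_ ?_⟩
  · have h1 := congrArg (fun y => (φ y).1) hx
    simp only [MonoidHom.comp_apply, powMonoidHom_apply, map_pow, MulEquiv.coe_toMonoidHom,
      MulEquiv.apply_symm_apply, Prod.pow_fst, MonoidHom.inl_apply, map_one, Prod.fst_one] at h1
    rw [← map_pow, map_eq_one_iff _ ψ.injective] at h1
    exact (pow_eq_one_iff_left he).1 h1
  · rintro _ ⟨x, rfl⟩
    exact ⟨_, rfl⟩
  · rintro _ ⟨x, rfl⟩
    refine ⟨ψ.symm (φ x).1, φ.injective ?_⟩
    simp only [MonoidHom.comp_apply, powMonoidHom_apply, map_pow, MulEquiv.coe_toMonoidHom,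
      MulEquiv.apply_symm_apply, MonoidHom.inl_apply]
    exact Prod.ext rfl ((one_pow _).trans pow_card_eq_one'.symm)

theorem pp_fg_HC (hc : GoodClosure good) [Group.FG Γ] (B : Subgroup Γ) (hn : B.Normal)
    (hf : B.FiniteIndex) (hab : ∀ x ∈ B, ∀ y ∈ B, x * y = y * x) : PP good Γ := by
  let _ : CommGroup B :=
    { (inferInstance : Group B) with mul_comm := fun x y => Subtype.ext (hab _ x.2 _ y.2) }
  obtain ⟨a, e, ι, he, hi, hr⟩ := lattice_HC B
  have h1 : (B.subtype.comp ι).range = (powMonoidHom (α := B) e).range.map B.subtype := by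
    rw [MonoidHom.range_comp, hr]
  refine pp_vz hc a Γ (B.subtype.comp ι) (B.subtype_injective.comp hi) ⟨?_⟩ ⟨?_⟩
  · rw [h1]
    rintro _ ⟨_, ⟨x, rfl⟩, rfl⟩ g
    exact ⟨_, ⟨⟨_, hn.conj_mem _ x.2 g⟩, rfl⟩, conj_pow⟩
  · rw [h1, Subgroup.index_map_subtype]
    exact mul_ne_zero (Subgroup.finiteIndex_range_powMonoidHom_of_fg B he).1 hf.1

theorem pp_virt_comm (hc : GoodClosure good) (B : Subgroup Γ) (hn : B.Normal)
    (hf : B.FiniteIndex) (hab : ∀ x ∈ B, ∀ y ∈ B, x * y = y * x) : PP good Γ :=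
  PP.loc hc fun s => ⟨Subgroup.closure s, Subgroup.subset_closure,
    pp_fg_HC hc (B.subgroupOf _) inferInstance inferInstance
      fun _ hx _ hy => Subtype.ext (hab _ hx _ hy)⟩

end Pool.Agent.Izumi
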