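import Pool.Agent.Lib.MP_b2135d_an.HC

/-! Elementary amenable groups (PLAN section 11). -/

namespace Pool.Agent.Izumi

variable {G : Type} [Group G] {good : Subgroup G → Prop} {A B C : Type} [Group A] [Group B]
  [Group C]

theorem Sec.intro {Q ι : Type} [Group Q] [Finite ι] (j : Q →* (ι → A)) (hj : Function.Injective j)
    (p : Q →* B) (hp : Function.Surjective p) : Sec B A :=
  ⟨ι, inferInstance, j.range, p.comp (MonoidHom.ofInjective hj).symm.toMonoidHom,
    hp.comp (MonoidHom.ofInjective hj).symm.surjective⟩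

/-- the part of a subgroup of a power with all coordinates in `H` -/
theorem Sec.restrict {ι : Type} [Finite ι] (S : Subgroup (ι → A)) (H : Subgroup A)
    (T : Subgroup S) (hT : ∀ x ∈ T, ∀ i, (x : ι → A) i ∈ H) (p : T →* B)
    (hp : Function.Surjective p) : Sec B H := by
  let j : T →* (ι → H) :=
    { toFun := fun x i => ⟨(x.1 : ι → A) i, hT x.1 x.2 i⟩
      map_one' := rfl
      map_mul' := fun _ _ => rfl }
  exact Sec.intro j (fun x y e => Subtype.ext (Subtype.ext (funext fun i =>
    congrArg Subtype.val (congrFun e i)))) p hp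

theorem Sec.refl (A : Type) [Group A] : Sec A A :=
  Sec.intro (ι := Unit) (MonoidHom.pi fun _ => MonoidHom.id A) (fun _ _ e => congrFun e ())
    (MonoidHom.id A) Function.surjective_id

theorem Sec.of_injective (h : Sec B A) (j : C →* B) (hj : Function.Injective j) : Sec C A := by
  obtain ⟨ι, _, S, p, hp⟩ := h
  exact Sec.intro (S.subtype.comp (j.range.comap p).subtype)
    (S.subtype_injective.comp (Subgroup.subtype_injective _))
    ((MonoidHom.ofInjective hj).symm.toMonoidHom.comp (p.subgroupComap j.range))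
    ((MonoidHom.ofInjective hj).symm.surjective.comp
      (p.subgroupComap_surjective_of_surjective j.range hp))

theorem Sec.of_surjective (h : Sec B A) (p : B →* C) (hp : Function.Surjective p) : Sec C A := by
  obtain ⟨ι, _, S, q, hq⟩ := h
  exact ⟨ι, inferInstance, S, p.comp q, hp.comp hq⟩

theorem Sec.pi (h : Sec B A) (ι : Type) [Finite ι] : Sec (ι → B) A := by
  obtain ⟨κ, _, S, p, hp⟩ := h
  let j : (ι → S) →* (ι × κ → A) :=
    { toFun := fun x i => (x i.1 : κ → A) i.2
      map_one' := rfl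
      map_mul' := fun _ _ => rfl }
  exact Sec.intro j (fun x y e => funext fun i => Subtype.ext (funext fun k => congrFun e (i, k)))
    (p.compLeft ι) hp.comp_left

theorem Sec.trans (h : Sec C B) (h' : Sec B A) : Sec C A := by
  obtain ⟨ι, _, S, p, hp⟩ := h
  exact ((h'.pi ι).of_injective S.subtype S.subtype_injective).of_surjective p hp

theorem Sec.split (h : Sec B A) (N : Subgroup A) [N.Normal] :
    ∃ (B₀ : Subgroup B) (_ : B₀.Normal), Sec B₀ N ∧ Sec (B ⧸ B₀) (A ⧸ N) := by
  obtain ⟨ι, _, S, p, hp⟩ := h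
  let π : S →* (ι → A ⧸ N) := ((QuotientGroup.mk' N).compLeft ι).comp S.subtype
  have hn : (π.ker.map p).Normal := Subgroup.Normal.map inferInstance p hp
  refine ⟨π.ker.map p, hn, Sec.restrict S N π.ker (fun x hx i => ?_) (p.subgroupMap π.ker)
    (p.subgroupMap_surjective π.ker), Sec.intro (QuotientGroup.kerLift π)
      (QuotientGroup.kerLift_injective π)
      (QuotientGroup.map π.ker (π.ker.map p) p (Subgroup.le_comap_map p π.ker)) fun y => ?_⟩
  · exact (QuotientGroup.eq_one_iff _).1 (congrFun (MonoidHom.mem_ker.1 hx) i)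
  · obtain ⟨b, rfl⟩ := QuotientGroup.mk_surjective y
    obtain ⟨x, rfl⟩ := hp b
    exact ⟨x, rfl⟩

theorem Sec.fg_union (h : Sec B A) [Group.FG B] {ι : Type} (H : ι → Subgroup A)
    (hd : Directed (· ≤ ·) H) (hc : ∀ g, ∃ i, g ∈ H i) : ∃ i, Sec B (H i) := by
  obtain ⟨κ, _, S, p, hp⟩ := h
  obtain ⟨s, hs, hf⟩ := Group.fg_iff.1 (inferInstance : Group.FG B)
  have := hf.to_subtype
  have : Nonempty ι := ⟨(hc 1).choose⟩
  choose x hx using hp
  choose c hc using hc
  obtain ⟨i, hi⟩ := hd.finite_le fun y : s × κ => c ((x y.1 : κ → A) y.2)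
  let T : Subgroup S := (Subgroup.pi Set.univ fun _ => H i).comap S.subtype
  refine ⟨i, Sec.restrict S (H i) T (fun y hy k => hy k trivial) (p.comp T.subtype) ?_⟩
  rw [← MonoidHom.range_eq_top, eq_top_iff, ← hs, Subgroup.closure_le]
  exact fun b hb => ⟨⟨x b, fun k _ => hi (⟨b, hb⟩, k) (hc _)⟩, hx b⟩

end Pool.Agent.Izumi
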