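import Pool.Agent.Lib.MP_b2135d_an.CoreJ

/-! Complex matrices: projections and characters (PLAN section 4). -/

namespace Pool.Agent.Izumi

open scoped Matrix ComplexOrder

theorem diag_MB {n : Type} [Fintype n] [DecidableEq n] (H : Matrix n n ℂ) (hs : Hᴴ = H) :
    ∃ (U : Matrix n n ℂ) (d : n → ℝ), Uᴴ * U = 1 ∧ U * Uᴴ = 1 ∧
      H = U * Matrix.diagonal (fun i => (d i : ℂ)) * Uᴴ := by
  have hH : H.IsHermitian := hs
  refine ⟨(hH.eigenvectorUnitary : Matrix n n ℂ), hH.eigenvalues, ?_, ?_, ?_⟩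
  · exact hH.eigenvectorUnitary.2.1
  · exact hH.eigenvectorUnitary.2.2
  · exact hH.spectral_theorem

theorem conj_back_MB {n : Type} [Fintype n] [DecidableEq n] {U : Matrix n n ℂ}
    (h1 : Uᴴ * U = 1) (D : Matrix n n ℂ) : Uᴴ * (U * D * Uᴴ) * U = D := by
  calc Uᴴ * (U * D * Uᴴ) * U = (Uᴴ * U) * D * (Uᴴ * U) := by simp only [Matrix.mul_assoc]
    _ = D := by rw [h1, Matrix.one_mul, Matrix.mul_one]

theorem conj_mul_MB {n : Type} [Fintype n] [DecidableEq n] {U : Matrix n n ℂ}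
    (h1 : Uᴴ * U = 1) (D E : Matrix n n ℂ) :
    (U * D * Uᴴ) * (U * E * Uᴴ) = U * (D * E) * Uᴴ := by
  calc (U * D * Uᴴ) * (U * E * Uᴴ) = U * D * (Uᴴ * U) * E * Uᴴ := by
        simp only [Matrix.mul_assoc]
    _ = U * (D * E) * Uᴴ := by rw [h1, Matrix.mul_one, Matrix.mul_assoc U D E]

theorem proj_factor {n : Type} [Fintype n] [DecidableEq n] (Q : Matrix n n ℂ) (hs : Qᴴ = Q)
    (hi : Q * Q = Q) :
    ∃ (r : ℕ) (U : Matrix n (Fin r) ℂ), Uᴴ * U = 1 ∧ U * Uᴴ = Q ∧ (r : ℂ) = Q.trace := by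
  classical
  obtain ⟨U, d, h1, h2, hQ⟩ := diag_MB Q hs
  have hd : ∀ i, (d i : ℂ) = 0 ∨ (d i : ℂ) = 1 := by
    intro i
    have h3 := hi
    rw [hQ, conj_mul_MB h1] at h3
    have h4 := congrArg (fun X => Uᴴ * X * U) h3
    simp only [conj_back_MB h1, Matrix.diagonal_mul_diagonal] at h4
    have h5 : (d i : ℂ) * (d i : ℂ) = d i := by
      have := congrFun (congrFun h4 i) i
      simpa using this
    rcases eq_or_ne (d i : ℂ) 0 with h0 | h0
    · exact Or.inl h0
    · exact Or.inr (mul_left_cancel₀ h0 (by rw [h5, mul_one]))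
  let s : Finset n := Finset.univ.filter fun i => (d i : ℂ) = 1
  let e : Fin s.card ≃ s := s.equivFin.symm
  let f : Fin s.card → n := fun k => (e k : n)
  have hf : Function.Injective f := fun a b h => e.injective (Subtype.ext h)
  have hA : (U.submatrix id f)ᴴ * U.submatrix id f = 1 := by
    rw [Matrix.conjTranspose_submatrix, ← Matrix.submatrix_mul _ _ _ id _ Function.bijective_id,
      h1, Matrix.submatrix_one f hf]
  have hB : U.submatrix id f * (U.submatrix id f)ᴴ = Q := by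
    ext i j
    rw [hQ, Matrix.mul_apply, Matrix.mul_apply]
    simp only [Matrix.mul_diagonal, Matrix.submatrix_apply, Matrix.conjTranspose_apply, id]
    rw [Equiv.sum_comp e (fun k : s => U i k * star (U j k)),
      Finset.sum_coe_sort s (fun k => U i k * star (U j k)), Finset.sum_filter]
    refine Finset.sum_congr rfl fun k _ => ?_
    rcases hd k with h | h
    · rw [if_neg (by rw [h]; exact zero_ne_one), h, mul_zero, zero_mul]
    · rw [if_pos h, h, mul_one]
  refine ⟨s.card, U.submatrix id f, hA, hB, ?_⟩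
  rw [← hB, Matrix.trace_mul_comm, hA, Matrix.trace_one, Fintype.card_fin]

/-- The polar correction of a matrix. -/
theorem polar_MB {m n : Type} [Fintype m] [Fintype n] [DecidableEq n] (T : Matrix m n ℂ) :
    ∃ S : Matrix n n ℂ, (∀ A : Matrix n n ℂ, A * (Tᴴ * T) = (Tᴴ * T) * A → A * S = S * A) ∧
      (T * S) * (T * S)ᴴ * (T * S) = T * S ∧ (T * S = 0 → T = 0) := by
  classical
  obtain ⟨U, d, h1, h2, hH⟩ := diag_MB (Tᴴ * T) (by
    rw [Matrix.conjTranspose_mul, Matrix.conjTranspose_conjTranspose])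
  have hD : Matrix.diagonal (fun i => (d i : ℂ)) = (T * U)ᴴ * (T * U) := by
    rw [← conj_back_MB h1 (Matrix.diagonal fun i => (d i : ℂ)), ← hH, Matrix.conjTranspose_mul]
    simp only [Matrix.mul_assoc]
  have hd : ∀ i, 0 ≤ d i := by
    intro i
    have h3 : (Matrix.diagonal fun i => (d i : ℂ)).PosSemidef := by
      rw [hD]; exact Matrix.posSemidef_conjTranspose_mul_self _
    have h4 := h3.diag_nonneg (i := i)
    rw [Matrix.diagonal_apply_eq] at h4
    exact_mod_cast h4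
  let f : ℝ → ℝ := fun t => if t = 0 then 1 else (Real.sqrt t)⁻¹
  have hf0 : ∀ i, (f (d i) : ℂ) ≠ 0 := by
    intro i
    have : f (d i) ≠ 0 := by
      by_cases h : d i = 0
      · simp [f, h]
      · simp only [f, if_neg h]
        exact inv_ne_zero (Real.sqrt_ne_zero'.2 (lt_of_le_of_ne (hd i) (Ne.symm h)))
    exact_mod_cast this
  let E : Matrix n n ℂ := Matrix.diagonal fun i => (f (d i) : ℂ)
  have hE : Eᴴ = E := by
    simp only [E, Matrix.diagonal_conjTranspose]
    congr 1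
    funext i
    simp
  let p : n → ℂ := fun i => (f (d i) : ℂ) * (d i : ℂ) * (f (d i) : ℂ)
  have hp : ∀ i, p i * p i = p i := by
    intro i
    by_cases h : d i = 0
    · simp [p, h]
    · have h3 : f (d i) * d i * f (d i) = 1 := by
        simp only [f, if_neg h]
        have h4 : Real.sqrt (d i) ≠ 0 := Real.sqrt_ne_zero'.2 (lt_of_le_of_ne (hd i) (Ne.symm h))
        have h5 := Real.mul_self_sqrt (hd i)
        field_simp
        rw [sq, h5]
      have h6 : p i = 1 := by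
        simp only [p]
        exact_mod_cast h3
      rw [h6, mul_one]
  have hS : (U * E * Uᴴ)ᴴ = U * E * Uᴴ := by
    rw [Matrix.conjTranspose_mul, Matrix.conjTranspose_mul, Matrix.conjTranspose_conjTranspose, hE,
      Matrix.mul_assoc]
  have hW : (T * (U * E * Uᴴ))ᴴ * (T * (U * E * Uᴴ)) = U * Matrix.diagonal p * Uᴴ := by
    rw [Matrix.conjTranspose_mul, hS, Matrix.mul_assoc, ← Matrix.mul_assoc Tᴴ, hH,
      conj_mul_MB h1, conj_mul_MB h1]
    simp only [E, p, Matrix.diagonal_mul_diagonal, mul_assoc]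
  refine ⟨U * E * Uᴴ, fun A hA => ?_, ?_, fun h0 => ?_⟩
  · have h3 : (Uᴴ * A * U) * Matrix.diagonal (fun i => (d i : ℂ)) =
        Matrix.diagonal (fun i => (d i : ℂ)) * (Uᴴ * A * U) := by
      have h4 := congrArg (fun X => Uᴴ * X * U) hA
      simp only [hH] at h4
      calc (Uᴴ * A * U) * Matrix.diagonal (fun i => (d i : ℂ))
          = Uᴴ * (A * (U * Matrix.diagonal (fun i => (d i : ℂ)) * Uᴴ)) * U := by
            simp only [Matrix.mul_assoc, h1, Matrix.mul_one]
        _ = Uᴴ * (U * Matrix.diagonal (fun i => (d i : ℂ)) * Uᴴ * A) * U := h4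
        _ = (Uᴴ * U) * Matrix.diagonal (fun i => (d i : ℂ)) * (Uᴴ * A * U) := by
            simp only [Matrix.mul_assoc]
        _ = _ := by rw [h1, Matrix.one_mul]
    have h5 : (Uᴴ * A * U) * E = E * (Uᴴ * A * U) := by
      ext i j
      have h6 := congrFun (congrFun h3 i) j
      simp only [Matrix.mul_diagonal, Matrix.diagonal_mul] at h6
      simp only [E, Matrix.mul_diagonal, Matrix.diagonal_mul]
      rcases eq_or_ne ((Uᴴ * A * U) i j) 0 with h7 | h7
      · rw [h7, mul_zero, zero_mul]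
      · have h8 : (d j : ℂ) = d i := mul_left_cancel₀ h7 (by rw [h6, mul_comm])
        have h9 : d j = d i := by exact_mod_cast h8
        rw [h9, mul_comm]
    calc A * (U * E * Uᴴ) = (U * Uᴴ) * A * (U * E * Uᴴ) := by rw [h2, Matrix.one_mul]
      _ = U * ((Uᴴ * A * U) * E) * Uᴴ := by simp only [Matrix.mul_assoc]
      _ = U * (E * (Uᴴ * A * U)) * Uᴴ := by rw [h5]
      _ = (U * E * Uᴴ) * A * (U * Uᴴ) := by simp only [Matrix.mul_assoc]
      _ = (U * E * Uᴴ) * A := by rw [h2, Matrix.mul_one]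
  · set W := T * (U * E * Uᴴ) with hWdef
    set P := U * Matrix.diagonal p * Uᴴ with hP
    have hPP : P * P = P := by
      rw [hP, conj_mul_MB h1, Matrix.diagonal_mul_diagonal]
      simp only [hp]
    have hPs : Pᴴ = P := by
      rw [← hW, Matrix.conjTranspose_mul, Matrix.conjTranspose_conjTranspose]
    have h3 : (W * P - W)ᴴ * (W * P - W) = 0 := by
      rw [Matrix.conjTranspose_sub, Matrix.conjTranspose_mul, hPs, Matrix.sub_mul, Matrix.mul_sub,
        Matrix.mul_sub, Matrix.mul_assoc P, Matrix.mul_assoc P, ← Matrix.mul_assoc Wᴴ, hW, hPP, hPP]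
      simp
    rw [Matrix.mul_assoc, hW]
    exact sub_eq_zero.1 (Matrix.conjTranspose_mul_self_eq_zero.1 h3)
  · have h3 : (U * E * Uᴴ) * (U * Matrix.diagonal (fun i => (f (d i) : ℂ)⁻¹) * Uᴴ) = 1 := by
      rw [conj_mul_MB h1]
      simp only [E, Matrix.diagonal_mul_diagonal, mul_inv_cancel₀ (hf0 _), Matrix.diagonal_one,
        Matrix.mul_one, h2]
    rw [← Matrix.mul_one T, ← h3, ← Matrix.mul_assoc, h0, Matrix.zero_mul]

section Rep

variable {Γ : Type} [Group Γ] (r r' : URep Γ)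

theorem adj_inter_MB {V : Matrix r'.n r.n ℂ} (hV : ∀ g, r'.π g * V = V * r.π g) (g : Γ) :
    r.π g * Vᴴ = Vᴴ * r'.π g := by
  have h := congrArg Matrix.conjTranspose (hV g⁻¹)
  rw [Matrix.conjTranspose_mul, Matrix.conjTranspose_mul, r.unit, r'.unit, inv_inv] at h
  exact h.symm

theorem exists_inter_MB [Finite Γ] (P : Matrix r.n r.n ℂ) (P' : Matrix r'.n r'.n ℂ)
    (hPs : Pᴴ = P) (hPP : P * P = P) (hPP' : P' * P' = P')
    (hP : ∀ g, r.π g * P = P * r.π g) (hP' : ∀ g, r'.π g * P' = P' * r'.π g)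
    (htr : ∀ g, (r'.π g * P').trace = (r.π g * P).trace) (h0 : P.trace ≠ 0) :
    ∃ T : Matrix r'.n r.n ℂ, T ≠ 0 ∧ (∀ g, r'.π g * T = T * r.π g) ∧ P' * T = T ∧ T * P = T := by
  classical
  have := Fintype.ofFinite Γ
  let E : Matrix r'.n r.n ℂ → Matrix r'.n r.n ℂ :=
    fun X => ∑ g, (r'.π g * P') * X * (P * r.π g⁻¹)
  have hne : ∃ X, E X ≠ 0 := by
    by_contra hc
    push Not at hc
    have h1 : ∑ i, ∑ j, E (Matrix.single i j 1) i j = 0 := by simp [hc]
    have h2 : ∀ i j, E (Matrix.single i j 1) i j =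
        ∑ g, (r'.π g * P') i i * (P * r.π g⁻¹) j j := by
      intro i j
      simp only [E, Matrix.sum_apply]
      refine Finset.sum_congr rfl fun g _ => ?_
      rw [Matrix.mul_apply, Finset.sum_eq_single j]
      · rw [Matrix.mul_single_apply_same, mul_one]
      · intro k _ hk
        rw [Matrix.mul_single_apply_of_ne _ _ _ _ _ hk, zero_mul]
      · intro h; exact absurd (Finset.mem_univ j) h
    have h3 : ∑ g, (r.π g * P).trace * star (r.π g * P).trace = 0 := by
      rw [← h1]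
      simp only [h2]
      rw [Finset.sum_congr rfl fun i _ => Finset.sum_comm, Finset.sum_comm]
      refine Finset.sum_congr rfl fun g _ => ?_
      rw [← Finset.sum_mul_sum, ← Matrix.trace_conjTranspose, Matrix.conjTranspose_mul, hPs, r.unit,
        ← htr g]
      rfl
    have h4 := (Finset.sum_eq_zero_iff_of_nonneg fun g _ =>
      mul_star_self_nonneg (r.π g * P).trace).1 h3 1 (Finset.mem_univ _)
    rw [map_one, Matrix.one_mul, mul_eq_zero, star_eq_zero, or_self] at h4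
    exact h0 h4
  obtain ⟨X, hX⟩ := hne
  refine ⟨E X, hX, fun g => ?_, ?_, ?_⟩
  · simp only [E, Matrix.mul_sum, Matrix.sum_mul]
    rw [← Equiv.sum_comp (Equiv.mulLeft g) fun k =>
      (r'.π k * P') * X * (P * r.π k⁻¹) * r.π g]
    refine Finset.sum_congr rfl fun k _ => ?_
    simp only [Equiv.coe_mulLeft, Matrix.mul_assoc]
    rw [← map_mul r.π, mul_inv_rev, inv_mul_cancel_right, map_mul, Matrix.mul_assoc]
  · simp only [E, Matrix.mul_sum]
    refine Finset.sum_congr rfl fun k _ => ?_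
    rw [← Matrix.mul_assoc, ← Matrix.mul_assoc P', hP', ← Matrix.mul_assoc P' P', hPP']
  · simp only [E, Matrix.sum_mul]
    refine Finset.sum_congr rfl fun k _ => ?_
    rw [Matrix.mul_assoc _ _ P, ← hP, Matrix.mul_assoc _ P P, hPP]

theorem extend_MB [Finite Γ] (h : r.char = r'.char) (k : ℕ) :
    ∀ V : Matrix r'.n r.n ℂ, (∀ g, r'.π g * V = V * r.π g) → V * Vᴴ * V = V →
      (k : ℂ) = (1 - Vᴴ * V).trace →
      ∃ U : Matrix r'.n r.n ℂ, Uᴴ * U = 1 ∧ U * Uᴴ = 1 ∧ ∀ g, r'.π g * U = U * r.π g := by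
  induction k using Nat.strong_induction_on with
  | _ k ih =>
  intro V hV hVV hk
  have hV' := adj_inter_MB r r' hV
  have hVV' : Vᴴ * V * Vᴴ = Vᴴ := by
    have h1 := congrArg Matrix.conjTranspose hVV
    rw [Matrix.conjTranspose_mul, Matrix.conjTranspose_mul, Matrix.conjTranspose_conjTranspose,
      ← Matrix.mul_assoc] at h1
    exact h1
  have hPs : (1 - Vᴴ * V)ᴴ = 1 - Vᴴ * V := by simp
  have hPs' : (1 - V * Vᴴ)ᴴ = 1 - V * Vᴴ := by simp
  have hVP : V * (1 - Vᴴ * V) = 0 := by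
    rw [Matrix.mul_sub, Matrix.mul_one, ← Matrix.mul_assoc, hVV, sub_self]
  have hVP' : Vᴴ * (1 - V * Vᴴ) = 0 := by
    rw [Matrix.mul_sub, Matrix.mul_one, ← Matrix.mul_assoc, hVV', sub_self]
  have hPP : (1 - Vᴴ * V) * (1 - Vᴴ * V) = 1 - Vᴴ * V := by
    rw [Matrix.sub_mul, Matrix.one_mul, Matrix.mul_assoc, hVP, Matrix.mul_zero, sub_zero]
  have hPP' : (1 - V * Vᴴ) * (1 - V * Vᴴ) = 1 - V * Vᴴ := by
    rw [Matrix.sub_mul, Matrix.one_mul, Matrix.mul_assoc, hVP', Matrix.mul_zero, sub_zero]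
  have hP : ∀ g, r.π g * (1 - Vᴴ * V) = (1 - Vᴴ * V) * r.π g := fun g => by
    rw [Matrix.mul_sub, Matrix.sub_mul, Matrix.mul_one, Matrix.one_mul, ← Matrix.mul_assoc, hV',
      Matrix.mul_assoc, hV, Matrix.mul_assoc]
  have hP' : ∀ g, r'.π g * (1 - V * Vᴴ) = (1 - V * Vᴴ) * r'.π g := fun g => by
    rw [Matrix.mul_sub, Matrix.sub_mul, Matrix.mul_one, Matrix.one_mul, ← Matrix.mul_assoc, hV,
      Matrix.mul_assoc, hV', Matrix.mul_assoc]
  have htr : ∀ g, (r'.π g * (1 - V * Vᴴ)).trace = (r.π g * (1 - Vᴴ * V)).trace := fun g => by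
    have h1 : (r.π g).trace = (r'.π g).trace := congrFun h g
    rw [Matrix.mul_sub, Matrix.mul_sub, Matrix.mul_one, Matrix.mul_one, Matrix.trace_sub,
      Matrix.trace_sub, h1, ← Matrix.mul_assoc, hV, Matrix.mul_assoc, Matrix.trace_mul_comm V,
      Matrix.mul_assoc]
  rcases Nat.eq_zero_or_pos k with rfl | hpos
  · have h1 : (1 - Vᴴ * V).trace = 0 := by rw [← hk, Nat.cast_zero]
    have h2 : (1 - V * Vᴴ).trace = 0 := by
      have h3 := htr 1
      rw [map_one, map_one, Matrix.one_mul, Matrix.one_mul, h1] at h3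
      exact h3
    have h4 : 1 - Vᴴ * V = 0 :=
      Matrix.trace_conjTranspose_mul_self_eq_zero_iff.1 (by rw [hPs, hPP, h1])
    have h5 : 1 - V * Vᴴ = 0 :=
      Matrix.trace_conjTranspose_mul_self_eq_zero_iff.1 (by rw [hPs', hPP', h2])
    exact ⟨V, (sub_eq_zero.1 h4).symm, (sub_eq_zero.1 h5).symm, hV⟩
  · obtain ⟨T, hT0, hT, hT1, hT2⟩ := exists_inter_MB r r' _ _ hPs hPP hPP' hP hP' htr (by
      rw [← hk]; exact_mod_cast hpos.ne')
    have hT' := adj_inter_MB r r' hT
    obtain ⟨S, hS1, hS2, hS3⟩ := polar_MB T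
    have hT2' : (1 - Vᴴ * V) * Tᴴ = Tᴴ := by
      have h1 := congrArg Matrix.conjTranspose hT2
      rw [Matrix.conjTranspose_mul, hPs] at h1
      exact h1
    have hSP : (1 - Vᴴ * V) * S = S * (1 - Vᴴ * V) := hS1 _ (by
      rw [← Matrix.mul_assoc, hT2', Matrix.mul_assoc, hT2])
    have hSπ : ∀ g, r.π g * S = S * r.π g := fun g => hS1 _ (by
      rw [← Matrix.mul_assoc, hT', Matrix.mul_assoc, hT, Matrix.mul_assoc])
    set W := T * S with hWdef
    have hW : ∀ g, r'.π g * W = W * r.π g := fun g => by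
      rw [hWdef, ← Matrix.mul_assoc, hT, Matrix.mul_assoc, hSπ, Matrix.mul_assoc]
    have hW1 : (1 - V * Vᴴ) * W = W := by rw [hWdef, ← Matrix.mul_assoc, hT1]
    have hW2 : W * (1 - Vᴴ * V) = W := by
      rw [hWdef, Matrix.mul_assoc, ← hSP, ← Matrix.mul_assoc, hT2]
    have hVW : Vᴴ * W = 0 := by rw [← hW1, ← Matrix.mul_assoc, hVP', Matrix.zero_mul]
    have hWV : Wᴴ * V = 0 := by
      have h1 := congrArg Matrix.conjTranspose hVW
      rwa [Matrix.conjTranspose_mul, Matrix.conjTranspose_conjTranspose,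
        Matrix.conjTranspose_zero] at h1
    have hVW' : V * Wᴴ = 0 := by
      have h1 := congrArg Matrix.conjTranspose hW2
      rw [Matrix.conjTranspose_mul, hPs] at h1
      rw [← h1, ← Matrix.mul_assoc, hVP, Matrix.zero_mul]
    have hWV' : W * Vᴴ = 0 := by
      have h1 := congrArg Matrix.conjTranspose hVW'
      rwa [Matrix.conjTranspose_mul, Matrix.conjTranspose_conjTranspose,
        Matrix.conjTranspose_zero] at h1
    have hsum : (V + W)ᴴ * (V + W) = Vᴴ * V + Wᴴ * W := by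
      rw [Matrix.conjTranspose_add, Matrix.add_mul, Matrix.mul_add, Matrix.mul_add, hVW, hWV,
        add_zero, zero_add]
    have hnew : (V + W) * (V + W)ᴴ * (V + W) = V + W := by
      rw [Matrix.mul_assoc, hsum, Matrix.add_mul, Matrix.mul_add, Matrix.mul_add,
        ← Matrix.mul_assoc V Vᴴ, ← Matrix.mul_assoc V Wᴴ, ← Matrix.mul_assoc W Vᴴ,
        ← Matrix.mul_assoc W Wᴴ, hVV, hVW', hWV', hS2, Matrix.zero_mul, Matrix.zero_mul, add_zero,
        zero_add]
    obtain ⟨q, Uq, -, -, hq⟩ := proj_factor (Wᴴ * W) (by simp) (by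
      rw [Matrix.mul_assoc, ← Matrix.mul_assoc W, hS2])
    have hq0 : q ≠ 0 := by
      rintro rfl
      rw [Nat.cast_zero] at hq
      exact hT0 (hS3 (Matrix.trace_conjTranspose_mul_self_eq_zero_iff.1 hq.symm))
    obtain ⟨k', Uk, -, -, hk'⟩ := proj_factor (1 - (V + W)ᴴ * (V + W)) (by
      rw [Matrix.conjTranspose_sub, Matrix.conjTranspose_one, Matrix.conjTranspose_mul,
        Matrix.conjTranspose_conjTranspose]) (by
      rw [Matrix.sub_mul, Matrix.one_mul, Matrix.mul_sub, Matrix.mul_one, Matrix.mul_assoc,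
        ← Matrix.mul_assoc (V + W), hnew, sub_self, sub_zero])
    have hkk : k' + q = k := by
      have h1 : ((k' + q : ℕ) : ℂ) = k := by
        rw [Nat.cast_add, hk, hk', hq, hsum, ← Matrix.trace_add]
        congr 1
        abel
      exact_mod_cast h1
    refine ih k' (by omega) (V + W) (fun g => ?_) hnew hk'
    rw [Matrix.mul_add, Matrix.add_mul, hV, hW]

end Rep

theorem char_iso {Γ : Type} [Group Γ] [Finite Γ] (r r' : URep Γ) (h : r.char = r'.char) :
    ∃ U : Matrix r'.n r.n ℂ, Uᴴ * U = 1 ∧ U * Uᴴ = 1 ∧ ∀ g, r'.π g * U = U * r.π g :=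
  extend_MB r r' h (Fintype.card r.n) 0 (fun g => by simp) (by simp) (by simp)

end Pool.Agent.Izumi
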