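import Pool.Agent.Lib.MP_b2135d_an.CoreJ
import Pool.Agent.Lib.MP_b2135d_an.MB
import Pool.Agent.Lib.MP_b2135d_an.CB2

/-! Formal properties of equivalence and induced families (PLAN section 9, J1). -/

namespace Pool.Agent.Izumi

open scoped ComplexOrder Matrix
open Filter Topology

variable {G A : Type} [Group G] [CStarAlgebra A] [PartialOrder A] [StarOrderedRing A] [Countable G] {X : Sys G A}
  {K : Subgroup G} {FF : Type} [Group FF] [Fintype FF] {q : K →* FF}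

section Sc

variable {l m n : Type}

theorem sc_mul [Fintype m] (M : Matrix l m ℂ) (N : Matrix m n ℂ) :
    sc A (M * N) = sc A M * sc A N := by
  exact Matrix.map_mul

theorem sc_one [DecidableEq n] : sc A (1 : Matrix n n ℂ) = 1 := by
  exact Matrix.map_one _ (map_zero _) (map_one _)

theorem sc_conjTranspose (M : Matrix m n ℂ) : (sc A M)ᴴ = sc A Mᴴ := by
  ext i j
  exact (algebraMap_star_comm (M j i)).symm

theorem sc_map_aut (θ : A ≃⋆ₐ[ℂ] A) (M : Matrix m n ℂ) : (sc A M).map θ = sc A M := by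
  ext i j
  exact AlgHomClass.commutes θ (M i j)

theorem ent_sc (C : StarSubalgebra ℂ A) (M : Matrix m n ℂ) : Ent C (sc A M) := by
  intro i j
  exact C.algebraMap_mem (M i j)

theorem Ent.mul [Fintype m] {C : StarSubalgebra ℂ A} {M : Matrix l m A} {N : Matrix m n A}
    (hM : Ent C M) (hN : Ent C N) : Ent C (M * N) := by
  intro i j
  rw [Matrix.mul_apply]
  exact sum_mem fun k _ => mul_mem (hM i k) (hN k j)

theorem Ent.conjTranspose {C : StarSubalgebra ℂ A} {M : Matrix m n A} (hM : Ent C M) :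
    Ent C Mᴴ := by
  intro i j
  rw [Matrix.conjTranspose_apply]
  exact star_mem (hM j i)

theorem Ent.sum {ι : Type} {C : StarSubalgebra ℂ A} (s : Finset ι) {M : ι → Matrix m n A}
    (hM : ∀ i ∈ s, Ent C (M i)) : Ent C (∑ i ∈ s, M i) := by
  intro i j
  rw [Matrix.sum_apply]
  exact sum_mem fun k hk => hM k hk i j

theorem map_aut_mul [Fintype m] (θ : A ≃⋆ₐ[ℂ] A) (M : Matrix l m A) (N : Matrix m n A) :
    (M * N).map θ = M.map θ * N.map θ := by
  exact Matrix.map_mul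

theorem map_aut_conjTranspose (θ : A ≃⋆ₐ[ℂ] A) (M : Matrix m n A) :
    Mᴴ.map θ = (M.map θ)ᴴ := by
  ext i j
  simp [Matrix.conjTranspose_apply, map_star]

theorem map_aut_sum {ι : Type} (θ : A ≃⋆ₐ[ℂ] A) (s : Finset ι) (M : ι → Matrix m n A) :
    (∑ i ∈ s, M i).map θ = ∑ i ∈ s, (M i).map θ := by
  ext i j
  simp [Matrix.sum_apply, map_sum]

theorem map_aut_one_JA [DecidableEq n] (θ : A ≃⋆ₐ[ℂ] A) : (1 : Matrix n n A).map θ = 1 :=
  Matrix.map_one _ (map_zero _) (map_one _)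

theorem ent_one_JA [DecidableEq n] (C : StarSubalgebra ℂ A) : Ent C (1 : Matrix n n A) := by
  rw [← sc_one]
  exact ent_sc _ _

variable {l' m' n' : Type}

theorem ent_blocks_JA {C : StarSubalgebra ℂ A} {M : Matrix m n A} {N : Matrix m' n' A}
    (hM : Ent C M) (hN : Ent C N) : Ent C (Matrix.fromBlocks M 0 0 N) := by
  rintro (i | i) (j | j)
  · exact hM i j
  · exact zero_mem C
  · exact zero_mem C
  · exact hN i j

theorem star_blocks_JA (M : Matrix m n A) (N : Matrix m' n' A) :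
    (Matrix.fromBlocks M 0 0 N)ᴴ = Matrix.fromBlocks Mᴴ 0 0 Nᴴ := by
  rw [Matrix.fromBlocks_conjTranspose, Matrix.conjTranspose_zero, Matrix.conjTranspose_zero]

theorem mul_blocks_JA [Fintype m] [Fintype m'] (M : Matrix l m A) (N : Matrix l' m' A)
    (P : Matrix m n A) (Q : Matrix m' n' A) :
    Matrix.fromBlocks M 0 0 N * Matrix.fromBlocks P 0 0 Q =
      Matrix.fromBlocks (M * P) 0 0 (N * Q) := by
  simp [Matrix.fromBlocks_multiply]

theorem sc_blocks_JA (M : Matrix m n ℂ) (N : Matrix m' n' ℂ) :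
    sc A (Matrix.fromBlocks M 0 0 N) = Matrix.fromBlocks (sc A M) 0 0 (sc A N) := by
  ext (i | i) (j | j) <;> simp [sc]

theorem map_blocks_JA (θ : A ≃⋆ₐ[ℂ] A) (M : Matrix m n A) (N : Matrix m' n' A) :
    (Matrix.fromBlocks M 0 0 N).map θ = Matrix.fromBlocks (M.map θ) 0 0 (N.map θ) := by
  ext (i | i) (j | j) <;> simp

theorem sum_blocks_JA {ι : Type} (s : Finset ι) (M : ι → Matrix m n A) (N : ι → Matrix m' n' A) :
    ∑ c ∈ s, Matrix.fromBlocks (M c) 0 0 (N c) =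
      Matrix.fromBlocks (∑ c ∈ s, M c) 0 0 (∑ c ∈ s, N c) := by
  ext (i | i) (j | j) <;> simp [Matrix.sum_apply]

/-- The amplification `1 ⊗ y`. -/
def ampl_JA (m : Type) [DecidableEq m] (y : Matrix n n A) : Matrix (m × n) (m × n) A :=
  Matrix.of fun i j => if i.1 = j.1 then y i.2 j.2 else 0

theorem ampl_star_JA [DecidableEq m] (y : Matrix n n A) :
    (ampl_JA m y)ᴴ = ampl_JA m yᴴ := by
  ext ⟨i, i'⟩ ⟨j, j'⟩
  by_cases h : i = j
  · simp [ampl_JA, Matrix.conjTranspose_apply, h]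
  · simp [ampl_JA, Matrix.conjTranspose_apply, h, Ne.symm h]

theorem ampl_mul_JA [Fintype m] [Fintype n] [DecidableEq m] (y z : Matrix n n A) :
    ampl_JA m y * ampl_JA m z = ampl_JA m (y * z) := by
  ext ⟨i, i'⟩ ⟨j, j'⟩
  by_cases h : i = j
  · simp [ampl_JA, Matrix.mul_apply, Fintype.sum_prod_type, h]
  · simp [ampl_JA, Matrix.mul_apply, Fintype.sum_prod_type, h]

theorem ampl_sum_JA [DecidableEq m] {ι : Type} (s : Finset ι) (y : ι → Matrix n n A) :
    ∑ c ∈ s, ampl_JA m (y c) = ampl_JA m (∑ c ∈ s, y c) := by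
  ext ⟨i, i'⟩ ⟨j, j'⟩
  by_cases h : i = j
  · simp [ampl_JA, Matrix.sum_apply, h]
  · simp [ampl_JA, Matrix.sum_apply, h]

theorem ampl_one_JA [DecidableEq m] [DecidableEq n] : ampl_JA m (1 : Matrix n n A) = 1 := by
  ext ⟨i, i'⟩ ⟨j, j'⟩
  by_cases h : i = j
  · simp [ampl_JA, Matrix.one_apply, h]
  · simp [ampl_JA, Matrix.one_apply, h]

open scoped Kronecker in
theorem ampl_act_JA [Fintype m] [Fintype n] [DecidableEq m] (θ : A ≃⋆ₐ[ℂ] A) (R : Matrix m m ℂ)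
    {S : Matrix n n ℂ} {y z : Matrix n n A} (h : sc A S * y.map θ = z * sc A S) :
    sc A (R ⊗ₖ S) * (ampl_JA m y).map θ = ampl_JA m z * sc A (R ⊗ₖ S) := by
  ext ⟨i, i'⟩ ⟨j, j'⟩
  have h1 := congrFun (congrFun h i') j'
  simp only [sc, Matrix.mul_apply, Matrix.map_apply] at h1
  have h2 : (sc A (R ⊗ₖ S) * (ampl_JA m y).map θ) (i, i') (j, j') =
      algebraMap ℂ A (R i j) * ∑ b, algebraMap ℂ A (S i' b) * θ (y b j') := by
    simp [sc, ampl_JA, Matrix.mul_apply, Fintype.sum_prod_type, apply_ite θ, Finset.mul_sum,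
      mul_assoc]
  have h3 : (ampl_JA m z * sc A (R ⊗ₖ S)) (i, i') (j, j') =
      (∑ b, z i' b * algebraMap ℂ A (S b j')) * algebraMap ℂ A (R i j) := by
    simp [sc, ampl_JA, Matrix.mul_apply, Fintype.sum_prod_type, Finset.sum_mul, mul_assoc,
      Algebra.commutes (R i j)]
  rw [h2, h3, h1, Algebra.commutes]

end Sc

theorem URep.sc_mul_inv {Γ : Type} [Group Γ] (r : URep Γ) (c : Γ) :
    sc A (r.π c) * sc A (r.π c⁻¹) = 1 := by
  rw [← sc_mul, ← map_mul, mul_inv_cancel, map_one, sc_one]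

theorem Sys.REqv.symm {r r' : URep FF} (h : X.REqv q r r') : X.REqv q r' r := by
  obtain ⟨W, hW, h1, h2, h3⟩ := h
  refine ⟨Wᴴ, hW.conjTranspose, by rwa [Matrix.conjTranspose_conjTranspose],
    by rwa [Matrix.conjTranspose_conjTranspose], fun k => ?_⟩
  have h4 : W.map (X.γ k) * Wᴴ.map (X.γ k) = 1 := by
    rw [← map_aut_mul, h2, map_aut_one_JA]
  calc sc A (r.π (q k)) * Wᴴ.map (X.γ k)
      = Wᴴ * (W * sc A (r.π (q k))) * Wᴴ.map (X.γ k) := by
        rw [← Matrix.mul_assoc Wᴴ, h1, Matrix.one_mul]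
    _ = Wᴴ * sc A (r'.π (q k)) := by
        rw [← h3, Matrix.mul_assoc, Matrix.mul_assoc, h4, Matrix.mul_one]

theorem Sys.REqv.trans {r r' r'' : URep FF} (h : X.REqv q r r') (h' : X.REqv q r' r'') :
    X.REqv q r r'' := by
  obtain ⟨W, hW, h1, h2, h3⟩ := h
  obtain ⟨V, hV, g1, g2, g3⟩ := h'
  refine ⟨V * W, hV.mul hW, ?_, ?_, fun k => ?_⟩
  · rw [Matrix.conjTranspose_mul, Matrix.mul_assoc, ← Matrix.mul_assoc Vᴴ, g1, Matrix.one_mul, h1]
  · rw [Matrix.conjTranspose_mul, Matrix.mul_assoc, ← Matrix.mul_assoc W, h2, Matrix.one_mul, g2]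
  · rw [map_aut_mul, ← Matrix.mul_assoc, g3, Matrix.mul_assoc, h3, Matrix.mul_assoc]

theorem Sys.reqv_of_char (X : Sys G A) (q : K →* FF) {r r' : URep FF} (h : r.char = r'.char) :
    X.REqv q r r' := by
  obtain ⟨U, h1, h2, h3⟩ := char_iso r r' h
  refine ⟨sc A U, ent_sc _ _, ?_, ?_, fun k => ?_⟩
  · rw [sc_conjTranspose, ← sc_mul, h1, sc_one]
  · rw [sc_conjTranspose, ← sc_mul, h2, sc_one]
  · rw [sc_map_aut, ← sc_mul, ← sc_mul, h3]

theorem Sys.REqv.sum {r r' : URep FF} (h : X.REqv q r r') (s : URep FF) :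
    X.REqv q (r.sum s) (r'.sum s) := by
  obtain ⟨W, hW, h1, h2, h3⟩ := h
  refine ⟨(Matrix.fromBlocks W 0 0 1 : Matrix (r'.n ⊕ s.n) (r.n ⊕ s.n) A),
    ent_blocks_JA hW (ent_one_JA _), ?_, ?_, fun k => ?_⟩
  · have h4 : (Matrix.fromBlocks W 0 0 1 : Matrix (r'.n ⊕ s.n) (r.n ⊕ s.n) A)ᴴ *
        (Matrix.fromBlocks W 0 0 1 : Matrix (r'.n ⊕ s.n) (r.n ⊕ s.n) A) = 1 := by
      rw [star_blocks_JA, mul_blocks_JA, h1, Matrix.conjTranspose_one, Matrix.one_mul,
        Matrix.fromBlocks_one]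
    exact h4
  · have h4 : (Matrix.fromBlocks W 0 0 1 : Matrix (r'.n ⊕ s.n) (r.n ⊕ s.n) A) *
        (Matrix.fromBlocks W 0 0 1 : Matrix (r'.n ⊕ s.n) (r.n ⊕ s.n) A)ᴴ = 1 := by
      rw [star_blocks_JA, mul_blocks_JA, h2, Matrix.conjTranspose_one, Matrix.one_mul,
        Matrix.fromBlocks_one]
    exact h4
  · have h4 : sc A (Matrix.fromBlocks (r'.π (q k)) 0 0 (s.π (q k))) *
        (Matrix.fromBlocks W 0 0 1 : Matrix (r'.n ⊕ s.n) (r.n ⊕ s.n) A).map (X.γ k) =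
        (Matrix.fromBlocks W 0 0 1 : Matrix (r'.n ⊕ s.n) (r.n ⊕ s.n) A) *
          sc A (Matrix.fromBlocks (r.π (q k)) 0 0 (s.π (q k))) := by
      rw [sc_blocks_JA, sc_blocks_JA, map_blocks_JA, mul_blocks_JA, mul_blocks_JA, h3,
        map_aut_one_JA, Matrix.mul_one, Matrix.one_mul]
    exact h4

theorem Sys.JP.of_REqv {r r' : URep FF} (h : X.JP q r) (e : X.REqv q r r') : X.JP q r' := by
  obtain ⟨y, hy⟩ := h
  obtain ⟨W, hW, h1, h2, h3⟩ := e
  refine ⟨fun c => W * y c * Wᴴ,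
    fun c => (hW.mul (hy.ent c)).mul hW.conjTranspose, fun c => ?_, fun c => ?_, ?_,
    fun k c => ?_⟩
  · rw [Matrix.conjTranspose_mul, Matrix.conjTranspose_mul, Matrix.conjTranspose_conjTranspose,
      hy.star, Matrix.mul_assoc]
  · rw [Matrix.mul_assoc, Matrix.mul_assoc W (y c) Wᴴ, ← Matrix.mul_assoc Wᴴ, h1, Matrix.one_mul,
      Matrix.mul_assoc, ← Matrix.mul_assoc (y c), hy.idem]
  · rw [← Matrix.sum_mul, ← Matrix.mul_sum, hy.sum, Matrix.mul_one, h2]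
  · have h4 : W.map (X.γ k) * Wᴴ.map (X.γ k) = 1 := by
      rw [← map_aut_mul, h2, map_aut_one_JA]
    have h5 : sc A (r.π (q k)) * Wᴴ.map (X.γ k) = Wᴴ * sc A (r'.π (q k)) :=
      calc sc A (r.π (q k)) * Wᴴ.map (X.γ k)
          = Wᴴ * (W * sc A (r.π (q k))) * Wᴴ.map (X.γ k) := by
            rw [← Matrix.mul_assoc Wᴴ, h1, Matrix.one_mul]
        _ = Wᴴ * sc A (r'.π (q k)) := by
            rw [← h3, Matrix.mul_assoc, Matrix.mul_assoc, h4, Matrix.mul_one]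
    rw [map_aut_mul, map_aut_mul, ← Matrix.mul_assoc, ← Matrix.mul_assoc, h3,
      Matrix.mul_assoc W, hy.act, Matrix.mul_assoc, Matrix.mul_assoc, h5, Matrix.mul_assoc,
      Matrix.mul_assoc]

theorem Sys.JP.sum {r s : URep FF} (hr : X.JP q r) (hs : X.JP q s) : X.JP q (r.sum s) := by
  obtain ⟨y, hy⟩ := hr
  obtain ⟨z, hz⟩ := hs
  refine ⟨fun c => (Matrix.fromBlocks (y c) 0 0 (z c) : Matrix (r.n ⊕ s.n) (r.n ⊕ s.n) A),
    fun c => ent_blocks_JA (hy.ent c) (hz.ent c), fun c => ?_, fun c => ?_, ?_, fun k c => ?_⟩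
  · have h4 : (Matrix.fromBlocks (y c) 0 0 (z c) : Matrix (r.n ⊕ s.n) (r.n ⊕ s.n) A)ᴴ =
        Matrix.fromBlocks (y c) 0 0 (z c) := by
      rw [star_blocks_JA, hy.star, hz.star]
    exact h4
  · have h4 : (Matrix.fromBlocks (y c) 0 0 (z c) : Matrix (r.n ⊕ s.n) (r.n ⊕ s.n) A) *
        Matrix.fromBlocks (y c) 0 0 (z c) = Matrix.fromBlocks (y c) 0 0 (z c) := by
      rw [mul_blocks_JA, hy.idem, hz.idem]
    exact h4
  · have h4 : ∑ c, (Matrix.fromBlocks (y c) 0 0 (z c) : Matrix (r.n ⊕ s.n) (r.n ⊕ s.n) A) =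
        1 := by
      rw [sum_blocks_JA, hy.sum, hz.sum, Matrix.fromBlocks_one]
    exact h4
  · have h4 : sc A (Matrix.fromBlocks (r.π (q k)) 0 0 (s.π (q k))) *
        (Matrix.fromBlocks (y c) 0 0 (z c) : Matrix (r.n ⊕ s.n) (r.n ⊕ s.n) A).map (X.γ k) =
        (Matrix.fromBlocks (y (q k • c)) 0 0 (z (q k • c)) : Matrix (r.n ⊕ s.n) (r.n ⊕ s.n) A) *
          sc A (Matrix.fromBlocks (r.π (q k)) 0 0 (s.π (q k))) := by
      rw [sc_blocks_JA, map_blocks_JA, mul_blocks_JA, mul_blocks_JA, hy.act, hz.act]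
    exact h4

theorem Sys.JP.tensor (r : URep FF) {s : URep FF} (hs : X.JP q s) : X.JP q (r.tensor s) := by
  obtain ⟨z, hz⟩ := hs
  refine ⟨fun c => ampl_JA r.n (z c), fun c i j => ?_, fun c => ?_, fun c => ?_, ?_,
    fun k c => ?_⟩
  · change (if i.1 = j.1 then z c i.2 j.2 else 0) ∈ X.F
    split_ifs
    · exact hz.ent c _ _
    · exact zero_mem _
  · have h4 : (ampl_JA r.n (z c))ᴴ = ampl_JA r.n (z c) := by
      rw [ampl_star_JA, hz.star]
    exact h4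
  · have h4 : ampl_JA r.n (z c) * ampl_JA r.n (z c) = ampl_JA r.n (z c) := by
      rw [ampl_mul_JA, hz.idem]
    exact h4
  · have h4 : ∑ c, ampl_JA r.n (z c) = 1 := by
      rw [ampl_sum_JA, hz.sum, ampl_one_JA]
    exact h4
  · exact ampl_act_JA (X.γ k) (r.π (q k)) (hz.act k c)

theorem Sys.jp_zero (X : Sys G A) (q : K →* FF) : X.JP q (URep.zero FF) := by
  have : IsEmpty (URep.zero FF).n := inferInstanceAs (IsEmpty Empty)
  exact ⟨fun _ => 0, fun _ i => isEmptyElim i, fun _ => Subsingleton.elim _ _,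
    fun _ => Subsingleton.elim _ _, Subsingleton.elim _ _, fun _ _ => Subsingleton.elim _ _⟩

end Pool.Agent.Izumi
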