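import Pool.Agent.Lib.MP_b2135d_an.JA
import Pool.Agent.Lib.MP_b2135d_an.DA

/-! Refining a family along a good stabiliser (PLAN section 9, J3). -/

namespace Pool.Agent.Izumi

open scoped ComplexOrder Matrix
open Filter Topology

variable {G A : Type} [Group G] [CStarAlgebra A] [PartialOrder A] [StarOrderedRing A] [Countable G] {X : Sys G A}
  {K : Subgroup G} {FF : Type} [Group FF] [Fintype FF] {q : K →* FF}

theorem diag_comm_JB {R n : Type} [Ring R] [Fintype n] [DecidableEq n] (M : Matrix n n R) (a : R)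
    (h : ∀ i j, Commute a (M i j)) :
    Matrix.diagonal (fun _ : n => a) * M = M * Matrix.diagonal (fun _ : n => a) := by
  ext i j
  rw [Matrix.diagonal_mul, Matrix.mul_diagonal]
  exact h i j

theorem Sys.jp_of_fam (hq : Function.Surjective q) {r : URep FF} {Y : Type} [Fintype Y]
    [MulAction FF Y] [MulAction.IsPretransitive FF Y] (y₀ : Y)
    (hE : X.Emb (pre q (MulAction.stabilizer FF y₀))) {y : Y → Matrix r.n r.n A}
    (hy : X.IsFam q r y) : X.JP q r := by
  obtain ⟨T, hT⟩ : ∃ T : Set A, T = Set.range fun p : Y × r.n × r.n => y p.1 p.2.1 p.2.2 :=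
    ⟨_, rfl⟩
  have hTc : T.Countable := hT ▸ Set.countable_range _
  obtain ⟨ρ, h1, h2, h3⟩ := hE.rokT FF ((MulAction.toPermHom FF FF).comp
    (q.comp (Subgroup.inclusion (pre_le q (MulAction.stabilizer FF y₀))))) hTc
  have h3' : ∀ k : K, q k • y₀ = y₀ → ∀ d, X.γ k (ρ d) = ρ (q k * d) := fun k hk d =>
    h3 ⟨k, coe_mem_pre.2 hk⟩ d
  have hg : ∀ x : Y, ∃ g : K, q g • y₀ = x := fun x => by
    obtain ⟨c, hc⟩ := MulAction.exists_smul_eq FF y₀ x
    obtain ⟨g, rfl⟩ := hq c
    exact ⟨g, hc⟩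
  choose g hg using hg
  obtain ⟨R, hR⟩ : ∃ R : Y → FF → A, ∀ x c, R x c = X.γ (g x) (ρ ((q (g x))⁻¹ * c)) :=
    ⟨_, fun _ _ => rfl⟩
  have Ract : ∀ (k : K) x c, X.γ k (R x c) = R (q k • x) (q k * c) := by
    intro k x c
    have hk : q ((g (q k • x))⁻¹ * k * g x) • y₀ = y₀ := by
      rw [map_mul, map_mul, mul_smul, mul_smul, hg x, map_inv, inv_smul_eq_iff, hg]
    have e := h3' _ hk ((q (g x))⁻¹ * c)
    have e2 : q ((g (q k • x))⁻¹ * k * g x) * ((q (g x))⁻¹ * c) =
        (q (g (q k • x)))⁻¹ * (q k * c) := by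
      rw [map_mul, map_mul, map_inv]; group
    have e3 : (k : G) * g x = g (q k • x) * (((g (q k • x))⁻¹ * k * g x : K) : G) := by
      push_cast; group
    rw [hR, hR, ← e2, ← e, act_act, act_act, e3]
  have RFT : ∀ x c, R x c ∈ X.FT T := fun x c => hR x c ▸ X.act_mem_FT _ (h1 _).1
  have Rstar : ∀ x c, star (R x c) = R x c := fun x c => by
    rw [hR, ← map_star, (h1 _).2.isSelfAdjoint.star_eq]
  have Ridem : ∀ x c, R x c * R x c = R x c := fun x c => by
    rw [hR, ← map_mul, (h1 _).2.isIdempotentElem.eq]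
  have Rsum : ∀ x, ∑ c, R x c = 1 := fun x => by
    simp_rw [hR]
    rw [← map_sum, Fintype.sum_equiv (Equiv.mulLeft (q (g x))⁻¹)
      (fun c => ρ ((q (g x))⁻¹ * c)) ρ (fun _ => rfl), h2, map_one]
  obtain ⟨D, hD⟩ : ∃ D : Y → FF → Matrix r.n r.n A,
      ∀ x c, D x c = Matrix.diagonal fun _ => R x c := ⟨_, fun _ _ => rfl⟩
  have Dy : ∀ x c x', D x c * y x' = y x' * D x c := fun x c x' => by
    rw [hD]
    refine diag_comm_JB _ _ fun i j => ?_
    exact (mem_cent.1 (X.FT_le_cent T (RFT x c)) _ (hT ▸ ⟨(x', i, j), rfl⟩)).1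
  have horth := mat_orth y hy.star hy.idem hy.sum
  refine ⟨fun c => ∑ x, y x * D x c, fun c => ?_, fun c => ?_, fun c => ?_, ?_, fun k c => ?_⟩
  · refine Ent.sum _ fun x _ => (hy.ent x).mul fun i j => ?_
    rw [hD, Matrix.diagonal_apply]
    split_ifs
    · exact X.FT_le_F T (RFT x c)
    · exact zero_mem _
  · rw [Matrix.conjTranspose_sum]
    refine Finset.sum_congr rfl fun x _ => ?_
    rw [Matrix.conjTranspose_mul, hy.star, ← Dy, hD, Matrix.diagonal_conjTranspose]
    congr 2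
    funext _
    exact Rstar x c
  · rw [Finset.sum_mul]
    refine Finset.sum_congr rfl fun x _ => ?_
    rw [Finset.mul_sum, Finset.sum_eq_single x]
    · rw [mul_assoc, ← mul_assoc (D x c), Dy, mul_assoc, ← mul_assoc, hy.idem, hD,
        Matrix.diagonal_mul_diagonal]
      simp only [Ridem]
    · intro x' _ hx
      rw [mul_assoc, ← mul_assoc (D x c), Dy, mul_assoc, ← mul_assoc, horth x x' hx.symm,
        zero_mul]
    · intro h
      exact absurd (Finset.mem_univ x) h
  · rw [Finset.sum_comm, ← hy.sum]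
    refine Finset.sum_congr rfl fun x _ => ?_
    have e : ∑ c, D x c = 1 := by
      ext i j
      rw [Matrix.sum_apply, Matrix.one_apply]
      simp only [hD, Matrix.diagonal_apply]
      split_ifs
      · exact Rsum x
      · exact Finset.sum_const_zero
    rw [← Finset.mul_sum, e, mul_one]
  · rw [map_aut_sum, Finset.mul_sum, Finset.sum_mul]
    refine Fintype.sum_equiv (MulAction.toPerm (q k)) _ _ fun x => ?_
    have e1 : (D x c).map (X.γ k) = D (q k • x) (q k * c) := by
      rw [hD, hD, Matrix.diagonal_map (map_zero _)]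
      simp only [Ract]
    have e2 : D (q k • x) (q k * c) * sc A (r.π (q k)) =
        sc A (r.π (q k)) * D (q k • x) (q k * c) := by
      rw [hD]
      exact diag_comm_JB _ _ fun i j => (Algebra.commutes _ _).symm
    rw [map_aut_mul, ← mul_assoc, hy.act, e1, mul_assoc, ← e2, ← mul_assoc]
    rfl

theorem Sys.jp_perm (hq : Function.Surjective q) (Φ : Subgroup FF) (hE : X.Emb (pre q Φ)) :
    X.JPc q (pch Φ) := by
  classical
  have := Fintype.ofFinite (FF ⧸ Φ)
  refine ⟨URep.perm FF (FF ⧸ Φ), funext fun g => URep.char_perm _ g, ?_⟩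
  have hE' : X.Emb (pre q (MulAction.stabilizer FF ((1 : FF) : FF ⧸ Φ))) := by
    rw [MulAction.stabilizer_quotient]; exact hE
  refine Sys.jp_of_fam hq ((1 : FF) : FF ⧸ Φ) hE'
    (y := fun c : FF ⧸ Φ => sc A (Matrix.single c c (1 : ℂ) : Matrix (FF ⧸ Φ) (FF ⧸ Φ) ℂ))
    ⟨fun c => ent_sc _ _, fun c => ?_, fun c => ?_, ?_, fun k c => ?_⟩
  · have e : (Matrix.single c c (1 : ℂ) : Matrix (FF ⧸ Φ) (FF ⧸ Φ) ℂ)ᴴ = Matrix.single c c 1 := by
      rw [Matrix.conjTranspose_single, star_one]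
    exact (sc_conjTranspose _).trans (congrArg (sc A) e)
  · have e : (Matrix.single c c (1 : ℂ) : Matrix (FF ⧸ Φ) (FF ⧸ Φ) ℂ) * Matrix.single c c 1 =
        Matrix.single c c 1 := by
      rw [Matrix.single_mul_single_same, mul_one]
    exact (sc_mul (A := A) _ _).symm.trans (congrArg (sc A) e)
  · change ∑ c : FF ⧸ Φ, sc A (Matrix.single c c (1 : ℂ) : Matrix (FF ⧸ Φ) (FF ⧸ Φ) ℂ) =
      (1 : Matrix (FF ⧸ Φ) (FF ⧸ Φ) A)
    ext i j
    rw [Matrix.sum_apply, Matrix.one_apply]
    simp only [sc, Matrix.map_apply, Matrix.single_apply]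
    by_cases h : i = j
    · subst h
      simp [apply_ite]
    · rw [if_neg h]
      refine Finset.sum_eq_zero fun c _ => ?_
      rw [if_neg, map_zero]
      rintro ⟨rfl, rfl⟩
      exact h rfl
  · have e : (Matrix.of fun i j => if i = q k • j then 1 else 0 : Matrix (FF ⧸ Φ) (FF ⧸ Φ) ℂ) *
        Matrix.single c c (1 : ℂ) = Matrix.single (q k • c) (q k • c) (1 : ℂ) *
          (Matrix.of fun i j => if i = q k • j then 1 else 0 : Matrix (FF ⧸ Φ) (FF ⧸ Φ) ℂ) := by
      ext i j
      by_cases hj : j = c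
      · subst hj
        by_cases hi : i = q k • j
        · subst hi
          simp
        · simp [hi]
      · by_cases hi : i = q k • c
        · subst hi
          simp [hj, Ne.symm hj]
        · simp [hj, hi]
    have e2 := congrArg (sc A) e
    rw [sc_mul, sc_mul] at e2
    rw [← sc_map_aut (X.γ k) (Matrix.single c c (1 : ℂ))] at e2
    exact e2

end Pool.Agent.Izumi
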