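import Pool.Agent.Lib.MP_b2135d_an.JA
import Pool.Agent.Lib.MP_b2135d_an.DA

/-! Induced classes of the same dimension are equivalent (PLAN section 9, J5). -/

namespace Pool.Agent.Izumi

open scoped ComplexOrder Matrix
open Filter Topology

namespace JC

variable {A : Type} [CStarAlgebra A] {l m n ι κ : Type}

/-- The entries of `M` commute with the entries of `N` and their adjoints. -/
def EC (M : Matrix l m A) (N : Matrix n ι A) : Prop :=
  ∀ i j a b, Commute (M i j) (N a b) ∧ Commute (M i j) (star (N a b))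

theorem EC.symm {M : Matrix l m A} {N : Matrix n ι A} (h : EC M N) : EC N M := fun a b i j =>
  ⟨(h i j a b).1.symm, by simpa using (h i j a b).2.star_star.symm⟩

theorem EC.ct {M : Matrix l m A} {N : Matrix n ι A} (h : EC M N) : EC Mᴴ N := fun j i a b =>
  ⟨(h.symm a b i j).2.symm, (h i j a b).1.star_star⟩

theorem EC.mul [Fintype m] {M : Matrix l m A} {M' : Matrix m κ A} {N : Matrix n ι A} (h : EC M N)
    (h' : EC M' N) : EC (M * M') N := fun i j a b =>
  ⟨Commute.sum_left _ _ _ fun k _ => (h i k a b).1.mul_left (h' k j a b).1,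
    Commute.sum_left _ _ _ fun k _ => (h i k a b).2.mul_left (h' k j a b).2⟩

theorem ec_sc (P : Matrix l m ℂ) (N : Matrix n ι A) : EC (sc A P) N := fun _ _ _ _ =>
  ⟨Algebra.commutes _ _, Algebra.commutes _ _⟩

variable [Fintype m] [Fintype n] [Fintype ι] [DecidableEq m] [DecidableEq n] [DecidableEq ι]

theorem swap {α : Matrix n ι A} {s : A} (h : EC (Matrix.diagonal fun _ : ι => s) α) :
    α * Matrix.diagonal (fun _ : ι => s) = Matrix.diagonal (fun _ : n => s) * α := by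
  ext b k
  simpa using (h k k b k).1.symm.eq

omit [Fintype m] [DecidableEq ι] in
theorem conj_scalar {f M : Matrix _ ι A} {h : ι → ι → A}
    (hf : ∀ (j j' : m) k k', f j k * star (f j' k') = if j = j' then h k k' else 0) (e : EC M f) :
    f * M * fᴴ = Matrix.diagonal fun _ => ∑ k', ∑ k, M k k' * h k k' := by
  ext j j'
  simp only [Matrix.mul_apply, Matrix.conjTranspose_apply, Finset.sum_mul, Matrix.diagonal_apply,
    ← (e _ _ _ _).1.eq, mul_assoc, hf]
  split_ifs <;> simp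

/-- A unitary matrix that turns commuting matrices into scalars. -/
structure Scr (α : Matrix n ι A) : Prop where
  u1 : αᴴ * α = 1
  u2 : α * αᴴ = 1
  s1 : ∀ M : Matrix ι ι A, EC M α → ∃ t, α * M * αᴴ = Matrix.diagonal fun _ => t
  s2 : ∀ M : Matrix n n A, EC M α → ∃ t, αᴴ * M * α = Matrix.diagonal fun _ => t

theorem scr_mu {e : ι → ι → A} (he : IsMU e) (σ : n ≃ ι) :
    Scr (Matrix.of fun j k => e k (σ j)) := by
  have h1 : ∀ (j j' : n) k k', (Matrix.of fun j k => e k (σ j)) j k *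
      star ((Matrix.of fun j k => e k (σ j)) j' k') = if j = j' then e k k' else 0 :=
    fun j j' k k' => by simp [he.star, he.mul]
  have h2 : ∀ (k k' : ι) (j j' : n), (Matrix.of fun j k => e k (σ j))ᴴ k j *
      star ((Matrix.of fun j k => e k (σ j))ᴴ k' j') = if k = k' then e (σ j) (σ j') else 0 :=
    fun j j' k k' => by simp [he.star, he.mul]
  have o1 : ∀ {p : Type} [DecidableEq p] {a b : Type} (N : Matrix a b A),
      EC (1 : Matrix p p A) N := fun N i j a b => by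
    rw [Matrix.one_apply]; split_ifs <;> simp
  refine ⟨?_, ?_, fun M h => ⟨_, conj_scalar h1 h⟩,
    fun M h => ⟨_, by simpa using conj_scalar h2 h.symm.ct.symm⟩⟩
  · simpa [Matrix.one_apply, σ.sum_comp fun k => e k k, he.sum] using conj_scalar h2 (o1 _)
  · simpa [Matrix.one_apply, he.sum] using conj_scalar h1 (o1 _)

theorem Scr.mul {P α : Matrix n _ A} (h : Scr (ι := ι) α) (p1 : Pᴴ * P = 1) (p2 : P * Pᴴ = 1)
    (p3 : ∀ {a b : Type} (N : Matrix a b A), EC P N) : Scr (P * α) := by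
  have e : ∀ {a b : Type} {M : Matrix a b A}, EC M (P * α) → EC M α := fun {_ _ M} hM => by
    have := ((p3 M).ct.mul hM.symm).symm
    rwa [← Matrix.mul_assoc, p1, Matrix.one_mul] at this
  refine ⟨?_, ?_, fun M hM => ?_, fun M hM => ?_⟩ <;> rw [Matrix.conjTranspose_mul]
  · rw [Matrix.mul_assoc, ← Matrix.mul_assoc Pᴴ, p1, Matrix.one_mul, h.u1]
  · rw [Matrix.mul_assoc, ← Matrix.mul_assoc α, h.u2, Matrix.one_mul, p2]
  · obtain ⟨t, ht⟩ := h.s1 M (e hM)
    refine ⟨t, ?_⟩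
    rw [Matrix.mul_assoc P, Matrix.mul_assoc P, ← Matrix.mul_assoc (α * M), ht, ← Matrix.mul_assoc,
      swap (p3 _).symm, Matrix.mul_assoc, p2, Matrix.mul_one]
  · obtain ⟨t, ht⟩ := h.s2 (Pᴴ * M * P) (((p3 _).ct.mul (e hM)).mul (p3 _))
    exact ⟨t, by simpa only [Matrix.mul_assoc] using ht⟩

theorem half {Y : Type} [Fintype Y] [DecidableEq Y] {y : Y → Matrix n n A}
    {y' : Y → Matrix m m A} {α : Y → Matrix m ι A} {α' : Y → Matrix n ι A}
    (a1 : ∀ c, (y c)ᴴ = y c) (a2 : ∀ c c', y c * y c' = if c = c' then y c else 0)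
    (a3 : ∑ c, y c = 1) (b1 : ∀ c, (y' c)ᴴ = y' c)
    (b2 : ∀ c c', y' c * y' c' = if c = c' then y' c else 0) (b3 : ∑ c, y' c = 1)
    (s : ∀ c, Scr (α c)) (s' : ∀ c, Scr (α' c)) (e1 : ∀ c c', EC (y' c) (y c'))
    (e2 : ∀ c c', EC (α c) (y c')) (e3 : ∀ c c', EC (α' c) (y c'))
    (e4 : ∀ c c', EC (α c) (y' c')) (e5 : ∀ c c', EC (α' c) (y' c'))
    (e6 : ∀ c c', EC (α' c) (α c')) :
    (∑ c, ∑ c', y' c' * α c * (α' c')ᴴ * y c)ᴴ * ∑ c, ∑ c', y' c' * α c * (α' c')ᴴ * y c = 1 := by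
  have ec : ∀ c₁ c₂ c' c, EC ((α c₁)ᴴ * y' c' * α c₂) (α' c) := fun c₁ c₂ c' c =>
    ((e6 _ _).symm.ct.mul (e5 _ _).symm).mul (e6 _ _).symm
  have k1 : ∀ c₁ c₂ c₁' c₂', (y' c₁' * α c₁ * (α' c₁')ᴴ * y c₁)ᴴ *
      (y' c₂' * α c₂ * (α' c₂')ᴴ * y c₂) = if c₁' = c₂' then if c₁ = c₂ then
        α' c₁ * ((α c₁)ᴴ * y' c₁' * α c₁) * (α' c₁)ᴴ * y c₁ else 0 else 0 := fun c₁ c₂ c₁' c₂' => by
    have : (y' c₁' * α c₁ * (α' c₁')ᴴ * y c₁)ᴴ * (y' c₂' * α c₂ * (α' c₂')ᴴ * y c₂) =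
        y c₁ * (α' c₁' * ((α c₁)ᴴ * (y' c₁' * y' c₂') * α c₂) * (α' c₂')ᴴ) * y c₂ := by
      simp only [Matrix.conjTranspose_mul, Matrix.conjTranspose_conjTranspose, a1, b1,
        Matrix.mul_assoc]
    rw [this, b2]
    by_cases h : c₁' = c₂'
    swap
    · simp [h]
    subst h
    rw [if_pos rfl, if_pos rfl]
    obtain ⟨t, ht⟩ := (s' c₁').s1 _ (ec c₁ c₂ c₁' c₁')
    have e := ((e3 c₁' c₁).mul (((e2 c₁ c₁).ct.mul (e1 c₁' c₁)).mul (e2 c₂ c₁))).mul
      (e3 c₁' c₁).ct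
    rw [ht] at e
    rw [ht, swap e, ← ht, Matrix.mul_assoc _ (y c₁), a2]
    split_ifs with h
    swap
    · exact Matrix.mul_zero _
    subst h
    obtain ⟨u, hu⟩ := (s c₁).s2 _ (e4 c₁ c₁').symm
    have (c : Y) := ec c₁ c₁ c₁' c
    rw [hu] at this ⊢
    rw [swap (this _), swap (this _), Matrix.mul_assoc _ (α' _), Matrix.mul_assoc _ (α' _),
      (s' _).u2, (s' _).u2]
  simp only [Matrix.conjTranspose_sum, Matrix.sum_mul, Matrix.mul_sum, k1, Finset.sum_ite_eq',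
    Finset.mem_univ, if_true]
  simp only [← Matrix.sum_mul, ← Matrix.mul_sum, b3, Matrix.mul_one, (s _).u1, (s' _).u2,
    Matrix.one_mul, a3]

end JC

open JC

variable {G A : Type} [Group G] [CStarAlgebra A] [PartialOrder A] [StarOrderedRing A] [Countable G] {X : Sys G A}
  {K : Subgroup G} {FF : Type} [Group FF] [Fintype FF] {q : K →* FF}

omit [StarOrderedRing A] [Countable G] in
theorem JC.fam_copy {r : URep FF} {y : FF → Matrix r.n r.n A} (h : X.IsFam q r y) {T : Set A}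
    (hT : T.Countable) :
    ∃ z : FF → Matrix r.n r.n A, X.IsFam q r z ∧ ∀ c, Ent (X.FT T) (z c) := by
  obtain ⟨𝒮, Ψ, hS, hΨ⟩ := X.ic (Set.range fun p : FF × r.n × r.n => y p.1 p.2.1 p.2.2) T
    (Set.countable_range _) hT (by rintro _ ⟨p, rfl⟩; exact h.ent _ _ _)
  have m : ∀ c i j, y c i j ∈ 𝒮 := fun c i j => hS ⟨(c, i, j), rfl⟩
  refine ⟨fun c => (y c).map Ψ, ⟨fun c i j => X.FT_le_F T (hΨ.mem _ (m c i j)), fun c => ?_,
    fun c => ?_, ?_, fun k c => ?_⟩, fun c i j => hΨ.mem _ (m c i j)⟩ <;> ext i j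
  · rw [Matrix.conjTranspose_apply, Matrix.map_apply, Matrix.map_apply, ← hΨ.map_star _ (m _ _ _),
      ← Matrix.conjTranspose_apply, h.star]
  · conv_rhs => rw [← h.idem]
    simp only [Matrix.mul_apply, Matrix.map_apply, map_sum, hΨ.map_mul _ (m _ _ _) _ (m _ _ _)]
  · simp only [Matrix.sum_apply, Matrix.map_apply, ← map_sum]
    rw [← Matrix.sum_apply, h.sum, Matrix.one_apply, apply_ite Ψ, hΨ.map_one, map_zero]
  · have := congrArg Ψ (congrFun (congrFun (h.act k c) i) j)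
    simp only [Matrix.mul_apply, Matrix.map_apply, sc, ← Algebra.commutes, ← Algebra.smul_def,
      map_sum, map_smul, hΨ.map_act _ _ (m _ _ _)] at this ⊢
    exact this

theorem Sys.j5 (hq : Function.Surjective q) (hN : X.Emb (pre q ⊥)) {r r' : URep FF}
    (hr : X.JP q r) (hr' : X.JP q r') (hd : Fintype.card r.n = Fintype.card r'.n) :
    X.REqv q r r' := by
  classical
  obtain ⟨σ⟩ := Fintype.card_eq.1 hd.symm
  rcases isEmpty_or_nonempty r.n with h0 | h0
  · have := σ.isEmpty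
    exact ⟨0, fun i => isEmptyElim i, Subsingleton.elim _ _, Subsingleton.elim _ _,
      fun _ => Subsingleton.elim _ _⟩
  obtain ⟨y, hy⟩ := hr
  obtain ⟨y₀, hy₀⟩ := hr'
  choose s hs using hq
  let T₁ := Set.range fun p : FF × r.n × r.n => y p.1 p.2.1 p.2.2
  have c1 : T₁.Countable := Set.countable_range _
  obtain ⟨z, hz, z1⟩ := fam_copy hy₀ c1
  let T₂ := T₁ ∪ Set.range fun p : FF × r'.n × r'.n => z p.1 p.2.1 p.2.2
  have c2 : T₂.Countable := c1.union (Set.countable_range _)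
  obtain ⟨e, he, e1⟩ := hN.divT r.n c2
  let T₃ := T₂ ∪ Set.range fun p : r.n × r.n => e p.1 p.2
  obtain ⟨f, hf, f1⟩ := hN.divT r.n (c2.union (Set.countable_range _) : T₃.Countable)
  have cm : ∀ {T : Set A} {x t : A}, x ∈ X.FT T → t ∈ T → ∀ g : G,
      Commute (X.γ g x) t ∧ Commute (X.γ g x) (star t) := fun hx ht g => by
    simpa only [act_one] using And.intro (X.commute_of_FT hx ht g 1) (X.commute_star_of_FT hx ht g 1)
  have tr : ∀ x ∈ Fix X.γ (pre q ⊥), ∀ (k : K) c, X.γ k (X.γ (s c) x) = X.γ (s (q k * c)) x :=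
    fun x hx k c => by
      have := hx _ ((coe_mem_pre (k := (s (q k * c))⁻¹ * k * s c)).2 (by simp [hs, mul_assoc]))
      conv_rhs => rw [← this]
      rw [act_act, act_act]
      congr 2
      simp [mul_assoc]
  have un : ∀ (ρ : URep FF) c, (sc A (ρ.π c))ᴴ = sc A (ρ.π c⁻¹) := fun ρ c => by
    rw [sc_conjTranspose, ρ.unit]
  have key : ∀ (ρ : URep FF) (τ : ρ.n ≃ r.n) (u : r.n → r.n → A), IsMU u →
      (∀ i j, u i j ∈ X.F ∧ u i j ∈ Fix X.γ (pre q ⊥)) → ∃ α : FF → Matrix ρ.n r.n A,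
      (∀ c, Scr (α c) ∧ Ent X.F (α c)) ∧
      (∀ (k : K) c, sc A (ρ.π (q k)) * (α c).map (X.γ k) = α (q k * c)) ∧
      ∀ c {a b : Type} (N : Matrix a b A), (∀ i j a b, Commute (X.γ (s c) (u i j)) (N a b) ∧
        Commute (X.γ (s c) (u i j)) (star (N a b))) → EC (α c) N := fun ρ τ u hu u1 => by
    refine ⟨fun c => sc A (ρ.π c) * Matrix.of fun j k => X.γ (s c) (u k (τ j)), fun c =>
      ⟨(scr_mu (hu.map_aut _) τ).mul ?_ ?_ (ec_sc _), (ent_sc _ _).mul fun j k =>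
        X.act_mem_F _ (u1 _ _).1⟩, fun k c => ?_, fun c _ _ N h =>
          (ec_sc _ _).mul fun i j a b => h _ _ _ _⟩
    · simpa [un] using ρ.sc_mul_inv (A := A) c⁻¹
    · rw [un, ρ.sc_mul_inv]
    · rw [map_aut_mul, sc_map_aut, ← Matrix.mul_assoc, ← sc_mul, ← map_mul]
      congr 1
      ext j l
      exact tr _ (u1 _ _).2 k c
  obtain ⟨α, a1, a2, a3⟩ := key r' σ e he fun i j => ⟨X.FT_le_F _ (e1 i j).1, (e1 i j).2⟩
  obtain ⟨β, b1, b2, b3⟩ := key r (Equiv.refl _) f hf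
    fun i j => ⟨X.FT_le_F _ (f1 i j).1, (f1 i j).2⟩
  have or : ∀ {ρ : URep FF} {w : FF → Matrix ρ.n ρ.n A}, X.IsFam q ρ w → ∀ c c',
      w c * w c' = if c = c' then w c else 0 := fun h c c' => by
    split_ifs with e
    · rw [← e, h.idem]
    · exact mat_orth _ h.star h.idem h.sum c c' e
  have p1 : ∀ c c', EC (z c) (y c') := fun c c' i j a b => by
    simpa only [act_one] using cm (z1 c i j) ⟨(c', a, b), rfl⟩ 1
  have p2 : ∀ c c', EC (α c) (y c') := fun c c' => a3 c _ fun i j a b =>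
    cm (e1 i j).1 (Or.inl ⟨(c', a, b), rfl⟩) _
  have p3 : ∀ c c', EC (β c) (y c') := fun c c' => b3 c _ fun i j a b =>
    cm (f1 i j).1 (Or.inl (Or.inl ⟨(c', a, b), rfl⟩)) _
  have p4 : ∀ c c', EC (α c) (z c') := fun c c' => a3 c _ fun i j a b =>
    cm (e1 i j).1 (Or.inr ⟨(c', a, b), rfl⟩) _
  have p5 : ∀ c c', EC (β c) (z c') := fun c c' => b3 c _ fun i j a b =>
    cm (f1 i j).1 (Or.inl (Or.inr ⟨(c', a, b), rfl⟩)) _
  have p6 : ∀ c c', EC (β c) (α c') := fun c c' => b3 c _ fun i j a b =>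
    (a3 c' (Matrix.of fun (_ _ : Unit) => X.γ (s c) (f i j)) fun i' j' _ _ =>
      ⟨(X.commute_of_FT (f1 i j).1 (Or.inr ⟨(i', j'), rfl⟩) _ _).symm, by
        simpa using (X.commute_star_of_FT (f1 i j).1 (Or.inr ⟨(i', j'), rfl⟩)
          (s c) (s c')).star_star.symm⟩).symm () () a b
  refine ⟨∑ c, ∑ c', z c' * α c * (β c')ᴴ * y c, Ent.sum _ fun c _ => Ent.sum _ fun c' _ =>
    (((hz.ent _).mul (a1 _).2).mul (b1 _).2.conjTranspose).mul (hy.ent _),
    half hy.star (or hy) hy.sum hz.star (or hz) hz.sum (fun c => (a1 c).1) (fun c => (b1 c).1)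
      p1 p2 p3 p4 p5 p6, ?_, fun k => ?_⟩
  · have := half hz.star (or hz) hz.sum hy.star (or hy) hy.sum (fun c => (b1 c).1)
      (fun c => (a1 c).1) (fun c c' => (p1 c' c).symm) p5 p4 p3 p2 fun c c' => (p6 c' c).symm
    rw [Finset.sum_comm] at this
    simpa only [Matrix.conjTranspose_sum, Matrix.conjTranspose_mul,
      Matrix.conjTranspose_conjTranspose, hy.star, hz.star, Matrix.mul_assoc] using this
  · simp only [map_aut_sum, Matrix.mul_sum, Matrix.sum_mul]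
    refine Fintype.sum_equiv (Equiv.mulLeft (q k)) _ _ fun c =>
      Fintype.sum_equiv (Equiv.mulLeft (q k)) _ _ fun c' => ?_
    have e : ((β c').map (X.γ k))ᴴ = (β (q k * c'))ᴴ * sc A (r.π (q k)) := by
      have := r.sc_mul_inv (A := A) (q k)⁻¹
      rw [inv_inv] at this
      rw [← b2, Matrix.conjTranspose_mul, un, Matrix.mul_assoc, this, Matrix.mul_one]
    rw [map_aut_mul, map_aut_mul, map_aut_mul, map_aut_conjTranspose, e]
    simp only [← Matrix.mul_assoc]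
    rw [hz.act, Matrix.mul_assoc (z _), a2, Matrix.mul_assoc _ (sc A _), hy.act,
      ← Matrix.mul_assoc]
    rfl

end Pool.Agent.Izumi
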