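import Pool.Agent.Lib.MP_b2135d_an.TB
import Pool.Agent.Lib.MP_b2135d_an.SA

/-! Tracial towers (PLAN section 6). -/

namespace Pool.Agent.Izumi

open scoped ComplexOrder Matrix
open Filter Topology

variable {G A : Type} [Group G] [CStarAlgebra A] [PartialOrder A] [StarOrderedRing A] [Countable G]

/-- Positive families in `F` with sum at most one. -/
def Sys.tcAdm (X : Sys G A) {Y : Type} [Fintype Y] (x : Y → A) : Prop :=
  (∀ y, x y ∈ X.F ∧ 0 ≤ x y ∧ x y ≤ 1) ∧ 0 ≤ ∑ y, x y ∧ ∑ y, x y ≤ 1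

/-- All powers have total trace at least one. -/
def Sys.tcBig (X : Sys G A) {Y : Type} [Fintype Y] (x : Y → A) : Prop :=
  ∀ m : ℕ, 1 ≤ (X.τ (∑ y, x y ^ m)).re

omit [Countable G] in
theorem Sys.tc_adm_of (X : Sys G A) {Y : Type} [Fintype Y] {x : Y → A}
    (h : ∀ y, x y ∈ X.F ∧ 0 ≤ x y) (h1 : ∑ y, x y ≤ 1) : X.tcAdm x :=
  ⟨fun y => ⟨(h y).1, (h y).2,
    (Finset.single_le_sum (fun y _ => (h y).2) (Finset.mem_univ y)).trans h1⟩,
    Finset.sum_nonneg fun y _ => (h y).2, h1⟩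

omit [Countable G] in
theorem Sys.tc_defn_mem (X : Sys G A) (Y : Type) [Fintype Y] :
    Defn X.τ X.γ fun x : Y → A => ∀ y, x y ∈ X.F ∧ 0 ≤ x y ∧ x y ≤ 1 :=
  Defn.forall fun y => (Defn.mem_cent X.T0_count (.var y)).and (Defn.between (.var y))

omit [Countable G] in
theorem Sys.tc_defn_adm (X : Sys G A) (Y : Type) [Fintype Y] :
    Defn X.τ X.γ fun x : Y → A => X.tcAdm x :=
  (X.tc_defn_mem Y).and (Defn.between (IsTerm.sum _ fun y _ => .var y))

omit [Countable G] in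
theorem Sys.tc_defn_big (X : Sys G A) (Y : Type) [Fintype Y] :
    Defn X.τ X.γ fun x : Y → A => X.tcBig x :=
  Defn.forall fun m => Defn.tr_ge (IsTerm.sum _ fun y _ => (IsTerm.var y).pow m) 1

theorem tc_norm_le {a : A} (h0 : 0 ≤ a) (h1 : a ≤ 1) : ‖a‖ ≤ 1 :=
  (CStarAlgebra.norm_le_one_iff_of_nonneg a h0).2 h1

theorem tc_pow_le {a : A} (h0 : 0 ≤ a) (h1 : a ≤ 1) (m : ℕ) : a ^ m ≤ 1 := by
  simpa using CStarAlgebra.pow_antitone h0 h1 (Nat.zero_le m)

theorem tc_sq_le {a : A} (h0 : 0 ≤ a) (h1 : a ≤ 1) : a * a ≤ a := by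
  simpa [sq] using CStarAlgebra.pow_antitone h0 h1 (one_le_two (α := ℕ))

theorem tc_tr_pow {τ : A →ₚ[ℂ] ℂ} (h : IsTracialState τ) {a : A} (h0 : 0 ≤ a) (h1 : a ≤ 1)
    (m : ℕ) : (τ a).re - m * ((τ a).re - (τ (a * a)).re) ≤ (τ (a ^ (m + 1))).re := by
  induction m with
  | zero => simp
  | succ m ih =>
    have h2 := tr_mul_le h (sub_nonneg.2 (tc_sq_le h0 h1)) (tc_pow_le h0 h1 m)
    have h3 : (a - a * a) * a ^ m = a ^ (m + 1) - a ^ (m + 1 + 1) := by
      rw [sub_mul, pow_succ' a (m + 1), pow_succ' a m, mul_assoc]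
    rw [h3, map_sub, map_sub, Complex.sub_re, Complex.sub_re] at h2
    push_cast
    linarith

omit [PartialOrder A] [StarOrderedRing A] in
theorem tc_act_smul (θ : A ≃⋆ₐ[ℂ] A) (c : ℝ) (x : A) : θ (c • x) = c • θ x := by
  rw [← Complex.coe_smul, map_smul, Complex.coe_smul]

omit [PartialOrder A] [StarOrderedRing A] in
theorem tc_sum_sub {ι : Type} [DecidableEq ι] (s t : Finset ι) (hc : s.card = t.card) (f : ι → A)
    (hf : ∀ i, ‖f i‖ ≤ 1) :
    ‖∑ i ∈ s, f i - ∑ i ∈ t, f i‖ ≤ 2 * ((t.card : ℝ) - (t ∩ s).card) := by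
  rw [← Finset.sum_sdiff_sub_sum_sdiff]
  have h : ∀ u : Finset ι, ‖∑ i ∈ u, f i‖ ≤ u.card := fun u =>
    (norm_sum_le _ _).trans (by simpa using Finset.sum_le_card_nsmul u _ 1 fun i _ => hf i)
  have h1 : ((s \ t).card : ℝ) + (s ∩ t).card = s.card := by
    exact_mod_cast Finset.card_sdiff_add_card_inter s t
  have h2 : ((t \ s).card : ℝ) + (t ∩ s).card = t.card := by
    exact_mod_cast Finset.card_sdiff_add_card_inter t s
  rw [Finset.inter_comm s t, hc] at h1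
  linarith [norm_sub_le (∑ i ∈ s \ t, f i) (∑ i ∈ t \ s, f i), h (s \ t), h (t \ s)]

/-- First step: equivariance in the 2-seminorm. -/
theorem Sys.tc_one (X : Sys G A) (K : Subgroup G) {Y : Type} [Fintype Y] [Nonempty Y]
    [MulAction K Y] : ∃ E : Y → A, X.tcAdm E ∧ X.tcBig E ∧
      ∀ (l : K) y, n2 X.τ (X.γ (l : G) (E (l⁻¹ • y)) - E y) = 0 := by
  obtain ⟨E, -, hE, -, h⟩ := X.sat.approx (κ := Empty) (κ' := K) (fun _ : Y => 1)
    (X.tc_defn_adm Y) (fun k => k.elim) (fun k => k.elim)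
    (fun l x => ∑ y, x y * X.γ (l : G) (x (l⁻¹ • y)))
    (fun l => IsTerm.sum _ fun y _ => (IsTerm.var y).mul (.act _ (.var _))) (fun _ => 1)
    (fun _ s ε hε => by
      obtain ⟨E, h1, h2, h3⟩ := X.fill K (Y := Y) s hε
      have h4 := X.tc_adm_of h1 h2
      refine ⟨E, fun y => tc_norm_le (h4.1 y).2.1 (h4.1 y).2.2, h4, fun k => k.elim,
        fun l hl => ?_⟩
      rw [map_sum, Complex.re_sum]
      exact h3 l hl)
  simp only [map_sum, Complex.re_sum] at h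
  have h1 : ∑ y, (X.τ (E y)).re ≤ 1 := by
    have := tr_re_le_one X.tr hE.2.2
    rwa [map_sum, Complex.re_sum] at this
  have h2 : ∀ y, (X.τ (E y * E y)).re ≤ (X.τ (E y)).re := fun y =>
    tr_re_mono _ (tc_sq_le (hE.1 y).2.1 (hE.1 y).2.2)
  have h3 : ∑ y, (X.τ (E y * E y)).re ≤ ∑ y, (X.τ (E y)).re := Finset.sum_le_sum fun y _ => h2 y
  have h4 : 1 ≤ ∑ y, (X.τ (E y * E y)).re := by simpa [act_one] using h 1
  refine ⟨E, hE, fun m => ?_, fun l y => ?_⟩
  · rw [map_sum, Complex.re_sum]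
    rcases m with _ | m
    · have : (1 : ℝ) ≤ Fintype.card Y := by exact_mod_cast Fintype.card_pos
      simpa [X.tr.1] using this
    · have h5 := Finset.sum_le_sum fun y (_ : y ∈ Finset.univ) =>
        tc_tr_pow X.tr (hE.1 y).2.1 (hE.1 y).2.2 m
      rw [Finset.sum_sub_distrib, ← Finset.mul_sum, Finset.sum_sub_distrib] at h5
      have h6 : ∑ y, (X.τ (E y)).re - ∑ y, (X.τ (E y * E y)).re = 0 := by linarith
      rw [h6] at h5
      linarith
  · have h5 : ∀ y, n2 X.τ (X.γ (l : G) (E (l⁻¹ • y)) - E y) ^ 2 =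
        (X.τ (E (l⁻¹ • y) * E (l⁻¹ • y))).re + (X.τ (E y * E y)).re -
          2 * (X.τ (E y * X.γ (l : G) (E (l⁻¹ • y)))).re := fun y => by
      have e1 : star (E y) = E y := (hE.1 y).2.1.isSelfAdjoint
      have e2 : star (E (l⁻¹ • y)) = E (l⁻¹ • y) := (hE.1 _).2.1.isSelfAdjoint
      rw [n2_sq, star_sub, ← map_star, e1, e2, sub_mul, mul_sub, mul_sub, ← map_mul, map_sub,
        map_sub, map_sub, X.inv, X.tr.2 (X.γ _ _) (E y)]
      simp only [Complex.sub_re]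
      ring
    have h6 : ∑ y, (X.τ (E (l⁻¹ • y) * E (l⁻¹ • y))).re = ∑ y, (X.τ (E y * E y)).re :=
      Equiv.sum_comp (MulAction.toPerm l⁻¹) fun y => (X.τ (E y * E y)).re
    have h7 : ∑ y, n2 X.τ (X.γ (l : G) (E (l⁻¹ • y)) - E y) ^ 2 ≤ 0 := by
      simp only [h5]
      rw [Finset.sum_sub_distrib, Finset.sum_add_distrib, ← Finset.mul_sum, h6]
      linarith [h l]
    have h8 := (Finset.single_le_sum (f := fun y => n2 X.τ (X.γ (l : G) (E (l⁻¹ • y)) - E y) ^ 2)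
      (fun y _ => sq_nonneg _) (Finset.mem_univ y)).trans h7
    exact pow_eq_zero_iff two_ne_zero |>.1 (le_antisymm h8 (sq_nonneg _))

/-- Second step: exact equivariance. -/
theorem Sys.tc_two (X : Sys G A) (K : Subgroup G) {Y : Type} [Fintype Y] [Nonempty Y]
    [MulAction K Y] : ∃ b : Y → A, X.tcAdm b ∧ X.tcBig b ∧
      ∀ (k : K) y, X.γ (k : G) (b y) = b (k • y) := by
  classical
  obtain ⟨E, hE, hbig, hn⟩ := X.tc_one K (Y := Y)
  obtain ⟨b, -, hb, h⟩ := X.sat.approx_eq (κ := K × Y) (fun _ : Y => 1)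
    ((X.tc_defn_adm Y).and (X.tc_defn_big Y))
    (fun p x => X.γ (p.1 : G) (x p.2) - x (p.1 • p.2))
    (fun p => (IsTerm.act _ (.var _)).sub (.var _))
    (fun s ε hε => by
      obtain ⟨Λ, hΛ, hF⟩ := X.foel K (s.image Prod.fst) (ε / 2) (half_pos hε)
      have hc : (0 : ℝ) < Λ.card := by exact_mod_cast hΛ.card_pos
      let T : K → Y → A := fun l y => X.γ (l : G) (E (l⁻¹ • y))
      let b : Y → A := fun y => (Λ.card : ℝ)⁻¹ • ∑ l ∈ Λ, T l y
      have hT : ∀ l y, ‖T l y‖ ≤ 1 := fun l y =>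
        (norm_act _ _ _).trans_le (tc_norm_le (hE.1 _).2.1 (hE.1 _).2.2)
      have hone : ∀ z : A, (Λ.card : ℝ)⁻¹ • ∑ _l ∈ Λ, z = z := fun z => by
        rw [Finset.sum_const, ← Nat.cast_smul_eq_nsmul ℝ, smul_smul, inv_mul_cancel₀ hc.ne',
          one_smul]
      have hadm : X.tcAdm b := by
        refine X.tc_adm_of (fun y => ⟨?_, ?_⟩) ?_
        · simp only [b]
          rw [← Complex.coe_smul]
          exact X.F.smul_mem (sum_mem fun l _ => X.act_mem_F _ (hE.1 _).1) _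
        · exact smul_nonneg (inv_nonneg.2 hc.le)
            (Finset.sum_nonneg fun l _ => map_nonneg _ (hE.1 _).2.1)
        · simp only [b]
          rw [← Finset.smul_sum, Finset.sum_comm, ← hone 1]
          refine smul_le_smul_of_nonneg_left (Finset.sum_le_sum fun l _ => ?_)
            (inv_nonneg.2 hc.le)
          have h1 : ∑ y, T l y = X.γ (l : G) (∑ y, E y) := by
            rw [map_sum]
            exact Equiv.sum_comp (MulAction.toPerm l⁻¹) fun y => X.γ (l : G) (E y)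
          rw [h1, ← map_one (X.γ (l : G))]
          exact OrderHomClass.mono _ hE.2.2
      have hnb : ∀ y, ‖b y‖ ≤ 1 := fun y => tc_norm_le (hadm.1 y).2.1 (hadm.1 y).2.2
      refine ⟨b, hnb, ⟨hadm, fun m => ?_⟩, fun p hp => ?_⟩
      · have h1 : ∀ y, X.τ (b y ^ m) = X.τ (E y ^ m) := fun y => by
          have h2 := tr_pow_sub_le X.tr (hnb y) (tc_norm_le (hE.1 y).2.1 (hE.1 y).2.2) m
          have h3 : b y - E y = (Λ.card : ℝ)⁻¹ • ∑ l ∈ Λ, (T l y - E y) := by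
            rw [Finset.sum_sub_distrib, smul_sub, hone]
          have h4 := n2_sum_le X.τ Λ fun l => T l y - E y
          simp only [T, hn, Finset.sum_const_zero] at h4
          rw [h3, n2_real_smul, le_antisymm h4 (n2_nonneg _ _), mul_zero, mul_zero] at h2
          exact sub_eq_zero.1 (norm_le_zero_iff.1 h2)
        have h2 := hbig m
        simp only [map_sum, h1] at h2 ⊢
        exact h2
      · obtain ⟨k, y⟩ := p
        have h1 := hF k (Finset.mem_image_of_mem _ hp)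
        have h2 : {x | x ∈ Λ ∧ k⁻¹ * x ∈ Λ} = ((Λ ∩ Λ.image (k * ·) : Finset K) : Set K) := by
          ext x
          simp only [Set.mem_ofPred_eq, Finset.coe_inter, Finset.coe_image, Set.mem_inter_iff,
            Finset.mem_coe, Set.mem_image]
          exact and_congr_right fun _ => ⟨fun h => ⟨_, h, mul_inv_cancel_left _ _⟩,
            fun ⟨z, hz, e⟩ => by rwa [← e, inv_mul_cancel_left]⟩
        rw [h2, Set.ncard_coe_finset] at h1
        have h3 : X.γ (k : G) (∑ l ∈ Λ, T l y) = ∑ l ∈ Λ.image (k * ·), T l (k • y) := by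
          rw [Finset.sum_image fun _ _ _ _ h => mul_left_cancel h, map_sum]
          refine Finset.sum_congr rfl fun l _ => ?_
          simp only [T, act_act, mul_inv_rev, mul_smul, inv_smul_smul, Subgroup.coe_mul]
        have h4 := tc_sum_sub (Λ.image (k * ·)) Λ
          (Finset.card_image_of_injective _ (mul_right_injective k)) (fun l => T l (k • y))
          fun l => hT l _
        simp only [b]
        rw [tc_act_smul, h3, ← smul_sub, norm_smul, norm_inv, Real.norm_natCast,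
          inv_mul_le_iff₀ hc]
        linarith)
  exact ⟨b, hb.1, hb.2, fun k y => sub_eq_zero.1 (h (k, y))⟩

theorem Sys.tt (X : Sys G A) (K : Subgroup G) {Y : Type} [Fintype Y] [Nonempty Y]
    [MulAction K Y] [MulAction.IsPretransitive K Y] :
    ∃ a : Y → A, (∀ y, a y ∈ X.F ∧ 0 ≤ a y ∧ a y ≤ 1) ∧ (∀ y y', y ≠ y' → a y * a y' = 0) ∧
      (∀ (k : K) y, X.γ (k : G) (a y) = a (k • y)) ∧
        ∀ y (m : ℕ), 1 / (Fintype.card Y : ℝ) ≤ (X.τ (a y ^ m)).re := by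
  obtain ⟨b, hb, hbig, heq⟩ := X.tc_two K (Y := Y)
  obtain ⟨a, -, ⟨h1, h2, h3⟩, h4⟩ := X.sat.approx_eq (κ := {p : Y × Y // p.1 ≠ p.2})
    (fun _ : Y => 1)
    (P := fun x => (∀ y, x y ∈ X.F ∧ 0 ≤ x y ∧ x y ≤ 1) ∧ X.tcBig x ∧
      ∀ (k : K) y, X.γ (k : G) (x y) = x (k • y))
    ((X.tc_defn_mem Y).and ((X.tc_defn_big Y).and (Defn.forall fun k => Defn.forall fun y =>
      Defn.eq (.act _ (.var _)) (.var _))))
    (fun p x => x p.1.1 * x p.1.2) (fun p => (IsTerm.var _).mul (.var _))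
    (fun s ε hε => by
      obtain ⟨N, hN⟩ := exists_nat_one_div_lt (sq_pos_of_pos hε)
      have h0 : ∀ y, 0 ≤ b y ^ (N + 1) := fun y => CStarAlgebra.pow_nonneg (hb.1 y).2.1 _
      have h1 : ∀ y, b y ^ (N + 1) ≤ 1 := fun y => tc_pow_le (hb.1 y).2.1 (hb.1 y).2.2 _
      refine ⟨fun y => b y ^ (N + 1), fun y => tc_norm_le (h0 y) (h1 y),
        ⟨fun y => ⟨pow_mem (hb.1 y).1 _, h0 y, h1 y⟩, fun m => ?_, fun k y => ?_⟩, fun p _ => ?_⟩
      · simp only [← pow_mul]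
        exact hbig _
      · rw [map_pow, heq]
      · have h2 := pow_orth (hb.1 p.1.1).2.1 (hb.1 p.1.2).2.1
          ((Finset.add_le_sum (fun y _ => (hb.1 y).2.1) (Finset.mem_univ _) (Finset.mem_univ _)
            p.2).trans hb.2.2) N.succ_pos
        have h3 : 1 / (2 * ((N.succ : ℕ) : ℝ) + 1) ≤ 1 / ((N : ℝ) + 1) := by
          refine one_div_le_one_div_of_le (by positivity) ?_
          push_cast
          linarith [Nat.cast_nonneg (α := ℝ) N]
        exact (pow_le_pow_iff_left₀ (norm_nonneg _) hε.le two_ne_zero).1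
          (h2.trans (h3.trans hN.le)))
  refine ⟨a, h1, fun y y' h => h4 ⟨(y, y'), h⟩, h3, fun y m => ?_⟩
  have h5 : ∀ y', X.τ (a y' ^ m) = X.τ (a y ^ m) := fun y' => by
    obtain ⟨k, rfl⟩ := MulAction.exists_smul_eq K y y'
    rw [← h3, ← map_pow, X.inv]
  have h6 := h2 m
  have hc : (0 : ℝ) < Fintype.card Y := by exact_mod_cast Fintype.card_pos
  rw [map_sum, Complex.re_sum] at h6
  simp only [h5, Finset.sum_const, Finset.card_univ, nsmul_eq_mul] at h6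
  rwa [div_le_iff₀' hc]

theorem Sys.tt_hom (X : Sys G A) {K : Subgroup G} {FF : Type} [Group FF] [Fintype FF]
    (q : K →* FF) (hq : Function.Surjective q) :
    ∃ a : FF → A, (∀ c, a c ∈ X.F ∧ 0 ≤ a c ∧ a c ≤ 1) ∧ (∀ c c', c ≠ c' → a c * a c' = 0) ∧
      (∀ (k : K) c, X.γ (k : G) (a c) = a (q k * c)) ∧
        ∀ c (m : ℕ), 1 / (Fintype.card FF : ℝ) ≤ (X.τ (a c ^ m)).re := by
  let _ : MulAction K FF := MulAction.compHom FF q
  have : MulAction.IsPretransitive K FF := ⟨fun c c' => by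
    obtain ⟨k, hk⟩ := hq (c' * c⁻¹)
    exact ⟨k, show q k * c = c' by rw [hk, inv_mul_cancel_right]⟩⟩
  exact X.tt K

omit [Countable G] in
theorem ZCtx.tc_deg {H K : Subgroup G} {g : G} (hz : ZCtx H K g) :
    ∃ d : K →* Multiplicative ℤ, d ⟨g, hz.mem⟩ = Multiplicative.ofAdd 1 ∧
      ∀ k : K, (k : G) ∈ H → d k = 1 := by
  choose n h hh e using hz.gen
  have key : ∀ (k : K) (m : ℤ), g ^ (-m) * k ∈ H → n k k.2 = m := fun k m hm => by
    rw [e k k.2, ← mul_assoc, ← zpow_add, H.mul_mem_cancel_right (hh k k.2)] at hm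
    have := hz.free _ hm
    omega
  refine ⟨MonoidHom.mk' (fun k => Multiplicative.ofAdd (n k k.2)) fun k k' => ?_, ?_,
    fun k hk => ?_⟩
  · rw [← ofAdd_add, key (k * k') (n k k.2 + n k' k'.2)]
    have h1 := hz.normal _ (K.zpow_mem hz.mem (-n k' k'.2)) _ (hh k k.2)
    have h2 := H.mul_mem h1 (hh k' k'.2)
    have h3 : ∀ (x x' y y' : G) (m m' : ℤ), x = g ^ m * y → x' = g ^ m' * y' →
        g ^ (-(m + m')) * (x * x') = g ^ (-m') * y * (g ^ (-m'))⁻¹ * y' := by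
      rintro _ _ y y' m m' rfl rfl
      group
    rwa [Subgroup.coe_mul, h3 _ _ _ _ _ _ (e k k.2) (e k' k'.2)]
  · exact congrArg Multiplicative.ofAdd (key ⟨g, hz.mem⟩ 1 (by simp))
  · exact congrArg Multiplicative.ofAdd (key k 0 (by simpa using hk))

theorem Sys.ttZ (X : Sys G A) {H K : Subgroup G} {g : G} (hz : ZCtx H K g) {N : ℕ} (hN : 0 < N) :
    ∃ a ∈ X.FH H, 0 ≤ a ∧ a ≤ 1 ∧ (∀ i, 0 < i → i < N → a * (X.γ g ^ i) a = 0) ∧
      (X.γ g ^ N) a = a ∧ ∀ m : ℕ, 1 / (N : ℝ) ≤ (X.τ (a ^ m)).re := by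
  have : NeZero N := ⟨hN.ne'⟩
  obtain ⟨d, hd1, hdH⟩ := hz.tc_deg
  let q : K →* Multiplicative (ZMod N) :=
    (AddMonoidHom.toMultiplicative (Int.castAddHom (ZMod N))).comp d
  have hq : ∀ i : ℕ, q (⟨g, hz.mem⟩ ^ i) = Multiplicative.ofAdd (i : ZMod N) := fun i => by
    have h1 : q ⟨g, hz.mem⟩ = Multiplicative.ofAdd (1 : ZMod N) := by simp [q, hd1]
    rw [map_pow, h1, ← ofAdd_nsmul, nsmul_one]
  obtain ⟨a, h1, h2, h3, h4⟩ := X.tt_hom q fun c =>
    ⟨⟨g, hz.mem⟩ ^ c.toAdd.val, by rw [hq, ZMod.natCast_zmod_val, ofAdd_toAdd]⟩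
  have h5 : ∀ i : ℕ, (X.γ g ^ i) (a 1) = a (Multiplicative.ofAdd (i : ZMod N)) := fun i => by
    have := h3 (⟨g, hz.mem⟩ ^ i) 1
    rwa [mul_one, hq, Subgroup.coe_pow, map_pow] at this
  refine ⟨a 1, ⟨(h1 1).1, fun h hh => ?_⟩, (h1 1).2.1, (h1 1).2.2, fun i hi hiN => ?_, ?_,
    fun m => ?_⟩
  · have := h3 ⟨h, hz.le hh⟩ 1
    rwa [show q ⟨h, hz.le hh⟩ = 1 by simp [q, hdH ⟨h, hz.le hh⟩ hh], mul_one] at this
  · rw [h5]
    refine h2 _ _ fun h => ?_
    have h6 : (i : ZMod N) = 0 := (congrArg Multiplicative.toAdd h).symm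
    exact absurd (Nat.le_of_dvd hi ((ZMod.natCast_eq_zero_iff _ _).1 h6)) (not_le.2 hiN)
  · rw [h5, ZMod.natCast_self, ofAdd_zero]
  · simpa using h4 1 m

end Pool.Agent.Izumi
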