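import Pool.Agent.Lib.MP_b2135d_an.JA
import Pool.Agent.Lib.MP_b2135d_an.DA
import Pool.Agent.Lib.MP_b2135d_an.TC
import Pool.Agent.Lib.MP_b2135d_an.CE

/-! Absorbing an induced class (PLAN section 9, Absorb). -/

namespace Pool.Agent.Izumi

open scoped ComplexOrder Matrix
open Filter Topology

variable {G A : Type} [Group G] [CStarAlgebra A] [PartialOrder A] [StarOrderedRing A] [Countable G] {X : Sys G A}
  {K : Subgroup G} {FF : Type} [Group FF] [Fintype FF] {q : K →* FF}

omit [PartialOrder A] [StarOrderedRing A] [Countable G] [Fintype FF] in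
theorem jf_act_eq {γ : G →* (A ≃⋆ₐ[ℂ] A)} {x : A} (hx : x ∈ Fix γ (pre q ⊥)) {k k' : K}
    (h : q k = q k') : γ k x = γ k' x := by
  have h1 : ((k'⁻¹ * k : K) : G) ∈ pre q ⊥ := by
    rw [coe_mem_pre, Subgroup.mem_bot, map_mul, map_inv, h, inv_mul_cancel]
  have h2 := hx _ h1
  conv_rhs => rw [← h2]
  rw [act_act]
  congr 2
  push_cast
  group

omit [PartialOrder A] [StarOrderedRing A] [Countable G] [Fintype FF] in
theorem jf_act_sec {γ : G →* (A ≃⋆ₐ[ℂ] A)} {x : A} (hx : x ∈ Fix γ (pre q ⊥)) {s : FF → K}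
    (hs : ∀ c, q (s c) = c) (k : K) (c : FF) : γ k (γ (s c) x) = γ (s (q k * c)) x := by
  rw [act_act, ← Subgroup.coe_mul]
  exact jf_act_eq hx (by rw [map_mul, hs, hs])

/-- A projection whose translates form a tower over `FF` with small remainder. -/
theorem Sys.exists_base (hq : Function.Surjective q) (hN : X.Good (pre q ⊥)) {T : Set A}
    (hT : T.Countable) {j : ℕ} (hj : 0 < j) :
    ∃ y : FF → A, (∀ c, y c ∈ X.FT T ∧ IsStarProjection (y c)) ∧
      (∀ c c', c ≠ c' → y c * y c' = 0) ∧ (∀ (k : K) c, X.γ k (y c) = y (q k * c)) ∧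
        ∀ c, (X.τ (y c)).re = (1 - 1 / (j : ℝ)) / (Fintype.card FF : ℝ) := by
  classical
  obtain ⟨a, ha, hao, hact, hatr⟩ := X.tt_hom q hq
  choose s hs using hq
  have hd : (0 : ℝ) < Fintype.card FF := by exact_mod_cast Fintype.card_pos
  have hj' : (0 : ℝ) < j := by exact_mod_cast hj
  have ha1 : a 1 ∈ X.FH (pre q ⊥) := by
    refine ⟨(ha 1).1, fun h hh => ?_⟩
    obtain ⟨hK, h1⟩ := mem_pre.1 hh
    have := hact ⟨h, hK⟩ 1
    rwa [Subgroup.mem_bot.1 h1, mul_one] at this
  have : Nonempty (Fin j) := ⟨⟨0, hj⟩⟩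
  obtain ⟨e, he, heF⟩ := hN.2.1.divT (Fin j × FF) Set.countable_empty
  have hemem : ∀ x y, e x y ∈ X.FH (pre q ⊥) := fun x y =>
    ⟨X.FT_le_F _ (heF x y).1, (heF x y).2⟩
  set p : A := ∑ i ∈ Finset.univ.erase (⟨0, hj⟩ : Fin j), e (i, 1) (i, 1) with hp
  have hpp : IsStarProjection p := by
    refine isStarProjection_sum _ _ (fun i _ => he.proj _) fun i _ i' _ hi => ?_
    rw [he.mul, if_neg (fun h => hi (Prod.ext_iff.1 h).1)]
  have hpm : p ∈ X.FH (pre q ⊥) := sum_mem fun i _ => hemem _ _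
  have hte : ∀ x, (X.τ (e x x)).re = 1 / ((j : ℝ) * Fintype.card FF) := by
    intro x
    have h1 := tr_mu X.tr he (x := 1) (fun _ _ => Commute.one_left _) x x
    rw [one_mul, if_pos rfl, X.tr.1, Fintype.card_prod, Fintype.card_fin] at h1
    rw [h1]
    have h2 : (1 : ℂ) / ((j * Fintype.card FF : ℕ) : ℂ) =
        ((1 / ((j : ℝ) * Fintype.card FF) : ℝ) : ℂ) := by
      push_cast
      rfl
    rw [h2, Complex.ofReal_re]
  have htp : (X.τ p).re = (1 - 1 / (j : ℝ)) / (Fintype.card FF : ℝ) := by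
    rw [hp, map_sum, Complex.re_sum, Finset.sum_congr rfl fun i _ => hte _, Finset.sum_const,
      Finset.card_erase_of_mem (Finset.mem_univ _), Finset.card_univ, Fintype.card_fin,
      nsmul_eq_mul, Nat.cast_sub hj]
    field_simp
    simp
  obtain ⟨v, hv, hvp, hav⟩ := hN.1 p (a 1) hpm ha1 hpp (ha 1).2.1 (ha 1).2.2
    ⟨1 / ((j : ℝ) * Fintype.card FF), by positivity, fun m => by
      refine le_trans (le_of_eq ?_) (hatr 1 m)
      rw [htp]
      field_simp
      ring⟩
  set r : A := v * star v with hr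
  have hrp : IsStarProjection r := isStarProjection_mul_star hpp hvp
  have hrm : r ∈ X.FH (pre q ⊥) := mul_mem hv (star_mem hv)
  have har : a 1 * r = r := by rw [hr, ← mul_assoc, hav]
  have htr : X.τ r = X.τ p := by rw [hr, X.tr.2, hvp]
  set y : FF → A := fun c => X.γ (s c) r with hy
  have hyp : ∀ c, IsStarProjection (y c) := fun c => hrp.map (X.γ (s c))
  have hay : ∀ c, a c * y c = y c := by
    intro c
    have h1 := congrArg (X.γ (s c)) har
    rwa [map_mul, hact, hs, mul_one] at h1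
  have hya : ∀ c, y c * a c = y c := by
    intro c
    have h1 := congrArg star (hay c)
    rwa [star_mul, (hyp c).isSelfAdjoint.star_eq,
      (IsSelfAdjoint.of_nonneg (ha c).2.1).star_eq] at h1
  have hyo : ∀ c c', c ≠ c' → y c * y c' = 0 := by
    intro c c' h
    rw [← hya c, ← hay c', mul_assoc, ← mul_assoc (a c), hao c c' h, zero_mul, mul_zero]
  have hyact : ∀ (k : K) c, X.γ k (y c) = y (q k * c) := fun k c => jf_act_sec hrm.2 hs k c
  obtain ⟨𝒮, Ψ, hS, hΨ⟩ := X.ic (Set.range y) T (Set.countable_range y) hT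
    (by rintro _ ⟨c, rfl⟩; exact X.act_mem_F _ hrm.1)
  have hyS : ∀ c, y c ∈ 𝒮 := fun c => hS ⟨c, rfl⟩
  refine ⟨fun c => Ψ (y c), fun c => ⟨hΨ.mem _ (hyS c), hΨ.proj (hyS c) (hyp c)⟩,
    fun c c' h => ?_, fun k c => ?_, fun c => ?_⟩
  · rw [← hΨ.map_mul _ (hyS c) _ (hyS c'), hyo c c' h, map_zero]
  · rw [← hΨ.map_act _ _ (hyS c), hyact]
  · rw [hΨ.tr _ (hyS c), hy]
    dsimp only
    rw [X.inv, htr, htp]

omit [PartialOrder A] [StarOrderedRing A] in
theorem jf_row_zero {n : Type} (t : Matrix Unit n A) (h : tᴴ * t = 0) : t = 0 := by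
  ext u j
  have h1 := congrFun (congrFun h j) j
  rw [Matrix.mul_apply, Fintype.sum_unique, Matrix.conjTranspose_apply, Matrix.zero_apply,
    CStarRing.star_mul_self_eq_zero_iff] at h1
  exact h1

omit [PartialOrder A] [StarOrderedRing A] in
theorem jf_row_mul {n : Type} [Fintype n] (R : Matrix Unit n A)
    (h : (Rᴴ * R) * (Rᴴ * R) = Rᴴ * R) : R * (Rᴴ * R) = R := by
  have hE : (Rᴴ * R)ᴴ = Rᴴ * R := by
    rw [Matrix.conjTranspose_mul, Matrix.conjTranspose_conjTranspose]
  have h0 : R - R * (Rᴴ * R) = 0 := by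
    apply jf_row_zero
    rw [Matrix.conjTranspose_sub, Matrix.conjTranspose_mul R, hE, Matrix.sub_mul, Matrix.mul_sub,
      Matrix.mul_sub, ← Matrix.mul_assoc Rᴴ R, h, Matrix.mul_assoc (Rᴴ * R) Rᴴ R, h,
      Matrix.mul_assoc (Rᴴ * R) Rᴴ, ← Matrix.mul_assoc Rᴴ R (Rᴴ * R), h, h]
    simp
  exact (sub_eq_zero.1 h0).symm

omit [PartialOrder A] [StarOrderedRing A] in
theorem jf_mul_sc {n : Type} [Fintype n] (R : Matrix Unit n A) (M : Matrix n n ℂ) (j : n) :
    (R * sc A M) () j = ∑ i, M i j • R () i := by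
  rw [Matrix.mul_apply]
  refine Finset.sum_congr rfl fun i _ => ?_
  rw [sc, Matrix.map_apply, ← Algebra.commutes, ← Algebra.smul_def]

omit [PartialOrder A] [StarOrderedRing A] in
theorem jf_diag_sc {n : Type} [Fintype n] [DecidableEq n] (P : A) (M : Matrix n n ℂ) :
    sc A M * Matrix.diagonal (fun _ => P) = Matrix.diagonal (fun _ => P) * sc A M := by
  ext i j
  rw [Matrix.mul_diagonal, Matrix.diagonal_mul, sc, Matrix.map_apply, Algebra.commutes]

omit [Countable G] in
theorem Sys.split_of_rows {σ : URep FF} (y₀ : FF → A) (hF : ∀ c, y₀ c ∈ X.F)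
    (hp : ∀ c, IsStarProjection (y₀ c)) (ho : ∀ c c', c ≠ c' → y₀ c * y₀ c' = 0)
    (hact : ∀ (k : K) c, X.γ k (y₀ c) = y₀ (q k * c)) {P : A} (hP : P = 1 - ∑ c, y₀ c)
    (R : FF → Matrix Unit σ.n A) (hRF : ∀ c, Ent X.F (R c))
    (hyR : ∀ c i, y₀ c * R c () i = R c () i)
    (hRact : ∀ (k : K) c, (R c).map (X.γ k) = R (q k * c) * sc A (σ.π (q k)))
    (hidem : ∀ c, ((R c)ᴴ * R c) * ((R c)ᴴ * R c) = (R c)ᴴ * R c)
    (horth : ∀ c c', c ≠ c' → ((R c)ᴴ * R c) * ((R c')ᴴ * R c') = 0)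
    (hsum : ∑ c, (R c)ᴴ * R c = Matrix.diagonal (fun _ => P)) :
    ∃ (y : FF → A) (Z : σ.n → A),
      X.IsSplit q ((URep.one FF).sum σ) P y (Sum.elim (fun _ => P) Z) := by
  classical
  have hsp : IsStarProjection (∑ c, y₀ c) :=
    isStarProjection_sum _ _ (fun c _ => hp c) fun c _ c' _ h => ho c c' h
  have hPp : IsStarProjection P := hP ▸ hsp.one_sub
  have hPF : P ∈ X.F := hP ▸ sub_mem (one_mem _) (sum_mem fun c _ => hF c)
  have hPact : ∀ k : K, X.γ k P = P := by
    intro k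
    rw [hP, map_sub, map_one, map_sum]
    congr 1
    exact Fintype.sum_equiv (Equiv.mulLeft (q k)) _ _ fun c => hact k c
  have hPy : ∀ c, P * y₀ c = 0 := by
    intro c
    rw [hP, sub_mul, one_mul, Finset.sum_mul, Finset.sum_eq_single c,
      (hp c).isIdempotentElem.eq, sub_self]
    · exact fun c' _ h => ho c' c h
    · simp
  have hPR : ∀ c i, P * R c () i = 0 := by
    intro c i
    rw [← hyR, ← mul_assoc, hPy, zero_mul]
  have hcross : ∀ c c', c ≠ c' → (R c)ᴴ * R c' = 0 := by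
    intro c c' h
    ext i j
    rw [Matrix.mul_apply, Fintype.sum_unique, Matrix.conjTranspose_apply, Matrix.zero_apply]
    change star (R c () i) * R c' () j = 0
    rw [← hyR c i, ← hyR c' j, star_mul, (hp c).isSelfAdjoint.star_eq, mul_assoc,
      ← mul_assoc (y₀ c), ho c c' h, zero_mul, mul_zero]
  have hRE : ∀ c, R c * ((R c)ᴴ * R c) = R c := fun c => jf_row_mul _ (hidem c)
  have hER : ∀ c, ((R c)ᴴ * R c) * (R c)ᴴ = (R c)ᴴ := by
    intro c
    have h1 := congrArg Matrix.conjTranspose (hRE c)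
    rwa [Matrix.conjTranspose_mul, Matrix.conjTranspose_mul,
      Matrix.conjTranspose_conjTranspose] at h1
  have hcross' : ∀ c c', c ≠ c' → R c * (R c')ᴴ = 0 := by
    intro c c' h
    rw [← hRE c, ← hER c', Matrix.mul_assoc, ← Matrix.mul_assoc ((R c)ᴴ * R c), horth c c' h,
      Matrix.zero_mul, Matrix.mul_zero]
  set Z : Matrix Unit σ.n A := ∑ c, R c with hZ
  have hZZ : Zᴴ * Z = Matrix.diagonal (fun _ => P) := by
    rw [← hsum, hZ, Matrix.conjTranspose_sum, Matrix.sum_mul]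
    refine Finset.sum_congr rfl fun c _ => ?_
    rw [Matrix.mul_sum, Finset.sum_eq_single c]
    · exact fun c' _ h => hcross c c' (Ne.symm h)
    · simp
  have hZZ' : Z * Zᴴ = ∑ c, R c * (R c)ᴴ := by
    rw [hZ, Matrix.conjTranspose_sum, Matrix.sum_mul]
    refine Finset.sum_congr rfl fun c _ => ?_
    rw [Matrix.mul_sum, Finset.sum_eq_single c]
    · exact fun c' _ h => hcross' c c' (Ne.symm h)
    · simp
  have hZact : ∀ k : K, Z.map (X.γ k) = Z * sc A (σ.π (q k)) := by
    intro k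
    rw [hZ, map_aut_sum, Matrix.sum_mul]
    exact Fintype.sum_equiv (Equiv.mulLeft (q k)) _ _ fun c => hRact k c
  have hZF : Ent X.F Z := Ent.sum _ fun c _ => hRF c
  have hPZ : ∀ i, P * Z () i = 0 := by
    intro i
    rw [hZ, Matrix.sum_apply, Finset.mul_sum]
    exact Finset.sum_eq_zero fun c _ => hPR c i
  set r : FF → A := fun c => (R c * (R c)ᴴ) () () with hr
  have hrF : ∀ c, r c ∈ X.F := fun c => (hRF c).mul (hRF c).conjTranspose () ()
  have hrp : ∀ c, IsStarProjection (r c) := by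
    intro c
    constructor
    · have h1 : (R c * (R c)ᴴ) * (R c * (R c)ᴴ) = R c * (R c)ᴴ := by
        rw [Matrix.mul_assoc, ← Matrix.mul_assoc (R c)ᴴ, hER]
      have h2 := congrFun (congrFun h1 ()) ()
      rw [Matrix.mul_apply, Fintype.sum_unique] at h2
      exact h2
    · have h1 : (R c * (R c)ᴴ)ᴴ = R c * (R c)ᴴ := by
        rw [Matrix.conjTranspose_mul, Matrix.conjTranspose_conjTranspose]
      exact congrFun (congrFun h1 ()) ()
  have hyr : ∀ c, y₀ c * r c = r c := by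
    intro c
    rw [hr]
    dsimp only
    rw [Matrix.mul_apply, Finset.mul_sum]
    exact Finset.sum_congr rfl fun i _ => by rw [← mul_assoc, hyR]
  have hract : ∀ (k : K) c, X.γ k (r c) = r (q k * c) := by
    intro k c
    have h1 : (R c * (R c)ᴴ).map (X.γ k) = R (q k * c) * (R (q k * c))ᴴ := by
      rw [map_aut_mul, map_aut_conjTranspose, hRact, Matrix.conjTranspose_mul, sc_conjTranspose,
        σ.unit, Matrix.mul_assoc, ← Matrix.mul_assoc (sc A _), URep.sc_mul_inv, Matrix.one_mul]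
    exact congrFun (congrFun h1 ()) ()
  refine ⟨fun c => y₀ c - r c, fun i => Z () i, ⟨hPF, fun k hk => hPact ⟨k, hk⟩⟩, hPp,
    fun c => sub_mem (hF c) (hrF c), fun c => (hrp c).sub_of_mul_eq_right (hp c) (hyr c),
    ?_, ?_, fun k c => by rw [map_sub, hact, hract], ?_, ?_⟩
  · rintro (i | i)
    · exact hPF
    · exact hZF () i
  · rintro (i | i) (j | j)
    · refine Eq.trans ?_ (if_pos rfl).symm
      change star P * P = P
      rw [hPp.isSelfAdjoint.star_eq, hPp.isIdempotentElem.eq]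
    · refine Eq.trans ?_ (if_neg Sum.inl_ne_inr).symm
      change star P * Z () j = 0
      rw [hPp.isSelfAdjoint.star_eq, hPZ]
    · refine Eq.trans ?_ (if_neg Sum.inr_ne_inl).symm
      change star (Z () i) * P = 0
      have h1 := congrArg star (hPZ i)
      rwa [star_mul, hPp.isSelfAdjoint.star_eq, star_zero] at h1
    · have h1 := congrFun (congrFun hZZ i) j
      rw [Matrix.mul_apply, Fintype.sum_unique, Matrix.conjTranspose_apply,
        Matrix.diagonal_apply] at h1
      change star (Z () i) * Z () j = _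
      by_cases hij : i = j
      · rw [if_pos hij] at h1
        exact h1.trans (if_pos (congrArg Sum.inr hij)).symm
      · rw [if_neg hij] at h1
        exact h1.trans (if_neg (fun h => hij (Sum.inr_injective h))).symm
  · intro k
    have key : ∀ j : Unit ⊕ σ.n, X.γ k (Sum.elim (fun _ => P) (fun i => Z () i) j) =
        ∑ i : Unit ⊕ σ.n, Matrix.fromBlocks (1 : Matrix Unit Unit ℂ) 0 0 (σ.π (q k)) i j •
          Sum.elim (fun _ => P) (fun i => Z () i) i := by
      rintro (j | j)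
      · rw [Fintype.sum_sum_type]
        simp [hPact]
      · rw [Fintype.sum_sum_type]
        have h1 := congrFun (congrFun (hZact k) ()) j
        rw [jf_mul_sc, Matrix.map_apply] at h1
        simp [h1]
    exact key
  · have key : ∑ c, (y₀ c - r c) + ∑ i : Unit ⊕ σ.n, Sum.elim (fun _ => P) (fun i => Z () i) i *
        star (Sum.elim (fun _ => P) (fun i => Z () i) i) = 1 := by
      have h1 := congrFun (congrFun hZZ' ()) ()
      rw [Matrix.mul_apply, Matrix.sum_apply] at h1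
      rw [Fintype.sum_sum_type, Finset.sum_sub_distrib]
      simp only [Sum.elim_inl, Sum.elim_inr]
      rw [Fintype.sum_unique (fun _ : Unit => P * star P), hPp.isSelfAdjoint.star_eq, hPp.isIdempotentElem.eq]
      have h2 : ∑ i, Z () i * star (Z () i) = ∑ c, r c := h1
      rw [h2, hP]
      abel
    exact key

theorem Sys.absorb (hq : Function.Surjective q) (hN : X.Good (pre q ⊥)) {σ : URep FF}
    (hσ : X.JP q σ) {T : Set A} (hT : T.Countable) :
    ∃ (P : A) (y : FF → A) (Z : σ.n → A), P ∈ X.FT T ∧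
      X.IsSplit q ((URep.one FF).sum σ) P y (Sum.elim (fun _ => P) Z) := by
  classical
  obtain ⟨B, hB⟩ := hσ
  set TB : Set A := Set.range fun x : FF × σ.n × σ.n => B x.1 x.2.1 x.2.2 with hTB
  have hTBc : TB.Countable := Set.countable_range _
  set j : ℕ := Fintype.card σ.n * Fintype.card FF + 2 with hj
  obtain ⟨y₀, hy, ho, hact, htr⟩ := X.exists_base hq hN (hT.union hTBc) (j := j) (by omega)
  choose s hs using hq
  have hd : (0 : ℝ) < Fintype.card FF := by exact_mod_cast Fintype.card_pos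
  have hj' : (0 : ℝ) < j := by exact_mod_cast (show 0 < j by omega)
  have hF : ∀ c, y₀ c ∈ X.F := fun c => X.FT_le_F _ (hy c).1
  set P : A := 1 - ∑ c, y₀ c with hP
  have hsp : IsStarProjection (∑ c, y₀ c) :=
    isStarProjection_sum _ _ (fun c _ => (hy c).2) fun c _ c' _ h => ho c c' h
  have hPp : IsStarProjection P := hsp.one_sub
  have hPT : P ∈ X.FT (T ∪ TB) := sub_mem (one_mem _) (sum_mem fun c _ => (hy c).1)
  have hPact : ∀ k : K, X.γ k P = P := by
    intro k
    rw [hP, map_sub, map_one, map_sum]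
    congr 1
    exact Fintype.sum_equiv (Equiv.mulLeft (q k)) _ _ fun c => hact k c
  have hPtr : (X.τ P).re = 1 / (j : ℝ) := by
    rw [hP, map_sub, map_sum, X.tr.1, Complex.sub_re, Complex.re_sum,
      Finset.sum_congr rfl fun c _ => htr c, Finset.sum_const, Finset.card_univ, nsmul_eq_mul,
      Complex.one_re]
    field_simp
    ring
  have hPB : ∀ c i l, Commute P (B c i l) := fun c i l =>
    (mem_cent.1 (X.FT_le_cent _ hPT) _ (Or.inr ⟨(c, i, l), rfl⟩)).1
  set D : Matrix σ.n σ.n A := Matrix.diagonal (fun _ => P) with hD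
  have hDB : ∀ c, D * B c = B c * D := by
    intro c
    ext i l
    rw [hD, Matrix.diagonal_mul, Matrix.mul_diagonal, (hPB c i l).eq]
  have hDD : D * D = D := by
    rw [hD, Matrix.diagonal_mul_diagonal]
    simp only [hPp.isIdempotentElem.eq]
  have hDs : Dᴴ = D := by
    rw [hD, Matrix.diagonal_conjTranspose]
    congr 1
    funext i
    exact hPp.isSelfAdjoint.star_eq
  have hDact : ∀ k : K, D.map (X.γ k) = D := by
    intro k
    rw [hD, Matrix.diagonal_map (map_zero _)]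
    simp only [hPact]
  have hBD : ∀ c c', (B c * D) * (B c' * D) = (B c * B c') * D := by
    intro c c'
    rw [Matrix.mul_assoc, ← Matrix.mul_assoc D, hDB, Matrix.mul_assoc, hDD, Matrix.mul_assoc]
  have hB1 : ∀ k : K, q k = 1 → (B 1).map (X.γ k) = B 1 := by
    intro k hk
    have h1 := hB.act k 1
    rwa [hk, map_one, sc_one, Matrix.one_mul, Matrix.mul_one, one_smul] at h1
  have hPN : P ∈ X.FH (pre q ⊥) :=
    ⟨X.FT_le_F _ hPT, fun h hh => hPact ⟨h, pre_le q ⊥ hh⟩⟩
  have hB1N : ∀ i l, B 1 i l ∈ X.FH (pre q ⊥) := by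
    intro i l
    refine ⟨hB.ent 1 i l, fun h hh => ?_⟩
    obtain ⟨hK, h1⟩ := mem_pre.1 hh
    exact congrFun (congrFun (hB1 ⟨h, hK⟩ (Subgroup.mem_bot.1 h1)) i) l
  have hy1N : y₀ 1 ∈ X.FH (pre q ⊥) := by
    refine ⟨hF 1, fun h hh => ?_⟩
    obtain ⟨hK, h1⟩ := mem_pre.1 hh
    have := hact ⟨h, hK⟩ 1
    rwa [Subgroup.mem_bot.1 h1, mul_one] at this
  set b : Matrix σ.n σ.n A := B 1 * D with hb
  have hbe : ∀ i l, b i l = B 1 i l * P := fun i l => by rw [hb, hD, Matrix.mul_diagonal]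
  have hbN : ∀ i l, b i l ∈ X.FH (pre q ⊥) := fun i l => by
    rw [hbe]; exact mul_mem (hB1N i l) hPN
  have hbs : bᴴ = b := by rw [hb, Matrix.conjTranspose_mul, hDs, hB.star, hDB]
  have hbi : b * b = b := by rw [hb, hBD, hB.idem]
  have hlt : ∑ i, (X.τ (b i i)).re < (X.τ (y₀ 1)).re := by
    have h1 : ∀ i, (X.τ (b i i)).re ≤ 1 / (j : ℝ) := by
      intro i
      rw [hbe, X.tr.2, ← hPtr]
      exact tr_mul_le X.tr hPp.nonneg (mat_diag_between _ (hB.star 1) (hB.idem 1) i).2
    refine (Finset.sum_le_sum fun i _ => h1 i).trans_lt ?_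
    rw [htr, Finset.sum_const, Finset.card_univ, nsmul_eq_mul, lt_div_iff₀ hd]
    have h2 : (j : ℝ) = Fintype.card σ.n * Fintype.card FF + 2 := by
      rw [hj]; push_cast; ring
    have h3 : (Fintype.card σ.n : ℝ) * (1 / (j : ℝ)) * Fintype.card FF = (j - 2) / j := by
      rw [h2]
      field_simp
      ring
    have h4 : 1 - 1 / (j : ℝ) = (j - 1) / j := by
      field_simp
    rw [h3, h4]
    exact div_lt_div_of_pos_right (by linarith) hj'
  have hX : ∃ V : σ.n → A, (∀ i, V i ∈ X.FH (pre q ⊥) ∧ y₀ 1 * V i = V i) ∧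
      ∀ i l, star (V i) * V l = b i l := by
    rcases isEmpty_or_nonempty σ.n with hn | hn
    · exact ⟨fun _ => 0, fun i => isEmptyElim i, fun i => isEmptyElim i⟩
    · obtain ⟨ψ, hψ, hψF⟩ := hN.2.1.divT σ.n
        (T := Set.range fun x : σ.n × σ.n => b x.1 x.2) (Set.countable_range _)
      exact embed_row X.tr hN.1 b hbN hbs hbi hψ
        (fun i l => ⟨X.FT_le_F _ (hψF i l).1, (hψF i l).2⟩)
        (fun i l u v => (mem_cent.1 (X.FT_le_cent _ (hψF u v).1) _ ⟨(i, l), rfl⟩).1.symm)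
        hy1N (hy 1).2 hlt
  obtain ⟨V, hV, hVb⟩ := hX
  set R₀ : Matrix Unit σ.n A := Matrix.of fun _ i => V i with hR₀
  have hR₀b : R₀ᴴ * R₀ = b := by
    ext i l
    rw [Matrix.mul_apply, Fintype.sum_unique, Matrix.conjTranspose_apply]
    exact hVb i l
  set R : FF → Matrix Unit σ.n A := fun c => R₀.map (X.γ (s c)) * sc A (σ.π c⁻¹) with hR
  have hRR : ∀ c, (R c)ᴴ * R c = B c * D := by
    intro c
    have h1 := hB.act (s c) 1
    rw [hs, smul_eq_mul, mul_one] at h1
    rw [hR]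
    dsimp only
    rw [Matrix.conjTranspose_mul, sc_conjTranspose, σ.unit, inv_inv, Matrix.mul_assoc,
      ← Matrix.mul_assoc (R₀.map _)ᴴ, ← map_aut_conjTranspose, ← map_aut_mul, hR₀b, hb,
      map_aut_mul, hDact, ← Matrix.mul_assoc, ← Matrix.mul_assoc, h1, Matrix.mul_assoc (B c), hD,
      jf_diag_sc, Matrix.mul_assoc, Matrix.mul_assoc, URep.sc_mul_inv, Matrix.mul_one]
  obtain ⟨y, Z, h⟩ := X.split_of_rows (q := q) (σ := σ) y₀ hF (fun c => (hy c).2) ho hact hP R
    (fun c => Ent.mul (fun u i => X.act_mem_F _ (hV i).1.1) (ent_sc _ _))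
    (fun c i => by
      rw [hR]
      dsimp only
      rw [jf_mul_sc, Finset.mul_sum]
      refine Finset.sum_congr rfl fun l _ => ?_
      have h1 := congrArg (X.γ (s c)) (hV l).2
      rw [map_mul, hact, hs, mul_one] at h1
      rw [mul_smul_comm]
      exact congrArg _ h1)
    (fun k c => by
      rw [hR]
      dsimp only
      rw [map_aut_mul, sc_map_aut, Matrix.mul_assoc, ← sc_mul, ← map_mul, mul_inv_rev,
        inv_mul_cancel_right]
      congr 1
      ext u i
      exact jf_act_sec (hV i).1.2 hs k c)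
    (fun c => by rw [hRR, hBD, hB.idem])
    (fun c c' h => by
      rw [hRR, hRR, hBD, mat_orth B hB.star hB.idem hB.sum c c' h, Matrix.zero_mul])
    (by rw [Finset.sum_congr rfl fun c _ => hRR c, ← Matrix.sum_mul, hB.sum, Matrix.one_mul])
  exact ⟨P, y, Z, X.FT_anti Set.subset_union_left hPT, h⟩

end Pool.Agent.Izumi
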