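import Pool.Agent.Lib.MP_b2135d_an.CoreJ

/-! The ideal of induced classes (PLAN section 9, A1, A3, A4). -/

namespace Pool.Agent.Izumi

variable {Γ : Type} [Group Γ] [Finite Γ] {good : Subgroup Γ → Prop} {JP : (Γ → ℂ) → Prop}
  {Eqv : (Γ → ℂ) → (Γ → ℂ) → Prop}

theorem IsChar.add {χ ψ : Γ → ℂ} (h : IsChar χ) (h' : IsChar ψ) : IsChar (χ + ψ) := by
  obtain ⟨r, rfl⟩ := h
  obtain ⟨r', rfl⟩ := h'
  exact ⟨r.sum r', URep.char_sum r r'⟩

theorem IsChar.mul {χ ψ : Γ → ℂ} (h : IsChar χ) (h' : IsChar ψ) : IsChar (χ * ψ) := by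
  obtain ⟨r, rfl⟩ := h
  obtain ⟨r', rfl⟩ := h'
  exact ⟨r.tensor r', URep.char_tensor r r'⟩

theorem isChar_lch (a : Γ →* ℂˣ) : IsChar (lch a) := by
  exact ⟨URep.lin a, URep.char_lin a⟩

theorem isChar_pch (Φ : Subgroup Γ) : IsChar (pch Φ) := by
  classical
  letI : Fintype (Γ ⧸ Φ) := Fintype.ofFinite _
  exact ⟨URep.perm Γ (Γ ⧸ Φ), funext fun g => URep.char_perm (Γ ⧸ Φ) g⟩

omit [Finite Γ] in
theorem isChar_zero_JG : IsChar (0 : Γ → ℂ) := ⟨URep.zero Γ, URep.char_zero⟩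

omit [Finite Γ] in
theorem isChar_one_JG : IsChar (1 : Γ → ℂ) := ⟨URep.one Γ, URep.char_one⟩

omit [Finite Γ] in
theorem isChar_add_JG {χ ψ : Γ → ℂ} (h : IsChar χ) (h' : IsChar ψ) : IsChar (χ + ψ) := by
  obtain ⟨r, rfl⟩ := h
  obtain ⟨r', rfl⟩ := h'
  exact ⟨r.sum r', URep.char_sum r r'⟩

omit [Finite Γ] in
theorem isChar_mul_JG {χ ψ : Γ → ℂ} (h : IsChar χ) (h' : IsChar ψ) : IsChar (χ * ψ) := by
  obtain ⟨r, rfl⟩ := h
  obtain ⟨r', rfl⟩ := h'
  exact ⟨r.tensor r', URep.char_tensor r r'⟩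

omit [Finite Γ] in
theorem vr_of_char_JG {χ : Γ → ℂ} (h : IsChar χ) : VR χ :=
  ⟨χ, 0, h, isChar_zero_JG, (sub_zero χ).symm⟩

omit [Finite Γ] in
theorem vr_mul_JG {x y : Γ → ℂ} (hx : VR x) (hy : VR y) : VR (x * y) := by
  obtain ⟨a, b, ha, hb, rfl⟩ := hx
  obtain ⟨c, d, hc, hd, rfl⟩ := hy
  exact ⟨a * c + b * d, a * d + b * c,
    isChar_add_JG (isChar_mul_JG ha hc) (isChar_mul_JG hb hd),
    isChar_add_JG (isChar_mul_JG ha hd) (isChar_mul_JG hb hc), by ring⟩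

theorem vr_one_sub_JG (a : Γ →* ℂˣ) : VR (1 - lch a) :=
  ⟨1, lch a, isChar_one_JG, isChar_lch a, rfl⟩

/-- The sum of all powers of a linear character. -/
theorem exists_sig_JG (a : Γ →* ℂˣ) : ∃ T, IsChar T ∧ lch a * (1 + T) = 1 + T := by
  have hp : ∀ j : ℕ, IsChar (lch a ^ j) := by
    intro j
    induction j with
    | zero => exact isChar_one_JG
    | succ j ih => rw [pow_succ]; exact ih.mul (isChar_lch a)
  have hs : ∀ m : ℕ, IsChar (∑ j ∈ Finset.range m, lch a ^ (j + 1)) := by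
    intro m
    induction m with
    | zero => exact isChar_zero_JG
    | succ m ih => rw [Finset.sum_range_succ]; exact ih.add (hp _)
  obtain ⟨m, hm⟩ := Nat.exists_eq_succ_of_ne_zero (Nat.card_pos (α := Γ)).ne'
  refine ⟨_, hs m, ?_⟩
  have h1 : lch a ^ (m + 1) = 1 := by
    funext g
    have h2 : g ^ (m + 1) = 1 := by
      rw [← Nat.succ_eq_add_one, ← hm]
      exact pow_card_eq_one'
    simp only [lch, Pi.pow_apply, Pi.one_apply]
    rw [← Units.val_pow_eq_pow_val, ← map_pow, h2, map_one, Units.val_one]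
  have h2 := mul_geom_sum (lch a) (m + 1)
  rw [h1, sub_self, Finset.sum_range_succ', pow_zero] at h2
  linear_combination h2

/-- A proper subgroup containing all commutators is killed by a nontrivial linear character. -/
theorem exists_lin_JG (H : Subgroup Γ) (hH : H ≠ ⊤) (hab : ∀ x y : Γ, x * y * x⁻¹ * y⁻¹ ∈ H) :
    ∃ a : Γ →* ℂˣ, a ≠ 1 ∧ H ≤ a.ker := by
  obtain ⟨γ, hγ⟩ : ∃ γ, γ ∉ H := by
    by_contra hc
    push Not at hc
    exact hH ((Subgroup.eq_top_iff' H).2 hc)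
  have hc : commutator Γ ≤ H := by
    rw [commutator_def, Subgroup.commutator_le]
    exact fun x _ y _ => hab x y
  let H' : Subgroup (Abelianization Γ) := H.map Abelianization.of
  let f : Γ →* Abelianization Γ ⧸ H' := (QuotientGroup.mk' H').comp Abelianization.of
  have hf : f γ ≠ 1 := by
    intro h1
    have h2 : Abelianization.of γ ∈ H' := (QuotientGroup.eq_one_iff _).1 h1
    have h3 : γ ∈ H'.comap Abelianization.of := h2
    rw [Subgroup.comap_map_eq_self (by rw [Abelianization.ker_of]; exact hc)] at h3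
    exact hγ h3
  have : NeZero ((Monoid.exponent (Abelianization Γ ⧸ H') : ℕ) : ℂ) :=
    ⟨Nat.cast_ne_zero.2 Monoid.exponent_ne_zero_of_finite⟩
  obtain ⟨φ, hφ⟩ := CommGroup.exists_apply_ne_one_of_hasEnoughRootsOfUnity _ ℂ hf
  refine ⟨φ.comp f, fun h1 => hφ (by simpa using DFunLike.congr_fun h1 γ), fun g hg => ?_⟩
  have h2 : f g = 1 := (QuotientGroup.eq_one_iff _).2 (Subgroup.mem_map_of_mem _ hg)
  rw [MonoidHom.mem_ker, MonoidHom.comp_apply, h2, map_one]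

/-- The virtual characters form a subring. -/
theorem exists_subring_VR (Γ : Type) [Group Γ] :
    ∃ R : Subring (Γ → ℂ), ∀ x, x ∈ R ↔ VR x := by
  refine ⟨{ carrier := {x | VR x}
            mul_mem' := vr_mul_JG
            one_mem' := vr_of_char_JG isChar_one_JG
            add_mem' := ?_
            zero_mem' := vr_of_char_JG isChar_zero_JG
            neg_mem' := ?_ }, fun _ => Iff.rfl⟩
  · rintro _ _ ⟨a, b, ha, hb, rfl⟩ ⟨c, d, hc, hd, rfl⟩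
    exact ⟨a + c, b + d, isChar_add_JG ha hc, isChar_add_JG hb hd, by ring⟩
  · rintro _ ⟨a, b, ha, hb, rfl⟩
    exact ⟨b, a, hb, ha, by ring⟩

theorem JSys.vj_vr (h : JSys good JP Eqv) {x : Γ → ℂ} (hx : VJ JP x) : VR x := by
  obtain ⟨a, b, ha, hb, rfl⟩ := hx
  exact ⟨a, b, h.jp_char _ ha, h.jp_char _ hb, rfl⟩

theorem JSys.vj_zero (h : JSys good JP Eqv) : VJ JP 0 := by
  exact ⟨0, 0, h.jp_zero, h.jp_zero, (sub_zero 0).symm⟩

theorem JSys.vj_add (h : JSys good JP Eqv) {x y : Γ → ℂ} (hx : VJ JP x) (hy : VJ JP y) :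
    VJ JP (x + y) := by
  obtain ⟨a, b, ha, hb, rfl⟩ := hx
  obtain ⟨c, d, hc, hd, rfl⟩ := hy
  exact ⟨a + c, b + d, h.jp_add _ _ ha hc, h.jp_add _ _ hb hd, by ring⟩

theorem JSys.vj_neg (h : JSys good JP Eqv) {x : Γ → ℂ} (hx : VJ JP x) : VJ JP (-x) := by
  obtain ⟨a, b, ha, hb, rfl⟩ := hx
  exact ⟨b, a, hb, ha, by ring⟩

theorem JSys.vj_mul (h : JSys good JP Eqv) {x y : Γ → ℂ} (hx : VR x) (hy : VJ JP y) :
    VJ JP (x * y) := by
  obtain ⟨a, b, ha, hb, rfl⟩ := hx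
  obtain ⟨c, d, hc, hd, rfl⟩ := hy
  exact ⟨a * c + b * d, a * d + b * c,
    h.jp_add _ _ (h.jp_mul _ _ ha hc) (h.jp_mul _ _ hb hd),
    h.jp_add _ _ (h.jp_mul _ _ ha hd) (h.jp_mul _ _ hb hc), by ring⟩

theorem JSys.nzd (h : JSys good JP Eqv) (a : Γ →* ℂˣ) (ha : a ≠ 1) (hg : good a.ker) {x : Γ → ℂ}
    (hx : VR x) (hv : VJ JP ((1 - lch a) * x)) : VJ JP x := by
  obtain ⟨T, hT, hS⟩ := exists_sig_JG a
  have hS' : JP (1 + T) :=
    h.j4 a _ ha hg (by rw [hS]; exact h.eqv_refl _ (isChar_one_JG.add hT))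
  obtain ⟨χ, χ', hχ, hχ', rfl⟩ := hx
  obtain ⟨χ₁, χ₂, h₁, h₂, hv⟩ := hv
  have hd : χ₁ 1 = χ₂ 1 := by
    have h3 := congrFun hv 1
    simp only [lch, Pi.mul_apply, Pi.sub_apply, Pi.one_apply, map_one, Units.val_one, sub_self,
      zero_mul] at h3
    exact sub_eq_zero.1 h3.symm
  have hc₂ := h.jp_char _ h₂
  have he := h.eqv_add _ _ (lch a * (χ + χ' * T) + χ₂ * T) (h.j5 _ _ h₁ h₂ hd)
    (((isChar_lch a).mul (hχ.add (hχ'.mul hT))).add (hc₂.mul hT))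
  have e₁ : χ₁ + (lch a * (χ + χ' * T) + χ₂ * T) = χ + χ' * T + χ₂ * (1 + T) := by
    linear_combination -hv + χ' * hS
  have e₂ : χ₂ + (lch a * (χ + χ' * T) + χ₂ * T) = lch a * (χ + χ' * T + χ₂ * (1 + T)) := by
    linear_combination -χ₂ * hS
  rw [e₁, e₂] at he
  exact ⟨_, (χ' + χ₂) * (1 + T), h.j4 a _ ha hg (h.eqv_symm _ _ he),
    h.jp_mul _ _ (hχ'.add hc₂) hS', by ring⟩

theorem JSys.nzd_pow (h : JSys good JP Eqv) (a : Γ →* ℂˣ) (ha : a ≠ 1) (hg : good a.ker) (n : ℕ)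
    {x : Γ → ℂ} (hx : VR x) (hv : VJ JP ((1 - lch a) ^ n * x)) : VJ JP x := by
  induction n generalizing x with
  | zero => simpa using hv
  | succ n ih =>
    refine h.nzd a ha hg hx (ih (vr_mul_JG (vr_one_sub_JG a) hx) ?_)
    rwa [← mul_assoc, ← pow_succ]

theorem JSys.vj_of_koszul (h : JSys good JP Eqv) (a : Γ →* ℂˣ) (ha : a ≠ 1) (hg : good a.ker)
    {χ ψ : Γ → ℂ} (he : Eqv χ ψ) {n : ℕ} (hn : χ - ψ = (1 - lch a) ^ n) : VJ JP 1 := by
  obtain ⟨T, hT, hS⟩ := exists_sig_JG a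
  have hS' : JP (1 + T) :=
    h.j4 a _ ha hg (by rw [hS]; exact h.eqv_refl _ (isChar_one_JG.add hT))
  have hχ := (h.eqv_char _ _ he).1
  have h1 : JP (χ + χ * T) := by
    have := h.jp_mul _ _ hχ hS'
    rwa [mul_add, mul_one] at this
  have h2 := h.jp_eqv _ _ (h.eqv_add _ _ _ he (hχ.mul hT)) h1
  refine h.nzd_pow a ha hg n (vr_of_char_JG isChar_one_JG) ⟨_, _, h1, h2, ?_⟩
  rw [← hn]
  ring

theorem JSys.vj_of_vanish (h : JSys good JP Eqv) (L : Subgroup Γ) [L.Normal]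
    (hab : ∀ x y : Γ, x * y * x⁻¹ * y⁻¹ ∈ L)
    (hg : ∀ a : Γ →* ℂˣ, a ≠ 1 → L ≤ a.ker → good a.ker) {x : Γ → ℂ} (hx : VR x)
    (h0 : ∀ g : Γ, Subgroup.zpowers g ⊔ L = ⊤ → x g = 0) : VJ JP x := by
  classical
  have key : ∀ g : Γ, ∃ u : Γ → ℂ, VR u ∧ u g * x g = 0 ∧
      ∀ y, VR y → VJ JP (u * y) → VJ JP y := by
    intro g
    by_cases hg' : Subgroup.zpowers g ⊔ L = ⊤
    · exact ⟨1, vr_of_char_JG isChar_one_JG, by simp [h0 g hg'], fun y _ hy => by simpa using hy⟩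
    · obtain ⟨a, ha, hk⟩ := exists_lin_JG _ hg' fun x y => Subgroup.mem_sup_right (hab x y)
      refine ⟨1 - lch a, vr_one_sub_JG a, ?_,
        fun y hy hv => h.nzd a ha (hg a ha (le_sup_right.trans hk)) hy hv⟩
      have h1 : a g = 1 := hk (Subgroup.mem_sup_left (Subgroup.mem_zpowers g))
      simp [lch, h1]
  choose u hu₁ hu₂ hu₃ using key
  have main : ∀ (s : Finset Γ) (y : Γ → ℂ), VR y → VJ JP ((∏ g ∈ s, u g) * y) → VJ JP y := by
    intro s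
    induction s using Finset.induction_on with
    | empty => exact fun y _ hy => by simpa using hy
    | insert g s hgs ih =>
      intro y hy hv
      refine hu₃ g y hy (ih _ (vr_mul_JG (hu₁ g) hy) ?_)
      rwa [Finset.prod_insert hgs, mul_comm (u g), mul_assoc] at hv
  letI : Fintype Γ := Fintype.ofFinite Γ
  refine main Finset.univ x hx ?_
  have h1 : (∏ g, u g) * x = 0 := by
    funext g
    rw [Pi.mul_apply, Finset.prod_apply, ← Finset.prod_erase_mul _ _ (Finset.mem_univ g),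
      mul_assoc, hu₂, mul_zero, Pi.zero_apply]
  rw [h1]
  exact h.vj_zero

end Pool.Agent.Izumi
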