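import Pool.Agent.Lib.MP_b2135d_an.MA

/-! Existence of the trace on a UHF algebra (PLAN section 4). -/

namespace Pool.Agent.Izumi

open scoped ComplexOrder Matrix
open Filter Topology

theorem ma2_entry {B : Type} [CStarAlgebra B] {ι : Type} [Fintype ι] [DecidableEq ι]
    (φ : Matrix ι ι ℂ →⋆ₐ[ℂ] B) (hφ : Function.Injective φ) (M : Matrix ι ι ℂ) (a : ι) :
    ‖M a a‖ ≤ ‖φ M‖ := by
  have h1 : ‖φ (Matrix.single a a 1)‖ ≤ 1 := (isMU_of_hom φ).norm_le a a
  have h2 : 0 < ‖φ (Matrix.single a a 1)‖ := by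
    rw [norm_pos_iff, map_ne_zero_iff φ hφ]
    intro h
    simpa using congrFun (congrFun h a) a
  have h3 : φ (Matrix.single a a 1) * φ M * φ (Matrix.single a a 1) =
      M a a • φ (Matrix.single a a 1) := by
    rw [← map_mul, ← map_mul, ← map_smul, Matrix.single_mul_mul_single]
    simp
  have h4 : ‖M a a‖ * ‖φ (Matrix.single a a 1)‖ ≤ ‖φ M‖ * ‖φ (Matrix.single a a 1)‖ := by
    rw [← norm_smul, ← h3]
    refine (norm_mul_le _ _).trans (mul_le_mul_of_nonneg_right ?_ h2.le)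
    exact (norm_mul_le _ _).trans (mul_le_of_le_one_left (norm_nonneg _) h1)
  exact le_of_mul_le_mul_right h4 h2

theorem ma2_ext {B : Type} [CStarAlgebra B] [Nontrivial B] {n : ℕ} (hn : 0 < n)
    (φ : Matrix (Fin n) (Fin n) ℂ →⋆ₐ[ℂ] B) :
    ∃ F : StrongDual ℂ B, ‖F‖ ≤ 1 ∧ ∀ M, F (φ M) = M.trace / (n : ℂ) := by
  have : Nonempty (Fin n) := ⟨⟨0, hn⟩⟩
  have hφ : Function.Injective φ := RingHom.injective (φ : Matrix (Fin n) (Fin n) ℂ →+* B)
  let L : Matrix (Fin n) (Fin n) ℂ →ₗ[ℂ] B := φ.toAlgHom.toLinearMap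
  have hL : Function.Injective L := hφ
  let f : LinearMap.range L →ₗ[ℂ] ℂ := ((n : ℂ)⁻¹ • Matrix.traceLinearMap (Fin n) ℂ ℂ) ∘ₗ
    (LinearEquiv.ofInjective L hL).symm.toLinearMap
  have hf : ∀ M, f (LinearEquiv.ofInjective L hL M) = M.trace / (n : ℂ) := fun M => by
    simp [f, div_eq_inv_mul]
  have hb : ∀ x, ‖f x‖ ≤ 1 * ‖x‖ := fun x => by
    obtain ⟨M, rfl⟩ := (LinearEquiv.ofInjective L hL).surjective x
    have h1 : ‖LinearEquiv.ofInjective L hL M‖ = ‖φ M‖ := rfl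
    have h2 : (0 : ℝ) < n := by exact_mod_cast hn
    rw [hf, one_mul, h1, norm_div, Complex.norm_natCast, div_le_iff₀ h2]
    refine (norm_sum_le _ _).trans ((Finset.sum_le_sum fun a _ => ma2_entry φ hφ M a).trans ?_)
    simp [mul_comm]
  obtain ⟨F, h1, h2⟩ := exists_extension_norm_eq (LinearMap.range L) (f.mkContinuous 1 hb)
  exact ⟨F, h2.trans_le (f.mkContinuous_norm_le zero_le_one hb),
    fun M => (h1 (LinearEquiv.ofInjective L hL M)).trans (hf M)⟩

variable {B : Type} [CStarAlgebra B] [PartialOrder B] [StarOrderedRing B]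

theorem IsUHF.exists_trace (h : IsUHF B) : ∃ τ : B →ₚ[ℂ] ℂ, IsTracialState τ := by
  obtain ⟨_, ⟨c⟩⟩ := h
  choose F hF1 hF2 using fun k => ma2_ext (c.pos k) (c.ι k)
  obtain ⟨T, -, hT⟩ := (WeakDual.isCompact_closedBall (0 : StrongDual ℂ B) 1).ultrafilter_le_nhds
    ((hyperfilter ℕ).map fun k => StrongDual.toWeakDual (F k)) (by
      rw [Ultrafilter.coe_map, le_principal_iff, mem_map]
      exact Eventually.of_forall fun k => mem_closedBall_zero_iff.2 (hF1 k))
  have hlim : ∀ x, Tendsto (fun k => F k x) (hyperfilter ℕ) (𝓝 (T x)) := fun x =>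
    ((WeakDual.eval_continuous x).tendsto T).comp hT
  have hev : ∀ {P : ℕ → Prop} (k : ℕ), (∀ l, k ≤ l → P l) → ∀ᶠ l in (hyperfilter ℕ : Filter ℕ), P l :=
    fun k hP => Nat.hyperfilter_le_atTop ((eventually_ge_atTop k).mono hP)
  have hc : Continuous T := map_continuous T
  have hpos : ∀ x, 0 ≤ T (star x * x) := fun x => by
    refine Dense.induction (P := fun x => 0 ≤ T (star x * x)) c.dense (fun y hy => ?_)
      (isClosed_le continuous_const (by fun_prop)) x
    obtain ⟨k, hk⟩ := Set.mem_iUnion.1 hy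
    refine ge_of_tendsto (hlim _) (hev k fun l hl => ?_)
    obtain ⟨M, rfl⟩ := c.mono_le hl hk
    rw [← map_star, ← map_mul, hF2]
    exact div_nonneg (Matrix.posSemidef_conjTranspose_mul_self M).trace_nonneg (Nat.cast_nonneg _)
  have htr : ∀ x y, T (x * y) = T (y * x) := fun x y => by
    refine Dense.induction (P := fun p : B × B => T (p.1 * p.2) = T (p.2 * p.1))
      (c.dense.prod c.dense) (fun p hp => ?_) (isClosed_eq (by fun_prop) (by fun_prop)) (x, y)
    obtain ⟨k, hk⟩ := Set.mem_iUnion.1 hp.1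
    obtain ⟨k', hk'⟩ := Set.mem_iUnion.1 hp.2
    refine tendsto_nhds_unique (hlim _) ((hlim _).congr' (hev (max k k') fun l hl => ?_))
    obtain ⟨M, hM⟩ := c.mono_le ((le_max_left _ _).trans hl) hk
    obtain ⟨N, hN⟩ := c.mono_le ((le_max_right _ _).trans hl) hk'
    simp only [← hM, ← hN, ← map_mul, hF2, Matrix.trace_mul_comm M N]
  have hone : T 1 = 1 := by
    refine tendsto_nhds_unique (hlim _) (tendsto_const_nhds.congr fun l => ?_)
    rw [← map_one (c.ι l), hF2, Matrix.trace_one, Fintype.card_fin,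
      div_self (Nat.cast_ne_zero.2 (c.pos l).ne')]
  refine ⟨PositiveLinearMap.mk₀ (WeakDual.toStrongDual T).toLinearMap fun x hx => ?_, hone, htr⟩
  obtain ⟨b, rfl⟩ := CStarAlgebra.nonneg_iff_eq_star_mul_self.1 hx
  exact hpos b

end Pool.Agent.Izumi
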