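import Pool.Agent.Lib.MP_b2135d_an.MA
import Pool.Agent.Lib.MP_b2135d_an.MB

/-! Comparison and divisibility in matrix subalgebras (PLAN section 4). -/

namespace Pool.Agent.Izumi

open scoped ComplexOrder Matrix
open Filter Topology

section Aux

variable {B : Type} [CStarAlgebra B] {n : Type} [Fintype n] [DecidableEq n]

open scoped Matrix.Norms.L2Operator in
theorem hom_inj_MC [Nontrivial B] (ι : Matrix n n ℂ →⋆ₐ[ℂ] B) : Function.Injective ι := by
  intro M M' h
  have h1 := mat_hom_norm_le ι (StarAlgHom.id ℂ (Matrix n n ℂ)) (M - M')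
  rw [map_sub ι, h, sub_self, norm_zero] at h1
  exact sub_eq_zero.1 (norm_le_zero_iff.1 h1)

open scoped Matrix.Norms.L2Operator in
theorem norm_diag_MC [Nontrivial B] (ι : Matrix n n ℂ →⋆ₐ[ℂ] B) (d : n → ℂ) :
    ‖ι (Matrix.diagonal d)‖ = ‖d‖ := by
  rw [← Matrix.l2_opNorm_diagonal d]
  exact le_antisymm (NonUnitalStarAlgHom.norm_apply_le ι _)
    (mat_hom_norm_le ι (StarAlgHom.id ℂ (Matrix n n ℂ)) _)

theorem hom_unitary_MC (ι : Matrix n n ℂ →⋆ₐ[ℂ] B) {U : Matrix n n ℂ} (h1 : star U * U = 1)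
    (h2 : U * star U = 1) : ι U ∈ unitary B := by
  constructor
  · rw [← map_star, ← map_mul, h1, map_one]
  · rw [← map_star, ← map_mul, h2, map_one]

theorem norm_conj_MC [Nontrivial B] (ι : Matrix n n ℂ →⋆ₐ[ℂ] B) {U V : Matrix n n ℂ}
    (hU1 : star U * U = 1) (hU2 : U * star U = 1) (hV1 : star V * V = 1) (hV2 : V * star V = 1)
    (d : n → ℂ) : ‖ι (V * Matrix.diagonal d * star U)‖ = ‖d‖ := by
  have hU : ι (star U) ∈ unitary B :=
    hom_unitary_MC ι (by rw [star_star, hU2]) (by rw [star_star, hU1])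
  rw [map_mul, map_mul, CStarRing.norm_mul_mem_unitary _ hU,
    CStarRing.norm_mem_unitary_mul _ (hom_unitary_MC ι hV1 hV2), norm_diag_MC]

theorem diag_MC {X : Matrix n n ℂ} (hX : star X = X) :
    ∃ (U : Matrix n n ℂ) (a : n → ℝ), star U * U = 1 ∧ U * star U = 1 ∧
      X = U * Matrix.diagonal (fun i => (a i : ℂ)) * star U := by
  have hH : X.IsHermitian := hX
  refine ⟨hH.eigenvectorUnitary, hH.eigenvalues, hH.eigenvectorUnitary.2.1,
    hH.eigenvectorUnitary.2.2, ?_⟩
  conv_lhs => rw [hH.spectral_theorem]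
  rfl

theorem conj_mul_MC {U V W : Matrix n n ℂ} (h1 : star V * V = 1) (d e : n → ℂ) :
    U * Matrix.diagonal d * star V * (V * Matrix.diagonal e * star W) =
      U * Matrix.diagonal (fun i => d i * e i) * star W := by
  rw [← Matrix.diagonal_mul_diagonal]
  calc U * Matrix.diagonal d * star V * (V * Matrix.diagonal e * star W)
      = U * Matrix.diagonal d * (star V * V) * Matrix.diagonal e * star W := by
        simp only [mul_assoc]
    _ = _ := by rw [h1, mul_one, mul_assoc U]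

theorem conj_sub_MC (U W : Matrix n n ℂ) (d e : n → ℂ) :
    U * Matrix.diagonal d * star W - U * Matrix.diagonal e * star W =
      U * Matrix.diagonal (fun i => d i - e i) * star W := by
  rw [← Matrix.diagonal_sub, mul_sub, sub_mul]

theorem conj_pow_MC {U : Matrix n n ℂ} (h1 : star U * U = 1) (h2 : U * star U = 1) (d : n → ℂ)
    (m : ℕ) : (U * Matrix.diagonal d * star U) ^ m =
      U * Matrix.diagonal (fun i => d i ^ m) * star U := by
  induction m with
  | zero => simp [h2]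
  | succ m ih =>
    rw [pow_succ, ih, conj_mul_MC h1]
    simp only [pow_succ]

theorem conj_trace_MC {U : Matrix n n ℂ} (h1 : star U * U = 1) (d : n → ℂ) :
    (U * Matrix.diagonal d * star U).trace = ∑ i, d i := by
  rw [Matrix.trace_mul_cycle, h1, one_mul, Matrix.trace_diagonal]

theorem conj_perm_MC (V : Matrix n n ℂ) (d : n → ℂ) (σ : Equiv.Perm n) :
    V * Matrix.diagonal d * star V =
      V.submatrix id σ * Matrix.diagonal (fun i => d (σ i)) * star (V.submatrix id σ) := by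
  ext i j
  simp only [Matrix.mul_apply (M := V * Matrix.diagonal d),
    Matrix.mul_apply (M := V.submatrix id σ * Matrix.diagonal (fun i => d (σ i))),
    Matrix.mul_diagonal, Matrix.star_apply, Matrix.submatrix_apply, id]
  exact (Equiv.sum_comp σ fun k => V i k * d k * star (V j k)).symm

theorem perm_unitary_MC {V : Matrix n n ℂ} (h1 : star V * V = 1) (h2 : V * star V = 1)
    (σ : Equiv.Perm n) : star (V.submatrix id σ) * V.submatrix id σ = 1 ∧
      V.submatrix id σ * star (V.submatrix id σ) = 1 := by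
  have h3 : V.submatrix id σ * star (V.submatrix id σ) = 1 := by
    have h := conj_perm_MC V (fun _ => 1) σ
    simp only [Matrix.diagonal_one, mul_one] at h
    rw [← h, h2]
  exact ⟨mul_eq_one_comm.1 h3, h3⟩

theorem count_MC {a b : n → ℝ} {η ε : ℝ} (ha : ∀ i, |a i * a i - a i| ≤ η) (hb : ∀ i, |b i| ≤ 1)
    (hε1 : ε ≤ 1) {m : ℕ} (hm : Odd m)
    (ht : ∑ i, a i + Fintype.card n * (2 * η) + Fintype.card n * (1 - ε) ^ m ≤ ∑ i, b i ^ m) :
    ∃ (σ : Equiv.Perm n) (p : n → ℝ), (∀ i, p i * p i = p i) ∧ (∀ i, |p i - a i| ≤ 2 * η) ∧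
      ∀ i, |b (σ i) * p i - p i| ≤ max ε 0 := by
  classical
  set I : Finset n := Finset.univ.filter fun i => 1 / 2 < a i with hI
  set J : Finset n := Finset.univ.filter fun i => 1 - ε ≤ b i with hJ
  let p : n → ℝ := fun i => if 1 / 2 < a i then 1 else 0
  have hp : ∀ i, |p i - a i| ≤ 2 * η := by
    intro i
    have h := abs_le.1 (ha i)
    by_cases hi : 1 / 2 < a i
    · have : p i = 1 := if_pos hi
      rw [this, abs_le]
      constructor <;> nlinarith [h.1, h.2, abs_nonneg (a i * a i - a i), ha i]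
    · have : p i = 0 := if_neg hi
      rw [this, abs_le]
      have hi' := not_lt.1 hi
      constructor <;> nlinarith [h.1, h.2, abs_nonneg (a i * a i - a i), ha i]
  have h1 : (I.card : ℝ) ≤ ∑ i, a i + Fintype.card n * (2 * η) := by
    have e1 : (I.card : ℝ) = ∑ i, p i := by
      simp only [p, hI, Finset.sum_boole]
    have e2 : ∑ i, p i ≤ ∑ i, (a i + 2 * η) :=
      Finset.sum_le_sum fun i _ => by linarith [(abs_le.1 (hp i)).2]
    rw [Finset.sum_add_distrib, Finset.sum_const, Finset.card_univ, nsmul_eq_mul] at e2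
    rw [e1]
    exact e2
  have h2 : ∑ i, b i ^ m ≤ J.card + Fintype.card n * (1 - ε) ^ m := by
    have e1 : (J.card : ℝ) = ∑ i, if 1 - ε ≤ b i then (1 : ℝ) else 0 := by
      simp only [hJ, Finset.sum_boole]
    have h0 : 0 ≤ (1 - ε) ^ m := pow_nonneg (by linarith) m
    have e2 : ∑ i, b i ^ m ≤ ∑ i, ((if 1 - ε ≤ b i then (1 : ℝ) else 0) + (1 - ε) ^ m) := by
      refine Finset.sum_le_sum fun i _ => ?_
      by_cases hi : 1 - ε ≤ b i
      · rw [if_pos hi]
        have : b i ^ m ≤ 1 := pow_le_one₀ (by linarith) (abs_le.1 (hb i)).2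
        linarith
      · rw [if_neg hi, zero_add]
        exact (hm.strictMono_pow (not_le.1 hi)).le
    rw [Finset.sum_add_distrib, Finset.sum_const, Finset.card_univ, nsmul_eq_mul] at e2
    rw [e1]
    exact e2
  have h3 : I.card ≤ J.card := by
    have : (I.card : ℝ) ≤ J.card := by linarith
    exact_mod_cast this
  obtain ⟨J', hJ', hc⟩ := Finset.exists_subset_card_eq h3
  obtain ⟨σ, hσ⟩ := Equiv.Perm.exists_map_finset_eq I J' hc.symm
  refine ⟨σ, p, fun i => ?_, hp, fun i => ?_⟩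
  · by_cases hi : 1 / 2 < a i
    · have : p i = 1 := if_pos hi
      rw [this, one_mul]
    · have : p i = 0 := if_neg hi
      rw [this, zero_mul]
  · by_cases hi : 1 / 2 < a i
    · have hpi : p i = 1 := if_pos hi
      have hiI : i ∈ I := Finset.mem_filter.2 ⟨Finset.mem_univ _, hi⟩
      have hiJ : σ i ∈ J := hJ' (hσ ▸ Finset.mem_map_of_mem _ hiI)
      have h4 := (Finset.mem_filter.1 hiJ).2
      have h5 := (abs_le.1 (hb (σ i))).2
      rw [hpi, mul_one, abs_le]
      constructor <;> linarith [le_max_left ε 0, le_max_right ε 0]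
    · have : p i = 0 := if_neg hi
      rw [this, mul_zero, sub_zero, abs_zero]
      exact le_max_right _ _

theorem spread_MC {ι κ R : Type} [Fintype ι] [DecidableEq ι] [Fintype κ] [DecidableEq κ] [Ring R]
    [StarRing R] {F : ι → ι → R} (hF : IsMU F) (o : ι) {g : κ → κ → R}
    (hmul : ∀ a b c d, g a b * g c d = if b = c then g a d else 0)
    (hstar : ∀ a b, star (g a b) = g b a) (hsum : ∑ a, g a a = F o o) :
    IsMU (fun a b => ∑ i, F i o * g a b * F o i) ∧
      ∀ a b k l, Commute (∑ i, F i o * g a b * F o i) (F k l) := by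
  have hl : ∀ a b, F o o * g a b = g a b := by
    intro a b
    rw [← hsum, Finset.sum_mul]
    simp [hmul]
  have hr : ∀ x : R, ∀ k l, (∑ i, F i o * x * F o i) * F k l = F k o * x * F o l := by
    intro x k l
    rw [Finset.sum_mul]
    simp [mul_assoc, hF.mul]
  have hl' : ∀ x : R, ∀ k l, F k l * (∑ i, F i o * x * F o i) = F k o * x * F o l := by
    intro x k l
    rw [Finset.mul_sum]
    simp [← mul_assoc, hF.mul]
  refine ⟨⟨fun a b c d => ?_, fun a b => ?_, ?_⟩, fun a b k l => ?_⟩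
  · rw [Finset.mul_sum]
    have h1 : ∀ j, (∑ i, F i o * g a b * F o i) * (F j o * g c d * F o j) =
        F j o * (g a b * g c d) * F o j := by
      intro j
      rw [← mul_assoc, ← mul_assoc, hr, mul_assoc _ (F o o), hl, mul_assoc (F j o)]
    simp only [h1, hmul]
    split_ifs <;> simp
  · rw [star_sum]
    refine Finset.sum_congr rfl fun i _ => ?_
    rw [star_mul, star_mul, hF.star, hF.star, hstar, mul_assoc]
  · rw [Finset.sum_comm, ← hF.sum]
    refine Finset.sum_congr rfl fun i _ => ?_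
    rw [← Finset.sum_mul, ← Finset.mul_sum, hsum]
    simp [hF.mul]
  · exact (hr _ k l).trans (hl' _ k l).symm

theorem pull_MC [Nontrivial B] {ι : Type} [Fintype ι] [DecidableEq ι]
    (φ : Matrix ι ι ℂ →⋆ₐ[ℂ] B) (ψ : Matrix n n ℂ →⋆ₐ[ℂ] B) (h : Set.range φ ⊆ Set.range ψ) :
    ∃ F : ι → ι → Matrix n n ℂ, IsMU F ∧ ∀ i j, ψ (F i j) = φ (Matrix.single i j 1) := by
  have h1 : ∀ i j, ∃ M, ψ M = φ (Matrix.single i j 1) := fun i j => h ⟨_, rfl⟩
  choose F hF using h1
  have hφ := isMU_of_hom φ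
  have hi := hom_inj_MC ψ
  refine ⟨F, ⟨fun i j k l => hi ?_, fun i j => hi ?_, hi ?_⟩, hF⟩
  · rw [map_mul, hF, hF, hφ.mul]
    split_ifs
    · rw [hF]
    · rw [map_zero]
  · rw [map_star, hF, hF, hφ.star]
  · rw [map_sum, map_one, ← hφ.sum]
    exact Finset.sum_congr rfl fun i _ => hF i i

theorem factor_MC {ι : Type} [Fintype ι] [DecidableEq ι] {F : ι → ι → Matrix n n ℂ} (hF : IsMU F)
    (o : ι) : ∃ (r : ℕ) (U : Matrix n (Fin r) ℂ), Uᴴ * U = 1 ∧ U * Uᴴ = F o o ∧
      Fintype.card ι * r = Fintype.card n := by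
  obtain ⟨r, U, h1, h2, h3⟩ := proj_factor (F o o) (hF.star o o) (by simp [hF.mul])
  refine ⟨r, U, h1, h2, ?_⟩
  have h4 : ∀ i, (F i i).trace = r := by
    intro i
    have e1 : F i i = F i o * F o i := by simp [hF.mul]
    have e2 : F o o = F o i * F i o := by simp [hF.mul]
    rw [h3, e1, e2, Matrix.trace_mul_comm]
  have h5 := congrArg Matrix.trace hF.sum
  rw [Matrix.trace_sum, Matrix.trace_one] at h5
  simp only [h4, Finset.sum_const, Finset.card_univ, nsmul_eq_mul] at h5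
  exact_mod_cast h5

theorem mu_of_dvd_MC {r N : ℕ} (h : N ∣ r) :
    ∃ G : Fin N → Fin N → Matrix (Fin r) (Fin r) ℂ, IsMU G := by
  obtain ⟨t, rfl⟩ := h
  let φ : Matrix (Fin N × Fin t) (Fin N × Fin t) ℂ ≃ₐ[ℂ] Matrix (Fin (N * t)) (Fin (N * t)) ℂ :=
    Matrix.reindexAlgEquiv ℂ ℂ finProdFinEquiv
  let G : Fin N → Fin N → Matrix (Fin N × Fin t) (Fin N × Fin t) ℂ :=
    fun a b => Matrix.kroneckerMap (· * ·) (Matrix.single a b 1) 1
  have hG : IsMU G := by
    refine ⟨fun a b c d => ?_, fun a b => ?_, ?_⟩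
    · simp only [G]
      rw [← Matrix.mul_kronecker_mul, mul_one]
      split_ifs with hbc
      · subst hbc
        rw [Matrix.single_mul_single_same, mul_one]
      · rw [Matrix.single_mul_single_of_ne _ _ _ _ hbc, Matrix.zero_kronecker]
    · simp only [G]
      rw [Matrix.star_eq_conjTranspose, Matrix.conjTranspose_kronecker, Matrix.conjTranspose_one,
        Matrix.conjTranspose_single, star_one]
    · ext ⟨i, j⟩ ⟨k, l⟩
      simp only [G, Matrix.sum_apply, Matrix.kroneckerMap_apply, Matrix.single_apply,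
        Matrix.one_apply, Prod.mk.injEq]
      by_cases hik : i = k
      · subst hik
        simp
      · have : ∀ x : Fin N, ¬ (x = i ∧ x = k) := fun x hx => hik (hx.1.symm.trans hx.2)
        simp [hik, this]
  refine ⟨fun a b => φ (G a b), fun a b c d => ?_, fun a b => ?_, ?_⟩
  · rw [← map_mul, hG.mul]
    split_ifs
    · rfl
    · rw [map_zero]
  · rw [← hG.star a b]
    rfl
  · rw [← map_sum, hG.sum, map_one]

end Aux

variable {B : Type} [CStarAlgebra B] [PartialOrder B] [StarOrderedRing B] {τ : B →ₚ[ℂ] ℂ}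

theorem cmp_mat (h : IsTracialState τ) {N : ℕ} (ι : Matrix (Fin N) (Fin N) ℂ →⋆ₐ[ℂ] B)
    {x y : B} (hx : x ∈ Set.range ι) (hy : y ∈ Set.range ι) (hxs : IsSelfAdjoint x)
    (hys : IsSelfAdjoint y) {η ε : ℝ} (hη : η ≤ 1 / 8) (hx2 : ‖x * x - x‖ ≤ η) (hy1 : ‖y‖ ≤ 1)
    (hε0 : 0 < ε) (hε1 : ε ≤ 1) {m : ℕ} (hm : Odd m)
    (ht : (τ x).re + 2 * η + (1 - ε) ^ m ≤ (τ (y ^ m)).re) :
    ∃ s : B, ‖star s * s - x‖ ≤ 2 * η ∧ ‖y * s - s‖ ≤ ε := by
  haveI := nontrivial_of_tr h
  obtain ⟨X, rfl⟩ := hx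
  obtain ⟨Y, rfl⟩ := hy
  have hi := hom_inj_MC ι
  have hN : 0 < N := by
    rcases Nat.eq_zero_or_pos N with h0 | h0
    · subst h0
      have h1 : (1 : Matrix (Fin 0) (Fin 0) ℂ) = 0 := Subsingleton.elim _ _
      have h2 := congrArg ι h1
      rw [map_one, map_zero] at h2
      exact absurd h2 one_ne_zero
    · exact h0
  have hN' : (0 : ℝ) < N := by exact_mod_cast hN
  have hη0 : 0 ≤ η := (norm_nonneg _).trans hx2
  obtain ⟨U, a, hU1, hU2, rfl⟩ := diag_MC (X := X) (hi (by rw [map_star]; exact hxs))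
  obtain ⟨V, b, hV1, hV2, rfl⟩ := diag_MC (X := Y) (hi (by rw [map_star]; exact hys))
  rw [← map_mul, conj_mul_MC hU1, ← map_sub, conj_sub_MC, norm_conj_MC ι hU1 hU2 hU1 hU2] at hx2
  rw [norm_conj_MC ι hV1 hV2 hV1 hV2] at hy1
  rw [← map_pow, conj_pow_MC hV1 hV2, tr_hom h, tr_hom h, conj_trace_MC hU1, conj_trace_MC hV1,
    Fintype.card_fin] at ht
  have ha : ∀ i, |a i * a i - a i| ≤ η := by
    intro i
    have h1 := (norm_le_pi_norm _ i).trans hx2
    have h2 : ((a i : ℂ) * a i - a i) = ((a i * a i - a i : ℝ) : ℂ) := by push_cast; rfl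
    rwa [h2, Complex.norm_real, Real.norm_eq_abs] at h1
  have hb : ∀ i, |b i| ≤ 1 := by
    intro i
    have h1 := (norm_le_pi_norm _ i).trans hy1
    rwa [Complex.norm_real, Real.norm_eq_abs] at h1
  have ht' : ∑ i, a i + Fintype.card (Fin N) * (2 * η) + Fintype.card (Fin N) * (1 - ε) ^ m ≤
      ∑ i, b i ^ m := by
    have e1 : ((∑ i, (a i : ℂ)) / (N : ℂ)) = (((∑ i, a i) / N : ℝ) : ℂ) := by push_cast; rfl
    have e2 : ((∑ i, (b i : ℂ) ^ m) / (N : ℂ)) = (((∑ i, b i ^ m) / N : ℝ) : ℂ) := by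
      push_cast; rfl
    rw [e1, e2, Complex.ofReal_re, Complex.ofReal_re, le_div_iff₀ hN'] at ht
    rw [Fintype.card_fin]
    have e3 : (∑ i, a i) / N * N = ∑ i, a i := div_mul_cancel₀ _ hN'.ne'
    nlinarith [ht, e3]
  obtain ⟨σ, p, hp1, hp2, hp3⟩ := count_MC ha hb hε1 hm ht'
  obtain ⟨hW1, hW2⟩ := perm_unitary_MC hV1 hV2 σ
  rw [conj_perm_MC V _ σ]
  set W := V.submatrix id σ
  refine ⟨ι (W * Matrix.diagonal (fun i => (p i : ℂ)) * star U), ?_, ?_⟩
  · have e1 : star (W * Matrix.diagonal (fun i => (p i : ℂ)) * star U) =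
        U * Matrix.diagonal (fun i => (p i : ℂ)) * star W := by
      rw [star_mul, star_mul, star_star, mul_assoc]
      congr 2
      rw [Matrix.star_eq_conjTranspose, Matrix.diagonal_conjTranspose]
      congr 1
      funext i
      exact Complex.conj_ofReal _
    rw [← map_star, e1, ← map_mul, conj_mul_MC hW1, ← map_sub, conj_sub_MC,
      norm_conj_MC ι hU1 hU2 hU1 hU2, pi_norm_le_iff_of_nonneg (by linarith)]
    intro i
    have h2 : ((p i : ℂ) * p i - a i) = ((p i * p i - a i : ℝ) : ℂ) := by push_cast; rfl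
    rw [h2, Complex.norm_real, Real.norm_eq_abs, hp1]
    exact hp2 i
  · rw [← map_mul, conj_mul_MC hW1, ← map_sub, conj_sub_MC,
      norm_conj_MC ι hU1 hU2 hW1 hW2, pi_norm_le_iff_of_nonneg hε0.le]
    intro i
    have h2 : ((b (σ i) : ℂ) * p i - p i) = ((b (σ i) * p i - p i : ℝ) : ℂ) := by push_cast; rfl
    rw [h2, Complex.norm_real, Real.norm_eq_abs]
    exact (hp3 i).trans (max_le le_rfl hε0.le)

theorem div_rel [Nontrivial B] (c : UChain B) (hu : ∀ m : ℕ, 0 < m → ∃ k, m ∣ c.n k) (k N : ℕ)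
    (hN : 0 < N) : ∃ e : Fin N → Fin N → B, IsMU e ∧ ∀ i j M, Commute (e i j) (c.ι k M) := by
  obtain ⟨k', hk'⟩ := hu (c.n k * N) (Nat.mul_pos (c.pos k) hN)
  obtain ⟨F', hF', -⟩ := pull_MC (c.ι k') (c.ι (max k k')) (c.mono_le (le_max_right _ _))
  obtain ⟨r', -, -, -, hr'⟩ := factor_MC hF' ⟨0, c.pos k'⟩
  obtain ⟨F, hF, hFι⟩ := pull_MC (c.ι k) (c.ι (max k k')) (c.mono_le (le_max_left _ _))
  obtain ⟨r, U, hU1, hU2, hr⟩ := factor_MC hF ⟨0, c.pos k⟩
  simp only [Fintype.card_fin] at hr hr'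
  have hd : N ∣ r := by
    have h1 : c.n k * N ∣ c.n k * r := by
      rw [hr, ← hr']
      exact hk'.mul_right _
    exact Nat.dvd_of_mul_dvd_mul_left (c.pos k) h1
  obtain ⟨G, hG⟩ := mu_of_dvd_MC hd
  obtain ⟨hE, hc⟩ := spread_MC hF ⟨0, c.pos k⟩ (g := fun a b => U * G a b * Uᴴ)
    (fun a b c d => by
      have e1 : U * G a b * Uᴴ * (U * G c d * Uᴴ) = U * (G a b * (Uᴴ * U) * G c d) * Uᴴ := by
        simp only [Matrix.mul_assoc]
      rw [e1, hU1, mul_one, hG.mul]
      split_ifs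
      · rfl
      · rw [Matrix.mul_zero, Matrix.zero_mul])
    (fun a b => by
      rw [Matrix.star_eq_conjTranspose, Matrix.conjTranspose_mul, Matrix.conjTranspose_mul,
        Matrix.conjTranspose_conjTranspose, ← hG.star a b, Matrix.mul_assoc]
      rfl)
    (by rw [← Matrix.sum_mul, ← Matrix.mul_sum, hG.sum, Matrix.mul_one, hU2])
  refine ⟨fun a b => c.ι (max k k') (∑ i, F i ⟨0, c.pos k⟩ * (U * G a b * Uᴴ) * F ⟨0, c.pos k⟩ i),
    ⟨fun a b d e => ?_, fun a b => ?_, ?_⟩, fun a b M => ?_⟩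
  · rw [← map_mul, hE.mul]
    split_ifs
    · rfl
    · rw [map_zero]
  · rw [← map_star, hE.star]
  · rw [← map_sum, hE.sum, map_one]
  · rw [hom_eq_sum (c.ι k) M]
    refine Commute.sum_right _ _ _ fun i _ => Commute.sum_right _ _ _ fun j _ => ?_
    refine Commute.smul_right ?_ _
    rw [← hFι]
    exact (hc a b i j).map _

end Pool.Agent.Izumi
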