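import Pool.Agent.Lib.MP_b2135d_an.MA

/-! The algebra generated by two commuting universal UHF algebras (PLAN section 4). -/

namespace Pool.Agent.Izumi

open scoped ComplexOrder Matrix
open Filter Topology

/-- Products of two commuting systems of matrix units form a system of matrix units. -/
theorem isMU_prod_md {ι κ R : Type} [Fintype ι] [DecidableEq ι] [Fintype κ] [DecidableEq κ]
    [Ring R] [StarRing R] {e : ι → ι → R} {f : κ → κ → R} (he : IsMU e) (hf : IsMU f)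
    (hc : ∀ i j k l, Commute (e i j) (f k l)) :
    IsMU (fun p q : ι × κ => e p.1 q.1 * f p.2 q.2) where
  mul := by
    rintro ⟨i, a⟩ ⟨j, b⟩ ⟨k, c⟩ ⟨l, d⟩
    have h1 : e i j * f a b * (e k l * f c d) = (e i j * e k l) * (f a b * f c d) := by
      rw [mul_assoc, ← mul_assoc (f a b), ← (hc k l a b).eq, mul_assoc, ← mul_assoc]
    show e i j * f a b * (e k l * f c d) = if (j, b) = (k, c) then e i l * f a d else 0
    rw [h1, he.mul, hf.mul]
    by_cases hjk : j = k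
    · by_cases hbc : b = c
      · rw [if_pos hjk, if_pos hbc, if_pos (by rw [hjk, hbc])]
      · rw [if_neg hbc, mul_zero, if_neg (fun h => hbc (Prod.ext_iff.1 h).2)]
    · rw [if_neg hjk, zero_mul, if_neg (fun h => hjk (Prod.ext_iff.1 h).1)]
  star := by
    rintro ⟨i, a⟩ ⟨j, b⟩
    show star (e i j * f a b) = e j i * f b a
    rw [star_mul, he.star, hf.star, (hc j i b a).eq]
  sum := by
    show ∑ p : ι × κ, e p.1 p.1 * f p.2 p.2 = 1
    rw [Fintype.sum_prod_type]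
    simp only [← Finset.mul_sum, hf.sum, mul_one, he.sum]

/-- Two commuting unital matrix algebras generate a matrix algebra. -/
theorem exists_hom_prod_md {B : Type} [CStarAlgebra B] {m n : ℕ}
    (f : Matrix (Fin m) (Fin m) ℂ →⋆ₐ[ℂ] B) (g : Matrix (Fin n) (Fin n) ℂ →⋆ₐ[ℂ] B)
    (hc : ∀ M N, Commute (f M) (g N)) :
    ∃ ψ : Matrix (Fin (m * n)) (Fin (m * n)) ℂ →⋆ₐ[ℂ] B,
      (∀ M N, f M * g N ∈ Set.range ψ) ∧
        ∀ W : Submodule ℂ B, (∀ M N, f M * g N ∈ W) → ∀ P, ψ P ∈ W := by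
  have h0 := (isMU_prod_md (isMU_of_hom f) (isMU_of_hom g) (fun _ _ _ _ => hc _ _)).reindex
    (finProdFinEquiv (m := m) (n := n)).symm
  obtain ⟨ψ, h1, h2⟩ := h0.exists_hom
  refine ⟨ψ, fun M N => ?_, fun W hW P => ?_⟩
  · have hr : ∀ i j a b, f (Matrix.single i j 1) * g (Matrix.single a b 1) ∈
        LinearMap.range ψ.toAlgHom.toLinearMap := by
      intro i j a b
      refine ⟨Matrix.single (finProdFinEquiv (i, a)) (finProdFinEquiv (j, b)) 1, ?_⟩
      have := h2 (finProdFinEquiv (i, a)) (finProdFinEquiv (j, b))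
      simp only [Equiv.symm_apply_apply] at this
      exact this
    have : f M * g N ∈ LinearMap.range ψ.toAlgHom.toLinearMap := by
      rw [hom_eq_sum f M, hom_eq_sum g N, Finset.sum_mul]
      refine Submodule.sum_mem _ fun i _ => ?_
      rw [Finset.sum_mul]
      refine Submodule.sum_mem _ fun j _ => ?_
      rw [Finset.mul_sum]
      refine Submodule.sum_mem _ fun a _ => ?_
      rw [Finset.mul_sum]
      refine Submodule.sum_mem _ fun b _ => ?_
      rw [smul_mul_smul_comm]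
      exact Submodule.smul_mem _ _ (hr i j a b)
    exact this
  · rw [h1]
    exact Submodule.sum_mem _ fun i _ => Submodule.sum_mem _ fun j _ =>
      Submodule.smul_mem _ _ (hW _ _)

/-- An algebra spanned by two commuting universal UHF images is universal UHF. -/
theorem uhf_of_prod_md {B D₁ D₂ : Type} [CStarAlgebra B] [CStarAlgebra D₁] [CStarAlgebra D₂]
    [Nontrivial B] (h₁ : IsUniversalUHF D₁) (h₂ : IsUniversalUHF D₂)
    (ι₁ : D₁ →⋆ₐ[ℂ] B) (ι₂ : D₂ →⋆ₐ[ℂ] B) (hc : ∀ x y, Commute (ι₁ x) (ι₂ y))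
    (hd : Dense (Submodule.span ℂ {z : B | ∃ x y, z = ι₁ x * ι₂ y} : Set B)) :
    IsUniversalUHF B := by
  obtain ⟨c₁, hv₁⟩ := h₁.exists_chain
  obtain ⟨c₂, -⟩ := h₂.exists_chain
  choose ψ hψ₁ hψ₂ using fun k =>
    exists_hom_prod_md (ι₁.comp (c₁.ι k)) (ι₂.comp (c₂.ι k)) (fun M N => hc _ _)
  have hmono : ∀ k, Set.range (ψ k) ⊆ Set.range (ψ (k + 1)) := by
    rintro k _ ⟨P, rfl⟩
    refine hψ₂ k (LinearMap.range (ψ (k + 1)).toAlgHom.toLinearMap) (fun M N => ?_) P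
    obtain ⟨M', hM⟩ := c₁.mono k ⟨M, rfl⟩
    obtain ⟨N', hN⟩ := c₂.mono k ⟨N, rfl⟩
    have := hψ₁ (k + 1) M' N'
    simp only [StarAlgHom.comp_apply] at this ⊢
    rw [hM, hN] at this
    exact this
  refine ⟨inferInstance, fun k => c₁.n k * c₂.n k, ψ, hmono, ?_, fun m hm => ?_⟩
  · let W : ℕ → Submodule ℂ B := fun k => LinearMap.range (ψ k).toAlgHom.toLinearMap
    have hW : Monotone W := monotone_nat_of_le_succ fun k => hmono k
    have hU : ((⨆ k, W k : Submodule ℂ B) : Set B) = ⋃ k, Set.range (ψ k) :=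
      Submodule.coe_iSup_of_directed W hW.directed_le
    have hle : Submodule.span ℂ {z : B | ∃ x y, z = ι₁ x * ι₂ y} ≤
        (⨆ k, W k).topologicalClosure := by
      rw [Submodule.span_le]
      rintro _ ⟨x, y, rfl⟩
      have hcont : Continuous fun p : D₁ × D₂ => ι₁ p.1 * ι₂ p.2 :=
        ((hom_continuous ι₁).comp continuous_fst).mul ((hom_continuous ι₂).comp continuous_snd)
      have hx : (x, y) ∈ closure ((⋃ k, Set.range (c₁.ι k)) ×ˢ (⋃ k, Set.range (c₂.ι k))) :=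
        (c₁.dense.prod c₂.dense) _
      rw [Submodule.topologicalClosure_coe, hU]
      refine map_mem_closure (f := fun p : D₁ × D₂ => ι₁ p.1 * ι₂ p.2) hcont hx ?_
      rintro ⟨a, b⟩ ⟨ha, hb⟩
      obtain ⟨k, hk⟩ := Set.mem_iUnion.1 ha
      obtain ⟨l, hl⟩ := Set.mem_iUnion.1 hb
      obtain ⟨M, hM⟩ := c₁.mono_le (le_max_left k l) hk
      obtain ⟨N, hN⟩ := c₂.mono_le (le_max_right k l) hl
      refine Set.mem_iUnion.2 ⟨max k l, ?_⟩
      have := hψ₁ (max k l) M N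
      simp only [StarAlgHom.comp_apply] at this
      rw [hM, hN] at this
      exact this
    have h3 : Dense ((⨆ k, W k).topologicalClosure : Set B) := hd.mono hle
    rw [Submodule.topologicalClosure_coe, hU] at h3
    exact dense_closure.1 h3
  · obtain ⟨k, hk⟩ := hv₁ m hm
    exact ⟨k, hk.mul_right _⟩

/-- The span of products of two commuting images as a star subalgebra. -/
def prodAlgMD {A D₁ D₂ : Type} [CStarAlgebra A] [CStarAlgebra D₁] [CStarAlgebra D₂]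
    (φ₁ : D₁ →⋆ₐ[ℂ] A) (φ₂ : D₂ →⋆ₐ[ℂ] A) (hc : ∀ x y, Commute (φ₁ x) (φ₂ y)) :
    StarSubalgebra ℂ A where
  carrier := Submodule.span ℂ {z : A | ∃ x y, z = φ₁ x * φ₂ y}
  mul_mem' := by
    intro a b ha hb
    have h : Submodule.span ℂ {z : A | ∃ x y, z = φ₁ x * φ₂ y} *
        Submodule.span ℂ {z : A | ∃ x y, z = φ₁ x * φ₂ y} ≤
          Submodule.span ℂ {z : A | ∃ x y, z = φ₁ x * φ₂ y} := by
      rw [Submodule.span_mul_span]
      refine Submodule.span_mono ?_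
      rintro _ ⟨_, ⟨x, y, rfl⟩, _, ⟨x', y', rfl⟩, rfl⟩
      refine ⟨x * x', y * y', ?_⟩
      show φ₁ x * φ₂ y * (φ₁ x' * φ₂ y') = _
      rw [map_mul, map_mul, mul_assoc, ← mul_assoc (φ₂ y), ← (hc x' y).eq, mul_assoc, ← mul_assoc]
    exact h (Submodule.mul_mem_mul ha hb)
  add_mem' := fun ha hb => Submodule.add_mem _ ha hb
  algebraMap_mem' := fun c => by
    rw [Algebra.algebraMap_eq_smul_one]
    exact Submodule.smul_mem _ _ (Submodule.subset_span ⟨1, 1, by simp⟩)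
  star_mem' := by
    intro a ha
    induction ha using Submodule.span_induction with
    | mem z hz =>
      obtain ⟨x, y, rfl⟩ := hz
      refine Submodule.subset_span ⟨star x, star y, ?_⟩
      rw [star_mul, map_star, map_star, ← map_star φ₁, ← map_star φ₂, (hc _ _).eq]
    | zero => rw [star_zero]; exact Submodule.zero_mem _
    | add x y _ _ hx hy => rw [star_add]; exact Submodule.add_mem _ hx hy
    | smul c x _ hx => rw [star_smul]; exact Submodule.smul_mem _ _ hx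

/-- Restriction of an action to an invariant star subalgebra. -/
def restrictActMD {G A : Type} [Group G] [CStarAlgebra A] (γ : G →* (A ≃⋆ₐ[ℂ] A))
    (S : StarSubalgebra ℂ A) (h : ∀ g, ∀ x ∈ S, γ g x ∈ S) : G →* (S ≃⋆ₐ[ℂ] S) where
  toFun g :=
    { toFun := fun x => ⟨γ g x, h g x x.2⟩
      invFun := fun x => ⟨γ g⁻¹ x, h g⁻¹ x x.2⟩
      left_inv := fun x => Subtype.ext (act_inv_act γ g x)
      right_inv := fun x => Subtype.ext (act_act_inv γ g x)
      map_mul' := fun x y => Subtype.ext (map_mul (γ g) x.1 y.1)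
      map_add' := fun x y => Subtype.ext (map_add (γ g) x.1 y.1)
      map_star' := fun x => Subtype.ext (map_star (γ g) x.1)
      map_smul' := fun c x => Subtype.ext (map_smul (γ g) c x.1) }
  map_one' := StarAlgEquiv.ext fun x => Subtype.ext (act_one γ x.1)
  map_mul' g k := StarAlgEquiv.ext fun x => Subtype.ext (act_act γ g k x.1).symm

theorem exists_prod {G A D₁ D₂ : Type} [Group G] [CStarAlgebra A] [CStarAlgebra D₁]
    [CStarAlgebra D₂] [Nontrivial A] (h₁ : IsUniversalUHF D₁) (h₂ : IsUniversalUHF D₂)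
    (γ : G →* (A ≃⋆ₐ[ℂ] A)) (α₁ : G →* (D₁ ≃⋆ₐ[ℂ] D₁)) (α₂ : G →* (D₂ ≃⋆ₐ[ℂ] D₂))
    (φ₁ : D₁ →⋆ₐ[ℂ] A) (φ₂ : D₂ →⋆ₐ[ℂ] A) (e₁ : ∀ g x, φ₁ (α₁ g x) = γ g (φ₁ x))
    (e₂ : ∀ g x, φ₂ (α₂ g x) = γ g (φ₂ x)) (hc : ∀ x y, Commute (φ₁ x) (φ₂ y)) :
    ∃ (B : Type) (_ : CStarAlgebra B) (β : G →* (B ≃⋆ₐ[ℂ] B)) (ι₁ : D₁ →⋆ₐ[ℂ] B)
      (ι₂ : D₂ →⋆ₐ[ℂ] B), IsUniversalUHF B ∧ (∀ g x, ι₁ (α₁ g x) = β g (ι₁ x)) ∧
        (∀ g x, ι₂ (α₂ g x) = β g (ι₂ x)) ∧ (∀ x y, Commute (ι₁ x) (ι₂ y)) ∧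
          Dense (Submodule.span ℂ {z : B | ∃ x y, z = ι₁ x * ι₂ y} : Set B) := by
  let P := prodAlgMD φ₁ φ₂ hc
  let S : StarSubalgebra ℂ A := P.topologicalClosure
  have hS : IsClosed (S : Set A) := P.isClosed_topologicalClosure
  have hP : ∀ g, ∀ x ∈ P, γ g x ∈ P := by
    intro g a ha
    induction ha using Submodule.span_induction with
    | mem z hz =>
      obtain ⟨x, y, rfl⟩ := hz
      exact Submodule.subset_span ⟨α₁ g x, α₂ g y, by rw [map_mul, e₁, e₂]⟩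
    | zero => rw [map_zero]; exact zero_mem _
    | add x y _ _ hx hy => rw [map_add]; exact add_mem hx hy
    | smul c x _ hx => rw [map_smul]; exact SMulMemClass.smul_mem _ hx
  have hinv : ∀ g, ∀ x ∈ S, γ g x ∈ S := fun g x hx =>
    map_mem_closure (aut_continuous (γ g)) hx (hP g)
  have m₁ : ∀ x, φ₁ x ∈ S := fun x =>
    P.le_topologicalClosure (Submodule.subset_span ⟨x, 1, by simp⟩)
  have m₂ : ∀ y, φ₂ y ∈ S := fun y =>
    P.le_topologicalClosure (Submodule.subset_span ⟨1, y, by simp⟩)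
  let ι₁ : D₁ →⋆ₐ[ℂ] S := φ₁.codRestrict S m₁
  let ι₂ : D₂ →⋆ₐ[ℂ] S := φ₂.codRestrict S m₂
  have hcc : ∀ x y, Commute (ι₁ x) (ι₂ y) := fun x y => Subtype.ext (hc x y).eq
  have hd : Dense (Submodule.span ℂ {z : S | ∃ x y, z = ι₁ x * ι₂ y} : Set S) := by
    intro z
    rw [closure_subtype]
    refine closure_mono ?_ z.2
    intro a ha
    induction ha using Submodule.span_induction with
    | mem z hz =>
      obtain ⟨x, y, rfl⟩ := hz
      exact ⟨ι₁ x * ι₂ y, Submodule.subset_span ⟨x, y, rfl⟩, rfl⟩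
    | zero => exact ⟨0, Submodule.zero_mem _, rfl⟩
    | add x y _ _ hx hy =>
      obtain ⟨x', hx', rfl⟩ := hx
      obtain ⟨y', hy', rfl⟩ := hy
      exact ⟨x' + y', Submodule.add_mem _ hx' hy', rfl⟩
    | smul c x _ hx =>
      obtain ⟨x', hx', rfl⟩ := hx
      exact ⟨c • x', Submodule.smul_mem _ _ hx', rfl⟩
  exact ⟨S, inferInstance, restrictActMD γ S hinv, ι₁, ι₂, uhf_of_prod_md h₁ h₂ ι₁ ι₂ hcc hd,
    fun g x => Subtype.ext (e₁ g x), fun g x => Subtype.ext (e₂ g x), hcc, hd⟩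

end Pool.Agent.Izumi
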