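import Pool.Agent.Lib.MP_b2135d_an.CA
import Pool.Agent.Lib.MP_b2135d_an.MA

/-! An approximate intertwiner in the 2-norm (PLAN section 4). -/

namespace Pool.Agent.Izumi

open scoped ComplexOrder Matrix
open Filter Topology

variable {B : Type} [CStarAlgebra B] [PartialOrder B] [StarOrderedRing B] {τ : B →ₚ[ℂ] ℂ}

namespace NB

omit [PartialOrder B] [StarOrderedRing B] in
lemma norm_un {u : B} (hu : u ∈ unitary B) : ‖u‖ ≤ 1 := by
  rcases subsingleton_or_nontrivial B with h | h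
  · simp [Subsingleton.elim u 0]
  · exact (CStarRing.norm_of_mem_unitary hu).le

lemma n2_mul3 (h : IsTracialState τ) {a b : B} (ha : ‖a‖ ≤ 1) (hb : ‖b‖ ≤ 1) (x : B) :
    n2 τ (a * x * b) ≤ n2 τ x :=
  ((n2_mul_le_right h _ _).trans (mul_le_of_le_one_right (n2_nonneg τ _) hb)).trans
    ((n2_mul_le_left τ _ _).trans (mul_le_of_le_one_left (n2_nonneg τ _) ha))

lemma n2_le_add (τ : B →ₚ[ℂ] ℂ) (x y : B) : n2 τ x ≤ n2 τ y + n2 τ (x - y) := by
  simpa using n2_add_le τ y (x - y)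

lemma tend_sum {ι : Type} (s : Finset ι) {f : ℕ → B} {g : ι → ℕ → B} {c : ι → ℝ}
    (hf : ∀ n, n2 τ (f n) ≤ ∑ i ∈ s, c i * n2 τ (g i n))
    (hg : ∀ i, Tendsto (fun n => n2 τ (g i n)) atTop (𝓝 0)) :
    Tendsto (fun n => n2 τ (f n)) atTop (𝓝 0) := by
  refine squeeze_zero (fun n => n2_nonneg τ _) hf ?_
  simpa using tendsto_finsetSum s fun i _ => (hg i).const_mul (c i)

/-- A minimising sequence in an invariant convex set. -/
lemma minimising (τ : B →ₚ[ℂ] ℂ) {K : Set B} (hK : Convex ℝ K) (h0 : K.Nonempty) :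
    ∃ y : ℕ → B, (∀ n, y n ∈ K) ∧ ∀ N n : ℕ, N ≤ n → ∀ z ∈ K, n2 τ z ≤ n2 τ (y n) ∨
      (∃ m, N ≤ m ∧ z = y m) → n2 τ (y n - z) ^ 2 ≤ 4 / (N + 1) := by
  have hb : BddBelow ((fun z => n2 τ z ^ 2) '' K) :=
    ⟨0, by rintro _ ⟨z, -, rfl⟩; exact sq_nonneg _⟩
  set d := sInf ((fun z => n2 τ z ^ 2) '' K)
  have h1 : ∀ n : ℕ, ∃ z ∈ K, n2 τ z ^ 2 < d + 1 / (n + 1) := fun n => by
    obtain ⟨_, ⟨z, hz, rfl⟩, h⟩ := exists_lt_of_csInf_lt (h0.image _)
      (lt_add_of_pos_right d (Nat.one_div_pos_of_nat (n := n)))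
    exact ⟨z, hz, h⟩
  choose y hy hy' using h1
  have h2 : ∀ N n : ℕ, N ≤ n → n2 τ (y n) ^ 2 ≤ d + 1 / (N + 1) := fun N n hn =>
    (hy' n).le.trans (add_le_add_right (Nat.one_div_le_one_div hn) d)
  refine ⟨y, hy, fun N n hn z hz hz' => ?_⟩
  have h3 : n2 τ z ^ 2 ≤ d + 1 / (N + 1) := by
    rcases hz' with h | ⟨m, hm, rfl⟩
    · exact (pow_le_pow_left₀ (n2_nonneg τ z) h 2).trans (h2 N n hn)
    · exact h2 N m hm
  have h4 : d ≤ n2 τ ((1 / 2 : ℝ) • (y n + z)) ^ 2 := by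
    refine csInf_le hb ⟨_, ?_, rfl⟩
    rw [smul_add]
    exact hK (hy n) hz (by norm_num) (by norm_num) (by norm_num)
  rw [n2_real_smul, abs_of_pos (by norm_num)] at h4
  have h5 := n2_parallelogram τ (y n) z
  have h6 := h2 N n hn
  have h7 : (4 : ℝ) / (N + 1) = 4 * (1 / (N + 1)) := by ring
  nlinarith

end NB

open NB

/-- The intertwiner for the relative commutant of the `k`-th matrix algebra. -/
theorem exists_intertwiner_rel (h : IsTracialState τ) (c : UChain B) (θ : B ≃⋆ₐ[ℂ] B) (k : ℕ)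
    (hk : ∀ l u, u ∈ Set.range (c.ι l) → u ∈ unitary B → (∀ M, Commute u (c.ι k M)) →
      n2 τ (θ u - u) ≤ 1 / 2) :
    ∃ y : ℕ → B, (∀ n, ‖y n‖ ≤ 1) ∧ (∀ n, 1 / 2 ≤ n2 τ (y n)) ∧
      (∀ ε : ℝ, 0 < ε → ∃ N, ∀ n ≥ N, ∀ m ≥ N, n2 τ (y n - y m) ≤ ε) ∧
        ∀ l x, x ∈ Set.range (c.ι l) → (∀ M, Commute x (c.ι k M)) →
          Tendsto (fun n => n2 τ (θ x * y n - y n * x)) atTop (𝓝 0) := by
  let U : Set B := {u | (∃ l, u ∈ Set.range (c.ι l)) ∧ u ∈ unitary B ∧ ∀ M, Commute u (c.ι k M)}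
  let S : Set B := (fun u => θ u * star u) '' U
  have hθ : ∀ u ∈ U, ‖θ u‖ ≤ 1 ∧ ‖star u‖ ≤ 1 := fun u hu =>
    ⟨by rw [StarAlgEquiv.norm_map]; exact norm_un hu.2.1, by rw [norm_star]; exact norm_un hu.2.1⟩
  have hU1 : (1 : B) ∈ U := ⟨⟨0, 1, map_one _⟩, one_mem _, fun M => Commute.one_left _⟩
  have hUm : ∀ u ∈ U, ∀ v ∈ U, u * v ∈ U := by
    rintro u ⟨⟨l, hl⟩, hu, hu'⟩ v ⟨⟨m, hm⟩, hv, hv'⟩
    obtain ⟨a, rfl⟩ := c.mono_le (le_max_left l m) hl
    obtain ⟨b, rfl⟩ := c.mono_le (le_max_right l m) hm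
    exact ⟨⟨_, a * b, map_mul _ a b⟩, mul_mem hu hv, fun M => (hu' M).mul_left (hv' M)⟩
  have hK1 : convexHull ℝ S ⊆ {z | ‖z‖ ≤ 1 ∧ n2 τ (z - 1) ≤ 1 / 2} := by
    refine convexHull_min ?_ ?_
    · rintro _ ⟨u, hu, rfl⟩
      obtain ⟨l, hl⟩ := hu.1
      refine ⟨(norm_mul_le _ _).trans (mul_le_one₀ (hθ u hu).1 (norm_nonneg _) (hθ u hu).2), ?_⟩
      have e : θ u * star u - 1 = (θ u - u) * star u := by
        rw [sub_mul, Unitary.mul_star_self_of_mem hu.2.1]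
      rw [e]
      exact ((n2_mul_le_right h _ _).trans
        (mul_le_of_le_one_right (n2_nonneg τ _) (hθ u hu).2)).trans (hk l u hl hu.2.1 hu.2.2)
    · rintro z ⟨hz, hz'⟩ w ⟨hw, hw'⟩ a b ha hb hab
      constructor
      · refine (norm_add_le _ _).trans ?_
        rw [norm_smul, norm_smul, Real.norm_of_nonneg ha, Real.norm_of_nonneg hb]
        nlinarith
      · have e : a • z + b • w - 1 = a • (z - 1) + b • (w - 1) := by
          rw [smul_sub, smul_sub, sub_add_sub_comm, ← add_smul, hab, one_smul]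
        rw [e]
        refine (n2_add_le τ _ _).trans ?_
        rw [n2_real_smul, n2_real_smul, abs_of_nonneg ha, abs_of_nonneg hb]
        nlinarith
  have hK2 : ∀ v ∈ U, convexHull ℝ S ⊆ {z | θ v * z * star v ∈ convexHull ℝ S} := fun v hv => by
    refine convexHull_min ?_ ?_
    · rintro _ ⟨u, hu, rfl⟩
      refine subset_convexHull ℝ S ⟨v * u, hUm v hv u hu, ?_⟩
      simp only [map_mul, star_mul, mul_assoc]
    · intro z hz w hw a b ha hb hab
      have := convex_convexHull ℝ S hz hw ha hb hab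
      simpa only [Set.mem_ofPred_eq, mul_add, add_mul, mul_smul_comm, smul_mul_assoc] using this
  obtain ⟨y, hy, hy'⟩ := minimising τ (convex_convexHull ℝ S)
    ⟨_, subset_convexHull ℝ S ⟨1, hU1, rfl⟩⟩
  have hN : ∀ ε : ℝ, 0 < ε → ∃ N : ℕ, ∀ t : ℝ, t ^ 2 ≤ 4 / (N + 1) → t ≤ ε := fun ε hε => by
    obtain ⟨N, hN⟩ := exists_nat_one_div_lt (show 0 < ε ^ 2 / 4 by positivity)
    refine ⟨N, fun t ht => le_of_sq_le_sq ?_ hε.le⟩
    have h7 : (4 : ℝ) / (N + 1) = 4 * (1 / (N + 1)) := by ring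
    linarith
  have hu : ∀ v ∈ U, Tendsto (fun n => n2 τ (θ v * y n - y n * v)) atTop (𝓝 0) := fun v hv => by
    refine tendsto_order.2 ⟨fun a ha => Eventually.of_forall fun n => ha.trans_le (n2_nonneg τ _),
      fun ε hε => ?_⟩
    obtain ⟨N, hN⟩ := hN (ε / 2) (half_pos hε)
    filter_upwards [eventually_ge_atTop N] with n hn
    have h1 := hN _ (hy' N n hn _ (hK2 v hv (hy n))
      (Or.inl (n2_mul3 h (hθ v hv).1 (hθ v hv).2 _)))
    have e : θ v * y n - y n * v = -((y n - θ v * y n * star v) * v) := by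
      rw [sub_mul, mul_assoc _ (star v), Unitary.star_mul_self_of_mem hv.2.1, mul_one, neg_sub]
    rw [e, n2_neg]
    have h2 := (n2_mul_le_right h (y n - θ v * y n * star v) v).trans
      (mul_le_of_le_one_right (n2_nonneg τ _) (norm_un hv.2.1))
    linarith
  refine ⟨y, fun n => (hK1 (hy n)).1, fun n => ?_, fun ε hε => ?_, fun l x hx hx' => ?_⟩
  · have h1 := n2_le_add τ 1 (y n)
    rw [n2_one h, n2_sub_comm] at h1
    linarith [(hK1 (hy n)).2]
  · obtain ⟨N, hN⟩ := hN ε hε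
    exact ⟨N, fun n hn m hm => hN _ (hy' N n hn _ (hy m) (Or.inr ⟨m, hm, rfl⟩))⟩
  · let D : StarSubalgebra ℂ B := (c.ι l).range ⊓ cent (Set.range (c.ι k))
    have : IsClosed (D : Set B) := by
      refine IsClosed.inter ?_ (isClosed_cent _)
      exact (LinearMap.range (c.ι l).toAlgHom.toLinearMap).closed_of_finiteDimensional
    have hxD : x ∈ D := ⟨hx, mem_cent.2 (by
      rintro _ ⟨M, rfl⟩
      exact ⟨hx' M, by rw [← map_star]; exact hx' _⟩)⟩
    obtain ⟨u, a, hxu, -⟩ := CStarAlgebra.exists_sum_four_unitary (⟨x, hxD⟩ : D)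
    have hx2 : x = ∑ i, a i • ((u i : D) : B) := by
      simpa using congrArg Subtype.val hxu
    have huU : ∀ i, ((u i : D) : B) ∈ U := fun i =>
      ⟨⟨l, (u i : D).2.1⟩, ⟨congrArg Subtype.val (u i).2.1, congrArg Subtype.val (u i).2.2⟩,
        fun M => (mem_cent.1 (u i : D).2.2 _ ⟨M, rfl⟩).1⟩
    refine tend_sum Finset.univ (c := fun i => ‖a i‖) (fun n => ?_) fun i => hu _ (huU i)
    simp only [← n2_smul]
    refine le_trans (le_of_eq ?_) (n2_sum_le τ _ _)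
    rw [hx2]
    simp only [map_sum, map_smul, Finset.sum_mul, Finset.mul_sum, smul_mul_assoc, mul_smul_comm,
      smul_sub, Finset.sum_sub_distrib]

theorem exists_intertwiner (h : IsTracialState τ) (c : UChain B) (θ : B ≃⋆ₐ[ℂ] B) (k : ℕ)
    (hk : ∀ l u, u ∈ Set.range (c.ι l) → u ∈ unitary B → (∀ M, Commute u (c.ι k M)) →
      n2 τ (θ u - u) ≤ 1 / 2) :
    ∃ (y : ℕ → B) (C c₀ : ℝ), 0 < c₀ ∧ (∀ n, ‖y n‖ ≤ C) ∧ (∀ n, c₀ ≤ n2 τ (y n)) ∧
      (∀ ε : ℝ, 0 < ε → ∃ N, ∀ n ≥ N, ∀ m ≥ N, n2 τ (y n - y m) ≤ ε) ∧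
        ∀ x, Tendsto (fun n => n2 τ (θ x * y n - y n * x)) atTop (𝓝 0) := by
  obtain ⟨y, hy1, hy2, hy3, hy4⟩ := exists_intertwiner_rel h c θ k hk
  have := nontrivial_of_tr h
  obtain ⟨e, he⟩ : ∃ e : Fin (c.n k) → Fin (c.n k) → B,
    ∀ i j, e i j = c.ι k (Matrix.single i j 1) := ⟨_, fun _ _ => rfl⟩
  have hmu : IsMU e := by
    rw [show e = _ from funext fun i => funext (he i)]
    exact isMU_of_hom _
  have hmu' := hmu.map_aut θ
  obtain ⟨R, hRe⟩ : ∃ R : ℝ, R = (c.n k : ℝ) := ⟨_, rfl⟩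
  have hR : 0 < R := hRe ▸ Nat.cast_pos.2 (c.pos k)
  obtain ⟨L, hL⟩ : ∃ L : Fin (c.n k) → Fin (c.n k) → B → B,
    ∀ a b z, L a b z = ∑ i, θ (e i a) * z * e b i := ⟨_, fun _ _ _ => rfl⟩
  have hL1 : ∀ a b z, n2 τ (L a b z) ≤ R * n2 τ z := fun a b z => by
    rw [hL]
    refine (n2_sum_le τ _ _).trans ((Finset.sum_le_sum fun i _ =>
      n2_mul3 h (hmu'.norm_le i a) (hmu.norm_le b i) z).trans_eq ?_)
    simp [hRe]
  have hL2 : ∀ a b z w, L a b z - L a b w = L a b (z - w) := fun a b z w => by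
    simp only [hL, mul_sub, sub_mul, Finset.sum_sub_distrib]
  have hL3 : ∀ a b n, ‖L a b (y n)‖ ≤ R := fun a b n => by
    rw [hL]
    refine (norm_sum_le _ _).trans ((Finset.sum_le_sum (g := fun _ => (1 : ℝ)) fun i _ =>
      norm_mul₃_le.trans (mul_le_one₀ (mul_le_one₀ (hmu'.norm_le i a) (norm_nonneg _) (hy1 n))
        (norm_nonneg _) (hmu.norm_le b i))).trans_eq ?_)
    simp [hRe]
  have hL4 : ∀ p a b z, θ (e p p) * L a b z = θ (e p a) * z * e b p := fun p a b z => by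
    rw [hL, Finset.mul_sum, Finset.sum_eq_single p _ (by simp)]
    · rw [← mul_assoc, ← mul_assoc, hmu'.mul, if_pos rfl]
    · intro i _ hi
      rw [← mul_assoc, ← mul_assoc, hmu'.mul, if_neg hi.symm, zero_mul, zero_mul]
  have hL5 : ∀ z, n2 τ z ≤ ∑ p : Fin (c.n k) × Fin (c.n k), n2 τ (L p.1 p.2 z) := fun z => by
    have e1 : z = ∑ p : Fin (c.n k) × Fin (c.n k), θ (e p.1 p.1) * L p.1 p.2 z * e p.1 p.2 := by
      simp only [hL4, mul_assoc, hmu.mul, if_true]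
      rw [Fintype.sum_prod_type]
      simp only [← Finset.mul_sum, ← Finset.sum_mul, hmu.sum, hmu'.sum, mul_one, one_mul]
    conv_lhs => rw [e1]
    exact (n2_sum_le τ _ _).trans (Finset.sum_le_sum fun p _ =>
      n2_mul3 h (hmu'.norm_le _ _) (hmu.norm_le _ _) _)
  obtain ⟨N, hN⟩ := hy3 (1 / (4 * R ^ 3)) (by positivity)
  have : Nonempty (Fin (c.n k)) := ⟨⟨0, c.pos k⟩⟩
  obtain ⟨⟨a, b⟩, -, hab⟩ := Finset.exists_le_of_sum_le (s := Finset.univ) Finset.univ_nonempty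
    (f := fun _ : Fin (c.n k) × Fin (c.n k) => 1 / (2 * R ^ 2))
    (g := fun p => n2 τ (L p.1 p.2 (y N))) (by
      refine le_trans (le_of_eq ?_) ((hy2 N).trans (hL5 _))
      simp only [Finset.sum_const, Finset.card_univ, Fintype.card_prod, Fintype.card_fin,
        nsmul_eq_mul, Nat.cast_mul, ← hRe]
      field_simp)
  have hsh := tendsto_add_atTop_nat N
  have key : ∀ l, k ≤ l → ∀ M, Tendsto (fun n => n2 τ (θ (c.ι l M) * L a b (y (n + N)) -
      L a b (y (n + N)) * c.ι l M)) atTop (𝓝 0) := fun l hl M => by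
    obtain ⟨z, hz⟩ : ∃ z : Fin (c.n k) × Fin (c.n k) → B,
      ∀ p, z p = ∑ r, e r p.1 * c.ι l M * e p.2 r := ⟨_, fun _ => rfl⟩
    have hz1 : ∀ p, z p ∈ Set.range (c.ι l) := fun p => by
      have h1 : ∀ i j, e i j ∈ (c.ι l).range := fun i j => c.mono_le hl ⟨_, (he i j).symm⟩
      rw [hz]
      exact sum_mem (S := (c.ι l).range) fun r _ =>
        mul_mem (mul_mem (h1 _ _) ⟨M, rfl⟩) (h1 _ _)
    have hz2 : ∀ p i j, z p * e i j = e i p.1 * c.ι l M * e p.2 j := fun p i j => by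
      rw [hz, Finset.sum_mul, Finset.sum_eq_single i _ (by simp)]
      · rw [mul_assoc, hmu.mul, if_pos rfl]
      · intro r _ hr
        rw [mul_assoc, hmu.mul, if_neg hr, mul_zero]
    have hz3 : ∀ p i j, Commute (z p) (e i j) := fun p i j => by
      rw [Commute, SemiconjBy, hz2, hz, Finset.mul_sum, Finset.sum_eq_single j _ (by simp)]
      · rw [← mul_assoc, ← mul_assoc, hmu.mul, if_pos rfl]
      · intro r _ hr
        rw [← mul_assoc, ← mul_assoc, hmu.mul, if_neg hr.symm, zero_mul, zero_mul]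
    have hz4 : ∀ p M', Commute (z p) (c.ι k M') := fun p M' => by
      rw [hom_eq_sum]
      exact Commute.sum_right _ _ _ fun i _ => Commute.sum_right _ _ _ fun j _ =>
        (he i j ▸ hz3 p i j).smul_right _
    have hz5 : c.ι l M = ∑ p, z p * e p.1 p.2 := by
      simp only [hz2]
      rw [Fintype.sum_prod_type]
      simp only [← Finset.mul_sum, ← Finset.sum_mul, hmu.sum, mul_one, one_mul]
    refine tend_sum Finset.univ (c := fun _ => 1) (fun n => ?_)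
      fun p => (hy4 l (z p) (hz1 p) (hz4 p)).comp hsh
    rw [hz5, map_sum, Finset.sum_mul, Finset.mul_sum, ← Finset.sum_sub_distrib]
    refine (n2_sum_le τ _ _).trans (Finset.sum_le_sum fun p _ => ?_)
    rw [one_mul]
    refine le_trans (le_of_eq (congrArg _ ?_))
      (n2_mul3 h (hmu'.norm_le p.1 a) (hmu.norm_le b p.2) _)
    have e1 : θ (z p * e p.1 p.2) * L a b (y (n + N)) =
        θ (e p.1 a) * (θ (z p) * y (n + N)) * e b p.2 := by
      have h1 : z p * e p.1 p.2 = z p * e p.1 p.2 * e p.2 p.2 := by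
        rw [mul_assoc, hmu.mul, if_pos rfl]
      rw [h1, map_mul, mul_assoc, hL4, ← mul_assoc, ← mul_assoc, ← map_mul, mul_assoc (z p),
        hmu.mul, if_pos rfl, (hz3 p _ _).eq, map_mul, mul_assoc (θ _) (θ _)]
    have e2 : L a b (y (n + N)) * (z p * e p.1 p.2) =
        θ (e p.1 a) * (y (n + N) * z p) * e b p.2 := by
      have h1 : ∀ i, e b i * (z p * e p.1 p.2) = z p * (e b i * e p.1 p.2) := fun i => by
        rw [← mul_assoc, ← (hz3 p b i).eq, mul_assoc]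
      rw [hL, Finset.sum_mul, Finset.sum_eq_single p.1 _ (by simp)]
      · rw [mul_assoc, h1, hmu.mul, if_pos rfl]
        simp only [mul_assoc]
      · intro i _ hi
        rw [mul_assoc, h1, hmu.mul, if_neg hi, mul_zero, mul_zero]
    rw [e1, e2, mul_sub, sub_mul]
  refine ⟨fun n => L a b (y (n + N)), R, 1 / (4 * R ^ 2), by positivity, fun n => hL3 a b _,
    fun n => ?_, fun ε hε => ?_, fun x => ?_⟩
  · have h1 := n2_le_add τ (L a b (y N)) (L a b (y (n + N)))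
    have h2 := (hL1 a b _).trans
      (mul_le_mul_of_nonneg_left (hN N le_rfl (n + N) (Nat.le_add_left N n)) hR.le)
    rw [← hL2] at h2
    have h3 : R * (1 / (4 * R ^ 3)) = 1 / (4 * R ^ 2) := by field_simp
    have h4 : 1 / (2 * R ^ 2) = 2 * (1 / (4 * R ^ 2)) := by field_simp; norm_num
    simp only at hab
    linarith
  · obtain ⟨N', hN'⟩ := hy3 (ε / R) (div_pos hε hR)
    refine ⟨N', fun n hn m hm => ?_⟩
    rw [hL2]
    refine (hL1 a b _).trans ((mul_le_mul_of_nonneg_left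
      (hN' _ (hn.trans (Nat.le_add_right n N)) _ (hm.trans (Nat.le_add_right m N))) hR.le).trans_eq
      (by field_simp))
  · refine tendsto_order.2 ⟨fun a ha => Eventually.of_forall fun n => ha.trans_le (n2_nonneg τ _),
      fun ε hε => ?_⟩
    obtain ⟨l, hl, hx⟩ := c.exists_near {x} (show 0 < ε / (4 * R) by positivity) k
    obtain ⟨M, hM⟩ := hx x (Finset.mem_singleton_self x)
    filter_upwards [(tendsto_order.1 (key l hl M)).2 _ (half_pos hε)] with n hn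
    set w := L a b (y (n + N))
    have hw : ‖w‖ ≤ R := hL3 a b _
    have h1 := n2_le_add τ (θ x * w - w * x) (θ (c.ι l M) * w - w * c.ι l M)
    have e1 : θ x * w - w * x - (θ (c.ι l M) * w - w * c.ι l M) =
        θ (x - c.ι l M) * w - w * (x - c.ι l M) := by
      rw [map_sub]; noncomm_ring
    have h2 : ‖θ (x - c.ι l M) * w‖ ≤ ε / (4 * R) * R := (norm_mul_le _ _).trans
      (mul_le_mul (by rwa [StarAlgEquiv.norm_map]) hw (norm_nonneg _) (by positivity))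
    have h3 : ‖w * (x - c.ι l M)‖ ≤ R * (ε / (4 * R)) := (norm_mul_le _ _).trans
      (mul_le_mul hw hM (norm_nonneg _) hR.le)
    have h4 := (n2_le_norm h _).trans (norm_sub_le (θ (x - c.ι l M) * w) (w * (x - c.ι l M)))
    have h5 : ε / (4 * R) * R = ε / 4 := by field_simp
    rw [e1] at h1
    rw [mul_comm R] at h3
    linarith

end Pool.Agent.Izumi
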