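import Pool.Agent.Lib.MP_b2135d_an.NA
import Pool.Agent.Lib.MP_b2135d_an.NB

/-! Non-inner on the weak closure implies free (PLAN section 4). -/

namespace Pool.Agent.Izumi

open scoped ComplexOrder Matrix
open Filter Topology

variable {B : Type} [CStarAlgebra B] [PartialOrder B] [StarOrderedRing B] {τ : B →ₚ[ℂ] ℂ}

/-- The canonical map into the GNS space. -/
noncomputable def ncVec (τ : B →ₚ[ℂ] ℂ) (b : B) : τ.GNS := (τ.toPreGNS b : τ.PreGNS)

theorem ncVec_act (a b : B) : τ.gnsStarAlgHom a (ncVec τ b) = ncVec τ (a * b) := by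
  change τ.gnsNonUnitalStarAlgHom a _ = _
  unfold ncVec
  rw [PositiveLinearMap.gnsNonUnitalStarAlgHom_apply_coe]
  rfl

theorem ncVec_norm (b : B) : ‖ncVec τ b‖ = n2 τ b := by
  unfold ncVec
  rw [UniformSpace.Completion.norm_coe]
  rfl

theorem ncVec_inner (a b : B) : inner ℂ (ncVec τ a) (ncVec τ b) = τ (star a * b) := by
  unfold ncVec
  rw [UniformSpace.Completion.inner_coe]
  rfl

theorem ncVec_sub (a b : B) : ncVec τ (a - b) = ncVec τ a - ncVec τ b := by
  unfold ncVec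
  rw [map_sub, UniformSpace.Completion.coe_sub]

theorem ncVec_dense : DenseRange (ncVec τ) := by
  have h1 : DenseRange (fun x : τ.PreGNS => (x : τ.GNS)) := UniformSpace.Completion.denseRange_coe
  refine h1.mono ?_
  rintro _ ⟨x, rfl⟩
  exact ⟨τ.ofPreGNS x, rfl⟩

theorem nc_norm_le (a : B) : ‖τ.gnsStarAlgHom a‖ ≤ ‖a‖ :=
  NonUnitalStarAlgHom.norm_apply_le τ.gnsStarAlgHom a

theorem nc_ext {S T : τ.GNS →L[ℂ] τ.GNS} (h : ∀ b, S (ncVec τ b) = T (ncVec τ b)) : S = T := by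
  ext ξ
  exact congrFun (ncVec_dense.equalizer S.continuous T.continuous (funext h)) ξ

theorem nc_strong_limit (h : IsTracialState τ) (y : ℕ → B) {C : ℝ} (hC : ∀ n, ‖y n‖ ≤ C)
    (hcau : ∀ ε : ℝ, 0 < ε → ∃ N, ∀ n ≥ N, ∀ m ≥ N, n2 τ (y n - y m) ≤ ε) :
    ∃ L : τ.GNS →L[ℂ] τ.GNS,
      ∀ ξ, Tendsto (fun n => τ.gnsStarAlgHom (y n) ξ) atTop (𝓝 (L ξ)) := by
  have hC0 : 0 ≤ C := (norm_nonneg _).trans (hC 0)
  have hcs : ∀ ξ : τ.GNS, CauchySeq (fun n => τ.gnsStarAlgHom (y n) ξ) := by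
    intro ξ
    rw [Metric.cauchySeq_iff]
    intro ε hε
    obtain ⟨b, hb⟩ := ncVec_dense.exists_dist_lt ξ (ε := ε / (4 * (C + 1))) (by positivity)
    obtain ⟨N, hN⟩ := hcau (ε / (4 * (‖b‖ + 1))) (by positivity)
    refine ⟨N, fun n hn m hm => ?_⟩
    rw [dist_eq_norm] at hb ⊢
    have e1 : τ.gnsStarAlgHom (y n) ξ - τ.gnsStarAlgHom (y m) ξ =
        τ.gnsStarAlgHom (y n - y m) (ξ - ncVec τ b) + ncVec τ ((y n - y m) * b) := by
      rw [← ncVec_act, ← map_add, sub_add_cancel, map_sub]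
      rfl
    have e2 : ‖τ.gnsStarAlgHom (y n - y m) (ξ - ncVec τ b)‖ ≤ (2 * C) * (ε / (4 * (C + 1))) := by
      refine (ContinuousLinearMap.le_opNorm _ _).trans ?_
      refine mul_le_mul ((nc_norm_le _).trans ?_) hb.le (norm_nonneg _) (by positivity)
      have := norm_sub_le (y n) (y m)
      linarith [hC n, hC m]
    have e3 : ‖ncVec τ ((y n - y m) * b)‖ ≤ (ε / (4 * (‖b‖ + 1))) * ‖b‖ := by
      rw [ncVec_norm]
      exact (n2_mul_le_right h _ _).trans
        (mul_le_mul_of_nonneg_right (hN n hn m hm) (norm_nonneg _))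
    have e4 : (2 * C) * (ε / (4 * (C + 1))) ≤ ε / 2 := by
      rw [← mul_div_assoc, div_le_div_iff₀ (by positivity) (by positivity)]
      nlinarith
    have e5 : (ε / (4 * (‖b‖ + 1))) * ‖b‖ ≤ ε / 4 := by
      rw [div_mul_eq_mul_div, div_le_div_iff₀ (by positivity) (by positivity)]
      nlinarith [norm_nonneg b]
    rw [e1]
    have := norm_add_le (τ.gnsStarAlgHom (y n - y m) (ξ - ncVec τ b)) (ncVec τ ((y n - y m) * b))
    linarith
  choose f hf using fun ξ => cauchySeq_tendsto_of_complete (hcs ξ)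
  exact ⟨continuousLinearMapOfTendsto (l := atTop) (fun n => τ.gnsStarAlgHom (y n))
    (tendsto_pi_nhds.2 hf), hf⟩

theorem nc_scalar (h : IsTracialState τ) (hB : IsUHF B) (y : ℕ → B) (L : τ.GNS →L[ℂ] τ.GNS)
    (hL : ∀ ξ, Tendsto (fun n => τ.gnsStarAlgHom (y n) ξ) atTop (𝓝 (L ξ)))
    (hcomm : ∀ x, star L * L * τ.gnsStarAlgHom x = τ.gnsStarAlgHom x * (star L * L)) :
    star L * L = ((‖L (ncVec τ 1)‖ : ℂ) ^ 2) • (1 : τ.GNS →L[ℂ] τ.GNS) := by
  set S := star L * L with hS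
  have hπ : Continuous (τ.gnsStarAlgHom : B → (τ.GNS →L[ℂ] τ.GNS)) :=
    hom_continuous τ.gnsStarAlgHom
  have hin : ∀ ξ η, inner ℂ ξ (S η) = inner ℂ (L ξ) (L η) := by
    intro ξ η
    rw [hS, mul_apply_eq_comp, ContinuousLinearMap.star_eq_adjoint,
      ContinuousLinearMap.adjoint_inner_right]
  have hlim : ∀ a b : B, Tendsto (fun n => τ (star (y n * a) * (y n * b))) atTop
      (𝓝 (inner ℂ (ncVec τ a) (S (ncVec τ b)))) := by
    intro a b
    rw [hin]
    refine ((hL (ncVec τ a)).inner (𝕜 := ℂ) (hL (ncVec τ b))).congr fun n => ?_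
    rw [ncVec_act, ncVec_act, ncVec_inner]
  have hmove : ∀ a b : B, inner ℂ (ncVec τ a) (S (ncVec τ b)) =
      inner ℂ (ncVec τ 1) (S (ncVec τ (star a * b))) := by
    intro a b
    have e1 : S (ncVec τ (star a * b)) = τ.gnsStarAlgHom (star a) (S (ncVec τ b)) := by
      rw [← ncVec_act, ← mul_apply_eq_comp, hcomm, mul_apply_eq_comp]
    rw [e1, map_star, ContinuousLinearMap.star_eq_adjoint,
      ContinuousLinearMap.adjoint_inner_right, ncVec_act, mul_one]
  let f : B →L[ℂ] ℂ :=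
    { toFun := fun z => inner ℂ (ncVec τ 1) (S (τ.gnsStarAlgHom z (ncVec τ 1)))
      map_add' := fun z w => by
        rw [map_add, add_apply, map_add, inner_add_right]
      map_smul' := fun c z => by
        rw [map_smul, smul_apply, map_smul, inner_smul_right]
        rfl
      cont := by
        refine continuous_const.inner (S.continuous.comp ?_)
        exact hπ.clm_apply continuous_const }
  have hf : ∀ z, f z = inner ℂ (ncVec τ 1) (S (ncVec τ z)) := by
    intro z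
    change inner ℂ (ncVec τ 1) (S (τ.gnsStarAlgHom z (ncVec τ 1))) = _
    rw [ncVec_act, mul_one]
  have htr : ∀ z w, f (z * w) = f (w * z) := by
    intro z w
    have e1 := hlim 1 (z * w)
    have e2 := hlim (star w) z
    rw [hmove, star_star] at e2
    rw [hf, hf]
    refine tendsto_nhds_unique e1 (e2.congr fun n => ?_)
    rw [star_mul, star_star, mul_one, mul_assoc w, h.2 w]
    simp only [mul_assoc]
  have h1 : f 1 = (‖L (ncVec τ 1)‖ : ℂ) ^ 2 := by
    rw [hf, hin, inner_self_eq_norm_sq_to_K]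
    rfl
  refine nc_ext fun b => ?_
  refine ext_inner_left ℂ fun ξ => ?_
  have key : ∀ a, inner ℂ (ncVec τ a) (S (ncVec τ b)) =
      inner ℂ (ncVec τ a) ((((‖L (ncVec τ 1)‖ : ℂ) ^ 2) • (1 : τ.GNS →L[ℂ] τ.GNS)) (ncVec τ b)) := by
    intro a
    rw [hmove, ← hf, hB.trace_unique f htr h, h1, smul_apply,
      one_apply_eq_self, inner_smul_right, ncVec_inner]
  exact congrFun (ncVec_dense.equalizer (continuous_id.inner continuous_const)
    (continuous_id.inner continuous_const) (funext key)) ξ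

theorem inner_of_intertwiner (h : IsTracialState τ) (hB : IsUHF B) (θ : B ≃⋆ₐ[ℂ] B) (y : ℕ → B)
    {C c₀ : ℝ} (hc : 0 < c₀) (hC : ∀ n, ‖y n‖ ≤ C) (h0 : ∀ n, c₀ ≤ n2 τ (y n))
    (hcau : ∀ ε : ℝ, 0 < ε → ∃ N, ∀ n ≥ N, ∀ m ≥ N, n2 τ (y n - y m) ≤ ε)
    (hint : ∀ x, Tendsto (fun n => n2 τ (θ x * y n - y n * x)) atTop (𝓝 0)) :
    InnerOnWeakClosure τ θ := by
  obtain ⟨L, hL⟩ := nc_strong_limit h y hC hcau
  obtain ⟨L', hL'⟩ := nc_strong_limit h (fun n => star (y n)) (C := C)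
    (fun n => by rw [norm_star]; exact hC n) (fun ε hε => by
      obtain ⟨N, hN⟩ := hcau ε hε
      refine ⟨N, fun n hn m hm => ?_⟩
      rw [← star_sub, n2_star h]
      exact hN n hn m hm)
  have hadj : L' = star L := by
    rw [ContinuousLinearMap.star_eq_adjoint, ContinuousLinearMap.eq_adjoint_iff]
    intro ξ η
    refine tendsto_nhds_unique ((hL' ξ).inner (𝕜 := ℂ) (tendsto_const_nhds (x := η))) ?_
    refine ((tendsto_const_nhds (x := ξ)).inner (𝕜 := ℂ) (hL η)).congr fun n => ?_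
    rw [map_star, ContinuousLinearMap.star_eq_adjoint, ContinuousLinearMap.adjoint_inner_left]
  subst hadj
  have hI : ∀ x, τ.gnsStarAlgHom (θ x) * L = L * τ.gnsStarAlgHom x := by
    intro x
    refine nc_ext fun b => ?_
    rw [mul_apply_eq_comp, mul_apply_eq_comp]
    have e1 := ((τ.gnsStarAlgHom (θ x)).continuous.tendsto _).comp (hL (ncVec τ b))
    have e2 := hL (τ.gnsStarAlgHom x (ncVec τ b))
    have e3 := e1.sub e2
    rw [← sub_eq_zero]
    refine tendsto_nhds_unique e3 ?_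
    rw [tendsto_zero_iff_norm_tendsto_zero]
    have e4 := (hint x).mul_const ‖b‖
    rw [zero_mul] at e4
    refine squeeze_zero (fun n => norm_nonneg _) (fun n => ?_) e4
    simp only [Function.comp_apply]
    rw [ncVec_act, ncVec_act, ncVec_act, ncVec_act, ← ncVec_sub, ncVec_norm, ← mul_assoc,
      ← mul_assoc, ← sub_mul]
    exact n2_mul_le_right h _ _
  have hI' : ∀ x, star L * τ.gnsStarAlgHom (θ x) = τ.gnsStarAlgHom x * star L := by
    intro x
    have := congrArg star (hI (star x))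
    rw [star_mul, star_mul, ← map_star, ← map_star, ← map_star, star_star] at this
    exact this
  have hS1 := nc_scalar h hB y L hL (fun x => by
    rw [mul_assoc, ← hI, ← mul_assoc, hI', mul_assoc])
  have hS2 := nc_scalar h hB (fun n => star (y n)) (star L) hL' (fun x => by
    obtain ⟨x, rfl⟩ : ∃ w, θ w = x := ⟨θ.symm x, θ.apply_symm_apply x⟩
    rw [star_star, mul_assoc, hI', ← mul_assoc, ← hI, mul_assoc])
  have hn1 : Tendsto (fun n => n2 τ (y n)) atTop (𝓝 ‖L (ncVec τ 1)‖) := by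
    refine (hL (ncVec τ 1)).norm.congr fun n => ?_
    rw [ncVec_act, mul_one, ncVec_norm]
  have hn2 : Tendsto (fun n => n2 τ (y n)) atTop (𝓝 ‖(star L) (ncVec τ 1)‖) := by
    refine (hL' (ncVec τ 1)).norm.congr fun n => ?_
    rw [ncVec_act, mul_one, ncVec_norm, n2_star h]
  rw [star_star, tendsto_nhds_unique hn2 hn1] at hS2
  have hr : c₀ ≤ ‖L (ncVec τ 1)‖ := ge_of_tendsto' hn1 h0
  set r := ‖L (ncVec τ 1)‖ with hrdef
  have hr0 : (r : ℂ) ≠ 0 := by
    have : r ≠ 0 := (hc.trans_le hr).ne'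
    exact_mod_cast this
  have hst : star ((r : ℂ)⁻¹ • L) = (r : ℂ)⁻¹ • star L := by
    rw [star_smul, star_inv₀, Complex.star_def, Complex.conj_ofReal]
  have hu1 : star ((r : ℂ)⁻¹ • L) * ((r : ℂ)⁻¹ • L) = 1 := by
    rw [hst, smul_mul_smul_comm, hS1, smul_smul]
    have : (r : ℂ)⁻¹ * (r : ℂ)⁻¹ * (r : ℂ) ^ 2 = 1 := by field_simp
    rw [this, one_smul]
  have hu2 : ((r : ℂ)⁻¹ • L) * star ((r : ℂ)⁻¹ • L) = 1 := by
    rw [hst, smul_mul_smul_comm, hS2, smul_smul]
    have : (r : ℂ)⁻¹ * (r : ℂ)⁻¹ * (r : ℂ) ^ 2 = 1 := by field_simp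
    rw [this, one_smul]
  refine ⟨(r : ℂ)⁻¹ • L, ⟨hu1, hu2⟩, ?_, fun x => ?_⟩
  · intro T hT
    have hTL : T * L = L * T := by
      ext ξ
      rw [mul_apply_eq_comp, mul_apply_eq_comp]
      refine tendsto_nhds_unique ((T.continuous.tendsto _).comp (hL ξ)) ?_
      refine (hL (T ξ)).congr fun n => ?_
      have := hT _ ⟨y n, rfl⟩
      simp only [Function.comp_apply]
      rw [← mul_apply_eq_comp, this, mul_apply_eq_comp]
    rw [mul_smul_comm, smul_mul_assoc, hTL]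
  · rw [smul_mul_assoc, ← hI, ← mul_smul_comm, mul_assoc, hu2, mul_one]

theorem connes (h : IsTracialState τ) (hB : IsUHF B) (θ : B ≃⋆ₐ[ℂ] B)
    (hn : ¬ InnerOnWeakClosure τ θ) : Free τ θ := by
  by_contra hf
  obtain ⟨c⟩ := hB.2
  obtain ⟨k, hk⟩ := not_free_bound h c θ (hB.tr_aut h θ) hf
  obtain ⟨y, C, c₀, hc, hC, h0, hcau, hint⟩ := exists_intertwiner h c θ k hk
  exact hn (inner_of_intertwiner h hB θ y hc hC h0 hcau hint)

end Pool.Agent.Izumi
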