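import Pool.Agent.Lib.MP_b2135d_an.OB
import Pool.Agent.Lib.MP_b2135d_an.NC
import Pool.Agent.Lib.MP_b2135d_an.MA2
import Pool.Agent.Lib.MP_b2135d_an.MD

/-! The main theorem (PLAN section 12). -/

namespace Pool.Agent.Izumi

open scoped ComplexOrder

theorem main (G D : Type) [Group G] [Countable G] [CStarAlgebra D] [PartialOrder D]
    [StarOrderedRing D] (hD : IsUniversalUHF D) (hG : ElemAmenable G)
    (htf : ∀ g : G, IsOfFinOrder g → g = 1) (α β : G →* (D ≃⋆ₐ[ℂ] D)) (hα : StronglyOuter α)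
    (hβ : StronglyOuter β) : CocycleConjugate α β := by
  obtain ⟨τ, hτ⟩ := hD.isUHF.exists_trace
  have fα : ∀ g, g ≠ 1 → Free τ (α g) := fun g hg =>
    connes hτ hD.isUHF _ (hα g hg τ hτ (hD.isUHF.tr_aut hτ _))
  have fβ : ∀ g, g ≠ 1 → Free τ (β g) := fun g hg =>
    connes hτ hD.isUHF _ (hβ g hg τ hτ (hD.isUHF.tr_aut hτ _))
  obtain ⟨A, _, _, _, X, q, hq, hF⟩ := exists_UP hD α τ hτ fα hG.foel
  obtain ⟨φ, hφF, hφ⟩ := (X.good_top hG htf).2.1 D hD.isUHF (β.comp (⊤ : Subgroup G).subtype)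
  have : Nontrivial A := nontrivial_of_tr X.tr
  obtain ⟨B, _, δ, ι₁, ι₂, hB, e₁, e₂, hc, hd⟩ := exists_prod hD hD X.γ α β
    (q.comp (Bdd.const D)) φ (fun g x => (hq.act g (Bdd.const D x)).symm)
    (fun g x => hφ ⟨g, trivial⟩ x) (fun x y => ((hF _).1 (hφF y) x).symm)
  let _ : PartialOrder B := CStarAlgebra.spectralOrder B
  have : StarOrderedRing B := CStarAlgebra.spectralOrderedRing B
  obtain ⟨τB, hτB⟩ := hB.isUHF.exists_trace
  have fδ : ∀ g, g ≠ 1 → Free τB (δ g) := fun g hg =>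
    free_prod hD.isUHF hτ hτB ι₁ ι₂ hc hd (e₁ g) (fα g hg)
  have h₁ := half hG htf hD hD.isUHF hB α β δ hτ hτB fα fδ ι₁ ι₂ e₁ e₂ hc hd
  have hd' : Dense (Submodule.span ℂ {z : B | ∃ x y, z = ι₂ x * ι₁ y} : Set B) := by
    have : {z : B | ∃ x y, z = ι₂ x * ι₁ y} = {z : B | ∃ x y, z = ι₁ x * ι₂ y} := by
      ext z
      exact ⟨fun ⟨x, y, h⟩ => ⟨y, x, h.trans (hc y x).eq.symm⟩,
        fun ⟨x, y, h⟩ => ⟨y, x, h.trans (hc x y).eq⟩⟩
    rwa [this]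
  have h₂ := half hG htf hD hD.isUHF hB β α δ hτ hτB fβ fδ ι₂ ι₁ e₂ e₁
    (fun x y => (hc y x).symm) hd'
  exact h₁.symm.trans h₂

end Pool.Agent.Izumi
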