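import Pool.Agent.Lib.MP_b2135d_an.CA
import Pool.Agent.Lib.MP_b2135d_an.MA

/-! Layer cake estimate (PLAN section 4). -/

namespace Pool.Agent.Izumi

open scoped ComplexOrder Matrix
open Filter Topology

variable {B : Type} [CStarAlgebra B] [PartialOrder B] [StarOrderedRing B] {τ : B →ₚ[ℂ] ℂ}

theorem na_steps (s : Finset ℝ) (hs : ∀ t ∈ s, -1 ≤ t) :
    ∃ c : ℝ → ℝ, (∀ t ∈ s, 0 ≤ c t) ∧
      (∀ r ∈ s, r = -1 + ∑ t ∈ s, c t * (if t ≤ r then 1 else 0)) ∧
        ∀ b, -1 ≤ b → (∀ t ∈ s, t ≤ b) → ∑ t ∈ s, c t ≤ b + 1 := by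
  induction s using Finset.induction_on_max with
  | empty => exact ⟨0, by simp, by simp, fun b hb _ => by simpa using neg_le_iff_add_nonneg.1 hb⟩
  | insert a s ha ih =>
    obtain ⟨c, h0, h1, h2⟩ := ih fun t ht => hs t (Finset.mem_insert_of_mem ht)
    have hn : a ∉ s := fun h => lt_irrefl a (ha a h)
    have h3 := h2 a (hs a (Finset.mem_insert_self a s)) fun t ht => (ha t ht).le
    have h4 : ∀ t ∈ s, Function.update c a (a + 1 - ∑ t ∈ s, c t) t = c t := fun t ht =>
      Function.update_of_ne (ha t ht).ne _ _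
    refine ⟨Function.update c a (a + 1 - ∑ t ∈ s, c t), fun t ht => ?_, fun r hr => ?_,
      fun b _ hb => ?_⟩
    · rcases Finset.mem_insert.1 ht with rfl | ht
      · rw [Function.update_self]
        linarith
      · rw [h4 t ht]
        exact h0 t ht
    · have h5 : ∑ t ∈ s, Function.update c a (a + 1 - ∑ t ∈ s, c t) t * (if t ≤ r then 1 else 0) =
          ∑ t ∈ s, c t * (if t ≤ r then 1 else 0) :=
        Finset.sum_congr rfl fun t ht => by rw [h4 t ht]
      rw [Finset.sum_insert hn, Function.update_self, h5]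
      rcases Finset.mem_insert.1 hr with rfl | hr
      · have h6 : ∑ t ∈ s, c t * (if t ≤ r then 1 else 0) = ∑ t ∈ s, c t :=
          Finset.sum_congr rfl fun t ht => by rw [if_pos (ha t ht).le, mul_one]
        rw [if_pos le_rfl, h6]
        ring
      · rw [if_neg (ha r hr).not_ge, mul_zero, zero_add]
        exact h1 r hr
    · rw [Finset.sum_insert hn, Function.update_self, Finset.sum_congr rfl h4]
      linarith [hb a (Finset.mem_insert_self a s)]

omit [PartialOrder B] [StarOrderedRing B] in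
theorem layer_cake {x : B} (hx : IsSelfAdjoint x) (h1 : ‖x‖ ≤ 1) (hf : (spectrum ℝ x).Finite) :
    ∃ (s : Finset ℝ) (c : ℝ → ℝ) (P : ℝ → B), (∀ t ∈ s, 0 ≤ c t ∧ IsStarProjection (P t) ∧
      ∀ y, Commute x y → Commute (P t) y) ∧ ∑ t ∈ s, c t ≤ 2 ∧ x = -1 + ∑ t ∈ s, c t • P t := by
  rcases subsingleton_or_nontrivial B with _ | _
  · exact ⟨∅, 0, 0, by simp, by simp, Subsingleton.elim _ _⟩
  have hb : ∀ t ∈ hf.toFinset, -1 ≤ t ∧ t ≤ 1 := fun t ht =>
    abs_le.1 ((spectrum.norm_le_norm_of_mem (hf.mem_toFinset.1 ht)).trans h1)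
  obtain ⟨c, h0, h2, h3⟩ := na_steps hf.toFinset fun t ht => (hb t ht).1
  refine ⟨hf.toFinset, c, fun t => cfc (fun r : ℝ => if t ≤ r then (1 : ℝ) else 0) x,
    fun t ht => ⟨h0 t ht, ⟨?_, IsSelfAdjoint.cfc⟩, fun y hy => hy.cfc_real _⟩, ?_, ?_⟩
  · rw [IsIdempotentElem, ← cfc_mul _ _ x (hf.continuousOn _) (hf.continuousOn _)]
    refine cfc_congr fun r _ => ?_
    by_cases h : t ≤ r <;> simp [h]
  · linarith [h3 1 (by norm_num) fun t ht => (hb t ht).2]
  · rw [Finset.sum_congr rfl fun t _ => (cfc_const_mul (c t) _ x (hf.continuousOn _)).symm,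
      ← cfc_sum _ x _ fun t _ => hf.continuousOn _,
      show (-1 : B) = algebraMap ℝ B (-1) by simp, ← cfc_const_add _ _ x (hf.continuousOn _) hx]
    conv_lhs => rw [← cfc_id' ℝ x hx]
    refine cfc_congr fun r hr => ?_
    rw [Finset.sum_apply]
    exact h2 r (hf.mem_toFinset.2 hr)

theorem na_proj (h : IsTracialState τ) (θ : B ≃⋆ₐ[ℂ] B) (hθ : ∀ x, τ (θ x) = τ x) {p : B}
    (hp : IsStarProjection p) (h1 : (τ p).re < (τ (p * θ p)).re + 1 / 128) :
    n2 τ (θ p - p) ≤ 1 / 8 := by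
  have h2 : star (θ p) = θ p := by rw [← map_star, hp.isSelfAdjoint.star_eq]
  have h3 : θ p * θ p = θ p := by rw [← map_mul, hp.isIdempotentElem.eq]
  have h4 := n2_sq τ (θ p - p)
  rw [star_sub, h2, hp.isSelfAdjoint.star_eq, sub_mul, mul_sub, mul_sub, h3,
    hp.isIdempotentElem.eq, map_sub, map_sub, map_sub, hθ, h.2 (θ p) p] at h4
  simp only [Complex.sub_re] at h4
  refine (pow_le_pow_iff_left₀ (n2_nonneg τ _) (by norm_num) two_ne_zero).1 ?_
  linarith

theorem not_free_bound (h : IsTracialState τ) (c : UChain B) (θ : B ≃⋆ₐ[ℂ] B)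
    (hθ : ∀ x, τ (θ x) = τ x) (hf : ¬ Free τ θ) :
    ∃ k, ∀ l u, u ∈ Set.range (c.ι l) → u ∈ unitary B → (∀ M, Commute u (c.ι k M)) →
      n2 τ (θ u - u) ≤ 1 / 2 := by
  unfold Free at hf
  push Not at hf
  obtain ⟨s, ε, hε, hs⟩ := hf (1 / 128) (by norm_num)
  obtain ⟨k, -, hk⟩ := c.exists_near s (half_pos hε) 0
  have hP : ∀ p : B, IsStarProjection p → (∀ M, Commute p (c.ι k M)) →
      n2 τ (θ p - p) ≤ 1 / 8 := fun p hp hc => na_proj h θ hθ hp (hs p hp fun b hb => by
    obtain ⟨M, hM⟩ := hk b hb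
    have h1 : p * b - b * p = p * (b - c.ι k M) - (b - c.ι k M) * p := by
      rw [mul_sub, sub_mul, (hc M).eq]
      abel
    have h2 := hp.norm_le
    have h3 := norm_mul_le p (b - c.ι k M)
    have h4 := norm_mul_le (b - c.ι k M) p
    have h5 := mul_le_mul_of_nonneg_right h2 (norm_nonneg (b - c.ι k M))
    rw [h1]
    refine (norm_sub_le _ _).trans ?_
    linarith)
  have hS : ∀ l (N : Matrix (Fin (c.n l)) (Fin (c.n l)) ℂ), IsSelfAdjoint (c.ι l N) →
      ‖c.ι l N‖ ≤ 1 → (∀ M, Commute (c.ι l N) (c.ι k M)) →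
      n2 τ (θ (c.ι l N) - c.ι l N) ≤ 1 / 4 := fun l N hx h1 hc => by
    have hfin : (spectrum ℝ (c.ι l N)).Finite := by
      rw [← spectrum.preimage_algebraMap ℂ]
      exact (N.finite_spectrum.subset (AlgHom.spectrum_apply_subset (c.ι l) N)).preimage
        (FaithfulSMul.algebraMap_injective ℝ ℂ).injOn
    obtain ⟨t, a, P, h2, h3, h4⟩ := layer_cake hx h1 hfin
    have h5 : θ (c.ι l N) - c.ι l N = ∑ i ∈ t, a i • (θ (P i) - P i) := by
      rw [h4, map_add, map_neg, map_one, map_sum, add_sub_add_left_eq_sub,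
        ← Finset.sum_sub_distrib]
      refine Finset.sum_congr rfl fun i _ => ?_
      rw [smul_sub, ← Complex.coe_smul, map_smul, Complex.coe_smul]
    rw [h5]
    refine (n2_sum_le τ _ _).trans ((Finset.sum_le_sum (g := fun i => a i * (1 / 8))
      fun i hi => ?_).trans ?_)
    · rw [n2_real_smul, abs_of_nonneg (h2 i hi).1]
      exact mul_le_mul_of_nonneg_left
        (hP _ (h2 i hi).2.1 fun M => (h2 i hi).2.2 _ (hc M)) (h2 i hi).1
    · rw [← Finset.sum_mul]
      linarith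
  refine ⟨k, ?_⟩
  rintro l _ ⟨N, rfl⟩ hu hc
  have := nontrivial_of_tr h
  have hn : ‖c.ι l N‖ = 1 := CStarRing.norm_of_mem_unitary hu
  have hc' : ∀ M, Commute (star (c.ι l N)) (c.ι k M) := fun M => by
    have := (hc (star M)).star_star
    rwa [← map_star (c.ι k), star_star] at this
  have e1 : c.ι l ((2⁻¹ : ℂ) • (N + star N)) = (2⁻¹ : ℂ) • (c.ι l N + star (c.ι l N)) := by
    rw [map_smul, map_add, map_star]
  have e2 : c.ι l ((2⁻¹ * Complex.I : ℂ) • (star N - N)) =
      (2⁻¹ * Complex.I : ℂ) • (star (c.ι l N) - c.ι l N) := by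
    rw [map_smul, map_sub, map_star]
  have h1 := hS l ((2⁻¹ : ℂ) • (N + star N)) (by
    rw [e1, IsSelfAdjoint, star_smul, star_add, star_star, add_comm]
    simp) (by
    have := norm_add_le (c.ι l N) (star (c.ι l N))
    rw [norm_star, hn] at this
    rw [e1, norm_smul, norm_inv, Complex.norm_ofNat]
    linarith) fun M => by
    rw [e1]
    exact ((hc M).add_left (hc' M)).smul_left _
  have h2 := hS l ((2⁻¹ * Complex.I : ℂ) • (star N - N)) (by
    rw [e2, IsSelfAdjoint, star_smul, star_sub, star_star, ← neg_sub, smul_neg, ← neg_smul]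
    simp) (by
    have := norm_sub_le (star (c.ι l N)) (c.ι l N)
    rw [norm_star, hn] at this
    rw [e2, norm_smul, norm_mul, norm_inv, Complex.norm_ofNat, Complex.norm_I]
    linarith) fun M => by
    rw [e2]
    exact ((hc' M).sub_left (hc M)).smul_left _
  have e3 : N = (2⁻¹ : ℂ) • (N + star N) + Complex.I • (2⁻¹ * Complex.I : ℂ) • (star N - N) := by
    rw [smul_smul, show Complex.I * (2⁻¹ * Complex.I) = -2⁻¹ by
      linear_combination (2⁻¹ : ℂ) * Complex.I_mul_I]
    module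
  have e4 : ∀ a b : B, θ (a + Complex.I • b) - (a + Complex.I • b) =
      (θ a - a) + Complex.I • (θ b - b) := fun a b => by
    rw [map_add, map_smul, smul_sub]
    abel
  have e5 := congrArg (c.ι l) e3
  rw [map_add, map_smul (c.ι l) Complex.I] at e5
  rw [e5, e4]
  refine (n2_add_le τ _ _).trans ?_
  rw [n2_smul, Complex.norm_I]
  linarith

end Pool.Agent.Izumi
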