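import Pool.Agent.Lib.MP_b2135d_an.Core

/-! One-sided intertwining (PLAN section 12). -/

namespace Pool.Agent.Izumi

open Filter Topology

variable {G A B C : Type} [Group G] [CStarAlgebra A] [CStarAlgebra B] [CStarAlgebra C]
  {α : G →* (A ≃⋆ₐ[ℂ] A)} {β : G →* (B ≃⋆ₐ[ℂ] B)} {δ : G →* (C ≃⋆ₐ[ℂ] C)}

theorem oa_map_unitary (θ : A ≃⋆ₐ[ℂ] B) {u : A} (hu : u ∈ unitary A) : θ u ∈ unitary B := by
  rw [Unitary.mem_iff] at hu ⊢
  constructor
  · rw [← map_star, ← map_mul, hu.1, map_one]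
  · rw [← map_star, ← map_mul, hu.2, map_one]

theorem CocycleConjugate.symm (h : CocycleConjugate α β) : CocycleConjugate β α := by
  obtain ⟨θ, u, hu, hc, he⟩ := h
  have h1 : ∀ g, star (u g) * u g = 1 := fun g => (Unitary.mem_iff.1 (hu g)).1
  have hb : ∀ g y, β g (θ.symm y) = θ.symm (u g * α g y * star (u g)) := fun g y => by
    rw [← he, StarAlgEquiv.symm_apply_apply]
  refine ⟨θ.symm, fun g => θ.symm (star (u g)), fun g => oa_map_unitary _ (Unitary.star_mem (hu g)),
    fun g k => ?_, fun g y => ?_⟩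
  · beta_reduce
    rw [hb, ← map_mul, hc, star_mul, ← mul_assoc, ← mul_assoc, h1, one_mul, map_star (α g)]
  · have e : β g y = θ.symm (u g * α g (θ y) * star (u g)) := by
      rw [← hb, StarAlgEquiv.symm_apply_apply]
    beta_reduce
    rw [StarAlgEquiv.symm_symm, e, ← map_star, star_star, ← map_mul, ← map_mul]
    congr 1
    rw [← mul_assoc, ← mul_assoc, h1, one_mul, mul_assoc, h1, mul_one]

theorem CocycleConjugate.trans (h : CocycleConjugate α β) (h' : CocycleConjugate β δ) :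
    CocycleConjugate α δ := by
  obtain ⟨θ, u, hu, hc, he⟩ := h
  obtain ⟨θ', v, hv, hc', he'⟩ := h'
  have h1 : ∀ g, star (u g) * u g = 1 := fun g => (Unitary.mem_iff.1 (hu g)).1
  have hb : ∀ g y, θ (β g y) = u g * α g (θ y) * star (u g) := fun g y => by
    rw [← he, StarAlgEquiv.symm_apply_apply]
  refine ⟨θ'.trans θ, fun g => θ (v g) * u g,
    fun g => mul_mem (oa_map_unitary _ (hv g)) (hu g), fun g k => ?_, fun g x => ?_⟩
  · beta_reduce
    rw [hc, hc', map_mul, hb, map_mul]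
    simp only [mul_assoc]
    rw [← mul_assoc (star (u g)), h1, one_mul]
  · have e : (θ'.trans θ) (δ g ((θ'.trans θ).symm x)) =
        θ (θ' (δ g (θ'.symm (θ.symm x)))) := rfl
    beta_reduce
    rw [e, he', map_mul, map_mul, he, star_mul, map_star]
    simp only [mul_assoc]

theorem oa_norm_conj {u : B} (hu : u ∈ unitary B) (x : B) : ‖u * x * star u‖ = ‖x‖ := by
  rw [CStarRing.norm_mul_mem_unitary _ (Unitary.star_mem hu), CStarRing.norm_mem_unitary_mul _ hu]

/-- The inductive choice of the unitaries. -/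
theorem oa_seq (ι : A →⋆ₐ[ℂ] B)
    (h : ∀ (sA : Finset A) (sB : Finset B) (sG : Finset G) (ε : ℝ), 0 < ε → ∃ z ∈ unitary B,
      (∀ a ∈ sA, ‖z * ι a - ι a * z‖ ≤ ε) ∧ (∀ b ∈ sB, ∃ a, ‖star z * b * z - ι a‖ ≤ ε) ∧
        ∀ g ∈ sG, ‖β g z - z‖ ≤ ε) (a : ℕ → A) (b : ℕ → B) (g : ℕ → G) :
    ∃ (Z z : ℕ → B) (F : ℕ → Finset A), (∀ n, Z n ∈ unitary B) ∧ (∀ n, z n ∈ unitary B) ∧
      (∀ n, Z (n + 1) = Z n * z n) ∧ (∀ n, F n ⊆ F (n + 1)) ∧ (∀ n, a n ∈ F (n + 1)) ∧
      (∀ n, ∀ x ∈ F n, ‖z n * ι x - ι x * z n‖ ≤ (1 / 2) ^ n) ∧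
      (∀ n, ∀ j ≤ n, ∃ x ∈ F (n + 1),
        ‖star (Z (n + 1)) * b j * Z (n + 1) - ι x‖ ≤ (1 / 2) ^ n) ∧
      ∀ n, ∀ j ≤ n, ‖β (g j) (z n) - z n‖ ≤ (1 / 2) ^ n := by
  classical
  have step : ∀ (n : ℕ) (Z : B) (F : Finset A), ∃ (z : B) (F' : Finset A), z ∈ unitary B ∧
      F ⊆ F' ∧ a n ∈ F' ∧ (∀ x ∈ F, ‖z * ι x - ι x * z‖ ≤ (1 / 2) ^ n) ∧
      (∀ j ≤ n, ∃ x ∈ F', ‖star (Z * z) * b j * (Z * z) - ι x‖ ≤ (1 / 2) ^ n) ∧
      ∀ j ≤ n, ‖β (g j) z - z‖ ≤ (1 / 2) ^ n := by
    intro n Z F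
    obtain ⟨z, hz, h1, h2, h3⟩ := h F
      ((Finset.range (n + 1)).image fun j => star Z * b j * Z)
      ((Finset.range (n + 1)).image g) ((1 / 2) ^ n) (by positivity)
    have h4 : ∀ j : ℕ, ∃ x : A, j ≤ n →
        ‖star (Z * z) * b j * (Z * z) - ι x‖ ≤ (1 / 2) ^ n := by
      intro j
      by_cases hj : j ≤ n
      · obtain ⟨x, hx⟩ := h2 (star Z * b j * Z)
          (Finset.mem_image.2 ⟨j, Finset.mem_range.2 (Nat.lt_succ_of_le hj), rfl⟩)
        refine ⟨x, fun _ => ?_⟩
        have e : star (Z * z) * b j * (Z * z) = star z * (star Z * b j * Z) * z := by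
          rw [star_mul]; simp only [mul_assoc]
        rw [e]; exact hx
      · exact ⟨0, fun h => absurd h hj⟩
    choose w hw using h4
    refine ⟨z, insert (a n) (F ∪ (Finset.range (n + 1)).image w), hz, fun x hx => ?_,
      Finset.mem_insert_self _ _, h1, fun j hj => ⟨w j, ?_, hw j hj⟩, fun j hj => h3 _ ?_⟩
    · exact Finset.mem_insert_of_mem (Finset.mem_union_left _ hx)
    · exact Finset.mem_insert_of_mem (Finset.mem_union_right _
        (Finset.mem_image.2 ⟨j, Finset.mem_range.2 (Nat.lt_succ_of_le hj), rfl⟩))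
    · exact Finset.mem_image.2 ⟨j, Finset.mem_range.2 (Nat.lt_succ_of_le hj), rfl⟩
  choose zf Ff h1 h2 h3 h4 h5 h6 using step
  let S : ℕ → B × Finset A := fun n => Nat.rec (1, ∅)
    (fun n s => (s.1 * zf n s.1 s.2, Ff n s.1 s.2)) n
  have hS1 : ∀ n, (S (n + 1)).1 = (S n).1 * zf n (S n).1 (S n).2 := fun _ => rfl
  have hS2 : ∀ n, (S (n + 1)).2 = Ff n (S n).1 (S n).2 := fun _ => rfl
  refine ⟨fun n => (S n).1, fun n => zf n (S n).1 (S n).2, fun n => (S n).2, fun n => ?_,
    fun n => h1 _ _ _, hS1, fun n => h2 _ _ _, fun n => h3 _ _ _, fun n => h4 _ _ _,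
    fun n => h5 _ _ _, fun n => h6 _ _ _⟩
  induction n with
  | zero => exact one_mem _
  | succ n ih =>
    show (S (n + 1)).1 ∈ unitary B
    rw [hS1]
    exact mul_mem ih (h1 _ _ _)

/-- Sequences with eventually geometric steps are Cauchy. -/
theorem oa_cauchy {f : ℕ → B} (N : ℕ) (hf : ∀ n, N ≤ n → ‖f (n + 1) - f n‖ ≤ (1 / 2) ^ n) :
    CauchySeq f := by
  rw [← cauchySeq_shift N]
  refine cauchySeq_of_le_geometric (1 / 2) ((1 / 2) ^ N) (by norm_num) fun n => ?_
  rw [dist_comm, dist_eq_norm, ← pow_add, Nat.add_right_comm, add_comm N n]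
  exact hf _ (Nat.le_add_left _ _)

theorem oa_dist {f : ℕ → B} {l : B} (N : ℕ)
    (hf : ∀ n, N ≤ n → ‖f (n + 1) - f n‖ ≤ (1 / 2) ^ n) (hl : Tendsto f atTop (𝓝 l)) :
    ‖f N - l‖ ≤ 2 * (1 / 2) ^ N := by
  have h1 : Tendsto (fun n => f (n + N)) atTop (𝓝 l) := (tendsto_add_atTop_iff_nat N).2 hl
  have h2 := dist_le_of_le_geometric_of_tendsto₀ (1 / 2) ((1 / 2) ^ N) (by norm_num)
    (f := fun n => f (n + N)) (fun n => by
      rw [dist_comm, dist_eq_norm, ← pow_add, Nat.add_right_comm, add_comm N n]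
      exact hf _ (Nat.le_add_left _ _)) h1
  rw [zero_add, dist_eq_norm] at h2
  refine h2.trans (le_of_eq ?_)
  ring

theorem osi [Countable G] [TopologicalSpace.SeparableSpace A] [TopologicalSpace.SeparableSpace B]
    (ι : A →⋆ₐ[ℂ] B) (hi : Function.Injective ι) (he : ∀ g x, ι (α g x) = β g (ι x))
    (h : ∀ (sA : Finset A) (sB : Finset B) (sG : Finset G) (ε : ℝ), 0 < ε → ∃ z ∈ unitary B,
      (∀ a ∈ sA, ‖z * ι a - ι a * z‖ ≤ ε) ∧ (∀ b ∈ sB, ∃ a, ‖star z * b * z - ι a‖ ≤ ε) ∧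
        ∀ g ∈ sG, ‖β g z - z‖ ≤ ε) : CocycleConjugate β α := by
  obtain ⟨gs, hgs⟩ := exists_surjective_nat G
  obtain ⟨Z, z, F, hZ, hz, hZs, hF, haF, c1, c2, c3⟩ :=
    oa_seq ι h (TopologicalSpace.denseSeq A) (TopologicalSpace.denseSeq B) gs
  have hFm : ∀ m n, m ≤ n → F m ⊆ F n := fun m n hmn => by
    induction hmn with
    | refl => exact subset_rfl
    | step _ ih => exact ih.trans (hF _)
  have hZ1 : ∀ n, star (Z n) * Z n = 1 := fun n => (Unitary.mem_iff.1 (hZ n)).1
  have hZ2 : ∀ n, Z n * star (Z n) = 1 := fun n => (Unitary.mem_iff.1 (hZ n)).2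
  have hz2 : ∀ n, z n * star (z n) = 1 := fun n => (Unitary.mem_iff.1 (hz n)).2
  have hiso : ∀ x, ‖ι x‖ = ‖x‖ := fun x => NonUnitalStarAlgHom.norm_map ι hi x
  let T : ℕ → A → B := fun n x => Z n * ι x * star (Z n)
  have hTn : ∀ n x, ‖T n x‖ = ‖x‖ := fun n x => (oa_norm_conj (hZ n) _).trans (hiso x)
  have hTsub : ∀ n x y, T n x - T n y = T n (x - y) := fun n x y => by
    simp only [T, map_sub, mul_sub, sub_mul]
  have hTstep : ∀ n, ∀ x ∈ F n, ‖T (n + 1) x - T n x‖ ≤ (1 / 2) ^ n := fun n x hx => by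
    have e : T (n + 1) x - T n x =
        Z n * ((z n * ι x - ι x * z n) * star (z n)) * star (Z n) := by
      simp only [T, hZs, star_mul, sub_mul, mul_sub, mul_assoc]
      rw [← mul_assoc (z n) (star (z n)), hz2, one_mul]
    rw [e, oa_norm_conj (hZ n), CStarRing.norm_mul_mem_unitary _ (Unitary.star_mem (hz n))]
    exact c1 n x hx
  have hTF : ∀ N, ∀ x ∈ F N, CauchySeq fun n => T n x := fun N x hx =>
    oa_cauchy N fun n hn => hTstep n x (hFm _ _ hn hx)
  have hTC : ∀ x, CauchySeq fun n => T n x := by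
    intro x
    rw [Metric.cauchySeq_iff]
    intro ε hε
    obtain ⟨j, hj⟩ := (TopologicalSpace.denseRange_denseSeq A).exists_dist_lt x
      (show 0 < ε / 3 by positivity)
    obtain ⟨N, hN⟩ := Metric.cauchySeq_iff.1 (hTF _ _ (haF j)) (ε / 3) (by positivity)
    refine ⟨N, fun m hm n hn => ?_⟩
    have e1 := hN m hm n hn
    have e2 : ∀ k, dist (T k x) (T k (TopologicalSpace.denseSeq A j)) < ε / 3 := fun k => by
      rw [dist_eq_norm, hTsub, hTn, ← dist_eq_norm]; exact hj
    have e3 := dist_triangle4 (T m x) (T m (TopologicalSpace.denseSeq A j))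
      (T n (TopologicalSpace.denseSeq A j)) (T n x)
    have e4 := e2 m
    have e5 := e2 n
    rw [dist_comm] at e5
    linarith
  choose t ht using fun x => cauchySeq_tendsto_of_complete (hTC x)
  have htn : ∀ x, ‖t x‖ = ‖x‖ := fun x =>
    tendsto_nhds_unique (ht x).norm (by simp only [hTn]; exact tendsto_const_nhds)
  let θ₀ : A →⋆ₐ[ℂ] B :=
    { toFun := t
      map_one' := tendsto_nhds_unique (ht 1) (by
        simp only [T, map_one, mul_one, hZ2]; exact tendsto_const_nhds)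
      map_mul' := fun x y => tendsto_nhds_unique (ht (x * y)) (((ht x).mul (ht y)).congr
        fun n => by
          simp only [T, map_mul, mul_assoc]
          rw [← mul_assoc (star (Z n)), hZ1, one_mul])
      map_zero' := tendsto_nhds_unique (ht 0) (by
        simp only [T, map_zero, mul_zero, zero_mul]; exact tendsto_const_nhds)
      map_add' := fun x y => tendsto_nhds_unique (ht (x + y)) (((ht x).add (ht y)).congr
        fun n => by simp only [T, map_add, mul_add, add_mul])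
      commutes' := fun c => tendsto_nhds_unique (ht _) (by
        have e : ∀ n, T n (algebraMap ℂ A c) = algebraMap ℂ B c := fun n => by
          simp only [T, Algebra.algebraMap_eq_smul_one, map_smul, map_one, mul_smul_comm,
            smul_mul_assoc, mul_one, hZ2]
        simp only [e]; exact tendsto_const_nhds)
      map_star' := fun x => tendsto_nhds_unique (ht (star x)) ((ht x).star.congr
        fun n => by simp only [T, map_star, star_mul, star_star, mul_assoc]) }
  have hθ : ∀ x, θ₀ x = t x := fun _ => rfl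
  have hisom : Isometry θ₀ := AddMonoidHomClass.isometry_of_norm θ₀ fun x => htn x
  have hsurj : Function.Surjective θ₀ := by
    have hcl : IsClosed (Set.range θ₀) := hisom.isClosedEmbedding.isClosed_range
    have hd : ∀ j, TopologicalSpace.denseSeq B j ∈ Set.range θ₀ := by
      intro j
      rw [← hcl.closure_eq, Metric.mem_closure_iff]
      intro ε hε
      obtain ⟨N, hN⟩ := exists_pow_lt_of_lt_one (show 0 < ε / 2 by positivity)
        (show (1 / 2 : ℝ) < 1 by norm_num)
      obtain ⟨x, hx, hb⟩ := c2 (N + j) j (Nat.le_add_left _ _)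
      refine ⟨θ₀ x, ⟨x, rfl⟩, ?_⟩
      have e1 := oa_dist (f := fun n => T n x) (N + j + 1)
        (fun n hn => hTstep n x (hFm _ _ hn hx)) (ht x)
      have e2 : ‖TopologicalSpace.denseSeq B j - T (N + j + 1) x‖ ≤ (1 / 2) ^ (N + j) := by
        have e : TopologicalSpace.denseSeq B j - T (N + j + 1) x = Z (N + j + 1) *
            (star (Z (N + j + 1)) * TopologicalSpace.denseSeq B j * Z (N + j + 1) - ι x) *
              star (Z (N + j + 1)) := by
          simp only [T, mul_sub, sub_mul, mul_assoc, hZ2, mul_one]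
          rw [← mul_assoc (Z (N + j + 1)) (star _), hZ2, one_mul]
        rw [e, oa_norm_conj (hZ _)]
        exact hb
      have e3 : ((1 / 2 : ℝ)) ^ (N + j) ≤ (1 / 2) ^ N :=
        pow_le_pow_of_le_one (by norm_num) (by norm_num) (Nat.le_add_right _ _)
      have e4 := dist_triangle (TopologicalSpace.denseSeq B j) (T (N + j + 1) x) (t x)
      rw [dist_eq_norm (TopologicalSpace.denseSeq B j) (T _ _), dist_eq_norm (T _ _)] at e4
      rw [hθ]
      rw [pow_succ] at e1
      linarith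
    intro y
    have h1 : y ∈ closure (Set.range (TopologicalSpace.denseSeq B)) :=
      TopologicalSpace.denseRange_denseSeq B y
    have h2 : closure (Set.range (TopologicalSpace.denseSeq B)) ⊆ Set.range θ₀ :=
      closure_minimal (Set.range_subset_iff.2 hd) hcl
    exact h2 h1
  let θ : A ≃⋆ₐ[ℂ] B := StarAlgEquiv.ofBijective θ₀ ⟨hisom.injective, hsurj⟩
  have hθ' : ∀ x, θ x = t x := fun _ => rfl
  let U : G → ℕ → B := fun g n => Z n * β g (star (Z n))
  have hUu : ∀ g n, U g n ∈ unitary B := fun g n =>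
    mul_mem (hZ n) (oa_map_unitary _ (Unitary.star_mem (hZ n)))
  have hUC : ∀ g, CauchySeq (U g) := by
    intro g
    obtain ⟨j, rfl⟩ := hgs g
    refine oa_cauchy j fun n hn => ?_
    have e : U (gs j) (n + 1) - U (gs j) n =
        Z n * (z n * star (β (gs j) (z n) - z n)) * β (gs j) (star (Z n)) := by
      simp only [U, hZs, star_mul, map_mul, map_star, star_sub, mul_sub, sub_mul, mul_assoc]
      rw [← mul_assoc (z n) (star (z n)), hz2, one_mul]
    rw [e, CStarRing.norm_mul_mem_unitary _ (oa_map_unitary _ (Unitary.star_mem (hZ n))),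
      CStarRing.norm_mem_unitary_mul _ (hZ n), CStarRing.norm_mem_unitary_mul _ (hz n), norm_star]
    exact c3 n j hn
  choose u hu using fun g => cauchySeq_tendsto_of_complete (hUC g)
  refine ⟨θ, u, fun g => ?_, fun g k => ?_, fun g y => ?_⟩
  · rw [Unitary.mem_iff]
    constructor
    · refine tendsto_nhds_unique ((hu g).star.mul (hu g)) ?_
      simp only [fun n => (Unitary.mem_iff.1 (hUu g n)).1]
      exact tendsto_const_nhds
    · refine tendsto_nhds_unique ((hu g).mul (hu g).star) ?_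
      simp only [fun n => (Unitary.mem_iff.1 (hUu g n)).2]
      exact tendsto_const_nhds
  · refine tendsto_nhds_unique (hu (g * k))
      (((hu g).mul (((aut_continuous (β g)).tendsto _).comp (hu k))).congr fun n => ?_)
    simp only [U, Function.comp_apply]
    rw [mul_assoc, ← map_mul, ← mul_assoc, hZ1, one_mul, act_act]
  · obtain ⟨x, rfl⟩ : ∃ x, θ x = y := ⟨θ.symm y, θ.apply_symm_apply y⟩
    rw [StarAlgEquiv.symm_apply_apply, hθ', hθ']
    refine tendsto_nhds_unique (ht (α g x))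
      ((((hu g).mul (((aut_continuous (β g)).tendsto _).comp (ht x))).mul (hu g).star).congr
        fun n => ?_)
    simp only [U, T, Function.comp_apply, he, star_mul]
    have e1 : β g (star (Z n)) * β g (Z n) = 1 := by rw [← map_mul, hZ1, map_one]
    rw [← map_star, star_star, map_mul, map_mul]
    simp only [mul_assoc]
    rw [← mul_assoc (β g (star (Z n))) (β g (Z n)), e1, one_mul,
      ← mul_assoc (β g (star (Z n))) (β g (Z n)), e1, one_mul]

end Pool.Agent.Izumi
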