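import Pool.Agent.Lib.MP_b2135d_an.UB

/-! Saturation of the ultrapower (PLAN section 3). -/

namespace Pool.Agent.Izumi

open scoped ComplexOrder Matrix
open Filter Topology

variable {G B A : Type} [Group G] [CStarAlgebra B] [PartialOrder B] [StarOrderedRing B]
  [CStarAlgebra A] [PartialOrder A] [StarOrderedRing A] {q : Bdd B →⋆ₐ[ℂ] A}
  {β : G →* (B ≃⋆ₐ[ℂ] B)} {τB : B →ₚ[ℂ] ℂ}

omit [StarOrderedRing B] [StarOrderedRing A] in
/-- Every term is computed coordinatewise. -/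
theorem IsUP.ucTerm {γ : G →* (A ≃⋆ₐ[ℂ] A)} {τ : A →ₚ[ℂ] ℂ} (h : IsUP β τB q γ τ) {ι : Type}
    {f : (ι → A) → A} (hf : IsTerm γ f) :
    ∃ F : ℕ → (ι → B) → B, ∀ x : ι → Bdd B, ∃ y : Bdd B,
      (∀ n, y.1 n = F n fun i => (x i).1 n) ∧ q y = f fun i => q (x i) := by
  induction hf with
  | var i => exact ⟨fun _ b => b i, fun x => ⟨x i, fun _ => rfl, rfl⟩⟩
  | const a =>
    obtain ⟨y, hy⟩ := h.ult.surj a
    exact ⟨fun n _ => y.1 n, fun _ => ⟨y, fun _ => rfl, hy⟩⟩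
  | add _ _ ih1 ih2 =>
    obtain ⟨F1, h1⟩ := ih1
    obtain ⟨F2, h2⟩ := ih2
    refine ⟨fun n b => F1 n b + F2 n b, fun x => ?_⟩
    obtain ⟨y1, a1, b1⟩ := h1 x
    obtain ⟨y2, a2, b2⟩ := h2 x
    refine ⟨y1 + y2, fun n => ?_, by rw [map_add, b1, b2]⟩
    show y1.1 n + y2.1 n = _
    rw [a1, a2]
  | mul _ _ ih1 ih2 =>
    obtain ⟨F1, h1⟩ := ih1
    obtain ⟨F2, h2⟩ := ih2
    refine ⟨fun n b => F1 n b * F2 n b, fun x => ?_⟩
    obtain ⟨y1, a1, b1⟩ := h1 x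
    obtain ⟨y2, a2, b2⟩ := h2 x
    refine ⟨y1 * y2, fun n => ?_, by rw [map_mul, b1, b2]⟩
    show y1.1 n * y2.1 n = _
    rw [a1, a2]
  | star _ ih1 =>
    obtain ⟨F1, h1⟩ := ih1
    refine ⟨fun n b => star (F1 n b), fun x => ?_⟩
    obtain ⟨y1, a1, b1⟩ := h1 x
    refine ⟨star y1, fun n => ?_, by rw [map_star, b1]⟩
    show star (y1.1 n) = _
    rw [a1]
  | smul c _ ih1 =>
    obtain ⟨F1, h1⟩ := ih1
    refine ⟨fun n b => c • F1 n b, fun x => ?_⟩
    obtain ⟨y1, a1, b1⟩ := h1 x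
    refine ⟨c • y1, fun n => ?_, by rw [map_smul, b1]⟩
    show c • y1.1 n = _
    rw [a1]
  | act k _ ih1 =>
    obtain ⟨F1, h1⟩ := ih1
    refine ⟨fun n b => β k (F1 n b), fun x => ?_⟩
    obtain ⟨y1, a1, b1⟩ := h1 x
    refine ⟨Bdd.map (β k : B →⋆ₐ[ℂ] B) y1, fun n => ?_, by rw [← h.act, b1]⟩
    show β k (y1.1 n) = _
    rw [a1]

omit [StarOrderedRing B] [StarOrderedRing A] in
/-- Every definable predicate is a countable conjunction of limits of coordinate conditions. -/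
theorem IsUP.ucDefn {γ : G →* (A ≃⋆ₐ[ℂ] A)} {τ : A →ₚ[ℂ] ℂ} (h : IsUP β τB q γ τ) {ι : Type}
    {P : (ι → A) → Prop} (hP : Defn τ γ P) :
    ∃ (φ : ℕ → ℕ → (ι → B) → ℝ) (Φ : ℕ → (ι → A) → ℝ),
      (∀ k (x : ι → Bdd B), Tendsto (fun n => φ k n fun i => (x i).1 n) (hyperfilter ℕ)
        (𝓝 (Φ k fun i => q (x i)))) ∧ ∀ a, P a ↔ ∀ k, Φ k a ≤ 0 := by
  induction hP with
  | @norm_le f hf c =>
    obtain ⟨F, hF⟩ := h.ucTerm hf
    refine ⟨fun _ n b => ‖F n b‖ - c, fun _ a => ‖f a‖ - c, fun _ x => ?_, fun a => ?_⟩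
    · obtain ⟨y, a1, b1⟩ := hF x
      have := (h.ult.norm y).sub_const c
      simp only [a1, b1] at this
      exact this
    · exact ⟨fun h _ => sub_nonpos.2 h, fun h => sub_nonpos.1 (h 0)⟩
  | @tr_le f hf c =>
    obtain ⟨F, hF⟩ := h.ucTerm hf
    refine ⟨fun _ n b => (τB (F n b)).re - c, fun _ a => (τ (f a)).re - c, fun _ x => ?_,
      fun a => ?_⟩
    · obtain ⟨y, a1, b1⟩ := hF x
      have := ((Complex.continuous_re.tendsto _).comp (h.tr y)).sub_const c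
      simp only [Function.comp_def, a1, b1] at this
      exact this
    · exact ⟨fun h _ => sub_nonpos.2 h, fun h => sub_nonpos.1 (h 0)⟩
  | all _ ih =>
    choose φ Φ h1 h2 using ih
    refine ⟨fun k => φ k.unpair.1 k.unpair.2, fun k => Φ k.unpair.1 k.unpair.2,
      fun k x => h1 _ _ x, fun a => ⟨fun ha k => (h2 _ a).1 (ha _) _, fun ha n => ?_⟩⟩
    refine (h2 n a).2 fun k => ?_
    have := ha (Nat.pair n k)
    simp only [Nat.unpair_pair] at this
    exact this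
  | congr _ e ih =>
    obtain ⟨φ, Φ, h1, h2⟩ := ih
    exact ⟨φ, Φ, h1, fun a => (e a).symm.trans (h2 a)⟩

theorem IsUP.saturated {γ : G →* (A ≃⋆ₐ[ℂ] A)} {τ : A →ₚ[ℂ] ℂ} (h : IsUP β τB q γ τ) :
    Saturated τ γ := by
  classical
  intro ι _ R Z hZ hsol
  choose φ Φ h1 h2 using fun n => h.ucDefn (hZ n)
  choose a ha1 ha2 using hsol
  choose x hx1 hx2 using fun N i => h.ult.exists_lift (a N i) (ha1 N i)
  let V : ℕ → ℕ → Prop := fun N m =>
    ∀ n ≤ N, ∀ k ≤ N, φ n k m (fun i => (x N i).1 m) < 1 / ((N : ℝ) + 1)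
  have hV : ∀ N, ∀ᶠ m in (hyperfilter ℕ : Filter ℕ), V N m := by
    intro N
    refine (eventually_all_finite (Set.finite_Iic N)).2 fun n hn => ?_
    refine (eventually_all_finite (Set.finite_Iic N)).2 fun k _ => ?_
    have t := h1 n k (x N)
    have e : (fun i => q (x N i)) = a N := funext fun i => hx1 N i
    rw [e] at t
    exact t.eventually_lt_const
      (lt_of_le_of_lt ((h2 n _).1 (ha2 N n hn) k) Nat.one_div_pos_of_nat)
  let M : ℕ → ℕ := fun m => Nat.findGreatest (fun N => V N m) m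
  let y : ι → Bdd B := fun i => ⟨fun m => (x (M m) i).1 m, R i, fun m => hx2 _ i m⟩
  refine ⟨fun i => q (y i), fun i => h.ult.norm_le _ (Eventually.of_forall fun m => hx2 _ i m),
    fun n => (h2 n _).2 fun k => ?_⟩
  refine le_of_forall_pos_le_add fun ε hε => ?_
  obtain ⟨N1, hN1⟩ := exists_nat_one_div_lt hε
  refine le_of_tendsto (h1 n k y) ?_
  have hge : ∀ᶠ m in (hyperfilter ℕ : Filter ℕ), max N1 (max n k) ≤ m :=
    Nat.hyperfilter_le_atTop (eventually_ge_atTop _)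
  filter_upwards [hV (max N1 (max n k)), hge] with m hm1 hm2
  have b1 : max N1 (max n k) ≤ M m := Nat.le_findGreatest (P := fun N => V N m) hm2 hm1
  have b2 : V (M m) m := Nat.findGreatest_spec (P := fun N => V N m) hm2 hm1
  have b3 := b2 n (by omega) k (by omega)
  have b4 : 1 / ((M m : ℝ) + 1) ≤ 1 / ((N1 : ℝ) + 1) := Nat.one_div_le_one_div (by omega)
  have b5 : φ n k m (fun i => (y i).1 m) = φ n k m (fun i => (x (M m) i).1 m) := rfl
  linarith

end Pool.Agent.Izumi
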