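import Pool.Agent.Lib.MP_b2135d_an.SA
import Pool.Agent.Lib.MP_b2135d_an.CA

/-! One variable saturation and the copy API (PLAN section 2). -/

namespace Pool.Agent.Izumi

open scoped ComplexOrder Matrix
open Filter Topology

variable {G A : Type} [Group G] [CStarAlgebra A] [PartialOrder A] [StarOrderedRing A]

theorem Sat.sat_uni (S : Sat G A) {E : Type} [TopologicalSpace E]
    [TopologicalSpace.SeparableSpace E] {κ : Type} [Countable κ] (gs : κ → G) {T : Set A}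
    (hT : T.Countable) (φ₁ φ₂ : E → A) (h₁ : Continuous φ₁) (h₂ : Continuous φ₂)
    (H : ∀ (s : Finset E) (sk : Finset κ) (ε : ℝ), 0 < ε → ∃ u ∈ unitary A, u ∈ cent T ∧
      (∀ k ∈ sk, ‖S.γ (gs k) u - u‖ ≤ ε) ∧ ∀ x ∈ s, ‖u * φ₁ x * star u - φ₂ x‖ ≤ ε) :
    ∃ u ∈ unitary A, u ∈ cent T ∧ (∀ k, S.γ (gs k) u = u) ∧
      ∀ x, u * φ₁ x * star u = φ₂ x := by
  classical
  obtain ⟨D, hDc, hDd⟩ := TopologicalSpace.exists_countable_dense E
  haveI : Countable D := hDc.to_subtype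
  haveI : Nontrivial A := nontrivial_of_tr S.tr
  let f : κ ⊕ D → (Unit → A) → A := fun k => match k with
    | Sum.inl k => fun x => S.γ (gs k) (x ()) - x ()
    | Sum.inr d => fun x => x () * φ₁ d * star (x ()) - φ₂ d
  have hf : ∀ k, IsTerm S.γ (f k) := by
    rintro (k | d)
    · exact ((IsTerm.var ()).act (gs k)).sub (IsTerm.var ())
    · exact (((IsTerm.var ()).mul (IsTerm.const (φ₁ d))).mul (IsTerm.var ()).star).sub
        (IsTerm.const (φ₂ d))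
  have hP : Defn S.τ S.γ (fun x : Unit → A => x () ∈ unitary A ∧ x () ∈ cent T) :=
    (Defn.unitary (IsTerm.var ())).and (Defn.mem_cent hT (IsTerm.var ()))
  obtain ⟨x, -, ⟨hxu, hxc⟩, hx⟩ := S.sat.approx_eq (fun _ => (1 : ℝ)) hP f hf (by
    intro s ε hε
    obtain ⟨u, hu, huc, hk, he⟩ := H (s.toRight.image Subtype.val) s.toLeft ε hε
    refine ⟨fun _ => u, fun _ => (CStarRing.norm_of_mem_unitary hu).le, ⟨hu, huc⟩, ?_⟩
    rintro (k | d) hks
    · exact hk k (Finset.mem_toLeft.2 hks)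
    · exact he d (Finset.mem_image_of_mem _ (Finset.mem_toRight.2 hks)))
  refine ⟨x (), hxu, hxc, fun k => sub_eq_zero.1 (hx (Sum.inl k)), ?_⟩
  have hcl : IsClosed {e : E | x () * φ₁ e * star (x ()) = φ₂ e} :=
    isClosed_eq ((continuous_const.mul h₁).mul continuous_const) h₂
  have hsub : D ⊆ {e : E | x () * φ₁ e * star (x ()) = φ₂ e} := fun d hd =>
    sub_eq_zero.1 (hx (Sum.inr ⟨d, hd⟩))
  intro e
  exact hcl.closure_subset_iff.2 hsub (hDd e)

theorem Sat.sat_cmp (S : Sat G A) {κ : Type} [Countable κ] (gs : κ → G) {T : Set A}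
    (hT : T.Countable) (p a : A)
    (H : ∀ (sk : Finset κ) (sT : Finset A) (ε : ℝ), (sT : Set A) ⊆ T → 0 < ε → ∃ s : A,
      ‖star s * s - p‖ ≤ ε ∧ ‖a * s - s‖ ≤ ε ∧ (∀ k ∈ sk, ‖S.γ (gs k) s - s‖ ≤ ε) ∧
        ∀ t ∈ sT, ‖s * t - t * s‖ ≤ ε ∧ ‖s * star t - star t * s‖ ≤ ε) :
    ∃ s ∈ cent T, star s * s = p ∧ a * s = s ∧ ∀ k, S.γ (gs k) s = s := by
  classical
  haveI : Countable T := hT.to_subtype
  let f : (Bool ⊕ κ) ⊕ (T × Bool) → (Unit → A) → A := fun k => match k with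
    | Sum.inl (Sum.inl true) => fun x => star (x ()) * x () - p
    | Sum.inl (Sum.inl false) => fun x => a * x () - x ()
    | Sum.inl (Sum.inr k) => fun x => S.γ (gs k) (x ()) - x ()
    | Sum.inr (t, true) => fun x => x () * t - t * x ()
    | Sum.inr (t, false) => fun x => x () * star (t : A) - star (t : A) * x ()
  have hf : ∀ k, IsTerm S.γ (f k) := by
    rintro (((_ | _) | k) | ⟨t, _ | _⟩)
    · exact ((IsTerm.const a).mul (IsTerm.var ())).sub (IsTerm.var ())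
    · exact ((IsTerm.var ()).star.mul (IsTerm.var ())).sub (IsTerm.const p)
    · exact ((IsTerm.var ()).act (gs k)).sub (IsTerm.var ())
    · exact ((IsTerm.var ()).mul (IsTerm.const _)).sub ((IsTerm.const _).mul (IsTerm.var ()))
    · exact ((IsTerm.var ()).mul (IsTerm.const _)).sub ((IsTerm.const _).mul (IsTerm.var ()))
  have hP : Defn S.τ S.γ (fun _ : Unit → A => True) := Defn.const True
  obtain ⟨x, -, -, hx⟩ := S.sat.approx_eq (fun _ => √(‖p‖ + 1)) hP f hf (by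
    intro s ε hε
    obtain ⟨y, h1, h2, h3, h4⟩ := H s.toLeft.toRight (s.toRight.image fun z => (z.1 : A))
      (min ε 1) (by
        intro t ht
        obtain ⟨z, -, rfl⟩ := Finset.mem_image.1 (Finset.mem_coe.1 ht)
        exact z.1.2) (lt_min hε one_pos)
    refine ⟨fun _ => y, fun _ => ?_, trivial, ?_⟩
    · apply Real.le_sqrt_of_sq_le
      have e1 : ‖star y * y‖ ≤ ‖star y * y - p‖ + ‖p‖ := norm_le_norm_sub_add _ _
      rw [CStarRing.norm_star_mul_self] at e1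
      have e2 := h1.trans (min_le_right _ _)
      nlinarith
    · rintro (((_ | _) | k) | ⟨t, _ | _⟩) hks
      · exact h2.trans (min_le_left _ _)
      · exact h1.trans (min_le_left _ _)
      · exact (h3 k (Finset.mem_toRight.2 (Finset.mem_toLeft.2 hks))).trans (min_le_left _ _)
      · exact (h4 t (Finset.mem_image.2 ⟨(t, false), Finset.mem_toRight.2 hks, rfl⟩)).2.trans
          (min_le_left _ _)
      · exact (h4 t (Finset.mem_image.2 ⟨(t, true), Finset.mem_toRight.2 hks, rfl⟩)).1.trans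
          (min_le_left _ _))
  refine ⟨x (), mem_cent.2 fun t ht => ⟨?_, ?_⟩, ?_, ?_, fun k => ?_⟩
  · exact sub_eq_zero.1 (hx (Sum.inr (⟨t, ht⟩, true)))
  · exact sub_eq_zero.1 (hx (Sum.inr (⟨t, ht⟩, false)))
  · exact sub_eq_zero.1 (hx (Sum.inl (Sum.inl true)))
  · exact sub_eq_zero.1 (hx (Sum.inl (Sum.inl false)))
  · exact sub_eq_zero.1 (hx (Sum.inl (Sum.inr k)))

section Copy

variable {τ : A →ₚ[ℂ] ℂ} {γ : G →* (A ≃⋆ₐ[ℂ] A)} {T0 T : Set A} {𝒮 : StarSubalgebra ℂ A}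
  {Ψ : A →ₗ[ℂ] A}

theorem IsCopy.map_pow (h : IsCopy τ γ T0 T 𝒮 Ψ) {x : A} (hx : x ∈ 𝒮) (m : ℕ) :
    Ψ (x ^ m) = Ψ x ^ m := by
  induction m with
  | zero => rw [pow_zero, pow_zero, h.map_one]
  | succ m ih => rw [pow_succ, pow_succ, h.map_mul _ (pow_mem hx m) _ hx, ih]

theorem IsCopy.map_real_smul (h : IsCopy τ γ T0 T 𝒮 Ψ) (c : ℝ) (x : A) :
    Ψ (c • x) = c • Ψ x := by
  rw [← Complex.coe_smul, ← Complex.coe_smul, _root_.map_smul]

theorem IsCopy.nonneg (h : IsCopy τ γ T0 T 𝒮 Ψ) {x : A} (hx : x ∈ 𝒮) (h0 : 0 ≤ x) :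
    0 ≤ Ψ x := by
  haveI := h.closed
  have hy : CFC.sqrt x ∈ 𝒮 := by
    rw [CFC.sqrt_eq_real_sqrt x h0]
    exact cfcₙ_mem (𝕜' := ℂ) _ hx
  have hs : star (CFC.sqrt x) = CFC.sqrt x := (CFC.sqrt_nonneg x).isSelfAdjoint.star_eq
  have e : Ψ x = star (Ψ (CFC.sqrt x)) * Ψ (CFC.sqrt x) := by
    rw [← h.map_star _ hy, ← h.map_mul _ (star_mem hy) _ hy, hs, CFC.sqrt_mul_sqrt_self x h0]
  rw [e]
  exact star_mul_self_nonneg _

theorem IsCopy.le (h : IsCopy τ γ T0 T 𝒮 Ψ) {x y : A} (hx : x ∈ 𝒮) (hy : y ∈ 𝒮) (hxy : x ≤ y) :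
    Ψ x ≤ Ψ y := by
  have := h.nonneg (sub_mem hy hx) (sub_nonneg.2 hxy)
  rwa [map_sub, sub_nonneg] at this

theorem IsCopy.proj (h : IsCopy τ γ T0 T 𝒮 Ψ) {x : A} (hx : x ∈ 𝒮) (hp : IsStarProjection x) :
    IsStarProjection (Ψ x) := by
  refine ⟨?_, ?_⟩
  · show Ψ x * Ψ x = Ψ x
    rw [← h.map_mul _ hx _ hx, hp.isIdempotentElem.eq]
  · show star (Ψ x) = Ψ x
    rw [← h.map_star _ hx, hp.isSelfAdjoint.star_eq]

theorem IsCopy.mem_Fix (h : IsCopy τ γ T0 T 𝒮 Ψ) {x : A} (hx : x ∈ 𝒮) {H : Subgroup G}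
    (hH : x ∈ Fix γ H) : Ψ x ∈ Fix γ H := by
  intro g hg
  rw [← h.map_act g x hx, hH g hg]

theorem IsCopy.act_pow_mem (h : IsCopy τ γ T0 T 𝒮 Ψ) (g : G) (m : ℕ) {x : A} (hx : x ∈ 𝒮) :
    (γ g ^ m) x ∈ 𝒮 := by
  rw [← _root_.map_pow]
  exact h.act_mem _ x hx

theorem IsCopy.map_act_pow (h : IsCopy τ γ T0 T 𝒮 Ψ) (g : G) (m : ℕ) {x : A} (hx : x ∈ 𝒮) :
    Ψ ((γ g ^ m) x) = (γ g ^ m) (Ψ x) := by
  rw [← _root_.map_pow]
  exact h.map_act _ x hx

theorem IsCopy.exists_hom (h : IsCopy τ γ T0 T 𝒮 Ψ) {E : Type} [CStarAlgebra E]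
    (φ : E →⋆ₐ[ℂ] A) (hφ : ∀ x, φ x ∈ 𝒮) : ∃ φ' : E →⋆ₐ[ℂ] A, ∀ x, φ' x = Ψ (φ x) := by
  refine ⟨{ toFun := fun x => Ψ (φ x)
            map_one' := by rw [_root_.map_one, h.map_one]
            map_mul' := fun x y => by rw [_root_.map_mul, h.map_mul _ (hφ x) _ (hφ y)]
            map_zero' := by rw [map_zero, map_zero]
            map_add' := fun x y => by rw [map_add, map_add]
            commutes' := fun c => by
              rw [Algebra.algebraMap_eq_smul_one, Algebra.algebraMap_eq_smul_one, map_smul,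
                map_smul, _root_.map_one, h.map_one]
            map_star' := fun x => by rw [StarHomClass.map_star, h.map_star _ (hφ x)] }, fun _ => rfl⟩

end Copy

/-- A copy map defined on the range of a continuous map from a separable space into `F`. -/
theorem Sys.exists_copy_range (X : Sys G A) {E : Type} [TopologicalSpace E]
    [TopologicalSpace.SeparableSpace E] (φ : E → A) (hφ : Continuous φ) (hF : ∀ x, φ x ∈ X.F)
    {T : Set A} (hT : T.Countable) :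
    ∃ (𝒮 : StarSubalgebra ℂ A) (Ψ : A →ₗ[ℂ] A), (∀ x, φ x ∈ 𝒮) ∧ IsCopy X.τ X.γ X.T0 T 𝒮 Ψ := by
  obtain ⟨D, hDc, hDd⟩ := TopologicalSpace.exists_countable_dense E
  obtain ⟨𝒮, Ψ, hS, hΨ⟩ := X.ic (φ '' D) T (hDc.image φ) hT (by
    rintro _ ⟨d, -, rfl⟩
    exact hF d)
  refine ⟨𝒮, Ψ, fun x => ?_, hΨ⟩
  have hcl : IsClosed (φ ⁻¹' (𝒮 : Set A)) := hΨ.closed.preimage hφ
  have hsub : D ⊆ φ ⁻¹' (𝒮 : Set A) := fun d hd => hS ⟨d, hd, rfl⟩
  exact hcl.closure_subset_iff.2 hsub (hDd x)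

/-- A countable set that tests commutation with all translates of a separable range. -/
theorem Sys.exists_test_set (X : Sys G A) {E : Type} [TopologicalSpace E]
    [TopologicalSpace.SeparableSpace E] (φ : E → A) (hφ : Continuous φ) :
    ∃ T : Set A, T.Countable ∧ ∀ x ∈ X.FT T, ∀ (g h : G) (e : E),
      Commute (X.γ g x) (X.γ h (φ e)) := by
  obtain ⟨D, hDc, hDd⟩ := TopologicalSpace.exists_countable_dense E
  refine ⟨φ '' D, hDc.image φ, fun x hx g h e => ?_⟩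
  have hc : Continuous fun e => X.γ h (φ e) := (aut_continuous _).comp hφ
  have hcl : IsClosed {e : E | X.γ g x * X.γ h (φ e) = X.γ h (φ e) * X.γ g x} :=
    isClosed_eq (continuous_const.mul hc) (hc.mul continuous_const)
  have hsub : D ⊆ {e : E | X.γ g x * X.γ h (φ e) = X.γ h (φ e) * X.γ g x} := fun d hd =>
    X.commute_of_FT hx ⟨d, hd, rfl⟩ g h
  exact hcl.closure_subset_iff.2 hsub (hDd e)

end Pool.Agent.Izumi
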