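import Pool.Agent.Lib.MP_b2135d_an.UB
import Pool.Agent.Lib.MP_b2135d_an.SC
import Pool.Agent.Lib.MP_b2135d_an.MC
import Pool.Agent.Lib.MP_b2135d_an.CD

/-! Comparison in the central sequence algebra (PLAN section 3). -/

namespace Pool.Agent.Izumi

open scoped ComplexOrder Matrix
open Filter Topology

variable {G B A : Type} [Group G] [CStarAlgebra B] [PartialOrder B] [StarOrderedRing B]
  [CStarAlgebra A] [PartialOrder A] [StarOrderedRing A] {q : Bdd B →⋆ₐ[ℂ] A}
  {β : G →* (B ≃⋆ₐ[ℂ] B)} {τB : B →ₚ[ℂ] ℂ}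

omit [PartialOrder B] [StarOrderedRing B] in
theorem ue_half_norm (x y : B) : ‖(1 / 2 : ℂ) • (x + star x) - (1 / 2 : ℂ) • (y + star y)‖ ≤
    ‖x - y‖ := by
  have e : (1 / 2 : ℂ) • (x + star x) - (1 / 2 : ℂ) • (y + star y) =
      (1 / 2 : ℂ) • ((x - y) + star (x - y)) := by
    rw [star_sub, ← smul_sub]; congr 1; abel
  rw [e, norm_smul]
  have h1 := norm_add_le (x - y) (star (x - y))
  rw [norm_star] at h1
  have h2 : ‖(1 / 2 : ℂ)‖ = 1 / 2 := by simp
  rw [h2]; linarith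

omit [PartialOrder B] [StarOrderedRing B] in
theorem ue_half_sa (x : B) : IsSelfAdjoint ((1 / 2 : ℂ) • (x + star x)) := by
  rw [IsSelfAdjoint, star_smul, star_add, star_star, add_comm]
  congr 1
  simp

omit [PartialOrder B] [StarOrderedRing B] in
theorem ue_half_eq {x : B} (hx : IsSelfAdjoint x) : (1 / 2 : ℂ) • (x + star x) = x := by
  rw [hx.star_eq, ← two_smul ℂ x, smul_smul]; simp

omit [PartialOrder B] [StarOrderedRing B] in
theorem ue_near (c : UChain B) (x : B) {η : ℝ} (hη : 0 < η) :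
    ∃ k, ∃ y ∈ Set.range (c.ι k), ‖y - x‖ ≤ η := by
  obtain ⟨y, hy, hd⟩ := c.dense.exists_dist_lt x hη
  obtain ⟨k, hk⟩ := Set.mem_iUnion.1 hy
  exact ⟨k, y, hk, by rw [← dist_eq_norm, dist_comm]; exact hd.le⟩

omit [PartialOrder B] [StarOrderedRing B] in
theorem ue_near_sa (c : UChain B) {x : B} (hx : IsSelfAdjoint x) (hx1 : ‖x‖ ≤ 1) {η : ℝ}
    (hη : 0 < η) : ∃ k, ∃ y ∈ Set.range (c.ι k), IsSelfAdjoint y ∧ ‖y‖ ≤ 1 ∧ ‖y - x‖ ≤ η := by
  obtain ⟨k, _, ⟨M, rfl⟩, hM⟩ := ue_near c x (half_pos hη)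
  set y0 : B := (1 / 2 : ℂ) • (c.ι k M + star (c.ι k M)) with hy0
  have h1 : ‖y0 - x‖ ≤ η / 2 := by
    have := ue_half_norm (c.ι k M) x
    rw [ue_half_eq hx] at this
    exact this.trans hM
  have h2 : ‖y0‖ ≤ 1 + η / 2 := by
    have := norm_add_le (y0 - x) x
    rw [sub_add_cancel] at this
    linarith
  have hpos : 0 < 1 + η / 2 := by linarith
  set t : ℝ := (1 + η / 2)⁻¹ with ht
  have ht0 : 0 < t := inv_pos.2 hpos
  have ht1 : t * (1 + η / 2) = 1 := inv_mul_cancel₀ hpos.ne'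
  have ht2 : t ≤ 1 := by nlinarith
  refine ⟨k, (t : ℂ) • y0, ⟨(t : ℂ) • ((1 / 2 : ℂ) • (M + star M)), ?_⟩, ?_, ?_, ?_⟩
  · rw [map_smul, map_smul, map_add, map_star]
  · rw [IsSelfAdjoint, star_smul, (ue_half_sa _).star_eq]
    congr 1
    simp
  · rw [norm_smul, Complex.norm_real, Real.norm_of_nonneg ht0.le]
    nlinarith
  · have e : (t : ℂ) • y0 - x = (y0 - x) - ((1 - t : ℝ) : ℂ) • y0 := by
      push_cast
      rw [sub_smul, one_smul]; abel
    rw [e]
    refine (norm_sub_le _ _).trans ?_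
    rw [norm_smul, Complex.norm_real, Real.norm_of_nonneg (by linarith)]
    have : (1 - t) * ‖y0‖ ≤ (1 - t) * (1 + η / 2) := mul_le_mul_of_nonneg_left h2 (by linarith)
    nlinarith

omit [PartialOrder B] [StarOrderedRing B] [PartialOrder A] [StarOrderedRing A] in
theorem ue_lift_sa (h : IsUlt q) {y : A} (hy : IsSelfAdjoint y) (hy1 : ‖y‖ ≤ 1) :
    ∃ x : Bdd B, q x = y ∧ ∀ n, IsSelfAdjoint (x.1 n) ∧ ‖x.1 n‖ ≤ 1 := by
  obtain ⟨x, rfl, hx⟩ := h.exists_lift y hy1
  refine ⟨(1 / 2 : ℂ) • (x + star x), ?_, fun n => ⟨ue_half_sa (x.1 n), ?_⟩⟩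
  · rw [map_smul, map_add, map_star]; exact ue_half_eq hy
  · have := ue_half_norm (x.1 n) 0
    simp only [star_zero, add_zero, smul_zero, sub_zero] at this
    exact this.trans (hx n)

omit [PartialOrder B] [StarOrderedRing B] [PartialOrder A] [StarOrderedRing A] in
theorem ue_perturb (h : IsUlt q) (x : Bdd B) (z : ℕ → B) (hz : ∀ n, ‖z n‖ ≤ 1)
    (hd : ∀ n, ‖z n - x.1 n‖ ≤ 1 / ((n : ℝ) + 1)) : q ⟨z, 1, hz⟩ = q x := by
  rw [h.eq_iff]
  refine squeeze_zero (fun _ => norm_nonneg _) hd ?_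
  refine (tendsto_one_div_add_atTop_nhds_zero_nat).mono_left ?_
  rw [← Nat.cofinite_eq_atTop]
  exact hyperfilter_le_cofinite

/-- Approximate comparison in the ultrapower itself. -/
theorem up_cmp_approx {γ : G →* (A ≃⋆ₐ[ℂ] A)} {τ : A →ₚ[ℂ] ℂ} (h : IsUP β τB q γ τ)
    (hB : IsUHF B) {p a : A} (hp : IsStarProjection p) (ha0 : 0 ≤ a) (ha1 : a ≤ 1) {δ : ℝ}
    (hδ : 0 < δ) (hm : ∀ m : ℕ, 0 < m → (τ p).re + δ ≤ (τ (a ^ m)).re) {ε : ℝ} (hε : 0 < ε) :
    ∃ s : A, ‖star s * s - p‖ ≤ ε ∧ ‖a * s - s‖ ≤ ε := by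
  obtain ⟨-, ⟨c⟩⟩ := hB
  have hp1 : ‖p‖ ≤ 1 := hp.norm_le
  have ha2 : ‖a‖ ≤ 1 := (CStarAlgebra.norm_le_one_iff_of_nonneg a ha0).2 ha1
  obtain ⟨x0, hx0, hx0'⟩ := ue_lift_sa h.ult hp.isSelfAdjoint hp1
  obtain ⟨y0, hy0, hy0'⟩ := ue_lift_sa h.ult (IsSelfAdjoint.of_nonneg ha0) ha2
  have hpos : ∀ n : ℕ, (0 : ℝ) < 1 / ((n : ℝ) + 1) := fun n => by positivity
  choose k x hxr hxs hx1 hxd using fun n => ue_near_sa c (hx0' n).1 (hx0' n).2 (hpos n)
  choose l y hyr hys hy1 hyd using fun n => ue_near_sa c (hy0' n).1 (hy0' n).2 (hpos n)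
  have hqx : q ⟨x, 1, hx1⟩ = p := (ue_perturb h.ult x0 x hx1 hxd).trans hx0
  have hqy : q ⟨y, 1, hy1⟩ = a := (ue_perturb h.ult y0 y hy1 hyd).trans hy0
  set X : Bdd B := ⟨x, 1, hx1⟩ with hX
  set Y : Bdd B := ⟨y, 1, hy1⟩ with hY
  set ε' : ℝ := min ε 1 with hε'
  have hε0 : 0 < ε' := lt_min hε one_pos
  have hε1 : ε' ≤ 1 := min_le_right _ _
  have hε2 : ε' ≤ ε := min_le_left _ _
  set η : ℝ := min (1 / 8) (min (ε / 2) (δ / 8)) with hη
  have hη0 : 0 < η := lt_min (by norm_num) (lt_min (half_pos hε) (by linarith))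
  have hη1 : η ≤ 1 / 8 := min_le_left _ _
  have hη2 : η ≤ ε / 2 := (min_le_right _ _).trans (min_le_left _ _)
  have hη3 : η ≤ δ / 8 := (min_le_right _ _).trans (min_le_right _ _)
  obtain ⟨m0, hm0⟩ := exists_pow_lt_of_lt_one (show 0 < δ / 4 by linarith)
    (show 1 - ε' < 1 by linarith)
  have hodd : Odd (2 * m0 + 1) := odd_two_mul_add_one m0
  have hm1 : (1 - ε') ^ (2 * m0 + 1) ≤ δ / 4 :=
    (pow_le_pow_of_le_one (by linarith) (by linarith) (by omega)).trans hm0.le
  have hm2 := hm (2 * m0 + 1) (by omega)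
  have e1 : ∀ᶠ n in (hyperfilter ℕ : Filter ℕ), ‖x n * x n - x n‖ < η := by
    refine h.ult.eventually_lt (X * X - X) ?_
    rw [map_sub, map_mul, hqx, hp.isIdempotentElem.eq, sub_self, norm_zero]
    exact hη0
  have e2 : ∀ᶠ n in (hyperfilter ℕ : Filter ℕ), (τB (x n)).re < (τ p).re + δ / 8 := by
    have := (Complex.continuous_re.tendsto _).comp (h.tr X)
    rw [hqx] at this
    exact this.eventually_lt_const (by linarith)
  have e3 : ∀ᶠ n in (hyperfilter ℕ : Filter ℕ),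
      (τ (a ^ (2 * m0 + 1))).re - δ / 8 < (τB (y n ^ (2 * m0 + 1))).re := by
    have := (Complex.continuous_re.tendsto _).comp (h.tr (Y ^ (2 * m0 + 1)))
    rw [map_pow, hqy] at this
    exact this.eventually_const_lt (by linarith)
  have key : ∀ n, ∃ s : B, ‖s‖ ≤ 2 ∧ (‖x n * x n - x n‖ < η →
      (τB (x n)).re < (τ p).re + δ / 8 →
      (τ (a ^ (2 * m0 + 1))).re - δ / 8 < (τB (y n ^ (2 * m0 + 1))).re →
      ‖star s * s - x n‖ ≤ ε ∧ ‖y n * s - s‖ ≤ ε) := by
    intro n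
    by_cases hg : ‖x n * x n - x n‖ < η ∧ (τB (x n)).re < (τ p).re + δ / 8 ∧
        (τ (a ^ (2 * m0 + 1))).re - δ / 8 < (τB (y n ^ (2 * m0 + 1))).re
    · obtain ⟨g1, g2, g3⟩ := hg
      obtain ⟨s, hs1, hs2⟩ := cmp_mat h.trB (c.ι (max (k n) (l n)))
        (c.mono_le (le_max_left _ _) (hxr n)) (c.mono_le (le_max_right _ _) (hyr n))
        (hxs n) (hys n) hη1 g1.le (hy1 n) hε0 hε1 hodd (by linarith)
      refine ⟨s, ?_, fun _ _ _ => ⟨by linarith, by linarith⟩⟩
      have n1 := norm_add_le (star s * s - x n) (x n)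
      rw [sub_add_cancel, CStarRing.norm_star_mul_self] at n1
      have := hx1 n
      nlinarith [norm_nonneg s]
    · exact ⟨0, by simp, fun g1 g2 g3 => absurd ⟨g1, g2, g3⟩ hg⟩
  choose s hs hs' using key
  set S : Bdd B := ⟨s, 2, hs⟩ with hS
  refine ⟨q S, ?_, ?_⟩
  · rw [← hqx, ← map_star, ← map_mul, ← map_sub]
    refine h.ult.norm_le _ ?_
    filter_upwards [e1, e2, e3] with n g1 g2 g3 using (hs' n g1 g2 g3).1
  · rw [← hqy, ← map_mul, ← map_sub]
    refine h.ult.norm_le _ ?_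
    filter_upwards [e1, e2, e3] with n g1 g2 g3 using (hs' n g1 g2 g3).2

omit [PartialOrder B] [StarOrderedRing B] in
theorem ue_near_fin (c : UChain B) (s : Finset B) {η : ℝ} (hη : 0 < η) :
    ∃ k, ∀ b ∈ s, ∃ y ∈ Set.range (c.ι k), ‖y - b‖ ≤ η := by
  choose k y hy hd using fun b => ue_near c b hη
  exact ⟨s.sup k, fun b hb => ⟨y b, c.mono_le (Finset.le_sup hb) (hy b), hd b⟩⟩

omit [PartialOrder A] [StarOrderedRing A] in
theorem ue_spread {ι : Type} [Fintype ι] [DecidableEq ι] {e : ι → ι → A} (he : IsMU e) (o : ι)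
    {p a s : A} (hp : ∀ i j, Commute p (e i j)) (ha : ∀ i j, Commute a (e i j))
    (h1 : star s * s = p * e o o) (h2 : a * e o o * s = s) :
    star (∑ i, e i o * s * e o i) * (∑ i, e i o * s * e o i) = p ∧
      a * (∑ i, e i o * s * e o i) = ∑ i, e i o * s * e o i ∧
        ∀ k l, Commute (∑ i, e i o * s * e o i) (e k l) := by
  have hoo : e o o * e o o = e o o := by rw [he.mul, if_pos rfl]
  have h3 : e o o * s = s := by
    conv_lhs => rw [← h2]
    rw [(ha o o).eq, ← mul_assoc, ← mul_assoc, hoo, ← (ha o o).eq, h2]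
  refine ⟨?_, ?_, fun k l => ?_⟩
  · rw [star_sum, Finset.sum_mul]
    have : ∀ i, star (e i o * s * e o i) * ∑ j, e j o * s * e o j = p * e i i := by
      intro i
      rw [Finset.mul_sum, Finset.sum_eq_single i]
      · rw [star_mul, star_mul, he.star, he.star]
        calc e i o * (star s * e o i) * (e i o * s * e o i)
            = e i o * (star s * ((e o i * e i o) * s)) * e o i := by simp only [mul_assoc]
          _ = e i o * (p * e o o) * e o i := by rw [he.mul, if_pos rfl, h3, h1]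
          _ = p * (e i o * e o o * e o i) := by
            rw [← mul_assoc (e i o), ← (hp i o).eq]; simp only [mul_assoc]
          _ = p * e i i := by rw [he.mul, if_pos rfl, he.mul, if_pos rfl]
      · intro j _ hj
        rw [star_mul, star_mul, he.star, he.star]
        calc e i o * (star s * e o i) * (e j o * s * e o j)
            = e i o * (star s * ((e o i * e j o) * s)) * e o j := by simp only [mul_assoc]
          _ = 0 := by rw [he.mul, if_neg (Ne.symm hj)]; simp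
      · intro hi; exact absurd (Finset.mem_univ i) hi
    rw [Finset.sum_congr rfl fun i _ => this i, ← Finset.mul_sum, he.sum, mul_one]
  · rw [Finset.mul_sum]
    refine Finset.sum_congr rfl fun i _ => ?_
    calc a * (e i o * s * e o i) = e i o * (a * s) * e o i := by
          rw [← mul_assoc, ← mul_assoc, (ha i o).eq]; simp only [mul_assoc]
      _ = e i o * s * e o i := by
          congr 2
          conv_lhs => rw [← h3]
          rw [← mul_assoc, h2]
  · have l1 : (∑ i, e i o * s * e o i) * e k l = e k o * s * e o l := by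
      rw [Finset.sum_mul, Finset.sum_eq_single k]
      · rw [mul_assoc, he.mul, if_pos rfl]
      · intro j _ hj
        rw [mul_assoc, he.mul, if_neg hj, mul_zero]
      · intro hi; exact absurd (Finset.mem_univ k) hi
    have l2 : e k l * (∑ i, e i o * s * e o i) = e k o * s * e o l := by
      rw [Finset.mul_sum, Finset.sum_eq_single l]
      · rw [← mul_assoc, ← mul_assoc, he.mul, if_pos rfl]
      · intro j _ hj
        rw [← mul_assoc, ← mul_assoc, he.mul, if_neg (Ne.symm hj), zero_mul, zero_mul]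
      · intro hi; exact absurd (Finset.mem_univ l) hi
    exact l1.trans l2.symm

omit [PartialOrder A] [StarOrderedRing A] in
theorem ue_comm_le {s t t' : A} (hs : ‖s‖ ≤ 1) (hc : Commute s t') {η : ℝ}
    (hd : ‖t' - t‖ ≤ η) : ‖s * t - t * s‖ ≤ 2 * η := by
  have e : s * t - t * s = (t' - t) * s - s * (t' - t) := by
    rw [sub_mul, mul_sub, hc.eq]; abel
  rw [e]
  have n1 := norm_sub_le ((t' - t) * s) (s * (t' - t))
  have n2 := norm_mul_le (t' - t) s
  have n3 := norm_mul_le s (t' - t)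
  have := norm_nonneg (t' - t)
  nlinarith [norm_nonneg s]

theorem up_cmp0 (S : Sat G A) (h : IsUP β τB q S.γ S.τ) (hB : IsUHF B) {T0 : Set A}
    (hc : T0.Countable) (h0 : ∀ t ∈ T0, ∃ b, t = q (Bdd.const B b))
    (hF : ∀ y, y ∈ cent T0 ↔ ∀ b, Commute y (q (Bdd.const B b))) : CmpIn S.τ (cent T0) 1 := by
  classical
  intro p a hpC haC hp ha0 ha1 ⟨δ, hδ, hm⟩
  have hB' := hB
  obtain ⟨hnt, ⟨c⟩⟩ := hB'
  obtain ⟨s, hs1, hs2, hs3, -⟩ := S.sat_cmp (κ := Empty) Empty.elim hc p a (by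
    intro sk sT ε hT hε
    have hb : ∀ t : A, ∃ b, t ∈ T0 → t = q (Bdd.const B b) := by
      intro t
      by_cases ht : t ∈ T0
      · obtain ⟨b, hb⟩ := h0 t ht
        exact ⟨b, fun _ => hb⟩
      · exact ⟨0, fun h => absurd h ht⟩
    choose b hb using hb
    obtain ⟨k, hk⟩ := ue_near_fin c (sT.image b) (half_pos hε)
    let φ : Matrix (Fin (c.n k)) (Fin (c.n k)) ℂ →⋆ₐ[ℂ] A :=
      (q.comp (Bdd.const B)).comp (c.ι k)
    have hφ : ∀ M, φ M = q (Bdd.const B (c.ι k M)) := fun _ => rfl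
    have he := isMU_of_hom φ
    set e : Fin (c.n k) → Fin (c.n k) → A := fun i j => φ (Matrix.single i j 1) with hedef
    have : Nontrivial A := nontrivial_of_tr S.tr
    have hne : Nonempty (Fin (c.n k)) := by
      by_contra hn
      rw [not_nonempty_iff] at hn
      have := he.sum
      rw [Finset.univ_eq_empty, Finset.sum_empty] at this
      exact zero_ne_one this
    obtain ⟨o⟩ := hne
    have hN : (0 : ℝ) < (Fintype.card (Fin (c.n k)) : ℝ) := by
      exact_mod_cast Fintype.card_pos_iff.2 ⟨o⟩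
    have hpe : ∀ i j, Commute p (e i j) := fun i j => (hF p).1 hpC _
    have hae : ∀ i j, Commute a (e i j) := fun i j => (hF a).1 haC _
    have heo := he.proj o
    have hp' : IsStarProjection (p * e o o) := hp.mul heo (hpe o o)
    have ha0' : 0 ≤ a * e o o := (hae o o).mul_nonneg ha0 heo.nonneg
    have ha1' : a * e o o ≤ 1 := by
      have : 0 ≤ (1 - a) * e o o :=
        ((Commute.one_left _).sub_left (hae o o)).mul_nonneg (sub_nonneg.2 ha1) heo.nonneg
      rw [sub_mul, one_mul, sub_nonneg] at this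
      exact this.trans heo.le_one
    have htr : ∀ x : A, (∀ i j, Commute x (e i j)) →
        (S.τ (x * e o o)).re = (S.τ x).re / (Fintype.card (Fin (c.n k)) : ℝ) := by
      intro x hx
      rw [tr_mu S.tr he hx, if_pos rfl, ← Complex.ofReal_natCast, Complex.div_ofReal_re]
    have hm' : ∀ m : ℕ, 0 < m → (S.τ (p * e o o)).re + δ / (Fintype.card (Fin (c.n k)) : ℝ) ≤
        (S.τ ((a * e o o) ^ m)).re := by
      intro m hm0
      have e1 : (a * e o o) ^ m = a ^ m * e o o := by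
        rw [(hae o o).mul_pow, heo.isIdempotentElem.pow_eq hm0.ne']
      rw [e1, htr p hpe, htr _ fun i j => (hae i j).pow_left m, ← add_div]
      have := hm m
      rw [one_mul] at this
      exact div_le_div_of_nonneg_right this hN.le
    obtain ⟨s0, -, g1, g2, -⟩ := S.sat_cmp (κ := Empty) Empty.elim (T := ∅) Set.countable_empty
      (p * e o o) (a * e o o) (by
        intro sk' sT' ε' hT' hε'
        obtain ⟨s, g1, g2⟩ := up_cmp_approx h hB hp' ha0' ha1' (div_pos hδ hN) hm' hε'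
        exact ⟨s, g1, g2, fun k _ => k.elim, fun t ht => absurd (hT' ht) (Set.notMem_empty t)⟩)
    obtain ⟨r1, r2, r3⟩ := ue_spread he o hpe hae g1 g2
    set s : A := ∑ i, e i o * s0 * e o i with hsdef
    have hs1 : ‖s‖ ≤ 1 := norm_le_one_of_star_mul_self hp r1
    have hcm : ∀ M, Commute s (φ M) := by
      intro M
      rw [hom_eq_sum φ M]
      exact Commute.sum_right _ _ _ fun i _ => Commute.sum_right _ _ _ fun j _ =>
        (r3 i j).smul_right _
    refine ⟨s, by rw [r1, sub_self, norm_zero]; exact hε.le,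
      by rw [r2, sub_self, norm_zero]; exact hε.le, fun k _ => k.elim, fun t ht => ?_⟩
    obtain ⟨_, ⟨M, rfl⟩, hM⟩ := hk (b t) (Finset.mem_image_of_mem b ht)
    have hd : ‖φ M - t‖ ≤ ε / 2 := by
      rw [hb t (hT ht), hφ, ← map_sub, ← map_sub, h.ult.norm_const]
      exact hM
    have hd' : ‖φ (star M) - star t‖ ≤ ε / 2 := by
      rw [map_star, ← star_sub, norm_star]; exact hd
    have := ue_comm_le hs1 (hcm M) hd
    have := ue_comm_le hs1 (hcm (star M)) hd'
    constructor <;> linarith)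
  exact ⟨s, hs1, hs2, hs3⟩

end Pool.Agent.Izumi
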