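import Pool.Agent.Lib.MP_b2135d_an.UA
import Pool.Agent.Lib.MP_b2135d_an.UC
import Pool.Agent.Lib.MP_b2135d_an.UD
import Pool.Agent.Lib.MP_b2135d_an.UE

/-! The ultrapower is a saturated system (PLAN section 3). -/

namespace Pool.Agent.Izumi

open scoped ComplexOrder Matrix
open Filter Topology

section Aux

variable {B A : Type} [CStarAlgebra B] [CStarAlgebra A] {q : Bdd B →⋆ₐ[ℂ] A}

theorem commute_const_of_dense_UF (q : Bdd B →⋆ₐ[ℂ] A) {y : A} {s : Set B} (hs : Dense s)
    (hy : ∀ b ∈ s, Commute y (q (Bdd.const B b))) (b : B) : Commute y (q (Bdd.const B b)) := by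
  have hc : Continuous fun b : B => q (Bdd.const B b) := hom_continuous (q.comp (Bdd.const B))
  have hcl : IsClosed {b : B | y * q (Bdd.const B b) = q (Bdd.const B b) * y} :=
    isClosed_eq (continuous_const.mul hc) (hc.mul continuous_const)
  have h1 : closure s ⊆ {b : B | y * q (Bdd.const B b) = q (Bdd.const B b) * y} :=
    closure_minimal (fun b hb => hy b hb) hcl
  exact h1 (hs b)

theorem commute_const_of_tendsto_UF (h : IsUlt q) (x : Bdd B) (b : B)
    (hb : Tendsto (fun n => ‖x.1 n * b - b * x.1 n‖) atTop (𝓝 0)) :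
    Commute (q x) (q (Bdd.const B b)) := by
  have h1 : q (x * Bdd.const B b) = q (Bdd.const B b * x) :=
    (h.eq_iff _ _).2 (hb.mono_left Nat.hyperfilter_le_atTop)
  rw [map_mul, map_mul] at h1
  exact h1

end Aux

variable {G B A : Type} [Group G] [CStarAlgebra B] [PartialOrder B] [StarOrderedRing B]
  [CStarAlgebra A] [PartialOrder A] [StarOrderedRing A] {q : Bdd B →⋆ₐ[ℂ] A}
  {β : G →* (B ≃⋆ₐ[ℂ] B)} {τB : B →ₚ[ℂ] ℂ}

theorem up_div0 (h : IsUlt q) (hB : IsUniversalUHF B) (n : ℕ) (hn : 0 < n) :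
    ∃ e : Fin n → Fin n → A, IsMU e ∧ ∀ i j b, Commute (e i j) (q (Bdd.const B b)) := by
  have hnt : Nontrivial B := hB.1
  obtain ⟨c, hu⟩ := hB.exists_chain
  choose e he hc using fun k => div_rel c hu k n hn
  let E : Fin n → Fin n → Bdd B := fun i j => ⟨fun k => e k i j, 1, fun k => (he k).norm_le i j⟩
  have hE : ∀ i j k, (E i j).1 k = e k i j := fun _ _ _ => rfl
  refine ⟨fun i j => q (E i j), ⟨fun i j k l => ?_, fun i j => ?_, ?_⟩, fun i j => ?_⟩
  · rw [← map_mul]
    by_cases hjk : j = k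
    · rw [if_pos hjk]
      refine congrArg q (Subtype.ext (funext fun m => ?_))
      have h1 := (he m).mul i j k l
      rw [if_pos hjk] at h1
      exact h1
    · rw [if_neg hjk, ← map_zero q]
      refine congrArg q (Subtype.ext (funext fun m => ?_))
      have h1 := (he m).mul i j k l
      rw [if_neg hjk] at h1
      exact h1
  · rw [← map_star]
    exact congrArg q (Subtype.ext (funext fun m => (he m).star i j))
  · rw [← map_sum, ← map_one q]
    refine congrArg q (Subtype.ext (funext fun m => ?_))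
    have h1 : ((∑ i, E i i : Bdd B) : ℕ → B) = ∑ i, ((E i i : Bdd B) : ℕ → B) :=
      map_sum (Bdd B).subtype _ _
    rw [h1, Finset.sum_apply]
    exact (he m).sum
  · refine commute_const_of_dense_UF q c.dense fun b hb => ?_
    obtain ⟨k, hk⟩ := Set.mem_iUnion.1 hb
    refine commute_const_of_tendsto_UF h _ b (tendsto_const_nhds.congr' ?_)
    filter_upwards [eventually_ge_atTop k] with m hm
    obtain ⟨M, rfl⟩ := c.mono_le hm hk
    rw [hE, (hc m i j M).eq, sub_self, norm_zero]

theorem up_free {γ : G →* (A ≃⋆ₐ[ℂ] A)} {τ : A →ₚ[ℂ] ℂ} (h : IsUP β τB q γ τ) (hB : IsUHF B)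
    {g : G} (hg : Free τB (β g)) :
    ∃ p : A, IsStarProjection p ∧ (∀ b, Commute p (q (Bdd.const B b))) ∧
      (τ (p * γ g p)).re < (τ p).re := by
  classical
  have hsep := hB.separable
  obtain ⟨d, hd⟩ := TopologicalSpace.exists_dense_seq B
  obtain ⟨δ, hδ, hg⟩ := hg
  choose p hp hc ht using fun n : ℕ =>
    hg ((Finset.range (n + 1)).image d) (1 / ((n : ℝ) + 1)) Nat.one_div_pos_of_nat
  let x : Bdd B := ⟨p, 1, fun n => (hp n).norm_le⟩
  have hx : ∀ n, x.1 n = p n := fun _ => rfl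
  refine ⟨q x, ⟨?_, ?_⟩, ?_, ?_⟩
  · show q x * q x = q x
    rw [← map_mul]
    exact congrArg q (Subtype.ext (funext fun n => (hp n).isIdempotentElem.eq))
  · show star (q x) = q x
    rw [← map_star]
    exact congrArg q (Subtype.ext (funext fun n => (hp n).isSelfAdjoint.star_eq))
  · refine commute_const_of_dense_UF q hd fun b hb => ?_
    obtain ⟨k, rfl⟩ := hb
    refine commute_const_of_tendsto_UF h.ult _ _ ?_
    refine squeeze_zero' (Eventually.of_forall fun _ => norm_nonneg _) ?_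
      tendsto_one_div_add_atTop_nhds_zero_nat
    filter_upwards [eventually_ge_atTop k] with m hm
    exact hc m _ (Finset.mem_image_of_mem d (Finset.mem_range.2 (Nat.lt_succ_of_le hm)))
  · rw [h.act, ← map_mul]
    have h1 := (Complex.continuous_re.tendsto _).comp
      (h.tr (x * Bdd.map (β g : B →⋆ₐ[ℂ] B) x))
    have h2 := (Complex.continuous_re.tendsto _).comp (h.tr x)
    have h3 := le_of_tendsto_of_tendsto' (h1.add_const δ) h2 fun n => ht n
    linarith

theorem exists_UP [Countable G] (hB : IsUniversalUHF B) (β : G →* (B ≃⋆ₐ[ℂ] B))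
    (τB : B →ₚ[ℂ] ℂ) (hτ : IsTracialState τB) (hfree : ∀ g, g ≠ 1 → Free τB (β g))
    (hfoel : ∀ K : Subgroup G, Foel K) :
    ∃ (A : Type) (_ : CStarAlgebra A) (_ : PartialOrder A) (_ : StarOrderedRing A) (X : Sys G A)
      (q : Bdd B →⋆ₐ[ℂ] A), IsUP β τB q X.γ X.τ ∧
        ∀ y, y ∈ X.F ↔ ∀ b, Commute y (q (Bdd.const B b)) := by
  obtain ⟨A, instA, q, hq⟩ := exists_ult B
  let instP : PartialOrder A := CStarAlgebra.spectralOrder A
  have instS : StarOrderedRing A := CStarAlgebra.spectralOrderedRing A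
  have hU := hB.isUHF
  obtain ⟨γ, τ, hup, htr, hinv⟩ := hq.exists_up β τB hτ fun g x => hU.tr_aut hτ (β g) x
  have hsep := hU.separable
  obtain ⟨d, hd⟩ := TopologicalSpace.exists_dense_seq B
  let S : Sat G A := ⟨τ, htr, γ, hinv, hup.saturated⟩
  let T0 : Set A := orb γ (Set.range fun n => q (Bdd.const B (d n)))
  have hc : T0.Countable := countable_orb γ (Set.countable_range _)
  have hi : ∀ g, ∀ t ∈ T0, γ g t ∈ T0 := fun g t ht => act_mem_orb γ g ht
  have h0 : ∀ t ∈ T0, ∃ b, t = q (Bdd.const B b) := by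
    rintro t ⟨g, _, ⟨n, rfl⟩, rfl⟩
    exact ⟨β g (d n), hup.act g _⟩
  have hF : ∀ y, y ∈ cent T0 ↔ ∀ b, Commute y (q (Bdd.const B b)) := by
    intro y
    rw [mem_cent]
    constructor
    · intro hy
      refine commute_const_of_dense_UF q hd fun b hb => ?_
      obtain ⟨n, rfl⟩ := hb
      exact (hy _ (subset_orb γ _ ⟨n, rfl⟩)).1
    · intro hy t ht
      obtain ⟨b, rfl⟩ := h0 t ht
      refine ⟨hy b, ?_⟩
      rw [← map_star, ← map_star]
      exact hy _
  let X : Sys G A :=
    { toSat := S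
      T0 := T0
      T0_count := hc
      T0_inv := hi
      ic := fun S₀ T hS hT hSF => up_ic S hup hU hc hi hF S₀ T hS hT hSF
      cmp0 := up_cmp0 S hup hU hc h0 hF
      div0 := fun n hn => by
        obtain ⟨e, he, hec⟩ := up_div0 hq hB n hn
        exact ⟨e, he, fun i j => (hF _).2 (hec i j)⟩
      free := fun g hg => by
        obtain ⟨p, hp, hpc, hpt⟩ := up_free hup hU (hfree g hg)
        exact ⟨p, (hF _).2 hpc, hp, hpt⟩
      foel := hfoel }
  exact ⟨A, instA, instP, instS, X, q, hup, hF⟩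

end Pool.Agent.Izumi
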