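import Pool.Agent.Lib.MP_b2135d_an.OA
import Pool.Agent.Lib.MP_b2135d_an.UF
import Pool.Agent.Lib.MP_b2135d_an.AB
import Pool.Agent.Lib.MP_b2135d_an.CoreMain

/-! The first factor embedding is a cocycle conjugacy (PLAN section 12). -/

namespace Pool.Agent.Izumi

open scoped ComplexOrder
open Filter Topology

variable {G A D B : Type} [Group G] [CStarAlgebra A] [PartialOrder A] [StarOrderedRing A]
  [CStarAlgebra D] [CStarAlgebra B] [PartialOrder B] [StarOrderedRing B]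

theorem free_prod (hA : IsUHF A) {τA : A →ₚ[ℂ] ℂ} (htA : IsTracialState τA) {τB : B →ₚ[ℂ] ℂ}
    (htB : IsTracialState τB) (ι₁ : A →⋆ₐ[ℂ] B) (ι₂ : D →⋆ₐ[ℂ] B)
    (hc : ∀ x y, Commute (ι₁ x) (ι₂ y))
    (hd : Dense (Submodule.span ℂ {z : B | ∃ x y, z = ι₁ x * ι₂ y} : Set B)) {θA : A ≃⋆ₐ[ℂ] A}
    {θB : B ≃⋆ₐ[ℂ] B} (he : ∀ x, ι₁ (θA x) = θB (ι₁ x)) (hf : Free τA θA) : Free τB θB := by
  obtain ⟨δ, hδ, hf⟩ := hf
  refine ⟨δ, hδ, fun s ε hε => ?_⟩
  classical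
  have key : ∀ b : B, ∃ (t : Finset A) (η : ℝ), 0 < η ∧ ∀ p : A, IsStarProjection p →
      (∀ a ∈ t, ‖p * a - a * p‖ ≤ η) → ‖ι₁ p * b - b * ι₁ p‖ ≤ ε := by
    intro b
    obtain ⟨z, hz, hzb⟩ := hd.exists_dist_lt b (by positivity : 0 < ε / 4)
    have hsp : ∀ z ∈ Submodule.span ℂ {z : B | ∃ x y, z = ι₁ x * ι₂ y}, ∀ ε' : ℝ, 0 < ε' →
        ∃ (t : Finset A) (η : ℝ), 0 < η ∧ ∀ p : A,
          (∀ a ∈ t, ‖p * a - a * p‖ ≤ η) → ‖ι₁ p * z - z * ι₁ p‖ ≤ ε' := by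
      intro z hz
      induction hz using Submodule.span_induction with
      | mem z hz =>
        intro ε' hε'
        obtain ⟨x, y, rfl⟩ := hz
        refine ⟨{x}, ε' / (‖ι₂ y‖ + 1), by positivity, fun p hp => ?_⟩
        have e : ι₁ p * (ι₁ x * ι₂ y) - ι₁ x * ι₂ y * ι₁ p = ι₁ (p * x - x * p) * ι₂ y := by
          rw [mul_assoc, ← (hc p y).eq, map_sub, map_mul, map_mul]; noncomm_ring
        rw [e]
        calc _ ≤ ‖ι₁ (p * x - x * p)‖ * ‖ι₂ y‖ := norm_mul_le _ _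
          _ ≤ ε' / (‖ι₂ y‖ + 1) * (‖ι₂ y‖ + 1) :=
            mul_le_mul ((NonUnitalStarAlgHom.norm_apply_le ι₁ _).trans
              (hp x (Finset.mem_singleton_self x))) (by linarith) (norm_nonneg _) (by positivity)
          _ = ε' := by field_simp
      | zero => exact fun ε' hε' => ⟨∅, 1, one_pos, fun p _ => by simpa using hε'.le⟩
      | add z w _ _ hz hw =>
        intro ε' hε'
        obtain ⟨t, η, hη, h⟩ := hz (ε' / 2) (by positivity)
        obtain ⟨t', η', hη', h'⟩ := hw (ε' / 2) (by positivity)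
        refine ⟨t ∪ t', min η η', lt_min hη hη', fun p hp => ?_⟩
        have e : ι₁ p * (z + w) - (z + w) * ι₁ p = (ι₁ p * z - z * ι₁ p) + (ι₁ p * w - w * ι₁ p) := by
          noncomm_ring
        rw [e]
        have h1 := h p fun a ha => (hp a (Finset.mem_union_left _ ha)).trans (min_le_left _ _)
        have h2 := h' p fun a ha => (hp a (Finset.mem_union_right _ ha)).trans (min_le_right _ _)
        linarith [norm_add_le (ι₁ p * z - z * ι₁ p) (ι₁ p * w - w * ι₁ p)]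
      | smul c z _ hz =>
        intro ε' hε'
        obtain ⟨t, η, hη, h⟩ := hz (ε' / (‖c‖ + 1)) (by positivity)
        refine ⟨t, η, hη, fun p hp => ?_⟩
        have e : ι₁ p * (c • z) - (c • z) * ι₁ p = c • (ι₁ p * z - z * ι₁ p) := by
          rw [mul_smul_comm, smul_mul_assoc, smul_sub]
        rw [e, norm_smul]
        calc _ ≤ (‖c‖ + 1) * (ε' / (‖c‖ + 1)) :=
            mul_le_mul (by linarith) (h p hp) (norm_nonneg _) (by positivity)
          _ = ε' := by field_simp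
    obtain ⟨t, η, hη, h⟩ := hsp z hz (ε / 2) (by positivity)
    refine ⟨t, η, hη, fun p hp hpt => ?_⟩
    have hn : ‖ι₁ p‖ ≤ 1 := (NonUnitalStarAlgHom.norm_apply_le ι₁ _).trans hp.norm_le
    have e : ι₁ p * b - b * ι₁ p =
        (ι₁ p * z - z * ι₁ p) + (ι₁ p * (b - z) - (b - z) * ι₁ p) := by noncomm_ring
    rw [dist_eq_norm] at hzb
    have h1 : ‖ι₁ p * (b - z)‖ ≤ ε / 4 := (norm_mul_le _ _).trans (by
      nlinarith [norm_nonneg (ι₁ p), norm_nonneg (b - z)])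
    have h2 : ‖(b - z) * ι₁ p‖ ≤ ε / 4 := (norm_mul_le _ _).trans (by
      nlinarith [norm_nonneg (ι₁ p), norm_nonneg (b - z)])
    rw [e]
    linarith [norm_add_le (ι₁ p * z - z * ι₁ p) (ι₁ p * (b - z) - (b - z) * ι₁ p),
      norm_sub_le (ι₁ p * (b - z)) ((b - z) * ι₁ p), h p hpt]
  choose t η hη ht using key
  obtain ⟨η₀, hη₀, hle⟩ : ∃ η₀ : ℝ, 0 < η₀ ∧ ∀ b ∈ s, η₀ ≤ η b := by
    induction s using Finset.induction_on with
    | empty => exact ⟨1, one_pos, by simp⟩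
    | insert b s _ ih =>
      obtain ⟨η₀, h0, h1⟩ := ih
      refine ⟨min η₀ (η b), lt_min h0 (hη b), fun c hc => ?_⟩
      rcases Finset.mem_insert.1 hc with rfl | hc
      · exact min_le_right _ _
      · exact (min_le_left _ _).trans (h1 c hc)
  obtain ⟨p, hp, hpc, hpt⟩ := hf (s.biUnion t) η₀ hη₀
  refine ⟨ι₁ p, hp.map ι₁, fun b hb => ht b p hp fun a ha =>
    (hpc a (Finset.mem_biUnion.2 ⟨b, hb, ha⟩)).trans (hle b hb), ?_⟩
  rw [← he, ← map_mul, hA.tr_comp htA htB, hA.tr_comp htA htB]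
  exact hpt

theorem half [Countable G] (hG : ElemAmenable G) (htf : ∀ g : G, IsOfFinOrder g → g = 1)
    (hA : IsUniversalUHF A) (hD : IsUHF D) (hB : IsUniversalUHF B) (α : G →* (A ≃⋆ₐ[ℂ] A))
    (δ : G →* (D ≃⋆ₐ[ℂ] D)) (β : G →* (B ≃⋆ₐ[ℂ] B)) {τA : A →ₚ[ℂ] ℂ} (htA : IsTracialState τA)
    {τB : B →ₚ[ℂ] ℂ} (htB : IsTracialState τB) (fA : ∀ g, g ≠ 1 → Free τA (α g))
    (fB : ∀ g, g ≠ 1 → Free τB (β g)) (ι₁ : A →⋆ₐ[ℂ] B) (ι₂ : D →⋆ₐ[ℂ] B)
    (e₁ : ∀ g x, ι₁ (α g x) = β g (ι₁ x)) (e₂ : ∀ g x, ι₂ (δ g x) = β g (ι₂ x))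
    (hc : ∀ x y, Commute (ι₁ x) (ι₂ y))
    (hd : Dense (Submodule.span ℂ {z : B | ∃ x y, z = ι₁ x * ι₂ y} : Set B)) :
    CocycleConjugate β α := by
  classical
  obtain ⟨A', _, _, _, XA, qA, hqA, hFA⟩ := exists_UP hA α τA htA fA hG.foel
  obtain ⟨B', _, _, _, XB, qB, hqB, -⟩ := exists_UP hB β τB htB fB hG.foel
  obtain ⟨φ, hφF, hφ⟩ := (XA.good_top hG htf).2.1 D hD (δ.comp (⊤ : Subgroup G).subtype)
  obtain ⟨J, hJ⟩ := hqA.ult.exists_map hqB.ult ι₁
  have hJc : ∀ a, J (qA (Bdd.const A a)) = qB (Bdd.const B (ι₁ a)) := fun a => hJ _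
  have hJγ : ∀ g y, J (XA.γ g y) = XB.γ g (J y) := by
    intro g y
    obtain ⟨x, rfl⟩ := hqA.ult.surj y
    rw [hqA.act, hJ, hJ, hqB.act]
    exact congrArg qB (Subtype.ext (funext fun n => e₁ g (x.1 n)))
  have := hA.isUHF.separable
  have := hB.isUHF.separable
  have := hB.1
  obtain ⟨s₀, hs₀, hs₀d⟩ := TopologicalSpace.exists_countable_dense A
  let c : A →⋆ₐ[ℂ] B' := (qB.comp (Bdd.const B)).comp ι₁
  have hcent : ∀ y : B', (∀ a, Commute y (c a)) → y ∈ cent (c '' s₀) := by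
    intro y hy
    rw [mem_cent]
    rintro _ ⟨a, -, rfl⟩
    exact ⟨hy a, by rw [← map_star]; exact hy _⟩
  obtain ⟨u, hu, huF, huT, huc⟩ := (XB.good_top hG htf).2.2 D hD
    (δ.comp (⊤ : Subgroup G).subtype) (c '' s₀) (hs₀.image _) (J.comp φ)
    ((qB.comp (Bdd.const B)).comp ι₂)
    (fun x => hcent _ fun a => by
      have := ((hFA _).1 (hφF x) a).map J
      rwa [hJc] at this)
    (fun x => hcent _ fun a => ((hc a x).symm.map (Bdd.const B)).map qB)
    (fun h x => by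
      change J (φ _) = XB.γ h (J (φ x))
      rw [hφ, hJγ])
    (fun h x => by
      change qB (Bdd.const B (ι₂ (δ h x))) = XB.γ h (qB (Bdd.const B (ι₂ x)))
      rw [hqB.act, e₂]; rfl)
  have huc' : ∀ a, Commute u (c a) := by
    intro a
    refine hs₀d.induction (P := fun a => Commute u (c a)) (fun a ha => ?_) ?_ a
    · exact (mem_cent.1 huT _ ⟨a, ha, rfl⟩).1
    · exact isClosed_eq (continuous_const.mul (hom_continuous c))
        ((hom_continuous c).mul continuous_const)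
  have hsu : star u * u = 1 := (Unitary.mem_iff.1 hu).1
  have hus : u * star u = 1 := (Unitary.mem_iff.1 hu).2
  have hspan : ∀ z ∈ Submodule.span ℂ {z : B | ∃ x y, z = ι₁ x * ι₂ y},
      ∃ w : A', star u * qB (Bdd.const B z) * u = J w := by
    intro z hz
    induction hz using Submodule.span_induction with
    | mem z hz =>
      obtain ⟨x, y, rfl⟩ := hz
      refine ⟨qA (Bdd.const A x) * φ y, ?_⟩
      have h1 : qB (Bdd.const B (ι₂ y)) = u * J (φ y) * star u := (huc y).symm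
      have h2 : qB (Bdd.const B (ι₁ x)) * u = u * qB (Bdd.const B (ι₁ x)) := (huc' x).eq.symm
      rw [map_mul, map_mul, map_mul, hJc, h1]
      calc _ = star u * (qB (Bdd.const B (ι₁ x)) * u) * J (φ y) * (star u * u) := by noncomm_ring
        _ = _ := by rw [h2, hsu, mul_one, ← mul_assoc, hsu, one_mul]
    | zero => exact ⟨0, by simp⟩
    | add z w _ _ hz hw =>
      obtain ⟨a, ha⟩ := hz
      obtain ⟨b, hb⟩ := hw
      exact ⟨a + b, by rw [map_add, map_add, mul_add, add_mul, ha, hb, map_add]⟩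
    | smul k z _ hz =>
      obtain ⟨a, ha⟩ := hz
      exact ⟨k • a, by rw [map_smul, map_smul, mul_smul_comm, smul_mul_assoc, ha, map_smul]⟩
  obtain ⟨z, hz, hzu⟩ := hqB.ult.exists_unitary_lift hu
  refine osi ι₁ ?_ e₁ fun sA sB sG ε hε => ?_
  · intro x y hxy
    have := hA.isUHF.norm_hom ι₁ (x - y)
    rw [map_sub, hxy, sub_self, norm_zero] at this
    exact sub_eq_zero.1 (norm_eq_zero.1 this.symm)
  have E1 : ∀ a : A, ∀ᶠ n in (hyperfilter ℕ : Filter ℕ), ‖z.1 n * ι₁ a - ι₁ a * z.1 n‖ ≤ ε := by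
    intro a
    have h0 : ‖qB (z * Bdd.const B (ι₁ a) - Bdd.const B (ι₁ a) * z)‖ < ε := by
      rw [map_sub, map_mul, map_mul, hz]
      have := (huc' a).eq
      change u * qB (Bdd.const B (ι₁ a)) = qB (Bdd.const B (ι₁ a)) * u at this
      rwa [this, sub_self, norm_zero]
    exact (hqB.ult.eventually_lt _ h0).mono fun n hn => hn.le
  have E2 : ∀ b : B, ∀ᶠ n in (hyperfilter ℕ : Filter ℕ),
      ∃ a, ‖star (z.1 n) * b * z.1 n - ι₁ a‖ ≤ ε := by
    intro b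
    obtain ⟨b', hb', hbb⟩ := hd.exists_dist_lt b hε
    obtain ⟨w, hw⟩ := hspan b' hb'
    obtain ⟨x, rfl⟩ := hqA.ult.surj w
    have h0 : ‖qB (star z * Bdd.const B b * z - Bdd.map ι₁ x)‖ < ε := by
      rw [map_sub, map_mul, map_mul, map_star, hz, ← hJ, ← hw, ← sub_mul, ← mul_sub, ← map_sub,
        ← map_sub, CStarRing.norm_mul_mem_unitary _ hu,
        CStarRing.norm_mem_unitary_mul _ (Unitary.star_mem hu), hqB.ult.norm_const]
      rwa [dist_eq_norm] at hbb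
    exact (hqB.ult.eventually_lt _ h0).mono fun n hn => ⟨x.1 n, hn.le⟩
  have E3 : ∀ g : G, ∀ᶠ n in (hyperfilter ℕ : Filter ℕ), ‖β g (z.1 n) - z.1 n‖ ≤ ε := by
    intro g
    have h0 : ‖qB (Bdd.map (β g : B →⋆ₐ[ℂ] B) z - z)‖ < ε := by
      rw [map_sub, ← hqB.act, hz, huF g trivial, sub_self, norm_zero]
      exact hε
    exact (hqB.ult.eventually_lt _ h0).mono fun n hn => hn.le
  obtain ⟨n, h1, h2, h3⟩ := (((Finset.eventually_all sA).2 fun a _ => E1 a).and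
    (((Finset.eventually_all sB).2 fun b _ => E2 b).and
      ((Finset.eventually_all sG).2 fun g _ => E3 g))).exists
  exact ⟨z.1 n, hzu n, h1, h2, h3⟩

end Pool.Agent.Izumi
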