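import Pool.Agent.Lib.MP_b2135d_an.RD

/-! Cuntz classes in `D`: homomorphisms, products, fullness, domination. -/

namespace Pool.Agent.Izumi

open scoped ComplexOrder
open Pool.Agent.Lib.MP_f90f6c_an.H50

variable {D : Type} [CStarAlgebra D] [PartialOrder D] [StarOrderedRing D]

omit [PartialOrder D] [StarOrderedRing D] in
theorem r1_map_smul (p : D →⋆ₐ[ℂ] D) (c : ℝ) (x : D) : p (c • x) = c • p x := by
  rw [← Complex.coe_smul, map_smul, Complex.coe_smul]

theorem r1_commute (S : DData D) (χ : D →⋆ₐ[ℂ] D) {b : D} (h₁ : ∀ x, Commute (χ (S.al x)) b)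
    (h₂ : ∀ x, Commute (χ (S.be x)) b) (y : D) : Commute (χ y) b := by
  have hχ : Continuous χ := map_continuous χ
  have hcl : IsClosed {z : D | χ z * b = b * χ z} := isClosed_eq (by fun_prop) (by fun_prop)
  refine hcl.closure_subset_iff.2 ?_ (S.dense y)
  intro z hz
  change Commute (χ z) b
  induction hz using Submodule.span_induction with
  | mem z hz =>
    obtain ⟨x, x', rfl⟩ := hz
    rw [map_mul]
    exact (h₁ x).mul_left (h₂ x')
  | zero =>
    rw [map_zero]
    exact Commute.zero_left b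
  | add z z' _ _ hz hz' =>
    rw [map_add]
    exact hz.add_left hz'
  | smul c z _ hz =>
    rw [map_smul]
    exact hz.smul_left c

theorem csub_of_cls1_le {x y : D} (hx : 0 ≤ x) (hy : 0 ≤ y) (h : cls1 x ≤ cls1 y) : CSub x y := by
  have h1 : MSub (oneBy x) (oneBy y) := (cls_le_cls (oneBy_nonneg hx) (oneBy_nonneg hy)).1 h
  have h2 : Continuous fun m : Matrix Unit Unit D => m () () :=
    continuous_id.matrix_elem () ()
  refine map_mem_closure (f := fun m : Matrix Unit Unit D => m () ()) h2 h1 ?_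
  rintro _ ⟨v, rfl⟩
  exact ⟨v () (), by simp [Matrix.mul_apply]⟩

theorem cls1_le_u {x : D} (hx : 0 ≤ x) : cls1 x ≤ W.u D := by
  have := cls_le_card (oneBy_nonneg hx)
  rwa [Fintype.card_unit, one_smul] at this

theorem cls1_zero : cls1 (0 : D) = 0 := by
  rw [cls1, map_zero, cls_zero]

theorem cls1_mono {x y : D} (hx : 0 ≤ x) (h : x ≤ y) : cls1 x ≤ cls1 y := by
  exact cls1_le hx (hx.trans h) (CSub.of_le hx h)

theorem cls1_sum_le {ι : Type} (s : Finset ι) {x : ι → D} (hx : ∀ i ∈ s, 0 ≤ x i) :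
    cls1 (∑ i ∈ s, x i) ≤ ∑ i ∈ s, cls1 (x i) := by
  classical
  induction s using Finset.induction_on with
  | empty => simp [cls1_zero]
  | insert a s ha ih =>
    rw [Finset.sum_insert ha, Finset.sum_insert ha]
    have h1 : ∀ i ∈ s, 0 ≤ x i := fun i hi => hx i (Finset.mem_insert_of_mem hi)
    refine (cls1_add_le (hx a (Finset.mem_insert_self a s)) (Finset.sum_nonneg h1)).trans ?_
    exact add_le_add le_rfl (ih h1)

theorem cls1_sum_of_orth {ι : Type} (s : Finset ι) {x : ι → D} (hx : ∀ i ∈ s, 0 ≤ x i)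
    (ho : ∀ i ∈ s, ∀ j ∈ s, i ≠ j → x i * x j = 0) :
    ∑ i ∈ s, cls1 (x i) ≤ cls1 (∑ i ∈ s, x i) := by
  classical
  induction s using Finset.induction_on with
  | empty => simp [cls1_zero]
  | insert a s ha ih =>
    rw [Finset.sum_insert ha, Finset.sum_insert ha]
    have h1 : ∀ i ∈ s, 0 ≤ x i := fun i hi => hx i (Finset.mem_insert_of_mem hi)
    have h2 := ih h1 fun i hi j hj hij =>
      ho i (Finset.mem_insert_of_mem hi) j (Finset.mem_insert_of_mem hj) hij
    refine (add_le_add le_rfl h2).trans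
      (cls1_add_of_orth (hx a (Finset.mem_insert_self a s)) (Finset.sum_nonneg h1) ?_)
    rw [Finset.mul_sum]
    refine Finset.sum_eq_zero fun j hj => ho a (Finset.mem_insert_self a s) j
      (Finset.mem_insert_of_mem hj) ?_
    rintro rfl
    exact ha hj

/-- If `a ≤ q + t` then the cut-down of `a` at `t` is dominated by `q`. -/
theorem csub_cut_of_le {a q : D} (ha : IsSelfAdjoint a) (hq : 0 ≤ q) {t : ℝ}
    (h : a ≤ q + t • (1 : D)) : CSub (cut t a) q := by
  have hf : Continuous fun s : ℝ => max (s - t) 0 := by fun_prop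
  have hg : Continuous fun s : ℝ => max (s - t) 0 * (s - t) * max (s - t) 0 := by fun_prop
  have hg0 : ∀ s : ℝ, 0 ≤ max (s - t) 0 * (s - t) * max (s - t) 0 := by
    intro s
    rcases le_total (s - t) 0 with h0 | h0
    · simp [max_eq_right h0]
    · rw [max_eq_left h0]
      positivity
  have h1 : CSub (cut t a) (cfc (fun s : ℝ => max (s - t) 0 * (s - t) * max (s - t) 0) a) := by
    refine CSub.cfc_supp ha hf hg (fun s _ => le_max_right _ _) (fun s _ => hg0 s) ?_
    intro s _ hs
    rcases le_total (s - t) 0 with h0 | h0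
    · exact max_eq_right h0
    · rw [max_eq_left h0] at hs ⊢
      simpa using hs
  have h2 : cfc (fun s : ℝ => s - t) a = a - t • (1 : D) := by
    rw [cfc_sub _ _ a (by fun_prop) (by fun_prop), cfc_id' ℝ a, cfc_const t a,
      Algebra.algebraMap_eq_smul_one]
  have h3 : cfc (fun s : ℝ => max (s - t) 0 * (s - t) * max (s - t) 0) a =
      cut t a * (a - t • (1 : D)) * star (cut t a) := by
    rw [← h2, cut, star_cfc, cfc_mul_cfc hf (by fun_prop), cfc_mul_cfc (by fun_prop) hf]
  refine h1.trans ((CSub.of_le (cfc_nonneg fun s _ => hg0 s) ?_).trans (CSub.conj (cut t a) q))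
  rw [h3]
  exact star_right_conjugate_le_conjugate (sub_le_iff_le_add.2 h) _

/-- The product lemma. -/
theorem cls1_prod_le (p : D →⋆ₐ[ℂ] D) {c : D} (hc : 0 ≤ c) (hpc : ∀ x, Commute (p x) c)
    {x y : D} (hx : 0 ≤ x) (hy : 0 ≤ y) {N M : ℕ} (h : N • cls1 x ≤ M • cls1 y) :
    N • cls1 (p x * c) ≤ M • cls1 (p y * c) := by
  have hxc : 0 ≤ p x * c := Commute.mul_nonneg (map_nonneg p hx) hc (hpc x)
  have hyc : 0 ≤ p y * c := Commute.mul_nonneg (map_nonneg p hy) hc (hpc y)
  rw [← cls_diagonal_fin hx, ← cls_diagonal_fin hy,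
    cls_le_cls (diagonal_nonneg hx) (diagonal_nonneg hy)] at h
  rw [← cls_diagonal_fin hxc, ← cls_diagonal_fin hyc,
    cls_le_cls (diagonal_nonneg hxc) (diagonal_nonneg hyc)]
  have hp : Continuous p := map_continuous p
  have hcont : Continuous fun m : Matrix (Fin N) (Fin N) D =>
      (Matrix.of fun i j => p (m i j) * c : Matrix (Fin N) (Fin N) D) :=
    continuous_matrix fun i j => (hp.comp (continuous_id.matrix_elem i j)).mul continuous_const
  have h1 := map_mem_closure hcont h
    (t := {z | ∃ v : Matrix (Fin N) (Fin M) D,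
      z = v * (Matrix.diagonal fun _ : Fin M => p y * c) * v.conjTranspose}) (by
      rintro _ ⟨v, rfl⟩
      refine ⟨v.map p, ?_⟩
      ext i j
      simp only [Matrix.of_apply, Matrix.mul_apply (N := Matrix.conjTranspose _),
        Matrix.mul_diagonal, Matrix.conjTranspose_apply, Matrix.map_apply, map_sum, map_mul,
        Finset.sum_mul]
      refine Finset.sum_congr rfl fun k _ => ?_
      rw [← map_star, mul_assoc, (hpc _).eq]
      simp only [mul_assoc])
  have h2 : (Matrix.of fun i j => p ((Matrix.diagonal fun _ : Fin N => x) i j) * c :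
      Matrix (Fin N) (Fin N) D) = Matrix.diagonal fun _ : Fin N => p x * c := by
    ext i j
    by_cases hij : i = j <;> simp [Matrix.diagonal_apply, hij]
  rw [h2] at h1
  exact h1

theorem exists_conj_eq_one {y : D} (hy : 0 ≤ y) (h : W.u D ≤ cls1 y) :
    ∃ s : D, star s * y * s = 1 := by
  have h1 : MSub (oneBy (1 : D)) (oneBy y) :=
    (cls_le_cls (oneBy_nonneg zero_le_one) (oneBy_nonneg hy)).1 h
  rw [map_one] at h1
  obtain ⟨V, hV⟩ := h1.exists_conj_eq_one (oneBy_nonneg hy)
  refine ⟨star (V () ()), ?_⟩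
  have := congrFun (congrFun hV ()) ()
  simpa [Matrix.mul_apply] using this

namespace RData

variable (S : RData D)

include S in
theorem cls1_hom (p : D →⋆ₐ[ℂ] D) {x : D} (hx : 0 ≤ x) : cls1 (p x) = cls1 x := by
  have hpx : 0 ≤ p x := map_nonneg p hx
  refine le_antisymm (cls1_le hpx hx (CSub.of_forall fun ε hε => ?_))
    (cls1_le hx hpx (CSub.of_forall fun ε hε => ?_))
  · obtain ⟨u, -, hu⟩ := S.au p {x} (ε / 2) (half_pos hε)
    refine ⟨u * x * star u, CSub.conj u x, ?_⟩
    rw [norm_sub_rev]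
    exact (hu x (Finset.mem_singleton_self x)).trans_lt (half_lt_self hε)
  · obtain ⟨u, hu1, hu⟩ := S.au p {x} (ε / 2) (half_pos hε)
    refine ⟨star u * p x * star (star u), CSub.conj (star u) (p x), ?_⟩
    have h1 : x - star u * p x * star (star u) = star u * (u * x * star u - p x) * u := by
      have e1 : star u * u = 1 := hu1.1
      rw [star_star, mul_sub, sub_mul]
      congr 1
      calc x = (star u * u) * x * (star u * u) := by rw [e1, one_mul, mul_one]
        _ = star u * (u * x * star u) * u := by simp only [mul_assoc]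
    rw [h1, CStarRing.norm_mul_mem_unitary _ hu1,
      CStarRing.norm_mem_unitary_mul _ (Unitary.star_mem hu1)]
    exact (hu x (Finset.mem_singleton_self x)).trans_lt (half_lt_self hε)

include S in
theorem full {y : D} (hy : 0 ≤ y) (h : y ≠ 0) : ∃ N : ℕ, W.u D ≤ N • cls1 y := by
  obtain ⟨n, a, b, hab⟩ := S.simple y h
  have hs : star y = y := (IsSelfAdjoint.of_nonneg hy).star_eq
  let z : Fin n ⊕ Fin n → D := Sum.elim a fun i => star (b i)
  have h1 : (1 : D) ≤ ∑ i, z i * y * star (z i) := by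
    have h2 : ∑ i, star (b i) * y * star (a i) = 1 := by
      simpa [star_sum, hs, mul_assoc] using congrArg star hab
    have h3 : 0 ≤ ∑ i, (a i - star (b i)) * y * star (a i - star (b i)) :=
      Finset.sum_nonneg fun i _ => star_right_conjugate_nonneg hy _
    have h4 : ∑ i, (a i - star (b i)) * y * star (a i - star (b i)) =
        ∑ i, z i * y * star (z i) - 1 - 1 := by
      conv_rhs =>
        enter [1, 2]
        rw [← hab]
      conv_rhs =>
        enter [2]
        rw [← h2]
      simp only [z, Fintype.sum_sum_type, Sum.elim_inl, Sum.elim_inr, star_star, star_sub, sub_mul,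
        mul_sub, Finset.sum_sub_distrib]
      abel
    rw [h4, sub_nonneg, le_sub_iff_add_le] at h3
    exact (le_add_of_nonneg_right zero_le_one).trans h3
  refine ⟨Fintype.card (Fin n ⊕ Fin n), (cls1_mono zero_le_one h1).trans ?_⟩
  refine (cls1_sum_le _ fun i _ => star_right_conjugate_nonneg hy _).trans ?_
  rw [← Finset.card_univ, ← Finset.sum_const]
  exact Finset.sum_le_sum fun i _ =>
    cls1_le (star_right_conjugate_nonneg hy _) hy (CSub.conj _ _)

theorem al_mul_be_ne_zero {a b : D} (ha : a ≠ 0) (hb : b ≠ 0) : S.al a * S.be b ≠ 0 := by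
  intro h0
  obtain ⟨n, x, y, hxy⟩ := S.simple a ha
  obtain ⟨m, x', y', hxy'⟩ := S.simple b hb
  have h1 : S.be b = 0 := by
    calc S.be b = S.al (∑ i, x i * a * y i) * S.be b := by rw [hxy, map_one, one_mul]
      _ = ∑ i, S.al (x i) * (S.al a * S.be b) * S.al (y i) := by
          rw [map_sum, Finset.sum_mul]
          refine Finset.sum_congr rfl fun i _ => ?_
          rw [map_mul, map_mul, mul_assoc, (S.comm (y i) b).eq]
          simp only [mul_assoc]
      _ = 0 := by simp [h0]
  have h2 : (1 : D) = 0 := by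
    calc (1 : D) = S.be (∑ i, x' i * b * y' i) := by rw [hxy', map_one]
      _ = 0 := by simp [map_sum, map_mul, h1]
  exact ha (by rw [← mul_one a, h2, mul_zero])

theorem exists_flip : ∃ χ : D →⋆ₐ[ℂ] D, (∀ x, χ (S.al x) = S.be x) ∧ ∀ x, χ (S.be x) = S.al x := by
  exact S.univ D S.be S.al fun x y => (S.comm y x).symm

/-- The first two of three legs can be exchanged. -/
theorem exists_swap : ∃ χ : D →⋆ₐ[ℂ] D, (∀ x, χ (S.al x) = S.be (S.al x)) ∧
    (∀ x, χ (S.be (S.al x)) = S.al x) ∧ ∀ x, χ (S.be (S.be x)) = S.be (S.be x) := by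
  obtain ⟨χ', h1, h2⟩ := S.univ D S.al (S.be.comp S.be) fun x y => S.comm x (S.be y)
  have hc : ∀ x y, Commute ((S.be.comp S.al) x) (χ' y) := by
    intro x y
    refine (r1_commute S.toDData χ' (fun z => ?_) (fun z => ?_) y).symm
    · rw [h1]
      exact S.comm z (S.al x)
    · rw [h2]
      exact ((S.comm x z).map S.be).symm
  obtain ⟨χ, h3, h4⟩ := S.univ D (S.be.comp S.al) χ' hc
  refine ⟨χ, h3, fun x => ?_, fun x => ?_⟩
  · rw [h4, h1]
  · rw [h4, h2]
    rfl

end RData

theorem Dom.of_le {x y : D} (h : x ≤ y) : Dom x y := by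
  intro e he
  refine ⟨1, zero_le_one, ?_⟩
  rw [one_smul]
  exact h.trans (le_add_of_nonneg_right (smul_nonneg he.le zero_le_one))

theorem Dom.trans {x y z : D} (h₁ : Dom x y) (h₂ : Dom y z) : Dom x z := by
  intro e he
  obtain ⟨M, hM, h1⟩ := h₁ (e / 2) (half_pos he)
  obtain ⟨M', hM', h2⟩ := h₂ (e / 2 / (M + 1)) (by positivity)
  refine ⟨M * M', by positivity, h1.trans ?_⟩
  have h3 : M * (e / 2 / (M + 1)) + e / 2 ≤ e := by
    have : M * (e / 2 / (M + 1)) ≤ e / 2 := by
      rw [← mul_div_assoc, div_le_iff₀ (by positivity)]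
      nlinarith
    linarith
  calc M • y + (e / 2) • (1 : D)
      ≤ M • (M' • z + (e / 2 / (M + 1)) • (1 : D)) + (e / 2) • (1 : D) :=
        add_le_add (smul_le_smul_of_nonneg_left h2 hM) le_rfl
    _ = (M * M') • z + (M * (e / 2 / (M + 1)) + e / 2) • (1 : D) := by
        rw [smul_add, smul_smul, smul_smul, add_smul, add_assoc]
    _ ≤ (M * M') • z + e • (1 : D) :=
        add_le_add le_rfl (smul_le_smul_of_nonneg_right h3 zero_le_one)

theorem Dom.add {x y x' y' : D} (hy : 0 ≤ y) (hy' : 0 ≤ y') (h₁ : Dom x y) (h₂ : Dom x' y') :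
    Dom (x + x') (y + y') := by
  intro e he
  obtain ⟨M, hM, h1⟩ := h₁ (e / 2) (half_pos he)
  obtain ⟨M', hM', h2⟩ := h₂ (e / 2) (half_pos he)
  refine ⟨M + M', by positivity, (add_le_add h1 h2).trans ?_⟩
  have h3 : (M + M') • (y + y') + e • (1 : D) =
      (M • y + (e / 2) • (1 : D) + (M' • y' + (e / 2) • (1 : D))) + (M • y' + M' • y) := by
    module
  rw [h3]
  exact le_add_of_nonneg_right (add_nonneg (smul_nonneg hM hy') (smul_nonneg hM' hy))

theorem Dom.smul {c : ℝ} (hc : 0 ≤ c) (y : D) : Dom (c • y) y := by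
  intro e he
  exact ⟨c, hc, le_add_of_nonneg_right (smul_nonneg he.le zero_le_one)⟩

theorem Dom.map (p : D →⋆ₐ[ℂ] D) {x y : D} (h : Dom x y) : Dom (p x) (p y) := by
  intro e he
  obtain ⟨M, hM, h1⟩ := h e he
  refine ⟨M, hM, ?_⟩
  have h2 : p x ≤ p (M • y + e • (1 : D)) := OrderHomClass.mono p h1
  rwa [map_add, r1_map_smul, r1_map_smul, map_one] at h2

theorem Dom.self_sq {y : D} (hy : 0 ≤ y) : Dom y (y * y) := by
  intro e he
  refine ⟨(4 * e)⁻¹, by positivity, ?_⟩
  have hs : star (y - (2 * e) • (1 : D)) = y - (2 * e) • (1 : D) := by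
    rw [star_sub, (IsSelfAdjoint.of_nonneg hy).star_eq, star_smul, star_one, star_trivial]
  have h1 : 0 ≤ (4 * e)⁻¹ • (star (y - (2 * e) • (1 : D)) * (y - (2 * e) • (1 : D))) :=
    smul_nonneg (by positivity) (star_mul_self_nonneg _)
  have h2 : (4 * e)⁻¹ • (star (y - (2 * e) • (1 : D)) * (y - (2 * e) • (1 : D))) =
      (4 * e)⁻¹ • (y * y) + e • (1 : D) - y := by
    rw [hs]
    simp only [sub_mul, mul_sub, smul_mul_assoc, mul_smul_comm, one_mul, mul_one]
    match_scalars <;> field_simp <;> ring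
  rw [h2] at h1
  exact sub_nonneg.1 h1

theorem Dom.csub {x y : D} (hx : 0 ≤ x) (hy : 0 ≤ y) (h : Dom x y) : CSub x y := by
  refine CSub.of_forall fun ε hε => ?_
  obtain ⟨M, hM, h1⟩ := h (ε / 2) (half_pos hε)
  exact ⟨cut (ε / 2) x, (csub_cut_of_le (IsSelfAdjoint.of_nonneg hx) (smul_nonneg hM hy) h1).trans
    (CSub.smul hM y), (norm_sub_cut (half_pos hε).le hx).trans_lt (half_lt_self hε)⟩

end Pool.Agent.Izumi
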