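import Pool.Agent.Lib.MP_b2135d_an.R1

/-! Order zero systems. -/

namespace Pool.Agent.Izumi

open scoped ComplexOrder
open Pool.Agent.Lib.MP_f90f6c_an.H50

variable {D ι : Type} [CStarAlgebra D] [Fintype ι] [DecidableEq ι] {ψ φ : ι → ι → D}

theorem OZ.zero : OZ (fun _ _ : ι => (0 : D)) :=
  ⟨fun _ _ => star_zero D, fun _ _ _ _ => by simp⟩

theorem OZ.map (h : OZ ψ) (p : D →⋆ₐ[ℂ] D) : OZ fun i j => p (ψ i j) := by
  refine ⟨fun i j => ?_, fun i j k l => ?_⟩
  · rw [← map_star, h.star]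
  · rw [← map_mul, h.mul]
    split_ifs
    · rw [map_mul, map_sum]
    · rw [map_zero]

theorem OZ.star_sum (h : OZ ψ) : Star.star (∑ a, ψ a a) = ∑ a, ψ a a := by
  rw [_root_.star_sum]
  exact Finset.sum_congr rfl fun a _ => h.star a a

theorem r2_mul_sum (h : OZ ψ) (i j : ι) : ψ i j * ∑ a, ψ a a = (∑ a, ψ a a) * ψ i j := by
  rw [Finset.mul_sum, Finset.sum_eq_single j]
  · rw [h.mul, if_pos rfl]
  · intro b _ hb
    rw [h.mul, if_neg (Ne.symm hb)]
  · intro hj
    exact absurd (Finset.mem_univ j) hj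

theorem OZ.commute_sum (h : OZ ψ) (i j : ι) : Commute (ψ i j) (∑ a, ψ a a) :=
  r2_mul_sum h i j

theorem OZ.prod {κ : Type} [Fintype κ] [DecidableEq κ] {φ : κ → κ → D} (h : OZ ψ) (h' : OZ φ)
    (hc : ∀ i j k l, Commute (ψ i j) (φ k l)) :
    OZ (fun i j : ι × κ => ψ i.1 j.1 * φ i.2 j.2) ∧
      ∑ a : ι × κ, ψ a.1 a.1 * φ a.2 a.2 = (∑ a, ψ a a) * ∑ a, φ a a := by
  have hs : ∑ a : ι × κ, ψ a.1 a.1 * φ a.2 a.2 = (∑ a, ψ a a) * ∑ a, φ a a := by
    rw [Finset.sum_mul_sum, Fintype.sum_prod_type]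
  refine ⟨⟨fun i j => ?_, fun i j k l => ?_⟩, hs⟩
  · rw [star_mul, h.star, h'.star, (hc _ _ _ _).eq]
  · have c : Commute (ψ i.1 l.1) (∑ a, φ a a) := Commute.sum_right _ _ _ fun a _ => hc _ _ _ _
    rw [hs, (hc k.1 l.1 i.2 j.2).symm.mul_mul_mul_comm, h.mul, h'.mul]
    by_cases hjk : j = k
    · subst hjk
      rw [if_pos rfl, if_pos rfl, if_pos rfl, c.mul_mul_mul_comm]
    · rw [if_neg hjk]
      by_cases h1 : j.1 = k.1
      · have h2 : ¬j.2 = k.2 := fun h2 => hjk (Prod.ext h1 h2)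
        rw [if_neg h2, mul_zero]
      · rw [if_neg h1, zero_mul]

theorem sum_ozComb (hc : ∀ i j k l, Commute (ψ i j) (φ k l)) :
    ∑ a, ozComb ψ φ a a = (∑ a, ψ a a) * (∑ a, ψ a a) + (∑ a, φ a a) * ∑ a, φ a a := by
  have _ := hc
  have h1 : ∑ a, ∑ l, ψ l a * φ a l = ∑ a, ∑ l, ψ a l * φ l a := Finset.sum_comm
  simp only [ozComb]
  rw [Finset.sum_sub_distrib, Finset.sum_add_distrib, Finset.sum_add_distrib, ← Finset.mul_sum,
    ← Finset.mul_sum, ← Finset.smul_sum, ← Finset.smul_sum, h1, add_sub_cancel_right]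

/-- The rewriting rules for two commuting order zero systems. -/
structure r2_Rules (ψ φ : ι → ι → D) (h g : D) : Prop where
  pp : ∀ i j k l, ψ i j * ψ k l = if j = k then h * ψ i l else 0
  ff : ∀ i j k l, φ i j * φ k l = if j = k then g * φ i l else 0
  fp : ∀ i j k l, φ i j * ψ k l = ψ k l * φ i j
  ph : ∀ i j, ψ i j * h = h * ψ i j
  pg : ∀ i j, ψ i j * g = g * ψ i j
  fh : ∀ i j, φ i j * h = h * φ i j
  fg : ∀ i j, φ i j * g = g * φ i j
  gh : g * h = h * g
  sh : ∑ a, ψ a a = h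
  sg : ∑ a, φ a a = g

namespace r2_Rules

variable {h g : D} (R : r2_Rules ψ φ h g)
include R

theorem pp' (i j k l : ι) (x : D) :
    ψ i j * (ψ k l * x) = if j = k then h * (ψ i l * x) else 0 := by
  rw [← mul_assoc, R.pp]
  split_ifs
  · rw [mul_assoc]
  · rw [zero_mul]

theorem fp' (i j k l : ι) (x : D) : φ i j * (ψ k l * x) = ψ k l * (φ i j * x) := by
  rw [← mul_assoc, R.fp, mul_assoc]

theorem ph' (i j : ι) (x : D) : ψ i j * (h * x) = h * (ψ i j * x) := by
  rw [← mul_assoc, R.ph, mul_assoc]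

theorem pg' (i j : ι) (x : D) : ψ i j * (g * x) = g * (ψ i j * x) := by
  rw [← mul_assoc, R.pg, mul_assoc]

theorem fh' (i j : ι) (x : D) : φ i j * (h * x) = h * (φ i j * x) := by
  rw [← mul_assoc, R.fh, mul_assoc]

theorem fg' (i j : ι) (x : D) : φ i j * (g * x) = g * (φ i j * x) := by
  rw [← mul_assoc, R.fg, mul_assoc]

theorem gh' (x : D) : g * (h * x) = h * (g * x) := by
  rw [← mul_assoc, R.gh, mul_assoc]

theorem aa (i j k l : ι) :
    h * ψ i j * (h * ψ k l) = if j = k then h * h * (h * ψ i l) else 0 := by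
  simp only [mul_assoc, R.ph', R.pp, mul_ite, mul_zero]

theorem ab (i j k l : ι) : h * ψ i j * (g * φ k l) = h * g * (ψ i j * φ k l) := by
  simp only [mul_assoc, R.pg']

theorem aP (i j k l : ι) :
    h * ψ i j * ∑ m, ψ m l * φ k m = h * h * (ψ i l * φ k j) := by
  simp only [mul_assoc, Finset.mul_sum, R.pp', mul_ite, mul_zero, Finset.sum_ite_eq,
    Finset.mem_univ, if_true]

theorem aQ (i j k l : ι) :
    h * ψ i j * ∑ m, ψ k m * φ m l = if j = k then h * h * ∑ m, ψ i m * φ m l else 0 := by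
  split_ifs with hjk
  · simp only [mul_assoc, Finset.mul_sum, R.pp', hjk, if_true]
  · simp only [mul_assoc, Finset.mul_sum, R.pp', hjk, if_false, mul_zero, Finset.sum_const_zero]

theorem ba (i j k l : ι) : g * φ i j * (h * ψ k l) = h * g * (ψ k l * φ i j) := by
  simp only [mul_assoc, R.fh', R.fp, R.gh']

theorem bb (i j k l : ι) :
    g * φ i j * (g * φ k l) = if j = k then g * g * (g * φ i l) else 0 := by
  simp only [mul_assoc, R.fg', R.ff, mul_ite, mul_zero]

theorem bP (i j k l : ι) :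
    g * φ i j * ∑ m, ψ m l * φ k m = if j = k then g * g * ∑ m, ψ m l * φ i m else 0 := by
  split_ifs with hjk
  · simp only [mul_assoc, Finset.mul_sum, R.fp', R.ff, hjk, if_true, R.pg']
  · simp only [mul_assoc, Finset.mul_sum, R.fp', R.ff, hjk, if_false, mul_zero,
      Finset.sum_const_zero]

theorem bQ (i j k l : ι) :
    g * φ i j * ∑ m, ψ k m * φ m l = g * g * (ψ k j * φ i l) := by
  simp only [mul_assoc, Finset.mul_sum, R.fp', R.ff, mul_ite, mul_zero, Finset.sum_ite_eq,
    Finset.mem_univ, if_true, R.pg']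

theorem Pa (i j k l : ι) :
    (∑ m, ψ m j * φ i m) * (h * ψ k l) = if j = k then h * h * ∑ m, ψ m l * φ i m else 0 := by
  split_ifs with hjk
  · simp only [mul_assoc, Finset.mul_sum, Finset.sum_mul, R.fh', R.ph', R.fp, R.pp', hjk, if_true]
  · simp only [mul_assoc, Finset.sum_mul, R.fh', R.ph', R.fp, R.pp', hjk, if_false, mul_zero,
      Finset.sum_const_zero]

theorem Pb (i j k l : ι) :
    (∑ m, ψ m j * φ i m) * (g * φ k l) = g * g * (ψ k j * φ i l) := by
  simp only [mul_assoc, Finset.sum_mul, R.fg', R.pg', R.ff, mul_ite, mul_zero, Finset.sum_ite_eq',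
    Finset.mem_univ, if_true]

theorem PP (i j k l : ι) :
    (∑ m, ψ m j * φ i m) * ∑ m, ψ m l * φ k m = h * g * (ψ k l * φ i j) := by
  rw [Finset.sum_mul_sum, Finset.sum_comm]
  simp only [mul_assoc, R.fp', R.pp', R.ff, mul_ite, mul_zero, Finset.sum_ite_eq,
    Finset.sum_ite_eq', Finset.mem_univ, if_true, R.pg', R.gh']

theorem PQ (i j k l : ι) :
    (∑ m, ψ m j * φ i m) * ∑ m, ψ k m * φ m l = if j = k then h * h * (g * φ i l) else 0 := by
  rw [Finset.sum_mul_sum]
  split_ifs with hjk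
  · simp only [mul_assoc, R.fp', R.pp', R.ff, mul_ite, mul_zero, Finset.sum_ite_eq,
      Finset.mem_univ, if_true, hjk]
    rw [← Finset.mul_sum, ← Finset.sum_mul, R.sh]
  · simp only [mul_assoc, R.fp', R.pp', hjk, if_false, Finset.sum_const_zero]

theorem Qa (i j k l : ι) :
    (∑ m, ψ i m * φ m j) * (h * ψ k l) = h * h * (ψ i l * φ k j) := by
  simp only [mul_assoc, Finset.sum_mul, R.fh', R.ph', R.fp, R.pp', mul_ite, mul_zero,
    Finset.sum_ite_eq', Finset.mem_univ, if_true]

theorem Qb (i j k l : ι) :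
    (∑ m, ψ i m * φ m j) * (g * φ k l) = if j = k then g * g * ∑ m, ψ i m * φ m l else 0 := by
  split_ifs with hjk
  · simp only [mul_assoc, Finset.mul_sum, Finset.sum_mul, R.fg', R.pg', R.ff, hjk, if_true]
  · simp only [mul_assoc, Finset.sum_mul, R.fg', R.ff, hjk, if_false, mul_zero,
      Finset.sum_const_zero]

theorem QP (i j k l : ι) :
    (∑ m, ψ i m * φ m j) * ∑ m, ψ m l * φ k m = if j = k then g * g * (h * ψ i l) else 0 := by
  rw [Finset.sum_mul_sum]
  split_ifs with hjk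
  · simp only [mul_assoc, R.fp', R.pp', R.ff, Finset.sum_ite_eq, Finset.mem_univ, if_true, hjk,
      R.pg', mul_ite, mul_zero]
    rw [← Finset.mul_sum, ← Finset.mul_sum, ← Finset.mul_sum, R.sg, R.pg, R.gh' (ψ i l)]
  · simp only [mul_assoc, R.fp', R.ff, hjk, if_false, mul_zero, Finset.sum_const_zero]

theorem QQ (i j k l : ι) :
    (∑ m, ψ i m * φ m j) * ∑ m, ψ k m * φ m l = h * g * (ψ i j * φ k l) := by
  rw [Finset.sum_mul_sum]
  simp only [mul_assoc, R.fp', R.pp', R.ff, mul_ite, mul_zero, Finset.sum_ite_eq,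
    Finset.sum_ite_eq', Finset.mem_univ, if_true, R.pg', R.gh']

end r2_Rules

theorem r2_rules (h : OZ ψ) (h' : OZ φ) (hc : ∀ i j k l, Commute (ψ i j) (φ k l)) :
    r2_Rules ψ φ (∑ a, ψ a a) (∑ a, φ a a) where
  pp := h.mul
  ff := h'.mul
  fp i j k l := (hc k l i j).symm.eq
  ph i j := (h.commute_sum i j).eq
  pg i j := (Commute.sum_right _ _ _ fun a _ => hc i j a a).eq
  fh i j := (Commute.sum_right _ _ _ fun a _ => (hc a a i j).symm).eq
  fg i j := (h'.commute_sum i j).eq
  gh := (Commute.sum_left _ _ _ fun b _ => Commute.sum_right _ _ _ fun a _ =>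
    (hc a a b b).symm).eq
  sh := rfl
  sg := rfl

theorem r2_expand (a b P Q a' b' P' Q' : D) :
    (a + b + Complex.I • P - Complex.I • Q) * (a' + b' + Complex.I • P' - Complex.I • Q') =
      (a * a' + a * b' + b * a' + b * b' - P * P' + P * Q' + Q * P' - Q * Q') +
        Complex.I • (a * P' - a * Q' + b * P' - b * Q' + P * a' + P * b' - Q * a' - Q * b') := by
  simp only [mul_add, add_mul, mul_sub, sub_mul, smul_mul_assoc, mul_smul_comm, smul_add, smul_sub,
    smul_smul, Complex.I_mul_I, neg_smul, one_smul]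
  abel

theorem OZ.comb (h : OZ ψ) (h' : OZ φ) (hc : ∀ i j k l, Commute (ψ i j) (φ k l)) :
    OZ (ozComb ψ φ) := by
  have R := r2_rules h h' hc
  refine ⟨fun i j => ?_, fun i j k l => ?_⟩
  · have e1 : Star.star (∑ l, ψ l j * φ i l) = ∑ l, ψ j l * φ l i := by
      rw [_root_.star_sum]
      exact Finset.sum_congr rfl fun l _ => by rw [star_mul, h.star, h'.star, R.fp]
    have e2 : Star.star (∑ l, ψ i l * φ l j) = ∑ l, ψ l i * φ j l := by
      rw [_root_.star_sum]
      exact Finset.sum_congr rfl fun l _ => by rw [star_mul, h.star, h'.star, R.fp]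
    simp only [ozComb]
    rw [star_sub, star_add, star_add, star_smul, star_smul, e1, e2, star_mul, star_mul, h.star,
      h'.star, h.star_sum, h'.star_sum, R.ph, R.fg, Complex.star_def, Complex.conj_I, neg_smul,
      neg_smul]
    abel
  · rw [sum_ozComb hc]
    simp only [ozComb]
    rw [r2_expand, R.aa, R.ab, R.aP, R.aQ, R.ba, R.bb, R.bP, R.bQ, R.Pa, R.Pb, R.PP, R.PQ, R.Qa,
      R.Qb, R.QP, R.QQ]
    split_ifs
    · simp only [mul_add, add_mul, mul_sub, mul_smul_comm, smul_add, smul_sub]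
      abel
    · simp

variable [PartialOrder D] [StarOrderedRing D]

theorem OZ.exists_class (h : OZ ψ) [Nonempty ι] : ∃ z : D, 0 ≤ z ∧
    Fintype.card ι • cls1 z ≤ W.u D ∧
      cls1 ((∑ a, ψ a a) * ∑ a, ψ a a) ≤ Fintype.card ι • cls1 z := by
  obtain ⟨o⟩ := ‹Nonempty ι›
  have hn : ∀ i, 0 ≤ ψ i i * ψ i i := fun i => by
    have := star_mul_self_nonneg (ψ i i)
    rwa [h.star] at this
  have hcl : ∀ i, cls1 (ψ i i * ψ i i) = cls1 (ψ o o * ψ o o) := fun i => by
    have := cls1_star_mul (ψ o i)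
    rw [h.star, h.mul, h.mul, if_pos rfl, if_pos rfl] at this
    rw [h.mul, h.mul, if_pos rfl, if_pos rfl]
    exact this
  have hs : ∑ i, ψ i i * ψ i i = (∑ a, ψ a a) * ∑ a, ψ a a := by
    rw [Finset.mul_sum]
    exact Finset.sum_congr rfl fun i _ => by rw [h.mul, if_pos rfl]
  have hsum : ∑ i, cls1 (ψ i i * ψ i i) = Fintype.card ι • cls1 (ψ o o * ψ o o) := by
    rw [Finset.sum_congr rfl fun i _ => hcl i, Finset.sum_const, Finset.card_univ]
  refine ⟨ψ o o * ψ o o, hn o, ?_, ?_⟩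
  · rw [← hsum]
    refine (cls1_sum_of_orth Finset.univ (fun i _ => hn i) fun i _ j _ hij => ?_).trans
      (cls1_le_u (Finset.sum_nonneg fun i _ => hn i))
    rw [mul_assoc, ← mul_assoc (ψ i i) (ψ j j), h.mul i i j j, if_neg hij, zero_mul, mul_zero]
  · rw [← hsum, ← hs]
    exact cls1_sum_le Finset.univ fun i _ => hn i

omit [PartialOrder D] [StarOrderedRing D] in
/-- Elements with orthogonal ranges and a common source give an order zero system. -/
theorem r2_oz_of {x : ι → D} {c : D} (hx : ∀ i j, star (x i) * x j = if i = j then c else 0) :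
    OZ fun i j => x i * star (x j) := by
  refine ⟨fun i j => by rw [star_mul, star_star], fun i j k l => ?_⟩
  have e1 : x i * star (x j) * (x k * star (x l)) = x i * (star (x j) * x k) * star (x l) := by
    simp only [mul_assoc]
  have e2 : (∑ a, x a * star (x a)) * (x i * star (x l)) = x i * c * star (x l) := by
    rw [Finset.sum_mul, Finset.sum_eq_single i]
    · have := hx i i
      rw [if_pos rfl] at this
      rw [← this]
      simp only [mul_assoc]
    · intro b _ hb
      have := hx b i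
      rw [if_neg hb] at this
      rw [mul_assoc, ← mul_assoc (star (x b)), this, zero_mul, mul_zero]
    · intro hi
      exact absurd (Finset.mem_univ i) hi
  rw [e1, e2, hx]
  split_ifs
  · rfl
  · rw [mul_zero, zero_mul]

omit [PartialOrder D] [StarOrderedRing D] in
theorem r2_exists_sq_zero (S : RData D) : ∃ p : D, p ≠ 0 ∧ p * p = 0 := by
  obtain ⟨a, b, ha, hb, hab⟩ := S.zd
  obtain ⟨n, x, y, hxy⟩ := S.simple b hb
  obtain ⟨m, x', y', hxy'⟩ := S.simple a ha
  have hne : ∃ w : D, b * w * a ≠ 0 := by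
    by_contra hw
    push Not at hw
    apply ha
    have h1 : a = (∑ i, x i * b * y i) * a := by rw [hxy, one_mul]
    rw [h1, Finset.sum_mul]
    refine Finset.sum_eq_zero fun i _ => ?_
    have := hw (y i)
    rw [mul_assoc (x i), mul_assoc (x i), this, mul_zero]
  obtain ⟨w, hw⟩ := hne
  refine ⟨b * w * a, hw, ?_⟩
  rw [mul_assoc (b * w), ← mul_assoc a, ← mul_assoc a, hab, zero_mul, zero_mul, mul_zero]

theorem r2_exists_two (S : RData D) : ∃ ψ : Bool → Bool → D, OZ ψ ∧ ∑ a, ψ a a ≠ 0 := by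
  obtain ⟨p, hp, hpp⟩ := r2_exists_sq_zero S
  have hc : 0 ≤ star p * p := star_mul_self_nonneg p
  have h1 : rt (star p * p) * p = 0 := by
    rw [← CStarRing.star_mul_self_eq_zero_iff, star_mul, star_rt, mul_assoc,
      ← mul_assoc (rt (star p * p)), rt_mul_rt hc, mul_assoc, hpp, mul_zero, mul_zero]
  have h2 : star p * rt (star p * p) = 0 := by
    have := congrArg star h1
    rwa [star_mul, star_rt, star_zero] at this
  let x : Bool → D := fun b => if b then p else rt (star p * p)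
  have hx : ∀ i j, star (x i) * x j = if i = j then star p * p else 0 := by
    intro i j
    cases i <;> cases j <;> simp [x, star_rt, rt_mul_rt hc, h1, h2]
  refine ⟨fun i j => x i * star (x j), r2_oz_of hx, fun h0 => hp ?_⟩
  rw [Fintype.sum_bool] at h0
  have h3 : 0 ≤ x true * star (x true) := mul_star_self_nonneg _
  have h4 : 0 ≤ x false * star (x false) := mul_star_self_nonneg _
  have h5 : x true * star (x true) = 0 := by
    refine le_antisymm ?_ h3
    rw [← h0]
    exact le_add_of_nonneg_right h4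
  exact (CStarRing.mul_star_self_eq_zero_iff p).1 h5

theorem RData.exists_oz (S : RData D) (j : ℕ) :
    ∃ (ι : Type) (_ : Fintype ι) (_ : DecidableEq ι) (ψ : ι → ι → D),
      Fintype.card ι = 2 ^ j ∧ OZ ψ ∧ ∑ a, ψ a a ≠ 0 := by
  induction j with
  | zero =>
    refine ⟨Unit, inferInstance, inferInstance, fun _ _ => 1, rfl,
      ⟨fun _ _ => star_one D, fun _ _ _ _ => by simp⟩, ?_⟩
    obtain ⟨a, b, ha, -, -⟩ := S.zd
    intro h0
    apply ha
    have h1 : (1 : D) = 0 := by simpa using h0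
    rw [← mul_one a, h1, mul_zero]
  | succ j ih =>
    obtain ⟨κ, _, _, φ, hcard, hφ, hne⟩ := ih
    obtain ⟨ψ, hψ, hne'⟩ := r2_exists_two S
    obtain ⟨h1, h2⟩ := (hψ.map S.al).prod (hφ.map S.be) fun i j k l => S.comm _ _
    refine ⟨Bool × κ, inferInstance, inferInstance, _, ?_, h1, ?_⟩
    · rw [Fintype.card_prod, Fintype.card_bool, hcard, pow_succ, mul_comm]
    · rw [h2, ← map_sum, ← map_sum]
      exact S.al_mul_be_ne_zero hne' hne

end Pool.Agent.Izumi
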