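import Pool.Agent.Lib.MP_b2135d_an.R2

/-! Almost divisibility of the unit and weak unperforation. -/

namespace Pool.Agent.Izumi

open scoped ComplexOrder
open Pool.Agent.Lib.MP_f90f6c_an.H50

variable {D : Type} [CStarAlgebra D] [PartialOrder D] [StarOrderedRing D]

theorem r3_cd {g : D} (hg : 0 ≤ g) (h0 : g ≠ 0) : ∃ (c d : D) (r : ℝ), 0 ≤ c ∧ c ≠ 0 ∧ c ≤ g ∧
    0 ≤ d ∧ d ≤ 1 ∧ c * d = 0 ∧ 0 ≤ r ∧ 1 ≤ r • g + d := by
  have h1 : 0 < ‖g‖ := norm_pos_iff.2 h0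
  obtain ⟨e, he, he'⟩ : ∃ e : ℝ, 0 < e ∧ e < ‖g‖ := ⟨‖g‖ / 2, half_pos h1, half_lt_self h1⟩
  have hs : IsSelfAdjoint g := IsSelfAdjoint.of_nonneg hg
  refine ⟨cut e g, cfc (fun t : ℝ => max (1 - e⁻¹ * t) 0) g, e⁻¹, cut_nonneg _ _, fun h => ?_,
    cut_le_self he.le hg, cfc_nonneg fun _ _ => le_max_right _ _, cfc_le_one _ _ fun t ht => ?_,
    ?_, by positivity, ?_⟩
  · have h2 := norm_sub_cut he.le hg
    rw [h, sub_zero] at h2
    exact absurd he' (not_lt.2 h2)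
  · have h2 := mul_nonneg (inv_pos.2 he).le (spectrum_nonneg_of_nonneg hg ht)
    exact max_le (by linarith) zero_le_one
  · rw [cut, cfc_mul_cfc (by fun_prop) (by fun_prop), ← cfc_zero ℝ g]
    refine cfc_congr fun t _ => ?_
    rcases le_total t e with h | h
    · simp only [max_eq_right (sub_nonpos.2 h), zero_mul, Pi.zero_apply]
    · have h2 : 1 - e⁻¹ * t ≤ 0 := by
        rw [sub_nonpos, le_inv_mul_iff₀ he, mul_one]
        exact h
      simp only [max_eq_right h2, mul_zero, Pi.zero_apply]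
  · have h2 : (1 : D) - e⁻¹ • g = cfc (fun t : ℝ => 1 - e⁻¹ * t) g := by
      rw [cfc_sub _ _ _ (by fun_prop) (by fun_prop), cfc_const_one ℝ g, cfc_const_mul_id _ g]
    rw [← sub_le_iff_le_add', h2]
    exact cfc_mono fun t _ => le_max_left _ _

theorem r3_nonneg (S : DData D) {x y : D} (hx : 0 ≤ x) (hy : 0 ≤ y) : 0 ≤ S.al x * S.be y :=
  (S.comm x y).mul_nonneg (map_nonneg S.al hx) (map_nonneg S.be hy)

theorem r3_left (S : DData D) {x x' y : D} (hx : x ≤ x') (hy : 0 ≤ y) :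
    S.al x * S.be y ≤ S.al x' * S.be y := by
  have h := r3_nonneg S (sub_nonneg.2 hx) hy
  rwa [map_sub, sub_mul, sub_nonneg] at h

theorem r3_le_be (S : DData D) {x y : D} (hx : x ≤ 1) (hy : 0 ≤ y) : S.al x * S.be y ≤ S.be y := by
  have h := r3_left S hx hy
  rwa [map_one, one_mul] at h

theorem r3_le_al (S : DData D) {x y : D} (hx : 0 ≤ x) (hy : y ≤ 1) : S.al x * S.be y ≤ S.al x := by
  have h := r3_nonneg S hx (sub_nonneg.2 hy)
  rwa [map_sub, map_one, mul_sub, mul_one, sub_nonneg] at h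

/-- The iterated order zero systems. -/
noncomputable def r3P (S : DData D) {ι : Type} [Fintype ι] (ψ : ι → ι → D) : ℕ → ι → ι → D
  | 0 => fun _ _ => 0
  | m + 1 => ozComb (fun i j => S.al (ψ i j)) fun i j => S.be (r3P S ψ m i j)

/-- The defects. -/
noncomputable def r3D (S : DData D) (d : D) : ℕ → D
  | 0 => 1
  | m + 1 => S.al d * S.be (r3D S d m)

/-- The comparison elements. -/
noncomputable def r3X (S : DData D) (c d : D) : ℕ → D
  | 0 => 0
  | m + 1 => S.al c * S.be (r3D S d m) + S.al d * S.be (r3X S c d m)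

section Rec

variable (S : DData D) {ι : Type} [Fintype ι] [DecidableEq ι] {ψ : ι → ι → D} {c d : D}

omit [PartialOrder D] [StarOrderedRing D] in
theorem r3P_oz (h : OZ ψ) (m : ℕ) : OZ (r3P S ψ m) := by
  induction m with
  | zero => exact OZ.zero
  | succ m ih => exact (h.map S.al).comb (ih.map S.be) fun _ _ _ _ => S.comm _ _

omit [PartialOrder D] [StarOrderedRing D] in
theorem r3P_sum (m : ℕ) : ∑ a, r3P S ψ (m + 1) a a = S.al ((∑ a, ψ a a) * ∑ a, ψ a a) +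
    S.be ((∑ a, r3P S ψ m a a) * ∑ a, r3P S ψ m a a) := by
  rw [map_mul, map_mul, map_sum, map_sum]
  exact sum_ozComb fun _ _ _ _ => S.comm _ _

theorem r3_sq_nonneg (h : OZ ψ) : 0 ≤ (∑ a, ψ a a) * ∑ a, ψ a a := by
  have h1 := star_mul_self_nonneg (∑ a, ψ a a)
  rwa [h.star_sum] at h1

theorem r3D_mem (h0 : 0 ≤ d) (h1 : d ≤ 1) (m : ℕ) : 0 ≤ r3D S d m ∧ r3D S d m ≤ 1 := by
  induction m with
  | zero => exact ⟨zero_le_one, le_rfl⟩
  | succ m ih =>
    refine ⟨r3_nonneg S h0 ih.1, (r3_le_al S h0 ih.2).trans ?_⟩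
    have h := map_nonneg S.al (sub_nonneg.2 h1)
    rwa [map_sub, map_one, sub_nonneg] at h

theorem r3X_nonneg (hc : 0 ≤ c) (h0 : 0 ≤ d) (h1 : d ≤ 1) (m : ℕ) : 0 ≤ r3X S c d m := by
  induction m with
  | zero => exact le_rfl
  | succ m ih => exact add_nonneg (r3_nonneg S hc (r3D_mem S h0 h1 m).1) (r3_nonneg S h0 ih)

theorem r3_A (h : OZ ψ) (h0 : 0 ≤ d) (h1 : d ≤ 1) {r : ℝ} (hr : 0 ≤ r)
    (h2 : 1 ≤ r • ((∑ a, ψ a a) * ∑ a, ψ a a) + d) (m : ℕ) :
    Dom 1 ((∑ a, r3P S ψ m a a) * (∑ a, r3P S ψ m a a) + r3D S d m) := by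
  induction m with
  | zero => exact Dom.of_le (le_add_of_nonneg_left (r3_sq_nonneg (r3P_oz S h 0)))
  | succ m ih =>
    have h3 := ih.map S.be
    rw [map_one, map_add] at h3
    have hg := r3_sq_nonneg h
    have hG := map_nonneg S.be (r3_sq_nonneg (r3P_oz S h m))
    have hH : 0 ≤ ∑ a, r3P S ψ (m + 1) a a := by
      rw [r3P_sum]
      exact add_nonneg (map_nonneg S.al hg) hG
    have h4 := r3_left S h2 (r3D_mem S h0 h1 m).1
    rw [map_one, one_mul, map_add, add_mul, ← Complex.coe_smul, map_smul, Complex.coe_smul,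
      smul_mul_assoc] at h4
    have h5 := smul_le_smul_of_nonneg_left (r3_le_al S hg (r3D_mem S h0 h1 m).2) hr
    refine h3.trans ((Dom.of_le (y := (1 + r) • (∑ a, r3P S ψ (m + 1) a a) + r3D S d (m + 1))
      ?_).trans (Dom.add (r3_sq_nonneg (r3P_oz S h _)) (r3D_mem S h0 h1 _).1
        ((Dom.smul (by linarith) _).trans (Dom.self_sq hH)) (Dom.of_le le_rfl)))
    refine (add_le_add le_rfl (h4.trans (add_le_add h5 le_rfl))).trans ?_
    rw [← add_assoc, r3P_sum, add_smul, one_smul, smul_add]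
    exact add_le_add (add_le_add (le_add_of_nonneg_left (map_nonneg S.al hg))
      (le_add_of_nonneg_right (smul_nonneg hr hG))) le_rfl

theorem r3_B (h : OZ ψ) (hc : 0 ≤ c) (hc' : c ≤ (∑ a, ψ a a) * ∑ a, ψ a a) (h0 : 0 ≤ d)
    (h1 : d ≤ 1) (m : ℕ) : Dom (r3X S c d m) ((∑ a, r3P S ψ m a a) * ∑ a, r3P S ψ m a a) := by
  induction m with
  | zero => exact Dom.of_le (r3_sq_nonneg (r3P_oz S h 0))
  | succ m ih =>
    have hg := map_nonneg S.al (r3_sq_nonneg h)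
    have hG := map_nonneg S.be (r3_sq_nonneg (r3P_oz S h m))
    have h2 : S.al c ≤ S.al ((∑ a, ψ a a) * ∑ a, ψ a a) := by
      have h3 := map_nonneg S.al (sub_nonneg.2 hc')
      rwa [map_sub, sub_nonneg] at h3
    have h3 := (Dom.of_le (add_le_add (r3_le_al S hc (r3D_mem S h0 h1 m).2)
      (r3_le_be S h1 (r3X_nonneg S hc h0 h1 m)))).trans (Dom.add hg hG (Dom.of_le h2) (ih.map S.be))
    rw [← r3P_sum] at h3
    exact h3.trans (Dom.self_sq (by rw [r3P_sum]; exact add_nonneg hg hG))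

end Rec

theorem r3_C (S : RData D) {c d : D} (hc : 0 ≤ c) (h0 : 0 ≤ d) (h1 : d ≤ 1) (hcd : c * d = 0)
    (m : ℕ) : (m + 1) • cls1 (S.al c * S.be (r3D S.toDData d m)) ≤
      cls1 (r3X S.toDData c d (m + 1)) := by
  have hD := fun m => (r3D_mem S.toDData h0 h1 m).1
  have hX := r3X_nonneg S.toDData hc h0 h1
  have hs : ∀ m, cls1 (S.al c * S.be (r3D S.toDData d m)) +
      cls1 (S.al d * S.be (r3X S.toDData c d m)) ≤ cls1 (r3X S.toDData c d (m + 1)) := fun m => by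
    refine cls1_add_of_orth (r3_nonneg _ hc (hD m)) (r3_nonneg _ h0 (hX m)) ?_
    rw [mul_assoc, ← mul_assoc (S.be _), ← (S.comm _ _).eq, mul_assoc, ← mul_assoc, ← map_mul, hcd,
      map_zero, zero_mul]
  induction m with
  | zero => exact (one_nsmul _).trans_le ((W.le_add_right _ _).trans (hs 0))
  | succ m ih =>
    obtain ⟨χ, e1, e2, e3⟩ := S.exists_swap
    have h2 := cls1_prod_le S.be (map_nonneg S.al h0) (fun x => (S.comm d x).symm)
      (r3_nonneg _ hc (hD m)) (hX (m + 1)) (ih.trans (one_nsmul _).ge)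
    rw [one_nsmul, ← (S.comm _ _).eq, ← (S.comm _ _).eq,
      ← S.cls1_hom χ (r3_nonneg _ h0 (r3_nonneg _ hc (hD m))), map_mul, map_mul, map_mul, e1, e2,
      e3, ← mul_assoc, ← (S.comm _ _).eq, mul_assoc, ← map_mul] at h2
    rw [succ_nsmul']
    exact (add_le_add le_rfl h2).trans (hs (m + 1))

theorem RData.winter (S : RData D) (j : ℕ) :
    ∃ z : D, 0 ≤ z ∧ 2 ^ j • cls1 z ≤ W.u D ∧ W.u D ≤ (2 * 2 ^ j) • cls1 z := by
  obtain ⟨ι, _, _, ψ, hι, h, hne⟩ := S.exists_oz j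
  have : Nonempty ι := Fintype.card_pos_iff.1 (by rw [hι]; positivity)
  obtain ⟨c, d, r, hc, hc0, hc', h0, h1, hcd, hr, h2⟩ := r3_cd (r3_sq_nonneg h) fun h3 => hne (by
    rw [← CStarRing.star_mul_self_eq_zero_iff, h.star_sum, h3])
  obtain ⟨N, hN⟩ := S.full hc hc0
  obtain ⟨z, hz, h3, h4⟩ := (r3P_oz S.toDData h (N + 1)).exists_class
  rw [hι] at h3 h4
  refine ⟨z, hz, h3, ?_⟩
  have hD := fun m => (r3D_mem S.toDData h0 h1 m).1
  have hG := r3_sq_nonneg (r3P_oz S.toDData h (N + 1))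
  have h5 := cls1_prod_le S.al (map_nonneg S.be (hD N)) (fun x => S.comm x _) zero_le_one hc
    ((one_nsmul _).trans_le hN)
  rw [one_nsmul, map_one, one_mul] at h5
  have h6 : cls1 (r3D S.toDData d (N + 1)) ≤ _ :=
    (cls1_mono (hD (N + 1)) (r3_le_be _ h1 (hD N))).trans (h5.trans
      ((W.nsmul_le N.le_succ _).trans ((r3_C S hc h0 h1 hcd N).trans
        (cls1_le (r3X_nonneg _ hc h0 h1 _) hG
          ((r3_B _ h hc hc' h0 h1 _).csub (r3X_nonneg _ hc h0 h1 _) hG)))))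
  have h7 := cls1_le zero_le_one (add_nonneg hG (hD _))
    ((r3_A _ h h0 h1 hr h2 (N + 1)).csub zero_le_one (add_nonneg hG (hD _)))
  rw [two_mul, add_nsmul]
  exact h7.trans ((cls1_add_le hG (hD _)).trans (add_le_add h4 (h6.trans h4)))

theorem RData.unperf (S : RData D) {x y : D} (hx : 0 ≤ x) (hy : 0 ≤ y) {N M : ℕ} (hN : 0 < N)
    (hNM : 4 * M ≤ N) (h : N • cls1 x ≤ M • cls1 y) : cls1 x ≤ cls1 y := by
  rcases Nat.eq_zero_or_pos M with rfl | hM
  · rw [zero_nsmul] at h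
    exact (one_nsmul _).ge.trans ((W.nsmul_le hN _).trans (h.trans (W.zero_le _)))
  obtain ⟨z, hz, h1, h2⟩ := S.winter (Nat.log 2 M + 1)
  have h3 := Nat.lt_pow_succ_log_self one_lt_two M
  have h4 := Nat.pow_log_le_self 2 hM.ne'
  have h5 := cls1_prod_le S.be (map_nonneg S.al hx) (fun w => (S.comm x w).symm) zero_le_one hz
    ((one_nsmul _).trans_le h2)
  have h6 := cls1_prod_le S.al (map_nonneg S.be hz) (fun w => S.comm w z) hx hy h
  have h7 := cls1_prod_le S.be (map_nonneg S.al hy) (fun w => (S.comm y w).symm) hz zero_le_one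
    (h1.trans (one_nsmul _).ge)
  rw [one_nsmul, map_one, one_mul, S.cls1_hom _ hx, ← (S.comm _ _).eq] at h5
  rw [one_nsmul, map_one, one_mul, S.cls1_hom _ hy, ← (S.comm _ _).eq] at h7
  exact h5.trans ((W.nsmul_le (by rw [pow_succ]; omega) _).trans
    (h6.trans ((W.nsmul_le h3.le _).trans h7)))

end Pool.Agent.Izumi
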