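import Pool.Agent.Lib.MP_b2135d_an.R1

/-! A state on the Cuntz semigroup gives a tracial state. -/

namespace Pool.Agent.Izumi

open scoped ComplexOrder ComplexStarModule
open Pool.Agent.Lib.MP_f90f6c_an.H50 Filter Topology

set_option linter.unusedSectionVars false

variable {D : Type} [CStarAlgebra D] [PartialOrder D] [StarOrderedRing D] {s : W D →+ ℝ}

theorem r4_smul (p : D →⋆ₐ[ℂ] D) (c : ℝ) (x : D) : p (c • x) = c • p x := by
  rw [← Complex.coe_smul, map_smul, Complex.coe_smul]

theorem dimFn_of_state (hs : IsState (W.u D) s) : DimFn fun a : D => s (cls1 a) := by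
  have h := hs.dimFn (n := Unit)
  refine ⟨fun a b ha hb hab => hs.mono (cls1_le ha hb hab), by rw [cls1_zero, map_zero],
    fun a b ha hb hab => ?_, fun a b ha hb hab => ?_⟩
  · simpa only [cls1, map_add, map_mul] using
      h.mod1 _ _ (oneBy_nonneg ha) (oneBy_nonneg hb) (hab.map oneBy)
  · simpa only [cls1, map_add, map_mul, map_pow] using
      h.mod2 _ _ (oneBy_nonneg ha) (oneBy_nonneg hb) (hab.map oneBy)

theorem r4_le_cut {b : D} (hb : IsSelfAdjoint b) (r : ℝ) : b ≤ cut r b + r • (1 : D) := by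
  rw [cut, ← Algebra.algebraMap_eq_smul_one, ← cfc_add_const r _ b]
  conv_lhs => rw [← cfc_id' ℝ b]
  exact cfc_mono fun t _ => by linarith [le_max_left (t - r) 0]

theorem choq_le_add (hs : IsState (W.u D) s) {a b w : D} (ha : IsSelfAdjoint a)
    (hb : IsSelfAdjoint b) (hw : 0 ≤ w) {t R : ℝ} (ht : 0 ≤ t) (haR : ‖a‖ ≤ R) (hbR : ‖b‖ ≤ R)
    (h : a ≤ b + t • (1 : D) + w) :
    choq (fun a : D => s (cls1 a)) a ≤ choq (fun a : D => s (cls1 a)) b + t +
      2 * R * s (cls1 w) := by
  have hν := dimFn_of_state hs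
  have hR := (norm_nonneg a).trans haR
  have h1 : ∀ r : ℝ, s (cls1 (cut (r + t) a)) ≤ s (cls1 (cut r b)) + s (cls1 w) := fun r => by
    rw [← map_add]
    refine hs.mono ((cls1_le (cut_nonneg _ _) (add_nonneg (cut_nonneg _ _) hw)
      (csub_cut_of_le ha (add_nonneg (cut_nonneg _ _) hw) (h.trans ?_))).trans
      (cls1_add_le (cut_nonneg _ _) hw))
    calc _ ≤ cut r b + r • (1 : D) + t • (1 : D) + w := by gcongr; exact r4_le_cut hb r
      _ = _ := by rw [add_smul]; abel
  have h2 := intervalIntegral.integral_mono_on (by linarith : -R ≤ R)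
    (((hν.antitone a).comp_monotone (monotone_id.add_const t)).intervalIntegrable
      (μ := MeasureTheory.volume))
    ((hν.integrable b (-R) R).add intervalIntegrable_const) fun r _ => h1 r
  have h3 := intervalIntegral.integral_mono_on (by linarith : -R ≤ -R + t) (hν.integrable a _ _)
    intervalIntegrable_const fun r _ => (hν.le_one (cut_nonneg r a)).trans hs.unit.le
  have h4 := intervalIntegral.integral_add_adjacent_intervals (hν.integrable a (-R) (-R + t))
    (hν.integrable a _ (R + t))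
  have h5 := intervalIntegral.integral_add_adjacent_intervals (hν.integrable a (-R) R)
    (hν.integrable a _ (R + t))
  rw [hν.integral_high (by linarith) haR] at h5
  rw [intervalIntegral.integral_add (hν.integrable b _ _) intervalIntegrable_const] at h2
  have h6 := intervalIntegral.integral_comp_add_right (a := -R) (b := R)
    (fun r => s (cls1 (cut r a))) t
  simp only [Function.comp_def, id, intervalIntegral.integral_const, smul_eq_mul] at h2 h3
  rw [hν.choq_eq ha haR, hν.choq_eq hb hbR]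
  linarith

theorem mul_le_choq (hs : IsState (W.u D) s) {x : D} (hx : 0 ≤ x) {e : ℝ} (he : 0 < e) :
    e * s (cls1 (cut e x)) ≤ choq (fun a : D => s (cls1 a)) x := by
  have hν := dimFn_of_state hs
  have h1 := intervalIntegral.integral_mono_on he.le intervalIntegrable_const
    (hν.integrable x 0 e) fun r hr => hν.antitone x hr.2
  have h2 := intervalIntegral.integral_nonneg_of_forall (μ := MeasureTheory.volume)
    (le_max_right ‖x‖ e) fun r => hν.nonneg (cut_nonneg r x)
  rw [hν.choq_eq_of_nonneg hx (le_max_left _ e), ← intervalIntegral.integral_add_adjacent_intervals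
    (hν.integrable x 0 e) (hν.integrable x _ _)]
  simp only [intervalIntegral.integral_const, smul_eq_mul, sub_zero] at h1
  linarith

theorem cheb_choq (hs : IsState (W.u D) s) {w : D} (hw : IsSelfAdjoint w) {e : ℝ} (he : 0 < e) :
    e ^ 2 * s (cls1 (cut e w)) ≤ choq (fun a : D => s (cls1 a)) (w * w) := by
  refine le_trans (mul_le_mul_of_nonneg_left (hs.mono (cls1_le (cut_nonneg _ _) (cut_nonneg _ _)
    ?_)) (sq_nonneg e)) (mul_le_choq hs hw.mul_self_nonneg (pow_pos he 2))
  have h : w * w = cfc (fun t : ℝ => t * t) w := by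
    rw [← id_mul_cfc continuous_id' hw, cfc_id' ℝ w]
  rw [h, cut, cut, ← cfc_comp' _ _ w]
  refine CSub.cfc_supp hw (by fun_prop) (by fun_prop) (fun _ _ => le_max_right _ _)
    (fun _ _ => le_max_right _ _) fun t _ ht => max_eq_right ?_
  nlinarith [max_eq_right_iff.1 ht]

theorem RData.choq_hom (S : RData D) (hs : IsState (W.u D) s) (p : D →⋆ₐ[ℂ] D) {x : D}
    (hx : IsSelfAdjoint x) :
    choq (fun a : D => s (cls1 a)) (p x) = choq (fun a : D => s (cls1 a)) x := by
  rw [(dimFn_of_state hs).choq_eq (hx.map p) (NonUnitalStarAlgHom.norm_apply_le p x), choq]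
  simp only [← map_cut1 p _ hx, S.cls1_hom p (cut_nonneg _ _)]

namespace RData

variable (S : RData D)

/-- The average of the two legs. -/
noncomputable def r4T (x : D) : D := (2⁻¹ : ℝ) • (S.al x + S.be x)

variable (s) in
/-- The variance. -/
noncomputable def r4V (x : D) : ℝ :=
  choq (fun a : D => s (cls1 a)) (x * x) - choq (fun a : D => s (cls1 a)) (S.al x * S.be x)

theorem r4_sa {x : D} (hx : IsSelfAdjoint x) : IsSelfAdjoint (S.r4T x) :=
  (IsSelfAdjoint.all _).smul ((hx.map S.al).add (hx.map S.be))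

theorem r4_norm (x : D) : ‖S.r4T x‖ ≤ ‖x‖ := by
  rw [r4T, norm_smul, Real.norm_of_nonneg (by norm_num)]
  linarith [norm_add_le (S.al x) (S.be x), NonUnitalStarAlgHom.norm_apply_le S.al x,
    NonUnitalStarAlgHom.norm_apply_le S.be x]

theorem r4_ab (hs : IsState (W.u D) s) {x y : D} (hx : IsSelfAdjoint x) (hy : IsSelfAdjoint y) :
    choq (fun a : D => s (cls1 a)) (S.al x + S.be y) =
      choq (fun a : D => s (cls1 a)) x + choq (fun a : D => s (cls1 a)) y := by
  rw [(dimFn_of_state hs).choq_add (hx.map _) (hy.map _) (S.comm x y), S.choq_hom hs _ hx,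
    S.choq_hom hs _ hy]

theorem r4_T (hs : IsState (W.u D) s) {x : D} (hx : IsSelfAdjoint x) :
    choq (fun a : D => s (cls1 a)) (S.r4T x) = choq (fun a : D => s (cls1 a)) x := by
  rw [r4T, (dimFn_of_state hs).choq_smul ((hx.map _).add (hx.map _)), S.r4_ab hs hx hx]
  ring

theorem r4_pq {x y : D} (hx : IsSelfAdjoint x) (hy : IsSelfAdjoint y) :
    IsSelfAdjoint (S.al x * S.be y) := ((hx.map _).commute_iff (hy.map _)).1 (S.comm x y)

theorem r4_sq (hs : IsState (W.u D) s) {x : D} (hx : IsSelfAdjoint x) (c : ℝ) :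
    choq (fun a : D => s (cls1 a)) ((S.al x + c • S.be x) * (S.al x + c • S.be x)) =
      (1 + c ^ 2) * choq (fun a : D => s (cls1 a)) (x * x) +
        2 * c * choq (fun a : D => s (cls1 a)) (S.al x * S.be x) := by
  have hν := dimFn_of_state hs
  have h2 : IsSelfAdjoint (x * x) := by simpa only [sq] using hx.pow 2
  have e : (S.al x + c • S.be x) * (S.al x + c • S.be x) =
      S.al (x * x) + S.be (c ^ 2 • (x * x)) + (2 * c) • (S.al x * S.be x) := by
    simp only [map_mul, r4_smul, add_mul, mul_add, smul_mul_assoc, mul_smul_comm,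
      ← (S.comm x x).eq]
    module
  have h3 := (IsSelfAdjoint.all (c ^ 2)).smul h2
  rw [e, hν.choq_add ((h2.map _).add (h3.map _)) ((IsSelfAdjoint.all _).smul (S.r4_pq hx hx))
    (Commute.smul_right (Commute.add_left
      ((((Commute.refl x).mul_left (.refl x)).map S.al).mul_right (S.comm _ _))
      ((S.comm _ _).symm.mul_right ((((Commute.refl x).mul_left (.refl x)).smul_left _).map S.be)))
      _), S.r4_ab hs h2 h3, hν.choq_smul h2, hν.choq_smul (S.r4_pq hx hx)]
  ring

theorem r4_c (hs : IsState (W.u D) s) {x : D} (hx : IsSelfAdjoint x) :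
    choq (fun a : D => s (cls1 a)) (S.al (S.r4T x) * S.be (S.r4T x)) =
      choq (fun a : D => s (cls1 a)) (S.al x * S.be x) := by
  have hν := dimFn_of_state hs
  have h1 : ∀ p q : D →⋆ₐ[ℂ] D, choq (fun a : D => s (cls1 a)) (S.al (p x) * S.be (q x)) =
      choq (fun a : D => s (cls1 a)) (S.al x * S.be x) := fun p q => by
    obtain ⟨χ, a, b⟩ := S.univ D (S.al.comp p) (S.be.comp q) fun _ _ => S.comm _ _
    rw [← S.choq_hom hs χ (S.r4_pq hx hx), map_mul, a, b]
    rfl
  have c : ∀ {a b a' b' : D}, Commute a a' → Commute b b' →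
      Commute (S.al a * S.be b) (S.al a' * S.be b') := fun h h' =>
    ((h.map S.al).mul_right (S.comm _ _)).mul_left ((S.comm _ _).symm.mul_right (h'.map S.be))
  have a := hx.map S.al
  have b := hx.map S.be
  have ab := S.comm x x
  have h2 : ∀ p : D →⋆ₐ[ℂ] D, choq (fun a : D => s (cls1 a))
      (S.al (p x) * S.be (S.al x + S.be x)) =
      2 * choq (fun a : D => s (cls1 a)) (S.al x * S.be x) := fun p => by
    rw [map_add, mul_add, hν.choq_add (S.r4_pq (hx.map p) a) (S.r4_pq (hx.map p) b)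
      (c (.refl _) ab), h1, h1, two_mul]
  rw [r4T, r4_smul, r4_smul, smul_mul_smul_comm, hν.choq_smul (S.r4_pq (a.add b) (a.add b)),
    map_add S.al, add_mul, hν.choq_add (S.r4_pq a (a.add b)) (S.r4_pq b (a.add b))
      (c ab (.refl _)), h2, h2]
  ring

theorem r4_V (hs : IsState (W.u D) s) {x : D} (hx : IsSelfAdjoint x) :
    S.r4V s (S.r4T x) = 2⁻¹ * S.r4V s x := by
  have a := (hx.map S.al).add (hx.map S.be)
  have := S.r4_sq hs hx 1
  rw [one_smul] at this
  rw [r4V, r4V, S.r4_c hs hx, r4T, smul_mul_smul_comm,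
    (dimFn_of_state hs).choq_smul (by simpa only [sq] using a.pow 2), this]
  ring

theorem r4_key (hs : IsState (W.u D) s) {R e : ℝ} (he : 0 < e) (n : ℕ) : ∀ {x y : D},
    IsSelfAdjoint x → IsSelfAdjoint y → ‖x‖ + ‖y‖ ≤ R →
    |choq (fun a : D => s (cls1 a)) (x + y) - (choq (fun a : D => s (cls1 a)) x +
      choq (fun a : D => s (cls1 a)) y)| ≤ e + 4 * R / e ^ 2 * S.r4V s y * 2⁻¹ ^ n := by
  induction n with
  | zero =>
    intro x y hx hy hR
    have h0 : 0 ≤ R := le_trans (by positivity) hR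
    have n : ∀ p q : D →⋆ₐ[ℂ] D, ‖p x + q y‖ ≤ R := fun p q => (norm_add_le _ _).trans
      ((add_le_add (NonUnitalStarAlgHom.norm_apply_le p x)
        (NonUnitalStarAlgHom.norm_apply_le q y)).trans hR)
    have a : ∀ {u v w : D}, IsSelfAdjoint u → IsSelfAdjoint v → ‖u‖ ≤ R → ‖v‖ ≤ R → w = u - v →
        choq (fun a : D => s (cls1 a)) (w * w) = 2 * S.r4V s y →
        choq (fun a : D => s (cls1 a)) u ≤ choq (fun a : D => s (cls1 a)) v +
          (e + 4 * R / e ^ 2 * S.r4V s y) := fun {u v w} hu hv h1 h2 h3 h4 => by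
      have hw : IsSelfAdjoint w := h3 ▸ hu.sub hv
      have b := choq_le_add hs hu hv (cut_nonneg e w) he.le h1 h2 (by
        rw [add_assoc, add_comm (e • _), ← sub_le_iff_le_add', ← h3]
        exact r4_le_cut hw e)
      have c := mul_le_mul_of_nonneg_left ((le_div_iff₀' (pow_pos he 2)).2
        (h4 ▸ cheb_choq hs hw he)) (mul_nonneg two_pos.le h0)
      have : 2 * R * (2 * S.r4V s y / e ^ 2) = 4 * R / e ^ 2 * S.r4V s y := by ring
      linarith
    have b : choq (fun a : D => s (cls1 a)) ((S.al y - S.be y) * (S.al y - S.be y)) =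
        2 * S.r4V s y := by
      have := S.r4_sq hs hy (-1)
      rw [neg_one_smul, ← sub_eq_add_neg] at this
      rw [this, r4V]
      ring
    have u := (hx.map S.al).add (hy.map S.al)
    have v := (hx.map S.al).add (hy.map S.be)
    have c := a u v (n _ _) (n _ _) (by abel) b
    have d := a v u (w := -(S.al y - S.be y)) (n _ _) (n _ _) (by abel) (by rwa [neg_mul_neg])
    rw [← map_add, S.choq_hom hs _ (hx.add hy), S.r4_ab hs hx hy] at c d
    rw [pow_zero, mul_one, abs_le]
    constructor <;> linarith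
  | succ n ih =>
    intro x y hx hy hR
    have := ih (S.r4_sa hx) (S.r4_sa hy) ((add_le_add (S.r4_norm x) (S.r4_norm y)).trans hR)
    rw [show S.r4T x + S.r4T y = S.r4T (x + y) by simp only [r4T, map_add]; module,
      S.r4_T hs (hx.add hy), S.r4_T hs hx, S.r4_T hs hy, S.r4_V hs hy] at this
    exact this.trans_eq (by ring)

end RData

theorem RData.choq_add (S : RData D) (hs : IsState (W.u D) s) {a b : D} (ha : IsSelfAdjoint a)
    (hb : IsSelfAdjoint b) : choq (fun a : D => s (cls1 a)) (a + b) =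
      choq (fun a : D => s (cls1 a)) a + choq (fun a : D => s (cls1 a)) b := by
  refine sub_eq_zero.1 (abs_nonpos_iff.1 (le_of_forall_pos_le_add fun e he => ?_))
  refine ge_of_tendsto' (x := atTop) ?_ fun n => S.r4_key hs he n ha hb le_rfl
  simpa using ((tendsto_pow_atTop_nhds_zero_of_lt_one (r := (2⁻¹ : ℝ)) (by norm_num)
    (by norm_num)).const_mul (4 * (‖a‖ + ‖b‖) / e ^ 2 * S.r4V s b)).const_add e

theorem RData.trace_of_state (S : RData D) (hs : IsState (W.u D) s) :
    ∃ τ : D →ₚ[ℂ] ℂ, IsTracialState τ ∧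
      (∀ x : D, 0 ≤ x → ∀ e : ℝ, 0 < e → e * s (cls1 (cut e x)) ≤ (τ x).re) ∧
        ∀ y : D, 0 ≤ y → y ≤ 1 → (τ y).re ≤ s (cls1 y) := by
  have hν := dimFn_of_state hs
  let f : D →ₗ[ℂ] ℂ :=
    { toFun := choqC fun a : D => s (cls1 a)
      map_add' x y := by
        simp only [choqC, map_add, AddSubgroup.coe_add]
        rw [S.choq_add hs (ℜ x).2 (ℜ y).2, S.choq_add hs (ℑ x).2 (ℑ y).2]
        push_cast
        ring
      map_smul' c x := by
        have e1 : (ℜ (c • x) : D) = c.re • (ℜ x : D) + (-c.im) • (ℑ x : D) := by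
          rw [realPart_smul, sub_eq_add_neg, neg_smul]
          rfl
        have e2 : (ℑ (c • x) : D) = c.re • (ℑ x : D) + c.im • (ℜ x : D) := by
          rw [imaginaryPart_smul]
          rfl
        rw [choqC, choqC, e1, e2, S.choq_add hs ((IsSelfAdjoint.all _).smul (ℜ x).2)
          ((IsSelfAdjoint.all _).smul (ℑ x).2), S.choq_add hs ((IsSelfAdjoint.all _).smul (ℑ x).2)
          ((IsSelfAdjoint.all _).smul (ℜ x).2), hν.choq_smul (ℜ x).2, hν.choq_smul (ℑ x).2,
          hν.choq_smul (ℜ x).2, hν.choq_smul (ℑ x).2]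
        apply Complex.ext
        · simp
          ring
        · simp }
  have f1 : ∀ {x : D}, IsSelfAdjoint x → f x = choq (fun a : D => s (cls1 a)) x := hν.choqC_sa
  have f2 : ∀ (p : D →⋆ₐ[ℂ] D) x, f (p x) = f x := fun p x => by
    change choqC _ _ = choqC _ _
    rw [choqC, choqC, ← map_realPart, ← map_imaginaryPart, S.choq_hom hs p (ℜ x).2,
      S.choq_hom hs p (ℑ x).2]
  refine ⟨.mk₀ f fun x hx => ?_, ⟨(f1 (.one D)).trans ?_, fun x y => ?_⟩, fun x hx e he => ?_,
    fun y hy h => ?_⟩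
  · rw [f1 (.of_nonneg hx)]
    exact Complex.zero_le_real.2 (hν.choq_nonneg hx)
  · rw [hν.choq_one, show s (cls1 1) = 1 from hs.unit, Complex.ofReal_one]
  · refine LinearMap.eqOn_span' (f := f ∘ₗ LinearMap.mulRight ℂ y) (g := f ∘ₗ LinearMap.mulLeft ℂ y)
      (s := unitary D) (fun u hu => ?_) (CStarAlgebra.span_unitary D ▸ Submodule.mem_top)
    refine Eq.trans ?_ (f2 (Unitary.conjStarAlgAut ℂ D ⟨u, hu⟩) (y * u))
    change f (u * y) = f (u * (y * u) * star u)
    rw [mul_assoc, mul_assoc, Unitary.mul_star_self_of_mem hu, mul_one]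
  · exact (mul_le_choq hs hx he).trans_eq (congrArg Complex.re (f1 (.of_nonneg hx))).symm
  · exact (congrArg Complex.re (f1 (.of_nonneg hy))).trans_le
      (hν.choq_le hy ((CStarAlgebra.norm_le_one_iff_of_nonneg y hy).2 h))

end Pool.Agent.Izumi
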