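import Pool.Agent.Lib.MP_b2135d_an.R3
import Pool.Agent.Lib.MP_b2135d_an.R4

/-! Comparison: the tracial and the traceless case. -/

namespace Pool.Agent.Izumi

open scoped ComplexOrder
open Pool.Agent.Lib.MP_f90f6c_an.H50

variable {D : Type} [CStarAlgebra D] [PartialOrder D] [StarOrderedRing D]

theorem r5_iter {u c : W D} {m d : ℕ} (h : (m + d) • u ≤ m • u + c) (n : ℕ) :
    (n * d) • u ≤ m • u + n • c := by
  have key : (m + n * d) • u ≤ m • u + n • c := by
    induction n with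
    | zero => simp
    | succ n ih =>
      calc (m + (n + 1) * d) • u = (n * d) • u + (m + d) • u := by
            rw [← add_nsmul]
            congr 1
            ring
        _ ≤ (n * d) • u + (m • u + c) := add_le_add le_rfl h
        _ = (m + n * d) • u + c := by
            rw [add_nsmul]
            abel
        _ ≤ m • u + n • c + c := add_le_add ih le_rfl
        _ = m • u + (n + 1) • c := by rw [succ_nsmul, add_assoc]
  exact (W.nsmul_le (Nat.le_add_left _ _) u).trans key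

omit [StarOrderedRing D] in
theorem r5_re_nonneg (τ : D →ₚ[ℂ] ℂ) {x : D} (hx : 0 ≤ x) : 0 ≤ (τ x).re :=
  (Complex.nonneg_iff.1 (τ.map_nonneg hx)).1

theorem r5_re_mono (τ : D →ₚ[ℂ] ℂ) {x y : D} (h : x ≤ y) : (τ x).re ≤ (τ y).re := by
  have := r5_re_nonneg τ (sub_nonneg.2 h)
  rw [map_sub, Complex.sub_re] at this
  linarith

theorem r5_LL {x : D} (hx : 0 ≤ x) {e e' : ℝ} (h : e < e') :
    LL (cls1 (cut e' x)) (cls1 (cut e x)) := by
  rw [cls1, cls1, map_cut1 oneBy e' (.of_nonneg hx), map_cut1 oneBy e (.of_nonneg hx)]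
  exact LL.cut_cut (oneBy_nonneg hx) h

theorem r5_fix {a : D} (ha : 0 ≤ a) (ha1 : a ≤ 1) {δ : ℝ} (hδ : 0 ≤ δ) {g : ℝ → ℝ}
    (hg : Continuous g) (h0 : ∀ t, t ≤ 1 - δ → g t = 0) (w : D) :
    ‖a * (cfc g a * w) - cfc g a * w‖ ≤ δ * ‖cfc g a * w‖ := by
  have hs : IsSelfAdjoint a := .of_nonneg ha
  have hf : Continuous fun t : ℝ => t * g t - g t := by fun_prop
  have e1 : a * (cfc g a * w) - cfc g a * w = cfc (fun t => t * g t - g t) a * w := by
    rw [cfc_sub _ _ a (by fun_prop) hg.continuousOn, ← id_mul_cfc hg hs, sub_mul, mul_assoc]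
  have e2 : cfc (fun t => t * g t - g t) a * cfc (fun t => t * g t - g t) a ≤
      (δ * δ) • (cfc g a * cfc g a) := by
    rw [cfc_mul_cfc hf hf, cfc_mul_cfc hg hg, ← cfc_smul (δ * δ) _ a (by fun_prop)]
    refine cfc_mono (fun t ht => ?_) (by fun_prop) (by fun_prop)
    have h1 : t ≤ 1 := (CFC.le_one_iff (R := ℝ) a hs).1 ha1 t ht
    rcases le_total t (1 - δ) with h | h
    · simp [h0 t h]
    · have h2 : (1 - t) * (1 - t) ≤ δ * δ :=
        mul_self_le_mul_self (by linarith) (by linarith)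
      have h3 := mul_le_mul_of_nonneg_right h2 (mul_self_nonneg (g t))
      simp only [smul_eq_mul]
      linarith
  have e3 := star_left_conjugate_le_conjugate e2 w
  have e4 : ‖cfc (fun t => t * g t - g t) a * w‖ ≤ ‖δ • (cfc g a * w)‖ := by
    refine norm_le_of_star_mul_le ?_
    rw [star_smul, star_mul, star_mul, star_cfc, star_cfc, star_trivial δ, smul_mul_smul_comm]
    simpa only [mul_assoc, mul_smul_comm, smul_mul_assoc] using e3
  rwa [e1, ← abs_of_nonneg hδ, ← Real.norm_eq_abs, ← norm_smul]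

theorem RData.wc (S : RData D) {τ : D →ₚ[ℂ] ℂ}
    (uniq : ∀ τ' : D →ₚ[ℂ] ℂ, IsTracialState τ' → ∀ x, τ' x = τ x) {x y : D} (hx : 0 ≤ x)
    (hy : 0 ≤ y) (hy1 : y ≤ 1) {e : ℝ} (he : 0 < e) (h : 8 * (τ x).re < e * (τ y).re) :
    CSub (cut e x) y := by
  have hx0 := r5_re_nonneg τ hx
  have hq : 0 ≤ 2 * (τ x).re / e := by positivity
  have hlt : 2 * (τ x).re / e < (τ y).re / 4 := by
    rw [div_lt_div_iff₀ he (by norm_num)]
    linarith
  obtain ⟨t, ht1, ht2⟩ := exists_between hlt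
  have ht : 0 < t := hq.trans_lt ht1
  have hy0 : y ≠ 0 := by
    rintro rfl
    rw [map_zero, Complex.zero_re] at ht2
    linarith
  obtain ⟨N, M, hN, h1, h2⟩ := rel_of_states (b := 0) (r5_LL hx (half_lt_self he)) ht
    fun s hs => by
      obtain ⟨τ', hτ', h3, -⟩ := S.trace_of_state hs
      have h4 := h3 x hx (e / 2) (half_pos he)
      rw [uniq τ' hτ'] at h4
      rw [map_zero, zero_add]
      refine lt_of_le_of_lt ?_ ht1
      rw [le_div_iff₀ he]
      linarith
  rw [nsmul_zero, zero_add] at h1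
  obtain ⟨k, l, m, h3, h4⟩ : Big (W.u D) (4 * t) (cls1 y) :=
    big_of_states W.zero_le W.exists_le_nsmul fun s hs => by
      obtain ⟨τ', hτ', -, h3⟩ := S.trace_of_state hs
      have h4 := h3 y hy hy1
      rw [uniq τ' hτ'] at h4
      linarith
  have h5 : 0 < ((k : ℝ) + 1) * (4 * t) := by positivity
  obtain ⟨d, rfl⟩ : ∃ d, l = m + d := Nat.exists_eq_add_of_le (by
    have : (m : ℝ) ≤ l := by linarith
    exact_mod_cast this)
  push_cast at h4
  obtain ⟨N₀, h6⟩ := S.full hy hy0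
  have h7 : 0 < (d : ℝ) - (k + 1) * (4 * t) := by linarith
  obtain ⟨n, hn⟩ := exists_nat_gt (4 * t * (m * N₀) / (d - (k + 1) * (4 * t)))
  rw [div_lt_iff₀ h7] at hn
  have h8 : (n * d) • W.u D ≤ (m * N₀ + n * (k + 1)) • cls1 y := by
    refine (r5_iter h3 n).trans ?_
    rw [add_nsmul (cls1 y) (m * N₀), mul_nsmul', mul_nsmul']
    exact add_le_add (nsmul_le_nsmul_right h6 m) le_rfl
  have h9 : 4 * t * ((m * N₀ + n * (k + 1) : ℕ) : ℝ) < ((n * d : ℕ) : ℝ) := by
    push_cast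
    linarith
  generalize m * N₀ + n * (k + 1) = J at h8 h9
  generalize n * d = K at h8 h9
  have hK : 0 < K := by
    have : (0 : ℝ) < K := lt_of_le_of_lt (by positivity) h9
    exact_mod_cast this
  refine csub_of_cls1_le (cut_nonneg e x) hy (S.unperf (cut_nonneg e x) hy (N := K * N)
    (M := M * J) (Nat.mul_pos hK hN) ?_ ?_)
  · have a1 := mul_le_mul_of_nonneg_right h2.le (Nat.cast_nonneg (α := ℝ) J)
    have a2 := mul_le_mul_of_nonneg_right h9.le (Nat.cast_nonneg (α := ℝ) N)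
    have : (4 : ℝ) * (M * J) ≤ K * N := by linarith
    exact_mod_cast this
  · calc (K * N) • cls1 (cut e x) = K • N • cls1 (cut e x) := mul_nsmul' _ _ _
      _ ≤ K • M • W.u D := nsmul_le_nsmul_right h1 K
      _ = M • K • W.u D := by rw [← mul_nsmul', ← mul_nsmul', mul_comm]
      _ ≤ M • J • cls1 y := nsmul_le_nsmul_right h8 M
      _ = (M * J) • cls1 y := (mul_nsmul' _ _ _).symm

/-- Approximate property (SI). -/
theorem RData.asi (S : RData D) {τ : D →ₚ[ℂ] ℂ} (hτ : IsTracialState τ)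
    (uniq : ∀ τ' : D →ₚ[ℂ] ℂ, IsTracialState τ' → ∀ x, τ' x = τ x) {c ε : ℝ} (hc : 0 < c)
    (hε : 0 < ε) : ∃ η : ℝ, 0 < η ∧ ∃ m : ℕ, ∀ e a : D, 0 ≤ e → e ≤ 1 → 0 ≤ a → a ≤ 1 →
      (τ e).re ≤ η → c ≤ (τ (a ^ m)).re → ∃ s : D, ‖star s * s - e‖ ≤ ε ∧ ‖a * s - s‖ ≤ ε := by
  obtain ⟨δ, hδ, hδ1, hδε⟩ : ∃ δ : ℝ, 0 < δ ∧ δ < 1 ∧ 2 * δ * (1 + ε) ≤ ε := by
    refine ⟨ε / (2 * (1 + ε)), by positivity, ?_, le_of_eq (by field_simp)⟩
    rw [div_lt_one (by positivity)]
    linarith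
  obtain ⟨m, hm⟩ := exists_pow_lt_of_lt_one (half_pos hc) (sub_lt_self 1 hδ)
  refine ⟨ε * c / 64, by positivity, m, fun e a he he1 ha ha1 h1 h2 => ?_⟩
  have hs : IsSelfAdjoint a := .of_nonneg ha
  let g : ℝ → ℝ := fun t => max (min ((t - (1 - 2 * δ)) / δ) 1) 0
  have hg : Continuous g := by fun_prop
  have g0 : ∀ t, 0 ≤ g t := fun t => le_max_right _ _
  have g1 : ∀ t, g t ≤ 1 := fun t => max_le (min_le_right _ _) zero_le_one
  have g2 : ∀ t, t ≤ 1 - 2 * δ → g t = 0 := fun t ht =>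
    max_eq_right ((min_le_left _ _).trans (div_nonpos_of_nonpos_of_nonneg (by linarith) hδ.le))
  have g3 : ∀ t, 1 - δ ≤ t → g t = 1 := fun t ht => by
    have : (1 : ℝ) ≤ (t - (1 - 2 * δ)) / δ := by
      rw [le_div_iff₀ hδ]
      linarith
    simp only [g, min_eq_right this, max_eq_left zero_le_one]
  have ey := cfc_mul_cfc hg hg a
  have hy : 0 ≤ cfc g a * cfc g a := by
    rw [ey]
    exact cfc_nonneg fun t _ => mul_self_nonneg _
  have hy1 : cfc g a * cfc g a ≤ 1 := by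
    rw [ey]
    exact cfc_le_one _ a fun t _ => mul_le_one₀ (g1 t) (g0 t) (g1 t)
  have h3 : a ^ m ≤ cfc g a * cfc g a + algebraMap ℝ D ((1 - δ) ^ m) := by
    rw [ey, ← cfc_pow_id (R := ℝ) a m hs, ← cfc_const ((1 - δ) ^ m) a hs,
      ← cfc_add a _ _ (by fun_prop) (by fun_prop)]
    refine cfc_mono (fun t ht => ?_) (by fun_prop) (by fun_prop)
    have t0 := spectrum_nonneg_of_nonneg ha ht
    have t1 : t ≤ 1 := (CFC.le_one_iff (R := ℝ) a hs).1 ha1 t ht
    rcases le_total t (1 - δ) with h | h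
    · exact (pow_le_pow_left₀ t0 h m).trans (le_add_of_nonneg_left (mul_self_nonneg _))
    · rw [g3 t h, one_mul]
      exact (pow_le_one₀ t0 t1).trans (le_add_of_nonneg_right (pow_nonneg (by linarith) m))
  have h4 := r5_re_mono τ h3
  have h5 : (τ (algebraMap ℝ D ((1 - δ) ^ m))).re = (1 - δ) ^ m := by
    rw [Algebra.algebraMap_eq_smul_one, ← Complex.coe_smul, map_smul, hτ.1, smul_eq_mul, mul_one,
      Complex.ofReal_re]
  rw [map_add, Complex.add_re, h5] at h4
  have h6 : 8 * (τ e).re < ε / 2 * (τ (cfc g a * cfc g a)).re := by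
    have a1 : c / 2 ≤ (τ (cfc g a * cfc g a)).re := by linarith
    have a2 := mul_le_mul_of_nonneg_left a1 (half_pos hε).le
    have a3 := mul_pos hε hc
    linarith
  obtain ⟨v, hv⟩ := (S.wc uniq he hy hy1 (half_pos hε) h6).exists_near (half_pos hε)
  have h7 : ‖star (cfc g a * star v) * (cfc g a * star v) - e‖ ≤ ε := by
    have e1 : star (cfc g a * star v) * (cfc g a * star v) - e =
        -(cut (ε / 2) e - v * (cfc g a * cfc g a) * star v) - (e - cut (ε / 2) e) := by
      rw [star_mul, star_star, star_cfc]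
      noncomm_ring
    rw [e1]
    refine (norm_sub_le _ _).trans ?_
    rw [norm_neg]
    linarith [norm_sub_cut (half_pos hε).le he]
  refine ⟨cfc g a * star v, h7, (r5_fix ha ha1 (δ := 2 * δ) (by positivity) hg g2 _).trans ?_⟩
  generalize cfc g a * star v = s at h7
  have h8 : ‖s‖ * ‖s‖ ≤ 1 + ε := by
    have a1 := norm_le_norm_add_norm_sub' (star s * s) e
    have a2 := (CStarAlgebra.norm_le_one_iff_of_nonneg e he).2 he1
    rw [CStarRing.norm_star_mul_self] at a1
    linarith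
  have h9 : ‖s‖ ≤ 1 + ε := by
    by_contra hlt
    have := not_le.1 hlt
    nlinarith
  exact (mul_le_mul_of_nonneg_left h9 (by positivity)).trans hδε

/-- Pure infiniteness in the traceless case. -/
theorem RData.pi (S : RData D) (h : ∀ τ : D →ₚ[ℂ] ℂ, ¬IsTracialState τ) {y : D} (hy : 0 ≤ y)
    (hy0 : y ≠ 0) : ∃ s : D, star s * y * s = 1 := by
  obtain ⟨k, l, m, h1, h2⟩ : Big (W.u D) 0 0 :=
    big_of_states W.zero_le W.exists_le_nsmul fun s hs => by
      obtain ⟨τ, hτ, -⟩ := S.trace_of_state hs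
      exact (h τ hτ).elim
  rw [mul_zero, zero_add, Nat.cast_lt] at h2
  obtain ⟨d, rfl⟩ := Nat.exists_eq_add_of_lt h2
  rw [add_assoc, nsmul_zero] at h1
  obtain ⟨N₀, h3⟩ := S.full hy hy0
  have h4 := r5_iter h1 (4 * (m * N₀) + 1)
  rw [nsmul_zero, add_zero] at h4
  refine exists_conj_eq_one hy (S.unperf zero_le_one hy (N := (4 * (m * N₀) + 1) * (d + 1))
    (M := m * N₀) (by positivity) ((Nat.le_succ _).trans (Nat.le_mul_of_pos_right _ d.succ_pos))
    (h4.trans ?_))
  rw [mul_nsmul']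
  exact nsmul_le_nsmul_right h3 m

/-- Approximate form of pure infiniteness. -/
theorem r5_api [Nontrivial D] (hpi : ∀ y : D, 0 ≤ y → y ≠ 0 → ∃ s : D, star s * y * s = 1)
    {a : D} (ha : 0 ≤ a) (ha1 : a ≤ 1) {ε : ℝ} (hε : 0 < ε) (h : 1 - ε < ‖a‖) :
    ∃ t : D, star t * t = 1 ∧ ‖a * t - t‖ ≤ ε := by
  rcases le_total 1 ε with h1 | h1
  · refine ⟨1, by rw [star_one, one_mul], ?_⟩
    rw [mul_one, norm_sub_rev]
    exact ((CStarAlgebra.norm_le_one_iff_of_nonneg _ (sub_nonneg.2 ha1)).2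
      (sub_le_self 1 ha)).trans h1
  have hr : cut (1 - ε) a ≠ 0 := fun h0 => by
    have := norm_sub_cut (sub_nonneg.2 h1) ha
    rw [h0, sub_zero] at this
    linarith
  obtain ⟨s, hs⟩ := hpi _ (star_mul_self_nonneg (cut (1 - ε) a))
    fun h0 => hr (eq_zero_of_star_mul_self h0)
  have h2 : star (cut (1 - ε) a * s) * (cut (1 - ε) a * s) = 1 := by
    rw [← hs, star_mul]
    simp only [mul_assoc]
  have h3 : ‖cut (1 - ε) a * s‖ = 1 := by
    have := CStarRing.norm_star_mul_self (x := cut (1 - ε) a * s)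
    rw [h2, norm_one] at this
    exact (mul_self_eq_one_iff.1 this.symm).resolve_right fun h4 => by
      linarith [norm_nonneg (cut (1 - ε) a * s)]
  have h4 := r5_fix ha ha1 hε.le (g := fun t => max (t - (1 - ε)) 0) (by fun_prop)
    (fun t ht => max_eq_right (sub_nonpos.2 ht)) s
  refine ⟨_, h2, h4.trans (le_of_eq ?_)⟩
  exact (congrArg (ε * ·) h3).trans (mul_one ε)

/-- Isometries with orthogonal ranges. -/
theorem RData.exists_isometries (S : RData D)
    (hpi : ∀ y : D, 0 ≤ y → y ≠ 0 → ∃ s : D, star s * y * s = 1) :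
    ∃ t : ℕ → D, ∀ i j, star (t i) * t j = if i = j then 1 else 0 := by
  obtain ⟨a, b, ha, hb, hab⟩ := S.zd
  obtain ⟨s₁, h₁⟩ := hpi _ (star_mul_self_nonneg (star a))
    fun h0 => ha (star_eq_zero.1 (eq_zero_of_star_mul_self h0))
  obtain ⟨s₂, h₂⟩ := hpi _ (star_mul_self_nonneg b) fun h0 => hb (eq_zero_of_star_mul_self h0)
  have e₁ : star (star a * s₁) * (star a * s₁) = 1 := by
    rw [← h₁, star_mul]
    simp only [mul_assoc]
  have e₂ : star (b * s₂) * (b * s₂) = 1 := by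
    rw [← h₂, star_mul]
    simp only [mul_assoc]
  have e₃ : star (star a * s₁) * (b * s₂) = 0 := by
    rw [star_mul, star_star, mul_assoc, ← mul_assoc a, hab, zero_mul, mul_zero]
  generalize star a * s₁ = p at e₁ e₃
  generalize b * s₂ = q at e₂ e₃
  have e₄ : star q * p = 0 := by
    have := congrArg star e₃
    rwa [star_mul, star_star, star_zero] at this
  refine ⟨fun n => q ^ n * p, fun i => ?_⟩
  beta_reduce
  induction i with
  | zero =>
    intro j
    cases j with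
    | zero => simpa using e₁
    | succ j =>
      rw [if_neg j.succ_ne_zero.symm, pow_zero, one_mul, pow_succ', mul_assoc, ← mul_assoc, e₃,
        zero_mul]
  | succ i ih =>
    intro j
    cases j with
    | zero =>
      rw [if_neg i.succ_ne_zero, pow_zero, one_mul, pow_succ', mul_assoc, star_mul, mul_assoc, e₄,
        mul_zero]
    | succ j =>
      have := ih j
      simp only [Nat.add_right_cancel_iff]
      rw [← this, pow_succ', pow_succ', mul_assoc q, mul_assoc q, star_mul q, mul_assoc,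
        ← mul_assoc (star q), e₂, one_mul]

end Pool.Agent.Izumi
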