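import Pool.Agent.Lib.MP_b2135d_an.XDefs
import Pool.Agent.Lib.MP_f90f6c_an.H50SQ
import Pool.Agent.Lib.MP_f90f6c_an.H50LL
import Pool.Agent.Lib.MP_f90f6c_an.H50Simple

/-! Definitions for the comparison theory of `D` (section R). -/

namespace Pool.Agent.Izumi

open scoped ComplexOrder

/-- The structure of `D` used for comparison. -/
structure RData (D : Type) [CStarAlgebra D] extends DData D where
  au : ∀ (p : D →⋆ₐ[ℂ] D) (s : Finset D) (ε : ℝ), 0 < ε →
    ∃ u ∈ unitary D, ∀ x ∈ s, ‖u * x * star u - p x‖ ≤ ε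
  simple : ∀ a : D, a ≠ 0 → ∃ (n : ℕ) (x y : Fin n → D), ∑ i, x i * a * y i = 1
  zd : ∃ a b : D, a ≠ 0 ∧ b ≠ 0 ∧ a * b = 0

/-- An order zero system of matrix units. -/
structure OZ {D ι : Type} [CStarAlgebra D] [Fintype ι] [DecidableEq ι] (ψ : ι → ι → D) :
    Prop where
  star : ∀ i j, star (ψ i j) = ψ j i
  mul : ∀ i j k l, ψ i j * ψ k l = if j = k then (∑ a, ψ a a) * ψ i l else 0

/-- The combination of two commuting order zero systems. -/
noncomputable def ozComb {D ι : Type} [CStarAlgebra D] [Fintype ι] (ψ φ : ι → ι → D) (i j : ι) :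
    D :=
  (∑ a, ψ a a) * ψ i j + (∑ a, φ a a) * φ i j + Complex.I • ∑ l, ψ l j * φ i l -
    Complex.I • ∑ l, ψ i l * φ l j

/-- `x` is dominated by multiples of `y` up to small scalars. -/
def Dom {D : Type} [CStarAlgebra D] [PartialOrder D] (x y : D) : Prop :=
  ∀ e : ℝ, 0 < e → ∃ M : ℝ, 0 ≤ M ∧ x ≤ M • y + e • (1 : D)

end Pool.Agent.Izumi
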