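import Pool.Agent.Lib.MP_b2135d_an.Core

/-! Invariant means give Foelner sets (through Hall's marriage theorem). -/

namespace Pool.Agent.Izumi

open scoped Pointwise

variable {G : Type} [Group G]

theorem rf_expand [DecidableEq G] (h : ¬Foel G) : ∃ (S : Finset G) (ε : ℝ), 0 < ε ∧
    ∀ F : Finset G, (1 + ε) * (F.card : ℝ) ≤ (S * F).card := by
  simp only [Foel, not_forall, not_exists, not_and, not_le] at h
  obtain ⟨s, ε, hε, h⟩ := h
  refine ⟨insert 1 s, ε, hε, fun F => ?_⟩
  rcases F.eq_empty_or_nonempty with rfl | hF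
  · simp
  obtain ⟨g, hg, h1⟩ := h F hF
  have e1 : {x | x ∈ F ∧ g⁻¹ * x ∈ F} = ((F ∩ g • F : Finset G) : Set G) := by
    ext x
    rw [Finset.mem_coe, Finset.mem_inter, ← Finset.inv_smul_mem_iff]
    rfl
  rw [e1, Set.ncard_coe_finset] at h1
  have e2 : (F ∪ g • F).card + (F ∩ g • F).card = F.card + F.card := by
    rw [Finset.card_union_add_card_inter, Finset.card_smul_finset]
  have e3 : F ∪ g • F ⊆ insert 1 s * F := by
    intro x hx
    rcases Finset.mem_union.1 hx with hx | hx
    · simpa using Finset.mul_mem_mul (Finset.mem_insert_self 1 s) hx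
    · obtain ⟨y, hy, rfl⟩ := Finset.mem_smul_finset.1 hx
      exact Finset.mul_mem_mul (Finset.mem_insert_of_mem hg) hy
  have e4 : ((F ∪ g • F).card : ℝ) ≤ (insert 1 s * F).card := Nat.cast_le.2 (Finset.card_le_card e3)
  have e5 : ((F ∪ g • F).card : ℝ) + (F ∩ g • F).card = F.card + F.card := by exact_mod_cast e2
  linarith

theorem rf_double [DecidableEq G] (h : ¬Foel G) : ∃ K : Finset G,
    ∀ F : Finset G, 2 * F.card ≤ (K * F).card := by
  obtain ⟨S, ε, hε, h⟩ := rf_expand h
  have h1 : ∀ (n : ℕ) (F : Finset G), (1 + ε) ^ n * (F.card : ℝ) ≤ (S ^ n * F).card := by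
    intro n F
    induction n with
    | zero => simp
    | succ n ih =>
      rw [pow_succ' S, mul_assoc, pow_succ', mul_assoc]
      exact (mul_le_mul_of_nonneg_left ih (by positivity)).trans (h _)
  obtain ⟨n, hn⟩ := pow_unbounded_of_one_lt (2 : ℝ) (show 1 < 1 + ε by linarith)
  refine ⟨S ^ n, fun F => ?_⟩
  have h2 := (mul_le_mul_of_nonneg_right hn.le (Nat.cast_nonneg F.card)).trans (h1 n F)
  exact_mod_cast h2

/-- A group with an invariant finitely additive probability measure has Foelner sets. -/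
theorem foel_of_measure (μ : Set G → ℝ) (h0 : ∀ A, 0 ≤ μ A) (h1 : μ Set.univ = 1)
    (hadd : ∀ A B, Disjoint A B → μ (A ∪ B) = μ A + μ B)
    (hinv : ∀ (g : G) A, μ ((fun x => g * x) '' A) = μ A) : Foel G := by
  classical
  by_contra h
  obtain ⟨K, hK⟩ := rf_double h
  obtain ⟨f, hf, hfK⟩ := (Finset.all_card_le_biUnion_card_iff_exists_injective
    (fun p : G × Bool => K.image fun k => k * p.1)).1 (by
      intro Y
      have e1 : Y.card ≤ 2 * (Y.image Prod.fst).card := by
        have : Y ⊆ Y.image Prod.fst ×ˢ (Finset.univ : Finset Bool) := fun p hp =>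
          Finset.mem_product.2 ⟨Finset.mem_image_of_mem _ hp, Finset.mem_univ _⟩
        have h2 := Finset.card_le_card this
        rw [Finset.card_product, Finset.card_univ, Fintype.card_bool] at h2
        omega
      refine (e1.trans (hK _)).trans (Finset.card_le_card fun x hx => ?_)
      obtain ⟨k, hk, y, hy, rfl⟩ := Finset.mem_mul.1 hx
      obtain ⟨p, hp, rfl⟩ := Finset.mem_image.1 hy
      exact Finset.mem_biUnion.2 ⟨p, hp, Finset.mem_image_of_mem _ hk⟩)
  have hempty : μ ∅ = 0 := by
    have := hadd ∅ ∅ disjoint_bot_left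
    rw [Set.union_self] at this
    linarith
  have hsum : ∀ (s : Finset G) (A : G → Set G), (∀ k k', k ≠ k' → Disjoint (A k) (A k')) →
      μ (⋃ k ∈ s, A k) = ∑ k ∈ s, μ (A k) := by
    intro s A hA
    induction s using Finset.induction_on with
    | empty => simpa using hempty
    | insert a s ha ih =>
      rw [Finset.set_biUnion_insert, Finset.sum_insert ha, hadd, ih]
      exact Set.disjoint_iUnion₂_right.2 fun k hk => hA _ _ fun e => ha (e ▸ hk)
  have hone : ∀ b : Bool, μ (Set.range fun x => f (x, b)) = 1 := by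
    intro b
    have e1 : (Set.range fun x => f (x, b)) =
        ⋃ k ∈ K, (fun x => k * x) '' {x | f (x, b) = k * x} := by
      ext z
      simp only [Set.mem_range, Set.mem_iUnion, Set.mem_image, Set.mem_ofPred_eq]
      constructor
      · rintro ⟨x, rfl⟩
        obtain ⟨k, hk, e⟩ := Finset.mem_image.1 (hfK (x, b))
        exact ⟨k, hk, x, e.symm, e⟩
      · rintro ⟨k, -, x, e, rfl⟩
        exact ⟨x, e⟩
    have e2 : (Set.univ : Set G) = ⋃ k ∈ K, {x | f (x, b) = k * x} := by
      ext x
      simp only [Set.mem_univ, Set.mem_iUnion, Set.mem_ofPred_eq, true_iff]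
      obtain ⟨k, hk, e⟩ := Finset.mem_image.1 (hfK (x, b))
      exact ⟨k, hk, e.symm⟩
    rw [e1, hsum, ← h1, e2, hsum]
    · exact Finset.sum_congr rfl fun k _ => hinv _ _
    · intro k k' hk
      exact Set.disjoint_left.2 fun x hx hx' => hk (mul_right_cancel (hx.symm.trans hx'))
    · intro k k' hk
      refine Set.disjoint_left.2 ?_
      rintro _ ⟨x, hx, rfl⟩ ⟨x', hx', e⟩
      have e3 : x' = x := congrArg Prod.fst (hf (hx'.trans (e.trans hx.symm)))
      subst e3
      exact hk (mul_right_cancel e).symm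
  have hd : Disjoint (Set.range fun x => f (x, true)) (Set.range fun x => f (x, false)) := by
    refine Set.disjoint_left.2 ?_
    rintro _ ⟨x, rfl⟩ ⟨x', e⟩
    exact Bool.false_ne_true (congrArg Prod.snd (hf e))
  have e4 := hadd _ _ hd
  have e5 := hadd _ _ (disjoint_compl_right
    (a := (Set.range fun x => f (x, true)) ∪ Set.range fun x => f (x, false)))
  rw [Set.union_compl_self, h1, e4, hone, hone] at e5
  linarith [h0 ((Set.range fun x => f (x, true)) ∪ Set.range fun x => f (x, false))ᶜ]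

/-- A group with an invariant mean on bounded functions has Foelner sets. -/
theorem foel_of_mean (m : (G → ℝ) → ℝ)
    (hadd : ∀ f f' : G → ℝ, (∃ C, ∀ x, |f x| ≤ C) → (∃ C, ∀ x, |f' x| ≤ C) →
      m (fun x => f x + f' x) = m f + m f')
    (h0 : ∀ f : G → ℝ, (∃ C, ∀ x, |f x| ≤ C) → (∀ x, 0 ≤ f x) → 0 ≤ m f) (h1 : m (fun _ => 1) = 1)
    (hinv : ∀ (g : G) (f : G → ℝ), (∃ C, ∀ x, |f x| ≤ C) → m (fun x => f (g⁻¹ * x)) = m f) :
    Foel G := by
  classical
  have hb : ∀ A : Set G, ∃ C, ∀ x, |A.indicator (fun _ => (1 : ℝ)) x| ≤ C := fun A =>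
    ⟨1, fun x => by by_cases h : x ∈ A <;> simp [h]⟩
  refine foel_of_measure (fun A => m (A.indicator fun _ => 1))
    (fun A => h0 _ (hb A) fun x => Set.indicator_nonneg (fun _ _ => zero_le_one) x)
    (by simpa using h1) (fun A B h => ?_) fun g A => ?_
  · rw [← hadd _ _ (hb A) (hb B), Set.indicator_union_of_disjoint h]
  · rw [← hinv g _ (hb A)]
    congr 1
    funext x
    by_cases h : g⁻¹ * x ∈ A
    · rw [Set.indicator_of_mem h, Set.indicator_of_mem]
      exact ⟨_, h, by simp⟩
    · rw [Set.indicator_of_notMem h, Set.indicator_of_notMem]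
      rintro ⟨y, hy, rfl⟩
      exact h (by simpa using hy)

end Pool.Agent.Izumi
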