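import Pool.Agent.Lib.MP_b2135d_an.TA

/-! Filling up by independent towers (PLAN section 6). -/

namespace Pool.Agent.Izumi

open scoped ComplexOrder Matrix
open Filter Topology

section Aux

variable {A : Type} [CStarAlgebra A] [PartialOrder A] [StarOrderedRing A] {τ : A →ₚ[ℂ] ℂ}

theorem tb_mono (h : IsTracialState τ) {a b c : A} (ha : 0 ≤ a) (hbc : b ≤ c) :
    (τ (a * b)).re ≤ (τ (a * c)).re := by
  have h1 := tr_mul_nonneg h ha (sub_nonneg.2 hbc)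
  rw [mul_sub, map_sub, Complex.sub_re] at h1
  linarith

theorem tb_aut_nonneg (θ : A ≃⋆ₐ[ℂ] A) {x : A} (hx : 0 ≤ x) : 0 ≤ θ x := by
  have h1 : θ 0 ≤ θ x := OrderHomClass.mono θ hx
  rwa [map_zero] at h1

theorem tb_aut_mono (θ : A ≃⋆ₐ[ℂ] A) {x y : A} (hx : x ≤ y) : θ x ≤ θ y :=
  OrderHomClass.mono θ hx

theorem tb_drop (h : IsTracialState τ) {a b c d : A} (ha : 0 ≤ a) (hb : 0 ≤ b) (hc : 0 ≤ c)
    (hd : 0 ≤ d) : (τ (a * c)).re + (τ (b * d)).re ≤ (τ ((a + b) * (c + d))).re := by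
  have h1 := tr_mul_nonneg h ha hd
  have h2 := tr_mul_nonneg h hb hc
  have e : (a + b) * (c + d) = a * c + b * d + (a * d + b * c) := by noncomm_ring
  rw [e, map_add, map_add, map_add, Complex.add_re, Complex.add_re, Complex.add_re]
  linarith

end Aux

variable {G A : Type} [Group G] [CStarAlgebra A] [PartialOrder A] [StarOrderedRing A]

/-- The tower over the fibre of `y`. -/
noncomputable def tbTower (γ : G →* (A ≃⋆ₐ[ℂ] A)) {K : Subgroup G} {Y : Type} [MulAction K Y]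
    (Λ : Finset K) (y0 : Y) (r : A) (y : Y) : A :=
  open Classical in ∑ k ∈ Λ with k • y0 = y, γ (k : G) r

omit [PartialOrder A] [StarOrderedRing A] in
theorem tbTower_sum (γ : G →* (A ≃⋆ₐ[ℂ] A)) {K : Subgroup G} {Y : Type} [Fintype Y]
    [MulAction K Y] (Λ : Finset K) (y0 : Y) (r : A) :
    ∑ y, tbTower γ Λ y0 r y = ∑ k ∈ Λ, γ (k : G) r := by
  classical
  unfold tbTower
  exact Finset.sum_fiberwise Λ (fun k => k • y0) (fun k => γ (k : G) r)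

theorem tbTower_nonneg (γ : G →* (A ≃⋆ₐ[ℂ] A)) {K : Subgroup G} {Y : Type} [MulAction K Y]
    (Λ : Finset K) (y0 : Y) {r : A} (hr : 0 ≤ r) (y : Y) : 0 ≤ tbTower γ Λ y0 r y :=
  Finset.sum_nonneg fun _ _ => tb_aut_nonneg _ hr

theorem le_tbTower (γ : G →* (A ≃⋆ₐ[ℂ] A)) {K : Subgroup G} {Y : Type} [MulAction K Y]
    (Λ : Finset K) (y0 : Y) {r : A} (hr : 0 ≤ r) {k : K} (hk : k ∈ Λ) :
    γ (k : G) r ≤ tbTower γ Λ y0 r (k • y0) := by
  classical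
  unfold tbTower
  exact Finset.single_le_sum (f := fun k : K => γ (k : G) r) (fun _ _ => tb_aut_nonneg _ hr)
    (Finset.mem_filter.2 ⟨hk, rfl⟩)

omit [StarOrderedRing A] in
theorem tbTower_mem (X : Sys G A) {K : Subgroup G} {Y : Type} [MulAction K Y]
    (Λ : Finset K) (y0 : Y) {r : A} (hr : r ∈ X.F) (y : Y) : tbTower X.γ Λ y0 r y ∈ X.F :=
  sum_mem fun _ _ => X.act_mem_F _ hr

/-- The diagonal contribution of the tower. -/
theorem tbTower_diag (X : Sys G A) {K : Subgroup G} {Y : Type} [Fintype Y] [MulAction K Y]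
    (Λ : Finset K) (y0 : Y) {r : A} (hr : 0 ≤ r) (l : K) :
    (Set.ncard {x | x ∈ Λ ∧ l⁻¹ * x ∈ Λ} : ℝ) * (X.τ (r * r)).re ≤
      ∑ y, (X.τ (tbTower X.γ Λ y0 r y * X.γ (l : G) (tbTower X.γ Λ y0 r (l⁻¹ • y)))).re := by
  classical
  have e1 : ∀ y, (X.τ (tbTower X.γ Λ y0 r y * X.γ (l : G) (tbTower X.γ Λ y0 r (l⁻¹ • y)))).re =
      ∑ k ∈ Λ with k • y0 = y,
        (X.τ (X.γ (k : G) r * X.γ (l : G) (tbTower X.γ Λ y0 r (l⁻¹ • (k • y0))))).re := by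
    intro y
    have e0 : tbTower X.γ Λ y0 r y = ∑ k ∈ Λ with k • y0 = y, X.γ (k : G) r := by
      unfold tbTower
      exact Finset.sum_congr (by ext k; simp) fun _ _ => rfl
    rw [e0, Finset.sum_mul, map_sum, Complex.re_sum]
    refine Finset.sum_congr rfl fun k hk => ?_
    rw [(Finset.mem_filter.1 hk).2]
  simp_rw [e1]
  rw [Finset.sum_fiberwise Λ (fun k => k • y0)
    (fun k => (X.τ (X.γ (k : G) r * X.γ (l : G) (tbTower X.γ Λ y0 r (l⁻¹ • (k • y0))))).re)]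
  have e2 : {x | x ∈ Λ ∧ l⁻¹ * x ∈ Λ} = ((Λ.filter fun x => l⁻¹ * x ∈ Λ : Finset K) : Set K) := by
    ext x; simp
  rw [e2, Set.ncard_coe_finset]
  calc ((Λ.filter fun x => l⁻¹ * x ∈ Λ).card : ℝ) * (X.τ (r * r)).re
      = ∑ _k ∈ Λ with l⁻¹ * _k ∈ Λ, (X.τ (r * r)).re := by
        rw [Finset.sum_const, nsmul_eq_mul]
    _ ≤ ∑ k ∈ Λ with l⁻¹ * k ∈ Λ,
          (X.τ (X.γ (k : G) r * X.γ (l : G) (tbTower X.γ Λ y0 r (l⁻¹ • (k • y0))))).re := by
        refine Finset.sum_le_sum fun k hk => ?_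
        have hk2 := (Finset.mem_filter.1 hk).2
        have h1 := tb_aut_mono (X.γ (l : G)) (le_tbTower X.γ Λ y0 hr hk2)
        rw [act_act, mul_smul] at h1
        have h2 : (l : G) * ((l⁻¹ * k : K) : G) = k := by simp
        rw [h2] at h1
        have h3 := tb_mono X.tr (tb_aut_nonneg (X.γ (k : G)) hr) h1
        rw [← map_mul, X.inv] at h3
        exact h3
    _ ≤ _ := by
        refine Finset.sum_le_sum_of_subset_of_nonneg (Finset.filter_subset _ _) fun k _ _ => ?_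
        exact tr_mul_nonneg X.tr (tb_aut_nonneg _ hr)
          (tb_aut_nonneg _ (tbTower_nonneg X.γ Λ y0 hr _))

/-- One filling step. -/
theorem Sys.fill_step (X : Sys G A) (K : Subgroup G) {Y : Type} [Fintype Y] [MulAction K Y]
    (L Λ : Finset K) (y0 : Y) {r : A} (hrF : r ∈ X.F) (hr : 0 ≤ r)
    (hsum : ∑ k ∈ Λ, X.γ (k : G) r ≤ 1) {p g : ℝ} (hg : 0 ≤ g)
    (hp : ∀ l ∈ L, p ≤ (Set.ncard {x | x ∈ Λ ∧ l⁻¹ * x ∈ Λ} : ℝ) * (X.τ (r * r)).re)
    (E : Y → A) (hE : ∀ y, E y ∈ X.F ∧ 0 ≤ E y) (hE1 : ∑ y, E y ≤ 1)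
    (hG : ∀ l ∈ L, g ≤ ∑ y, (X.τ (E y * X.γ (l : G) (E (l⁻¹ • y)))).re) :
    ∃ E' : Y → A, (∀ y, E' y ∈ X.F ∧ 0 ≤ E' y) ∧ ∑ y, E' y ≤ 1 ∧
      ∀ l ∈ L, p + (1 - 2 * (Λ.card * (X.τ r).re) + p) * g ≤
        ∑ y, (X.τ (E' y * X.γ (l : G) (E' (l⁻¹ • y)))).re := by
  classical
  set T : A := ∑ k ∈ Λ, X.γ (k : G) r with hT
  set U : A := 1 - T with hU
  have hU0 : 0 ≤ U := sub_nonneg.2 hsum
  have hT0 : 0 ≤ T := Finset.sum_nonneg fun _ _ => tb_aut_nonneg _ hr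
  have hTF : T ∈ X.F := sum_mem fun _ _ => X.act_mem_F _ hrF
  have hUF : U ∈ X.F := sub_mem (one_mem _) hTF
  obtain ⟨𝒮, Ψ, hS, hc⟩ := X.ic (Set.range E)
    (insert U ((fun l : K => U * X.γ (l : G) U) '' (L : Set K))) (Set.countable_range E)
    (((L.countable_toSet).image _).insert U) (by rintro _ ⟨y, rfl⟩; exact (hE y).1)
  have hES : ∀ y, E y ∈ 𝒮 := fun y => hS ⟨y, rfl⟩
  have hcomm : ∀ x ∈ 𝒮, ∀ h : G, Commute (Ψ x) (X.γ h U) := by
    intro x hx h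
    have := X.commute_of_FT (hc.mem x hx) (Set.mem_insert U _) 1 h
    rwa [act_one] at this
  have hcomm1 : ∀ x ∈ 𝒮, Commute U (Ψ x) := by
    intro x hx
    have := hcomm x hx 1
    rw [act_one] at this
    exact this.symm
  have ha0 : ∀ y, 0 ≤ U * Ψ (E y) := fun y =>
    Commute.mul_nonneg hU0 (hc.nonneg (hES y) (hE y).2) (hcomm1 _ (hES y))
  refine ⟨fun y => tbTower X.γ Λ y0 r y + U * Ψ (E y), fun y => ⟨?_, ?_⟩, ?_, ?_⟩
  · exact add_mem (tbTower_mem X Λ y0 hrF y) (mul_mem hUF (X.FT_le_F _ (hc.mem _ (hES y))))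
  · exact add_nonneg (tbTower_nonneg X.γ Λ y0 hr y) (ha0 y)
  · rw [Finset.sum_add_distrib, tbTower_sum, ← Finset.mul_sum, ← map_sum]
    have hm : (1 - ∑ y, E y) ∈ 𝒮 := sub_mem (one_mem _) (sum_mem fun y _ => hES y)
    have h1 := Commute.mul_nonneg hU0 (hc.nonneg hm (sub_nonneg.2 hE1)) (hcomm1 _ hm)
    rw [map_sub, hc.map_one, mul_sub, mul_one, sub_nonneg] at h1
    calc T + U * Ψ (∑ y, E y) ≤ T + U := by gcongr
      _ = 1 := by rw [hU]; abel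
  · intro l hl
    set P : ℝ := ∑ y, (X.τ (tbTower X.γ Λ y0 r y *
      X.γ (l : G) (tbTower X.γ Λ y0 r (l⁻¹ • y)))).re with hP
    set κ : ℝ := (X.τ (U * X.γ (l : G) U)).re with hκ
    have hpP : p ≤ P := (hp l hl).trans (tbTower_diag X Λ y0 hr l)
    have hκ0 : 0 ≤ κ := tr_mul_nonneg X.tr hU0 (tb_aut_nonneg _ hU0)
    have hκim : (X.τ (U * X.γ (l : G) U)).im = 0 :=
      tr_mul_im X.tr hU0.isSelfAdjoint (tb_aut_nonneg _ hU0).isSelfAdjoint
    have hτT : (X.τ T).re = Λ.card * (X.τ r).re := by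
      rw [hT, map_sum, Complex.re_sum]
      simp_rw [X.inv]
      rw [Finset.sum_const, nsmul_eq_mul]
    have hPT : P ≤ (X.τ (T * X.γ (l : G) T)).re := by
      have e : T * X.γ (l : G) T = ∑ y, tbTower X.γ Λ y0 r y * X.γ (l : G) T := by
        rw [← Finset.sum_mul, tbTower_sum]
      rw [e, map_sum, Complex.re_sum]
      refine Finset.sum_le_sum fun y _ => tb_mono X.tr (tbTower_nonneg X.γ Λ y0 hr y)
        (tb_aut_mono _ ?_)
      rw [hT, ← tbTower_sum X.γ Λ y0 r]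
      exact Finset.single_le_sum (f := tbTower X.γ Λ y0 r)
        (fun y _ => tbTower_nonneg X.γ Λ y0 hr y) (Finset.mem_univ _)
    have hκe : κ = 1 - 2 * (Λ.card * (X.τ r).re) + (X.τ (T * X.γ (l : G) T)).re := by
      have e : U * X.γ (l : G) U = 1 - T - X.γ (l : G) T + T * X.γ (l : G) T := by
        rw [hU, map_sub, map_one]; noncomm_ring
      rw [hκ, e, map_add, map_sub, map_sub, X.inv, X.tr.1, Complex.add_re, Complex.sub_re,
        Complex.sub_re, hτT, Complex.one_re]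
      ring
    have hb : ∀ y, (X.τ (U * Ψ (E y) * X.γ (l : G) (U * Ψ (E (l⁻¹ • y))))).re =
        κ * (X.τ (E y * X.γ (l : G) (E (l⁻¹ • y)))).re := by
      intro y
      have hm : X.γ (l : G) (E (l⁻¹ • y)) ∈ 𝒮 := hc.act_mem _ _ (hES _)
      have e : U * Ψ (E y) * X.γ (l : G) (U * Ψ (E (l⁻¹ • y))) =
          (U * X.γ (l : G) U) * Ψ (E y * X.γ (l : G) (E (l⁻¹ • y))) := by
        rw [map_mul, hc.map_mul _ (hES y) _ hm, hc.map_act _ _ (hES _), mul_assoc U,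
          ← mul_assoc (Ψ (E y)), (hcomm _ (hES y) (l : G)).eq]
        simp only [mul_assoc]
      rw [e, hc.indep _ (Set.mem_insert_of_mem U ⟨l, hl, rfl⟩) _ (mul_mem (hES y) hm),
        Complex.mul_re, hκim, zero_mul, sub_zero]
    have hlow : P + κ * ∑ y, (X.τ (E y * X.γ (l : G) (E (l⁻¹ • y)))).re ≤
        ∑ y, (X.τ ((tbTower X.γ Λ y0 r y + U * Ψ (E y)) *
          X.γ (l : G) (tbTower X.γ Λ y0 r (l⁻¹ • y) + U * Ψ (E (l⁻¹ • y))))).re := by
      rw [hP, Finset.mul_sum, ← Finset.sum_add_distrib]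
      refine Finset.sum_le_sum fun y _ => ?_
      rw [← hb y, map_add (X.γ (l : G))]
      exact tb_drop X.tr (tbTower_nonneg X.γ Λ y0 hr y) (ha0 y)
        (tb_aut_nonneg _ (tbTower_nonneg X.γ Λ y0 hr _)) (tb_aut_nonneg _ (ha0 _))
    have h1 : κ * g ≤ κ * ∑ y, (X.τ (E y * X.γ (l : G) (E (l⁻¹ • y)))).re :=
      mul_le_mul_of_nonneg_left (hG l hl) hκ0
    have h2 : (1 - 2 * (Λ.card * (X.τ r).re) + p) * g ≤ κ * g :=
      mul_le_mul_of_nonneg_right (by rw [hκe]; linarith) hg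
    linarith

variable [Countable G]

theorem Sys.fill (X : Sys G A) (K : Subgroup G) {Y : Type} [Fintype Y] [Nonempty Y]
    [MulAction K Y] (L : Finset K) {δ : ℝ} (hδ : 0 < δ) :
    ∃ E : Y → A, (∀ y, E y ∈ X.F ∧ 0 ≤ E y) ∧ ∑ y, E y ≤ 1 ∧
      ∀ l ∈ L, 1 - δ ≤ ∑ y, (X.τ (E y * X.γ (l : G) (E (l⁻¹ • y)))).re := by
  classical
  obtain ⟨y0⟩ := ‹Nonempty Y›
  set d : ℝ := min (δ / 8) 1 with hd
  have hd0 : 0 < d := lt_min (by positivity) one_pos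
  have hd1 : d ≤ 1 := min_le_right _ _
  have hd8 : d ≤ δ / 8 := min_le_left _ _
  obtain ⟨Λ, hΛ, hfo⟩ := X.foel K L d hd0
  obtain ⟨r, hrF, hr, -, hsum, hpos, hsq⟩ :=
    X.orth_elt (Λ.map (Function.Embedding.subtype fun x => x ∈ K)) hd0
  rw [Finset.sum_map] at hsum
  have hn : (0 : ℝ) < Λ.card := by exact_mod_cast hΛ.card_pos
  set s : ℝ := Λ.card * (X.τ r).re with hs
  have hs0 : 0 < s := mul_pos hn hpos
  have hp : ∀ l ∈ L, (1 - d) ^ 2 * s ≤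
      (Set.ncard {x | x ∈ Λ ∧ l⁻¹ * x ∈ Λ} : ℝ) * (X.τ (r * r)).re := by
    intro l hl
    have h1 : 0 ≤ (1 - d) * (Λ.card : ℝ) := mul_nonneg (by linarith) hn.le
    calc (1 - d) ^ 2 * s = ((1 - d) * (Λ.card : ℝ)) * ((1 - d) * (X.τ r).re) := by
          rw [hs]; ring
      _ ≤ ((1 - d) * (Λ.card : ℝ)) * (X.τ (r * r)).re := mul_le_mul_of_nonneg_left hsq h1
      _ ≤ _ := mul_le_mul_of_nonneg_right (hfo l hl) (tr_mul_nonneg X.tr hr hr)
  set η : ℝ := s * (δ / 2) with hη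
  have hη0 : 0 < η := by positivity
  have key : ∀ k : ℕ, ∃ E : Y → A, (∀ y, E y ∈ X.F ∧ 0 ≤ E y) ∧ ∑ y, E y ≤ 1 ∧
      ∀ l ∈ L, min (1 - δ) (k * η) ≤ ∑ y, (X.τ (E y * X.γ (l : G) (E (l⁻¹ • y)))).re := by
    intro k
    induction k with
    | zero =>
      refine ⟨fun _ => 0, fun _ => ⟨zero_mem _, le_rfl⟩, by simp, fun l _ => ?_⟩
      simp
    | succ k ih =>
      obtain ⟨E, hE, hE1, hG⟩ := ih
      rcases le_total (1 - δ) (k * η) with hk | hk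
      · refine ⟨E, hE, hE1, fun l hl => (min_le_left _ _).trans ?_⟩
        have := hG l hl
        rwa [min_eq_left hk] at this
      · rw [min_eq_right hk] at hG
        have hg : 0 ≤ (k : ℝ) * η := by positivity
        obtain ⟨E', hE', hE1', hG'⟩ := X.fill_step K L Λ y0 hrF hr hsum hg hp E hE hE1 hG
        refine ⟨E', hE', hE1', fun l hl => (min_le_right _ _).trans (le_trans ?_ (hG' l hl))⟩
        rw [← hs]
        push_cast
        set g : ℝ := k * η with hgd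
        have hx1 : (1 - d) ^ 2 ≤ 1 := by nlinarith
        have h1 : δ / 2 ≤ (1 - d) ^ 2 - (2 - (1 - d) ^ 2) * g := by
          have h2 : (2 - (1 - d) ^ 2) * g ≤ (2 - (1 - d) ^ 2) * (1 - δ) :=
            mul_le_mul_of_nonneg_left hk (by linarith)
          have h3 : δ ≤ (2 - (1 - d) ^ 2) * δ := by nlinarith
          nlinarith [sq_nonneg d]
        have h4 := mul_le_mul_of_nonneg_left h1 hs0.le
        have e : ((k : ℝ) + 1) * η = g + s * (δ / 2) := by rw [hgd, hη]; ring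
        rw [e]
        nlinarith
  obtain ⟨k, hk⟩ := exists_nat_ge ((1 - δ) / η)
  obtain ⟨E, hE, hE1, hG⟩ := key k
  rw [div_le_iff₀ hη0] at hk
  rw [min_eq_left hk] at hG
  exact ⟨E, hE, hE1, hG⟩

end Pool.Agent.Izumi
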