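import Pool.Agent.Lib.MP_b2135d_an.Core

/-! Existence of the norm ultrapower (PLAN section 3). -/

namespace Pool.Agent.Izumi

open Filter Topology

section Construction

variable {B : Type} [CStarAlgebra B]

/-- The ultralimit of the norms of a bounded sequence. -/
noncomputable def ulim (x : Bdd B) : ℝ := limUnder (hyperfilter ℕ : Filter ℕ) fun n => ‖x.1 n‖

theorem ulim_tendsto (x : Bdd B) :
    Tendsto (fun n => ‖x.1 n‖) (hyperfilter ℕ : Filter ℕ) (𝓝 (ulim x)) := by
  obtain ⟨C, hC⟩ := x.2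
  have h : ∃ a, Tendsto (fun n => ‖x.1 n‖) (hyperfilter ℕ : Filter ℕ) (𝓝 a) := by
    obtain ⟨a, -, ha⟩ := (isCompact_Icc (a := (0 : ℝ)) (b := C)).ultrafilter_le_nhds
      (Ultrafilter.map (fun n => ‖x.1 n‖) (hyperfilter ℕ)) (by
        rw [Ultrafilter.coe_map, le_principal_iff, mem_map]
        exact Eventually.of_forall fun n => ⟨norm_nonneg _, hC n⟩)
    exact ⟨a, ha⟩
  exact tendsto_nhds_limUnder h

theorem ulim_eq {x : Bdd B} {a : ℝ}
    (h : Tendsto (fun n => ‖x.1 n‖) (hyperfilter ℕ : Filter ℕ) (𝓝 a)) : ulim x = a :=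
  tendsto_nhds_unique (ulim_tendsto x) h

theorem ulim_star (x : Bdd B) : ulim (star x) = ulim x := by
  refine ulim_eq ((ulim_tendsto x).congr fun n => ?_)
  exact (norm_star (x.1 n)).symm

theorem ulim_smul (c : ℂ) (x : Bdd B) : ulim (c • x) = ‖c‖ * ulim x := by
  refine ulim_eq (((ulim_tendsto x).const_mul ‖c‖).congr fun n => ?_)
  exact (norm_smul c (x.1 n)).symm

theorem ulim_star_mul (x : Bdd B) : ulim (star x * x) = ulim x * ulim x := by
  refine ulim_eq (((ulim_tendsto x).mul (ulim_tendsto x)).congr fun n => ?_)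
  exact (CStarRing.norm_star_mul_self (x := x.1 n)).symm

theorem ulim_le {x : Bdd B} {C : ℝ} (h : ∀ n, ‖x.1 n‖ ≤ C) : ulim x ≤ C :=
  le_of_tendsto' (ulim_tendsto x) h

/-- The ultralimit seminorm. -/
noncomputable def useminorm (B : Type) [CStarAlgebra B] : RingSeminorm (Bdd B) where
  toFun := ulim
  map_zero' := ulim_eq (tendsto_const_nhds.congr fun _ => (norm_zero (E := B)).symm)
  add_le' x y := le_of_tendsto_of_tendsto' (ulim_tendsto (x + y))
    ((ulim_tendsto x).add (ulim_tendsto y)) fun n => norm_add_le (x.1 n) (y.1 n)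
  neg' x := ulim_eq ((ulim_tendsto x).congr fun n => (norm_neg (x.1 n)).symm)
  mul_le' x y := le_of_tendsto_of_tendsto' (ulim_tendsto (x * y))
    ((ulim_tendsto x).mul (ulim_tendsto y)) fun n => norm_mul_le (x.1 n) (y.1 n)

/-- Every bounded sequence agrees on a large set with one bounded by any larger constant. -/
theorem ua_exists_cut (x : Bdd B) {r : ℝ} (hr : ulim x < r) :
    ∃ y : Bdd B, (∀ n, ‖y.1 n‖ ≤ r) ∧ ulim (x - y) = 0 := by
  classical
  have h0 : 0 ≤ r := (ge_of_tendsto' (ulim_tendsto x) fun n => norm_nonneg _).trans hr.le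
  have hb : ∀ n, ‖(if ‖x.1 n‖ ≤ r then x.1 n else 0 : B)‖ ≤ r := by
    intro n
    split_ifs with h
    · exact h
    · simpa using h0
  refine ⟨⟨fun n => if ‖x.1 n‖ ≤ r then x.1 n else 0, r, hb⟩, hb, ?_⟩
  refine ulim_eq (tendsto_const_nhds.congr' ?_)
  filter_upwards [(ulim_tendsto x).eventually (gt_mem_nhds hr)] with n hn
  change (0 : ℝ) = ‖x.1 n - (if ‖x.1 n‖ ≤ r then x.1 n else 0 : B)‖
  rw [if_pos hn.le, sub_self, norm_zero]

/-- Bounded sequences with the ultralimit seminorm. -/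
def UPre (B : Type) [CStarAlgebra B] : Type := Bdd B

noncomputable instance : Ring (UPre B) := inferInstanceAs (Ring (Bdd B))

noncomputable instance : Algebra ℂ (UPre B) := inferInstanceAs (Algebra ℂ (Bdd B))

noncomputable instance : StarRing (UPre B) := inferInstanceAs (StarRing (Bdd B))

noncomputable instance : SeminormedRing (UPre B) :=
  RingSeminorm.toSeminormedRing (R := UPre B) (useminorm B)

theorem UPre.norm_def (x : UPre B) : ‖x‖ = ulim (B := B) x := rfl

noncomputable instance : NormedAlgebra ℂ (UPre B) where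
  norm_smul_le c x := (ulim_smul c x).le

/-- The norm ultrapower. -/
def Ult (B : Type) [CStarAlgebra B] : Type := SeparationQuotient (UPre B)

noncomputable instance : NormedRing (Ult B) :=
  inferInstanceAs (NormedRing (SeparationQuotient (UPre B)))

noncomputable instance : NormedAlgebra ℂ (Ult B) :=
  inferInstanceAs (NormedAlgebra ℂ (SeparationQuotient (UPre B)))

/-- The quotient map as an algebra homomorphism. -/
noncomputable def Ult.mk (B : Type) [CStarAlgebra B] : Bdd B →ₐ[ℂ] Ult B where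
  toFun x := SeparationQuotient.mk (X := UPre B) x
  map_one' := rfl
  map_mul' _ _ := rfl
  map_zero' := rfl
  map_add' _ _ := rfl
  commutes' _ := rfl

theorem Ult.mk_surj : Function.Surjective (Ult.mk B) :=
  SeparationQuotient.surjective_mk (X := UPre B)

theorem Ult.norm_mk (x : Bdd B) : ‖Ult.mk B x‖ = ulim x := rfl

theorem Ult.mk_eq {x y : Bdd B} : Ult.mk B x = Ult.mk B y ↔ ulim (x - y) = 0 := by
  rw [← sub_eq_zero, ← map_sub, ← norm_eq_zero, Ult.norm_mk]

noncomputable instance : Star (Ult B) where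
  star := SeparationQuotient.lift (X := UPre B) (fun x => Ult.mk B (star (x : Bdd B))) (by
    intro x y h
    have h1 : Ult.mk B x = Ult.mk B y := SeparationQuotient.mk_eq_mk.2 h
    rw [Ult.mk_eq] at h1 ⊢
    exact (congrArg ulim (star_sub (R := Bdd B) x y).symm).trans ((ulim_star _).trans h1))

theorem Ult.star_mk (x : Bdd B) : star (Ult.mk B x) = Ult.mk B (star x) := rfl

noncomputable instance : StarRing (Ult B) where
  star_involutive a := by
    obtain ⟨x, rfl⟩ := Ult.mk_surj a
    rw [Ult.star_mk, Ult.star_mk, star_star]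
  star_mul a b := by
    obtain ⟨x, rfl⟩ := Ult.mk_surj a
    obtain ⟨y, rfl⟩ := Ult.mk_surj b
    rw [← map_mul, Ult.star_mk, Ult.star_mk, Ult.star_mk, star_mul, map_mul]
  star_add a b := by
    obtain ⟨x, rfl⟩ := Ult.mk_surj a
    obtain ⟨y, rfl⟩ := Ult.mk_surj b
    rw [← map_add, Ult.star_mk, Ult.star_mk, Ult.star_mk, star_add, map_add]

instance : StarModule ℂ (Ult B) where
  star_smul c a := by
    obtain ⟨x, rfl⟩ := Ult.mk_surj a
    rw [← map_smul, Ult.star_mk, Ult.star_mk, star_smul, map_smul]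

instance : CStarRing (Ult B) where
  norm_mul_self_le a := by
    obtain ⟨x, rfl⟩ := Ult.mk_surj a
    rw [Ult.star_mk, ← map_mul, Ult.norm_mk, Ult.norm_mk, ulim_star_mul]

theorem Ult.exists_lift (a : Ult B) {r : ℝ} (hr : ‖a‖ < r) :
    ∃ y : Bdd B, (∀ n, ‖y.1 n‖ ≤ r) ∧ Ult.mk B y = a := by
  obtain ⟨x, rfl⟩ := Ult.mk_surj a
  obtain ⟨y, hy, h⟩ := ua_exists_cut x hr
  exact ⟨y, hy, (Ult.mk_eq.2 h).symm⟩

instance : CompleteSpace (Ult B) := by
  refine NormedAddCommGroup.completeSpace_of_summable_imp_tendsto fun u hu => ?_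
  set r : ℕ → ℝ := fun k => ‖u k‖ + (1 / 2 : ℝ) ^ k with hr
  have hrs : Summable r := hu.add summable_geometric_two
  have hlt : ∀ k, ‖u k‖ < r k := fun k => lt_add_of_pos_right _ (by positivity)
  choose y hy hyu using fun k => Ult.exists_lift (u k) (hlt k)
  have hsum : ∀ n, Summable fun k => (y k).1 n := fun n =>
    Summable.of_norm_bounded hrs fun k => hy k n
  let s : Bdd B := ⟨fun n => ∑' k, (y k).1 n, ∑' k, r k, fun n =>
    tsum_of_norm_bounded hrs.hasSum fun k => hy k n⟩
  refine ⟨Ult.mk B s, ?_⟩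
  rw [tendsto_iff_norm_sub_tendsto_zero]
  refine squeeze_zero (fun _ => norm_nonneg _) (fun K => ?_) (tendsto_sum_nat_add r)
  have h1 : ∑ i ∈ Finset.range K, u i = Ult.mk B (∑ i ∈ Finset.range K, y i) := by
    rw [map_sum]
    exact Finset.sum_congr rfl fun i _ => (hyu i).symm
  rw [h1, norm_sub_rev, ← map_sub, Ult.norm_mk]
  refine ulim_le fun n => ?_
  have h2 : (s - ∑ i ∈ Finset.range K, y i).1 n = ∑' k, (y (k + K)).1 n := by
    have h3 : ((∑ i ∈ Finset.range K, y i : Bdd B) : ℕ → B) n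
        = ∑ i ∈ Finset.range K, (y i).1 n := by
      rw [AddSubmonoidClass.coe_finsetSum, Finset.sum_apply]
    change (∑' k, (y k).1 n) - ((∑ i ∈ Finset.range K, y i : Bdd B) : ℕ → B) n = _
    rw [h3, ← (hsum n).sum_add_tsum_nat_add K, add_sub_cancel_left]
  rw [h2]
  exact tsum_of_norm_bounded ((summable_nat_add_iff K).2 hrs).hasSum fun k => hy (k + K) n

noncomputable instance : CStarAlgebra (Ult B) where

/-- The quotient map as a star algebra homomorphism. -/
noncomputable def Ult.q (B : Type) [CStarAlgebra B] : Bdd B →⋆ₐ[ℂ] Ult B :=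
  { Ult.mk B with map_star' := fun x => (Ult.star_mk x).symm }

end Construction

theorem exists_ult (B : Type) [CStarAlgebra B] :
    ∃ (A : Type) (_ : CStarAlgebra A) (q : Bdd B →⋆ₐ[ℂ] A), IsUlt q :=
  ⟨Ult B, inferInstance, Ult.q B, Ult.mk_surj, ulim_tendsto⟩

end Pool.Agent.Izumi
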