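import Pool.Agent.Lib.MP_b2135d_an.Core
import Pool.Agent.Lib.MP_b2135d_an.CA
import Pool.Agent.Lib.MP_b2135d_an.CB2

/-! Lifting, functoriality, action and trace on the ultrapower (PLAN section 3). -/

namespace Pool.Agent.Izumi

open scoped ComplexOrder Matrix
open Filter Topology

variable {B A : Type} [CStarAlgebra B] [CStarAlgebra A] {q : Bdd B →⋆ₐ[ℂ] A}

theorem IsUlt.eq_iff (h : IsUlt q) (x y : Bdd B) :
    q x = q y ↔ Tendsto (fun n => ‖x.1 n - y.1 n‖) (hyperfilter ℕ) (𝓝 0) := by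
  have h1 : Tendsto (fun n => ‖x.1 n - y.1 n‖) (hyperfilter ℕ) (𝓝 ‖q (x - y)‖) := h.norm (x - y)
  rw [map_sub] at h1
  constructor
  · intro e
    rwa [e, sub_self, norm_zero] at h1
  · intro h2
    exact sub_eq_zero.1 (norm_eq_zero.1 (tendsto_nhds_unique h1 h2))

theorem IsUlt.exists_lift (h : IsUlt q) (y : A) {R : ℝ} (hR : ‖y‖ ≤ R) :
    ∃ x : Bdd B, q x = y ∧ ∀ n, ‖x.1 n‖ ≤ R := by
  obtain ⟨x, rfl⟩ := h.surj y
  have hR0 : 0 ≤ R := (norm_nonneg _).trans hR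
  have key : ∀ b : B, ∃ c : B, ‖c‖ ≤ R ∧ ‖c - b‖ ≤ max (‖b‖ - R) 0 := by
    intro b
    by_cases hb : ‖b‖ ≤ R
    · exact ⟨b, hb, by rw [sub_self, norm_zero]; exact le_max_right _ _⟩
    · have hb' : R < ‖b‖ := not_le.1 hb
      have hpos : 0 < ‖b‖ := hR0.trans_lt hb'
      refine ⟨(R / ‖b‖) • b, ?_, ?_⟩
      · rw [norm_smul, Real.norm_of_nonneg (div_nonneg hR0 hpos.le), div_mul_cancel₀ _ hpos.ne']
      · have e : (R / ‖b‖) • b - b = -((1 - R / ‖b‖) • b) := by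
          rw [sub_smul, one_smul, neg_sub]
        have h1 : 0 ≤ 1 - R / ‖b‖ := sub_nonneg.2 ((div_le_one hpos).2 hb'.le)
        rw [e, norm_neg, norm_smul, Real.norm_of_nonneg h1, sub_mul, one_mul,
          div_mul_cancel₀ _ hpos.ne']
        exact le_max_left _ _
  choose c hc1 hc2 using key
  refine ⟨⟨fun n => c (x.1 n), R, fun n => hc1 _⟩, ?_, fun n => hc1 _⟩
  rw [h.eq_iff]
  have h1 : Tendsto (fun n => max (‖x.1 n‖ - R) 0) (hyperfilter ℕ) (𝓝 (max (‖q x‖ - R) 0)) :=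
    ((h.norm x).sub_const R).max tendsto_const_nhds
  rw [max_eq_right (sub_nonpos.2 hR)] at h1
  exact squeeze_zero (fun _ => norm_nonneg _) (fun n => hc2 _) h1

theorem IsUlt.norm_le (h : IsUlt q) (x : Bdd B) {R : ℝ}
    (hx : ∀ᶠ n in (hyperfilter ℕ : Filter ℕ), ‖x.1 n‖ ≤ R) : ‖q x‖ ≤ R :=
  le_of_tendsto (h.norm x) hx

theorem IsUlt.eventually_lt (h : IsUlt q) (x : Bdd B) {R : ℝ} (hx : ‖q x‖ < R) :
    ∀ᶠ n in (hyperfilter ℕ : Filter ℕ), ‖x.1 n‖ < R :=
  (h.norm x).eventually_lt_const hx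

theorem IsUlt.norm_const (h : IsUlt q) (b : B) : ‖q (Bdd.const B b)‖ = ‖b‖ :=
  tendsto_nhds_unique (h.norm (Bdd.const B b)) tendsto_const_nhds

theorem ub_norm_unitary {u : B} (hu : u ∈ unitary B) : ‖u‖ ≤ 1 := by
  rcases subsingleton_or_nontrivial B with hB | hB
  · rw [Subsingleton.elim u 0, norm_zero]; exact zero_le_one
  · exact (CStarRing.norm_of_mem_unitary hu).le

theorem IsUlt.exists_unitary_lift (h : IsUlt q) {u : A} (hu : u ∈ unitary A) :
    ∃ x : Bdd B, q x = u ∧ ∀ n, x.1 n ∈ unitary B := by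
  obtain ⟨x, rfl⟩ := h.surj u
  let _ := CStarAlgebra.spectralOrder B
  have _ := CStarAlgebra.spectralOrderedRing B
  have key : ∀ b : B, ∃ c ∈ unitary B, max ‖star b * b - 1‖ ‖b * star b - 1‖ ≤ 1 / 2 →
      ‖c - b‖ ≤ 2 * max ‖star b * b - 1‖ ‖b * star b - 1‖ := by
    intro b
    by_cases hb : max ‖star b * b - 1‖ ‖b * star b - 1‖ ≤ 1 / 2
    · obtain ⟨c, hc, hc'⟩ := near_unitary hb (le_max_left _ _) (le_max_right _ _)
      exact ⟨c, hc, fun _ => hc'⟩
    · exact ⟨1, one_mem _, fun h => absurd h hb⟩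
  choose c hc1 hc2 using key
  refine ⟨⟨fun n => c (x.1 n), 1, fun n => ub_norm_unitary (hc1 _)⟩, ?_,
    fun n => hc1 _⟩
  rw [h.eq_iff]
  have h1 : Tendsto (fun n => ‖star (x.1 n) * x.1 n - 1‖) (hyperfilter ℕ) (𝓝 0) := by
    refine (h.eq_iff (star x * x) 1).1 ?_
    rw [map_mul, map_star, map_one]
    exact (Unitary.mem_iff.1 hu).1
  have h2 : Tendsto (fun n => ‖x.1 n * star (x.1 n) - 1‖) (hyperfilter ℕ) (𝓝 0) := by
    refine (h.eq_iff (x * star x) 1).1 ?_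
    rw [map_mul, map_star, map_one]
    exact (Unitary.mem_iff.1 hu).2
  have h3 := h1.max h2
  rw [max_self] at h3
  have h4 := h3.const_mul 2
  rw [mul_zero] at h4
  refine squeeze_zero' (Eventually.of_forall fun _ => norm_nonneg _) ?_ h4
  filter_upwards [h3.eventually_lt_const (show (0 : ℝ) < 1 / 2 by norm_num)] with n hn
  exact hc2 _ hn.le

theorem IsUlt.exists_map {B' A' : Type} [CStarAlgebra B'] [CStarAlgebra A']
    {q' : Bdd B' →⋆ₐ[ℂ] A'} (h : IsUlt q) (h' : IsUlt q') (f : B →⋆ₐ[ℂ] B') :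
    ∃ J : A →⋆ₐ[ℂ] A', ∀ x, J (q x) = q' (Bdd.map f x) := by
  have wd : ∀ x y : Bdd B, q x = q y → q' (Bdd.map f x) = q' (Bdd.map f y) := by
    intro x y e
    rw [h'.eq_iff]
    refine squeeze_zero (fun _ => norm_nonneg _) (fun n => ?_) ((h.eq_iff x y).1 e)
    rw [Bdd.map_apply, Bdd.map_apply, ← map_sub]
    exact NonUnitalStarAlgHom.norm_apply_le f _
  obtain ⟨J, hJ⟩ : ∃ J : A → A', ∀ x, J (q x) = q' (Bdd.map f x) :=
    ⟨fun y => q' (Bdd.map f (Function.surjInv h.surj y)),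
      fun x => wd _ _ (Function.surjInv_eq h.surj _)⟩
  refine ⟨{ toFun := J
            map_one' := ?_
            map_mul' := ?_
            map_zero' := ?_
            map_add' := ?_
            commutes' := ?_
            map_star' := ?_ }, hJ⟩
  · rw [← map_one q, hJ, map_one, map_one]
  · intro a b
    obtain ⟨x, rfl⟩ := h.surj a
    obtain ⟨y, rfl⟩ := h.surj b
    rw [← map_mul q, hJ, hJ, hJ, map_mul, map_mul]
  · rw [← map_zero q, hJ, map_zero, map_zero]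
  · intro a b
    obtain ⟨x, rfl⟩ := h.surj a
    obtain ⟨y, rfl⟩ := h.surj b
    rw [← map_add q, hJ, hJ, hJ, map_add, map_add]
  · intro r
    rw [← AlgHomClass.commutes q r, hJ, AlgHomClass.commutes, AlgHomClass.commutes]
  · intro a
    obtain ⟨x, rfl⟩ := h.surj a
    rw [← map_star q, hJ, hJ, map_star, map_star]

theorem IsUlt.ub_exists_act {G : Type} [Group G] (h : IsUlt q) (β : G →* (B ≃⋆ₐ[ℂ] B)) :
    ∃ γ : G →* (A ≃⋆ₐ[ℂ] A), ∀ g (x : Bdd B), γ g (q x) = q (Bdd.map (β g : B →⋆ₐ[ℂ] B) x) := by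
  choose J hJ using fun g : G => h.exists_map h (β g : B →⋆ₐ[ℂ] B)
  have hmul : ∀ g k y, J g (J k y) = J (g * k) y := by
    intro g k y
    obtain ⟨x, rfl⟩ := h.surj y
    rw [hJ, hJ, hJ]
    refine congrArg q (Subtype.ext (funext fun n => ?_))
    exact act_act β g k (x.1 n)
  have hone : ∀ y, J 1 y = y := by
    intro y
    obtain ⟨x, rfl⟩ := h.surj y
    rw [hJ]
    refine congrArg q (Subtype.ext (funext fun n => ?_))
    exact act_one β (x.1 n)
  let e : G → (A ≃⋆ₐ[ℂ] A) := fun g => StarAlgEquiv.ofStarAlgHom (J g) (J g⁻¹)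
    (StarAlgHom.ext fun y => by
      change J g⁻¹ (J g y) = y
      rw [hmul, inv_mul_cancel, hone])
    (StarAlgHom.ext fun y => by
      change J g (J g⁻¹ y) = y
      rw [hmul, mul_inv_cancel, hone])
  have he : ∀ g y, e g y = J g y := fun _ _ => rfl
  refine ⟨{ toFun := e
            map_one' := ?_
            map_mul' := ?_ }, fun g x => hJ g x⟩
  · refine StarAlgEquiv.ext fun y => ?_
    rw [he, hone]
    rfl
  · intro g k
    refine StarAlgEquiv.ext fun y => ?_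
    rw [he, ← hmul]
    rfl

theorem IsUlt.ub_exists_tr [PartialOrder B] [StarOrderedRing B]
    [PartialOrder A] [StarOrderedRing A] (h : IsUlt q)
    (τB : B →ₚ[ℂ] ℂ) (hτ : IsTracialState τB) :
    ∃ τ : A →ₚ[ℂ] ℂ,
      ∀ x : Bdd B, Tendsto (fun n => τB (x.1 n)) (hyperfilter ℕ) (𝓝 (τ (q x))) := by
  have hex : ∀ x : Bdd B, ∃ c : ℂ, Tendsto (fun n => τB (x.1 n)) (hyperfilter ℕ) (𝓝 c) := by
    intro x
    obtain ⟨C, hC⟩ := x.2
    obtain ⟨c, -, hc⟩ := (isCompact_closedBall (0 : ℂ) C).ultrafilter_le_nhds'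
      ((hyperfilter ℕ).map fun n => τB (x.1 n)) (by
        rw [Ultrafilter.mem_map]
        refine Filter.univ_mem' fun n => ?_
        simpa using (tr_norm_le hτ _).trans (hC n))
    exact ⟨c, hc⟩
  choose L hL using hex
  have wd : ∀ x y : Bdd B, q x = q y → L x = L y := by
    intro x y e
    have h1 : Tendsto (fun n => τB (x.1 n) - τB (y.1 n)) (hyperfilter ℕ) (𝓝 0) := by
      refine squeeze_zero_norm (fun n => ?_) ((h.eq_iff x y).1 e)
      rw [← map_sub]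
      exact tr_norm_le hτ _
    exact sub_eq_zero.1 (tendsto_nhds_unique ((hL x).sub (hL y)) h1)
  obtain ⟨T, hT⟩ : ∃ T : A → ℂ, ∀ x, T (q x) = L x :=
    ⟨fun y => L (Function.surjInv h.surj y), fun x => wd _ _ (Function.surjInv_eq h.surj _)⟩
  let T' : A →ₗ[ℂ] ℂ :=
    { toFun := T
      map_add' := by
        intro a b
        obtain ⟨x, rfl⟩ := h.surj a
        obtain ⟨y, rfl⟩ := h.surj b
        rw [← map_add q, hT, hT, hT]
        refine tendsto_nhds_unique (hL (x + y)) ?_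
        exact ((hL x).add (hL y)).congr fun n => (map_add τB _ _).symm
      map_smul' := by
        intro c a
        obtain ⟨x, rfl⟩ := h.surj a
        rw [← map_smul q, hT, hT, RingHom.id_apply]
        refine tendsto_nhds_unique (hL (c • x)) ?_
        exact ((hL x).const_smul c).congr fun n => (map_smul τB _ _).symm }
  have hT' : ∀ x, T' (q x) = L x := hT
  refine ⟨PositiveLinearMap.mk₀ T' ?_, fun x => ?_⟩
  · intro y hy
    obtain ⟨z, rfl⟩ := CStarAlgebra.nonneg_iff_eq_star_mul_self.1 hy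
    obtain ⟨x, rfl⟩ := h.surj z
    rw [← map_star q, ← map_mul q, hT']
    refine ge_of_tendsto' (hL (star x * x)) fun n => ?_
    exact map_nonneg τB (star_mul_self_nonneg (x.1 n))
  · change Tendsto _ _ (𝓝 (T' (q x)))
    rw [hT']
    exact hL x

theorem IsUlt.exists_up {G : Type} [Group G] [PartialOrder B] [StarOrderedRing B]
    [PartialOrder A] [StarOrderedRing A] (h : IsUlt q) (β : G →* (B ≃⋆ₐ[ℂ] B))
    (τB : B →ₚ[ℂ] ℂ) (hτ : IsTracialState τB) (hinv : ∀ g x, τB (β g x) = τB x) :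
    ∃ (γ : G →* (A ≃⋆ₐ[ℂ] A)) (τ : A →ₚ[ℂ] ℂ), IsUP β τB q γ τ ∧ IsTracialState τ ∧
      ∀ g x, τ (γ g x) = τ x := by
  obtain ⟨γ, hγ⟩ := h.ub_exists_act β
  obtain ⟨τ, hT⟩ := h.ub_exists_tr τB hτ
  refine ⟨γ, τ, ⟨h, hτ, hγ, hT⟩, ⟨?_, ?_⟩, ?_⟩
  · rw [← map_one q]
    refine tendsto_nhds_unique (hT 1) ?_
    exact tendsto_const_nhds.congr fun _ => hτ.1.symm
  · intro a b
    obtain ⟨x, rfl⟩ := h.surj a
    obtain ⟨y, rfl⟩ := h.surj b
    rw [← map_mul q, ← map_mul q]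
    refine tendsto_nhds_unique (hT (x * y)) ?_
    exact (hT (y * x)).congr fun n => hτ.2 _ _
  · intro g a
    obtain ⟨x, rfl⟩ := h.surj a
    rw [hγ]
    refine tendsto_nhds_unique (hT _) ?_
    exact (hT x).congr fun n => (hinv g _).symm

end Pool.Agent.Izumi
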