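import Pool.Agent.Lib.MP_b2135d_an.XD2

/-! Tournaments, sections and weights on a group. -/

namespace Pool.Agent.Izumi

open scoped ComplexOrder Pointwise

section Grp

variable {G : Type} [Group G]

theorem xg_orbit (htf : ∀ g : G, IsOfFinOrder g → g = 1) {g x : G} (B : Finset G)
    (h : ∀ n : ℕ, g ^ n * x ∈ B) : g = 1 := by
  refine htf g ?_
  by_contra hc
  have hinj : Function.Injective fun n : ℕ => g ^ n * x := fun a b hab =>
    injective_pow_iff_not_isOfFinOrder.2 hc (mul_right_cancel hab)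
  exact Set.infinite_of_injective_forall_mem hinj (s := (B : Set G)) h B.finite_toSet

/-- An invariant tournament on a torsion-free group. -/
theorem exists_sign (htf : ∀ g : G, IsOfFinOrder g → g = 1) :
    ∃ sg : G → ℝ, (∀ g, sg g * sg g = 1) ∧ ∀ g, g ≠ 1 → sg g⁻¹ = -sg g := by
  classical
  let _ : LinearOrder G := linearOrderOfSTO WellOrderingRel
  refine ⟨fun g => if g < g⁻¹ then 1 else -1, fun g => ?_, fun g hg => ?_⟩
  · by_cases h : g < g⁻¹ <;> simp [h]
  · have hne : g ≠ g⁻¹ := fun h => hg (htf g (isOfFinOrder_iff_pow_eq_one.2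
      ⟨2, by norm_num, by rw [pow_two]; nth_rewrite 2 [h]; exact mul_inv_cancel g⟩))
    simp only [inv_inv]
    rcases lt_or_gt_of_ne hne with h | h
    · rw [if_pos h, if_neg (not_lt.2 h.le)]
    · rw [if_pos h, if_neg (not_lt.2 h.le), neg_neg]

/-- A torsion-free group acts freely on its nonempty finite subsets. -/
theorem eq_one_of_smul_finset [DecidableEq G] (htf : ∀ g : G, IsOfFinOrder g → g = 1) {g : G}
    {B : Finset G} (hB : B.Nonempty) (h : g • B = B) : g = 1 := by
  obtain ⟨x, hx⟩ := hB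
  refine xg_orbit htf (x := x) B fun n => ?_
  induction n with
  | zero => simpa using hx
  | succ n ih =>
    rw [pow_succ', mul_assoc, ← h]
    exact Finset.smul_mem_smul_finset ih

/-- A torsion-free group acts freely on finitely supported functions that are not constant. -/
theorem eq_one_of_sh {m : Type} (htf : ∀ g : G, IsOfFinOrder g → g = 1) (o : m) {ζ : G → m}
    (W : Finset G) (hW : ∀ x, x ∉ W → ζ x = o) (hζ : ∃ x, ζ x ≠ o) {g : G} (h : sh g ζ = ζ) :
    g = 1 := by
  obtain ⟨x, hx⟩ := hζ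
  have key : ∀ n : ℕ, ζ (g⁻¹ ^ n * x) ≠ o := by
    intro n
    induction n with
    | zero => simpa using hx
    | succ n ih =>
      rw [pow_succ', mul_assoc]
      have := congrFun h (g⁻¹ ^ n * x)
      unfold sh at this
      rw [this]
      exact ih
  have := xg_orbit htf (g := g⁻¹) (x := x) W fun n => by
    by_contra hc
    exact key n (hW _ hc)
  exact inv_eq_one.1 this

theorem sh_one {R : Type} (y : G → R) : sh 1 y = y := by
  funext x
  simp [sh]

theorem sh_sh {R : Type} (g h : G) (y : G → R) : sh g (sh h y) = sh (g * h) y := by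
  funext x
  simp [sh, mul_assoc]

theorem U01.sh {y : G → ℝ} (h : U01 y) (g : G) : U01 (sh g y) := by
  exact fun x => h _

theorem goodY_sh {n₀ : ℕ} (g : G) (y : G → ℝ) : GoodY n₀ (sh g y) ↔ GoodY n₀ y := by
  have key : ∀ (g : G) (y : G → ℝ), GoodY n₀ y → GoodY n₀ (sh g y) := by
    classical
    rintro g y ⟨⟨x, hx⟩, U, hU, hy⟩
    refine ⟨⟨g * x, by simpa [sh] using hx⟩, U.image (g * ·), Finset.card_image_le.trans hU,
      fun z hz => hy _ fun hc => hz (Finset.mem_image.2 ⟨_, hc, by simp⟩)⟩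
  refine ⟨fun h => ?_, key g y⟩
  have := key g⁻¹ _ h
  rwa [sh_sh, inv_mul_cancel, sh_one] at this

/-- Labels and orbit representatives for an action that is free off the point `o`. -/
theorem exists_lab {I Z : Type} (act : G → Z → Z) (h1 : ∀ z, act 1 z = z)
    (hm : ∀ g h z, act g (act h z) = act (g * h) z) (ex : I → Z) (o : I)
    (hfree : ∀ σ, σ ≠ o → ∀ g, act g (ex σ) = ex σ → g = 1) :
    ∃ (lab : I → G) (orb : I → I), (∀ σ, act (lab σ) (ex (orb σ)) = ex σ) ∧
      ∀ σ τ g, σ ≠ o → ex τ = act g (ex σ) → lab τ = g * lab σ ∧ orb τ = orb σ := by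
  let s : Setoid I :=
    { r := fun σ τ => ∃ g, act g (ex σ) = ex τ
      iseqv :=
        { refl := fun σ => ⟨1, h1 _⟩
          symm := fun ⟨g, hg⟩ => ⟨g⁻¹, by rw [← hg, hm, inv_mul_cancel, h1]⟩
          trans := fun ⟨g, hg⟩ ⟨h, hh⟩ => ⟨h * g, by rw [← hm, hg, hh]⟩ } }
  have hex : ∀ σ, ∃ g, act g (ex (Quotient.mk s σ).out) = ex σ := fun σ => Quotient.mk_out (s := s) σ
  choose lab hlab using hex
  refine ⟨lab, fun σ => (Quotient.mk s σ).out, hlab, fun σ τ g hσ h => ?_⟩
  have e : Quotient.mk s τ = Quotient.mk s σ :=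
    (Quotient.sound (s := s) (a := σ) (b := τ) ⟨g, h.symm⟩).symm
  refine ⟨?_, by simp only [e]⟩
  have h2 := hlab τ
  rw [e] at h2
  have h3 : act (g⁻¹ * lab τ * (lab σ)⁻¹) (ex σ) = ex σ := by
    nth_rewrite 1 [← hlab σ]
    rw [hm, inv_mul_cancel_right, ← hm, h2, h, hm, inv_mul_cancel, h1]
  have h4 := hfree σ hσ _ h3
  rw [mul_inv_eq_one, inv_mul_eq_iff_eq_mul] at h4
  exact h4

/-- An equivariant choice function on nonempty finite subsets. -/
theorem exists_key [DecidableEq G] (htf : ∀ g : G, IsOfFinOrder g → g = 1) :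
    ∃ k : Finset G → G, ∀ (g : G) (B : Finset G), B.Nonempty → k (g • B) = g * k B := by
  obtain ⟨lab, orb, -, h⟩ := exists_lab (I := Finset G) (fun (g : G) (B : Finset G) => g • B)
    (one_smul G) (fun g h z => smul_smul g h z) id ∅
    fun B hB g hg => eq_one_of_smul_finset htf (Finset.nonempty_iff_ne_empty.2 hB) hg
  exact ⟨lab, fun g B hB => (h B (g • B) g hB.ne_empty rfl).1⟩

/-- Balls around a finite set. -/
def xgBall [DecidableEq G] (S F : Finset G) : ℕ → Finset G
  | 0 => F
  | i + 1 => xgBall S F i ∪ (S * xgBall S F i ∪ S⁻¹ * xgBall S F i)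

theorem xg_mono [DecidableEq G] (S F : Finset G) : Monotone (xgBall S F) :=
  monotone_nat_of_le_succ fun _ => Finset.subset_union_left

theorem xg_step [DecidableEq G] (S F : Finset G) {i : ℕ} {g x : G} (hg : g ∈ S)
    (hx : x ∈ xgBall S F i) : g * x ∈ xgBall S F (i + 1) ∧ g⁻¹ * x ∈ xgBall S F (i + 1) :=
  ⟨Finset.mem_union_right _ (Finset.mem_union_left _ (Finset.mul_mem_mul hg hx)),
    Finset.mem_union_right _ (Finset.mem_union_right _
      (Finset.mul_mem_mul (Finset.inv_mem_inv hg) hx))⟩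

/-- Slowly growing weights around a finite set. -/
theorem exists_weights (S F : Finset G) {η : ℝ} (hη : 0 < η) (Λ : ℝ) :
    ∃ (U : Finset G) (θ : G → ℝ), (∀ x ∈ F, x ∈ U) ∧
      (∀ g ∈ S, ∀ x ∈ F, g * x ∈ U ∧ g⁻¹ * x ∈ U) ∧ (∀ x, 1 ≤ θ x) ∧ (∀ x ∈ F, θ x = 1) ∧
        (∀ g ∈ S, ∀ x, |θ (g⁻¹ * x) - θ x| ≤ η * θ x) ∧
          ∀ g ∈ S, ∀ x ∈ U, (g * x ∉ U ∨ g⁻¹ * x ∉ U) → Λ ≤ θ x := by
  classical
  obtain ⟨n, hn⟩ := pow_unbounded_of_one_lt Λ (show (1 : ℝ) < 1 + η by linarith)
  have h1 : (1 : ℝ) ≤ 1 + η := by linarith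
  let nn : G → ℕ := fun x => ((Finset.range (n + 1)).filter fun i => x ∉ xgBall S F i).card
  have step : ∀ x y, (∀ i, x ∈ xgBall S F i → y ∈ xgBall S F (i + 1)) → nn y ≤ nn x + 1 := by
    intro x y h
    have : ((Finset.range (n + 1)).filter fun i => y ∉ xgBall S F i) ⊆
        insert 0 (((Finset.range (n + 1)).filter fun i => x ∉ xgBall S F i).image (· + 1)) := by
      intro i hi
      rw [Finset.mem_filter, Finset.mem_range] at hi
      rcases i with _ | i
      · exact Finset.mem_insert_self _ _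
      · exact Finset.mem_insert_of_mem (Finset.mem_image.2 ⟨i, Finset.mem_filter.2
          ⟨Finset.mem_range.2 (by omega), fun hc => hi.2 (h i hc)⟩, rfl⟩)
    exact (Finset.card_le_card this).trans ((Finset.card_insert_le _ _).trans
      (Nat.succ_le_succ Finset.card_image_le))
  refine ⟨xgBall S F (n + 1), fun x => (1 + η) ^ nn x,
    fun x hx => xg_mono S F (Nat.zero_le _) hx, fun g hg x hx => ?_,
    fun x => one_le_pow₀ h1, fun x hx => ?_, fun g hg x => ?_, fun g hg x _ h => ?_⟩
  · have := xg_step S F (i := 0) hg hx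
    exact ⟨xg_mono S F (by omega) this.1, xg_mono S F (by omega) this.2⟩
  · have : nn x = 0 := Finset.card_eq_zero.2 (Finset.filter_eq_empty_iff.2
      fun i _ hc => hc (xg_mono S F (Nat.zero_le _) hx))
    simp only [this, pow_zero]
  · have a1 := step x (g⁻¹ * x) fun i hi => (xg_step S F hg hi).2
    have a2 := step (g⁻¹ * x) x fun i hi => by simpa using (xg_step S F hg hi).1
    simp only
    generalize nn (g⁻¹ * x) = a at *
    generalize nn x = c at *
    have p1 : (1 + η) ^ a ≤ (1 + η) ^ (c + 1) := pow_le_pow_right₀ h1 a1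
    have p2 : (1 + η) ^ c ≤ (1 + η) ^ (a + 1) := pow_le_pow_right₀ h1 a2
    have q1 : 0 < (1 + η) ^ a := by positivity
    have q2 : 0 < (1 + η) ^ c := by positivity
    rw [pow_succ] at p1 p2
    rw [abs_le]
    refine ⟨?_, by linarith⟩
    rcases le_total ((1 + η) ^ a) ((1 + η) ^ c) with h | h
    · have := mul_le_mul_of_nonneg_left h hη.le
      linarith
    · have := mul_pos hη q2
      linarith
  · have : nn x = n + 1 := by
      have e : ((Finset.range (n + 1)).filter fun i => x ∉ xgBall S F i) = Finset.range (n + 1) := by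
        refine Finset.filter_true_of_mem fun i hi hc => ?_
        have h2 := xg_step S F hg hc
        have h3 : i + 1 ≤ n + 1 := Finset.mem_range.1 hi
        exact h.elim (fun h => h (xg_mono S F h3 h2.1)) fun h => h (xg_mono S F h3 h2.2)
      simp only [nn, e, Finset.card_range]
    simp only [this]
    exact hn.le.trans (pow_le_pow_right₀ h1 (Nat.le_succ n))

/-- Foelner sets in symmetric difference form. -/
theorem Foel.symmDiff [DecidableEq G] (hF : Foel G) (S : Finset G) {η : ℝ} (hη : 0 < η) :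
    ∃ F : Finset G, F.Nonempty ∧ ∀ g ∈ S, ((symmDiff F (g • F)).card : ℝ) ≤ η * F.card := by
  obtain ⟨F, hne, h⟩ := hF S (η / 2) (by linarith)
  refine ⟨F, hne, fun g hg => ?_⟩
  have h1 := h g hg
  have e : {x | x ∈ F ∧ g⁻¹ * x ∈ F} = ((F ∩ g • F : Finset G) : Set G) := by
    ext x
    simp only [Set.mem_ofPred_eq, Finset.coe_inter, Set.mem_inter_iff, Finset.mem_coe]
    rw [← Finset.inv_smul_mem_iff, smul_eq_mul]
  rw [e, Set.ncard_coe_finset] at h1
  have c1 := Finset.card_sdiff_add_card_inter F (g • F)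
  have c2 := Finset.card_sdiff_add_card_inter (g • F) F
  rw [Finset.inter_comm, Finset.card_smul_finset] at c2
  have c3 : (_root_.symmDiff F (g • F)).card ≤ (F \ g • F).card + (g • F \ F).card :=
    Finset.card_union_le _ _
  have c4 : (_root_.symmDiff F (g • F)).card + 2 * (F ∩ g • F).card ≤ 2 * F.card := by omega
  have c5 : ((_root_.symmDiff F (g • F)).card : ℝ) + 2 * (F ∩ g • F).card ≤ 2 * F.card := by
    exact_mod_cast c4
  linarith

end Grp

end Pool.Agent.Izumi
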