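import Pool.Agent.Lib.MP_b2135d_an.XK2
import Pool.Agent.Lib.MP_b2135d_an.XG

/-! The coherent family of unitaries. -/

namespace Pool.Agent.Izumi

open scoped ComplexOrder Pointwise

theorem xk3_commute_dense {D A : Type} [CStarAlgebra D] [CStarAlgebra A] {D0 : Set D}
    (hD : Dense D0) {F : D → A} (hF : Continuous F) {c : A} (h : ∀ y ∈ D0, Commute c (F y))
    (y : D) : Commute c (F y) := by
  have hc : IsClosed {y | c * F y = F y * c} :=
    isClosed_eq (continuous_const.mul hF) (hF.mul continuous_const)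
  have h2 : closure D0 ⊆ {y | c * F y = F y * c} := closure_minimal h hc
  exact h2 (hD y)

theorem xk3_conj_sub {A : Type} [CStarAlgebra A] {u : A} (hu : u ∈ unitary A) (a a' b b' : A) :
    ‖star u * a * b * star (star u * a) - star u * a' * b' * star (star u * a')‖ =
      ‖a * b * star a - a' * b' * star a'‖ := by
  have h : star u * a * b * star (star u * a) - star u * a' * b' * star (star u * a') =
      star u * ((a * b * star a - a' * b' * star a') * u) := by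
    simp only [star_mul, star_star]
    noncomm_ring
  rw [h, CStarRing.norm_mem_unitary_mul _ (Unitary.star_mem hu),
    CStarRing.norm_mul_mem_unitary _ hu]

theorem xk3_star_mul_sub {A : Type} [CStarAlgebra A] {u u' a a' : A} (hu : u ∈ unitary A)
    (ha : a' ∈ unitary A) : ‖star u * a - star u' * a'‖ ≤ ‖u - u'‖ + ‖a - a'‖ := by
  have h : star u * a - star u' * a' = star (u - u') * a' + star u * (a - a') := by
    simp only [star_sub]
    noncomm_ring
  rw [h]
  refine (norm_add_le _ _).trans (le_of_eq ?_)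
  rw [CStarRing.norm_mem_unitary_mul _ (Unitary.star_mem hu),
    CStarRing.norm_mul_mem_unitary _ ha, norm_star]

theorem xk3_map_unitary {D A : Type} [CStarAlgebra D] [CStarAlgebra A] (χ : D →⋆ₐ[ℂ] A) {w : D}
    (hw : w ∈ unitary D) : χ w ∈ unitary A := by
  rw [Unitary.mem_iff] at hw ⊢
  rw [← map_star, ← map_mul, ← map_mul, hw.1, hw.2, map_one]
  exact ⟨rfl, rfl⟩

theorem xk3_sub_one {G A : Type} [Group G] [CStarAlgebra A] {γ : G →* (A ≃⋆ₐ[ℂ] A)}
    {T' : Set A} {N : Submodule ℂ A} (hN : IsIdl γ T' N) {u a : A} (hu : u ∈ unitary A)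
    (hc : u ∈ cent T') (h : a - u ∈ N) : star u * a - 1 ∈ N := by
  have e : star u * a - 1 = star u * (a - u) := by
    rw [mul_sub, (Unitary.mem_iff.1 hu).1]
  rw [e]
  exact hN.mul_mem _ (star_mem hc) _ h

theorem xk3_norm_map_sub {D A : Type} [CStarAlgebra D] [CStarAlgebra A] (χ : D →⋆ₐ[ℂ] A)
    (x y : D) : ‖χ x - χ y‖ ≤ ‖x - y‖ := by
  rw [← map_sub]
  exact NonUnitalStarAlgHom.norm_apply_le χ _

/-- The selected set of each size. -/
theorem xk3_exists_sel {G : Type} [Group G] [DecidableEq G] {n₀ : ℕ}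
    {r : Finset G → (G → ℝ) → ℝ} (hr : IsGap n₀ r) :
    ∃ sel : ℕ → (G → ℝ) → Finset G, (∀ n y, r (sel n y) y ≠ 0 → (sel n y).card = n) ∧
      ∀ n y B, U01 y → B.card = n → r B y ≠ 0 → sel n y = B := by
  have h : ∀ (n : ℕ) (y : G → ℝ), ∃ B0 : Finset G, (r B0 y ≠ 0 → B0.card = n) ∧
      ∀ B, U01 y → B.card = n → r B y ≠ 0 → B0 = B := by
    intro n y
    by_cases h : ∃ B : Finset G, B.card = n ∧ r B y ≠ 0
    · obtain ⟨B0, h1, h2⟩ := h
      exact ⟨B0, fun _ => h1, fun B hy hB hB' => hr.uniq B0 B y hy h2 hB' (h1.trans hB.symm)⟩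
    · exact ⟨∅, fun h0 => absurd (hr.empty y) h0, fun B _ hB hB' => absurd ⟨B, hB, hB'⟩ h⟩
  choose sel h1 h2 using h
  exact ⟨sel, h1, h2⟩

/-- The factors depend on the function in a Lipschitz way. -/
theorem xk3_factor_lip {G D A : Type} [Group G] [DecidableEq G] [CStarAlgebra D] [CStarAlgebra A]
    {n₀ : ℕ} {r : Finset G → (G → ℝ) → ℝ} (hr : IsGap n₀ r) {sel : (G → ℝ) → Finset G} {n : ℕ}
    (h1 : ∀ y, r (sel y) y ≠ 0 → (sel y).card = n)
    (h2 : ∀ y B, U01 y → B.card = n → r B y ≠ 0 → sel y = B) {L : ℝ} {w : ℝ → D}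
    (hw : IsPath L w) (χ : Finset G → D →⋆ₐ[ℂ] A) {y y' : G → ℝ} {d : ℝ} (hy : U01 y)
    (hy' : U01 y') (hd : ∀ x, |y x - y' x| ≤ d) :
    ‖χ (sel y) (w (r (sel y) y)) - χ (sel y') (w (r (sel y') y'))‖ ≤
      4 * |L| * (n₀ + 1) * d := by
  have hd0 : 0 ≤ d := (abs_nonneg _).trans (hd 1)
  have hc0 : 0 ≤ |L| * (2 * (n₀ + 1) * d) := by positivity
  have key : ∀ (B : Finset G) (z z' : G → ℝ), U01 z → U01 z' → (∀ x, |z x - z' x| ≤ d) →
      ‖χ B (w (r B z)) - χ B (w (r B z'))‖ ≤ |L| * (2 * (n₀ + 1) * d) := by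
    intro B z z' hz hz' hzz
    refine (xk3_norm_map_sub _ _ _).trans ((hw.lip _ _).trans ?_)
    exact mul_le_mul (le_abs_self L) (hr.lip B z z' d hz hz' hzz) (abs_nonneg _) (abs_nonneg _)
  have one : ∀ z z' : G → ℝ, U01 z → U01 z' → (∀ x, |z x - z' x| ≤ d) → sel z ≠ sel z' →
      ‖χ (sel z) (w (r (sel z) z)) - 1‖ ≤ |L| * (2 * (n₀ + 1) * d) := by
    intro z z' hz hz' hzz hne
    by_cases h0 : r (sel z) z = 0
    · rw [h0, hw.zero, map_one, sub_self, norm_zero]
      exact hc0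
    · have h3 : r (sel z) z' = 0 := by
        by_contra h3
        exact hne (h2 z' _ hz' (h1 z h0) h3).symm
      have h4 := key (sel z) z z' hz hz' hzz
      rwa [h3, hw.zero, map_one] at h4
  by_cases he : sel y = sel y'
  · rw [← he]
    refine (key (sel y) y y' hy hy' hd).trans ?_
    nlinarith [hc0]
  · have a1 := one y y' hy hy' hd he
    have a2 := one y' y hy' hy (fun x => by rw [abs_sub_comm]; exact hd x) (Ne.symm he)
    rw [norm_sub_rev] at a2
    refine (norm_sub_le_norm_sub_add_norm_sub _ 1 _).trans ?_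
    nlinarith [a1, a2]

namespace UCGData

variable {G D A ι : Type} [Group G] [Countable G] [CStarAlgebra D]
  [TopologicalSpace.SeparableSpace D] [CStarAlgebra A] [PartialOrder A] [Countable ι]
  [MulAction G ι] (X : UCGData G D A ι)

/-- A sequence of independent copies of `D`. -/
theorem exists_family : ∃ p : ℕ → D →⋆ₐ[ℂ] A, (∀ n x, p n x ∈ cent X.T') ∧
    (∀ n x i y, Commute (X.Φ i y) (p n x)) ∧
      ∀ n n', n ≠ n' → ∀ g h x y, Commute (X.γ g (p n x)) (X.γ h (p n' y)) := by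
  obtain ⟨D0, hD0, hD⟩ := TopologicalSpace.exists_countable_dense D
  have hq : ∀ T : {T : Set A // T.Countable}, ∃ p : D →⋆ₐ[ℂ] A, ∀ x, p x ∈ cent (orb X.γ T.1) :=
    fun T => X.emb _ (countable_orb X.γ T.2)
  choose q hq using hq
  have hb : (X.T' ∪ ⋃ i, X.Φ i '' D0).Countable :=
    X.count.union (Set.countable_iUnion fun i => hD0.image _)
  let Ts : ℕ → {T : Set A // T.Countable} := fun n =>
    Nat.rec ⟨_, hb⟩ (fun _ T => ⟨T.1 ∪ q T '' D0, T.2.union (hD0.image _)⟩) n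
  have hs : ∀ n, (Ts (n + 1)).1 = (Ts n).1 ∪ q (Ts n) '' D0 := fun _ => rfl
  have h0 : (Ts 0).1 = X.T' ∪ ⋃ i, X.Φ i '' D0 := rfl
  have hmono : ∀ n m, n ≤ m → (Ts n).1 ⊆ (Ts m).1 := by
    intro n m h
    induction h with
    | refl => exact subset_rfl
    | step _ ih => exact ih.trans (by rw [hs]; exact Set.subset_union_left)
  have hbase : ∀ n, X.T' ∪ ⋃ i, X.Φ i '' D0 ⊆ orb X.γ (Ts n).1 := fun n =>
    (h0 ▸ hmono 0 n (Nat.zero_le n)).trans (subset_orb _ _)
  have hlt : ∀ n n', n' < n → ∀ g h x y,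
      Commute (X.γ g (q (Ts n) x)) (X.γ h (q (Ts n') y)) := by
    intro n n' hn g h x y
    refine xk3_commute_dense hD (F := fun y => X.γ h (q (Ts n') y))
      ((aut_continuous _).comp (hom_continuous _)) (fun z hz => ?_) y
    have h1 : X.γ g (q (Ts n) x) ∈ cent (orb X.γ (Ts n).1) :=
      act_mem_cent X.γ g (fun t ht => act_mem_orb X.γ _ ht) (hq _ x)
    have h2 : q (Ts n') z ∈ (Ts n).1 :=
      hmono (n' + 1) n hn (by rw [hs]; exact Or.inr ⟨z, hz, rfl⟩)
    exact (mem_cent.1 h1 _ ⟨h, _, h2, rfl⟩).1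
  refine ⟨fun n => q (Ts n), fun n x => ?_, fun n x i y => ?_, fun n n' hn g h x y => ?_⟩
  · exact cent_anti (Set.subset_union_left.trans (hbase n)) (hq _ x)
  · refine (xk3_commute_dense hD (F := fun y => X.Φ i y) (hom_continuous _) (fun z hz => ?_)
      y).symm
    exact (mem_cent.1 (hq (Ts n) x) _
      (hbase n (Or.inr (Set.mem_iUnion.2 ⟨i, z, hz, rfl⟩)))).1
  · rcases lt_or_gt_of_ne hn with hn | hn
    · exact (hlt n' n hn h g y x).symm
    · exact hlt n n' hn g h x y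

omit [Countable G] [TopologicalSpace.SeparableSpace D] [Countable ι] in
theorem xk3_Φ_sub (i j : ι) (x : D) : X.Φ i x - X.Φ j x ∈ X.N := by
  have h := X.N.sub_mem (X.Φ_sub i x) (X.Φ_sub j x)
  rwa [sub_sub_sub_cancel_right] at h

/-- Approximate intertwiners that are congruent to `1`. -/
theorem exists_f0 (s : Finset D) {ε : ℝ} (hε : 0 < ε) : ∃ f : ι → A, (∀ i, f i ∈ unitary A) ∧
    (∀ i, f i ∈ cent X.T') ∧ (∀ i, f i - 1 ∈ X.N) ∧ ∀ i i', ∀ x ∈ s,
      ‖f i * X.Φ i x * star (f i) - f i' * X.Φ i' x * star (f i')‖ ≤ ε := by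
  obtain ⟨p, hp1, hp2, -⟩ := X.exists_family
  choose χ hal hbe using fun i => X.S.univ A (X.Φ i) (p 0) fun x y => hp2 0 y i x
  obtain ⟨w, hw, hws⟩ := X.path s (ε / 2) (half_pos hε)
  have hu : ∀ i, χ i (w 1) ∈ unitary A := fun i => xk3_map_unitary _ (hw.unit 1)
  have hm : ∀ i, χ i (w 1) ∈ cent X.T' := fun i =>
    X.S.map_mem (χ i) (isClosed_cent _) (fun x => by rw [hal]; exact X.Φ_mem i x)
      (fun x => by rw [hbe]; exact hp1 0 x) _
  refine ⟨fun i => star (χ X.i₀ (w 1)) * χ i (w 1),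
    fun i => mul_mem (Unitary.star_mem (hu _)) (hu i),
    fun i => mul_mem (star_mem (hm _)) (hm i), fun i => ?_, fun i i' x hx => ?_⟩
  · refine xk3_sub_one X.idl (hu _) (hm _) (X.S.sub_mem _ _ X.idl.closed (fun x y => ?_) _)
    rw [hal, hal, hbe, hbe, ← sub_mul]
    exact X.idl.mul_mem_right (X.Φ_sub i x) (hp1 0 y)
  · rw [xk3_conj_sub (hu _)]
    have h1 : ∀ j, ‖χ j (w 1) * X.Φ j x * star (χ j (w 1)) - p 0 x‖ ≤ ε / 2 := by
      intro j
      rw [← hal j, ← hbe j, ← map_star, ← map_mul, ← map_mul]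
      exact (xk3_norm_map_sub _ _ _).trans (hws x hx)
    have h2 := h1 i'
    rw [norm_sub_rev] at h2
    refine (norm_sub_le_norm_sub_add_norm_sub _ (p 0 x) _).trans ?_
    linarith [h1 i]

theorem coherent (n₀ : ℕ) : ∃ Λ : ℝ, 0 < Λ ∧ ∀ (W : Finset G) (s : Finset D) (ε : ℝ), 0 < ε →
    ∃ f : ι → (G → ℝ) → A, IsCoh X n₀ Λ W s ε f := by
  classical
  refine ⟨8 * |X.L| * (n₀ + 1) ^ 2 + 1, by positivity, fun W s ε hε => ?_⟩
  obtain ⟨r, hr⟩ := exists_gap G n₀
  obtain ⟨k, hk⟩ := exists_key X.tf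
  obtain ⟨p, hp1, hp2, hp3⟩ := X.exists_family
  obtain ⟨sel, hs1, hs2⟩ := xk3_exists_sel hr
  choose χ0 hal0 hbe0 using fun (j : ι) (n : ℕ) =>
    X.S.univ A (X.Φ j) (p n) fun x y => hp2 n y j x
  obtain ⟨χ, hχ⟩ : ∃ χ : ι → Finset G → D →⋆ₐ[ℂ] A,
      ∀ i B d, χ i B d = X.γ (k B) (χ0 ((k B)⁻¹ • i) B.card d) :=
    ⟨fun i B => (X.γ (k B) : A →⋆ₐ[ℂ] A).comp (χ0 ((k B)⁻¹ • i) B.card), fun _ _ _ => rfl⟩
  obtain ⟨P, hP⟩ : ∃ P : Finset G → D →⋆ₐ[ℂ] A, ∀ B d, P B d = X.γ (k B) (p B.card d) :=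
    ⟨fun B => (X.γ (k B) : A →⋆ₐ[ℂ] A).comp (p B.card), fun _ _ => rfl⟩
  have hal : ∀ i B x, χ i B (X.S.al x) = X.Φ i (X.ρ (k B) x) := by
    intro i B x
    rw [hχ, hal0, ← X.Φ_act, smul_inv_smul]
  have hbe : ∀ i B x, χ i B (X.S.be x) = P B x := by
    intro i B x
    rw [hχ, hbe0, hP]
  have hPm : ∀ B x, P B x ∈ cent X.T' := by
    intro B x
    rw [hP]
    exact act_mem_cent X.γ _ (X.inv' _) (hp1 _ x)
  have hχm : ∀ i B d, χ i B d ∈ cent X.T' := fun i B d =>
    X.S.map_mem (χ i B) (isClosed_cent _) (fun x => by rw [hal]; exact X.Φ_mem i _)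
      (fun x => by rw [hbe]; exact hPm B x) d
  have hχs : ∀ i j B d, χ i B d - χ j B d ∈ X.N := by
    intro i j B d
    refine X.S.sub_mem _ _ X.idl.closed (fun x y => ?_) d
    rw [hal, hal, hbe, hbe, ← sub_mul]
    exact X.idl.mul_mem_right (X.xk3_Φ_sub i j _) (hPm B y)
  have hχa : ∀ g i B d, B.Nonempty → X.γ g (χ i B d) = χ (g • i) (g • B) d := by
    intro g i B d hB
    rw [hχ, hχ, act_act, hk g B hB, Finset.card_smul_finset, mul_inv_rev, mul_smul,
      inv_smul_smul]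
  obtain ⟨w, hw, hcoh⟩ := X.S.coh X.path X.Φ P (fun B => X.ρ (k B)) χ Finset.card hal hbe
    (fun α β hab x y => by rw [hP, hP]; exact hp3 _ _ hab _ _ x y) W.powerset (n₀ + 1) s hε
  obtain ⟨a, ha⟩ : ∃ a : (Finset G → ι) → (G → ℝ) → ℕ → A,
      ∀ ff y, a ff y = fun n => χ (ff (sel n y)) (sel n y) (w n (r (sel n y) y)) :=
    ⟨_, fun _ _ => rfl⟩
  have hau : ∀ ff y n, a ff y n ∈ unitary A := fun ff y n => by
    rw [ha]
    exact xk3_map_unitary _ ((hw n).unit _)
  have ham : ∀ ff y n, a ff y n ∈ cent X.T' := fun ff y n => by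
    rw [ha]
    exact hχm _ _ _
  have has : ∀ ff ff' y n, a ff y n - a ff' y n ∈ X.N := fun ff ff' y n => by
    rw [ha, ha]
    exact hχs _ _ _ _
  have haa : ∀ (g : G) (ff ff' : Finset G → ι), (∀ B, B.Nonempty → ff' (g • B) = g • ff B) →
      ∀ y, U01 y → (fun n => X.γ g (a ff y n)) = a ff' (sh g y) := by
    intro g ff ff' hff y hy
    funext n
    rw [ha, ha]
    by_cases h0 : r (sel n y) y = 0
    · have h1 : r (sel n (sh g y)) (sh g y) = 0 := by
        by_contra h1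
        have h2 : r (g⁻¹ • sel n (sh g y)) y ≠ 0 := by
          rw [← hr.act g, smul_inv_smul]
          exact h1
        have h3 := hs2 n y _ hy (by rw [Finset.card_smul_finset]; exact hs1 n _ h1) h2
        rw [← h3] at h2
        exact h2 h0
      simp only [h0, h1, (hw n).zero, map_one]
    · have h1 : sel n (sh g y) = g • sel n y :=
        hs2 n _ _ (hy.sh g) (by rw [Finset.card_smul_finset]; exact hs1 n y h0)
          (by rw [hr.act]; exact h0)
      have h2 : (sel n y).Nonempty := by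
        rw [Finset.nonempty_iff_ne_empty]
        intro h2
        rw [h2] at h0
        exact h0 (hr.empty y)
      simp only [h1, hr.act, hff _ h2, hχa g _ _ _ h2]
  have hal' : ∀ ff y y' (d : ℝ), U01 y → U01 y' → (∀ x, |y x - y' x| ≤ d) →
      ‖dprod (a ff y) (n₀ + 1) - dprod (a ff y') (n₀ + 1)‖ ≤
        ((n₀ + 1 : ℕ) : ℝ) * (4 * |X.L| * (n₀ + 1) * d) := by
    intro ff y y' d hy hy' hd
    refine norm_dprod_sub_le (hau ff y) (hau ff y') (fun n => ?_) _
    rw [ha, ha]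
    exact xk3_factor_lip hr (hs1 n) (hs2 n) (hw n) (fun B => χ (ff B) B) hy hy' hd
  refine ⟨fun i y => star (dprod (a (fun B => k B • X.i₀) y) (n₀ + 1)) *
    dprod (a (fun _ => i) y) (n₀ + 1), ?_, ?_, ?_, ?_, ?_, ?_⟩
  · intro i y
    exact mul_mem (Unitary.star_mem (dprod_unitary (hau _ y) _)) (dprod_unitary (hau _ y) _)
  · intro i y
    exact mul_mem (star_mem (dprod_mem (ham _ y) _)) (dprod_mem (ham _ y) _)
  · intro i y
    exact xk3_sub_one X.idl (dprod_unitary (hau _ y) _) (dprod_mem (ham _ y) _)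
      (X.idl.dprod_sub_mem (ham _ y) (ham _ y) (has _ _ y) _)
  · intro g i y hy
    rw [map_mul, map_star, dprod_map, dprod_map,
      haa g (fun B => k B • X.i₀) (fun B => k B • X.i₀)
        (fun B hB => by rw [hk g B hB, mul_smul]) y hy,
      haa g (fun _ => i) (fun _ => g • i) (fun _ _ => rfl) y hy]
  · intro i y y' d hy hy' hd
    have hd0 : 0 ≤ d := (abs_nonneg _).trans (hd 1)
    refine (xk3_star_mul_sub (dprod_unitary (hau _ y) _) (dprod_unitary (hau _ y') _)).trans ?_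
    have h1 := hal' (fun B => k B • X.i₀) y y' d hy hy' hd
    have h2 := hal' (fun _ => i) y y' d hy hy' hd
    push_cast at h1 h2
    nlinarith [h1, h2, hd0]
  · intro y hy hg hW i i' x hx
    rw [xk3_conj_sub (dprod_unitary (hau _ y) _), ha, ha]
    refine hcoh (fun n => sel n y) (fun n => r (sel n y) y) (fun n => hr.mem _ y)
      (fun n hn => ⟨?_, hs1 n y hn⟩) ?_ i i' x hx
    · rw [Finset.mem_powerset]
      intro z hz
      by_contra hzW
      exact hr.supp _ y hy hn z hz (hW z hzW)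
    · obtain ⟨B, hB, hB1⟩ := hr.good y hy hg
      refine ⟨B.card, Nat.lt_succ_of_le hB, ?_⟩
      rw [hs2 _ y B hy rfl (by rw [hB1]; exact one_ne_zero), hB1]

end UCGData

end Pool.Agent.Izumi
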