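import Pool.Agent.Lib.MP_b2135d_an.YA
import Pool.Agent.Lib.MP_b2135d_an.XK3

/-! Partitions of unity indexed by cosets of finite subgroups, gluing. -/

namespace Pool.Agent.Izumi

open scoped ComplexOrder Pointwise

set_option linter.unusedSectionVars false

section Glue

variable {G A : Type} [CStarAlgebra A] [PartialOrder A] [StarOrderedRing A]

/-- A partition of unity into projections. -/
structure IsPU (C : Finset G) (E : G → A) : Prop where
  proj : ∀ g ∈ C, IsStarProjection (E g)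
  orth : ∀ g ∈ C, ∀ h ∈ C, g ≠ h → E g * E h = 0
  sum : ∑ g ∈ C, E g = 1

/-- Gluing along a family. -/
def gl (C : Finset G) (E x : G → A) : A := ∑ g ∈ C, x g * E g

variable {C : Finset G} {E x y : G → A}

theorem gl_congr (h : ∀ g ∈ C, x g = y g) : gl C E x = gl C E y :=
  Finset.sum_congr rfl fun g hg => by rw [h g hg]

theorem gl_sub (C : Finset G) (E x y : G → A) :
    gl C E x - gl C E y = gl C E fun g => x g - y g := by
  simp only [gl, sub_mul, Finset.sum_sub_distrib]

theorem mul_gl (a : A) (C : Finset G) (E x : G → A) :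
    a * gl C E x = gl C E fun g => a * x g := by
  simp only [gl, Finset.mul_sum, mul_assoc]

theorem smul_gl (a : ℂ) (C : Finset G) (E x : G → A) :
    a • gl C E x = gl C E fun g => a • x g := by
  simp only [gl, Finset.smul_sum, smul_mul_assoc]

theorem gl_mul_right {a : A} (h : ∀ g ∈ C, Commute a (E g)) :
    gl C E x * a = gl C E fun g => x g * a := by
  rw [gl, Finset.sum_mul]
  exact Finset.sum_congr rfl fun g hg => by rw [mul_assoc, ← (h g hg).eq, mul_assoc]

theorem gl_mem {S : StarSubalgebra ℂ A} (hE : ∀ g ∈ C, E g ∈ S) (hx : ∀ g ∈ C, x g ∈ S) :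
    gl C E x ∈ S := sum_mem fun g hg => mul_mem (hx g hg) (hE g hg)

theorem gl_commute {a : A} (hE : ∀ g ∈ C, Commute (E g) a) (hx : ∀ g ∈ C, Commute (x g) a) :
    Commute (gl C E x) a := Commute.sum_left _ _ _ fun g hg => (hx g hg).mul_left (hE g hg)

theorem IsPU.const (h : IsPU C E) (a : A) : gl C E (fun _ => a) = a := by
  rw [gl, ← Finset.mul_sum, h.sum, mul_one]

theorem IsPU.mul (h : IsPU C E) (hy : ∀ g ∈ C, Commute (y g) (E g)) :
    gl C E x * gl C E y = gl C E fun g => x g * y g := glue_mul C E x y h.proj h.orth hy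

theorem IsPU.star (h : IsPU C E) (hx : ∀ g ∈ C, Commute (x g) (E g)) :
    star (gl C E x) = gl C E fun g => star (x g) := glue_star C E x h.proj hx

theorem IsPU.norm_le (h : IsPU C E) (hx : ∀ g ∈ C, Commute (x g) (E g)) {c : ℝ} (hc : 0 ≤ c)
    (hn : ∀ g ∈ C, ‖x g‖ ≤ c) : ‖gl C E x‖ ≤ c := glue_norm C E x h.proj h.orth hx hc hn

theorem IsPU.comm_star (h : IsPU C E) {g : G} (hg : g ∈ C) {a : A} (ha : Commute a (E g)) :
    Commute (Star.star a) (E g) := by
  have := ha.star_star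
  rwa [(h.proj g hg).isSelfAdjoint.star_eq] at this

theorem IsPU.unitary (h : IsPU C E) (hx : ∀ g ∈ C, Commute (x g) (E g))
    (hu : ∀ g ∈ C, x g ∈ unitary A) : gl C E x ∈ unitary A := by
  rw [Unitary.mem_iff, h.star hx, h.mul hx, h.mul fun g hg => h.comm_star hg (hx g hg)]
  exact ⟨(gl_congr fun g hg => (hu g hg).1).trans (h.const 1),
    (gl_congr fun g hg => (hu g hg).2).trans (h.const 1)⟩

theorem IsPU.conj (h : IsPU C E) (hx : ∀ g ∈ C, Commute (x g) (E g)) {a : A}
    (ha : ∀ g ∈ C, Commute a (E g)) :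
    gl C E x * a * Star.star (gl C E x) = gl C E fun g => x g * a * Star.star (x g) := by
  rw [gl_mul_right ha, h.star hx, h.mul fun g hg => h.comm_star hg (hx g hg)]

theorem IsPU.exists_hom {D : Type} [CStarAlgebra D] (h : IsPU C E) (φ : G → D →⋆ₐ[ℂ] A)
    (φ₀ : D →⋆ₐ[ℂ] A) (hc : ∀ g ∈ C, ∀ d, Commute (φ g d) (E g))
    (h0 : ∀ g ∈ C, ∀ d, Commute (φ₀ d) (E g)) :
    ∃ φ' : D →⋆ₐ[ℂ] A, ∀ d, φ' d = gl C E fun g => φ g d := by
  obtain ⟨φ', h1⟩ := exists_glue_sum C E h.proj h.orth φ φ₀ hc h0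
  exact ⟨φ', fun d => by rw [h1, h.sum, sub_self, mul_zero, add_zero, gl]⟩

/-- An estimate for glued products follows from the estimates on all atoms. -/
theorem atoms (S : StarSubalgebra ℂ A) (P : ℕ → Prop) (C : ℕ → Finset G) (E : ℕ → G → A)
    (a a' : ℕ → G → A) (b b' : ℕ → A) (hE : ∀ n, P n → IsPU (C n) (E n))
    (hS : ∀ n, P n → ∀ g, ∀ x ∈ S, Commute x (E n g))
    (hEE : ∀ n m, P n → P m → n ≠ m → ∀ g h, Commute (E n g) (E m h))
    (ha : ∀ n g, a n g ∈ S) (ha' : ∀ n g, a' n g ∈ S)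
    (hb : ∀ n, P n → b n = gl (C n) (E n) (a n) ∧ b' n = gl (C n) (E n) (a' n))
    (h1 : ∀ n, ¬ P n → ∀ g, b n = a n g ∧ b' n = a' n g) {u u' : A} (hu : u ∈ S) (hu' : u' ∈ S)
    {ε : ℝ} (hε : 0 ≤ ε) (g₀ : G) (n : ℕ) : ∀ l ∈ S, ∀ l' ∈ S,
    (∀ k : ℕ → G, (∀ m < n, P m → k m ∈ C m) →
      ‖l * dprod (fun m => a m (k m)) n * u * star (l * dprod (fun m => a m (k m)) n) -
        l' * dprod (fun m => a' m (k m)) n * u' * star (l' * dprod (fun m => a' m (k m)) n)‖ ≤ ε) →
    ‖l * dprod b n * u * star (l * dprod b n) -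
      l' * dprod b' n * u' * star (l' * dprod b' n)‖ ≤ ε := by
  induction n with
  | zero => exact fun l _ l' _ h => h (fun _ => g₀) fun m hm => absurd hm (Nat.not_lt_zero m)
  | succ n ih =>
    intro l hl l' hl' h
    have key : ∀ g, (P n → g ∈ C n) →
        ‖l * a n g * dprod b n * u * star (l * a n g * dprod b n) -
          l' * a' n g * dprod b' n * u' * star (l' * a' n g * dprod b' n)‖ ≤ ε := by
      intro g hg
      refine ih _ (mul_mem hl (ha n g)) _ (mul_mem hl' (ha' n g)) fun k hk => ?_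
      have h2 := h (Function.update k n g) fun m hm hP => by
        rcases Nat.lt_succ_iff_lt_or_eq.1 hm with hm | rfl
        · rw [Function.update_of_ne hm.ne]
          exact hk m hm hP
        · rw [Function.update_self]
          exact hg hP
      have h3 : ∀ c : ℕ → G → A, dprod (fun m => c m (Function.update k n g m)) (n + 1) =
          c n g * dprod (fun m => c m (k m)) n := fun c => by
        rw [dprod, Function.update_self,
          xk2_dprod_congr n fun m hm => by rw [Function.update_of_ne hm.ne]]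
      rwa [h3, h3, ← mul_assoc l, ← mul_assoc l'] at h2
    by_cases hP : P n
    · have hp := hE n hP
      have hc : ∀ (c : ℕ → G → A) (d : ℕ → A), (∀ m g, c m g ∈ S) →
          (∀ m, P m → d m = gl (C m) (E m) (c m)) → (∀ m, ¬ P m → d m = c m g₀) →
          ∀ g, ∀ m ≤ n, Commute (dprod d m) (E n g) := by
        intro c d hc hd hd' g m
        induction m with
        | zero => exact fun _ => Commute.one_left _
        | succ m ihm =>
          intro hm
          refine Commute.mul_left ?_ (ihm (Nat.le_of_succ_le hm))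
          by_cases hm' : P m
          · rw [hd m hm']
            exact gl_commute (fun k _ => hEE m n hm' hP (Nat.ne_of_lt hm) k g)
              fun k _ => hS n hP g _ (hc m k)
          · rw [hd' m hm']
            exact hS n hP g _ (hc m _)
      have c1 := fun g => hc a b ha (fun m hm => (hb m hm).1) (fun m hm => (h1 m hm g₀).1) g n le_rfl
      have c2 := fun g =>
        hc a' b' ha' (fun m hm => (hb m hm).2) (fun m hm => (h1 m hm g₀).2) g n le_rfl
      have c3 : ∀ g, Commute (l * a n g * dprod b n) (E n g) := fun g =>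
        (hS n hP g _ (mul_mem hl (ha n g))).mul_left (c1 g)
      have c4 : ∀ g, Commute (l' * a' n g * dprod b' n) (E n g) := fun g =>
        (hS n hP g _ (mul_mem hl' (ha' n g))).mul_left (c2 g)
      rw [dprod, dprod, (hb n hP).1, (hb n hP).2, ← mul_assoc l, ← mul_assoc l', mul_gl, mul_gl,
        gl_mul_right fun g _ => c1 g, gl_mul_right fun g _ => c2 g,
        hp.conj (fun g _ => c3 g) fun g _ => hS n hP g _ hu,
        hp.conj (fun g _ => c4 g) fun g _ => hS n hP g _ hu', gl_sub]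
      refine hp.norm_le (fun g hg => ?_) hε fun g hg => key g fun _ => hg
      exact (((c3 g).mul_left (hS n hP g _ hu)).mul_left (hp.comm_star hg (c3 g))).sub_left
        (((c4 g).mul_left (hS n hP g _ hu')).mul_left (hp.comm_star hg (c4 g)))
    · rw [dprod, dprod, (h1 n hP g₀).1, (h1 n hP g₀).2, ← mul_assoc l, ← mul_assoc l']
      exact key g₀ fun h => absurd h hP

end Glue

section Act

variable {G A : Type} [Group G] [CStarAlgebra A] [PartialOrder A] [StarOrderedRing A]

theorem act_gl (γ : G →* (A ≃⋆ₐ[ℂ] A)) (k : G) {C C' : Finset G} {E E' x x' : G → A}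
    (hC : ∀ g, g ∈ C' ↔ k⁻¹ * g ∈ C) (hE : ∀ g ∈ C, γ k (E g) = E' (k * g))
    (hx : ∀ g ∈ C, γ k (x g) = x' (k * g)) : γ k (gl C E x) = gl C' E' x' := by
  rw [gl, gl, map_sum]
  refine Finset.sum_nbij' (fun g => k * g) (fun g => k⁻¹ * g) (fun g hg => ?_)
    (fun g hg => (hC g).1 hg) (fun g _ => by simp) (fun g _ => by simp) fun g hg => ?_
  · rw [hC, inv_mul_cancel_left]
    exact hg
  · rw [map_mul, hE g hg, hx g hg]

/-- Exact Rokhlin projections for all finite subgroups, in the commutant of any countable set. -/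
def Rok (γ : G →* (A ≃⋆ₐ[ℂ] A)) : Prop :=
  ∀ H : Subgroup G, (H : Set G).Finite → ∀ T : Set A, T.Countable → ∃ e ∈ cent T,
    ∀ (c : G) (C : Finset G), (∀ g, g ∈ C ↔ c⁻¹ * g ∈ H) → IsPU C fun g => γ g e

/-- Cosets of finite stabilisers, attached to the points of `I` other than `o`. -/
structure IsSec {I : Type} (o : I) (lab : I → G) (orb : I → I) (C : I → Finset G)
    (H : I → Subgroup G) : Prop where
  fin : ∀ σ, σ ≠ o → (H (orb σ) : Set G).Finite
  mem : ∀ σ, σ ≠ o → ∀ g, g ∈ C σ ↔ (lab σ)⁻¹ * g ∈ H (orb σ)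

theorem Rok.sec [Countable G] {γ : G →* (A ≃⋆ₐ[ℂ] A)} (h : Rok γ) {I : Type} {o : I}
    {lab : I → G} {ob : I → I} {C : I → Finset G} {H : I → Subgroup G} (hs : IsSec o lab ob C H)
    {T : Set A} (hT : T.Countable) : ∃ e : I → A, (∀ ω g, γ g (e ω) ∈ cent (orb γ T)) ∧
      ∀ σ, σ ≠ o → IsPU (C σ) fun g => γ g (e (ob σ)) := by
  have h1 : ∀ ω, ∃ e ∈ cent (orb γ T), (H ω : Set G).Finite → ∀ (c : G) (C : Finset G),
      (∀ g, g ∈ C ↔ c⁻¹ * g ∈ H ω) → IsPU C fun g => γ g e := fun ω => by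
    by_cases hf : (H ω : Set G).Finite
    · obtain ⟨e, h1, h2⟩ := h _ hf _ (countable_orb γ hT)
      exact ⟨e, h1, fun _ => h2⟩
    · exact ⟨1, one_mem _, fun h => absurd h hf⟩
  choose e h1 h2 using h1
  exact ⟨e, fun ω g => act_mem_cent γ g (fun t ht => act_mem_orb γ _ ht) (h1 ω),
    fun σ hσ => h2 _ (hs.fin σ hσ) _ _ (hs.mem σ hσ)⟩

/-- Orbit representatives and cosets for an action with finite stabilisers off the point `o`. -/
theorem exists_sec {I Z : Type} (act : G → Z → Z) (h1 : ∀ z, act 1 z = z)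
    (hm : ∀ g h z, act g (act h z) = act (g * h) z) (ex : I → Z) (o : I)
    (hfin : ∀ σ, σ ≠ o → {g | act g (ex σ) = ex σ}.Finite) :
    ∃ (lab : I → G) (orb : I → I) (C : I → Finset G) (H : I → Subgroup G),
      IsSec o lab orb C H ∧ (∀ σ, act (lab σ) (ex (orb σ)) = ex σ) ∧
      (∀ σ τ g, ex τ = act g (ex σ) → orb τ = orb σ) ∧
      ∀ σ, σ ≠ o → ∀ g, g ∈ C σ ↔ act g (ex (orb σ)) = ex σ := by
  classical
  let s : Setoid I :=
    { r := fun σ τ => ∃ g, act g (ex σ) = ex τ
      iseqv :=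
        { refl := fun σ => ⟨1, h1 _⟩
          symm := fun ⟨g, hg⟩ => ⟨g⁻¹, by rw [← hg, hm, inv_mul_cancel, h1]⟩
          trans := fun ⟨g, hg⟩ ⟨h, hh⟩ => ⟨h * g, by rw [← hm, hg, hh]⟩ } }
  have hex : ∀ σ, ∃ g, act g (ex (Quotient.mk s σ).out) = ex σ := fun σ => Quotient.mk_out (s := s) σ
  choose lab hlab using hex
  let H : I → Subgroup G := fun ω =>
    { carrier := {g | act g (ex ω) = ex ω}
      one_mem' := h1 _
      mul_mem' := fun {a b} ha hb => by
        change act (a * b) (ex ω) = ex ω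
        rw [← hm, show act b (ex ω) = ex ω from hb, show act a (ex ω) = ex ω from ha]
      inv_mem' := fun {a} ha => by
        change act a⁻¹ (ex ω) = ex ω
        nth_rewrite 1 [← show act a (ex ω) = ex ω from ha]
        rw [hm, inv_mul_cancel, h1] }
  have hf : ∀ σ, σ ≠ o → {g | act g (ex (Quotient.mk s σ).out) = ex σ}.Finite := fun σ hσ =>
    ((hfin σ hσ).image (· * lab σ)).subset fun g hg => ⟨g * (lab σ)⁻¹, by
      change act (g * (lab σ)⁻¹) (ex σ) = ex σ
      nth_rewrite 1 [← hlab σ]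
      rw [hm, inv_mul_cancel_right]
      exact hg, by simp⟩
  let C : I → Finset G := fun σ => if h : σ ≠ o then (hf σ h).toFinset else ∅
  have hC : ∀ σ, σ ≠ o → ∀ g, g ∈ C σ ↔ act g (ex (Quotient.mk s σ).out) = ex σ := fun σ hσ g => by
    simp only [C, dif_pos hσ, Set.Finite.mem_toFinset]
    rfl
  have hH : ∀ σ g, act g (ex (Quotient.mk s σ).out) = ex σ ↔
      (lab σ)⁻¹ * g ∈ H (Quotient.mk s σ).out := fun σ g => by
    change _ ↔ act ((lab σ)⁻¹ * g) (ex _) = ex _
    constructor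
    · intro h
      rw [← hm, h]
      nth_rewrite 1 [← hlab σ]
      rw [hm, inv_mul_cancel, h1]
    · intro h
      rw [← hlab σ]
      nth_rewrite 2 [← h]
      rw [hm, mul_inv_cancel_left]
  refine ⟨lab, fun σ => (Quotient.mk s σ).out, C, H, ⟨fun σ hσ => ?_, fun σ hσ g => ?_⟩, hlab,
    fun σ τ g h => ?_, hC⟩
  · exact ((hf σ hσ).image ((lab σ)⁻¹ * ·)).subset fun g hg =>
      ⟨lab σ * g, (hH σ _).2 (by rwa [inv_mul_cancel_left]), by simp⟩
  · rw [hC σ hσ, hH]
  · simp only [(Quotient.sound (s := s) (a := σ) (b := τ) ⟨g, h.symm⟩).symm]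

end Act

end Pool.Agent.Izumi
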