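import Pool.Agent.Lib.MP_b2135d_an.XM5
import Pool.Agent.Lib.MP_b2135d_an.VA

/-! The model for groups with torsion: sign cocycle and finite stabilisers. -/

namespace Pool.Agent.Izumi

open scoped ComplexOrder Pointwise
open Pool.Agent.Lib.MP_f90f6c_an.H50

set_option linter.unusedSectionVars false

section Pairs

variable {V : Type}

open Classical in
/-- The product of a symmetric function over the unordered pairs of a finite set. -/
noncomputable def pp (f : V → V → ℝ) (O : Finset V) : ℝ :=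
  ∏ a ∈ O, ∏ b ∈ O, if WellOrderingRel a b then f a b else 1

theorem pp_insert [DecidableEq V] {f : V → V → ℝ} (hf : ∀ a b, f a b = f b a) {x : V}
    {O : Finset V} (hx : x ∉ O) : pp f (insert x O) = pp f O * ∏ a ∈ O, f x a := by
  classical
  simp only [pp, Finset.prod_insert hx, Finset.prod_mul_distrib]
  rw [if_neg (irrefl x), one_mul, ← mul_assoc, mul_comm, ← Finset.prod_mul_distrib]
  congr 1
  refine Finset.prod_congr rfl fun a ha => ?_
  rcases trichotomous_of WellOrderingRel x a with h | h | h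
  · rw [if_pos h, if_neg (asymm h), mul_one]
  · exact absurd (h ▸ ha) hx
  · rw [if_pos h, if_neg (asymm h), one_mul, hf]

theorem pp_mul (f f' : V → V → ℝ) (O : Finset V) :
    pp f O * pp f' O = pp (fun a b => f a b * f' a b) O := by
  simp only [pp, ← Finset.prod_mul_distrib]
  refine Finset.prod_congr rfl fun a _ => Finset.prod_congr rfl fun b _ => ?_
  split_ifs
  · rfl
  · exact one_mul 1

theorem pp_congr {f f' : V → V → ℝ} {O : Finset V} (h : ∀ a ∈ O, ∀ b ∈ O, f a b = f' a b) :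
    pp f O = pp f' O :=
  Finset.prod_congr rfl fun a ha => Finset.prod_congr rfl fun b hb => by rw [h a ha b hb]

theorem pp_sq {f : V → V → ℝ} (h : ∀ a b, f a b * f a b = 1) {O : Finset V} :
    pp f O * pp f O = 1 := by
  rw [pp_mul]
  simp [pp, h]

theorem pp_map [DecidableEq V] {f : V → V → ℝ} (hf : ∀ a b, f a b = f b a) (π : Equiv.Perm V)
    (O : Finset V) : pp f (O.map π.toEmbedding) = pp (fun a b => f (π a) (π b)) O := by
  induction O using Finset.induction_on with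
  | empty => simp [pp]
  | insert x O hx ih =>
    rw [Finset.map_insert, pp_insert hf (by simpa using hx), pp_insert (fun a b => hf _ _) hx, ih,
      Finset.prod_map]
    rfl

theorem tour_sq {t : V → V → ℝ} (ht : IsTour t) (a b c d : V) :
    t a b * t c d * (t a b * t c d) = 1 := by
  rw [mul_mul_mul_comm, ht.sq, ht.sq, one_mul]

theorem tour_symm {t t' : V → V → ℝ} (ht : IsTour t) (ht' : IsTour t') (a b : V) :
    t a b * t' a b = t b a * t' b a := by
  by_cases h : a = b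
  · rw [h]
  · rw [ht.anti a b h, ht'.anti a b h, neg_mul_neg]

theorem IsTour.comp {V' : Type} {t : V → V → ℝ} (ht : IsTour t) {φ : V' → V}
    (hφ : Function.Injective φ) : IsTour fun a b => t (φ a) (φ b) :=
  ⟨fun _ _ => ht.sq _ _, fun _ _ h => ht.anti _ _ (hφ.ne h)⟩

theorem exists_tour (V : Type) : ∃ t : V → V → ℝ, IsTour t := by
  classical
  refine ⟨fun a b => if WellOrderingRel a b then 1 else -1, fun a b => ?_, fun a b h => ?_⟩
  · split_ifs <;> norm_num
  · rcases trichotomous_of WellOrderingRel a b with h' | h' | h'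
    · rw [if_pos h', if_neg (asymm h')]
    · exact absurd h' h
    · rw [if_pos h', if_neg (asymm h'), neg_neg]

end Pairs

namespace Mode

variable {V m : Type} [Fintype V] [DecidableEq V] [Fintype m] [DecidableEq m] {δ : ℝ}
  (M : Mode m δ) {t t' : V → V → ℝ}

/-- The odd sites of a configuration. -/
def od (σ : V → m) : Finset V := Finset.univ.filter fun a => M.par (σ a) = true

/-- The sign that compares two tournaments on the odd sites. -/
noncomputable def zz (t t' : V → V → ℝ) (σ : V → m) : ℝ :=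
  pp (fun a b => t a b * t' a b) (M.od σ)

theorem zz_vac (t t' : V → V → ℝ) : M.zz t t' (M.vac V) = 1 := by
  simp [zz, od, vac, M.par_o, pp]

theorem zz_sq (ht : IsTour t) (ht' : IsTour t') (σ : V → m) : M.zz t t' σ * M.zz t t' σ = 1 :=
  pp_sq fun a b => by rw [mul_mul_mul_comm, ht.sq, ht'.sq, one_mul]

theorem sgn_eq (t : V → V → ℝ) (x : V) (σ : V → m) :
    M.sgn t x σ = ∏ a ∈ (M.od σ).erase x, t x a := by
  rw [sgn, ← Finset.prod_filter]
  refine Finset.prod_congr ?_ fun _ _ => rfl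
  ext a
  simp [od]

theorem zz_mv (ht : IsTour t) (ht' : IsTour t') {b : Bool} {x : V} {σ : V → m}
    (hσ : M.s b (σ x) ≠ σ x) :
    M.zz t t' σ * M.sgn t x σ * M.zz t t' (M.mv b x σ) = M.sgn t' x σ := by
  have h0 : (M.od (M.mv b x σ)).erase x = (M.od σ).erase x := by
    ext a
    simp only [od, Finset.mem_erase, Finset.mem_filter, Finset.mem_univ, true_and]
    exact and_congr_right fun h => by rw [M.xm2_mv_ne b h]
  have h1 : x ∈ M.od (M.mv b x σ) ↔ x ∉ M.od σ := by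
    simp only [od, Finset.mem_filter, Finset.mem_univ, true_and]
    rw [xm2_mv_self, M.par_s b _ hσ]
    simp
  have h2 := pp_insert (tour_symm ht ht') (Finset.notMem_erase x (M.od σ))
  have h3 : pp (fun a b => t a b * t' a b) ((M.od σ).erase x) *
      pp (fun a b => t a b * t' a b) ((M.od σ).erase x) = 1 :=
    pp_sq fun a b => by rw [mul_mul_mul_comm, ht.sq, ht'.sq, one_mul]
  have h4 := M.xm2_sgn_sq ht x σ
  rw [Finset.prod_mul_distrib, ← sgn_eq, ← sgn_eq] at h2
  have h5 : M.zz t t' σ * M.zz t t' (M.mv b x σ) = M.sgn t x σ * M.sgn t' x σ := by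
    by_cases hx : x ∈ M.od σ
    · rw [zz, zz, ← Finset.erase_eq_of_notMem (fun h => h1.1 h hx), h0]
      nth_rewrite 1 [← Finset.insert_erase hx]
      rw [h2, mul_right_comm, h3, one_mul]
    · rw [zz, zz, ← Finset.insert_erase (h1.2 hx), h0, h2]
      nth_rewrite 1 [← Finset.erase_eq_of_notMem hx]
      rw [← mul_assoc, h3, one_mul]
  rw [mul_right_comm, h5, mul_right_comm, h4, one_mul]

theorem hop_conj (ht : IsTour t) (ht' : IsTour t') (b : Bool) (x : V) :
    dr (M.zz t t') * M.hop t b x * dr (M.zz t t') = M.hop t' b x := by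
  rw [hop, hop, dr, diagonal_mul_wp, wp_mul_diagonal]
  refine wp_congr (fun σ => ?_) fun _ _ => rfl
  rw [amp, amp]
  split_ifs with h
  · simp
  · exact_mod_cast M.zz_mv ht ht' h

theorem X_conj {d : FD V} (ht : IsTour d.t) (ht' : IsTour t') :
    dr (M.zz d.t t') * M.X d * dr (M.zz d.t t') = M.X { d with t := t' } := by
  set Z := dr (M.zz d.t t') with hZ
  have z1 : Z * Z = 1 := by
    rw [hZ, dr_mul_dr]
    simp only [M.zz_sq ht ht', dr_one]
  have z2 : ∀ a b : Matrix (V → m) (V → m) ℂ, Z * (a * b) * Z = Z * a * Z * (Z * b * Z) :=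
    fun a b => by
      calc Z * (a * b) * Z = Z * a * (Z * Z) * b * Z := by rw [z1]; noncomm_ring
        _ = _ := by noncomm_ring
  have z3 : ∀ f, Z * dr f * Z = dr f := fun f => by
    rw [(dr_commute _ f).eq, mul_assoc, z1, mul_one]
  have z4 : ∀ s, Z * pj ℂ s * Z = pj ℂ s := fun s => by rw [pj_eq_dr, z3]
  have z5 : ∀ θ b, Z * M.fock d.t θ b * Z = M.fock t' θ b := fun θ b => by
    simp only [fock, Finset.mul_sum, Finset.sum_mul, mul_smul_comm, smul_mul_assoc]
    exact Finset.sum_congr rfl fun x _ => by rw [M.hop_conj ht ht']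
  simp only [X, sg1, sg0, H1, H0, kk, z2, mul_add Z, add_mul _ _ Z, z3, z4, z5]
  rfl

theorem od_cfg (π : Equiv.Perm V) (σ : V → m) :
    M.od (cfg m π σ) = (M.od σ).map π.toEmbedding := by
  ext a
  simp [od, cfg_apply, Finset.mem_map_equiv]

theorem zz_cocycle {G : Type} [Group G] [DecidableEq G] {sg : G → G → ℝ} (hs : IsTour sg)
    {U W : Finset G} {g : G} {π : Equiv.Perm W} (hπ : Ext U W g π) {σ : W → m}
    (hσ : ∀ x : W, (x : G) ∉ U → σ x = M.o) (k : G) :
    M.zz (fun x a : W => sg x a) (fun x a : W => sg (k⁻¹ * x) (k⁻¹ * a)) σ =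
      M.zz (fun x a => sg (π.symm x : W) (π.symm a : W)) (fun x a : W => sg x a) (cfg m π σ) *
        M.zz (fun x a : W => sg x a) (fun x a : W => sg ((g * k)⁻¹ * x) ((g * k)⁻¹ * a))
          (cfg m π σ) := by
  have t1 : IsTour fun x a : W => sg x a := hs.comp Subtype.val_injective
  have t2 : IsTour fun x a : W => sg (π.symm x : W) (π.symm a : W) := t1.comp π.symm.injective
  have t3 : IsTour fun x a : W => sg ((g * k)⁻¹ * x) ((g * k)⁻¹ * a) :=
    hs.comp (φ := fun x : W => (g * k)⁻¹ * (x : G)) fun _ _ h => Subtype.ext (mul_left_cancel h)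
  have h1 : ∀ a ∈ M.od σ, (g * k)⁻¹ * (π a : W) = k⁻¹ * (a : G) := fun a ha => by
    have h2 : (a : G) ∈ U := by
      by_contra h
      have := (Finset.mem_filter.1 ha).2
      rw [hσ a h, M.par_o] at this
      exact Bool.false_ne_true this
    have h3 := hπ.val (π a) ((hπ.mem (π a)).1 (by rwa [Equiv.symm_apply_apply]))
    rw [Equiv.symm_apply_apply] at h3
    rw [h3, mul_inv_rev, mul_assoc]
  rw [zz, zz, zz, od_cfg, pp_map (tour_symm t2 t1), pp_map (tour_symm t1 t3), pp_mul]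
  refine pp_congr fun a ha b hb => ?_
  rw [Equiv.symm_apply_apply, Equiv.symm_apply_apply, h1 a ha, h1 b hb, mul_assoc,
    ← mul_assoc (sg (π a : W) (π b : W)), hs.sq, one_mul]

end Mode

/-- The almost invariant finite rank model with signs and finite stabilisers. -/
structure RModel (G I V : Type) [Group G] [Fintype I] [DecidableEq I] [Fintype V] (S : Finset G)
    (ε : ℝ) (n₀ : ℕ) (r : ℝ) extends Model G I V ∅ ε n₀ r where
  C : I → Finset G
  H : I → Subgroup G
  sec : IsSec o lab orb C H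
  inj' : ∀ σ τ g, σ ≠ o → τ ≠ o → g ∈ C σ → g ∈ C τ → orb σ = orb τ → σ = τ
  y_C : ∀ σ, σ ≠ o → ∀ g ∈ C σ, y σ = sh g (y (orb σ))
  π_o' : ∀ g, π g o = o
  π_odd' : ∀ g σ, π g σ ∈ odd ↔ σ ∈ odd
  π_C : ∀ g ∈ S, ∀ σ ∈ I0, σ ≠ o → orb (π g σ) = orb σ ∧ ∀ k, k ∈ C (π g σ) ↔ g⁻¹ * k ∈ C σ
  sg : I → G → ℝ
  sg_sq : ∀ σ k, sg σ k * sg σ k = 1
  z : G → I → ℝ
  z_sq : ∀ g σ, z g σ * z g σ = 1
  z_o : ∀ g, z g o = 1
  sg_π : ∀ g ∈ S, ∀ σ ∈ I0, ∀ k, sg σ k = z g (π g σ) * sg (π g σ) (g * k)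
  π_X' : ∀ g ∈ S, ‖dr (z g) * X.submatrix (π g).symm (π g).symm * dr (z g) - X‖ ≤ ε

section Grp

variable {G : Type} [Group G] [DecidableEq G]

omit [DecidableEq G] in
theorem finite_stab_sh {m : Type} (o : m) {ζ : G → m} (W : Finset G)
    (hW : ∀ x, x ∉ W → ζ x = o) (hζ : ∃ x, ζ x ≠ o) : {g | sh g ζ = ζ}.Finite := by
  obtain ⟨x, hx⟩ := hζ
  refine (W.finite_toSet.image fun y => x * y⁻¹).subset fun g hg => ⟨g⁻¹ * x, ?_, by simp⟩
  by_contra h
  exact hx ((congrFun (show sh g ζ = ζ from hg) x).symm.trans (hW _ h))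

/-- The data of the model on the sites `W`. -/
def rFD (sg : G → G → ℝ) (W U F : Finset G) (θ : G → ℝ) : FD W where
  t := fun x a => sg x a
  U := U.subtype (· ∈ W)
  θ := fun x => if (x : G) ∈ U then θ x else 0
  F := F.subtype (· ∈ W)

theorem rFD_ok {sg : G → G → ℝ} (h1 : IsTour sg)
    (W : Finset G) {U F : Finset G} (hF : F ⊆ U) {θ : G → ℝ} (hθ : ∀ x, 0 < θ x) :
    (rFD sg W U F θ).Ok := by
  refine ⟨h1.comp Subtype.val_injective, fun x hx => ?_, fun x hx => ?_, fun x hx => ?_⟩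
  · simp only [rFD, Finset.mem_subtype] at hx ⊢
    rw [if_pos hx]
    exact hθ _
  · simp only [rFD, Finset.mem_subtype] at hx ⊢
    rw [if_neg hx]
  · simp only [rFD, Finset.mem_subtype] at hx ⊢
    exact hF hx

theorem rFD_core (sg : G → G → ℝ) {W U F : Finset G} (hF : F ⊆ U) (hU : U ⊆ W) {θ : G → ℝ} {c : ℝ}
    (hθ : ∀ x ∈ F, θ x = c) :
    ∑ x ∈ (rFD sg W U F θ).F, (rFD sg W U F θ).θ x ^ 2 = F.card * c ^ 2 := by
  have h1 : ∀ x ∈ (rFD sg W U F θ).F, (rFD sg W U F θ).θ x ^ 2 = c ^ 2 := by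
    intro x hx
    simp only [rFD, Finset.mem_subtype] at hx ⊢
    rw [if_pos (hF hx), hθ _ hx]
  rw [Finset.sum_congr rfl h1, Finset.sum_const, nsmul_eq_mul]
  congr 2
  simp only [rFD]
  rw [Finset.card_subtype, Finset.filter_true_of_mem fun x hx => hU (hF hx)]

/-- Almost invariance of the unitary of the model. -/
theorem rFD_est {m : Type} [Fintype m] [DecidableEq m] {δ : ℝ} (M : Mode m δ) {sg : G → G → ℝ}
    (h1 : IsTour sg) {W U F : Finset G}
    (hF : F ⊆ U) (hU : U ⊆ W) {g : G} {π : Equiv.Perm W} (hπ : Ext U W g π) {θ : G → ℝ}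
    {θ0 η a Λ : ℝ} (hθ0 : 0 < θ0) (hη : 0 ≤ η) (ha : 1 ≤ a) (hΛ : 0 < Λ)
    (haF : F.card * θ0 ^ 2 = a ^ 2) (hFg : ∀ x ∈ F, g * x ∈ U ∧ g⁻¹ * x ∈ U)
    (hθ1 : ∀ x, 1 ≤ θ x) (hθF : ∀ x ∈ F, θ x = 1) (hθg : ∀ x, |θ (g⁻¹ * x) - θ x| ≤ η * θ x)
    (hθo : ∀ x ∈ U, (g * x ∉ U ∨ g⁻¹ * x ∉ U) → Λ / θ0 ≤ θ x)
    (hfol : ((symmDiff F (g • F)).card : ℝ) ≤ η ^ 2 * F.card) (h3 : 5 * η * a ≤ 1)
    (h4 : (1 + 2 * a) / Λ ≤ 1) :
    ‖dr (M.zz (fun x a => sg (π.symm x : W) (π.symm a : W)) fun x a : W => sg x a) *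
      (M.X (rFD sg W U F fun x => θ0 * θ x)).submatrix (cfg m π).symm (cfg m π).symm *
        dr (M.zz (fun x a => sg (π.symm x : W) (π.symm a : W)) fun x a : W => sg x a) -
      M.X (rFD sg W U F fun x => θ0 * θ x)‖ ≤ 24 * η * a + 8 * ((1 + 2 * a) / Λ) := by
  set d := rFD sg W U F fun x => θ0 * θ x with hd
  have hpos : ∀ x, 0 < θ0 * θ x := fun x => mul_pos hθ0 (one_pos.trans_le (hθ1 x))
  have hok : d.Ok := rFD_ok h1 W hF hpos
  have mU : ∀ x : W, x ∈ d.U ↔ (x : G) ∈ U := fun x => Finset.mem_subtype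
  have mF : ∀ x : W, x ∈ d.F ↔ (x : G) ∈ F := fun x => Finset.mem_subtype
  have mU' : ∀ x : W, x ∈ (d.map π).U ↔ g⁻¹ * x ∈ U := fun x => by
    simp only [FD.map, Finset.mem_map_equiv]
    rw [mU, hπ.mem]
  have mF' : ∀ x : W, x ∈ (d.map π).F ↔ g⁻¹ * x ∈ F := fun x => by
    simp only [FD.map, Finset.mem_map_equiv]
    rw [mF]
    constructor
    · intro h
      rwa [← hπ.val x ((hπ.mem x).1 (hF h))]
    · intro h
      rwa [hπ.val x (hF h)]
  have vθ : ∀ x : W, (x : G) ∈ U → d.θ x = θ0 * θ x := fun x hx => if_pos hx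
  have vθ' : ∀ x : W, g⁻¹ * x ∈ U → (d.map π).θ x = θ0 * θ (g⁻¹ * x) := fun x hx => by
    change d.θ (π.symm x) = _
    rw [vθ _ ((hπ.mem x).2 hx), hπ.val x hx]
  let U0 : Finset W := Finset.univ.filter fun x => (x : G) ∈ U ∧ g⁻¹ * x ∈ U
  have m0 : ∀ x : W, x ∈ U0 ↔ (x : G) ∈ U ∧ g⁻¹ * x ∈ U := fun x => by simp [U0]
  have hF0 : d.F ⊆ U0 := fun x hx =>
    (m0 x).2 ⟨hF ((mF x).1 hx), (hFg _ ((mF x).1 hx)).2⟩
  have hF0' : (d.map π).F ⊆ U0 := fun x hx => by
    have h := (mF' x).1 hx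
    have h5 := (hFg _ h).1
    rw [mul_inv_cancel_left] at h5
    exact (m0 x).2 ⟨h5, hF h⟩
  have hηa : η ≤ η * a := le_mul_of_one_le_right hη ha
  have hη2 : η ≤ 1 / 2 := by linarith
  have hcard : ((symmDiff d.F (d.map π).F).card : ℝ) ≤ η ^ 2 * F.card := by
    refine le_trans ?_ hfol
    refine Nat.cast_le.2 (Finset.card_le_card_of_injOn (fun x : W => (x : G)) (fun x hx => ?_)
      Subtype.val_injective.injOn)
    rw [Finset.mem_coe, Finset.mem_symmDiff] at hx ⊢
    rw [mF, mF'] at hx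
    rw [← Finset.inv_smul_mem_iff, smul_eq_mul]
    exact hx
  have hb : ∀ x ∈ symmDiff d.F (d.map π).F, θ x ≤ 2 ∧ θ (g⁻¹ * x) ≤ 2 := by
    intro x hx
    have h5 := abs_le.1 (hθg x)
    have h6 := hθ1 x
    rw [Finset.mem_symmDiff, mF, mF'] at hx
    rcases hx with hx | hx
    · rw [hθF _ hx.1] at h5 ⊢
      constructor <;> linarith [h5.2]
    · rw [hθF _ hx.1] at h5 ⊢
      constructor
      · nlinarith [h5.1]
      · norm_num
  have hD : ∀ x ∈ symmDiff d.F (d.map π).F, x ∈ U0 := fun x hx => by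
    rw [Finset.mem_symmDiff] at hx
    exact hx.elim (fun h => hF0 h.1) fun h => hF0' h.1
  have hsum : ∀ f : W → ℝ, (∀ x ∈ symmDiff d.F (d.map π).F, f x ^ 2 ≤ (θ0 * 2) ^ 2) →
      ∑ x ∈ symmDiff d.F (d.map π).F, f x ^ 2 ≤ (2 * η * a) ^ 2 := by
    intro f hf
    refine (Finset.sum_le_card_nsmul _ _ _ hf).trans ?_
    rw [nsmul_eq_mul]
    calc _ ≤ η ^ 2 * F.card * (θ0 * 2) ^ 2 := by gcongr
      _ = 4 * η ^ 2 * (F.card * θ0 ^ 2) := by ring
      _ = (2 * η * a) ^ 2 := by rw [haF]; ring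
  have hcore : ∑ x ∈ d.F, d.θ x ^ 2 = a ^ 2 := by
    rw [hd, rFD_core sg hF hU (c := θ0) fun x hx => by rw [hθF x hx, mul_one], haF]
  rw [M.X_submatrix]
  have hX := M.X_conj (hok.map π).tour hok.tour
  change ‖dr (M.zz (d.map π).t d.t) * M.X (d.map π) * dr (M.zz (d.map π).t d.t) - M.X d‖ ≤ _
  rw [hX]
  refine (M.est_all hok (d' := { d.map π with t := d.t })
    ⟨hok.tour, (hok.map π).pos, (hok.map π).zero, (hok.map π).sub⟩ (U0 := U0) (fun x hx => (mU x).2 ((m0 x).1 hx).1)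
    (fun x hx => (mU' x).2 ((m0 x).1 hx).2) hF0 hF0' (fun x _ b _ => rfl) hη
    (zero_le_one.trans ha) (a' := 2 * η * a) (by positivity) hΛ (fun x hx => ?_)
    (hsum _ fun x hx => ?_) (hsum _ fun x hx => ?_) (by linarith) (fun x hx hx0 => ?_)
    (fun x hx hx0 => ?_) hcore.le ?_ h4).trans (by linarith)
  · change |(d.map π).θ x - d.θ x| ≤ _
    rw [vθ x ((m0 x).1 hx).1, vθ' x ((m0 x).1 hx).2, ← mul_sub, abs_mul, abs_of_pos hθ0]
    calc θ0 * |θ (g⁻¹ * x) - θ x| ≤ θ0 * (η * θ x) := by gcongr; exact hθg x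
      _ = η * (θ0 * θ x) := by ring
  · rw [vθ x ((m0 x).1 (hD x hx)).1]
    have := (hb x hx).1
    have := hpos x
    gcongr
  · change (d.map π).θ x ^ 2 ≤ _
    rw [vθ' x ((m0 x).1 (hD x hx)).2]
    have := (hb x hx).2
    have := hpos (g⁻¹ * x)
    gcongr
  · have h5 := (mU x).1 hx
    rw [vθ x h5, ← div_le_iff₀' hθ0]
    exact hθo _ h5 (Or.inr fun h => hx0 ((m0 x).2 ⟨h5, h⟩))
  · have h5 := (mU' x).1 hx
    change Λ ≤ (d.map π).θ x
    rw [vθ' x h5, ← div_le_iff₀' hθ0]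
    refine hθo _ h5 (Or.inl fun h => hx0 ((m0 x).2 ⟨?_, h5⟩))
    rwa [mul_inv_cancel_left] at h
  · rw [← hcore]
    refine le_of_eq ?_
    simp only [FD.map, Finset.sum_map, Equiv.coe_toEmbedding, Equiv.symm_apply_apply]

end Grp

theorem exists_rmodel {G : Type} [Group G] (hF : Foel G)
    (S : Finset G) {ε : ℝ} (hε : 0 < ε) : ∃ n₀ : ℕ, ∀ r : ℝ, 0 < r →
      ∃ (I V : Type) (_ : Fintype I) (_ : DecidableEq I) (_ : Fintype V),
        Nonempty (RModel G I V S ε n₀ r) := by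
  classical
  obtain ⟨a, ha1, haε⟩ : ∃ a : ℝ, 1 ≤ a ∧ a⁻¹ ≤ ε :=
    ⟨max 1 ε⁻¹, le_max_left _ _, inv_le_of_inv_le₀ hε (le_max_right _ _)⟩
  have ha0 : 0 < a := one_pos.trans_le ha1
  obtain ⟨e, he0, he1, heε⟩ : ∃ e : ℝ, 0 < e ∧ e ≤ 1 ∧ e ≤ ε :=
    ⟨min 1 ε, lt_min one_pos hε, min_le_left _ _, min_le_right _ _⟩
  set η : ℝ := e / (48 * a) with hη
  have hη0 : 0 < η := by positivity
  have hηa : η * a = e / 48 := by rw [hη]; field_simp
  set Λ : ℝ := 16 * (1 + 2 * a) / e with hΛ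
  have hΛ0 : 0 < Λ := by positivity
  have hΛa : (1 + 2 * a) / Λ = e / 16 := by rw [hΛ]; field_simp
  obtain ⟨F, hFne, hfol⟩ := hF.symmDiff S (η := η ^ 2) (by positivity)
  have hFc : (0 : ℝ) < F.card := Nat.cast_pos.2 hFne.card_pos
  set θ0 : ℝ := a / √(F.card : ℝ) with hθ0
  have hθ00 : 0 < θ0 := by positivity
  have haF : F.card * θ0 ^ 2 = a ^ 2 := by
    rw [hθ0, div_pow, Real.sq_sqrt hFc.le]; field_simp
  obtain ⟨U, θ, hFU, hFg, hθ1, hθF, hθg, hθo⟩ := exists_weights S F hη0 (Λ / θ0)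
  obtain ⟨sg, hs1⟩ := exists_tour G
  refine ⟨U.card, fun r hr => ?_⟩
  let W : Finset G := U ∪ S * U
  have hUW : U ⊆ W := Finset.subset_union_left
  have hgW : ∀ g ∈ S, ∀ x ∈ U, g * x ∈ W := fun g hg x hx =>
    Finset.mem_union_right _ (Finset.mul_mem_mul hg hx)
  have hπ : ∀ g : G, ∃ π : Equiv.Perm W, g ∈ S → Ext U W g π := fun g => by
    by_cases hg : g ∈ S
    · obtain ⟨π, h⟩ := exists_ext hUW (hgW g hg)
      exact ⟨π, fun _ => h⟩
    · exact ⟨1, fun h => absurd h hg⟩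
  choose π hπ using hπ
  let d : FD W := rFD sg W U F fun x => θ0 * θ x
  have hok : d.Ok := rFD_ok hs1 W hFU fun x => mul_pos hθ00 (one_pos.trans_le (hθ1 x))
  have hθn : ∀ x, 0 ≤ d.θ x := fun x => by
    by_cases h : x ∈ d.U
    · exact (hok.pos x h).le
    · exact (hok.zero x h).ge
  have hΘ : 0 ≤ ∑ x, d.θ x := Finset.sum_nonneg fun x _ => hθn x
  obtain ⟨m, _, _, ⟨M⟩⟩ := exists_mode (δ := r / (∑ x, d.θ x + 1)) (by positivity)
  obtain ⟨lab, orb, C, H, hsec, hl1, hl2, hl3⟩ := exists_sec (fun (g : G) (ζ : G → m) => sh g ζ)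
    sh_one sh_sh (exv W M.o) (M.vac W) fun σ hσ => finite_stab_sh M.o W (fun x hx => exv_not _ _ hx)
      (by
        by_contra h
        refine hσ (funext fun x => ?_)
        by_contra h2
        exact h ⟨x, by rwa [exv_coe]⟩)
  obtain ⟨c0, c, hj, hc⟩ := M.j_dec hok
  have hloc : ∀ σ ∈ M.loc d.U, ∀ x : W, (x : G) ∉ U → σ x = M.o := fun σ hσ x hx =>
    M.mem_loc.1 hσ x fun h => hx (Finset.mem_subtype.1 h)
  have hlo : M.l ≠ M.o := fun h => by
    have := M.y_l
    rw [h, M.y_o] at this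
    exact zero_ne_one this
  refine ⟨W → m, W, inferInstance, inferInstance, inferInstance, ⟨
    { o := M.vac W
      odd := M.odd W
      o_even := M.vac_not_odd
      lab := lab
      orb := orb
      inj := fun σ τ h1 h2 => exv_injective W M.o (by rw [← hl1 σ, ← hl1 τ, h1, h2])
      W := W
      y := fun σ x => M.y (exv W M.o σ x)
      y_mem := fun σ x => M.y_mem _
      y_supp := fun σ x hx => by rw [exv_not _ _ hx, M.y_o]
      y_lab := fun σ => funext fun x => congrArg M.y (congrFun (hl1 σ).symm x)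
      I0 := M.loc d.U
      X := M.X d
      X_unit := M.X_unit hok
      X_supp := M.X_supp d
      π := fun g => cfg m (π g)
      π_o := fun g hg => absurd hg (Finset.notMem_empty g)
      π_odd := fun g hg => absurd hg (Finset.notMem_empty g)
      π_lab := fun g hg => absurd hg (Finset.notMem_empty g)
      π_X := fun g hg => absurd hg (Finset.notMem_empty g)
      C := C
      H := H
      sec := hsec
      inj' := fun σ τ g h1 h2 h3 h4 h5 => exv_injective W M.o
        (by rw [← (hl3 σ h1 g).1 h3, ← (hl3 τ h2 g).1 h4, h5])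
      y_C := fun σ hσ g hg =>
        funext fun x => congrArg M.y (congrFun ((hl3 σ hσ g).1 hg).symm x)
      π_o' := fun g => rfl
      π_odd' := fun g σ => by simp only [Mode.odd, Finset.mem_filter, Mode.eps_cfg,
        Finset.mem_univ]
      π_C := fun g hg σ hσ h => by
        have h1 := exv_cfg hUW (hgW g hg) (hπ g hg) M.o (hloc σ hσ)
        have h2 := hl2 σ _ g h1
        have h3 : cfg m (π g) σ ≠ M.vac W := fun h3 => h ((cfg m (π g)).injective h3)
        refine ⟨h2, fun k => ?_⟩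
        rw [hl3 _ h3, hl3 _ h, h2, h1, ← sh_sh]
        constructor
        · intro h4
          rw [h4, sh_sh, inv_mul_cancel, sh_one]
        · intro h4
          rw [← h4, sh_sh, sh_sh, mul_inv_cancel, one_mul]
      sg := fun σ k => M.zz (fun x a : W => sg x a) (fun x a : W => sg (k⁻¹ * x) (k⁻¹ * a)) σ
      sg_sq := fun σ k => pp_sq fun x a => tour_sq hs1 _ _ _ _
      z := fun g => M.zz (fun x a => sg ((π g).symm x : W) ((π g).symm a : W)) fun x a : W => sg x a
      z_sq := fun g σ => pp_sq fun x a => tour_sq hs1 _ _ _ _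
      z_o := fun g => M.zz_vac _ _
      sg_π := fun g hg σ hσ k => M.zz_cocycle hs1 (hπ g hg) (hloc σ hσ) k
      π_X' := fun g hg => (rFD_est M hs1 hFU hUW (hπ g hg) hθ00 hη0.le ha1 hΛ0 haF (hFg g hg)
        hθ1 hθF (hθg g hg) (hθo g hg) (hfol g hg) (by linarith) (by linarith)).trans (by linarith)
      j := M.j d
      j_eq := M.j_eq hok
      Gd := M.Gd d
      o_bad := fun h => by
        obtain ⟨x, -, hx⟩ := (Finset.mem_filter.1 h).2
        exact hlo hx.symm
      good := fun σ hσ => by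
        obtain ⟨h1, x, -, hx⟩ := Finset.mem_filter.1 hσ
        refine ⟨⟨x, by beta_reduce; rw [exv_coe, hx, M.y_l]⟩, U, le_rfl, fun z hz => ?_⟩
        beta_reduce
        by_cases h : z ∈ W
        · rw [exv_coe W M.o σ ⟨z, h⟩, hloc σ h1 _ hz, M.y_o]
        · rw [exv_not _ _ h, M.y_o]
      j_bad := (M.j_bad hok ha0 (by
        rw [rFD_core sg hFU hUW (c := θ0) fun x hx => by rw [hθF x hx, mul_one], haF])).trans haε
      φ := fun x => M.mv (d.b x) x
      φ_inj := fun x => M.mv_injective _ _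
      c0 := c0
      c := c
      cb := d.θ
      j_dec := hj
      c_le := hc
      δ := r / (∑ x, d.θ x + 1)
      φ_y := fun x σ z => by
        have h0 : (0 : ℝ) ≤ r / (∑ x, d.θ x + 1) := by positivity
        by_cases h : z ∈ W
        · rw [exv_coe W M.o σ ⟨z, h⟩, exv_coe W M.o _ ⟨z, h⟩]
          by_cases h2 : (⟨z, h⟩ : W) = x
          · rw [h2, Mode.mv, Function.update_self]
            exact M.y_s _ _
          · rw [Mode.mv, Function.update_of_ne h2, sub_self, abs_zero]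
            exact h0
        · rw [exv_not _ _ h, exv_not _ _ h, sub_self, abs_zero]
          exact h0
      small := by
        rw [← mul_div_assoc, div_le_iff₀ (by positivity)]
        nlinarith }⟩⟩

end Pool.Agent.Izumi
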