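import Pool.Agent.Lib.MP_b2135d_an.XC4
import Pool.Agent.Lib.MP_b2135d_an.SA

/-! The core theorem. -/

namespace Pool.Agent.Izumi

open scoped ComplexOrder

theorem ucg {G D A ι : Type} [Group G] [Countable G] [CStarAlgebra D]
    [TopologicalSpace.SeparableSpace D] [CStarAlgebra A] [PartialOrder A] [StarOrderedRing A]
    [Countable ι] [MulAction G ι] (X : UCGData G D A ι) :
    ∃ U : ι → A, (∀ i, U i ∈ unitary A) ∧ (∀ i, U i ∈ cent X.T) ∧
      (∀ g i, X.γ g (U i) = U (g • i)) ∧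
        ∀ i x, U i * X.Φ i x * star (U i) = U X.i₀ * X.Φ X.i₀ x * star (U X.i₀) := by
  classical
  obtain ⟨d, hd⟩ := TopologicalSpace.exists_dense_seq D
  let f : (ι ⊕ ι) ⊕ ((G × ι) ⊕ (ι × ℕ)) → (ι → A) → A := fun k U =>
    match k with
    | .inl (.inl i) => U i * star (U i) - 1
    | .inl (.inr i) => star (U i) * U i - 1
    | .inr (.inl p) => X.γ p.1 (U p.2) - U (p.1 • p.2)
    | .inr (.inr p) => U p.1 * X.Φ p.1 (d p.2) * star (U p.1) -
        U X.i₀ * X.Φ X.i₀ (d p.2) * star (U X.i₀)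
  have hf : ∀ k, IsTerm X.γ (f k) := by
    rintro ((i | i) | (p | p))
    · exact ((IsTerm.var i).mul (IsTerm.var i).star).sub (IsTerm.const 1)
    · exact ((IsTerm.var i).star.mul (IsTerm.var i)).sub (IsTerm.const 1)
    · exact ((IsTerm.var p.2).act p.1).sub (IsTerm.var _)
    · exact (((IsTerm.var p.1).mul (IsTerm.const _)).mul (IsTerm.var p.1).star).sub
        (((IsTerm.var X.i₀).mul (IsTerm.const _)).mul (IsTerm.var X.i₀).star)
  have hP : Defn X.τ X.γ (fun U : ι → A => ∀ i, U i ∈ cent X.T) :=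
    Defn.forall fun i => Defn.mem_cent (X.count.mono X.sub) (IsTerm.var i)
  obtain ⟨U, -, hU, h0⟩ := X.sat.approx_eq (fun _ : ι => (9 : ℝ)) hP f hf (by
    intro s ε hε
    let g : (ι ⊕ ι) ⊕ ((G × ι) ⊕ (ι × ℕ)) → G := fun k =>
      match k with
      | .inr (.inl p) => p.1
      | _ => 1
    let a : (ι ⊕ ι) ⊕ ((G × ι) ⊕ (ι × ℕ)) → D := fun k =>
      match k with
      | .inr (.inr p) => d p.2
      | _ => 1
    obtain ⟨U, h1, h2, h3⟩ := X.approx (s.image g) (s.image a) hε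
    refine ⟨U, fun i => (h1 i).2.1, fun i => (h1 i).1, ?_⟩
    rintro ((i | i) | (p | p)) hk
    · exact (h1 i).2.2.1
    · exact (h1 i).2.2.2
    · exact h2 _ (Finset.mem_image_of_mem g hk) _
    · exact h3 _ _ _ (Finset.mem_image_of_mem a hk))
  refine ⟨U, fun i => ⟨sub_eq_zero.1 (h0 (.inl (.inr i))), sub_eq_zero.1 (h0 (.inl (.inl i)))⟩, hU,
    fun g i => sub_eq_zero.1 (h0 (.inr (.inl (g, i)))), fun i x => ?_⟩
  refine hd.induction_on x (isClosed_eq ?_ ?_) fun n => sub_eq_zero.1 (h0 (.inr (.inr (i, n))))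
  · exact (continuous_const.mul (hom_continuous _)).mul continuous_const
  · exact (continuous_const.mul (hom_continuous _)).mul continuous_const

end Pool.Agent.Izumi
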