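import Pool.Agent.Lib.MP_b2135d_an.VK
import Pool.Agent.Lib.MP_b2135d_an.VM
import Pool.Agent.Lib.MP_b2135d_an.XMain

/-! The core theorem in the presence of torsion. -/

namespace Pool.Agent.Izumi

open scoped ComplexOrder Pointwise
open Pool.Agent.Lib.MP_f90f6c_an.H50

set_option linter.unusedSectionVars false

section Sign

variable {I A : Type} [Fintype I] [DecidableEq I] [CStarAlgebra A] [PartialOrder A]
  [StarOrderedRing A]

theorem map_Ph' {v : I → A} (θ : A ≃⋆ₐ[ℂ] A) (π : Equiv.Perm I) {I0 : Finset I} {z : I → ℝ}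
    (hv : ∀ σ ∈ I0, θ (v σ) = (z (π σ) : ℂ) • v (π σ)) {M : Matrix I I A} (h₁ : M * pj A I0ᶜ = 0)
    (h₂ : pj A I0ᶜ * M = 0) : θ (Ph v M) =
      Ph v (sc A (dr z) * (mp (θ : A →⋆ₐ[ℂ] A) M).submatrix π.symm π.symm * sc A (dr z)) := by
  unfold Ph
  rw [map_sum]
  refine Eq.trans ?_ (Equiv.sum_comp π _)
  refine Finset.sum_congr rfl fun σ _ => ?_
  rw [map_sum]
  refine Eq.trans ?_ (Equiv.sum_comp π _)
  refine Finset.sum_congr rfl fun τ _ => ?_
  rw [dr, sc_diagonal, Matrix.mul_diagonal, Matrix.diagonal_mul, Matrix.submatrix_apply,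
    Equiv.symm_apply_apply, Equiv.symm_apply_apply, mp_apply, map_mul, map_mul, map_star,
    ← Algebra.commutes, ← Algebra.smul_def, ← Algebra.smul_def]
  change θ (v σ) * θ (M σ τ) * star (θ (v τ)) =
    v (π σ) * ((z (π τ) : ℂ) • (z (π σ) : ℂ) • θ (M σ τ)) * star (v (π τ))
  by_cases hσ : σ ∈ I0
  · by_cases hτ : τ ∈ I0
    · rw [hv σ hσ, hv τ hτ, star_smul, Complex.star_def, Complex.conj_ofReal]
      simp only [smul_mul_assoc, mul_smul_comm]
    · have := congrFun (congrFun h₁ σ) τ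
      rw [pj, Matrix.mul_diagonal, if_pos (Finset.mem_compl.2 hτ), mul_one] at this
      simp [this]
  · have := congrFun (congrFun h₂ σ) τ
    rw [pj, Matrix.diagonal_mul, if_pos (Finset.mem_compl.2 hσ), one_mul] at this
    simp [this]

theorem Yel_act' {X : Matrix I I ℂ} {f f' : I → A} (hX : X ∈ unitary (Matrix I I ℂ))
    {I0 : Finset I} (hs : X * pj ℂ I0ᶜ = pj ℂ I0ᶜ) (hf : ∀ σ, f σ ∈ unitary A)
    (hf' : ∀ σ, f' σ ∈ unitary A) (θ : A →⋆ₐ[ℂ] A) (π : Equiv.Perm I)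
    (h : ∀ σ ∈ I0, θ (f σ) = f' (π σ)) {z : I → ℝ} (hz : ∀ σ, z σ * z σ = 1) :
    ‖sc A (dr z) * (mp θ (Yel X f - 1)).submatrix π.symm π.symm * sc A (dr z) - (Yel X f' - 1)‖ ≤
      2 * ‖dr z * X.submatrix π.symm π.symm * dr z - X‖ := by
  have hX' := xc2_submatrix_unitary π hX
  have hs' : X.submatrix π.symm π.symm * pj ℂ (I0.map π.toEmbedding)ᶜ =
      pj ℂ (I0.map π.toEmbedding)ᶜ := by
    have h1 : pj ℂ (I0.map π.toEmbedding)ᶜ = (pj ℂ I0ᶜ).submatrix π.symm π.symm := by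
      rw [pj, pj, xc2_diagonal_submatrix]
      refine congrArg Matrix.diagonal (funext fun σ => ?_)
      simp only [Finset.mem_compl, Finset.mem_map_equiv]
    rw [h1, ← xc2_mul_submatrix, hs]
  have hg : ∀ σ, θ (f (π.symm σ)) ∈ unitary A := fun σ => by
    rw [Unitary.mem_iff, ← map_star, ← map_mul, ← map_mul, (hf _).1, (hf _).2, map_one]
    exact ⟨rfl, rfl⟩
  have h1 : (mp θ (Yel X f - 1)).submatrix π.symm π.symm =
      Yel (X.submatrix π.symm π.symm) f' - 1 := by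
    rw [map_sub, map_one, mp_Yel, Matrix.submatrix_sub, Pi.sub_apply, Pi.sub_apply,
      Yel_submatrix, Matrix.submatrix_one_equiv]
    refine congrArg (· - 1) (Yel_congr hX' hs' hg hf' fun σ hσ => ?_)
    rw [h _ (Finset.mem_map_equiv.1 hσ), Equiv.apply_symm_apply]
  have hzz : dr z * dr z = 1 := by simp only [dr_mul_dr, hz, dr_one]
  have hzu : dr z ∈ unitary (Matrix I I ℂ) := by
    rw [Unitary.mem_iff, star_dr]
    exact ⟨hzz, hzz⟩
  have hZ : sc A (dr z) * sc A (dr z) = 1 := by rw [← map_mul, hzz, map_one]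
  have hZs : star (sc A (dr z)) = sc A (dr z) := by rw [← map_star, star_dr]
  have hc : ∀ g : I → A, sc A (dr z) * Matrix.diagonal g = Matrix.diagonal g * sc A (dr z) :=
    fun g => by
      rw [dr, sc_diagonal, Matrix.diagonal_mul_diagonal, Matrix.diagonal_mul_diagonal]
      exact congrArg Matrix.diagonal (funext fun σ => Algebra.commutes _ _)
  have h2 : ∀ Y : Matrix I I ℂ, sc A (dr z) * (Yel Y f' - 1) * sc A (dr z) =
      Yel (dr z * Y * dr z) f' - 1 := fun Y => by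
    have h3 : ∀ W, sc A (dr z) * (sc A (dr z) * W) = W := fun W => by
      rw [← mul_assoc, hZ, one_mul]
    rw [mul_sub, sub_mul, mul_one, hZ, Yel, Yel, map_mul, map_mul, star_mul, star_mul, hZs,
      xc2_star_diagonal]
    simp only [mul_assoc, h3, hc]
  rw [h1, h2, sub_sub_sub_cancel_right]
  exact norm_Yel_sub hX (mul_mem (mul_mem hzu hX') hzu) hf'

end Sign

/-- The abstract estimate: labelled unitaries `F`, targets `β` and a frame give the unitaries. -/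
theorem RModel.approx {G I V A ι D : Type} [Group G] [Fintype I] [DecidableEq I] [Fintype V]
    [CStarAlgebra A] [PartialOrder A] [StarOrderedRing A] [MulAction G ι] {S : Finset G}
    {ε r : ℝ} {n₀ : ℕ} (M : RModel G I V S ε n₀ r) (γ : G →* (A ≃⋆ₐ[ℂ] A))
    (C : StarSubalgebra ℂ A) {e : A} {v : I → A} (hv : Frame M.o M.odd e v) (hvC : ∀ σ, v σ ∈ C)
    (hvg : ∀ g ∈ S, ∀ σ ∈ M.I0, γ g (v σ) = (M.z g (M.π g σ) : ℂ) • v (M.π g σ)) (F : ι → I → A)
    (hFu : ∀ i σ, F i σ ∈ unitary A) (hFC : ∀ i σ, F i σ ∈ C)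
    (hFe : ∀ i σ, e * (F i σ - 1) = F i σ - 1 ∧ (F i σ - 1) * e = F i σ - 1)
    (hFg : ∀ g ∈ S, ∀ i, ∀ σ ∈ M.I0, γ g (F i σ) = F (g • i) (M.π g σ)) {Λ : ℝ} (hΛ : 0 ≤ Λ)
    (hr : Λ * r ≤ ε) (hFl : ∀ i, ∀ σ ∈ M.Gd, ∀ τ ∈ M.Gd, ∀ d : ℝ,
      (∀ x, |M.y σ x - M.y τ x| ≤ d) → ‖F i σ - F i τ‖ ≤ Λ * d)
    (s : Set D) (b : ι → D → A) (β : ι → D → I → A) {c : ℝ} (hc : 0 ≤ c)
    (hβo : ∀ i x, β i x M.o = b i x) (hβi : ∀ i i' x σ, σ ≠ M.o → β i x σ = β i' x σ)
    (hβc : ∀ i, ∀ x ∈ s, ∀ σ, ‖β i x σ‖ ≤ c) (hβe : ∀ i x σ, Commute (β i x σ) e)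
    (hb : ∀ i x σ, b i x * v σ = v σ * β i x σ ∧ star (b i x) * v σ = v σ * star (β i x σ))
    (hFb : ∀ i, ∀ x ∈ s, ∀ σ, ‖F i σ * b i x * star (F i σ) - β i x σ‖ ≤ ε) :
    ∃ U : ι → A, (∀ i, U i ∈ C ∧ ‖U i‖ ≤ 9 ∧ ‖U i * star (U i) - 1‖ ≤ 20 * ε ∧
      ‖star (U i) * U i - 1‖ ≤ 20 * ε) ∧ (∀ g ∈ S, ∀ i, ‖γ g (U i) - U (g • i)‖ ≤ 8 * ε) ∧
        ∀ i i', ∀ x ∈ s,
          ‖U i * b i x * star (U i) - U i' * b i' x * star (U i')‖ ≤ (48 * c + 16) * ε := by
  have hε : 0 ≤ ε := (norm_nonneg _).trans M.j_bad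
  have hY : ∀ i, Yel M.X (F i) ∈ unitary (Matrix I I A) := fun i => Yel_unitary M.X_unit (hFu i)
  have hYe : ∀ i, (Yel M.X (F i) - 1) * cst e = Yel M.X (F i) - 1 ∧
      cst e * (Yel M.X (F i) - 1) = Yel M.X (F i) - 1 := fun i =>
    Yel_unit M.X_unit hv.e_star (fun σ => (hFe i σ).1) (fun σ => (hFe i σ).2)
  have hF1 : ∀ i σ, ‖F i σ‖ ≤ 1 := by
    intro i σ
    rcases subsingleton_or_nontrivial A with hA | hA
    · rw [Subsingleton.elim (F i σ) 0, norm_zero]
      exact zero_le_one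
    · exact (CStarRing.norm_of_mem_unitary (hFu i σ)).le
  have hl : ∀ i, ‖pj A (insert M.o M.odd) * Yel M.X (F i) -
      Yel M.X (F i) * pj A (insert M.o M.odd)‖ ≤ 5 * ε := by
    intro i
    have h1 := Yel_comm M.X_unit (hFu i) M.j_eq
    have h2 := M.toModel.loc hΛ (hF1 i) (hFl i)
    linarith
  refine ⟨fun i => 1 + Ph v (Yel M.X (F i) - 1), fun i => ?_, fun g hg i => ?_,
    fun i i' x hx => ?_⟩
  · obtain ⟨h1, h2, h3⟩ := hv.unit_est (hY i) (hYe i).1 (hYe i).2 (hl i)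
    refine ⟨C.add_mem C.one_mem (Ph_mem hvC (Yel_mem M.X (hFC i))), h1, ?_, ?_⟩
    · linarith
    · linarith
  · have hs := Yel_supp M.X_unit M.X_supp (hFu i)
    have h1 := map_Ph' (γ g) (M.π g) (hvg g hg) hs.1 hs.2
    have h2 := Yel_act' M.X_unit M.X_supp (hFu i) (hFu (g • i)) (γ g : A →⋆ₐ[ℂ] A) (M.π g)
      (fun σ hσ => hFg g hg i σ hσ) (M.z_sq g)
    have h3 := M.π_X' g hg
    show ‖γ g (1 + Ph v (Yel M.X (F i) - 1)) - (1 + Ph v (Yel M.X (F (g • i)) - 1))‖ ≤ 8 * ε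
    rw [map_add, map_one, h1, add_sub_add_left_eq_sub, ← Ph_sub]
    refine (hv.norm_Ph_le _).trans ?_
    linarith
  · have key : ∀ k, ‖(1 + Ph v (Yel M.X (F k) - 1)) * b k x * star (1 + Ph v (Yel M.X (F k) - 1)) -
        (b k x + Ph v (star (sc A M.X) * Matrix.diagonal (β k x) * sc A M.X -
          Matrix.diagonal (β k x)))‖ ≤ 20 * c * ε + 8 * ε := by
      intro k
      have h1 := hv.conj_est (hY k) (hYe k).1 (hYe k).2 (hl k) (fun σ => (hb k x σ).1)
        (fun σ => (hb k x σ).2) (hβe k x) hc (hβc k x hx)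
      have h2 := Yel_conj M.X_unit (hFu k) hε (hFb k x hx)
      have h3 := hv.norm_Ph_le (Yel M.X (F k) * Matrix.diagonal (β k x) * star (Yel M.X (F k)) -
        star (sc A M.X) * Matrix.diagonal (β k x) * sc A M.X)
      have h4 : (1 + Ph v (Yel M.X (F k) - 1)) * b k x * star (1 + Ph v (Yel M.X (F k) - 1)) -
          (b k x + Ph v (star (sc A M.X) * Matrix.diagonal (β k x) * sc A M.X -
            Matrix.diagonal (β k x))) =
          ((1 + Ph v (Yel M.X (F k) - 1)) * b k x * star (1 + Ph v (Yel M.X (F k) - 1)) -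
            (b k x + Ph v (Yel M.X (F k) * Matrix.diagonal (β k x) * star (Yel M.X (F k)) -
              Matrix.diagonal (β k x)))) +
          Ph v (Yel M.X (F k) * Matrix.diagonal (β k x) * star (Yel M.X (F k)) -
            star (sc A M.X) * Matrix.diagonal (β k x) * sc A M.X) := by
        rw [Ph_sub v (Yel M.X (F k) * Matrix.diagonal (β k x) * star (Yel M.X (F k)))
            (Matrix.diagonal (β k x)),
          Ph_sub v (Yel M.X (F k) * Matrix.diagonal (β k x) * star (Yel M.X (F k)))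
            (star (sc A M.X) * Matrix.diagonal (β k x) * sc A M.X),
          Ph_sub v (star (sc A M.X) * Matrix.diagonal (β k x) * sc A M.X)
            (Matrix.diagonal (β k x))]
        abel
      rw [h4]
      refine (norm_add_le _ _).trans ?_
      linarith
    have hd : Matrix.diagonal (β i x) - Matrix.diagonal (β i' x) =
        pj A {M.o} * cst (b i x - b i' x) := by
      rw [xc3_diag_sub (hβi i i' x), hβo, hβo]
    have ha : ‖b i x - b i' x‖ ≤ 2 * c := by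
      have h1 := hβc i x hx M.o
      have h2 := hβc i' x hx M.o
      rw [hβo] at h1 h2
      have h3 := norm_sub_le (b i x) (b i' x)
      linarith
    have h1 := vac_kill M.o_even M.o_bad M.j_eq M.j_bad (b i x - b i' x)
    have h2 : (b i x + Ph v (star (sc A M.X) * Matrix.diagonal (β i x) * sc A M.X -
          Matrix.diagonal (β i x))) -
        (b i' x + Ph v (star (sc A M.X) * Matrix.diagonal (β i' x) * sc A M.X -
          Matrix.diagonal (β i' x))) =
        Ph v (pj A (insert M.o M.odd) *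
          (star (sc A M.X) * (pj A {M.o} * cst (b i x - b i' x)) * sc A M.X) *
            pj A (insert M.o M.odd)) := by
      have h3 := hv.Ph_single (b i x - b i' x)
      rw [← hd, Ph_sub] at h3
      rw [hv.Ph_mul_pj, hv.Ph_pj_mul, ← hd, mul_sub, sub_mul, Ph_sub, Ph_sub, Ph_sub, ← sub_eq_zero]
      rw [← sub_eq_zero] at h3
      rw [← neg_eq_zero, ← h3]
      abel
    have h3 := hv.norm_Ph_le (pj A (insert M.o M.odd) *
      (star (sc A M.X) * (pj A {M.o} * cst (b i x - b i' x)) * sc A M.X) *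
        pj A (insert M.o M.odd))
    have h4 : ‖b i x - b i' x‖ * ε ≤ 2 * c * ε := mul_le_mul_of_nonneg_right ha hε
    have h5 := key i
    have h6 := key i'
    rw [← h2] at h3
    have tri : ∀ p q p' q' : A, ‖p - p'‖ ≤ ‖p - q‖ + ‖q - q'‖ + ‖p' - q'‖ := by
      intro p q p' q'
      have e1 : p - p' = (p - q) + (q - q') - (p' - q') := by abel
      rw [e1]
      exact (norm_sub_le _ _).trans (add_le_add_left (norm_add_le _ _) _)
    refine (tri _ (b i x + Ph v (star (sc A M.X) * Matrix.diagonal (β i x) * sc A M.X -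
      Matrix.diagonal (β i x))) _ (b i' x + Ph v (star (sc A M.X) * Matrix.diagonal (β i' x) *
        sc A M.X - Matrix.diagonal (β i' x)))).trans ?_
    linarith

theorem UCR.approx {G D A ι : Type} [Group G] [Countable G] [CStarAlgebra D]
    [TopologicalSpace.SeparableSpace D] [CStarAlgebra A] [PartialOrder A] [StarOrderedRing A]
    [Countable ι] [MulAction G ι] (X : UCR G D A ι) (S : Finset G) (s : Finset D) {ε : ℝ}
    (hε : 0 < ε) : ∃ U : ι → A, (∀ i, U i ∈ cent X.T ∧ ‖U i‖ ≤ 9 ∧ ‖U i * star (U i) - 1‖ ≤ ε ∧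
      ‖star (U i) * U i - 1‖ ≤ ε) ∧ (∀ g ∈ S, ∀ i, ‖X.γ g (U i) - U (g • i)‖ ≤ ε) ∧
        ∀ i i', ∀ x ∈ s,
          ‖U i * X.Φ i x * star (U i) - U i' * X.Φ i' x * star (U i')‖ ≤ ε := by
  classical
  set c : ℝ := ∑ x ∈ s, ‖x‖ with hc
  have hc0 : 0 ≤ c := Finset.sum_nonneg fun _ _ => norm_nonneg _
  have hxc : ∀ x ∈ s, ‖x‖ ≤ c := fun x hx =>
    Finset.single_le_sum (f := fun x : D => ‖x‖) (fun _ _ => norm_nonneg _) hx
  set η : ℝ := ε / (48 * c + 20) with hη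
  have hη0 : 0 < η := by positivity
  have hηε : (48 * c + 20) * η = ε := by
    rw [hη]; field_simp
  obtain ⟨n₀, hn₀⟩ := exists_rmodel X.foel S hη0
  obtain ⟨Λ, hΛ, hcoh⟩ := X.coherent n₀
  obtain ⟨I, V, _, _, _, ⟨M⟩⟩ := hn₀ (η / Λ) (by positivity)
  let CC : Finset G := Finset.univ.biUnion M.C
  have hCC : ∀ σ, ∀ g ∈ M.C σ, g ∈ CC := fun σ g hg =>
    Finset.mem_biUnion.2 ⟨σ, Finset.mem_univ _, hg⟩
  let s' : Finset D := CC.biUnion fun g => s.image (X.ρ g⁻¹)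
  have hs' : ∀ σ, ∀ g ∈ M.C σ, ∀ x ∈ s, X.ρ g⁻¹ x ∈ s' := fun σ g hg x hx =>
    Finset.mem_biUnion.2 ⟨g, hCC σ g hg, Finset.mem_image_of_mem _ hx⟩
  obtain ⟨f, hf⟩ := hcoh M.W s' η hη0
  obtain ⟨f0, h0u, h0c, h0N, h0⟩ := X.exists_f0 s' hη0
  let fo : ι → I → A := fun j ω => if GoodY n₀ (M.y ω) then f j (M.y ω) else f0 j
  have hfu : ∀ j ω, fo j ω ∈ unitary A := fun j ω => by
    by_cases h : GoodY n₀ (M.y ω)
    · simp only [fo, if_pos h]; exact hf.unit _ _
    · simp only [fo, if_neg h]; exact h0u _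
  have hfc : ∀ j ω, fo j ω ∈ cent X.T := fun j ω => cent_anti X.sub (by
    by_cases h : GoodY n₀ (M.y ω)
    · simp only [fo, if_pos h]; exact hf.mem _ _
    · simp only [fo, if_neg h]; exact h0c _)
  have hfN : ∀ j ω, fo j ω - 1 ∈ X.N := fun j ω => by
    by_cases h : GoodY n₀ (M.y ω)
    · simp only [fo, if_pos h]; exact hf.sub _ _
    · simp only [fo, if_neg h]; exact h0N _
  have hfo : ∀ ω j j', ∀ x ∈ s', ‖fo j ω * X.Φ j x * star (fo j ω) -
      fo j' ω * X.Φ j' x * star (fo j' ω)‖ ≤ η := fun ω j j' x hx => by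
    by_cases h : GoodY n₀ (M.y ω)
    · simp only [fo, if_pos h]; exact hf.coh _ (M.y_mem ω) h (M.y_supp ω) _ _ x hx
    · simp only [fo, if_neg h]; exact h0 _ _ x hx
  let K : Finset G := (CC ×ˢ CC).image fun p : G × G => p.1⁻¹ * p.2
  obtain ⟨e, w, he1, he2, he3, he4, he5, hw1, hw2, hw3, hw4, hw5⟩ := X.xc4_hole fo hfN K
  have hfe : ∀ j ω, Commute (fo j ω) e := fun j ω => xc4_commute (he4 j ω).1 (he4 j ω).2
  have hfe' : ∀ j ω, Commute (star (fo j ω)) e := fun j ω => by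
    have := (hfe j ω).star_star
    rwa [he3] at this
  obtain ⟨D0, hD0, hD⟩ := TopologicalSpace.exists_countable_dense D
  obtain ⟨T2, hT2, t1, t2, t3, t4, t5⟩ : ∃ T2 : Set A, T2.Countable ∧ X.T ⊆ T2 ∧
      (∀ j ω, fo j ω ∈ T2) ∧ (∀ ω, w ω ∈ T2) ∧ e ∈ T2 ∧ ∀ i, ∀ z ∈ D0, X.Φ i z ∈ T2 :=
    ⟨X.T' ∪ ((Set.range fun p : ι × I => fo p.1 p.2) ∪ (Set.range w ∪ ({e} ∪ ⋃ i, X.Φ i '' D0))),
      X.count.union ((Set.countable_range _).union ((Set.countable_range _).union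
        ((Set.countable_singleton e).union (Set.countable_iUnion fun i => hD0.image _)))),
      X.sub.trans Set.subset_union_left, fun j ω => Or.inr (Or.inl ⟨(j, ω), rfl⟩),
      fun ω => Or.inr (Or.inr (Or.inl ⟨ω, rfl⟩)), Or.inr (Or.inr (Or.inr (Or.inl rfl))),
      fun i z hz => Or.inr (Or.inr (Or.inr (Or.inr (Set.mem_iUnion.2 ⟨i, z, hz, rfl⟩))))⟩
  obtain ⟨q, hq1, hq2⟩ := X.rok.sec M.sec hT2
  obtain ⟨E, hE⟩ : ∃ E : I → G → A, ∀ σ, E σ = fun g => X.γ g (q (M.orb σ)) := ⟨_, fun _ => rfl⟩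
  have hEu : ∀ σ, σ ≠ M.o → IsPU (M.C σ) (E σ) := fun σ h => by rw [hE]; exact hq2 σ h
  have hEm : ∀ σ g, E σ g ∈ cent X.T := fun σ g => by
    rw [hE]
    exact cent_anti (t1.trans (subset_orb _ _)) (hq1 _ g)
  obtain ⟨Q, hQE, hQa, hQT, hQΦ⟩ : ∃ Q : StarSubalgebra ℂ A, (∀ σ g, ∀ x ∈ Q, Commute x (E σ g)) ∧
      (∀ g, ∀ x ∈ Q, X.γ g x ∈ Q) ∧ (∀ x ∈ T2, x ∈ Q) ∧ ∀ i x, X.Φ i x ∈ Q := by
    refine ⟨cent (Set.range fun p : I × G => X.γ p.2 (q p.1)), fun σ g x hx => ?_,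
      fun g x hx => act_mem_cent _ _ ?_ hx, fun x hx => ?_, fun i x => ?_⟩
    · rw [hE]
      exact (mem_cent.1 hx _ ⟨(M.orb σ, g), rfl⟩).1
    · rintro _ ⟨p, rfl⟩
      exact ⟨(p.1, g⁻¹ * p.2), (act_act _ _ _ _).symm⟩
    · rw [mem_cent]
      rintro _ ⟨p, rfl⟩
      exact ⟨(mem_cent.1 (hq1 p.1 p.2) _ (subset_orb _ _ hx)).1.symm,
        (mem_cent.1 (star_mem (hq1 p.1 p.2)) _ (subset_orb _ _ hx)).1.symm⟩
    · rw [mem_cent]
      rintro _ ⟨p, rfl⟩
      exact ⟨(xk3_commute_dense hD (hom_continuous (X.Φ i)) (fun z hz =>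
          (mem_cent.1 (hq1 p.1 p.2) _ (subset_orb _ _ (t5 i z hz))).1) x).symm,
        (xk3_commute_dense hD (hom_continuous (X.Φ i)) (fun z hz =>
          (mem_cent.1 (star_mem (hq1 p.1 p.2)) _ (subset_orb _ _ (t5 i z hz))).1) x).symm⟩
  obtain ⟨Fx, hFx⟩ : ∃ Fx : ι → I → G → A, ∀ i σ g, Fx i σ g = X.γ g (fo (g⁻¹ • i) (M.orb σ)) :=
    ⟨_, fun _ _ _ => rfl⟩
  obtain ⟨Bx, hBx⟩ : ∃ Bx : D → I → G → A, ∀ x σ g, Bx x σ g = X.γ g
      (fo X.i₀ (M.orb σ) * X.Φ X.i₀ (X.ρ g⁻¹ x) * star (fo X.i₀ (M.orb σ))) :=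
    ⟨_, fun _ _ _ => rfl⟩
  obtain ⟨vx, hvx⟩ : ∃ vx : I → G → A, ∀ σ g, vx σ g =
      (M.sg σ g : ℂ) • X.γ g (w (M.orb σ) * star (fo X.i₀ (M.orb σ))) := ⟨_, fun _ _ => rfl⟩
  have qF : ∀ i σ g, Fx i σ g ∈ Q := fun i σ g => by
    rw [hFx]
    exact hQa _ _ (hQT _ (t2 _ _))
  have qB : ∀ x σ g, Bx x σ g ∈ Q := fun x σ g => by
    rw [hBx]
    exact hQa _ _ (mul_mem (mul_mem (hQT _ (t2 _ _)) (hQΦ _ _)) (star_mem (hQT _ (t2 _ _))))
  have qv : ∀ σ g, vx σ g ∈ Q := fun σ g => by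
    rw [hvx]
    exact Q.smul_mem (hQa _ _ (mul_mem (hQT _ (t3 _)) (star_mem (hQT _ (t2 _ _))))) _
  let F : ι → I → A := fun i σ => if σ = M.o then 1 else gl (M.C σ) (E σ) (Fx i σ)
  let β : ι → D → I → A := fun i x σ => if σ = M.o then X.Φ i x else gl (M.C σ) (E σ) (Bx x σ)
  let v : I → A := fun σ => if σ = M.o then 1 else if σ ∈ M.odd then
    gl (M.C σ) (E σ) (vx σ) else 0
  have hno : ∀ σ ∈ M.odd, σ ≠ M.o := fun σ hσ h => M.o_even (h ▸ hσ)
  have hvo : v M.o = 1 := if_pos rfl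
  have hvodd : ∀ σ ∈ M.odd, v σ = gl (M.C σ) (E σ) (vx σ) :=
    fun σ hσ => by simp only [v, if_neg (hno σ hσ), if_pos hσ]
  have hveven : ∀ σ, σ ≠ M.o → σ ∉ M.odd → v σ = 0 := fun σ h1 h2 => by
    simp only [v, if_neg h1, if_neg h2]
  have hFo : ∀ i, F i M.o = 1 := fun i => if_pos rfl
  have hFn : ∀ i σ, σ ≠ M.o → F i σ = gl (M.C σ) (E σ) (Fx i σ) := fun i σ h => if_neg h
  have hβo : ∀ i x, β i x M.o = X.Φ i x := fun i x => if_pos rfl
  have hβn : ∀ i x σ, σ ≠ M.o → β i x σ = gl (M.C σ) (E σ) (Bx x σ) := fun i x σ h => if_neg h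
  have hπ : ∀ g σ, σ ≠ M.o → M.π g σ ≠ M.o := fun g σ h h' =>
    h ((M.π g).injective (h'.trans (M.π_o' g).symm))
  have hEa : ∀ g ∈ S, ∀ σ ∈ M.I0, σ ≠ M.o → ∀ k, X.γ g (E σ k) = E (M.π g σ) (g * k) :=
    fun g hg σ hσ h k => by simp only [hE, (M.π_C g hg σ hσ h).1, act_act]
  have hframe : Frame M.o M.odd e v := by
    refine ⟨M.o_even, hvo, hveven, he3, he2, fun σ hσ τ hτ => ?_, fun σ hσ => ?_⟩
    · rw [hvodd σ hσ, hvodd τ hτ, (hEu σ (hno σ hσ)).star fun g _ => hQE _ _ _ (qv _ _)]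
      by_cases h : σ = τ
      · subst h
        rw [if_pos rfl, (hEu σ (hno σ hσ)).mul fun g _ => hQE _ _ _ (qv _ _)]
        refine (gl_congr fun g _ => ?_).trans ((hEu σ (hno σ hσ)).const e)
        rw [hvx, star_smul, smul_mul_smul_comm, Complex.star_def, Complex.conj_ofReal,
          ← Complex.ofReal_mul, M.sg_sq, Complex.ofReal_one, one_smul, ← map_star, ← map_mul,
          star_mul, star_star, mul_assoc,
          ← mul_assoc (star (w _)), hw4, ← mul_assoc, (hfe _ _).eq, mul_assoc,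
          (Unitary.mem_iff.1 (hfu _ _)).2, mul_one, he1]
      · rw [if_neg h, gl, gl, Finset.sum_mul_sum]
        refine Finset.sum_eq_zero fun g hg => Finset.sum_eq_zero fun k hk => ?_
        have hk' : g⁻¹ * k ∈ K := Finset.mem_image.2
          ⟨(g, k), Finset.mem_product.2 ⟨hCC _ _ hg, hCC _ _ hk⟩, rfl⟩
        have h1 : M.orb σ ≠ M.orb τ ∨ g⁻¹ * k ≠ 1 := by
          by_contra h2
          rw [not_or, not_not, not_not, inv_mul_eq_one] at h2
          exact h (M.inj' _ _ g (hno σ hσ) (hno τ hτ) hg (h2.2 ▸ hk) h2.1)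
        have h2 := hw5 _ _ _ hk' h1
        have h3 : ∀ z, X.γ k z = X.γ g (X.γ (g⁻¹ * k) z) := by
          intro z
          rw [act_act, mul_inv_cancel_left]
        have h4 : star (vx σ g) * vx τ k = 0 := by
          rw [hvx, hvx, star_smul, smul_mul_smul_comm, h3, ← map_star, ← map_mul, star_mul,
            star_star, map_mul (X.γ (_ * _)), mul_assoc,
            ← mul_assoc (star (w _)), h2, zero_mul, mul_zero, map_zero, smul_zero]
        rw [mul_assoc, ← mul_assoc (E σ g), ← (hQE σ g _ (qv τ k)).eq, mul_assoc, ← mul_assoc, h4,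
          zero_mul]
    · rw [hvodd σ hσ, mul_gl]
      refine (gl_congr fun g _ => ?_).trans ((hEu σ (hno σ hσ)).const 0)
      rw [hvx, mul_smul_comm, ← he1 g, ← map_mul, ← mul_assoc, hw3, zero_mul, map_zero, smul_zero]
  have hb : ∀ i x σ, X.Φ i x * v σ = v σ * β i x σ := by
    intro i x σ
    by_cases h : σ = M.o
    · subst h
      rw [hvo, hβo, mul_one, one_mul]
    by_cases h' : σ ∈ M.odd
    · rw [hvodd σ h', hβn i x σ h, mul_gl, (hEu σ h).mul fun g _ => hQE _ _ _ (qB _ _ _)]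
      refine gl_congr fun g _ => ?_
      rw [hvx, hBx, mul_smul_comm, smul_mul_assoc, ← X.act_inv_Φ g i x, ← map_mul, ← map_mul]
      congr 2
      rw [← mul_assoc, hw2]
      simp only [mul_assoc]
      rw [← mul_assoc (star (fo _ _)) (fo _ _), (Unitary.mem_iff.1 (hfu _ _)).1, one_mul]
    · rw [hveven σ h h', mul_zero, zero_mul]
  have hβs : ∀ i x σ, star (β i x σ) = β i (star x) σ := by
    intro i x σ
    by_cases h : σ = M.o
    · subst h
      rw [hβo, hβo, map_star]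
    · rw [hβn _ _ _ h, hβn _ _ _ h, (hEu σ h).star fun g _ => hQE _ _ _ (qB _ _ _)]
      refine gl_congr fun g _ => ?_
      rw [hBx, hBx, ← map_star, star_mul, star_mul, star_star, map_star, map_star, mul_assoc]
  have hFu : ∀ i σ, F i σ ∈ unitary A := by
    intro i σ
    by_cases h : σ = M.o
    · subst h
      rw [hFo]
      exact one_mem _
    · rw [hFn _ _ h]
      refine (hEu σ h).unitary (fun g _ => hQE _ _ _ (qF _ _ _)) fun g _ => ?_
      rw [hFx]
      exact Unitary.map_mem _ (hfu _ _)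
  have hGd : ∀ i, ∀ σ ∈ M.Gd, F i σ = f i (M.y σ) := by
    intro i σ hσ
    have h : σ ≠ M.o := fun h => M.o_bad (h ▸ hσ)
    have hg : GoodY n₀ (M.y (M.orb σ)) := by
      rw [← goodY_sh (M.lab σ), ← M.y_lab]
      exact M.good σ hσ
    rw [hFn _ _ h]
    refine (gl_congr fun g hg' => ?_).trans ((hEu σ h).const _)
    simp only [hFx, fo, if_pos hg]
    rw [hf.act _ _ _ (M.y_mem _), smul_inv_smul, ← M.y_C σ h g hg']
  obtain ⟨U, h1, h2, h3⟩ := M.approx X.γ (cent X.T) hframe (v := v) (fun σ => by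
      by_cases h : σ = M.o
      · subst h
        rw [hvo]
        exact one_mem _
      by_cases h' : σ ∈ M.odd
      · rw [hvodd σ h']
        refine gl_mem (fun g _ => hEm _ g) fun g _ => ?_
        rw [hvx]
        exact (cent X.T).smul_mem
          (act_mem_cent _ _ (X.inv _) (mul_mem (hw1 _) (star_mem (hfc _ _)))) _
      · rw [hveven σ h h']
        exact zero_mem _)
    (fun g hg σ hσ => by
      by_cases h : σ = M.o
      · subst h
        rw [M.π_o' g, hvo, map_one, M.z_o, Complex.ofReal_one, one_smul]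
      by_cases h' : σ ∈ M.odd
      · rw [hvodd σ h', hvodd _ ((M.π_odd' g σ).2 h'), smul_gl]
        refine act_gl X.γ g (M.π_C g hg σ hσ h).2 (fun k _ => hEa g hg σ hσ h k) fun k _ => ?_
        rw [hvx, hvx, map_smul, act_act, (M.π_C g hg σ hσ h).1, smul_smul, ← Complex.ofReal_mul,
          ← M.sg_π g hg σ hσ k]
      · rw [hveven σ h h', hveven _ (hπ g σ h) fun h2 => h' ((M.π_odd' g σ).1 h2), map_zero,
          smul_zero])
    F hFu
    (fun i σ => by
      by_cases h : σ = M.o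
      · subst h
        rw [hFo]
        exact one_mem _
      · rw [hFn _ _ h]
        refine gl_mem (fun g _ => hEm _ g) fun g _ => ?_
        rw [hFx]
        exact act_mem_cent _ _ (X.inv _) (hfc _ _))
    (fun i σ => by
      by_cases h : σ = M.o
      · subst h
        simp [hFo]
      · have h7 : F i σ - 1 = gl (M.C σ) (E σ) fun g => Fx i σ g - 1 := by
          rw [hFn _ _ h, ← gl_sub, (hEu σ h).const]
        have h8 : ∀ g, e * (Fx i σ g - 1) = Fx i σ g - 1 ∧ (Fx i σ g - 1) * e = Fx i σ g - 1 := by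
          intro g
          have h4 := he4 (g⁻¹ • i) (M.orb σ)
          have h5 := congrArg (X.γ g) h4.1
          have h6 := congrArg (X.γ g) h4.2
          rw [map_mul, map_sub, map_one, he1] at h5 h6
          rw [hFx]
          exact ⟨h5, h6⟩
        rw [h7, mul_gl, gl_mul_right fun g _ => hQE σ g _ (hQT _ t4)]
        exact ⟨gl_congr fun g _ => (h8 g).1, gl_congr fun g _ => (h8 g).2⟩)
    (fun g hg i σ hσ => by
      by_cases h : σ = M.o
      · subst h
        rw [M.π_o' g, hFo, hFo, map_one]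
      · rw [hFn _ _ h, hFn _ _ (hπ g σ h)]
        refine act_gl X.γ g (M.π_C g hg σ hσ h).2 (fun k _ => hEa g hg σ hσ h k) fun k _ => ?_
        rw [hFx, hFx, (M.π_C g hg σ hσ h).1, act_act, mul_inv_rev, mul_smul, inv_smul_smul])
    hΛ.le (le_of_eq (by field_simp))
    (fun i σ hσ τ hτ d hd => by
      rw [hGd i σ hσ, hGd i τ hτ]
      exact hf.lip i _ _ d (M.y_mem σ) (M.y_mem τ) hd)
    (s : Set D) (fun i x => X.Φ i x) β hc0 hβo
    (fun i i' x σ h => by rw [hβn _ _ _ h, hβn _ _ _ h])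
    (fun i x hx σ => by
      by_cases h : σ = M.o
      · subst h
        rw [hβo]
        exact (NonUnitalStarAlgHom.norm_apply_le _ x).trans (hxc x hx)
      · rw [hβn _ _ _ h]
        refine (hEu σ h).norm_le (fun g _ => hQE _ _ _ (qB _ _ _)) hc0 fun g _ => ?_
        rw [hBx, norm_act, CStarRing.norm_mul_mem_unitary _ (Unitary.star_mem (hfu _ _)),
          CStarRing.norm_mem_unitary_mul _ (hfu _ _)]
        refine (NonUnitalStarAlgHom.norm_apply_le _ _).trans ?_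
        rw [norm_act]
        exact hxc x hx)
    (fun i x σ => by
      by_cases h : σ = M.o
      · subst h
        rw [hβo]
        exact he5 i x
      · rw [hβn _ _ _ h]
        refine gl_commute (fun g _ => (hQE σ g _ (hQT _ t4)).symm) fun g _ => ?_
        rw [hBx, ← he1 g]
        exact (((hfe _ _).mul_left (he5 _ _)).mul_left (hfe' _ _)).map _)
    (fun i x σ => ⟨hb i x σ, by rw [hβs, ← map_star]; exact hb i _ σ⟩)
    (fun i x hx σ => by
      by_cases h : σ = M.o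
      · subst h
        simp [hFo, hβo, hη0.le]
      · rw [hFn _ _ h, hβn _ _ _ h, (hEu σ h).conj (fun g _ => hQE _ _ _ (qF _ _ _))
          fun g _ => hQE _ _ _ (hQΦ _ _), gl_sub]
        refine (hEu σ h).norm_le (fun g _ => hQE _ _ _ (sub_mem (mul_mem (mul_mem (qF _ _ _)
          (hQΦ _ _)) (star_mem (qF _ _ _))) (qB _ _ _))) hη0.le fun g hg => ?_
        rw [hFx, hBx, ← X.act_inv_Φ g i x, ← map_star, ← map_mul, ← map_mul,
          ← map_sub, norm_act]
        exact hfo _ _ _ _ (hs' σ g hg x hx))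
  have hcη : 0 ≤ c * η := mul_nonneg hc0 hη0.le
  refine ⟨U, fun i => ⟨(h1 i).1, (h1 i).2.1, (h1 i).2.2.1.trans ?_, (h1 i).2.2.2.trans ?_⟩,
    fun g hg i => (h2 g hg i).trans ?_, fun i i' x hx => (h3 i i' x hx).trans ?_⟩ <;>
  nlinarith

theorem ucr {G D A ι : Type} [Group G] [Countable G] [CStarAlgebra D]
    [TopologicalSpace.SeparableSpace D] [CStarAlgebra A] [PartialOrder A] [StarOrderedRing A]
    [Countable ι] [MulAction G ι] (X : UCR G D A ι) :
    ∃ U : ι → A, (∀ i, U i ∈ unitary A) ∧ (∀ i, U i ∈ cent X.T) ∧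
      (∀ g i, X.γ g (U i) = U (g • i)) ∧
        ∀ i x, U i * X.Φ i x * star (U i) = U X.i₀ * X.Φ X.i₀ x * star (U X.i₀) := by
  classical
  obtain ⟨d, hd⟩ := TopologicalSpace.exists_dense_seq D
  let f : (ι ⊕ ι) ⊕ ((G × ι) ⊕ (ι × ℕ)) → (ι → A) → A := fun k U =>
    match k with
    | .inl (.inl i) => U i * star (U i) - 1
    | .inl (.inr i) => star (U i) * U i - 1
    | .inr (.inl p) => X.γ p.1 (U p.2) - U (p.1 • p.2)
    | .inr (.inr p) => U p.1 * X.Φ p.1 (d p.2) * star (U p.1) -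
        U X.i₀ * X.Φ X.i₀ (d p.2) * star (U X.i₀)
  have hf : ∀ k, IsTerm X.γ (f k) := by
    rintro ((i | i) | (p | p))
    · exact ((IsTerm.var i).mul (IsTerm.var i).star).sub (IsTerm.const 1)
    · exact ((IsTerm.var i).star.mul (IsTerm.var i)).sub (IsTerm.const 1)
    · exact ((IsTerm.var p.2).act p.1).sub (IsTerm.var _)
    · exact (((IsTerm.var p.1).mul (IsTerm.const _)).mul (IsTerm.var p.1).star).sub
        (((IsTerm.var X.i₀).mul (IsTerm.const _)).mul (IsTerm.var X.i₀).star)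
  have hP : Defn X.τ X.γ (fun U : ι → A => ∀ i, U i ∈ cent X.T) :=
    Defn.forall fun i => Defn.mem_cent (X.count.mono X.sub) (IsTerm.var i)
  obtain ⟨U, -, hU, h0⟩ := X.sat.approx_eq (fun _ : ι => (9 : ℝ)) hP f hf (by
    intro s ε hε
    let g : (ι ⊕ ι) ⊕ ((G × ι) ⊕ (ι × ℕ)) → G := fun k =>
      match k with
      | .inr (.inl p) => p.1
      | _ => 1
    let a : (ι ⊕ ι) ⊕ ((G × ι) ⊕ (ι × ℕ)) → D := fun k =>
      match k with
      | .inr (.inr p) => d p.2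
      | _ => 1
    obtain ⟨U, h1, h2, h3⟩ := X.approx (s.image g) (s.image a) hε
    refine ⟨U, fun i => (h1 i).2.1, fun i => (h1 i).1, ?_⟩
    rintro ((i | i) | (p | p)) hk
    · exact (h1 i).2.2.1
    · exact (h1 i).2.2.2
    · exact h2 _ (Finset.mem_image_of_mem g hk) _
    · exact h3 _ _ _ (Finset.mem_image_of_mem a hk))
  refine ⟨U, fun i => ⟨sub_eq_zero.1 (h0 (.inl (.inr i))), sub_eq_zero.1 (h0 (.inl (.inl i)))⟩, hU,
    fun g i => sub_eq_zero.1 (h0 (.inr (.inl (g, i)))), fun i x => ?_⟩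
  refine hd.induction_on x (isClosed_eq ?_ ?_) fun n => sub_eq_zero.1 (h0 (.inr (.inr (i, n))))
  · exact (continuous_const.mul (hom_continuous _)).mul continuous_const
  · exact (continuous_const.mul (hom_continuous _)).mul continuous_const

end Pool.Agent.Izumi
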