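import Pool.Agent.Lib.MP_b2135d_an.Defs2

/-! The Rokhlin property (statement level). -/

namespace Pool.Agent.Izumi

/-- The Rokhlin property of an action of a finite group: there are almost central partitions of
unity into projections `e h` that the action almost permutes by left translation. -/
def HasRokhlinProperty {H D : Type} [Group H] [Fintype H] [CStarAlgebra D]
    (α : H →* (D ≃⋆ₐ[ℂ] D)) : Prop :=
  ∀ (s : Finset D) (ε : ℝ), 0 < ε → ∃ e : H → D, (∀ h, IsStarProjection (e h)) ∧
    (∀ h k, h ≠ k → e h * e k = 0) ∧ ∑ h, e h = 1 ∧ (∀ g h, ‖α g (e h) - e (g * h)‖ ≤ ε) ∧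
      ∀ h, ∀ x ∈ s, ‖e h * x - x * e h‖ ≤ ε

end Pool.Agent.Izumi
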