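import Pool.Agent.Lib.MP_b2135d_an.XM4
import Pool.Agent.Lib.MP_b2135d_an.XG

/-! Existence of the model. -/

namespace Pool.Agent.Izumi

open scoped ComplexOrder Pointwise
open Pool.Agent.Lib.MP_f90f6c_an.H50

theorem Mode.est_all {V m : Type} [Fintype V] [DecidableEq V] [Fintype m] [DecidableEq m] {δ : ℝ}
    (M : Mode m δ) {d d' : FD V} (hd : d.Ok) (hd' : d'.Ok) {U0 : Finset V} (hU : U0 ⊆ d.U)
    (hU' : U0 ⊆ d'.U) (hF : d.F ⊆ U0) (hF' : d'.F ⊆ U0)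
    (ht : ∀ x ∈ U0, ∀ a ∈ U0, d'.t x a = d.t x a) {η a a' Λ : ℝ} (hη : 0 ≤ η) (ha : 0 ≤ a)
    (ha' : 0 ≤ a') (hΛ : 0 < Λ) (hθ : ∀ x ∈ U0, |d'.θ x - d.θ x| ≤ η * d.θ x)
    (hs : ∑ x ∈ symmDiff d.F d'.F, d.θ x ^ 2 ≤ a' ^ 2)
    (hs' : ∑ x ∈ symmDiff d.F d'.F, d'.θ x ^ 2 ≤ a' ^ 2) (h1 : η + 2 * a' ≤ 1)
    (ho : ∀ x ∈ d.U, x ∉ U0 → Λ ≤ d.θ x) (ho' : ∀ x ∈ d'.U, x ∉ U0 → Λ ≤ d'.θ x)
    (hc : ∑ x ∈ d.F, d.θ x ^ 2 ≤ a ^ 2) (hc' : ∑ x ∈ d'.F, d'.θ x ^ 2 ≤ a ^ 2)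
    (h2 : (1 + 2 * a) / Λ ≤ 1) :
    ‖M.X d' - M.X d‖ ≤ 8 * η + 8 * a' + 8 * ((1 + 2 * a) / Λ) := by
  have e1 := M.est_in hd hd' hU hU' hF hF' ht hη ha' hθ hs hs' h1
  have e2 := M.est_out hd hU hΛ ha ho hc h2
  have e3 := M.est_out hd' hU' hΛ ha ho' hc' h2
  have e : M.X d' - M.X d = (M.X d' - M.X d) * pj ℂ (M.loc U0) +
      ((M.X d' - 1) * pj ℂ (M.loc U0)ᶜ - (M.X d - 1) * pj ℂ (M.loc U0)ᶜ) := by
    rw [pj_compl]
    noncomm_ring
  rw [e]
  refine (norm_add_le _ _).trans ?_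
  have := norm_sub_le ((M.X d' - 1) * pj ℂ (M.loc U0)ᶜ) ((M.X d - 1) * pj ℂ (M.loc U0)ᶜ)
  linarith

section Grp

variable {G : Type} [Group G] [DecidableEq G]

/-- A permutation of `W` that extends left multiplication by `g` on `U`. -/
structure Ext (U W : Finset G) (g : G) (π : Equiv.Perm W) : Prop where
  mem : ∀ z : W, ((π.symm z : W) : G) ∈ U ↔ g⁻¹ * z ∈ U
  val : ∀ z : W, g⁻¹ * z ∈ U → ((π.symm z : W) : G) = g⁻¹ * z

omit [DecidableEq G] in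
theorem exists_ext {U W : Finset G} (hU : U ⊆ W) {g : G} (hg : ∀ x ∈ U, g * x ∈ W) :
    ∃ π : Equiv.Perm W, Ext U W g π := by
  obtain ⟨π, hπ⟩ := Equiv.Perm.exists_extending_pair (fun x : U => (⟨x, hU x.2⟩ : W))
    (fun x : U => (⟨g * x, hg x x.2⟩ : W))
    (fun x y h => Subtype.ext (congrArg (fun z : W => (z : G)) h))
    (fun x y h => Subtype.ext (mul_left_cancel (congrArg (fun z : W => (z : G)) h)))
  have hval : ∀ z : W, g⁻¹ * z ∈ U → ((π.symm z : W) : G) = g⁻¹ * z := by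
    intro z hz
    have h1 : π ⟨g⁻¹ * z, hU hz⟩ = z := (hπ ⟨_, hz⟩).trans (Subtype.ext (by simp))
    rw [← h1, Equiv.symm_apply_apply, h1]
  refine ⟨π, fun z => ⟨fun h => ?_, fun h => by rw [hval z h]; exact h⟩, hval⟩
  have h1 := congrArg (fun z : W => (z : G)) (hπ ⟨_, h⟩)
  simp only [Subtype.coe_eta, Equiv.apply_symm_apply] at h1
  rw [h1, inv_mul_cancel_left]
  exact h

/-- The data of the model on the sites `W`. -/
def mkFD (sg : G → ℝ) (W U F : Finset G) (θ : G → ℝ) : FD W where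
  t := fun x a => sg ((x : G)⁻¹ * a)
  U := U.subtype (· ∈ W)
  θ := fun x => if (x : G) ∈ U then θ x else 0
  F := F.subtype (· ∈ W)

theorem mkFD_ok {sg : G → ℝ} (h1 : ∀ g, sg g * sg g = 1) (h2 : ∀ g, g ≠ 1 → sg g⁻¹ = -sg g)
    (W : Finset G) {U F : Finset G} (hF : F ⊆ U) {θ : G → ℝ} (hθ : ∀ x, 0 < θ x) :
    (mkFD sg W U F θ).Ok := by
  refine ⟨⟨fun x a => h1 _, fun x a h => ?_⟩, fun x hx => ?_, fun x hx => ?_, fun x hx => ?_⟩
  · have := h2 ((x : G)⁻¹ * a) fun h' => h (Subtype.ext (inv_mul_eq_one.1 h'))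
    rw [mul_inv_rev, inv_inv] at this
    exact this
  · simp only [mkFD, Finset.mem_subtype] at hx ⊢
    rw [if_pos hx]
    exact hθ _
  · simp only [mkFD, Finset.mem_subtype] at hx ⊢
    rw [if_neg hx]
  · simp only [mkFD, Finset.mem_subtype] at hx ⊢
    exact hF hx

theorem mkFD_core (sg : G → ℝ) {W U F : Finset G} (hF : F ⊆ U) (hU : U ⊆ W) {θ : G → ℝ} {c : ℝ}
    (hθ : ∀ x ∈ F, θ x = c) :
    ∑ x ∈ (mkFD sg W U F θ).F, (mkFD sg W U F θ).θ x ^ 2 = F.card * c ^ 2 := by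
  have h1 : ∀ x ∈ (mkFD sg W U F θ).F, (mkFD sg W U F θ).θ x ^ 2 = c ^ 2 := by
    intro x hx
    simp only [mkFD, Finset.mem_subtype] at hx ⊢
    rw [if_pos (hF hx), hθ _ hx]
  rw [Finset.sum_congr rfl h1, Finset.sum_const, nsmul_eq_mul]
  congr 2
  simp only [mkFD]
  rw [Finset.card_subtype, Finset.filter_true_of_mem fun x hx => hU (hF hx)]

/-- Almost invariance of the unitary of the model. -/
theorem mkFD_est {m : Type} [Fintype m] [DecidableEq m] {δ : ℝ} (M : Mode m δ) {sg : G → ℝ}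
    (h1 : ∀ g, sg g * sg g = 1) (h2 : ∀ g, g ≠ 1 → sg g⁻¹ = -sg g) {W U F : Finset G}
    (hF : F ⊆ U) (hU : U ⊆ W) {g : G} {π : Equiv.Perm W} (hπ : Ext U W g π) {θ : G → ℝ}
    {θ0 η a Λ : ℝ} (hθ0 : 0 < θ0) (hη : 0 ≤ η) (ha : 1 ≤ a) (hΛ : 0 < Λ)
    (haF : F.card * θ0 ^ 2 = a ^ 2) (hFg : ∀ x ∈ F, g * x ∈ U ∧ g⁻¹ * x ∈ U)
    (hθ1 : ∀ x, 1 ≤ θ x) (hθF : ∀ x ∈ F, θ x = 1) (hθg : ∀ x, |θ (g⁻¹ * x) - θ x| ≤ η * θ x)
    (hθo : ∀ x ∈ U, (g * x ∉ U ∨ g⁻¹ * x ∉ U) → Λ / θ0 ≤ θ x)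
    (hfol : ((symmDiff F (g • F)).card : ℝ) ≤ η ^ 2 * F.card) (h3 : 5 * η * a ≤ 1)
    (h4 : (1 + 2 * a) / Λ ≤ 1) :
    ‖(M.X (mkFD sg W U F fun x => θ0 * θ x)).submatrix (cfg m π).symm (cfg m π).symm -
      M.X (mkFD sg W U F fun x => θ0 * θ x)‖ ≤ 24 * η * a + 8 * ((1 + 2 * a) / Λ) := by
  set d := mkFD sg W U F fun x => θ0 * θ x with hd
  have hpos : ∀ x, 0 < θ0 * θ x := fun x => mul_pos hθ0 (one_pos.trans_le (hθ1 x))
  have hok : d.Ok := mkFD_ok h1 h2 W hF hpos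
  have mU : ∀ x : W, x ∈ d.U ↔ (x : G) ∈ U := fun x => Finset.mem_subtype
  have mF : ∀ x : W, x ∈ d.F ↔ (x : G) ∈ F := fun x => Finset.mem_subtype
  have mU' : ∀ x : W, x ∈ (d.map π).U ↔ g⁻¹ * x ∈ U := fun x => by
    simp only [FD.map, Finset.mem_map_equiv]
    rw [mU, hπ.mem]
  have mF' : ∀ x : W, x ∈ (d.map π).F ↔ g⁻¹ * x ∈ F := fun x => by
    simp only [FD.map, Finset.mem_map_equiv]
    rw [mF]
    constructor
    · intro h
      rwa [← hπ.val x ((hπ.mem x).1 (hF h))]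
    · intro h
      rwa [hπ.val x (hF h)]
  have vθ : ∀ x : W, (x : G) ∈ U → d.θ x = θ0 * θ x := fun x hx => if_pos hx
  have vθ' : ∀ x : W, g⁻¹ * x ∈ U → (d.map π).θ x = θ0 * θ (g⁻¹ * x) := fun x hx => by
    change d.θ (π.symm x) = _
    rw [vθ _ ((hπ.mem x).2 hx), hπ.val x hx]
  let U0 : Finset W := Finset.univ.filter fun x => (x : G) ∈ U ∧ g⁻¹ * x ∈ U
  have m0 : ∀ x : W, x ∈ U0 ↔ (x : G) ∈ U ∧ g⁻¹ * x ∈ U := fun x => by simp [U0]
  have hF0 : d.F ⊆ U0 := fun x hx =>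
    (m0 x).2 ⟨hF ((mF x).1 hx), (hFg _ ((mF x).1 hx)).2⟩
  have hF0' : (d.map π).F ⊆ U0 := fun x hx => by
    have h := (mF' x).1 hx
    have h5 := (hFg _ h).1
    rw [mul_inv_cancel_left] at h5
    exact (m0 x).2 ⟨h5, hF h⟩
  have hηa : η ≤ η * a := le_mul_of_one_le_right hη ha
  have hη2 : η ≤ 1 / 2 := by linarith
  have hcard : ((symmDiff d.F (d.map π).F).card : ℝ) ≤ η ^ 2 * F.card := by
    refine le_trans ?_ hfol
    refine Nat.cast_le.2 (Finset.card_le_card_of_injOn (fun x : W => (x : G)) (fun x hx => ?_)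
      Subtype.val_injective.injOn)
    rw [Finset.mem_coe, Finset.mem_symmDiff] at hx ⊢
    rw [mF, mF'] at hx
    rw [← Finset.inv_smul_mem_iff, smul_eq_mul]
    exact hx
  have hb : ∀ x ∈ symmDiff d.F (d.map π).F, θ x ≤ 2 ∧ θ (g⁻¹ * x) ≤ 2 := by
    intro x hx
    have h5 := abs_le.1 (hθg x)
    have h6 := hθ1 x
    rw [Finset.mem_symmDiff, mF, mF'] at hx
    rcases hx with hx | hx
    · rw [hθF _ hx.1] at h5 ⊢
      constructor <;> linarith [h5.2]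
    · rw [hθF _ hx.1] at h5 ⊢
      constructor
      · nlinarith [h5.1]
      · norm_num
  have hD : ∀ x ∈ symmDiff d.F (d.map π).F, x ∈ U0 := fun x hx => by
    rw [Finset.mem_symmDiff] at hx
    exact hx.elim (fun h => hF0 h.1) fun h => hF0' h.1
  have hsum : ∀ f : W → ℝ, (∀ x ∈ symmDiff d.F (d.map π).F, f x ^ 2 ≤ (θ0 * 2) ^ 2) →
      ∑ x ∈ symmDiff d.F (d.map π).F, f x ^ 2 ≤ (2 * η * a) ^ 2 := by
    intro f hf
    refine (Finset.sum_le_card_nsmul _ _ _ hf).trans ?_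
    rw [nsmul_eq_mul]
    calc _ ≤ η ^ 2 * F.card * (θ0 * 2) ^ 2 := by gcongr
      _ = 4 * η ^ 2 * (F.card * θ0 ^ 2) := by ring
      _ = (2 * η * a) ^ 2 := by rw [haF]; ring
  have hcore : ∑ x ∈ d.F, d.θ x ^ 2 = a ^ 2 := by
    rw [hd, mkFD_core sg hF hU (c := θ0) fun x hx => by rw [hθF x hx, mul_one], haF]
  rw [M.X_submatrix]
  refine (M.est_all hok (hok.map π) (U0 := U0) (fun x hx => (mU x).2 ((m0 x).1 hx).1)
    (fun x hx => (mU' x).2 ((m0 x).1 hx).2) hF0 hF0' (fun x hx b hb' => ?_) hη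
    (zero_le_one.trans ha) (a' := 2 * η * a) (by positivity) hΛ (fun x hx => ?_)
    (hsum _ fun x hx => ?_) (hsum _ fun x hx => ?_) (by linarith) (fun x hx hx0 => ?_)
    (fun x hx hx0 => ?_) hcore.le ?_ h4).trans (by linarith)
  · change sg (((π.symm x : W) : G)⁻¹ * (π.symm b : W)) = sg ((x : G)⁻¹ * b)
    rw [hπ.val x ((m0 x).1 hx).2, hπ.val b ((m0 b).1 hb').2]
    congr 1
    group
  · rw [vθ x ((m0 x).1 hx).1, vθ' x ((m0 x).1 hx).2, ← mul_sub, abs_mul, abs_of_pos hθ0]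
    calc θ0 * |θ (g⁻¹ * x) - θ x| ≤ θ0 * (η * θ x) := by gcongr; exact hθg x
      _ = η * (θ0 * θ x) := by ring
  · rw [vθ x ((m0 x).1 (hD x hx)).1]
    have := (hb x hx).1
    have := hpos x
    gcongr
  · rw [vθ' x ((m0 x).1 (hD x hx)).2]
    have := (hb x hx).2
    have := hpos (g⁻¹ * x)
    gcongr
  · have h5 := (mU x).1 hx
    rw [vθ x h5, ← div_le_iff₀' hθ0]
    exact hθo _ h5 (Or.inr fun h => hx0 ((m0 x).2 ⟨h5, h⟩))
  · have h5 := (mU' x).1 hx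
    rw [vθ' x h5, ← div_le_iff₀' hθ0]
    refine hθo _ h5 (Or.inl fun h => hx0 ((m0 x).2 ⟨?_, h5⟩))
    rwa [mul_inv_cancel_left] at h
  · rw [← hcore]
    refine le_of_eq ?_
    simp only [FD.map, Finset.sum_map, Equiv.coe_toEmbedding, Equiv.symm_apply_apply]

/-- Extension of a configuration by the vacuum. -/
def exv {m : Type} (W : Finset G) (o : m) (σ : W → m) : G → m :=
  fun x => if h : x ∈ W then σ ⟨x, h⟩ else o

omit [Group G] in
theorem exv_coe {m : Type} (W : Finset G) (o : m) (σ : W → m) (x : W) : exv W o σ x = σ x :=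
  dif_pos x.2

omit [Group G] in
theorem exv_not {m : Type} {W : Finset G} (o : m) (σ : W → m) {x : G} (h : x ∉ W) :
    exv W o σ x = o := dif_neg h

omit [Group G] in
theorem exv_injective {m : Type} (W : Finset G) (o : m) : Function.Injective (exv W o) :=
  fun σ τ h => funext fun x => by rw [← exv_coe W o σ, h, exv_coe]

theorem exv_cfg {m : Type} {U W : Finset G} (hU : U ⊆ W) {g : G} (hg : ∀ x ∈ U, g * x ∈ W)
    {π : Equiv.Perm W} (hπ : Ext U W g π) (o : m) {σ : W → m}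
    (hσ : ∀ x : W, (x : G) ∉ U → σ x = o) : exv W o (cfg m π σ) = sh g (exv W o σ) := by
  funext z
  change _ = exv W o σ (g⁻¹ * z)
  by_cases h : g⁻¹ * z ∈ U
  · have hz : z ∈ W := by
      have := hg _ h
      rwa [mul_inv_cancel_left] at this
    have h1 : π.symm ⟨z, hz⟩ = ⟨g⁻¹ * z, hU h⟩ := Subtype.ext (hπ.val ⟨z, hz⟩ h)
    rw [exv_coe W o _ ⟨z, hz⟩, exv_coe W o _ ⟨g⁻¹ * z, hU h⟩, ← h1]
    rfl
  · have h1 : exv W o σ (g⁻¹ * z) = o := by
      by_cases h2 : g⁻¹ * z ∈ W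
      · exact (exv_coe W o σ ⟨_, h2⟩).trans (hσ _ h)
      · exact exv_not o σ h2
    rw [h1]
    by_cases hz : z ∈ W
    · exact (exv_coe W o _ ⟨z, hz⟩).trans (hσ _ fun h3 => h ((hπ.mem ⟨z, hz⟩).1 h3))
    · exact exv_not o _ hz

end Grp

theorem exists_model {G : Type} [Group G] (htf : ∀ g : G, IsOfFinOrder g → g = 1) (hF : Foel G)
    (S : Finset G) {ε : ℝ} (hε : 0 < ε) : ∃ n₀ : ℕ, ∀ r : ℝ, 0 < r →
      ∃ (I V : Type) (_ : Fintype I) (_ : DecidableEq I) (_ : Fintype V),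
        Nonempty (Model G I V S ε n₀ r) := by
  classical
  obtain ⟨a, ha1, haε⟩ : ∃ a : ℝ, 1 ≤ a ∧ a⁻¹ ≤ ε :=
    ⟨max 1 ε⁻¹, le_max_left _ _, inv_le_of_inv_le₀ hε (le_max_right _ _)⟩
  have ha0 : 0 < a := one_pos.trans_le ha1
  obtain ⟨e, he0, he1, heε⟩ : ∃ e : ℝ, 0 < e ∧ e ≤ 1 ∧ e ≤ ε :=
    ⟨min 1 ε, lt_min one_pos hε, min_le_left _ _, min_le_right _ _⟩
  set η : ℝ := e / (48 * a) with hη
  have hη0 : 0 < η := by positivity
  have hηa : η * a = e / 48 := by rw [hη]; field_simp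
  set Λ : ℝ := 16 * (1 + 2 * a) / e with hΛ
  have hΛ0 : 0 < Λ := by positivity
  have hΛa : (1 + 2 * a) / Λ = e / 16 := by rw [hΛ]; field_simp
  obtain ⟨F, hFne, hfol⟩ := hF.symmDiff S (η := η ^ 2) (by positivity)
  have hFc : (0 : ℝ) < F.card := Nat.cast_pos.2 hFne.card_pos
  set θ0 : ℝ := a / √(F.card : ℝ) with hθ0
  have hθ00 : 0 < θ0 := by positivity
  have haF : F.card * θ0 ^ 2 = a ^ 2 := by
    rw [hθ0, div_pow, Real.sq_sqrt hFc.le]; field_simp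
  obtain ⟨U, θ, hFU, hFg, hθ1, hθF, hθg, hθo⟩ := exists_weights S F hη0 (Λ / θ0)
  obtain ⟨sg, hs1, hs2⟩ := exists_sign htf
  refine ⟨U.card, fun r hr => ?_⟩
  let W : Finset G := U ∪ S * U
  have hUW : U ⊆ W := Finset.subset_union_left
  have hgW : ∀ g ∈ S, ∀ x ∈ U, g * x ∈ W := fun g hg x hx =>
    Finset.mem_union_right _ (Finset.mul_mem_mul hg hx)
  have hπ : ∀ g : G, ∃ π : Equiv.Perm W, g ∈ S → Ext U W g π := fun g => by
    by_cases hg : g ∈ S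
    · obtain ⟨π, h⟩ := exists_ext hUW (hgW g hg)
      exact ⟨π, fun _ => h⟩
    · exact ⟨1, fun h => absurd h hg⟩
  choose π hπ using hπ
  let d : FD W := mkFD sg W U F fun x => θ0 * θ x
  have hok : d.Ok := mkFD_ok hs1 hs2 W hFU fun x => mul_pos hθ00 (one_pos.trans_le (hθ1 x))
  have hθn : ∀ x, 0 ≤ d.θ x := fun x => by
    by_cases h : x ∈ d.U
    · exact (hok.pos x h).le
    · exact (hok.zero x h).ge
  have hΘ : 0 ≤ ∑ x, d.θ x := Finset.sum_nonneg fun x _ => hθn x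
  obtain ⟨m, _, _, ⟨M⟩⟩ := exists_mode (δ := r / (∑ x, d.θ x + 1)) (by positivity)
  obtain ⟨lab, orb, hl1, hl2⟩ := exists_lab (fun (g : G) (ζ : G → m) => sh g ζ) sh_one sh_sh
    (exv W M.o) (M.vac W) fun σ hσ g hg => eq_one_of_sh htf M.o W (fun x hx => exv_not _ _ hx)
      (by
        by_contra h
        refine hσ (funext fun x => ?_)
        by_contra h2
        exact h ⟨x, by rwa [exv_coe]⟩) hg
  obtain ⟨c0, c, hj, hc⟩ := M.j_dec hok
  have hloc : ∀ σ ∈ M.loc d.U, ∀ x : W, (x : G) ∉ U → σ x = M.o := fun σ hσ x hx =>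
    M.mem_loc.1 hσ x fun h => hx (Finset.mem_subtype.1 h)
  have hlo : M.l ≠ M.o := fun h => by
    have := M.y_l
    rw [h, M.y_o] at this
    exact zero_ne_one this
  refine ⟨W → m, W, inferInstance, inferInstance, inferInstance, ⟨
    { o := M.vac W
      odd := M.odd W
      o_even := M.vac_not_odd
      lab := lab
      orb := orb
      inj := fun σ τ h1 h2 => exv_injective W M.o (by rw [← hl1 σ, ← hl1 τ, h1, h2])
      W := W
      y := fun σ x => M.y (exv W M.o σ x)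
      y_mem := fun σ x => M.y_mem _
      y_supp := fun σ x hx => by rw [exv_not _ _ hx, M.y_o]
      y_lab := fun σ => funext fun x => congrArg M.y (congrFun (hl1 σ).symm x)
      I0 := M.loc d.U
      X := M.X d
      X_unit := M.X_unit hok
      X_supp := M.X_supp d
      π := fun g => cfg m (π g)
      π_o := fun g _ => rfl
      π_odd := fun g _ σ => by simp only [Mode.odd, Finset.mem_filter, Mode.eps_cfg,
        Finset.mem_univ]
      π_lab := fun g hg σ hσ h => hl2 σ _ g h (exv_cfg hUW (hgW g hg) (hπ g hg) M.o (hloc σ hσ))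
      π_X := fun g hg => (mkFD_est M hs1 hs2 hFU hUW (hπ g hg) hθ00 hη0.le ha1 hΛ0 haF (hFg g hg)
        hθ1 hθF (hθg g hg) (hθo g hg) (hfol g hg) (by linarith) (by linarith)).trans (by linarith)
      j := M.j d
      j_eq := M.j_eq hok
      Gd := M.Gd d
      o_bad := fun h => by
        obtain ⟨x, -, hx⟩ := (Finset.mem_filter.1 h).2
        exact hlo hx.symm
      good := fun σ hσ => by
        obtain ⟨h1, x, -, hx⟩ := Finset.mem_filter.1 hσ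
        refine ⟨⟨x, by beta_reduce; rw [exv_coe, hx, M.y_l]⟩, U, le_rfl, fun z hz => ?_⟩
        beta_reduce
        by_cases h : z ∈ W
        · rw [exv_coe W M.o σ ⟨z, h⟩, hloc σ h1 _ hz, M.y_o]
        · rw [exv_not _ _ h, M.y_o]
      j_bad := (M.j_bad hok ha0 (by
        rw [mkFD_core sg hFU hUW (c := θ0) fun x hx => by rw [hθF x hx, mul_one], haF])).trans haε
      φ := fun x => M.mv (d.b x) x
      φ_inj := fun x => M.mv_injective _ _
      c0 := c0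
      c := c
      cb := d.θ
      j_dec := hj
      c_le := hc
      δ := r / (∑ x, d.θ x + 1)
      φ_y := fun x σ z => by
        have h0 : (0 : ℝ) ≤ r / (∑ x, d.θ x + 1) := by positivity
        by_cases h : z ∈ W
        · rw [exv_coe W M.o σ ⟨z, h⟩, exv_coe W M.o _ ⟨z, h⟩]
          by_cases h2 : (⟨z, h⟩ : W) = x
          · rw [h2, Mode.mv, Function.update_self]
            exact M.y_s _ _
          · rw [Mode.mv, Function.update_of_ne h2, sub_self, abs_zero]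
            exact h0
        · rw [exv_not _ _ h, exv_not _ _ h, sub_self, abs_zero]
          exact h0
      small := by
        rw [← mul_div_assoc, div_le_iff₀ (by positivity)]
        nlinarith }⟩⟩

end Pool.Agent.Izumi
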