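import Pool.Agent.Lib.MP_b2135d_an.XC3
import Pool.Agent.Lib.MP_b2135d_an.XK3
import Pool.Agent.Lib.MP_b2135d_an.XM5

/-! Approximate solutions of the core problem. -/

namespace Pool.Agent.Izumi

open scoped ComplexOrder Pointwise
open Pool.Agent.Lib.MP_f90f6c_an.H50

namespace UCGData

variable {G D A ι : Type} [Group G] [CStarAlgebra D] [CStarAlgebra A] [PartialOrder A]
  [MulAction G ι] (X : UCGData G D A ι)

theorem act_inv_Φ (g : G) (i : ι) (x : D) :
    X.γ g (X.Φ (g⁻¹ • i) (X.ρ g⁻¹ x)) = X.Φ i x := by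
  rw [X.Φ_act, act_act_inv]

/-- The hole, indexed by a finite type, for a family of unitaries congruent to `1`. -/
theorem xc4_hole [TopologicalSpace.SeparableSpace D] [Countable ι] {I : Type} [Fintype I]
    [DecidableEq I] (fo : ι → I → A) (hN : ∀ j ω, fo j ω - 1 ∈ X.N) (K : Finset G) :
    ∃ (e : A) (w : I → A), (∀ g, X.γ g e = e) ∧ ‖e‖ ≤ 1 ∧ star e = e ∧
      (∀ j ω, e * (fo j ω - 1) = fo j ω - 1 ∧ (fo j ω - 1) * e = fo j ω - 1) ∧
      (∀ i x, Commute (X.Φ i x) e) ∧ (∀ ω, w ω ∈ cent X.T) ∧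
      (∀ ω i x, X.Φ i x * w ω = w ω * X.Φ X.i₀ x) ∧ (∀ ω, e * w ω = 0) ∧
      (∀ ω, star (w ω) * w ω = e) ∧
      ∀ ω ω', ∀ k ∈ K, (ω ≠ ω' ∨ k ≠ 1) → star (w ω) * X.γ k (w ω') = 0 := by
  obtain ⟨d, hd⟩ := TopologicalSpace.exists_dense_seq D
  let R : Set A := (Set.range fun p : ι × I => fo p.1 p.2 - 1) ∪
    ((Set.range fun p : ι × I => star (fo p.1 p.2 - 1)) ∪
      Set.range fun p : ι × ℕ => X.Φ p.1 (d p.2) - X.Φ X.i₀ (d p.2))
  have hRc : R.Countable :=
    (Set.countable_range _).union ((Set.countable_range _).union (Set.countable_range _))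
  have hRN : R ⊆ X.N := by
    rintro _ (⟨p, rfl⟩ | ⟨p, rfl⟩ | ⟨p, rfl⟩)
    · exact hN _ _
    · exact X.idl.star_mem _ (hN _ _)
    · exact X.Φ_sub _ _
  obtain ⟨e, v, h1, h2, h3, h4, h5, h6, h7, h8⟩ := X.hole R hRc hRN (Fintype.card I + 1) K
  have hs : star e = e := by
    rw [← h7 0, star_mul, star_star]
  have hΦ : ∀ i x, e * (X.Φ i x - X.Φ X.i₀ x) = X.Φ i x - X.Φ X.i₀ x := by
    intro i x
    refine hd.induction_on x (isClosed_eq ?_ ?_) fun n => h3 _ (Or.inr (Or.inr ⟨(i, n), rfl⟩))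
    · exact continuous_const.mul ((hom_continuous _).sub (hom_continuous _))
    · exact (hom_continuous _).sub (hom_continuous _)
  have hΦ' : ∀ i x, (X.Φ i x - X.Φ X.i₀ x) * e = X.Φ i x - X.Φ X.i₀ x := by
    intro i x
    have := congrArg star (hΦ i (star x))
    simpa only [star_mul, star_sub, map_star, star_star, hs] using this
  have he0 : ∀ x, Commute (X.Φ X.i₀ x) e := by
    intro x
    rw [← h7 0]
    refine Commute.mul_right ?_ (h5 0 x).symm
    have := (h5 0 (star x)).star_star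
    rw [map_star, star_star] at this
    exact this.symm
  let q : I → Fin (Fintype.card I + 1) := fun ω => (Fintype.equivFin I ω).castSucc
  have hq : Function.Injective q :=
    (Fin.castSucc_injective _).comp (Fintype.equivFin I).injective
  refine ⟨e, fun ω => v (q ω), h1, h2, hs, fun j ω => ⟨h3 _ (Or.inl ⟨(j, ω), rfl⟩), ?_⟩,
    fun i x => ?_, fun ω => h4 _, fun ω i x => ?_, fun ω => h6 _, fun ω => h7 _,
    fun ω ω' k hk h => h8 _ _ k hk (h.imp_left fun h' h'' => h' (hq h''))⟩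
  · have := congrArg star (h3 _ (Or.inr (Or.inl ⟨(j, ω), rfl⟩)))
    simpa only [star_mul, star_star, hs] using this
  · have h9 : Commute (X.Φ i x - X.Φ X.i₀ x) e := (hΦ' i x).trans (hΦ i x).symm
    simpa using h9.add_left (he0 x)
  · have h9 : (X.Φ i x - X.Φ X.i₀ x) * v (q ω) = 0 := by
      rw [← hΦ' i x, mul_assoc, h6, mul_zero]
    rw [sub_mul, sub_eq_zero] at h9
    exact h9.trans (h5 _ x).symm.eq

end UCGData

theorem xc4_commute {A : Type} [Ring A] {e u : A} (h₁ : e * (u - 1) = u - 1)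
    (h₂ : (u - 1) * e = u - 1) : Commute u e := by
  have h : Commute (u - 1) e := h₂.trans h₁.symm
  simpa using h.add_left (Commute.one_left e)

theorem UCGData.approx {G D A ι : Type} [Group G] [Countable G] [CStarAlgebra D]
    [TopologicalSpace.SeparableSpace D] [CStarAlgebra A] [PartialOrder A] [StarOrderedRing A]
    [Countable ι] [MulAction G ι] (X : UCGData G D A ι) (S : Finset G) (s : Finset D) {ε : ℝ}
    (hε : 0 < ε) : ∃ U : ι → A, (∀ i, U i ∈ cent X.T ∧ ‖U i‖ ≤ 9 ∧ ‖U i * star (U i) - 1‖ ≤ ε ∧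
      ‖star (U i) * U i - 1‖ ≤ ε) ∧ (∀ g ∈ S, ∀ i, ‖X.γ g (U i) - U (g • i)‖ ≤ ε) ∧
        ∀ i i', ∀ x ∈ s,
          ‖U i * X.Φ i x * star (U i) - U i' * X.Φ i' x * star (U i')‖ ≤ ε := by
  classical
  set c : ℝ := ∑ x ∈ s, ‖x‖ with hc
  have hc0 : 0 ≤ c := Finset.sum_nonneg fun _ _ => norm_nonneg _
  have hxc : ∀ x ∈ s, ‖x‖ ≤ c := fun x hx =>
    Finset.single_le_sum (f := fun x : D => ‖x‖) (fun _ _ => norm_nonneg _) hx
  set η : ℝ := ε / (48 * c + 20) with hη
  have hη0 : 0 < η := by positivity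
  have hηε : (48 * c + 20) * η = ε := by
    rw [hη]; field_simp
  obtain ⟨n₀, hn₀⟩ := exists_model X.tf X.foel S hη0
  obtain ⟨Λ, hΛ, hcoh⟩ := X.coherent n₀
  obtain ⟨I, V, _, _, _, ⟨M⟩⟩ := hn₀ (η / Λ) (by positivity)
  let s' : Finset D := Finset.univ.biUnion fun σ : I => s.image (X.ρ (M.lab σ)⁻¹)
  have hs' : ∀ σ, ∀ x ∈ s, X.ρ (M.lab σ)⁻¹ x ∈ s' := fun σ x hx =>
    Finset.mem_biUnion.2 ⟨σ, Finset.mem_univ _, Finset.mem_image_of_mem _ hx⟩
  obtain ⟨f, hf⟩ := hcoh M.W s' η hη0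
  obtain ⟨f0, h0u, h0c, h0N, h0⟩ := X.exists_f0 s' hη0
  let fo : ι → I → A := fun j ω => if GoodY n₀ (M.y ω) then f j (M.y ω) else f0 j
  have hfu : ∀ j ω, fo j ω ∈ unitary A := fun j ω => by
    by_cases h : GoodY n₀ (M.y ω)
    · simp only [fo, if_pos h]; exact hf.unit _ _
    · simp only [fo, if_neg h]; exact h0u _
  have hfc : ∀ j ω, fo j ω ∈ cent X.T := fun j ω => cent_anti X.sub (by
    by_cases h : GoodY n₀ (M.y ω)
    · simp only [fo, if_pos h]; exact hf.mem _ _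
    · simp only [fo, if_neg h]; exact h0c _)
  have hfN : ∀ j ω, fo j ω - 1 ∈ X.N := fun j ω => by
    by_cases h : GoodY n₀ (M.y ω)
    · simp only [fo, if_pos h]; exact hf.sub _ _
    · simp only [fo, if_neg h]; exact h0N _
  have hfo : ∀ ω j j', ∀ x ∈ s', ‖fo j ω * X.Φ j x * star (fo j ω) -
      fo j' ω * X.Φ j' x * star (fo j' ω)‖ ≤ η := fun ω j j' x hx => by
    by_cases h : GoodY n₀ (M.y ω)
    · simp only [fo, if_pos h]; exact hf.coh _ (M.y_mem ω) h (M.y_supp ω) _ _ x hx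
    · simp only [fo, if_neg h]; exact h0 _ _ x hx
  let K : Finset G := Finset.univ.image fun p : I × I => (M.lab p.1)⁻¹ * M.lab p.2
  obtain ⟨e, w, he1, he2, he3, he4, he5, hw1, hw2, hw3, hw4, hw5⟩ := X.xc4_hole fo hfN K
  have hfe : ∀ j ω, Commute (fo j ω) e := fun j ω => xc4_commute (he4 j ω).1 (he4 j ω).2
  have hfe' : ∀ j ω, Commute (star (fo j ω)) e := fun j ω => by
    have := (hfe j ω).star_star
    rwa [he3] at this
  let F : ι → I → A := fun i σ =>
    if σ = M.o then 1 else X.γ (M.lab σ) (fo ((M.lab σ)⁻¹ • i) (M.orb σ))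
  let β : ι → D → I → A := fun i x σ => if σ = M.o then X.Φ i x else X.γ (M.lab σ)
    (fo X.i₀ (M.orb σ) * X.Φ X.i₀ (X.ρ (M.lab σ)⁻¹ x) * star (fo X.i₀ (M.orb σ)))
  let v : I → A := fun σ => if σ = M.o then 1 else if σ ∈ M.odd then
    X.γ (M.lab σ) (w (M.orb σ) * star (fo X.i₀ (M.orb σ))) else 0
  have hno : ∀ σ ∈ M.odd, σ ≠ M.o := fun σ hσ h => M.o_even (h ▸ hσ)
  have hvo : v M.o = 1 := if_pos rfl
  have hvodd : ∀ σ ∈ M.odd, v σ = X.γ (M.lab σ) (w (M.orb σ) * star (fo X.i₀ (M.orb σ))) :=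
    fun σ hσ => by simp only [v, if_neg (hno σ hσ), if_pos hσ]
  have hveven : ∀ σ, σ ≠ M.o → σ ∉ M.odd → v σ = 0 := fun σ h1 h2 => by
    simp only [v, if_neg h1, if_neg h2]
  have hFo : ∀ i, F i M.o = 1 := fun i => if_pos rfl
  have hFn : ∀ i σ, σ ≠ M.o → F i σ = X.γ (M.lab σ) (fo ((M.lab σ)⁻¹ • i) (M.orb σ)) :=
    fun i σ h => if_neg h
  have hβo : ∀ i x, β i x M.o = X.Φ i x := fun i x => if_pos rfl
  have hβn : ∀ i x σ, σ ≠ M.o → β i x σ = X.γ (M.lab σ)
      (fo X.i₀ (M.orb σ) * X.Φ X.i₀ (X.ρ (M.lab σ)⁻¹ x) * star (fo X.i₀ (M.orb σ))) :=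
    fun i x σ h => if_neg h
  have hπ : ∀ g ∈ S, ∀ σ, σ ≠ M.o → M.π g σ ≠ M.o := fun g hg σ h h' =>
    h ((M.π g).injective (h'.trans (M.π_o g hg).symm))
  have hframe : Frame M.o M.odd e v := by
    refine ⟨M.o_even, hvo, hveven, he3, he2, fun σ hσ τ hτ => ?_, fun σ hσ => ?_⟩
    · rw [hvodd σ hσ, hvodd τ hτ]
      by_cases h : σ = τ
      · subst h
        rw [if_pos rfl, ← map_star, ← map_mul, star_mul, star_star, mul_assoc,
          ← mul_assoc (star (w _)), hw4, ← mul_assoc, (hfe _ _).eq, mul_assoc,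
          (Unitary.mem_iff.1 (hfu _ _)).2, mul_one, he1]
      · rw [if_neg h]
        have hk : (M.lab σ)⁻¹ * M.lab τ ∈ K :=
          Finset.mem_image.2 ⟨(σ, τ), Finset.mem_univ _, rfl⟩
        have h1 : M.orb σ ≠ M.orb τ ∨ (M.lab σ)⁻¹ * M.lab τ ≠ 1 := by
          by_contra h2
          rw [not_or, not_not, not_not] at h2
          exact h (M.inj _ _ (inv_mul_eq_one.1 h2.2) h2.1)
        have h2 := hw5 _ _ _ hk h1
        have h3 : ∀ z, X.γ (M.lab τ) z = X.γ (M.lab σ) (X.γ ((M.lab σ)⁻¹ * M.lab τ) z) := by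
          intro z
          rw [act_act, mul_inv_cancel_left]
        rw [h3, ← map_star, ← map_mul, star_mul, star_star, map_mul (X.γ (_ * _)), mul_assoc,
          ← mul_assoc (star (w _)), h2, zero_mul, mul_zero, map_zero]
    · rw [hvodd σ hσ, ← he1 (M.lab σ), ← map_mul, ← mul_assoc, hw3, zero_mul, map_zero]
  have hb : ∀ i x σ, X.Φ i x * v σ = v σ * β i x σ := by
    intro i x σ
    by_cases h : σ = M.o
    · subst h
      rw [hvo, hβo, mul_one, one_mul]
    by_cases h' : σ ∈ M.odd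
    · rw [hvodd σ h', hβn i x σ h, ← X.act_inv_Φ (M.lab σ) i x, ← map_mul, ← map_mul]
      congr 1
      rw [← mul_assoc, hw2]
      simp only [mul_assoc]
      rw [← mul_assoc (star (fo _ _)) (fo _ _), (Unitary.mem_iff.1 (hfu _ _)).1, one_mul]
    · rw [hveven σ h h', mul_zero, zero_mul]
  have hβs : ∀ i x σ, star (β i x σ) = β i (star x) σ := by
    intro i x σ
    by_cases h : σ = M.o
    · subst h
      rw [hβo, hβo, map_star]
    · rw [hβn _ _ _ h, hβn _ _ _ h, ← map_star, star_mul, star_mul, star_star, map_star,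
        map_star, mul_assoc]
  have hFu : ∀ i σ, F i σ ∈ unitary A := by
    intro i σ
    by_cases h : σ = M.o
    · subst h
      rw [hFo]
      exact one_mem _
    · rw [hFn _ _ h]
      exact Unitary.map_mem _ (hfu _ _)
  have hGd : ∀ i, ∀ σ ∈ M.Gd, F i σ = f i (M.y σ) := by
    intro i σ hσ
    have h : σ ≠ M.o := fun h => M.o_bad (h ▸ hσ)
    have hg : GoodY n₀ (M.y (M.orb σ)) := by
      rw [← goodY_sh (M.lab σ), ← M.y_lab]
      exact M.good σ hσ
    rw [hFn _ _ h]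
    simp only [fo, if_pos hg]
    rw [hf.act _ _ _ (M.y_mem _), smul_inv_smul, ← M.y_lab]
  obtain ⟨U, h1, h2, h3⟩ := M.approx X.γ (cent X.T) hframe (v := v) (fun σ => by
      by_cases h : σ = M.o
      · subst h
        rw [hvo]
        exact one_mem _
      by_cases h' : σ ∈ M.odd
      · rw [hvodd σ h']
        exact act_mem_cent _ _ (X.inv _) (mul_mem (hw1 _) (star_mem (hfc _ _)))
      · rw [hveven σ h h']
        exact zero_mem _)
    (fun g hg σ hσ => by
      by_cases h : σ = M.o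
      · subst h
        rw [M.π_o g hg, hvo, map_one]
      by_cases h' : σ ∈ M.odd
      · rw [hvodd σ h', hvodd _ ((M.π_odd g hg σ).2 h'), (M.π_lab g hg σ hσ h).1,
          (M.π_lab g hg σ hσ h).2, act_act]
      · rw [hveven σ h h', hveven _ (hπ g hg σ h) fun h2 => h' ((M.π_odd g hg σ).1 h2), map_zero])
    F hFu
    (fun i σ => by
      by_cases h : σ = M.o
      · subst h
        rw [hFo]
        exact one_mem _
      · rw [hFn _ _ h]
        exact act_mem_cent _ _ (X.inv _) (hfc _ _))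
    (fun i σ => by
      by_cases h : σ = M.o
      · subst h
        simp [hFo]
      · have h4 := he4 ((M.lab σ)⁻¹ • i) (M.orb σ)
        have h5 := congrArg (X.γ (M.lab σ)) h4.1
        have h6 := congrArg (X.γ (M.lab σ)) h4.2
        rw [map_mul, map_sub, map_one, he1] at h5 h6
        rw [hFn _ _ h]
        exact ⟨h5, h6⟩)
    (fun g hg i σ hσ => by
      by_cases h : σ = M.o
      · subst h
        rw [M.π_o g hg, hFo, hFo, map_one]
      · rw [hFn _ _ h, hFn _ _ (hπ g hg σ h), (M.π_lab g hg σ hσ h).1, (M.π_lab g hg σ hσ h).2,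
          act_act, mul_inv_rev, mul_smul, inv_smul_smul])
    hΛ.le (le_of_eq (by field_simp))
    (fun i σ hσ τ hτ d hd => by
      rw [hGd i σ hσ, hGd i τ hτ]
      exact hf.lip i _ _ d (M.y_mem σ) (M.y_mem τ) hd)
    (s : Set D) (fun i x => X.Φ i x) β hc0 hβo
    (fun i i' x σ h => by rw [hβn _ _ _ h, hβn _ _ _ h])
    (fun i x hx σ => by
      by_cases h : σ = M.o
      · subst h
        rw [hβo]
        exact (NonUnitalStarAlgHom.norm_apply_le _ x).trans (hxc x hx)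
      · rw [hβn _ _ _ h, norm_act, CStarRing.norm_mul_mem_unitary _ (Unitary.star_mem (hfu _ _)),
          CStarRing.norm_mem_unitary_mul _ (hfu _ _)]
        refine (NonUnitalStarAlgHom.norm_apply_le _ _).trans ?_
        rw [norm_act]
        exact hxc x hx)
    (fun i x σ => by
      by_cases h : σ = M.o
      · subst h
        rw [hβo]
        exact he5 i x
      · rw [hβn _ _ _ h, ← he1 (M.lab σ)]
        exact (((hfe _ _).mul_left (he5 _ _)).mul_left (hfe' _ _)).map _)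
    (fun i x σ => ⟨hb i x σ, by rw [hβs, ← map_star]; exact hb i _ σ⟩)
    (fun i x hx σ => by
      by_cases h : σ = M.o
      · subst h
        simp [hFo, hβo, hη0.le]
      · rw [hFn _ _ h, hβn _ _ _ h, ← X.act_inv_Φ (M.lab σ) i x, ← map_star, ← map_mul, ← map_mul,
          ← map_sub, norm_act]
        exact hfo _ _ _ _ (hs' σ x hx))
  have hcη : 0 ≤ c * η := mul_nonneg hc0 hη0.le
  refine ⟨U, fun i => ⟨(h1 i).1, (h1 i).2.1, (h1 i).2.2.1.trans ?_, (h1 i).2.2.2.trans ?_⟩,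
    fun g hg i => (h2 g hg i).trans ?_, fun i i' x hx => (h3 i i' x hx).trans ?_⟩ <;>
  nlinarith

end Pool.Agent.Izumi
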