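import Pool.Agent.Lib.MP_b2135d_an.VA
import Pool.Agent.Lib.MP_b2135d_an.XC4

/-! The coherent family of unitaries in the presence of torsion. -/

namespace Pool.Agent.Izumi

open scoped ComplexOrder Pointwise

/-- The hypotheses of the core theorem, with Rokhlin projections instead of torsion freeness. -/
structure UCR (G D A ι : Type) [Group G] [CStarAlgebra D] [CStarAlgebra A] [PartialOrder A]
    [StarOrderedRing A] [MulAction G ι] where
  foel : Foel G
  S : DData D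
  L : ℝ
  path : S.Path L
  ρ : G →* (D ≃⋆ₐ[ℂ] D)
  τ : A →ₚ[ℂ] ℂ
  γ : G →* (A ≃⋆ₐ[ℂ] A)
  sat : Saturated τ γ
  rok : Rok γ
  emb : ∀ T : Set A, T.Countable → ∃ p : D →⋆ₐ[ℂ] A, ∀ x, p x ∈ cent T
  T : Set A
  T' : Set A
  sub : T ⊆ T'
  count : T'.Countable
  inv : ∀ g, ∀ t ∈ T, γ g t ∈ T
  inv' : ∀ g, ∀ t ∈ T', γ g t ∈ T'
  N : Submodule ℂ A
  idl : IsIdl γ T' N
  Φ : ι → D →⋆ₐ[ℂ] A
  Φ_mem : ∀ i x, Φ i x ∈ cent T'
  Φ_act : ∀ g i x, Φ (g • i) (ρ g x) = γ g (Φ i x)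
  i₀ : ι
  Φ_sub : ∀ i x, Φ i x - Φ i₀ x ∈ N
  hole : Hole γ T N (Φ i₀)

/-- A coherent family of unitaries. -/
structure IsCohR {G D A ι : Type} [Group G] [CStarAlgebra D] [CStarAlgebra A] [PartialOrder A]
    [StarOrderedRing A] [MulAction G ι] (X : UCR G D A ι) (n₀ : ℕ) (Λ : ℝ) (W : Finset G) (s : Finset D) (ε : ℝ)
    (f : ι → (G → ℝ) → A) : Prop where
  unit : ∀ i y, f i y ∈ unitary A
  mem : ∀ i y, f i y ∈ cent X.T'
  sub : ∀ i y, f i y - 1 ∈ X.N
  act : ∀ g i y, U01 y → X.γ g (f i y) = f (g • i) (sh g y)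
  lip : ∀ i y y' (d : ℝ), U01 y → U01 y' → (∀ x, |y x - y' x| ≤ d) → ‖f i y - f i y'‖ ≤ Λ * d
  coh : ∀ y, U01 y → GoodY n₀ y → (∀ x, x ∉ W → y x = 0) → ∀ i i', ∀ x ∈ s,
    ‖f i y * X.Φ i x * star (f i y) - f i' y * X.Φ i' x * star (f i' y)‖ ≤ ε

/-- Independent Rokhlin partitions of unity, one family for each level. -/
theorem Rok.levels {G A : Type} [Group G] [Countable G] [CStarAlgebra A] [PartialOrder A]
    [StarOrderedRing A] {γ : G →* (A ≃⋆ₐ[ℂ] A)} (h : Rok γ) {I : Type} [Countable I] {o : I}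
    {lab : I → G} {ob : I → I} {C : I → Finset G} {H : I → Subgroup G} (hs : IsSec o lab ob C H)
    {T : Set A} (hT : T.Countable) : ∃ q : ℕ → I → A,
      (∀ n ω g, γ g (q n ω) ∈ cent (orb γ T)) ∧
      (∀ n σ, σ ≠ o → IsPU (C σ) fun g => γ g (q n (ob σ))) ∧
      ∀ n m, n ≠ m → ∀ g h ω ω', Commute (γ g (q n ω)) (γ h (q m ω')) := by
  choose q hq1 hq2 using fun T : {T : Set A // T.Countable} => h.sec hs T.2
  let Ts : ℕ → {T : Set A // T.Countable} := fun n =>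
    Nat.rec ⟨_, hT⟩ (fun _ T => ⟨T.1 ∪ Set.range (q T), T.2.union (Set.countable_range _)⟩) n
  have hs' : ∀ n, (Ts (n + 1)).1 = (Ts n).1 ∪ Set.range (q (Ts n)) := fun _ => rfl
  have h0 : (Ts 0).1 = T := rfl
  have hmono : ∀ n m, n ≤ m → (Ts n).1 ⊆ (Ts m).1 := by
    intro n m h
    induction h with
    | refl => exact subset_rfl
    | step _ ih => exact ih.trans (by rw [hs']; exact Set.subset_union_left)
  have hlt : ∀ n m, m < n → ∀ g h ω ω', Commute (γ g (q (Ts n) ω)) (γ h (q (Ts m) ω')) :=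
    fun n m hn g h ω ω' => (mem_cent.1 (hq1 (Ts n) ω g) _
      ⟨h, _, hmono (m + 1) n hn (by rw [hs']; exact Or.inr ⟨ω', rfl⟩), rfl⟩).1
  refine ⟨fun n => q (Ts n), fun n ω g => ?_, fun n => hq2 _, fun n m hn g h ω ω' => ?_⟩
  · exact cent_anti (orb_mono γ (h0 ▸ hmono 0 n (Nat.zero_le n))) (hq1 _ ω g)
  · rcases lt_or_gt_of_ne hn with hn | hn
    · exact (hlt m n hn h g ω' ω).symm
    · exact hlt n m hn g h ω ω'

theorem finite_stab_finset {G : Type} [Group G] [DecidableEq G] {B : Finset G} (hB : B ≠ ∅) :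
    {g : G | g • B = B}.Finite := by
  obtain ⟨x, hx⟩ := Finset.nonempty_iff_ne_empty.2 hB
  refine (B.finite_toSet.image (· * x⁻¹)).subset fun g hg => ⟨g * x, ?_, by simp⟩
  rw [← show g • B = B from hg]
  exact Finset.smul_mem_smul_finset hx

namespace UCR

variable {G D A ι : Type} [Group G] [Countable G] [CStarAlgebra D]
  [TopologicalSpace.SeparableSpace D] [CStarAlgebra A] [PartialOrder A] [StarOrderedRing A]
  [Countable ι] [MulAction G ι] (X : UCR G D A ι)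

/-- A sequence of independent copies of `D`. -/
theorem exists_family : ∃ p : ℕ → D →⋆ₐ[ℂ] A, (∀ n x, p n x ∈ cent X.T') ∧
    (∀ n x i y, Commute (X.Φ i y) (p n x)) ∧
      ∀ n n', n ≠ n' → ∀ g h x y, Commute (X.γ g (p n x)) (X.γ h (p n' y)) := by
  obtain ⟨D0, hD0, hD⟩ := TopologicalSpace.exists_countable_dense D
  have hq : ∀ T : {T : Set A // T.Countable}, ∃ p : D →⋆ₐ[ℂ] A, ∀ x, p x ∈ cent (orb X.γ T.1) :=
    fun T => X.emb _ (countable_orb X.γ T.2)
  choose q hq using hq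
  have hb : (X.T' ∪ ⋃ i, X.Φ i '' D0).Countable :=
    X.count.union (Set.countable_iUnion fun i => hD0.image _)
  let Ts : ℕ → {T : Set A // T.Countable} := fun n =>
    Nat.rec ⟨_, hb⟩ (fun _ T => ⟨T.1 ∪ q T '' D0, T.2.union (hD0.image _)⟩) n
  have hs : ∀ n, (Ts (n + 1)).1 = (Ts n).1 ∪ q (Ts n) '' D0 := fun _ => rfl
  have h0 : (Ts 0).1 = X.T' ∪ ⋃ i, X.Φ i '' D0 := rfl
  have hmono : ∀ n m, n ≤ m → (Ts n).1 ⊆ (Ts m).1 := by
    intro n m h
    induction h with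
    | refl => exact subset_rfl
    | step _ ih => exact ih.trans (by rw [hs]; exact Set.subset_union_left)
  have hbase : ∀ n, X.T' ∪ ⋃ i, X.Φ i '' D0 ⊆ orb X.γ (Ts n).1 := fun n =>
    (h0 ▸ hmono 0 n (Nat.zero_le n)).trans (subset_orb _ _)
  have hlt : ∀ n n', n' < n → ∀ g h x y,
      Commute (X.γ g (q (Ts n) x)) (X.γ h (q (Ts n') y)) := by
    intro n n' hn g h x y
    refine xk3_commute_dense hD (F := fun y => X.γ h (q (Ts n') y))
      ((aut_continuous _).comp (hom_continuous _)) (fun z hz => ?_) y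
    have h1 : X.γ g (q (Ts n) x) ∈ cent (orb X.γ (Ts n).1) :=
      act_mem_cent X.γ g (fun t ht => act_mem_orb X.γ _ ht) (hq _ x)
    have h2 : q (Ts n') z ∈ (Ts n).1 :=
      hmono (n' + 1) n hn (by rw [hs]; exact Or.inr ⟨z, hz, rfl⟩)
    exact (mem_cent.1 h1 _ ⟨h, _, h2, rfl⟩).1
  refine ⟨fun n => q (Ts n), fun n x => ?_, fun n x i y => ?_, fun n n' hn g h x y => ?_⟩
  · exact cent_anti (Set.subset_union_left.trans (hbase n)) (hq _ x)
  · refine (xk3_commute_dense hD (F := fun y => X.Φ i y) (hom_continuous _) (fun z hz => ?_)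
      y).symm
    exact (mem_cent.1 (hq (Ts n) x) _
      (hbase n (Or.inr (Set.mem_iUnion.2 ⟨i, z, hz, rfl⟩)))).1
  · rcases lt_or_gt_of_ne hn with hn | hn
    · exact (hlt n' n hn h g y x).symm
    · exact hlt n n' hn g h x y

omit [Countable G] [TopologicalSpace.SeparableSpace D] [Countable ι] in
theorem xk3_Φ_sub (i j : ι) (x : D) : X.Φ i x - X.Φ j x ∈ X.N := by
  have h := X.N.sub_mem (X.Φ_sub i x) (X.Φ_sub j x)
  rwa [sub_sub_sub_cancel_right] at h

/-- Approximate intertwiners that are congruent to `1`. -/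
theorem exists_f0 (s : Finset D) {ε : ℝ} (hε : 0 < ε) : ∃ f : ι → A, (∀ i, f i ∈ unitary A) ∧
    (∀ i, f i ∈ cent X.T') ∧ (∀ i, f i - 1 ∈ X.N) ∧ ∀ i i', ∀ x ∈ s,
      ‖f i * X.Φ i x * star (f i) - f i' * X.Φ i' x * star (f i')‖ ≤ ε := by
  obtain ⟨p, hp1, hp2, -⟩ := X.exists_family
  choose χ hal hbe using fun i => X.S.univ A (X.Φ i) (p 0) fun x y => hp2 0 y i x
  obtain ⟨w, hw, hws⟩ := X.path s (ε / 2) (half_pos hε)
  have hu : ∀ i, χ i (w 1) ∈ unitary A := fun i => xk3_map_unitary _ (hw.unit 1)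
  have hm : ∀ i, χ i (w 1) ∈ cent X.T' := fun i =>
    X.S.map_mem (χ i) (isClosed_cent _) (fun x => by rw [hal]; exact X.Φ_mem i x)
      (fun x => by rw [hbe]; exact hp1 0 x) _
  refine ⟨fun i => star (χ X.i₀ (w 1)) * χ i (w 1),
    fun i => mul_mem (Unitary.star_mem (hu _)) (hu i),
    fun i => mul_mem (star_mem (hm _)) (hm i), fun i => ?_, fun i i' x hx => ?_⟩
  · refine xk3_sub_one X.idl (hu _) (hm _) (X.S.sub_mem _ _ X.idl.closed (fun x y => ?_) _)
    rw [hal, hal, hbe, hbe, ← sub_mul]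
    exact X.idl.mul_mem_right (X.Φ_sub i x) (hp1 0 y)
  · rw [xk3_conj_sub (hu _)]
    have h1 : ∀ j, ‖χ j (w 1) * X.Φ j x * star (χ j (w 1)) - p 0 x‖ ≤ ε / 2 := by
      intro j
      rw [← hal j, ← hbe j, ← map_star, ← map_mul, ← map_mul]
      exact (xk3_norm_map_sub _ _ _).trans (hws x hx)
    have h2 := h1 i'
    rw [norm_sub_rev] at h2
    refine (norm_sub_le_norm_sub_add_norm_sub _ (p 0 x) _).trans ?_
    linarith [h1 i]

omit [Countable G] [TopologicalSpace.SeparableSpace D] [Countable ι] in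
theorem act_inv_Φ (g : G) (i : ι) (x : D) :
    X.γ g (X.Φ (g⁻¹ • i) (X.ρ g⁻¹ x)) = X.Φ i x := by
  rw [X.Φ_act, act_act_inv]

omit [Countable G] in
/-- The hole, indexed by a finite type, for a family of unitaries congruent to `1`. -/
theorem xc4_hole {I : Type} [Fintype I]
    [DecidableEq I] (fo : ι → I → A) (hN : ∀ j ω, fo j ω - 1 ∈ X.N) (K : Finset G) :
    ∃ (e : A) (w : I → A), (∀ g, X.γ g e = e) ∧ ‖e‖ ≤ 1 ∧ star e = e ∧
      (∀ j ω, e * (fo j ω - 1) = fo j ω - 1 ∧ (fo j ω - 1) * e = fo j ω - 1) ∧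
      (∀ i x, Commute (X.Φ i x) e) ∧ (∀ ω, w ω ∈ cent X.T) ∧
      (∀ ω i x, X.Φ i x * w ω = w ω * X.Φ X.i₀ x) ∧ (∀ ω, e * w ω = 0) ∧
      (∀ ω, star (w ω) * w ω = e) ∧
      ∀ ω ω', ∀ k ∈ K, (ω ≠ ω' ∨ k ≠ 1) → star (w ω) * X.γ k (w ω') = 0 := by
  obtain ⟨d, hd⟩ := TopologicalSpace.exists_dense_seq D
  let R : Set A := (Set.range fun p : ι × I => fo p.1 p.2 - 1) ∪
    ((Set.range fun p : ι × I => star (fo p.1 p.2 - 1)) ∪
      Set.range fun p : ι × ℕ => X.Φ p.1 (d p.2) - X.Φ X.i₀ (d p.2))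
  have hRc : R.Countable :=
    (Set.countable_range _).union ((Set.countable_range _).union (Set.countable_range _))
  have hRN : R ⊆ X.N := by
    rintro _ (⟨p, rfl⟩ | ⟨p, rfl⟩ | ⟨p, rfl⟩)
    · exact hN _ _
    · exact X.idl.star_mem _ (hN _ _)
    · exact X.Φ_sub _ _
  obtain ⟨e, v, h1, h2, h3, h4, h5, h6, h7, h8⟩ := X.hole R hRc hRN (Fintype.card I + 1) K
  have hs : star e = e := by
    rw [← h7 0, star_mul, star_star]
  have hΦ : ∀ i x, e * (X.Φ i x - X.Φ X.i₀ x) = X.Φ i x - X.Φ X.i₀ x := by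
    intro i x
    refine hd.induction_on x (isClosed_eq ?_ ?_) fun n => h3 _ (Or.inr (Or.inr ⟨(i, n), rfl⟩))
    · exact continuous_const.mul ((hom_continuous _).sub (hom_continuous _))
    · exact (hom_continuous _).sub (hom_continuous _)
  have hΦ' : ∀ i x, (X.Φ i x - X.Φ X.i₀ x) * e = X.Φ i x - X.Φ X.i₀ x := by
    intro i x
    have := congrArg star (hΦ i (star x))
    simpa only [star_mul, star_sub, map_star, star_star, hs] using this
  have he0 : ∀ x, Commute (X.Φ X.i₀ x) e := by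
    intro x
    rw [← h7 0]
    refine Commute.mul_right ?_ (h5 0 x).symm
    have := (h5 0 (star x)).star_star
    rw [map_star, star_star] at this
    exact this.symm
  let q : I → Fin (Fintype.card I + 1) := fun ω => (Fintype.equivFin I ω).castSucc
  have hq : Function.Injective q :=
    (Fin.castSucc_injective _).comp (Fintype.equivFin I).injective
  refine ⟨e, fun ω => v (q ω), h1, h2, hs, fun j ω => ⟨h3 _ (Or.inl ⟨(j, ω), rfl⟩), ?_⟩,
    fun i x => ?_, fun ω => h4 _, fun ω i x => ?_, fun ω => h6 _, fun ω => h7 _,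
    fun ω ω' k hk h => h8 _ _ k hk (h.imp_left fun h' h'' => h' (hq h''))⟩
  · have := congrArg star (h3 _ (Or.inr (Or.inl ⟨(j, ω), rfl⟩)))
    simpa only [star_mul, star_star, hs] using this
  · have h9 : Commute (X.Φ i x - X.Φ X.i₀ x) e := (hΦ' i x).trans (hΦ i x).symm
    simpa using h9.add_left (he0 x)
  · have h9 : (X.Φ i x - X.Φ X.i₀ x) * v (q ω) = 0 := by
      rw [← hΦ' i x, mul_assoc, h6, mul_zero]
    rw [sub_mul, sub_eq_zero] at h9
    exact h9.trans (h5 _ x).symm.eq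

theorem coherent (n₀ : ℕ) : ∃ Λ : ℝ, 0 < Λ ∧ ∀ (W : Finset G) (s : Finset D) (ε : ℝ), 0 < ε →
    ∃ f : ι → (G → ℝ) → A, IsCohR X n₀ Λ W s ε f := by
  classical
  refine ⟨8 * |X.L| * (n₀ + 1) ^ 2 + 1, by positivity, fun W s ε hε => ?_⟩
  obtain ⟨r, hr⟩ := exists_gap G n₀
  obtain ⟨lab, ob, C, H, hsec, -, hl2, hl3⟩ := exists_sec (I := Finset G)
    (fun (g : G) (B : Finset G) => g • B) (one_smul G) (fun g h z => smul_smul g h z) id ∅
    fun B hB => finite_stab_finset hB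
  obtain ⟨p, hp1, hp2, hp3⟩ := X.exists_family
  obtain ⟨sel, hs1, hs2⟩ := xk3_exists_sel hr
  obtain ⟨D0, hD0, hD⟩ := TopologicalSpace.exists_countable_dense D
  obtain ⟨q, hq1, hq2, hq3⟩ := X.rok.levels hsec
    (T := X.T' ∪ ((⋃ i, X.Φ i '' D0) ∪ ⋃ n, p n '' D0))
    (X.count.union ((Set.countable_iUnion fun i => hD0.image _).union
      (Set.countable_iUnion fun i => hD0.image _)))
  obtain ⟨E, hE⟩ : ∃ E : Finset G → G → A, ∀ B, E B = fun g => X.γ g (q B.card (ob B)) :=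
    ⟨_, fun _ => rfl⟩
  have hEu : ∀ B, B ≠ ∅ → IsPU (C B) (E B) := fun B hB => by rw [hE]; exact hq2 _ B hB
  have hEm : ∀ B g, E B g ∈ cent X.T' := fun B g => by
    rw [hE]
    exact cent_anti (Set.subset_union_left.trans (subset_orb _ _)) (hq1 _ _ g)
  have hne : ∀ n y, r (sel n y) y ≠ 0 → sel n y ≠ ∅ := fun n y h h2 => by
    rw [h2] at h
    exact h (hr.empty y)
  have hob : ∀ (k : G) B, ob (k • B) = ob B := fun k B => hl2 B _ k rfl
  have hCa : ∀ (k : G) B, B ≠ ∅ → ∀ g, g ∈ C (k • B) ↔ k⁻¹ * g ∈ C B := fun k B hB g => by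
    rw [hl3 _ (by simpa using hB), hl3 _ hB, hob, mul_smul, inv_smul_eq_iff]
    rfl
  have hEa : ∀ (k : G) B g, X.γ k (E B g) = E (k • B) (k * g) := fun k B g => by
    simp only [hE, hob, act_act, Finset.card_smul_finset]
  choose χ0 hal0 hbe0 using fun (j : ι) (n : ℕ) =>
    X.S.univ A (X.Φ j) (p n) fun x y => hp2 n y j x
  obtain ⟨χ, hχ⟩ : ∃ χ : ι → Finset G × G → D →⋆ₐ[ℂ] A,
      ∀ i B d, χ i B d = X.γ B.2 (χ0 (B.2⁻¹ • i) B.1.card d) :=
    ⟨fun i B => (X.γ B.2 : A →⋆ₐ[ℂ] A).comp (χ0 (B.2⁻¹ • i) B.1.card), fun _ _ _ => rfl⟩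
  obtain ⟨P, hP⟩ : ∃ P : Finset G × G → D →⋆ₐ[ℂ] A, ∀ B d, P B d = X.γ B.2 (p B.1.card d) :=
    ⟨fun B => (X.γ B.2 : A →⋆ₐ[ℂ] A).comp (p B.1.card), fun _ _ => rfl⟩
  have hal : ∀ i B x, χ i B (X.S.al x) = X.Φ i (X.ρ B.2 x) := by
    intro i B x
    rw [hχ, hal0, ← X.Φ_act, smul_inv_smul]
  have hbe : ∀ i B x, χ i B (X.S.be x) = P B x := by
    intro i B x
    rw [hχ, hbe0, hP]
  have hPm : ∀ B x, P B x ∈ cent X.T' := by
    intro B x
    rw [hP]
    exact act_mem_cent X.γ _ (X.inv' _) (hp1 _ x)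
  have hχm : ∀ i B d, χ i B d ∈ cent X.T' := fun i B d =>
    X.S.map_mem (χ i B) (isClosed_cent _) (fun x => by rw [hal]; exact X.Φ_mem i _)
      (fun x => by rw [hbe]; exact hPm B x) d
  have hχs : ∀ i j B d, χ i B d - χ j B d ∈ X.N := by
    intro i j B d
    refine X.S.sub_mem _ _ X.idl.closed (fun x y => ?_) d
    rw [hal, hal, hbe, hbe, ← sub_mul]
    exact X.idl.mul_mem_right (X.xk3_Φ_sub i j _) (hPm B y)
  have hχa : ∀ (k : G) i B g d, X.γ k (χ i (B, g) d) = χ (k • i) (k • B, k * g) d := by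
    intro k i B g d
    rw [hχ, hχ, act_act, Finset.card_smul_finset, mul_inv_rev, mul_smul, inv_smul_smul]
  have hS : ∀ F : D → A, Continuous F → (∀ z ∈ D0, F z ∈
      orb X.γ (X.T' ∪ ((⋃ i, X.Φ i '' D0) ∪ ⋃ n, p n '' D0))) → ∀ z,
      F z ∈ cent (Set.range fun B : Finset G × G => E B.1 B.2) := by
    intro F hF h z
    rw [mem_cent]
    rintro _ ⟨B, rfl⟩
    have h1 := hq1 B.1.card (ob B.1) B.2
    simp only [hE]
    exact ⟨(xk3_commute_dense hD hF (fun w hw => (mem_cent.1 h1 _ (h w hw)).1) z).symm,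
      (xk3_commute_dense hD hF (fun w hw => (mem_cent.1 (star_mem h1) _ (h w hw)).1) z).symm⟩
  have hΦS : ∀ i z, X.Φ i z ∈ cent (Set.range fun B : Finset G × G => E B.1 B.2) := fun i =>
    hS _ (hom_continuous _) fun z hz =>
      subset_orb _ _ (Or.inr (Or.inl (Set.mem_iUnion.2 ⟨i, z, hz, rfl⟩)))
  have hχS : ∀ i B d, χ i B d ∈ cent (Set.range fun B : Finset G × G => E B.1 B.2) :=
    fun i B d => X.S.map_mem (χ i B) (isClosed_cent _) (fun x => by rw [hal]; exact hΦS i _)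
      (fun x => by
        rw [hbe]
        refine hS _ (hom_continuous _) (fun z hz => ?_) x
        rw [hP]
        exact ⟨_, _, Or.inr (Or.inr (Set.mem_iUnion.2 ⟨_, z, hz, rfl⟩)), rfl⟩) d
  have hSE : ∀ B g, ∀ x ∈ cent (Set.range fun B : Finset G × G => E B.1 B.2), Commute x (E B g) :=
    fun B g x hx => (mem_cent.1 hx _ ⟨(B, g), rfl⟩).1
  have hex : ∀ (ff : G → ι) (B : Finset G), ∃ φ : D →⋆ₐ[ℂ] A,
      B ≠ ∅ → ∀ d, φ d = gl (C B) (E B) fun g => χ (ff g) (B, g) d := fun ff B => by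
    by_cases hB : B = ∅
    · exact ⟨X.Φ X.i₀, fun h => absurd hB h⟩
    · obtain ⟨φ, hφ⟩ := (hEu B hB).exists_hom (fun g => χ (ff g) (B, g)) (X.Φ X.i₀)
        (fun g _ d => hSE B g _ (hχS _ _ _)) fun g _ d => hSE B g _ (hΦS _ _)
      exact ⟨φ, fun _ => hφ⟩
  choose ψ hψ using hex
  obtain ⟨w, hw, hcoh⟩ := X.S.coh X.path X.Φ P (fun B => X.ρ B.2) χ (fun B => B.1.card) hal hbe
    (fun α β hab x y => by rw [hP, hP]; exact hp3 _ _ hab _ _ x y)
    (W.powerset.biUnion fun B => (C B).image fun g => (B, g)) (n₀ + 1) s hε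
  obtain ⟨a, ha⟩ : ∃ a : (G → ι) → (G → ℝ) → ℕ → A,
      ∀ ff y, a ff y = fun n => ψ ff (sel n y) (w n (r (sel n y) y)) :=
    ⟨_, fun _ _ => rfl⟩
  have ha0 : ∀ ff y n, r (sel n y) y = 0 → a ff y n = 1 := fun ff y n h => by
    simp only [ha, h, (hw n).zero, map_one]
  have ha1 : ∀ ff y n, r (sel n y) y ≠ 0 → a ff y n = gl (C (sel n y)) (E (sel n y))
      fun g => χ (ff g) (sel n y, g) (w n (r (sel n y) y)) := fun ff y n h => by
    rw [ha]
    exact hψ _ _ (hne n y h) _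
  have hau : ∀ ff y n, a ff y n ∈ unitary A := fun ff y n => by
    rw [ha]
    exact xk3_map_unitary _ ((hw n).unit _)
  have ham : ∀ ff y n, a ff y n ∈ cent X.T' := fun ff y n => by
    by_cases h : r (sel n y) y = 0
    · rw [ha0 _ _ _ h]
      exact one_mem _
    · rw [ha1 _ _ _ h]
      exact gl_mem (fun g _ => hEm _ g) fun g _ => hχm _ _ _
  have has : ∀ ff ff' y n, a ff y n - a ff' y n ∈ X.N := fun ff ff' y n => by
    by_cases h : r (sel n y) y = 0
    · rw [ha0 _ _ _ h, ha0 _ _ _ h, sub_self]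
      exact zero_mem _
    · rw [ha1 _ _ _ h, ha1 _ _ _ h, gl_sub]
      exact sum_mem fun g _ => X.idl.mul_mem_right (hχs _ _ _ _) (hEm _ g)
  have haa : ∀ (k : G) (ff ff' : G → ι), (∀ g, ff' (k * g) = k • ff g) →
      ∀ y, U01 y → (fun n => X.γ k (a ff y n)) = a ff' (sh k y) := by
    intro k ff ff' hff y hy
    funext n
    by_cases h0 : r (sel n y) y = 0
    · have h1 : r (sel n (sh k y)) (sh k y) = 0 := by
        by_contra h1
        have h2 : r (k⁻¹ • sel n (sh k y)) y ≠ 0 := by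
          rw [← hr.act k, smul_inv_smul]
          exact h1
        have h3 := hs2 n y _ hy (by rw [Finset.card_smul_finset]; exact hs1 n _ h1) h2
        rw [← h3] at h2
        exact h2 h0
      rw [ha0 _ _ _ h0, ha0 _ _ _ h1, map_one]
    · have h1 : sel n (sh k y) = k • sel n y :=
        hs2 n _ _ (hy.sh k) (by rw [Finset.card_smul_finset]; exact hs1 n y h0)
          (by rw [hr.act]; exact h0)
      rw [ha1 _ _ _ h0, ha1 _ _ _ (by rw [h1, hr.act]; exact h0), h1, hr.act]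
      exact act_gl X.γ k (hCa k _ (hne n y h0)) (fun g _ => hEa k _ g)
        fun g _ => by rw [hχa, hff]
  have hal' : ∀ ff y y' (d : ℝ), U01 y → U01 y' → (∀ x, |y x - y' x| ≤ d) →
      ‖dprod (a ff y) (n₀ + 1) - dprod (a ff y') (n₀ + 1)‖ ≤
        ((n₀ + 1 : ℕ) : ℝ) * (4 * |X.L| * (n₀ + 1) * d) := by
    intro ff y y' d hy hy' hd
    refine norm_dprod_sub_le (hau ff y) (hau ff y') (fun n => ?_) _
    rw [ha, ha]
    exact xk3_factor_lip hr (hs1 n) (hs2 n) (hw n) (ψ ff) hy hy' hd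
  refine ⟨fun i y => star (dprod (a (fun g => g • X.i₀) y) (n₀ + 1)) *
    dprod (a (fun _ => i) y) (n₀ + 1), ?_, ?_, ?_, ?_, ?_, ?_⟩
  · intro i y
    exact mul_mem (Unitary.star_mem (dprod_unitary (hau _ y) _)) (dprod_unitary (hau _ y) _)
  · intro i y
    exact mul_mem (star_mem (dprod_mem (ham _ y) _)) (dprod_mem (ham _ y) _)
  · intro i y
    exact xk3_sub_one X.idl (dprod_unitary (hau _ y) _) (dprod_mem (ham _ y) _)
      (X.idl.dprod_sub_mem (ham _ y) (ham _ y) (has _ _ y) _)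
  · intro g i y hy
    rw [map_mul, map_star, dprod_map, dprod_map,
      haa g (fun k => k • X.i₀) (fun k => k • X.i₀) (fun k => mul_smul _ _ _) y hy,
      haa g (fun _ => i) (fun _ => g • i) (fun _ => rfl) y hy]
  · intro i y y' d hy hy' hd
    have hd0 : 0 ≤ d := (abs_nonneg _).trans (hd 1)
    refine (xk3_star_mul_sub (dprod_unitary (hau _ y) _) (dprod_unitary (hau _ y') _)).trans ?_
    have h1 := hal' (fun k => k • X.i₀) y y' d hy hy' hd
    have h2 := hal' (fun _ => i) y y' d hy hy' hd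
    push_cast at h1 h2
    nlinarith [h1, h2, hd0]
  · intro y hy hg hW i i' x hx
    rw [xk3_conj_sub (dprod_unitary (hau _ y) _)]
    have key := atoms (cent (Set.range fun B : Finset G × G => E B.1 B.2))
      (fun n => r (sel n y) y ≠ 0) (fun n => C (sel n y)) (fun n => E (sel n y))
      (fun n g => χ i (sel n y, g) (w n (r (sel n y) y)))
      (fun n g => χ i' (sel n y, g) (w n (r (sel n y) y))) (a (fun _ => i) y) (a (fun _ => i') y)
      (fun n hn => hEu _ (hne n y hn)) (fun n _ g => hSE _ g)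
      (fun n m hn hm hnm g h => by
        simp only [hE]
        exact hq3 _ _ (by rwa [hs1 n y hn, hs1 m y hm]) _ _ _ _)
      (fun n g => hχS _ _ _) (fun n g => hχS _ _ _)
      (fun n hn => ⟨ha1 _ _ _ hn, ha1 _ _ _ hn⟩)
      (fun n hn g => by
        have h0 := not_not.1 hn
        simp only [ha0 _ _ _ h0, h0, (hw n).zero, map_one, and_self])
      (hΦS i x) (hΦS i' x) hε.le 1 (n₀ + 1) 1 (one_mem _) 1 (one_mem _) (fun k hk => ?_)
    · simpa only [one_mul] using key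
    have h1 : ∀ j, dprod (fun m => χ j (sel m y, k m) (w m (r (sel m y) y))) (n₀ + 1) =
        dprod (fun m => χ j (sel m y, if m < n₀ + 1 then k m else lab (sel m y))
          (w m (r (sel m y) y))) (n₀ + 1) := fun j =>
      xk2_dprod_congr _ fun m hm => by rw [if_pos hm]
    rw [one_mul, one_mul, h1, h1]
    refine hcoh (fun m => (sel m y, if m < n₀ + 1 then k m else lab (sel m y)))
      (fun n => r (sel n y) y) (fun n => hr.mem _ y)
      (fun n hn => ⟨Finset.mem_biUnion.2 ⟨sel n y, ?_, Finset.mem_image_of_mem _ ?_⟩,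
        hs1 n y hn⟩) ?_ i i' x hx
    · rw [Finset.mem_powerset]
      intro z hz
      by_contra hzW
      exact hr.supp _ y hy hn z hz (hW z hzW)
    · split_ifs with h
      · exact hk n h hn
      · rw [hsec.mem _ (hne n y hn), inv_mul_cancel]
        exact one_mem _
    · obtain ⟨B, hB, hB1⟩ := hr.good y hy hg
      refine ⟨B.card, Nat.lt_succ_of_le hB, ?_⟩
      rw [hs2 _ y B hy rfl (by rw [hB1]; exact one_ne_zero), hB1]

end UCR

end Pool.Agent.Izumi
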