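import Pool.Agent.Lib.MP_b2135d_an.XDefs
import Pool.Agent.Lib.MP_b2135d_an.CB2

/-! Automorphisms that move almost central elements slowly (section N0, S6). -/

namespace Pool.Agent.Izumi

open scoped ComplexOrder
open Filter Topology

variable {D : Type} [CStarAlgebra D]

/-- A seminorm dominated by the norm and compatible with multiplication. -/
structure WSemi (nn : D → ℝ) : Prop where
  add_le : ∀ x y, nn (x + y) ≤ nn x + nn y
  left : ∀ a x, ‖a‖ ≤ 1 → nn (a * x) ≤ nn x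
  right : ∀ x a, ‖a‖ ≤ 1 → nn (x * a) ≤ nn x

/-- Almost central contractions are moved by an arbitrarily small amount. -/
def Slow (nn : D → ℝ) (θ : D ≃⋆ₐ[ℂ] D) : Prop :=
  ∀ δ : ℝ, 0 < δ → ∃ (s : Finset D) (ε : ℝ), 0 < ε ∧ ∀ y : D, ‖y‖ ≤ 1 →
    (∀ a ∈ s, ‖y * a - a * y‖ ≤ ε) → nn (θ y - y) ≤ δ

theorem wn_norm_un {u : D} (hu : u ∈ unitary D) : ‖u‖ ≤ 1 := by
  rcases subsingleton_or_nontrivial D with h | h
  · simp [Subsingleton.elim u 0]
  · exact (CStarRing.norm_of_mem_unitary hu).le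

theorem wn_norm_star_un {u : D} (hu : u ∈ unitary D) : ‖star u‖ ≤ 1 := by
  rw [norm_star]; exact wn_norm_un hu

theorem wn_mul3 {a b : D} (ha : ‖a‖ ≤ 1) (hb : ‖b‖ ≤ 1) (x : D) : ‖a * x * b‖ ≤ ‖x‖ := by
  refine (norm_mul_le _ _).trans ((mul_le_of_le_one_right (norm_nonneg _) hb).trans ?_)
  exact (norm_mul_le _ _).trans (mul_le_of_le_one_left (norm_nonneg _) ha)

theorem wsemi_norm : WSemi (fun x : D => ‖x‖) where
  add_le := norm_add_le
  left _ _ ha := (norm_mul_le _ _).trans (mul_le_of_le_one_left (norm_nonneg _) ha)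
  right _ _ ha := (norm_mul_le _ _).trans (mul_le_of_le_one_right (norm_nonneg _) ha)

/-- The real part. -/
noncomputable def wnRe (y : D) : D := (2 : ℂ)⁻¹ • (y + star y)

theorem wnRe_sa (y : D) : IsSelfAdjoint (wnRe y) := by
  simp [wnRe, IsSelfAdjoint, add_comm]

theorem wnRe_norm (y : D) : ‖wnRe y‖ ≤ ‖y‖ := by
  have := norm_add_le y (star y)
  rw [norm_star] at this
  rw [wnRe, norm_smul, norm_inv, Complex.norm_two]
  linarith

theorem wnRe_add (y : D) : y = wnRe y + Complex.I • wnRe (-Complex.I • y) := by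
  simp only [wnRe, star_smul, star_neg, Complex.star_def, Complex.conj_I, neg_neg, smul_add,
    smul_smul]
  have h1 : Complex.I * ((2 : ℂ)⁻¹ * -Complex.I) = 2⁻¹ := by
    linear_combination (-(2 : ℂ)⁻¹) * Complex.I_mul_I
  have h2 : Complex.I * ((2 : ℂ)⁻¹ * Complex.I) = -2⁻¹ := by
    linear_combination ((2 : ℂ)⁻¹) * Complex.I_mul_I
  rw [h1, h2]
  module

theorem wnRe_comm {y a : D} {ε : ℝ} (h1 : ‖y * a - a * y‖ ≤ ε)
    (h2 : ‖y * star a - star a * y‖ ≤ ε) : ‖wnRe y * a - a * wnRe y‖ ≤ ε := by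
  have e : wnRe y * a - a * wnRe y =
      (2 : ℂ)⁻¹ • ((y * a - a * y) - star (y * star a - star a * y)) := by
    simp only [wnRe, smul_mul_assoc, mul_smul_comm, star_sub, star_mul, star_star, ← smul_sub]
    congr 1
    noncomm_ring
  have h3 := norm_sub_le (y * a - a * y) (star (y * star a - star a * y))
  rw [norm_star] at h3
  rw [e, norm_smul, norm_inv, Complex.norm_two]
  linarith

theorem wn_norm_negI (y : D) : ‖-Complex.I • y‖ = ‖y‖ := by
  rw [norm_smul, norm_neg, Complex.norm_I, one_mul]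

theorem WSemi.smul_I {nn : D → ℝ} (hn : WSemi nn) (x : D) : nn (Complex.I • x) ≤ nn x := by
  rcases subsingleton_or_nontrivial D with h | h
  · rw [Subsingleton.elim (Complex.I • x) x]
  · have := hn.left (Complex.I • (1 : D)) x (by simp [norm_smul])
    rwa [smul_mul_assoc, one_mul] at this

theorem slow_of_not {nn : D → ℝ} (hn : WSemi nn) (θ : D ≃⋆ₐ[ℂ] D)
    (h : ¬ ∃ δ : ℝ, 0 < δ ∧ ∀ (s : Finset D) (ε : ℝ), 0 < ε → ∃ y : D, IsSelfAdjoint y ∧ ‖y‖ ≤ 1 ∧
      (∀ a ∈ s, ‖y * a - a * y‖ ≤ ε) ∧ δ ≤ nn (θ y - y)) : Slow nn θ := by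
  classical
  intro δ hδ
  push Not at h
  obtain ⟨s, ε, hε, hs⟩ := h (δ / 2) (half_pos hδ)
  refine ⟨s ∪ s.image star, ε, hε, fun y hy hc => ?_⟩
  have key : ∀ w : D, ‖w‖ ≤ 1 → (∀ a ∈ s ∪ s.image star, ‖w * a - a * w‖ ≤ ε) →
      nn (θ (wnRe w) - wnRe w) < δ / 2 := fun w hw hw' =>
    hs _ (wnRe_sa w) ((wnRe_norm w).trans hw) fun a ha =>
      wnRe_comm (hw' a (Finset.mem_union_left _ ha))
        (hw' _ (Finset.mem_union_right _ (Finset.mem_image_of_mem star ha)))
  have h1 := key y hy hc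
  have h2 := key (-Complex.I • y) (by rwa [wn_norm_negI]) fun a ha => by
    rw [smul_mul_assoc, mul_smul_comm, ← smul_sub, wn_norm_negI]
    exact hc a ha
  have e : θ y - y = (θ (wnRe y) - wnRe y) +
      Complex.I • (θ (wnRe (-Complex.I • y)) - wnRe (-Complex.I • y)) := by
    conv_lhs => rw [wnRe_add y]
    rw [map_add, map_smul, smul_sub]
    abel
  rw [e]
  linarith [hn.add_le (θ (wnRe y) - wnRe y)
    (Complex.I • (θ (wnRe (-Complex.I • y)) - wnRe (-Complex.I • y))),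
    hn.smul_I (θ (wnRe (-Complex.I • y)) - wnRe (-Complex.I • y))]

/-- A tensor splitting whose second leg is almost central. -/
theorem exists_central (S : DData D)
    (au : ∀ (p : D →⋆ₐ[ℂ] D) (s : Finset D) (ε : ℝ), 0 < ε →
      ∃ u ∈ unitary D, ∀ x ∈ s, ‖u * x * star u - p x‖ ≤ ε)
    (s : Finset D) {ε : ℝ} (hε : 0 < ε) :
    ∃ io ka : D →⋆ₐ[ℂ] D, (∀ x y, Commute (io x) (ka y)) ∧
      Dense ((Submodule.span ℂ {z : D | ∃ x y, z = io x * ka y} : Submodule ℂ D) : Set D) ∧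
        ∀ x, ‖x‖ ≤ 1 → ∀ a ∈ s, ‖ka x * a - a * ka x‖ ≤ ε := by
  obtain ⟨v, hv, hs⟩ := au S.al s (ε / 2) (half_pos hε)
  let σ : D ≃⋆ₐ[ℂ] D := (Unitary.conjStarAlgAut ℂ D ⟨v, hv⟩).symm
  have hσ : ∀ x, σ x = star v * x * v := fun _ => rfl
  have h1 : star v * v = 1 := (Unitary.mem_iff.1 hv).1
  refine ⟨(σ : D →⋆ₐ[ℂ] D).comp S.al, (σ : D →⋆ₐ[ℂ] D).comp S.be,
    fun x y => (S.comm x y).map σ, ?_, fun x hx a ha => ?_⟩
  · refine (σ.surjective.denseRange.dense_image (aut_continuous σ) S.dense).mono ?_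
    rintro _ ⟨z, hz, rfl⟩
    change σ z ∈ _
    induction hz using Submodule.span_induction with
    | mem z hz =>
      obtain ⟨x, y, rfl⟩ := hz
      exact Submodule.subset_span ⟨x, y, map_mul σ _ _⟩
    | zero => rw [map_zero]; exact zero_mem _
    | add z w _ _ hz hw => rw [map_add]; exact add_mem hz hw
    | smul c z _ hz => rw [map_smul]; exact Submodule.smul_mem _ c hz
  · change ‖σ (S.be x) * a - a * σ (S.be x)‖ ≤ ε
    have h2 : ‖a - σ (S.al a)‖ ≤ ε / 2 := by
      have e : a - σ (S.al a) = star v * (v * a * star v - S.al a) * v := by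
        rw [hσ, mul_sub, sub_mul]
        congr 1
        simp only [← mul_assoc, h1, one_mul]
        rw [mul_assoc, h1, mul_one]
      rw [e]
      exact (wn_mul3 (wn_norm_star_un hv) (wn_norm_un hv) _).trans (hs a ha)
    have h3 : ‖σ (S.be x)‖ ≤ 1 := by
      rw [StarAlgEquiv.norm_map]
      exact (NonUnitalStarAlgHom.norm_apply_le S.be x).trans hx
    have e : σ (S.be x) * a - a * σ (S.be x) =
        σ (S.be x) * (a - σ (S.al a)) - (a - σ (S.al a)) * σ (S.be x) := by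
      rw [mul_sub, sub_mul, ((S.comm a x).map σ).eq]
      abel
    rw [e]
    have h4 := wsemi_norm.left _ (a - σ (S.al a)) h3
    have h5 := wsemi_norm.right (a - σ (S.al a)) _ h3
    linarith [norm_sub_le (σ (S.be x) * (a - σ (S.al a))) ((a - σ (S.al a)) * σ (S.be x))]

theorem exists_au_seq [TopologicalSpace.SeparableSpace D]
    (au : ∀ (p : D →⋆ₐ[ℂ] D) (s : Finset D) (ε : ℝ), 0 < ε →
      ∃ u ∈ unitary D, ∀ x ∈ s, ‖u * x * star u - p x‖ ≤ ε) (p : D →⋆ₐ[ℂ] D) :
    ∃ u : ℕ → D, (∀ n, u n ∈ unitary D) ∧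
      ∀ x, ∀ ε : ℝ, 0 < ε → ∀ᶠ n in atTop, ‖u n * x * star (u n) - p x‖ ≤ ε := by
  classical
  choose u hu hu' using fun n : ℕ => au p
    ((Finset.range (n + 1)).image (TopologicalSpace.denseSeq D)) (1 / (n + 1))
    Nat.one_div_pos_of_nat
  refine ⟨u, hu, fun x ε hε => ?_⟩
  obtain ⟨k, hk⟩ := (TopologicalSpace.denseRange_denseSeq D).exists_dist_lt x
    (show 0 < ε / 3 by positivity)
  rw [dist_eq_norm] at hk
  obtain ⟨N, hN⟩ := exists_nat_one_div_lt (show 0 < ε / 3 by positivity)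
  filter_upwards [eventually_ge_atTop N, eventually_ge_atTop k] with n hn hn'
  set d := TopologicalSpace.denseSeq D k
  have h1 := hu' n d (Finset.mem_image_of_mem _ (Finset.mem_range.2 (Nat.lt_succ_of_le hn')))
  have h2 : (1 : ℝ) / (n + 1) ≤ 1 / (N + 1) := Nat.one_div_le_one_div hn
  have e : u n * x * star (u n) - p x =
      u n * (x - d) * star (u n) + (u n * d * star (u n) - p d) - p (x - d) := by
    rw [map_sub]; noncomm_ring
  have h3 := wn_mul3 (wn_norm_un (hu n)) (wn_norm_star_un (hu n)) (x - d)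
  have h4 := NonUnitalStarAlgHom.norm_apply_le p (x - d)
  rw [e]
  linarith [norm_sub_le (u n * (x - d) * star (u n) + (u n * d * star (u n) - p d)) (p (x - d)),
    norm_add_le (u n * (x - d) * star (u n)) (u n * d * star (u n) - p d)]

/-- The unitaries that intertwine `θ ∘ ka` and `ka ∘ θ`. -/
theorem exists_z [TopologicalSpace.SeparableSpace D]
    (au : ∀ (p : D →⋆ₐ[ℂ] D) (s : Finset D) (ε : ℝ), 0 < ε →
      ∃ u ∈ unitary D, ∀ x ∈ s, ‖u * x * star u - p x‖ ≤ ε)
    {nn : D → ℝ} (hn : WSemi nn) {θ : D ≃⋆ₐ[ℂ] D} (hs : Slow nn θ) (ka : D →⋆ₐ[ℂ] D) :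
    ∃ z : ℕ → D, (∀ n, z n ∈ unitary D) ∧
      (∀ ε : ℝ, 0 < ε → ∃ N, ∀ n ≥ N, ∀ m ≥ N, nn (z n - z m) ≤ ε) ∧
        ∀ x, Tendsto (fun n => ‖θ (ka x) * z n - z n * ka (θ x)‖) atTop (𝓝 0) := by
  obtain ⟨u, hu, hu'⟩ := exists_au_seq au ka
  have h1 : ∀ n, star (u n) * u n = 1 := fun n => (Unitary.mem_iff.1 (hu n)).1
  have h2 : ∀ n, u n * star (u n) = 1 := fun n => (Unitary.mem_iff.1 (hu n)).2
  have h3 : ∀ n, θ (u n) ∈ unitary D := fun n => Unitary.mem_iff.2
    ⟨by rw [← map_star, ← map_mul, h1, map_one], by rw [← map_star, ← map_mul, h2, map_one]⟩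
  have hz : ∀ n, θ (u n) * star (u n) ∈ unitary D := fun n =>
    mul_mem (h3 n) (Unitary.star_mem (hu n))
  refine ⟨fun n => θ (u n) * star (u n), hz, fun δ hδ => ?_, fun x => ?_⟩
  · obtain ⟨s, ε, hε, h⟩ := hs δ hδ
    obtain ⟨N, hN⟩ := eventually_atTop.1
      ((eventually_all_finset s).2 fun a _ => hu' a (ε / 2) (half_pos hε))
    refine ⟨N, fun n hn' m hm => ?_⟩
    have h4 := h (star (u m) * u n) (wn_norm_un (mul_mem (Unitary.star_mem (hu m)) (hu n)))
      fun a ha => by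
        have e : star (u m) * u n * a - a * (star (u m) * u n) = star (u m) *
            ((u n * a * star (u n) - ka a) - (u m * a * star (u m) - ka a)) * u n := by
          rw [sub_sub_sub_cancel_right, mul_sub, sub_mul]
          congr 1
          · simp only [mul_assoc, h1, mul_one]
          · simp only [← mul_assoc, h1, one_mul]
        rw [e]
        refine (wn_mul3 (wn_norm_star_un (hu m)) (wn_norm_un (hu n)) _).trans
          ((norm_sub_le _ _).trans ?_)
        linarith [hN n hn' a ha, hN m hm a ha]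
    have e : θ (u n) * star (u n) - θ (u m) * star (u m) =
        θ (u m) * (θ (star (u m) * u n) - star (u m) * u n) * star (u n) := by
      rw [mul_sub, sub_mul, ← map_mul, ← mul_assoc, h2, one_mul, mul_assoc, mul_assoc, h2, mul_one]
    rw [e]
    exact ((hn.right _ _ (wn_norm_star_un (hu n))).trans (hn.left _ _ (wn_norm_un (h3 m)))).trans h4
  · refine tendsto_order.2 ⟨fun a ha => Eventually.of_forall fun n => ha.trans_le (norm_nonneg _),
      fun ε hε => ?_⟩
    filter_upwards [hu' x (ε / 3) (by positivity), hu' (θ x) (ε / 3) (by positivity)] with n h4 h5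
    have e : θ (ka x) * (θ (u n) * star (u n)) - θ (u n) * star (u n) * ka (θ x) =
        θ (u n) * star (u n) * (u n * θ x * star (u n) - ka (θ x)) -
          θ (u n * x * star (u n) - ka x) * (θ (u n) * star (u n)) := by
      have e1 : θ (u n * x * star (u n)) * (θ (u n) * star (u n)) = θ (u n) * θ x * star (u n) := by
        rw [← mul_assoc, ← map_mul, mul_assoc _ (star (u n)), h1, mul_one, map_mul]
      have e2 : θ (u n) * star (u n) * (u n * θ x * star (u n)) = θ (u n) * θ x * star (u n) := by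
        rw [mul_assoc, ← mul_assoc (star (u n)), ← mul_assoc (star (u n)), h1, one_mul, mul_assoc]
      rw [map_sub, sub_mul, mul_sub, e1, e2]
      abel
    have h6 := wsemi_norm.left _ (u n * θ x * star (u n) - ka (θ x)) (wn_norm_un (hz n))
    have h7 := wsemi_norm.right (θ (u n * x * star (u n) - ka x)) _ (wn_norm_un (hz n))
    rw [StarAlgEquiv.norm_map] at h7
    rw [e]
    linarith [norm_sub_le (θ (u n) * star (u n) * (u n * θ x * star (u n) - ka (θ x)))
      (θ (u n * x * star (u n) - ka x) * (θ (u n) * star (u n)))]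

end Pool.Agent.Izumi
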