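import Pool.Agent.Lib.MP_b2135d_an.NC
import Pool.Agent.Lib.MP_b2135d_an.WN0

/-! Not inner on the weak closure implies centrally nontrivial in the 2-norm (section N1). -/

namespace Pool.Agent.Izumi

open scoped ComplexOrder
open Filter Topology

variable {B : Type} [CStarAlgebra B] [PartialOrder B] [StarOrderedRing B] {τ : B →ₚ[ℂ] ℂ}

theorem wn_scalar (h : IsTracialState τ)
    (utr : ∀ f : B →L[ℂ] ℂ, (∀ x y, f (x * y) = f (y * x)) → ∀ x, f x = f 1 * τ x)
    (y : ℕ → B) (L : τ.GNS →L[ℂ] τ.GNS)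
    (hL : ∀ ξ, Tendsto (fun n => τ.gnsStarAlgHom (y n) ξ) atTop (𝓝 (L ξ)))
    (hcomm : ∀ x, star L * L * τ.gnsStarAlgHom x = τ.gnsStarAlgHom x * (star L * L)) :
    star L * L = ((‖L (ncVec τ 1)‖ : ℂ) ^ 2) • (1 : τ.GNS →L[ℂ] τ.GNS) := by
  set S := star L * L with hS
  have hπ : Continuous (τ.gnsStarAlgHom : B → (τ.GNS →L[ℂ] τ.GNS)) :=
    hom_continuous τ.gnsStarAlgHom
  have hin : ∀ ξ η, inner ℂ ξ (S η) = inner ℂ (L ξ) (L η) := by
    intro ξ η
    rw [hS, mul_apply_eq_comp, ContinuousLinearMap.star_eq_adjoint,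
      ContinuousLinearMap.adjoint_inner_right]
  have hlim : ∀ a b : B, Tendsto (fun n => τ (star (y n * a) * (y n * b))) atTop
      (𝓝 (inner ℂ (ncVec τ a) (S (ncVec τ b)))) := by
    intro a b
    rw [hin]
    refine ((hL (ncVec τ a)).inner (𝕜 := ℂ) (hL (ncVec τ b))).congr fun n => ?_
    rw [ncVec_act, ncVec_act, ncVec_inner]
  have hmove : ∀ a b : B, inner ℂ (ncVec τ a) (S (ncVec τ b)) =
      inner ℂ (ncVec τ 1) (S (ncVec τ (star a * b))) := by
    intro a b
    have e1 : S (ncVec τ (star a * b)) = τ.gnsStarAlgHom (star a) (S (ncVec τ b)) := by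
      rw [← ncVec_act, ← mul_apply_eq_comp, hcomm, mul_apply_eq_comp]
    rw [e1, map_star, ContinuousLinearMap.star_eq_adjoint,
      ContinuousLinearMap.adjoint_inner_right, ncVec_act, mul_one]
  let f : B →L[ℂ] ℂ :=
    { toFun := fun z => inner ℂ (ncVec τ 1) (S (τ.gnsStarAlgHom z (ncVec τ 1)))
      map_add' := fun z w => by
        rw [map_add, add_apply, map_add, inner_add_right]
      map_smul' := fun c z => by
        rw [map_smul, smul_apply, map_smul, inner_smul_right]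
        rfl
      cont := by
        refine continuous_const.inner (S.continuous.comp ?_)
        exact hπ.clm_apply continuous_const }
  have hf : ∀ z, f z = inner ℂ (ncVec τ 1) (S (ncVec τ z)) := by
    intro z
    change inner ℂ (ncVec τ 1) (S (τ.gnsStarAlgHom z (ncVec τ 1))) = _
    rw [ncVec_act, mul_one]
  have htr : ∀ z w, f (z * w) = f (w * z) := by
    intro z w
    have e1 := hlim 1 (z * w)
    have e2 := hlim (star w) z
    rw [hmove, star_star] at e2
    rw [hf, hf]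
    refine tendsto_nhds_unique e1 (e2.congr fun n => ?_)
    rw [star_mul, star_star, mul_one, mul_assoc w, h.2 w]
    simp only [mul_assoc]
  have h1 : f 1 = (‖L (ncVec τ 1)‖ : ℂ) ^ 2 := by
    rw [hf, hin, inner_self_eq_norm_sq_to_K]
    rfl
  refine nc_ext fun b => ?_
  refine ext_inner_left ℂ fun ξ => ?_
  have key : ∀ a, inner ℂ (ncVec τ a) (S (ncVec τ b)) =
      inner ℂ (ncVec τ a) ((((‖L (ncVec τ 1)‖ : ℂ) ^ 2) • (1 : τ.GNS →L[ℂ] τ.GNS)) (ncVec τ b)) := by
    intro a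
    rw [hmove, ← hf, utr f htr, h1, smul_apply,
      one_apply_eq_self, inner_smul_right, ncVec_inner]
  exact congrFun (ncVec_dense.equalizer (continuous_id.inner continuous_const)
    (continuous_id.inner continuous_const) (funext key)) ξ

theorem wn_inner (h : IsTracialState τ)
    (utr : ∀ f : B →L[ℂ] ℂ, (∀ x y, f (x * y) = f (y * x)) → ∀ x, f x = f 1 * τ x)
    (θ : B ≃⋆ₐ[ℂ] B) (y : ℕ → B)
    {C c₀ : ℝ} (hc : 0 < c₀) (hC : ∀ n, ‖y n‖ ≤ C) (h0 : ∀ n, c₀ ≤ n2 τ (y n))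
    (hcau : ∀ ε : ℝ, 0 < ε → ∃ N, ∀ n ≥ N, ∀ m ≥ N, n2 τ (y n - y m) ≤ ε)
    (hint : ∀ x, Tendsto (fun n => n2 τ (θ x * y n - y n * x)) atTop (𝓝 0)) :
    InnerOnWeakClosure τ θ := by
  obtain ⟨L, hL⟩ := nc_strong_limit h y hC hcau
  obtain ⟨L', hL'⟩ := nc_strong_limit h (fun n => star (y n)) (C := C)
    (fun n => by rw [norm_star]; exact hC n) (fun ε hε => by
      obtain ⟨N, hN⟩ := hcau ε hε
      refine ⟨N, fun n hn m hm => ?_⟩
      rw [← star_sub, n2_star h]
      exact hN n hn m hm)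
  have hadj : L' = star L := by
    rw [ContinuousLinearMap.star_eq_adjoint, ContinuousLinearMap.eq_adjoint_iff]
    intro ξ η
    refine tendsto_nhds_unique ((hL' ξ).inner (𝕜 := ℂ) (tendsto_const_nhds (x := η))) ?_
    refine ((tendsto_const_nhds (x := ξ)).inner (𝕜 := ℂ) (hL η)).congr fun n => ?_
    rw [map_star, ContinuousLinearMap.star_eq_adjoint, ContinuousLinearMap.adjoint_inner_left]
  subst hadj
  have hI : ∀ x, τ.gnsStarAlgHom (θ x) * L = L * τ.gnsStarAlgHom x := by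
    intro x
    refine nc_ext fun b => ?_
    rw [mul_apply_eq_comp, mul_apply_eq_comp]
    have e1 := ((τ.gnsStarAlgHom (θ x)).continuous.tendsto _).comp (hL (ncVec τ b))
    have e2 := hL (τ.gnsStarAlgHom x (ncVec τ b))
    have e3 := e1.sub e2
    rw [← sub_eq_zero]
    refine tendsto_nhds_unique e3 ?_
    rw [tendsto_zero_iff_norm_tendsto_zero]
    have e4 := (hint x).mul_const ‖b‖
    rw [zero_mul] at e4
    refine squeeze_zero (fun n => norm_nonneg _) (fun n => ?_) e4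
    simp only [Function.comp_apply]
    rw [ncVec_act, ncVec_act, ncVec_act, ncVec_act, ← ncVec_sub, ncVec_norm, ← mul_assoc,
      ← mul_assoc, ← sub_mul]
    exact n2_mul_le_right h _ _
  have hI' : ∀ x, star L * τ.gnsStarAlgHom (θ x) = τ.gnsStarAlgHom x * star L := by
    intro x
    have := congrArg star (hI (star x))
    rw [star_mul, star_mul, ← map_star, ← map_star, ← map_star, star_star] at this
    exact this
  have hS1 := wn_scalar h utr y L hL (fun x => by
    rw [mul_assoc, ← hI, ← mul_assoc, hI', mul_assoc])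
  have hS2 := wn_scalar h utr (fun n => star (y n)) (star L) hL' (fun x => by
    obtain ⟨x, rfl⟩ : ∃ w, θ w = x := ⟨θ.symm x, θ.apply_symm_apply x⟩
    rw [star_star, mul_assoc, hI', ← mul_assoc, ← hI, mul_assoc])
  have hn1 : Tendsto (fun n => n2 τ (y n)) atTop (𝓝 ‖L (ncVec τ 1)‖) := by
    refine (hL (ncVec τ 1)).norm.congr fun n => ?_
    rw [ncVec_act, mul_one, ncVec_norm]
  have hn2 : Tendsto (fun n => n2 τ (y n)) atTop (𝓝 ‖(star L) (ncVec τ 1)‖) := by
    refine (hL' (ncVec τ 1)).norm.congr fun n => ?_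
    rw [ncVec_act, mul_one, ncVec_norm, n2_star h]
  rw [star_star, tendsto_nhds_unique hn2 hn1] at hS2
  have hr : c₀ ≤ ‖L (ncVec τ 1)‖ := ge_of_tendsto' hn1 h0
  set r := ‖L (ncVec τ 1)‖ with hrdef
  have hr0 : (r : ℂ) ≠ 0 := by
    have : r ≠ 0 := (hc.trans_le hr).ne'
    exact_mod_cast this
  have hst : star ((r : ℂ)⁻¹ • L) = (r : ℂ)⁻¹ • star L := by
    rw [star_smul, star_inv₀, Complex.star_def, Complex.conj_ofReal]
  have hu1 : star ((r : ℂ)⁻¹ • L) * ((r : ℂ)⁻¹ • L) = 1 := by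
    rw [hst, smul_mul_smul_comm, hS1, smul_smul]
    have : (r : ℂ)⁻¹ * (r : ℂ)⁻¹ * (r : ℂ) ^ 2 = 1 := by field_simp
    rw [this, one_smul]
  have hu2 : ((r : ℂ)⁻¹ • L) * star ((r : ℂ)⁻¹ • L) = 1 := by
    rw [hst, smul_mul_smul_comm, hS2, smul_smul]
    have : (r : ℂ)⁻¹ * (r : ℂ)⁻¹ * (r : ℂ) ^ 2 = 1 := by field_simp
    rw [this, one_smul]
  refine ⟨(r : ℂ)⁻¹ • L, ⟨hu1, hu2⟩, ?_, fun x => ?_⟩
  · intro T hT
    have hTL : T * L = L * T := by
      ext ξ
      rw [mul_apply_eq_comp, mul_apply_eq_comp]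
      refine tendsto_nhds_unique ((T.continuous.tendsto _).comp (hL ξ)) ?_
      refine (hL (T ξ)).congr fun n => ?_
      have := hT _ ⟨y n, rfl⟩
      simp only [Function.comp_apply]
      rw [← mul_apply_eq_comp, this, mul_apply_eq_comp]
    rw [mul_smul_comm, smul_mul_assoc, hTL]
  · rw [smul_mul_assoc, ← hI, ← mul_smul_comm, mul_assoc, hu2, mul_one]

theorem wsemi_n2 (h : IsTracialState τ) : WSemi (n2 τ) where
  add_le := n2_add_le τ
  left _ _ ha := (n2_mul_le_left τ _ _).trans (mul_le_of_le_one_left (n2_nonneg τ _) ha)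
  right _ _ ha := (n2_mul_le_right h _ _).trans (mul_le_of_le_one_right (n2_nonneg τ _) ha)

/-- The minimising sequence intertwines `θ ∘ ka` and `ka`. -/
theorem wn_rel (h : IsTracialState τ) (θ : B ≃⋆ₐ[ℂ] B) (ka : B →⋆ₐ[ℂ] B)
    (hk : ∀ u ∈ unitary B, n2 τ (θ (ka u) - ka u) ≤ 1 / 2) :
    ∃ y : ℕ → B, (∀ n, ‖y n‖ ≤ 1) ∧ (∀ n, 1 / 2 ≤ n2 τ (y n)) ∧
      (∀ ε : ℝ, 0 < ε → ∃ N, ∀ n ≥ N, ∀ m ≥ N, n2 τ (y n - y m) ≤ ε) ∧
        ∀ x, Tendsto (fun n => n2 τ (θ (ka x) * y n - y n * ka x)) atTop (𝓝 0) := by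
  let S : Set B := (fun u => θ (ka u) * star (ka u)) '' (unitary B)
  have hka : ∀ u ∈ unitary B, ka u ∈ unitary B := fun u hu => Unitary.mem_iff.2
    ⟨by rw [← map_star, ← map_mul, (Unitary.mem_iff.1 hu).1, map_one],
      by rw [← map_star, ← map_mul, (Unitary.mem_iff.1 hu).2, map_one]⟩
  have hθ : ∀ u ∈ unitary B, ‖θ (ka u)‖ ≤ 1 ∧ ‖star (ka u)‖ ≤ 1 := fun u hu =>
    ⟨by rw [StarAlgEquiv.norm_map]; exact wn_norm_un (hka u hu), wn_norm_star_un (hka u hu)⟩
  have hK1 : convexHull ℝ S ⊆ {z | ‖z‖ ≤ 1 ∧ n2 τ (z - 1) ≤ 1 / 2} := by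
    refine convexHull_min ?_ ?_
    · rintro _ ⟨u, hu, rfl⟩
      refine ⟨(norm_mul_le _ _).trans (mul_le_one₀ (hθ u hu).1 (norm_nonneg _) (hθ u hu).2), ?_⟩
      have e : θ (ka u) * star (ka u) - 1 = (θ (ka u) - ka u) * star (ka u) := by
        rw [sub_mul, Unitary.mul_star_self_of_mem (hka u hu)]
      change n2 τ (θ (ka u) * star (ka u) - 1) ≤ _
      rw [e]
      exact ((wsemi_n2 h).right _ _ (hθ u hu).2).trans (hk u hu)
    · rintro z ⟨hz, hz'⟩ w ⟨hw, hw'⟩ a b ha hb hab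
      constructor
      · refine (norm_add_le _ _).trans ?_
        rw [norm_smul, norm_smul, Real.norm_of_nonneg ha, Real.norm_of_nonneg hb]
        nlinarith
      · have e : a • z + b • w - 1 = a • (z - 1) + b • (w - 1) := by
          rw [smul_sub, smul_sub, sub_add_sub_comm, ← add_smul, hab, one_smul]
        rw [e]
        refine (n2_add_le τ _ _).trans ?_
        rw [n2_real_smul, n2_real_smul, abs_of_nonneg ha, abs_of_nonneg hb]
        nlinarith
  have hK2 : ∀ v ∈ unitary B,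
      convexHull ℝ S ⊆ {z | θ (ka v) * z * star (ka v) ∈ convexHull ℝ S} := fun v hv => by
    refine convexHull_min ?_ ?_
    · rintro _ ⟨u, hu, rfl⟩
      refine subset_convexHull ℝ S ⟨v * u, mul_mem hv hu, ?_⟩
      simp only [map_mul, star_mul, mul_assoc]
    · intro z hz w hw a b ha hb hab
      have := convex_convexHull ℝ S hz hw ha hb hab
      simpa only [Set.mem_ofPred_eq, mul_add, add_mul, mul_smul_comm, smul_mul_assoc] using this
  obtain ⟨y, hy, hy'⟩ := NB.minimising τ (convex_convexHull ℝ S)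
    ⟨_, subset_convexHull ℝ S ⟨1, one_mem _, rfl⟩⟩
  have hN : ∀ ε : ℝ, 0 < ε → ∃ N : ℕ, ∀ t : ℝ, t ^ 2 ≤ 4 / (N + 1) → t ≤ ε := fun ε hε => by
    obtain ⟨N, hN⟩ := exists_nat_one_div_lt (show 0 < ε ^ 2 / 4 by positivity)
    refine ⟨N, fun t ht => le_of_sq_le_sq ?_ hε.le⟩
    have h7 : (4 : ℝ) / (N + 1) = 4 * (1 / (N + 1)) := by ring
    linarith
  have hu : ∀ v ∈ unitary B,
      Tendsto (fun n => n2 τ (θ (ka v) * y n - y n * ka v)) atTop (𝓝 0) := fun v hv => by
    refine tendsto_order.2 ⟨fun a ha => Eventually.of_forall fun n => ha.trans_le (n2_nonneg τ _),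
      fun ε hε => ?_⟩
    obtain ⟨N, hN⟩ := hN (ε / 2) (half_pos hε)
    filter_upwards [eventually_ge_atTop N] with n hn
    have h1 := hN _ (hy' N n hn _ (hK2 v hv (hy n))
      (Or.inl (NB.n2_mul3 h (hθ v hv).1 (hθ v hv).2 _)))
    have e : θ (ka v) * y n - y n * ka v = -((y n - θ (ka v) * y n * star (ka v)) * ka v) := by
      rw [sub_mul, mul_assoc _ (star (ka v)), Unitary.star_mul_self_of_mem (hka v hv), mul_one,
        neg_sub]
    rw [e, n2_neg]
    have h2 := (wsemi_n2 h).right (y n - θ (ka v) * y n * star (ka v)) _ (wn_norm_un (hka v hv))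
    linarith
  refine ⟨y, fun n => (hK1 (hy n)).1, fun n => ?_, fun ε hε => ?_, fun x => ?_⟩
  · have h1 := NB.n2_le_add τ 1 (y n)
    rw [n2_one h, n2_sub_comm] at h1
    linarith [(hK1 (hy n)).2]
  · obtain ⟨N, hN⟩ := hN ε hε
    exact ⟨N, fun n hn m hm => hN _ (hy' N n hn _ (hy m) (Or.inr ⟨m, hm, rfl⟩))⟩
  · obtain ⟨u, a, hxu, -⟩ := CStarAlgebra.exists_sum_four_unitary x
    refine NB.tend_sum Finset.univ (c := fun i => ‖a i‖) (fun n => ?_) fun i => hu _ (u i).2
    simp only [← n2_smul]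
    refine le_trans (le_of_eq ?_) (n2_sum_le τ _ _)
    rw [hxu]
    simp only [map_sum, map_smul, Finset.sum_mul, Finset.mul_sum, smul_mul_assoc, mul_smul_comm,
      smul_sub, Finset.sum_sub_distrib]

/-- `y` is the slice of `x` along the trace. -/
def Sl (τ : B →ₚ[ℂ] ℂ) (ka : B →⋆ₐ[ℂ] B) (x y : B) : Prop := ∀ c, τ (c * y) = τ (ka c * x)

theorem wn_tr_hom (h : IsTracialState τ)
    (utr : ∀ f : B →L[ℂ] ℂ, (∀ x y, f (x * y) = f (y * x)) → ∀ x, f x = f 1 * τ x)
    (p : B →⋆ₐ[ℂ] B) {y : B} (hy : ∀ x, Commute (p x) y) (x : B) : τ (p x * y) = τ y * τ x := by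
  let f : B →L[ℂ] ℂ :=
    { toFun := fun x => τ (p x * y)
      map_add' := fun z w => by rw [map_add, add_mul, map_add]
      map_smul' := fun c z => by rw [map_smul, smul_mul_assoc, map_smul]; rfl
      cont := (tr_continuous τ).comp ((hom_continuous p).mul continuous_const) }
  have h1 := utr f (fun a b => by
    change τ (p (a * b) * y) = τ (p (b * a) * y)
    rw [map_mul p, map_mul p, mul_assoc, h.2, mul_assoc, ← (hy a).eq, mul_assoc]) x
  change τ (p x * y) = τ (p 1 * y) * τ x at h1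
  rwa [map_one, one_mul] at h1

section Slice

variable {ka : B →⋆ₐ[ℂ] B} {x y x' y' : B}

omit [StarOrderedRing B] in
theorem Sl.sub (h1 : Sl τ ka x y) (h2 : Sl τ ka x' y') : Sl τ ka (x - x') (y - y') := fun c => by
  rw [mul_sub, mul_sub, map_sub, map_sub, h1, h2]

omit [StarOrderedRing B] in
theorem Sl.left (h1 : Sl τ ka x y) (c : B) : Sl τ ka (ka c * x) (c * y) := fun d => by
  rw [← mul_assoc, h1, map_mul ka, mul_assoc]

omit [StarOrderedRing B] in
theorem Sl.right (h : IsTracialState τ) (h1 : Sl τ ka x y) (c : B) :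
    Sl τ ka (x * ka c) (y * c) := fun d => by
  rw [← mul_assoc, h.2, ← mul_assoc, h1, map_mul ka, mul_assoc, h.2, mul_assoc]

theorem Sl.n2_le (hk : ∀ x, n2 τ (ka x) = n2 τ x) (h1 : Sl τ ka x y) : n2 τ y ≤ n2 τ x := by
  have h2 := norm_tr_mul_le τ (ka y) x
  rw [← map_star, ← h1, hk] at h2
  have h3 := (n2_sq τ y).trans_le ((Complex.re_le_norm _).trans h2)
  rcases (n2_nonneg τ y).eq_or_lt with h4 | h4
  · exact h4 ▸ n2_nonneg τ x
  · nlinarith

theorem Sl.norm_le (h : IsTracialState τ) (faith : ∀ x, n2 τ x = 0 → x = 0)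
    (hk : ∀ x, n2 τ (ka x) = n2 τ x) (h1 : Sl τ ka x y) : ‖y‖ ≤ ‖x‖ := by
  have hi : Function.Injective τ.gnsStarAlgHom := by
    refine (injective_iff_map_eq_zero _).2 fun a ha => faith a ?_
    rw [← ncVec_norm, ← mul_one a, ← ncVec_act, ha]
    simp
  rw [← NonUnitalStarAlgHom.norm_map τ.gnsStarAlgHom hi y]
  refine ContinuousLinearMap.opNorm_le_bound _ (norm_nonneg _) fun ξ => ?_
  refine ncVec_dense.induction_on (p := fun ξ => ‖τ.gnsStarAlgHom y ξ‖ ≤ ‖x‖ * ‖ξ‖) ξ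
    (isClosed_le (by fun_prop) (by fun_prop)) fun c => ?_
  rw [ncVec_act, ncVec_norm, ncVec_norm, ← hk c]
  exact ((h1.right h c).n2_le hk).trans (n2_mul_le_left τ _ _)

end Slice

theorem exists_slice (h : IsTracialState τ)
    (utr : ∀ f : B →L[ℂ] ℂ, (∀ x y, f (x * y) = f (y * x)) → ∀ x, f x = f 1 * τ x)
    (faith : ∀ x, n2 τ x = 0 → x = 0) {io ka : B →⋆ₐ[ℂ] B} (hk : ∀ x, n2 τ (ka x) = n2 τ x)
    (hc : ∀ x y, Commute (io x) (ka y))
    (hd : Dense ((Submodule.span ℂ {z : B | ∃ x y, z = io x * ka y} : Submodule ℂ B) : Set B))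
    (x : B) : ∃ y, Sl τ ka x y := by
  have h1 : ∀ z ∈ Submodule.span ℂ {z : B | ∃ x y, z = io x * ka y}, ∃ y, Sl τ ka z y := by
    intro z hz
    induction hz using Submodule.span_induction with
    | mem z hz =>
      obtain ⟨a, b, rfl⟩ := hz
      refine ⟨τ a • b, fun c => ?_⟩
      have hk1 := wn_tr_hom h utr ka (y := 1) (fun _ => Commute.one_right _) (c * b)
      rw [mul_one, h.1, one_mul] at hk1
      rw [← mul_assoc, ← (hc a c).eq, mul_assoc, ← map_mul, wn_tr_hom h utr io (hc · _), hk1,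
        mul_smul_comm, map_smul, smul_eq_mul, mul_comm]
    | zero => exact ⟨0, fun c => by rw [mul_zero, mul_zero]⟩
    | add z w _ _ hz hw =>
      obtain ⟨⟨a, ha⟩, b, hb⟩ := And.intro hz hw
      exact ⟨a + b, fun c => by rw [mul_add, mul_add, map_add, map_add, ha, hb]⟩
    | smul t z _ hz =>
      obtain ⟨a, ha⟩ := hz
      exact ⟨t • a, fun c => by rw [mul_smul_comm, mul_smul_comm, map_smul, map_smul, ha]⟩
  obtain ⟨z, hz, hzx⟩ := mem_closure_iff_seq_limit.1 (hd x)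
  choose y hy using fun n => h1 _ (hz n)
  have h2 : CauchySeq y := by
    rw [Metric.cauchySeq_iff]
    intro ε hε
    obtain ⟨N, hN⟩ := Metric.cauchySeq_iff.1 hzx.cauchySeq ε hε
    refine ⟨N, fun m hm n hn => lt_of_le_of_lt ?_ (hN m hm n hn)⟩
    rw [dist_eq_norm, dist_eq_norm]
    exact ((hy m).sub (hy n)).norm_le h faith hk
  obtain ⟨w, hw⟩ := cauchySeq_tendsto_of_complete h2
  refine ⟨w, fun c => tendsto_nhds_unique
    (((tr_continuous τ).tendsto _).comp (hw.const_mul c)) ?_⟩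
  exact (((tr_continuous τ).tendsto _).comp (hzx.const_mul (ka c))).congr fun n => (hy n c).symm

/-- An automorphism that is not inner on the weak closure moves almost central selfadjoint
contractions in the 2-norm. -/
theorem cn_of_outer [TopologicalSpace.SeparableSpace B] (S : DData B)
    (au : ∀ (p : B →⋆ₐ[ℂ] B) (s : Finset B) (ε : ℝ), 0 < ε →
      ∃ u ∈ unitary B, ∀ x ∈ s, ‖u * x * star u - p x‖ ≤ ε) (h : IsTracialState τ)
    (utr : ∀ f : B →L[ℂ] ℂ, (∀ x y, f (x * y) = f (y * x)) → ∀ x, f x = f 1 * τ x)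
    (faith : ∀ x, n2 τ x = 0 → x = 0) (θ : B ≃⋆ₐ[ℂ] B) (hn : ¬ InnerOnWeakClosure τ θ) :
    ∃ δ : ℝ, 0 < δ ∧ ∀ (s : Finset B) (ε : ℝ), 0 < ε → ∃ y : B, IsSelfAdjoint y ∧ ‖y‖ ≤ 1 ∧
      (∀ a ∈ s, ‖y * a - a * y‖ ≤ ε) ∧ δ ≤ n2 τ (θ y - y) := by
  by_contra hf
  have hw := wsemi_n2 h
  have hs := slow_of_not hw θ hf
  obtain ⟨s, ε, hε, hs'⟩ := hs (1 / 2) one_half_pos
  obtain ⟨io, ka, hc, hd, hcen⟩ := exists_central S au s hε
  have hk : ∀ x, n2 τ (ka x) = n2 τ x := fun x => by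
    have hk1 := wn_tr_hom h utr ka (y := 1) (fun _ => Commute.one_right _) (star x * x)
    rw [mul_one, h.1, one_mul, map_mul, map_star] at hk1
    rw [n2, hk1, n2]
  obtain ⟨y, hy1, hy2, hy3, hy4⟩ := wn_rel h θ ka fun u hu =>
    hs' _ ((NonUnitalStarAlgHom.norm_apply_le ka u).trans (wn_norm_un hu)) (hcen u (wn_norm_un hu))
  obtain ⟨z, hz1, hz2, hz3⟩ := exists_z au hw hs ka
  obtain ⟨w, hwd⟩ : ∃ w : ℕ → B, ∀ n, w n = star (z n) * y n := ⟨_, fun _ => rfl⟩
  have hw1 : ∀ n, ‖w n‖ ≤ 1 := fun n => by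
    rw [hwd]
    exact (wsemi_norm.left _ _ (wn_norm_star_un (hz1 n))).trans (hy1 n)
  have hw2 : ∀ n, 1 / 2 ≤ n2 τ (w n) := fun n => by
    have := hw.left _ (w n) (wn_norm_un (hz1 n))
    rw [hwd, ← mul_assoc, (Unitary.mem_iff.1 (hz1 n)).2, one_mul, ← hwd] at this
    exact (hy2 n).trans this
  have hw3 : ∀ ε : ℝ, 0 < ε → ∃ N, ∀ n ≥ N, ∀ m ≥ N, n2 τ (w n - w m) ≤ ε := fun ε hε => by
    obtain ⟨N, hN⟩ := hy3 (ε / 2) (half_pos hε)
    obtain ⟨M, hM⟩ := hz2 (ε / 2) (half_pos hε)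
    refine ⟨max N M, fun n hn m hm => ?_⟩
    have e : w n - w m = star (z n) * (y n - y m) + star (z n - z m) * y m := by
      rw [hwd, hwd, star_sub]; noncomm_ring
    have h1 := hw.left _ (y n - y m) (wn_norm_star_un (hz1 n))
    have h2 := hw.right (star (z n - z m)) _ (hy1 m)
    rw [n2_star h] at h2
    rw [e]
    linarith [hw.add_le (star (z n) * (y n - y m)) (star (z n - z m) * y m),
      hN n (le_of_max_le_left hn) m (le_of_max_le_left hm),
      hM n (le_of_max_le_right hn) m (le_of_max_le_right hm)]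
  have hw4 : ∀ x, Tendsto (fun n => n2 τ (ka (θ x) * w n - w n * ka x)) atTop (𝓝 0) := fun x => by
    have h1 := (hy4 x).add (hz3 x)
    rw [add_zero] at h1
    refine squeeze_zero (fun n => n2_nonneg τ _) (fun n => ?_) h1
    have e : ka (θ x) * w n - w n * ka x = star (z n) * (θ (ka x) * y n - y n * ka x) +
        star (z n) * -(θ (ka x) * z n - z n * ka (θ x)) * w n := by
      have e1 : z n * w n = y n := by
        rw [hwd, ← mul_assoc, (Unitary.mem_iff.1 (hz1 n)).2, one_mul]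
      rw [neg_sub, mul_sub, mul_sub, sub_mul, ← mul_assoc (star (z n)) (z n),
        (Unitary.mem_iff.1 (hz1 n)).1, one_mul, mul_assoc (star (z n)) _ (w n),
        mul_assoc _ (z n), e1, ← mul_assoc (star (z n)) (y n), ← hwd]
      abel
    rw [e]
    refine (hw.add_le _ _).trans (add_le_add (hw.left _ _ (wn_norm_star_un (hz1 n))) ?_)
    refine (n2_le_norm h _).trans ((wn_mul3 (wn_norm_star_un (hz1 n)) (hw1 n) _).trans ?_)
    rw [norm_neg]
  choose E hE using exists_slice h utr faith hk hc hd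
  have hE1 : ∀ a, ∀ ε : ℝ, 0 < ε → ∃ N, ∀ n ≥ N, ∀ m ≥ N,
      n2 τ (E (io a * w n) - E (io a * w m)) ≤ ε := fun a ε hε => by
    obtain ⟨N, hN⟩ := hw3 (ε / (‖io a‖ + 1)) (by positivity)
    refine ⟨N, fun n hn m hm => (((hE _).sub (hE _)).n2_le hk).trans ?_⟩
    rw [← mul_sub]
    refine (n2_mul_le_left τ _ _).trans ?_
    calc _ ≤ (‖io a‖ + 1) * (ε / (‖io a‖ + 1)) :=
          mul_le_mul (by linarith) (hN n hn m hm) (n2_nonneg τ _) (by positivity)
      _ = ε := by field_simp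
  have hE2 : ∃ a, ¬ Tendsto (fun n => n2 τ (E (io a * w n))) atTop (𝓝 0) := by
    by_contra h0
    push Not at h0
    have h1 : ∀ d ∈ Submodule.span ℂ {z : B | ∃ x y, z = io x * ka y},
        Tendsto (fun n => τ (d * w n)) atTop (𝓝 0) := by
      intro d hd
      induction hd using Submodule.span_induction with
      | mem d hd =>
        obtain ⟨a, b, rfl⟩ := hd
        rw [tendsto_zero_iff_norm_tendsto_zero]
        have h2 := (h0 a).const_mul (n2 τ (star b))
        rw [mul_zero] at h2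
        refine squeeze_zero (fun n => norm_nonneg _) (fun n => ?_) h2
        rw [(hc a b).eq, mul_assoc, ← hE]
        simpa only [star_star] using norm_tr_mul_le τ (star b) (E (io a * w n))
      | zero => simp
      | add z w _ _ hz hw => simpa only [add_mul, map_add, add_zero] using hz.add hw
      | smul t z _ hz =>
        simpa only [smul_mul_assoc, map_smul, smul_zero] using hz.const_smul t
    obtain ⟨N, hN⟩ := hw3 (1 / 8) (by norm_num)
    obtain ⟨d, hd1, hd2⟩ := hd.exists_dist_lt (star (w N)) (show (0 : ℝ) < 1 / 16 by norm_num)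
    rw [dist_eq_norm] at hd2
    obtain ⟨n, hn, hn'⟩ := ((eventually_ge_atTop N).and
      ((tendsto_zero_iff_norm_tendsto_zero.1 (h1 d hd1)).eventually_lt_const
        (show (0 : ℝ) < 1 / 16 by norm_num))).exists
    have e : τ (star (w N) * w N) = τ (d * w n) + τ ((star (w N) - d) * w n) +
        τ (star (w N) * (w N - w n)) := by
      rw [← map_add, ← map_add]
      congr 1
      noncomm_ring
    have h2 := (n2_sq τ (w N)).trans_le (Complex.re_le_norm _)
    have h3 := (tr_norm_le h _).trans (wsemi_norm.right (star (w N) - d) _ (hw1 n))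
    have h4 := norm_tr_mul_le τ (w N) (w N - w n)
    have h5 := hN N le_rfl n hn
    have h6 := (n2_le_norm h _).trans (hw1 N)
    have h7 := hw2 N
    have h8 := n2_nonneg τ (w N - w n)
    rw [e] at h2
    have h9 := norm_add₃_le (a := τ (d * w n)) (b := τ ((star (w N) - d) * w n))
      (c := τ (star (w N) * (w N - w n)))
    nlinarith
  obtain ⟨a, ha⟩ := hE2
  obtain ⟨c, hc0, hfr⟩ : ∃ c : ℝ, 0 < c ∧ ∃ᶠ n in atTop, c ≤ n2 τ (E (io a * w n)) := by
    by_contra h0
    push Not at h0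
    exact ha (tendsto_order.2
      ⟨fun t ht => Eventually.of_forall fun n => ht.trans_le (n2_nonneg τ _), h0⟩)
  obtain ⟨N, hN⟩ := hE1 a (c / 2) (half_pos hc0)
  obtain ⟨m, hm, hm'⟩ := frequently_atTop.1 hfr N
  refine hn (wn_inner h utr θ (fun n => E (io a * w (n + N))) (C := ‖io a‖) (half_pos hc0)
    (fun n => ((hE _).norm_le h faith hk).trans ((norm_mul_le _ _).trans
      (mul_le_of_le_one_right (norm_nonneg _) (hw1 _)))) (fun n => ?_) (fun ε hε => ?_) fun x => ?_)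
  · linarith [NB.n2_le_add τ (E (io a * w m)) (E (io a * w (n + N))),
      hN m hm (n + N) (Nat.le_add_left N n)]
  · obtain ⟨M, hM⟩ := hE1 a ε hε
    exact ⟨M, fun n hn m hm => hM _ (hn.trans (Nat.le_add_right n N)) _
      (hm.trans (Nat.le_add_right m N))⟩
  · have h1 := ((hw4 x).comp (tendsto_add_atTop_nat N)).const_mul ‖io a‖
    rw [mul_zero] at h1
    refine squeeze_zero (fun n => n2_nonneg τ _) (fun n => ?_) h1
    refine ((((hE _).left (θ x)).sub ((hE _).right h x)).n2_le hk).trans ?_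
    rw [← mul_assoc, ← (hc a _).eq, mul_assoc, mul_assoc, ← mul_sub]
    exact n2_mul_le_left τ _ _

end Pool.Agent.Izumi
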