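import Pool.Agent.Lib.MP_b2135d_an.WN0

/-! Compression by isometries in purely infinite algebras (sections N2, N3, N4). -/

namespace Pool.Agent.Izumi

open scoped ComplexOrder
open Filter Topology

variable {B : Type} [CStarAlgebra B] [PartialOrder B] [StarOrderedRing B]

/-- Positive elements of norm one almost fix an isometry. -/
def Api (B : Type) [CStarAlgebra B] [PartialOrder B] : Prop :=
  ∀ a : B, 0 ≤ a → ‖a‖ = 1 → ∀ ε : ℝ, 0 < ε → ∃ t : B, star t * t = 1 ∧ ‖a * t - t‖ ≤ ε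

section Iso

omit [PartialOrder B] [StarOrderedRing B]

theorem iso_norm {t : B} (ht : star t * t = 1) : ‖t‖ ≤ 1 :=
  norm_le_one_of_sq_le (by
    rw [← CStarRing.norm_star_mul_self, ht]
    exact wn_norm_un (one_mem _))
where
  norm_le_one_of_sq_le {r : ℝ} (h : r * r ≤ 1) : r ≤ 1 := by nlinarith

theorem iso_mul {s t : B} (hs : star s * s = 1) (ht : star t * t = 1) :
    star (s * t) * (s * t) = 1 := by
  rw [star_mul, mul_assoc, ← mul_assoc (star s), hs, one_mul, ht]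

theorem iso_map {A F : Type} [CStarAlgebra A] [FunLike F B A] [MonoidHomClass F B A]
    [StarHomClass F B A] (θ : F) {t : B} (ht : star t * t = 1) : star (θ t) * θ t = 1 := by
  rw [← map_star, ← map_mul, ht, map_one]

theorem iso_comp {s t : B} (hs : star s * s = 1) (ht : star t * t = 1) (x : B) :
    ‖star s * x * t‖ ≤ ‖x‖ :=
  wn_mul3 (by rw [norm_star]; exact iso_norm hs) (iso_norm ht) x

theorem iso_scalar {s : B} (hs : star s * s = 1) (x : B) (c : ℂ) :
    ‖star s * x * s - c • (1 : B)‖ ≤ ‖x - c • (1 : B)‖ := by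
  have e : star s * x * s - c • (1 : B) = star s * (x - c • (1 : B)) * s := by
    rw [mul_sub, sub_mul, mul_smul_comm, smul_mul_assoc, mul_one, hs]
  rw [e]
  exact iso_comp hs hs _

theorem iso_assoc (s t x : B) : star (s * t) * x * (s * t) = star t * (star s * x * s) * t := by
  simp only [star_mul, mul_assoc]

end Iso

theorem api_of_pi (h : ∀ y : B, 0 ≤ y → y ≠ 0 → ∃ s, star s * y * s = 1) : Api B := by
  intro a ha h1 ε hε
  have : Nontrivial B := nontrivial_of_ne a 0 fun h0 => by simp [h0] at h1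
  have hsa : IsSelfAdjoint a := ha.isSelfAdjoint
  let f : ℝ → ℝ := fun r => max 0 (r - (1 - ε))
  have hf : Continuous f := by fun_prop
  set b := cfc f a with hb
  have hb0 : 0 ≤ b := cfc_nonneg fun r _ => le_max_left _ _
  have hbs : star b = b := hb0.isSelfAdjoint.star_eq
  have hbb : b * b ≠ 0 := by
    intro h0
    have h2 := norm_apply_le_norm_cfc (fun r => f r * f r) a
      (h1 ▸ CStarAlgebra.norm_mem_spectrum_of_nonneg ha)
    rw [cfc_mul f f a, ← hb, h0, norm_zero, norm_le_zero_iff, mul_self_eq_zero] at h2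
    have h3 : ε ≤ f 1 := le_max_of_le_right (by linarith)
    linarith
  obtain ⟨s, hs⟩ := h (b * b) (by simpa only [hbs] using star_mul_self_nonneg b) hbb
  have ht : star (b * s) * (b * s) = 1 := by
    rw [star_mul, hbs, ← hs]
    simp only [mul_assoc]
  refine ⟨b * s, ht, ?_⟩
  have e1 : b * ((a - 1) * (a - 1)) * b = cfc (fun r => f r * ((r - 1) * (r - 1)) * f r) a := by
    rw [cfc_mul _ _ a, cfc_mul _ _ a, cfc_mul _ _ a, cfc_sub _ _ a, cfc_id' ℝ a, cfc_const_one ℝ a]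
  have e2 : (ε * ε) • (b * b) = cfc (fun r => ε * ε * (f r * f r)) a := by
    rw [cfc_const_mul _ _ a, cfc_mul _ _ a]
  have h2 : b * ((a - 1) * (a - 1)) * b ≤ (ε * ε) • (b * b) := by
    rw [e1, e2]
    refine cfc_mono fun r hr => ?_
    have h3 : r ≤ 1 := h1 ▸ (le_abs_self r).trans (spectrum.norm_le_norm_of_mem hr)
    rcases le_total 0 (r - (1 - ε)) with h4 | h4
    · have h5 : (r - 1) * (r - 1) ≤ ε * ε := by nlinarith
      nlinarith [mul_self_nonneg (f r)]
    · simp [f, max_eq_left h4]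
  have h3 := star_left_conjugate_le_conjugate h2 s
  have e3 : star s * (b * ((a - 1) * (a - 1)) * b) * s =
      star (a * (b * s) - b * s) * (a * (b * s) - b * s) := by
    rw [← sub_one_mul, star_mul, star_mul, hbs, star_sub, star_one, hsa.star_eq]
    simp only [mul_assoc]
  rw [mul_smul_comm, smul_mul_assoc, hs, e3, ← Algebra.algebraMap_eq_smul_one,
    ← CStarAlgebra.norm_le_iff_le_algebraMap _ (by positivity) (star_mul_self_nonneg _),
    CStarRing.norm_star_mul_self] at h3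
  exact (mul_self_le_mul_self_iff (norm_nonneg _) hε.le).2 h3

namespace Api

theorem ker (h : Api B) {x : B} (hx : ¬ IsUnit (star x * x)) {ε : ℝ} (hε : 0 < ε) :
    ∃ t : B, star t * t = 1 ∧ ‖x * t‖ ≤ ε := by
  set M := ‖star x * x‖ + 1 with hM
  have hM0 : 0 < M := by positivity
  have h0 : 0 ≤ M⁻¹ • (star x * x) := smul_nonneg (by positivity) (star_mul_self_nonneg x)
  have h1 : M⁻¹ • (star x * x) ≤ 1 := by
    rw [← CStarAlgebra.norm_le_one_iff_of_nonneg _ h0, norm_smul,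
      Real.norm_of_nonneg (by positivity), inv_mul_le_iff₀ hM0]
    linarith
  have h2 : 0 ≤ 1 - M⁻¹ • (star x * x) := sub_nonneg.2 h1
  have h3 : ‖1 - M⁻¹ • (star x * x)‖ = 1 := by
    refine le_antisymm
      ((CStarAlgebra.norm_le_one_iff_of_nonneg _ h2).2 (sub_le_self _ h0)) (not_lt.1 fun hlt => ?_)
    have h4 := isUnit_one_sub_of_norm_lt_one hlt
    rw [sub_sub_cancel] at h4
    have h5 := h4.smul (Units.mk0 M hM0.ne')
    rw [Units.smul_mk0, smul_smul, mul_inv_cancel₀ hM0.ne', one_smul] at h5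
    exact hx h5
  obtain ⟨t, ht, ht'⟩ := h _ h2 h3 (M⁻¹ * (ε * ε)) (by positivity)
  refine ⟨t, ht, (mul_self_le_mul_self_iff (norm_nonneg _) hε.le).2 ?_⟩
  rw [sub_mul, one_mul, sub_sub_cancel_left, norm_neg, smul_mul_assoc, norm_smul,
    Real.norm_of_nonneg (by positivity)] at ht'
  have h6 := le_of_mul_le_mul_left ht' (inv_pos.2 hM0)
  rw [← CStarRing.norm_star_mul_self, star_mul, mul_assoc, ← mul_assoc (star x)]
  exact (wsemi_norm.left _ _ (by rw [norm_star]; exact iso_norm ht)).trans h6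

theorem spec (h : Api B) {y : B} (hy : IsSelfAdjoint y) {r : ℝ} (hr : r ∈ spectrum ℝ y) {ε : ℝ}
    (hε : 0 < ε) : ∃ t : B, star t * t = 1 ∧ ‖star t * y * t - (r : ℂ) • (1 : B)‖ ≤ ε := by
  have h1 : star (algebraMap ℝ B r - y) = algebraMap ℝ B r - y :=
    ((IsSelfAdjoint.algebraMap B (.all r)).sub hy).star_eq
  obtain ⟨t, ht, ht'⟩ := h.ker (x := algebraMap ℝ B r - y)
    (by rw [h1, isUnit_mul_self_iff]; exact spectrum.mem_iff.1 hr) hε
  refine ⟨t, ht, le_trans ?_ ht'⟩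
  have e : star t * y * t - (r : ℂ) • (1 : B) = star t * -((algebraMap ℝ B r - y) * t) := by
    rw [Algebra.algebraMap_eq_smul_one, sub_mul, neg_sub, mul_sub, smul_mul_assoc, one_mul,
      mul_smul_comm, ht, mul_assoc, Complex.coe_smul]
  rw [e]
  exact (wsemi_norm.left _ _ (by rw [norm_star]; exact iso_norm ht)).trans (norm_neg _).le

theorem sa [Nontrivial B] (h : Api B) {y : B} (hy : IsSelfAdjoint y) {ε : ℝ} (hε : 0 < ε) :
    ∃ (t : B) (r : ℝ), star t * t = 1 ∧ |r| = ‖y‖ ∧ ‖star t * y * t - (r : ℂ) • (1 : B)‖ ≤ ε := by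
  rcases CStarAlgebra.norm_or_neg_norm_mem_spectrum hy with h1 | h1
  · obtain ⟨t, ht, ht'⟩ := h.spec hy h1 hε
    exact ⟨t, _, ht, abs_norm y, ht'⟩
  · obtain ⟨t, ht, ht'⟩ := h.spec hy h1 hε
    exact ⟨t, _, ht, by rw [abs_neg, abs_norm], ht'⟩

theorem scalar [Nontrivial B] (h : Api B) (x : B) {ε : ℝ} (hε : 0 < ε) :
    ∃ (t : B) (c : ℂ), star t * t = 1 ∧ ‖star t * x * t - c • (1 : B)‖ ≤ ε := by
  obtain ⟨s, a, hs, -, ha⟩ := h.sa (wnRe_sa x) (half_pos hε)
  obtain ⟨t, b, ht, -, hb⟩ := h.sa ((wnRe_sa (-Complex.I • x)).conjugate' s) (half_pos hε)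
  refine ⟨s * t, a + Complex.I * b, iso_mul hs ht, ?_⟩
  have h1 := (iso_scalar ht _ _).trans ha
  have e : star (s * t) * x * (s * t) - (a + Complex.I * b : ℂ) • (1 : B) =
      (star t * (star s * wnRe x * s) * t - (a : ℂ) • (1 : B)) + Complex.I •
        (star t * (star s * wnRe (-Complex.I • x) * s) * t - (b : ℂ) • (1 : B)) := by
    rw [iso_assoc]
    conv_lhs => rw [wnRe_add x]
    simp only [mul_add, add_mul, mul_smul_comm, smul_mul_assoc, add_smul, mul_smul, smul_sub]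
    abel
  rw [e]
  refine (norm_add_le _ _).trans ?_
  rw [norm_smul, Complex.norm_I, one_mul]
  linarith

/-- Lemma W. -/
theorem lemW_sa (h : Api B) (θ : B →⋆ₐ[ℂ] B) {η : ℝ} (h0 : 0 < η) (h1 : η ≤ 1)
    (hθ : ∀ t : B, star t * t = 1 → 1 - η ^ 2 ≤ ‖star t * θ t‖ ^ 2) {y : B}
    (hy : IsSelfAdjoint y) (hy1 : ‖y‖ ≤ 1) : ‖θ y - y‖ ≤ 9 * η := by
  rcases subsingleton_or_nontrivial B with hB | hB
  · rw [Subsingleton.elim (θ y - y) 0, norm_zero]; positivity
  have hδ : 0 < η ^ 2 := by positivity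
  obtain ⟨t₁, μ, ht₁, hμ, hd⟩ := h.sa ((hy.map θ).sub hy) hδ
  obtain ⟨t₂, l, ht₂, hl, hyl⟩ := h.sa (hy.conjugate' t₁) hδ
  have hl1 : |l| ≤ 1 := hl.trans_le ((iso_comp ht₁ ht₁ y).trans hy1)
  have hd' := (iso_scalar ht₂ _ _).trans hd
  rw [← iso_assoc] at hd' hyl
  have ht := iso_mul ht₁ ht₂
  generalize t₁ * t₂ = t at ht hd' hyl
  have hθt := iso_map θ ht
  have hx1 : ‖star t * θ t‖ ≤ 1 := by simpa using iso_comp ht hθt 1
  obtain ⟨s, hs, hsx⟩ := h.spec (IsSelfAdjoint.mul_star_self (star t * θ t))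
    (CStarAlgebra.norm_mem_spectrum_of_nonneg (mul_star_self_nonneg _)) hδ
  rw [CStarRing.norm_self_mul_star, ← sq] at hsx
  obtain ⟨g, hg⟩ : ∃ g, g = star (θ t) * (t * s) := ⟨_, rfl⟩
  have hts := iso_mul ht hs
  have hg1 : ‖g‖ ≤ 1 := by simpa [hg] using iso_comp hθt hts 1
  have hgg : ‖1 - star g * g‖ ≤ 2 * η ^ 2 := by
    have e : 1 - star g * g = ((1 - ‖star t * θ t‖ ^ 2 : ℝ) : ℂ) • (1 : B) -
        (star s * (star t * θ t * star (star t * θ t)) * s -
          ((‖star t * θ t‖ ^ 2 : ℝ) : ℂ) • (1 : B)) := by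
      rw [Complex.ofReal_sub, sub_smul, Complex.ofReal_one, one_smul, hg]
      simp only [star_mul, star_star, mul_assoc]
      abel
    rw [e]
    refine (norm_sub_le _ _).trans ?_
    rw [norm_smul, norm_one, mul_one, Complex.norm_real,
      Real.norm_of_nonneg (by nlinarith [norm_nonneg (star t * θ t)])]
    linarith [hθ t ht]
  obtain ⟨r, hr⟩ : ∃ r, r = t * s - θ t * g := ⟨_, rfl⟩
  have hr1 : ‖r‖ ≤ 2 * η := by
    have e : star r * r = 1 - star g * g := by
      have e1 : star (t * s) * θ t = star g := by rw [hg, star_mul (star (θ t)), star_star]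
      rw [hr, star_sub, sub_mul, mul_sub, mul_sub, hts, ← mul_assoc, e1, star_mul (θ t), mul_assoc,
        ← hg, mul_assoc, ← mul_assoc (star (θ t)), hθt, one_mul, sub_self, sub_zero]
    refine (mul_self_le_mul_self_iff (norm_nonneg _) (by positivity)).2 ?_
    rw [← CStarRing.norm_star_mul_self, e]
    nlinarith
  have hθy : ‖θ y‖ ≤ 1 := (NonUnitalStarAlgHom.norm_apply_le θ y).trans hy1
  have h2 : ‖star (t * s) * θ y * (t * s) - (l : ℂ) • (1 : B)‖ ≤ 3 * η ^ 2 + 4 * η := by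
    have e : star (t * s) * θ y * (t * s) - (l : ℂ) • (1 : B) =
        star g * θ (star t * y * t - (l : ℂ) • (1 : B)) * g - (l : ℂ) • (1 - star g * g) +
          (star r * (θ y * (t * s)) + star (θ t * g) * θ y * r) := by
      rw [hr, map_sub, map_smul, map_one, map_mul, map_mul, map_star]
      simp only [star_sub, star_mul, mul_sub, sub_mul, smul_sub, mul_smul_comm, smul_mul_assoc,
        mul_one, mul_assoc]
      abel
    have a1 := (wn_mul3 (a := star g) (by rwa [norm_star]) hg1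
      (θ (star t * y * t - (l : ℂ) • (1 : B)))).trans
        ((NonUnitalStarAlgHom.norm_apply_le θ _).trans hyl)
    have a2 : ‖(l : ℂ) • (1 - star g * g)‖ ≤ 2 * η ^ 2 := by
      rw [norm_smul, Complex.norm_real, Real.norm_eq_abs]
      exact (mul_le_of_le_one_left (norm_nonneg _) hl1).trans hgg
    have a3 := wsemi_norm.right (star r) _ ((wsemi_norm.right (θ y) _ (iso_norm hts)).trans hθy)
    have a4 := wsemi_norm.left _ r ((wsemi_norm.left (star (θ t * g)) (θ y) (by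
      rw [norm_star]
      exact (wsemi_norm.left _ g (iso_norm hθt)).trans hg1)).trans hθy)
    rw [norm_star] at a3
    rw [e]
    refine (norm_add_le _ _).trans (le_trans (add_le_add (norm_sub_le _ _) (norm_add_le _ _)) ?_)
    linarith
  have h3 := (iso_scalar hs _ _).trans hyl
  have h4 := (iso_scalar hs _ _).trans hd'
  rw [← iso_assoc] at h3 h4
  have e : (μ : ℂ) • (1 : B) = (star (t * s) * θ y * (t * s) - (l : ℂ) • (1 : B)) -
      (star (t * s) * y * (t * s) - (l : ℂ) • (1 : B)) -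
        (star (t * s) * (θ y - y) * (t * s) - (μ : ℂ) • (1 : B)) := by
    rw [mul_sub, sub_mul]; abel
  have h5 : ‖(μ : ℂ) • (1 : B)‖ = ‖θ y - y‖ := by
    rw [norm_smul, norm_one, mul_one, Complex.norm_real, Real.norm_eq_abs, hμ]
  rw [← h5, e]
  refine (norm_sub_le _ _).trans (le_trans (add_le_add (norm_sub_le _ _) h4) ?_)
  nlinarith

theorem lemW (h : Api B) (θ : B →⋆ₐ[ℂ] B) {η : ℝ} (h0 : 0 < η) (h1 : η ≤ 1)
    (hθ : ∀ t : B, star t * t = 1 → 1 - η ^ 2 ≤ ‖star t * θ t‖ ^ 2) {y : B} (hy1 : ‖y‖ ≤ 1) :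
    ‖θ y - y‖ ≤ 18 * η := by
  have h2 := h.lemW_sa θ h0 h1 hθ (wnRe_sa y) ((wnRe_norm y).trans hy1)
  have h3 := h.lemW_sa θ h0 h1 hθ (wnRe_sa (-Complex.I • y))
    ((wnRe_norm _).trans (by rwa [wn_norm_negI]))
  have e : θ y - y = (θ (wnRe y) - wnRe y) +
      Complex.I • (θ (wnRe (-Complex.I • y)) - wnRe (-Complex.I • y)) := by
    conv_lhs => rw [wnRe_add y]
    rw [map_add, map_smul, smul_sub]
    abel
  rw [e]
  refine (norm_add_le _ _).trans ?_
  rw [norm_smul, Complex.norm_I, one_mul]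
  linarith

omit [PartialOrder B] [StarOrderedRing B] in
theorem eq_of_ball {f g : B →⋆ₐ[ℂ] B} (h : ∀ y, ‖y‖ ≤ 1 → f y = g y) (y : B) : f y = g y := by
  have h0 : ((‖y‖ + 1 : ℝ) : ℂ) ≠ 0 := by
    have : ‖y‖ + 1 ≠ 0 := by positivity
    exact_mod_cast this
  have h1 := h (((‖y‖ + 1 : ℝ) : ℂ)⁻¹ • y) (by
    rw [norm_smul, norm_inv, Complex.norm_real, Real.norm_of_nonneg (by positivity),
      inv_mul_le_iff₀ (by positivity)]
    linarith)
  rw [map_smul, map_smul] at h1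
  exact smul_right_injective B (inv_ne_zero h0) h1

theorem exists_lt (h : Api B) (θ : B →⋆ₐ[ℂ] B) (hy : ∃ y, θ y ≠ y) :
    ∃ t : B, star t * t = 1 ∧ ‖star t * θ t‖ < 1 := by
  by_contra hc
  push Not at hc
  obtain ⟨y, hy⟩ := hy
  refine hy (eq_of_ball (g := StarAlgHom.id ℂ B) (fun y hy1 => ?_) y)
  change θ y = y
  rw [← sub_eq_zero, ← norm_le_zero_iff]
  refine le_of_forall_pos_le_add fun ε hε => ?_
  have := h.lemW θ (η := min 1 (ε / 18)) (by positivity) (min_le_left _ _) (fun t ht => by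
    nlinarith [hc t ht, sq_nonneg (min 1 (ε / 18))]) hy1
  linarith [min_le_right 1 (ε / 18)]

theorem near_one (h : Api B) {x : B} (hx : 0 ≤ x) {κ : ℝ} (hκ : 0 ≤ κ) (h1 : ‖x‖ ≤ 1 + κ)
    (h2 : ∀ t : B, star t * t = 1 → 1 ≤ ‖star t * x * t‖) : ‖x - 1‖ ≤ κ := by
  rcases subsingleton_or_nontrivial B with hB | hB
  · rw [Subsingleton.elim (x - 1) 0, norm_zero]; exact hκ
  have hsa : IsSelfAdjoint x := hx.isSelfAdjoint
  have e : cfc (fun r : ℝ => r - 1) x = x - 1 := by
    rw [cfc_sub _ _ x, cfc_id' ℝ x, cfc_const_one ℝ x]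
  rw [← e]
  refine norm_cfc_le hκ fun r hr => ?_
  have h3 : 0 ≤ r := spectrum_nonneg_of_nonneg hx hr
  have h4 : r ≤ 1 + κ := ((le_abs_self r).trans (spectrum.norm_le_norm_of_mem hr)).trans h1
  have h5 : 1 ≤ r := le_of_forall_pos_le_add fun ε hε => by
    obtain ⟨t, ht, ht'⟩ := h.spec hsa hr hε
    have h6 := norm_le_norm_add_norm_sub' (star t * x * t) ((r : ℂ) • (1 : B))
    rw [norm_smul, norm_one, mul_one, Complex.norm_real, Real.norm_of_nonneg h3] at h6
    linarith [h2 t ht]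
  rw [Real.norm_of_nonneg (by linarith)]
  linarith

theorem approx_inner (h : Api B) (θ : B ≃⋆ₐ[ℂ] B) {b : B} {c₀ : ℝ} (hc₀ : 0 < c₀)
    (hb : ∀ t : B, star t * t = 1 → c₀ ≤ ‖star t * b * θ t‖) {η : ℝ} (h0 : 0 < η) (h1 : η ≤ 1) :
    ∃ v ∈ unitary B, ∀ y : B, ‖y‖ ≤ 1 → ‖v * θ y * star v - y‖ ≤ 18 * η := by
  set K : Set ℝ := (fun t => ‖star t * b * θ t‖) '' {t | star t * t = 1} with hK
  have hne : K.Nonempty := ⟨_, 1, by simp, rfl⟩
  have hbd : BddBelow K := ⟨c₀, by rintro _ ⟨t, ht, rfl⟩; exact hb t ht⟩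
  have hc : 0 < sInf K := hc₀.trans_le (le_csInf hne (by rintro _ ⟨t, ht, rfl⟩; exact hb t ht))
  set e := η ^ 2 / 12 with he
  have he0 : 0 < e := by positivity
  have he1 : e ≤ 1 / 12 := by rw [he]; nlinarith
  obtain ⟨_, ⟨t₀, ht₀, rfl⟩, hlt⟩ := exists_lt_of_csInf_lt hne
    (show sInf K < sInf K * (1 + e) by nlinarith)
  obtain ⟨w, hw⟩ : ∃ w, w = (sInf K)⁻¹ • (star t₀ * b * θ t₀) := ⟨_, rfl⟩
  have hw1 : ‖w‖ ≤ 1 + e := by
    rw [hw, norm_smul, Real.norm_of_nonneg (by positivity), inv_mul_le_iff₀ hc]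
    exact hlt.le
  have hw2 : ∀ t : B, star t * t = 1 → 1 ≤ ‖star t * w * θ t‖ := fun t ht => by
    have h2 := csInf_le hbd ⟨t₀ * t, iso_mul ht₀ ht, rfl⟩
    rw [hw, mul_smul_comm, smul_mul_assoc, norm_smul, Real.norm_of_nonneg (by positivity),
      le_inv_mul_iff₀ hc, mul_one]
    simpa only [star_mul, map_mul, mul_assoc] using h2
  have hw3 : ‖w‖ * ‖w‖ ≤ 1 + 3 * e := by nlinarith [norm_nonneg w]
  have h2 : ‖star w * w - 1‖ ≤ 3 * e := h.near_one (star_mul_self_nonneg w) (by positivity)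
    (by rwa [CStarRing.norm_star_mul_self]) fun t ht => by
      have h3 := hw2 _ (iso_map θ.symm ht)
      rw [θ.apply_symm_apply, mul_assoc] at h3
      have h4 := h3.trans (wsemi_norm.left _ _ (by
        rw [norm_star]; exact iso_norm (iso_map θ.symm ht)))
      rw [← mul_assoc, ← star_mul, mul_assoc, CStarRing.norm_star_mul_self]
      nlinarith
  have h3 : ‖w * star w - 1‖ ≤ 3 * e := h.near_one (mul_star_self_nonneg w) (by positivity)
    (by rwa [CStarRing.norm_self_mul_star]) fun t ht => by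
      have h4 := (hw2 t ht).trans (wsemi_norm.right _ _ (iso_norm (iso_map θ ht)))
      have e1 : star t * (w * star w) * t = star t * w * star (star t * w) := by
        simp only [star_mul, star_star, mul_assoc]
      rw [e1, CStarRing.norm_self_mul_star]
      nlinarith
  obtain ⟨v, hv, hvw⟩ := near_unitary (by linarith) h2 h3
  refine ⟨v, hv, fun y hy => h.lemW
    ((θ.trans (Unitary.conjStarAlgAut ℂ B ⟨v, hv⟩) : B ≃⋆ₐ[ℂ] B) : B →⋆ₐ[ℂ] B) h0 h1
    (fun t ht => ?_) hy⟩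
  change _ ≤ ‖star t * (v * θ t * star v)‖ ^ 2
  have h4 := wsemi_norm.right (star t * (v * θ t * star v)) v (wn_norm_un hv)
  have h5 := iso_comp ht (iso_map θ ht) (v - w)
  have h6 := norm_le_norm_add_norm_sub (star t * v * θ t) (star t * w * θ t)
  rw [mul_assoc, mul_assoc, (Unitary.mem_iff.1 hv).1, mul_one, ← mul_assoc] at h4
  rw [← sub_mul, ← mul_sub] at h6
  have h7 : 1 - 6 * e ≤ ‖star t * (v * θ t * star v)‖ := by linarith [hw2 t ht]
  nlinarith

theorem inner_of_approx [Nontrivial B] (h : Api B) (θ : B ≃⋆ₐ[ℂ] B)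
    (ha : ∀ η : ℝ, 0 < η → ∃ v ∈ unitary B, ∀ y : B, ‖y‖ ≤ 1 → ‖v * θ y * star v - y‖ ≤ η) :
    ∃ u ∈ unitary B, ∀ x, θ x = u * x * star u := by
  let P : ℕ → B → Prop := fun n v =>
    v ∈ unitary B ∧ ∀ y : B, ‖y‖ ≤ 1 → ‖v * θ y * star v - y‖ ≤ (1 / 2) ^ n
  have step : ∀ n v, P n v → ∃ v', P (n + 1) v' ∧ ‖v - v'‖ ≤ 4 * (1 / 2) ^ n := by
    rintro n v ⟨hv, hv1⟩
    obtain ⟨v', hv', hv2⟩ := ha ((1 / 2) ^ (n + 1)) (by positivity)
    have a1 := (Unitary.mem_iff.1 hv').1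
    have a2 := (Unitary.mem_iff.1 hv').2
    have hr : v * star v' ∈ unitary B := mul_mem hv (Unitary.star_mem hv')
    obtain ⟨t, c, ht, htc⟩ := h.scalar (v * star v') (show (0 : ℝ) < (1 / 2) ^ (n + 1) by positivity)
    have hy : ‖θ.symm (star v' * t * v')‖ ≤ 1 := by
      rw [StarAlgEquiv.norm_map]
      exact (wn_mul3 (wn_norm_star_un hv') (wn_norm_un hv') t).trans (iso_norm ht)
    have b1 := hv1 _ hy
    have b2 := hv2 _ hy
    rw [θ.apply_symm_apply] at b1 b2
    generalize θ.symm (star v' * t * v') = y at b1 b2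
    have b3 : ‖v * star v' - c • (1 : B)‖ ≤ 2 * (1 / 2) ^ n := by
      have e : v * star v' - c • (1 : B) = (star t * (v * star v') * t - c • (1 : B)) +
          star t * ((v' * (star v' * t * v') * star v' - y) -
            (v * (star v' * t * v') * star v - y)) * (v * star v') := by
        have e1 : v' * (star v' * t * v') * star v' = t := by
          rw [← mul_assoc, ← mul_assoc, a2, one_mul, mul_assoc, a2, mul_one]
        have e2 : v * (star v' * t * v') * star v * (v * star v') = v * star v' * t := by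
          rw [mul_assoc, ← mul_assoc (star v), (Unitary.mem_iff.1 hv).1, one_mul, mul_assoc,
            mul_assoc, a2, mul_one, mul_assoc]
        rw [sub_sub_sub_cancel_right, e1, mul_assoc (star t) (t - _), sub_mul, e2, mul_sub,
          ← mul_assoc (star t) t, ht, one_mul, mul_assoc (star t)]
        abel
      have b4 := (wn_mul3 (a := star t) (by rw [norm_star]; exact iso_norm ht) (wn_norm_un hr)
        ((v' * (star v' * t * v') * star v' - y) - (v * (star v' * t * v') * star v - y))).trans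
          (norm_sub_le _ _)
      rw [e]
      refine (norm_add_le _ _).trans ?_
      rw [pow_succ] at htc b2
      linarith
    obtain ⟨c', hc', hcc⟩ : ∃ c' : ℂ, ‖c'‖ = 1 ∧ ‖c - c'‖ ≤ 2 * (1 / 2) ^ n := by
      refine ⟨Complex.exp (c.arg * Complex.I), Complex.norm_exp_ofReal_mul_I _, ?_⟩
      have b4 := abs_norm_sub_norm_le (c • (1 : B)) (v * star v')
      rw [norm_smul, norm_one, mul_one, CStarRing.norm_of_mem_unitary hr, norm_sub_rev] at b4
      nth_rw 1 [← Complex.norm_mul_exp_arg_mul_I c]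
      rw [← sub_one_mul, norm_mul, Complex.norm_exp_ofReal_mul_I, mul_one, ← Complex.ofReal_one,
        ← Complex.ofReal_sub, Complex.norm_real, Real.norm_eq_abs]
      exact b4.trans b3
    have c1 : c' * star c' = 1 := by
      rw [Complex.star_def, Complex.mul_conj', hc']; simp
    refine ⟨c' • v', ⟨Unitary.mem_iff.2 ⟨?_, ?_⟩, fun y hy => ?_⟩, ?_⟩
    · rw [star_smul, smul_mul_smul_comm, mul_comm, c1, a1, one_smul]
    · rw [star_smul, smul_mul_smul_comm, c1, a2, one_smul]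
    · rw [star_smul, smul_mul_assoc, smul_mul_smul_comm, c1, one_smul]
      exact hv2 y hy
    · have e : v - c' • v' = ((v * star v' - c • (1 : B)) + (c - c') • (1 : B)) * v' := by
        rw [sub_smul, sub_add_sub_cancel, sub_mul, mul_assoc, a1, mul_one, smul_mul_assoc, one_mul]
      rw [e]
      refine (wsemi_norm.right _ _ (wn_norm_un hv')).trans ((norm_add_le _ _).trans ?_)
      rw [norm_smul, norm_one, mul_one]
      linarith
  choose! f hf hf' using step
  obtain ⟨v₀, hv₀⟩ : ∃ v, P 0 v := by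
    obtain ⟨v, hv, hv'⟩ := ha ((1 / 2) ^ 0) (by positivity)
    exact ⟨v, hv, hv'⟩
  let v : ℕ → B := fun n => Nat.rec v₀ f n
  have hv : ∀ n, P n (v n) := fun n => by
    induction n with
    | zero => exact hv₀
    | succ n ih => exact hf n _ ih
  obtain ⟨u, hu⟩ := cauchySeq_tendsto_of_complete (cauchySeq_of_le_geometric (1 / 2) 4
    (by norm_num) (f := v) fun n => by rw [dist_eq_norm]; exact hf' n _ (hv n))
  have hu1 : u ∈ unitary B :=
    isClosed_unitary.mem_of_tendsto hu (Eventually.of_forall fun n => (hv n).1)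
  refine ⟨star u, Unitary.star_mem hu1, fun x => eq_of_ball (f := (θ : B →⋆ₐ[ℂ] B))
    (g := ((Unitary.conjStarAlgAut ℂ B ⟨star u, Unitary.star_mem hu1⟩ : B ≃⋆ₐ[ℂ] B) : B →⋆ₐ[ℂ] B))
    (fun y hy => ?_) x⟩
  change θ y = star u * y * star (star u)
  have h1 : ‖u * θ y * star u - y‖ ≤ 0 := le_of_tendsto_of_tendsto'
    (((hu.mul_const (θ y)).mul hu.star).sub_const y).norm
    (tendsto_pow_atTop_nhds_zero_of_lt_one (by norm_num) (by norm_num)) fun n => (hv n).2 y hy
  rw [norm_le_zero_iff, sub_eq_zero] at h1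
  conv_rhs => rw [← h1]
  rw [star_star, ← mul_assoc, ← mul_assoc, (Unitary.mem_iff.1 hu1).1, one_mul, mul_assoc,
    (Unitary.mem_iff.1 hu1).1, mul_one]

theorem outer_iso [Nontrivial B] (h : Api B) (θ : B ≃⋆ₐ[ℂ] B)
    (ho : ¬ ∃ u ∈ unitary B, ∀ x, θ x = u * x * star u) (b : B) {ε : ℝ} (hε : 0 < ε) :
    ∃ t : B, star t * t = 1 ∧ ‖star t * b * θ t‖ ≤ ε := by
  by_contra hc
  push Not at hc
  refine ho (h.inner_of_approx θ fun η hη => ?_)
  obtain ⟨v, hv, hv'⟩ := h.approx_inner θ hε (fun t ht => (hc t ht).le) (η := min 1 (η / 18))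
    (by positivity) (min_le_left _ _)
  exact ⟨v, hv, fun y hy => (hv' y hy).trans (by linarith [min_le_right 1 (η / 18)])⟩

end Api

/-- An outer automorphism moves almost central selfadjoint contractions in norm. -/
theorem cnn_of_outer [TopologicalSpace.SeparableSpace B] [Nontrivial B] (S : DData B)
    (au : ∀ (p : B →⋆ₐ[ℂ] B) (s : Finset B) (ε : ℝ), 0 < ε →
      ∃ u ∈ unitary B, ∀ x ∈ s, ‖u * x * star u - p x‖ ≤ ε)
    (hpi : ∀ y : B, 0 ≤ y → y ≠ 0 → ∃ s, star s * y * s = 1) (θ : B ≃⋆ₐ[ℂ] B)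
    (ho : ¬ ∃ u ∈ unitary B, ∀ x, θ x = u * x * star u) :
    ∃ δ : ℝ, 0 < δ ∧ ∀ (s : Finset B) (ε : ℝ), 0 < ε → ∃ y : B, IsSelfAdjoint y ∧ ‖y‖ ≤ 1 ∧
      (∀ a ∈ s, ‖y * a - a * y‖ ≤ ε) ∧ δ ≤ ‖θ y - y‖ := by
  by_contra hf
  have h := api_of_pi hpi
  have hs := slow_of_not wsemi_norm θ hf
  obtain ⟨s, ε, hε, hs'⟩ := hs (1 / 4) (by norm_num)
  obtain ⟨io, ka, hc, hd, hcen⟩ := exists_central S au s hε
  obtain ⟨z, hz1, hz2, hz3⟩ := exists_z au wsemi_norm hs ka
  obtain ⟨w, hw⟩ := cauchySeq_tendsto_of_complete (u := z) (Metric.cauchySeq_iff.2 fun ε hε => by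
    obtain ⟨N, hN⟩ := hz2 (ε / 2) (half_pos hε)
    exact ⟨N, fun m hm n hn => by
      rw [dist_eq_norm]
      exact (hN m hm n hn).trans_lt (half_lt_self hε)⟩)
  have hw1 : w ∈ unitary B := isClosed_unitary.mem_of_tendsto hw (Eventually.of_forall hz1)
  have hw2 : ∀ x, θ (ka x) * w = w * ka (θ x) := fun x => by
    rw [← sub_eq_zero, ← norm_eq_zero]
    exact tendsto_nhds_unique ((hw.const_mul _).sub (hw.mul_const _)).norm (hz3 x)
  have h1 : ∀ d ∈ Submodule.span ℂ {z : B | ∃ x y, z = io x * ka y}, ∀ ε : ℝ, 0 < ε →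
      ∀ t : B, star t * t = 1 → ∃ s : B, star s * s = 1 ∧
        ‖star (ka (t * s)) * d * ka (θ (t * s))‖ ≤ ε := by
    intro d hd
    induction hd using Submodule.span_induction with
    | mem d hd =>
      intro ε hε t _
      obtain ⟨a, b, rfl⟩ := hd
      obtain ⟨s, hs, hs2⟩ := h.outer_iso θ ho (star t * b * θ t) (ε := ε / (‖io a‖ + 1))
        (by positivity)
      refine ⟨s, hs, ?_⟩
      have e : star (ka (t * s)) * (io a * ka b) * ka (θ (t * s)) =
          io a * ka (star s * (star t * b * θ t) * θ s) := by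
        rw [← map_star, ← mul_assoc, ← (hc a _).eq]
        simp only [star_mul, map_mul, mul_assoc]
      rw [e]
      calc _ ≤ (‖io a‖ + 1) * (ε / (‖io a‖ + 1)) := (norm_mul_le _ _).trans
            (mul_le_mul (by linarith) ((NonUnitalStarAlgHom.norm_apply_le ka _).trans hs2)
              (norm_nonneg _) (by positivity))
        _ = ε := by field_simp
    | zero => exact fun ε hε t _ => ⟨1, by simp, by simpa using hε.le⟩
    | add d d' _ _ hd hd' =>
      intro ε hε t ht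
      obtain ⟨s, hs, hs2⟩ := hd (ε / 2) (half_pos hε) t ht
      obtain ⟨s', hs', hs3⟩ := hd' (ε / 2) (half_pos hε) (t * s) (iso_mul ht hs)
      refine ⟨s * s', iso_mul hs hs', ?_⟩
      have h2 := iso_comp (iso_map ka hs') (iso_map ka (iso_map θ hs'))
        (star (ka (t * s)) * d * ka (θ (t * s)))
      have e : star (ka s') * (star (ka (t * s)) * d * ka (θ (t * s))) * ka (θ s') =
          star (ka (t * s * s')) * d * ka (θ (t * s * s')) := by
        simp only [star_mul, map_mul, mul_assoc]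
      rw [e] at h2
      rw [← mul_assoc t, mul_add, add_mul]
      refine (norm_add_le _ _).trans ?_
      linarith
    | smul c d _ hd =>
      intro ε hε t ht
      obtain ⟨s, hs, hs2⟩ := hd (ε / (‖c‖ + 1)) (by positivity) t ht
      refine ⟨s, hs, ?_⟩
      rw [mul_smul_comm, smul_mul_assoc, norm_smul]
      calc _ ≤ (‖c‖ + 1) * (ε / (‖c‖ + 1)) :=
            mul_le_mul (by linarith) hs2 (norm_nonneg _) (by positivity)
        _ = ε := by field_simp
  obtain ⟨d, hd1, hd2⟩ := hd.exists_dist_lt w (show (0 : ℝ) < 1 / 4 by norm_num)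
  rw [dist_eq_norm] at hd2
  obtain ⟨t, ht, ht2⟩ := h1 d hd1 (1 / 4) (by norm_num) 1 (by simp)
  rw [one_mul] at ht2
  have hk := iso_map ka ht
  have h2 := hs' (ka t) (iso_norm hk) (hcen t (iso_norm ht))
  have h3 := iso_comp hk (iso_map ka (iso_map θ ht)) (w - d)
  have h4 := wn_mul3 (a := star (ka t)) (by rw [norm_star]; exact iso_norm hk) (wn_norm_un hw1)
    (θ (ka t) - ka t)
  have e : w = star (ka t) * (w - d) * ka (θ t) + star (ka t) * d * ka (θ t) -
      star (ka t) * (θ (ka t) - ka t) * w := by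
    rw [← add_mul, ← mul_add, sub_add_cancel, mul_assoc, ← hw2, mul_sub, hk, sub_mul, one_mul,
      mul_assoc, sub_sub_cancel]
  have h5 := CStarRing.norm_of_mem_unitary hw1
  rw [e] at h5
  have h6 := norm_sub_le (star (ka t) * (w - d) * ka (θ t) + star (ka t) * d * ka (θ t))
    (star (ka t) * (θ (ka t) - ka t) * w)
  have h7 := norm_add_le (star (ka t) * (w - d) * ka (θ t)) (star (ka t) * d * ka (θ t))
  rw [← e] at h5
  nth_rw 1 [← e] at h6
  linarith

/-- Lemma W inside a closed subalgebra. -/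
theorem lemW_sub (C : StarSubalgebra ℂ B) (hC : IsClosed (C : Set B)) (θ : B ≃⋆ₐ[ℂ] B)
    (hθ : ∀ x ∈ C, θ x ∈ C)
    (hpi : ∀ a ∈ C, 0 ≤ a → ‖a‖ = 1 → ∀ ε : ℝ, 0 < ε →
      ∃ t ∈ C, star t * t = 1 ∧ ‖a * t - t‖ ≤ ε)
    (hy : ∃ y ∈ C, θ y ≠ y) : ∃ t ∈ C, star t * t = 1 ∧ ‖star t * θ t‖ < 1 := by
  let θ' : C →⋆ₐ[ℂ] C := ((θ : B →⋆ₐ[ℂ] B).comp C.subtype).codRestrict C fun x => hθ x x.2
  have key := @Api.exists_lt C _ (CStarAlgebra.spectralOrder C)
    (CStarAlgebra.spectralOrderedRing C) (fun a ha h1 ε hε => by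
      have h0 : (0 : B) ≤ (a : B) := by
        let _ := CStarAlgebra.spectralOrder C
        have _ := CStarAlgebra.spectralOrderedRing C
        obtain ⟨b, rfl⟩ := CStarAlgebra.nonneg_iff_eq_star_mul_self.1 ha
        exact star_mul_self_nonneg (b : B)
      obtain ⟨t, ht, h2, h3⟩ := hpi a a.2 h0 h1 ε hε
      exact ⟨⟨t, ht⟩, Subtype.ext h2, h3⟩) θ' (by
        obtain ⟨y, hy, hy'⟩ := hy
        exact ⟨⟨y, hy⟩, fun h => hy' (congrArg Subtype.val h)⟩)
  obtain ⟨t, ht, ht'⟩ := key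
  exact ⟨t, t.2, congrArg Subtype.val ht, ht'⟩

end Pool.Agent.Izumi
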