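import Pool.Agent.Lib.MP_b2135d_an.YS5
import Pool.Agent.Lib.MP_b2135d_an.WN1
import Pool.Agent.Lib.MP_b2135d_an.WN2

/-! Outer automorphisms are centrally nontrivial (section N in the working form). -/

namespace Pool.Agent.Izumi

open scoped ComplexOrder

variable {D : Type} [CStarAlgebra D] [PartialOrder D] [StarOrderedRing D]

theorem SSA.cn_n2 (S : SSA D) {τ : D →ₚ[ℂ] ℂ} (hτ : IsTracialState τ) (θ : D ≃⋆ₐ[ℂ] D)
    (hn : ¬ InnerOnWeakClosure τ θ) : CN (n2 τ) θ := by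
  have := S.sep
  obtain ⟨δ, h0, h⟩ := cn_of_outer S.toDData S.au_end hτ (S.trUniq hτ) (S.faith hτ) θ hn
  exact ⟨δ, h0, fun s ε hε => (h s ε hε).imp fun _ hy => hy.2⟩

theorem SSA.cn_norm (S : SSA D) (hpi : PI D) (θ : D ≃⋆ₐ[ℂ] D) (hn : ¬ IsInnerAut θ) :
    CN (fun x => ‖x‖) θ := by
  have := S.sep
  have := S.nontriv
  obtain ⟨δ, h0, h⟩ := cnn_of_outer S.toDData S.au_end hpi θ hn
  exact ⟨δ, h0, fun s ε hε => (h s ε hε).imp fun _ hy => hy.2⟩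

theorem SSA.n2_hom (S : SSA D) {τ : D →ₚ[ℂ] ℂ} (hτ : IsTracialState τ) (p : D →⋆ₐ[ℂ] D) (x : D) :
    n2 τ (p x) = n2 τ x := (S.isN_n2 hτ).hom p x

end Pool.Agent.Izumi
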