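import Pool.Agent.Lib.MP_b2135d_an.YS0
import Pool.Agent.Lib.MP_b2135d_an.OA
import Pool.Agent.Lib.MP_b2135d_an.UB

/-! One sided intertwining (PLAN section YO). -/

namespace Pool.Agent.Izumi

open scoped ComplexOrder
open Filter Topology

theorem half2 {G D : Type} [Group G] [Countable G] [CStarAlgebra D]
    [TopologicalSpace.SeparableSpace D] (α ρ δ : G →* (D ≃⋆ₐ[ℂ] D)) (ι₁ ι₂ : D →⋆ₐ[ℂ] D)
    (hi : Function.Injective ι₁) (e₁ : ∀ g x, ι₁ (α g x) = δ g (ι₁ x))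
    (e₂ : ∀ g x, ι₂ (ρ g x) = δ g (ι₂ x)) (hc : ∀ x y, Commute (ι₁ x) (ι₂ y))
    (hd : Dense (Submodule.span ℂ {z : D | ∃ x y, z = ι₁ x * ι₂ y} : Set D)) (hα : GoodUP α)
    (hδ : GoodUP δ) : CocycleConjugate δ α := by
  classical
  obtain ⟨A', _, qA, γA, hqA, actA, embA, -⟩ := hα
  obtain ⟨B', _, qB, γB, hqB, actB, -, uniB⟩ := hδ
  obtain ⟨φ, hφF, hφ⟩ := embA (qA.comp (Bdd.const D))
    (fun g x => ⟨α g x, by
      change γA g (qA (Bdd.const D x)) = qA (Bdd.const D (α g x))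
      rw [actA]; rfl⟩) ρ
  obtain ⟨J, hJ⟩ := hqA.exists_map hqB ι₁
  have hJc : ∀ a, J (qA (Bdd.const D a)) = qB (Bdd.const D (ι₁ a)) := fun a => hJ _
  have hJγ : ∀ g y, J (γA g y) = γB g (J y) := by
    intro g y
    obtain ⟨x, rfl⟩ := hqA.surj y
    rw [actA, hJ, hJ, actB]
    exact congrArg qB (Subtype.ext (funext fun n => e₁ g (x.1 n)))
  let c : D →⋆ₐ[ℂ] B' := (qB.comp (Bdd.const D)).comp ι₁
  obtain ⟨u, hu, huT, huF, huc⟩ := uniB c
    (fun g x => ⟨α g x, by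
      change γB g (qB (Bdd.const D (ι₁ x))) = qB (Bdd.const D (ι₁ (α g x)))
      rw [actB, e₁]; rfl⟩) ρ (J.comp φ) ((qB.comp (Bdd.const D)).comp ι₂)
    (fun x => mem_cent_range.2 fun a => by
      have := (mem_cent_range.1 (hφF x) a).map J
      change Commute (J (φ x)) (J (qA (Bdd.const D a))) at this
      rwa [hJc] at this)
    (fun x => mem_cent_range.2 fun a => ((hc a x).symm.map (Bdd.const D)).map qB)
    (fun h x => by
      change J (φ _) = γB h (J (φ x))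
      rw [hφ, hJγ])
    (fun h x => by
      change qB (Bdd.const D (ι₂ (ρ h x))) = γB h (qB (Bdd.const D (ι₂ x)))
      rw [actB, e₂]; rfl)
  have huc' : ∀ a, Commute u (c a) := mem_cent_range.1 huT
  have hsu : star u * u = 1 := (Unitary.mem_iff.1 hu).1
  have hus : u * star u = 1 := (Unitary.mem_iff.1 hu).2
  have hspan : ∀ z ∈ Submodule.span ℂ {z : D | ∃ x y, z = ι₁ x * ι₂ y},
      ∃ w : A', star u * qB (Bdd.const D z) * u = J w := by
    intro z hz
    induction hz using Submodule.span_induction with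
    | mem z hz =>
      obtain ⟨x, y, rfl⟩ := hz
      refine ⟨qA (Bdd.const D x) * φ y, ?_⟩
      have h1 : qB (Bdd.const D (ι₂ y)) = u * J (φ y) * star u := (huc y).symm
      have h2 : qB (Bdd.const D (ι₁ x)) * u = u * qB (Bdd.const D (ι₁ x)) := (huc' x).eq.symm
      rw [map_mul, map_mul, map_mul, hJc, h1]
      calc _ = star u * (qB (Bdd.const D (ι₁ x)) * u) * J (φ y) * (star u * u) := by noncomm_ring
        _ = _ := by rw [h2, hsu, mul_one, ← mul_assoc, hsu, one_mul]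
    | zero => exact ⟨0, by simp⟩
    | add z w _ _ hz hw =>
      obtain ⟨a, ha⟩ := hz
      obtain ⟨b, hb⟩ := hw
      exact ⟨a + b, by rw [map_add, map_add, mul_add, add_mul, ha, hb, map_add]⟩
    | smul k z _ hz =>
      obtain ⟨a, ha⟩ := hz
      exact ⟨k • a, by rw [map_smul, map_smul, mul_smul_comm, smul_mul_assoc, ha, map_smul]⟩
  obtain ⟨z, hz, hzu⟩ := hqB.exists_unitary_lift hu
  refine osi ι₁ hi e₁ fun sA sB sG ε hε => ?_
  have E1 : ∀ a : D, ∀ᶠ n in (hyperfilter ℕ : Filter ℕ), ‖z.1 n * ι₁ a - ι₁ a * z.1 n‖ ≤ ε := by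
    intro a
    have h0 : ‖qB (z * Bdd.const D (ι₁ a) - Bdd.const D (ι₁ a) * z)‖ < ε := by
      rw [map_sub, map_mul, map_mul, hz]
      have := (huc' a).eq
      change u * qB (Bdd.const D (ι₁ a)) = qB (Bdd.const D (ι₁ a)) * u at this
      rwa [this, sub_self, norm_zero]
    exact (hqB.eventually_lt _ h0).mono fun n hn => hn.le
  have E2 : ∀ b : D, ∀ᶠ n in (hyperfilter ℕ : Filter ℕ),
      ∃ a, ‖star (z.1 n) * b * z.1 n - ι₁ a‖ ≤ ε := by
    intro b
    obtain ⟨b', hb', hbb⟩ := hd.exists_dist_lt b hε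
    obtain ⟨w, hw⟩ := hspan b' hb'
    obtain ⟨x, rfl⟩ := hqA.surj w
    have h0 : ‖qB (star z * Bdd.const D b * z - Bdd.map ι₁ x)‖ < ε := by
      rw [map_sub, map_mul, map_mul, map_star, hz, ← hJ, ← hw, ← sub_mul, ← mul_sub, ← map_sub,
        ← map_sub, CStarRing.norm_mul_mem_unitary _ hu,
        CStarRing.norm_mem_unitary_mul _ (Unitary.star_mem hu), hqB.norm_const]
      rwa [dist_eq_norm] at hbb
    exact (hqB.eventually_lt _ h0).mono fun n hn => ⟨x.1 n, hn.le⟩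
  have E3 : ∀ g : G, ∀ᶠ n in (hyperfilter ℕ : Filter ℕ), ‖δ g (z.1 n) - z.1 n‖ ≤ ε := by
    intro g
    have h0 : ‖qB (Bdd.map (δ g : D →⋆ₐ[ℂ] D) z - z)‖ < ε := by
      rw [map_sub, ← actB, hz, huF g, sub_self, norm_zero]
      exact hε
    exact (hqB.eventually_lt _ h0).mono fun n hn => hn.le
  obtain ⟨n, h1, h2, h3⟩ := (((Finset.eventually_all sA).2 fun a _ => E1 a).and
    (((Finset.eventually_all sB).2 fun b _ => E2 b).and
      ((Finset.eventually_all sG).2 fun g _ => E3 g))).exists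
  exact ⟨z.1 n, hzu n, h1, h2, h3⟩

end Pool.Agent.Izumi
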