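import Pool.Agent.Lib.MP_b2135d_an.YDefs

/-! Norming states and representations (PLAN section YS1). -/

namespace Pool.Agent.Izumi

open scoped ComplexOrder
open Filter Topology

variable {A : Type} [CStarAlgebra A]

theorem ys_norm_one : ‖(1 : A)‖ ≤ 1 := by
  rcases subsingleton_or_nontrivial A with _ | _
  · simp [Subsingleton.elim (1 : A) 0]
  · exact norm_one.le

section Ord

variable [PartialOrder A] [StarOrderedRing A]

theorem ys_pos {f : A →ₗ[ℂ] ℂ} (h1 : f 1 = 1) (h2 : ∀ x, ‖f x‖ ≤ ‖x‖) {x : A} (hx : 0 ≤ x) :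
    0 ≤ f x := by
  have hs := (IsSelfAdjoint.of_nonneg hx).star_eq
  have h3 : ∀ t : ℝ, 2 * (f x).im * t ≤ ‖x‖ ^ 2 := fun t => by
    have a1 := CStarRing.norm_star_mul_self (x := x + (t * Complex.I : ℂ) • (1 : A))
    rw [show star (x + (t * Complex.I : ℂ) • (1 : A)) * (x + (t * Complex.I : ℂ) • (1 : A))
      = x * x + ((t ^ 2 : ℝ) : ℂ) • 1 by
        simp [hs, mul_add, add_mul, smul_smul, sq, mul_mul_mul_comm (t : ℂ) Complex.I]] at a1
    have a2 := h2 (x + (t * Complex.I : ℂ) • (1 : A))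
    have a3 := norm_add_le (x * x) (((t ^ 2 : ℝ) : ℂ) • (1 : A))
    rw [norm_smul, Complex.norm_real, Real.norm_of_nonneg (sq_nonneg t)] at a3
    have a4 := Complex.sq_norm (f (x + (t * Complex.I : ℂ) • (1 : A)))
    rw [Complex.normSq_apply] at a4
    simp only [map_add, map_smul, h1, smul_eq_mul, mul_one, Complex.add_re, Complex.add_im,
      Complex.mul_re, Complex.mul_im, Complex.ofReal_re, Complex.ofReal_im, Complex.I_re,
      Complex.I_im] at a2 a4
    nlinarith [norm_mul_le x x, ys_norm_one (A := A), sq_nonneg t,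
      norm_nonneg (f x + t * Complex.I), mul_self_nonneg (f x).re, mul_self_nonneg (f x).im]
  have h4 : (f x).im = 0 := by
    by_contra c
    have := h3 ((‖x‖ ^ 2 + 1) / (2 * (f x).im))
    rw [mul_div_cancel₀ _ (by simpa using c)] at this
    linarith
  have h5 := (h2 (algebraMap ℝ A ‖x‖ - x)).trans ((CStarAlgebra.norm_le_iff_le_algebraMap _
    (norm_nonneg x) (sub_nonneg.2 (IsSelfAdjoint.of_nonneg hx).le_algebraMap_norm_self)).2
      (sub_le_self _ hx))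
  rw [Algebra.algebraMap_eq_smul_one, ← Complex.coe_smul, map_sub, map_smul, h1] at h5
  have h6 := (Complex.re_le_norm _).trans h5
  exact Complex.nonneg_iff.2 ⟨by simpa using h6, h4.symm⟩

theorem state_of_norm (f : A →L[ℂ] ℂ) (h1 : f 1 = 1) (hn : ‖f‖ ≤ 1) :
    ∃ φ : A →ₚ[ℂ] ℂ, ∀ x, φ x = f x :=
  ⟨.mk₀ f.toLinearMap fun _ hx => ys_pos h1 (fun x => by simpa using f.le_of_opNorm_le hn x) hx,
    fun _ => rfl⟩

theorem state_norm_le (φ : A →ₚ[ℂ] ℂ) (h : φ 1 = 1) (x : A) : ‖φ x‖ ≤ ‖x‖ := by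
  have h1 : n2 φ 1 = 1 := by simp [n2, h]
  have h2 := ca_cs φ 1 x
  have h3 := ca_left φ x 1
  rw [star_one, one_mul, h1, one_mul] at h2
  rw [mul_one, h1, mul_one] at h3
  exact h2.trans h3

theorem exists_norming_state [Nontrivial A] {y : A} (hy : 0 ≤ y) :
    ∃ φ : A →ₚ[ℂ] ℂ, φ 1 = 1 ∧ φ y = (‖y‖ : ℂ) := by
  obtain ⟨g, h1, h2⟩ := exists_dual_vector'' ℂ (algebraMap ℝ A 1 + y)
  have h3 : ‖y‖ + 1 ≤ ‖algebraMap ℝ A 1 + y‖ :=
    (le_abs_self _).trans (spectrum.norm_le_norm_of_mem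
      (spectrum.add_mem_add_iff.2 (CStarAlgebra.norm_mem_spectrum_of_nonneg hy)))
  have h4 : ∀ x, ‖g x‖ ≤ ‖x‖ := fun x => by simpa using g.le_of_opNorm_le h1 x
  rw [map_one] at h2 h3
  rw [map_add] at h2
  have h5 := congrArg Complex.re h2
  simp only [Complex.add_re, Complex.coe_algebraMap, Complex.ofReal_re] at h5
  have a1 := h4 1
  have a2 := h4 y
  rw [norm_one] at a1
  have a3 := Complex.re_le_norm (g 1)
  have a4 := Complex.re_le_norm (g y)
  have h6 : (g 1).re = 1 := by linarith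
  have h7 : (g y).re = ‖y‖ := by linarith
  have h8 : ∀ z : ℂ, ‖z‖ ≤ z.re → z = z.re := fun z hz => by
    have b1 := Complex.sq_norm z
    rw [Complex.normSq_apply] at b1
    refine Complex.ext rfl ?_
    rw [Complex.ofReal_im]
    nlinarith [norm_nonneg z, mul_self_nonneg z.im, Complex.re_le_norm z]
  have h9 : g 1 = 1 := by rw [h8 (g 1) (by linarith), h6, Complex.ofReal_one]
  obtain ⟨φ, hφ⟩ := state_of_norm g h9 h1
  exact ⟨φ, (hφ 1).trans h9, (hφ y).trans ((h8 (g y) (by linarith)).trans (by rw [h7]))⟩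

theorem exists_state_rep (φ : A →ₚ[ℂ] ℂ) (h : φ 1 = 1) :
    ∃ (H : Type) (_ : NormedAddCommGroup H) (_ : InnerProductSpace ℂ H) (_ : CompleteSpace H)
      (π : A →⋆ₐ[ℂ] (H →L[ℂ] H)) (ξ : H), ‖ξ‖ = 1 ∧ ∀ a, inner ℂ ξ (π a ξ) = φ a := by
  refine ⟨φ.GNS, inferInstance, inferInstance, inferInstance, φ.gnsStarAlgHom,
    (φ.toPreGNS 1 : φ.PreGNS), ?_, fun a => ?_⟩
  · rw [UniformSpace.Completion.norm_coe, ← ca_n2_eq]
    simp [n2, h]
  · change inner ℂ _ (φ.gnsNonUnitalStarAlgHom a _) = _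
    rw [PositiveLinearMap.gnsNonUnitalStarAlgHom_apply_coe, UniformSpace.Completion.inner_coe]
    change φ (star 1 * (a * 1)) = _
    rw [star_one, one_mul, mul_one]

/-- A state that vanishes on a proper two-sided ideal. -/
theorem exists_state_ker {a : A} (h : (1 : A) ∉ Submodule.span ℂ {z | ∃ x y, z = x * a * y}) :
    ∃ φ : A →ₚ[ℂ] ℂ, φ 1 = 1 ∧ ∀ x y, φ (x * a * y) = 0 := by
  obtain ⟨I, hI⟩ : ∃ I, I = Submodule.span ℂ {z | ∃ x y, z = x * a * y} := ⟨_, rfl⟩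
  have h0 : ∀ z ∈ I, ∀ w, w * z ∈ I := fun z hz w => by
    rw [hI] at hz ⊢
    induction hz using Submodule.span_induction with
    | mem _ h =>
      obtain ⟨x, y, rfl⟩ := h
      exact Submodule.subset_span ⟨w * x, y, by simp [mul_assoc]⟩
    | zero => simp
    | add _ _ _ _ h1 h2 => rw [mul_add]; exact add_mem h1 h2
    | smul c _ _ h1 => rw [mul_smul_comm]; exact Submodule.smul_mem _ _ h1
  have h1 : ‖I.mkQ 1‖ = 1 := le_antisymm ((Submodule.Quotient.norm_mk_le I 1).trans ys_norm_one)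
    (QuotientAddGroup.le_norm_iff.2 fun m hm => not_lt.1 fun c => by
      obtain ⟨w, hw⟩ := (isUnit_one_sub_of_norm_lt_one c).exists_left_inv
      exact h (hI ▸ hw ▸ h0 _ ((Submodule.Quotient.eq I).1 hm.symm) w))
  obtain ⟨g, h2, h3⟩ := exists_dual_vector'' ℂ (I.mkQ 1)
  have h4 : g (I.mkQ 1) = 1 := h3.trans (by simp only [h1]; simp)
  refine ⟨.mk₀ (g.toLinearMap ∘ₗ I.mkQ) fun x hx => ys_pos h4 (fun x => (g.le_of_opNorm_le h2 _).trans
    (by simpa using Submodule.Quotient.norm_mk_le I x)) hx, h4, fun x y => ?_⟩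
  change g (I.mkQ (x * a * y)) = 0
  rw [Submodule.mkQ_apply, (Submodule.Quotient.mk_eq_zero I).2 (hI ▸ Submodule.subset_span
    ⟨_, _, rfl⟩), map_zero]

end Ord

theorem exists_norming_rep [Nontrivial A] (x : A) :
    ∃ (H : Type) (_ : NormedAddCommGroup H) (_ : InnerProductSpace ℂ H) (_ : CompleteSpace H)
      (π : A →⋆ₐ[ℂ] (H →L[ℂ] H)) (ξ : H), ‖ξ‖ = 1 ∧ ‖π x ξ‖ = ‖x‖ := by
  let _ := CStarAlgebra.spectralOrder A
  have := CStarAlgebra.spectralOrderedRing A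
  obtain ⟨φ, h1, h2⟩ := exists_norming_state (star_mul_self_nonneg x)
  obtain ⟨H, _, _, _, π, ξ, h3, h4⟩ := exists_state_rep φ h1
  refine ⟨H, _, _, inferInstance, π, ξ, h3, ?_⟩
  have h5 := h4 (star x * x)
  rw [h2, map_mul, map_star, mul_apply_eq_comp, ContinuousLinearMap.star_eq_adjoint,
    ContinuousLinearMap.adjoint_inner_right, inner_self_eq_norm_sq_to_K,
    CStarRing.norm_star_mul_self, ← sq] at h5
  have h6 : ‖π x ξ‖ ^ 2 = ‖x‖ ^ 2 := by
    apply Complex.ofReal_injective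
    rw [← h5, Complex.ofReal_pow]
    rfl
  exact (pow_left_inj₀ (norm_nonneg _) (norm_nonneg _) two_ne_zero).1 h6

end Pool.Agent.Izumi
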