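import Pool.Agent.Lib.MP_b2135d_an.YS0

/-! Operators on the tensor product of two Hilbert spaces (PLAN section YS2). -/

namespace Pool.Agent.Izumi

open scoped ComplexOrder
open Filter Topology TensorProduct

section Hilb

variable {H K : Type} [NormedAddCommGroup H] [InnerProductSpace ℂ H]
  [NormedAddCommGroup K] [InnerProductSpace ℂ K]

theorem norm_sum_mapL_comm (n : ℕ) (x : Fin n → H →L[ℂ] H) (y : Fin n → K →L[ℂ] K) :
    ‖∑ i, TensorProduct.mapL (y i) (x i)‖ = ‖∑ i, TensorProduct.mapL (x i) (y i)‖ := by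
  rw [← ContinuousLinearMap.opNorm_comp_linearIsometryEquiv _ (TensorProduct.commIsometry ℂ H K),
    ← ContinuousLinearMap.opNorm_linearIsometryEquiv_comp (TensorProduct.commIsometry ℂ H K),
    ContinuousLinearMap.finsetSum_comp, ContinuousLinearMap.comp_finsetSum]
  exact congrArg _ (Finset.sum_congr rfl fun i _ => TensorProduct.mapL_comp_commIsometry _ _)

theorem ys_theta [CompleteSpace H] [CompleteSpace K] {D₁ D₂ : Type} [CStarAlgebra D₁]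
    [CStarAlgebra D₂] (π : D₁ →⋆ₐ[ℂ] (H →L[ℂ] H)) (ρ : D₂ →⋆ₐ[ℂ] (K →L[ℂ] K)) :
    ∃ Θ : D₁ ⊗[ℂ] D₂ →ₗ[ℂ] (H ⊗[ℂ] K →L[ℂ] H ⊗[ℂ] K),
      (∀ a b, Θ (a ⊗ₜ b) = mapL (π a) (ρ b)) ∧ ∀ s t, Θ (s * t) = Θ s * Θ t := by
  obtain ⟨Θ, hΘ⟩ : ∃ Θ : D₁ ⊗[ℂ] D₂ →ₗ[ℂ] (H ⊗[ℂ] K →L[ℂ] H ⊗[ℂ] K),
      ∀ p q, Θ (p ⊗ₜ q) = mapL (π p) (ρ q) :=
    ⟨lift (LinearMap.mk₂ ℂ (fun p q => mapL (π p) (ρ q))
      (fun _ _ _ => by rw [map_add, mapL_add_left]) (fun _ _ _ => by rw [map_smul, mapL_smul_left])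
      (fun _ _ _ => by rw [map_add, mapL_add_right]) fun _ _ _ => by rw [map_smul, mapL_smul_right]),
      fun _ _ => rfl⟩
  refine ⟨Θ, hΘ, fun s t => ?_⟩
  induction s using TensorProduct.induction_on with
  | zero => simp
  | add s s' h h' => rw [add_mul, map_add, map_add, h, h', add_mul]
  | tmul a b =>
    induction t using TensorProduct.induction_on with
    | zero => simp
    | add t t' h h' => rw [mul_add, map_add, map_add, h, h', mul_add]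
    | tmul c d => rw [Algebra.TensorProduct.tmul_mul_tmul, hΘ, hΘ, hΘ, map_mul, map_mul, mapL_mul]

end Hilb

variable {D : Type} [CStarAlgebra D] {al be : D →⋆ₐ[ℂ] D}

theorem ys_core (e : D ⊗[ℂ] D →ₐ[ℂ] D) (he : ∀ a b, e (a ⊗ₜ b) = al a * be b) (hd : DenseRange e)
    (hf : AU be al) {R : Type} [NormedRing R] (L : D → R) (Θ : D ⊗[ℂ] D → R)
    (b1 : ∀ s t, Θ (s - t) = Θ s - Θ t) (b2 : ∀ s t, Θ (s * t) = Θ s * Θ t)
    (b3 : ∀ t, ‖Θ t‖ ≤ ‖e t‖) (c1 : ∀ x t, L x * Θ t = Θ t * L x) (n : ℕ)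
    (a b : Fin n → D) : ‖∑ i, L (a i) * Θ (b i ⊗ₜ 1)‖ ≤ ‖∑ i, L (a i) * Θ (1 ⊗ₜ b i)‖ := by
  classical
  set N := ‖∑ i, L (a i) * Θ (1 ⊗ₜ b i)‖ with hN
  have c4 : ∀ v w : D, ‖∑ i, L (a i) * Θ (b i ⊗ₜ 1)‖ ≤
      ‖w‖ * N * ‖v‖ + ∑ i, ‖L (a i)‖ * ‖al (b i) - w * be (b i) * v‖ := fun v w => by
    refine hd.induction_on₂ (p := fun v w => ‖∑ i, L (a i) * Θ (b i ⊗ₜ 1)‖ ≤
      ‖w‖ * N * ‖v‖ + ∑ i, ‖L (a i)‖ * ‖al (b i) - w * be (b i) * v‖)
      (isClosed_le continuous_const (by fun_prop)) (fun s t => ?_) v w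
    rw [show ∑ i, L (a i) * Θ (b i ⊗ₜ 1) = Θ t * (∑ i, L (a i) * Θ (1 ⊗ₜ b i)) * Θ s
        + ∑ i, L (a i) * Θ (b i ⊗ₜ 1 - t * (1 ⊗ₜ b i) * s) by
      rw [Finset.mul_sum, Finset.sum_mul, ← Finset.sum_add_distrib]
      refine Finset.sum_congr rfl fun i _ => ?_
      rw [b1, b2, b2, ← mul_assoc, ← c1, mul_sub]
      simp only [mul_assoc, add_sub_cancel]]
    refine (norm_add_le _ _).trans (add_le_add ?_ ((norm_sum_le _ _).trans
      (Finset.sum_le_sum fun i _ => (norm_mul_le _ _).trans ?_)))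
    · refine norm_mul₃_le.trans ?_
      gcongr
      · exact b3 t
      · exact b3 s
    · refine mul_le_mul_of_nonneg_left ((b3 _).trans_eq ?_) (norm_nonneg _)
      rw [map_sub, map_mul, map_mul, he, he, map_one, map_one, mul_one, one_mul]
  have h0 : 0 ≤ ∑ i, ‖L (a i)‖ := Finset.sum_nonneg fun _ _ => norm_nonneg _
  refine le_of_forall_pos_le_add fun ε hε => ?_
  obtain ⟨u, hu, h1⟩ := hf (Finset.univ.image b) (ε / (∑ i, ‖L (a i)‖ + 1)) (by positivity)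
  refine (c4 (star u) u).trans (add_le_add ?_ ?_)
  · have d1 : ‖u‖ ≤ 1 := by
      rcases subsingleton_or_nontrivial D with _ | _
      · simp [Subsingleton.elim u 0]
      · exact (CStarRing.norm_of_mem_unitary hu).le
    have d2 : 0 ≤ N := norm_nonneg _
    rw [norm_star]
    calc ‖u‖ * N * ‖u‖ ≤ 1 * N * 1 := by gcongr
      _ = N := by ring
  · refine (Finset.sum_le_sum fun i _ => mul_le_mul_of_nonneg_left ((norm_sub_rev _ _).trans_le
      (h1 _ (Finset.mem_image_of_mem b (Finset.mem_univ i)))) (norm_nonneg _)).trans ?_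
    rw [← Finset.sum_mul, ← mul_div_assoc, div_le_iff₀ (by positivity)]
    nlinarith

end Pool.Agent.Izumi
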