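import Pool.Agent.Lib.MP_b2135d_an.YS0
import Pool.Agent.Lib.MP_b2135d_an.YS1
import Pool.Agent.Lib.MP_b2135d_an.YS2

/-! From the definition to the working form (PLAN section YS3). -/

namespace Pool.Agent.Izumi

open scoped ComplexOrder
open Filter Topology TensorProduct

section Min

variable {D₁ D₂ E : Type} [CStarAlgebra D₁] [CStarAlgebra D₂] [CStarAlgebra E]
  {ι₁ : D₁ →⋆ₐ[ℂ] E} {ι₂ : D₂ →⋆ₐ[ℂ] E}

theorem SpatialLE.symm {n : ℕ} {a : Fin n → D₁} {b : Fin n → D₂} {C : ℝ} (h : SpatialLE a b C) :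
    SpatialLE b a C := fun H K _ _ _ _ _ _ π σ =>
  (norm_sum_mapL_comm n _ _).trans_le (h K H σ π)

theorem IsMinTensor.symm (h : IsMinTensor ι₁ ι₂) : IsMinTensor ι₂ ι₁ := by
  refine ⟨fun x y => (h.1 y x).symm, tens_dense_symm h.1 h.2.1, fun n a b => ?_⟩
  rw [Finset.sum_congr rfl fun i _ => (h.1 (b i) (a i)).symm]
  exact ⟨(h.2.2 n b a).1.symm, fun C hC => (h.2.2 n b a).2 (SpatialLE.symm hC)⟩

theorem IsMinTensor.exists_map (h : IsMinTensor ι₁ ι₂) {D₃ D₄ E' : Type} [CStarAlgebra D₃]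
    [CStarAlgebra D₄] [CStarAlgebra E'] {κ₁ : D₃ →⋆ₐ[ℂ] E'} {κ₂ : D₄ →⋆ₐ[ℂ] E'}
    (h' : IsMinTensor κ₁ κ₂) (f : D₁ →⋆ₐ[ℂ] D₃) (g : D₂ →⋆ₐ[ℂ] D₄) :
    ∃ χ : E →⋆ₐ[ℂ] E', (∀ x, χ (ι₁ x) = κ₁ (f x)) ∧ ∀ y, χ (ι₂ y) = κ₂ (g y) :=
  ext_hom h.1 h.2.1 (κ₁.comp f) (κ₂.comp g) (fun _ _ => h'.1 _ _) fun n a b =>
    (h'.2.2 n (fun i => f (a i)) fun i => g (b i)).2 fun H K _ _ _ _ _ _ π σ =>
      (h.2.2 n a b).1 H K (π.comp f) (σ.comp g)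

theorem IsMinTensor.slice [PartialOrder D₂] [StarOrderedRing D₂] (h : IsMinTensor ι₁ ι₂)
    (φ : D₂ →ₚ[ℂ] ℂ) (h1 : φ 1 = 1) :
    ∃ L : E →L[ℂ] D₁, (∀ x, ‖L x‖ ≤ ‖x‖) ∧ ∀ a b, L (ι₁ a * ι₂ b) = φ b • a := by
  refine ext_lin h.2.1 (LinearMap.mk₂ ℂ (fun x y => φ y • x) (fun _ _ _ => smul_add _ _ _)
    (fun _ _ _ => smul_comm _ _ _) (fun _ _ _ => by rw [map_add, add_smul])
    fun _ _ _ => by rw [map_smul, smul_assoc]) fun n a b => ?_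
  change ‖∑ i, φ (b i) • a i‖ ≤ _
  by_cases h0 : ∑ i, φ (b i) • a i = 0
  · rw [h0, norm_zero]
    exact norm_nonneg _
  have : Nontrivial D₁ := ⟨⟨_, _, h0⟩⟩
  obtain ⟨H, _, _, _, π, ξ, a1, a2⟩ := exists_norming_rep (∑ i, φ (b i) • a i)
  obtain ⟨K, _, _, _, σ, η, b1, b2⟩ := exists_state_rep φ h1
  have c1 : ‖∑ i, mapL (π (a i)) (σ (b i))‖ ≤ _ := (h.2.2 n a b).1 H K π σ
  have c2 : ∀ ζ, inner ℂ (ζ ⊗ₜ[ℂ] η) ((∑ i, mapL (π (a i)) (σ (b i))) (ξ ⊗ₜ η)) =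
      inner ℂ ζ (π (∑ i, φ (b i) • a i) ξ) := fun ζ => by
    rw [map_sum, sum_apply, sum_apply, inner_sum, inner_sum]
    refine Finset.sum_congr rfl fun i _ => ?_
    rw [mapL_tmul, inner_tmul, b2, map_smul, smul_apply, inner_smul_right, mul_comm]
  have c3 := norm_inner_le_norm (𝕜 := ℂ) (π (∑ i, φ (b i) • a i) ξ ⊗ₜ[ℂ] η)
    ((∑ i, mapL (π (a i)) (σ (b i))) (ξ ⊗ₜ η))
  have c4 := (∑ i, mapL (π (a i)) (σ (b i))).le_opNorm (ξ ⊗ₜ η)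
  rw [norm_tmul, a1, b1, mul_one, mul_one] at c4
  rw [c2, inner_self_eq_norm_sq_to_K, norm_pow, norm_tmul, b1, mul_one, a2, RCLike.norm_ofReal,
    abs_norm, sq] at c3
  exact (le_of_mul_le_mul_left c3 (norm_pos_iff.2 h0)).trans (c4.trans c1)

theorem IsMinTensor.comp_equiv (h : IsMinTensor ι₁ ι₂) {E' : Type} [CStarAlgebra E']
    (e : E ≃⋆ₐ[ℂ] E') :
    IsMinTensor ((e : E →⋆ₐ[ℂ] E').comp ι₁) ((e : E →⋆ₐ[ℂ] E').comp ι₂) := by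
  refine ⟨fun x y => Commute.map (h.1 x y) e, ?_, fun n a b => ?_⟩
  · refine (e.surjective.denseRange.dense_image (StarAlgEquiv.isometry e).continuous h.2.1).mono ?_
    rintro _ ⟨z, hz, rfl⟩
    obtain ⟨n, a, b, rfl⟩ := tens_span hz
    rw [map_sum]
    exact Submodule.sum_mem _ fun i _ => Submodule.subset_span ⟨a i, b i, map_mul e _ _⟩
  · rw [show ∑ i, (e : E →⋆ₐ[ℂ] E').comp ι₁ (a i) * (e : E →⋆ₐ[ℂ] E').comp ι₂ (b i) =
      e (∑ i, ι₁ (a i) * ι₂ (b i)) by simp, StarAlgEquiv.norm_map]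
    exact h.2.2 n a b

end Min

variable {D : Type} [CStarAlgebra D] {al be : D →⋆ₐ[ℂ] D}

theorem IsMinTensor.au_flip (h : IsMinTensor al be) (hau : AU (fun x : D => x) al) :
    AU al be := by
  obtain ⟨σ, s1, s2⟩ := h.exists_map h.symm (.id ℂ D) (.id ℂ D)
  obtain ⟨ρ, r1, r2⟩ := h.exists_map h (.id ℂ D) be
  have h1 : AU al fun d => be (be d) := ((hau.comp be).map σ).congr s2 fun d => s1 _
  have h2 : AU al fun d => be (be (be d)) := (h1.map ρ).congr r1 fun d => r2 _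
  exact (h2.trans (h1.map be).symm).trans (hau.map be).symm

theorem IsMinTensor.univ [Nontrivial D] (h : IsMinTensor al be) (hf : AU al be) (A : Type)
    [CStarAlgebra A] (p q : D →⋆ₐ[ℂ] A) (hpq : ∀ x y, Commute (p x) (q y)) :
    ∃ χ : D →⋆ₐ[ℂ] A, (∀ x, χ (al x) = p x) ∧ ∀ x, χ (be x) = q x := by
  refine ext_hom h.1 h.2.1 p q hpq fun n a b => ?_
  rcases subsingleton_or_nontrivial A with _ | _
  · rw [Subsingleton.elim (∑ i, p (a i) * q (b i)) 0, norm_zero]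
    exact norm_nonneg _
  obtain ⟨H, _, _, _, π, ξ, h1, h2⟩ := exists_norming_rep (∑ i, p (a i) * q (b i))
  obtain ⟨Θ, b1, b2⟩ := ys_theta (π.comp q) (π.comp p)
  obtain ⟨e, he⟩ : ∃ e : D ⊗[ℂ] D →ₐ[ℂ] D, ∀ a b, e (a ⊗ₜ b) = al a * be b :=
    ⟨Algebra.TensorProduct.lift al.toAlgHom be.toAlgHom h.1, fun _ _ => rfl⟩
  have hd : DenseRange e := h.2.1.mono fun z hz => by
    obtain ⟨n, a, b, rfl⟩ := tens_span hz
    exact ⟨∑ i, a i ⊗ₜ b i, by simp only [map_sum, he]⟩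
  have b3 : ∀ t, ‖Θ t‖ ≤ ‖e t‖ := fun t => by
    obtain ⟨n, a, b, rfl⟩ := exists_sum_tmul_eq t
    simp only [map_sum, he, b1]
    exact (h.2.2 n a b).1 H H (π.comp q) (π.comp p)
  have c1 : ∀ x t, mapL (π (p x)) 1 * Θ t = Θ t * mapL (π (p x)) 1 := fun x t => by
    induction t using TensorProduct.induction_on with
    | zero => simp
    | add t t' h h' => rw [map_add, mul_add, add_mul, h, h']
    | tmul c d =>
      rw [b1, ← mapL_mul, ← mapL_mul, one_mul, mul_one]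
      simp only [StarAlgHom.comp_apply, ← map_mul, (hpq x c).eq]
  have c2 := ys_core e he hd hf.symm (fun x => mapL (π (p x)) (1 : H →L[ℂ] H)) Θ (map_sub Θ) b2 b3
    c1 n a b
  have c3 : ‖∑ i, mapL (π (p (a i))) (π (p (b i)))‖ ≤ _ :=
    (h.2.2 n a b).1 H H (π.comp p) (π.comp p)
  refine le_trans ?_ (c2.trans (le_of_eq_of_le ?_ c3))
  · have d1 := (∑ i, mapL (π (p (a i))) 1 * Θ (b i ⊗ₜ 1)).le_opNorm (ξ ⊗ₜ ξ)
    rw [norm_tmul, h1, mul_one, mul_one] at d1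
    refine le_of_eq_of_le ?_ d1
    rw [← h2, ← mul_one ‖π _ ξ‖, ← h1, ← norm_tmul (𝕜 := ℂ)]
    refine congrArg _ ?_
    rw [map_sum, sum_apply, sum_apply, sum_tmul]
    refine Finset.sum_congr rfl fun i _ => ?_
    rw [b1, ← mapL_mul, map_one, mul_one, mapL_tmul, map_mul]
    rfl
  · refine congrArg _ (Finset.sum_congr rfl fun i _ => ?_)
    rw [b1, ← mapL_mul, map_one, mul_one, one_mul]
    rfl

theorem IsStronglySelfAbsorbing.exists_ssa [PartialOrder D] [StarOrderedRing D]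
    (h : IsStronglySelfAbsorbing D) : Nonempty (SSA D) := by
  obtain ⟨h1, h2, h3, E, _, ι₁, ι₂, φ, u, h4, h5, h6⟩ := h
  have h7 := h4.comp_equiv φ.symm
  have h8 : AU (fun x : D => x) ((φ.symm : E →⋆ₐ[ℂ] D).comp ι₁) :=
    ((AU.of_tendsto u h5 h6).map (φ.symm : E →⋆ₐ[ℂ] D)).congr (fun x => φ.symm_apply_apply x)
      fun _ => rfl
  have h9 := h7.au_flip h8
  refine ⟨⟨⟨_, _, h7.1, h7.2.1, h7.univ h9⟩, h1, h2, ?_, h7.slice, h8, h9⟩⟩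
  by_contra! hc
  exact h3.false (StarAlgEquiv.ofBijective (StarAlgHom.ofId ℂ D)
    ⟨(algebraMap ℂ D).injective, fun x => (hc x).imp fun _ => Eq.symm⟩).symm

end Pool.Agent.Izumi
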