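import Pool.Agent.Lib.MP_b2135d_an.YG
import Pool.Agent.Lib.MP_b2135d_an.YS3
import Pool.Agent.Lib.MP_b2135d_an.YN
import Pool.Agent.Lib.MP_b2135d_an.R5
import Pool.Agent.Lib.MP_b2135d_an.RF
import Pool.Agent.Lib.MP_b2135d_an.YO

/-! The full theorem. -/

namespace Pool.Agent.Izumi

open scoped ComplexOrder
open Filter Topology

variable {G D : Type} [Group G] [Countable G] [CStarAlgebra D] [PartialOrder D]
  [StarOrderedRing D]

/-- The comparison data of section R. -/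
def SSA.toRData (S : SSA D) : RData D where
  toDData := S.toDData
  au := S.au_end
  simple := fun _ => S.full
  zd := by
    obtain ⟨a, b, -, -, ha, hb, h⟩ := S.exists_orth
    exact ⟨a, b, ha, hb, h⟩

theorem SSA.conj_of_good (S : SSA D) {N : D → ℝ} (hN : ∀ (p : D →⋆ₐ[ℂ] D) (x : D), N (p x) = N x)
    (hg : ∀ β : G →* (D ≃⋆ₐ[ℂ] D), (∀ g, g ≠ 1 → CN N (β g)) → GoodUP β)
    (α β : G →* (D ≃⋆ₐ[ℂ] D)) (hα : ∀ g, g ≠ 1 → CN N (α g)) (hβ : ∀ g, g ≠ 1 → CN N (β g)) :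
    CocycleConjugate α β := by
  have := S.sep
  obtain ⟨δ, e₁, e₂⟩ := S.exists_prod_act α β
  have hδ : GoodUP δ := hg δ fun g h1 => (hα g h1).prod S.comm S.dense (hN S.al) (e₁ g)
  have hinj : ∀ p : D →⋆ₐ[ℂ] D, Function.Injective p := by
    intro p x y hxy
    have h := S.norm_end p (x - y)
    rw [map_sub, hxy, sub_self, norm_zero] at h
    exact sub_eq_zero.1 (norm_eq_zero.1 h.symm)
  have h₁ := half2 α β δ S.al S.be (hinj _) e₁ e₂ S.comm S.dense (hg α hα) hδ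
  have h₂ := half2 β α δ S.be S.al (hinj _) e₂ e₁ (fun x y => (S.comm y x).symm)
    (tens_dense_symm S.comm S.dense) (hg β hβ) hδ
  exact h₁.symm.trans h₂

theorem main_full (hD : IsStronglySelfAbsorbing D) (hG : IsAmenableGroup G)
    (htf : ∀ g : G, IsOfFinOrder g → g = 1) (α β : G →* (D ≃⋆ₐ[ℂ] D)) (hα : IsStronglyOuter α)
    (hβ : IsStronglyOuter β) : CocycleConjugate α β := by
  rcases finite_or_infinite G with hfin | hinf
  · refine ⟨StarAlgEquiv.refl ℂ D, fun _ => 1, fun _ => one_mem _, fun g h => by simp, fun g x => ?_⟩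
    rw [htf g (isOfFinOrder_of_finite g), act_one, act_one]
    simp
  obtain ⟨S⟩ := hD.exists_ssa
  have hf : Foel G := by
    obtain ⟨m, h0, h1, h2, h3⟩ := hG
    exact foel_of_measure m h0 h1 h2 fun g s => h3 g s
  by_cases h : ∃ τ : D →ₚ[ℂ] ℂ, IsTracialState τ
  · obtain ⟨τ, hτ⟩ := h
    have hasi : ASI τ := fun c ε hc hε => by
      obtain ⟨η, h0, m, hm⟩ := S.toRData.asi hτ (fun τ' h' => (S.trUniq hτ).tr_eq h') hc hε
      exact ⟨η, m, h0, hm⟩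
    have hcn : ∀ γ : G →* (D ≃⋆ₐ[ℂ] D), IsStronglyOuter γ → ∀ g, g ≠ 1 → CN (n2 τ) (γ g) :=
      fun γ hγ g h1 => S.cn_n2 hτ _
        (hγ.1 g h1 τ hτ fun x => (S.trUniq hτ).tr_hom hτ (γ g : D →⋆ₐ[ℂ] D) x)
    exact S.conj_of_good (S.n2_hom hτ) (fun γ hγ => S.good_of_tr htf hf γ hτ hasi hγ) α β
      (hcn α hα) (hcn β hβ)
  · have h' : ∀ τ : D →ₚ[ℂ] ℂ, ¬ IsTracialState τ := fun τ hτ => h ⟨τ, hτ⟩
    have hpi : PI D := fun y hy h0 => S.toRData.pi h' hy h0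
    have hcn : ∀ γ : G →* (D ≃⋆ₐ[ℂ] D), IsStronglyOuter γ →
        ∀ g, g ≠ 1 → CN (fun x => ‖x‖) (γ g) :=
      fun γ hγ g h1 => S.cn_norm hpi _ (hγ.2 h' g h1)
    exact S.conj_of_good S.norm_end (fun γ hγ => S.good_of_pi htf hf γ hpi hγ) α β
      (hcn α hα) (hcn β hβ)

end Pool.Agent.Izumi
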