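import Pool.Agent.Lib.MP_b2135d_an.VC
import Pool.Agent.Lib.MP_b2135d_an.VDefs
import Pool.Agent.Lib.MP_b2135d_an.YMain

/-! Uniqueness of strongly outer actions that have the Rokhlin property on finite subgroups. -/

namespace Pool.Agent.Izumi

open scoped ComplexOrder
open Filter Topology

set_option linter.unusedSectionVars false

section Amb

variable {G D A : Type} [Group G] [Countable G] [CStarAlgebra D] [PartialOrder D]
  [StarOrderedRing D] [CStarAlgebra A] [PartialOrder A] [StarOrderedRing A]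

theorem Amb.coreUniR (X : Amb G D A) (hr : Rok X.γ) (hf : Foel G) {L : ℝ}
    (hL : X.S.toDData.Path L) : CoreUni X.γ D := by
  intro T T' N hP ρ φ₁ φ₂ h₁ h₂ e₁ e₂ hN hH
  have := X.S.sep
  let _ : MulAction G Bool :=
    { smul := fun _ b => b, one_smul := fun _ => rfl, mul_smul := fun _ _ _ => rfl }
  let Z : UCR G D A Bool :=
    { rok := hr, foel := hf, S := X.S.toDData, L := L, path := hL, ρ := ρ, τ := X.τ, γ := X.γ,
      sat := X.sat, emb := X.emb, T := T, T' := T', sub := hP.sub, count := hP.count,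
      inv := hP.inv, inv' := hP.inv', N := N, idl := hP.idl,
      Φ := fun b => cond b φ₂ φ₁
      Φ_mem := by
        rintro (_ | _) x
        exacts [h₁ x, h₂ x]
      Φ_act := by
        rintro g (_ | _) x
        exacts [e₁ g x, e₂ g x]
      i₀ := true
      Φ_sub := by
        rintro (_ | _) x
        · exact hN x
        · change φ₂ x - φ₂ x ∈ N
          rw [sub_self]
          exact N.zero_mem
      hole := hH }
  obtain ⟨U, hu, hc, ha, he⟩ := ucr Z
  refine ⟨star (U true) * U false, mul_mem (Unitary.star_mem (hu _)) (hu _),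
    mul_mem (star_mem (hc _)) (hc _), fun g => ?_, fun x => ?_⟩
  · have h3 : X.γ g (U true) = U true := ha g true
    have h4 : X.γ g (U false) = U false := ha g false
    rw [map_mul, map_star, h3, h4]
  · have h3 : U false * φ₁ x * star (U false) = U true * φ₂ x * star (U true) := he false x
    have h4 : star (U true) * U true = 1 := (hu true).1
    calc star (U true) * U false * φ₁ x * star (star (U true) * U false)
        = star (U true) * (U false * φ₁ x * star (U false)) * U true := by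
          rw [star_mul, star_star]; simp only [mul_assoc]
      _ = (star (U true) * U true) * φ₂ x * (star (U true) * U true) := by
          rw [h3]; simp only [mul_assoc]
      _ = φ₂ x := by rw [h4, one_mul, mul_one]

theorem Amb.coreEmbR (X : Amb G D A) (hr : Rok X.γ) (hf : Foel G) {L : ℝ}
    (hL : X.S.toDData.Path L) : CoreEmb X.γ D := by
  intro T T' N hP ρ φ h₁ hN hH
  have := X.S.sep
  have e1 : twist X.γ ρ 1 φ = φ := StarAlgHom.ext fun x => twist_one X.γ ρ φ x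
  let Z : UCR G D A G :=
    { rok := hr, foel := hf, S := X.S.toDData, L := L, path := hL, ρ := ρ, τ := X.τ, γ := X.γ,
      sat := X.sat, emb := X.emb, T := T, T' := T', sub := hP.sub, count := hP.count,
      inv := hP.inv, inv' := hP.inv', N := N, idl := hP.idl,
      Φ := fun g => twist X.γ ρ g φ
      Φ_mem := fun g x => act_mem_cent X.γ g (hP.inv' g⁻¹) (h₁ _)
      Φ_act := fun g i x => twist_act X.γ ρ g i φ x
      i₀ := 1
      Φ_sub := fun g x => by
        have h := hN g (ρ g⁻¹ x)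
        rw [act_act_inv] at h
        rw [twist_one, twist_apply]
        exact h
      hole := by rw [e1]; exact hH }
  obtain ⟨U, hu, hc, ha, he⟩ := ucr Z
  refine ⟨(adHom (hu 1)).comp φ, fun x => ?_, fun g x => ?_⟩
  · change U 1 * φ x * star (U 1) ∈ cent T
    exact mul_mem (mul_mem (hc 1) (cent_anti hP.sub (h₁ x))) (star_mem (hc 1))
  · change U 1 * φ (ρ g x) * star (U 1) = X.γ g (U 1 * φ x * star (U 1))
    have h3 : X.γ g (U 1) = U (g * 1) := ha g 1
    have h4 : U g * twist X.γ ρ g φ (ρ g x) * star (U g) =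
        U 1 * twist X.γ ρ 1 φ (ρ g x) * star (U 1) := he g (ρ g x)
    rw [twist_one, twist_apply, act_inv_act] at h4
    rw [map_mul, map_mul, map_star, h3, mul_one, h4]

/-- For a finite group: a Rokhlin partition of unity in the commutant of an orbit. -/
theorem Rok.top [Fintype G] {γ : G →* (A ≃⋆ₐ[ℂ] A)} (h : Rok γ) {T : Set A} (hT : T.Countable) :
    ∃ e : A, (∀ g, γ g e ∈ cent (orb γ T)) ∧ IsPU Finset.univ fun g => γ g e := by
  obtain ⟨e, h1, h2⟩ := h ⊤ (Set.toFinite _) _ (countable_orb γ hT)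
  exact ⟨e, fun g => act_mem_cent γ g (fun t ht => act_mem_orb γ _ ht) h1,
    h2 1 _ fun g => by simp⟩

theorem Amb.emb_fin [Finite G] (X : Amb G D A) (hr : Rok X.γ) : EMB X.γ D := by
  intro ψ hψ ρ
  have := X.S.sep
  have := Fintype.ofFinite G
  obtain ⟨T, hT, hi, hTc⟩ := exists_test_inv X.γ ψ hψ
  rw [← hTc]
  obtain ⟨p, hp⟩ := X.emb T hT
  obtain ⟨Tp, hTp, -, hpc⟩ := exists_test p
  obtain ⟨e, h1, h2⟩ := hr.top (hT.union hTp)
  have h3 : ∀ g, X.γ g e ∈ cent T ∧ ∀ d, Commute (X.γ g e) (p d) := fun g => by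
    have h4 := mem_cent_union.1 (cent_anti (subset_orb _ _) (h1 g))
    exact ⟨h4.1, mem_cent_range.1 (hpc ▸ h4.2)⟩
  obtain ⟨φ, hφ⟩ := h2.exists_hom (fun g => twist X.γ ρ g p) p (fun g _ d => by
    have h4 := ((h3 1).2 (ρ g⁻¹ d)).symm.map (X.γ g)
    rwa [act_act, mul_one] at h4) fun g _ d => ((h3 g).2 d).symm
  refine ⟨φ, fun x => ?_, fun g x => ?_⟩
  · rw [hφ]
    exact gl_mem (fun g _ => (h3 g).1) fun g _ => act_mem_cent X.γ g (hi _) (hp _)
  · rw [hφ, hφ]
    exact (act_gl X.γ g (fun k => by simp) (fun k _ => act_act _ _ _ _)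
      fun k _ => (twist_act X.γ ρ g k p x).symm).symm

theorem Amb.uni_fin [Finite G] (X : Amb G D A) (hr : Rok X.γ) : UNI X.γ D := by
  intro ψ hψ ρ φ₁ φ₂ h₁ h₂ e₁ e₂
  have := X.S.sep
  have := Fintype.ofFinite G
  obtain ⟨T, hT, hi, hTc⟩ := exists_test_inv X.γ ψ hψ
  rw [← hTc] at h₁ h₂ ⊢
  obtain ⟨u, hu, huT, hφ⟩ := X.uni0 hT φ₁ φ₂ h₁ h₂
  obtain ⟨Tp, hTp, -, hpc⟩ := exists_test φ₁
  obtain ⟨e, h1, h2⟩ := hr.top ((hT.union hTp).union (Set.countable_singleton u))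
  have h3 : ∀ g, X.γ g e ∈ cent T ∧ ∀ d, Commute (X.γ g e) (φ₁ d) := fun g => by
    have h4 := mem_cent_union.1 (mem_cent_union.1 (cent_anti (subset_orb _ _) (h1 g))).1
    exact ⟨h4.1, mem_cent_range.1 (hpc ▸ h4.2)⟩
  have h4 : ∀ g, Commute (X.γ g u) (X.γ g e) := fun g =>
    (mem_cent.1 (h1 g) _ ⟨g, u, Or.inr rfl, rfl⟩).1.symm
  refine ⟨gl Finset.univ (fun g => X.γ g e) fun g => X.γ g u,
    h2.unitary (fun g _ => h4 g) fun g _ => Unitary.map_mem _ hu,
    gl_mem (fun g _ => (h3 g).1) fun g _ => act_mem_cent X.γ g (hi _) huT,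
    fun g => act_gl X.γ g (fun k => by simp) (fun k _ => act_act _ _ _ _)
      fun k _ => act_act _ _ _ _, fun x => ?_⟩
  rw [h2.conj (fun g _ => h4 g) fun g _ => ((h3 g).2 x).symm]
  refine (gl_congr fun g _ => ?_).trans (h2.const _)
  have h5 := congrArg (X.γ g) (hφ (ρ g⁻¹ x))
  rwa [map_mul, map_mul, map_star, ← e₁, ← e₂, act_act_inv] at h5

/-- The Rokhlin property on finite subgroups gives exact Rokhlin projections in the ultrapower. -/
theorem IsUlt.rok {q : Bdd D →⋆ₐ[ℂ] A} (h : IsUlt q) {β : G →* (D ≃⋆ₐ[ℂ] D)}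
    {γ : G →* (A ≃⋆ₐ[ℂ] A)}
    (hγ : ∀ g (x : Bdd D), γ g (q x) = q (Bdd.map (β g : D →⋆ₐ[ℂ] D) x))
    (hβ : ∀ (H : Subgroup G) [Fintype H], HasRokhlinProperty (β.comp H.subtype)) : Rok γ := by
  classical
  intro H hH T hT
  let _ : Fintype H := hH.fintype
  obtain ⟨t, ht⟩ := (hT.insert 0).exists_eq_range (Set.insert_nonempty 0 T)
  choose L hL using fun k => h.surj (t k)
  choose e h1 h2 h3 h4 h5 using fun n : ℕ => hβ H
    ((Finset.range (n + 1)).image (fun k => (L k).1 n) ∪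
      (Finset.range (n + 1)).image (fun k => star ((L k).1 n)))
    (1 / ((n : ℝ) + 1)) Nat.one_div_pos_of_nat
  let x : H → Bdd D := fun k => ⟨fun n => e n k, 1, fun n => (h1 n k).norm_le⟩
  have lim := tendsto_one_div_add_atTop_nhds_zero_nat (𝕜 := ℝ)
  have ha : ∀ g k : H, γ g (q (x k)) = q (x (g * k)) := fun g k => by
    rw [hγ, h.eq_iff]
    exact (squeeze_zero (fun _ => norm_nonneg _) (fun n => h4 n g k) lim).mono_left
      Nat.hyperfilter_le_atTop
  have hp : ∀ k, IsStarProjection (q (x k)) := fun k =>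
    (show IsStarProjection (x k) from ⟨Subtype.ext (funext fun n => (h1 n k).isIdempotentElem.eq),
      Subtype.ext (funext fun n => (h1 n k).isSelfAdjoint.star_eq)⟩).map q
  have ho : ∀ k k', k ≠ k' → q (x k) * q (x k') = 0 := fun k k' hk => by
    rw [← map_mul, show x k * x k' = 0 from Subtype.ext (funext fun n => h2 n k k' hk), map_zero]
  have hs : ∑ k, q (x k) = 1 := by
    rw [← map_sum, ← map_one q]
    refine congrArg q (Subtype.ext (funext fun n => ?_))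
    rw [AddSubmonoidClass.coe_finsetSum, Finset.sum_apply]
    exact h3 n
  refine ⟨q (x 1), mem_cent.2 fun a ha => ?_, fun c C hC => ?_⟩
  · have ha' : a ∈ Set.range t := ht ▸ Set.mem_insert_of_mem 0 ha
    obtain ⟨k, rfl⟩ := ha'
    rw [← hL k, ← map_star]
    constructor
    · refine yu3_commute h (x 1) (L k) ?_
      refine squeeze_zero' (Eventually.of_forall fun _ => norm_nonneg _) ?_ lim
      filter_upwards [eventually_ge_atTop k] with m hm
      exact h5 m 1 _ (Finset.mem_union_left _ (Finset.mem_image_of_mem (fun k => (L k).1 m)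
        (Finset.mem_range.2 (Nat.lt_succ_of_le hm))))
    · refine yu3_commute h (x 1) (star (L k)) ?_
      refine squeeze_zero' (Eventually.of_forall fun _ => norm_nonneg _) ?_ lim
      filter_upwards [eventually_ge_atTop k] with m hm
      exact h5 m 1 _ (Finset.mem_union_right _ (Finset.mem_image_of_mem
        (fun k => star ((L k).1 m)) (Finset.mem_range.2 (Nat.lt_succ_of_le hm))))
  · have hg : ∀ g (hg : g ∈ C), γ g (q (x 1)) = γ c (q (x ⟨c⁻¹ * g, (hC g).1 hg⟩)) := fun g hg => by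
      have h6 := ha ⟨c⁻¹ * g, (hC g).1 hg⟩ 1
      rw [mul_one] at h6
      rw [← h6, act_act, mul_inv_cancel_left]
    refine ⟨fun g hg' => ?_, fun g hg' k hk hgk => ?_, ?_⟩
    · rw [hg g hg']
      exact (hp _).map _
    · rw [hg g hg', hg k hk, ← map_mul, ho _ _ fun h => hgk (by simpa using h), map_zero]
    · rw [← map_one (γ c), ← hs, map_sum]
      exact Finset.sum_bij (fun g hg => ⟨c⁻¹ * g, (hC g).1 hg⟩) (fun _ _ => Finset.mem_univ _)
        (fun g _ k _ h => by simpa using h)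
        (fun k _ => ⟨c * k, (hC _).2 (by simp), by simp⟩) hg

end Amb

variable {G D : Type} [Group G] [Countable G] [CStarAlgebra D] [PartialOrder D]
  [StarOrderedRing D]

/-- The Rokhlin property on all finite subgroups. -/
def RokFin (β : G →* (D ≃⋆ₐ[ℂ] D)) : Prop :=
  ∀ (H : Subgroup G) [Fintype H], HasRokhlinProperty (β.comp H.subtype)

theorem RokFin.of_ne_bot {β : G →* (D ≃⋆ₐ[ℂ] D)}
    (h : ∀ (H : Subgroup G) [Fintype H], H ≠ ⊥ → HasRokhlinProperty (β.comp H.subtype)) :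
    RokFin β := by
  intro H _
  by_cases hH : H = ⊥
  · have h1 : ∀ k : H, k = 1 := fun k => Subtype.ext (Subgroup.mem_bot.1 (hH ▸ k.2))
    intro s ε hε
    refine ⟨fun _ => 1, fun _ => IsStarProjection.one D,
      fun k k' hk => absurd ((h1 k).trans (h1 k').symm) hk, ?_, fun g k => ?_, fun k x _ => ?_⟩
    · exact Finset.sum_eq_single 1 (fun k _ hk => absurd (h1 k) hk)
        fun h => absurd (Finset.mem_univ _) h
    · rw [map_one, sub_self, norm_zero]
      exact hε.le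
    · rw [one_mul, mul_one, sub_self, norm_zero]
      exact hε.le
  · exact h H hH

theorem RokFin.prod {ι₁ ι₂ : D →⋆ₐ[ℂ] D} (hc : ∀ x y, Commute (ι₁ x) (ι₂ y))
    (hd : Dense (Submodule.span ℂ {z : D | ∃ x y, z = ι₁ x * ι₂ y} : Set D))
    {α δ : G →* (D ≃⋆ₐ[ℂ] D)} (he : ∀ g x, ι₁ (α g x) = δ g (ι₁ x)) (h : RokFin α) : RokFin δ := by
  classical
  intro H _ s ε hε
  choose n a b h1 using fun z => tens_near hd z (show 0 < ε / 4 by positivity)
  have h0 : ∀ z, 0 ≤ ∑ i, ‖b z i‖ := fun z => Finset.sum_nonneg fun _ _ => norm_nonneg _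
  have h0' : 0 ≤ ∑ z ∈ s, ∑ i, ‖b z i‖ := Finset.sum_nonneg fun z _ => h0 z
  obtain ⟨e, p1, p2, p3, p4, p5⟩ := h H (s.biUnion fun z => Finset.univ.image (a z))
    (ε / 2 / (∑ z ∈ s, ∑ i, ‖b z i‖ + 1)) (by positivity)
  refine ⟨fun k => ι₁ (e k), fun k => (p1 k).map ι₁,
    fun k k' hk => by rw [← map_mul, p2 k k' hk, map_zero], by rw [← map_sum, p3, map_one],
    fun g k => ?_, fun k z hz => ?_⟩
  · change ‖δ g (ι₁ (e k)) - ι₁ (e (g * k))‖ ≤ ε
    rw [← he]
    refine (xk3_norm_map_sub _ _ _).trans ((p4 g k).trans ?_)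
    rw [div_le_iff₀ (by positivity)]
    nlinarith
  have h3 := p5 k
  have h5 : ‖ι₁ (e k)‖ ≤ 1 := ((p1 k).map ι₁).norm_le
  change ‖ι₁ (e k) * z - z * ι₁ (e k)‖ ≤ ε
  generalize e k = y at h3 h5
  have h6 : ‖∑ i, ι₁ (y * a z i - a z i * y) * ι₂ (b z i)‖ ≤ ε / 2 := by
    refine ((norm_sum_le _ _).trans (Finset.sum_le_sum fun i _ => (norm_mul_le _ _).trans
      (mul_le_mul ((NonUnitalStarAlgHom.norm_apply_le ι₁ _).trans (h3 _ (Finset.mem_biUnion.2
        ⟨z, hz, Finset.mem_image_of_mem _ (Finset.mem_univ i)⟩)))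
        (NonUnitalStarAlgHom.norm_apply_le ι₂ _) (norm_nonneg _) (by positivity)))).trans ?_
    rw [← Finset.mul_sum, div_mul_eq_mul_div, div_le_iff₀ (by positivity)]
    have := Finset.single_le_sum (fun z _ => h0 z) hz
    nlinarith
  have h7 := h1 z
  have h8 : ι₁ y * ∑ i, ι₁ (a z i) * ι₂ (b z i) - (∑ i, ι₁ (a z i) * ι₂ (b z i)) * ι₁ y =
      ∑ i, ι₁ (y * a z i - a z i * y) * ι₂ (b z i) := by
    rw [Finset.mul_sum, Finset.sum_mul, ← Finset.sum_sub_distrib]
    refine Finset.sum_congr rfl fun i _ => ?_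
    rw [map_sub, map_mul, map_mul, sub_mul, mul_assoc (ι₁ (a z i)), ← hc, mul_assoc, mul_assoc]
  rw [← h8] at h6
  generalize ∑ i, ι₁ (a z i) * ι₂ (b z i) = w at *
  rw [show ι₁ y * z - z * ι₁ y = ι₁ y * w - w * ι₁ y + (ι₁ y * (z - w) - (z - w) * ι₁ y) by
    simp only [mul_sub, sub_mul]; abel]
  nlinarith [norm_add_le (ι₁ y * w - w * ι₁ y) (ι₁ y * (z - w) - (z - w) * ι₁ y),
    norm_sub_le (ι₁ y * (z - w)) ((z - w) * ι₁ y), norm_mul_le (ι₁ y) (z - w),
    norm_mul_le (z - w) (ι₁ y), norm_nonneg (z - w)]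

theorem SSA.goodR_of_tr (S : SSA D) (hf : Foel G) (β : G →* (D ≃⋆ₐ[ℂ] D)) (hr : RokFin β)
    {τB : D →ₚ[ℂ] ℂ} (hτ : IsTracialState τB) (hasi : ASI τB)
    (hcn : ∀ g, g ≠ 1 → CN (n2 τB) (β g)) : GoodUP β := by
  obtain ⟨A, _, _, _, X, q, -, hq, hact⟩ := S.exists_TSys β hτ hasi hcn
  have hR := hq.rok hact hr
  rcases finite_or_infinite G with hfin | hinf
  · exact ⟨A, inferInstance, q, X.γ, hq, hact, X.toAmb.emb_fin hR, X.toAmb.uni_fin hR⟩
  obtain ⟨Y, hY, hY'⟩ := X.flip_path ((q.comp (Bdd.const D)).comp X.S.al)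
    ((q.comp (Bdd.const D)).comp X.S.be)
  obtain ⟨L, hL⟩ := path_of_ult X.S.toDData hq hY hY'
  exact ⟨A, inferInstance, q, X.γ, hq, hact, X.exi (X.tow hf) (X.toAmb.coreEmbR hR hf hL),
    X.uni (X.tow hf) (X.toAmb.coreUniR hR hf hL)⟩

theorem SSA.goodR_of_pi (S : SSA D) (hf : Foel G) (β : G →* (D ≃⋆ₐ[ℂ] D)) (hr : RokFin β)
    (hpi : PI D) (hcn : ∀ g, g ≠ 1 → CN (fun x => ‖x‖) (β g)) : GoodUP β := by
  obtain ⟨A, _, _, _, X, q, -, hq, hact⟩ := S.exists_PSys β hpi hcn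
  have hR := hq.rok hact hr
  obtain ⟨Y, hY, hY'⟩ := X.flip_path ((q.comp (Bdd.const D)).comp X.S.al)
    ((q.comp (Bdd.const D)).comp X.S.be)
  obtain ⟨L, hL⟩ := path_of_ult X.S.toDData hq hY hY'
  exact ⟨A, inferInstance, q, X.γ, hq, hact, X.exi X.wan (X.toAmb.coreEmbR hR hf hL),
    X.uni X.wan hf (X.toAmb.coreUniR hR hf hL)⟩

theorem SSA.conj_of_goodR (S : SSA D) {N : D → ℝ}
    (hN : ∀ (p : D →⋆ₐ[ℂ] D) (x : D), N (p x) = N x)
    (hg : ∀ β : G →* (D ≃⋆ₐ[ℂ] D), RokFin β → (∀ g, g ≠ 1 → CN N (β g)) → GoodUP β)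
    (α β : G →* (D ≃⋆ₐ[ℂ] D)) (rα : RokFin α) (rβ : RokFin β) (hα : ∀ g, g ≠ 1 → CN N (α g))
    (hβ : ∀ g, g ≠ 1 → CN N (β g)) : CocycleConjugate α β := by
  have := S.sep
  obtain ⟨δ, e₁, e₂⟩ := S.exists_prod_act α β
  have hδ : GoodUP δ := hg δ (rα.prod S.comm S.dense e₁)
    fun g h1 => (hα g h1).prod S.comm S.dense (hN S.al) (e₁ g)
  have hinj : ∀ p : D →⋆ₐ[ℂ] D, Function.Injective p := by
    intro p x y hxy
    have h := S.norm_end p (x - y)
    rw [map_sub, hxy, sub_self, norm_zero] at h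
    exact sub_eq_zero.1 (norm_eq_zero.1 h.symm)
  have h₁ := half2 α β δ S.al S.be (hinj _) e₁ e₂ S.comm S.dense (hg α rα hα) hδ
  have h₂ := half2 β α δ S.be S.al (hinj _) e₂ e₁ (fun x y => (S.comm y x).symm)
    (tens_dense_symm S.comm S.dense) (hg β rβ hβ) hδ
  exact h₁.symm.trans h₂

theorem main_rok (hD : IsStronglySelfAbsorbing D) (hG : IsAmenableGroup G)
    (α β : G →* (D ≃⋆ₐ[ℂ] D)) (hα : IsStronglyOuter α) (hβ : IsStronglyOuter β) (rα : RokFin α)
    (rβ : RokFin β) : CocycleConjugate α β := by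
  obtain ⟨S⟩ := hD.exists_ssa
  have hf : Foel G := by
    obtain ⟨m, h0, h1, h2, h3⟩ := hG
    exact foel_of_measure m h0 h1 h2 fun g s => h3 g s
  by_cases h : ∃ τ : D →ₚ[ℂ] ℂ, IsTracialState τ
  · obtain ⟨τ, hτ⟩ := h
    have hasi : ASI τ := fun c ε hc hε => by
      obtain ⟨η, h0, m, hm⟩ := S.toRData.asi hτ (fun τ' h' => (S.trUniq hτ).tr_eq h') hc hε
      exact ⟨η, m, h0, hm⟩
    have hcn : ∀ γ : G →* (D ≃⋆ₐ[ℂ] D), IsStronglyOuter γ → ∀ g, g ≠ 1 → CN (n2 τ) (γ g) :=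
      fun γ hγ g h1 => S.cn_n2 hτ _
        (hγ.1 g h1 τ hτ fun x => (S.trUniq hτ).tr_hom hτ (γ g : D →⋆ₐ[ℂ] D) x)
    exact S.conj_of_goodR (S.n2_hom hτ) (fun γ hr hγ => S.goodR_of_tr hf γ hr hτ hasi hγ) α β
      rα rβ (hcn α hα) (hcn β hβ)
  · have h' : ∀ τ : D →ₚ[ℂ] ℂ, ¬ IsTracialState τ := fun τ hτ => h ⟨τ, hτ⟩
    have hpi : PI D := fun y hy h0 => S.toRData.pi h' hy h0
    have hcn : ∀ γ : G →* (D ≃⋆ₐ[ℂ] D), IsStronglyOuter γ →
        ∀ g, g ≠ 1 → CN (fun x => ‖x‖) (γ g) :=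
      fun γ hγ g h1 => S.cn_norm hpi _ (hγ.2 h' g h1)
    exact S.conj_of_goodR S.norm_end (fun γ hr hγ => S.goodR_of_pi hf γ hr hpi hγ) α β
      rα rβ (hcn α hα) (hcn β hβ)

end Pool.Agent.Izumi
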