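import Pool.Agent.Lib.MP_b2135d_an.XW

/-! Compression along a frame. -/

set_option linter.unusedSectionVars false

namespace Pool.Agent.Izumi

open scoped ComplexOrder Pointwise
open Pool.Agent.Lib.MP_f90f6c_an.H50

variable {I A : Type} [Fintype I] [DecidableEq I] [CStarAlgebra A] [PartialOrder A]
  [StarOrderedRing A] {o : I} {odd : Finset I} {e : A} {v : I → A}

theorem Ph_add (v : I → A) (M M' : Matrix I I A) : Ph v (M + M') = Ph v M + Ph v M' := by
  simp only [Ph, Matrix.add_apply, mul_add, add_mul, Finset.sum_add_distrib]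

theorem Ph_sub (v : I → A) (M M' : Matrix I I A) : Ph v (M - M') = Ph v M - Ph v M' := by
  simp only [Ph, Matrix.sub_apply, mul_sub, sub_mul, Finset.sum_sub_distrib]

theorem xc1_Ph_zero (v : I → A) : Ph v 0 = 0 := by
  simp [Ph]

theorem star_Ph (v : I → A) (M : Matrix I I A) : star (Ph v M) = Ph v (star M) := by
  simp only [Ph, star_sum, star_mul, star_star, Matrix.star_apply, mul_assoc]
  exact Finset.sum_comm

theorem mul_Ph {b : A} {β : I → A} (h : ∀ σ, b * v σ = v σ * β σ) (M : Matrix I I A) :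
    b * Ph v M = Ph v (Matrix.diagonal β * M) := by
  simp only [Ph, Finset.mul_sum, Matrix.diagonal_mul, ← mul_assoc, h]

theorem Ph_mul {b : A} {β : I → A} (h : ∀ σ, star b * v σ = v σ * star (β σ))
    (M : Matrix I I A) : Ph v M * b = Ph v (M * Matrix.diagonal β) := by
  have h' : ∀ σ, star (v σ) * b = β σ * star (v σ) := fun σ => by
    simpa only [star_mul, star_star] using congrArg star (h σ)
  simp only [Ph, Finset.sum_mul, Matrix.mul_diagonal, mul_assoc, h']

theorem Ph_mem {C : StarSubalgebra ℂ A} (hv : ∀ σ, v σ ∈ C) {M : Matrix I I A}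
    (hM : ∀ σ τ, M σ τ ∈ C) : Ph v M ∈ C :=
  sum_mem fun σ _ => sum_mem fun τ _ => mul_mem (mul_mem (hv σ) (hM σ τ)) (star_mem (hv τ))

/-- Equivariance for matrices supported on `I0`. -/
theorem map_Ph (θ : A ≃⋆ₐ[ℂ] A) (π : Equiv.Perm I) {I0 : Finset I}
    (hv : ∀ σ ∈ I0, θ (v σ) = v (π σ)) {M : Matrix I I A} (h₁ : M * pj A I0ᶜ = 0)
    (h₂ : pj A I0ᶜ * M = 0) :
    θ (Ph v M) = Ph v ((mp (θ : A →⋆ₐ[ℂ] A) M).submatrix π.symm π.symm) := by
  unfold Ph
  rw [map_sum]
  refine Eq.trans ?_ (Equiv.sum_comp π _)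
  refine Finset.sum_congr rfl fun σ _ => ?_
  rw [map_sum]
  refine Eq.trans ?_ (Equiv.sum_comp π _)
  refine Finset.sum_congr rfl fun τ _ => ?_
  rw [Matrix.submatrix_apply, Equiv.symm_apply_apply, Equiv.symm_apply_apply, mp_apply,
    map_mul, map_mul, map_star]
  change θ (v σ) * θ (M σ τ) * star (θ (v τ)) = v (π σ) * θ (M σ τ) * star (v (π τ))
  by_cases hσ : σ ∈ I0
  · by_cases hτ : τ ∈ I0
    · rw [hv σ hσ, hv τ hτ]
    · have := congrFun (congrFun h₁ σ) τ
      rw [pj, Matrix.mul_diagonal, if_pos (Finset.mem_compl.2 hτ), mul_one] at this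
      simp [this]
  · have := congrFun (congrFun h₂ σ) τ
    rw [pj, Matrix.diagonal_mul, if_pos (Finset.mem_compl.2 hσ), one_mul] at this
    simp [this]

theorem xc1_Ph_mul_Ph (v : I → A) (M M' : Matrix I I A) : Ph v M * Ph v M' =
    Ph v (M * (Matrix.of fun τ σ => star (v τ) * v σ) * M') := by
  simp only [Ph, Matrix.mul_apply, Matrix.of_apply, Finset.sum_mul]
  refine Finset.sum_congr rfl fun σ _ => ?_
  simp only [Finset.mul_sum, Finset.sum_mul, mul_assoc]
  rw [Finset.sum_comm]
  refine Eq.trans ?_ Finset.sum_comm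
  exact Finset.sum_congr rfl fun σ' _ => Finset.sum_comm

theorem xc1_star_cst (h : star e = e) : star (cst e : Matrix I I A) = cst e := by
  ext σ τ
  by_cases hστ : σ = τ
  · simp [cst, hστ, h]
  · simp [cst, hστ, Ne.symm hστ]

theorem xc1_norm_one {B : Type} [CStarAlgebra B] : ‖(1 : B)‖ ≤ 1 := by
  rcases subsingleton_or_nontrivial B with _ | _
  · simp [Subsingleton.elim (1 : B) 0]
  · exact CStarRing.norm_one.le

theorem xc1_ring {R : Type} [Ring R] {D B Y Z : R} (hD : D * D = D) (hB : D * B = B * D) :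
    D * (((Y - 1) * B + B * (Z - 1) + (Y - 1) * B * D * (Z - 1) - (Y * B * Z - B)) * D) =
      -((D * Y - Y * D) * (1 - D) * B * Z * D) := by
  have h1 : ∀ x, D * (D * x) = D * x := fun x => by rw [← mul_assoc, hD]
  simp only [mul_sub, sub_mul, mul_add, add_mul, mul_one, one_mul, mul_assoc, ← hB, h1, hD]
  abel

namespace Frame

theorem xc1_zero (h : Frame o odd e v) {σ : I} (hσ : σ ∉ insert o odd) : v σ = 0 := by
  rw [Finset.mem_insert, not_or] at hσ
  exact h.v_even σ hσ.1 hσ.2

theorem Ph_pj_mul (h : Frame o odd e v) (M : Matrix I I A) :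
    Ph v (pj A (insert o odd) * M) = Ph v M := by
  refine Finset.sum_congr rfl fun σ _ => Finset.sum_congr rfl fun τ _ => ?_
  rw [pj, Matrix.diagonal_mul]
  by_cases hσ : σ ∈ insert o odd
  · rw [if_pos hσ, one_mul]
  · simp only [h.xc1_zero hσ, zero_mul]

theorem Ph_mul_pj (h : Frame o odd e v) (M : Matrix I I A) :
    Ph v (M * pj A (insert o odd)) = Ph v M := by
  refine Finset.sum_congr rfl fun σ _ => Finset.sum_congr rfl fun τ _ => ?_
  rw [pj, Matrix.mul_diagonal]
  by_cases hτ : τ ∈ insert o odd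
  · rw [if_pos hτ, mul_one]
  · rw [h.xc1_zero hτ, star_zero, mul_zero, mul_zero]

theorem norm_Ph_le (h : Frame o odd e v) (M : Matrix I I A) : ‖Ph v M‖ ≤ 4 * ‖M‖ := by
  obtain ⟨V, hV⟩ : ∃ V : Matrix I I A, V = Matrix.of fun s t => if s = o then v t else 0 :=
    ⟨_, rfl⟩
  obtain ⟨W, hW⟩ : ∃ W : Matrix I I A,
    W = Matrix.of fun s t => if s = o then (if t ∈ odd then v t else 0) else 0 := ⟨_, rfl⟩
  have h1 : Ph v M = (V * M * star V) o o := by
    simp only [Ph, hV, Matrix.mul_apply, Matrix.star_apply, Matrix.of_apply, if_true,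
      Finset.sum_mul]
    exact Finset.sum_comm
  have h2 : V = pj A {o} + W := by
    ext s t
    simp only [hV, hW, pj, Matrix.add_apply, Matrix.of_apply, Matrix.diagonal_apply,
      Finset.mem_singleton]
    by_cases hs : s = o
    · subst hs
      by_cases ht : s = t
      · subst ht
        simp [h.o_even, h.v_o]
      · by_cases ht' : t ∈ odd
        · simp [ht, ht']
        · simp [ht, ht', h.v_even t (Ne.symm ht) ht']
    · simp [hs]
  have h3 : star W * W = Matrix.diagonal fun t => if t ∈ odd then e else 0 := by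
    ext t t'
    rw [Matrix.mul_apply, Finset.sum_eq_single o, Matrix.diagonal_apply]
    · simp only [hW, Matrix.star_apply, Matrix.of_apply, if_true]
      by_cases ht : t ∈ odd
      · by_cases ht' : t' ∈ odd
        · rw [if_pos ht, if_pos ht', h.orth t ht t' ht', if_pos ht]
        · rw [if_neg ht', mul_zero, if_neg fun hh : t = t' => ht' (hh ▸ ht)]
      · simp [ht]
    · intro s _ hs
      simp [hW, hs]
    · simp
  have h4 : ‖W‖ * ‖W‖ ≤ 1 := by
    rw [← CStarRing.norm_star_mul_self, h3]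
    refine norm_diagonal_le zero_le_one fun t => ?_
    split_ifs
    · exact h.e_norm
    · simp
  have h5 : ‖V‖ ≤ 2 := by
    have h6 := norm_add_le (pj A {o}) W
    have h7 := norm_pj_le (A := A) ({o} : Finset I)
    rw [h2]
    nlinarith [norm_nonneg W]
  have h6 : ‖V * M‖ ≤ 2 * ‖M‖ :=
    (norm_mul_le _ _).trans (mul_le_mul_of_nonneg_right h5 (norm_nonneg _))
  have h7 : ‖V * M * star V‖ ≤ 2 * ‖M‖ * 2 :=
    (norm_mul_le _ _).trans (mul_le_mul h6 (by rwa [norm_star]) (norm_nonneg _) (by positivity))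
  rw [h1]
  linarith [norm_entry_le (V * M * star V) o o]

theorem Ph_mul_Ph (h : Frame o odd e v) {M M' : Matrix I I A} (hM : M * cst e = M)
    (hM' : cst e * M' = M') : Ph v M * Ph v M' = Ph v (M * pj A (insert o odd) * M') := by
  have e1 : ∀ σ τ, M σ τ * e = M σ τ := fun σ τ => by
    simpa only [cst, Matrix.mul_diagonal] using congrFun (congrFun hM σ) τ
  have e2 : ∀ σ τ, e * M' σ τ = M' σ τ := fun σ τ => by
    simpa only [cst, Matrix.diagonal_mul] using congrFun (congrFun hM' σ) τ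
  rw [xc1_Ph_mul_Ph]
  congr 1
  ext σ τ'
  simp only [Matrix.mul_apply, Finset.sum_mul, Matrix.of_apply]
  refine Finset.sum_congr rfl fun σ' _ => Finset.sum_congr rfl fun τ _ => ?_
  rw [pj, Matrix.diagonal_apply]
  by_cases hτ : τ ∈ insert o odd
  · rw [if_pos hτ]
    by_cases hσ : σ' ∈ insert o odd
    · rcases Finset.mem_insert.1 hτ with a | hτ <;> rcases Finset.mem_insert.1 hσ with a' | hσ
      · simp [a, a', h.v_o]
      · rw [a, if_neg fun hh : o = σ' => h.o_even (hh ▸ hσ), h.v_o, star_one, one_mul, ← e1,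
          mul_assoc _ e, h.kill σ' hσ]
        simp
      · have := congrArg star (h.kill τ hτ)
        rw [star_mul, h.e_star, star_zero] at this
        rw [a', if_neg fun hh : τ = o => h.o_even (hh ▸ hτ), h.v_o, mul_one, ← e2, mul_assoc,
          ← mul_assoc _ e, this]
        simp
      · rw [h.orth τ hτ σ' hσ]
        split_ifs
        · rw [e1, mul_one]
        · rfl
    · rw [h.xc1_zero hσ, if_neg fun hh : τ = σ' => hσ (hh ▸ hτ), mul_zero]
  · rw [h.xc1_zero hτ, if_neg hτ, ite_self, star_zero, zero_mul]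

theorem Ph_single (h : Frame o odd e v) (a : A) : Ph v (pj A {o} * cst a) = a := by
  simp [Ph, pj, cst, Matrix.diagonal_apply, h.v_o]

/-- Conjugation by `1 + Ph (Y - 1)` when `Y` almost commutes with the support of the frame. -/
theorem conj_est (h : Frame o odd e v) {Y : Matrix I I A} (hY : Y ∈ unitary (Matrix I I A))
    (h₁ : (Y - 1) * cst e = Y - 1) (h₂ : cst e * (Y - 1) = Y - 1) {l : ℝ}
    (hl : ‖pj A (insert o odd) * Y - Y * pj A (insert o odd)‖ ≤ l) {b : A} {β : I → A}
    (hb : ∀ σ, b * v σ = v σ * β σ) (hb' : ∀ σ, star b * v σ = v σ * star (β σ))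
    (he : ∀ σ, Commute (β σ) e) {c : ℝ} (hc : 0 ≤ c) (hβ : ∀ σ, ‖β σ‖ ≤ c) :
    ‖(1 + Ph v (Y - 1)) * b * star (1 + Ph v (Y - 1)) -
      (b + Ph v (Y * Matrix.diagonal β * star Y - Matrix.diagonal β))‖ ≤ 4 * c * l := by
  have e1 : (Y - 1) * Matrix.diagonal β * cst e = (Y - 1) * Matrix.diagonal β := by
    have : Matrix.diagonal β * cst e = cst e * Matrix.diagonal β := by
      simp only [cst, Matrix.diagonal_mul_diagonal, fun σ => (he σ).eq]
    rw [mul_assoc, this, ← mul_assoc, h₁]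
  have e2 : cst e * (star Y - 1) = star Y - 1 := by
    simpa only [star_mul, star_sub, star_one, xc1_star_cst h.e_star] using congrArg star h₁
  have e3 : (1 + Ph v (Y - 1)) * b * star (1 + Ph v (Y - 1)) -
      (b + Ph v (Y * Matrix.diagonal β * star Y - Matrix.diagonal β)) =
      Ph v ((Y - 1) * Matrix.diagonal β + Matrix.diagonal β * (star Y - 1) +
        (Y - 1) * Matrix.diagonal β * pj A (insert o odd) * (star Y - 1) -
        (Y * Matrix.diagonal β * star Y - Matrix.diagonal β)) := by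
    rw [star_add, star_one, star_Ph, star_sub, star_one, add_mul, one_mul, Ph_mul hb', mul_add,
      mul_one, add_mul, mul_Ph hb, h.Ph_mul_Ph e1 e2, Ph_sub v (_ + _), Ph_add, Ph_add]
    abel
  rw [e3, ← h.Ph_mul_pj, ← h.Ph_pj_mul,
    xc1_ring (pj_mul_self _) (pj_commute_diagonal _ β).eq, ← pj_compl]
  refine (h.norm_Ph_le _).trans ?_
  have hl0 : 0 ≤ l := (norm_nonneg _).trans hl
  have n1 := (norm_mul_le _ _).trans
    (mul_le_mul hl (norm_pj_le (A := A) (insert o odd)ᶜ) (norm_nonneg _) hl0)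
  have n2 := (norm_mul_le _ _).trans
    (mul_le_mul n1 (norm_diagonal_le hc hβ) (norm_nonneg _) (by positivity))
  rw [← CStarRing.norm_mul_mem_unitary _ (Unitary.star_mem hY)] at n2
  have n3 := (norm_mul_le _ _).trans
    (mul_le_mul n2 (norm_pj_le (A := A) (insert o odd)) (norm_nonneg _) (by positivity))
  rw [norm_neg]
  linarith

theorem xc1_unit (h : Frame o odd e v) {Y : Matrix I I A} (hY : Y ∈ unitary (Matrix I I A))
    (h₁ : (Y - 1) * cst e = Y - 1) (h₂ : cst e * (Y - 1) = Y - 1) {l : ℝ}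
    (hl : ‖pj A (insert o odd) * Y - Y * pj A (insert o odd)‖ ≤ l) :
    ‖(1 + Ph v (Y - 1)) * star (1 + Ph v (Y - 1)) - 1‖ ≤ 4 * l := by
  have := h.conj_est hY h₁ h₂ hl (b := 1) (β := fun _ => 1) (fun _ => by simp) (fun _ => by simp)
    (fun _ => Commute.one_left e) zero_le_one fun _ => xc1_norm_one
  rwa [Matrix.diagonal_one, mul_one, mul_one, mul_one, (Unitary.mem_iff.1 hY).2, sub_self,
    xc1_Ph_zero, add_zero] at this

theorem unit_est (h : Frame o odd e v) {Y : Matrix I I A} (hY : Y ∈ unitary (Matrix I I A))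
    (h₁ : (Y - 1) * cst e = Y - 1) (h₂ : cst e * (Y - 1) = Y - 1) {l : ℝ}
    (hl : ‖pj A (insert o odd) * Y - Y * pj A (insert o odd)‖ ≤ l) :
    ‖1 + Ph v (Y - 1)‖ ≤ 9 ∧ ‖(1 + Ph v (Y - 1)) * star (1 + Ph v (Y - 1)) - 1‖ ≤ 4 * l ∧
      ‖star (1 + Ph v (Y - 1)) * (1 + Ph v (Y - 1)) - 1‖ ≤ 4 * l := by
  refine ⟨?_, h.xc1_unit hY h₁ h₂ hl, ?_⟩
  · have n1 := CStarRing.norm_mul_mem_unitary (1 : Matrix I I A) hY
    rw [one_mul] at n1
    have n2 := norm_sub_le Y 1
    have n3 := h.norm_Ph_le (Y - 1)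
    have n4 := norm_add_le 1 (Ph v (Y - 1))
    have n5 := xc1_norm_one (B := A)
    have n6 := xc1_norm_one (B := Matrix I I A)
    linarith
  · have e1 : star (1 + Ph v (Y - 1)) = 1 + Ph v (star Y - 1) := by
      rw [star_add, star_one, star_Ph, star_sub, star_one]
    have := h.xc1_unit (l := l) (Unitary.star_mem hY)
      (by simpa only [star_mul, star_sub, star_one, xc1_star_cst h.e_star] using congrArg star h₂)
      (by simpa only [star_mul, star_sub, star_one, xc1_star_cst h.e_star] using congrArg star h₁)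
      (by rwa [← norm_star, star_sub, star_mul, star_mul, star_star, star_pj, norm_sub_rev])
    rwa [← e1, star_star] at this

end Frame

end Pool.Agent.Izumi
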