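import Pool.Agent.Lib.MP_b2135d_an.XW

/-! The unitaries `Yel X f` and the locality estimate. -/

namespace Pool.Agent.Izumi

open scoped ComplexOrder Pointwise
open Pool.Agent.Lib.MP_f90f6c_an.H50

set_option linter.unusedSectionVars false

variable {I A : Type} [Fintype I] [DecidableEq I] [CStarAlgebra A] [PartialOrder A]
  [StarOrderedRing A] {X : Matrix I I ℂ} {f f' : I → A}

section Ring

variable {B : Type} [Ring B]

theorem xc2_unit {x y u v E : B} (hyx : y * x = 1) (hx : x * E = E * x) (hy : y * E = E * y)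
    (h1 : E * (u - 1) = u - 1) (h2 : (u - 1) * E = u - 1) (h3 : E * (v - 1) = v - 1)
    (h4 : (v - 1) * E = v - 1) :
    (y * u * x * v - 1) * E = y * u * x * v - 1 ∧ E * (y * u * x * v - 1) = y * u * x * v - 1 := by
  have hv : v * E = E * v := by
    have h5 : (v - 1) * E = E * (v - 1) := h4.trans h3.symm
    rw [sub_mul, mul_sub, one_mul, mul_one] at h5
    exact sub_left_injective h5
  have key : y * u * x * v - 1 = y * (u - 1) * x * v + (v - 1) := by
    rw [mul_sub, mul_one, sub_mul, hyx, sub_mul, one_mul]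
    abel
  rw [key]
  constructor
  · rw [add_mul, h4]
    congr 1
    calc y * (u - 1) * x * v * E = y * (u - 1) * (x * (v * E)) := by simp only [mul_assoc]
      _ = y * ((u - 1) * E) * x * v := by
        rw [hv, ← mul_assoc x, hx]
        simp only [mul_assoc]
      _ = y * (u - 1) * x * v := by rw [h2]
  · rw [mul_add, h3]
    congr 1
    calc E * (y * (u - 1) * x * v) = (E * y) * (u - 1) * x * v := by simp only [mul_assoc]
      _ = y * (E * (u - 1)) * x * v := by
        rw [← hy]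
        simp only [mul_assoc]
      _ = y * (u - 1) * x * v := by rw [h1]

theorem xc2_supp {x y u v Q : B} (hxQ : x * Q = Q) (hyQ : y * Q = Q) (hQx : Q * x = Q)
    (hQy : Q * y = Q) (hu : Q * u = u * Q) (hv : Q * v = v * Q) (huv : u * v = 1) :
    (y * u * x * v - 1) * Q = 0 ∧ Q * (y * u * x * v - 1) = 0 := by
  constructor
  · rw [sub_mul, one_mul, sub_eq_zero]
    calc y * u * x * v * Q = y * u * (x * (v * Q)) := by simp only [mul_assoc]
      _ = y * (u * Q) * v := by
        rw [← hv, ← mul_assoc x, hxQ]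
        simp only [mul_assoc]
      _ = y * Q * (u * v) := by
        rw [← hu]
        simp only [mul_assoc]
      _ = Q := by rw [hyQ, huv, mul_one]
  · rw [mul_sub, mul_one, sub_eq_zero]
    calc Q * (y * u * x * v) = (Q * y) * u * x * v := by simp only [mul_assoc]
      _ = u * (Q * x) * v := by
        rw [hQy, hu]
        simp only [mul_assoc]
      _ = Q * (u * v) := by
        rw [hQx, ← hu]
        simp only [mul_assoc]
      _ = Q := by rw [huv, mul_one]

theorem xc2_congr {x y u v u' v' P : B} (hP : P * P = P) (hx : x * P = P * x)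
    (hu : u * P = u' * P) (hv : v * P = v' * P) (hv' : P * v' = v' * P) :
    y * u * x * v * P = y * u' * x * v' * P := by
  have h1 : x * (v' * P) = P * (x * (v' * P)) := by
    rw [← mul_assoc P, ← hx, mul_assoc x, ← mul_assoc P, hv', mul_assoc v', hP]
  calc y * u * x * v * P = y * (u * (x * (v * P))) := by simp only [mul_assoc]
    _ = y * (u * P * (x * (v' * P))) := by rw [hv, mul_assoc u, ← h1]
    _ = y * (u' * (x * (v' * P))) := by rw [hu, mul_assoc u', ← h1]
    _ = y * u' * x * v' * P := by simp only [mul_assoc]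

theorem xc2_comm {x y u v D D' J : B} (hyx : y * x = 1) (hj : x * D * y = D' + J)
    (hu : D' * u = u * D') (hv : D * v = v * D) :
    D * (y * u * x * v) - y * u * x * v * D = y * ((J * u - u * J) * (x * v)) := by
  have h1 : J * u - u * J = x * D * y * u - u * (x * D * y) := by
    rw [hj, add_mul, mul_add, hu]
    abel
  have h2 : y * (x * D * y * u * (x * v)) = D * (y * u * x * v) := by
    calc y * (x * D * y * u * (x * v)) = (y * x) * (D * (y * u * x * v)) := by
          simp only [mul_assoc]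
      _ = _ := by rw [hyx, one_mul]
  have h3 : y * (u * (x * D * y) * (x * v)) = y * u * x * v * D := by
    calc y * (u * (x * D * y) * (x * v)) = y * u * x * (D * ((y * x) * v)) := by
          simp only [mul_assoc]
      _ = _ := by
        rw [hyx, one_mul, hv]
        simp only [mul_assoc]
  rw [h1, sub_mul, mul_sub, h2, h3]

theorem xc2_conj {x y u v c d : B} (hxy : x * y = 1) (hvu : v * u = 1) (hc : x * c = c * x) :
    y * u * x * v * d * (u * (y * (v * x))) - y * d * x =
      y * ((u * c * v - d) * x) - y * u * x * v * ((u * c * v - d) * (u * (y * (v * x)))) := by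
  have h1 : y * u * x * v * (u * c * v * (u * (y * (v * x)))) = y * (u * c * v * x) := by
    calc y * u * x * v * (u * c * v * (u * (y * (v * x))))
        = y * u * (x * ((v * u) * c) * ((v * u) * y)) * (v * x) := by simp only [mul_assoc]
      _ = y * u * (c * (x * y)) * (v * x) := by
        rw [hvu, one_mul, one_mul, hc, mul_assoc c]
      _ = _ := by
        rw [hxy, mul_one]
        simp only [mul_assoc]
  rw [sub_mul, sub_mul, mul_sub, mul_sub, h1]
  simp only [mul_assoc]
  abel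

theorem xc2_split {C P Q : B} (h : Q = 1 - P) : C = P * C * P + C * Q + Q * C * P := by
  rw [h]
  noncomm_ring

end Ring

theorem xc2_comm_le {B : Type} [CStarAlgebra B] {a u : B} {ε : ℝ} (ha : ‖a‖ ≤ ε)
    (hu : ‖u‖ ≤ 1) : ‖a * u - u * a‖ ≤ 2 * ε := by
  have h1 : ‖a * u‖ ≤ ε :=
    (norm_mul_le _ _).trans ((mul_le_of_le_one_right (norm_nonneg _) hu).trans ha)
  have h2 : ‖u * a‖ ≤ ε :=
    (norm_mul_le _ _).trans ((mul_le_of_le_one_left (norm_nonneg _) hu).trans ha)
  linarith [norm_sub_le (a * u) (u * a)]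

theorem xc2_star_diagonal (f : I → A) :
    star (Matrix.diagonal f) = Matrix.diagonal fun σ => star (f σ) := by
  rw [Matrix.star_eq_conjTranspose, Matrix.diagonal_conjTranspose]
  rfl

theorem xc2_mul_mem {C : StarSubalgebra ℂ A} {M N : Matrix I I A} (hM : ∀ σ τ, M σ τ ∈ C)
    (hN : ∀ σ τ, N σ τ ∈ C) (σ τ : I) : (M * N) σ τ ∈ C := by
  rw [Matrix.mul_apply]
  exact sum_mem fun ρ _ => mul_mem (hM σ ρ) (hN ρ τ)

theorem xc2_star_mem {C : StarSubalgebra ℂ A} {M : Matrix I I A} (hM : ∀ σ τ, M σ τ ∈ C)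
    (σ τ : I) : star M σ τ ∈ C := by
  rw [Matrix.star_apply]
  exact star_mem (hM τ σ)

theorem xc2_diagonal_mem {C : StarSubalgebra ℂ A} {f : I → A} (hf : ∀ σ, f σ ∈ C) (σ τ : I) :
    Matrix.diagonal f σ τ ∈ C := by
  rw [Matrix.diagonal_apply]
  split_ifs
  · exact hf σ
  · exact zero_mem C

theorem xc2_diagonal_sub_one (f : I → A) :
    Matrix.diagonal f - 1 = Matrix.diagonal fun σ => f σ - 1 := by
  rw [← Matrix.diagonal_one, Matrix.diagonal_sub]

theorem xc2_star_submatrix {R : Type} [Ring R] [StarRing R] (π : Equiv.Perm I)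
    (M : Matrix I I R) :
    (star M).submatrix π.symm π.symm = star (M.submatrix π.symm π.symm) := by
  ext σ τ
  rfl

theorem xc2_mul_submatrix {R : Type} [Ring R] (π : Equiv.Perm I) (M N : Matrix I I R) :
    (M * N).submatrix π.symm π.symm =
      M.submatrix π.symm π.symm * N.submatrix π.symm π.symm :=
  (Matrix.submatrix_mul_equiv M N π.symm π.symm π.symm).symm

theorem xc2_diagonal_submatrix {R : Type} [Ring R] (π : Equiv.Perm I) (f : I → R) :
    (Matrix.diagonal f).submatrix π.symm π.symm = Matrix.diagonal fun σ => f (π.symm σ) :=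
  Matrix.submatrix_diagonal_equiv f π.symm

theorem xc2_submatrix_unitary (π : Equiv.Perm I) (hX : X ∈ unitary (Matrix I I ℂ)) :
    X.submatrix π.symm π.symm ∈ unitary (Matrix I I ℂ) := by
  rw [Unitary.mem_iff, ← xc2_star_submatrix, ← xc2_mul_submatrix, ← xc2_mul_submatrix,
    hX.1, hX.2, Matrix.submatrix_one_equiv]
  exact ⟨rfl, rfl⟩

theorem diagonal_unitary (hf : ∀ σ, f σ ∈ unitary A) :
    Matrix.diagonal f ∈ unitary (Matrix I I A) := by
  rw [Unitary.mem_iff, xc2_star_diagonal, Matrix.diagonal_mul_diagonal,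
    Matrix.diagonal_mul_diagonal, ← Matrix.diagonal_one]
  exact ⟨congrArg Matrix.diagonal (funext fun σ => (hf σ).1),
    congrArg Matrix.diagonal (funext fun σ => (hf σ).2)⟩

theorem sc_unitary (hX : X ∈ unitary (Matrix I I ℂ)) : sc A X ∈ unitary (Matrix I I A) := by
  rw [Unitary.mem_iff, ← map_star, ← map_mul, ← map_mul, hX.1, hX.2, map_one]
  exact ⟨rfl, rfl⟩

theorem Yel_unitary (hX : X ∈ unitary (Matrix I I ℂ)) (hf : ∀ σ, f σ ∈ unitary A) :
    Yel X f ∈ unitary (Matrix I I A) := by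
  have hx : sc A X ∈ unitary (Matrix I I A) := sc_unitary hX
  have hu := diagonal_unitary hf
  exact mul_mem (mul_mem (mul_mem (Unitary.star_mem hx) hu) hx) (Unitary.star_mem hu)

theorem Yel_mem {C : StarSubalgebra ℂ A} (X : Matrix I I ℂ) (hf : ∀ σ, f σ ∈ C) (σ τ : I) :
    (Yel X f - 1) σ τ ∈ C := by
  have hx : ∀ σ τ, sc A X σ τ ∈ C := fun σ τ => C.algebraMap_mem _
  have hu := xc2_diagonal_mem hf
  rw [Matrix.sub_apply]
  refine sub_mem (xc2_mul_mem (xc2_mul_mem (xc2_mul_mem (xc2_star_mem hx) hu) hx)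
    (xc2_star_mem hu) σ τ) ?_
  rw [← Matrix.diagonal_one]
  exact xc2_diagonal_mem (fun _ => one_mem C) σ τ

theorem Yel_unit {e : A} (hX : X ∈ unitary (Matrix I I ℂ)) (he : star e = e)
    (h₁ : ∀ σ, e * (f σ - 1) = f σ - 1) (h₂ : ∀ σ, (f σ - 1) * e = f σ - 1) :
    (Yel X f - 1) * cst e = Yel X f - 1 ∧ cst e * (Yel X f - 1) = Yel X f - 1 := by
  have hx : sc A X ∈ unitary (Matrix I I A) := sc_unitary hX
  have hy : star (sc A X) * cst e = cst e * star (sc A X) := by
    rw [← map_star]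
    exact (sc_commute_cst (star X) e).eq
  have k₁ : ∀ σ, e * (star (f σ) - 1) = star (f σ) - 1 := fun σ => by
    simpa only [star_mul, star_sub, star_one, he] using congrArg star (h₂ σ)
  have k₂ : ∀ σ, (star (f σ) - 1) * e = star (f σ) - 1 := fun σ => by
    simpa only [star_mul, star_sub, star_one, he] using congrArg star (h₁ σ)
  refine xc2_unit hx.1 (sc_commute_cst X e).eq hy ?_ ?_ ?_ ?_
  · rw [xc2_diagonal_sub_one, cst, Matrix.diagonal_mul_diagonal]
    exact congrArg Matrix.diagonal (funext h₁)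
  · rw [xc2_diagonal_sub_one, cst, Matrix.diagonal_mul_diagonal]
    exact congrArg Matrix.diagonal (funext h₂)
  · rw [xc2_star_diagonal, xc2_diagonal_sub_one, cst, Matrix.diagonal_mul_diagonal]
    exact congrArg Matrix.diagonal (funext k₁)
  · rw [xc2_star_diagonal, xc2_diagonal_sub_one, cst, Matrix.diagonal_mul_diagonal]
    exact congrArg Matrix.diagonal (funext k₂)

theorem xc2_fix (hX : X ∈ unitary (Matrix I I ℂ)) {s : Finset I} (hs : X * pj ℂ s = pj ℂ s) :
    sc A X * pj A s = pj A s ∧ star (sc A X) * pj A s = pj A s ∧ pj A s * sc A X = pj A s ∧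
      pj A s * star (sc A X) = pj A s := by
  have hx : sc A X ∈ unitary (Matrix I I A) := sc_unitary hX
  have h1 : sc A X * pj A s = pj A s := by rw [← sc_pj, ← map_mul, hs]
  have h2 : star (sc A X) * pj A s = pj A s := by
    calc star (sc A X) * pj A s = star (sc A X) * (sc A X * pj A s) := by rw [h1]
      _ = pj A s := by rw [← mul_assoc, hx.1, one_mul]
  refine ⟨h1, h2, ?_, ?_⟩
  · simpa only [star_mul, star_star, star_pj] using congrArg star h2
  · simpa only [star_mul, star_star, star_pj] using congrArg star h1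

theorem Yel_supp (hX : X ∈ unitary (Matrix I I ℂ)) {I0 : Finset I}
    (hs : X * pj ℂ I0ᶜ = pj ℂ I0ᶜ) (hf : ∀ σ, f σ ∈ unitary A) :
    (Yel X f - 1) * pj A I0ᶜ = 0 ∧ pj A I0ᶜ * (Yel X f - 1) = 0 := by
  obtain ⟨h1, h2, h3, h4⟩ := xc2_fix (A := A) hX hs
  refine xc2_supp h1 h2 h3 h4 (pj_commute_diagonal _ f).eq ?_ (diagonal_unitary hf).2
  rw [xc2_star_diagonal]
  exact (pj_commute_diagonal _ _).eq

theorem Yel_congr (hX : X ∈ unitary (Matrix I I ℂ)) {I0 : Finset I}
    (hs : X * pj ℂ I0ᶜ = pj ℂ I0ᶜ) (hf : ∀ σ, f σ ∈ unitary A) (hf' : ∀ σ, f' σ ∈ unitary A)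
    (h : ∀ σ ∈ I0, f σ = f' σ) : Yel X f = Yel X f' := by
  obtain ⟨h1, -, h3, -⟩ := xc2_fix (A := A) hX hs
  have hQ : pj A I0ᶜ = 1 - pj A I0 := pj_compl I0
  have hP : pj A I0 = 1 - pj A I0ᶜ := by rw [hQ, sub_sub_cancel]
  have hx : sc A X * pj A I0 = pj A I0 * sc A X := by
    rw [hP, mul_sub, sub_mul, h1, h3, mul_one, one_mul]
  have hd : ∀ g g' : I → A, (∀ σ ∈ I0, g σ = g' σ) →
      Matrix.diagonal g * pj A I0 = Matrix.diagonal g' * pj A I0 := fun g g' hg => by
    rw [pj, Matrix.diagonal_mul_diagonal, Matrix.diagonal_mul_diagonal]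
    refine congrArg Matrix.diagonal (funext fun σ => ?_)
    by_cases hσ : σ ∈ I0
    · rw [hg σ hσ]
    · rw [if_neg hσ, mul_zero, mul_zero]
  have k1 : Yel X f * pj A I0 = Yel X f' * pj A I0 := by
    refine xc2_congr (pj_mul_self I0) hx (hd f f' h) ?_ ?_
    · rw [xc2_star_diagonal, xc2_star_diagonal]
      exact hd _ _ fun σ hσ => by rw [h σ hσ]
    · rw [xc2_star_diagonal]
      exact (pj_commute_diagonal _ _).eq
  have k2 := (Yel_supp hX hs hf).1
  have k3 := (Yel_supp hX hs hf').1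
  rw [sub_mul, sub_eq_zero] at k2 k3
  have k4 := k2.trans k3.symm
  rw [hQ, mul_sub, mul_sub, mul_one, mul_one, k1] at k4
  exact sub_left_injective k4

theorem mp_Yel (θ : A →⋆ₐ[ℂ] A) (X : Matrix I I ℂ) (f : I → A) :
    mp θ (Yel X f) = Yel X fun σ => θ (f σ) := by
  rw [Yel, Yel, map_mul, map_mul, map_mul, map_star, map_star, mp_sc, mp_diagonal]

theorem Yel_submatrix (π : Equiv.Perm I) (X : Matrix I I ℂ) (f : I → A) :
    (Yel X f).submatrix π.symm π.symm =
      Yel (X.submatrix π.symm π.symm) fun σ => f (π.symm σ) := by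
  rw [Yel, Yel, xc2_mul_submatrix, xc2_mul_submatrix, xc2_mul_submatrix, xc2_star_submatrix,
    xc2_star_submatrix, xc2_diagonal_submatrix, sc_submatrix]

theorem norm_Yel_sub {X' : Matrix I I ℂ} (hX : X ∈ unitary (Matrix I I ℂ))
    (hX' : X' ∈ unitary (Matrix I I ℂ)) (hf : ∀ σ, f σ ∈ unitary A) :
    ‖Yel X' f - Yel X f‖ ≤ 2 * ‖X' - X‖ := by
  have hx : sc A X ∈ unitary (Matrix I I A) := sc_unitary hX
  have hx' : sc A X' ∈ unitary (Matrix I I A) := sc_unitary hX'
  have hu := diagonal_unitary hf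
  have hd : ‖sc A X' - sc A X‖ ≤ ‖X' - X‖ := by
    rw [← map_sub]
    exact norm_sc_le _
  have key : Yel X' f - Yel X f =
      star (sc A X' - sc A X) * (Matrix.diagonal f * sc A X' * star (Matrix.diagonal f)) +
        star (sc A X) * Matrix.diagonal f * ((sc A X' - sc A X) * star (Matrix.diagonal f)) := by
    rw [Yel, Yel, star_sub]
    noncomm_ring
  rw [key]
  refine (norm_add_le _ _).trans ?_
  rw [CStarRing.norm_mul_mem_unitary _ (mul_mem (mul_mem hu hx') (Unitary.star_mem hu)),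
    CStarRing.norm_mem_unitary_mul _ (mul_mem (Unitary.star_mem hx) hu),
    CStarRing.norm_mul_mem_unitary _ (Unitary.star_mem hu), norm_star]
  linarith

/-- Almost invariance. -/
theorem Yel_act (hX : X ∈ unitary (Matrix I I ℂ)) {I0 : Finset I}
    (hs : X * pj ℂ I0ᶜ = pj ℂ I0ᶜ) (hf : ∀ σ, f σ ∈ unitary A) (hf' : ∀ σ, f' σ ∈ unitary A)
    (θ : A →⋆ₐ[ℂ] A) (π : Equiv.Perm I) (h : ∀ σ ∈ I0, θ (f σ) = f' (π σ)) :
    ‖(mp θ (Yel X f - 1)).submatrix π.symm π.symm - (Yel X f' - 1)‖ ≤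
      2 * ‖X.submatrix π.symm π.symm - X‖ := by
  have hX' := xc2_submatrix_unitary π hX
  have hs' : X.submatrix π.symm π.symm * pj ℂ (I0.map π.toEmbedding)ᶜ =
      pj ℂ (I0.map π.toEmbedding)ᶜ := by
    have h1 : pj ℂ (I0.map π.toEmbedding)ᶜ = (pj ℂ I0ᶜ).submatrix π.symm π.symm := by
      rw [pj, pj, xc2_diagonal_submatrix]
      refine congrArg Matrix.diagonal (funext fun σ => ?_)
      simp only [Finset.mem_compl, Finset.mem_map_equiv]
    rw [h1, ← xc2_mul_submatrix, hs]
  have hg : ∀ σ, θ (f (π.symm σ)) ∈ unitary A := fun σ => by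
    rw [Unitary.mem_iff, ← map_star, ← map_mul, ← map_mul, (hf _).1, (hf _).2, map_one]
    exact ⟨rfl, rfl⟩
  have h1 : (mp θ (Yel X f - 1)).submatrix π.symm π.symm =
      Yel (X.submatrix π.symm π.symm) f' - 1 := by
    rw [map_sub, map_one, mp_Yel, Matrix.submatrix_sub, Pi.sub_apply, Pi.sub_apply,
      Yel_submatrix, Matrix.submatrix_one_equiv]
    refine congrArg (· - 1) (Yel_congr hX' hs' hg hf' fun σ hσ => ?_)
    rw [h _ (Finset.mem_map_equiv.1 hσ), Equiv.apply_symm_apply]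
  rw [h1, sub_sub_sub_cancel_right]
  exact norm_Yel_sub hX hX' hf'

theorem Yel_comm (hX : X ∈ unitary (Matrix I I ℂ)) (hf : ∀ σ, f σ ∈ unitary A)
    {s s' : Finset I} {j : Matrix I I ℂ} (hj : X * pj ℂ s * star X = pj ℂ s' + j) :
    ‖pj A s * Yel X f - Yel X f * pj A s‖ ≤
      ‖sc A j * Matrix.diagonal f - Matrix.diagonal f * sc A j‖ := by
  have hx : sc A X ∈ unitary (Matrix I I A) := sc_unitary hX
  have hu := diagonal_unitary hf
  have hj' : sc A X * pj A s * star (sc A X) = pj A s' + sc A j := by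
    rw [← sc_pj, ← map_star, ← map_mul, ← map_mul, hj, map_add, sc_pj]
  have hv : pj A s * star (Matrix.diagonal f) = star (Matrix.diagonal f) * pj A s := by
    rw [xc2_star_diagonal]
    exact (pj_commute_diagonal _ _).eq
  rw [Yel, xc2_comm hx.1 hj' (pj_commute_diagonal s' f).eq hv,
    CStarRing.norm_mem_unitary_mul _ (Unitary.star_mem hx),
    CStarRing.norm_mul_mem_unitary _ (mul_mem hx (Unitary.star_mem hu))]

theorem Yel_conj (hX : X ∈ unitary (Matrix I I ℂ)) (hf : ∀ σ, f σ ∈ unitary A) {b : A}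
    {β : I → A} {η : ℝ} (hη : 0 ≤ η) (h : ∀ σ, ‖f σ * b * star (f σ) - β σ‖ ≤ η) :
    ‖Yel X f * Matrix.diagonal β * star (Yel X f) -
      star (sc A X) * Matrix.diagonal β * sc A X‖ ≤ 2 * η := by
  have hx : sc A X ∈ unitary (Matrix I I A) := sc_unitary hX
  have hu := diagonal_unitary hf
  have hd : ‖Matrix.diagonal f * cst b * star (Matrix.diagonal f) - Matrix.diagonal β‖ ≤ η := by
    rw [xc2_star_diagonal, cst, Matrix.diagonal_mul_diagonal, Matrix.diagonal_mul_diagonal,
      Matrix.diagonal_sub]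
    exact norm_diagonal_le hη h
  have hY := Yel_unitary hX hf
  have hs : star (Yel X f) =
      Matrix.diagonal f * (star (sc A X) * (star (Matrix.diagonal f) * sc A X)) := by
    rw [Yel, star_mul, star_mul, star_mul, star_star, star_star]
  have key := xc2_conj (d := Matrix.diagonal β) hx.2 hu.1 (sc_commute_cst X b).eq
  rw [← hs] at key
  have key' : Yel X f * Matrix.diagonal β * star (Yel X f) -
      star (sc A X) * Matrix.diagonal β * sc A X = _ := key
  rw [key']
  refine (norm_sub_le _ _).trans ?_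
  rw [CStarRing.norm_mem_unitary_mul _ (Unitary.star_mem hx),
    CStarRing.norm_mul_mem_unitary _ hx]
  have h2 : ‖Yel X f * ((Matrix.diagonal f * cst b * star (Matrix.diagonal f) -
      Matrix.diagonal β) * star (Yel X f))‖ ≤ η := by
    rw [CStarRing.norm_mem_unitary_mul _ hY,
      CStarRing.norm_mul_mem_unitary _ (Unitary.star_mem hY)]
    exact hd
  have h3 : η + η = 2 * η := by ring
  exact h3 ▸ add_le_add hd h2

/-- The vacuum entry is almost killed. -/
theorem vac_kill {o : I} {odd Gd : Finset I} (ho : o ∉ odd) (hG : o ∉ Gd) {j : Matrix I I ℂ}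
    (hj : X * pj ℂ (insert o odd) * star X = pj ℂ odd + j) {ε : ℝ} (hε : ‖j * pj ℂ Gdᶜ‖ ≤ ε)
    (a : A) : ‖pj A (insert o odd) * (star (sc A X) * (pj A {o} * cst a) * sc A X) *
      pj A (insert o odd)‖ ≤ ‖a‖ * ε := by
  have hj' : sc A X * pj A (insert o odd) * star (sc A X) = pj A odd + sc A j := by
    rw [← sc_pj, ← map_star, ← map_mul, ← map_mul, hj, map_add, sc_pj]
  have hE : pj A ({o} : Finset I) * cst a = cst a * pj A {o} := (pj_commute_diagonal _ _).eq
  have hEo : pj A ({o} : Finset I) * pj A odd = 0 := by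
    rw [pj, pj, Matrix.diagonal_mul_diagonal, ← Matrix.diagonal_zero]
    refine congrArg Matrix.diagonal (funext fun σ => ?_)
    by_cases hσ : σ ∈ ({o} : Finset I)
    · have hσ' : σ ∉ odd := by rwa [Finset.mem_singleton.1 hσ]
      rw [if_neg hσ', mul_zero]
    · rw [if_neg hσ, zero_mul]
  have hGE : pj A Gdᶜ * pj A ({o} : Finset I) = pj A {o} := by
    rw [pj_mul_pj, Finset.inter_singleton_of_mem (Finset.mem_compl.2 hG)]
  obtain ⟨Z, hZ⟩ : ∃ Z, Z = pj A ({o} : Finset I) * sc A X * pj A (insert o odd) := ⟨_, rfl⟩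
  have hZs : star Z = pj A (insert o odd) * (star (sc A X) * pj A ({o} : Finset I)) := by
    rw [hZ, star_mul, star_mul, star_pj, star_pj]
  have h1 : pj A (insert o odd) * (star (sc A X) * (pj A {o} * cst a) * sc A X) *
      pj A (insert o odd) = star Z * cst a * Z := by
    have h0 : pj A ({o} : Finset I) * cst a = pj A {o} * cst a * pj A {o} := by
      rw [mul_assoc, ← hE, ← mul_assoc, pj_mul_self]
    rw [hZs, hZ, h0]
    simp only [mul_assoc]
  have h2 : Z * star Z = pj A {o} * (sc A (j * pj ℂ Gdᶜ) * pj A {o}) := by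
    calc Z * star Z = pj A {o} * (sc A X * (pj A (insert o odd) * pj A (insert o odd)) *
          star (sc A X)) * pj A {o} := by
          rw [hZs, hZ]
          simp only [mul_assoc]
      _ = pj A {o} * sc A j * pj A {o} := by
          rw [pj_mul_self, hj', mul_add, hEo, zero_add]
      _ = _ := by rw [map_mul, sc_pj, mul_assoc (sc A j), hGE, mul_assoc]
  have h3 : ‖Z‖ * ‖Z‖ ≤ ε := by
    rw [← CStarRing.norm_self_mul_star, h2]
    refine (norm_mul_le _ _).trans
      ((mul_le_of_le_one_left (norm_nonneg _) (norm_pj_le _)).trans ?_)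
    refine (norm_mul_le _ _).trans
      ((mul_le_of_le_one_right (norm_nonneg _) (norm_pj_le _)).trans ?_)
    exact (norm_sc_le _).trans hε
  have h4 : ‖(cst a : Matrix I I A)‖ ≤ ‖a‖ := norm_diagonal_le (norm_nonneg a) fun _ => le_rfl
  rw [h1]
  calc ‖star Z * cst a * Z‖ ≤ ‖star Z‖ * ‖(cst a : Matrix I I A)‖ * ‖Z‖ := norm_mul₃_le
    _ = ‖(cst a : Matrix I I A)‖ * (‖Z‖ * ‖Z‖) := by
      rw [norm_star]
      ring
    _ ≤ ‖a‖ * ε := mul_le_mul h4 h3 (by positivity) (norm_nonneg a)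

/-- Locality: `j` almost commutes with families that are Lipschitz on good configurations. -/
theorem Model.loc {G V : Type} [Group G] [Fintype V] {S : Finset G} {ε r : ℝ} {n₀ : ℕ}
    (M : Model G I V S ε n₀ r) {Λ : ℝ} (hΛ : 0 ≤ Λ) (hf : ∀ σ, ‖f σ‖ ≤ 1)
    (h : ∀ σ ∈ M.Gd, ∀ τ ∈ M.Gd, ∀ d : ℝ, (∀ x, |M.y σ x - M.y τ x| ≤ d) →
      ‖f σ - f τ‖ ≤ Λ * d) :
    ‖sc A M.j * Matrix.diagonal f - Matrix.diagonal f * sc A M.j‖ ≤ Λ * r + 4 * ε := by
  have hjs : star M.j = M.j := by
    have h1 : M.j = M.X * pj ℂ (insert M.o M.odd) * star M.X - pj ℂ M.odd := by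
      rw [M.j_eq, add_sub_cancel_left]
    rw [h1, star_sub, star_mul, star_mul, star_star, star_pj, star_pj, mul_assoc]
  have hu : ‖Matrix.diagonal f‖ ≤ 1 := norm_diagonal_le zero_le_one hf
  have hJQ : ‖sc A M.j * pj A M.Gdᶜ‖ ≤ ε := by
    rw [← sc_pj, ← map_mul]
    exact (norm_sc_le _).trans M.j_bad
  have hQJ : ‖pj A M.Gdᶜ * sc A M.j‖ ≤ ε := by
    rw [← norm_star, star_mul, star_pj, ← map_star, hjs]
    exact hJQ
  have hQ : pj A M.Gdᶜ * Matrix.diagonal f = Matrix.diagonal f * pj A M.Gdᶜ :=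
    (pj_commute_diagonal _ _).eq
  obtain ⟨C, hC⟩ : ∃ C, C = sc A M.j * Matrix.diagonal f - Matrix.diagonal f * sc A M.j :=
    ⟨_, rfl⟩
  have k1 : ‖C * pj A M.Gdᶜ‖ ≤ 2 * ε := by
    rw [hC, sub_mul, mul_assoc, ← hQ, ← mul_assoc, mul_assoc (Matrix.diagonal f)]
    exact xc2_comm_le hJQ hu
  have k2 : ‖pj A M.Gdᶜ * C * pj A M.Gd‖ ≤ 2 * ε := by
    refine (norm_mul_le _ _).trans
      ((mul_le_of_le_one_right (norm_nonneg _) (norm_pj_le _)).trans ?_)
    rw [hC, mul_sub, ← mul_assoc, ← mul_assoc, hQ, mul_assoc (Matrix.diagonal f)]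
    exact xc2_comm_le hQJ hu
  have hC' : C = ∑ a, wp (M.φ a) fun σ =>
      algebraMap ℂ A (M.c a σ) * f (M.φ a σ) - f σ * algebraMap ℂ A (M.c a σ) := by
    have h0 : sc A (Matrix.diagonal M.c0) * Matrix.diagonal f =
        Matrix.diagonal f * sc A (Matrix.diagonal M.c0) := by
      rw [sc_diagonal, Matrix.diagonal_mul_diagonal, Matrix.diagonal_mul_diagonal]
      exact congrArg Matrix.diagonal (funext fun σ => Algebra.commutes _ _)
    rw [hC, M.j_dec, map_add, add_mul, mul_add, h0, add_sub_add_left_eq_sub, map_sum,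
      Finset.sum_mul, Finset.mul_sum, ← Finset.sum_sub_distrib]
    refine Finset.sum_congr rfl fun a _ => ?_
    rw [sc_wp, wp_mul_diagonal, diagonal_mul_wp, wp_sub]
  have k3 : ‖pj A M.Gd * C * pj A M.Gd‖ ≤ Λ * r := by
    rw [hC', Finset.mul_sum, Finset.sum_mul]
    refine (norm_sum_le_of_le Finset.univ (n := fun a => M.cb a * (Λ * M.δ))
      fun a _ => ?_).trans ?_
    · have hδ : 0 ≤ M.δ := (abs_nonneg _).trans (M.φ_y a M.o 1)
      have hc : 0 ≤ M.cb a := (norm_nonneg _).trans (M.c_le a M.o)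
      have h0 : 0 ≤ M.cb a * (Λ * M.δ) := mul_nonneg hc (mul_nonneg hΛ hδ)
      rw [pj, diagonal_mul_wp, wp_mul_diagonal]
      refine norm_wp_le (M.φ_inj a) h0 fun σ => ?_
      by_cases hσ : σ ∈ M.Gd
      · by_cases hτ : M.φ a σ ∈ M.Gd
        · rw [if_pos hσ, if_pos hτ, one_mul, mul_one, ← Algebra.commutes, ← mul_sub,
            ← Algebra.smul_def, norm_smul, norm_sub_rev]
          exact mul_le_mul (M.c_le a σ) (h σ hσ _ hτ M.δ (M.φ_y a σ)) (norm_nonneg _) hc
        · rw [if_neg hτ, mul_zero, norm_zero]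
          exact h0
      · rw [if_neg hσ, zero_mul, zero_mul, norm_zero]
        exact h0
    · rw [← Finset.sum_mul, mul_left_comm]
      exact mul_le_mul_of_nonneg_left M.small hΛ
  rw [← hC, xc2_split (C := C) (pj_compl (R := A) M.Gd)]
  refine norm_add₃_le.trans ?_
  linarith

end Pool.Agent.Izumi
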