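import Pool.Agent.Lib.MP_b2135d_an.XC1
import Pool.Agent.Lib.MP_b2135d_an.XC2

/-! The abstract estimate of the core problem. -/

namespace Pool.Agent.Izumi

open scoped ComplexOrder Pointwise
open Pool.Agent.Lib.MP_f90f6c_an.H50

/-- Two diagonal matrices that agree away from `o` differ by a single entry. -/
theorem xc3_diag_sub {I A : Type} [Fintype I] [DecidableEq I] [Ring A] {o : I} {β β' : I → A}
    (h : ∀ σ, σ ≠ o → β σ = β' σ) :
    Matrix.diagonal β - Matrix.diagonal β' = pj A {o} * cst (β o - β' o) := by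
  ext σ τ
  simp only [pj, cst, Matrix.diagonal_mul_diagonal, Matrix.sub_apply, Matrix.diagonal_apply,
    Finset.mem_singleton]
  by_cases hστ : σ = τ
  · subst hστ
    by_cases hσ : σ = o
    · subst hσ
      simp
    · simp [hσ, h σ hσ]
  · simp [hστ]

/-- The abstract estimate: labelled unitaries `F`, targets `β` and a frame give the unitaries. -/
theorem Model.approx {G I V A ι D : Type} [Group G] [Fintype I] [DecidableEq I] [Fintype V]
    [CStarAlgebra A] [PartialOrder A] [StarOrderedRing A] [MulAction G ι] {S : Finset G}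
    {ε r : ℝ} {n₀ : ℕ} (M : Model G I V S ε n₀ r) (γ : G →* (A ≃⋆ₐ[ℂ] A))
    (C : StarSubalgebra ℂ A) {e : A} {v : I → A} (hv : Frame M.o M.odd e v) (hvC : ∀ σ, v σ ∈ C)
    (hvg : ∀ g ∈ S, ∀ σ ∈ M.I0, γ g (v σ) = v (M.π g σ)) (F : ι → I → A)
    (hFu : ∀ i σ, F i σ ∈ unitary A) (hFC : ∀ i σ, F i σ ∈ C)
    (hFe : ∀ i σ, e * (F i σ - 1) = F i σ - 1 ∧ (F i σ - 1) * e = F i σ - 1)
    (hFg : ∀ g ∈ S, ∀ i, ∀ σ ∈ M.I0, γ g (F i σ) = F (g • i) (M.π g σ)) {Λ : ℝ} (hΛ : 0 ≤ Λ)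
    (hr : Λ * r ≤ ε) (hFl : ∀ i, ∀ σ ∈ M.Gd, ∀ τ ∈ M.Gd, ∀ d : ℝ,
      (∀ x, |M.y σ x - M.y τ x| ≤ d) → ‖F i σ - F i τ‖ ≤ Λ * d)
    (s : Set D) (b : ι → D → A) (β : ι → D → I → A) {c : ℝ} (hc : 0 ≤ c)
    (hβo : ∀ i x, β i x M.o = b i x) (hβi : ∀ i i' x σ, σ ≠ M.o → β i x σ = β i' x σ)
    (hβc : ∀ i, ∀ x ∈ s, ∀ σ, ‖β i x σ‖ ≤ c) (hβe : ∀ i x σ, Commute (β i x σ) e)
    (hb : ∀ i x σ, b i x * v σ = v σ * β i x σ ∧ star (b i x) * v σ = v σ * star (β i x σ))
    (hFb : ∀ i, ∀ x ∈ s, ∀ σ, ‖F i σ * b i x * star (F i σ) - β i x σ‖ ≤ ε) :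
    ∃ U : ι → A, (∀ i, U i ∈ C ∧ ‖U i‖ ≤ 9 ∧ ‖U i * star (U i) - 1‖ ≤ 20 * ε ∧
      ‖star (U i) * U i - 1‖ ≤ 20 * ε) ∧ (∀ g ∈ S, ∀ i, ‖γ g (U i) - U (g • i)‖ ≤ 8 * ε) ∧
        ∀ i i', ∀ x ∈ s,
          ‖U i * b i x * star (U i) - U i' * b i' x * star (U i')‖ ≤ (48 * c + 16) * ε := by
  have hε : 0 ≤ ε := (norm_nonneg _).trans M.j_bad
  have hY : ∀ i, Yel M.X (F i) ∈ unitary (Matrix I I A) := fun i => Yel_unitary M.X_unit (hFu i)
  have hYe : ∀ i, (Yel M.X (F i) - 1) * cst e = Yel M.X (F i) - 1 ∧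
      cst e * (Yel M.X (F i) - 1) = Yel M.X (F i) - 1 := fun i =>
    Yel_unit M.X_unit hv.e_star (fun σ => (hFe i σ).1) (fun σ => (hFe i σ).2)
  have hF1 : ∀ i σ, ‖F i σ‖ ≤ 1 := by
    intro i σ
    rcases subsingleton_or_nontrivial A with hA | hA
    · rw [Subsingleton.elim (F i σ) 0, norm_zero]
      exact zero_le_one
    · exact (CStarRing.norm_of_mem_unitary (hFu i σ)).le
  have hl : ∀ i, ‖pj A (insert M.o M.odd) * Yel M.X (F i) -
      Yel M.X (F i) * pj A (insert M.o M.odd)‖ ≤ 5 * ε := by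
    intro i
    have h1 := Yel_comm M.X_unit (hFu i) M.j_eq
    have h2 := M.loc hΛ (hF1 i) (hFl i)
    linarith
  refine ⟨fun i => 1 + Ph v (Yel M.X (F i) - 1), fun i => ?_, fun g hg i => ?_,
    fun i i' x hx => ?_⟩
  · obtain ⟨h1, h2, h3⟩ := hv.unit_est (hY i) (hYe i).1 (hYe i).2 (hl i)
    refine ⟨C.add_mem C.one_mem (Ph_mem hvC (Yel_mem M.X (hFC i))), h1, ?_, ?_⟩
    · linarith
    · linarith
  · have hs := Yel_supp M.X_unit M.X_supp (hFu i)
    have h1 := map_Ph (γ g) (M.π g) (hvg g hg) hs.1 hs.2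
    have h2 := Yel_act M.X_unit M.X_supp (hFu i) (hFu (g • i)) (γ g : A →⋆ₐ[ℂ] A) (M.π g)
      (fun σ hσ => hFg g hg i σ hσ)
    have h3 := M.π_X g hg
    have h4 : γ g (1 + Ph v (Yel M.X (F i) - 1)) - (1 + Ph v (Yel M.X (F (g • i)) - 1)) =
        Ph v ((mp (γ g : A →⋆ₐ[ℂ] A) (Yel M.X (F i) - 1)).submatrix (M.π g).symm (M.π g).symm -
          (Yel M.X (F (g • i)) - 1)) := by
      rw [map_add, map_one, h1, Ph_sub v _ (Yel M.X (F (g • i)) - 1)]
      abel
    show ‖γ g (1 + Ph v (Yel M.X (F i) - 1)) - (1 + Ph v (Yel M.X (F (g • i)) - 1))‖ ≤ 8 * ε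
    rw [h4]
    have h5 := hv.norm_Ph_le
      ((mp (γ g : A →⋆ₐ[ℂ] A) (Yel M.X (F i) - 1)).submatrix (M.π g).symm (M.π g).symm -
        (Yel M.X (F (g • i)) - 1))
    linarith
  · have key : ∀ k, ‖(1 + Ph v (Yel M.X (F k) - 1)) * b k x * star (1 + Ph v (Yel M.X (F k) - 1)) -
        (b k x + Ph v (star (sc A M.X) * Matrix.diagonal (β k x) * sc A M.X -
          Matrix.diagonal (β k x)))‖ ≤ 20 * c * ε + 8 * ε := by
      intro k
      have h1 := hv.conj_est (hY k) (hYe k).1 (hYe k).2 (hl k) (fun σ => (hb k x σ).1)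
        (fun σ => (hb k x σ).2) (hβe k x) hc (hβc k x hx)
      have h2 := Yel_conj M.X_unit (hFu k) hε (hFb k x hx)
      have h3 := hv.norm_Ph_le (Yel M.X (F k) * Matrix.diagonal (β k x) * star (Yel M.X (F k)) -
        star (sc A M.X) * Matrix.diagonal (β k x) * sc A M.X)
      have h4 : (1 + Ph v (Yel M.X (F k) - 1)) * b k x * star (1 + Ph v (Yel M.X (F k) - 1)) -
          (b k x + Ph v (star (sc A M.X) * Matrix.diagonal (β k x) * sc A M.X -
            Matrix.diagonal (β k x))) =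
          ((1 + Ph v (Yel M.X (F k) - 1)) * b k x * star (1 + Ph v (Yel M.X (F k) - 1)) -
            (b k x + Ph v (Yel M.X (F k) * Matrix.diagonal (β k x) * star (Yel M.X (F k)) -
              Matrix.diagonal (β k x)))) +
          Ph v (Yel M.X (F k) * Matrix.diagonal (β k x) * star (Yel M.X (F k)) -
            star (sc A M.X) * Matrix.diagonal (β k x) * sc A M.X) := by
        rw [Ph_sub v (Yel M.X (F k) * Matrix.diagonal (β k x) * star (Yel M.X (F k)))
            (Matrix.diagonal (β k x)),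
          Ph_sub v (Yel M.X (F k) * Matrix.diagonal (β k x) * star (Yel M.X (F k)))
            (star (sc A M.X) * Matrix.diagonal (β k x) * sc A M.X),
          Ph_sub v (star (sc A M.X) * Matrix.diagonal (β k x) * sc A M.X)
            (Matrix.diagonal (β k x))]
        abel
      rw [h4]
      refine (norm_add_le _ _).trans ?_
      linarith
    have hd : Matrix.diagonal (β i x) - Matrix.diagonal (β i' x) =
        pj A {M.o} * cst (b i x - b i' x) := by
      rw [xc3_diag_sub (hβi i i' x), hβo, hβo]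
    have ha : ‖b i x - b i' x‖ ≤ 2 * c := by
      have h1 := hβc i x hx M.o
      have h2 := hβc i' x hx M.o
      rw [hβo] at h1 h2
      have h3 := norm_sub_le (b i x) (b i' x)
      linarith
    have h1 := vac_kill M.o_even M.o_bad M.j_eq M.j_bad (b i x - b i' x)
    have h2 : (b i x + Ph v (star (sc A M.X) * Matrix.diagonal (β i x) * sc A M.X -
          Matrix.diagonal (β i x))) -
        (b i' x + Ph v (star (sc A M.X) * Matrix.diagonal (β i' x) * sc A M.X -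
          Matrix.diagonal (β i' x))) =
        Ph v (pj A (insert M.o M.odd) *
          (star (sc A M.X) * (pj A {M.o} * cst (b i x - b i' x)) * sc A M.X) *
            pj A (insert M.o M.odd)) := by
      have h3 := hv.Ph_single (b i x - b i' x)
      rw [← hd, Ph_sub] at h3
      rw [hv.Ph_mul_pj, hv.Ph_pj_mul, ← hd, mul_sub, sub_mul, Ph_sub, Ph_sub, Ph_sub, ← sub_eq_zero]
      rw [← sub_eq_zero] at h3
      rw [← neg_eq_zero, ← h3]
      abel
    have h3 := hv.norm_Ph_le (pj A (insert M.o M.odd) *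
      (star (sc A M.X) * (pj A {M.o} * cst (b i x - b i' x)) * sc A M.X) *
        pj A (insert M.o M.odd))
    have h4 : ‖b i x - b i' x‖ * ε ≤ 2 * c * ε := mul_le_mul_of_nonneg_right ha hε
    have h5 := key i
    have h6 := key i'
    rw [← h2] at h3
    have tri : ∀ p q p' q' : A, ‖p - p'‖ ≤ ‖p - q‖ + ‖q - q'‖ + ‖p' - q'‖ := by
      intro p q p' q'
      have e1 : p - p' = (p - q) + (q - q') - (p' - q') := by abel
      rw [e1]
      exact (norm_sub_le _ _).trans (add_le_add_left (norm_add_le _ _) _)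
    refine (tri _ (b i x + Ph v (star (sc A M.X) * Matrix.diagonal (β i x) * sc A M.X -
      Matrix.diagonal (β i x))) _ (b i' x + Ph v (star (sc A M.X) * Matrix.diagonal (β i' x) *
        sc A M.X - Matrix.diagonal (β i' x)))).trans ?_
    linarith

end Pool.Agent.Izumi
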