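import Pool.Agent.Lib.MP_b2135d_an.XDefs
import Pool.Agent.Lib.MP_f90f6c_an.H50Mat

/-! Internal definitions for the core theorem `ucg` (matrices, Fock model, gaps, frames). -/

namespace Pool.Agent.Izumi

open scoped ComplexOrder Pointwise
open Pool.Agent.Lib.MP_f90f6c_an.H50

section Mat

variable {I : Type} [Fintype I] [DecidableEq I]

/-- The diagonal projection onto a set of indices. -/
def pj (R : Type) [Zero R] [One R] (s : Finset I) : Matrix I I R :=
  Matrix.diagonal fun σ => if σ ∈ s then 1 else 0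

/-- A real diagonal matrix. -/
def dr (f : I → ℝ) : Matrix I I ℂ := Matrix.diagonal fun σ => (f σ : ℂ)

/-- A weighted permutation matrix. -/
def wp {R : Type} [Zero R] (φ : I → I) (c : I → R) : Matrix I I R :=
  Matrix.of fun σ τ => if τ = φ σ then c σ else 0

/-- Entrywise application of a homomorphism. -/
def mp {A B : Type} [CStarAlgebra A] [CStarAlgebra B] (φ : A →⋆ₐ[ℂ] B) :
    Matrix I I A →⋆ₐ[ℂ] Matrix I I B :=
  { (φ : A →ₐ[ℂ] B).mapMatrix with
    map_star' := fun M => by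
      ext σ τ
      exact map_star φ (M τ σ) }

/-- Scalar matrices inside matrices over `A`. -/
noncomputable def sc (A : Type) [CStarAlgebra A] : Matrix I I ℂ →⋆ₐ[ℂ] Matrix I I A :=
  mp (StarAlgHom.ofId ℂ A)

/-- The constant diagonal matrix. -/
def cst {R : Type} [Zero R] (a : R) : Matrix I I R := Matrix.diagonal fun _ => a

/-- Compression of a matrix along a row `v`. -/
def Ph {A : Type} [CStarAlgebra A] (v : I → A) (M : Matrix I I A) : A :=
  ∑ σ, ∑ τ, v σ * M σ τ * star (v τ)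

/-- The multiplicative commutator of a scalar unitary and a diagonal unitary. -/
noncomputable def Yel {A : Type} [CStarAlgebra A] (X : Matrix I I ℂ) (f : I → A) : Matrix I I A :=
  star (sc A X) * Matrix.diagonal f * sc A X * star (Matrix.diagonal f)

/-- A row `v` with `v o = 1` whose odd entries are orthogonal copies of `e` outside `e`. -/
structure Frame {A : Type} [CStarAlgebra A] (o : I) (odd : Finset I) (e : A) (v : I → A) :
    Prop where
  o_even : o ∉ odd
  v_o : v o = 1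
  v_even : ∀ σ, σ ≠ o → σ ∉ odd → v σ = 0
  e_star : star e = e
  e_norm : ‖e‖ ≤ 1
  orth : ∀ σ ∈ odd, ∀ τ ∈ odd, star (v σ) * v τ = if σ = τ then e else 0
  kill : ∀ σ ∈ odd, e * v σ = 0

end Mat

section Grp

variable {G : Type} [Group G]

/-- Functions with values in the unit interval. -/
def U01 (y : G → ℝ) : Prop := ∀ x, 0 ≤ y x ∧ y x ≤ 1

/-- The value `1` is attained and the support has at most `n₀` points. -/
def GoodY (n₀ : ℕ) (y : G → ℝ) : Prop :=
  (∃ x, y x = 1) ∧ ∃ U : Finset G, U.card ≤ n₀ ∧ ∀ x, x ∉ U → y x = 0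

/-- Left translation of functions. -/
def sh {R : Type} (g : G) (y : G → R) : G → R := fun x => y (g⁻¹ * x)

/-- Barycentric weights of the superlevel sets of a function. -/
structure IsGap [DecidableEq G] (n₀ : ℕ) (r : Finset G → (G → ℝ) → ℝ) : Prop where
  mem : ∀ B y, 0 ≤ r B y ∧ r B y ≤ 1
  empty : ∀ y, r ∅ y = 0
  act : ∀ (g : G) B y, r (g • B) (sh g y) = r B y
  lip : ∀ B y y' (d : ℝ), U01 y → U01 y' → (∀ x, |y x - y' x| ≤ d) →
    |r B y - r B y'| ≤ 2 * (n₀ + 1) * d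
  uniq : ∀ B B' y, U01 y → r B y ≠ 0 → r B' y ≠ 0 → B.card = B'.card → B = B'
  supp : ∀ B y, U01 y → r B y ≠ 0 → ∀ x ∈ B, y x ≠ 0
  good : ∀ y, U01 y → GoodY n₀ y → ∃ B : Finset G, B.card ≤ n₀ ∧ r B y = 1

/-- Descending product `a (n-1) * ... * a 0`. -/
def dprod {R : Type} [Monoid R] (a : ℕ → R) : ℕ → R
  | 0 => 1
  | n + 1 => a n * dprod a n

/-- A coherent family of unitaries. -/
structure IsCoh {D A ι : Type} [CStarAlgebra D] [CStarAlgebra A] [PartialOrder A]
    [MulAction G ι] (X : UCGData G D A ι) (n₀ : ℕ) (Λ : ℝ) (W : Finset G) (s : Finset D) (ε : ℝ)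
    (f : ι → (G → ℝ) → A) : Prop where
  unit : ∀ i y, f i y ∈ unitary A
  mem : ∀ i y, f i y ∈ cent X.T'
  sub : ∀ i y, f i y - 1 ∈ X.N
  act : ∀ g i y, U01 y → X.γ g (f i y) = f (g • i) (sh g y)
  lip : ∀ i y y' (d : ℝ), U01 y → U01 y' → (∀ x, |y x - y' x| ≤ d) → ‖f i y - f i y'‖ ≤ Λ * d
  coh : ∀ y, U01 y → GoodY n₀ y → (∀ x, x ∉ W → y x = 0) → ∀ i i', ∀ x ∈ s,
    ‖f i y * X.Φ i x * star (f i y) - f i' y * X.Φ i' x * star (f i' y)‖ ≤ ε

/-- The almost invariant finite rank model. -/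
structure Model (G I V : Type) [Group G] [Fintype I] [DecidableEq I] [Fintype V] (S : Finset G)
    (ε : ℝ) (n₀ : ℕ) (r : ℝ) where
  o : I
  odd : Finset I
  o_even : o ∉ odd
  lab : I → G
  orb : I → I
  inj : ∀ σ τ, lab σ = lab τ → orb σ = orb τ → σ = τ
  W : Finset G
  y : I → G → ℝ
  y_mem : ∀ σ, U01 (y σ)
  y_supp : ∀ σ x, x ∉ W → y σ x = 0
  y_lab : ∀ σ, y σ = sh (lab σ) (y (orb σ))
  I0 : Finset I
  X : Matrix I I ℂ
  X_unit : X ∈ unitary (Matrix I I ℂ)
  X_supp : X * pj ℂ I0ᶜ = pj ℂ I0ᶜ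
  π : G → Equiv.Perm I
  π_o : ∀ g ∈ S, π g o = o
  π_odd : ∀ g ∈ S, ∀ σ, π g σ ∈ odd ↔ σ ∈ odd
  π_lab : ∀ g ∈ S, ∀ σ ∈ I0, σ ≠ o → lab (π g σ) = g * lab σ ∧ orb (π g σ) = orb σ
  π_X : ∀ g ∈ S, ‖X.submatrix (π g).symm (π g).symm - X‖ ≤ ε
  j : Matrix I I ℂ
  j_eq : X * pj ℂ (insert o odd) * star X = pj ℂ odd + j
  Gd : Finset I
  o_bad : o ∉ Gd
  good : ∀ σ ∈ Gd, GoodY n₀ (y σ)
  j_bad : ‖j * pj ℂ Gdᶜ‖ ≤ ε
  φ : V → I → I
  φ_inj : ∀ a, Function.Injective (φ a)
  c0 : I → ℂ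
  c : V → I → ℂ
  cb : V → ℝ
  j_dec : j = Matrix.diagonal c0 + ∑ a, wp (φ a) (c a)
  c_le : ∀ a σ, ‖c a σ‖ ≤ cb a
  δ : ℝ
  φ_y : ∀ a σ x, |y σ x - y (φ a σ) x| ≤ δ
  small : (∑ a, cb a) * δ ≤ r

end Grp

/-- One mode: the two dimerisations of a chain from `o` to `l` with steps at most `δ`. -/
structure Mode (m : Type) (δ : ℝ) where
  o : m
  l : m
  par : m → Bool
  s : Bool → m → m
  invol : ∀ b k, s b (s b k) = k
  fix0 : ∀ k, s false k = k ↔ k = o
  fix1 : ∀ k, s true k = k ↔ k = l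
  par_o : par o = false
  par_s : ∀ b k, s b k ≠ k → par (s b k) = !par k
  y : m → ℝ
  y_mem : ∀ k, 0 ≤ y k ∧ y k ≤ 1
  y_o : y o = 0
  y_l : y l = 1
  y_s : ∀ b k, |y k - y (s b k)| ≤ δ

/-- A tournament with values `1, -1`. -/
structure IsTour {V : Type} (t : V → V → ℝ) : Prop where
  sq : ∀ x a, t x a * t x a = 1
  anti : ∀ x a, x ≠ a → t a x = -t x a

/-- Signs, window, weights and core. -/
structure FD (V : Type) where
  t : V → V → ℝ
  U : Finset V
  θ : V → ℝ
  F : Finset V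

/-- Admissible data. -/
structure FD.Ok {V : Type} (d : FD V) : Prop where
  tour : IsTour d.t
  pos : ∀ x ∈ d.U, 0 < d.θ x
  zero : ∀ x, x ∉ d.U → d.θ x = 0
  sub : d.F ⊆ d.U

/-- Indicator of the core. -/
def FD.b {V : Type} [DecidableEq V] (d : FD V) (x : V) : Bool := decide (x ∈ d.F)

/-- Transport of data along a permutation. -/
def FD.map {V : Type} (d : FD V) (π : Equiv.Perm V) : FD V where
  t := fun x a => d.t (π.symm x) (π.symm a)
  U := d.U.map π.toEmbedding
  θ := fun x => d.θ (π.symm x)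
  F := d.F.map π.toEmbedding

/-- The permutation of configurations induced by a permutation of sites. -/
def cfg {V : Type} (m : Type) (π : Equiv.Perm V) : Equiv.Perm (V → m) :=
  Equiv.arrowCongr π (Equiv.refl m)

namespace Mode

variable {V m : Type} [Fintype V] [DecidableEq V] [Fintype m] [DecidableEq m] {δ : ℝ}
  (M : Mode m δ)

/-- Move the configuration at the site `x`. -/
def mv (b : Bool) (x : V) (σ : V → m) : V → m := Function.update σ x (M.s b (σ x))

/-- The fermionic sign. -/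
def sgn (t : V → V → ℝ) (x : V) (σ : V → m) : ℝ :=
  ∏ a, if a ≠ x ∧ M.par (σ a) = true then t x a else 1

/-- The hopping amplitude. -/
def amp (t : V → V → ℝ) (b : Bool) (x : V) (σ : V → m) : ℝ :=
  if M.s b (σ x) = σ x then 0 else M.sgn t x σ

/-- The hopping operator at a site. -/
def hop (t : V → V → ℝ) (b : Bool) (x : V) : Matrix (V → m) (V → m) ℂ :=
  wp (M.mv b x) fun σ => (M.amp t b x σ : ℂ)

/-- Weighted sum of hopping operators. -/
def fock (t : V → V → ℝ) (θ : V → ℝ) (b : V → Bool) : Matrix (V → m) (V → m) ℂ :=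
  ∑ x, (θ x : ℂ) • M.hop t (b x) x

/-- The diagonal of the square of `fock`. -/
def en (θ : V → ℝ) (b : V → Bool) (σ : V → m) : ℝ :=
  ∑ x, if M.s (b x) (σ x) = σ x then 0 else θ x ^ 2

/-- The parity. -/
def eps (σ : V → m) : ℝ := ∏ a, if M.par (σ a) = true then -1 else 1

/-- The vacuum. -/
def vac (V : Type) : V → m := fun _ => M.o

/-- Configurations supported in `U`. -/
def loc (U : Finset V) : Finset (V → m) := Finset.univ.filter fun σ => ∀ x, x ∉ U → σ x = M.o

/-- Odd configurations. -/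
noncomputable def odd (V : Type) [Fintype V] [DecidableEq V] : Finset (V → m) :=
  Finset.univ.filter fun σ => M.eps σ = -1

/-- Configurations in the window that reach the end of the chain in the core. -/
def Gd (d : FD V) : Finset (V → m) := (M.loc d.U).filter fun σ => ∃ x ∈ d.F, σ x = M.l

/-- The first Hamiltonian. -/
def H0 (d : FD V) : Matrix (V → m) (V → m) ℂ :=
  pj ℂ {M.vac V} + M.fock d.t d.θ fun _ => false

/-- The second Hamiltonian. -/
def H1 (d : FD V) : Matrix (V → m) (V → m) ℂ := dr M.eps + M.fock d.t d.θ d.b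

/-- The modulus of `H0`. -/
noncomputable def h0 (d : FD V) (σ : V → m) : ℝ :=
  √((if σ = M.vac V then 1 else 0) + M.en d.θ (fun _ => false) σ)

/-- The modulus of `H1`. -/
noncomputable def h1 (d : FD V) (σ : V → m) : ℝ := √(1 + M.en d.θ d.b σ)

end Mode

/-- The inverse of a function on a set, as a diagonal matrix. -/
noncomputable def kk {I : Type} [Fintype I] [DecidableEq I] (h : I → ℝ) (R : Finset I) :
    Matrix I I ℂ := dr fun σ => if σ ∈ R then (h σ)⁻¹ else 0

namespace Mode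

variable {V m : Type} [Fintype V] [DecidableEq V] [Fintype m] [DecidableEq m] {δ : ℝ}
  (M : Mode m δ)

/-- The sign of `H0` on the window. -/
noncomputable def sg0 (d : FD V) : Matrix (V → m) (V → m) ℂ :=
  M.H0 d * kk (M.h0 d) (M.loc d.U) + pj ℂ (M.loc d.U)ᶜ

/-- The sign of `H1` on the window. -/
noncomputable def sg1 (d : FD V) : Matrix (V → m) (V → m) ℂ :=
  M.H1 d * kk (M.h1 d) (M.loc d.U) + pj ℂ (M.loc d.U)ᶜ

/-- The unitary of the model. -/
noncomputable def X (d : FD V) : Matrix (V → m) (V → m) ℂ := M.sg1 d * M.sg0 d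

/-- The inverse of `H1` on the window. -/
noncomputable def j (d : FD V) : Matrix (V → m) (V → m) ℂ :=
  M.H1 d * kk (M.h1 d) (M.loc d.U) * kk (M.h1 d) (M.loc d.U)

end Mode

end Pool.Agent.Izumi
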