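import Pool.Agent.Lib.MP_b2135d_an.Core

/-! Interface of the core theorem `ucg` for MP_b2135d_an. -/

namespace Pool.Agent.Izumi

open scoped ComplexOrder

/-- A presentation of `D` as its own (maximal) tensor square. -/
structure DData (D : Type) [CStarAlgebra D] where
  al : D →⋆ₐ[ℂ] D
  be : D →⋆ₐ[ℂ] D
  comm : ∀ x y, Commute (al x) (be y)
  dense : Dense ((Submodule.span ℂ {z : D | ∃ x y, z = al x * be y} : Submodule ℂ D) : Set D)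
  univ : ∀ (A : Type) [CStarAlgebra A] (p q : D →⋆ₐ[ℂ] A), (∀ x y, Commute (p x) (q y)) →
    ∃ χ : D →⋆ₐ[ℂ] A, (∀ x, χ (al x) = p x) ∧ ∀ x, χ (be x) = q x

/-- An `L`-Lipschitz path of unitaries that starts at `1`. -/
structure IsPath {D : Type} [CStarAlgebra D] (L : ℝ) (w : ℝ → D) : Prop where
  zero : w 0 = 1
  unit : ∀ t, w t ∈ unitary D
  lip : ∀ t t', ‖w t - w t'‖ ≤ L * |t - t'|

/-- The half flip is approximately implemented by endpoints of `L`-Lipschitz paths. -/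
def DData.Path {D : Type} [CStarAlgebra D] (S : DData D) (L : ℝ) : Prop :=
  ∀ (s : Finset D) (ε : ℝ), 0 < ε → ∃ w : ℝ → D, IsPath L w ∧
    ∀ x ∈ s, ‖w 1 * S.al x * star (w 1) - S.be x‖ ≤ ε

/-- `N` is closed, invariant, closed under adjoints and under multiplication by `cent T'`. -/
structure IsIdl {G A : Type} [Group G] [CStarAlgebra A] (γ : G →* (A ≃⋆ₐ[ℂ] A)) (T' : Set A)
    (N : Submodule ℂ A) : Prop where
  closed : IsClosed (N : Set A)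
  mul_mem : ∀ c ∈ cent T', ∀ x ∈ N, c * x ∈ N
  star_mem : ∀ x ∈ N, star x ∈ N
  act_mem : ∀ g, ∀ x ∈ N, γ g x ∈ N

/-- An invariant local unit `e` for a countable part of `N`, with wandering copies outside `e`. -/
def Hole {G D A : Type} [Group G] [CStarAlgebra D] [CStarAlgebra A] (γ : G →* (A ≃⋆ₐ[ℂ] A))
    (T : Set A) (N : Submodule ℂ A) (φ : D →⋆ₐ[ℂ] A) : Prop :=
  ∀ R : Set A, R.Countable → R ⊆ N → ∀ (n : ℕ) (K : Finset G), ∃ (e : A) (v : Fin n → A),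
    (∀ g, γ g e = e) ∧ ‖e‖ ≤ 1 ∧ (∀ r ∈ R, e * r = r) ∧ (∀ i, v i ∈ cent T) ∧
      (∀ i x, Commute (v i) (φ x)) ∧ (∀ i, e * v i = 0) ∧ (∀ i, star (v i) * v i = e) ∧
        ∀ i j, ∀ k ∈ K, (i ≠ j ∨ k ≠ 1) → star (v i) * γ k (v j) = 0

/-- The hypotheses of the core theorem. -/
structure UCGData (G D A ι : Type) [Group G] [CStarAlgebra D] [CStarAlgebra A] [PartialOrder A]
    [MulAction G ι] where
  tf : ∀ g : G, IsOfFinOrder g → g = 1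
  foel : Foel G
  S : DData D
  L : ℝ
  path : S.Path L
  ρ : G →* (D ≃⋆ₐ[ℂ] D)
  τ : A →ₚ[ℂ] ℂ
  γ : G →* (A ≃⋆ₐ[ℂ] A)
  sat : Saturated τ γ
  emb : ∀ T : Set A, T.Countable → ∃ p : D →⋆ₐ[ℂ] A, ∀ x, p x ∈ cent T
  T : Set A
  T' : Set A
  sub : T ⊆ T'
  count : T'.Countable
  inv : ∀ g, ∀ t ∈ T, γ g t ∈ T
  inv' : ∀ g, ∀ t ∈ T', γ g t ∈ T'
  N : Submodule ℂ A
  idl : IsIdl γ T' N
  Φ : ι → D →⋆ₐ[ℂ] A
  Φ_mem : ∀ i x, Φ i x ∈ cent T'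
  Φ_act : ∀ g i x, Φ (g • i) (ρ g x) = γ g (Φ i x)
  i₀ : ι
  Φ_sub : ∀ i x, Φ i x - Φ i₀ x ∈ N
  hole : Hole γ T N (Φ i₀)

end Pool.Agent.Izumi
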