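import Pool.Agent.Lib.MP_b2135d_an.XD2

/-! Barycentric weights of superlevel sets, descending products. -/

namespace Pool.Agent.Izumi

open scoped ComplexOrder Pointwise

section Gap

variable {G : Type} [DecidableEq G]

/-- One term of the gap of a function along a finite set. -/
def xk_t (B : Finset G) (y : G → ℝ) (p : G × G) : ℝ :=
  if p.1 ∈ B then y p.1 - (if p.2 ∈ B then 0 else y p.2) else 1

/-- The gap of a function along a finite set. -/
noncomputable def xk_gap (B : Finset G) (y : G → ℝ) : ℝ := ⨅ p : G × G, xk_t B y p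

/-- The clamped and rescaled gap. -/
noncomputable def xk_r (n₀ : ℕ) (B : Finset G) (y : G → ℝ) : ℝ :=
  if B = ∅ then 0 else max 0 (min 1 (((n₀ : ℝ) + 1) * xk_gap B y))

theorem xk_clamp (a b : ℝ) : |max 0 (min 1 a) - max 0 (min 1 b)| ≤ |a - b| := by
  have h1 := le_abs_self (a - b)
  have h2 := neg_abs_le (a - b)
  have h3 := abs_nonneg (a - b)
  rw [abs_le]
  simp only [max_def, min_def]
  constructor <;> split_ifs <;> linarith

theorem xk_bdd (B : Finset G) {y : G → ℝ} (hy : ∀ x, 0 ≤ y x ∧ y x ≤ 1) :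
    BddBelow (Set.range (xk_t B y)) := by
  refine ⟨-1, ?_⟩
  rintro _ ⟨p, rfl⟩
  have h1 := hy p.1
  have h2 := hy p.2
  unfold xk_t
  split_ifs <;> linarith [h1.1, h1.2, h2.1, h2.2]

theorem xk_gap_le (B : Finset G) {y : G → ℝ} (hy : ∀ x, 0 ≤ y x ∧ y x ≤ 1) (p : G × G) :
    xk_gap B y ≤ xk_t B y p :=
  ciInf_le (xk_bdd B hy) p

theorem xk_gap_sub_le [Nonempty G] (B : Finset G) {y y' : G → ℝ} {d : ℝ}
    (hy : ∀ x, 0 ≤ y x ∧ y x ≤ 1) (h : ∀ x, |y x - y' x| ≤ d) :
    xk_gap B y - 2 * d ≤ xk_gap B y' := by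
  refine le_ciInf fun p => ?_
  have h0 := xk_gap_le B hy p
  have h1 := abs_le.1 (h p.1)
  have h2 := abs_le.1 (h p.2)
  unfold xk_t at h0 ⊢
  split_ifs at h0 ⊢ <;> linarith [h1.1, h1.2, h2.1, h2.2]

theorem xk_pos {n₀ : ℕ} {B : Finset G} {y : G → ℝ} (h : xk_r n₀ B y ≠ 0) : 0 < xk_gap B y := by
  by_contra hc
  apply h
  unfold xk_r
  split_ifs
  · rfl
  · have h1 : ((n₀ : ℝ) + 1) * xk_gap B y ≤ 0 :=
      mul_nonpos_of_nonneg_of_nonpos (by positivity) (not_lt.1 hc)
    exact max_eq_left ((min_le_right _ _).trans h1)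

theorem xk_lt {n₀ : ℕ} {B : Finset G} {y : G → ℝ} (hy : ∀ x, 0 ≤ y x ∧ y x ≤ 1)
    (h : xk_r n₀ B y ≠ 0) {a x : G} (ha : a ∈ B) (hx : x ∉ B) : y x < y a := by
  have h1 := (xk_pos h).trans_le (xk_gap_le B hy (a, x))
  simp only [xk_t, ha, hx, if_true, if_false] at h1
  linarith

theorem xk_pos' {n₀ : ℕ} {B : Finset G} {y : G → ℝ} (hy : ∀ x, 0 ≤ y x ∧ y x ≤ 1)
    (h : xk_r n₀ B y ≠ 0) {a : G} (ha : a ∈ B) : 0 < y a := by
  have h1 := (xk_pos h).trans_le (xk_gap_le B hy (a, a))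
  simp only [xk_t, ha, if_true] at h1
  linarith

theorem xk_good [Nonempty G] {n₀ : ℕ} {y : G → ℝ} (hy : ∀ x, 0 ≤ y x ∧ y x ≤ 1) {x₀ : G}
    (hx₀ : y x₀ = 1) {U : Finset G} (hU : U.card ≤ n₀) (h0 : ∀ x, x ∉ U → y x = 0) :
    ∃ B : Finset G, B.card ≤ n₀ ∧ xk_r n₀ B y = 1 := by
  have hN : (0 : ℝ) < (n₀ : ℝ) + 1 := by positivity
  obtain ⟨j, hj, hj'⟩ : ∃ j ∈ Finset.range (n₀ + 1),
      j ∉ U.image fun x => ⌊((n₀ : ℝ) + 1) * y x⌋₊ := by
    refine Finset.exists_mem_notMem_of_card_lt_card ?_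
    rw [Finset.card_range]
    exact Nat.lt_succ_of_le (Finset.card_image_le.trans hU)
  have hjn : (j : ℝ) ≤ n₀ := by
    exact_mod_cast Nat.lt_succ_iff.1 (Finset.mem_range.1 hj)
  have hj0 : (0 : ℝ) ≤ j := Nat.cast_nonneg j
  refine ⟨U.filter fun x => (j : ℝ) + 1 ≤ ((n₀ : ℝ) + 1) * y x,
    (Finset.card_filter_le _ _).trans hU, ?_⟩
  set B := U.filter fun x => (j : ℝ) + 1 ≤ ((n₀ : ℝ) + 1) * y x with hB
  have hin : ∀ a ∈ B, (j : ℝ) + 1 ≤ ((n₀ : ℝ) + 1) * y a := fun a ha =>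
    (Finset.mem_filter.1 ha).2
  have hout : ∀ x, x ∉ B → ((n₀ : ℝ) + 1) * y x ≤ j := by
    intro x hx
    by_cases hxU : x ∈ U
    · have h1 : ((n₀ : ℝ) + 1) * y x < j + 1 := by
        by_contra hc
        exact hx (Finset.mem_filter.2 ⟨hxU, not_lt.1 hc⟩)
      by_contra hc
      apply hj'
      refine Finset.mem_image.2 ⟨x, hxU, ?_⟩
      rw [Nat.floor_eq_iff (mul_nonneg hN.le (hy x).1)]
      exact ⟨(not_le.1 hc).le, h1⟩
    · rw [h0 x hxU, mul_zero]
      exact hj0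
  have hx₀B : x₀ ∈ B := by
    by_contra hc
    have := hout x₀ hc
    rw [hx₀] at this
    linarith
  have hg : ((n₀ : ℝ) + 1)⁻¹ ≤ xk_gap B y := by
    refine le_ciInf fun p => ?_
    rw [inv_le_iff_one_le_mul₀' hN]
    unfold xk_t
    split_ifs with h1 h2
    · have := hin _ h1
      rw [sub_zero]
      linarith
    · have := hin _ h1
      have := hout _ h2
      rw [mul_sub]
      linarith
    · have : (0 : ℝ) ≤ n₀ := Nat.cast_nonneg n₀
      linarith
  rw [inv_le_iff_one_le_mul₀' hN] at hg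
  unfold xk_r
  rw [if_neg (Finset.ne_empty_of_mem hx₀B), min_eq_left hg, max_eq_right zero_le_one]

end Gap

theorem exists_gap (G : Type) [Group G] [DecidableEq G] (n₀ : ℕ) :
    ∃ r : Finset G → (G → ℝ) → ℝ, IsGap n₀ r := by
  refine ⟨xk_r n₀, ?_, ?_, ?_, ?_, ?_, ?_, ?_⟩
  · intro B y
    unfold xk_r
    split_ifs
    · exact ⟨le_rfl, zero_le_one⟩
    · exact ⟨le_max_left _ _, max_le zero_le_one (min_le_left _ _)⟩
  · intro y
    exact if_pos rfl
  · intro g B y
    have h : xk_gap (g • B) (sh g y) = xk_gap B y := by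
      unfold xk_gap
      rw [← ((Equiv.mulLeft g).prodCongr (Equiv.mulLeft g)).iInf_comp]
      refine iInf_congr fun p => ?_
      have h1 : g * p.1 ∈ g • B ↔ p.1 ∈ B := Finset.smul_mem_smul_finset_iff g
      have h2 : g * p.2 ∈ g • B ↔ p.2 ∈ B := Finset.smul_mem_smul_finset_iff g
      simp only [xk_t, sh, Equiv.prodCongr_apply, Equiv.coe_mulLeft, Prod.map_fst, Prod.map_snd,
        h1, h2, inv_mul_cancel_left]
    unfold xk_r
    simp only [h, Finset.smul_finset_eq_empty]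
  · intro B y y' d hy hy' h
    have hd : 0 ≤ d := (abs_nonneg _).trans (h 1)
    have hN : (0 : ℝ) ≤ (n₀ : ℝ) + 1 := by positivity
    unfold xk_r
    split_ifs
    · rw [sub_zero, abs_zero]
      positivity
    · refine (xk_clamp _ _).trans ?_
      rw [← mul_sub, abs_mul, abs_of_nonneg hN]
      have h1 := xk_gap_sub_le B hy h
      have h2 := xk_gap_sub_le B hy' (y' := y) (d := d) fun x => by
        rw [abs_sub_comm]; exact h x
      have h3 : |xk_gap B y - xk_gap B y'| ≤ 2 * d := abs_le.2 ⟨by linarith, by linarith⟩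
      calc ((n₀ : ℝ) + 1) * |xk_gap B y - xk_gap B y'| ≤ ((n₀ : ℝ) + 1) * (2 * d) :=
            mul_le_mul_of_nonneg_left h3 hN
        _ = 2 * ((n₀ : ℝ) + 1) * d := by ring
  · intro B B' y hy h h' hc
    by_cases h1 : B ⊆ B'
    · exact Finset.eq_of_subset_of_card_le h1 hc.ge
    by_cases h2 : B' ⊆ B
    · exact (Finset.eq_of_subset_of_card_le h2 hc.le).symm
    obtain ⟨a, ha, ha'⟩ := Finset.not_subset.1 h1
    obtain ⟨b, hb, hb'⟩ := Finset.not_subset.1 h2
    exact absurd (xk_lt hy h ha hb') (xk_lt hy h' hb ha').not_gt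
  · intro B y hy h x hx
    exact (xk_pos' hy h hx).ne'
  · rintro y hy ⟨⟨x₀, hx₀⟩, U, hU, h0⟩
    exact xk_good hy hx₀ hU h0

section Prod

variable {A : Type} [CStarAlgebra A]

theorem dprod_unitary {a : ℕ → A} (h : ∀ n, a n ∈ unitary A) (n : ℕ) : dprod a n ∈ unitary A := by
  induction n with
  | zero => exact one_mem _
  | succ n ih => exact mul_mem (h n) ih

theorem dprod_mem {C : StarSubalgebra ℂ A} {a : ℕ → A} (h : ∀ n, a n ∈ C) (n : ℕ) :
    dprod a n ∈ C := by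
  induction n with
  | zero => exact one_mem _
  | succ n ih => exact mul_mem (h n) ih

theorem dprod_map (θ : A ≃⋆ₐ[ℂ] A) (a : ℕ → A) (n : ℕ) :
    θ (dprod a n) = dprod (fun k => θ (a k)) n := by
  induction n with
  | zero => exact map_one θ
  | succ n ih =>
    change θ (a n * dprod a n) = θ (a n) * dprod (fun k => θ (a k)) n
    rw [map_mul, ih]

theorem norm_dprod_sub_le {a b : ℕ → A} (ha : ∀ n, a n ∈ unitary A) (hb : ∀ n, b n ∈ unitary A)
    {c : ℝ} (h : ∀ n, ‖a n - b n‖ ≤ c) (n : ℕ) : ‖dprod a n - dprod b n‖ ≤ n * c := by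
  induction n with
  | zero =>
    change ‖(1 : A) - 1‖ ≤ ((0 : ℕ) : ℝ) * c
    simp
  | succ n ih =>
    change ‖a n * dprod a n - b n * dprod b n‖ ≤ ((n + 1 : ℕ) : ℝ) * c
    have e : a n * dprod a n - b n * dprod b n =
        a n * (dprod a n - dprod b n) + (a n - b n) * dprod b n := by noncomm_ring
    rw [e]
    refine (norm_add_le _ _).trans ?_
    rw [CStarRing.norm_mem_unitary_mul _ (ha n),
      CStarRing.norm_mul_mem_unitary _ (dprod_unitary hb n)]
    have := h n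
    push_cast
    linarith

theorem IsIdl.mul_mem_right {G : Type} [Group G] {γ : G →* (A ≃⋆ₐ[ℂ] A)} {T' : Set A}
    {N : Submodule ℂ A} (hN : IsIdl γ T' N) {x c : A} (hx : x ∈ N) (hc : c ∈ cent T') :
    x * c ∈ N := by
  have h := hN.star_mem _ (hN.mul_mem (star c) (StarMemClass.star_mem hc) _ (hN.star_mem x hx))
  rwa [star_mul, star_star, star_star] at h

theorem IsIdl.dprod_sub_mem {G : Type} [Group G] {γ : G →* (A ≃⋆ₐ[ℂ] A)} {T' : Set A}
    {N : Submodule ℂ A} (hN : IsIdl γ T' N) {a b : ℕ → A} (ha : ∀ n, a n ∈ cent T')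
    (hb : ∀ n, b n ∈ cent T') (h : ∀ n, a n - b n ∈ N) (n : ℕ) : dprod a n - dprod b n ∈ N := by
  induction n with
  | zero =>
    change (1 : A) - 1 ∈ N
    rw [sub_self]
    exact N.zero_mem
  | succ n ih =>
    change a n * dprod a n - b n * dprod b n ∈ N
    have e : a n * dprod a n - b n * dprod b n =
        a n * (dprod a n - dprod b n) + (a n - b n) * dprod b n := by noncomm_ring
    rw [e]
    exact N.add_mem (hN.mul_mem _ (ha n) _ ih) (hN.mul_mem_right (h n) (dprod_mem hb n))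

end Prod

namespace DData

variable {D A : Type} [CStarAlgebra D] [CStarAlgebra A] (S : DData D)

theorem xk_ind {p : D → Prop} (hcl : IsClosed {d | p d}) (h0 : p 0)
    (hadd : ∀ x y, p x → p y → p (x + y)) (hsmul : ∀ (c : ℂ) x, p x → p (c • x))
    (hgen : ∀ x y, p (S.al x * S.be y)) (d : D) : p d := by
  have hsub : ((Submodule.span ℂ {z : D | ∃ x y, z = S.al x * S.be y} : Submodule ℂ D) : Set D) ⊆
      {d | p d} := by
    intro z hz
    induction hz using Submodule.span_induction with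
    | mem z hz =>
      obtain ⟨x, y, rfl⟩ := hz
      exact hgen x y
    | zero => exact h0
    | add x y _ _ hx hy => exact hadd x y hx hy
    | smul c x _ hx => exact hsmul c x hx
  exact closure_minimal hsub hcl (S.dense d)

theorem xk_sum_ext {s t : Finset D} (hst : s ⊆ t) {d : D → D} (hd : ∀ x, x ∉ s → d x = 0) :
    ∑ x ∈ t, S.al x * S.be (d x) = ∑ x ∈ s, S.al x * S.be (d x) :=
  (Finset.sum_subset hst fun x _ hx => by rw [hd x hx, map_zero, mul_zero]).symm

theorem xk_span {z : D}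
    (hz : z ∈ (Submodule.span ℂ {z : D | ∃ x y, z = S.al x * S.be y} : Submodule ℂ D)) :
    ∃ (s : Finset D) (d : D → D), (∀ x, x ∉ s → d x = 0) ∧
      z = ∑ x ∈ s, S.al x * S.be (d x) := by
  classical
  induction hz using Submodule.span_induction with
  | mem z hz =>
    obtain ⟨x, y, rfl⟩ := hz
    refine ⟨{x}, fun a => if a = x then y else 0, fun a ha => if_neg ?_, ?_⟩
    · simpa using ha
    · simp
  | zero => exact ⟨∅, fun _ => 0, fun _ _ => rfl, by simp⟩
  | add z z' _ _ hz hz' =>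
    obtain ⟨s, d, hd, rfl⟩ := hz
    obtain ⟨s', d', hd', rfl⟩ := hz'
    refine ⟨s ∪ s', fun x => d x + d' x, fun x hx => ?_, ?_⟩
    · rw [Finset.mem_union, not_or] at hx
      change d x + d' x = 0
      rw [hd x hx.1, hd' x hx.2, add_zero]
    · rw [← S.xk_sum_ext (Finset.subset_union_left (s₂ := s')) hd,
        ← S.xk_sum_ext (Finset.subset_union_right (s₁ := s)) hd', ← Finset.sum_add_distrib]
      refine Finset.sum_congr rfl fun x _ => ?_
      rw [map_add, mul_add]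
  | smul c z _ hz =>
    obtain ⟨s, d, hd, rfl⟩ := hz
    refine ⟨s, fun x => c • d x, fun x hx => ?_, ?_⟩
    · change c • d x = 0
      rw [hd x hx, smul_zero]
    · rw [Finset.smul_sum]
      refine Finset.sum_congr rfl fun x _ => ?_
      rw [map_smul, mul_smul_comm]

theorem sub_mem (χ χ' : D →⋆ₐ[ℂ] A) {Q : Submodule ℂ A} (hQ : IsClosed (Q : Set A))
    (h : ∀ x y, χ (S.al x) * χ (S.be y) - χ' (S.al x) * χ' (S.be y) ∈ Q) (d : D) :
    χ d - χ' d ∈ Q := by
  refine S.xk_ind (p := fun d => χ d - χ' d ∈ Q)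
    (hQ.preimage ((hom_continuous χ).sub (hom_continuous χ'))) ?_ ?_ ?_ ?_ d
  · rw [map_zero, map_zero, sub_zero]
    exact Q.zero_mem
  · intro x y hx hy
    rw [map_add, map_add, add_sub_add_comm]
    exact Q.add_mem hx hy
  · intro c x hx
    rw [map_smul, map_smul, ← smul_sub]
    exact Q.smul_mem c hx
  · intro x y
    rw [map_mul, map_mul]
    exact h x y

theorem map_mem (χ : D →⋆ₐ[ℂ] A) {C : StarSubalgebra ℂ A} (hC : IsClosed (C : Set A))
    (h₁ : ∀ x, χ (S.al x) ∈ C) (h₂ : ∀ x, χ (S.be x) ∈ C) (d : D) : χ d ∈ C := by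
  refine S.xk_ind (p := fun d => χ d ∈ C) (hC.preimage (hom_continuous χ)) ?_ ?_ ?_ ?_ d
  · rw [map_zero]
    exact zero_mem C
  · intro x y hx hy
    rw [map_add]
    exact add_mem hx hy
  · intro c x hx
    rw [map_smul]
    exact C.smul_mem hx c
  · intro x y
    rw [map_mul]
    exact mul_mem (h₁ x) (h₂ y)

theorem commute (χ : D →⋆ₐ[ℂ] A) {b : A} (h₁ : ∀ x, Commute (χ (S.al x)) b)
    (h₂ : ∀ x, Commute (χ (S.be x)) b) (d : D) : Commute (χ d) b := by
  refine S.xk_ind (p := fun d => Commute (χ d) b)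
    (isClosed_eq ((hom_continuous χ).mul continuous_const)
      (continuous_const.mul (hom_continuous χ))) ?_ ?_ ?_ ?_ d
  · rw [map_zero]
    exact Commute.zero_left b
  · intro x y hx hy
    rw [map_add]
    exact hx.add_left hy
  · intro c x hx
    rw [map_smul]
    exact hx.smul_left c
  · intro x y
    rw [map_mul]
    exact (h₁ x).mul_left (h₂ y)

/-- Uniform approximation of a compact set by tensors with fixed first legs. -/
theorem compact_approx {K : Set D} (hK : IsCompact K) {η : ℝ} (hη : 0 < η) :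
    ∃ (s : Finset D) (M : ℝ), 0 ≤ M ∧ ∀ z ∈ K, ∃ d : D → D, (∀ x, ‖d x‖ ≤ M) ∧
      ‖z - ∑ x ∈ s, S.al x * S.be (d x)‖ ≤ η := by
  classical
  have h2 : 0 < η / 2 := half_pos hη
  have hex : ∀ z : D, ∃ (s : Finset D) (d : D → D), (∀ x, x ∉ s → d x = 0) ∧
      ‖z - ∑ x ∈ s, S.al x * S.be (d x)‖ < η / 2 := by
    intro z
    obtain ⟨w, hw, hzw⟩ := S.dense.exists_dist_lt z h2
    obtain ⟨s, d, hd, rfl⟩ := S.xk_span hw
    exact ⟨s, d, hd, by rwa [dist_eq_norm] at hzw⟩
  choose s d hd hs using hex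
  obtain ⟨t, -, ht⟩ := hK.elim_nhds_subcover (fun z => Metric.ball z (η / 2))
    fun z _ => Metric.ball_mem_nhds z h2
  have hM : ∀ y, 0 ≤ ∑ x ∈ s y, ‖d y x‖ := fun y => Finset.sum_nonneg fun x _ => norm_nonneg _
  refine ⟨t.biUnion s, ∑ y ∈ t, ∑ x ∈ s y, ‖d y x‖, Finset.sum_nonneg fun y _ => hM y,
    fun z hz => ?_⟩
  obtain ⟨y, hy, hzy⟩ := Set.mem_iUnion₂.1 (ht hz)
  refine ⟨d y, fun x => ?_, ?_⟩
  · refine le_trans ?_ (Finset.single_le_sum (f := fun y => ∑ x ∈ s y, ‖d y x‖)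
      (fun y _ => hM y) hy)
    by_cases hx : x ∈ s y
    · exact Finset.single_le_sum (f := fun x => ‖d y x‖) (fun x _ => norm_nonneg _) hx
    · rw [hd y x hx, norm_zero]
      exact hM y
  · rw [S.xk_sum_ext (Finset.subset_biUnion_of_mem s hy) (hd y)]
    rw [Metric.mem_ball, dist_eq_norm] at hzy
    have h3 := norm_sub_le_norm_sub_add_norm_sub z y (∑ x ∈ s y, S.al x * S.be (d y x))
    have h4 := hs y
    linarith

end DData

end Pool.Agent.Izumi
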