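import Pool.Agent.Lib.MP_b2135d_an.XK1

/-! The coherence lemma. -/

namespace Pool.Agent.Izumi

open scoped ComplexOrder Pointwise

section Aux

variable {D A ι κ : Type} [CStarAlgebra D] [CStarAlgebra A]

theorem xk2_dprod_congr {a a' : ℕ → A} (n : ℕ) (h : ∀ k < n, a k = a' k) :
    dprod a n = dprod a' n := by
  induction n with
  | zero => rfl
  | succ n ih =>
    show a n * dprod a n = a' n * dprod a' n
    rw [h n (Nat.lt_succ_self n), ih fun k hk => h k (Nat.lt_succ_of_lt hk)]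

theorem xk2_map_unitary (χ : D →⋆ₐ[ℂ] A) {u : D} (hu : u ∈ unitary D) : χ u ∈ unitary A := by
  rw [Unitary.mem_iff] at hu ⊢
  rw [← map_star, ← map_mul, ← map_mul, hu.1, hu.2, map_one]
  exact ⟨rfl, rfl⟩

theorem xk2_norm_conj {a : A} (ha : a ∈ unitary A) (x : A) : ‖a * x * star a‖ = ‖x‖ := by
  rw [CStarRing.norm_mul_mem_unitary _ (Unitary.star_mem ha), CStarRing.norm_mem_unitary_mul _ ha]

theorem xk2_norm_map (χ : D →⋆ₐ[ℂ] A) (x : D) : ‖χ x‖ ≤ ‖x‖ :=
  NonUnitalStarAlgHom.norm_apply_le χ x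

theorem xk2_step {J : Type} (T : Finset J) {a Z : A} (ha : a ∈ unitary A) (φ ψ b : J → A)
    {e δ M : ℝ} (hδ : 0 ≤ δ) (hc : ∀ j ∈ T, Commute (star a) (b j))
    (hZ : ‖Z - ∑ j ∈ T, φ j * b j‖ ≤ e) (hφ : ∀ j ∈ T, ‖a * φ j * star a - ψ j‖ ≤ δ)
    (hM : ∑ j ∈ T, ‖b j‖ ≤ M) : ‖a * Z * star a - ∑ j ∈ T, ψ j * b j‖ ≤ e + δ * M := by
  have h1 : a * Z * star a - ∑ j ∈ T, ψ j * b j =
      a * (Z - ∑ j ∈ T, φ j * b j) * star a + ∑ j ∈ T, (a * φ j * star a - ψ j) * b j := by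
    have h2 : a * (∑ j ∈ T, φ j * b j) * star a = ∑ j ∈ T, a * φ j * star a * b j := by
      rw [Finset.mul_sum, Finset.sum_mul]
      refine Finset.sum_congr rfl fun j hj => ?_
      rw [mul_assoc (a * φ j), (hc j hj).eq]
      simp only [mul_assoc]
    simp only [mul_sub, sub_mul, Finset.sum_sub_distrib, h2]
    abel
  rw [h1]
  refine (norm_add_le _ _).trans (add_le_add (by rwa [xk2_norm_conj ha]) ?_)
  refine (norm_sum_le _ _).trans ?_
  refine le_trans (Finset.sum_le_sum fun j hj => (norm_mul_le _ _).trans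
    (mul_le_mul_of_nonneg_right (hφ j hj) (norm_nonneg _))) ?_
  rw [← Finset.mul_sum]
  exact mul_le_mul_of_nonneg_left hM hδ

/-- `b` commutes with all `Φ i` and with the `P β` of level at least `n`. -/
def xk2_C (Φ : ι → D →⋆ₐ[ℂ] A) (P : κ → D →⋆ₐ[ℂ] A) (lev : κ → ℕ) (n : ℕ) (b : A) : Prop :=
  (∀ i x, Commute (Φ i x) b) ∧ ∀ β x, n ≤ lev β → Commute (P β x) b

variable {Φ : ι → D →⋆ₐ[ℂ] A} {P : κ → D →⋆ₐ[ℂ] A} {lev : κ → ℕ}

theorem xk2_C.succ {n : ℕ} {b : A} (h : xk2_C Φ P lev n b) : xk2_C Φ P lev (n + 1) b :=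
  ⟨h.1, fun β x hβ => h.2 β x (Nat.le_of_succ_le hβ)⟩

theorem xk2_C.mul {n : ℕ} {b c : A} (h : xk2_C Φ P lev n b) (h' : xk2_C Φ P lev n c) :
    xk2_C Φ P lev n (b * c) :=
  ⟨fun i x => (h.1 i x).mul_right (h'.1 i x), fun β x hβ => (h.2 β x hβ).mul_right (h'.2 β x hβ)⟩

theorem xk2_C.sum {n : ℕ} {J : Type} (T : Finset J) {b : J → A}
    (h : ∀ j ∈ T, xk2_C Φ P lev n (b j)) : xk2_C Φ P lev n (∑ j ∈ T, b j) :=
  ⟨fun i x => Commute.sum_right _ _ _ fun j hj => (h j hj).1 i x,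
    fun β x hβ => Commute.sum_right _ _ _ fun j hj => (h j hj).2 β x hβ⟩

theorem xk2_C.one (n : ℕ) : xk2_C Φ P lev n 1 :=
  ⟨fun _ _ => Commute.one_right _, fun _ _ _ => Commute.one_right _⟩

/-- The family `Z` is near a sum of terms `Φ i z * b`. -/
def xk2_Rep (Φ : ι → D →⋆ₐ[ℂ] A) (C : A → Prop) (s : Finset D) (M e : ℝ) (Z : ι → A) : Prop :=
  ∃ (J : Type) (T : Finset J) (z : J → D) (b : J → A), (∀ j ∈ T, z j ∈ s ∧ C (b j)) ∧
    ∑ j ∈ T, ‖b j‖ ≤ M ∧ ∀ i, ‖Z i - ∑ j ∈ T, Φ i (z j) * b j‖ ≤ e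

theorem xk2_path_cont {L : ℝ} {u : ℝ → D} (hu : IsPath L u) : Continuous u := by
  refine (LipschitzWith.of_dist_le' (K := L) fun x y => ?_).continuous
  rw [dist_eq_norm, Real.dist_eq]
  exact hu.lip x y

theorem xk2_main (S : DData D) {L : ℝ} (hL : S.Path L) (ρ : κ → (D ≃⋆ₐ[ℂ] D))
    (χ : ι → κ → D →⋆ₐ[ℂ] A) (hal : ∀ i α x, χ i α (S.al x) = Φ i (ρ α x))
    (hbe : ∀ i α x, χ i α (S.be x) = P α x)
    (hP : ∀ α β, lev α ≠ lev β → ∀ x y, Commute (P α x) (P β y)) (K : Finset κ)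
    (s : Finset D) {η : ℝ} (hη : 0 < η) (n : ℕ) :
    ∃ (w : ℕ → ℝ → D) (s' : Finset D) (M : ℝ), (∀ k, IsPath L (w k)) ∧ 0 ≤ M ∧
      ∀ (α : ℕ → κ) (t : ℕ → ℝ), (∀ k, 0 ≤ t k ∧ t k ≤ 1) →
        (∀ k, t k ≠ 0 → α k ∈ K ∧ lev (α k) = k) → ∀ x ∈ s,
          xk2_Rep Φ (xk2_C Φ P lev n) s' M (n * η)
            (fun i => dprod (fun k => χ i (α k) (w k (t k))) n * Φ i x *
              star (dprod (fun k => χ i (α k) (w k (t k))) n)) ∧
          ((∃ k < n, t k = 1) → ∃ b₀, xk2_C Φ P lev n b₀ ∧ ∀ i,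
            ‖dprod (fun k => χ i (α k) (w k (t k))) n * Φ i x *
              star (dprod (fun k => χ i (α k) (w k (t k))) n) - b₀‖ ≤ n * η) := by
  classical
  induction n with
  | zero =>
    obtain ⟨u, hu, -⟩ := hL ∅ 1 one_pos
    refine ⟨fun _ => u, s, ‖(1 : A)‖, fun _ => hu, norm_nonneg _, fun α t _ _ x hx => ⟨?_, ?_⟩⟩
    · refine ⟨Unit, {()}, fun _ => x, fun _ => 1, fun _ _ => ⟨hx, xk2_C.one 0⟩, by simp, ?_⟩
      intro i
      simp [dprod]
    · rintro ⟨k, hk, -⟩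
      exact absurd hk (Nat.not_lt_zero k)
  | succ n ih =>
    obtain ⟨w, s₁, M, hw, hM, H⟩ := ih
    have hδ : 0 < η / (M + 1) := div_pos hη (by linarith)
    have hδM : η / (M + 1) * M ≤ η := by
      rw [div_mul_eq_mul_div, div_le_iff₀ (by linarith)]
      nlinarith
    obtain ⟨u, hu, hu1⟩ := hL ((K ×ˢ s₁).image fun p => (ρ p.1).symm p.2) _ hδ
    have hK : IsCompact (⋃ y ∈ ((K ×ˢ s₁).image fun p => (ρ p.1).symm p.2),
        (fun t : ℝ => u t * S.al y * star (u t)) '' Set.Icc 0 1) := by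
      refine Finset.isCompact_biUnion _ fun y _ => isCompact_Icc.image ?_
      have := xk2_path_cont hu
      fun_prop
    obtain ⟨s₂, M₂, hM₂, happ⟩ := S.compact_approx hK hδ
    have hcast : ((n + 1 : ℕ) : ℝ) * η = n * η + η := by push_cast; ring
    have hMM : 0 ≤ (s₂.card : ℝ) * M₂ * M := by positivity
    refine ⟨Function.update w n u, s₁ ∪ (K ×ˢ s₂).image fun p => ρ p.1 p.2,
      M + s₂.card * M₂ * M, fun k => ?_, by linarith, fun α t ht hα x hx => ?_⟩
    · by_cases hk : k = n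
      · subst hk
        rwa [Function.update_self]
      · rw [Function.update_of_ne hk]
        exact hw k
    obtain ⟨⟨J, T, z, b, hzb, hb, hZ⟩, H0⟩ := H α t ht hα x hx
    have hd : ∀ i, dprod (fun k => χ i (α k) (Function.update w n u k (t k))) (n + 1) * Φ i x *
        star (dprod (fun k => χ i (α k) (Function.update w n u k (t k))) (n + 1)) =
        χ i (α n) (u (t n)) * (dprod (fun k => χ i (α k) (w k (t k))) n * Φ i x *
          star (dprod (fun k => χ i (α k) (w k (t k))) n)) * star (χ i (α n) (u (t n))) := by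
      intro i
      have h1 : dprod (fun k => χ i (α k) (Function.update w n u k (t k))) (n + 1) =
          χ i (α n) (u (t n)) * dprod (fun k => χ i (α k) (w k (t k))) n := by
        show χ i (α n) (Function.update w n u n (t n)) * _ = _
        rw [Function.update_self]
        congr 1
        exact xk2_dprod_congr n fun k hk => by rw [Function.update_of_ne hk.ne]
      rw [h1, star_mul]
      simp only [mul_assoc]
    simp only [hd]
    by_cases ht0 : t n = 0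
    · simp only [ht0, hu.zero, map_one, one_mul, star_one, mul_one]
      refine ⟨⟨J, T, z, b, fun j hj => ⟨Finset.mem_union_left _ (hzb j hj).1, (hzb j hj).2.succ⟩,
        by linarith, fun i => (hZ i).trans (by linarith)⟩, ?_⟩
      rintro ⟨k, hk, hk1⟩
      have hkn : k < n := by
        rcases Nat.lt_succ_iff_lt_or_eq.1 hk with h | h
        · exact h
        · subst h
          rw [ht0] at hk1
          exact absurd hk1 zero_ne_one
      obtain ⟨b₀, hb₀, h⟩ := H0 ⟨k, hkn, hk1⟩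
      exact ⟨b₀, hb₀.succ, fun i => (h i).trans (by linarith)⟩
    obtain ⟨hαK, hlev⟩ := hα n ht0
    have hun : ∀ i, χ i (α n) (u (t n)) ∈ unitary A := fun i => xk2_map_unitary _ (hu.unit _)
    have hcom : ∀ i d c, xk2_C Φ P lev n c → Commute (χ i (α n) d) c := fun i d c hc =>
      S.commute (χ i (α n)) (fun y => by rw [hal]; exact hc.1 _ _)
        (fun y => by rw [hbe]; exact hc.2 _ _ hlev.ge) d
    have hcom' : ∀ i c, xk2_C Φ P lev n c → Commute (star (χ i (α n) (u (t n)))) c := by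
      intro i c hc
      rw [← map_star]
      exact hcom i _ c hc
    have hPC : ∀ d, xk2_C Φ P lev (n + 1) (P (α n) d) := by
      intro d
      refine ⟨fun i y => ?_, fun β y hβ => hP _ _ (by omega) _ _⟩
      have h1 : Φ i y = χ i (α n) (S.al ((ρ (α n)).symm y)) := by
        rw [hal, StarAlgEquiv.apply_symm_apply]
      rw [h1, ← hbe i]
      exact (S.comm _ _).map _
    have hconj : ∀ i y, χ i (α n) (u (t n)) * Φ i y * star (χ i (α n) (u (t n))) =
        χ i (α n) (u (t n) * S.al ((ρ (α n)).symm y) * star (u (t n))) := by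
      intro i y
      rw [map_mul, map_mul, map_star, hal, StarAlgEquiv.apply_symm_apply]
    have hmem : ∀ j ∈ T, (ρ (α n)).symm (z j) ∈ (K ×ˢ s₁).image fun p => (ρ p.1).symm p.2 :=
      fun j hj => Finset.mem_image.2 ⟨(α n, z j), Finset.mem_product.2 ⟨hαK, (hzb j hj).1⟩, rfl⟩
    refine ⟨?_, ?_⟩
    · have hex : ∀ j, ∃ d : D → D, j ∈ T → (∀ y, ‖d y‖ ≤ M₂) ∧
          ‖u (t n) * S.al ((ρ (α n)).symm (z j)) * star (u (t n)) -
            ∑ y ∈ s₂, S.al y * S.be (d y)‖ ≤ η / (M + 1) := by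
        intro j
        by_cases hj : j ∈ T
        · obtain ⟨d, hd⟩ := happ _ (Set.mem_biUnion (hmem j hj) ⟨t n, ht n, rfl⟩)
          exact ⟨d, fun _ => hd⟩
        · exact ⟨id, fun h => absurd h hj⟩
      choose d hd' using hex
      refine ⟨J × D, T ×ˢ s₂, fun p => ρ (α n) p.2, fun p => P (α n) (d p.1 p.2) * b p.1,
        fun p hp => ?_, ?_, fun i => ?_⟩
      · obtain ⟨hp1, hp2⟩ := Finset.mem_product.1 hp
        exact ⟨Finset.mem_union_right _ (Finset.mem_image.2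
          ⟨(α n, p.2), Finset.mem_product.2 ⟨hαK, hp2⟩, rfl⟩), (hPC _).mul (hzb _ hp1).2.succ⟩
      · rw [Finset.sum_product]
        have h1 : ∀ j ∈ T, ∑ y ∈ s₂, ‖P (α n) (d j y) * b j‖ ≤ s₂.card * M₂ * ‖b j‖ := by
          intro j hj
          have h2 : ∀ y ∈ s₂, ‖P (α n) (d j y) * b j‖ ≤ M₂ * ‖b j‖ := fun y _ =>
            (norm_mul_le _ _).trans (mul_le_mul_of_nonneg_right
              ((xk2_norm_map _ _).trans ((hd' j hj).1 y)) (norm_nonneg _))
          refine (Finset.sum_le_card_nsmul _ _ _ h2).trans_eq ?_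
          rw [nsmul_eq_mul, mul_assoc]
        refine (Finset.sum_le_sum h1).trans ?_
        rw [← Finset.mul_sum]
        have := mul_le_mul_of_nonneg_left hb (by positivity : (0 : ℝ) ≤ s₂.card * M₂)
        linarith
      · have h1 := xk2_step T (hun i) (fun j => Φ i (z j))
          (fun j => ∑ y ∈ s₂, Φ i (ρ (α n) y) * P (α n) (d j y)) b hδ.le
          (fun j hj => hcom' i _ (hzb j hj).2) (hZ i) (fun j hj => by
            have h2 : ∑ y ∈ s₂, Φ i (ρ (α n) y) * P (α n) (d j y) =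
                χ i (α n) (∑ y ∈ s₂, S.al y * S.be (d j y)) := by
              rw [map_sum]
              exact Finset.sum_congr rfl fun y _ => by rw [map_mul, hal, hbe]
            rw [hconj, h2, ← map_sub]
            exact (xk2_norm_map _ _).trans (hd' j hj).2) hb
        have h3 : ∑ p ∈ T ×ˢ s₂, Φ i (ρ (α n) p.2) * (P (α n) (d p.1 p.2) * b p.1) =
            ∑ j ∈ T, (∑ y ∈ s₂, Φ i (ρ (α n) y) * P (α n) (d j y)) * b j := by
          rw [Finset.sum_product]
          refine Finset.sum_congr rfl fun j _ => ?_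
          rw [Finset.sum_mul]
          exact Finset.sum_congr rfl fun y _ => (mul_assoc _ _ _).symm
        rw [h3]
        linarith
    · rintro ⟨k, hk, hk1⟩
      rcases Nat.lt_succ_iff_lt_or_eq.1 hk with h | h
      · obtain ⟨b₀, hb₀, h0⟩ := H0 ⟨k, h, hk1⟩
        refine ⟨b₀, hb₀.succ, fun i => ?_⟩
        have h1 : χ i (α n) (u (t n)) * b₀ * star (χ i (α n) (u (t n))) = b₀ := by
          rw [(hcom i _ _ hb₀).eq, mul_assoc, (Unitary.mem_iff.1 (hun i)).2, mul_one]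
        have h2 := xk2_norm_conj (hun i) (dprod (fun k => χ i (α k) (w k (t k))) n * Φ i x *
          star (dprod (fun k => χ i (α k) (w k (t k))) n) - b₀)
        rw [mul_sub, sub_mul, h1] at h2
        rw [h2]
        exact (h0 i).trans (by linarith)
      · subst h
        refine ⟨∑ j ∈ T, P (α k) ((ρ (α k)).symm (z j)) * b j,
          xk2_C.sum T fun j hj => (hPC _).mul (hzb j hj).2.succ, fun i => ?_⟩
        have h1 := xk2_step T (hun i) (fun j => Φ i (z j))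
          (fun j => P (α k) ((ρ (α k)).symm (z j))) b hδ.le
          (fun j hj => hcom' i _ (hzb j hj).2) (hZ i) (fun j hj => by
            rw [hconj, ← hbe i, ← map_sub, hk1]
            exact (xk2_norm_map _ _).trans (hu1 _ (hmem j hj))) hb
        linarith

end Aux

theorem DData.coh {D A ι κ : Type} [CStarAlgebra D] [CStarAlgebra A] (S : DData D) {L : ℝ}
    (hL : S.Path L) (Φ : ι → D →⋆ₐ[ℂ] A) (P : κ → D →⋆ₐ[ℂ] A) (ρ : κ → (D ≃⋆ₐ[ℂ] D))
    (χ : ι → κ → D →⋆ₐ[ℂ] A) (lev : κ → ℕ) (hal : ∀ i α x, χ i α (S.al x) = Φ i (ρ α x))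
    (hbe : ∀ i α x, χ i α (S.be x) = P α x)
    (hP : ∀ α β, lev α ≠ lev β → ∀ x y, Commute (P α x) (P β y)) (K : Finset κ) (n₁ : ℕ)
    (s : Finset D) {ε : ℝ} (hε : 0 < ε) :
    ∃ w : ℕ → ℝ → D, (∀ n, IsPath L (w n)) ∧ ∀ (α : ℕ → κ) (t : ℕ → ℝ),
      (∀ n, 0 ≤ t n ∧ t n ≤ 1) → (∀ n, t n ≠ 0 → α n ∈ K ∧ lev (α n) = n) →
        (∃ n < n₁, t n = 1) → ∀ i i', ∀ x ∈ s,
          ‖dprod (fun n => χ i (α n) (w n (t n))) n₁ * Φ i x *
              star (dprod (fun n => χ i (α n) (w n (t n))) n₁) -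
            dprod (fun n => χ i' (α n) (w n (t n))) n₁ * Φ i' x *
              star (dprod (fun n => χ i' (α n) (w n (t n))) n₁)‖ ≤ ε := by
  have hη : 0 < ε / (2 * n₁ + 1) := by positivity
  obtain ⟨w, s', M, hw, -, H⟩ := xk2_main S hL ρ χ hal hbe hP K s hη n₁
  refine ⟨w, hw, fun α t ht hα h1 i i' x hx => ?_⟩
  obtain ⟨b₀, -, hb⟩ := (H α t ht hα x hx).2 h1
  have h2 := norm_sub_le_norm_sub_add_norm_sub
    (dprod (fun n => χ i (α n) (w n (t n))) n₁ * Φ i x *
      star (dprod (fun n => χ i (α n) (w n (t n))) n₁)) b₀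
    (dprod (fun n => χ i' (α n) (w n (t n))) n₁ * Φ i' x *
      star (dprod (fun n => χ i' (α n) (w n (t n))) n₁))
  have h3 := hb i
  have h4 := hb i'
  rw [norm_sub_rev] at h4
  have h5 : (2 * n₁ + 1) * (ε / (2 * n₁ + 1)) = ε := by field_simp
  nlinarith

end Pool.Agent.Izumi
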