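import Pool.Agent.Lib.MP_b2135d_an.XD2

/-! One mode and the algebra of the two signs. -/

namespace Pool.Agent.Izumi

open scoped ComplexOrder Pointwise

/-- The first dimerisation on natural numbers. -/
def xm1_f0 (k : ℕ) : ℕ := if k = 0 then 0 else if k % 2 = 1 then k + 1 else k - 1

/-- The second dimerisation on natural numbers. -/
def xm1_f1 (N k : ℕ) : ℕ := if k = 2 * N then k else if k % 2 = 0 then k + 1 else k - 1

theorem xm1_f0_lt {N k : ℕ} (hk : k < 2 * N + 1) : xm1_f0 k < 2 * N + 1 := by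
  unfold xm1_f0
  split_ifs <;> omega

theorem xm1_f1_lt {N k : ℕ} (hk : k < 2 * N + 1) : xm1_f1 N k < 2 * N + 1 := by
  unfold xm1_f1
  split_ifs <;> omega

/-- Both dimerisations on natural numbers. -/
def xm1_f (N : ℕ) (b : Bool) (k : ℕ) : ℕ := if b = true then xm1_f1 N k else xm1_f0 k

theorem xm1_f_lt {N k : ℕ} (b : Bool) (hk : k < 2 * N + 1) : xm1_f N b k < 2 * N + 1 := by
  unfold xm1_f
  split_ifs
  · exact xm1_f1_lt hk
  · exact xm1_f0_lt hk

theorem xm1_f_invol {N k : ℕ} (b : Bool) (hk : k < 2 * N + 1) :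
    xm1_f N b (xm1_f N b k) = k := by
  cases b
  · simp only [xm1_f, Bool.false_eq_true, if_false, xm1_f0]
    split_ifs <;> first | omega | contradiction
  · simp only [xm1_f, if_true, xm1_f1]
    split_ifs <;> omega

theorem xm1_f_step (N k : ℕ) (b : Bool) :
    xm1_f N b k = k ∨ xm1_f N b k = k + 1 ∨ xm1_f N b k + 1 = k := by
  cases b
  · simp only [xm1_f, Bool.false_eq_true, if_false, xm1_f0]
    split_ifs <;> omega
  · simp only [xm1_f, if_true, xm1_f1]
    split_ifs <;> omega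

theorem xm1_fix0 {N k : ℕ} : xm1_f N false k = k ↔ k = 0 := by
  simp only [xm1_f, Bool.false_eq_true, if_false, xm1_f0]
  split_ifs <;> omega

theorem xm1_fix1 {N k : ℕ} : xm1_f N true k = k ↔ k = 2 * N := by
  simp only [xm1_f, if_true, xm1_f1]
  split_ifs <;> omega

/-- Modes of arbitrarily small step exist. -/
theorem exists_mode {δ : ℝ} (hδ : 0 < δ) :
    ∃ (m : Type) (_ : Fintype m) (_ : DecidableEq m), Nonempty (Mode m δ) := by
  obtain ⟨n, hn⟩ := exists_nat_one_div_lt hδ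
  have hN : (0 : ℝ) < 2 * ((n : ℝ) + 1) := by positivity
  have hstep : 1 / (2 * ((n : ℝ) + 1)) ≤ δ := by
    refine le_trans ?_ hn.le
    apply one_div_le_one_div_of_le (by positivity)
    have : (0 : ℝ) ≤ n := Nat.cast_nonneg n
    linarith
  refine ⟨Fin (2 * (n + 1) + 1), inferInstance, inferInstance, ⟨
    { o := ⟨0, by omega⟩
      l := ⟨2 * (n + 1), by omega⟩
      par := fun k => decide (k.val % 2 = 1)
      s := fun b k => ⟨xm1_f (n + 1) b k.val, xm1_f_lt b k.isLt⟩
      invol := fun b k => Fin.ext (xm1_f_invol b k.isLt)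
      fix0 := fun k => by
        rw [Fin.ext_iff, Fin.ext_iff]
        exact xm1_fix0 (N := n + 1)
      fix1 := fun k => by
        rw [Fin.ext_iff, Fin.ext_iff]
        exact xm1_fix1 (N := n + 1)
      par_o := by simp
      par_s := fun b k hk => by
        have h1 : xm1_f (n + 1) b k.val ≠ k.val := fun h => hk (Fin.ext h)
        have h2 := xm1_f_step (n + 1) k.val b
        show decide (xm1_f (n + 1) b k.val % 2 = 1) = !decide (k.val % 2 = 1)
        by_cases h3 : k.val % 2 = 1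
        · have h4 : ¬ xm1_f (n + 1) b k.val % 2 = 1 := by omega
          simp [h3, h4]
        · have h4 : xm1_f (n + 1) b k.val % 2 = 1 := by omega
          simp [h3, h4]
      y := fun k => (k.val : ℝ) / (2 * ((n : ℝ) + 1))
      y_mem := fun k => by
        refine ⟨by positivity, ?_⟩
        rw [div_le_one hN]
        have h1 : k.val ≤ 2 * (n + 1) := by have := k.isLt; omega
        exact_mod_cast h1
      y_o := by simp
      y_l := by
        show ((2 * (n + 1) : ℕ) : ℝ) / (2 * ((n : ℝ) + 1)) = 1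
        push_cast
        exact div_self hN.ne'
      y_s := fun b k => by
        show |(k.val : ℝ) / (2 * ((n : ℝ) + 1)) -
          ((xm1_f (n + 1) b k.val : ℕ) : ℝ) / (2 * ((n : ℝ) + 1))| ≤ δ
        refine le_trans ?_ hstep
        rw [← sub_div, abs_div, abs_of_pos hN]
        apply div_le_div_of_nonneg_right _ hN.le
        rcases xm1_f_step (n + 1) k.val b with h | h | h
        · rw [h]; simp
        · rw [h]; push_cast; simp
        · have h' : (k.val : ℝ) = (xm1_f (n + 1) b k.val : ℕ) + 1 := by exact_mod_cast h.symm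
          rw [h']; simp }⟩⟩

/-- The relations between parity `ε`, vacuum `E`, window `P`, the odd operators `b`, `T` and the
inverse moduli `k0`, `k1`. -/
structure SignData {B : Type} [Ring B] [StarRing B] (ε E P b T k0 k1 : B) : Prop where
  ε_star : star ε = ε
  ε_sq : ε * ε = 1
  E_star : star E = E
  E_sq : E * E = E
  P_star : star P = P
  P_sq : P * P = P
  EP : E * P = E
  εE : ε * E = E
  εP : ε * P = P * ε
  b_star : star b = b
  εb : ε * b = -(b * ε)
  bE : b * E = 0
  bP : b * P = P * b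
  T_star : star T = T
  εT : ε * T = -(T * ε)
  TP : T * P = P * T
  k0_star : star k0 = k0
  k0P : k0 * P = k0
  k0b : k0 * b = b * k0
  k0ε : k0 * ε = ε * k0
  k0E : k0 * E = E * k0
  k0_sq : (E + b * b) * (k0 * k0) = P
  k1_star : star k1 = k1
  k1P : k1 * P = k1
  k1T : k1 * T = T * k1
  k1ε : k1 * ε = ε * k1
  k1_sq : (1 + T * T) * (k1 * k1) = P

namespace SignData

variable {B : Type} [Ring B] [StarRing B] {ε E P b T k0 k1 : B}

omit [StarRing B] in
theorem xm1_conj {a Q D : B} (h1 : a * Q = 0) (h2 : Q * a = 0) (h3 : Q * D = D * Q)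
    (h4 : Q * Q = Q) : (a + Q) * D * (a + Q) = a * D * a + D * Q := by
  have e1 : a * D * Q = 0 := by rw [mul_assoc, ← h3, ← mul_assoc, h1, zero_mul]
  have e2 : Q * D * a = 0 := by rw [h3, mul_assoc, h2, mul_zero]
  have e3 : Q * D * Q = D * Q := by rw [h3, mul_assoc, h4]
  rw [add_mul, add_mul, mul_add, mul_add, e1, e2, e3, add_zero, zero_add]

theorem xm1_PE (h : SignData ε E P b T k0 k1) : P * E = E := by
  have := congrArg star h.EP
  rwa [star_mul, h.P_star, h.E_star] at this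

theorem xm1_Eε (h : SignData ε E P b T k0 k1) : E * ε = E := by
  have := congrArg star h.εE
  rwa [star_mul, h.ε_star, h.E_star] at this

theorem xm1_Eb (h : SignData ε E P b T k0 k1) : E * b = 0 := by
  have := congrArg star h.bE
  rwa [star_mul, h.b_star, h.E_star, star_zero] at this

theorem xm1_Pk0 (h : SignData ε E P b T k0 k1) : P * k0 = k0 := by
  have := congrArg star h.k0P
  rwa [star_mul, h.P_star, h.k0_star] at this

theorem xm1_Pk1 (h : SignData ε E P b T k0 k1) : P * k1 = k1 := by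
  have := congrArg star h.k1P
  rwa [star_mul, h.P_star, h.k1_star] at this

theorem xm1_QQ (h : SignData ε E P b T k0 k1) : (1 - P) * (1 - P) = 1 - P := by
  rw [mul_sub, mul_one, sub_mul, one_mul, h.P_sq, sub_self, sub_zero]

theorem xm1_PQ (h : SignData ε E P b T k0 k1) : P * (1 - P) = 0 := by
  rw [mul_sub, mul_one, h.P_sq, sub_self]

theorem xm1_k0A (h : SignData ε E P b T k0 k1) : k0 * (E + b) = (E + b) * k0 := by
  rw [mul_add, add_mul, h.k0E, h.k0b]

theorem xm1_k1C (h : SignData ε E P b T k0 k1) : k1 * (ε + T) = (ε + T) * k1 := by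
  rw [mul_add, add_mul, h.k1ε, h.k1T]

theorem xm1_PA (h : SignData ε E P b T k0 k1) : P * (E + b) = (E + b) * P := by
  rw [mul_add, add_mul, h.xm1_PE, h.EP, h.bP]

theorem xm1_PC (h : SignData ε E P b T k0 k1) : P * (ε + T) = (ε + T) * P := by
  rw [mul_add, add_mul, h.εP, h.TP]

theorem xm1_AA (h : SignData ε E P b T k0 k1) : (E + b) * (E + b) = E + b * b := by
  rw [mul_add, add_mul, add_mul, h.E_sq, h.bE, h.xm1_Eb, add_zero, zero_add]

theorem xm1_CC (h : SignData ε E P b T k0 k1) : (ε + T) * (ε + T) = 1 + T * T := by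
  rw [mul_add, add_mul, add_mul, h.ε_sq, h.εT]
  abel

theorem xm1_a0Q (h : SignData ε E P b T k0 k1) : (E + b) * k0 * (1 - P) = 0 := by
  rw [mul_assoc, mul_sub, mul_one, h.k0P, sub_self, mul_zero]

theorem xm1_a1Q (h : SignData ε E P b T k0 k1) : (ε + T) * k1 * (1 - P) = 0 := by
  rw [mul_assoc, mul_sub, mul_one, h.k1P, sub_self, mul_zero]

theorem xm1_Qa0 (h : SignData ε E P b T k0 k1) : (1 - P) * ((E + b) * k0) = 0 := by
  rw [sub_mul, one_mul, ← mul_assoc, h.xm1_PA, mul_assoc, h.xm1_Pk0, sub_self]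

theorem xm1_Qa1 (h : SignData ε E P b T k0 k1) : (1 - P) * ((ε + T) * k1) = 0 := by
  rw [sub_mul, one_mul, ← mul_assoc, h.xm1_PC, mul_assoc, h.xm1_Pk1, sub_self]

theorem xm1_εQ (h : SignData ε E P b T k0 k1) : (1 - P) * ε = ε * (1 - P) := by
  rw [sub_mul, mul_sub, one_mul, mul_one, h.εP]

omit [StarRing B] in
theorem xm1_swap {a k D : B} (h1 : k * a = a * k) (h2 : k * D = D * k) :
    a * k * D * (a * k) = a * D * a * (k * k) := by
  calc a * k * D * (a * k) = a * (k * D) * a * k := by simp only [mul_assoc]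
    _ = a * D * (k * a) * k := by rw [h2]; simp only [mul_assoc]
    _ = a * D * a * (k * k) := by rw [h1]; simp only [mul_assoc]

theorem star_s0 (h : SignData ε E P b T k0 k1) :
    star ((E + b) * k0 + (1 - P)) = (E + b) * k0 + (1 - P) := by
  rw [star_add, star_mul, star_add, star_sub, star_one, h.P_star, h.E_star, h.b_star, h.k0_star,
    h.xm1_k0A]

theorem star_s1 (h : SignData ε E P b T k0 k1) :
    star ((ε + T) * k1 + (1 - P)) = (ε + T) * k1 + (1 - P) := by
  rw [star_add, star_mul, star_add, star_sub, star_one, h.P_star, h.ε_star, h.T_star, h.k1_star,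
    h.xm1_k1C]

theorem s0_sq (h : SignData ε E P b T k0 k1) :
    ((E + b) * k0 + (1 - P)) * ((E + b) * k0 + (1 - P)) = 1 := by
  have e := xm1_conj (D := (1 : B)) h.xm1_a0Q h.xm1_Qa0 (by rw [mul_one, one_mul]) h.xm1_QQ
  rw [xm1_swap h.xm1_k0A (by rw [mul_one, one_mul]), mul_one, mul_one, one_mul, h.xm1_AA,
    h.k0_sq] at e
  rw [e]
  abel

theorem s1_sq (h : SignData ε E P b T k0 k1) :
    ((ε + T) * k1 + (1 - P)) * ((ε + T) * k1 + (1 - P)) = 1 := by
  have e := xm1_conj (D := (1 : B)) h.xm1_a1Q h.xm1_Qa1 (by rw [mul_one, one_mul]) h.xm1_QQ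
  rw [xm1_swap h.xm1_k1C (by rw [mul_one, one_mul]), mul_one, mul_one, one_mul, h.xm1_CC,
    h.k1_sq] at e
  rw [e]
  abel

theorem conj0 (h : SignData ε E P b T k0 k1) :
    ((E + b) * k0 + (1 - P)) * (E + E - ε) * ((E + b) * k0 + (1 - P)) = ε * P - ε * (1 - P) := by
  have hEQ : E * (1 - P) = 0 := by rw [mul_sub, mul_one, h.EP, sub_self]
  have hQE : (1 - P) * E = 0 := by rw [sub_mul, one_mul, h.xm1_PE, sub_self]
  have hQD : (1 - P) * (E + E - ε) = (E + E - ε) * (1 - P) := by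
    rw [mul_sub, mul_add, hQE, sub_mul (E + E), add_mul, hEQ, h.xm1_εQ]
  have hkD : k0 * (E + E - ε) = (E + E - ε) * k0 := by
    rw [mul_sub, mul_add, sub_mul, add_mul, h.k0E, h.k0ε]
  have hAD : (E + b) * (E + E - ε) = ε * (E + b) := by
    rw [add_mul, mul_sub, mul_sub, mul_add, mul_add, mul_add, h.E_sq, h.bE, h.xm1_Eε, h.εE, h.εb]
    abel
  have hDQ : (E + E - ε) * (1 - P) = -(ε * (1 - P)) := by
    rw [sub_mul, add_mul, hEQ, add_zero, zero_sub]
  rw [xm1_conj h.xm1_a0Q h.xm1_Qa0 hQD h.xm1_QQ, xm1_swap h.xm1_k0A hkD, hAD, hDQ,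
    mul_assoc ε, h.xm1_AA, mul_assoc ε, h.k0_sq, ← sub_eq_add_neg]

theorem conj1 (h : SignData ε E P b T k0 k1) :
    ((ε + T) * k1 + (1 - P)) * (ε * P - ε * (1 - P)) * ((ε + T) * k1 + (1 - P)) =
      (ε + T) * k1 * k1 + (ε + T) * k1 * k1 - ε := by
  have hQP : (1 - P) * P = 0 := by rw [sub_mul, one_mul, h.P_sq, sub_self]
  have hDQ : (ε * P - ε * (1 - P)) * (1 - P) = -(ε * (1 - P)) := by
    rw [sub_mul, mul_assoc, mul_assoc, h.xm1_PQ, h.xm1_QQ, mul_zero, zero_sub]
  have hQD : (1 - P) * (ε * P - ε * (1 - P)) = (ε * P - ε * (1 - P)) * (1 - P) := by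
    rw [hDQ, mul_sub (1 - P), ← mul_assoc, ← mul_assoc, h.xm1_εQ, mul_assoc, mul_assoc, hQP,
      h.xm1_QQ, mul_zero, zero_sub]
  have hkD : (ε + T) * k1 * (ε * P - ε * (1 - P)) = (ε + T) * k1 * ε := by
    have hkQ : k1 * (1 - P) = 0 := by rw [mul_sub, mul_one, h.k1P, sub_self]
    have : k1 * (ε * P - ε * (1 - P)) = k1 * ε := by
      rw [mul_sub, ← mul_assoc, ← mul_assoc, h.k1ε, mul_assoc, mul_assoc, h.k1P, hkQ, mul_zero,
        sub_zero]
    rw [mul_assoc, this, mul_assoc]
  have hTε : T * ε = -(ε * T) := by rw [h.εT, neg_neg]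
  have hC : (ε + T) * ε * (ε + T) = (ε + T) + (ε + T) - ε * (1 + T * T) := by
    have e1 : T * ε * ε = T := by rw [mul_assoc, h.ε_sq, mul_one]
    have e2 : T * ε * T = -(ε * (T * T)) := by rw [hTε, neg_mul, mul_assoc]
    rw [add_mul ε T ε, h.ε_sq, add_mul, one_mul, mul_add (T * ε), e1, e2, mul_add ε, mul_one]
    abel
  rw [xm1_conj h.xm1_a1Q h.xm1_Qa1 hQD h.xm1_QQ, hkD, xm1_swap h.xm1_k1C h.k1ε, hC, hDQ,
    sub_mul, add_mul (ε + T), mul_assoc ε, h.k1_sq, mul_sub ε 1 P, mul_one,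
    mul_assoc (ε + T) k1 k1]
  abel

end SignData

end Pool.Agent.Izumi
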