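import Pool.Agent.Lib.MP_b2135d_an.XW

/-! Hopping operators on the fermionic Fock space. -/

namespace Pool.Agent.Izumi

open scoped ComplexOrder Pointwise
open Pool.Agent.Lib.MP_f90f6c_an.H50

namespace Mode

variable {V m : Type} [Fintype V] [DecidableEq V] [Fintype m] [DecidableEq m] {δ : ℝ}
  (M : Mode m δ) {t : V → V → ℝ}

theorem xm2_mv_self (b : Bool) (x : V) (σ : V → m) : M.mv b x σ x = M.s b (σ x) := by
  simp [mv]

theorem xm2_mv_ne (b : Bool) {x a : V} (h : a ≠ x) (σ : V → m) : M.mv b x σ a = σ a := by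
  simp [mv, Function.update_of_ne h]

theorem mv_mv (b : Bool) (x : V) (σ : V → m) : M.mv b x (M.mv b x σ) = σ := by
  funext a
  by_cases h : a = x
  · subst h
    rw [xm2_mv_self, xm2_mv_self, M.invol]
  · rw [M.xm2_mv_ne b h, M.xm2_mv_ne b h]

theorem mv_injective (b : Bool) (x : V) : Function.Injective (M.mv b x) := by
  exact Function.LeftInverse.injective (M.mv_mv b x)

theorem mem_loc {U : Finset V} {σ : V → m} : σ ∈ M.loc U ↔ ∀ x, x ∉ U → σ x = M.o := by
  simp [loc]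

theorem vac_mem_loc (U : Finset V) : M.vac V ∈ M.loc U := by
  exact M.mem_loc.2 fun _ _ => rfl

theorem loc_mono {U U' : Finset V} (h : U ⊆ U') : M.loc U ⊆ M.loc U' := by
  intro σ hσ
  exact M.mem_loc.2 fun x hx => M.mem_loc.1 hσ x fun e => hx (h e)

theorem loc_empty : M.loc (∅ : Finset V) = {M.vac V} := by
  ext σ
  rw [mem_loc, Finset.mem_singleton]
  constructor
  · intro h
    funext x
    exact h x (Finset.notMem_empty x)
  · rintro rfl x _
    rfl

theorem eps_sq (σ : V → m) : M.eps σ * M.eps σ = 1 := by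
  rw [eps, ← Finset.prod_mul_distrib]
  refine Finset.prod_eq_one fun a _ => ?_
  split_ifs <;> norm_num

theorem eps_vac : M.eps (M.vac V) = 1 := by
  refine Finset.prod_eq_one fun a _ => ?_
  rw [vac, M.par_o, if_neg Bool.false_ne_true]

theorem eps_eq (σ : V → m) : M.eps σ = if σ ∈ M.odd V then -1 else 1 := by
  by_cases h : σ ∈ M.odd V
  · rw [if_pos h]
    exact (Finset.mem_filter.1 h).2
  · rw [if_neg h]
    rcases mul_self_eq_one_iff.1 (M.eps_sq σ) with e | e
    · exact e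
    · exact absurd (show σ ∈ M.odd V from Finset.mem_filter.2 ⟨Finset.mem_univ σ, e⟩) h

theorem vac_not_odd : M.vac V ∉ M.odd V := by
  intro h
  have e := (Finset.mem_filter.1 h).2
  rw [eps_vac] at e
  norm_num at e

theorem xm2_sgn_sq (ht : IsTour t) (x : V) (σ : V → m) : M.sgn t x σ * M.sgn t x σ = 1 := by
  rw [sgn, ← Finset.prod_mul_distrib]
  refine Finset.prod_eq_one fun a _ => ?_
  split_ifs
  · exact ht.sq x a
  · exact one_mul 1

theorem xm2_sgn_mv_self (t : V → V → ℝ) (b : Bool) (x : V) (σ : V → m) :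
    M.sgn t x (M.mv b x σ) = M.sgn t x σ := by
  refine Finset.prod_congr rfl fun a _ => ?_
  by_cases h : a = x
  · rw [if_neg fun e => e.1 h, if_neg fun e => e.1 h]
  · rw [M.xm2_mv_ne b h]

theorem xm2_fix_mv (b : Bool) (x : V) (σ : V → m) :
    M.s b (M.mv b x σ x) = M.mv b x σ x ↔ M.s b (σ x) = σ x := by
  rw [xm2_mv_self, M.invol]
  exact eq_comm

theorem xm2_amp_mv_self (t : V → V → ℝ) (b : Bool) (x : V) (σ : V → m) :
    M.amp t b x (M.mv b x σ) = M.amp t b x σ := by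
  rw [amp, amp, xm2_sgn_mv_self]
  by_cases h : M.s b (σ x) = σ x
  · rw [if_pos h, if_pos ((M.xm2_fix_mv b x σ).2 h)]
  · rw [if_neg h, if_neg fun e => h ((M.xm2_fix_mv b x σ).1 e)]

theorem xm2_prod_mv (F : V → Bool → ℝ) (b : Bool) (x : V) (σ : V → m) (c : ℝ)
    (hc : F x (M.par (M.s b (σ x))) = c * F x (M.par (σ x))) :
    ∏ a, F a (M.par (M.mv b x σ a)) = c * ∏ a, F a (M.par (σ a)) := by
  rw [← Finset.mul_prod_erase _ _ (Finset.mem_univ x),
    ← Finset.mul_prod_erase _ (fun a => F a (M.par (σ a))) (Finset.mem_univ x), xm2_mv_self, hc,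
    mul_assoc]
  congr 2
  refine Finset.prod_congr rfl fun a ha => ?_
  rw [M.xm2_mv_ne b (Finset.ne_of_mem_erase ha)]

theorem xm2_sgn_mv (ht : IsTour t) {b : Bool} {x x' : V} (h : x ≠ x') {σ : V → m}
    (hσ : M.s b (σ x) ≠ σ x) : M.sgn t x' (M.mv b x σ) = t x' x * M.sgn t x' σ := by
  refine M.xm2_prod_mv (fun a q => if a ≠ x' ∧ q = true then t x' a else 1) b x σ _ ?_
  rw [M.par_s b _ hσ]
  cases M.par (σ x)
  · simp [h]
  · simp [h, ht.sq]

theorem xm2_eps_mv {b : Bool} {x : V} {σ : V → m} (hσ : M.s b (σ x) ≠ σ x) :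
    M.eps (M.mv b x σ) = -1 * M.eps σ := by
  refine M.xm2_prod_mv (fun _ q => if q = true then -1 else 1) b x σ _ ?_
  rw [M.par_s b _ hσ]
  cases M.par (σ x) <;> simp

theorem xm2_mv_comm (b b' : Bool) {x x' : V} (h : x ≠ x') (σ : V → m) :
    M.mv b' x' (M.mv b x σ) = M.mv b x (M.mv b' x' σ) := by
  funext a
  by_cases h1 : a = x
  · subst h1
    rw [M.xm2_mv_ne b' h, xm2_mv_self, xm2_mv_self, M.xm2_mv_ne b' h]
  · by_cases h2 : a = x'
    · subst h2
      rw [xm2_mv_self, M.xm2_mv_ne b h1, M.xm2_mv_ne b h1, xm2_mv_self]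
    · rw [M.xm2_mv_ne b' h2, M.xm2_mv_ne b h1, M.xm2_mv_ne b h1, M.xm2_mv_ne b' h2]

theorem xm2_false_ne {k : m} (h : M.s false k ≠ k) : k ≠ M.o ∧ M.s false k ≠ M.o := by
  refine ⟨fun e => h ((M.fix0 k).2 e), fun e => h ?_⟩
  have e1 := M.invol false k
  rw [e, (M.fix0 M.o).2 rfl] at e1
  rw [e, e1]

theorem _root_.Pool.Agent.Izumi.xm2_abs {a : ℝ} (h : a * a = 1) : |a| = 1 := by
  rcases mul_self_eq_one_iff.1 h with e | e <;> simp [e]

theorem abs_amp_le (ht : IsTour t) (b : Bool) (x : V) (σ : V → m) : |M.amp t b x σ| ≤ 1 := by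
  rw [amp]
  split_ifs
  · simp
  · exact (xm2_abs (M.xm2_sgn_sq ht x σ)).le

theorem star_hop (t : V → V → ℝ) (b : Bool) (x : V) : star (M.hop t b x) = M.hop t b x := by
  rw [hop, star_wp (M.mv_mv b x)]
  refine wp_congr (fun σ => ?_) fun _ _ => rfl
  rw [xm2_amp_mv_self, Complex.star_def, Complex.conj_ofReal]

theorem hop_sq (ht : IsTour t) (b : Bool) (x : V) :
    M.hop t b x * M.hop t b x = dr fun σ => if M.s b (σ x) = σ x then 0 else 1 := by
  rw [hop, wp_mul_wp, dr, ← wp_id]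
  refine wp_congr (fun σ => ?_) fun σ _ => M.mv_mv b x σ
  rw [xm2_amp_mv_self, ← Complex.ofReal_mul, amp]
  congr 1
  split_ifs
  · exact mul_zero 0
  · exact M.xm2_sgn_sq ht x σ

theorem hop_anti (ht : IsTour t) (b b' : Bool) {x x' : V} (h : x ≠ x') :
    M.hop t b x * M.hop t b' x' = -(M.hop t b' x' * M.hop t b x) := by
  rw [hop, hop, wp_mul_wp, wp_mul_wp, wp_neg]
  refine wp_congr (fun σ => ?_) fun σ _ => M.xm2_mv_comm b b' h σ
  rw [← Complex.ofReal_mul, ← Complex.ofReal_mul, ← Complex.ofReal_neg]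
  congr 1
  simp only [amp]
  rw [M.xm2_mv_ne b h.symm, M.xm2_mv_ne b' h]
  by_cases h1 : M.s b (σ x) = σ x
  · simp [h1]
  · by_cases h2 : M.s b' (σ x') = σ x'
    · simp [h2]
    · rw [if_neg h1, if_neg h2, if_neg h2, if_neg h1, M.xm2_sgn_mv ht h h1,
        M.xm2_sgn_mv ht h.symm h2, ht.anti x x' h]
      ring

theorem eps_hop (t : V → V → ℝ) (b : Bool) (x : V) :
    dr M.eps * M.hop t b x = -(M.hop t b x * dr M.eps) := by
  rw [hop, dr, diagonal_mul_wp, wp_mul_diagonal, wp_neg]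
  refine wp_congr (fun σ => ?_) fun σ _ => rfl
  rw [← Complex.ofReal_mul, ← Complex.ofReal_mul, ← Complex.ofReal_neg, amp]
  congr 1
  split_ifs with h1
  · simp
  · rw [M.xm2_eps_mv h1]
    ring

theorem hop_commute_loc (t : V → V → ℝ) {b : Bool} {x : V} {U : Finset V}
    (h : x ∈ U ∨ b = false) : Commute (M.hop t b x) (pj ℂ (M.loc U)) := by
  show _ * _ = _ * _
  rw [hop, pj, diagonal_mul_wp, wp_mul_diagonal]
  refine wp_congr (fun σ => ?_) fun σ _ => rfl
  by_cases h1 : M.s b (σ x) = σ x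
  · simp [amp, h1]
  · have key : M.mv b x σ ∈ M.loc U ↔ σ ∈ M.loc U := by
      rw [mem_loc, mem_loc]
      refine forall_congr' fun a => forall_congr' fun ha => ?_
      by_cases e : a = x
      · subst e
        rcases h with h | h
        · exact absurd h ha
        · subst h
          rw [xm2_mv_self]
          exact iff_of_false (M.xm2_false_ne h1).2 (M.xm2_false_ne h1).1
      · rw [M.xm2_mv_ne b e]
    by_cases h2 : σ ∈ M.loc U
    · rw [if_pos h2, if_pos (key.2 h2), mul_one, one_mul]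
    · rw [if_neg h2, if_neg fun e => h2 (key.1 e), mul_zero, zero_mul]

theorem hop_mul_loc_zero (t : V → V → ℝ) {x : V} {U : Finset V} (h : x ∉ U) :
    M.hop t false x * pj ℂ (M.loc U) = 0 := by
  rw [hop, pj, wp_mul_diagonal, ← wp_zero (M.mv false x)]
  refine wp_congr (fun σ => ?_) fun σ _ => rfl
  by_cases h1 : M.s false (σ x) = σ x
  · simp [amp, h1]
  · rw [if_neg, mul_zero]
    intro e
    have e1 := M.mem_loc.1 e x h
    rw [xm2_mv_self] at e1
    exact (M.xm2_false_ne h1).2 e1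

theorem hop_mul_loc_congr {t t' : V → V → ℝ} (b : Bool) {x : V} {U : Finset V} (hx : x ∈ U)
    (h : ∀ a ∈ U, t x a = t' x a) :
    M.hop t b x * pj ℂ (M.loc U) = M.hop t' b x * pj ℂ (M.loc U) := by
  rw [hop, hop, pj, wp_mul_diagonal, wp_mul_diagonal]
  refine wp_congr (fun σ => ?_) fun σ _ => rfl
  by_cases h2 : M.mv b x σ ∈ M.loc U
  · have e : M.sgn t x σ = M.sgn t' x σ := by
      refine Finset.prod_congr rfl fun a _ => ?_
      by_cases ha : a ∈ U
      · rw [h a ha]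
      · have e1 := M.mem_loc.1 h2 a ha
        rw [M.xm2_mv_ne b fun e => ha (by rw [e]; exact hx)] at e1
        have e2 : ¬(a ≠ x ∧ M.par (σ a) = true) := by
          rw [e1, M.par_o]
          exact fun e => Bool.false_ne_true e.2
        rw [if_neg e2, if_neg e2]
    rw [amp, amp, e]
  · rw [if_neg h2, mul_zero, mul_zero]

theorem star_fock (t : V → V → ℝ) (θ : V → ℝ) (b : V → Bool) :
    star (M.fock t θ b) = M.fock t θ b := by
  rw [fock, star_sum]
  refine Finset.sum_congr rfl fun x _ => ?_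
  rw [star_smul, star_hop, Complex.star_def, Complex.conj_ofReal]

theorem _root_.Pool.Agent.Izumi.xm2_sum_sq {R α : Type} [Ring R] [DecidableEq α] (a : α → R)
    (h : ∀ x y, x ≠ y → a x * a y = -(a y * a x)) (s : Finset α) :
    (∑ x ∈ s, a x) * ∑ x ∈ s, a x = ∑ x ∈ s, a x * a x := by
  induction s using Finset.induction_on with
  | empty => simp
  | insert y s hy ih =>
    have e : a y * ∑ x ∈ s, a x = -((∑ x ∈ s, a x) * a y) := by
      rw [Finset.mul_sum, Finset.sum_mul, ← Finset.sum_neg_distrib]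
      exact Finset.sum_congr rfl fun x hx => h y x fun e => hy (e ▸ hx)
    rw [Finset.sum_insert hy, Finset.sum_insert hy, add_mul, mul_add, mul_add, ih, e]
    abel

theorem fock_sq (ht : IsTour t) (θ : V → ℝ) (b : V → Bool) :
    M.fock t θ b * M.fock t θ b = dr (M.en θ b) := by
  rw [fock, xm2_sum_sq]
  · ext σ τ
    simp only [smul_mul_smul_comm, M.hop_sq ht, Matrix.sum_apply, Matrix.smul_apply, dr, en,
      Matrix.diagonal_apply]
    by_cases e : σ = τ
    · simp only [if_pos e, Complex.ofReal_sum]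
      refine Finset.sum_congr rfl fun x _ => ?_
      split_ifs <;> simp [sq]
    · simp [e]
  · intro x y hxy
    rw [smul_mul_smul_comm, smul_mul_smul_comm, M.hop_anti ht _ _ hxy, smul_neg, mul_comm (θ x : ℂ)]

theorem eps_fock (t : V → V → ℝ) (θ : V → ℝ) (b : V → Bool) :
    dr M.eps * M.fock t θ b = -(M.fock t θ b * dr M.eps) := by
  rw [fock, Finset.mul_sum, Finset.sum_mul, ← Finset.sum_neg_distrib]
  refine Finset.sum_congr rfl fun x _ => ?_
  rw [mul_smul_comm, smul_mul_assoc, eps_hop, smul_neg]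

theorem fock_commute_loc (t : V → V → ℝ) {θ : V → ℝ} {b : V → Bool} {U : Finset V}
    (h : ∀ x, x ∉ U → b x = false ∨ θ x = 0) : Commute (M.fock t θ b) (pj ℂ (M.loc U)) := by
  refine Commute.sum_left _ _ _ fun x _ => ?_
  by_cases hx : x ∈ U
  · exact (M.hop_commute_loc t (Or.inl hx)).smul_left _
  · rcases h x hx with e | e
    · exact (M.hop_commute_loc t (Or.inr e)).smul_left _
    · rw [e, Complex.ofReal_zero, zero_smul]
      exact Commute.zero_left _

theorem fock_mul_vac (t : V → V → ℝ) (θ : V → ℝ) :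
    M.fock t θ (fun _ => false) * pj ℂ {M.vac V} = 0 := by
  rw [← loc_empty, fock, Finset.sum_mul]
  refine Finset.sum_eq_zero fun x _ => ?_
  rw [smul_mul_assoc, M.hop_mul_loc_zero t (Finset.notMem_empty x), smul_zero]

theorem fock_add (t : V → V → ℝ) (θ θ' : V → ℝ) (b : V → Bool) :
    M.fock t (fun x => θ x + θ' x) b = M.fock t θ b + M.fock t θ' b := by
  simp only [fock, Complex.ofReal_add, add_smul, Finset.sum_add_distrib]

theorem fock_sub (t : V → V → ℝ) (θ θ' : V → ℝ) (b : V → Bool) :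
    M.fock t (fun x => θ x - θ' x) b = M.fock t θ b - M.fock t θ' b := by
  simp only [fock, Complex.ofReal_sub, sub_smul, Finset.sum_sub_distrib]

theorem fock_congr (t : V → V → ℝ) {θ : V → ℝ} {b b' : V → Bool}
    (h : ∀ x, θ x ≠ 0 → b x = b' x) : M.fock t θ b = M.fock t θ b' := by
  refine Finset.sum_congr rfl fun x _ => ?_
  by_cases e : θ x = 0
  · rw [e, Complex.ofReal_zero, zero_smul, zero_smul]
  · rw [h x e]

/-- On the window `U` only the sites of `U` and the signs inside `U` matter. -/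
theorem fock_mul_loc {t t' : V → V → ℝ} {θ : V → ℝ} {b : V → Bool} {U : Finset V}
    (hb : ∀ x, x ∉ U → b x = false) (h : ∀ x ∈ U, ∀ a ∈ U, t x a = t' x a) :
    M.fock t θ b * pj ℂ (M.loc U) =
      M.fock t' (fun x => if x ∈ U then θ x else 0) b * pj ℂ (M.loc U) := by
  rw [fock, fock, Finset.sum_mul, Finset.sum_mul]
  refine Finset.sum_congr rfl fun x _ => ?_
  by_cases hx : x ∈ U
  · rw [if_pos hx, smul_mul_assoc, smul_mul_assoc, M.hop_mul_loc_congr (b x) hx (h x hx)]
  · rw [if_neg hx, smul_mul_assoc, hb x hx, M.hop_mul_loc_zero t hx, smul_zero,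
      Complex.ofReal_zero, zero_smul, zero_mul]

theorem en_nonneg (θ : V → ℝ) (b : V → Bool) (σ : V → m) : 0 ≤ M.en θ b σ := by
  refine Finset.sum_nonneg fun x _ => ?_
  split_ifs
  · exact le_rfl
  · exact sq_nonneg _

theorem en_le_sum (θ : V → ℝ) (b : V → Bool) (σ : V → m) : M.en θ b σ ≤ ∑ x, θ x ^ 2 := by
  refine Finset.sum_le_sum fun x _ => ?_
  split_ifs
  · exact sq_nonneg _
  · exact le_rfl

theorem sq_le_en (θ : V → ℝ) (b : V → Bool) {σ : V → m} {x : V} (h : M.s (b x) (σ x) ≠ σ x) :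
    θ x ^ 2 ≤ M.en θ b σ := by
  have e := Finset.single_le_sum (f := fun x => if M.s (b x) (σ x) = σ x then 0 else θ x ^ 2)
    (s := Finset.univ) (fun y _ => by
      split_ifs
      · exact le_rfl
      · exact sq_nonneg _) (Finset.mem_univ x)
  rwa [if_neg h] at e

theorem en_le_en {θ θ' : V → ℝ} (b : V → Bool) {c : ℝ} (h : ∀ x, θ' x ^ 2 ≤ c * θ x ^ 2)
    (σ : V → m) : M.en θ' b σ ≤ c * M.en θ b σ := by
  rw [en, en, Finset.mul_sum]
  refine Finset.sum_le_sum fun x _ => ?_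
  split_ifs
  · exact (mul_zero c).ge
  · exact h x

theorem norm_fock_mul_dr (ht : IsTour t) (θ : V → ℝ) (b : V → Bool) {f : (V → m) → ℝ} {c : ℝ}
    (hc : 0 ≤ c) (h : ∀ σ, f σ ^ 2 * M.en θ b σ ≤ c ^ 2) : ‖M.fock t θ b * dr f‖ ≤ c := by
  refine norm_mul_dr_le (q := M.en θ b) ?_ hc h
  rw [star_fock, M.fock_sq ht]

theorem norm_fock_le (ht : IsTour t) (θ : V → ℝ) (b : V → Bool) {c : ℝ} (hc : 0 ≤ c)
    (h : ∑ x, θ x ^ 2 ≤ c ^ 2) : ‖M.fock t θ b‖ ≤ c := by
  have e := M.norm_fock_mul_dr ht θ b (f := fun _ => 1) hc fun σ => by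
    rw [one_pow, one_mul]
    exact (M.en_le_sum θ b σ).trans h
  rwa [dr_one, mul_one] at e

end Mode

end Pool.Agent.Izumi
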