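import Pool.Agent.Lib.MP_b2135d_an.XM1
import Pool.Agent.Lib.MP_b2135d_an.XM2

/-! The unitary `X` and the operator `j` of the model: exact relations. -/

namespace Pool.Agent.Izumi

open scoped ComplexOrder Pointwise
open Pool.Agent.Lib.MP_f90f6c_an.H50

section Aux

variable {I : Type} [Fintype I] [DecidableEq I]

theorem xm3_kk_eq (h : I → ℝ) (R : Finset I) : kk h R = dr (fun σ => (h σ)⁻¹) * pj ℂ R := by
  rw [pj_eq_dr, dr_mul_dr, kk]
  congr 1
  funext σ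
  split_ifs <;> simp

theorem xm3_kk_pj (h : I → ℝ) (R : Finset I) : kk h R * pj ℂ R = kk h R := by
  rw [xm3_kk_eq, mul_assoc, pj_mul_self]

theorem xm3_kk_compl (h : I → ℝ) (R : Finset I) : kk h R * pj ℂ Rᶜ = 0 := by
  rw [pj_compl, mul_sub, mul_one, xm3_kk_pj, sub_self]

theorem xm3_sq_kk {h : I → ℝ} {R : Finset I} (hp : ∀ σ ∈ R, 0 < h σ) :
    dr (fun σ => h σ ^ 2) * (kk h R * kk h R) = pj ℂ R := by
  rw [kk, dr_mul_dr, dr_mul_dr, pj_eq_dr]
  congr 1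
  funext σ
  split_ifs with hσ
  · have := (hp σ hσ).ne'
    field_simp
  · simp

theorem xm3_commute_kk {H : Matrix I I ℂ} {h : I → ℝ} {R : Finset I} (h0 : ∀ σ, 0 ≤ h σ)
    (h1 : Commute H (dr fun σ => h σ ^ 2)) (h2 : Commute H (pj ℂ R)) : Commute (kk h R) H := by
  rw [xm3_kk_eq]
  refine (Commute.mul_right (commute_dr_of_commute h1 fun σ τ e => ?_) h2).symm
  rw [(pow_left_inj₀ (h0 σ) (h0 τ) two_ne_zero).1 e]

theorem xm3_pj_commute_dr (R : Finset I) (f : I → ℝ) : Commute (pj ℂ R) (dr f) :=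
  pj_commute_diagonal R _

omit [DecidableEq I] in
theorem xm3_half {x y : Matrix I I ℂ} (h : x + x = y + y) : x = y := by
  refine smul_right_injective _ (two_ne_zero (α := ℂ)) ?_
  simpa only [two_smul] using h

end Aux

namespace Mode

variable {V m : Type} [Fintype V] [DecidableEq V] [Fintype m] [DecidableEq m] {δ : ℝ}
  (M : Mode m δ) {d : FD V}

theorem xm3_vac_mul_fock (t : V → V → ℝ) (θ : V → ℝ) :
    pj ℂ {M.vac V} * M.fock t θ (fun _ => false) = 0 := by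
  have := congrArg star (M.fock_mul_vac t θ)
  rwa [star_mul, star_pj, star_fock, star_zero] at this

theorem xm3_h0 (hd : d.Ok) :
    pj ℂ {M.vac V} + (M.fock d.t d.θ fun _ => false) * (M.fock d.t d.θ fun _ => false) =
      dr fun σ => M.h0 d σ ^ 2 := by
  rw [M.fock_sq hd.tour, pj_eq_dr, dr_add]
  congr 1
  funext σ
  rw [h0, Real.sq_sqrt (add_nonneg (by split_ifs <;> norm_num) (M.en_nonneg _ _ _))]
  simp

theorem xm3_h1 (hd : d.Ok) :
    1 + M.fock d.t d.θ d.b * M.fock d.t d.θ d.b = dr fun σ => M.h1 d σ ^ 2 := by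
  rw [M.fock_sq hd.tour, ← dr_one, dr_add]
  congr 1
  funext σ
  rw [h1, Real.sq_sqrt (add_nonneg zero_le_one (M.en_nonneg _ _ _))]

theorem xm3_eps_sq : dr (M.eps (V := V)) * dr M.eps = 1 := by
  rw [dr_mul_dr, ← dr_one]
  congr 1
  funext σ
  exact M.eps_sq σ

theorem H0_sq (hd : d.Ok) : star (M.H0 d) * M.H0 d = dr fun σ => M.h0 d σ ^ 2 := by
  rw [← M.xm3_h0 hd, H0, star_add, star_pj, star_fock, add_mul, mul_add, mul_add, pj_mul_self,
    xm3_vac_mul_fock, fock_mul_vac, add_zero, zero_add]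

theorem H1_sq (hd : d.Ok) : star (M.H1 d) * M.H1 d = dr fun σ => M.h1 d σ ^ 2 := by
  rw [← M.xm3_h1 hd, H1, star_add, star_dr, star_fock, add_mul, mul_add, mul_add, xm3_eps_sq,
    eps_fock]
  abel

theorem h0_pos (hd : d.Ok) {σ : V → m} (h : σ ∈ M.loc d.U) : 0 < M.h0 d σ := by
  rw [h0, Real.sqrt_pos]
  split_ifs with hσ
  · exact add_pos_of_pos_of_nonneg one_pos (M.en_nonneg _ _ _)
  · obtain ⟨x, hx⟩ := Function.ne_iff.1 hσ
    have hx' : σ x ≠ M.o := hx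
    have hU : x ∈ d.U := by
      by_contra hU
      exact hx' (M.mem_loc.1 h x hU)
    have h1 := M.sq_le_en d.θ (fun _ => false) (σ := σ) (x := x) fun e => hx' ((M.fix0 _).1 e)
    have h2 := pow_pos (hd.pos x hU) 2
    linarith

theorem one_le_h1 (d : FD V) (σ : V → m) : 1 ≤ M.h1 d σ := by
  rw [h1]
  exact Real.one_le_sqrt.2 (le_add_of_nonneg_right (M.en_nonneg _ _ _))

theorem signData (hd : d.Ok) : SignData (dr M.eps) (pj ℂ {M.vac V}) (pj ℂ (M.loc d.U))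
    (M.fock d.t d.θ fun _ => false) (M.fock d.t d.θ d.b) (kk (M.h0 d) (M.loc d.U))
    (kk (M.h1 d) (M.loc d.U)) := by
  have hbP : Commute (M.fock d.t d.θ fun _ => false) (pj ℂ (M.loc d.U)) :=
    M.fock_commute_loc _ fun _ _ => Or.inl rfl
  have hTP : Commute (M.fock d.t d.θ d.b) (pj ℂ (M.loc d.U)) :=
    M.fock_commute_loc _ fun x hx => Or.inr (hd.zero x hx)
  have hbE : Commute (M.fock d.t d.θ fun _ => false) (pj ℂ {M.vac V}) :=
    (M.fock_mul_vac _ _).trans (M.xm3_vac_mul_fock _ _).symm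
  refine
    { ε_star := star_dr _
      ε_sq := M.xm3_eps_sq
      E_star := star_pj _
      E_sq := pj_mul_self _
      P_star := star_pj _
      P_sq := pj_mul_self _
      EP := by rw [pj_mul_pj, Finset.singleton_inter_of_mem (M.vac_mem_loc _)]
      εE := ?_
      εP := (xm3_pj_commute_dr _ _).symm
      b_star := M.star_fock _ _ _
      εb := M.eps_fock _ _ _
      bE := M.fock_mul_vac _ _
      bP := hbP
      T_star := M.star_fock _ _ _
      εT := M.eps_fock _ _ _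
      TP := hTP
      k0_star := star_dr _
      k0P := xm3_kk_pj _ _
      k0b := xm3_commute_kk (fun _ => Real.sqrt_nonneg _) ?_ hbP
      k0ε := dr_commute _ _
      k0E := (xm3_pj_commute_dr _ _).symm
      k0_sq := by rw [M.xm3_h0 hd, xm3_sq_kk fun σ hσ => M.h0_pos hd hσ]
      k1_star := star_dr _
      k1P := xm3_kk_pj _ _
      k1T := xm3_commute_kk (fun _ => Real.sqrt_nonneg _) ?_ hTP
      k1ε := dr_commute _ _
      k1_sq := by
        rw [M.xm3_h1 hd, xm3_sq_kk fun σ _ => one_pos.trans_le (M.one_le_h1 d σ)] }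
  · rw [pj_eq_dr, dr_mul_dr]
    congr 1
    funext σ
    split_ifs with hσ
    · rw [Finset.mem_singleton.1 hσ, eps_vac, mul_one]
    · rw [mul_zero]
  · rw [← M.xm3_h0 hd]
    exact hbE.add_right ((Commute.refl _).mul_right (Commute.refl _))
  · rw [← M.xm3_h1 hd]
    exact (Commute.one_right _).add_right ((Commute.refl _).mul_right (Commute.refl _))

theorem xm3_sg0 (d : FD V) : M.sg0 d = (pj ℂ {M.vac V} + M.fock d.t d.θ fun _ => false) *
    kk (M.h0 d) (M.loc d.U) + (1 - pj ℂ (M.loc d.U)) := by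
  rw [sg0, pj_compl, H0]

theorem xm3_sg1 (d : FD V) : M.sg1 d = (dr M.eps + M.fock d.t d.θ d.b) *
    kk (M.h1 d) (M.loc d.U) + (1 - pj ℂ (M.loc d.U)) := by
  rw [sg1, pj_compl, H1]

theorem xm3_star_sg0 (hd : d.Ok) : star (M.sg0 d) = M.sg0 d := by
  rw [xm3_sg0]
  exact (M.signData hd).star_s0

theorem xm3_star_sg1 (hd : d.Ok) : star (M.sg1 d) = M.sg1 d := by
  rw [xm3_sg1]
  exact (M.signData hd).star_s1

theorem xm3_sg0_sq (hd : d.Ok) : M.sg0 d * M.sg0 d = 1 := by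
  rw [xm3_sg0]
  exact (M.signData hd).s0_sq

theorem xm3_sg1_sq (hd : d.Ok) : M.sg1 d * M.sg1 d = 1 := by
  rw [xm3_sg1]
  exact (M.signData hd).s1_sq

theorem sg0_unit (hd : d.Ok) : M.sg0 d ∈ unitary (Matrix (V → m) (V → m) ℂ) := by
  rw [Unitary.mem_iff, M.xm3_star_sg0 hd]
  exact ⟨M.xm3_sg0_sq hd, M.xm3_sg0_sq hd⟩

theorem sg1_unit (hd : d.Ok) : M.sg1 d ∈ unitary (Matrix (V → m) (V → m) ℂ) := by
  rw [Unitary.mem_iff, M.xm3_star_sg1 hd]
  exact ⟨M.xm3_sg1_sq hd, M.xm3_sg1_sq hd⟩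

theorem sg0_sq (hd : d.Ok) : M.sg0 d * M.sg0 d = 1 := M.xm3_sg0_sq hd

theorem X_unit (hd : d.Ok) : M.X d ∈ unitary (Matrix (V → m) (V → m) ℂ) :=
  mul_mem (M.sg1_unit hd) (M.sg0_unit hd)

theorem X_supp (d : FD V) : M.X d * pj ℂ (M.loc d.U)ᶜ = pj ℂ (M.loc d.U)ᶜ := by
  have h0 : M.sg0 d * pj ℂ (M.loc d.U)ᶜ = pj ℂ (M.loc d.U)ᶜ := by
    rw [sg0, add_mul, mul_assoc, xm3_kk_compl, mul_zero, zero_add, pj_mul_self]
  have h1 : M.sg1 d * pj ℂ (M.loc d.U)ᶜ = pj ℂ (M.loc d.U)ᶜ := by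
    rw [sg1, add_mul, mul_assoc, xm3_kk_compl, mul_zero, zero_add, pj_mul_self]
  rw [X, mul_assoc, h0, h1]

theorem j_eq (hd : d.Ok) :
    M.X d * pj ℂ (insert (M.vac V) (M.odd V)) * star (M.X d) = pj ℂ (M.odd V) + M.j d := by
  have e0 : pj ℂ (insert (M.vac V) (M.odd V)) + pj ℂ (insert (M.vac V) (M.odd V)) =
      1 + (pj ℂ {M.vac V} + pj ℂ {M.vac V} - dr M.eps) := by
    rw [pj_eq_dr, pj_eq_dr, ← dr_one, dr_add, dr_add, dr_sub, dr_add]
    congr 1
    funext σ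
    rw [eps_eq]
    by_cases h1 : σ = M.vac V
    · subst h1
      simp [M.vac_not_odd]
    · by_cases h2 : σ ∈ M.odd V <;> simp [h1, h2]
  have e1 : pj ℂ (M.odd V) + pj ℂ (M.odd V) = 1 - dr M.eps := by
    rw [pj_eq_dr, ← dr_one, dr_add, dr_sub]
    congr 1
    funext σ
    rw [eps_eq]
    by_cases h2 : σ ∈ M.odd V <;> simp [h2]
  have c0 := (M.signData hd).conj0
  have c1 := (M.signData hd).conj1
  rw [← xm3_sg0] at c0
  rw [← xm3_sg1, ← c0] at c1
  have s0 := M.xm3_sg0_sq hd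
  have s1 := M.xm3_sg1_sq hd
  refine xm3_half ?_
  rw [← add_mul, ← mul_add, e0, add_add_add_comm, e1, X, star_mul, M.xm3_star_sg0 hd,
    M.xm3_star_sg1 hd, j, H1]
  generalize pj ℂ {M.vac V} + pj ℂ {M.vac V} - dr M.eps = W at c1 ⊢
  calc M.sg1 d * M.sg0 d * (1 + W) * (M.sg0 d * M.sg1 d)
      = M.sg1 d * (M.sg0 d * M.sg0 d) * M.sg1 d + M.sg1 d * (M.sg0 d * W * M.sg0 d) * M.sg1 d := by
        noncomm_ring
    _ = _ := by
        rw [s0, mul_one, s1, c1]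
        abel

theorem sg0_commute_loc (d : FD V) (U : Finset V) : Commute (M.sg0 d) (pj ℂ (M.loc U)) := by
  refine Commute.add_left (Commute.mul_left (Commute.add_left (pj_commute_diagonal _ _)
    (M.fock_commute_loc _ fun _ _ => Or.inl rfl)) (xm3_pj_commute_dr _ _).symm)
    (pj_commute_diagonal _ _)

theorem j_bad (hd : d.Ok) {c : ℝ} (hc : 0 < c) (h : c ^ 2 ≤ ∑ x ∈ d.F, d.θ x ^ 2) :
    ‖M.j d * pj ℂ (M.Gd d)ᶜ‖ ≤ c⁻¹ := by
  rw [j, mul_assoc, mul_assoc, kk, pj_eq_dr, dr_mul_dr, dr_mul_dr]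
  refine norm_mul_dr_le (M.H1_sq hd) (inv_nonneg.2 hc.le) fun σ => ?_
  by_cases h1 : σ ∈ M.loc d.U
  · by_cases h2 : σ ∈ (M.Gd d)ᶜ
    · have h3 : ∑ x ∈ d.F, d.θ x ^ 2 ≤ M.en d.θ d.b σ := by
        rw [en]
        refine le_trans (le_of_eq (Finset.sum_congr rfl fun x hx => ?_))
          (Finset.sum_le_sum_of_subset_of_nonneg (Finset.subset_univ d.F) fun x _ _ => ?_)
        · have hb : d.b x = true := by simp [FD.b, hx]
          rw [if_neg]
          rw [hb, M.fix1]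
          intro e
          exact Finset.mem_compl.1 h2 (Finset.mem_filter.2 ⟨h1, x, hx, e⟩)
        · split_ifs
          · exact le_rfl
          · exact sq_nonneg _
      have h4 : M.h1 d σ ^ 2 = 1 + M.en d.θ d.b σ :=
        Real.sq_sqrt (add_nonneg zero_le_one (M.en_nonneg _ _ _))
      have h5 : 0 < M.h1 d σ := one_pos.trans_le (M.one_le_h1 d σ)
      rw [if_pos h1, if_pos h2, show ((M.h1 d σ)⁻¹ * ((M.h1 d σ)⁻¹ * 1)) ^ 2 * M.h1 d σ ^ 2 =
        (M.h1 d σ ^ 2)⁻¹ by field_simp, inv_pow]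
      exact inv_anti₀ (pow_pos hc 2) (by linarith)
    · rw [if_neg h2]
      simpa using sq_nonneg c
  · rw [if_neg h1]
    simpa using sq_nonneg c

theorem j_dec (hd : d.Ok) : ∃ (c0 : (V → m) → ℂ) (c : V → (V → m) → ℂ),
    M.j d = Matrix.diagonal c0 + ∑ x, wp (M.mv (d.b x) x) (c x) ∧ ∀ x σ, ‖c x σ‖ ≤ d.θ x := by
  set κ : (V → m) → ℝ := fun σ => if σ ∈ M.loc d.U then (M.h1 d σ)⁻¹ else 0 with hκ
  have hk : ∀ σ, |κ σ| ≤ 1 := fun σ => by
    simp only [hκ]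
    split_ifs
    · rw [abs_inv, abs_of_nonneg (zero_le_one.trans (M.one_le_h1 d σ))]
      exact inv_le_one_of_one_le₀ (M.one_le_h1 d σ)
    · simp
  refine ⟨fun σ => ((M.eps σ * (κ σ * κ σ) : ℝ) : ℂ), fun x σ => (d.θ x : ℂ) *
    ((M.amp d.t (d.b x) x σ : ℂ) * ((κ (M.mv (d.b x) x σ) * κ (M.mv (d.b x) x σ) : ℝ) : ℂ)),
    ?_, fun x σ => ?_⟩
  · rw [j, mul_assoc, kk, dr_mul_dr, H1, add_mul, dr_mul_dr, fock, Finset.sum_mul]
    congr 1
    refine Finset.sum_congr rfl fun x _ => ?_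
    rw [smul_mul_assoc, hop, dr, wp_mul_diagonal, wp_smul]
  · have hθ : 0 ≤ d.θ x := by
      by_cases hx : x ∈ d.U
      · exact (hd.pos x hx).le
      · exact (hd.zero x hx).ge
    rw [norm_mul, norm_mul, Complex.norm_real, Complex.norm_real, Complex.norm_real,
      Real.norm_eq_abs, Real.norm_eq_abs, Real.norm_eq_abs, abs_of_nonneg hθ, abs_mul]
    exact mul_le_of_le_one_right hθ (mul_le_one₀ (M.abs_amp_le hd.tour _ _ _)
      (mul_nonneg (abs_nonneg _) (abs_nonneg _)) (mul_le_one₀ (hk _) (abs_nonneg _) (hk _)))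

end Mode

end Pool.Agent.Izumi
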