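import Pool.Agent.Lib.MP_b2135d_an.XM3

/-! The unitary `X` of the model: estimates and covariance. -/

namespace Pool.Agent.Izumi

open scoped ComplexOrder Pointwise
open Pool.Agent.Lib.MP_f90f6c_an.H50

theorem FD.Ok.map {V : Type} {d : FD V} (hd : d.Ok) (π : Equiv.Perm V) : (d.map π).Ok := by
  refine ⟨⟨fun x a => hd.tour.sq _ _, fun x a h => hd.tour.anti _ _ ?_⟩, fun x hx => ?_,
    fun x hx => ?_, ?_⟩
  · exact fun h' => h (π.symm.injective h')
  · exact hd.pos _ (Finset.mem_map_equiv.1 hx)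
  · exact hd.zero _ fun h => hx (Finset.mem_map_equiv.2 h)
  · exact Finset.map_subset_map.2 hd.sub

section Aux

variable {I : Type} [Fintype I] [DecidableEq I]

theorem xm4_kk_mul_pj (h : I → ℝ) (S T : Finset I) : kk h S * pj ℂ T = kk h (S ∩ T) := by
  rw [kk, kk, pj_eq_dr, dr_mul_dr]
  congr 1
  funext σ
  by_cases h1 : σ ∈ S <;> by_cases h2 : σ ∈ T <;> simp [h1, h2]

theorem xm4_pj_mul_kk (h : I → ℝ) (S T : Finset I) : pj ℂ T * kk h S = kk h (T ∩ S) := by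
  rw [kk, kk, pj_eq_dr, dr_mul_dr]
  congr 1
  funext σ
  by_cases h1 : σ ∈ S <;> by_cases h2 : σ ∈ T <;> simp [h1, h2]

theorem xm4_kk_empty (h : I → ℝ) : kk h (∅ : Finset I) = 0 := by
  ext σ τ
  simp [kk, dr]

omit [Fintype I] in
theorem xm4_pj_empty : pj ℂ (∅ : Finset I) = 0 := by
  ext σ τ
  simp [pj]

theorem xm4_norm_kk_le {h : I → ℝ} {S : Finset I} {c : ℝ} (hc : 0 < c) (hh : ∀ σ ∈ S, c ≤ h σ) :
    ‖kk h S‖ ≤ c⁻¹ := by
  refine norm_dr_le (inv_pos.2 hc).le fun σ => ?_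
  by_cases h1 : σ ∈ S
  · rw [if_pos h1, abs_of_pos (inv_pos.2 (hc.trans_le (hh σ h1)))]
    exact inv_anti₀ hc (hh σ h1)
  · rw [if_neg h1, abs_zero]
    exact (inv_pos.2 hc).le

omit [DecidableEq I] in
theorem xm4_submatrix_mul (e : Equiv.Perm I) (A B : Matrix I I ℂ) :
    (A * B).submatrix e.symm e.symm = A.submatrix e.symm e.symm * B.submatrix e.symm e.symm :=
  (Matrix.submatrix_mul_equiv A B e.symm e.symm e.symm).symm

omit [Fintype I] [DecidableEq I] in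
theorem xm4_submatrix_add (e : Equiv.Perm I) (A B : Matrix I I ℂ) :
    (A + B).submatrix e.symm e.symm = A.submatrix e.symm e.symm + B.submatrix e.symm e.symm :=
  rfl

theorem xm4_pj_submatrix (e : Equiv.Perm I) {S T : Finset I} (h : ∀ σ, e.symm σ ∈ S ↔ σ ∈ T) :
    (pj ℂ S).submatrix e.symm e.symm = pj ℂ T := by
  rw [pj_eq_dr, pj_eq_dr, dr_submatrix]
  congr 1
  funext σ
  exact if_congr (h σ) rfl rfl

theorem xm4_kk_submatrix (e : Equiv.Perm I) {S T : Finset I} {f g : I → ℝ}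
    (h : ∀ σ, e.symm σ ∈ S ↔ σ ∈ T) (h' : ∀ σ, f (e.symm σ) = g σ) :
    (kk f S).submatrix e.symm e.symm = kk g T := by
  rw [kk, kk, dr_submatrix]
  congr 1
  funext σ
  exact if_congr (h σ) (by rw [h' σ]) rfl

end Aux

namespace Mode

variable {V m : Type} [Fintype V] [DecidableEq V] [Fintype m] [DecidableEq m] {δ : ℝ}
  (M : Mode m δ) {d d' : FD V}

theorem xm4_norm_eps : ‖dr (M.eps (V := V))‖ ≤ 1 := by
  refine norm_dr_le zero_le_one fun σ => ?_
  rw [M.eps_eq σ]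
  split_ifs <;> simp

theorem xm4_norm_fock_ind {t : V → V → ℝ} (ht : IsTour t) (θ : V → ℝ) (b : V → Bool)
    (D : Finset V) {a : ℝ} (ha : 0 ≤ a) (hs : ∑ x ∈ D, θ x ^ 2 ≤ a ^ 2) :
    ‖M.fock t (fun x => if x ∈ D then θ x else 0) b‖ ≤ a := by
  refine M.norm_fock_le ht _ b ha (le_of_eq_of_le ?_ hs)
  rw [← Finset.sum_filter_add_sum_filter_not Finset.univ (fun x => x ∈ D)]
  rw [Finset.sum_eq_zero (s := Finset.univ.filter fun x => ¬ x ∈ D), add_zero]
  · refine Finset.sum_congr (by ext x; simp) fun x hx => ?_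
    rw [if_pos hx]
  · intro x hx
    rw [if_neg (Finset.mem_filter.1 hx).2]
    simp

theorem xm4_fock_split (t : V → V → ℝ) (θ : V → ℝ) (b : V → Bool) (D : Finset V) :
    M.fock t θ b = M.fock t (fun x => if x ∈ D then θ x else 0) b +
      M.fock t (fun x => if x ∈ D then 0 else θ x) b := by
  rw [← M.fock_add]
  congr 1
  funext x
  split_ifs <;> simp

theorem xm4_en_le_h0 (d : FD V) (σ : V → m) : M.en d.θ (fun _ => false) σ ≤ M.h0 d σ ^ 2 := by
  have h1 := M.en_nonneg d.θ (fun _ => false) σ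
  have h2 : (0 : ℝ) ≤ if σ = M.vac V then 1 else 0 := by split_ifs <;> simp
  rw [h0, Real.sq_sqrt (add_nonneg h2 h1)]
  linarith

theorem xm4_en_le_h1 (d : FD V) (σ : V → m) : M.en d.θ d.b σ ≤ M.h1 d σ ^ 2 := by
  have h1' := M.en_nonneg d.θ d.b σ
  rw [h1, Real.sq_sqrt (add_nonneg zero_le_one h1')]
  linarith

/-- A small relative change of the weights is small against the inverse modulus. -/
theorem xm4_norm_fock_kk {t : V → V → ℝ} (ht : IsTour t) {θ ψ : V → ℝ} (b : V → Bool)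
    {h : (V → m) → ℝ} (S : Finset (V → m)) {η : ℝ} (hη : 0 ≤ η)
    (hψ : ∀ x, ψ x ^ 2 ≤ η ^ 2 * θ x ^ 2) (hh : ∀ σ, M.en θ b σ ≤ h σ ^ 2) :
    ‖M.fock t ψ b * kk h S‖ ≤ η := by
  refine M.norm_fock_mul_dr ht ψ b hη fun σ => ?_
  by_cases h1 : σ ∈ S
  · rw [if_pos h1]
    have h2 := M.en_le_en b hψ σ
    have h3 : M.en ψ b σ ≤ η ^ 2 * h σ ^ 2 :=
      h2.trans (mul_le_mul_of_nonneg_left (hh σ) (sq_nonneg η))
    have h4 : (h σ)⁻¹ ^ 2 * h σ ^ 2 ≤ 1 := by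
      rw [← mul_pow]
      by_cases h5 : h σ = 0
      · simp [h5]
      · rw [inv_mul_cancel₀ h5]
        simp
    calc (h σ)⁻¹ ^ 2 * M.en ψ b σ ≤ (h σ)⁻¹ ^ 2 * (η ^ 2 * h σ ^ 2) :=
          mul_le_mul_of_nonneg_left h3 (sq_nonneg _)
      _ = η ^ 2 * ((h σ)⁻¹ ^ 2 * h σ ^ 2) := by ring
      _ ≤ η ^ 2 * 1 := mul_le_mul_of_nonneg_left h4 (sq_nonneg _)
      _ = η ^ 2 := mul_one _
  · rw [if_neg h1]
    simpa using sq_nonneg η

/-- (E1) Outside a smaller window `X` is close to `1`. -/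
theorem est_out (hd : d.Ok) {U0 : Finset V} (hU : U0 ⊆ d.U) {Λ a : ℝ}
    (hΛ : 0 < Λ) (ha : 0 ≤ a) (hθ : ∀ x ∈ d.U, x ∉ U0 → Λ ≤ d.θ x)
    (hs : ∑ x ∈ d.F, d.θ x ^ 2 ≤ a ^ 2) (h1 : (1 + 2 * a) / Λ ≤ 1) :
    ‖(M.X d - 1) * pj ℂ (M.loc U0)ᶜ‖ ≤ 4 * ((1 + 2 * a) / Λ) := by
  have _ := hU
  have hc : Commute (M.sg0 d) (pj ℂ (M.loc U0)ᶜ) := by
    rw [pj_compl]
    exact (Commute.one_right _).sub_right (M.sg0_commute_loc d U0)
  have e1 : (M.X d - 1) * pj ℂ (M.loc U0)ᶜ =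
      ((M.sg1 d - M.sg0 d) * pj ℂ (M.loc U0)ᶜ) * M.sg0 d := by
    rw [mul_assoc, ← hc.eq, ← mul_assoc, sub_mul (M.sg1 d), M.sg0_sq hd, X]
  set R := M.loc d.U ∩ (M.loc U0)ᶜ with hR
  have e2 : (M.sg1 d - M.sg0 d) * pj ℂ (M.loc U0)ᶜ =
      M.H1 d * kk (M.h1 d) R - M.H0 d * kk (M.h0 d) R := by
    rw [sg1, sg0, add_sub_add_right_eq_sub, sub_mul, mul_assoc, mul_assoc, xm4_kk_mul_pj,
      xm4_kk_mul_pj]
  rw [e1, CStarRing.norm_mul_mem_unitary _ (M.sg0_unit hd), e2]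
  have hk : ‖kk (M.h0 d) R‖ ≤ Λ⁻¹ := by
    refine xm4_norm_kk_le hΛ fun σ hσ => ?_
    obtain ⟨h2, h3⟩ := Finset.mem_inter.1 hσ
    rw [Finset.mem_compl, M.mem_loc] at h3
    push Not at h3
    obtain ⟨x, hx, hxo⟩ := h3
    have hxU : x ∈ d.U := by
      by_contra h4
      exact hxo (M.mem_loc.1 h2 x h4)
    have h5 : d.θ x ^ 2 ≤ M.en d.θ (fun _ => false) σ :=
      M.sq_le_en d.θ (fun _ => false) fun h => hxo ((M.fix0 _).1 h)
    have h6 := hθ x hxU hx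
    have h7 : Λ ^ 2 ≤ M.h0 d σ ^ 2 :=
      (pow_le_pow_left₀ hΛ.le h6 2).trans (h5.trans (M.xm4_en_le_h0 d σ))
    exact (pow_le_pow_iff_left₀ hΛ.le (M.h0_pos hd h2).le two_ne_zero).1 h7
  refine sign_diag (M.H0_sq hd) (M.H1_sq hd)
    (fun σ hσ => M.h0_pos hd (Finset.mem_inter.1 hσ).1)
    (fun σ _ => zero_lt_one.trans_le (M.one_le_h1 d σ)) h1 ?_
  have hv : pj ℂ {M.vac V} * kk (M.h0 d) R = 0 := by
    rw [xm4_pj_mul_kk, ← xm4_kk_empty (M.h0 d)]
    congr 1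
    refine Finset.singleton_inter_of_notMem fun h => ?_
    exact Finset.mem_compl.1 (Finset.mem_inter.1 h).2 (M.vac_mem_loc U0)
  have hf : M.fock d.t (fun x => if x ∈ d.F then 0 else d.θ x) d.b =
      M.fock d.t (fun x => if x ∈ d.F then 0 else d.θ x) fun _ => false := by
    refine M.fock_congr d.t fun x hx => ?_
    by_cases h2 : x ∈ d.F
    · simp [h2] at hx
    · simp [FD.b, h2]
  have e3 : (M.H1 d - M.H0 d) * kk (M.h0 d) R =
      (dr M.eps + M.fock d.t (fun x => if x ∈ d.F then d.θ x else 0) d.b -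
        M.fock d.t (fun x => if x ∈ d.F then d.θ x else 0) fun _ => false) * kk (M.h0 d) R := by
    have e4 : M.H1 d - M.H0 d =
        (dr M.eps + M.fock d.t (fun x => if x ∈ d.F then d.θ x else 0) d.b -
          M.fock d.t (fun x => if x ∈ d.F then d.θ x else 0) fun _ => false) -
            pj ℂ {M.vac V} := by
      rw [H1, H0, M.xm4_fock_split d.t d.θ d.b d.F, M.xm4_fock_split d.t d.θ (fun _ => false) d.F,
        hf]
      abel
    rw [e4, sub_mul _ (pj ℂ {M.vac V}), hv, sub_zero]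
  rw [e3]
  have n1 := M.xm4_norm_eps (V := V)
  have n2 := M.xm4_norm_fock_ind hd.tour d.θ d.b d.F ha hs
  have n3 := M.xm4_norm_fock_ind hd.tour d.θ (fun _ => false) d.F ha hs
  have n4 : ‖dr M.eps + M.fock d.t (fun x => if x ∈ d.F then d.θ x else 0) d.b -
      M.fock d.t (fun x => if x ∈ d.F then d.θ x else 0) fun _ => false‖ ≤ 1 + 2 * a := by
    refine (norm_sub_le _ _).trans ?_
    have := norm_add_le (dr (M.eps (V := V)))
      (M.fock d.t (fun x => if x ∈ d.F then d.θ x else 0) d.b)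
    linarith
  refine (norm_mul_le _ _).trans ?_
  rw [div_eq_mul_inv]
  exact mul_le_mul n4 hk (norm_nonneg _) (by linarith)

theorem xm4_sg0_mul {U0 : Finset V} (hU : U0 ⊆ d.U) :
    M.sg0 d * pj ℂ (M.loc U0) = M.H0 d * kk (M.h0 d) (M.loc U0) := by
  have h := M.loc_mono hU
  rw [sg0, add_mul, mul_assoc, xm4_kk_mul_pj, pj_mul_pj, Finset.inter_eq_right.2 h]
  have : (M.loc d.U)ᶜ ∩ M.loc U0 = ∅ := by
    ext σ
    simp only [Finset.mem_inter, Finset.mem_compl, Finset.notMem_empty, iff_false, not_and]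
    exact fun h1 h2 => h1 (h h2)
  rw [this, xm4_pj_empty, add_zero]

theorem xm4_sg1_mul {U0 : Finset V} (hU : U0 ⊆ d.U) :
    M.sg1 d * pj ℂ (M.loc U0) = M.H1 d * kk (M.h1 d) (M.loc U0) := by
  have h := M.loc_mono hU
  rw [sg1, add_mul, mul_assoc, xm4_kk_mul_pj, pj_mul_pj, Finset.inter_eq_right.2 h]
  have : (M.loc d.U)ᶜ ∩ M.loc U0 = ∅ := by
    ext σ
    simp only [Finset.mem_inter, Finset.mem_compl, Finset.notMem_empty, iff_false, not_and]
    exact fun h1 h2 => h1 (h h2)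
  rw [this, xm4_pj_empty, add_zero]

theorem xm4_fock_mul_kk {t t' : V → V → ℝ} {θ : V → ℝ} {b : V → Bool} {U : Finset V}
    (hb : ∀ x, x ∉ U → b x = false) (h : ∀ x ∈ U, ∀ a ∈ U, t x a = t' x a)
    (f : (V → m) → ℝ) : M.fock t θ b * kk f (M.loc U) =
      M.fock t' (fun x => if x ∈ U then θ x else 0) b * kk f (M.loc U) := by
  have e : kk f (M.loc U) = pj ℂ (M.loc U) * kk f (M.loc U) := by
    rw [xm4_pj_mul_kk, Finset.inter_self]
  rw [e, ← mul_assoc, ← mul_assoc, M.fock_mul_loc hb h]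

theorem xm4_sq_le {u v η : ℝ} (h : |u| ≤ η * v) : u ^ 2 ≤ η ^ 2 * v ^ 2 := by
  rw [← mul_pow, ← sq_abs u]
  exact pow_le_pow_left₀ (abs_nonneg _) h 2

theorem xm4_est0 (hd : d.Ok) (hd' : d'.Ok) {U0 : Finset V} (hU : U0 ⊆ d.U) (hU' : U0 ⊆ d'.U)
    (ht : ∀ x ∈ U0, ∀ a ∈ U0, d'.t x a = d.t x a) {η : ℝ}
    (hη : 0 ≤ η) (hθ : ∀ x ∈ U0, |d'.θ x - d.θ x| ≤ η * d.θ x) (h1 : η ≤ 1) :
    ‖(M.sg0 d' - M.sg0 d) * pj ℂ (M.loc U0)‖ ≤ 4 * η := by
  rw [sub_mul, M.xm4_sg0_mul hU, M.xm4_sg0_mul hU']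
  refine sign_diag (M.H0_sq hd) (M.H0_sq hd') (fun σ hσ => M.h0_pos hd (M.loc_mono hU hσ))
    (fun σ hσ => M.h0_pos hd' (M.loc_mono hU' hσ)) h1 ?_
  rw [H0, H0, add_sub_add_left_eq_sub, sub_mul,
    M.xm4_fock_mul_kk (t := d'.t) (t' := d.t) (fun _ _ => rfl) ht,
    M.xm4_fock_mul_kk (t := d.t) (t' := d.t) (θ := d.θ) (fun _ _ => rfl) (fun _ _ _ _ => rfl),
    ← sub_mul, ← M.fock_sub]
  refine M.xm4_norm_fock_kk hd.tour (θ := d.θ) _ _ hη (fun x => ?_) (M.xm4_en_le_h0 d)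
  by_cases hx : x ∈ U0
  · rw [if_pos hx, if_pos hx]
    exact xm4_sq_le (hθ x hx)
  · rw [if_neg hx, if_neg hx, sub_zero, zero_pow two_ne_zero]
    positivity

theorem xm4_fock_diff (t : V → V → ℝ) (θ θ' : V → ℝ) {b b' : V → Bool} {U0 D : Finset V}
    (hDU : ∀ x ∈ D, x ∈ U0) (hbb : ∀ x, x ∉ D → b' x = b x) :
    M.fock t (fun x => if x ∈ U0 then θ' x else 0) b' -
        M.fock t (fun x => if x ∈ U0 then θ x else 0) b =
      M.fock t (fun x => (if x ∈ D then 0 else if x ∈ U0 then θ' x else 0) -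
        (if x ∈ D then 0 else if x ∈ U0 then θ x else 0)) b +
        (M.fock t (fun x => if x ∈ D then θ' x else 0) b' -
          M.fock t (fun x => if x ∈ D then θ x else 0) b) := by
  have hind : ∀ ψ : V → ℝ, (fun x => if x ∈ D then (if x ∈ U0 then ψ x else 0) else 0) =
      fun x => if x ∈ D then ψ x else 0 := fun ψ => by
    funext x
    by_cases h2 : x ∈ D
    · rw [if_pos h2, if_pos h2, if_pos (hDU x h2)]
    · rw [if_neg h2, if_neg h2]
  have hf : M.fock t (fun x => if x ∈ D then 0 else if x ∈ U0 then θ' x else 0) b' =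
      M.fock t (fun x => if x ∈ D then 0 else if x ∈ U0 then θ' x else 0) b := by
    refine M.fock_congr t fun x hx => hbb x fun h => hx ?_
    simp only [if_pos h]
  rw [M.xm4_fock_split t (fun x => if x ∈ U0 then θ' x else 0) b' D,
    M.xm4_fock_split t (fun x => if x ∈ U0 then θ x else 0) b D, hind, hind, hf, M.fock_sub]
  abel

theorem xm4_pert1 (hd : d.Ok) {U0 : Finset V}
    (hF : d.F ⊆ U0) (hF' : d'.F ⊆ U0) (ht : ∀ x ∈ U0, ∀ a ∈ U0, d'.t x a = d.t x a) {η a : ℝ}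
    (hη : 0 ≤ η) (ha : 0 ≤ a) (hθ : ∀ x ∈ U0, |d'.θ x - d.θ x| ≤ η * d.θ x)
    (hs : ∑ x ∈ symmDiff d.F d'.F, d.θ x ^ 2 ≤ a ^ 2)
    (hs' : ∑ x ∈ symmDiff d.F d'.F, d'.θ x ^ 2 ≤ a ^ 2) :
    ‖(M.H1 d' - M.H1 d) * kk (M.h1 d) (M.loc U0)‖ ≤ η + 2 * a := by
  have hb : ∀ x, x ∉ U0 → d.b x = false := fun x hx => by
    have : x ∉ d.F := fun h => hx (hF h)
    simp [FD.b, this]
  have hb' : ∀ x, x ∉ U0 → d'.b x = false := fun x hx => by
    have : x ∉ d'.F := fun h => hx (hF' h)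
    simp [FD.b, this]
  have hDU : ∀ x ∈ symmDiff d.F d'.F, x ∈ U0 := fun x hx => by
    rcases Finset.mem_symmDiff.1 hx with h | h
    · exact hF h.1
    · exact hF' h.1
  have hbb : ∀ x, x ∉ symmDiff d.F d'.F → d'.b x = d.b x := fun x hx => by
    rw [Finset.mem_symmDiff] at hx
    refine decide_eq_decide.2 ⟨fun h => ?_, fun h => ?_⟩
    · by_contra h2
      exact hx (Or.inr ⟨h, h2⟩)
    · by_contra h2
      exact hx (Or.inl ⟨h, h2⟩)
  generalize symmDiff d.F d'.F = D at hs hs' hDU hbb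
  rw [H1, H1, add_sub_add_left_eq_sub, sub_mul,
    M.xm4_fock_mul_kk (t := d'.t) (t' := d.t) hb' ht,
    M.xm4_fock_mul_kk (t := d.t) (t' := d.t) (θ := d.θ) hb (fun _ _ _ _ => rfl),
    ← sub_mul, M.xm4_fock_diff d.t d.θ d'.θ hDU hbb, add_mul]
  have k1 : ‖kk (M.h1 d) (M.loc U0)‖ ≤ 1 := by
    have := xm4_norm_kk_le (h := M.h1 d) (S := M.loc U0) zero_lt_one fun σ _ => M.one_le_h1 d σ
    rwa [inv_one] at this
  have m1 : ‖M.fock d.t (fun x => (if x ∈ D then 0 else if x ∈ U0 then d'.θ x else 0) -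
      (if x ∈ D then 0 else if x ∈ U0 then d.θ x else 0)) d.b * kk (M.h1 d) (M.loc U0)‖ ≤ η := by
    refine M.xm4_norm_fock_kk hd.tour (θ := d.θ) _ _ hη (fun x => ?_) (M.xm4_en_le_h1 d)
    by_cases h2 : x ∈ D
    · rw [if_pos h2, if_pos h2, sub_zero, zero_pow two_ne_zero]
      positivity
    · rw [if_neg h2, if_neg h2]
      by_cases hx : x ∈ U0
      · rw [if_pos hx, if_pos hx]
        exact xm4_sq_le (hθ x hx)
      · rw [if_neg hx, if_neg hx, sub_zero, zero_pow two_ne_zero]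
        positivity
  have m2 := M.xm4_norm_fock_ind hd.tour d'.θ d'.b D ha hs'
  have m3 := M.xm4_norm_fock_ind hd.tour d.θ d.b D ha hs
  have m4 : ‖M.fock d.t (fun x => if x ∈ D then d'.θ x else 0) d'.b -
      M.fock d.t (fun x => if x ∈ D then d.θ x else 0) d.b‖ ≤ 2 * a :=
    (norm_sub_le _ _).trans (by linarith only [m2, m3])
  have m5 : ‖(M.fock d.t (fun x => if x ∈ D then d'.θ x else 0) d'.b -
      M.fock d.t (fun x => if x ∈ D then d.θ x else 0) d.b) * kk (M.h1 d) (M.loc U0)‖ ≤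
        2 * a * 1 :=
    (norm_mul_le _ _).trans (mul_le_mul m4 k1 (norm_nonneg _) (by linarith only [ha]))
  rw [mul_one] at m5
  exact (norm_add_le _ _).trans (add_le_add m1 m5)

/-- (E2) Inside a common window nearby data give nearby unitaries. -/
theorem est_in (hd : d.Ok) (hd' : d'.Ok) {U0 : Finset V} (hU : U0 ⊆ d.U) (hU' : U0 ⊆ d'.U)
    (hF : d.F ⊆ U0) (hF' : d'.F ⊆ U0) (ht : ∀ x ∈ U0, ∀ a ∈ U0, d'.t x a = d.t x a) {η a : ℝ}
    (hη : 0 ≤ η) (ha : 0 ≤ a) (hθ : ∀ x ∈ U0, |d'.θ x - d.θ x| ≤ η * d.θ x)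
    (hs : ∑ x ∈ symmDiff d.F d'.F, d.θ x ^ 2 ≤ a ^ 2)
    (hs' : ∑ x ∈ symmDiff d.F d'.F, d'.θ x ^ 2 ≤ a ^ 2) (h1 : η + 2 * a ≤ 1) :
    ‖(M.X d' - M.X d) * pj ℂ (M.loc U0)‖ ≤ 8 * η + 8 * a := by
  have hc := M.sg0_commute_loc d U0
  have e1 : (M.X d' - M.X d) * pj ℂ (M.loc U0) =
      M.sg1 d' * ((M.sg0 d' - M.sg0 d) * pj ℂ (M.loc U0)) +
        ((M.sg1 d' - M.sg1 d) * pj ℂ (M.loc U0)) * M.sg0 d := by
    rw [mul_assoc (M.sg1 d' - M.sg1 d), ← hc.eq, X, X, ← mul_assoc, ← mul_assoc, ← add_mul,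
      mul_sub, sub_mul (M.sg1 d'), sub_add_sub_cancel]
  have n0 := M.xm4_est0 hd hd' hU hU' ht hη hθ (by linarith)
  have n1 : ‖(M.sg1 d' - M.sg1 d) * pj ℂ (M.loc U0)‖ ≤ 4 * (η + 2 * a) := by
    rw [sub_mul, M.xm4_sg1_mul hU, M.xm4_sg1_mul hU']
    exact sign_diag (M.H1_sq hd) (M.H1_sq hd')
      (fun σ _ => zero_lt_one.trans_le (M.one_le_h1 d σ))
      (fun σ _ => zero_lt_one.trans_le (M.one_le_h1 d' σ)) h1
      (M.xm4_pert1 hd hF hF' ht hη ha hθ hs hs')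
  have n2 := CStarRing.norm_mul_mem_unitary ((M.sg1 d' - M.sg1 d) * pj ℂ (M.loc U0))
    (M.sg0_unit hd)
  have n3 := CStarRing.norm_mem_unitary_mul ((M.sg0 d' - M.sg0 d) * pj ℂ (M.loc U0))
    (M.sg1_unit hd')
  rw [e1]
  refine (norm_add_le _ _).trans ((add_le_add (n3.le.trans n0) (n2.le.trans n1)).trans_eq ?_)
  ring

theorem cfg_apply (π : Equiv.Perm V) (σ : V → m) (x : V) : cfg m π σ x = σ (π.symm x) := rfl

theorem cfg_symm_apply (π : Equiv.Perm V) (σ : V → m) (x : V) :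
    (cfg m π).symm σ x = σ (π x) := rfl

theorem eps_cfg (π : Equiv.Perm V) (σ : V → m) : M.eps (cfg m π σ) = M.eps σ :=
  Equiv.prod_comp π.symm fun a => if M.par (σ a) = true then (-1 : ℝ) else 1

theorem xm4_eps_symm (π : Equiv.Perm V) (σ : V → m) : M.eps ((cfg m π).symm σ) = M.eps σ := by
  rw [← M.eps_cfg π ((cfg m π).symm σ), Equiv.apply_symm_apply]

theorem xm4_mv_cfg (π : Equiv.Perm V) (b : Bool) (x : V) (σ : V → m) :
    cfg m π (M.mv b x ((cfg m π).symm σ)) = M.mv b (π x) σ := by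
  funext y
  rw [cfg_apply, mv, mv, cfg_symm_apply]
  by_cases h : y = π x
  · subst h
    rw [Equiv.symm_apply_apply, Function.update_self, Function.update_self]
  · have h' : π.symm y ≠ x := fun h2 => h (by rw [← h2, Equiv.apply_symm_apply])
    rw [Function.update_of_ne h', Function.update_of_ne h, cfg_symm_apply, Equiv.apply_symm_apply]

theorem xm4_sgn_cfg (π : Equiv.Perm V) (t : V → V → ℝ) (x : V) (σ : V → m) :
    M.sgn t x ((cfg m π).symm σ) = M.sgn (fun u a => t (π.symm u) (π.symm a)) (π x) σ := by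
  rw [sgn, sgn]
  refine Fintype.prod_equiv π _ _ fun a => ?_
  rw [cfg_symm_apply, Equiv.symm_apply_apply, Equiv.symm_apply_apply]
  exact if_congr (and_congr_left' π.injective.ne_iff.symm) rfl rfl

theorem hop_submatrix (π : Equiv.Perm V) (t : V → V → ℝ) (b : Bool) (x : V) :
    (M.hop t b x).submatrix (cfg m π).symm (cfg m π).symm =
      M.hop (fun u a => t (π.symm u) (π.symm a)) b (π x) := by
  rw [hop, hop, wp_submatrix]
  refine wp_congr (fun σ => ?_) fun σ _ => M.xm4_mv_cfg π b x σ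
  rw [amp, amp, cfg_symm_apply, M.xm4_sgn_cfg]

theorem xm4_fock_submatrix (π : Equiv.Perm V) (t : V → V → ℝ) (θ : V → ℝ) {b b' : V → Bool}
    (hb : ∀ x, b' (π x) = b x) :
    (M.fock t θ b).submatrix (cfg m π).symm (cfg m π).symm =
      M.fock (fun u a => t (π.symm u) (π.symm a)) (fun x => θ (π.symm x)) b' := by
  rw [fock, fock]
  ext σ τ
  rw [Matrix.submatrix_apply, Matrix.sum_apply, Matrix.sum_apply]
  refine Fintype.sum_equiv π _ _ fun x => ?_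
  rw [Matrix.smul_apply, Matrix.smul_apply, Equiv.symm_apply_apply, hb, ← M.hop_submatrix,
    Matrix.submatrix_apply]

theorem xm4_en_cfg (π : Equiv.Perm V) (θ : V → ℝ) {b b' : V → Bool} (hb : ∀ x, b' (π x) = b x)
    (σ : V → m) : M.en θ b ((cfg m π).symm σ) = M.en (fun x => θ (π.symm x)) b' σ := by
  rw [en, en]
  refine Fintype.sum_equiv π _ _ fun x => ?_
  rw [cfg_symm_apply, Equiv.symm_apply_apply, hb]

theorem xm4_loc_cfg (π : Equiv.Perm V) (U : Finset V) (σ : V → m) :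
    (cfg m π).symm σ ∈ M.loc U ↔ σ ∈ M.loc (U.map π.toEmbedding) := by
  rw [M.mem_loc, M.mem_loc]
  constructor
  · intro h x hx
    have := h (π.symm x) fun h2 => hx (Finset.mem_map_equiv.2 h2)
    rwa [cfg_symm_apply, Equiv.apply_symm_apply] at this
  · intro h x hx
    rw [cfg_symm_apply]
    refine h (π x) fun h2 => hx ?_
    have := Finset.mem_map_equiv.1 h2
    rwa [Equiv.symm_apply_apply] at this

omit [Fintype V] [DecidableEq V] [Fintype m] [DecidableEq m] in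
theorem xm4_vac_cfg (π : Equiv.Perm V) (σ : V → m) :
    (cfg m π).symm σ = M.vac V ↔ σ = M.vac V := by
  rw [Equiv.symm_apply_eq]
  rfl

omit [Fintype V] in
theorem xm4_b_map (d : FD V) (π : Equiv.Perm V) (x : V) : (d.map π).b (π x) = d.b x := by
  simp [FD.b, FD.map]

theorem X_submatrix (d : FD V) (π : Equiv.Perm V) :
    (M.X d).submatrix (cfg m π).symm (cfg m π).symm = M.X (d.map π) := by
  have hl := M.xm4_loc_cfg π d.U
  have hc : (pj ℂ (M.loc d.U)ᶜ).submatrix (cfg m π).symm (cfg m π).symm =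
      pj ℂ (M.loc (d.map π).U)ᶜ :=
    xm4_pj_submatrix _ fun σ => by
      rw [Finset.mem_compl, Finset.mem_compl]
      exact not_congr (hl σ)
  have a0 : (M.H0 d).submatrix (cfg m π).symm (cfg m π).symm = M.H0 (d.map π) := by
    rw [H0, H0, xm4_submatrix_add,
      M.xm4_fock_submatrix π d.t d.θ (b' := fun _ => false) fun _ => rfl,
      xm4_pj_submatrix (T := {M.vac V}) _ fun σ => by
        rw [Finset.mem_singleton, Finset.mem_singleton]
        exact M.xm4_vac_cfg π σ]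
    rfl
  have a1 : (M.H1 d).submatrix (cfg m π).symm (cfg m π).symm = M.H1 (d.map π) := by
    rw [H1, H1, xm4_submatrix_add, M.xm4_fock_submatrix π d.t d.θ (xm4_b_map d π), dr_submatrix]
    have : (fun σ => M.eps ((cfg m π).symm σ)) = M.eps := funext (M.xm4_eps_symm π)
    rw [this]
    rfl
  have k0 : (kk (M.h0 d) (M.loc d.U)).submatrix (cfg m π).symm (cfg m π).symm =
      kk (M.h0 (d.map π)) (M.loc (d.map π).U) :=
    xm4_kk_submatrix _ hl fun σ => by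
      rw [h0, h0, M.xm4_en_cfg π d.θ (b' := fun _ => false) fun _ => rfl,
        if_congr (M.xm4_vac_cfg π σ) rfl rfl]
      rfl
  have k1 : (kk (M.h1 d) (M.loc d.U)).submatrix (cfg m π).symm (cfg m π).symm =
      kk (M.h1 (d.map π)) (M.loc (d.map π).U) :=
    xm4_kk_submatrix _ hl fun σ => by
      rw [h1, h1, M.xm4_en_cfg π d.θ (xm4_b_map d π)]
      rfl
  rw [X, X, sg1, sg0, sg1, sg0, xm4_submatrix_mul, xm4_submatrix_add, xm4_submatrix_add,
    xm4_submatrix_mul, xm4_submatrix_mul, a0, a1, k0, k1, hc]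

end Mode

end Pool.Agent.Izumi
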