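import Pool.Agent.Lib.MP_b2135d_an.XD2

/-! Diagonal and weighted permutation matrices over a C*-algebra. -/

namespace Pool.Agent.Izumi

open scoped ComplexOrder Pointwise
open Pool.Agent.Lib.MP_f90f6c_an.H50

set_option linter.unusedSectionVars false

section Alg

variable {I R : Type} [Fintype I] [DecidableEq I] [Ring R]

theorem wp_mul_wp (φ ψ : I → I) (c d : I → R) :
    wp φ c * wp ψ d = wp (fun σ => ψ (φ σ)) fun σ => c σ * d (φ σ) := by
  ext σ τ
  simp only [wp, Matrix.mul_apply, Matrix.of_apply, ite_mul, zero_mul, Finset.sum_ite_eq',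
    Finset.mem_univ, if_true]
  rw [mul_ite, mul_zero]

theorem wp_id (c : I → R) : wp (fun σ => σ) c = Matrix.diagonal c := by
  ext σ τ
  simp [wp, Matrix.diagonal_apply, eq_comm]

theorem diagonal_mul_wp (f : I → R) (φ : I → I) (c : I → R) :
    Matrix.diagonal f * wp φ c = wp φ fun σ => f σ * c σ := by
  ext σ τ
  simp [wp]

theorem wp_mul_diagonal (φ : I → I) (c f : I → R) :
    wp φ c * Matrix.diagonal f = wp φ fun σ => c σ * f (φ σ) := by
  ext σ τ
  simp only [wp, Matrix.mul_diagonal, Matrix.of_apply]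
  split_ifs with h
  · rw [h]
  · rw [zero_mul]

theorem wp_add (φ : I → I) (c d : I → R) : wp φ c + wp φ d = wp φ fun σ => c σ + d σ := by
  ext σ τ
  simp only [wp, Matrix.add_apply, Matrix.of_apply]
  split_ifs <;> simp

theorem wp_sub (φ : I → I) (c d : I → R) : wp φ c - wp φ d = wp φ fun σ => c σ - d σ := by
  ext σ τ
  simp only [wp, Matrix.sub_apply, Matrix.of_apply]
  split_ifs <;> simp

theorem wp_neg (φ : I → I) (c : I → R) : -wp φ c = wp φ fun σ => -c σ := by
  ext σ τ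
  simp only [wp, Matrix.neg_apply, Matrix.of_apply]
  split_ifs <;> simp

theorem wp_zero (φ : I → I) : wp φ (fun _ => (0 : R)) = 0 := by
  ext σ τ
  simp [wp]

theorem wp_smul (a : ℂ) (φ : I → I) (c : I → ℂ) : a • wp φ c = wp φ fun σ => a * c σ := by
  ext σ τ
  simp [wp]

theorem wp_congr {φ ψ : I → I} {c d : I → R} (h : ∀ σ, c σ = d σ)
    (h' : ∀ σ, c σ ≠ 0 → φ σ = ψ σ) : wp φ c = wp ψ d := by
  ext σ τ
  simp only [wp, Matrix.of_apply, ← h σ]
  by_cases hc : c σ = 0
  · simp [hc]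
  · rw [h' σ hc]

theorem star_wp [StarRing R] {φ : I → I} (hφ : ∀ σ, φ (φ σ) = σ) (c : I → R) :
    star (wp φ c) = wp φ fun σ => star (c (φ σ)) := by
  ext σ τ
  simp only [wp, Matrix.star_apply, Matrix.of_apply]
  by_cases h : τ = φ σ
  · rw [if_pos h, if_pos (by rw [h, hφ]), h]
  · rw [if_neg h, if_neg (fun h' => h (by rw [h', hφ])), star_zero]

theorem wp_submatrix (e : Equiv.Perm I) (φ : I → I) (c : I → R) :
    (wp φ c).submatrix e.symm e.symm = wp (fun σ => e (φ (e.symm σ))) fun σ => c (e.symm σ) := by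
  ext σ τ
  simp only [wp, Matrix.submatrix_apply, Matrix.of_apply, Equiv.symm_apply_eq]

theorem pj_mul_pj (s t : Finset I) : pj R s * pj R t = pj R (s ∩ t) := by
  rw [pj, pj, pj, Matrix.diagonal_mul_diagonal]
  refine congrArg _ (funext fun σ => ?_)
  by_cases h : σ ∈ s <;> simp [h]

theorem pj_mul_self (s : Finset I) : pj R s * pj R s = pj R s := by
  rw [pj_mul_pj, Finset.inter_self]

theorem pj_compl (s : Finset I) : pj R sᶜ = 1 - pj R s := by
  rw [pj, pj, ← Matrix.diagonal_one, Matrix.diagonal_sub]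
  refine congrArg _ (funext fun σ => ?_)
  by_cases h : σ ∈ s <;> simp [h]

theorem star_pj [StarRing R] (s : Finset I) : star (pj R s) = pj R s := by
  rw [pj, Matrix.star_eq_conjTranspose, Matrix.diagonal_conjTranspose]
  refine congrArg _ (funext fun σ => ?_)
  by_cases h : σ ∈ s <;> simp [h]

theorem pj_commute_diagonal (s : Finset I) (f : I → R) :
    Commute (pj R s) (Matrix.diagonal f) := by
  rw [pj, Commute, SemiconjBy, Matrix.diagonal_mul_diagonal, Matrix.diagonal_mul_diagonal]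
  refine congrArg _ (funext fun σ => ?_)
  by_cases h : σ ∈ s <;> simp [h]

theorem pj_eq_dr (s : Finset I) : pj ℂ s = dr fun σ => if σ ∈ s then 1 else 0 := by
  rw [pj, dr]
  refine congrArg _ (funext fun σ => ?_)
  by_cases h : σ ∈ s <;> simp [h]

theorem dr_mul_dr (f g : I → ℝ) : dr f * dr g = dr fun σ => f σ * g σ := by
  simp only [dr, Matrix.diagonal_mul_diagonal, Complex.ofReal_mul]

theorem dr_add (f g : I → ℝ) : dr f + dr g = dr fun σ => f σ + g σ := by
  simp only [dr, Matrix.diagonal_add, Complex.ofReal_add]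

theorem dr_sub (f g : I → ℝ) : dr f - dr g = dr fun σ => f σ - g σ := by
  simp only [dr, Matrix.diagonal_sub, Complex.ofReal_sub]

theorem dr_one : dr (fun _ : I => (1 : ℝ)) = 1 := by
  simp only [dr, Complex.ofReal_one, Matrix.diagonal_one]

theorem star_dr (f : I → ℝ) : star (dr f) = dr f := by
  rw [dr, Matrix.star_eq_conjTranspose, Matrix.diagonal_conjTranspose]
  refine congrArg _ (funext fun σ => ?_)
  simp

theorem dr_commute (f g : I → ℝ) : Commute (dr f) (dr g) := by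
  rw [Commute, SemiconjBy, dr_mul_dr, dr_mul_dr]
  simp only [mul_comm]

theorem dr_submatrix (e : Equiv.Perm I) (f : I → ℝ) :
    (dr f).submatrix e.symm e.symm = dr fun σ => f (e.symm σ) := by
  rw [dr, dr, Matrix.submatrix_diagonal_equiv]
  rfl

/-- A matrix that commutes with a diagonal matrix commutes with every function of it. -/
theorem commute_dr_of_commute {M : Matrix I I ℂ} {f g : I → ℝ} (h : Commute M (dr f))
    (hfg : ∀ σ τ, f σ = f τ → g σ = g τ) : Commute M (dr g) := by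
  ext σ τ
  have h1 := congrFun (congrFun h.eq σ) τ
  simp only [dr, Matrix.mul_diagonal, Matrix.diagonal_mul] at h1 ⊢
  by_cases h0 : M σ τ = 0
  · rw [h0, zero_mul, mul_zero]
  · rw [mul_comm] at h1
    rw [hfg τ σ (Complex.ofReal_injective (mul_right_cancel₀ h0 h1)), mul_comm]

end Alg

section Norm

variable {I A : Type} [Fintype I] [DecidableEq I] [CStarAlgebra A] [PartialOrder A]
  [StarOrderedRing A]

theorem mp_apply {B : Type} [CStarAlgebra B] (φ : A →⋆ₐ[ℂ] B) (M : Matrix I I A) (σ τ : I) :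
    mp φ M σ τ = φ (M σ τ) := rfl

theorem sc_apply (M : Matrix I I ℂ) (σ τ : I) : sc A M σ τ = algebraMap ℂ A (M σ τ) := rfl

theorem mp_diagonal {B : Type} [CStarAlgebra B] (φ : A →⋆ₐ[ℂ] B) (f : I → A) :
    mp φ (Matrix.diagonal f) = Matrix.diagonal fun σ => φ (f σ) := by
  ext σ τ
  simp only [mp_apply, Matrix.diagonal_apply]
  split_ifs
  · rfl
  · exact map_zero φ

theorem mp_sc {B : Type} [CStarAlgebra B] (φ : A →⋆ₐ[ℂ] B) (M : Matrix I I ℂ) :
    mp φ (sc A M) = sc B M := by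
  ext σ τ
  exact φ.commutes (M σ τ)

theorem sc_pj (s : Finset I) : sc A (pj ℂ s) = pj A s := by
  rw [sc, pj, pj, mp_diagonal]
  refine congrArg _ (funext fun σ => ?_)
  by_cases h : σ ∈ s <;> simp [h]

theorem sc_diagonal (c : I → ℂ) :
    sc A (Matrix.diagonal c) = Matrix.diagonal fun σ => algebraMap ℂ A (c σ) := by
  exact mp_diagonal _ c

theorem sc_wp (φ : I → I) (c : I → ℂ) :
    sc A (wp φ c) = wp φ fun σ => algebraMap ℂ A (c σ) := by
  ext σ τ
  simp only [sc_apply, wp, Matrix.of_apply]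
  split_ifs
  · rfl
  · exact map_zero _

theorem sc_submatrix (e : Equiv.Perm I) (M : Matrix I I ℂ) :
    sc A (M.submatrix e.symm e.symm) = (sc A M).submatrix e.symm e.symm := by
  rfl

theorem sc_commute_cst (M : Matrix I I ℂ) (a : A) : Commute (sc A M) (cst a) := by
  ext σ τ
  simp only [cst, Matrix.mul_diagonal, Matrix.diagonal_mul, sc_apply]
  exact Algebra.commutes _ _

theorem norm_sc_le (M : Matrix I I ℂ) : ‖sc A M‖ ≤ ‖M‖ := by
  exact NonUnitalStarAlgHom.norm_apply_le (sc A) M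

variable (I A) in
/-- The diagonal embedding. -/
noncomputable def xw_diag : (I → A) →⋆ₐ[ℂ] Matrix I I A :=
  { Matrix.diagonalAlgHom ℂ with
    map_star' := fun f => (Matrix.diagonal_conjTranspose f).symm }

variable (A) in
/-- Reindexing along a permutation. -/
noncomputable def xw_sub (e : Equiv.Perm I) : Matrix I I A →⋆ₐ[ℂ] Matrix I I A :=
  { (Matrix.reindexAlgEquiv ℂ A e : Matrix I I A →ₐ[ℂ] Matrix I I A) with
    map_star' := fun _ => rfl }

theorem norm_diagonal_le {f : I → A} {c : ℝ} (hc : 0 ≤ c) (h : ∀ σ, ‖f σ‖ ≤ c) :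
    ‖Matrix.diagonal f‖ ≤ c := by
  exact (NonUnitalStarAlgHom.norm_apply_le (xw_diag I A) f).trans
    ((pi_norm_le_iff_of_nonneg hc).2 h)

theorem norm_pj_le (s : Finset I) : ‖pj A s‖ ≤ 1 := by
  refine norm_diagonal_le zero_le_one fun σ => ?_
  split_ifs
  · exact (IsStarProjection.one A).norm_le
  · rw [norm_zero]
    exact zero_le_one

theorem norm_wp_le {φ : I → I} (hφ : Function.Injective φ) {f : I → A} {c : ℝ} (hc : 0 ≤ c)
    (h : ∀ σ, ‖f σ‖ ≤ c) : ‖wp φ f‖ ≤ c := by
  have h1 : wp φ f * star (wp φ f) = Matrix.diagonal fun σ => f σ * star (f σ) := by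
    ext σ τ
    simp only [wp, Matrix.mul_apply, Matrix.star_apply, Matrix.of_apply, Matrix.diagonal_apply,
      ite_mul, zero_mul, Finset.sum_ite_eq', Finset.mem_univ, if_true, hφ.eq_iff]
    split_ifs with h2
    · rw [h2]
    · rw [star_zero, mul_zero]
  have h2 : ‖wp φ f‖ * ‖wp φ f‖ ≤ c * c := by
    rw [← CStarRing.norm_self_mul_star, h1]
    refine norm_diagonal_le (mul_nonneg hc hc) fun σ => ?_
    rw [CStarRing.norm_self_mul_star]
    exact mul_self_le_mul_self (norm_nonneg _) (h σ)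
  exact (mul_self_le_mul_self_iff (norm_nonneg _) hc).2 h2

theorem norm_submatrix (e : Equiv.Perm I) (M : Matrix I I A) :
    ‖M.submatrix e.symm e.symm‖ = ‖M‖ := by
  refine NonUnitalStarAlgHom.norm_map (xw_sub A e) (fun M N h => ?_) M
  exact (Matrix.reindex e e).injective h

theorem norm_dr_le {f : I → ℝ} {c : ℝ} (hc : 0 ≤ c) (h : ∀ σ, |f σ| ≤ c) : ‖dr f‖ ≤ c := by
  refine norm_diagonal_le hc fun σ => ?_
  rw [Complex.norm_real]
  exact h σ

theorem abs_le_norm_dr (f : I → ℝ) (σ : I) : |f σ| ≤ ‖dr f‖ := by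
  have h := norm_entry_le (dr f) σ σ
  rwa [show dr f σ σ = (f σ : ℂ) from Matrix.diagonal_apply_eq _ σ, Complex.norm_real] at h

/-- If `H* H` is diagonal, the norm of `H * dr f` is read off the diagonal. -/
theorem norm_mul_dr_le {H : Matrix I I ℂ} {q f : I → ℝ} (hH : star H * H = dr q) {c : ℝ}
    (hc : 0 ≤ c) (h : ∀ σ, f σ ^ 2 * q σ ≤ c ^ 2) : ‖H * dr f‖ ≤ c := by
  have h0 : ∀ σ, 0 ≤ q σ := by
    intro σ
    have h1 := congrFun (congrFun hH σ) σ
    rw [show dr q σ σ = (q σ : ℂ) from Matrix.diagonal_apply_eq _ σ, Matrix.mul_apply] at h1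
    rw [← Complex.zero_le_real, ← h1]
    exact Finset.sum_nonneg fun τ _ => star_mul_self_nonneg (H τ σ)
  have h1 : star (H * dr f) * (H * dr f) = dr fun σ => f σ ^ 2 * q σ := by
    rw [star_mul, star_dr, mul_assoc, ← mul_assoc (star H), hH, dr_mul_dr, dr_mul_dr]
    refine congrArg _ (funext fun σ => ?_)
    ring
  have h2 : ‖H * dr f‖ * ‖H * dr f‖ ≤ c * c := by
    rw [← CStarRing.norm_star_mul_self, h1]
    refine norm_dr_le (mul_nonneg hc hc) fun σ => ?_
    rw [abs_of_nonneg (mul_nonneg (sq_nonneg _) (h0 σ)), ← sq c]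
    exact h σ
  exact (mul_self_le_mul_self_iff (norm_nonneg _) hc).2 h2

theorem xw_sq {B : Type} [CStarAlgebra B] {u v : B} {η : ℝ} (hη : η ≤ 1) (hu : ‖u‖ ≤ 1)
    (hE : ‖v - u‖ ≤ η) : ‖star v * v - star u * u‖ ≤ 3 * η := by
  have hη0 : 0 ≤ η := (norm_nonneg _).trans hE
  have hv : ‖v‖ ≤ 2 := by
    have h1 := norm_le_norm_add_norm_sub u v
    rw [norm_sub_rev] at h1
    linarith
  have h2 : star v * v - star u * u = star (v - u) * v + star u * (v - u) := by
    rw [star_sub]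
    noncomm_ring
  have h3 : ‖star (v - u) * v‖ ≤ η * 2 := (norm_mul_le _ _).trans (by
    rw [norm_star]
    exact mul_le_mul hE hv (norm_nonneg _) hη0)
  have h4 : ‖star u * (v - u)‖ ≤ 1 * η := (norm_mul_le _ _).trans (by
    rw [norm_star]
    exact mul_le_mul hu hE (norm_nonneg _) zero_le_one)
  rw [h2]
  linarith [norm_add_le (star (v - u) * v) (star u * (v - u))]

/-- Perturbation of signs when both squares are diagonal. -/
theorem sign_diag {H H' : Matrix I I ℂ} {h h' : I → ℝ} {R : Finset I} {η : ℝ}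
    (hH : star H * H = dr fun σ => h σ ^ 2) (hH' : star H' * H' = dr fun σ => h' σ ^ 2)
    (hp : ∀ σ ∈ R, 0 < h σ) (hp' : ∀ σ ∈ R, 0 < h' σ) (hη : η ≤ 1)
    (hE : ‖(H' - H) * kk h R‖ ≤ η) : ‖H' * kk h' R - H * kk h R‖ ≤ 4 * η := by
  have hη0 : 0 ≤ η := (norm_nonneg _).trans hE
  have hsq : ∀ {K : Matrix I I ℂ} {q : I → ℝ}, star K * K = dr q →
      star (K * kk h R) * (K * kk h R) = dr fun σ => (if σ ∈ R then (h σ)⁻¹ else 0) ^ 2 * q σ := by
    intro K q hK
    rw [kk, star_mul, star_dr, mul_assoc, ← mul_assoc (star K), hK, dr_mul_dr, dr_mul_dr]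
    refine congrArg _ (funext fun σ => ?_)
    ring
  have hu : ‖H * kk h R‖ ≤ 1 := by
    refine norm_mul_dr_le hH zero_le_one fun σ => ?_
    split_ifs with hσ
    · rw [← mul_pow, inv_mul_cancel₀ (hp σ hσ).ne']
    · norm_num
  rw [sub_mul] at hE
  have h1 : ‖star (H' * kk h R) * (H' * kk h R) - star (H * kk h R) * (H * kk h R)‖ ≤ 3 * η :=
    xw_sq hη hu hE
  rw [hsq hH, hsq hH', dr_sub] at h1
  have h2 : ‖H' * kk h' R - H' * kk h R‖ ≤ 3 * η := by
    rw [← mul_sub, kk, kk, dr_sub]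
    refine norm_mul_dr_le hH' (by linarith) fun σ => ?_
    have h3 := (abs_le_norm_dr _ σ).trans h1
    by_cases hσ : σ ∈ R
    · simp only [if_pos hσ] at h3 ⊢
      have h4 : 0 < (h σ)⁻¹ * h' σ := mul_pos (inv_pos.2 (hp σ hσ)) (hp' σ hσ)
      rw [← mul_pow, ← mul_pow, inv_mul_cancel₀ (hp σ hσ).ne'] at h3
      rw [← mul_pow, sub_mul, inv_mul_cancel₀ (hp' σ hσ).ne']
      generalize (h σ)⁻¹ * h' σ = t at h3 h4
      obtain ⟨h5, h6⟩ := abs_le.1 h3
      refine sq_le_sq' ?_ ?_ <;> nlinarith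
    · simp only [if_neg hσ, sub_zero]
      rw [zero_pow two_ne_zero, zero_mul]
      positivity
  linarith [norm_sub_le_norm_sub_add_norm_sub (H' * kk h' R) (H' * kk h R) (H * kk h R)]

end Norm

end Pool.Agent.Izumi
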