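import Pool.Agent.Lib.MP_b2135d_an.YDefs
import Pool.Agent.Lib.MP_b2135d_an.CB
import Pool.Agent.Lib.MP_b2135d_an.CB2

/-! General C*-algebra tools (PLAN section YA). -/

namespace Pool.Agent.Izumi

open scoped ComplexOrder
open Filter Topology

variable {A : Type} [CStarAlgebra A] [PartialOrder A] [StarOrderedRing A]

theorem cfc_mul_eigen {b r : A} (hb : IsSelfAdjoint b) {c : ℝ} (h : b * r = c • r) {f : ℝ → ℝ}
    (hf : Continuous f) : cfc f b * r = f c • r := by
  by_cases hr : r = 0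
  · simp [hr]
  have hc : c ∈ spectrum ℝ b := by
    by_contra hn
    rw [spectrum.notMem_iff] at hn
    obtain ⟨u, hu⟩ := hn
    apply hr
    have h1 : (u : A) * r = 0 := by
      rw [hu, sub_mul, h, Algebra.algebraMap_eq_smul_one, smul_mul_assoc, one_mul, sub_self]
    exact (Units.mul_right_eq_zero u).1 h1
  have key : ∀ g : C(spectrum ℝ b, ℝ), cfcHom hb g * r = g ⟨c, hc⟩ • r := by
    intro g
    induction g using ContinuousMap.induction_on_of_compact with
    | const t =>
      have e : ContinuousMap.const (spectrum ℝ b) t = algebraMap ℝ _ t := rfl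
      rw [e, AlgHomClass.commutes, Algebra.algebraMap_eq_smul_one, smul_mul_assoc, one_mul]
      rfl
    | id => rw [cfcHom_id hb, h]; rfl
    | star_id => rw [map_star, cfcHom_id hb, hb.star_eq, h]; rfl
    | add f g hf hg => rw [map_add, add_mul, hf, hg, ← add_smul]; rfl
    | mul f g hf hg =>
      rw [map_mul, mul_assoc, hg, mul_smul_comm, hf, smul_smul, mul_comm]; rfl
    | frequently f hf =>
      refine hf.mem_of_closed (s := {g : C(spectrum ℝ b, ℝ) | cfcHom hb g * r = g ⟨c, hc⟩ • r}) ?_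
      have h1 : Continuous fun g : C(spectrum ℝ b, ℝ) => g ⟨c, hc⟩ := continuous_eval_const _
      exact isClosed_eq ((cfcHom_continuous hb).mul continuous_const) (h1.smul continuous_const)
  rw [cfc_apply f b hb hf.continuousOn, key]
  rfl

theorem cfc_mem_cent {T : Set A} {b : A} (hb : b ∈ cent T) (f : ℝ → ℝ) : cfc f b ∈ cent T := by
  rw [mem_cent] at hb ⊢
  exact fun t ht => ⟨(hb t ht).1.cfc_real f, (hb t ht).2.cfc_real f⟩

theorem hom_cfc {B : Type} [CStarAlgebra B] (φ : A →⋆ₐ[ℂ] B) {b : A} (hb : IsSelfAdjoint b)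
    {f : ℝ → ℝ} (hf : Continuous f) : φ (cfc f b) = cfc f (φ b) := by
  exact StarAlgHom.map_cfc φ f b hf.continuousOn (hom_continuous φ) hb (hb.map φ)

theorem aut_cfc (θ : A ≃⋆ₐ[ℂ] A) {b : A} (hb : IsSelfAdjoint b) {f : ℝ → ℝ}
    (hf : Continuous f) : θ (cfc f b) = cfc f (θ b) := by
  exact hom_cfc (θ : A →⋆ₐ[ℂ] A) hb hf

theorem le_of_mul_eq {e x : A} (he : 0 ≤ e) (h0 : 0 ≤ x) (h1 : x ≤ 1) (h : e * x = x) :
    x ≤ e := by
  have hx : x * e = x := by
    have := congrArg star h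
    rwa [star_mul, he.star_eq, h0.star_eq] at this
  have hc : Commute e (1 - x) := by
    refine (Commute.one_right e).sub_right ?_
    rw [Commute, SemiconjBy, h, hx]
  have := hc.mul_nonneg he (sub_nonneg.2 h1)
  rw [mul_sub, mul_one, h] at this
  exact sub_nonneg.1 this

theorem mul_eq_zero_of_le_one_sub {e a v : A} (he : 0 ≤ e) (h : e ≤ 1 - a) (hv : a * v = v) :
    e * v = 0 := by
  have h1 : star v * e * v ≤ star v * (1 - a) * v := star_left_conjugate_le_conjugate h v
  have h2 : star v * (1 - a) * v = 0 := by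
    rw [mul_assoc, sub_mul, one_mul, hv, sub_self, mul_zero]
  have h3 : star v * e * v = 0 :=
    le_antisymm (h2 ▸ h1) (star_left_conjugate_nonneg he v)
  have hs : CFC.sqrt e * CFC.sqrt e = e := CFC.sqrt_mul_sqrt_self e he
  have h4 : star (CFC.sqrt e * v) * (CFC.sqrt e * v) = 0 := by
    rw [star_mul, (CFC.sqrt_nonneg e).star_eq, mul_assoc, ← mul_assoc (CFC.sqrt e), hs,
      ← mul_assoc, h3]
  have h5 : CFC.sqrt e * v = 0 := CStarRing.star_mul_self_eq_zero_iff _ |>.1 h4
  rw [← hs, mul_assoc, h5, mul_zero]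

theorem exists_sa_parts (x : A) : ∃ a b : A, IsSelfAdjoint a ∧ IsSelfAdjoint b ∧
    x = a + Complex.I • b ∧ ‖a‖ ≤ ‖x‖ ∧ ‖b‖ ≤ ‖x‖ ∧
      ∀ C : StarSubalgebra ℂ A, x ∈ C → a ∈ C ∧ b ∈ C := by
  refine ⟨realPart x, imaginaryPart x, (realPart x).2, (imaginaryPart x).2,
    (realPart_add_I_smul_imaginaryPart x).symm, realPart.norm_le x, imaginaryPart.norm_le x,
    fun C hx => ⟨?_, ?_⟩⟩
  · rw [realPart_apply_coe, ← Complex.coe_smul]
    exact SMulMemClass.smul_mem _ (add_mem hx (star_mem hx))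
  · rw [imaginaryPart_apply_coe, ← Complex.coe_smul]
    exact SMulMemClass.smul_mem _ (SMulMemClass.smul_mem _ (sub_mem hx (star_mem hx)))

theorem exists_sqrt {e : A} (he : 0 ≤ e) : ∃ r : A, 0 ≤ r ∧ r * r = e ∧
    (∀ t, Commute e t → Commute r t) ∧ ∀ T : Set A, e ∈ cent T → r ∈ cent T := by
  have hc : ∀ t, Commute e t → Commute (CFC.sqrt e) t := fun t ht => by
    rw [CFC.sqrt_eq_cfc]
    exact ht.cfc_nnreal _
  refine ⟨CFC.sqrt e, CFC.sqrt_nonneg e, CFC.sqrt_mul_sqrt_self e he, hc, fun T hT => ?_⟩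
  rw [mem_cent] at hT ⊢
  exact fun t ht => ⟨hc _ (hT t ht).1, hc _ (hT t ht).2⟩

theorem mul_between {a b : A} (ha : 0 ≤ a) (ha1 : a ≤ 1) (hb : 0 ≤ b) (hb1 : b ≤ 1)
    (h : Commute a b) : 0 ≤ a * b ∧ a * b ≤ a ∧ a * b ≤ b ∧ a * b ≤ 1 := by
  have h1 : a * b ≤ a := by
    have := ((Commute.one_right a).sub_right h).mul_nonneg ha (sub_nonneg.2 hb1)
    rw [mul_sub, mul_one] at this
    exact sub_nonneg.1 this
  have h2 : a * b ≤ b := by
    have := ((Commute.one_left b).sub_left h).mul_nonneg (sub_nonneg.2 ha1) hb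
    rw [sub_mul, one_mul] at this
    exact sub_nonneg.1 this
  exact ⟨h.mul_nonneg ha hb, h1, h2, h1.trans ha1⟩

theorem norm_le_one_of_isom {s : A} (h : star s * s = 1) : ‖s‖ ≤ 1 := by
  exact norm_le_one_of_star_mul_self (IsStarProjection.one A) h

/-- A countable set has the same commutant as a countable set of unitaries. -/
theorem exists_unitaries {S : Set A} (hS : S.Countable) :
    ∃ U : Set A, U.Countable ∧ (∀ u ∈ U, u ∈ unitary A) ∧
      ∀ x, (∀ u ∈ U, Commute x u) → x ∈ cent S := by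
  choose u c hu _ using fun t : A => CStarAlgebra.exists_sum_four_unitary t
  refine ⟨⋃ t ∈ S, Set.range fun i => (u t i : A), hS.biUnion fun t _ => Set.countable_range _,
    ?_, fun x hx => ?_⟩
  · intro v hv
    simp only [Set.mem_iUnion, Set.mem_range] at hv
    obtain ⟨t, -, i, rfl⟩ := hv
    exact (u t i).2
  · rw [mem_cent]
    intro t ht
    have h1 : ∀ i, Commute x (u t i : A) := fun i =>
      hx _ (Set.mem_biUnion ht ⟨i, rfl⟩)
    have h2 : ∀ i, Commute x (star (u t i : A)) := fun i => by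
      have e1 := (u t i).2.1
      have e2 := (u t i).2.2
      calc x * star (u t i : A) = star (u t i : A) * (u t i : A) * x * star (u t i : A) := by
            rw [e1, one_mul]
        _ = star (u t i : A) * x * ((u t i : A) * star (u t i : A)) := by
            rw [mul_assoc (star (u t i : A)), ← (h1 i).eq]; simp only [mul_assoc]
        _ = star (u t i : A) * x := by rw [e2, mul_one]
    constructor
    · rw [hu t]
      exact Commute.sum_right _ _ _ fun i _ => (h1 i).smul_right _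
    · rw [hu t, star_sum]
      exact Commute.sum_right _ _ _ fun i _ => by
        rw [star_smul]; exact (h2 i).smul_right _

theorem exists_glue_sum {D ι : Type} [CStarAlgebra D] (s : Finset ι) (q : ι → A)
    (hq : ∀ i ∈ s, IsStarProjection (q i)) (ho : ∀ i ∈ s, ∀ j ∈ s, i ≠ j → q i * q j = 0)
    (φ : ι → D →⋆ₐ[ℂ] A) (φ₀ : D →⋆ₐ[ℂ] A) (hc : ∀ i ∈ s, ∀ x, Commute (φ i x) (q i))
    (h0 : ∀ i ∈ s, ∀ x, Commute (φ₀ x) (q i)) :
    ∃ φ' : D →⋆ₐ[ℂ] A, ∀ x, φ' x = ∑ i ∈ s, φ i x * q i + φ₀ x * (1 - ∑ i ∈ s, q i) := by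
  have hQ : IsStarProjection (∑ i ∈ s, q i) := isStarProjection_sum_aux s q hq ho
  set Q := ∑ i ∈ s, q i with hQd
  have hP : IsStarProjection (1 - Q) := hQ.one_sub
  have hqQ : ∀ i ∈ s, q i * Q = q i := fun i hi => by
    rw [hQd, Finset.mul_sum, Finset.sum_eq_single_of_mem i hi
      fun j hj e => ho i hi j hj (Ne.symm e), (hq i hi).isIdempotentElem.eq]
  have hQq : ∀ i ∈ s, Q * q i = q i := fun i hi => by
    rw [hQd, Finset.sum_mul, Finset.sum_eq_single_of_mem i hi
      fun j hj e => ho j hj i hi e, (hq i hi).isIdempotentElem.eq]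
  have h1 : ∀ i ∈ s, q i * (1 - Q) = 0 := fun i hi => by
    rw [mul_sub, mul_one, hqQ i hi, sub_self]
  have h2 : ∀ i ∈ s, (1 - Q) * q i = 0 := fun i hi => by
    rw [sub_mul, one_mul, hQq i hi, sub_self]
  have h3 : ∀ x, Commute (φ₀ x) (1 - Q) := fun x =>
    (Commute.one_right _).sub_right (Commute.sum_right _ _ _ fun i hi => h0 i hi x)
  refine ⟨{ toFun := fun x => ∑ i ∈ s, φ i x * q i + φ₀ x * (1 - Q)
            map_one' := ?_
            map_mul' := fun x y => ?_
            map_zero' := by simp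
            map_add' := fun x y => ?_
            commutes' := fun c => ?_
            map_star' := fun x => ?_ }, fun x => rfl⟩
  · simp only [map_one, one_mul]
    rw [← hQd, add_sub_cancel]
  · have e1 : (∑ i ∈ s, φ i x * q i) * (φ₀ y * (1 - Q)) = 0 := by
      rw [Finset.sum_mul]
      refine Finset.sum_eq_zero fun i hi => ?_
      rw [(h3 y).eq, mul_assoc, ← mul_assoc (q i), h1 i hi, zero_mul, mul_zero]
    have e2 : φ₀ x * (1 - Q) * (∑ i ∈ s, φ i y * q i) = 0 := by
      rw [Finset.mul_sum]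
      refine Finset.sum_eq_zero fun i hi => ?_
      rw [(hc i hi y).eq, mul_assoc, ← mul_assoc (1 - Q), h2 i hi, zero_mul, mul_zero]
    have e3 : φ₀ x * (1 - Q) * (φ₀ y * (1 - Q)) = φ₀ x * φ₀ y * (1 - Q) := by
      rw [mul_assoc, ← mul_assoc (1 - Q), ← (h3 y).eq, mul_assoc (φ₀ y),
        hP.isIdempotentElem.eq, mul_assoc]
    rw [add_mul, mul_add, mul_add, e1, e2, e3,
      glue_mul s q (fun i => φ i x) (fun i => φ i y) hq ho fun i hi => hc i hi y]
    simp only [map_mul, add_zero, zero_add]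
  · simp only [map_add, add_mul, Finset.sum_add_distrib]
    abel
  · simp only [AlgHomClass.commutes]
    rw [← Finset.mul_sum, ← hQd, ← mul_add, add_sub_cancel, mul_one]
  · rw [star_add, glue_star s q (fun i => φ i x) hq fun i hi => hc i hi x, (h3 x).eq, star_mul,
      hP.isSelfAdjoint.star_eq]
    simp only [map_star]

/-- A countable test set for the commutant of the range of a homomorphism. -/
theorem exists_test {D : Type} [CStarAlgebra D] [TopologicalSpace.SeparableSpace D]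
    (p : D →⋆ₐ[ℂ] A) :
    ∃ T : Set A, T.Countable ∧ T ⊆ Set.range p ∧ cent T = cent (Set.range p) := by
  obtain ⟨s, hs, hd⟩ := TopologicalSpace.exists_countable_dense D
  refine ⟨p '' s, hs.image _, Set.image_subset_range _ _, le_antisymm ?_
    (cent_anti (Set.image_subset_range _ _))⟩
  intro x hx
  rw [mem_cent_range]
  have hcl : IsClosed {d : D | Commute x (p d)} :=
    isClosed_eq (continuous_const.mul (hom_continuous p)) ((hom_continuous p).mul continuous_const)
  intro d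
  exact hd.induction (fun d hd => (mem_cent.1 hx _ ⟨d, hd, rfl⟩).1) hcl d

theorem exists_test_inv {G D : Type} [Group G] [Countable G] [CStarAlgebra D]
    [TopologicalSpace.SeparableSpace D] (γ : G →* (A ≃⋆ₐ[ℂ] A)) (p : D →⋆ₐ[ℂ] A)
    (hp : ∀ g x, ∃ y, γ g (p x) = p y) :
    ∃ T : Set A, T.Countable ∧ (∀ g, ∀ t ∈ T, γ g t ∈ T) ∧ cent T = cent (Set.range p) := by
  obtain ⟨T, hT, hs, hc⟩ := exists_test p
  refine ⟨orb γ T, countable_orb γ hT, fun g t ht => act_mem_orb γ g ht, le_antisymm ?_ ?_⟩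
  · rw [← hc]
    exact cent_anti (subset_orb γ T)
  · refine cent_anti ?_
    rintro _ ⟨g, t, ht, rfl⟩
    obtain ⟨d, rfl⟩ := hs ht
    obtain ⟨y, hy⟩ := hp g d
    exact ⟨y, hy.symm⟩

/-- The submodule killed by `b` on both sides is an ideal in the sense of the core theorem. -/
theorem exists_ann {G : Type} [Group G] (γ : G →* (A ≃⋆ₐ[ℂ] A)) {T : Set A} {b : A}
    (hb : IsSelfAdjoint b) (hi : ∀ g, γ g b = b) (hT : ∀ c ∈ cent T, Commute c b) :
    ∃ N : Submodule ℂ A, IsIdl γ T N ∧ ∀ x, x ∈ N ↔ x * b = 0 ∧ b * x = 0 := by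
  refine ⟨{ carrier := {x | x * b = 0 ∧ b * x = 0}
            add_mem' := fun {x y} hx hy => ⟨by rw [add_mul, hx.1, hy.1, add_zero],
              by rw [mul_add, hx.2, hy.2, add_zero]⟩
            zero_mem' := ⟨zero_mul b, mul_zero b⟩
            smul_mem' := fun c x hx => ⟨by rw [smul_mul_assoc, hx.1, smul_zero],
              by rw [mul_smul_comm, hx.2, smul_zero]⟩ }, ⟨?_, ?_, ?_, ?_⟩, fun x => Iff.rfl⟩
  · exact (isClosed_eq (continuous_id.mul continuous_const) continuous_const).inter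
      (isClosed_eq (continuous_const.mul continuous_id) continuous_const)
  · intro c hc x hx
    exact ⟨by rw [mul_assoc, hx.1, mul_zero],
      by rw [← mul_assoc, ← (hT c hc).eq, mul_assoc, hx.2, mul_zero]⟩
  · intro x hx
    exact ⟨by rw [← hb.star_eq, ← star_mul, hx.2, star_zero],
      by rw [← hb.star_eq, ← star_mul, hx.1, star_zero]⟩
  · intro g x hx
    exact ⟨by rw [← hi g, ← map_mul, hx.1, map_zero], by rw [← hi g, ← map_mul, hx.2, map_zero]⟩

end Pool.Agent.Izumi
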