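import Pool.Agent.Lib.MP_b2135d_an.YS4
import Pool.Agent.Lib.MP_b2135d_an.YA
import Pool.Agent.Lib.MP_b2135d_an.SA

/-! Consequences of saturation (PLAN section YB). -/

namespace Pool.Agent.Izumi

open scoped ComplexOrder
open Filter Topology

variable {G D A : Type} [Group G] [CStarAlgebra D] [PartialOrder D] [StarOrderedRing D]
  [CStarAlgebra A] [PartialOrder A] [StarOrderedRing A]

theorem yb_norm_unitary {B : Type} [CStarAlgebra B] {u : B} (hu : u ∈ unitary B) : ‖u‖ ≤ 1 := by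
  rcases subsingleton_or_nontrivial B with h | h
  · rw [Subsingleton.elim u 0, norm_zero]
    exact zero_le_one
  · exact (CStarRing.norm_of_mem_unitary hu).le

theorem yb_conj_mul {B : Type} [CStarAlgebra B] {u : B} (hu : u ∈ unitary B) (x y : B) :
    u * x * star u * (u * y * star u) = u * (x * y) * star u := by
  have h : star u * u = 1 := Unitary.star_mul_self_of_mem hu
  calc u * x * star u * (u * y * star u) = u * x * (star u * u) * y * star u := by
        simp only [mul_assoc]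
    _ = u * (x * y) * star u := by rw [h, mul_one, mul_assoc u x y]

theorem yb_conj_commute {B : Type} [CStarAlgebra B] {u : B} (hu : u ∈ unitary B) {x y : B}
    (h : Commute x y) : Commute (u * x * star u) (u * y * star u) := by
  unfold Commute SemiconjBy
  rw [yb_conj_mul hu, yb_conj_mul hu, h.eq]

theorem yb_conj_fix {B : Type} [CStarAlgebra B] {u : B} (hu : u ∈ unitary B) {x : B}
    (h : Commute u x) : u * x * star u = x := by
  rw [h.eq, mul_assoc, Unitary.mul_star_self_of_mem hu, mul_one]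

theorem Saturated.sat_uni {τ : A →ₚ[ℂ] ℂ} {γ : G →* (A ≃⋆ₐ[ℂ] A)} (h : Saturated τ γ) {E : Type}
    [TopologicalSpace E] [TopologicalSpace.SeparableSpace E] {T : Set A} (hT : T.Countable)
    (φ₁ φ₂ : E → A) (h₁ : Continuous φ₁) (h₂ : Continuous φ₂)
    (H : ∀ (s : Finset E) (ε : ℝ), 0 < ε → ∃ u ∈ unitary A, u ∈ cent T ∧
      ∀ x ∈ s, ‖u * φ₁ x * star u - φ₂ x‖ ≤ ε) :
    ∃ u ∈ unitary A, u ∈ cent T ∧ ∀ x, u * φ₁ x * star u = φ₂ x := by
  classical
  obtain ⟨Q, hQc, hQd⟩ := TopologicalSpace.exists_countable_dense E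
  have : Countable Q := hQc.to_subtype
  let f : Q → (Unit → A) → A := fun d x => x () * φ₁ d * star (x ()) - φ₂ d
  have hf : ∀ k, IsTerm γ (f k) := fun d =>
    (((IsTerm.var ()).mul (IsTerm.const (φ₁ d))).mul (IsTerm.var ()).star).sub
      (IsTerm.const (φ₂ d))
  have hP : Defn τ γ (fun x : Unit → A => x () ∈ unitary A ∧ x () ∈ cent T) :=
    (Defn.unitary (IsTerm.var ())).and (Defn.mem_cent hT (IsTerm.var ()))
  obtain ⟨x, -, ⟨hxu, hxc⟩, hx⟩ := h.approx_eq (fun _ => (1 : ℝ)) hP f hf (by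
    intro s ε hε
    obtain ⟨u, hu, huc, he⟩ := H (s.image Subtype.val) ε hε
    exact ⟨fun _ => u, fun _ => yb_norm_unitary hu, ⟨hu, huc⟩,
      fun d hd => he d (Finset.mem_image_of_mem _ hd)⟩)
  refine ⟨x (), hxu, hxc, ?_⟩
  have hcl : IsClosed {e : E | x () * φ₁ e * star (x ()) = φ₂ e} :=
    isClosed_eq ((continuous_const.mul h₁).mul continuous_const) h₂
  have hsub : Q ⊆ {e : E | x () * φ₁ e * star (x ()) = φ₂ e} := fun d hd =>
    sub_eq_zero.1 (hx ⟨d, hd⟩)
  intro e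
  exact hcl.closure_subset_iff.2 hsub (hQd e)

theorem Saturated.sat_cmp {τ : A →ₚ[ℂ] ℂ} {γ : G →* (A ≃⋆ₐ[ℂ] A)} (h : Saturated τ γ) (p a : A)
    (H : ∀ ε : ℝ, 0 < ε → ∃ s : A, ‖star s * s - p‖ ≤ ε ∧ ‖a * s - s‖ ≤ ε) :
    ∃ s : A, star s * s = p ∧ a * s = s := by
  classical
  let f : Bool → (Unit → A) → A := fun k => match k with
    | true => fun x => star (x ()) * x () - p
    | false => fun x => a * x () - x ()
  have hf : ∀ k, IsTerm γ (f k) := by
    rintro (_ | _)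
    · exact ((IsTerm.const a).mul (IsTerm.var ())).sub (IsTerm.var ())
    · exact ((IsTerm.var ()).star.mul (IsTerm.var ())).sub (IsTerm.const p)
  have hP : Defn τ γ (fun _ : Unit → A => True) := Defn.const True
  obtain ⟨x, -, -, hx⟩ := h.approx_eq (fun _ => √(‖p‖ + 1)) hP f hf (by
    intro s ε hε
    obtain ⟨y, h1, h2⟩ := H (min ε 1) (lt_min hε one_pos)
    refine ⟨fun _ => y, fun _ => ?_, trivial, ?_⟩
    · apply Real.le_sqrt_of_sq_le
      have e1 : ‖star y * y‖ ≤ ‖star y * y - p‖ + ‖p‖ := norm_le_norm_sub_add _ _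
      rw [CStarRing.norm_star_mul_self] at e1
      have e2 := h1.trans (min_le_right _ _)
      nlinarith
    · rintro (_ | _) -
      · exact h2.trans (min_le_left _ _)
      · exact h1.trans (min_le_left _ _))
  exact ⟨x (), sub_eq_zero.1 (hx true), sub_eq_zero.1 (hx false)⟩

theorem Amb.flip0 (X : Amb G D A) {T : Set A} (hT : T.Countable) (p q : D →⋆ₐ[ℂ] A)
    (hp : ∀ x, p x ∈ cent T) (hq : ∀ x, q x ∈ cent T) (hpq : ∀ x y, Commute (p x) (q y)) :
    ∃ u ∈ unitary A, u ∈ cent T ∧ ∀ x, u * p x * star u = q x := by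
  have := X.S.sep
  exact X.sat.sat_uni hT p q (hom_continuous p) (hom_continuous q) fun s ε hε =>
    X.S.flip_mem p q hpq (isClosed_cent T) hp hq s hε

theorem Amb.uni0 (X : Amb G D A) {T : Set A} (hT : T.Countable) (p q : D →⋆ₐ[ℂ] A)
    (hp : ∀ x, p x ∈ cent T) (hq : ∀ x, q x ∈ cent T) :
    ∃ u ∈ unitary A, u ∈ cent T ∧ ∀ x, u * p x * star u = q x := by
  have := X.S.sep
  obtain ⟨Tp, hp1, -, hp2⟩ := exists_test p
  obtain ⟨Tq, hq1, -, hq2⟩ := exists_test q
  obtain ⟨r, hr⟩ := X.emb (T ∪ (Tp ∪ Tq)) (hT.union (hp1.union hq1))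
  have hrT : ∀ x, r x ∈ cent T := fun x => (mem_cent_union.1 (hr x)).1
  have hrp : ∀ x y, Commute (r x) (p y) := fun x =>
    mem_cent_range.1 (hp2 ▸ (mem_cent_union.1 (mem_cent_union.1 (hr x)).2).1)
  have hrq : ∀ x y, Commute (r x) (q y) := fun x =>
    mem_cent_range.1 (hq2 ▸ (mem_cent_union.1 (mem_cent_union.1 (hr x)).2).2)
  obtain ⟨u₁, hu₁, hc₁, e₁⟩ := X.flip0 hT p r hp hrT fun x y => (hrp y x).symm
  obtain ⟨u₂, hu₂, hc₂, e₂⟩ := X.flip0 hT r q hrT hq hrq
  refine ⟨u₂ * u₁, mul_mem hu₂ hu₁, mul_mem hc₂ hc₁, fun x => ?_⟩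
  rw [← e₂, ← e₁, star_mul]
  simp only [mul_assoc]

theorem Amb.rel (X : Amb G D A) (χ : D →⋆ₐ[ℂ] A) {e a s₀ : A} (he : e ∈ cent (Set.range χ))
    (ha : a ∈ cent (Set.range χ)) (h₁ : star s₀ * s₀ = e) (h₂ : a * s₀ = s₀) :
    ∃ s ∈ cent (Set.range χ), star s * s = e ∧ a * s = s := by
  have hT : ({e, a} : Set A).Countable := (Set.toFinite _).countable
  obtain ⟨r, hr⟩ := X.emb ({e, a} ∪ {s₀}) (Set.toFinite _).countable
  have hχ : ∀ x, χ x ∈ cent ({e, a} : Set A) := by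
    intro x
    rw [mem_cent]
    rintro t (rfl | rfl)
    · exact ⟨(mem_cent_range.1 he x).symm, (mem_cent_range.1 (star_mem he) x).symm⟩
    · exact ⟨(mem_cent_range.1 ha x).symm, (mem_cent_range.1 (star_mem ha) x).symm⟩
  obtain ⟨Y, hY, hYc, hYe⟩ := X.uni0 hT r χ (fun x => (mem_cent_union.1 (hr x)).1) hχ
  have hYe' : Commute Y e := (mem_cent.1 hYc e (Or.inl rfl)).1
  have hYa : Commute Y a := (mem_cent.1 hYc a (Or.inr rfl)).1
  refine ⟨Y * s₀ * star Y, mem_cent_range.2 fun d => ?_, ?_, ?_⟩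
  · rw [← hYe]
    exact yb_conj_commute hY (mem_cent.1 (mem_cent_union.1 (hr d)).2 s₀ rfl).1.symm
  · have : star (Y * s₀ * star Y) = Y * star s₀ * star Y := by
      rw [star_mul, star_mul, star_star, mul_assoc]
    rw [this, yb_conj_mul hY, h₁, yb_conj_fix hY hYe']
  · conv_lhs => rw [← yb_conj_fix hY hYa]
    rw [yb_conj_mul hY, h₂]

/-- A unitary that moves a given element into the commutant of a copy of `D`. -/
theorem Amb.exists_move (X : Amb G D A) (p : D →⋆ₐ[ℂ] A) (c : A) :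
    ∃ z ∈ unitary A, z * c * star z ∈ cent (Set.range p) := by
  obtain ⟨r, hr⟩ := X.emb {c} (Set.countable_singleton c)
  have h0 : ∀ x : A, x ∈ cent (∅ : Set A) := fun x => mem_cent.2 fun t ht => ht.elim
  obtain ⟨z, hz, -, e⟩ := X.uni0 Set.countable_empty r p (fun _ => h0 _) fun _ => h0 _
  refine ⟨z, hz, mem_cent_range.2 fun d => ?_⟩
  rw [← e]
  exact yb_conj_commute hz (mem_cent.1 (hr d) c rfl).1.symm

end Pool.Agent.Izumi
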