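import Pool.Agent.Lib.MP_b2135d_an.YDefs
import Pool.Agent.Lib.MP_b2135d_an.XMain

/-! The two forms of the core theorem (PLAN section YC). -/

namespace Pool.Agent.Izumi

open scoped ComplexOrder
open Filter Topology

variable {G D A : Type} [Group G] [Countable G] [CStarAlgebra D] [PartialOrder D]
  [CStarAlgebra A] [PartialOrder A] [StarOrderedRing A]

theorem Amb.coreUni (X : Amb G D A) (htf : ∀ g : G, IsOfFinOrder g → g = 1) (hf : Foel G) {L : ℝ}
    (hL : X.S.toDData.Path L) : CoreUni X.γ D := by
  intro T T' N hP ρ φ₁ φ₂ h₁ h₂ e₁ e₂ hN hH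
  have := X.S.sep
  letI : MulAction G Bool :=
    { smul := fun _ b => b, one_smul := fun _ => rfl, mul_smul := fun _ _ _ => rfl }
  let Z : UCGData G D A Bool :=
    { tf := htf, foel := hf, S := X.S.toDData, L := L, path := hL, ρ := ρ, τ := X.τ, γ := X.γ,
      sat := X.sat, emb := X.emb, T := T, T' := T', sub := hP.sub, count := hP.count,
      inv := hP.inv, inv' := hP.inv', N := N, idl := hP.idl,
      Φ := fun b => cond b φ₂ φ₁
      Φ_mem := by
        rintro (_ | _) x
        exacts [h₁ x, h₂ x]
      Φ_act := by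
        rintro g (_ | _) x
        exacts [e₁ g x, e₂ g x]
      i₀ := true
      Φ_sub := by
        rintro (_ | _) x
        · exact hN x
        · change φ₂ x - φ₂ x ∈ N
          rw [sub_self]
          exact N.zero_mem
      hole := hH }
  obtain ⟨U, hu, hc, ha, he⟩ := ucg Z
  refine ⟨star (U true) * U false, mul_mem (Unitary.star_mem (hu _)) (hu _),
    mul_mem (star_mem (hc _)) (hc _), fun g => ?_, fun x => ?_⟩
  · have h3 : X.γ g (U true) = U true := ha g true
    have h4 : X.γ g (U false) = U false := ha g false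
    rw [map_mul, map_star, h3, h4]
  · have h3 : U false * φ₁ x * star (U false) = U true * φ₂ x * star (U true) := he false x
    have h4 : star (U true) * U true = 1 := (hu true).1
    calc star (U true) * U false * φ₁ x * star (star (U true) * U false)
        = star (U true) * (U false * φ₁ x * star (U false)) * U true := by
          rw [star_mul, star_star]; simp only [mul_assoc]
      _ = (star (U true) * U true) * φ₂ x * (star (U true) * U true) := by
          rw [h3]; simp only [mul_assoc]
      _ = φ₂ x := by rw [h4, one_mul, mul_one]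

theorem Amb.coreEmb (X : Amb G D A) (htf : ∀ g : G, IsOfFinOrder g → g = 1) (hf : Foel G) {L : ℝ}
    (hL : X.S.toDData.Path L) : CoreEmb X.γ D := by
  intro T T' N hP ρ φ h₁ hN hH
  have := X.S.sep
  have e1 : twist X.γ ρ 1 φ = φ := StarAlgHom.ext fun x => twist_one X.γ ρ φ x
  let Z : UCGData G D A G :=
    { tf := htf, foel := hf, S := X.S.toDData, L := L, path := hL, ρ := ρ, τ := X.τ, γ := X.γ,
      sat := X.sat, emb := X.emb, T := T, T' := T', sub := hP.sub, count := hP.count,
      inv := hP.inv, inv' := hP.inv', N := N, idl := hP.idl,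
      Φ := fun g => twist X.γ ρ g φ
      Φ_mem := fun g x => act_mem_cent X.γ g (hP.inv' g⁻¹) (h₁ _)
      Φ_act := fun g i x => twist_act X.γ ρ g i φ x
      i₀ := 1
      Φ_sub := fun g x => by
        have h := hN g (ρ g⁻¹ x)
        rw [act_act_inv] at h
        rw [twist_one, twist_apply]
        exact h
      hole := by rw [e1]; exact hH }
  obtain ⟨U, hu, hc, ha, he⟩ := ucg Z
  refine ⟨(adHom (hu 1)).comp φ, fun x => ?_, fun g x => ?_⟩
  · change U 1 * φ x * star (U 1) ∈ cent T
    exact mul_mem (mul_mem (hc 1) (cent_anti hP.sub (h₁ x))) (star_mem (hc 1))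
  · change U 1 * φ (ρ g x) * star (U 1) = X.γ g (U 1 * φ x * star (U 1))
    have h3 : X.γ g (U 1) = U (g * 1) := ha g 1
    have h4 : U g * twist X.γ ρ g φ (ρ g x) * star (U g) =
        U 1 * twist X.γ ρ 1 φ (ρ g x) * star (U 1) := he g (ρ g x)
    rw [twist_one, twist_apply, act_inv_act] at h4
    rw [map_mul, map_mul, map_star, h3, mul_one, h4]

end Pool.Agent.Izumi
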