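import Pool.Agent.Lib.MP_b2135d_an.XDefs
import Pool.Agent.Lib.MP_b2135d_an.Defs2
import Pool.Agent.Lib.MP_b2135d_an.CA

/-! Internal definitions for the full theorem of MP_b2135d_an. -/

namespace Pool.Agent.Izumi

open scoped ComplexOrder
open Filter Topology

/-! ### The algebra `D` -/

/-- Approximate unitary equivalence. -/
def AU {E A : Type} [CStarAlgebra A] (f g : E → A) : Prop :=
  ∀ (s : Finset E) (ε : ℝ), 0 < ε → ∃ u ∈ unitary A, ∀ x ∈ s, ‖u * f x * star u - g x‖ ≤ ε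

/-- Working form of strong self-absorption. -/
structure SSA (D : Type) [CStarAlgebra D] [PartialOrder D] extends DData D where
  sep : TopologicalSpace.SeparableSpace D
  nontriv : Nontrivial D
  nonscalar : ∃ x : D, ∀ c : ℂ, x ≠ algebraMap ℂ D c
  slice : ∀ φ : D →ₚ[ℂ] ℂ, φ 1 = 1 →
    ∃ L : D →L[ℂ] D, (∀ x, ‖L x‖ ≤ ‖x‖) ∧ ∀ a b, L (al a * be b) = φ b • a
  au : AU (fun x : D => x) al
  flip : AU al be

/-- Every bounded tracial functional is a multiple of `τ`. -/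
def TrUniq {D : Type} [CStarAlgebra D] [PartialOrder D] (τ : D →ₚ[ℂ] ℂ) : Prop :=
  ∀ f : D →L[ℂ] ℂ, (∀ x y, f (x * y) = f (y * x)) → ∀ x, f x = f 1 * τ x

/-- Approximate form of the small-into-large comparison property. -/
def ASI {D : Type} [CStarAlgebra D] [PartialOrder D] (τ : D →ₚ[ℂ] ℂ) : Prop :=
  ∀ c ε : ℝ, 0 < c → 0 < ε → ∃ (η : ℝ) (m : ℕ), 0 < η ∧ ∀ e a : D, 0 ≤ e → e ≤ 1 → 0 ≤ a →
    a ≤ 1 → (τ e).re ≤ η → c ≤ (τ (a ^ m)).re →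
      ∃ s : D, ‖star s * s - e‖ ≤ ε ∧ ‖a * s - s‖ ≤ ε

/-- Pure infiniteness. -/
def PI (D : Type) [CStarAlgebra D] [PartialOrder D] : Prop :=
  ∀ y : D, 0 ≤ y → y ≠ 0 → ∃ s : D, star s * y * s = 1

/-- `θ` moves almost central contractions in the seminorm `N`. -/
def CN {D : Type} [CStarAlgebra D] (N : D → ℝ) (θ : D ≃⋆ₐ[ℂ] D) : Prop :=
  ∃ δ : ℝ, 0 < δ ∧ ∀ (s : Finset D) (ε : ℝ), 0 < ε → ∃ y : D, ‖y‖ ≤ 1 ∧
    (∀ a ∈ s, ‖y * a - a * y‖ ≤ ε) ∧ δ ≤ N (θ y - y)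

/-- Common properties of the norm (with any state) and of the trace norm (with the trace). -/
structure IsN {D : Type} [CStarAlgebra D] [PartialOrder D] (S : SSA D) (φ : D →ₚ[ℂ] ℂ)
    (N : D → ℝ) : Prop where
  add_le : ∀ x y, N (x + y) ≤ N x + N y
  smul_eq : ∀ (c : ℂ) (x : D), N (c • x) = ‖c‖ * N x
  mul_left : ∀ x y, N (x * y) ≤ ‖x‖ * N y
  star_eq : ∀ x, N (star x) = N x
  le_norm : ∀ x, N x ≤ ‖x‖
  hom : ∀ (p : D →⋆ₐ[ℂ] D) (x : D), N (p x) = N x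
  one : φ 1 = 1
  state_le : ∀ x, ‖φ x‖ ≤ N x
  slice : ∃ L : D →L[ℂ] D, (∀ x, ‖L x‖ ≤ ‖x‖) ∧ (∀ x, N (L x) ≤ N x) ∧
    ∀ a b, L (S.al a * S.be b) = φ b • a

/-- Cauchy sequences for `N`. -/
def NCau {D : Type} [Sub D] (N : D → ℝ) (y : ℕ → D) : Prop :=
  ∀ ε : ℝ, 0 < ε → ∃ M, ∀ n ≥ M, ∀ m ≥ M, N (y n - y m) ≤ ε

/-- Null sequences for `N`. -/
def NZ {D : Type} (N : D → ℝ) (y : ℕ → D) : Prop := Tendsto (fun n => N (y n)) atTop (𝓝 0)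

/-! ### Small tools -/

section Tools

variable {G D A : Type} [Group G] [CStarAlgebra D] [CStarAlgebra A]

/-- Conjugation by a unitary. -/
noncomputable def adHom {u : A} (hu : u ∈ unitary A) : A →⋆ₐ[ℂ] A :=
  (Unitary.conjStarAlgAut ℂ A ⟨u, hu⟩ : A →⋆ₐ[ℂ] A)

theorem adHom_apply {u : A} (hu : u ∈ unitary A) (x : A) : adHom hu x = u * x * star u := rfl

/-- The translate of a homomorphism. -/
noncomputable def twist (γ : G →* (A ≃⋆ₐ[ℂ] A)) (ρ : G →* (D ≃⋆ₐ[ℂ] D)) (g : G)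
    (p : D →⋆ₐ[ℂ] A) : D →⋆ₐ[ℂ] A :=
  (γ g : A →⋆ₐ[ℂ] A).comp (p.comp (ρ g⁻¹ : D →⋆ₐ[ℂ] D))

theorem twist_apply (γ : G →* (A ≃⋆ₐ[ℂ] A)) (ρ : G →* (D ≃⋆ₐ[ℂ] D)) (g : G)
    (p : D →⋆ₐ[ℂ] A) (x : D) : twist γ ρ g p x = γ g (p (ρ g⁻¹ x)) := rfl

theorem twist_act (γ : G →* (A ≃⋆ₐ[ℂ] A)) (ρ : G →* (D ≃⋆ₐ[ℂ] D)) (g h : G)
    (p : D →⋆ₐ[ℂ] A) (x : D) : twist γ ρ (g * h) p (ρ g x) = γ g (twist γ ρ h p x) := by
  rw [twist_apply, twist_apply, act_act, act_act, mul_inv_rev, inv_mul_cancel_right]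

theorem twist_one (γ : G →* (A ≃⋆ₐ[ℂ] A)) (ρ : G →* (D ≃⋆ₐ[ℂ] D)) (p : D →⋆ₐ[ℂ] A) (x : D) :
    twist γ ρ 1 p x = p x := by
  rw [twist_apply, inv_one, act_one, act_one]

theorem mem_cent_range {p : D →⋆ₐ[ℂ] A} {x : A} :
    x ∈ cent (Set.range p) ↔ ∀ d, Commute x (p d) := by
  rw [mem_cent]
  refine ⟨fun h d => (h _ ⟨d, rfl⟩).1, ?_⟩
  rintro h _ ⟨d, rfl⟩
  exact ⟨h d, by rw [← map_star]; exact h _⟩

theorem mem_cent_union {S T : Set A} {x : A} : x ∈ cent (S ∪ T) ↔ x ∈ cent S ∧ x ∈ cent T := by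
  simp only [mem_cent, Set.mem_union, or_imp, forall_and]
  tauto

/-- The unitary `exp (i h)`. -/
noncomputable def ex (h : A) : A := NormedSpace.exp (Complex.I • h)

/-- `x` is the end point of an `L`-Lipschitz path of unitaries that starts at `1`. -/
def PathTo (L : ℝ) (x : A) : Prop := ∃ w : ℝ → A, IsPath L w ∧ w 1 = x

/-- Equivariant embeddings exist in the commutant of an invariant copy of `D`. -/
def EMB (γ : G →* (A ≃⋆ₐ[ℂ] A)) (D : Type) [CStarAlgebra D] : Prop :=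
  ∀ ψ : D →⋆ₐ[ℂ] A, (∀ g x, ∃ y, γ g (ψ x) = ψ y) → ∀ ρ : G →* (D ≃⋆ₐ[ℂ] D),
    ∃ φ : D →⋆ₐ[ℂ] A, (∀ x, φ x ∈ cent (Set.range ψ)) ∧ ∀ g x, φ (ρ g x) = γ g (φ x)

/-- Equivariant embeddings are unique up to invariant unitaries. -/
def UNI (γ : G →* (A ≃⋆ₐ[ℂ] A)) (D : Type) [CStarAlgebra D] : Prop :=
  ∀ ψ : D →⋆ₐ[ℂ] A, (∀ g x, ∃ y, γ g (ψ x) = ψ y) →
    ∀ (ρ : G →* (D ≃⋆ₐ[ℂ] D)) (φ₁ φ₂ : D →⋆ₐ[ℂ] A), (∀ x, φ₁ x ∈ cent (Set.range ψ)) →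
      (∀ x, φ₂ x ∈ cent (Set.range ψ)) → (∀ g x, φ₁ (ρ g x) = γ g (φ₁ x)) →
        (∀ g x, φ₂ (ρ g x) = γ g (φ₂ x)) → ∃ u ∈ unitary A, u ∈ cent (Set.range ψ) ∧
          (∀ g, γ g u = u) ∧ ∀ x, u * φ₁ x * star u = φ₂ x

/-- The data `T ⊆ T'`, `N` of the core theorem. -/
structure IsPair (γ : G →* (A ≃⋆ₐ[ℂ] A)) (T T' : Set A) (N : Submodule ℂ A) : Prop where
  sub : T ⊆ T'
  count : T'.Countable
  inv : ∀ g, ∀ t ∈ T, γ g t ∈ T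
  inv' : ∀ g, ∀ t ∈ T', γ g t ∈ T'
  idl : IsIdl γ T' N

/-- The uniqueness form of the core theorem. -/
def CoreUni (γ : G →* (A ≃⋆ₐ[ℂ] A)) (D : Type) [CStarAlgebra D] : Prop :=
  ∀ (T T' : Set A) (N : Submodule ℂ A), IsPair γ T T' N →
    ∀ (ρ : G →* (D ≃⋆ₐ[ℂ] D)) (φ₁ φ₂ : D →⋆ₐ[ℂ] A), (∀ x, φ₁ x ∈ cent T') →
      (∀ x, φ₂ x ∈ cent T') → (∀ g x, φ₁ (ρ g x) = γ g (φ₁ x)) →
        (∀ g x, φ₂ (ρ g x) = γ g (φ₂ x)) → (∀ x, φ₁ x - φ₂ x ∈ N) → Hole γ T N φ₂ →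
          ∃ u ∈ unitary A, u ∈ cent T ∧ (∀ g, γ g u = u) ∧ ∀ x, u * φ₁ x * star u = φ₂ x

/-- The existence form of the core theorem. -/
def CoreEmb (γ : G →* (A ≃⋆ₐ[ℂ] A)) (D : Type) [CStarAlgebra D] : Prop :=
  ∀ (T T' : Set A) (N : Submodule ℂ A), IsPair γ T T' N →
    ∀ (ρ : G →* (D ≃⋆ₐ[ℂ] D)) (φ : D →⋆ₐ[ℂ] A), (∀ x, φ x ∈ cent T') →
      (∀ g x, γ g (φ x) - φ (ρ g x) ∈ N) → Hole γ T N φ →
        ∃ φ' : D →⋆ₐ[ℂ] A, (∀ x, φ' x ∈ cent T) ∧ ∀ g x, φ' (ρ g x) = γ g (φ' x)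

/-- The ultrapower of the action has the existence and uniqueness properties. -/
def GoodUP (β : G →* (D ≃⋆ₐ[ℂ] D)) : Prop :=
  ∃ (A : Type) (_ : CStarAlgebra A) (q : Bdd D →⋆ₐ[ℂ] A) (γ : G →* (A ≃⋆ₐ[ℂ] A)), IsUlt q ∧
    (∀ g (x : Bdd D), γ g (q x) = q (Bdd.map (β g : D →⋆ₐ[ℂ] D) x)) ∧ EMB γ D ∧ UNI γ D

end Tools

section Trace

variable {A : Type} [CStarAlgebra A] [PartialOrder A] [StarOrderedRing A]

/-- The trace kernel. -/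
def Jd (τ : A →ₚ[ℂ] ℂ) : Submodule ℂ A where
  carrier := {x | n2 τ x = 0}
  add_mem' := fun {x y} hx hy => le_antisymm (by
    have h := n2_add_le τ x y
    rwa [show n2 τ x = 0 from hx, show n2 τ y = 0 from hy, add_zero] at h) (n2_nonneg τ _)
  zero_mem' := n2_zero τ
  smul_mem' := fun c x hx => by
    change n2 τ (c • x) = 0
    rw [n2_smul, show n2 τ x = 0 from hx, mul_zero]

theorem mem_Jd {τ : A →ₚ[ℂ] ℂ} {x : A} : x ∈ Jd τ ↔ n2 τ x = 0 := Iff.rfl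

/-- Positive contractions that are projections modulo the trace kernel. -/
structure TP (τ : A →ₚ[ℂ] ℂ) (p : A) : Prop where
  nonneg : 0 ≤ p
  le_one : p ≤ 1
  idem : p * p - p ∈ Jd τ

/-- An orthogonal family indexed by the group that is a partition of unity modulo the trace
kernel. -/
structure IsTw {G : Type} (τ : A →ₚ[ℂ] ℂ) (C : StarSubalgebra ℂ A) (Λ : Finset G) (E : G → A) :
    Prop where
  mem : ∀ g, E g ∈ C
  tp : ∀ g, TP τ (E g)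
  supp : ∀ g, g ∉ Λ → E g = 0
  orth : ∀ g g', g ≠ g' → E g * E g' = 0
  sum : ∑ g ∈ Λ, E g - 1 ∈ Jd τ

end Trace

/-! ### Systems -/

/-- A saturated algebra with an action and many copies of `D`. -/
structure Amb (G D A : Type) [Group G] [CStarAlgebra D] [PartialOrder D] [CStarAlgebra A]
    [PartialOrder A] where
  S : SSA D
  τ : A →ₚ[ℂ] ℂ
  γ : G →* (A ≃⋆ₐ[ℂ] A)
  inv : ∀ g x, τ (γ g x) = τ x
  sat : Saturated τ γ
  emb : ∀ T : Set A, T.Countable → ∃ p : D →⋆ₐ[ℂ] A, ∀ x, p x ∈ cent T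

/-- The same with a central sequence algebra and independent copies. -/
structure BSys (G D A : Type) [Group G] [CStarAlgebra D] [PartialOrder D] [CStarAlgebra A]
    [PartialOrder A] extends Amb G D A where
  T0 : Set A
  T0_count : T0.Countable
  T0_inv : ∀ g, ∀ t ∈ T0, γ g t ∈ T0
  ic : ∀ S₀ T : Set A, S₀.Countable → T.Countable → S₀ ⊆ cent T0 →
    ∃ (𝒮 : StarSubalgebra ℂ A) (Ψ : A →ₗ[ℂ] A), S₀ ⊆ 𝒮 ∧ IsCopy τ γ T0 T 𝒮 Ψ
  ν₀ : D →⋆ₐ[ℂ] A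
  hF : cent T0 = cent (Set.range ν₀)

namespace BSys

variable {G D A : Type} [Group G] [CStarAlgebra D] [PartialOrder D] [CStarAlgebra A]
  [PartialOrder A] (X : BSys G D A)

/-- The central sequence algebra. -/
abbrev F : StarSubalgebra ℂ A := cent X.T0

/-- The part of `F` commuting with the orbit of `T`. -/
abbrev FT (T : Set A) : StarSubalgebra ℂ A := cent (X.T0 ∪ orb X.γ T)

theorem FT_le_F (T : Set A) : X.FT T ≤ X.F := cent_anti Set.subset_union_left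

theorem FT_le_cent (T : Set A) : X.FT T ≤ cent T :=
  cent_anti ((subset_orb X.γ T).trans Set.subset_union_right)

theorem FT_anti {S T : Set A} (h : S ⊆ T) : X.FT T ≤ X.FT S :=
  cent_anti (Set.union_subset_union_right _ (orb_mono X.γ h))

theorem act_mem_F (g : G) {x : A} (hx : x ∈ X.F) : X.γ g x ∈ X.F :=
  act_mem_cent X.γ g (X.T0_inv g⁻¹) hx

theorem act_mem_FT (g : G) {T : Set A} {x : A} (hx : x ∈ X.FT T) : X.γ g x ∈ X.FT T :=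
  act_mem_cent X.γ g (fun t ht => ht.elim (fun h => Or.inl (X.T0_inv _ t h))
    (fun h => Or.inr (act_mem_orb X.γ _ h))) hx

theorem commute_of_FT {T : Set A} {x t : A} (hx : x ∈ X.FT T) (ht : t ∈ T) (g h : G) :
    Commute (X.γ g x) (X.γ h t) :=
  (mem_cent.1 (X.act_mem_FT g hx) _ (Or.inr ⟨h, t, ht, rfl⟩)).1

theorem commute_star_of_FT {T : Set A} {x t : A} (hx : x ∈ X.FT T) (ht : t ∈ T) (g h : G) :
    Commute (X.γ g x) (star (X.γ h t)) :=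
  (mem_cent.1 (X.act_mem_FT g hx) _ (Or.inr ⟨h, t, ht, rfl⟩)).2

theorem countable_FT [Countable G] {T : Set A} (hT : T.Countable) :
    (X.T0 ∪ orb X.γ T).Countable := X.T0_count.union (countable_orb _ hT)

end BSys

/-- Tracial systems. -/
structure TSys (G D A : Type) [Group G] [CStarAlgebra D] [PartialOrder D] [CStarAlgebra A]
    [PartialOrder A] [StarOrderedRing A] extends BSys G D A where
  tr : IsTracialState τ
  si : ∀ x a : A, 0 ≤ x → x ≤ 1 → 0 ≤ a → a ≤ 1 → x ∈ Jd τ →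
    (∃ c : ℝ, 0 < c ∧ ∀ m : ℕ, c ≤ (τ (a ^ m)).re) → ∃ s : A, star s * s = x ∧ a * s = s
  free : ∀ h : G, h ≠ 1 → ∃ p ∈ cent T0, TP τ p ∧ (τ (p * γ h p)).re < (τ p).re

/-- Purely infinite systems. -/
structure PSys (G D A : Type) [Group G] [CStarAlgebra D] [PartialOrder D] [CStarAlgebra A]
    [PartialOrder A] extends BSys G D A where
  nontriv : Nontrivial A
  pi : ∀ a : A, 0 ≤ a → ‖a‖ = 1 → ∃ s : A, star s * s = 1 ∧ a * s = s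
  free : ∀ h : G, h ≠ 1 → ∃ y ∈ cent T0, γ h y ≠ y
  piD : PI D

section Props

variable {G D A : Type} [Group G] [CStarAlgebra D] [PartialOrder D] [CStarAlgebra A]
  [PartialOrder A]

/-- The underlying saturated tracial system. -/
def TSys.toSat [StarOrderedRing A] (X : TSys G D A) : Sat G A where
  τ := X.τ
  tr := X.tr
  γ := X.γ
  inv := X.inv
  sat := X.sat

/-- Almost equivariant towers exist. -/
def TSys.Tow [StarOrderedRing A] (X : TSys G D A) : Prop :=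
  ∀ (L : Finset G) (δ : ℝ) (T : Set A), 0 < δ → T.Countable → ∃ (Λ : Finset G) (E : G → A),
    IsTw X.τ (X.FT T) Λ E ∧
      ∀ l ∈ L, 1 - δ ≤ ∑ g ∈ Λ, (X.τ (E g * X.γ l (E (l⁻¹ * g)))).re

/-- Wandering isometries exist. -/
def PSys.Wan (X : PSys G D A) : Prop :=
  ∀ T : Set A, T.Countable → ∃ s ∈ X.FT T, star s * s = 1 ∧ ∀ h, h ≠ 1 → star s * X.γ h s = 0

/-- The ultrapower of a system with a positive functional. -/
structure IsUP2 (β : G →* (D ≃⋆ₐ[ℂ] D)) (τB : D →ₚ[ℂ] ℂ) (q : Bdd D →⋆ₐ[ℂ] A)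
    (γ : G →* (A ≃⋆ₐ[ℂ] A)) (τ : A →ₚ[ℂ] ℂ) : Prop where
  ult : IsUlt q
  act : ∀ g (x : Bdd D), γ g (q x) = q (Bdd.map (β g : D →⋆ₐ[ℂ] D) x)
  tr : ∀ x : Bdd D, Tendsto (fun n => τB (x.1 n)) (hyperfilter ℕ) (𝓝 (τ (q x)))

end Props

end Pool.Agent.Izumi
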