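import Pool.Agent.Lib.MP_b2135d_an.YDefs
import Pool.Agent.Lib.MP_b2135d_an.SA

/-! The unitaries exp (i h) (PLAN section YE). -/

namespace Pool.Agent.Izumi

open scoped ComplexOrder
open Filter Topology

variable {A : Type} [CStarAlgebra A]

theorem ex_zero : ex (0 : A) = 1 := by
  rw [ex, smul_zero, NormedSpace.exp_zero]

theorem ex_unitary {h : A} (hh : IsSelfAdjoint h) : ex h ∈ unitary A :=
  (selfAdjoint.expUnitary (⟨h, hh⟩ : selfAdjoint A)).2

theorem ex_add {h k : A} (hc : Commute h k) : ex (h + k) = ex h * ex k := by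
  let +nondep : NormedAlgebra ℚ A := .restrictScalars ℚ ℂ A
  rw [ex, ex, ex, smul_add]
  exact NormedSpace.exp_add_of_commute ((hc.smul_left _).smul_right _)

theorem hasSum_ex (h : A) :
    HasSum (fun n : ℕ => ((n.factorial : ℂ)⁻¹ * Complex.I ^ n) • h ^ n) (ex h) := by
  have h1 := NormedSpace.exp_series_hasSum_exp' (𝕂 := ℂ) (Complex.I • h)
  simpa only [smul_pow, smul_smul, ex] using h1

theorem hom_ex {B : Type} [CStarAlgebra B] (φ : A →⋆ₐ[ℂ] B) (h : A) : φ (ex h) = ex (φ h) := by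
  have h1 := (hasSum_ex h).map φ (hom_continuous φ)
  refine h1.unique ?_
  have h2 := hasSum_ex (φ h)
  have h3 : (⇑φ ∘ fun n : ℕ => ((n.factorial : ℂ)⁻¹ * Complex.I ^ n) • h ^ n) =
      fun n : ℕ => ((n.factorial : ℂ)⁻¹ * Complex.I ^ n) • φ h ^ n := by
    funext n
    simp only [Function.comp_apply, map_smul, map_pow]
  rw [h3]
  exact h2

theorem aut_ex (θ : A ≃⋆ₐ[ℂ] A) (h : A) : θ (ex h) = ex (θ h) :=
  hom_ex (θ : A →⋆ₐ[ℂ] A) h

theorem commute_ex {h y : A} (hc : Commute h y) : Commute (ex h) y :=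
  (hc.smul_left Complex.I).exp_left

theorem ex_mem {C : StarSubalgebra ℂ A} (hC : IsClosed (C : Set A)) {h : A} (hh : h ∈ C) :
    ex h ∈ C :=
  hC.mem_of_tendsto (hasSum_ex h) (Eventually.of_forall fun _ =>
    sum_mem fun n _ => C.smul_mem (pow_mem hh n) _)

theorem norm_ex_sub_one {h : A} (hh : IsSelfAdjoint h) : ‖ex h - 1‖ ≤ ‖h‖ := by
  nontriviality A
  have hn : IsStarNormal h := hh.isStarNormal
  have h1 : ex h - 1 = cfc (fun z : ℂ => Complex.exp (Complex.I * z) - 1) h := by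
    rw [cfc_sub _ _ h, cfc_const_one ℂ h, ex, ← CFC.complex_exp_eq_normedSpace_exp,
      ← cfc_comp_smul Complex.I _ h]
    rfl
  rw [h1]
  refine norm_cfc_le (norm_nonneg h) fun z hz => ?_
  have hz' := hz
  rw [← hh.spectrumRestricts.algebraMap_image] at hz'
  obtain ⟨y, hy, rfl⟩ := hz'
  exact (Real.norm_exp_I_mul_ofReal_sub_one_le (x := y)).trans (spectrum.norm_le_norm_of_mem hy)

theorem ye_pow_sub_mem (N : Submodule ℂ A) (hl : ∀ c, ∀ x ∈ N, c * x ∈ N)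
    (hr : ∀ c, ∀ x ∈ N, x * c ∈ N) {a b : A} (h : a - b ∈ N) (n : ℕ) : a ^ n - b ^ n ∈ N := by
  induction n with
  | zero => simp
  | succ n ih =>
    have h1 : a ^ (n + 1) - b ^ (n + 1) = (a ^ n - b ^ n) * a + b ^ n * (a - b) := by
      rw [pow_succ, pow_succ]; noncomm_ring
    rw [h1]
    exact N.add_mem (hr _ _ ih) (hl _ _ h)

theorem ex_sub_mem (N : Submodule ℂ A) (hc : IsClosed (N : Set A))
    (hl : ∀ c, ∀ x ∈ N, c * x ∈ N) (hr : ∀ c, ∀ x ∈ N, x * c ∈ N) {a b : A} (h : a - b ∈ N) :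
    ex a - ex b ∈ N :=
  hc.mem_of_tendsto ((hasSum_ex a).sub (hasSum_ex b)) (Eventually.of_forall fun _ =>
    N.sum_mem fun n _ => by
      rw [← smul_sub]
      exact N.smul_mem _ (ye_pow_sub_mem N hl hr h n))

theorem exists_log_near {u : A} (hu : u ∈ unitary A) (h : ‖u - 1‖ < 2) :
    ∃ k : A, IsSelfAdjoint k ∧ ‖k‖ ≤ 4 ∧ ex k = u := by
  refine ⟨(Unitary.argSelfAdjoint (⟨u, hu⟩ : unitary A) : A),
    (Unitary.argSelfAdjoint (⟨u, hu⟩ : unitary A)).2,
    (Unitary.norm_argSelfAdjoint_le_pi _).trans Real.pi_le_four, ?_⟩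
  exact congrArg Subtype.val (expUnitary_argSelfAdjoint (u := ⟨u, hu⟩) h)

theorem pathTo_ex {h : A} (hh : IsSelfAdjoint h) {L : ℝ} (hL : ‖h‖ ≤ L) : PathTo L (ex h) := by
  have hs : ∀ t : ℝ, IsSelfAdjoint (t • h) := fun t => (IsSelfAdjoint.all t).smul hh
  refine ⟨fun t => ex (t • h), ⟨by rw [zero_smul, ex_zero], fun t => ex_unitary (hs t),
    fun t t' => ?_⟩, congrArg ex (one_smul ℝ h)⟩
  have h1 : ex (t • h) - ex (t' • h) = (ex ((t - t') • h) - 1) * ex (t' • h) := by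
    rw [sub_mul, one_mul, ← ex_add (((Commute.refl h).smul_left _).smul_right _), ← add_smul,
      sub_add_cancel]
  rw [h1, CStarRing.norm_mul_mem_unitary _ (ex_unitary (hs t'))]
  refine (norm_ex_sub_one (hs _)).trans ?_
  rw [norm_smul, Real.norm_eq_abs, mul_comm]
  exact mul_le_mul_of_nonneg_right hL (abs_nonneg _)

theorem ye_term_le {h : A} {R : ℝ} (hR : ‖h‖ ≤ R) (k : ℕ) :
    ‖((k.factorial : ℂ)⁻¹ * Complex.I ^ k) • h ^ k‖ ≤ |R| ^ k / k.factorial := by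
  have h1 : ‖h ^ k‖ ≤ |R| ^ k := by
    rcases Nat.eq_zero_or_pos k with rfl | hk
    · rw [pow_zero, pow_zero]
      rcases subsingleton_or_nontrivial A with _ | _
      · rw [Subsingleton.elim (1 : A) 0, norm_zero]
        exact zero_le_one
      · exact norm_one.le
    · exact (norm_pow_le' h hk).trans
        (pow_le_pow_left₀ (norm_nonneg _) (hR.trans (le_abs_self R)) k)
  rw [norm_smul, norm_mul, norm_inv, norm_pow, Complex.norm_I, one_pow, mul_one,
    Complex.norm_natCast, div_eq_inv_mul]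
  exact mul_le_mul_of_nonneg_left h1 (by positivity)

theorem ye_tail_le {h : A} {R : ℝ} (hR : ‖h‖ ≤ R) (n : ℕ) :
    ‖ex h - ∑ k ∈ Finset.range n, ((k.factorial : ℂ)⁻¹ * Complex.I ^ k) • h ^ k‖ ≤
      ∑' k : ℕ, |R| ^ (k + n) / (k + n).factorial := by
  have h1 := (hasSum_nat_add_iff' n).2 (hasSum_ex h)
  have h2 : Summable fun k : ℕ => |R| ^ (k + n) / ((k + n).factorial : ℝ) :=
    (summable_nat_add_iff (f := fun k : ℕ => |R| ^ k / (k.factorial : ℝ)) n).2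
      (Real.summable_pow_div_factorial _)
  rw [← h1.tsum_eq]
  exact tsum_of_norm_bounded h2.hasSum fun k => ye_term_le hR (k + n)

theorem Defn.ex_eq {G ι : Type} [Group G] [PartialOrder A] [StarOrderedRing A] {τ : A →ₚ[ℂ] ℂ}
    {γ : G →* (A ≃⋆ₐ[ℂ] A)} {f g : (ι → A) → A} (hf : IsTerm γ f) (hg : IsTerm γ g) (R : ℝ) :
    Defn τ γ (fun x => ‖f x‖ ≤ R ∧ g x = ex (f x)) := by
  have hP : Defn τ γ (fun x => ‖f x‖ ≤ R ∧ ∀ n : ℕ,
      ‖g x - ∑ k ∈ Finset.range n, ((k.factorial : ℂ)⁻¹ * Complex.I ^ k) • f x ^ k‖ ≤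
        ∑' k : ℕ, |R| ^ (k + n) / (k + n).factorial) :=
    (Defn.norm_le hf R).and (Defn.all fun n => Defn.norm_le
      (hg.sub (IsTerm.sum (Finset.range n) fun k _ => (hf.pow k).smul _)) _)
  refine hP.congr fun x => and_congr_right fun hR => ⟨fun H => ?_, fun H n => ?_⟩
  · have h1 : Tendsto (fun n : ℕ => ∑' k : ℕ, |R| ^ (k + n) / ((k + n).factorial : ℝ)) atTop
        (𝓝 0) := tendsto_sum_nat_add fun k : ℕ => |R| ^ k / (k.factorial : ℝ)
    have h2 : Tendsto (fun n : ℕ =>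
        ‖g x - ∑ k ∈ Finset.range n, ((k.factorial : ℂ)⁻¹ * Complex.I ^ k) • f x ^ k‖) atTop
        (𝓝 ‖g x - ex (f x)‖) :=
      (tendsto_const_nhds.sub (hasSum_ex (f x)).tendsto_sum_nat).norm
    have h3 := le_of_tendsto_of_tendsto' h2 h1 H
    exact sub_eq_zero.1 (norm_le_zero_iff.1 h3)
  · rw [H]
    exact ye_tail_le hR n

end Pool.Agent.Izumi
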