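import Pool.Agent.Lib.MP_b2135d_an.YR6
import Pool.Agent.Lib.MP_b2135d_an.SA

/-! Invariant isometries and holes (PLAN section YQ3). -/

namespace Pool.Agent.Izumi

open scoped ComplexOrder
open Filter Topology

variable {G D A : Type} [Group G] [Countable G] [CStarAlgebra D] [PartialOrder D]
  [StarOrderedRing D] [CStarAlgebra A] [PartialOrder A] [StarOrderedRing A]

omit [Countable G] in
theorem PSys.isoms (X : PSys G D A) {T : Set A} (hT : T.Countable) (n : ℕ) :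
    ∃ t : Fin n → A, (∀ i, t i ∈ cent T) ∧ (∀ i, star (t i) * t i = 1) ∧
      ∀ i j, i ≠ j → star (t i) * t j = 0 := by
  obtain ⟨t, h1, h2⟩ := X.S.exists_isoms X.piD n
  obtain ⟨p, hp⟩ := X.emb T hT
  refine ⟨fun i => p (t i), fun i => hp _, fun i => ?_, fun i j hij => ?_⟩
  · rw [← map_star, ← map_mul, h1, map_one]
  · rw [← map_star, ← map_mul, h2 i j hij, map_zero]

theorem yq3_inner {G A : Type} [DecidableEq G] [CStarAlgebra A] {w w' : G → A} {b : A}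
    (h : ∀ g k, star (w g) * w' k = if g = k then b else 0) (P Q : Finset G) :
    star (∑ g ∈ P, w g) * ∑ g ∈ Q, w' g = (((P ∩ Q).card : ℝ) : ℂ) • b := by
  rw [star_sum, Finset.sum_mul_sum]
  simp_rw [h, Finset.sum_ite_eq]
  rw [Finset.sum_ite_mem, Finset.sum_const, Complex.ofReal_natCast, Nat.cast_smul_eq_nsmul]

theorem yq3_smul {A : Type} [CStarAlgebra A] (c : ℝ) (x y : A) :
    star ((c : ℂ) • x) * ((c : ℂ) • y) = ((c * c : ℝ) : ℂ) • (star x * y) := by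
  rw [star_smul, smul_mul_smul_comm, Complex.star_def, Complex.conj_ofReal, Complex.ofReal_mul]

theorem yq3_move {G A : Type} [Group G] [CStarAlgebra A] [Nontrivial A] {w : G → A}
    [DecidableEq G] (h : ∀ g k, star (w g) * w k = if g = k then 1 else 0) {Λ : Finset G}
    (hΛ : Λ.Nonempty) (l : G) {ε : ℝ} (hε : 0 < ε)
    (hl : (1 - ε ^ 2 / 2) * (Λ.card : ℝ) ≤ (Set.ncard {x | x ∈ Λ ∧ l⁻¹ * x ∈ Λ} : ℝ)) :
    ‖(((√(Λ.card : ℝ))⁻¹ : ℝ) : ℂ) • ∑ g ∈ Λ, w (l * g) -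
      (((√(Λ.card : ℝ))⁻¹ : ℝ) : ℂ) • ∑ g ∈ Λ, w g‖ ≤ ε := by
  have hn : (0 : ℝ) < Λ.card := by exact_mod_cast hΛ.card_pos
  set Q : Finset G := Λ.image (fun g => l * g) with hQ
  have hinj : Function.Injective (fun g : G => l * g) := mul_right_injective l
  have e1 : ∑ g ∈ Λ, w (l * g) = ∑ g ∈ Q, w g :=
    (Finset.sum_image (f := w) fun a _ b _ hab => hinj hab).symm
  have e2 : Q.card = Λ.card := Finset.card_image_of_injective _ hinj
  have e3 : {x | x ∈ Λ ∧ l⁻¹ * x ∈ Λ} = ((Λ ∩ Q : Finset G) : Set G) := by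
    ext x
    simp only [Set.mem_ofPred_eq, Finset.coe_inter, Set.mem_inter_iff, Finset.mem_coe, hQ,
      Finset.mem_image]
    refine and_congr_right fun _ => ⟨fun hx => ⟨_, hx, mul_inv_cancel_left _ _⟩, ?_⟩
    rintro ⟨y, hy, rfl⟩
    rwa [inv_mul_cancel_left]
  rw [e3, Set.ncard_coe_finset] at hl
  rw [e1, ← smul_sub]
  set y := (((√(Λ.card : ℝ))⁻¹ : ℝ) : ℂ) • (∑ g ∈ Q, w g - ∑ g ∈ Λ, w g) with hy
  have e4 : (√(Λ.card : ℝ))⁻¹ * (√(Λ.card : ℝ))⁻¹ = (Λ.card : ℝ)⁻¹ := by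
    rw [← mul_inv, Real.mul_self_sqrt hn.le]
  have e5 : star y * y =
      (((Λ.card : ℝ)⁻¹ * (2 * Λ.card - 2 * (Λ ∩ Q).card) : ℝ) : ℂ) • (1 : A) := by
    rw [hy, yq3_smul, e4, star_sub, sub_mul, mul_sub, mul_sub, yq3_inner h, yq3_inner h,
      yq3_inner h, yq3_inner h, Finset.inter_self, Finset.inter_self, Finset.inter_comm Q Λ, e2,
      ← sub_smul, ← sub_smul, ← sub_smul, smul_smul]
    congr 1
    push_cast
    ring
  have e6 := CStarRing.norm_star_mul_self (x := y)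
  have c1 : ((Λ ∩ Q).card : ℝ) ≤ Λ.card := by
    exact_mod_cast Finset.card_le_card Finset.inter_subset_left
  have c2 : 0 ≤ (Λ.card : ℝ)⁻¹ * (2 * Λ.card - 2 * (Λ ∩ Q).card) :=
    mul_nonneg (inv_nonneg.2 hn.le) (by linarith)
  have c3 : (Λ.card : ℝ)⁻¹ * (2 * Λ.card - 2 * (Λ ∩ Q).card) ≤ ε ^ 2 := by
    rw [inv_mul_le_iff₀ hn]
    linarith
  rw [e5, norm_smul, norm_one, mul_one, Complex.norm_real, Real.norm_of_nonneg c2] at e6
  exact abs_le_of_sq_le_sq' (by rw [sq, ← e6]; exact c3) hε.le |>.2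

theorem PSys.inv_isoms (X : PSys G D A) (hw : X.Wan) (hf : Foel G) {T : Set A}
    (hT : T.Countable) : ∃ S₁ ∈ cent T, ∃ S₂ ∈ cent T, star S₁ * S₁ = 1 ∧ star S₂ * S₂ = 1 ∧
      star S₁ * S₂ = 0 ∧ (∀ g, X.γ g S₁ = S₁) ∧ ∀ g, X.γ g S₂ = S₂ := by
  classical
  have := X.nontriv
  obtain ⟨s, hsF, hs, hsw⟩ := hw T hT
  obtain ⟨t, htF, ht1, ht0⟩ := X.isoms (X.countable_FT hT) 2
  have hmem : ∀ i g, X.γ g (s * t i) ∈ cent T := fun i g =>
    X.FT_le_cent T (X.act_mem_FT g (mul_mem hsF (htF i)))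
  have hin : ∀ i j g k, star (X.γ g (s * t i)) * X.γ k (s * t j) =
      if g = k then X.γ g (star (t i) * t j) else 0 := by
    intro i j g k
    have e : star (X.γ g (s * t i)) * X.γ k (s * t j) =
        X.γ g (star (t i) * (star s * X.γ (g⁻¹ * k) s) * X.γ (g⁻¹ * k) (t j)) := by
      have e0 : X.γ k (s * t j) = X.γ g (X.γ (g⁻¹ * k) s * X.γ (g⁻¹ * k) (t j)) := by
        rw [← map_mul, act_act, mul_inv_cancel_left]
      rw [e0, ← map_star, ← map_mul, star_mul]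
      simp only [mul_assoc]
    rw [e]
    split_ifs with hgk
    · rw [hgk, inv_mul_cancel, act_one, act_one, hs, mul_one]
    · rw [hsw _ fun h => hgk (inv_mul_eq_one.1 h), mul_zero, zero_mul, map_zero]
  have h1 : ∀ i g k, star (X.γ g (s * t i)) * X.γ k (s * t i) = if g = k then 1 else 0 := by
    intro i g k
    rw [hin, ht1, map_one]
  have h0 : ∀ g k, star (X.γ g (s * t 0)) * X.γ k (s * t 1) = if g = k then 0 else 0 := by
    intro g k
    rw [hin, ht0 0 1 (by decide), map_zero]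
  have hP : Defn X.τ X.γ (fun x : Fin 2 → A => (∀ i, x i ∈ cent T ∧ star (x i) * x i = 1) ∧
      star (x 0) * x 1 = 0) :=
    (Defn.forall fun i => (Defn.mem_cent hT (IsTerm.var i)).and
      (Defn.eq ((IsTerm.var i).star.mul (IsTerm.var i)) (IsTerm.const 1))).and
      (Defn.eq ((IsTerm.var 0).star.mul (IsTerm.var 1)) (IsTerm.const 0))
  obtain ⟨x, -, ⟨hx1, hx0⟩, hx⟩ := X.sat.approx_eq (fun _ => 1) hP
    (fun (k : G × Fin 2) x => X.γ k.1 (x k.2) - x k.2)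
    (fun k => ((IsTerm.var k.2).act k.1).sub (IsTerm.var k.2)) fun K ε hε => by
      obtain ⟨Λ, hΛ, hl⟩ := hf (K.image Prod.fst) (ε ^ 2 / 2) (by positivity)
      have hn : (0 : ℝ) < Λ.card := by exact_mod_cast hΛ.card_pos
      have e4 : (√(Λ.card : ℝ))⁻¹ * (√(Λ.card : ℝ))⁻¹ = (Λ.card : ℝ)⁻¹ := by
        rw [← mul_inv, Real.mul_self_sqrt hn.le]
      have hi : ∀ i, star ((((√(Λ.card : ℝ))⁻¹ : ℝ) : ℂ) • ∑ g ∈ Λ, X.γ g (s * t i)) *
          ((((√(Λ.card : ℝ))⁻¹ : ℝ) : ℂ) • ∑ g ∈ Λ, X.γ g (s * t i)) = 1 := fun i => by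
        rw [yq3_smul, e4, yq3_inner (h1 i), Finset.inter_self, smul_smul, ← Complex.ofReal_mul,
          inv_mul_cancel₀ hn.ne', Complex.ofReal_one, one_smul]
      refine ⟨fun i => (((√(Λ.card : ℝ))⁻¹ : ℝ) : ℂ) • ∑ g ∈ Λ, X.γ g (s * t i),
        fun i => norm_le_one_of_isom (hi i), ⟨fun i => ⟨?_, hi i⟩, ?_⟩, fun k hk => ?_⟩
      · exact SMulMemClass.smul_mem _ (sum_mem fun g _ => hmem i g)
      · rw [yq3_smul, yq3_inner h0, smul_zero, smul_zero]
      · have h2 := yq3_move (w := fun g => X.γ g (s * t k.2)) (h1 k.2) hΛ k.1 hε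
          (hl k.1 (Finset.mem_image_of_mem _ hk))
        simp only [map_smul, map_sum, act_act]
        exact h2
  exact ⟨x 0, (hx1 0).1, x 1, (hx1 1).1, (hx1 0).2, (hx1 1).2, hx0,
    fun g => sub_eq_zero.1 (hx (g, 0)), fun g => sub_eq_zero.1 (hx (g, 1))⟩

omit [Countable G] in
theorem PSys.hole_gen (X : PSys G D A) {T : Set A} (hT : T.Countable) (φ : D →⋆ₐ[ℂ] A)
    {N : Submodule ℂ A} {e v : A} (h0 : 0 ≤ e) (h1 : e ≤ 1) (hi : ∀ g, X.γ g e = e)
    (heT : e ∈ cent T) (heφ : e ∈ cent (Set.range φ)) (hN : ∀ r ∈ N, e * r = r)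
    (hv : star v * v = 1) (hvT : v ∈ cent T) (hvφ : v ∈ cent (Set.range φ)) (hev : e * v = 0)
    (hw : ∀ k, k ≠ 1 → star v * X.γ k v = 0) : Hole X.γ T N φ := by
  intro R _ hRN n K
  have := X.S.sep
  obtain ⟨r, hr0, hrr, -, hrc⟩ := exists_sqrt h0
  obtain ⟨U, hU, -, hUc⟩ := exists_test φ
  obtain ⟨t, htc, ht1, ht0⟩ := X.isoms (hT.union hU) n
  have hrs : star r = r := (IsSelfAdjoint.of_nonneg hr0).star_eq
  have htT : ∀ i, t i ∈ cent T := fun i => (mem_cent_union.1 (htc i)).1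
  have htφ : ∀ i, t i ∈ cent (Set.range φ) := fun i => hUc ▸ (mem_cent_union.1 (htc i)).2
  have e1 : ∀ i j k, star (v * t i * r) * X.γ k (v * t j * r) =
      r * (star (t i) * (star v * X.γ k v) * X.γ k (t j)) * X.γ k r := fun i j k => by
    rw [star_mul, star_mul, hrs, map_mul, map_mul]
    simp only [mul_assoc]
  refine ⟨e, fun i => v * t i * r, hi, (CStarAlgebra.norm_le_one_iff_of_nonneg _ h0).2 h1,
    fun x hx => hN x (hRN hx), fun i => mul_mem (mul_mem hvT (htT i)) (hrc T heT),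
    fun i => mem_cent_range.1 (mul_mem (mul_mem hvφ (htφ i)) (hrc _ heφ)), fun i => ?_,
    fun i => ?_, fun i j k _ h => ?_⟩
  · rw [← mul_assoc, ← mul_assoc, hev, zero_mul, zero_mul]
  · have e2 := e1 i i 1
    rwa [act_one, act_one, act_one, act_one, hv, mul_one, ht1, mul_one, hrr] at e2
  · rw [e1]
    by_cases hk : k = 1
    · rw [hk, act_one, act_one, hv, mul_one, ht0 i j (h.resolve_right fun h' => h' hk), mul_zero,
        zero_mul]
    · rw [hw k hk, mul_zero, zero_mul, mul_zero, zero_mul]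

end Pool.Agent.Izumi
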