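import Pool.Agent.Lib.MP_b2135d_an.YDefs
import Pool.Agent.Lib.MP_b2135d_an.SA

/-! The trace kernel (PLAN section YJ). -/

namespace Pool.Agent.Izumi

open scoped ComplexOrder
open Filter Topology

variable {A : Type} [CStarAlgebra A] [PartialOrder A] [StarOrderedRing A] {τ : A →ₚ[ℂ] ℂ}

theorem Jd_mul_left (c : A) {x : A} (hx : x ∈ Jd τ) : c * x ∈ Jd τ := by
  refine le_antisymm ?_ (n2_nonneg τ _)
  have h1 := n2_mul_le_left τ c x
  rwa [mem_Jd.1 hx, mul_zero] at h1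

theorem Jd_mul_right (h : IsTracialState τ) (c : A) {x : A} (hx : x ∈ Jd τ) : x * c ∈ Jd τ := by
  refine le_antisymm ?_ (n2_nonneg τ _)
  have h1 := n2_mul_le_right h x c
  rwa [mem_Jd.1 hx, zero_mul] at h1

theorem Jd_star (h : IsTracialState τ) {x : A} (hx : x ∈ Jd τ) : star x ∈ Jd τ := by
  rw [mem_Jd, n2_star h]
  exact hx

theorem continuous_n2 (τ : A →ₚ[ℂ] ℂ) : Continuous (n2 τ) := by
  unfold n2
  exact (Complex.continuous_re.comp
    ((tr_continuous τ).comp (continuous_star.mul continuous_id))).sqrt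

theorem isClosed_Jd (τ : A →ₚ[ℂ] ℂ) : IsClosed (Jd τ : Set A) := by
  exact isClosed_eq (continuous_n2 τ) continuous_const

theorem Jd_aut (θ : A ≃⋆ₐ[ℂ] A) (hθ : ∀ x, τ (θ x) = τ x) {x : A} (hx : x ∈ Jd τ) :
    θ x ∈ Jd τ := by
  rw [mem_Jd, n2_aut θ hθ]
  exact hx

theorem tr_of_Jd (h : IsTracialState τ) {x : A} (hx : x ∈ Jd τ) : τ x = 0 := by
  have h1 := norm_tr_le_n2 h x
  rw [mem_Jd.1 hx] at h1
  exact norm_le_zero_iff.1 h1

theorem tr_eq_of_Jd (h : IsTracialState τ) {x y : A} (hx : x - y ∈ Jd τ) : τ x = τ y := by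
  have h1 := tr_of_Jd h hx
  rwa [map_sub, sub_eq_zero] at h1

theorem n2_eq_of_Jd {x y : A} (hx : x - y ∈ Jd τ) : n2 τ x = n2 τ y := by
  have h1 := n2_add_le τ (x - y) y
  have h2 := n2_add_le τ (y - x) x
  rw [n2_sub_comm] at h2
  rw [mem_Jd.1 hx, sub_add_cancel, zero_add] at h1 h2
  exact le_antisymm h1 h2

theorem mem_Jd_of_nonneg {x : A} (h0 : 0 ≤ x) (hx : (τ x).re ≤ 0) : x ∈ Jd τ := by
  obtain ⟨s, rfl⟩ := CStarAlgebra.nonneg_iff_eq_star_mul_self.1 h0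
  refine Jd_mul_left _ (mem_Jd.2 ?_)
  exact Real.sqrt_eq_zero_of_nonpos hx

theorem mem_Jd_of_le {x : A} (hx : ∀ ε : ℝ, 0 < ε → n2 τ x ≤ ε) : x ∈ Jd τ := by
  exact le_antisymm (le_of_forall_pos_le_add fun ε hε => by simpa using hx ε hε) (n2_nonneg τ _)

theorem Jd_mul_sub (h : IsTracialState τ) {x x' y y' : A} (hx : x - x' ∈ Jd τ)
    (hy : y - y' ∈ Jd τ) : x * y - x' * y' ∈ Jd τ := by
  have e : x * y - x' * y' = (x - x') * y + x' * (y - y') := by noncomm_ring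
  rw [e]
  exact (Jd τ).add_mem (Jd_mul_right h _ hx) (Jd_mul_left _ hy)

theorem Jd_pow_sub (h : IsTracialState τ) {x y : A} (hx : x - y ∈ Jd τ) (m : ℕ) :
    x ^ m - y ^ m ∈ Jd τ := by
  induction m with
  | zero => rw [pow_zero, pow_zero, sub_self]; exact (Jd τ).zero_mem
  | succ m ih => rw [pow_succ, pow_succ]; exact Jd_mul_sub h ih hx

theorem mul_mem_Jd (h : IsTracialState τ) {a b : A} (ha : 0 ≤ a) (hb : 0 ≤ b)
    (hab : (τ (a * b)).re ≤ 0) : a * b ∈ Jd τ := by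
  obtain ⟨s, rfl⟩ := CStarAlgebra.nonneg_iff_eq_star_mul_self.1 ha
  obtain ⟨t, rfl⟩ := CStarAlgebra.nonneg_iff_eq_star_mul_self.1 hb
  have h1 : t * star s ∈ Jd τ := by
    refine mem_Jd.2 (Real.sqrt_eq_zero_of_nonpos ?_)
    have e : star (t * star s) * (t * star s) = (s * (star t * t)) * star s := by
      rw [star_mul, star_star]; noncomm_ring
    rw [e, h.2, ← mul_assoc]
    exact hab
  have h2 := Jd_mul_right h t (Jd_mul_left (star s) (Jd_star h h1))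
  have e : star s * s * (star t * t) = star s * star (t * star s) * t := by
    rw [star_mul, star_star]; noncomm_ring
  rwa [e]

theorem isIdl_Jd {G : Type} [Group G] (h : IsTracialState τ) (γ : G →* (A ≃⋆ₐ[ℂ] A))
    (hγ : ∀ g x, τ (γ g x) = τ x) (T : Set A) : IsIdl γ T (Jd τ) := by
  exact ⟨isClosed_Jd τ, fun c _ _ hx => Jd_mul_left c hx, fun _ hx => Jd_star h hx,
    fun g _ hx => Jd_aut (γ g) (hγ g) hx⟩

theorem TP.of_tr {p : A} (h0 : 0 ≤ p) (h1 : p ≤ 1) (h2 : (τ p).re ≤ (τ (p * p)).re) :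
    TP τ p := by
  refine ⟨h0, h1, ?_⟩
  have h3 : 0 ≤ p - p * p := by
    have h4 : Commute p (1 - p) := (Commute.one_right p).sub_right (Commute.refl p)
    have h5 := h4.mul_nonneg h0 (sub_nonneg.2 h1)
    rwa [mul_sub, mul_one] at h5
  have h6 := mem_Jd_of_nonneg (τ := τ) h3 (by rw [map_sub, Complex.sub_re]; linarith)
  have h7 := (Jd τ).neg_mem h6
  rwa [neg_sub] at h7

theorem TP.tr_sq (h : IsTracialState τ) {p : A} (hp : TP τ p) : τ (p * p) = τ p := by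
  exact tr_eq_of_Jd h hp.idem

theorem TP.pow_sub (h : IsTracialState τ) {p : A} (hp : TP τ p) (m : ℕ) :
    p ^ (m + 1) - p ∈ Jd τ := by
  induction m with
  | zero => rw [zero_add, pow_one, sub_self]; exact (Jd τ).zero_mem
  | succ m ih =>
    have e : p ^ (m + 1 + 1) - p = (p ^ (m + 1) - p) * p + (p * p - p) := by
      rw [pow_succ p (m + 1)]; noncomm_ring
    rw [e]
    exact (Jd τ).add_mem (Jd_mul_right h _ ih) hp.idem

theorem TP.aut (θ : A ≃⋆ₐ[ℂ] A) (hθ : ∀ x, τ (θ x) = τ x) {p : A} (hp : TP τ p) :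
    TP τ (θ p) := by
  refine ⟨map_nonneg θ hp.nonneg, ?_, ?_⟩
  · have h1 := map_nonneg θ (sub_nonneg.2 hp.le_one)
    rwa [map_sub, map_one, sub_nonneg] at h1
  · have h1 := Jd_aut θ hθ hp.idem
    rwa [map_sub, map_mul] at h1

theorem TP.of_sub_mem (h : IsTracialState τ) {p r : A} (hp : TP τ p) (h0 : 0 ≤ r) (h1 : r ≤ 1)
    (hr : r - p ∈ Jd τ) : TP τ r := by
  refine ⟨h0, h1, ?_⟩
  have e : r * r - r = (r * r - p * p) + (p * p - p) - (r - p) := by abel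
  rw [e]
  exact (Jd τ).sub_mem ((Jd τ).add_mem (Jd_mul_sub h hr hr) hp.idem) hr

variable {G ι : Type} [Group G] {γ : G →* (A ≃⋆ₐ[ℂ] A)}

theorem IsCopy.n2_eq {T0 T : Set A} {𝒮 : StarSubalgebra ℂ A} {Ψ : A →ₗ[ℂ] A}
    (h : IsCopy τ γ T0 T 𝒮 Ψ) {x : A} (hx : x ∈ 𝒮) : n2 τ (Ψ x) = n2 τ x := by
  unfold n2
  rw [← h.map_star x hx, ← h.map_mul _ (star_mem hx) x hx, h.tr _ (mul_mem (star_mem hx) hx)]

theorem Defn.n2_le {f : (ι → A) → A} (hf : IsTerm γ f) {c : ℝ} (hc : 0 ≤ c) :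
    Defn τ γ (fun x => n2 τ (f x) ≤ c) := by
  refine (Defn.tr_le (hf.star.mul hf) (c ^ 2)).congr fun x => ?_
  rw [← n2_sq]
  exact pow_le_pow_iff_left₀ (n2_nonneg τ _) hc two_ne_zero

theorem Defn.mem_Jd {f : (ι → A) → A} (hf : IsTerm γ f) : Defn τ γ (fun x => f x ∈ Jd τ) := by
  refine (Defn.n2_le hf le_rfl).congr fun x => ?_
  exact ⟨fun h => le_antisymm h (n2_nonneg τ _), fun h => (Izumi.mem_Jd.1 h).le⟩

theorem Saturated.approx_n2 (h : Saturated τ γ) [Countable ι] {κ κ' : Type} [Countable κ]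
    [Countable κ'] (R : ι → ℝ) {P : (ι → A) → Prop} (hP : Defn τ γ P) (f : κ → (ι → A) → A)
    (hf : ∀ k, IsTerm γ (f k)) (g : κ' → (ι → A) → A) (hg : ∀ k, IsTerm γ (g k))
    (H : ∀ (s : Finset κ) (s' : Finset κ') (ε : ℝ), 0 < ε → ∃ x : ι → A, (∀ i, ‖x i‖ ≤ R i) ∧
      P x ∧ (∀ k ∈ s, ‖f k x‖ ≤ ε) ∧ ∀ k ∈ s', n2 τ (g k x) ≤ ε) :
    ∃ x : ι → A, (∀ i, ‖x i‖ ≤ R i) ∧ P x ∧ (∀ k, f k x = 0) ∧ ∀ k, g k x ∈ Jd τ := by
  obtain ⟨x, h1, h2, h3, h4⟩ := h.approx R hP f hf (fun k x => -(star (g k x) * g k x))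
    (fun k => ((hg k).star.mul (hg k)).neg) (fun _ => 0) fun s s' ε hε => by
      obtain ⟨x, h1, h2, h3, h4⟩ := H s s' (min ε 1) (lt_min hε one_pos)
      refine ⟨x, h1, h2, fun k hk => (h3 k hk).trans (min_le_left _ _), fun k hk => ?_⟩
      have h5 := h4 k hk
      have h6 := n2_nonneg τ (g k x)
      have h7 := min_le_left ε 1
      have h8 := min_le_right ε 1
      rw [map_neg, Complex.neg_re, ← n2_sq]
      nlinarith
  refine ⟨x, h1, h2, h3, fun k => mem_Jd.2 (Real.sqrt_eq_zero_of_nonpos ?_)⟩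
  have h5 := h4 k
  rw [map_neg, Complex.neg_re] at h5
  linarith

end Pool.Agent.Izumi
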