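import Pool.Agent.Lib.MP_b2135d_an.YA
import Pool.Agent.Lib.MP_b2135d_an.YJ

/-! Local units in the trace kernel (PLAN section YT1). -/

namespace Pool.Agent.Izumi

open scoped ComplexOrder
open Filter Topology

variable {G A : Type} [Group G] [CStarAlgebra A] [PartialOrder A] [StarOrderedRing A]

theorem yt1_small {c x b : A} (hc : IsSelfAdjoint c) (hx : x * star x ≤ b) {ε : ℝ} (hε : 0 ≤ ε)
    (hb : ‖c * b * c‖ ≤ ε ^ 2) : ‖c * x‖ ≤ ε := by
  have h1 : star c * (x * star x) * c ≤ star c * b * c := star_left_conjugate_le_conjugate hx c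
  rw [hc.star_eq] at h1
  have e1 : c * (x * star x) * c = (c * x) * star (c * x) := by
    rw [star_mul, hc.star_eq]; simp only [mul_assoc]
  rw [e1] at h1
  have h2 := CStarAlgebra.norm_le_norm_of_nonneg_of_le (mul_star_self_nonneg (c * x)) h1
  rw [CStarRing.norm_self_mul_star] at h2
  exact le_of_sq_le_sq (by rw [sq]; exact h2.trans hb) hε

theorem yt1_cut {b : A} (hb : 0 ≤ b) {d : ℝ} (hd : 0 < d) :
    ∃ e c : A, 0 ≤ e ∧ e ≤ 1 ∧ e = c * b ∧ ‖(1 - e) * b * (1 - e)‖ ≤ d := by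
  have hsa : IsSelfAdjoint b := IsSelfAdjoint.of_nonneg hb
  have hm : ∀ t : ℝ, 0 < max t d := fun t => lt_max_of_lt_right hd
  have hg : Continuous (fun t : ℝ => (max t d)⁻¹) :=
    (continuous_id.max continuous_const).inv₀ fun t => (hm t).ne'
  have hf : Continuous (fun t : ℝ => (max t d)⁻¹ * t) := hg.mul continuous_id
  have hs : ∀ t ∈ spectrum ℝ b, 0 ≤ t := fun t ht => spectrum_nonneg_of_nonneg hb ht
  have hf1 : ∀ t : ℝ, (max t d)⁻¹ * t ≤ 1 := fun t => by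
    rw [inv_mul_le_iff₀ (hm t), mul_one]; exact le_max_left _ _
  refine ⟨cfc (fun t : ℝ => (max t d)⁻¹ * t) b, cfc (fun t : ℝ => (max t d)⁻¹) b, ?_, ?_, ?_, ?_⟩
  · exact cfc_nonneg fun t ht => mul_nonneg (inv_nonneg.2 (hm t).le) (hs t ht)
  · exact cfc_le_one _ _ fun t _ => hf1 t
  · rw [cfc_mul _ _ b hg.continuousOn (continuousOn_id' _), cfc_id' ℝ b]
  · have e1 : 1 - cfc (fun t : ℝ => (max t d)⁻¹ * t) b
        = cfc (fun t : ℝ => 1 - (max t d)⁻¹ * t) b := by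
      rw [cfc_sub _ _ b continuousOn_const hf.continuousOn, cfc_const_one ℝ b]
    have hk : Continuous (fun t : ℝ => 1 - (max t d)⁻¹ * t) := continuous_const.sub hf
    have e2 : cfc (fun t : ℝ => (1 - (max t d)⁻¹ * t) * t * (1 - (max t d)⁻¹ * t)) b
        = cfc (fun t : ℝ => 1 - (max t d)⁻¹ * t) b * b
          * cfc (fun t : ℝ => 1 - (max t d)⁻¹ * t) b := by
      have hk2 : Continuous (fun t : ℝ => (1 - (max t d)⁻¹ * t) * t) := hk.mul continuous_id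
      rw [cfc_mul _ _ b hk2.continuousOn hk.continuousOn,
        cfc_mul _ _ b hk.continuousOn (continuousOn_id' _), cfc_id' ℝ b]
    rw [e1, ← e2]
    refine norm_cfc_le hd.le fun t ht => ?_
    have h0 := hs t ht
    have h1 : 0 ≤ 1 - (max t d)⁻¹ * t := sub_nonneg.2 (hf1 t)
    have h2 : 1 - (max t d)⁻¹ * t ≤ 1 := sub_le_self _ (mul_nonneg (inv_nonneg.2 (hm t).le) h0)
    rw [Real.norm_of_nonneg (mul_nonneg (mul_nonneg h1 h0) h1)]
    rcases le_total t d with h | h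
    · calc (1 - (max t d)⁻¹ * t) * t * (1 - (max t d)⁻¹ * t) ≤ 1 * t * 1 :=
            mul_le_mul (mul_le_mul_of_nonneg_right h2 h0) h2 h1 (by positivity)
        _ ≤ d := by rw [one_mul, mul_one]; exact h
    · rw [max_eq_left h, inv_mul_cancel₀ (hd.trans_le h).ne', sub_self, mul_zero]
      exact hd.le

theorem yt1_fin {τ : A →ₚ[ℂ] ℂ} (h : IsTracialState τ) {κ : Type} (s : Finset κ) (r : κ → A)
    (hJ : ∀ k, r k ∈ Jd τ) {ε : ℝ} (hε : 0 < ε) :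
    ∃ e : A, 0 ≤ e ∧ e ≤ 1 ∧ e ∈ Jd τ ∧ ∀ k ∈ s, ‖e * r k - r k‖ ≤ ε ∧ ‖r k * e - r k‖ ≤ ε := by
  have hp : ∀ k, 0 ≤ r k * star (r k) + star (r k) * r k := fun k =>
    add_nonneg (mul_star_self_nonneg _) (star_mul_self_nonneg _)
  have hb : 0 ≤ ∑ k ∈ s, (r k * star (r k) + star (r k) * r k) :=
    Finset.sum_nonneg fun k _ => hp k
  have hbJ : ∑ k ∈ s, (r k * star (r k) + star (r k) * r k) ∈ Jd τ :=
    Submodule.sum_mem _ fun k _ =>
      Submodule.add_mem _ (Jd_mul_right h _ (hJ k)) (Jd_mul_left _ (hJ k))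
  obtain ⟨e, c, h0, h1, h2, h3⟩ := yt1_cut hb (pow_pos hε 2)
  have hsa : IsSelfAdjoint (1 - e) := IsSelfAdjoint.of_nonneg (sub_nonneg.2 h1)
  refine ⟨e, h0, h1, by rw [h2]; exact Jd_mul_left _ hbJ, fun k hk => ?_⟩
  have h4 := Finset.single_le_sum (f := fun k => r k * star (r k) + star (r k) * r k)
    (fun k _ => hp k) hk
  have h5 := yt1_small hsa ((le_add_of_nonneg_right (star_mul_self_nonneg (r k))).trans h4)
    hε.le h3
  have h6 : ‖(1 - e) * star (r k)‖ ≤ ε := by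
    refine yt1_small hsa ?_ hε.le h3
    rw [star_star]
    exact (le_add_of_nonneg_left (mul_star_self_nonneg (r k))).trans h4
  constructor
  · rwa [sub_mul, one_mul, norm_sub_rev] at h5
  · rwa [← norm_star, star_mul, star_star, hsa.star_eq, mul_sub, mul_one, norm_sub_rev] at h6

theorem Sat.unit (S : Sat G A) {R : Set A} (hR : R.Countable) (hJ : ∀ r ∈ R, r ∈ Jd S.τ) :
    ∃ e : A, 0 ≤ e ∧ e ≤ 1 ∧ e ∈ Jd S.τ ∧ ∀ r ∈ R, e * r = r ∧ r * e = r := by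
  have := hR.to_subtype
  have hv : IsTerm S.γ (fun x : Unit → A => x ()) := IsTerm.var ()
  obtain ⟨x, -, ⟨⟨h0, h1⟩, h2⟩, h3⟩ := S.sat.approx_eq (ι := Unit) (κ := R × Bool) (fun _ => 1)
    ((Defn.between hv).and (Defn.mem_Jd hv))
    (fun k x => bif k.2 then x () * k.1.1 - k.1.1 else k.1.1 * x () - k.1.1)
    (fun k => by
      obtain ⟨r, b⟩ := k
      cases b
      · exact ((IsTerm.const _).mul hv).sub (IsTerm.const _)
      · exact (hv.mul (IsTerm.const _)).sub (IsTerm.const _))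
    (fun s ε hε => by
      obtain ⟨e, h0, h1, h2, h3⟩ := yt1_fin S.tr s (fun k => k.1.1) (fun k => hJ _ k.1.2) hε
      refine ⟨fun _ => e, fun _ => (CStarAlgebra.norm_le_one_iff_of_nonneg e h0).2 h1,
        ⟨⟨h0, h1⟩, h2⟩, fun k hk => ?_⟩
      obtain ⟨r, b⟩ := k
      cases b
      · exact (h3 _ hk).2
      · exact (h3 _ hk).1)
  exact ⟨x (), h0, h1, h2, fun r hr =>
    ⟨sub_eq_zero.1 (h3 (⟨r, hr⟩, true)), sub_eq_zero.1 (h3 (⟨r, hr⟩, false))⟩⟩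

theorem yt1_norm {y : A} (hy : IsSelfAdjoint y) {c : ℝ} (hc : 0 ≤ c) (h1 : y ≤ algebraMap ℝ A c)
    (h2 : -algebraMap ℝ A c ≤ y) : ‖y‖ ≤ c := by
  rw [← map_neg] at h2
  have h3 := (le_algebraMap_iff_spectrum_le (r := c) (a := y) hy).1 h1
  have h4 := (algebraMap_le_iff_le_spectrum (r := -c) (a := y) hy).1 h2
  rw [← cfc_id' ℝ y]
  exact norm_cfc_le hc fun t ht => abs_le.2 ⟨h4 t ht, h3 t ht⟩

theorem yt1_seq (S : Sat G A) {R : Set A} (hR : R.Countable) (hJ : ∀ r ∈ R, r ∈ Jd S.τ)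
    {κ : Type} [Countable κ] (θ : κ → (A ≃⋆ₐ[ℂ] A)) (hθ : ∀ k x, S.τ (θ k x) = S.τ x) :
    ∃ e : ℕ → A, (∀ n, 0 ≤ e n ∧ e n ≤ 1 ∧ e n ∈ Jd S.τ ∧ ∀ r ∈ R, e n * r = r ∧ r * e n = r) ∧
      ∀ k n, θ k (e n) ≤ e (n + 1) := by
  let P : A → Prop := fun e => 0 ≤ e ∧ e ≤ 1 ∧ e ∈ Jd S.τ ∧ ∀ r ∈ R, e * r = r ∧ r * e = r
  have step : ∀ e : {e // P e}, ∃ e' : {e // P e}, ∀ k, θ k e.1 ≤ e'.1 := by
    rintro ⟨e, h0, h1, h2, -⟩
    obtain ⟨e', g0, g1, g2, g3⟩ := S.unit (R := R ∪ Set.range fun k => θ k e)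
      (hR.union (Set.countable_range _)) (by
        rintro r (hr | ⟨k, rfl⟩)
        · exact hJ r hr
        · exact Jd_aut _ (hθ k) h2)
    refine ⟨⟨e', g0, g1, g2, fun r hr => g3 r (Or.inl hr)⟩, fun k => ?_⟩
    refine le_of_mul_eq g0 ?_ ?_ (g3 _ (Or.inr ⟨k, rfl⟩)).1
    · have := OrderHomClass.mono (θ k) h0
      rwa [map_zero] at this
    · have := OrderHomClass.mono (θ k) h1
      rwa [map_one] at this
  choose F hF using step
  obtain ⟨e0, he0⟩ := S.unit hR hJ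
  refine ⟨fun n => (F^[n] ⟨e0, he0⟩).1, fun n => (F^[n] ⟨e0, he0⟩).2, fun k n => ?_⟩
  change θ k (F^[n] ⟨e0, he0⟩).1 ≤ (F^[n + 1] ⟨e0, he0⟩).1
  rw [Function.iterate_succ_apply']
  exact hF _ k

theorem yt1_avg (S : Sat G A) {R : Set A} (hR : R.Countable) (hJ : ∀ r ∈ R, r ∈ Jd S.τ)
    {κ : Type} [Countable κ] (θ : κ → (A ≃⋆ₐ[ℂ] A)) (hθ : ∀ k x, S.τ (θ k x) = S.τ x)
    {ε : ℝ} (hε : 0 < ε) :
    ∃ m : A, (0 ≤ m ∧ m ≤ 1) ∧ m ∈ Jd S.τ ∧ (∀ r ∈ R, m * r = r ∧ r * m = r) ∧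
      ∀ k, θ k m ≤ m + algebraMap ℝ A ε := by
  obtain ⟨e, he, hs⟩ := yt1_seq S hR hJ θ hθ
  obtain ⟨n, hn⟩ := exists_nat_one_div_lt hε
  have hN : (0 : ℝ) < (n : ℝ) + 1 := by positivity
  have hc : (0 : ℝ) ≤ 1 / ((n : ℝ) + 1) := by positivity
  have hsum : ∀ y : A, (1 / ((n : ℝ) + 1)) • ∑ _i ∈ Finset.range (n + 1), y = y := fun y => by
    rw [Finset.sum_const, Finset.card_range, ← Nat.cast_smul_eq_nsmul ℝ, smul_smul,
      Nat.cast_succ, one_div, inv_mul_cancel₀ hN.ne', one_smul]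
  refine ⟨(1 / ((n : ℝ) + 1)) • ∑ i ∈ Finset.range (n + 1), e i, ⟨?_, ?_⟩, ?_, ?_, ?_⟩
  · exact smul_nonneg hc (Finset.sum_nonneg fun i _ => (he i).1)
  · calc _ ≤ (1 / ((n : ℝ) + 1)) • ∑ _i ∈ Finset.range (n + 1), (1 : A) :=
          smul_le_smul_of_nonneg_left (Finset.sum_le_sum fun i _ => (he i).2.1) hc
      _ = 1 := hsum 1
  · rw [← Complex.coe_smul]
    exact Submodule.smul_mem _ _ (Submodule.sum_mem _ fun i _ => (he i).2.2.1)
  · intro r hr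
    constructor
    · rw [smul_mul_assoc, Finset.sum_mul,
        Finset.sum_congr rfl fun i _ => ((he i).2.2.2 r hr).1, hsum]
    · rw [mul_smul_comm, Finset.mul_sum,
        Finset.sum_congr rfl fun i _ => ((he i).2.2.2 r hr).2, hsum]
  · intro k
    have e1 : θ k ((1 / ((n : ℝ) + 1)) • ∑ i ∈ Finset.range (n + 1), e i)
        = (1 / ((n : ℝ) + 1)) • ∑ i ∈ Finset.range (n + 1), θ k (e i) := by
      rw [← Complex.coe_smul, map_smul, map_sum, Complex.coe_smul]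
    have h1 : ∑ i ∈ Finset.range (n + 1), θ k (e i) ≤ ∑ i ∈ Finset.range (n + 1), e i + 1 := by
      refine (Finset.sum_le_sum fun i _ => hs k i).trans ?_
      have h2 := Finset.sum_range_succ' e (n + 1)
      rw [Finset.sum_range_succ] at h2
      calc ∑ i ∈ Finset.range (n + 1), e (i + 1)
          ≤ ∑ i ∈ Finset.range (n + 1), e (i + 1) + e 0 := le_add_of_nonneg_right (he 0).1
        _ = ∑ i ∈ Finset.range (n + 1), e i + e (n + 1) := h2.symm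
        _ ≤ _ := add_le_add_right (he (n + 1)).2.1 _
    rw [e1]
    refine (smul_le_smul_of_nonneg_left h1 hc).trans ?_
    rw [smul_add, Algebra.algebraMap_eq_smul_one]
    exact add_le_add_right (smul_le_smul_of_nonneg_right hn.le zero_le_one) _

theorem yt1_inv (S : Sat G A) {R : Set A} (hR : R.Countable) (hJ : ∀ r ∈ R, r ∈ Jd S.τ)
    {κ : Type} [Countable κ] (θ : κ → (A ≃⋆ₐ[ℂ] A)) (hθ : ∀ k x, S.τ (θ k x) = S.τ x)
    {ε : ℝ} (hε : 0 < ε) :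
    ∃ m : A, (0 ≤ m ∧ m ≤ 1) ∧ m ∈ Jd S.τ ∧ (∀ r ∈ R, m * r = r ∧ r * m = r) ∧
      ∀ k, ‖θ k m - m‖ ≤ ε := by
  obtain ⟨m, h0, h1, h2, h3⟩ := yt1_avg S hR hJ (κ := κ ⊕ κ)
    (Sum.elim θ fun k => (θ k).symm) (by
      rintro (k | k) x
      · exact hθ k x
      · have := hθ k ((θ k).symm x)
        rw [StarAlgEquiv.apply_symm_apply] at this
        exact this.symm) hε
  refine ⟨m, h0, h1, h2, fun k => ?_⟩
  have hm : IsSelfAdjoint m := IsSelfAdjoint.of_nonneg h0.1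
  have h4 : θ k m ≤ m + algebraMap ℝ A ε := h3 (Sum.inl k)
  have h5 : (θ k).symm m ≤ m + algebraMap ℝ A ε := h3 (Sum.inr k)
  have h6 : θ k ((θ k).symm m) ≤ θ k (m + algebraMap ℝ A ε) := OrderHomClass.mono (θ k) h5
  have h7 : θ k (algebraMap ℝ A ε) = algebraMap ℝ A ε := by
    rw [Algebra.algebraMap_eq_smul_one, ← Complex.coe_smul, map_smul, map_one]
  rw [StarAlgEquiv.apply_symm_apply, map_add, h7] at h6
  refine yt1_norm ((hm.map (θ k)).sub hm) hε.le ?_ ?_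
  · rw [sub_le_iff_le_add']; exact h4
  · rw [neg_le_sub_iff_le_add]; exact h6

theorem Sat.sigma [Countable G] (S : Sat G A) {T R : Set A} (hT : T.Countable) (hR : R.Countable)
    (hJ : ∀ r ∈ R, r ∈ Jd S.τ) : ∃ e : A, 0 ≤ e ∧ e ≤ 1 ∧ e ∈ Jd S.τ ∧ (∀ g, S.γ g e = e) ∧
      e ∈ cent T ∧ ∀ r ∈ R, e * r = r ∧ r * e = r := by
  obtain ⟨U, hU, hu, hc⟩ := exists_unitaries hT
  have := hU.to_subtype
  have hv : IsTerm S.γ (fun x : Unit → A => x ()) := IsTerm.var ()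
  let θ : G ⊕ U → (A ≃⋆ₐ[ℂ] A) :=
    Sum.elim (fun g => S.γ g) fun u => Unitary.conjStarAlgAut ℂ A ⟨u.1, hu u.1 u.2⟩
  have hθu : ∀ (u : U) (x : A), θ (Sum.inr u) x = u.1 * x * star u.1 := fun u x => rfl
  have hθ : ∀ k x, S.τ (θ k x) = S.τ x := by
    rintro (g | u) x
    · exact S.inv g x
    · rw [hθu, S.tr.2, ← mul_assoc, (Unitary.mem_iff.1 (hu u.1 u.2)).1, one_mul]
  obtain ⟨x, -, ⟨⟨h0, h1⟩, h2, h3⟩, h4⟩ := S.sat.approx_eq (ι := Unit) (κ := G ⊕ U) (fun _ => 1)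
    ((Defn.between hv).and ((Defn.mem_Jd hv).and (Defn.forall_mem hR fun r _ =>
      (Defn.eq (hv.mul (IsTerm.const r)) (IsTerm.const r)).and
        (Defn.eq ((IsTerm.const r).mul hv) (IsTerm.const r)))))
    (fun k x => θ k (x ()) - x ())
    (by
      rintro (g | u)
      · exact (hv.act g).sub hv
      · exact (((IsTerm.const u.1).mul hv).mul (IsTerm.const (star u.1))).sub hv)
    (fun s ε hε => by
      obtain ⟨m, h0, h1, h2, h3⟩ := yt1_inv S hR hJ θ hθ hε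
      exact ⟨fun _ => m, fun _ => (CStarAlgebra.norm_le_one_iff_of_nonneg m h0.1).2 h0.2,
        ⟨h0, h1, h2⟩, fun k _ => h3 k⟩)
  refine ⟨x (), h0, h1, h2, fun g => sub_eq_zero.1 (h4 (Sum.inl g)), hc _ fun u hu' => ?_, h3⟩
  have h5 : u * x () * star u = x () := sub_eq_zero.1 (h4 (Sum.inr ⟨u, hu'⟩))
  have h6 : u * x () * star u * u = x () * u := by rw [h5]
  rw [mul_assoc, (Unitary.mem_iff.1 (hu u hu')).1, mul_one] at h6
  exact h6.symm

end Pool.Agent.Izumi
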