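import Pool.Agent.Lib.MP_b2135d_an.YE
import Pool.Agent.Lib.MP_b2135d_an.YJ

/-! Logarithms modulo the trace kernel (PLAN section YT2). -/

namespace Pool.Agent.Izumi

open scoped ComplexOrder
open Filter Topology

variable {G A : Type} [Group G] [CStarAlgebra A] [PartialOrder A] [StarOrderedRing A]

theorem yt2_fun {l : ℂ} (hl : ‖l‖ = 1) {r : ℝ} (hr : 0 < r) :
    ∃ f : ℂ → ℝ, ContinuousOn f (Metric.sphere 0 1) ∧ (∀ z, |f z| ≤ 10) ∧
      ∀ z : ℂ, ‖z‖ = 1 → r ≤ ‖z - l‖ → Complex.exp (Complex.I * f z) = z := by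
  have hll : (starRingEnd ℂ) l * l = 1 := by
    rw [Complex.conj_mul', hl]; simp
  have hm0 : ∀ z : ℂ, 0 ≤ min 1 (‖z - l‖ / r) := fun z => le_min zero_le_one (by positivity)
  have hm1 : ∀ z : ℂ, min 1 (‖z - l‖ / r) ≤ 1 := fun z => min_le_left _ _
  have hmc : Continuous fun z : ℂ => min 1 (‖z - l‖ / r) := by fun_prop
  refine ⟨fun z => Complex.arg (-(starRingEnd ℂ) l * z) * min 1 (‖z - l‖ / r) + Complex.arg (-l),
    ?_, ?_, ?_⟩
  · intro z hz
    have hz1 : ‖z‖ = 1 := by simpa using hz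
    refine ContinuousAt.continuousWithinAt (ContinuousAt.add ?_ continuousAt_const)
    by_cases hzl : z = l
    · subst hzl
      have h0 : Tendsto (fun w : ℂ => min 1 (‖w - z‖ / r)) (𝓝 z) (𝓝 0) := by
        have := hmc.tendsto z
        simpa using this
      have h1 : Tendsto (fun w : ℂ => Complex.arg (-(starRingEnd ℂ) z * w) * min 1 (‖w - z‖ / r))
          (𝓝 z) (𝓝 0) := by
        refine squeeze_zero_norm (a := fun w => Real.pi * min 1 (‖w - z‖ / r)) (fun w => ?_) ?_
        · rw [norm_mul, Real.norm_eq_abs, Real.norm_eq_abs, abs_of_nonneg (hm0 w)]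
          exact mul_le_mul_of_nonneg_right (Complex.abs_arg_le_pi _) (hm0 w)
        · simpa using h0.const_mul Real.pi
      unfold ContinuousAt
      simpa using h1
    · refine ContinuousAt.mul ?_ hmc.continuousAt
      have hs : -(starRingEnd ℂ) l * z ∈ Complex.slitPlane := by
        by_contra hc
        have hn : ‖-(starRingEnd ℂ) l * z‖ = 1 := by
          rw [norm_mul, norm_neg, Complex.norm_conj, hl, hz1, one_mul]
        rw [Complex.mem_slitPlane_iff, not_or, not_lt, not_not] at hc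
        have he : -(starRingEnd ℂ) l * z = -1 := by
          have h2 := Complex.sq_norm (-(starRingEnd ℂ) l * z)
          rw [hn, Complex.normSq_apply, hc.2] at h2
          apply Complex.ext
          · rw [Complex.neg_re, Complex.one_re]; nlinarith [hc.1]
          · rw [hc.2]; simp
        apply hzl
        calc z = (starRingEnd ℂ) l * l * z := by rw [hll, one_mul]
          _ = -l * (-(starRingEnd ℂ) l * z) := by ring
          _ = l := by rw [he]; ring
      exact (Complex.continuousAt_arg hs).comp (f := fun z : ℂ => -(starRingEnd ℂ) l * z)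
        (by fun_prop)
  · intro z
    have h1 := Complex.abs_arg_le_pi (-(starRingEnd ℂ) l * z)
    have h2 := Complex.abs_arg_le_pi (-l)
    have h3 := Real.pi_le_four
    have h4 : |Complex.arg (-(starRingEnd ℂ) l * z) * min 1 (‖z - l‖ / r)| ≤ Real.pi := by
      rw [abs_mul, abs_of_nonneg (hm0 z)]
      exact (mul_le_of_le_one_right (abs_nonneg _) (hm1 z)).trans h1
    exact (abs_add_le _ _).trans (by linarith)
  · intro z hz hzl
    have hm : min 1 (‖z - l‖ / r) = 1 := min_eq_left ((one_le_div hr).2 hzl)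
    have hn : ‖-(starRingEnd ℂ) l * z‖ = 1 := by
      rw [norm_mul, norm_neg, Complex.norm_conj, hl, hz, one_mul]
    have e1 := Complex.norm_mul_exp_arg_mul_I (-(starRingEnd ℂ) l * z)
    have e2 := Complex.norm_mul_exp_arg_mul_I (-l)
    rw [hn, Complex.ofReal_one, one_mul] at e1
    rw [norm_neg, hl, Complex.ofReal_one, one_mul] at e2
    simp only [hm, mul_one]
    rw [Complex.ofReal_add, mul_add, Complex.exp_add, mul_comm Complex.I, mul_comm Complex.I, e1, e2]
    linear_combination z * hll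

theorem yt2_pts (M : ℕ) (hM : 0 < M) : ∃ l : ℕ → ℂ, (∀ j < M, ‖l j‖ = 1) ∧
    ∀ z : ℂ, ∀ j k : ℕ, ‖z - l j‖ < 1 / (2 * M) → ‖z - l k‖ < 1 / (2 * M) → j = k := by
  have hM' : (0 : ℝ) < M := Nat.cast_pos.2 hM
  refine ⟨fun j => ⟨(j : ℝ) / M, √(1 - ((j : ℝ) / M) ^ 2)⟩, fun j hj => ?_, fun z j k hj hk => ?_⟩
  · have h1 : (j : ℝ) / M ≤ 1 := (div_le_one hM').2 (Nat.cast_le.2 hj.le)
    have h0 : 0 ≤ (j : ℝ) / M := by positivity
    have h2 : 0 ≤ 1 - ((j : ℝ) / M) ^ 2 := by nlinarith
    rw [Complex.norm_eq_sqrt_sq_add_sq, Real.sq_sqrt h2]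
    simp
  · have h1 := (Complex.abs_re_le_norm _).trans_lt hj
    have h2 := (Complex.abs_re_le_norm _).trans_lt hk
    rw [Complex.sub_re, abs_lt] at h1 h2
    simp only at h1 h2
    have e : (1 : ℝ) / (2 * M) + 1 / (2 * M) = 1 / M := by field_simp; ring
    have h3 : (j : ℝ) / M < (k + 1) / M := by rw [add_div]; linarith [h1.1, h2.2]
    have h4 : (k : ℝ) / M < (j + 1) / M := by rw [add_div]; linarith [h1.2, h2.1]
    rw [div_lt_div_iff_of_pos_right hM'] at h3 h4
    have h5 : j < k + 1 := by exact_mod_cast h3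
    have h6 : k < j + 1 := by exact_mod_cast h4
    omega

omit [PartialOrder A] [StarOrderedRing A] in
theorem yt2_op {u : A} (hu : u ∈ unitary A) {f : ℂ → ℝ} (hf : ContinuousOn f (Metric.sphere 0 1))
    (hb : ∀ z, |f z| ≤ 10) : ∃ h : A, IsSelfAdjoint h ∧ ‖h‖ ≤ 10 ∧
      (∀ T : Set A, u ∈ cent T → h ∈ cent T) ∧ star (ex h - u) * (ex h - u) =
        cfc (fun z : ℂ => star (Complex.exp (Complex.I * f z) - z) *
          (Complex.exp (Complex.I * f z) - z)) u := by
  have hn : IsStarNormal u := isStarNormal_of_mem_unitary hu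
  have hc : ContinuousOn (fun z : ℂ => (f z : ℂ)) (spectrum ℂ u) :=
    Complex.continuous_ofReal.comp_continuousOn (hf.mono (spectrum.subset_circle_of_unitary hu))
  have hc' : ContinuousOn (fun z : ℂ => Complex.I * (f z : ℂ)) (spectrum ℂ u) :=
    continuousOn_const.mul hc
  have hc2 : ContinuousOn (fun z : ℂ => Complex.exp (Complex.I * (f z : ℂ))) (spectrum ℂ u) :=
    Complex.continuous_exp.comp_continuousOn hc'
  have hc3 : ContinuousOn (fun z : ℂ => Complex.exp (Complex.I * (f z : ℂ)) - z) (spectrum ℂ u) :=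
    hc2.sub continuousOn_id
  refine ⟨cfc (fun z : ℂ => (f z : ℂ)) u, ?_, ?_, fun T hT => ?_, ?_⟩
  · rw [IsSelfAdjoint, ← cfc_star]
    exact cfc_congr fun z _ => Complex.conj_ofReal _
  · exact norm_cfc_le (by norm_num) fun z _ => by
      rw [Complex.norm_real, Real.norm_eq_abs]; exact hb z
  · have hT' := mem_cent.1 (star_mem hT)
    rw [mem_cent] at hT ⊢
    exact fun t ht => ⟨(hT t ht).1.cfc (hT' t ht).1 _, (hT t ht).2.cfc (hT' t ht).2 _⟩
  · have e1 : ex (cfc (fun z : ℂ => (f z : ℂ)) u) =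
        cfc (fun z : ℂ => Complex.exp (Complex.I * (f z : ℂ))) u := by
      rw [ex, ← cfc_const_mul Complex.I _ u hc,
        ← CFC.complex_exp_eq_normedSpace_exp (p := IsStarNormal) (cfc_predicate _ _),
        ← cfc_comp' Complex.exp _ u Complex.continuous_exp.continuousOn hc']
    have e2 : ex (cfc (fun z : ℂ => (f z : ℂ)) u) - u =
        cfc (fun z : ℂ => Complex.exp (Complex.I * (f z : ℂ)) - z) u := by
      rw [e1, cfc_sub _ (fun z : ℂ => z) u hc2 continuousOn_id, cfc_id' ℂ u]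
    rw [e2, ← cfc_star, ← cfc_mul _ _ u hc3.star hc3]

theorem exists_log_approx {τ : A →ₚ[ℂ] ℂ} (hτ : IsTracialState τ) {u : A} (hu : u ∈ unitary A)
    {ε : ℝ} (hε : 0 < ε) : ∃ h : A, IsSelfAdjoint h ∧ ‖h‖ ≤ 10 ∧
      (∀ T : Set A, u ∈ cent T → h ∈ cent T) ∧ n2 τ (ex h - u) ≤ ε := by
  obtain ⟨M, hM⟩ := exists_nat_gt (4 / ε ^ 2)
  have hM' : (0 : ℝ) < M := lt_trans (by positivity) hM
  have hM0 : 0 < M := Nat.cast_pos.1 hM'
  obtain ⟨l, hl, hd⟩ := yt2_pts M hM0
  have hr : (0 : ℝ) < 1 / (2 * M) := by positivity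
  choose! f hfc hfb hfe using fun j (hj : j < M) => yt2_fun (hl j hj) hr
  choose! h hs hn hT he using fun j (hj : j < M) => yt2_op hu (hfc j hj) (hfb j hj)
  have hsp := spectrum.subset_circle_of_unitary (𝕜 := ℂ) hu
  have hsum : ‖∑ j ∈ Finset.range M, star (ex (h j) - u) * (ex (h j) - u)‖ ≤ 4 := by
    rw [Finset.sum_congr rfl fun j hj => he j (Finset.mem_range.1 hj), ← cfc_sum _ u _ ?_]
    · refine norm_cfc_le (by norm_num) fun z hz => ?_
      have hz1 : ‖z‖ = 1 := by simpa using hsp hz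
      have hb : ∀ j, ‖star (Complex.exp (Complex.I * f j z) - z) *
          (Complex.exp (Complex.I * f j z) - z)‖ ≤ 4 := fun j => by
        have h1 : ‖Complex.exp (Complex.I * f j z) - z‖ ≤ 2 := by
          refine (norm_sub_le _ _).trans ?_
          rw [Complex.norm_exp_I_mul_ofReal, hz1]; norm_num
        rw [norm_mul, norm_star]
        nlinarith [norm_nonneg (Complex.exp (Complex.I * f j z) - z)]
      have hz0 : ∀ j ∈ Finset.range M, ¬ ‖z - l j‖ < 1 / (2 * M) →
          star (Complex.exp (Complex.I * f j z) - z) *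
            (Complex.exp (Complex.I * f j z) - z) = 0 := fun j hj hzj => by
        rw [hfe j (Finset.mem_range.1 hj) z hz1 (not_lt.1 hzj), sub_self, mul_zero]
      rw [Finset.sum_apply]
      by_cases hex : ∃ j, ‖z - l j‖ < 1 / (2 * M)
      · obtain ⟨j, hj⟩ := hex
        by_cases hjM : j ∈ Finset.range M
        · rw [Finset.sum_eq_single_of_mem j hjM fun k hk hkj =>
            hz0 k hk fun hc => hkj (hd z k j hc hj)]
          exact hb j
        · rw [Finset.sum_eq_zero fun k hk => hz0 k hk fun hc => hjM (hd z k j hc hj ▸ hk)]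
          simp
      · rw [Finset.sum_eq_zero fun k hk => hz0 k hk fun hc => hex ⟨k, hc⟩]
        simp
    · intro j hj
      have hc : ContinuousOn (fun z : ℂ => Complex.exp (Complex.I * (f j z : ℂ)) - z)
          (spectrum ℂ u) :=
        (Complex.continuous_exp.comp_continuousOn (continuousOn_const.mul
          (Complex.continuous_ofReal.comp_continuousOn
            ((hfc j (Finset.mem_range.1 hj)).mono hsp)))).sub continuousOn_id
      exact hc.star.mul hc
  have hsq : ∑ j ∈ Finset.range M, n2 τ (ex (h j) - u) ^ 2 ≤ 4 := by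
    simp only [n2_sq]
    rw [← Complex.re_sum, ← map_sum]
    exact (Complex.re_le_norm _).trans ((tr_norm_le hτ _).trans hsum)
  obtain ⟨j, hj, hle⟩ : ∃ j ∈ Finset.range M, n2 τ (ex (h j) - u) ^ 2 ≤ ε ^ 2 := by
    apply Finset.exists_le_of_sum_le ⟨0, Finset.mem_range.2 hM0⟩
    rw [Finset.sum_const, Finset.card_range, nsmul_eq_mul]
    rw [div_lt_iff₀ (by positivity)] at hM
    linarith
  have hj' := Finset.mem_range.1 hj
  exact ⟨h j, hs j hj', hn j hj', hT j hj', (abs_le_of_sq_le_sq' hle hε.le).2⟩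

theorem Sat.exists_log (S : Sat G A) {T : Set A} (hT : T.Countable) {u : A} (hu : u ∈ unitary A)
    (huT : u ∈ cent T) :
    ∃ h ∈ cent T, IsSelfAdjoint h ∧ ‖h‖ ≤ 10 ∧ ex h - u ∈ Jd S.τ := by
  have := nontrivial_of_tr S.tr
  have hP : Defn S.τ S.γ (fun x : Bool → A => (star (x true) = x true ∧ x true ∈ cent T) ∧
      (‖x true‖ ≤ 10 ∧ x false = ex (x true))) :=
    ((Defn.eq (IsTerm.var true).star (IsTerm.var true)).and
      (Defn.mem_cent hT (IsTerm.var true))).and
        (Defn.ex_eq (IsTerm.var true) (IsTerm.var false) 10)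
  obtain ⟨x, -, ⟨⟨h1, h2⟩, h3, h4⟩, -, h5⟩ := S.sat.approx_n2 (κ := Empty) (κ' := Unit)
    (fun _ : Bool => 10) hP (fun k => k.elim) (fun k => k.elim) (fun _ x => x false - u)
    (fun _ => (IsTerm.var false).sub (IsTerm.const u)) (by
      intro s s' ε hε
      obtain ⟨h, hs, hn, hc, he⟩ := exists_log_approx S.tr hu hε
      refine ⟨fun b => bif b then h else ex h, fun b => ?_, ⟨⟨hs, hc T huT⟩, hn, rfl⟩,
        fun k => k.elim, fun _ _ => he⟩
      cases b
      · exact (CStarRing.norm_of_mem_unitary (ex_unitary hs)).le.trans (by norm_num)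
      · exact hn)
  exact ⟨x true, h2, h1, h3, h4 ▸ h5 ()⟩

end Pool.Agent.Izumi
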