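import Pool.Agent.Lib.MP_b2135d_an.YP1
import Pool.Agent.Lib.MP_b2135d_an.YB
import Pool.Agent.Lib.MP_b2135d_an.YT1
import Pool.Agent.Lib.MP_b2135d_an.YT2
import Pool.Agent.Lib.MP_b2135d_an.YQ3

/-! Flip unitaries that are connected to the unit (PLAN section YP2). -/

namespace Pool.Agent.Izumi

open scoped ComplexOrder
open Filter Topology

variable {G D A : Type} [Group G] [CStarAlgebra D] [PartialOrder D] [StarOrderedRing D]
  [CStarAlgebra A] [PartialOrder A] [StarOrderedRing A]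

omit [PartialOrder D] [StarOrderedRing D] [PartialOrder A] [StarOrderedRing A] in
theorem yp2_conj (p q : D →⋆ₐ[ℂ] A) {Y c z : A} (hY : ∀ x, Y * p x * star Y = q x)
    (hc : c ∈ unitary A) (hz : z ∈ unitary A) (h : z * c * star z ∈ cent (Set.range p)) (x : D) :
    Y * star (z * c * star z) * p x * star (Y * star (z * c * star z)) = q x := by
  have hw : z * c * star z ∈ unitary A := mul_mem (mul_mem hz hc) (Unitary.star_mem hz)
  generalize z * c * star z = w at h hw
  have h1 : w * p x = p x * w := (mem_cent_range.1 h x).eq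
  rw [star_mul, star_star, ← hY x]
  calc Y * star w * p x * (w * star Y) = Y * (star w * (p x * w)) * star Y := by
        simp only [mul_assoc]
    _ = Y * p x * star Y := by
        rw [← h1, ← mul_assoc (star w), Unitary.star_mul_self_of_mem hw, one_mul]

theorem yp2_sub_one {τ : A →ₚ[ℂ] ℂ} {a u : A} (ha : a ∈ unitary A) (h : a - u ∈ Jd τ) :
    star a * u - 1 ∈ Jd τ := by
  have h1 := (Jd τ).neg_mem (Jd_mul_left (star a) h)
  rwa [mul_sub, Unitary.star_mul_self_of_mem ha, neg_sub] at h1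

theorem TSys.flip_path (X : TSys G D A) (p q : D →⋆ₐ[ℂ] A) :
    ∃ Y : A, PathTo 100 Y ∧ ∀ x, Y * p x * star Y = q x := by
  have hall : ∀ x : A, x ∈ cent (∅ : Set A) := fun x => mem_cent.2 (by simp)
  obtain ⟨Y, hY, -, hYp⟩ := X.toAmb.uni0 Set.countable_empty p q (fun _ => hall _) (fun _ => hall _)
  obtain ⟨h, -, hh, hn, hJ⟩ := X.toSat.exists_log Set.countable_empty hY (hall _)
  have ha := ex_unitary hh
  have hc₁ : star (ex h) * Y ∈ unitary A := mul_mem (Unitary.star_mem ha) hY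
  have hJ₁ := yp2_sub_one ha hJ
  obtain ⟨z, hz, hzc⟩ := X.toAmb.exists_move p (star (ex h) * Y)
  obtain ⟨k, -, hk, hkn, hJ'⟩ := X.toSat.exists_log Set.countable_empty hz (hall _)
  have hb := ex_unitary hk
  have hc₂ : star (ex k) * z ∈ unitary A := mul_mem (Unitary.star_mem hb) hz
  have hJ₂ := yp2_sub_one hb hJ'
  refine ⟨_, ?_, yp2_conj p q hYp hc₁ hz hzc⟩
  have e₁ : Y = ex h * (star (ex h) * Y) := by
    rw [← mul_assoc, Unitary.mul_star_self_of_mem ha, one_mul]
  have e₂ : z = ex k * (star (ex k) * z) := by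
    rw [← mul_assoc, Unitary.mul_star_self_of_mem hb, one_mul]
  generalize star (ex h) * Y = c₁ at *
  generalize star (ex k) * z = c₂ at *
  obtain ⟨e, he0, he1, heJ, he⟩ := X.toSat.unit (R := {c₁ - 1, c₂ - 1})
    (Set.toFinite _).countable (by
      rintro r (rfl | rfl)
      · exact hJ₁
      · exact hJ₂)
  obtain ⟨v, hv, hev⟩ := X.si e (1 - e) he0 he1 (sub_nonneg.2 he1) (sub_le_self _ he0) heJ
    ⟨1, one_pos, fun m => by
      have h1 : (1 - e) - 1 ∈ Jd X.τ := by
        rw [sub_sub_cancel_left]; exact (Jd X.τ).neg_mem heJ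
      rw [tr_eq_of_Jd X.tr (Jd_pow_sub X.tr h1 m), one_pow, X.tr.1]
      simp⟩
  have hev' : e * v = 0 := by
    rw [sub_mul, one_mul, sub_eq_self] at hev
    exact hev
  have hen : ‖e‖ ≤ 1 := (CStarAlgebra.norm_le_one_iff_of_nonneg e he0).2 he1
  have h₁ := he _ (Set.mem_insert _ _)
  have h₂ := he _ (Set.mem_insert_of_mem _ (Set.mem_singleton _))
  have hP := (((pathTo_ex hh hn).mul ((pathTo_ex hk hkn).conj hc₁)).mul
    (pathTo_comm hc₁ hc₂ h₁.1 h₁.2 h₂.1 h₂.2 hv hev' hen)).mul (pathTo_ex hk hkn).star_path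
  have e₃ : Y * star (z * c₁ * star z) =
      ex h * (c₁ * ex k * star c₁) * (c₁ * c₂ * star c₁ * star c₂) * star (ex k) := by
    rw [e₁, e₂]
    simp only [star_mul, star_star, mul_assoc]
    rw [← mul_assoc (star c₁) c₁, Unitary.star_mul_self_of_mem hc₁, one_mul]
  rw [e₃]
  exact hP.mono (by norm_num)

theorem PSys.flip_path (X : PSys G D A) (p q : D →⋆ₐ[ℂ] A) :
    ∃ Y : A, PathTo 120 Y ∧ ∀ x, Y * p x * star Y = q x := by
  have hall : ∀ x : A, x ∈ cent (∅ : Set A) := fun x => mem_cent.2 (by simp)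
  obtain ⟨Y, hY, -, hYp⟩ := X.toAmb.uni0 Set.countable_empty p q (fun _ => hall _) (fun _ => hall _)
  obtain ⟨z, hz, hzc⟩ := X.toAmb.exists_move p Y
  refine ⟨_, ?_, yp2_conj p q hYp hY hz hzc⟩
  obtain ⟨t, ht, h₁, h₂⟩ := X.isoms (T := {Y, z}) (Set.toFinite _).countable 2
  have e : Y * star (z * Y * star z) = Y * z * star Y * star z := by
    simp only [star_mul, star_star, mul_assoc]
  rw [e]
  exact pathTo_comm_isom hY hz (h₁ 0) (h₁ 1) (h₂ 0 1 (by decide)) (ht 0)

end Pool.Agent.Izumi
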