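import Pool.Agent.Lib.MP_b2135d_an.YP1
import Pool.Agent.Lib.MP_b2135d_an.UB

/-! Lifting of paths (PLAN section YP3). -/

namespace Pool.Agent.Izumi

open scoped ComplexOrder
open Filter Topology

/-- A point at the end of a Lipschitz path in the ultrapower lifts to a chain of sequences of
unitaries whose consecutive terms are eventually at distance less than `2`. -/
theorem yp3_lift {D A : Type} [CStarAlgebra D] [CStarAlgebra A] {q : Bdd D →⋆ₐ[ℂ] A}
    (hq : IsUlt q) {L : ℝ} {Y : A} (hY : PathTo L Y) :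
    ∃ (N : ℕ) (x : ℕ → Bdd D), x 0 = 1 ∧ (∀ k n, (x k).1 n ∈ unitary D) ∧ q (x N) = Y ∧
      ∀ k, ∀ᶠ n in (hyperfilter ℕ : Filter ℕ), ‖(x (k + 1)).1 n - (x k).1 n‖ < 2 := by
  obtain ⟨w, hw, rfl⟩ := hY
  obtain ⟨N, hN⟩ := exists_nat_gt (max L 0)
  have hN0 : (0 : ℝ) < N := (le_max_right _ _).trans_lt hN
  have hLN : L < N := (le_max_left _ _).trans_lt hN
  have key : ∀ k : ℕ, ∃ x : Bdd D, q x = w ((k : ℝ) / N) ∧ (∀ n, x.1 n ∈ unitary D) ∧
      (k = 0 → x = 1) := by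
    intro k
    by_cases hk : k = 0
    · subst hk
      refine ⟨1, ?_, fun _ => one_mem _, fun _ => rfl⟩
      rw [map_one, Nat.cast_zero, zero_div, hw.zero]
    · obtain ⟨x, h1, h2⟩ := hq.exists_unitary_lift (hw.unit ((k : ℝ) / N))
      exact ⟨x, h1, h2, fun h => absurd h hk⟩
  choose x hx1 hx2 hx3 using key
  refine ⟨N, x, hx3 0 rfl, hx2, ?_, fun k => ?_⟩
  · rw [hx1, div_self hN0.ne']
  · refine hq.eventually_lt (x (k + 1) - x k) ?_
    rw [map_sub, hx1, hx1]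
    refine (hw.lip _ _).trans_lt ?_
    have e : ((k + 1 : ℕ) : ℝ) / N - (k : ℝ) / N = 1 / N := by
      rw [← sub_div, Nat.cast_succ, add_sub_cancel_left]
    rw [e, abs_of_pos (one_div_pos.2 hN0), mul_one_div, div_lt_iff₀ hN0]
    linarith

theorem path_of_ult {D A : Type} [CStarAlgebra D] [CStarAlgebra A] (S : DData D)
    {q : Bdd D →⋆ₐ[ℂ] A} (hq : IsUlt q) {L : ℝ} {Y : A} (hY : PathTo L Y)
    (h : ∀ x, Y * q (Bdd.const D (S.al x)) * star Y = q (Bdd.const D (S.be x))) :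
    ∃ L', S.Path L' := by
  obtain ⟨N, x, h0, hu, hN, hd⟩ := yp3_lift hq hY
  refine ⟨4 * N, fun s ε hε => ?_⟩
  have h1 : ∀ᶠ n in (hyperfilter ℕ : Filter ℕ), ∀ k ∈ Finset.range N,
      ‖(x (k + 1)).1 n - (x k).1 n‖ < 2 :=
    (Filter.eventually_all_finset _).2 fun k _ => hd k
  have h2 : ∀ᶠ n in (hyperfilter ℕ : Filter ℕ), ∀ a ∈ s,
      ‖(x N).1 n * S.al a * star ((x N).1 n) - S.be a‖ < ε := by
    refine (Filter.eventually_all_finset _).2 fun a _ => ?_
    have h3 : Tendsto (fun n => ‖(x N).1 n * S.al a * star ((x N).1 n) - S.be a‖)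
        (hyperfilter ℕ) (𝓝 0) := by
      refine (hq.eq_iff (x N * Bdd.const D (S.al a) * star (x N)) (Bdd.const D (S.be a))).1 ?_
      rw [map_mul, map_mul, map_star, hN]
      exact h a
    exact h3.eventually_lt_const hε
  obtain ⟨n, hn1, hn2⟩ := (h1.and h2).exists
  have h4 : (x 0).1 n = 1 := by rw [h0]; rfl
  obtain ⟨w, hw, hw1⟩ := pathTo_chain (fun k => (x k).1 n) N h4 (fun k _ => hu k n)
    (fun k hk => hn1 k (Finset.mem_range.2 hk))
  refine ⟨w, hw, fun a ha => ?_⟩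
  rw [hw1]
  exact (hn2 a ha).le

end Pool.Agent.Izumi
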