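import Pool.Agent.Lib.MP_b2135d_an.YQ1
import Pool.Agent.Lib.MP_b2135d_an.SC

/-! Wandering isometries (PLAN section YQ2). -/

namespace Pool.Agent.Izumi

open scoped ComplexOrder
open Filter Topology

variable {G D A : Type} [Group G] [Countable G] [CStarAlgebra D] [PartialOrder D]
  [StarOrderedRing D] [CStarAlgebra A] [PartialOrder A] [StarOrderedRing A]

theorem yq2_norm {A : Type} [CStarAlgebra A] {s : A} (hs : star s * s = 1) : ‖s‖ ≤ 1 := by
  rcases subsingleton_or_nontrivial A with h | h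
  · rw [Subsingleton.elim s 0, norm_zero]
    exact zero_le_one
  · have e := CStarRing.norm_star_mul_self (x := s)
    rw [hs, norm_one] at e
    nlinarith [norm_nonneg s]

theorem yq2_le_one {G A : Type} [Group G] [CStarAlgebra A] (γ : G →* (A ≃⋆ₐ[ℂ] A)) {s : A}
    (hs : star s * s = 1) (h : G) : ‖star s * γ h s‖ ≤ 1 := by
  refine (norm_mul_le _ _).trans ?_
  rw [norm_star, norm_act]
  exact mul_le_one₀ (yq2_norm hs) (norm_nonneg _) (yq2_norm hs)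

theorem PSys.prod_isom (X : PSys G D A) {s s' : A} (hF : s ∈ X.F) (hF' : s' ∈ X.F)
    (hs : star s * s = 1) (hs' : star s' * s' = 1) : ∃ t ∈ X.F, star t * t = 1 ∧
      ∀ h, ‖star t * X.γ h t‖ ≤ ‖star s * X.γ h s‖ * ‖star s' * X.γ h s'‖ := by
  obtain ⟨𝒮, Ψ, hS, hΨ⟩ := X.ic {s'} {s} (Set.countable_singleton _) (Set.countable_singleton _)
    (Set.singleton_subset_iff.2 hF')
  have h1 : s' ∈ 𝒮 := hS rfl
  have h2 : Ψ s' ∈ X.FT {s} := hΨ.mem s' h1
  have h3 : star (Ψ s') ∈ X.FT {s} := star_mem h2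
  refine ⟨s * Ψ s', mul_mem hF (X.FT_le_F _ h2), ?_, fun h => ?_⟩
  · rw [star_mul, mul_assoc, ← mul_assoc (star s), hs, one_mul, ← hΨ.map_star s' h1,
      ← hΨ.map_mul _ (star_mem h1) _ h1, hs', hΨ.map_one]
  · have c1 : Commute (star (Ψ s')) (star s) :=
      (mem_cent.1 (X.FT_le_cent _ h3) s rfl).2
    have c2 : Commute (star (Ψ s')) (X.γ h s) :=
      (mem_cent.1 h3 _ (Or.inr ⟨h, s, rfl, rfl⟩)).1
    have h4 := hΨ.act_mem h s' h1
    have e : star (s * Ψ s') * X.γ h (s * Ψ s') =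
        star s * X.γ h s * Ψ (star s' * X.γ h s') := by
      rw [hΨ.map_mul _ (star_mem h1) _ h4, hΨ.map_star s' h1, hΨ.map_act h s' h1, star_mul,
        map_mul, ← mul_assoc, mul_assoc (star (Ψ s')), (c1.mul_right c2).eq, mul_assoc]
    rw [e]
    exact (norm_mul_le _ _).trans (mul_le_mul_of_nonneg_left
      (hΨ.norm_le _ (mul_mem (star_mem h1) h4)) (norm_nonneg _))

theorem yq2_fin (X : PSys G D A) (K : Finset {h : G // h ≠ 1}) :
    ∃ t ∈ X.F, star t * t = 1 ∧ ∀ h ∈ K, ‖star t * X.γ h.1 t‖ < 1 := by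
  classical
  induction K using Finset.induction_on with
  | empty => exact ⟨1, one_mem _, by rw [star_one, one_mul], fun h hh => absurd hh (by simp)⟩
  | insert a K _ ih =>
    obtain ⟨s, hF, hs, h1⟩ := ih
    obtain ⟨s', hF', hs', h2⟩ := X.small a.2
    obtain ⟨t, hFt, ht, h3⟩ := X.prod_isom hF hF' hs hs'
    refine ⟨t, hFt, ht, fun h hh => (h3 h.1).trans_lt ?_⟩
    rcases Finset.mem_insert.1 hh with rfl | hh
    · exact (mul_le_of_le_one_left (norm_nonneg _) (yq2_le_one _ hs _)).trans_lt h2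
    · exact (mul_le_of_le_one_right (norm_nonneg _) (yq2_le_one _ hs' _)).trans_lt (h1 h hh)

theorem yq2_pow (X : PSys G D A) {s : A} (hF : s ∈ X.F) (hs : star s * s = 1) (m : ℕ) :
    ∃ t ∈ X.F, star t * t = 1 ∧ ∀ h, ‖star t * X.γ h t‖ ≤ ‖star s * X.γ h s‖ ^ m := by
  induction m with
  | zero =>
    exact ⟨s, hF, hs, fun h => (yq2_le_one _ hs h).trans_eq (pow_zero _).symm⟩
  | succ m ih =>
    obtain ⟨s', hF', hs', h1⟩ := ih
    obtain ⟨t, hFt, ht, h2⟩ := X.prod_isom hF' hF hs' hs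
    refine ⟨t, hFt, ht, fun h => (h2 h).trans ?_⟩
    rw [pow_succ]
    exact mul_le_mul_of_nonneg_right (h1 h) (norm_nonneg _)

theorem yq2_eps (X : PSys G D A) (K : Finset {h : G // h ≠ 1}) {ε : ℝ} (hε : 0 < ε) :
    ∃ t ∈ X.F, star t * t = 1 ∧ ∀ h ∈ K, ‖star t * X.γ h.1 t‖ ≤ ε := by
  obtain ⟨s, hF, hs, h1⟩ := yq2_fin X K
  have h2 : ∀ᶠ m : ℕ in atTop, ∀ h ∈ K, ‖star s * X.γ h.1 s‖ ^ m < ε :=
    (eventually_all_finset K).2 fun h hh =>
      (tendsto_pow_atTop_nhds_zero_of_lt_one (norm_nonneg _) (h1 h hh)).eventually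
        (gt_mem_nhds hε)
  obtain ⟨m, hm⟩ := h2.exists
  obtain ⟨t, hFt, ht, h3⟩ := yq2_pow X hF hs m
  exact ⟨t, hFt, ht, fun h hh => (h3 h.1).trans (hm h hh).le⟩

theorem PSys.wan (X : PSys G D A) : X.Wan := by
  intro T hT
  have hP : Defn X.τ X.γ (fun x : Unit → A => x () ∈ cent X.T0 ∧ star (x ()) * x () = 1) :=
    (Defn.mem_cent X.T0_count (IsTerm.var ())).and
      (Defn.eq ((IsTerm.var ()).star.mul (IsTerm.var ())) (IsTerm.const 1))
  obtain ⟨x, -, ⟨hF, hs⟩, hx⟩ := X.sat.approx_eq (fun _ => 1) hP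
    (fun (h : {h : G // h ≠ 1}) x => star (x ()) * X.γ h.1 (x ()))
    (fun h => (IsTerm.var ()).star.mul ((IsTerm.var ()).act h.1)) fun K ε hε => by
      obtain ⟨t, hFt, ht, h1⟩ := yq2_eps X K hε
      exact ⟨fun _ => t, fun _ => yq2_norm ht, ⟨hFt, ht⟩, h1⟩
  obtain ⟨𝒮, Ψ, hS, hΨ⟩ := X.ic {x ()} T (Set.countable_singleton _) hT
    (Set.singleton_subset_iff.2 hF)
  have h1 : x () ∈ 𝒮 := hS rfl
  refine ⟨Ψ (x ()), hΨ.mem _ h1, ?_, fun h hh => ?_⟩
  · rw [← hΨ.map_star _ h1, ← hΨ.map_mul _ (star_mem h1) _ h1, hs, hΨ.map_one]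
  · have h2 : star (x ()) * X.γ h (x ()) = 0 := hx ⟨h, hh⟩
    rw [← hΨ.map_star _ h1, ← hΨ.map_act h _ h1,
      ← hΨ.map_mul _ (star_mem h1) _ (hΨ.act_mem h _ h1), h2, map_zero]

end Pool.Agent.Izumi
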