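import Pool.Agent.Lib.MP_b2135d_an.YQ3

/-! Uniqueness in purely infinite systems (PLAN section YQ4). -/

namespace Pool.Agent.Izumi

open scoped ComplexOrder
open Filter Topology

variable {G D A : Type} [Group G] [Countable G] [CStarAlgebra D] [PartialOrder D]
  [StarOrderedRing D] [CStarAlgebra A] [PartialOrder A] [StarOrderedRing A]

omit [Countable G] in
/-- Two equivariant homomorphisms that agree under `1 - e` are conjugate, provided there is a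
wandering isometry orthogonal to the invariant projection `e`. -/
theorem yq4_step (X : PSys G D A) (hc : CoreUni X.γ D) {T : Set A} (hT : T.Countable)
    (hi : ∀ g, ∀ t ∈ T, X.γ g t ∈ T) (ρ : G →* (D ≃⋆ₐ[ℂ] D)) (φ' φ : D →⋆ₐ[ℂ] A) {e v : A}
    (he : IsStarProjection e) (hei : ∀ g, X.γ g e = e) (heT : e ∈ cent T)
    (heφ : ∀ x, Commute e (φ x)) (heφ' : ∀ x, Commute e (φ' x)) (h1 : ∀ x, φ' x ∈ cent T)
    (h2 : ∀ x, φ x ∈ cent T) (e1 : ∀ g x, φ' (ρ g x) = X.γ g (φ' x))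
    (e2 : ∀ g x, φ (ρ g x) = X.γ g (φ x)) (hd : ∀ x, (φ' x - φ x) * (1 - e) = 0)
    (hv : star v * v = 1) (hvT : v ∈ cent T) (hvφ : v ∈ cent (Set.range φ)) (hev : e * v = 0)
    (hw : ∀ k, k ≠ 1 → star v * X.γ k v = 0) :
    ∃ u ∈ unitary A, u ∈ cent T ∧ (∀ g, X.γ g u = u) ∧ ∀ x, u * φ' x * star u = φ x := by
  have hsa : IsSelfAdjoint e := he.isSelfAdjoint
  obtain ⟨N, hN, hNm⟩ := exists_ann X.γ (T := T ∪ {e}) (b := 1 - e) he.one_sub.isSelfAdjoint
    (fun g => by rw [map_sub, map_one, hei])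
    fun c hc => (Commute.one_right c).sub_right (mem_cent.1 hc e (Or.inr rfl)).1
  have hmem : ∀ y : A, y ∈ cent T → Commute e y → y ∈ cent (T ∪ {e}) := fun y hy hc =>
    mem_cent_union.2 ⟨hy, mem_cent.2 fun z hz => by
      rw [show z = e from hz, hsa.star_eq]
      exact ⟨hc.symm, hc.symm⟩⟩
  have hole : Hole X.γ T N φ := by
    refine X.hole_gen hT φ (e := e) (v := v) he.nonneg he.le_one hei heT (mem_cent_range.2 heφ)
      (fun r hr => ?_) hv hvT hvφ hev hw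
    have h := ((hNm r).1 hr).2
    rw [sub_mul, one_mul, sub_eq_zero] at h
    exact h.symm
  refine hc T (T ∪ {e}) N ⟨Set.subset_union_left, hT.union (Set.countable_singleton e), hi,
    fun g y hy => hy.elim (fun h => Or.inl (hi g y h))
      fun h => Or.inr (by rw [show y = e from h]; exact hei g), hN⟩ ρ φ' φ
    (fun x => hmem _ (h1 x) (heφ' x)) (fun x => hmem _ (h2 x) (heφ x)) e1 e2
    (fun x => (hNm _).2 ⟨hd x, ?_⟩) hole
  have h3 : Commute (1 - e) (φ' x - φ x) :=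
    (Commute.one_left _).sub_left ((heφ' x).sub_right (heφ x))
  rw [h3.eq, hd]

theorem PSys.uni (X : PSys G D A) (hw : X.Wan) (hf : Foel G) (hc : CoreUni X.γ D) :
    UNI X.γ D := by
  intro ψ hψ ρ φ₁ φ₂ h1 h2 e1 e2
  have := X.S.sep
  obtain ⟨T, hT, hi, hTe⟩ := exists_test_inv X.γ ψ hψ
  obtain ⟨T₁, hT₁, -, hT₁e⟩ := exists_test φ₁
  obtain ⟨T₂, hT₂, -, hT₂e⟩ := exists_test φ₂
  have hU : (T ∪ T₁ ∪ T₂).Countable := (hT.union hT₁).union hT₂
  obtain ⟨S₁, hS₁, S₂, hS₂, h11, h22, h12, i1, i2⟩ := X.inv_isoms hw hf hU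
  obtain ⟨s, hs, hss, hsw⟩ := hw _ hU
  have hs' := X.FT_le_cent _ hs
  rw [mem_cent_union, mem_cent_union, hT₁e, hT₂e] at hs' hS₁ hS₂
  obtain ⟨⟨hsT, hs1⟩, hs2⟩ := hs'
  obtain ⟨⟨hS₁T, hS₁1⟩, hS₁2⟩ := hS₁
  obtain ⟨⟨hS₂T, hS₂1⟩, -⟩ := hS₂
  have hiso : ∀ S : A, star S * S = 1 → star (S * s) * (S * s) = 1 := fun S hS => by
    rw [star_mul, mul_assoc, ← mul_assoc (star S), hS, one_mul, hss]
  have hwan : ∀ S : A, star S * S = 1 → (∀ g, X.γ g S = S) → ∀ k, k ≠ 1 →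
      star (S * s) * X.γ k (S * s) = 0 := fun S hS hSi k hk => by
    rw [star_mul, map_mul, hSi, mul_assoc, ← mul_assoc (star S), hS, one_mul, hsw k hk]
  have hpS₁ : S₁ * star S₁ * S₁ = S₁ := by rw [mul_assoc, h11, mul_one]
  have hpS₂ : S₁ * star S₁ * S₂ = 0 := by rw [mul_assoc, h12, mul_zero]
  have hp : IsStarProjection (S₁ * star S₁) :=
    ⟨by rw [IsIdempotentElem, ← mul_assoc, hpS₁], by rw [IsSelfAdjoint, star_mul, star_star]⟩
  have hpi : ∀ g, X.γ g (S₁ * star S₁) = S₁ * star S₁ := fun g => by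
    rw [map_mul, map_star, i1]
  have hpT : S₁ * star S₁ ∈ cent T := mul_mem hS₁T (star_mem hS₁T)
  have hp1 : ∀ x, Commute (S₁ * star S₁) (φ₁ x) :=
    mem_cent_range.1 (mul_mem hS₁1 (star_mem hS₁1))
  have hp2 : ∀ x, Commute (S₁ * star S₁) (φ₂ x) :=
    mem_cent_range.1 (mul_mem hS₁2 (star_mem hS₁2))
  generalize S₁ * star S₁ = p at hpS₁ hpS₂ hp hpi hpT hp1 hp2
  have hpp : p * p = p := hp.isIdempotentElem
  obtain ⟨φ', hφ'⟩ := exists_glue_sum (Finset.univ : Finset Unit) (fun _ => p) (fun _ _ => hp)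
    (fun i _ j _ hij => absurd (Subsingleton.elim i j) hij) (fun _ => φ₂) φ₁
    (fun _ _ x => (hp2 x).symm) fun _ _ x => (hp1 x).symm
  simp only [Finset.univ_unique, Finset.sum_singleton] at hφ'
  rw [← hTe] at h1 h2
  have hc' : ∀ x, Commute p (φ' x) := fun x => by
    rw [hφ']
    exact ((hp2 x).mul_right (Commute.refl p)).add_right
      ((hp1 x).mul_right ((Commute.one_right p).sub_right (Commute.refl p)))
  have h' : ∀ x, φ' x ∈ cent T := fun x => by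
    rw [hφ']
    exact add_mem (mul_mem (h2 x) hpT) (mul_mem (h1 x) (sub_mem (one_mem _) hpT))
  have e' : ∀ g x, φ' (ρ g x) = X.γ g (φ' x) := fun g x => by
    rw [hφ', hφ', map_add, map_mul, map_mul, map_sub, map_one, hpi, e1, e2]
  obtain ⟨u₁, hu₁, hu₁T, hu₁i, hu₁e⟩ := yq4_step X hc hT hi ρ φ' φ₁ (e := p) (v := S₂ * s) hp hpi
    hpT hp1 hc' h' h1 e' e1
    (fun x => by
      have h3 : φ' x - φ₁ x = (φ₂ x - φ₁ x) * p := by rw [hφ']; noncomm_ring
      rw [h3, mul_assoc, mul_sub p, mul_one, hpp, sub_self, mul_zero])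
    (hiso _ h22) (mul_mem hS₂T hsT) (mul_mem hS₂1 hs1) (by rw [← mul_assoc, hpS₂, zero_mul])
    (hwan _ h22 i2)
  obtain ⟨u₂, hu₂, hu₂T, hu₂i, hu₂e⟩ := yq4_step X hc hT hi ρ φ' φ₂ (e := 1 - p) (v := S₁ * s)
    hp.one_sub (fun g => by rw [map_sub, map_one, hpi]) (sub_mem (one_mem _) hpT)
    (fun x => (Commute.one_left _).sub_left (hp2 x))
    (fun x => (Commute.one_left _).sub_left (hc' x)) h' h2 e' e2
    (fun x => by
      have h3 : φ' x - φ₂ x = (φ₁ x - φ₂ x) * (1 - p) := by rw [hφ']; noncomm_ring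
      rw [h3, sub_sub_cancel, mul_assoc, sub_mul 1, one_mul, hpp, sub_self, mul_zero])
    (hiso _ h11) (mul_mem hS₁T hsT) (mul_mem hS₁2 hs2)
    (by rw [← mul_assoc, sub_mul, one_mul, hpS₁, sub_self, zero_mul]) (hwan _ h11 i1)
  refine ⟨u₂ * star u₁, mul_mem hu₂ (Unitary.star_mem hu₁), hTe ▸ mul_mem hu₂T (star_mem hu₁T),
    fun g => by rw [map_mul, map_star, hu₁i, hu₂i], fun x => ?_⟩
  have h3 : star u₁ * u₁ = 1 := (Unitary.mem_iff.1 hu₁).1
  rw [← hu₁e, ← hu₂e, star_mul, star_star]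
  calc u₂ * star u₁ * (u₁ * φ' x * star u₁) * (u₁ * star u₂)
      = u₂ * (star u₁ * u₁) * φ' x * (star u₁ * u₁) * star u₂ := by simp only [mul_assoc]
    _ = u₂ * φ' x * star u₂ := by rw [h3, mul_one, mul_one]

end Pool.Agent.Izumi
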