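import Pool.Agent.Lib.MP_b2135d_an.YB
import Pool.Agent.Lib.MP_b2135d_an.CB

/-! A homomorphism that is equivariant on an invariant positive element (PLAN section YQ5). -/

namespace Pool.Agent.Izumi

open scoped ComplexOrder
open Filter Topology

theorem yq5_count {G : Type} [DecidableEq G] (B : ℕ → Finset G) (n : ℕ) {g h : G}
    (H : ∀ i, g ∈ B i → h ∈ B (i + 1)) :
    ((Finset.range n).filter fun i => g ∈ B i).card ≤
      ((Finset.range n).filter fun i => h ∈ B i).card + 1 := by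
  refine le_trans (Finset.card_le_card_of_injOn (· + 1) (fun i hi => ?_)
    fun _ _ _ _ e => Nat.succ_injective e) (Finset.card_insert_le n _)
  simp only [Finset.coe_filter, Finset.mem_range, Set.mem_ofPred_eq, Finset.coe_insert,
    Set.mem_insert_iff] at hi ⊢
  rcases Nat.lt_or_ge (i + 1) n with h1 | h1
  · exact Or.inr ⟨h1, H i hi.2⟩
  · exact Or.inl (by omega)

open scoped Pointwise in
theorem exists_tent {G : Type} [Group G] (L : Finset G) {η : ℝ} (hη : 0 < η) :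
    ∃ (Y : Finset G) (c : G → ℝ), (∀ g, 0 ≤ c g ∧ c g ≤ 1) ∧ c 1 = 1 ∧ (∀ g, g ∉ Y → c g = 0) ∧
      ∀ l ∈ L, ∀ g, |c (l⁻¹ * g) - c g| ≤ η := by
  classical
  obtain ⟨m, hm⟩ := exists_nat_one_div_lt hη
  set S : Finset G := insert 1 (L ∪ L⁻¹) with hS
  have hn : (0 : ℝ) < (m : ℝ) + 1 := by positivity
  have hstep : ∀ a ∈ S, ∀ g i, g ∈ S ^ i → a * g ∈ S ^ (i + 1) := fun a ha g i hg => by
    rw [pow_succ']
    exact Finset.mul_mem_mul ha hg
  have h1 : ∀ i, (1 : G) ∈ S ^ i := fun i => by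
    simpa using Finset.pow_mem_pow (n := i) (Finset.mem_insert_self (1 : G) (L ∪ L⁻¹))
  refine ⟨(Finset.range (m + 1)).biUnion fun i => S ^ i,
    fun g => (((Finset.range (m + 1)).filter fun i => g ∈ S ^ i).card : ℝ) / (m + 1),
    fun g => ⟨by positivity, ?_⟩, ?_, fun g hg => ?_, fun l hl g => ?_⟩
  · beta_reduce
    rw [div_le_one hn]
    exact_mod_cast (Finset.card_filter_le _ _).trans (Finset.card_range _).le
  · beta_reduce
    rw [Finset.filter_true_of_mem fun i _ => h1 i, Finset.card_range]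
    push_cast
    exact div_self hn.ne'
  · beta_reduce
    rw [Finset.filter_false_of_mem fun i hi h => hg (Finset.mem_biUnion.2 ⟨i, hi, h⟩)]
    simp
  · have a1 := yq5_count (fun i => S ^ i) (m + 1) (g := g) (h := l⁻¹ * g) fun i hi =>
      hstep _ (Finset.mem_insert_of_mem (Finset.mem_union_right _ (Finset.inv_mem_inv hl))) g i hi
    have a2 := yq5_count (fun i => S ^ i) (m + 1) (g := l⁻¹ * g) (h := g) fun i hi => by
      simpa using hstep l (Finset.mem_insert_of_mem (Finset.mem_union_left _ hl)) _ i hi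
    beta_reduce at a1 a2 ⊢
    rw [← sub_div, abs_div, abs_of_pos hn]
    refine le_trans (div_le_div_of_nonneg_right (abs_le.2 ⟨?_, ?_⟩) hn.le) hm.le
    · have : (_ : ℝ) ≤ _ := Nat.cast_le.2 a1
      push_cast at this
      linarith
    · have : (_ : ℝ) ≤ _ := Nat.cast_le.2 a2
      push_cast at this
      linarith

variable {G D A : Type} [Group G] [Countable G] [CStarAlgebra D] [PartialOrder D]
  [StarOrderedRing D] [CStarAlgebra A] [PartialOrder A] [StarOrderedRing A]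

omit [PartialOrder A] [StarOrderedRing A] in
theorem yq5_norm {ι : Type} (Z : Finset ι) (q : ι → A) (hq : ∀ i, IsStarProjection (q i))
    (ho : ∀ i j, i ≠ j → q i * q j = 0) (d : ι → ℝ) {η : ℝ} (hη : 0 ≤ η) (hd : ∀ i, |d i| ≤ η) :
    ‖∑ i ∈ Z, d i • q i‖ ≤ η := by
  refine cb_orth_sa Z _ hη (fun i _ => (IsSelfAdjoint.all (d i)).smul (hq i).isSelfAdjoint)
    (fun i _ j _ e => ?_) fun i _ => ?_
  · rw [smul_mul_smul_comm, ho i j e, smul_zero]
  · rw [norm_smul, Real.norm_eq_abs]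
    exact (mul_le_of_le_one_right (abs_nonneg _) (hq i).norm_le).trans (hd i)

omit [Countable G] in
theorem yq5_stage (X : PSys G D A) (hw : X.Wan) {T : Set A} (hT : T.Countable)
    (hi : ∀ g, ∀ t ∈ T, X.γ g t ∈ T) (ρ : G →* (D ≃⋆ₐ[ℂ] D)) (p : D →⋆ₐ[ℂ] A)
    (hp : ∀ x, p x ∈ cent T) (L : Finset G) {η : ℝ} (hη : 0 < η) :
    ∃ U b t : A, U ∈ unitary A ∧ U ∈ cent T ∧ b ∈ cent T ∧ 0 ≤ b ∧ b ≤ 1 ∧ star t * t = 1 ∧
      b * t = t ∧ (∀ x, Commute b (U * p x * star U)) ∧ (∀ l ∈ L, ‖X.γ l b - b‖ ≤ η) ∧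
        ∀ l ∈ L, ∀ x, (X.γ l (U * p x * star U) - U * p (ρ l x) * star U) * b = 0 := by
  classical
  have := X.S.sep
  obtain ⟨T₁, hT₁, -, hc₁⟩ := exists_test p
  obtain ⟨s, hs, hs1, hs0⟩ := hw (T ∪ T₁) (hT.union hT₁)
  let q : G → A := fun y => X.γ y (s * star s)
  have hqm : ∀ g y, X.γ g (q y) = q (g * y) := fun g y => act_act X.γ g y _
  have hqF : ∀ y, q y ∈ cent T ∧ q y ∈ cent (Set.range p) := fun y => by
    rw [← hc₁]
    exact mem_cent_union.1 (X.FT_le_cent _ (X.act_mem_FT y (mul_mem hs (star_mem hs))))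
  have he : IsStarProjection (s * star s) :=
    ⟨by rw [IsIdempotentElem, mul_assoc, ← mul_assoc (star s), hs1, one_mul],
      IsSelfAdjoint.mul_star_self s⟩
  have hq : ∀ y, IsStarProjection (q y) := fun y => he.map (X.γ y)
  have ho : ∀ y z, y ≠ z → q y * q z = 0 := fun y z h => by
    have h1 : y⁻¹ * z ≠ 1 := fun e => h (inv_mul_eq_one.1 e)
    have h2 : s * star s * q (y⁻¹ * z) = 0 := by
      simp only [q, map_mul (X.γ _)]
      rw [mul_assoc, ← mul_assoc (star s), hs0 _ h1, zero_mul, mul_zero]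
    have h3 := congrArg (X.γ y) h2
    rwa [map_mul, hqm, mul_inv_cancel_left, map_zero] at h3
  have hqq : ∀ y z, Commute (q y) (q z) := fun y z => by
    by_cases h : y = z
    · rw [h]
    · exact (ho y z h).trans (ho z y (Ne.symm h)).symm
  have hpq : ∀ x z, Commute (p x) (q z) := fun x z => (mem_cent_range.1 (hqF z).2 x).symm
  have htq : ∀ y x z, Commute (twist X.γ ρ y p x) (q z) := fun y x z => by
    have := (hpq (ρ y⁻¹ x) (y⁻¹ * z)).map (X.γ y)
    rwa [hqm, mul_inv_cancel_left] at this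
  obtain ⟨Y, c, hc, hc1, hc0, hcl⟩ := exists_tent L hη
  set Y' : Finset G := Y ∪ L.biUnion fun l => Y.image (l⁻¹ * ·) with hY'
  obtain ⟨φ, hφ⟩ := exists_glue_sum Y' q (fun i _ => hq i) (fun i _ j _ => ho i j)
    (fun y => twist X.γ ρ y p) p (fun i _ x => htq i x i) fun i _ x => hpq x i
  have hφT : ∀ x, φ x ∈ cent T := fun x => by
    rw [hφ]
    exact add_mem (sum_mem fun i _ => mul_mem (act_mem_cent X.γ i (hi i⁻¹) (hp _)) (hqF i).1)
      (mul_mem (hp x) (sub_mem (one_mem _) (sum_mem fun i _ => (hqF i).1)))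
  have hφq : ∀ z ∈ Y', ∀ x, φ x * q z = twist X.γ ρ z p x * q z := fun z hz x => by
    have h1 : (∑ i ∈ Y', q i) * q z = q z := by
      rw [Finset.sum_mul, Finset.sum_eq_single_of_mem z hz fun i _ e => ho i z e,
        (hq z).isIdempotentElem.eq]
    rw [hφ, add_mul, mul_assoc, sub_mul, h1, one_mul, sub_self, mul_zero, add_zero, Finset.sum_mul,
      Finset.sum_eq_single_of_mem z hz fun i _ e => by rw [mul_assoc, ho i z e, mul_zero],
      mul_assoc, (hq z).isIdempotentElem.eq]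
  have hcq : ∀ z x, Commute (q z) (φ x) := fun z x => by
    rw [hφ]
    exact (Commute.sum_right _ _ _ fun i _ => (htq i x z).symm.mul_right (hqq z i)).add_right
      ((hpq x z).symm.mul_right ((Commute.one_right _).sub_right
        (Commute.sum_right _ _ _ fun i _ => hqq z i)))
  obtain ⟨U, hU, hUT, hUφ⟩ := X.toAmb.uni0 hT p φ hp hφT
  have hb0 : 0 ≤ ∑ y ∈ Y, c y • q y :=
    Finset.sum_nonneg fun y _ => smul_nonneg (hc y).1 (hq y).nonneg
  refine ⟨U, ∑ y ∈ Y, c y • q y, s, hU, hUT, sum_mem fun y _ => ?_, hb0, ?_, hs1, ?_,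
    fun x => ?_, fun l hl => ?_, fun l hl x => ?_⟩
  · rw [← Complex.coe_smul]
    exact SMulMemClass.smul_mem _ (hqF y).1
  · exact (CStarAlgebra.norm_le_one_iff_of_nonneg _ hb0).1 (yq5_norm Y q hq ho c zero_le_one
      fun y => abs_le.2 ⟨by linarith [(hc y).1], (hc y).2⟩)
  · have h1 : q 1 * s = s := by
      simp only [q, act_one]
      rw [mul_assoc, hs1, mul_one]
    have h2 : (1 : G) ∈ Y := by
      by_contra h
      exact one_ne_zero (hc1.symm.trans (hc0 1 h))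
    rw [Finset.sum_mul, Finset.sum_eq_single_of_mem 1 h2 fun i _ e => by
      rw [← h1, smul_mul_assoc, ← mul_assoc, ho i 1 e, zero_mul, smul_zero], hc1, one_smul, h1]
  · rw [hUφ]
    exact Commute.sum_left _ _ _ fun y _ => (hcq y x).smul_left _
  · have h1 : ∑ y ∈ Y, c y • q y = ∑ z ∈ Y ∪ Y.image (l * ·), c z • q z :=
      Finset.sum_subset Finset.subset_union_left fun z _ hz => by rw [hc0 z hz, zero_smul]
    have h2 : X.γ l (∑ y ∈ Y, c y • q y) = ∑ z ∈ Y ∪ Y.image (l * ·), c (l⁻¹ * z) • q z := by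
      rw [← Finset.sum_subset (Finset.subset_union_right (s₁ := Y)) fun z _ hz => by
        rw [hc0 _ fun h => hz (Finset.mem_image.2 ⟨_, h, mul_inv_cancel_left l z⟩), zero_smul],
        Finset.sum_image fun a _ b _ e => mul_left_cancel e, map_sum]
      refine Finset.sum_congr rfl fun y _ => ?_
      rw [inv_mul_cancel_left, ← Complex.coe_smul, map_smul, hqm, Complex.coe_smul]
    rw [h2, h1, ← Finset.sum_sub_distrib]
    simp only [← sub_smul]
    exact yq5_norm _ q hq ho _ hη.le (hcl l hl)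
  · rw [hUφ, hUφ, Finset.mul_sum]
    refine Finset.sum_eq_zero fun z hz => ?_
    have h1 := congrArg (X.γ l) (hφq (l⁻¹ * z) (Finset.mem_union_right _
      (Finset.mem_biUnion.2 ⟨l, hl, Finset.mem_image_of_mem _ hz⟩)) x)
    rw [map_mul, map_mul, hqm, ← twist_act, mul_inv_cancel_left] at h1
    rw [mul_smul_comm, sub_mul, h1, hφq z (Finset.mem_union_left _ hz), sub_self, smul_zero]

theorem PSys.embB (X : PSys G D A) (hw : X.Wan) {T : Set A} (hT : T.Countable)
    (hi : ∀ g, ∀ t ∈ T, X.γ g t ∈ T) (ρ : G →* (D ≃⋆ₐ[ℂ] D)) :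
    ∃ (φ : D →⋆ₐ[ℂ] A) (b t : A), (∀ x, φ x ∈ cent T) ∧ b ∈ cent T ∧ 0 ≤ b ∧ b ≤ 1 ∧
      (∀ g, X.γ g b = b) ∧ star t * t = 1 ∧ b * t = t ∧ (∀ x, Commute b (φ x)) ∧
        ∀ g x, (X.γ g (φ x) - φ (ρ g x)) * b = 0 := by
  classical
  have := X.S.sep
  have := X.nontriv
  obtain ⟨p, hp⟩ := X.emb T hT
  let d : ℕ → D := TopologicalSpace.denseSeq D
  have hd : DenseRange d := TopologicalSpace.denseRange_denseSeq D
  have ht : ∀ a : A, IsTerm X.γ fun x : Fin 3 → A => x 0 * a * star (x 0) := fun a =>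
    ((IsTerm.var 0).mul (IsTerm.const a)).mul (IsTerm.var 0).star
  let f : G ⊕ G × ℕ → (Fin 3 → A) → A := fun k => match k with
    | Sum.inl g => fun x => X.γ g (x 1) - x 1
    | Sum.inr k => fun x => (X.γ k.1 (x 0 * p (d k.2) * star (x 0)) -
        x 0 * p (ρ k.1 (d k.2)) * star (x 0)) * x 1
  have hf : ∀ k, IsTerm X.γ (f k) := by
    rintro (g | k)
    · exact ((IsTerm.var 1).act g).sub (IsTerm.var 1)
    · exact (((ht _).act k.1).sub (ht _)).mul (IsTerm.var 1)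
  have hP : Defn X.τ X.γ (fun x : Fin 3 → A => (x 0 ∈ unitary A ∧ x 0 ∈ cent T) ∧
      (x 1 ∈ cent T ∧ (0 ≤ x 1 ∧ x 1 ≤ 1)) ∧ (star (x 2) * x 2 = 1 ∧ x 1 * x 2 = x 2) ∧
      ∀ n, x 1 * (x 0 * p (d n) * star (x 0)) = x 0 * p (d n) * star (x 0) * x 1) :=
    ((Defn.unitary (IsTerm.var 0)).and (Defn.mem_cent hT (IsTerm.var 0))).and
      (((Defn.mem_cent hT (IsTerm.var 1)).and (Defn.between (IsTerm.var 1))).and
        (((Defn.eq ((IsTerm.var 2).star.mul (IsTerm.var 2)) (IsTerm.const 1)).and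
          (Defn.eq ((IsTerm.var 1).mul (IsTerm.var 2)) (IsTerm.var 2))).and
          (Defn.forall fun n => Defn.eq ((IsTerm.var 1).mul (ht _)) ((ht _).mul (IsTerm.var 1)))))
  obtain ⟨x, -, ⟨⟨hU, hUT⟩, ⟨hbT, hb0, hb1⟩, ⟨ht1, hbt⟩, hcm⟩, hx⟩ :=
    X.sat.approx_eq (fun _ => (1 : ℝ)) hP f hf (by
      intro s ε hε
      obtain ⟨U, b, t, h1, h2, h3, h4, h5, h6, h7, h8, h9, h10⟩ :=
        yq5_stage X hw hT hi ρ p hp (s.image (Sum.elim id Prod.fst)) hε
      refine ⟨![U, b, t], fun i => ?_, ⟨⟨h1, h2⟩, ⟨h3, h4, h5⟩, ⟨h6, h7⟩, fun n => (h8 _).eq⟩, ?_⟩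
      · fin_cases i
        · exact (CStarRing.norm_of_mem_unitary h1).le
        · exact (CStarAlgebra.norm_le_one_iff_of_nonneg _ h4).2 h5
        · exact norm_le_one_of_isom h6
      · rintro (g | k) hk
        · exact h9 g (Finset.mem_image_of_mem _ hk)
        · exact (norm_eq_zero.2 (h10 k.1 (Finset.mem_image_of_mem _ hk) (d k.2))).trans_le hε.le)
  let φ : D →⋆ₐ[ℂ] A := (adHom hU).comp p
  have hφ := hom_continuous φ
  refine ⟨φ, x 1, x 2, fun y => mul_mem (mul_mem hUT (hp y)) (star_mem hUT), hbT, hb0, hb1,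
    fun g => sub_eq_zero.1 (hx (Sum.inl g)), ht1, hbt, fun y => ?_, fun g y => ?_⟩
  · exact hd.induction_on (p := fun y => x 1 * φ y = φ y * x 1) y
      (isClosed_eq (continuous_const.mul hφ) (hφ.mul continuous_const)) hcm
  · exact hd.induction_on (p := fun y => (X.γ g (φ y) - φ (ρ g y)) * x 1 = 0) y
      (isClosed_eq ((((aut_continuous _).comp hφ).sub (hφ.comp (aut_continuous _))).mul
        continuous_const) continuous_const) fun n => hx (Sum.inr (g, n))

end Pool.Agent.Izumi
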