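import Pool.Agent.Lib.MP_b2135d_an.YQ1
import Pool.Agent.Lib.MP_b2135d_an.YQ3
import Pool.Agent.Lib.MP_b2135d_an.YQ5

/-! Existence in purely infinite systems (PLAN section YQ6). -/

namespace Pool.Agent.Izumi

open scoped ComplexOrder
open Filter Topology

variable {G D A : Type} [Group G] [Countable G] [CStarAlgebra D] [PartialOrder D]
  [StarOrderedRing D] [CStarAlgebra A] [PartialOrder A] [StarOrderedRing A]

theorem yq6_fg (x : ℝ) : max 0 (min 1 (1 - 2 * x)) * max 0 (min 1 (2 * x - 1)) = 0 := by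
  rcases le_total (2 * x) 1 with h | h
  · rw [max_eq_left ((min_le_right 1 (2 * x - 1)).trans (by linarith)), mul_zero]
  · rw [max_eq_left ((min_le_right 1 (1 - 2 * x)).trans (by linarith)), zero_mul]

theorem PSys.exi (X : PSys G D A) (hw : X.Wan) (hc : CoreEmb X.γ D) : EMB X.γ D := by
  intro ψ hψ ρ
  have := X.S.sep
  obtain ⟨T, hT, hi, hTe⟩ := exists_test_inv X.γ ψ hψ
  obtain ⟨φ, b, t, hφ, hbT, hb0, -, hbi, ht, hbt, hbφ, heq⟩ := X.embB hw hT hi ρ
  have hb : IsSelfAdjoint b := IsSelfAdjoint.of_nonneg hb0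
  obtain ⟨N, hN, hNm⟩ := exists_ann X.γ (T := T ∪ {b}) hb hbi
    fun c hc => (mem_cent.1 hc b (Or.inr rfl)).1
  obtain ⟨T₁, hT₁, -, hT₁e⟩ := exists_test φ
  obtain ⟨s, hs, hss, hsw⟩ := hw (T ∪ T₁ ∪ {b}) ((hT.union hT₁).union (Set.countable_singleton b))
  have hs' := X.FT_le_cent _ hs
  rw [mem_cent_union, mem_cent_union, hT₁e] at hs'
  obtain ⟨⟨hsT, hsφ⟩, hsb⟩ := hs'
  have hf : Continuous fun x : ℝ => max 0 (min 1 (1 - 2 * x)) := by fun_prop
  have hg : Continuous fun x : ℝ => max 0 (min 1 (2 * x - 1)) := by fun_prop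
  have hbφ' : b ∈ cent (Set.range φ) := mem_cent_range.2 hbφ
  have hbs : b ∈ cent {s} := mem_cent.2 fun y hy => by
    rw [show y = s from hy]
    have h1 := (mem_cent.1 hsb b rfl).1
    have h2 := h1.star_star
    rw [hb.star_eq] at h2
    exact ⟨h1.symm, h2.symm⟩
  have hinv : ∀ {f : ℝ → ℝ}, Continuous f → ∀ g, X.γ g (cfc f b) = cfc f b := fun hf g => by
    rw [aut_cfc _ hb hf, hbi]
  have hec := (cfc_mul _ _ b hf.continuousOn hg.continuousOn).symm
  simp only [yq6_fg, cfc_const_zero] at hec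
  have hct := cfc_mul_eigen hb (c := 1) (r := t) (by rw [hbt, one_smul]) hg
  rw [show max 0 (min 1 (2 * (1 : ℝ) - 1)) = 1 by norm_num, one_smul] at hct
  have hci := hinv hg
  have hcT := cfc_mem_cent hbT fun x : ℝ => max 0 (min 1 (2 * x - 1))
  have hcφ := cfc_mem_cent hbφ' fun x : ℝ => max 0 (min 1 (2 * x - 1))
  obtain ⟨hcs, hcs'⟩ :=
    mem_cent.1 (cfc_mem_cent hbs fun x : ℝ => max 0 (min 1 (2 * x - 1))) s rfl
  generalize cfc (fun x : ℝ => max 0 (min 1 (2 * x - 1))) b = c at hec hct hci hcT hcφ hcs hcs'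
  obtain ⟨χ, hχ⟩ := X.S.exists_prod ψ φ fun x => hTe ▸ hφ x
  obtain ⟨v, hv, hvv, hav⟩ := X.toAmb.rel χ (e := 1) (a := c * (s * star s)) (s₀ := s * t)
    (one_mem _) ((hχ _).2 ⟨hTe ▸ mul_mem hcT (mul_mem hsT (star_mem hsT)),
      mul_mem hcφ (mul_mem hsφ (star_mem hsφ))⟩)
    (by rw [star_mul, mul_assoc, ← mul_assoc (star s), hss, one_mul, ht])
    (by rw [mul_assoc, mul_assoc, ← mul_assoc (star s), hss, one_mul, ← mul_assoc, hcs.eq,
      mul_assoc, hct])
  obtain ⟨hvT, hvφ⟩ := (hχ v).1 hv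
  rw [← hTe] at hvT
  have hole : Hole X.γ T N φ := by
    refine X.hole_gen hT φ (e := cfc (fun x : ℝ => max 0 (min 1 (1 - 2 * x))) b) (v := v)
      (cfc_nonneg fun x _ => le_max_left _ _)
      (cfc_le_one _ b fun x _ => max_le zero_le_one (min_le_left _ _)) (hinv hf)
      (cfc_mem_cent hbT _) (cfc_mem_cent hbφ' _) (fun r hr => ?_) hvv hvT hvφ ?_ fun k hk => ?_
    · rw [cfc_mul_eigen hb (c := 0) (by rw [((hNm r).1 hr).2, zero_smul]) hf]
      norm_num
    · rw [← hav, ← mul_assoc, ← mul_assoc, hec, zero_mul, zero_mul]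
    · have h1 : star s * (star c * (c * X.γ k s)) = 0 := by
        have h2 := hcs.star_star
        rw [← mul_assoc, ← h2.eq, mul_assoc, ← mul_assoc (star s), ← hcs'.eq, mul_assoc,
          hsw k hk, mul_zero, mul_zero]
      have h3 : star (c * (s * star s) * v) * X.γ k (c * (s * star s) * v) =
          star v * s * (star s * (star c * (c * X.γ k s))) * X.γ k (star s * v) := by
        simp only [star_mul, star_star, map_mul, hci, mul_assoc]
      rw [← hav, h3, h1, mul_zero, zero_mul]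
  obtain ⟨φ', h1, h2⟩ := hc T (T ∪ {b}) N ⟨Set.subset_union_left,
    hT.union (Set.countable_singleton b), hi, fun g y hy => hy.elim (fun h => Or.inl (hi g y h))
      fun h => Or.inr (by rw [show y = b from h]; exact hbi g), hN⟩ ρ φ
    (fun x => mem_cent_union.2 ⟨hφ x, mem_cent.2 fun y hy => by
      rw [show y = b from hy, hb.star_eq]
      exact ⟨(hbφ x).symm, (hbφ x).symm⟩⟩)
    (fun g x => (hNm _).2 ⟨heq g x, by
      have h3 := (hbφ x).map (X.γ g)
      rw [hbi] at h3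
      rw [(h3.sub_right (hbφ _)).eq, heq]⟩) hole
  exact ⟨φ', fun x => hTe ▸ h1 x, h2⟩

end Pool.Agent.Izumi
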