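import Pool.Agent.Lib.MP_b2135d_an.YE
import Pool.Agent.Lib.MP_b2135d_an.YJ
import Pool.Agent.Lib.MP_b2135d_an.CB

/-! Calculus of towers (PLAN section YT8). -/

namespace Pool.Agent.Izumi

open scoped ComplexOrder
open Filter Topology

variable {G A : Type} [CStarAlgebra A] [PartialOrder A] [StarOrderedRing A] {τ : A →ₚ[ℂ] ℂ}
  {C : StarSubalgebra ℂ A} {Λ : Finset G} {E : G → A}

theorem yt8_star {p x : A} (hp : 0 ≤ p) (hc : Commute x p) : star (p * x) = p * star x := by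
  rw [← hc.eq, star_mul, hp.isSelfAdjoint.star_eq]

theorem yt8_pyth (s : Finset G) (z : G → A) (h : ∀ g g', g ≠ g' → star (z g) * z g' = 0) :
    n2 τ (∑ g ∈ s, z g) ^ 2 = ∑ g ∈ s, n2 τ (z g) ^ 2 := by
  have e : star (∑ g ∈ s, z g) * ∑ g ∈ s, z g = ∑ g ∈ s, star (z g) * z g := by
    rw [star_sum, Finset.sum_mul]
    refine Finset.sum_congr rfl fun g hg => ?_
    rw [Finset.mul_sum, Finset.sum_eq_single_of_mem g hg fun g' _ hne => h g g' hne.symm]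
  rw [n2_sq, e, map_sum, Complex.re_sum]
  exact Finset.sum_congr rfl fun g _ => (n2_sq τ _).symm

theorem yt8_bound (s : Finset G) (z : G → A) (h : ∀ g g', g ≠ g' → star (z g) * z g' = 0)
    {M δ : ℝ} (hM : 0 ≤ M) (t : G → ℝ) (ht : ∀ g, n2 τ (z g) ^ 2 ≤ M ^ 2 * t g)
    (hs : ∑ g ∈ s, t g ≤ δ) : n2 τ (∑ g ∈ s, z g) ≤ M * √δ := by
  have h1 : n2 τ (∑ g ∈ s, z g) ^ 2 ≤ M ^ 2 * δ := by
    rw [yt8_pyth s z h]
    refine (Finset.sum_le_sum fun g _ => ht g).trans ?_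
    rw [← Finset.mul_sum]
    exact mul_le_mul_of_nonneg_left hs (sq_nonneg M)
  have h2 := Real.le_sqrt_of_sq_le h1
  rwa [Real.sqrt_mul (sq_nonneg M), Real.sqrt_sq hM] at h2

theorem yt8_sq_le {p : A} (h0 : 0 ≤ p) (h1 : p ≤ 1) : 0 ≤ p - p * p := by
  have h2 := Commute.mul_nonneg h0 (sub_nonneg.2 h1) ((Commute.one_right p).sub_right (.refl p))
  rwa [mul_sub, mul_one] at h2

theorem yt8_n2 (hτ : IsTracialState τ) {p r : A} (p0 : 0 ≤ p) (p1 : p ≤ 1) (r0 : 0 ≤ r)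
    (r1 : r ≤ 1) : n2 τ (p * r) ^ 2 ≤ (τ (p * r)).re := by
  have e : τ (star (p * r) * (p * r)) = τ (p * p * (r * r)) := by
    rw [star_mul, p0.isSelfAdjoint.star_eq, r0.isSelfAdjoint.star_eq, mul_assoc, hτ.2]
    simp only [mul_assoc]
  have rr : 0 ≤ r * r := Commute.mul_nonneg r0 r0 (.refl r)
  have h1 := tr_mul_nonneg hτ (yt8_sq_le p0 p1) rr
  have h2 := tr_mul_nonneg hτ p0 (yt8_sq_le r0 r1)
  rw [sub_mul, map_sub, Complex.sub_re] at h1
  rw [mul_sub, map_sub, Complex.sub_re] at h2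
  rw [n2_sq, e]
  linarith

theorem yt8_shift [Group G] [DecidableEq G] {B : Type} [AddCommMonoid B] (l : G) {f : G → B}
    (hf : ∀ g, g ∉ Λ → f g = 0) :
    ∑ z ∈ Λ ∪ Λ.image (l * ·), f (l⁻¹ * z) = ∑ g ∈ Λ, f g := by
  rw [← Finset.sum_subset Finset.subset_union_right fun z _ hz => hf _ fun h =>
    hz (Finset.mem_image.2 ⟨_, h, mul_inv_cancel_left l z⟩),
    Finset.sum_image fun a _ b _ e => mul_left_cancel e]
  exact Finset.sum_congr rfl fun g _ => by rw [inv_mul_cancel_left]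

theorem IsTw.norm_sum_le (h : IsTw τ C Λ E) {x : G → A} (hc : ∀ g g', Commute (x g) (E g'))
    {M : ℝ} (hM : 0 ≤ M) (hx : ∀ g, ‖x g‖ ≤ M) : ‖∑ g ∈ Λ, E g * x g‖ ≤ M := by
  refine norm_orth_sum Λ _ hM (fun g _ g' _ e => ?_) (fun g _ g' _ e => ?_) fun g _ => ?_
  · rw [star_mul, (h.tp g).nonneg.isSelfAdjoint.star_eq, mul_assoc, ← mul_assoc (E g),
      h.orth g g' e, zero_mul, mul_zero]
  · rw [yt8_star (h.tp g').nonneg (hc g' g'), ← (hc g g).eq, mul_assoc, ← mul_assoc (E g),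
      h.orth g g' e, zero_mul, mul_zero]
  · have h1 := (CStarAlgebra.norm_le_one_iff_of_nonneg _ (h.tp g).nonneg).2 (h.tp g).le_one
    exact (norm_mul_le _ _).trans ((mul_le_of_le_one_left (norm_nonneg _) h1).trans (hx g))

theorem IsTw.star_sum (h : IsTw τ C Λ E) {x : G → A} (hc : ∀ g g', Commute (x g) (E g')) :
    star (∑ g ∈ Λ, E g * x g) = ∑ g ∈ Λ, E g * star (x g) := by
  rw [_root_.star_sum]
  exact Finset.sum_congr rfl fun g _ => yt8_star (h.tp g).nonneg (hc g g)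

theorem IsTw.sum_mul_sum (hτ : IsTracialState τ) (h : IsTw τ C Λ E) {x : G → A} (y : G → A)
    (hc : ∀ g g', Commute (x g) (E g')) :
    (∑ g ∈ Λ, E g * x g) * (∑ g ∈ Λ, E g * y g) - ∑ g ∈ Λ, E g * (x g * y g) ∈ Jd τ := by
  rw [Finset.sum_mul, ← Finset.sum_sub_distrib]
  refine Submodule.sum_mem _ fun g hg => ?_
  rw [Finset.mul_sum, Finset.sum_eq_single_of_mem g hg fun g' _ hne => by
    rw [← (hc g g).eq, mul_assoc, ← mul_assoc (E g), h.orth g g' hne.symm, zero_mul, mul_zero]]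
  have e : E g * x g * (E g * y g) - E g * (x g * y g) = x g * (E g * E g - E g) * y g := by
    rw [← mul_assoc (E g) (x g), ← (hc g g).eq]
    noncomm_ring
  rw [e]
  exact Jd_mul_right hτ _ (Jd_mul_left _ (h.tp g).idem)

theorem IsTw.sum_const (hτ : IsTracialState τ) (h : IsTw τ C Λ E) (a : A) :
    ∑ g ∈ Λ, E g * a - a ∈ Jd τ := by
  have h1 := Jd_mul_right hτ a h.sum
  rwa [sub_mul, one_mul, Finset.sum_mul] at h1

theorem IsTw.sum_congr {x y : G → A} (hxy : ∀ g, x g - y g ∈ Jd τ) :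
    ∑ g ∈ Λ, E g * x g - ∑ g ∈ Λ, E g * y g ∈ Jd τ := by
  rw [← Finset.sum_sub_distrib]
  refine Submodule.sum_mem _ fun g _ => ?_
  rw [← mul_sub]
  exact Jd_mul_left _ (hxy g)

theorem IsTw.ex_sum (hτ : IsTracialState τ) (h : IsTw τ C Λ E) {x : G → A}
    (hc : ∀ g g', Commute (x g) (E g')) :
    ex (∑ g ∈ Λ, E g * x g) - ∑ g ∈ Λ, E g * ex (x g) ∈ Jd τ := by
  have key : ∀ n : ℕ, (∑ g ∈ Λ, E g * x g) ^ n - ∑ g ∈ Λ, E g * x g ^ n ∈ Jd τ := fun n => by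
    induction n with
    | zero =>
      have h1 := neg_mem (h.sum_const hτ 1)
      rw [neg_sub] at h1
      simpa only [pow_zero] using h1
    | succ n ih =>
      have h1 := add_mem (Jd_mul_left (∑ g ∈ Λ, E g * x g) ih)
        (h.sum_mul_sum hτ (fun g => x g ^ n) hc)
      rw [mul_sub, sub_add_sub_cancel] at h1
      simpa only [pow_succ'] using h1
  have h1 := (hasSum_ex (∑ g ∈ Λ, E g * x g)).sub
    (hasSum_sum (s := Λ) fun g _ => (hasSum_ex (x g)).mul_left (E g))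
  refine (isClosed_Jd τ).mem_of_tendsto h1.tendsto_sum_nat (Eventually.of_forall fun N => ?_)
  refine Submodule.sum_mem _ fun n _ => ?_
  have h2 := Submodule.smul_mem _ ((n.factorial : ℂ)⁻¹ * Complex.I ^ n) (key n)
  rw [smul_sub, Finset.smul_sum] at h2
  simpa only [mul_smul_comm] using h2

theorem IsTw.sum_tr (hτ : IsTracialState τ) (h : IsTw τ C Λ E) : ∑ g ∈ Λ, (τ (E g)).re = 1 := by
  rw [← Complex.re_sum, ← map_sum, tr_eq_of_Jd hτ h.sum, hτ.1, Complex.one_re]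

theorem two_towers (hτ : IsTracialState τ) (s : Finset G) (P Q x : G → A)
    (hP : ∀ g, 0 ≤ P g ∧ P g ≤ 1) (hQ : ∀ g, 0 ≤ Q g ∧ Q g ≤ 1)
    (oP : ∀ g g', g ≠ g' → P g * P g' = 0) (oQ : ∀ g g', g ≠ g' → Q g * Q g' = 0)
    (hc : ∀ g g', Commute (x g) (P g')) {M δ : ℝ} (hM : 0 ≤ M) (hx : ∀ g, ‖x g‖ ≤ M)
    (sP : ∑ g ∈ s, (τ (P g)).re ≤ 1) (sQ : ∑ g ∈ s, (τ (Q g)).re ≤ 1)
    (hδ : 1 - δ ≤ ∑ g ∈ s, (τ (Q g * P g)).re) :
    n2 τ (∑ g ∈ s, P g * x g - ∑ g ∈ s, Q g * x g) ≤ 2 * M * √δ := by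
  have sq : ∀ {a b : ℝ}, 0 ≤ a → a ≤ M * b → ∀ {t : ℝ}, b ^ 2 ≤ t → a ^ 2 ≤ M ^ 2 * t :=
    fun {a b} h0 h1 {t} h2 => by
      refine (pow_le_pow_left₀ h0 h1 2).trans ?_
      rw [mul_pow]
      exact mul_le_mul_of_nonneg_left h2 (sq_nonneg M)
  have b1 : ∀ {p : A}, 0 ≤ p ∧ p ≤ 1 → 0 ≤ 1 - p ∧ 1 - p ≤ 1 := fun hp =>
    ⟨sub_nonneg.2 hp.2, sub_le_self _ hp.1⟩
  have h1 : n2 τ (∑ g ∈ s, star (x g) * (P g * (1 - Q g))) ≤ M * √δ := by
    refine yt8_bound s _ (fun g g' e => ?_) hM (fun g => (τ (P g * (1 - Q g))).re)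
      (fun g => ?_) ?_
    · have e1 : P g * (x g * (star (x g') * P g')) = 0 := by
        rw [← (hP g').1.isSelfAdjoint.star_eq, ← star_mul, yt8_star (hP g').1 (hc g' g'),
          ← mul_assoc, ← (hc g g).eq, mul_assoc, ← mul_assoc (P g), oP g g' e, zero_mul, mul_zero]
      rw [star_mul, star_mul, star_star, (hP g).1.isSelfAdjoint.star_eq]
      calc star (1 - Q g) * P g * x g * (star (x g') * (P g' * (1 - Q g'))) =
          star (1 - Q g) * (P g * (x g * (star (x g') * P g'))) * (1 - Q g') := by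
            simp only [mul_assoc]
        _ = 0 := by rw [e1, mul_zero, zero_mul]
    · refine sq (n2_nonneg _ _) ((n2_mul_le_left τ _ _).trans ?_)
        (yt8_n2 hτ (hP g).1 (hP g).2 (b1 (hQ g)).1 (b1 (hQ g)).2)
      rw [norm_star]
      exact mul_le_mul_of_nonneg_right (hx g) (n2_nonneg _ _)
    · have e : ∀ g, (τ (P g * (1 - Q g))).re = (τ (P g)).re - (τ (Q g * P g)).re := fun g => by
        rw [mul_sub, mul_one, map_sub, Complex.sub_re, hτ.2]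
      simp only [e, Finset.sum_sub_distrib]
      linarith
  have h2 : n2 τ (∑ g ∈ s, Q g * (1 - P g) * x g) ≤ M * √δ := by
    refine yt8_bound s _ (fun g g' e => ?_) hM (fun g => (τ (Q g * (1 - P g))).re)
      (fun g => ?_) ?_
    · rw [star_mul, star_mul, (hQ g).1.isSelfAdjoint.star_eq]
      calc star (x g) * (star (1 - P g) * Q g) * (Q g' * (1 - P g') * x g') =
          star (x g) * star (1 - P g) * (Q g * Q g') * ((1 - P g') * x g') := by
            simp only [mul_assoc]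
        _ = 0 := by rw [oQ g g' e, mul_zero, zero_mul]
    · refine sq (n2_nonneg _ _) ((n2_mul_le_right hτ _ _).trans ?_)
        (yt8_n2 hτ (hQ g).1 (hQ g).2 (b1 (hP g)).1 (b1 (hP g)).2)
      rw [mul_comm]
      exact mul_le_mul_of_nonneg_right (hx g) (n2_nonneg _ _)
    · have e : ∀ g, (τ (Q g * (1 - P g))).re = (τ (Q g)).re - (τ (Q g * P g)).re := fun g => by
        rw [mul_sub, mul_one, map_sub, Complex.sub_re]
      simp only [e, Finset.sum_sub_distrib]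
      linarith
  have e : ∑ g ∈ s, P g * x g - ∑ g ∈ s, Q g * x g =
      star (∑ g ∈ s, star (x g) * (P g * (1 - Q g))) + -∑ g ∈ s, Q g * (1 - P g) * x g := by
    rw [star_sum, ← sub_eq_add_neg, ← Finset.sum_sub_distrib, ← Finset.sum_sub_distrib]
    refine Finset.sum_congr rfl fun g _ => ?_
    rw [star_mul, star_mul, star_star, (hP g).1.isSelfAdjoint.star_eq,
      (b1 (hQ g)).1.isSelfAdjoint.star_eq]
    noncomm_ring
  rw [e]
  refine (n2_add_le τ _ _).trans ?_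
  rw [n2_star hτ, n2_neg]
  linarith

theorem IsTw.act_sum_le [Group G] (hτ : IsTracialState τ) (h : IsTw τ C Λ E)
    (γ : G →* (A ≃⋆ₐ[ℂ] A)) (hγ : ∀ g x, τ (γ g x) = τ x) {l : G} {δ : ℝ}
    (hl : 1 - δ ≤ ∑ g ∈ Λ, (τ (E g * γ l (E (l⁻¹ * g)))).re) {x : G → A}
    (hc : ∀ g g', Commute (x g) (E g')) {M : ℝ} (hM : 0 ≤ M) (hx : ∀ g, ‖x g‖ ≤ M) :
    n2 τ (γ l (∑ g ∈ Λ, E g * x g) - ∑ g ∈ Λ, E g * γ l (x (l⁻¹ * g))) ≤ 2 * M * √δ := by
  classical
  have tp := fun z => (h.tp (l⁻¹ * z)).aut (γ l) (hγ l)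
  have s1 : ∀ {B : Type} [AddCommMonoid B] {f : G → B}, (∀ g, g ∉ Λ → f g = 0) →
      ∑ z ∈ Λ ∪ Λ.image (l * ·), f z = ∑ g ∈ Λ, f g := fun hf =>
    (Finset.sum_subset Finset.subset_union_left fun z _ hz => hf z hz).symm
  have key := two_towers hτ (Λ ∪ Λ.image (l * ·)) (fun z => γ l (E (l⁻¹ * z))) E
    (fun z => γ l (x (l⁻¹ * z))) (fun z => ⟨(tp z).nonneg, (tp z).le_one⟩)
    (fun z => ⟨(h.tp z).nonneg, (h.tp z).le_one⟩)
    (fun g g' e => by rw [← map_mul, h.orth _ _ fun e' => e (mul_left_cancel e'), map_zero])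
    h.orth (fun g g' => (hc _ _).map (γ l)) (δ := δ) hM
    (fun g => (StarAlgEquiv.norm_map (γ l) _).trans_le (hx _))
    (by
      rw [yt8_shift l (f := fun g => (τ (γ l (E g))).re) fun g hg => by simp [h.supp g hg]]
      simp only [hγ, h.sum_tr hτ, le_refl])
    (by rw [s1 fun g hg => by simp [h.supp g hg], h.sum_tr hτ])
    (by rwa [s1 fun g hg => by simp [h.supp g hg]])
  rw [yt8_shift l (f := fun g => γ l (E g) * γ l (x g)) fun g hg => by simp [h.supp g hg],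
    s1 fun g hg => by simp [h.supp g hg]] at key
  simpa only [map_sum, map_mul] using key

end Pool.Agent.Izumi
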