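import Pool.Agent.Lib.MP_b2135d_an.YB
import Pool.Agent.Lib.MP_b2135d_an.YT2
import Pool.Agent.Lib.MP_b2135d_an.YT8

/-! Existence modulo the trace kernel (PLAN section YT10). -/

namespace Pool.Agent.Izumi

open scoped ComplexOrder
open Filter Topology

variable {G D A : Type} [Group G] [Countable G] [CStarAlgebra D] [PartialOrder D]
  [StarOrderedRing D] [CStarAlgebra A] [PartialOrder A] [StarOrderedRing A]

omit [StarOrderedRing D] in
theorem yt10_stage (X : TSys G D A) (ht : X.Tow) {T : Set A} (hT : T.Countable)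
    (ρ : G →* (D ≃⋆ₐ[ℂ] D)) (p : D →⋆ₐ[ℂ] A) {w h : G → A}
    (hw : ∀ y x, w y * p x * star (w y) = twist X.γ ρ y p x) (hhT : ∀ y, h y ∈ cent T)
    (hs : ∀ y, IsSelfAdjoint (h y)) (hJ : ∀ y, ex (h y) - w y ∈ Jd X.τ) (L : Finset G)
    {M ε : ℝ} (hM : 0 < M) (hε : 0 < ε) :
    ∃ U ∈ unitary A, U ∈ cent T ∧ ∀ l ∈ L, ∀ a : D, ‖a‖ ≤ M →
      n2 X.τ (X.γ l (U * p a * star U) - U * p (ρ l a) * star U) ≤ ε := by
  have := X.S.sep
  obtain ⟨T₂, c₂, -, t₂⟩ := exists_test p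
  obtain ⟨Λ, E, hE, hl⟩ := ht L ((ε / (2 * M)) ^ 2) (T ∪ (T₂ ∪ (Set.range h ∪ Set.range w)))
    (by positivity) (hT.union (c₂.union ((Set.countable_range h).union (Set.countable_range w))))
  have hm : ∀ g, E g ∈ cent T ∧ E g ∈ cent T₂ ∧ E g ∈ cent (Set.range h) ∧
      E g ∈ cent (Set.range w) := fun g => by
    have h1 := X.toBSys.FT_le_cent _ (hE.mem g)
    rwa [mem_cent_union, mem_cent_union, mem_cent_union] at h1
  have ch : ∀ g g', Commute (h g) (E g') := fun g g' =>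
    (mem_cent.1 (hm g').2.2.1 _ ⟨g, rfl⟩).1.symm
  have cw : ∀ g g', Commute (w g) (E g') := fun g g' =>
    (mem_cent.1 (hm g').2.2.2 _ ⟨g, rfl⟩).1.symm
  have cw' : ∀ g g', Commute (star (w g)) (E g') := fun g g' =>
    (mem_cent.1 (hm g').2.2.2 _ ⟨g, rfl⟩).2.symm
  have cp : ∀ x g', Commute (p x) (E g') := fun x g' => by
    have h1 := (hm g').2.1
    rw [t₂, mem_cent_range] at h1
    exact (h1 x).symm
  have cP : ∀ x g g', Commute (twist X.γ ρ g p x) (E g') := fun x g g' => by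
    rw [← hw]
    exact ((cw g g').mul_left (cp x g')).mul_left (cw' g g')
  have sH : IsSelfAdjoint (∑ g ∈ Λ, E g * h g) :=
    (hE.star_sum ch).trans (Finset.sum_congr rfl fun g _ => by rw [(hs g).star_eq])
  have tH : ∑ g ∈ Λ, E g * h g ∈ cent T := sum_mem fun g _ => mul_mem (hm g).1 (hhT g)
  have h3 := hE.ex_sum X.tr ch
  have h4 : ∑ g ∈ Λ, E g * ex (h g) - ∑ g ∈ Λ, E g * w g ∈ Jd X.τ := IsTw.sum_congr hJ
  have h5 := (Jd X.τ).add_mem h3 h4
  rw [sub_add_sub_cancel] at h5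
  set U := ex (∑ g ∈ Λ, E g * h g) with hU
  have key : ∀ a, U * p a * star U - ∑ g ∈ Λ, E g * twist X.γ ρ g p a ∈ Jd X.τ := fun a => by
    have k1 : U * p a - (∑ g ∈ Λ, E g * w g) * p a ∈ Jd X.τ := by
      rw [← sub_mul]
      exact Jd_mul_right X.tr _ h5
    have k2 : star U - star (∑ g ∈ Λ, E g * w g) ∈ Jd X.τ := by
      rw [← star_sub]
      exact Jd_star X.tr h5
    have k3 := Jd_mul_sub X.tr k1 k2
    have k4 : (∑ g ∈ Λ, E g * w g) * p a = ∑ g ∈ Λ, E g * (w g * p a) := by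
      rw [Finset.sum_mul]
      exact Finset.sum_congr rfl fun g _ => mul_assoc _ _ _
    rw [k4, hE.star_sum cw] at k3
    have k5 := hE.sum_mul_sum X.tr (x := fun g => w g * p a) (fun g => star (w g))
      fun g g' => (cw g g').mul_left (cp a g')
    have k6 := (Jd X.τ).add_mem k3 k5
    rw [sub_add_sub_cancel] at k6
    simpa only [hw] using k6
  refine ⟨U, ex_unitary sH, ex_mem (isClosed_cent T) tH, fun l hL a ha => ?_⟩
  have hx : ∀ g, ‖twist X.γ ρ g p a‖ ≤ M := fun g =>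
    (NonUnitalStarAlgHom.norm_apply_le (twist X.γ ρ g p) a).trans ha
  have k1 := hE.act_sum_le X.tr X.γ X.inv (hl l hL) (cP a) hM.le hx
  have k2 : ∑ g ∈ Λ, E g * X.γ l (twist X.γ ρ (l⁻¹ * g) p a) =
      ∑ g ∈ Λ, E g * twist X.γ ρ g p (ρ l a) :=
    Finset.sum_congr rfl fun g _ => by rw [← twist_act, mul_inv_cancel_left]
  rw [k2, Real.sqrt_sq (by positivity)] at k1
  have k3 := Jd_aut _ (X.inv l) (key a)
  have k4 := (Jd X.τ).sub_mem k3 (key (ρ l a))
  have k5 : X.γ l (U * p a * star U) - U * p (ρ l a) * star U -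
      (X.γ l (∑ g ∈ Λ, E g * twist X.γ ρ g p a) - ∑ g ∈ Λ, E g * twist X.γ ρ g p (ρ l a)) ∈
        Jd X.τ := by
    rw [map_sub] at k4
    rwa [sub_sub_sub_comm]
  rw [n2_eq_of_Jd k5]
  refine k1.trans (le_of_eq ?_)
  field_simp

theorem TSys.embJ (X : TSys G D A) (ht : X.Tow) {T : Set A} (hT : T.Countable)
    (hi : ∀ g, ∀ t ∈ T, X.γ g t ∈ T) (ρ : G →* (D ≃⋆ₐ[ℂ] D)) :
    ∃ φ : D →⋆ₐ[ℂ] A, (∀ x, φ x ∈ cent T) ∧ ∀ g x, X.γ g (φ x) - φ (ρ g x) ∈ Jd X.τ := by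
  classical
  have := X.S.sep
  obtain ⟨p, hp⟩ := X.emb T hT
  have hP : ∀ y x, twist X.γ ρ y p x ∈ cent T := fun y x =>
    act_mem_cent X.γ y (hi y⁻¹) (hp _)
  choose w hw hwT hwp using fun y => X.toAmb.uni0 hT p (twist X.γ ρ y p) hp (hP y)
  choose h hhT hs _ hJ using fun y => X.toSat.exists_log hT (hw y) (hwT y)
  have v : IsTerm X.γ (fun x : Unit → A => x ()) := IsTerm.var ()
  have hD : Defn X.τ X.γ (fun x : Unit → A => x () ∈ unitary A ∧ x () ∈ cent T) :=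
    (Defn.unitary v).and (Defn.mem_cent hT v)
  let d : ℕ → D := TopologicalSpace.denseSeq D
  obtain ⟨x, -, ⟨h1, h2⟩, -, h3⟩ := X.sat.approx_n2 (κ := Empty) (fun _ => 1) hD
    (fun k => k.elim) (fun k => k.elim)
    (fun (k : G × ℕ) x => X.γ k.1 (x () * p (d k.2) * star (x ())) -
      x () * p (ρ k.1 (d k.2)) * star (x ()))
    (fun k => (((v.mul (IsTerm.const _)).mul v.star).act k.1).sub
      ((v.mul (IsTerm.const _)).mul v.star)) fun _ s ε hε => by
      have hM : (0 : ℝ) < 1 + ∑ k ∈ s, ‖d k.2‖ := by positivity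
      obtain ⟨U, a1, a2, a3⟩ := yt10_stage X ht hT ρ p hwp hhT hs hJ (s.image Prod.fst) hM hε
      have := nontrivial_of_tr X.tr
      refine ⟨fun _ => U, fun _ => (CStarRing.norm_of_mem_unitary a1).le, ⟨a1, a2⟩,
        fun k => k.elim, fun k hk => a3 _ (Finset.mem_image_of_mem _ hk) _ ?_⟩
      have := Finset.single_le_sum (f := fun k : G × ℕ => ‖d k.2‖) (fun _ _ => norm_nonneg _) hk
      linarith
  refine ⟨(adHom h1).comp p, fun a => mul_mem (mul_mem h2 (hp a)) (star_mem h2), fun g a => ?_⟩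
  have hc : Continuous fun a => X.γ g (((adHom h1).comp p) a) - ((adHom h1).comp p) (ρ g a) :=
    (hom_continuous ((X.γ g : A →⋆ₐ[ℂ] A).comp ((adHom h1).comp p))).sub
      (hom_continuous (((adHom h1).comp p).comp (ρ g : D →⋆ₐ[ℂ] D)))
  exact (TopologicalSpace.denseRange_denseSeq D).induction_on
    (p := fun a => X.γ g (((adHom h1).comp p) a) - ((adHom h1).comp p) (ρ g a) ∈ Jd X.τ) a
    ((isClosed_Jd X.τ).preimage hc) fun n => h3 (g, n)

end Pool.Agent.Izumi
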