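import Pool.Agent.Lib.MP_b2135d_an.YB
import Pool.Agent.Lib.MP_b2135d_an.YT1
import Pool.Agent.Lib.MP_b2135d_an.YT2
import Pool.Agent.Lib.MP_b2135d_an.YT8

/-! Uniqueness modulo the trace kernel (PLAN section YT9). -/

namespace Pool.Agent.Izumi

open scoped ComplexOrder
open Filter Topology

variable {G D A : Type} [Group G] [Countable G] [CStarAlgebra D] [PartialOrder D]
  [StarOrderedRing D] [CStarAlgebra A] [PartialOrder A] [StarOrderedRing A]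

omit [Group G] [Countable G] [CStarAlgebra D] [PartialOrder D] [StarOrderedRing D] in
theorem yt9_move {τ : A →ₚ[ℂ] ℂ} (hτ : IsTracialState τ) {U W a b : A} (h : U - W ∈ Jd τ)
    (hW : W * a - b * W ∈ Jd τ) : U * a - b * U ∈ Jd τ := by
  have e : U * a - b * U = ((U - W) * a - b * (U - W)) + (W * a - b * W) := by noncomm_ring
  rw [e]
  exact (Jd τ).add_mem ((Jd τ).sub_mem (Jd_mul_right hτ _ h) (Jd_mul_left _ h)) hW

omit [Countable G] [PartialOrder D] [StarOrderedRing D] [PartialOrder A] [StarOrderedRing A] in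
theorem yt9_act (γ : G →* (A ≃⋆ₐ[ℂ] A)) (ρ : G →* (D ≃⋆ₐ[ℂ] D)) (φ₁ φ₂ : D →⋆ₐ[ℂ] A)
    (e₁ : ∀ g x, φ₁ (ρ g x) = γ g (φ₁ x)) (e₂ : ∀ g x, φ₂ (ρ g x) = γ g (φ₂ x)) {u : A}
    (hu : u ∈ unitary A) (h : ∀ x, u * φ₁ x * star u = φ₂ x) (g : G) (x : D) :
    γ g u * φ₁ x = φ₂ x * γ g u := by
  have h1 : u * φ₁ (ρ g⁻¹ x) = φ₂ (ρ g⁻¹ x) * u := by
    rw [← h, mul_assoc (u * _), Unitary.star_mul_self_of_mem hu, mul_one]
  have h2 := congrArg (γ g) h1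
  rwa [map_mul, map_mul, ← e₁, ← e₂, act_act_inv] at h2

omit [Countable G] [StarOrderedRing D] in
theorem yt9_stage (X : TSys G D A) (ht : X.Tow) {T : Set A} (hT : T.Countable)
    (hi : ∀ g, ∀ t ∈ T, X.γ g t ∈ T) (φ₁ φ₂ : D →⋆ₐ[ℂ] A) {u h : A}
    (hu : ∀ g x, X.γ g u * φ₁ x = φ₂ x * X.γ g u) (hhT : h ∈ cent T) (hs : IsSelfAdjoint h)
    (hn : ‖h‖ ≤ 10) (hJ : ex h - u ∈ Jd X.τ) (L : Finset G) {ε : ℝ} (hε : 0 < ε) :
    ∃ H : A, IsSelfAdjoint H ∧ H ∈ cent T ∧ ‖H‖ ≤ 10 ∧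
      (∀ x, ex H * φ₁ x - φ₂ x * ex H ∈ Jd X.τ) ∧ ∀ l ∈ L, n2 X.τ (X.γ l H - H) ≤ ε := by
  have := X.S.sep
  obtain ⟨T₂, c₂, -, t₂⟩ := exists_test φ₂
  obtain ⟨Λ, E, hE, hl⟩ := ht L ((ε / 20) ^ 2) (T ∪ (T₂ ∪ {h})) (by positivity)
    (hT.union (c₂.union (Set.countable_singleton h)))
  have hm : ∀ g, E g ∈ cent T ∧ E g ∈ cent T₂ := fun g => by
    have h1 := X.toBSys.FT_le_cent _ (hE.mem g)
    rw [mem_cent_union, mem_cent_union] at h1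
    exact ⟨h1.1, h1.2.1⟩
  have hc : ∀ g g', Commute (X.γ g h) (E g') := fun g g' => by
    have h1 := X.toBSys.commute_of_FT (hE.mem g') (t := h) (Or.inr (Or.inr rfl)) 1 g
    rw [act_one] at h1
    exact h1.symm
  have h2 : ∀ g x, Commute (E g) (φ₂ x) := fun g x => by
    have h1 := (hm g).2
    rw [t₂, mem_cent_range] at h1
    exact h1 x
  have hx : ∀ g, ‖X.γ g h‖ ≤ 10 := fun g => by rw [norm_act]; exact hn
  refine ⟨∑ g ∈ Λ, E g * X.γ g h, ?_, ?_, hE.norm_sum_le hc (by norm_num) hx, fun x => ?_,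
    fun l hL => ?_⟩
  · refine (hE.star_sum hc).trans (Finset.sum_congr rfl fun g _ => ?_)
    rw [← map_star, hs.star_eq]
  · exact sum_mem fun g _ => mul_mem (hm g).1 (act_mem_cent X.γ g (hi g⁻¹) hhT)
  · have h3 := hE.ex_sum X.tr hc
    have h4 : ∑ g ∈ Λ, E g * ex (X.γ g h) - ∑ g ∈ Λ, E g * X.γ g u ∈ Jd X.τ :=
      IsTw.sum_congr fun g => by
        rw [← aut_ex, ← map_sub]
        exact Jd_aut _ (X.inv g) hJ
    have h5 := (Jd X.τ).add_mem h3 h4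
    rw [sub_add_sub_cancel] at h5
    refine yt9_move X.tr h5 ?_
    have h6 : (∑ g ∈ Λ, E g * X.γ g u) * φ₁ x = φ₂ x * ∑ g ∈ Λ, E g * X.γ g u := by
      rw [Finset.sum_mul, Finset.mul_sum]
      refine Finset.sum_congr rfl fun g _ => ?_
      rw [mul_assoc, hu, ← mul_assoc, (h2 g x).eq, mul_assoc]
    rw [h6, sub_self]
    exact (Jd X.τ).zero_mem
  · have h3 := hE.act_sum_le X.tr X.γ X.inv (hl l hL) hc (by norm_num) hx
    have h4 : ∑ g ∈ Λ, E g * X.γ l (X.γ (l⁻¹ * g) h) = ∑ g ∈ Λ, E g * X.γ g h :=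
      Finset.sum_congr rfl fun g _ => by rw [act_act, mul_inv_cancel_left]
    rw [h4, Real.sqrt_sq (by positivity)] at h3
    linarith

omit [StarOrderedRing D] in
theorem yt9_sat (X : TSys G D A) {T : Set A} (hT : T.Countable) (φ₁ φ₂ : D →⋆ₐ[ℂ] A)
    (hst : ∀ (L : Finset G) (ε : ℝ), 0 < ε → ∃ H : A, IsSelfAdjoint H ∧ H ∈ cent T ∧ ‖H‖ ≤ 10 ∧
      (∀ x, ex H * φ₁ x - φ₂ x * ex H ∈ Jd X.τ) ∧ ∀ l ∈ L, n2 X.τ (X.γ l H - H) ≤ ε) :
    ∃ H : A, IsSelfAdjoint H ∧ H ∈ cent T ∧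
      (∀ x, ex H * φ₁ x - φ₂ x * ex H ∈ Jd X.τ) ∧ ∀ l, X.γ l H - H ∈ Jd X.τ := by
  have := X.S.sep
  obtain ⟨Q, cQ, dQ⟩ := TopologicalSpace.exists_countable_dense D
  have v1 : IsTerm X.γ (fun x : Bool → A => x true) := IsTerm.var true
  have v0 : IsTerm X.γ (fun x : Bool → A => x false) := IsTerm.var false
  have hP : Defn X.τ X.γ (fun x : Bool → A => star (x true) = x true ∧ x true ∈ cent T ∧
      (‖x true‖ ≤ 10 ∧ x false = ex (x true)) ∧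
        ∀ d ∈ Q, x false * φ₁ d - φ₂ d * x false ∈ Jd X.τ) :=
    (Defn.eq v1.star v1).and ((Defn.mem_cent hT v1).and ((Defn.ex_eq v1 v0 10).and
      (Defn.forall_mem cQ fun d _ => Defn.mem_Jd
        ((v0.mul (IsTerm.const _)).sub ((IsTerm.const _).mul v0)))))
  obtain ⟨x, -, ⟨h1, h2, ⟨-, h3⟩, h4⟩, -, h5⟩ := X.sat.approx_n2 (κ := Empty) (fun _ => 10) hP
    (fun k => k.elim) (fun k => k.elim) (fun l x => X.γ l (x true) - x true)
    (fun l => (v1.act l).sub v1) fun _ L ε hε => by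
      obtain ⟨H, a1, a2, a3, a4, a5⟩ := hst L ε hε
      have := nontrivial_of_tr X.tr
      refine ⟨fun b => bif b then H else ex H, fun b => ?_,
        ⟨a1, a2, ⟨a3, rfl⟩, fun d _ => a4 d⟩, fun k => k.elim, a5⟩
      cases b
      · exact (CStarRing.norm_of_mem_unitary (ex_unitary a1)).le.trans (by norm_num)
      · exact a3
  refine ⟨x true, h1, h2, fun d => ?_, h5⟩
  rw [← h3]
  have hc : Continuous fun d => x false * φ₁ d - φ₂ d * x false :=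
    (continuous_const.mul (hom_continuous φ₁)).sub ((hom_continuous φ₂).mul continuous_const)
  exact dQ.induction (P := fun d => x false * φ₁ d - φ₂ d * x false ∈ Jd X.τ) h4
    ((isClosed_Jd X.τ).preimage hc) d

theorem TSys.uniJ (X : TSys G D A) (ht : X.Tow) {T : Set A} (hT : T.Countable)
    (hi : ∀ g, ∀ t ∈ T, X.γ g t ∈ T) (ρ : G →* (D ≃⋆ₐ[ℂ] D)) (φ₁ φ₂ : D →⋆ₐ[ℂ] A)
    (h₁ : ∀ x, φ₁ x ∈ cent T) (h₂ : ∀ x, φ₂ x ∈ cent T) (e₁ : ∀ g x, φ₁ (ρ g x) = X.γ g (φ₁ x))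
    (e₂ : ∀ g x, φ₂ (ρ g x) = X.γ g (φ₂ x)) : ∃ u ∈ unitary A, u ∈ cent T ∧
      (∀ g, X.γ g u = u) ∧ ∀ x, u * φ₁ x * star u - φ₂ x ∈ Jd X.τ := by
  obtain ⟨u, hu, huT, hφ⟩ := X.toAmb.uni0 hT φ₁ φ₂ h₁ h₂
  obtain ⟨h, hhT, hs, hn, hJ⟩ := X.toSat.exists_log hT hu huT
  obtain ⟨H, sH, tH, jH, gH⟩ := yt9_sat X hT φ₁ φ₂ fun L ε hε =>
    yt9_stage X ht hT hi φ₁ φ₂ (yt9_act X.γ ρ φ₁ φ₂ e₁ e₂ hu hφ) hhT hs hn hJ L hε
  obtain ⟨e, e0, -, eJ, eg, eT, eR⟩ := X.toSat.sigma (T := T ∪ {H})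
    (R := Set.range fun l => X.γ l H - H) (hT.union (Set.countable_singleton H))
    (Set.countable_range _) (by rintro _ ⟨l, rfl⟩; exact gH l)
  rw [mem_cent_union] at eT
  have hc : Commute e H := (mem_cent.1 eT.2 H rfl).1
  have s' : IsSelfAdjoint (H * (1 - e)) := by
    have h1 : star (H * (1 - e)) = (1 - e) * H := by
      rw [star_mul, star_sub, star_one, (IsSelfAdjoint.of_nonneg e0).star_eq, sH.star_eq]
    change star (H * (1 - e)) = H * (1 - e)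
    rw [h1, sub_mul, mul_sub, hc.eq, one_mul, mul_one]
  have g' : ∀ g, X.γ g (H * (1 - e)) = H * (1 - e) := fun g => by
    have h1 : (X.γ g H - H) * e = X.γ g H - H := (eR _ ⟨g, rfl⟩).2
    have h2 : X.γ g e = e := eg g
    have h3 : X.γ g H * (1 - e) = H * (1 - e) + ((X.γ g H - H) - (X.γ g H - H) * e) := by
      noncomm_ring
    rw [map_mul, map_sub, map_one, h2, h3, h1, sub_self, add_zero]
  have j' : H * (1 - e) - H ∈ Jd X.τ := by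
    have h1 : H * (1 - e) - H = -(H * e) := by noncomm_ring
    rw [h1]
    exact (Jd X.τ).neg_mem (Jd_mul_left H eJ)
  have hU := ex_unitary s'
  refine ⟨ex (H * (1 - e)), hU, ex_mem (isClosed_cent T) (mul_mem tH (sub_mem (one_mem _) eT.1)),
    fun g => by rw [aut_ex, g'], fun x => ?_⟩
  have h1 := ex_sub_mem (Jd X.τ) (isClosed_Jd X.τ) (fun c _ hx => Jd_mul_left c hx)
    (fun c _ hx => Jd_mul_right X.tr c hx) j'
  have h2 := Jd_mul_right X.tr (star (ex (H * (1 - e)))) (yt9_move X.tr h1 (jH x))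
  rwa [sub_mul, mul_assoc (φ₂ x), Unitary.mul_star_self_of_mem hU, mul_one] at h2

end Pool.Agent.Izumi
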