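import Pool.Agent.Lib.MP_b2135d_an.YT7
import Pool.Agent.Lib.MP_b2135d_an.YT9
import Pool.Agent.Lib.MP_b2135d_an.YT10

/-! Existence and uniqueness in tracial systems (PLAN section YT11). -/

namespace Pool.Agent.Izumi

open scoped ComplexOrder
open Filter Topology

theorem exists_sep_family {G : Type} [Group G] [Infinite G] (K : Finset G) (n : ℕ) :
    ∃ g : Fin n → G, ∀ i j, ∀ k ∈ K, (i ≠ j ∨ k ≠ 1) → (g i)⁻¹ * k * g j ≠ 1 := by
  classical
  induction n with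
  | zero => exact ⟨fun i => i.elim0, fun i => i.elim0⟩
  | succ n ih =>
    obtain ⟨g, hg⟩ := ih
    obtain ⟨y, hy⟩ := Infinite.exists_notMem_finset
      (((K ×ˢ (Finset.univ : Finset (Fin n))).image fun p => p.1 * g p.2) ∪
        ((K ×ˢ (Finset.univ : Finset (Fin n))).image fun p => p.1⁻¹ * g p.2))
    rw [Finset.mem_union, not_or] at hy
    refine ⟨Fin.cons y g, ?_⟩
    intro i j k hk hne
    refine Fin.cases ?_ (fun i' => ?_) i hne <;> refine Fin.cases ?_ (fun j' => ?_) j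
    · intro hne h
      simp only [Fin.cons_zero] at h
      rcases hne with h0 | h0
      · exact h0 rfl
      · apply h0
        calc k = y * (y⁻¹ * k * y) * y⁻¹ := by group
          _ = 1 := by rw [h]; group
    · intro _ h
      simp only [Fin.cons_zero, Fin.cons_succ] at h
      apply hy.1
      refine Finset.mem_image.2 ⟨(k, j'), by simp [hk], ?_⟩
      calc k * g j' = y * (y⁻¹ * k * g j') := by group
        _ = y := by rw [h, mul_one]
    · intro _ h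
      simp only [Fin.cons_zero, Fin.cons_succ] at h
      apply hy.2
      refine Finset.mem_image.2 ⟨(k, i'), by simp [hk], ?_⟩
      calc k⁻¹ * g i' = k⁻¹ * g i' * ((g i')⁻¹ * k * y) := by rw [h, mul_one]
        _ = y := by group
    · intro hne
      simp only [Fin.cons_succ]
      refine hg i' j' k hk (hne.imp (fun h0 h1 => h0 (by rw [h1])) id)

variable {G D A : Type} [Group G] [Countable G] [Infinite G] [CStarAlgebra D] [PartialOrder D]
  [StarOrderedRing D] [CStarAlgebra A] [PartialOrder A] [StarOrderedRing A]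

theorem TSys.hole (X : TSys G D A) (ht : X.Tow) (ψ φ : D →⋆ₐ[ℂ] A) {T : Set A}
    (hT : T.Countable) (hψ : cent T = cent (Set.range ψ)) (hφ : ∀ x, φ x ∈ cent T) :
    Hole X.γ T (Jd X.τ) φ := by
  classical
  intro R hR hRN n K
  have := X.S.sep
  obtain ⟨Tφ, hTφc, -, hTφ⟩ := exists_test φ
  obtain ⟨e, e0, e1, eJ, einv, ecent, eR⟩ := X.toSat.sigma (hT.union hTφc) hR hRN
  have eJ' : e ∈ Jd X.τ := eJ
  have einv' : ∀ h, X.γ h e = e := einv
  obtain ⟨g, hg⟩ := exists_sep_family K n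
  obtain ⟨r, rF, rTP, rpos, rw⟩ := X.wander ht
    (((Finset.univ : Finset (Fin n × Fin n)) ×ˢ K).image fun p => (g p.1.1)⁻¹ * p.2 * g p.1.2)
    ((hT.union hTφc).union (Set.countable_singleton e))
  have hce : ∀ h, Commute (X.γ h r) e := fun h => by
    have h1 := X.commute_of_FT rF (t := e) (Or.inr rfl) h 1
    rwa [act_one] at h1
  have hce' : ∀ h, Commute (X.γ h r) (1 - e) := fun h => (Commute.one_right _).sub_right (hce h)
  have hTP : ∀ h, TP X.τ (X.γ h r) := fun h => rTP.aut _ (X.inv h)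
  have hf0 : (0 : A) ≤ 1 - e := sub_nonneg.2 e1
  have hf1 : 1 - e ≤ (1 : A) := sub_le_self _ e0
  have hb : ∀ h, 0 ≤ X.γ h r * (1 - e) ∧ X.γ h r * (1 - e) ≤ X.γ h r ∧
      X.γ h r * (1 - e) ≤ 1 - e ∧ X.γ h r * (1 - e) ≤ 1 := fun h =>
    mul_between (hTP h).nonneg (hTP h).le_one hf0 hf1 (hce' h)
  have hJ : ∀ h, X.γ h r * (1 - e) - X.γ h r ∈ Jd X.τ := fun h => by
    have h1 : X.γ h r * (1 - e) - X.γ h r = -(X.γ h r * e) := by noncomm_ring
    rw [h1]
    exact neg_mem (Jd_mul_left _ eJ')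
  have hTP' : ∀ h, TP X.τ (X.γ h r * (1 - e)) := fun h =>
    (hTP h).of_sub_mem X.tr (hb h).1 (hb h).2.2.2 (hJ h)
  have hpow : ∀ h (m : ℕ), (X.τ r).re ≤ (X.τ ((X.γ h r * (1 - e)) ^ m)).re := by
    intro h m
    cases m with
    | zero =>
      rw [pow_zero]
      exact tr_re_mono _ rTP.le_one
    | succ m =>
      rw [tr_eq_of_Jd X.tr ((hTP' h).pow_sub X.tr m), tr_eq_of_Jd X.tr (hJ h), X.inv]
  obtain ⟨χ, hχ⟩ := X.S.exists_prod ψ φ (fun x => hψ ▸ hφ x)
  have hmem : ∀ z, z ∈ cent (Set.range χ) ↔ z ∈ cent (T ∪ Tφ) := fun z => by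
    rw [hχ, mem_cent_union, hψ, hTφ]
  have hec : e ∈ cent (Set.range χ) := (hmem e).2 ecent
  have hac : ∀ h, X.γ h r * (1 - e) ∈ cent (Set.range χ) := fun h =>
    mul_mem ((hmem _).2 (mem_cent_union.1 (X.FT_le_cent _ (X.act_mem_FT h rF))).1)
      (sub_mem (one_mem _) hec)
  have hv : ∀ h, ∃ s ∈ cent (Set.range χ), star s * s = e ∧ X.γ h r * (1 - e) * s = s := by
    intro h
    obtain ⟨s₀, h1, h2⟩ := X.si e _ e0 e1 (hb h).1 (hb h).2.2.2 eJ' ⟨_, rpos, hpow h⟩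
    exact X.toAmb.rel χ hec (hac h) h1 h2
  choose v hv1 hv2 hv3 using hv
  refine ⟨e, fun i => v (g i), einv', (CStarAlgebra.norm_le_one_iff_of_nonneg e e0).2 e1,
    fun x hx => (eR x hx).1, fun i => (mem_cent_union.1 ((hmem _).1 (hv1 _))).1, ?_, ?_,
    fun i => hv2 _, ?_⟩
  · intro i x
    exact mem_cent_range.1 ((hχ _).1 (hv1 _)).2 x
  · intro i
    exact mul_eq_zero_of_le_one_sub e0 (le_sub_comm.1 (hb (g i)).2.2.1) (hv3 _)
  · intro i j k hk hne
    have h0 : r * X.γ ((g i)⁻¹ * k * g j) r = 0 :=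
      rw _ (Finset.mem_image.2 ⟨((i, j), k), by simp [hk], rfl⟩) (hg i j k hk hne)
    have h1 : X.γ (g i) r * X.γ (k * g j) r = 0 := by
      have h2 := congrArg (X.γ (g i)) h0
      rw [map_mul, map_zero, act_act] at h2
      have h3 : g i * ((g i)⁻¹ * k * g j) = k * g j := by group
      rwa [h3] at h2
    have h4 : star (v (g i)) = star (v (g i)) * (X.γ (g i) r * (1 - e)) := by
      have h5 := congrArg star (hv3 (g i))
      rw [star_mul, (IsSelfAdjoint.of_nonneg (hb (g i)).1).star_eq] at h5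
      exact h5.symm
    have h6 : X.γ k (v (g j)) = X.γ (k * g j) r * (1 - e) * X.γ k (v (g j)) := by
      have h7 := congrArg (X.γ k) (hv3 (g j))
      rw [map_mul, map_mul, map_sub, map_one, einv', act_act] at h7
      exact h7.symm
    have h8 : X.γ (g i) r * (1 - e) * (X.γ (k * g j) r * (1 - e)) = 0 := by
      calc X.γ (g i) r * (1 - e) * (X.γ (k * g j) r * (1 - e))
          = X.γ (g i) r * ((1 - e) * X.γ (k * g j) r) * (1 - e) := by simp only [mul_assoc]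
        _ = X.γ (g i) r * X.γ (k * g j) r * ((1 - e) * (1 - e)) := by
            rw [← (hce' (k * g j)).eq]; simp only [mul_assoc]
        _ = 0 := by rw [h1, zero_mul]
    calc star (v (g i)) * X.γ k (v (g j))
        = star (v (g i)) * (X.γ (g i) r * (1 - e)) *
            (X.γ (k * g j) r * (1 - e) * X.γ k (v (g j))) := by rw [← h4, ← h6]
      _ = star (v (g i)) * (X.γ (g i) r * (1 - e) * (X.γ (k * g j) r * (1 - e))) *
            X.γ k (v (g j)) := by simp only [mul_assoc]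
      _ = 0 := by rw [h8, mul_zero, zero_mul]

theorem TSys.uni (X : TSys G D A) (ht : X.Tow) (hc : CoreUni X.γ D) : UNI X.γ D := by
  intro ψ hψ ρ φ₁ φ₂ h₁ h₂ e₁ e₂
  have := X.S.sep
  obtain ⟨T, hT, hi, hTc⟩ := exists_test_inv X.γ ψ hψ
  rw [← hTc] at h₁ h₂ ⊢
  obtain ⟨u₀, hu₀, hu₀c, hu₀i, hu₀J⟩ := X.uniJ ht hT hi ρ φ₁ φ₂ h₁ h₂ e₁ e₂
  obtain ⟨u, hu, huc, hui, hux⟩ := hc T T (Jd X.τ)
    ⟨subset_rfl, hT, hi, hi, isIdl_Jd X.tr X.γ X.inv T⟩ ρ ((adHom hu₀).comp φ₁) φ₂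
    (fun x => mul_mem (mul_mem hu₀c (h₁ x)) (star_mem hu₀c)) h₂
    (fun g x => by
      change u₀ * φ₁ (ρ g x) * star u₀ = X.γ g (u₀ * φ₁ x * star u₀)
      rw [map_mul, map_mul, map_star, hu₀i, e₁])
    e₂ hu₀J (X.hole ht ψ φ₂ hT hTc h₂)
  refine ⟨u * u₀, mul_mem hu hu₀, mul_mem huc hu₀c, fun g => by rw [map_mul, hui, hu₀i],
    fun x => ?_⟩
  have h3 : u * (u₀ * φ₁ x * star u₀) * star u = φ₂ x := hux x
  rw [← h3, star_mul]
  simp only [mul_assoc]

theorem TSys.exi (X : TSys G D A) (ht : X.Tow) (hc : CoreEmb X.γ D) : EMB X.γ D := by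
  intro ψ hψ ρ
  have := X.S.sep
  obtain ⟨T, hT, hi, hTc⟩ := exists_test_inv X.γ ψ hψ
  rw [← hTc]
  obtain ⟨φ, hφ, hJ⟩ := X.embJ ht hT hi ρ
  exact hc T T (Jd X.τ) ⟨subset_rfl, hT, hi, hi, isIdl_Jd X.tr X.γ X.inv T⟩ ρ φ hφ hJ
    (X.hole ht ψ φ hT hTc hφ)

end Pool.Agent.Izumi
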