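import Pool.Agent.Lib.MP_b2135d_an.YT5
import Pool.Agent.Lib.MP_b2135d_an.YT1

/-! Orthogonal towers (PLAN section YT6). -/

namespace Pool.Agent.Izumi

open scoped ComplexOrder
open Filter Topology

variable {G D A : Type} [Group G] [Countable G] [CStarAlgebra D] [PartialOrder D] [CStarAlgebra A]
  [PartialOrder A] [StarOrderedRing A]

theorem TSys.yt6_sat (X : TSys G D A) (L Λ : Finset G) (hΛ : Λ.Nonempty) :
    ∃ E : G → A, (∀ y, E y ∈ X.F ∧ 0 ≤ E y ∧ E y ≤ 1) ∧ (∀ y, y ∉ Λ → E y = 0) ∧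
      ∑ y ∈ Λ, E y ≤ 1 ∧
      ∀ l ∈ L, 2 * ((Set.ncard {x | x ∈ Λ ∧ l⁻¹ * x ∈ Λ} : ℝ) / Λ.card) - 1 ≤
        ∑ y ∈ Λ, (X.τ (E y * X.γ l (E (l⁻¹ * y)))).re := by
  have hP : Defn X.τ X.γ fun x : G → A => (∀ y, x y ∈ cent X.T0 ∧ 0 ≤ x y ∧ x y ≤ 1) ∧
      (∀ y, y ∉ Λ → x y = 0) ∧ 0 ≤ ∑ y ∈ Λ, x y ∧ ∑ y ∈ Λ, x y ≤ 1 :=
    (Defn.forall fun y => (Defn.mem_cent X.T0_count (IsTerm.var y)).and
      (Defn.between (IsTerm.var y))).and
      ((Defn.forall fun y => Defn.imp (y ∉ Λ) fun _ =>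
        Defn.eq (IsTerm.var y) (IsTerm.const 0)).and
        (Defn.between (IsTerm.sum Λ fun y _ => IsTerm.var y)))
  obtain ⟨E, -, ⟨h1, h2, -, h3⟩, -, h4⟩ := X.sat.approx (κ := Empty) (κ' := L) (fun _ => 1) hP
    (fun k => k.elim) (fun k => k.elim)
    (fun l x => ∑ y ∈ Λ, x y * X.γ l.1 (x (l.1⁻¹ * y)))
    (fun l => IsTerm.sum Λ fun y _ => (IsTerm.var y).mul ((IsTerm.var (l.1⁻¹ * y)).act l.1))
    (fun l => 2 * ((Set.ncard {x | x ∈ Λ ∧ l.1⁻¹ * x ∈ Λ} : ℝ) / Λ.card) - 1)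
    (fun _ s' ε hε => by
      obtain ⟨E, e1, e2, e3, e4⟩ := X.fill L Λ hΛ hε
      have e5 : ∀ y, E y ≤ 1 := fun y => by
        by_cases hy : y ∈ Λ
        · exact (Finset.single_le_sum (fun z _ => (e1 z).2) hy).trans e3
        · rw [e2 y hy]
          exact zero_le_one
      refine ⟨E, fun y => (CStarAlgebra.norm_le_one_iff_of_nonneg _ (e1 y).2).2 (e5 y),
        ⟨fun y => ⟨(e1 y).1, (e1 y).2, e5 y⟩, e2, Finset.sum_nonneg fun z _ => (e1 z).2, e3⟩,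
        fun k => k.elim, fun l _ => ?_⟩
      rw [map_sum, Complex.re_sum]
      exact e4 l.1 l.2)
  refine ⟨E, h1, h2, h3, fun l hl => ?_⟩
  have h5 := h4 ⟨l, hl⟩
  rwa [map_sum, Complex.re_sum] at h5

theorem TSys.tow0 (X : TSys G D A) (L Λ : Finset G) (hΛ : Λ.Nonempty) :
    ∃ E : G → A, IsTw X.τ X.F Λ E ∧
      ∀ l ∈ L, 2 * ((Set.ncard {x | x ∈ Λ ∧ l⁻¹ * x ∈ Λ} : ℝ) / Λ.card) - 1 ≤
        ∑ y ∈ Λ, (X.τ (E y * X.γ l (E (l⁻¹ * y)))).re := by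
  classical
  obtain ⟨E, h1, h2, h3, h4⟩ := X.yt6_sat (insert 1 L) Λ hΛ
  have h5 : 1 ≤ ∑ y ∈ Λ, (X.τ (E y * E y)).re := by
    have h6 := h4 1 (Finset.mem_insert_self _ _)
    have h7 : {x | x ∈ Λ ∧ (1 : G)⁻¹ * x ∈ Λ} = (Λ : Set G) := by
      ext x
      simp
    have h8 : (Λ.card : ℝ) ≠ 0 := Nat.cast_ne_zero.2 hΛ.card_pos.ne'
    rw [h7, Set.ncard_coe_finset, div_self h8] at h6
    simp only [inv_one, one_mul, act_one] at h6
    linarith
  have h6 : ∑ y ∈ Λ, (X.τ (E y)).re ≤ 1 := by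
    rw [← Complex.re_sum, ← map_sum]
    exact tr_re_le_one X.tr h3
  have h7 : ∀ y, (X.τ (E y * E y)).re ≤ (X.τ (E y)).re := fun y =>
    tr_mul_le X.tr (h1 y).2.1 (h1 y).2.2
  have h8 : ∀ y, (X.τ (E y)).re ≤ (X.τ (E y * E y)).re := fun y => by
    by_cases hy : y ∈ Λ
    · have h9 := Finset.single_le_sum (f := fun z => (X.τ (E z)).re - (X.τ (E z * E z)).re)
        (fun z _ => sub_nonneg.2 (h7 z)) hy
      rw [Finset.sum_sub_distrib] at h9
      linarith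
    · rw [h2 y hy, mul_zero]
  have hTP : ∀ y, TP X.τ (E y) := fun y => TP.of_tr (h1 y).2.1 (h1 y).2.2 (h8 y)
  have hsum : ∑ y ∈ Λ, E y - 1 ∈ Jd X.τ := by
    rw [← neg_mem_iff, neg_sub]
    refine mem_Jd_of_nonneg (sub_nonneg.2 h3) ?_
    rw [map_sub, X.tr.1, map_sum, Complex.sub_re, Complex.re_sum, Complex.one_re]
    have h9 := Finset.sum_le_sum fun y (_ : y ∈ Λ) => h7 y
    linarith
  have horth : ∀ g g', g ≠ g' → E g * E g' ∈ Jd X.τ := fun g g' hne => by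
    by_cases hg : g ∈ Λ
    · by_cases hg' : g' ∈ Λ
      · refine mul_mem_Jd X.tr (h1 g).2.1 (h1 g').2.1 ?_
        have h9 : E g + E g' ≤ 1 := by
          refine le_trans ?_ h3
          rw [← Finset.sum_pair hne]
          refine Finset.sum_le_sum_of_subset_of_nonneg ?_ fun z _ _ => (h1 z).2.1
          exact Finset.insert_subset hg (Finset.singleton_subset_iff.2 hg')
        have h10 := tr_mul_le X.tr (h1 g).2.1 h9
        rw [mul_add, map_add, Complex.add_re] at h10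
        linarith [h8 g]
      · rw [h2 g' hg', mul_zero]
        exact zero_mem _
    · rw [h2 g hg, zero_mul]
      exact zero_mem _
  obtain ⟨e, e0, e1, eJ, -, eT, eR⟩ := X.toSat.sigma (T := X.T0 ∪ Set.range E)
    (R := Set.range fun p : {p : G × G // p.1 ≠ p.2} => E p.1.1 * E p.1.2)
    (X.T0_count.union (Set.countable_range E)) (Set.countable_range _)
    (by rintro _ ⟨p, rfl⟩; exact horth _ _ p.2)
  have eJ' : e ∈ Jd X.τ := eJ
  obtain ⟨eF, eE⟩ := mem_cent_union.1 eT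
  have ec : ∀ y, Commute (E y) (1 - e) := fun y =>
    (Commute.one_right _).sub_right (mem_cent.1 eE _ ⟨y, rfl⟩).1.symm
  have hd : ∀ y, E y * (1 - e) - E y ∈ Jd X.τ := fun y => by
    have h9 : E y * (1 - e) - E y = -(E y * e) := by
      rw [mul_sub, mul_one, sub_sub_cancel_left]
    rw [h9]
    exact neg_mem (Jd_mul_left _ eJ')
  refine ⟨fun y => E y * (1 - e), ⟨fun y => mul_mem (h1 y).1 (sub_mem (one_mem _) eF),
    fun y => ?_, fun y hy => by rw [h2 y hy, zero_mul], fun g g' hne => ?_, ?_⟩,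
    fun l hl => ?_⟩
  · have h9 := mul_between (h1 y).2.1 (h1 y).2.2 (sub_nonneg.2 e1) (sub_le_self 1 e0) (ec y)
    exact (hTP y).of_sub_mem X.tr h9.1 h9.2.2.2 (hd y)
  · have h9 : E g * E g' * e = E g * E g' := (eR _ ⟨⟨(g, g'), hne⟩, rfl⟩).2
    have h10 : E g * E g' * (1 - e) = 0 := by rw [mul_sub, mul_one, h9, sub_self]
    calc E g * (1 - e) * (E g' * (1 - e)) = E g * ((1 - e) * E g') * (1 - e) := by
          simp only [mul_assoc]
      _ = E g * E g' * (1 - e) * (1 - e) := by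
          rw [← (ec g').eq]
          simp only [mul_assoc]
      _ = 0 := by rw [h10, zero_mul]
  · have h9 := add_mem (Submodule.sum_mem _ fun y (_ : y ∈ Λ) => hd y) hsum
    rwa [Finset.sum_sub_distrib, sub_add_sub_cancel] at h9
  · refine (h4 l (Finset.mem_insert_of_mem hl)).trans (le_of_eq ?_)
    refine Finset.sum_congr rfl fun y _ => congrArg Complex.re (tr_eq_of_Jd X.tr ?_).symm
    refine Jd_mul_sub X.tr (hd y) ?_
    rw [← map_sub]
    exact Jd_aut _ (X.inv l) (hd _)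

theorem TSys.tow (X : TSys G D A) (hf : Foel G) : X.Tow := by
  intro L δ T hδ hT
  obtain ⟨Λ, hΛ, hF⟩ := hf L (δ / 2) (half_pos hδ)
  obtain ⟨E, hE, hL⟩ := X.tow0 L Λ hΛ
  obtain ⟨𝒮, Ψ, hS, hc⟩ := X.ic (Set.range E) T (Set.countable_range E) hT
    (by rintro _ ⟨g, rfl⟩; exact hE.mem g)
  have hm : ∀ g, E g ∈ 𝒮 := fun g => hS ⟨g, rfl⟩
  have hJ : ∀ x ∈ 𝒮, x ∈ Jd X.τ → Ψ x ∈ Jd X.τ := fun x hx h =>
    mem_Jd.2 ((hc.n2_eq hx).trans (mem_Jd.1 h))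
  refine ⟨Λ, fun g => Ψ (E g), ⟨fun g => hc.mem _ (hm g), fun g => ⟨?_, ?_, ?_⟩,
    fun g hg => by rw [hE.supp g hg, map_zero], fun g g' hne => ?_, ?_⟩, fun l hl => ?_⟩
  · exact hc.nonneg (hm g) (hE.tp g).nonneg
  · rw [← hc.map_one]
    exact hc.le (hm g) (one_mem _) (hE.tp g).le_one
  · rw [← hc.map_mul _ (hm g) _ (hm g), ← map_sub]
    exact hJ _ (sub_mem (mul_mem (hm g) (hm g)) (hm g)) (hE.tp g).idem
  · rw [← hc.map_mul _ (hm g) _ (hm g'), hE.orth g g' hne, map_zero]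
  · rw [← hc.map_one, ← map_sum, ← map_sub]
    exact hJ _ (sub_mem (sum_mem fun g _ => hm g) (one_mem _)) hE.sum
  · have h1 : (0 : ℝ) < Λ.card := Nat.cast_pos.2 hΛ.card_pos
    have h2 := (le_div_iff₀ h1).2 (hF l hl)
    refine le_trans (by linarith) ((hL l hl).trans (le_of_eq ?_))
    refine Finset.sum_congr rfl fun y _ => congrArg Complex.re ?_
    have h3 := hc.act_mem l _ (hm (l⁻¹ * y))
    rw [← hc.map_act l _ (hm _), ← hc.map_mul _ (hm y) _ h3, hc.tr _ (mul_mem (hm y) h3)]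

end Pool.Agent.Izumi
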