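import Pool.Agent.Lib.MP_b2135d_an.YA
import Pool.Agent.Lib.MP_b2135d_an.YJ

/-! A tracial projection that is moved (PLAN section YT3). -/

namespace Pool.Agent.Izumi

open scoped ComplexOrder
open Filter Topology

/-- The ramp function. -/
noncomputable def yt3_ramp (s : ℝ) : ℝ := max 0 (min 1 s)

theorem yt3_ramp_cont : Continuous yt3_ramp := by
  unfold yt3_ramp
  fun_prop

theorem yt3_ramp_nonneg (s : ℝ) : 0 ≤ yt3_ramp s := le_max_left _ _

theorem yt3_ramp_le (s : ℝ) : yt3_ramp s ≤ 1 := max_le zero_le_one (min_le_left _ _)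

theorem yt3_ramp_sum (x : ℝ) (N : ℕ) :
    ∑ j ∈ Finset.range N, yt3_ramp (x - j) = max 0 (min (N : ℝ) x) := by
  induction N with
  | zero => simp
  | succ N ih =>
    rw [Finset.sum_range_succ, ih]
    have hN : (0 : ℝ) ≤ N := Nat.cast_nonneg N
    unfold yt3_ramp
    push_cast
    simp only [max_def, min_def]
    split_ifs <;> linarith

theorem yt3_ramp_step (s : ℝ) : yt3_ramp (s - 1) ≤ yt3_ramp s * yt3_ramp s := by
  rcases le_total s 1 with h | h
  · have : yt3_ramp (s - 1) = 0 := max_eq_left ((min_le_right _ _).trans (by linarith))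
    rw [this]
    exact mul_self_nonneg _
  · have : yt3_ramp s = 1 := by
      unfold yt3_ramp
      rw [min_eq_left h, max_eq_right zero_le_one]
    rw [this, one_mul]
    exact yt3_ramp_le _

theorem yt3_ramp_var (x : ℝ) (N : ℕ) :
    ∑ j ∈ Finset.range N, (yt3_ramp (x - j) - yt3_ramp (x - j) * yt3_ramp (x - j)) ≤ 1 := by
  have h : ∑ j ∈ Finset.range N, (yt3_ramp (x - j) - yt3_ramp (x - j) * yt3_ramp (x - j)) ≤
      yt3_ramp x - yt3_ramp (x - N) := by
    induction N with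
    | zero => simp
    | succ N ih =>
      rw [Finset.sum_range_succ]
      have h1 := yt3_ramp_step (x - N)
      have e : x - ((N + 1 : ℕ) : ℝ) = x - N - 1 := by push_cast; ring
      rw [e]
      linarith
  linarith [yt3_ramp_le x, yt3_ramp_nonneg (x - N)]

variable {G A : Type} [Group G] [CStarAlgebra A] [PartialOrder A] [StarOrderedRing A]

theorem yt3_n2 (S : Sat G A) (h : G) {r : A} (h0 : 0 ≤ r) (h1 : r ≤ 1) :
    n2 S.τ (S.γ h r - r) ^ 2 ≤ 2 * (S.τ (r - r * S.γ h r)).re := by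
  have hs : star r = r := (IsSelfAdjoint.of_nonneg h0).star_eq
  have e1 : S.τ (S.γ h r * S.γ h r) = S.τ (r * r) := by rw [← map_mul, S.inv]
  have e2 : S.τ (S.γ h r * r) = S.τ (r * S.γ h r) := S.tr.2 _ _
  have e3 := tr_mul_le S.tr h0 h1
  rw [n2_sq, star_sub, ← map_star, hs]
  simp only [sub_mul, mul_sub, map_sub, Complex.sub_re, e1, e2]
  linarith

theorem yt3_approx (S : Sat G A) {T : Set A} {h : G} {z : A} (hz : z ∈ cent T)
    (hsa : IsSelfAdjoint z) (hne : S.γ h z - z ∉ Jd S.τ) :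
    ∃ δ : ℝ, 0 < δ ∧ ∀ ε : ℝ, 0 < ε → ∃ r ∈ cent T, 0 ≤ r ∧ r ≤ 1 ∧
      δ ≤ (S.τ (r - r * S.γ h r)).re ∧ (S.τ (r - r * r)).re ≤ ε := by
  have := nontrivial_of_tr S.tr
  have hd0 : 0 < n2 S.τ (S.γ h z - z) := lt_of_le_of_ne (n2_nonneg _ _) (fun e => hne e.symm)
  obtain ⟨c, hc⟩ : ∃ c : ℝ, c = (2 * ‖z‖ + 1)⁻¹ := ⟨_, rfl⟩
  have hM : 0 ≤ ‖z‖ := norm_nonneg z
  have hc0 : 0 < c := by rw [hc]; positivity
  have hc1 : c * (2 * ‖z‖ + 1) = 1 := by rw [hc]; exact inv_mul_cancel₀ (by positivity)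
  obtain ⟨d, hd⟩ : ∃ d : ℝ, d = c * n2 S.τ (S.γ h z - z) := ⟨_, rfl⟩
  have hdp : 0 < d := by rw [hd]; positivity
  refine ⟨d ^ 2 / 8, by positivity, fun ε hε => ?_⟩
  obtain ⟨N, hN⟩ := exists_nat_gt (2 * (2 / ε) / d)
  have hK : 0 < 2 / ε := by positivity
  have hNp : (0 : ℝ) < N := lt_trans (by positivity) hN
  have hN0 : 0 < N := by exact_mod_cast hNp
  have hNd : 2 * (2 / ε) ≤ N * d := ((div_lt_iff₀ hdp).1 hN).le
  obtain ⟨f, hf⟩ : ∃ f : ℕ → ℝ → ℝ, f = fun (j : ℕ) t => yt3_ramp (N * (c * (t + ‖z‖)) - j) :=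
    ⟨_, rfl⟩
  have hfc : ∀ j, Continuous (f j) := fun j => by
    rw [hf]
    exact yt3_ramp_cont.comp (by fun_prop)
  have hf0 : ∀ j t, 0 ≤ f j t := fun j t => by rw [hf]; exact yt3_ramp_nonneg _
  have hf1 : ∀ j t, f j t ≤ 1 := fun j t => by rw [hf]; exact yt3_ramp_le _
  have hr0 : ∀ j, 0 ≤ cfc (f j) z := fun j => cfc_nonneg fun t _ => hf0 j t
  have hr1 : ∀ j, cfc (f j) z ≤ 1 := fun j => cfc_le_one _ _ fun t _ => hf1 j t
  have hsq : ∀ j, cfc (f j) z - cfc (f j) z * cfc (f j) z =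
      cfc (fun t => f j t - f j t * f j t) z := fun j => by
    rw [cfc_sub (f j) (fun t => f j t * f j t) z (hfc j).continuousOn
      ((hfc j).mul (hfc j)).continuousOn, cfc_mul _ _ z (hfc j).continuousOn (hfc j).continuousOn]
  have hsum : ∑ j ∈ Finset.range N, cfc (f j) z =
      (N * c) • z + algebraMap ℝ A (N * c * ‖z‖) := by
    rw [← cfc_sum f z _ fun j _ => (hfc j).continuousOn]
    have e : cfc (fun t : ℝ => (N * c) * t + N * c * ‖z‖) z =
        (N * c) • z + algebraMap ℝ A (N * c * ‖z‖) := by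
      rw [cfc_add_const _ _ z, cfc_const_mul_id _ z]
    rw [← e]
    refine cfc_congr fun t ht => ?_
    have h1 : |t| ≤ ‖z‖ := by
      have := spectrum.norm_le_norm_of_mem ht
      rwa [Real.norm_eq_abs] at this
    obtain ⟨h2, h3⟩ := abs_le.1 h1
    have h4 : 0 ≤ c * (t + ‖z‖) := mul_nonneg hc0.le (by linarith)
    have h5 : c * (t + ‖z‖) ≤ 1 := by
      rw [← hc1]
      exact mul_le_mul_of_nonneg_left (by linarith) hc0.le
    rw [Finset.sum_apply, hf]
    simp only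
    rw [yt3_ramp_sum, min_eq_right (mul_le_of_le_one_right hNp.le h5),
      max_eq_right (mul_nonneg hNp.le h4)]
    ring
  have hA : (N : ℝ) * d ≤ ∑ j ∈ Finset.range N, n2 S.τ (S.γ h (cfc (f j) z) - cfc (f j) z) := by
    refine le_trans (le_of_eq ?_) (n2_sum_le S.τ _ _)
    have e : ∑ j ∈ Finset.range N, (S.γ h (cfc (f j) z) - cfc (f j) z) =
        (N * c) • (S.γ h z - z) := by
      rw [Finset.sum_sub_distrib, ← map_sum, hsum, map_add, Algebra.algebraMap_eq_smul_one,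
        smul_sub]
      simp only [← Complex.coe_smul, map_smul, map_one]
      abel
    rw [e, n2_real_smul, abs_of_pos (mul_pos hNp hc0), hd, mul_assoc]
  have hB : ∑ j ∈ Finset.range N, (S.τ (cfc (f j) z - cfc (f j) z * cfc (f j) z)).re ≤ 1 := by
    rw [← Complex.re_sum, ← map_sum]
    refine tr_re_le_one S.tr ?_
    simp only [hsq]
    rw [← cfc_sum (fun j t => f j t - f j t * f j t) z _
      fun j _ => ((hfc j).sub ((hfc j).mul (hfc j))).continuousOn]
    refine cfc_le_one _ _ fun t _ => ?_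
    rw [Finset.sum_apply, hf]
    exact yt3_ramp_var _ _
  obtain ⟨j, -, hj⟩ : ∃ j ∈ Finset.range N, d / 2 ≤ n2 S.τ (S.γ h (cfc (f j) z) - cfc (f j) z) -
      2 / ε * (S.τ (cfc (f j) z - cfc (f j) z * cfc (f j) z)).re := by
    refine Finset.exists_le_of_sum_le (Finset.nonempty_range_iff.2 hN0.ne') ?_
    rw [Finset.sum_sub_distrib, ← Finset.mul_sum, Finset.sum_const, Finset.card_range,
      nsmul_eq_mul]
    have := mul_le_mul_of_nonneg_left hB hK.le
    linarith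
  have hb0 : 0 ≤ (S.τ (cfc (f j) z - cfc (f j) z * cfc (f j) z)).re := by
    have := tr_mul_le S.tr (hr0 j) (hr1 j)
    rw [map_sub, Complex.sub_re]
    linarith
  have hn1 : ‖cfc (f j) z‖ ≤ 1 := (CStarAlgebra.norm_le_one_iff_of_nonneg _ (hr0 j)).2 (hr1 j)
  have ha2 : n2 S.τ (S.γ h (cfc (f j) z) - cfc (f j) z) ≤ 2 := by
    refine (n2_le_norm S.tr _).trans ((norm_sub_le _ _).trans ?_)
    rw [norm_act]
    linarith
  refine ⟨cfc (f j) z, cfc_mem_cent hz _, hr0 j, hr1 j, ?_, ?_⟩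
  · have h1 := yt3_n2 S h (hr0 j) (hr1 j)
    have h2 : d / 2 ≤ n2 S.τ (S.γ h (cfc (f j) z) - cfc (f j) z) := by
      have := mul_nonneg hK.le hb0
      linarith
    have h3 := pow_le_pow_left₀ (by positivity) h2 2
    linarith
  · have h1 : 2 / ε * (S.τ (cfc (f j) z - cfc (f j) z * cfc (f j) z)).re ≤ 2 := by linarith
    rw [div_mul_eq_mul_div, div_le_iff₀ hε] at h1
    linarith

theorem Sat.tp_free (S : Sat G A) {T : Set A} (hT : T.Countable) {h : G} {y : A}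
    (hy : y ∈ cent T) (hne : S.γ h y - y ∉ Jd S.τ) :
    ∃ p ∈ cent T, TP S.τ p ∧ (S.τ (p * S.γ h p)).re < (S.τ p).re := by
  obtain ⟨z, hz, hsa, hz'⟩ : ∃ z ∈ cent T, IsSelfAdjoint z ∧ S.γ h z - z ∉ Jd S.τ := by
    obtain ⟨a, b, ha, hb, e, -, -, hC⟩ := exists_sa_parts y
    obtain ⟨h1, h2⟩ := hC _ hy
    by_contra hcon
    have h3 : S.γ h a - a ∈ Jd S.τ := by
      by_contra h3
      exact hcon ⟨a, h1, ha, h3⟩
    have h4 : S.γ h b - b ∈ Jd S.τ := by
      by_contra h4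
      exact hcon ⟨b, h2, hb, h4⟩
    apply hne
    have e2 : S.γ h y - y = (S.γ h a - a) + Complex.I • (S.γ h b - b) := by
      rw [e, map_add, map_smul, smul_sub]
      abel
    rw [e2]
    exact add_mem h3 (Submodule.smul_mem _ _ h4)
  obtain ⟨δ, hδ, H⟩ := yt3_approx S hz hsa hz'
  have tv : IsTerm S.γ (fun x : Unit → A => x ()) := IsTerm.var ()
  have hP : Defn S.τ S.γ (fun x : Unit → A => x () ∈ cent T ∧ (0 ≤ x () ∧ x () ≤ 1) ∧
      δ ≤ (S.τ (x () - x () * S.γ h (x ()))).re) :=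
    (Defn.mem_cent hT tv).and ((Defn.between tv).and (Defn.tr_ge (tv.sub (tv.mul (tv.act h))) δ))
  obtain ⟨x, -, ⟨h1, ⟨h2, h3⟩, h4⟩, -, h5⟩ := S.sat.approx (κ := Empty) (κ' := Unit) (fun _ => 1)
    hP (fun k => k.elim) (fun k => k.elim) (fun _ x => x () * x () - x ())
    (fun _ => (tv.mul tv).sub tv) (fun _ => 0) fun s s' ε hε => by
      obtain ⟨r, hr, h0, h1, h2, h3⟩ := H ε hε
      refine ⟨fun _ => r, fun _ => (CStarAlgebra.norm_le_one_iff_of_nonneg _ h0).2 h1,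
        ⟨hr, ⟨h0, h1⟩, h2⟩, fun k => k.elim, fun _ _ => ?_⟩
      simp only [map_sub, Complex.sub_re] at h3 ⊢
      linarith
  have h6 := h5 ()
  simp only [map_sub, Complex.sub_re] at h4 h6
  exact ⟨x (), h1, TP.of_tr h2 h3 (by linarith), by linarith⟩

end Pool.Agent.Izumi
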