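import Pool.Agent.Lib.MP_b2135d_an.YS5
import Pool.Agent.Lib.MP_b2135d_an.YA

/-! Isometries in purely infinite algebras (PLAN section YR6). -/

namespace Pool.Agent.Izumi

open scoped ComplexOrder
open Filter Topology Pool.Agent.Lib.MP_f90f6c_an.H50

variable {D : Type} [CStarAlgebra D] [PartialOrder D] [StarOrderedRing D]

theorem yr6_fix {a : D} (ha : 0 ≤ a) (ha1 : a ≤ 1) {δ : ℝ} (hδ : 0 ≤ δ) {g : ℝ → ℝ}
    (hg : Continuous g) (h0 : ∀ t, t ≤ 1 - δ → g t = 0) (w : D) :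
    ‖a * (cfc g a * w) - cfc g a * w‖ ≤ δ * ‖cfc g a * w‖ := by
  have hs : IsSelfAdjoint a := .of_nonneg ha
  have hf : Continuous fun t : ℝ => t * g t - g t := by fun_prop
  have e1 : a * (cfc g a * w) - cfc g a * w = cfc (fun t => t * g t - g t) a * w := by
    rw [cfc_sub _ _ a (by fun_prop) hg.continuousOn, ← id_mul_cfc hg hs, sub_mul, mul_assoc]
  have e2 : cfc (fun t => t * g t - g t) a * cfc (fun t => t * g t - g t) a ≤
      (δ * δ) • (cfc g a * cfc g a) := by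
    rw [cfc_mul_cfc hf hf, cfc_mul_cfc hg hg, ← cfc_smul (δ * δ) _ a (by fun_prop)]
    refine cfc_mono (fun t ht => ?_) (by fun_prop) (by fun_prop)
    have h1 : t ≤ 1 := (CFC.le_one_iff (R := ℝ) a hs).1 ha1 t ht
    rcases le_total t (1 - δ) with h | h
    · simp [h0 t h]
    · have h2 : (1 - t) * (1 - t) ≤ δ * δ :=
        mul_self_le_mul_self (by linarith) (by linarith)
      have h3 := mul_le_mul_of_nonneg_right h2 (mul_self_nonneg (g t))
      simp only [smul_eq_mul]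
      linarith
  have e3 := star_left_conjugate_le_conjugate e2 w
  have e4 : ‖cfc (fun t => t * g t - g t) a * w‖ ≤ ‖δ • (cfc g a * w)‖ := by
    refine norm_le_of_star_mul_le ?_
    rw [star_smul, star_mul, star_mul, star_cfc, star_cfc, star_trivial δ, smul_mul_smul_comm]
    simpa only [mul_assoc, mul_smul_comm, smul_mul_assoc] using e3
  rwa [e1, ← abs_of_nonneg hδ, ← Real.norm_eq_abs, ← norm_smul]

theorem yr6_api [Nontrivial D] (hpi : ∀ y : D, 0 ≤ y → y ≠ 0 → ∃ s : D, star s * y * s = 1)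
    {a : D} (ha : 0 ≤ a) (ha1 : a ≤ 1) {ε : ℝ} (hε : 0 < ε) (h : 1 - ε < ‖a‖) :
    ∃ t : D, star t * t = 1 ∧ ‖a * t - t‖ ≤ ε := by
  rcases le_total 1 ε with h1 | h1
  · refine ⟨1, by rw [star_one, one_mul], ?_⟩
    rw [mul_one, norm_sub_rev]
    exact ((CStarAlgebra.norm_le_one_iff_of_nonneg _ (sub_nonneg.2 ha1)).2
      (sub_le_self 1 ha)).trans h1
  have hr : cut (1 - ε) a ≠ 0 := fun h0 => by
    have := norm_sub_cut (sub_nonneg.2 h1) ha
    rw [h0, sub_zero] at this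
    linarith
  obtain ⟨s, hs⟩ := hpi _ (star_mul_self_nonneg (cut (1 - ε) a))
    fun h0 => hr (eq_zero_of_star_mul_self h0)
  have h2 : star (cut (1 - ε) a * s) * (cut (1 - ε) a * s) = 1 := by
    rw [← hs, star_mul]
    simp only [mul_assoc]
  have h3 : ‖cut (1 - ε) a * s‖ = 1 := by
    have := CStarRing.norm_star_mul_self (x := cut (1 - ε) a * s)
    rw [h2, norm_one] at this
    exact (mul_self_eq_one_iff.1 this.symm).resolve_right fun h4 => by
      linarith [norm_nonneg (cut (1 - ε) a * s)]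
  have h4 := yr6_fix ha ha1 hε.le (g := fun t => max (t - (1 - ε)) 0) (by fun_prop)
    (fun t ht => max_eq_right (sub_nonpos.2 ht)) s
  refine ⟨_, h2, h4.trans (le_of_eq ?_)⟩
  exact (congrArg (ε * ·) h3).trans (mul_one ε)

theorem PI.api (h : PI D) {a : D} (h0 : 0 ≤ a) (h1 : a ≤ 1) {ε : ℝ} (hε : 0 < ε) (hε1 : ε ≤ 1)
    (ha : 1 - ε < ‖a‖) : ∃ t : D, star t * t = 1 ∧ ‖a * t - t‖ ≤ ε := by
  have : Nontrivial D := nontrivial_of_ne a 0 fun h2 => by
    rw [h2, norm_zero] at ha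
    linarith
  exact yr6_api h h0 h1 hε ha

theorem SSA.exists_isoms (S : SSA D) (h : PI D) (n : ℕ) :
    ∃ t : Fin n → D, (∀ i, star (t i) * t i = 1) ∧ ∀ i j, i ≠ j → star (t i) * t j = 0 := by
  obtain ⟨a, b, ha, hb, ha0, hb0, hab⟩ := S.exists_orth
  have sa : star a = a := ha.isSelfAdjoint.star_eq
  have sb : star b = b := hb.isSelfAdjoint.star_eq
  obtain ⟨s₁, h₁⟩ := h _ (star_mul_self_nonneg a)
    fun h0 => ha0 (CStarRing.star_mul_self_eq_zero_iff a |>.1 h0)
  obtain ⟨s₂, h₂⟩ := h _ (star_mul_self_nonneg b)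
    fun h0 => hb0 (CStarRing.star_mul_self_eq_zero_iff b |>.1 h0)
  obtain ⟨u, hu⟩ : ∃ u, u = a * s₁ := ⟨_, rfl⟩
  obtain ⟨v, hv⟩ : ∃ v, v = b * s₂ := ⟨_, rfl⟩
  have uu : star u * u = 1 := by
    rw [hu, star_mul, ← h₁]; simp only [mul_assoc]
  have vv : star v * v = 1 := by
    rw [hv, star_mul, ← h₂]; simp only [mul_assoc]
  have uv : star u * v = 0 := by
    rw [hu, hv, star_mul, sa, mul_assoc, ← mul_assoc a, hab, zero_mul, mul_zero]
  have vp : ∀ k : ℕ, star (v ^ k) * v ^ k = 1 := by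
    intro k
    induction k with
    | zero => simp
    | succ k ih => rw [pow_succ, star_mul, mul_assoc, ← mul_assoc (star (v ^ k)), ih, one_mul, vv]
  have lt : ∀ i j : ℕ, i < j → star (v ^ i * u) * (v ^ j * u) = 0 := by
    intro i j hij
    obtain ⟨k, rfl⟩ := Nat.exists_eq_add_of_lt hij
    rw [add_assoc, pow_add, pow_succ', star_mul, mul_assoc, ← mul_assoc (star (v ^ i)),
      ← mul_assoc (star (v ^ i)), vp, one_mul, mul_assoc, ← mul_assoc, uv, zero_mul]
  refine ⟨fun i => v ^ (i : ℕ) * u, fun i => ?_, fun i j hij => ?_⟩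
  · rw [star_mul, mul_assoc, ← mul_assoc (star (v ^ (i : ℕ))), vp, one_mul, uu]
  · rcases lt_or_gt_of_ne (Fin.val_ne_of_ne hij) with h3 | h3
    · exact lt _ _ h3
    · have h4 := congrArg star (lt _ _ h3)
      rwa [star_mul, star_star, star_zero] at h4

end Pool.Agent.Izumi
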