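import Pool.Agent.Lib.MP_b2135d_an.YS5
import Pool.Agent.Lib.MP_b2135d_an.YR6
import Pool.Agent.Lib.MP_b2135d_an.YB
import Pool.Agent.Lib.MP_b2135d_an.UB

/-! Coordinatewise constructions (PLAN section YU3). -/

namespace Pool.Agent.Izumi

open scoped ComplexOrder
open Filter Topology

variable {D A : Type} [CStarAlgebra D] [PartialOrder D] [StarOrderedRing D] [CStarAlgebra A]
  [PartialOrder A] [StarOrderedRing A] {q : Bdd D →⋆ₐ[ℂ] A}

omit [PartialOrder D] [StarOrderedRing D] in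
theorem yu3_norm_le {z : D} {R : ℝ} (hR : 0 ≤ R) (h : ‖star z * z‖ ≤ R * R) : ‖z‖ ≤ R := by
  rw [CStarRing.norm_star_mul_self] at h
  exact (mul_self_le_mul_self_iff (norm_nonneg _) hR).2 h

theorem IsUlt.exists_lift_between (h : IsUlt q) {a : A} (h0 : 0 ≤ a) (h1 : a ≤ 1) :
    ∃ x : Bdd D, q x = a ∧ ∀ n, 0 ≤ x.1 n ∧ x.1 n ≤ 1 := by
  have hn : ‖a‖ ≤ 1 := (CStarAlgebra.norm_le_one_iff_of_nonneg a h0).2 h1
  obtain ⟨z, rfl⟩ := CStarAlgebra.nonneg_iff_eq_star_mul_self.1 h0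
  have hz : ‖z‖ ≤ 1 := yu3_norm_le zero_le_one (by rwa [mul_one])
  obtain ⟨y, rfl, hy⟩ := h.exists_lift z hz
  refine ⟨star y * y, by rw [map_mul, map_star], fun n => ?_⟩
  have e : (star y * y : Bdd D).1 n = star (y.1 n) * y.1 n := rfl
  rw [e]
  have hp : 0 ≤ star (y.1 n) * y.1 n := star_mul_self_nonneg _
  refine ⟨hp, (CStarAlgebra.norm_le_one_iff_of_nonneg _ hp).1 ?_⟩
  rw [CStarRing.norm_star_mul_self]
  exact mul_le_one₀ (hy n) (norm_nonneg _) (hy n)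

omit [PartialOrder D] [StarOrderedRing D] in
/-- A sequence of homomorphisms as one homomorphism into bounded sequences. -/
def yu3Seq (ka : ℕ → D →⋆ₐ[ℂ] D) : D →⋆ₐ[ℂ] Bdd D where
  toFun x := ⟨fun n => ka n x, ‖x‖, fun n => NonUnitalStarAlgHom.norm_apply_le (ka n) x⟩
  map_one' := Subtype.ext (funext fun n => map_one (ka n))
  map_mul' x y := Subtype.ext (funext fun n => map_mul (ka n) x y)
  map_zero' := Subtype.ext (funext fun n => map_zero (ka n))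
  map_add' x y := Subtype.ext (funext fun n => map_add (ka n) x y)
  commutes' c := Subtype.ext (funext fun n => AlgHomClass.commutes (ka n) c)
  map_star' x := Subtype.ext (funext fun n => map_star (ka n) x)

omit [PartialOrder D] [StarOrderedRing D] [PartialOrder A] [StarOrderedRing A] in
theorem yu3_commute (h : IsUlt q) (x y : Bdd D)
    (hb : Tendsto (fun n => ‖x.1 n * y.1 n - y.1 n * x.1 n‖) atTop (𝓝 0)) :
    Commute (q x) (q y) := by
  have h1 : q (x * y) = q (y * x) := (h.eq_iff _ _).2 (hb.mono_left Nat.hyperfilter_le_atTop)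
  rw [map_mul, map_mul] at h1
  exact h1

theorem IsUlt.emb (h : IsUlt q) (S : SSA D) {T : Set A} (hT : T.Countable) :
    ∃ p : D →⋆ₐ[ℂ] A, ∀ x, p x ∈ cent T := by
  classical
  obtain ⟨t, ht⟩ := (hT.insert 0).exists_eq_range (Set.insert_nonempty 0 T)
  choose L hL using fun k => h.surj (t k)
  choose ka hka using fun n : ℕ => S.exists_central
    ((Finset.range (n + 1)).image (fun k => (L k).1 n) ∪
      (Finset.range (n + 1)).image (fun k => star ((L k).1 n)))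
    (ε := 1 / ((n : ℝ) + 1)) Nat.one_div_pos_of_nat
  refine ⟨q.comp (yu3Seq ka), fun x => mem_cent.2 fun a ha => ?_⟩
  have ha' : a ∈ Set.range t := ht ▸ Set.mem_insert_of_mem 0 ha
  obtain ⟨k, rfl⟩ := ha'
  have lim : Tendsto (fun n : ℕ => 1 / ((n : ℝ) + 1) * ‖x‖) atTop (𝓝 0) := by
    have := (tendsto_one_div_add_atTop_nhds_zero_nat (𝕜 := ℝ)).mul_const ‖x‖
    rwa [zero_mul] at this
  rw [← hL k, ← map_star]
  constructor
  · refine yu3_commute h (yu3Seq ka x) (L k) ?_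
    refine squeeze_zero' (Eventually.of_forall fun _ => norm_nonneg _) ?_ lim
    filter_upwards [eventually_ge_atTop k] with m hm
    exact hka m _ (Finset.mem_union_left _ (Finset.mem_image_of_mem (fun k => (L k).1 m)
      (Finset.mem_range.2 (Nat.lt_succ_of_le hm)))) x
  · refine yu3_commute h (yu3Seq ka x) (star (L k)) ?_
    refine squeeze_zero' (Eventually.of_forall fun _ => norm_nonneg _) ?_ lim
    filter_upwards [eventually_ge_atTop k] with m hm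
    exact hka m _ (Finset.mem_union_right _ (Finset.mem_image_of_mem (fun k => star ((L k).1 m))
      (Finset.mem_range.2 (Nat.lt_succ_of_le hm)))) x

theorem IsUlt.exists_moved (h : IsUlt q) [TopologicalSpace.SeparableSpace D] {N : D → ℝ}
    {θ : D ≃⋆ₐ[ℂ] D} (hθ : CN N θ) : ∃ (δ : ℝ) (y : Bdd D), 0 < δ ∧
      (∀ b, Commute (q y) (q (Bdd.const D b))) ∧ ∀ n, δ ≤ N (θ (y.1 n) - y.1 n) := by
  classical
  obtain ⟨d, hd⟩ := TopologicalSpace.exists_dense_seq D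
  obtain ⟨δ, hδ, hθ⟩ := hθ
  choose y hy hc hm using fun n : ℕ =>
    hθ ((Finset.range (n + 1)).image d) (1 / ((n : ℝ) + 1)) Nat.one_div_pos_of_nat
  let x : Bdd D := ⟨y, 1, hy⟩
  refine ⟨δ, x, hδ, fun b => ?_, hm⟩
  have hcont : Continuous fun b : D => q (Bdd.const D b) := hom_continuous (q.comp (Bdd.const D))
  have hcl : IsClosed {b : D | q x * q (Bdd.const D b) = q (Bdd.const D b) * q x} :=
    isClosed_eq (continuous_const.mul hcont) (hcont.mul continuous_const)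
  have h1 : closure (Set.range d) ⊆
      {b : D | q x * q (Bdd.const D b) = q (Bdd.const D b) * q x} := by
    refine closure_minimal ?_ hcl
    rintro _ ⟨k, rfl⟩
    refine yu3_commute h x (Bdd.const D (d k)) ?_
    refine squeeze_zero' (Eventually.of_forall fun _ => norm_nonneg _) ?_
      tendsto_one_div_add_atTop_nhds_zero_nat
    filter_upwards [eventually_ge_atTop k] with m hm
    exact hc m _ (Finset.mem_image_of_mem d (Finset.mem_range.2 (Nat.lt_succ_of_le hm)))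
  exact h1 (hd b)

omit [PartialOrder D] [StarOrderedRing D] [PartialOrder A] [StarOrderedRing A] in
theorem yu3_pass (h : IsUlt q) (X Y s : Bdd D) {ε : ℝ}
    (hs : ∀ᶠ n in (hyperfilter ℕ : Filter ℕ),
      ‖star (s.1 n) * s.1 n - X.1 n‖ ≤ ε ∧ ‖Y.1 n * s.1 n - s.1 n‖ ≤ ε) :
    ‖star (q s) * q s - q X‖ ≤ ε ∧ ‖q Y * q s - q s‖ ≤ ε := by
  constructor
  · rw [← map_star, ← map_mul, ← map_sub]
    exact h.norm_le _ (hs.mono fun n hn => hn.1)
  · rw [← map_mul, ← map_sub]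
    exact h.norm_le _ (hs.mono fun n hn => hn.2)

theorem IsUlt.si_approx (h : IsUlt q) {τB : D →ₚ[ℂ] ℂ} (hasi : ASI τB) {τ : A →ₚ[ℂ] ℂ}
    (htr : ∀ x : Bdd D, Tendsto (fun n => τB (x.1 n)) (hyperfilter ℕ) (𝓝 (τ (q x)))) {x a : A}
    (x0 : 0 ≤ x) (x1 : x ≤ 1) (a0 : 0 ≤ a) (a1 : a ≤ 1) (hx : τ x = 0) {c : ℝ} (hc : 0 < c)
    (ha : ∀ m : ℕ, c ≤ (τ (a ^ m)).re) {ε : ℝ} (hε : 0 < ε) :
    ∃ s : A, ‖star s * s - x‖ ≤ ε ∧ ‖a * s - s‖ ≤ ε := by
  obtain ⟨η, m, hη, H⟩ := hasi (c / 2) (min ε 1) (half_pos hc) (lt_min hε one_pos)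
  obtain ⟨X, rfl, hX⟩ := h.exists_lift_between x0 x1
  obtain ⟨Y, rfl, hY⟩ := h.exists_lift_between a0 a1
  have key : ∀ n, ∃ s : D, ‖s‖ ≤ 2 ∧ ((τB (X.1 n)).re ≤ η → c / 2 ≤ (τB (Y.1 n ^ m)).re →
      ‖star s * s - X.1 n‖ ≤ ε ∧ ‖Y.1 n * s - s‖ ≤ ε) := by
    intro n
    by_cases hn : (τB (X.1 n)).re ≤ η ∧ c / 2 ≤ (τB (Y.1 n ^ m)).re
    · obtain ⟨s, s1, s2⟩ := H _ _ (hX n).1 (hX n).2 (hY n).1 (hY n).2 hn.1 hn.2
      refine ⟨s, yu3_norm_le zero_le_two ?_,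
        fun _ _ => ⟨s1.trans (min_le_left _ _), s2.trans (min_le_left _ _)⟩⟩
      have e1 : ‖X.1 n‖ ≤ 1 := (CStarAlgebra.norm_le_one_iff_of_nonneg _ (hX n).1).2 (hX n).2
      have e2 := norm_le_norm_sub_add (star s * s) (X.1 n)
      have e3 := s1.trans (min_le_right _ _)
      linarith
    · exact ⟨0, by rw [norm_zero]; exact zero_le_two, fun h1 h2 => absurd ⟨h1, h2⟩ hn⟩
  choose s hs1 hs2 using key
  have l1 : Tendsto (fun n => (τB (X.1 n)).re) (hyperfilter ℕ) (𝓝 (τ (q X)).re) :=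
    (Complex.continuous_re.tendsto _).comp (htr X)
  have l2 : Tendsto (fun n => (τB (Y.1 n ^ m)).re) (hyperfilter ℕ) (𝓝 (τ (q (Y ^ m))).re) :=
    (Complex.continuous_re.tendsto _).comp (htr (Y ^ m))
  rw [hx, Complex.zero_re] at l1
  rw [map_pow] at l2
  refine ⟨q ⟨s, 2, hs1⟩, yu3_pass h X Y ⟨s, 2, hs1⟩ ?_⟩
  filter_upwards [l1.eventually_lt_const hη,
    l2.eventually_const_lt ((half_lt_self hc).trans_le (ha m))] with n h1 h2
  exact hs2 n h1.le h2.le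

theorem IsUlt.pi_approx (h : IsUlt q) (hpi : PI D) {a : A} (a0 : 0 ≤ a) (a1 : ‖a‖ = 1) {ε : ℝ}
    (hε : 0 < ε) : ∃ s : A, ‖star s * s - 1‖ ≤ ε ∧ ‖a * s - s‖ ≤ ε := by
  obtain ⟨Y, rfl, hY⟩ := h.exists_lift_between a0
    ((CStarAlgebra.norm_le_one_iff_of_nonneg a a0).1 a1.le)
  have he : 0 < min ε 1 := lt_min hε one_pos
  have key : ∀ n, ∃ s : D, ‖s‖ ≤ 1 ∧ (1 - min ε 1 < ‖Y.1 n‖ →
      ‖star s * s - 1‖ ≤ ε ∧ ‖Y.1 n * s - s‖ ≤ ε) := by
    intro n
    by_cases hn : 1 - min ε 1 < ‖Y.1 n‖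
    · obtain ⟨s, s1, s2⟩ := hpi.api (hY n).1 (hY n).2 he (min_le_right _ _) hn
      refine ⟨s, yu3_norm_le zero_le_one ?_, fun _ => ⟨?_, s2.trans (min_le_left _ _)⟩⟩
      · rw [mul_one]
        exact (CStarAlgebra.norm_le_one_iff_of_nonneg _ (star_mul_self_nonneg s)).2 s1.le
      · rw [s1, sub_self, norm_zero]
        exact hε.le
    · exact ⟨0, by rw [norm_zero]; exact zero_le_one, fun h1 => absurd h1 hn⟩
  choose s hs1 hs2 using key
  have l1 := h.norm Y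
  rw [a1] at l1
  have := yu3_pass h 1 Y ⟨s, 1, hs1⟩ (ε := ε) (by
    filter_upwards [l1.eventually_const_lt (sub_lt_self 1 he)] with n h1
    exact hs2 n h1)
  rw [map_one] at this
  exact ⟨_, this⟩

end Pool.Agent.Izumi
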