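import Pool.Agent.Lib.MP_b2135d_an.YU2
import Pool.Agent.Lib.MP_b2135d_an.YU3
import Pool.Agent.Lib.MP_b2135d_an.YT3
import Pool.Agent.Lib.MP_b2135d_an.UA

/-! The systems attached to an action (PLAN section YU4). -/

namespace Pool.Agent.Izumi

open scoped ComplexOrder
open Filter Topology

variable {G D : Type} [Group G] [Countable G] [CStarAlgebra D] [PartialOrder D]
  [StarOrderedRing D]

theorem yu4_n2 {A : Type} [CStarAlgebra A] [PartialOrder A] {q : Bdd D →⋆ₐ[ℂ] A}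
    {τB : D →ₚ[ℂ] ℂ} {τ : A →ₚ[ℂ] ℂ}
    (h : ∀ x : Bdd D, Tendsto (fun n => τB (x.1 n)) (hyperfilter ℕ) (𝓝 (τ (q x)))) (z : Bdd D) :
    Tendsto (fun n => n2 τB (z.1 n)) (hyperfilter ℕ) (𝓝 (n2 τ (q z))) := by
  have h1 := h (star z * z)
  rw [map_mul, map_star] at h1
  exact ((Complex.continuous_re.tendsto _).comp h1).sqrt

theorem IsUP2.exists_BSys {A : Type} [CStarAlgebra A] [PartialOrder A] [StarOrderedRing A]
    {q : Bdd D →⋆ₐ[ℂ] A} {β : G →* (D ≃⋆ₐ[ℂ] D)} {τB : D →ₚ[ℂ] ℂ} {γ : G →* (A ≃⋆ₐ[ℂ] A)}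
    {τ : A →ₚ[ℂ] ℂ} (h : IsUP2 β τB q γ τ) (S : SSA D) (hinv : ∀ g x, τ (γ g x) = τ x)
    (h1 : ∀ x, τ 1 * τ x = τ x)
    (hmul : ∀ y, (∀ b, Commute y (q (Bdd.const D b))) →
      ∀ b, τ (q (Bdd.const D b) * y) = τB b * τ y) :
    ∃ X : BSys G D A, X.S = S ∧ X.τ = τ ∧ X.γ = γ ∧
      ∀ y, y ∈ X.F ↔ ∀ b, Commute y (q (Bdd.const D b)) := by
  haveI := S.sep
  obtain ⟨T0, hc, hi, hF⟩ := exists_test_inv γ (q.comp (Bdd.const D))
    fun g x => ⟨β g x, h.act g (Bdd.const D x)⟩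
  have hF' : ∀ y, y ∈ cent T0 ↔ ∀ b, Commute y (q (Bdd.const D b)) := fun y => by
    rw [hF]
    exact mem_cent_range
  exact ⟨{ S := S
           τ := τ
           γ := γ
           inv := hinv
           sat := h.saturated
           emb := fun T hT => h.ult.emb S hT
           T0 := T0
           T0_count := hc
           T0_inv := hi
           ic := fun S₀ T hS hT hSF => h.ic h1 hmul hc hi hF' S₀ T hS hT hSF
           ν₀ := q.comp (Bdd.const D)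
           hF := hF }, rfl, rfl, rfl, hF'⟩

theorem SSA.exists_TSys (S : SSA D) (β : G →* (D ≃⋆ₐ[ℂ] D)) {τB : D →ₚ[ℂ] ℂ}
    (hτ : IsTracialState τB) (hasi : ASI τB) (hcn : ∀ g, g ≠ 1 → CN (n2 τB) (β g)) :
    ∃ (A : Type) (_ : CStarAlgebra A) (_ : PartialOrder A) (_ : StarOrderedRing A)
      (X : TSys G D A) (q : Bdd D →⋆ₐ[ℂ] A), X.S = S ∧ IsUlt q ∧
        ∀ g (x : Bdd D), X.γ g (q x) = q (Bdd.map (β g : D →⋆ₐ[ℂ] D) x) := by
  haveI := S.sep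
  obtain ⟨A, instA, q, hq⟩ := exists_ult D
  let instP : PartialOrder A := CStarAlgebra.spectralOrder A
  have instS : StarOrderedRing A := CStarAlgebra.spectralOrderedRing A
  obtain ⟨γ, τ, hup, htr, hinv⟩ := hq.exists_up β τB hτ
    fun g x => (S.trUniq hτ).tr_hom hτ (β g : D →⋆ₐ[ℂ] D) x
  have hup2 : IsUP2 β τB q γ τ := ⟨hup.ult, hup.act, hup.tr⟩
  obtain ⟨X, rfl, rfl, rfl, hF⟩ := hup2.exists_BSys S hinv (fun x => by rw [htr.1, one_mul])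
    fun y hy b => (S.trUniq hτ).tr_mul τ htr.2 (q.comp (Bdd.const D)) hy b
  have hsi : ∀ x a : A, 0 ≤ x → x ≤ 1 → 0 ≤ a → a ≤ 1 → x ∈ Jd X.τ →
      (∃ c : ℝ, 0 < c ∧ ∀ m : ℕ, c ≤ (X.τ (a ^ m)).re) →
        ∃ s : A, star s * s = x ∧ a * s = s := by
    rintro x a x0 x1 a0 a1 hx ⟨c, hc, ha⟩
    exact X.sat.sat_cmp x a fun ε hε =>
      hq.si_approx hasi hup.tr x0 x1 a0 a1 (tr_of_Jd htr hx) hc ha hε
  have hfree : ∀ g : G, g ≠ 1 →
      ∃ p ∈ cent X.T0, TP X.τ p ∧ (X.τ (p * X.γ g p)).re < (X.τ p).re := by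
    intro g hg
    obtain ⟨δ, y, hδ, hy, hm⟩ := hq.exists_moved (hcn g hg)
    refine Sat.tp_free ⟨X.τ, htr, X.γ, hinv, X.sat⟩ X.T0_count ((hF _).2 hy) fun hJ => ?_
    have h0 : n2 X.τ (q (Bdd.map (β g : D →⋆ₐ[ℂ] D) y - y)) = 0 := by
      rw [map_sub, ← hup.act]
      exact hJ
    have h1 := yu4_n2 hup.tr (Bdd.map (β g : D →⋆ₐ[ℂ] D) y - y)
    rw [h0] at h1
    exact (ge_of_tendsto' h1 hm).not_gt hδ
  exact ⟨A, instA, instP, instS, { X with tr := htr, si := hsi, free := hfree }, q, rfl, hq,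
    hup.act⟩

theorem SSA.exists_PSys (S : SSA D) (β : G →* (D ≃⋆ₐ[ℂ] D)) (hpi : PI D)
    (hcn : ∀ g, g ≠ 1 → CN (fun x => ‖x‖) (β g)) :
    ∃ (A : Type) (_ : CStarAlgebra A) (_ : PartialOrder A) (_ : StarOrderedRing A)
      (X : PSys G D A) (q : Bdd D →⋆ₐ[ℂ] A), X.S = S ∧ IsUlt q ∧
        ∀ g (x : Bdd D), X.γ g (q x) = q (Bdd.map (β g : D →⋆ₐ[ℂ] D) x) := by
  haveI := S.sep
  haveI := S.nontriv
  obtain ⟨A, instA, q, hq⟩ := exists_ult D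
  let instP : PartialOrder A := CStarAlgebra.spectralOrder A
  have instS : StarOrderedRing A := CStarAlgebra.spectralOrderedRing A
  obtain ⟨γ, hγ⟩ := hq.ub_exists_act β
  have hup2 : IsUP2 β 0 q γ 0 := ⟨hq, hγ, fun _ => tendsto_const_nhds⟩
  obtain ⟨X, rfl, -, rfl, hF⟩ := hup2.exists_BSys S (fun _ _ => rfl) (fun _ => mul_zero _)
    fun _ _ _ => (mul_zero _).symm
  have hnt : Nontrivial A := by
    refine ⟨⟨1, 0, fun h => ?_⟩⟩
    have h1 := hq.norm_const 1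
    rw [map_one, map_one, h, norm_zero, norm_one] at h1
    exact zero_ne_one h1
  have hp : ∀ a : A, 0 ≤ a → ‖a‖ = 1 → ∃ s : A, star s * s = 1 ∧ a * s = s :=
    fun a a0 a1 => X.sat.sat_cmp 1 a fun ε hε => hq.pi_approx hpi a0 a1 hε
  have hfree : ∀ g : G, g ≠ 1 → ∃ y ∈ cent X.T0, X.γ g y ≠ y := by
    intro g hg
    obtain ⟨δ, y, hδ, hy, hm⟩ := hq.exists_moved (hcn g hg)
    refine ⟨q y, (hF _).2 hy, fun h => ?_⟩
    rw [hγ] at h
    exact (ge_of_tendsto' ((hq.eq_iff _ _).1 h) hm).not_gt hδ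
  exact ⟨A, instA, instP, instS,
    { X with nontriv := hnt, pi := hp, free := hfree, piD := hpi }, q, rfl, hq, hγ⟩

end Pool.Agent.Izumi
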