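import Pool.Agent.Lib.MP_b2135d_an.YC
import Pool.Agent.Lib.MP_b2135d_an.YT6
import Pool.Agent.Lib.MP_b2135d_an.YT11
import Pool.Agent.Lib.MP_b2135d_an.YQ2
import Pool.Agent.Lib.MP_b2135d_an.YQ4
import Pool.Agent.Lib.MP_b2135d_an.YQ6
import Pool.Agent.Lib.MP_b2135d_an.YP2
import Pool.Agent.Lib.MP_b2135d_an.YP3
import Pool.Agent.Lib.MP_b2135d_an.YU4

/-! The ultrapower of a centrally nontrivial action is good. -/

namespace Pool.Agent.Izumi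

open scoped ComplexOrder
open Filter Topology

variable {G D : Type} [Group G] [Countable G] [CStarAlgebra D] [PartialOrder D]
  [StarOrderedRing D]

theorem SSA.good_of_tr [Infinite G] (S : SSA D) (htf : ∀ g : G, IsOfFinOrder g → g = 1)
    (hf : Foel G) (β : G →* (D ≃⋆ₐ[ℂ] D)) {τB : D →ₚ[ℂ] ℂ} (hτ : IsTracialState τB)
    (hasi : ASI τB) (hcn : ∀ g, g ≠ 1 → CN (n2 τB) (β g)) : GoodUP β := by
  obtain ⟨A, _, _, _, X, q, -, hq, hact⟩ := S.exists_TSys β hτ hasi hcn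
  obtain ⟨Y, hY, hY'⟩ := X.flip_path ((q.comp (Bdd.const D)).comp X.S.al)
    ((q.comp (Bdd.const D)).comp X.S.be)
  obtain ⟨L, hL⟩ := path_of_ult X.S.toDData hq hY hY'
  exact ⟨A, inferInstance, q, X.γ, hq, hact, X.exi (X.tow hf) (X.toAmb.coreEmb htf hf hL),
    X.uni (X.tow hf) (X.toAmb.coreUni htf hf hL)⟩

theorem SSA.good_of_pi (S : SSA D) (htf : ∀ g : G, IsOfFinOrder g → g = 1) (hf : Foel G)
    (β : G →* (D ≃⋆ₐ[ℂ] D)) (hpi : PI D) (hcn : ∀ g, g ≠ 1 → CN (fun x => ‖x‖) (β g)) :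
    GoodUP β := by
  obtain ⟨A, _, _, _, X, q, -, hq, hact⟩ := S.exists_PSys β hpi hcn
  obtain ⟨Y, hY, hY'⟩ := X.flip_path ((q.comp (Bdd.const D)).comp X.S.al)
    ((q.comp (Bdd.const D)).comp X.S.be)
  obtain ⟨L, hL⟩ := path_of_ult X.S.toDData hq hY hY'
  exact ⟨A, inferInstance, q, X.γ, hq, hact, X.exi X.wan (X.toAmb.coreEmb htf hf hL),
    X.uni X.wan hf (X.toAmb.coreUni htf hf hL)⟩

end Pool.Agent.Izumi
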