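import Pool.Agent.Lib.MP_b2135d_an.YE

/-! Lipschitz paths of unitaries (PLAN section YP1). -/

namespace Pool.Agent.Izumi

open scoped ComplexOrder
open Filter Topology

variable {A : Type} [CStarAlgebra A] {L L' : ℝ} {x y : A}

theorem yp1_norm {u : A} (hu : u ∈ unitary A) : ‖u‖ ≤ 1 := by
  rcases subsingleton_or_nontrivial A with hB | hB
  · rw [Subsingleton.elim u 0, norm_zero]; exact zero_le_one
  · exact (CStarRing.norm_of_mem_unitary hu).le

theorem yp1_le_left {u : A} (hu : u ∈ unitary A) (a : A) : ‖u * a‖ ≤ ‖a‖ :=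
  (norm_mul_le _ _).trans (mul_le_of_le_one_left (norm_nonneg _) (yp1_norm hu))

theorem yp1_le_right {u : A} (hu : u ∈ unitary A) (a : A) : ‖a * u‖ ≤ ‖a‖ :=
  (norm_mul_le _ _).trans (mul_le_of_le_one_right (norm_nonneg _) (yp1_norm hu))

theorem yp1_norm_of_star_mul {v e : A} (hv : star v * v = e) (he : ‖e‖ ≤ 1) : ‖v‖ ≤ 1 := by
  rw [← hv, CStarRing.norm_star_mul_self] at he
  nlinarith [norm_nonneg v]

theorem PathTo.mem_unitary (h : PathTo L x) : x ∈ unitary A := by
  obtain ⟨w, hw, rfl⟩ := h
  exact hw.unit 1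

theorem pathTo_one (hL : 0 ≤ L) : PathTo L (1 : A) :=
  ⟨fun _ => 1, ⟨rfl, fun _ => one_mem _, fun t t' => by
    rw [sub_self, norm_zero]
    exact mul_nonneg hL (abs_nonneg _)⟩, rfl⟩

theorem PathTo.mono (h : PathTo L x) (hL : L ≤ L') : PathTo L' x := by
  obtain ⟨w, hw, e⟩ := h
  exact ⟨w, ⟨hw.zero, hw.unit, fun t t' =>
    (hw.lip t t').trans (mul_le_mul_of_nonneg_right hL (abs_nonneg _))⟩, e⟩

theorem PathTo.mul (h : PathTo L x) (h' : PathTo L' y) : PathTo (L + L') (x * y) := by
  obtain ⟨w, hw, rfl⟩ := h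
  obtain ⟨w', hw', rfl⟩ := h'
  refine ⟨fun t => w t * w' t, ⟨by simp only [hw.zero, hw'.zero, mul_one],
    fun t => mul_mem (hw.unit t) (hw'.unit t), fun t s => ?_⟩, rfl⟩
  have e : w t * w' t - w s * w' s = (w t - w s) * w' t + w s * (w' t - w' s) := by noncomm_ring
  rw [e, add_mul]
  exact (norm_add_le _ _).trans (add_le_add ((yp1_le_right (hw'.unit t) _).trans (hw.lip t s))
    ((yp1_le_left (hw.unit s) _).trans (hw'.lip t s)))

theorem PathTo.star_path (h : PathTo L x) : PathTo L (star x) := by
  obtain ⟨w, hw, rfl⟩ := h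
  refine ⟨fun t => star (w t), ⟨by simp only [hw.zero, star_one],
    fun t => Unitary.star_mem (hw.unit t), fun t s => ?_⟩, rfl⟩
  rw [← star_sub, norm_star]
  exact hw.lip t s

theorem PathTo.conj (h : PathTo L x) {u : A} (hu : u ∈ unitary A) :
    PathTo L (u * x * star u) := by
  obtain ⟨w, hw, rfl⟩ := h
  refine ⟨fun t => u * w t * star u, ⟨by simp only [hw.zero, mul_one, hu.2],
    fun t => mul_mem (mul_mem hu (hw.unit t)) (Unitary.star_mem hu), fun t s => ?_⟩, rfl⟩
  rw [← sub_mul, ← mul_sub]
  exact (yp1_le_right (Unitary.star_mem hu) _).trans ((yp1_le_left hu _).trans (hw.lip t s))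

theorem yp1_W {m t : A} (hu : 1 + m ∈ unitary A)
    (h1 : star m * (star t * t) * m = star m * m) (h2 : m * (star t * t) * star m = m * star m) :
    1 + t * m * star t ∈ unitary A := by
  have e1 : m + star m + star m * m = 0 := by
    have := hu.1
    rw [star_add, star_one] at this
    rw [← sub_eq_zero.2 this]
    noncomm_ring
  have e2 : m + star m + m * star m = 0 := by
    have := hu.2
    rw [star_add, star_one] at this
    rw [← sub_eq_zero.2 this]
    noncomm_ring
  constructor
  · rw [star_add, star_one, star_mul, star_mul, star_star]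
    calc (1 + t * (star m * star t)) * (1 + t * m * star t)
        = 1 + t * (m + star m + star m * (star t * t) * m) * star t := by noncomm_ring
      _ = 1 := by rw [h1, e1, mul_zero, zero_mul, add_zero]
  · rw [star_add, star_one, star_mul, star_mul, star_star]
    calc (1 + t * m * star t) * (1 + t * (star m * star t))
        = 1 + t * (m + star m + m * (star t * t) * star m) * star t := by noncomm_ring
      _ = 1 := by rw [h2, e2, mul_zero, zero_mul, add_zero]

theorem yp1_mid {a b v e : A} {c s : ℝ} (hcs : c ^ 2 + s ^ 2 = 1) (hv : star v * v = e)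
    (h1 : a * v = 0) (h2 : star v * b = 0) (h3 : a * e = a) :
    a * (star (c • (1 : A) + s • v) * (c • (1 : A) + s • v)) * b = a * b := by
  have e1 : a * (star v * v) = a := by rw [hv, h3]
  have e2 : a * star v * b = 0 := by rw [mul_assoc, h2, mul_zero]
  rw [star_add, star_smul, star_smul, star_one, star_trivial, star_trivial]
  simp only [add_mul, mul_add, smul_mul_assoc, mul_smul_comm, one_mul, mul_one, e1, e2, h1,
    smul_zero, add_zero, zero_add, smul_smul, smul_add]
  rw [← add_smul, ← sq, ← sq, hcs, one_smul]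

theorem pathTo_rot {m e v : A} (hu : 1 + m ∈ unitary A) (hem : e * m = m) (hme : m * e = m)
    (hv : star v * v = e) (hev : e * v = 0) (he : ‖e‖ ≤ 1) :
    PathTo 30 ((1 + v * m * star v) * star (1 + m)) := by
  have hes : star e = e := by rw [← hv, star_mul, star_star]
  have hem' : star m * e = star m := by rw [← hes, ← star_mul, hem]
  have hme' : e * star m = star m := by rw [← hes, ← star_mul, hme]
  have hve : star v * e = 0 := by rw [← hes, ← star_mul, hev, star_zero]
  have a1 : m * v = 0 := by rw [← hme, mul_assoc, hev, mul_zero]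
  have a2 : star m * v = 0 := by rw [← hem', mul_assoc, hev, mul_zero]
  have a3 : star v * m = 0 := by rw [← hem, ← mul_assoc, hve, zero_mul]
  have a4 : star v * star m = 0 := by rw [← hme', ← mul_assoc, hve, zero_mul]
  have n1 : ‖(1 : A)‖ ≤ 1 := yp1_norm (one_mem _)
  have nv := yp1_norm_of_star_mul hv he
  have nm : ‖m‖ ≤ 2 := by
    have := norm_sub_le (1 + m) 1
    rw [add_sub_cancel_left] at this
    linarith [yp1_norm hu]
  obtain ⟨t, ht⟩ : ∃ t : ℝ → A, ∀ r, t r = Real.cos r • (1 : A) + Real.sin r • v :=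
    ⟨_, fun _ => rfl⟩
  have key : ∀ c s d : ℝ, |c| ≤ d → |s| ≤ d → ‖c • (1 : A) + s • v‖ ≤ 2 * d := by
    intro c s d hc hs
    refine (norm_add_le _ _).trans ?_
    rw [norm_smul, norm_smul, Real.norm_eq_abs, Real.norm_eq_abs]
    nlinarith [abs_nonneg c, abs_nonneg s, norm_nonneg (1 : A), norm_nonneg v]
  have nt : ∀ r, ‖t r‖ ≤ 2 := fun r => by
    rw [ht]
    simpa using key _ _ 1 (Real.abs_cos_le_one r) (Real.abs_sin_le_one r)
  have lt : ∀ r r', ‖t r - t r'‖ ≤ 2 * |r - r'| := fun r r' => by
    rw [ht, ht, add_sub_add_comm, ← sub_smul, ← sub_smul]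
    exact key _ _ _ (Real.abs_cos_sub_cos_le r r') (Real.abs_sin_sub_sin_le r r')
  have hW : ∀ r, 1 + t r * m * star (t r) ∈ unitary A := fun r => by
    rw [ht]
    exact yp1_W hu (yp1_mid (Real.cos_sq_add_sin_sq r) hv a2 a3 hem')
      (yp1_mid (Real.cos_sq_add_sin_sq r) hv a1 a4 hme)
  have lW : ∀ r r', ‖(1 + t r * m * star (t r)) - (1 + t r' * m * star (t r'))‖ ≤
      16 * |r - r'| := fun r r' => by
    have e : (1 + t r * m * star (t r)) - (1 + t r' * m * star (t r')) =
        (t r - t r') * m * star (t r) + t r' * m * star (t r - t r') := by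
      rw [star_sub]
      noncomm_ring
    have b1 : ‖(t r - t r') * m * star (t r)‖ ≤ 2 * |r - r'| * 2 * 2 :=
      norm_mul_le_of_le (norm_mul_le_of_le (lt r r') nm) ((norm_star _).trans_le (nt r))
    have b2 : ‖t r' * m * star (t r - t r')‖ ≤ 2 * 2 * (2 * |r - r'|) :=
      norm_mul_le_of_le (norm_mul_le_of_le (nt r') nm) ((norm_star _).trans_le (lt r r'))
    rw [e]
    linarith [norm_add_le ((t r - t r') * m * star (t r)) (t r' * m * star (t r - t r'))]
  refine ⟨fun s => (1 + t (Real.pi / 2 * s) * m * star (t (Real.pi / 2 * s))) * star (1 + m),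
    ⟨?_, fun s => mul_mem (hW _) (Unitary.star_mem hu), fun s s' => ?_⟩, ?_⟩
  · simp only [ht, mul_zero, Real.cos_zero, Real.sin_zero, one_smul, zero_smul, add_zero,
      star_one, one_mul, mul_one]
    exact hu.2
  · rw [← sub_mul]
    refine (yp1_le_right (Unitary.star_mem hu) _).trans ((lW _ _).trans ?_)
    rw [← mul_sub, abs_mul, abs_of_nonneg (by positivity : 0 ≤ Real.pi / 2)]
    nlinarith [Real.pi_lt_d2, abs_nonneg (s - s')]
  · simp only [ht, mul_one, Real.cos_pi_div_two, Real.sin_pi_div_two, one_smul, zero_smul,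
      zero_add]

theorem pathTo_comm {x z e v : A} (hx : x ∈ unitary A) (hz : z ∈ unitary A)
    (h₁ : e * (x - 1) = x - 1) (h₂ : (x - 1) * e = x - 1) (h₃ : e * (z - 1) = z - 1)
    (h₄ : (z - 1) * e = z - 1) (hv : star v * v = e) (hev : e * v = 0) (he : ‖e‖ ≤ 1) :
    PathTo 60 (x * z * star x * star z) := by
  have hes : star e = e := by rw [← hv, star_mul, star_star]
  have hve : star v * e = 0 := by rw [← hes, ← star_mul, hev, star_zero]
  have a1 : x * v = v := by
    have : (x - 1) * v = 0 := by rw [← h₂, mul_assoc, hev, mul_zero]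
    rwa [sub_mul, one_mul, sub_eq_zero] at this
  have a2 : star v * x = star v := by
    have : star v * (x - 1) = 0 := by rw [← h₁, ← mul_assoc, hve, zero_mul]
    rwa [mul_sub, mul_one, sub_eq_zero] at this
  have r := pathTo_rot (m := z - 1) (by rwa [add_sub_cancel]) h₃ h₄ hv hev he
  rw [add_sub_cancel] at r
  have hc : x * (1 + v * (z - 1) * star v) = (1 + v * (z - 1) * star v) * x := by
    rw [mul_add, add_mul, ← mul_assoc, ← mul_assoc, a1, mul_assoc _ _ x, a2, mul_one, one_mul]
  generalize 1 + v * (z - 1) * star v = z' at r hc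
  have hz' : z' ∈ unitary A := by
    have := mul_mem r.mem_unitary hz
    rwa [mul_assoc, hz.1, mul_one] at this
  have hc' : star z' * star x = star x * star z' := by rw [← star_mul, hc, star_mul]
  have r' := (r.star_path.conj hx).mul r
  have e : x * star (z' * star z) * star x * (z' * star z) = x * z * star x * star z := by
    calc x * star (z' * star z) * star x * (z' * star z)
        = x * z * (star z' * star x) * z' * star z := by
          rw [star_mul, star_star]
          noncomm_ring
      _ = x * z * star x * (star z' * z') * star z := by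
          rw [hc']
          noncomm_ring
      _ = x * z * star x * star z := by rw [hz'.1, mul_one]
  rw [e] at r'
  exact r'.mono (by norm_num)

theorem yp1_cut_mul {a b q : A} (hq : q * q = q) (hb : Commute b q) :
    (1 + (a - 1) * q) * (1 + (b - 1) * q) = 1 + (a * b - 1) * q := by
  have e : q * b * q = b * q := by rw [← hb.eq, mul_assoc, hq]
  calc (1 + (a - 1) * q) * (1 + (b - 1) * q)
      = 1 + (a - 1) * q + (b - 1) * q + (a - 1) * (q * b * q) - (a - 1) * (q * q) := by
        noncomm_ring
    _ = 1 + (a * b - 1) * q := by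
        rw [e, hq]
        noncomm_ring

theorem yp1_cut_star {a q : A} (hs : star q = q) (ha : Commute (star a) q) :
    star (1 + (a - 1) * q) = 1 + (star a - 1) * q := by
  rw [star_add, star_mul, star_sub, star_one, hs, mul_sub, sub_mul, ha.eq, mul_one, one_mul]

theorem yp1_cut_unitary {a q : A} (hu : a ∈ unitary A) (hq : q * q = q) (hs : star q = q)
    (ha : Commute a q) (ha' : Commute (star a) q) : 1 + (a - 1) * q ∈ unitary A := by
  constructor
  · rw [yp1_cut_star hs ha', yp1_cut_mul hq ha, hu.1, sub_self, zero_mul, add_zero]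
  · rw [yp1_cut_star hs ha', yp1_cut_mul hq ha', hu.2, sub_self, zero_mul, add_zero]

theorem yp1_half {x z q v : A} (hx : x ∈ unitary A) (hz : z ∈ unitary A) (hq : q * q = q)
    (hs : star q = q) (cx : Commute x q) (cz : Commute z q) (hv : star v * v = q)
    (hqv : q * v = 0) : PathTo 60 (1 + (x * z * star x * star z - 1) * q) := by
  have cx' : Commute (star x) q := by simpa only [hs] using cx.star_star
  have cz' : Commute (star z) q := by simpa only [hs] using cz.star_star
  have l : ∀ a : A, Commute a q → q * (1 + (a - 1) * q - 1) = 1 + (a - 1) * q - 1 := by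
    intro a ha
    rw [add_sub_cancel_left, ← mul_assoc, ← (ha.sub_left (Commute.one_left q)).eq, mul_assoc, hq]
  have r : ∀ a : A, (1 + (a - 1) * q - 1) * q = 1 + (a - 1) * q - 1 := by
    intro a
    rw [add_sub_cancel_left, mul_assoc, hq]
  have nq : ‖q‖ ≤ 1 := by
    have := CStarRing.norm_star_mul_self (x := q)
    rw [hs, hq] at this
    nlinarith [norm_nonneg q]
  have h := pathTo_comm (yp1_cut_unitary hx hq hs cx cx') (yp1_cut_unitary hz hq hs cz cz')
    (l x cx) (r x) (l z cz) (r z) hv hqv nq
  rwa [yp1_cut_star hs cx', yp1_cut_star hs cz', yp1_cut_mul hq cz, yp1_cut_mul hq cx',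
    yp1_cut_mul hq cz'] at h

theorem pathTo_comm_isom {x z t₁ t₂ : A} (hx : x ∈ unitary A) (hz : z ∈ unitary A)
    (h₁ : star t₁ * t₁ = 1) (h₂ : star t₂ * t₂ = 1) (h : star t₁ * t₂ = 0)
    (hc : t₁ ∈ cent ({x, z} : Set A)) : PathTo 120 (x * z * star x * star z) := by
  have c : ∀ a ∈ ({x, z} : Set A), Commute a (t₁ * star t₁) := fun a ha =>
    (mem_cent.1 hc a ha).1.symm.mul_right (mem_cent.1 (star_mem hc) a ha).1.symm
  have hp : t₁ * star t₁ * t₁ = t₁ := by rw [mul_assoc, h₁, mul_one]
  have hp2 : t₁ * star t₁ * t₂ = 0 := by rw [mul_assoc, h, mul_zero]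
  have hq : t₁ * star t₁ * (t₁ * star t₁) = t₁ * star t₁ := by rw [← mul_assoc, hp]
  have hs : star (t₁ * star t₁) = t₁ * star t₁ := by rw [star_mul, star_star]
  have cx := c x (by simp)
  have cz := c z (by simp)
  generalize t₁ * star t₁ = p at hp hp2 hq hs cx cz
  have hq' : (1 - p) * (1 - p) = 1 - p := by
    rw [mul_sub, mul_one, sub_mul, one_mul, hq, sub_self, sub_zero]
  have hs' : star (1 - p) = 1 - p := by rw [star_sub, star_one, hs]
  have r1 := yp1_half (v := t₂ * p) hx hz hq hs cx cz
    (by rw [star_mul, hs, mul_assoc, ← mul_assoc _ t₂, h₂, one_mul, hq])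
    (by rw [← mul_assoc, hp2, zero_mul])
  have r2 := yp1_half (v := t₁ * (1 - p)) hx hz hq' hs' ((Commute.one_right x).sub_right cx)
    ((Commute.one_right z).sub_right cz)
    (by rw [star_mul, hs', mul_assoc, ← mul_assoc _ t₁, h₁, one_mul, hq'])
    (by rw [← mul_assoc, sub_mul, one_mul, hp, sub_self, zero_mul])
  have cc : Commute (x * z * star x * star z) p :=
    ((cx.mul_left cz).mul_left (by simpa only [hs] using cx.star_star)).mul_left
      (by simpa only [hs] using cz.star_star)
  have r := r1.mul r2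
  generalize x * z * star x * star z = y at cc r ⊢
  have e : (1 + (y - 1) * p) * (1 + (y - 1) * (1 - p)) = y := by
    have e1 : p * y * p = p * y := by rw [mul_assoc, cc.eq, ← mul_assoc, hq]
    calc (1 + (y - 1) * p) * (1 + (y - 1) * (1 - p))
        = y + (y - 1) * (p * y - p * y * p - p + p * p) := by noncomm_ring
      _ = y := by rw [e1, hq, sub_self, zero_sub, neg_add_cancel, mul_zero, add_zero]
  rw [e] at r
  exact r.mono (by norm_num)

theorem pathTo_chain (z : ℕ → A) (N : ℕ) (h0 : z 0 = 1) (hu : ∀ k ≤ N, z k ∈ unitary A)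
    (hd : ∀ k < N, ‖z (k + 1) - z k‖ < 2) : PathTo (4 * N) (z N) := by
  induction N with
  | zero =>
    rw [h0]
    exact pathTo_one (by simp)
  | succ n ih =>
    have h1 := ih (fun k hk => hu k (by omega)) fun k hk => hd k (by omega)
    have hn := hu n (by omega)
    obtain ⟨k, hk, hk4, e⟩ := exists_log_near (mul_mem (hu (n + 1) le_rfl) (Unitary.star_mem hn))
      (by
        rw [← hn.2, ← sub_mul]
        exact (yp1_le_right (Unitary.star_mem hn) _).trans_lt (hd n (by omega)))
    have h2 := (pathTo_ex hk hk4).mul h1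
    rw [e, mul_assoc, hn.1, mul_one] at h2
    exact h2.mono (by push_cast; linarith)

end Pool.Agent.Izumi
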