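import Pool.Agent.Lib.MP_b2135d_an.YB
import Pool.Agent.Lib.MP_b2135d_an.WN2

/-! Relative pure infiniteness (PLAN section YQ1). -/

namespace Pool.Agent.Izumi

open scoped ComplexOrder
open Filter Topology

variable {G D A : Type} [Group G] [CStarAlgebra D] [PartialOrder D] [StarOrderedRing D]
  [CStarAlgebra A] [PartialOrder A] [StarOrderedRing A]

theorem PSys.rel_pi (X : PSys G D A) (χ : D →⋆ₐ[ℂ] A) {a : A} (ha : a ∈ cent (Set.range χ))
    (h0 : 0 ≤ a) (h1 : ‖a‖ = 1) : ∃ s ∈ cent (Set.range χ), star s * s = 1 ∧ a * s = s := by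
  obtain ⟨s, h2, h3⟩ := X.pi a h0 h1
  exact X.toAmb.rel χ (one_mem _) ha h2 h3

theorem PSys.small (X : PSys G D A) {h : G} (h1 : h ≠ 1) :
    ∃ t ∈ X.F, star t * t = 1 ∧ ‖star t * X.γ h t‖ < 1 := by
  refine lemW_sub X.F (isClosed_cent _) (X.γ h) (fun x hx => X.act_mem_F h hx)
    (fun a ha h0 hn ε hε => ?_) (X.free h h1)
  have e : X.F = cent (Set.range X.ν₀) := X.hF
  rw [e] at ha ⊢
  obtain ⟨s, hs, h2, h3⟩ := X.rel_pi X.ν₀ ha h0 hn
  exact ⟨s, hs, h2, by rw [h3, sub_self, norm_zero]; exact hε.le⟩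

end Pool.Agent.Izumi
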