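import Pool.Agent.Lib.MP_b2135d_an.YDefs

/-! Approximate unitary equivalence, density arguments (PLAN section YS0). -/

namespace Pool.Agent.Izumi

open scoped ComplexOrder
open Filter Topology

variable {E E' A B : Type} [CStarAlgebra A] [CStarAlgebra B] {f g h : E → A}

theorem ys_norm_ad {u : A} (hu : u ∈ unitary A) (x : A) : ‖u * x * star u‖ = ‖x‖ :=
  StarAlgEquiv.norm_map (Unitary.conjStarAlgAut ℂ A ⟨u, hu⟩) x

theorem AU.refl (f : E → A) : AU f f := fun _ _ hε =>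
  ⟨1, one_mem _, fun x _ => by simpa using hε.le⟩

theorem AU.symm (h : AU f g) : AU g f := fun s ε hε => by
  obtain ⟨u, hu, h1⟩ := h s ε hε
  refine ⟨star u, Unitary.star_mem hu, fun x hx => ?_⟩
  rw [← ys_norm_ad hu, ← norm_neg]
  refine le_of_eq_of_le (congrArg _ ?_) (h1 x hx)
  have h2 : ∀ y, u * (star u * y) = y := fun y => by
    rw [← mul_assoc, Unitary.mul_star_self_of_mem hu, one_mul]
  simp only [star_star, mul_sub, sub_mul, mul_assoc, h2, Unitary.mul_star_self_of_mem hu, mul_one,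
    neg_sub]

theorem AU.trans (h₁ : AU f g) (h₂ : AU g h) : AU f h := fun s ε hε => by
  obtain ⟨u, hu, h1⟩ := h₁ s _ (half_pos hε)
  obtain ⟨v, hv, h2⟩ := h₂ s _ (half_pos hε)
  refine ⟨v * u, mul_mem hv hu, fun x hx => ?_⟩
  have h3 := h1 x hx
  rw [← ys_norm_ad hv] at h3
  rw [show v * u * f x * star (v * u) - h x = v * (u * f x * star u - g x) * star v +
    (v * g x * star v - h x) by simp only [star_mul, mul_sub, sub_mul, mul_assoc]; abel]
  linarith [norm_add_le (v * (u * f x * star u - g x) * star v) (v * g x * star v - h x), h2 x hx]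

theorem AU.comp (h : AU f g) (k : E' → E) : AU (fun x => f (k x)) (fun x => g (k x)) :=
  fun s ε hε => by
    classical
    obtain ⟨u, hu, h1⟩ := h (s.image k) ε hε
    exact ⟨u, hu, fun x hx => h1 _ (Finset.mem_image_of_mem k hx)⟩

theorem AU.map (h : AU f g) (χ : A →⋆ₐ[ℂ] B) : AU (fun x => χ (f x)) (fun x => χ (g x)) :=
  fun s ε hε => by
    obtain ⟨u, hu, h1⟩ := h s ε hε
    refine ⟨χ u, Unitary.map_mem χ hu, fun x hx => ?_⟩
    rw [← map_star, ← map_mul, ← map_mul, ← map_sub]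
    exact (NonUnitalStarAlgHom.norm_apply_le χ _).trans (h1 x hx)

theorem AU.congr {f' g' : E → A} (h : AU f g) (h₁ : ∀ x, f x = f' x) (h₂ : ∀ x, g x = g' x) :
    AU f' g' := by
  rwa [← funext h₁, ← funext h₂]

theorem AU.of_tendsto (u : ℕ → A) (hu : ∀ n, u n ∈ unitary A)
    (h : ∀ x, Tendsto (fun n => u n * f x * star (u n)) atTop (𝓝 (g x))) : AU f g :=
  fun s ε hε => by
    obtain ⟨n, hn⟩ := ((eventually_all_finset s).2 fun x _ =>
      (tendsto_iff_norm_sub_tendsto_zero.1 (h x)).eventually (ge_mem_nhds hε)).exists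
    exact ⟨u n, hu n, hn⟩

theorem AU.exists_seq {D : Type} [CStarAlgebra D] [TopologicalSpace.SeparableSpace D]
    {p q : D →⋆ₐ[ℂ] A} (h : AU p q) : ∃ u : ℕ → A, (∀ n, u n ∈ unitary A) ∧
      ∀ x, Tendsto (fun n => u n * p x * star (u n)) atTop (𝓝 (q x)) := by
  classical
  obtain ⟨d, hd⟩ := TopologicalSpace.exists_dense_seq D
  choose u hu h1 using fun n : ℕ => h ((Finset.range (n + 1)).image d) (1 / ((n : ℝ) + 1))
    Nat.one_div_pos_of_nat
  refine ⟨u, hu, fun x => Metric.tendsto_nhds.2 fun ε hε => ?_⟩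
  obtain ⟨k, hk⟩ := hd.exists_dist_lt x (show 0 < ε / 3 by positivity)
  filter_upwards [eventually_ge_atTop k, (tendsto_one_div_add_atTop_nhds_zero_nat (𝕜 := ℝ)).eventually
    (gt_mem_nhds (show 0 < ε / 3 by positivity))] with n h2 h3
  have h4 := h1 n (d k) (Finset.mem_image_of_mem d (Finset.mem_range.2 (Nat.lt_succ_of_le h2)))
  rw [dist_eq_norm] at hk ⊢
  have h5 := NonUnitalStarAlgHom.norm_apply_le p (x - d k)
  have h6 := NonUnitalStarAlgHom.norm_apply_le q (x - d k)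
  rw [← ys_norm_ad (hu n)] at h5
  rw [show u n * p x * star (u n) - q x = u n * p (x - d k) * star (u n) +
    (u n * p (d k) * star (u n) - q (d k)) - q (x - d k) by
      simp only [map_sub, mul_sub, sub_mul]; abel]
  linarith [norm_sub_le (u n * p (x - d k) * star (u n) + (u n * p (d k) * star (u n) - q (d k)))
    (q (x - d k)), norm_add_le (u n * p (x - d k) * star (u n)) (u n * p (d k) * star (u n) - q (d k))]

theorem AU.mem_closure (h : AU f g) (x : E) :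
    g x ∈ closure {y | ∃ u ∈ unitary A, y = u * f x * star u} :=
  Metric.mem_closure_iff.2 fun ε hε => by
    obtain ⟨u, hu, h1⟩ := h {x} _ (half_pos hε)
    refine ⟨_, ⟨u, hu, rfl⟩, ?_⟩
    rw [dist_comm, dist_eq_norm]
    exact (h1 x (Finset.mem_singleton_self x)).trans_lt (half_lt_self hε)

theorem AU.norm_eq (h : AU f g) (x : E) : ‖f x‖ = ‖g x‖ :=
  closure_minimal (t := {y | ‖f x‖ = ‖y‖}) (by
    rintro _ ⟨u, hu, rfl⟩
    exact (ys_norm_ad hu _).symm) (isClosed_eq continuous_const continuous_norm) (h.mem_closure x)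

/-- Continuous unitarily invariant functions do not see the difference. -/
theorem AU.apply_eq {X : Type} [TopologicalSpace X] [T2Space X] (h : AU f g) (σ : A → X)
    (P : Set A) (hσ : ContinuousOn σ P)
    (hP : ∀ u ∈ unitary A, ∀ a ∈ P, u * a * star u ∈ P ∧ σ (u * a * star u) = σ a) {x : E}
    (hf : f x ∈ P) (hg : g x ∈ P) : σ (f x) = σ (g x) := by
  have h1 := ((hσ _ hg).mono (s := {y | ∃ u ∈ unitary A, y = u * f x * star u}) (by
    rintro _ ⟨u, hu, rfl⟩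
    exact (hP u hu _ hf).1)).mem_closure_image (h.mem_closure x)
  exact closure_minimal (t := {y | σ (f x) = y}) (by
    rintro _ ⟨_, ⟨u, hu, rfl⟩, rfl⟩
    exact (hP u hu _ hf).2.symm) (isClosed_eq continuous_const continuous_id) h1

section Dense

variable {D₁ D₂ : Type} [CStarAlgebra D₁] [CStarAlgebra D₂] {ι₁ : D₁ →⋆ₐ[ℂ] A}
  {ι₂ : D₂ →⋆ₐ[ℂ] A}

theorem tens_induct (hd : Dense (Submodule.span ℂ {z : A | ∃ x y, z = ι₁ x * ι₂ y} : Set A))
    {P : A → Prop} (hc : IsClosed {z | P z}) (h0 : P 0) (hadd : ∀ z w, P z → P w → P (z + w))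
    (hsmul : ∀ (c : ℂ) z, P z → P (c • z)) (hm : ∀ x y, P (ι₁ x * ι₂ y)) (z : A) : P z :=
  closure_minimal (t := {z | P z}) (fun w hw => Submodule.span_induction (p := fun w _ => P w)
    (by rintro _ ⟨x, y, rfl⟩; exact hm x y) h0 (fun a b _ _ => hadd a b) (fun c a _ => hsmul c a) hw)
    hc (hd z)

theorem tens_span {z : A} (hz : z ∈ Submodule.span ℂ {z : A | ∃ x y, z = ι₁ x * ι₂ y}) :
    ∃ (n : ℕ) (a : Fin n → D₁) (b : Fin n → D₂), z = ∑ i, ι₁ (a i) * ι₂ (b i) := by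
  obtain ⟨n, c, g, h1⟩ := Submodule.mem_span_set'.1 hz
  choose x y h2 using fun i => (g i).2
  exact ⟨n, fun i => c i • x i, y, by simp only [← h1, h2, map_smul, smul_mul_assoc]⟩

theorem tens_near (hd : Dense (Submodule.span ℂ {z : A | ∃ x y, z = ι₁ x * ι₂ y} : Set A))
    (z : A) {ε : ℝ} (hε : 0 < ε) : ∃ (n : ℕ) (a : Fin n → D₁) (b : Fin n → D₂),
      ‖z - ∑ i, ι₁ (a i) * ι₂ (b i)‖ ≤ ε := by
  obtain ⟨w, hw, h1⟩ := hd.exists_dist_lt z hε
  obtain ⟨n, a, b, rfl⟩ := tens_span hw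
  exact ⟨n, a, b, (dist_eq_norm z _ ▸ h1).le⟩

theorem tens_clm_ext {V : Type} [NormedAddCommGroup V] [NormedSpace ℂ V]
    (hd : Dense (Submodule.span ℂ {z : A | ∃ x y, z = ι₁ x * ι₂ y} : Set A)) {f g : A →L[ℂ] V}
    (h : ∀ x y, f (ι₁ x * ι₂ y) = g (ι₁ x * ι₂ y)) (z : A) : f z = g z :=
  tens_induct hd (P := fun z => f z = g z) (isClosed_eq f.continuous g.continuous) (by simp)
    (fun z w h1 h2 => by rw [map_add, map_add, h1, h2])
    (fun c z h1 => by rw [map_smul, map_smul, h1]) h z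

theorem tens_hom_ext (hd : Dense (Submodule.span ℂ {z : A | ∃ x y, z = ι₁ x * ι₂ y} : Set A))
    {χ χ' : A →⋆ₐ[ℂ] B} (h₁ : ∀ x, χ (ι₁ x) = χ' (ι₁ x)) (h₂ : ∀ y, χ (ι₂ y) = χ' (ι₂ y))
    (z : A) : χ z = χ' z :=
  tens_induct hd (P := fun z => χ z = χ' z) (isClosed_eq (hom_continuous χ) (hom_continuous χ'))
    (by simp) (fun z w h1 h2 => by rw [map_add, map_add, h1, h2])
    (fun c z h1 => by rw [map_smul, map_smul, h1])
    (fun x y => by rw [map_mul, map_mul, h₁, h₂]) z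

theorem tens_map_mem (hd : Dense (Submodule.span ℂ {z : A | ∃ x y, z = ι₁ x * ι₂ y} : Set A))
    (χ : A →⋆ₐ[ℂ] B) {C : StarSubalgebra ℂ B} (hC : IsClosed (C : Set B))
    (h₁ : ∀ x, χ (ι₁ x) ∈ C) (h₂ : ∀ y, χ (ι₂ y) ∈ C) (z : A) : χ z ∈ C :=
  tens_induct hd (P := fun z => χ z ∈ C) (hC.preimage (hom_continuous χ))
    (by rw [map_zero]; exact zero_mem _) (fun z w h1 h2 => by rw [map_add]; exact add_mem h1 h2)
    (fun c z h1 => by rw [map_smul]; exact C.smul_mem h1 c)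
    (fun x y => by rw [map_mul]; exact mul_mem (h₁ x) (h₂ y)) z

theorem tens_commute (hd : Dense (Submodule.span ℂ {z : A | ∃ x y, z = ι₁ x * ι₂ y} : Set A))
    (χ : A →⋆ₐ[ℂ] B) {c : B} (h₁ : ∀ x, Commute c (χ (ι₁ x))) (h₂ : ∀ y, Commute c (χ (ι₂ y)))
    (z : A) : Commute c (χ z) :=
  tens_induct hd (P := fun z => Commute c (χ z))
    (isClosed_eq (continuous_const.mul (hom_continuous χ)) ((hom_continuous χ).mul continuous_const))
    (by rw [map_zero]; exact Commute.zero_right c)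
    (fun z w h1 h2 => by rw [map_add]; exact h1.add_right h2)
    (fun c z h1 => by rw [map_smul]; exact h1.smul_right c)
    (fun x y => by rw [map_mul]; exact (h₁ x).mul_right (h₂ y)) z

theorem tens_dense_symm (hc : ∀ x y, Commute (ι₁ x) (ι₂ y))
    (hd : Dense (Submodule.span ℂ {z : A | ∃ x y, z = ι₁ x * ι₂ y} : Set A)) :
    Dense (Submodule.span ℂ {z : A | ∃ x y, z = ι₂ x * ι₁ y} : Set A) :=
  hd.mono (Submodule.span_mono (by
    rintro _ ⟨x, y, rfl⟩
    exact ⟨y, x, hc x y⟩))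

theorem tens_mul (hc : ∀ x y, Commute (ι₁ x) (ι₂ y)) (a : D₁) (b : D₂) (c : D₁) (d : D₂) :
    ι₁ a * ι₂ b * (ι₁ c * ι₂ d) = ι₁ (a * c) * ι₂ (b * d) := by
  rw [mul_assoc, ← mul_assoc (ι₂ b), ← hc, map_mul, map_mul, mul_assoc, mul_assoc]

theorem ext_lin {V : Type} [NormedAddCommGroup V] [NormedSpace ℂ V] [CompleteSpace V]
    (hd : Dense (Submodule.span ℂ {z : A | ∃ x y, z = ι₁ x * ι₂ y} : Set A))
    (m : D₁ →ₗ[ℂ] D₂ →ₗ[ℂ] V) (hm : ∀ (n : ℕ) (a : Fin n → D₁) (b : Fin n → D₂),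
      ‖∑ i, m (a i) (b i)‖ ≤ ‖∑ i, ι₁ (a i) * ι₂ (b i)‖) :
    ∃ L : A →L[ℂ] V, (∀ z, ‖L z‖ ≤ ‖z‖) ∧ ∀ a b, L (ι₁ a * ι₂ b) = m a b := by
  obtain ⟨e, he⟩ : ∃ e : TensorProduct ℂ D₁ D₂ →ₗ[ℂ] A, ∀ a b, e (a ⊗ₜ b) = ι₁ a * ι₂ b :=
    ⟨TensorProduct.lift ((LinearMap.mul ℂ A).compl₁₂ ι₁.toAlgHom.toLinearMap
      ι₂.toAlgHom.toLinearMap), fun _ _ => rfl⟩
  have h1 : DenseRange e := hd.mono fun z hz => by
    obtain ⟨n, a, b, rfl⟩ := tens_span hz
    exact ⟨∑ i, a i ⊗ₜ b i, by simp only [map_sum, he]⟩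
  have h2 : ∀ t, ‖TensorProduct.lift m t‖ ≤ 1 * ‖e t‖ := fun t => by
    obtain ⟨n, a, b, rfl⟩ := TensorProduct.exists_sum_tmul_eq t
    simpa only [map_sum, he, TensorProduct.lift.tmul, one_mul] using hm n a b
  refine ⟨(TensorProduct.lift m).extendOfNorm e, fun z => ?_, fun a b => ?_⟩
  · simpa using LinearMap.norm_extendOfNorm_apply_le h1 1 h2 z
  · rw [← he, LinearMap.extendOfNorm_eq h1 ⟨1, h2⟩, TensorProduct.lift.tmul]

theorem ext_hom (hc : ∀ x y, Commute (ι₁ x) (ι₂ y))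
    (hd : Dense (Submodule.span ℂ {z : A | ∃ x y, z = ι₁ x * ι₂ y} : Set A))
    (p : D₁ →⋆ₐ[ℂ] B) (q : D₂ →⋆ₐ[ℂ] B) (hpq : ∀ x y, Commute (p x) (q y))
    (hm : ∀ (n : ℕ) (a : Fin n → D₁) (b : Fin n → D₂),
      ‖∑ i, p (a i) * q (b i)‖ ≤ ‖∑ i, ι₁ (a i) * ι₂ (b i)‖) :
    ∃ χ : A →⋆ₐ[ℂ] B, (∀ x, χ (ι₁ x) = p x) ∧ ∀ y, χ (ι₂ y) = q y := by
  obtain ⟨μ, -, h3⟩ := ext_lin hd ((LinearMap.mul ℂ B).compl₁₂ p.toAlgHom.toLinearMap
    q.toAlgHom.toLinearMap) hm
  replace h3 : ∀ a b, μ (ι₁ a * ι₂ b) = p a * q b := h3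
  have h1 : μ 1 = 1 := by simpa using h3 1 1
  refine ⟨{ toFun := μ, map_one' := h1, map_zero' := map_zero μ
            map_add' := map_add μ
            map_mul' := fun x y => ?_
            commutes' := fun c => ?_
            map_star' := fun x => ?_ },
    fun a => by simpa using h3 a 1, fun a => by simpa using h3 1 a⟩
  · refine tens_induct hd (P := fun x => μ (x * y) = μ x * μ y)
      (isClosed_eq (by fun_prop) (by fun_prop)) (by simp)
      (fun z w h1 h2 => by rw [add_mul, map_add, map_add, h1, h2, add_mul])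
      (fun c z h1 => by rw [smul_mul_assoc, map_smul, map_smul, h1, smul_mul_assoc])
      (fun a b => ?_) x
    exact tens_induct hd (P := fun y => μ (ι₁ a * ι₂ b * y) = μ (ι₁ a * ι₂ b) * μ y)
      (isClosed_eq (by fun_prop) (by fun_prop)) (by simp)
      (fun z w h1 h2 => by rw [mul_add, map_add, map_add, h1, h2, mul_add])
      (fun c z h1 => by rw [mul_smul_comm, map_smul, map_smul, h1, mul_smul_comm])
      (fun c d => by rw [tens_mul hc, h3, h3, h3, tens_mul hpq]) y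
  · simp only [Algebra.algebraMap_eq_smul_one, map_smul, h1]
  · exact tens_induct hd (P := fun x => μ (star x) = star (μ x))
      (isClosed_eq (by fun_prop) (by fun_prop)) (by simp)
      (fun z w h1 h2 => by rw [star_add, map_add, map_add, h1, h2, star_add])
      (fun c z h1 => by rw [star_smul, map_smul, map_smul, h1, star_smul])
      (fun a b => by
        rw [h3, star_mul, star_mul, ← map_star, ← map_star, ← map_star, ← map_star, ← hc, h3, hpq]) x

end Dense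

end Pool.Agent.Izumi
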