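import Pool.Agent.Lib.MP_b2135d_an.YS0
import Pool.Agent.Lib.MP_b2135d_an.YS1
import Pool.Agent.Lib.MP_f90f6c_an.H50Simple

/-! Basic structure of a strongly self-absorbing algebra (PLAN section YS4). -/

namespace Pool.Agent.Izumi

open scoped ComplexOrder
open Filter Topology

variable {D : Type} [CStarAlgebra D] [PartialOrder D] [StarOrderedRing D]

theorem SSA.au_end (S : SSA D) (p : D →⋆ₐ[ℂ] D) : AU (fun x : D => x) p := by
  obtain ⟨χ, h1, h2⟩ := S.univ D S.al (S.be.comp p) fun _ _ => S.comm _ _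
  have h3 : AU S.al fun x => S.be (p x) := (S.flip.map χ).congr h1 h2
  exact (S.au.trans h3).trans ((S.au.trans S.flip).comp p).symm

theorem SSA.norm_end (S : SSA D) (p : D →⋆ₐ[ℂ] D) (x : D) : ‖p x‖ = ‖x‖ :=
  ((S.au_end p).norm_eq x).symm

theorem SSA.exists_flip (S : SSA D) :
    ∃ fl : D →⋆ₐ[ℂ] D, (∀ x, fl (S.al x) = S.be x) ∧ ∀ x, fl (S.be x) = S.al x :=
  S.univ D S.be S.al fun _ _ => (S.comm _ _).symm

theorem SSA.exists_swap (S : SSA D) : ∃ S' : SSA D, S'.al = S.be ∧ S'.be = S.al := by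
  obtain ⟨fl, h1, h2⟩ := S.exists_flip
  refine ⟨⟨⟨S.be, S.al, fun _ _ => (S.comm _ _).symm, tens_dense_symm S.comm S.dense,
    fun A _ p q h => ?_⟩, S.sep, S.nontriv, S.nonscalar, fun φ hφ => ?_, S.au_end _, S.flip.symm⟩,
    rfl, rfl⟩
  · obtain ⟨χ, h3, h4⟩ := S.univ A q p fun _ _ => (h _ _).symm
    exact ⟨χ, h4, h3⟩
  · obtain ⟨L, h3, h4⟩ := S.slice φ hφ
    refine ⟨L.comp ⟨fl.toAlgHom.toLinearMap, hom_continuous fl⟩, fun x => (h3 _).trans
      (NonUnitalStarAlgHom.norm_apply_le fl x), fun a b => ?_⟩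
    change L (fl (S.be a * S.al b)) = _
    rw [map_mul, h1, h2, h4]

theorem SSA.slice_mul (S : SSA D) {φ : D → ℂ} {L : D →L[ℂ] D}
    (hL : ∀ a b, L (S.al a * S.be b) = φ b • a) (c x c' : D) :
    L (S.al c * x * S.al c') = c * L x * c' :=
  tens_induct S.dense (P := fun x => L (S.al c * x * S.al c') = c * L x * c')
    (isClosed_eq (by fun_prop) (by fun_prop)) (by simp)
    (fun z w h1 h2 => by simp only [mul_add, add_mul, map_add, h1, h2])
    (fun c z h1 => by simp only [mul_smul_comm, smul_mul_assoc, map_smul, h1])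
    (fun a b => by
      rw [mul_assoc, mul_assoc, ← S.comm, ← mul_assoc, ← mul_assoc, ← map_mul, ← map_mul, hL, hL,
        mul_smul_comm, smul_mul_assoc]) x

theorem SSA.exists_state (S : SSA D) : ∃ φ : D →ₚ[ℂ] ℂ, φ 1 = 1 := by
  have := S.nontriv
  exact (exists_norming_state (le_refl (0 : D))).imp fun _ h => h.1

theorem SSA.center (S : SSA D) {m : D} (hm : ∀ x, Commute m x) :
    ∃ c : ℂ, m = algebraMap ℂ D c := by
  obtain ⟨φ, hφ⟩ := S.exists_state
  obtain ⟨L, -, hL⟩ := S.slice φ hφ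
  have h1 : ∀ p : D →⋆ₐ[ℂ] D, p m = m := fun p =>
    closure_minimal (t := {y | y = m}) (by
      rintro _ ⟨u, hu, rfl⟩
      change u * m * star u = m
      rw [← hm u, mul_assoc, Unitary.mul_star_self_of_mem hu, mul_one]) isClosed_singleton
      ((S.au_end p).mem_closure m)
  have h2 := hL m 1
  have h3 := hL 1 m
  rw [map_one, mul_one, h1, hφ, one_smul] at h2
  rw [map_one, one_mul, h1, h2] at h3
  exact ⟨φ m, by rw [Algebra.algebraMap_eq_smul_one, ← h3]⟩

/-- Every nonzero element generates the algebra as a two-sided ideal. -/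
theorem SSA.full (S : SSA D) {a : D} (ha : a ≠ 0) :
    ∃ (n : ℕ) (x y : Fin n → D), ∑ i, x i * a * y i = 1 := by
  by_cases h : (1 : D) ∈ Submodule.span ℂ {z | ∃ x y, z = x * a * y}
  · obtain ⟨n, c, g, h1⟩ := Submodule.mem_span_set'.1 h
    choose x y h2 using fun i => (g i).2
    exact ⟨n, fun i => c i • x i, y, by simp only [← h1, h2, smul_mul_assoc]⟩
  obtain ⟨φ, h1, h2⟩ := exists_state_ker h
  obtain ⟨L, -, hL⟩ := S.slice φ h1
  have h3 : ∀ x y, L (x * S.be a * y) = 0 := fun x y =>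
    tens_induct S.dense (P := fun x => L (x * S.be a * y) = 0)
      (isClosed_eq (by fun_prop) continuous_const) (by simp)
      (fun z w h1 h2 => by simp only [add_mul, map_add, h1, h2, add_zero])
      (fun c z h1 => by simp only [smul_mul_assoc, map_smul, h1, smul_zero])
      (fun b c => tens_induct S.dense (P := fun y => L (S.al b * S.be c * S.be a * y) = 0)
        (isClosed_eq (by fun_prop) continuous_const) (by simp)
        (fun z w h1 h2 => by simp only [mul_add, map_add, h1, h2, add_zero])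
        (fun c z h1 => by simp only [mul_smul_comm, map_smul, h1, smul_zero])
        (fun d e => by
          rw [mul_assoc (S.al b), ← map_mul, tens_mul S.comm, hL, h2, zero_smul]) y) x
  have h4 : L (S.al a) = 0 := closure_minimal (t := {y | L y = 0}) (by
    rintro _ ⟨u, -, rfl⟩
    exact h3 _ _) (isClosed_eq L.continuous continuous_const) (S.flip.symm.mem_closure a)
  have h5 := hL a 1
  rw [map_one, mul_one, h4, h1, one_smul] at h5
  exact absurd h5.symm ha

theorem SSA.mul_ne (S : SSA D) {a b : D} (ha : a ≠ 0) (hb : b ≠ 0) : S.al a * S.be b ≠ 0 :=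
  fun h => by
    obtain ⟨n, x, y, h1⟩ := S.full ha
    refine hb (norm_eq_zero.1 ?_)
    rw [← S.norm_end S.be, norm_eq_zero, ← one_mul (S.be b), ← map_one S.al, ← h1, map_sum,
      Finset.sum_mul]
    exact Finset.sum_eq_zero fun i _ => by
      rw [map_mul, map_mul, mul_assoc, S.comm, mul_assoc, ← mul_assoc (S.al a), h, zero_mul,
        mul_zero]

theorem SSA.simple (S : SSA D) : Pool.Agent.Lib.MP_f90f6c_an.H50.IsSimple D := by
  refine ⟨S.nontriv, fun I _ => or_iff_not_imp_left.2 fun h => ?_⟩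
  obtain ⟨a, h1, h2⟩ : ∃ a ∈ I, a ≠ 0 := by
    by_contra! hc
    exact h (eq_bot_iff.2 fun a ha => (TwoSidedIdeal.mem_bot D).2 (hc a ha))
  obtain ⟨n, x, y, h3⟩ := S.full h2
  rw [← TwoSidedIdeal.one_mem_iff, ← h3]
  exact I.finsetSum_mem _ _ fun i _ => I.mul_mem_right _ _ (I.mul_mem_left _ _ h1)

/-- Commuting homomorphisms are two legs of one homomorphism. -/
theorem SSA.exists_prod (S : SSA D) {A : Type} [CStarAlgebra A] (p q : D →⋆ₐ[ℂ] A)
    (hq : ∀ x, q x ∈ cent (Set.range p)) : ∃ χ : D →⋆ₐ[ℂ] A, ∀ z, z ∈ cent (Set.range χ) ↔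
      z ∈ cent (Set.range p) ∧ z ∈ cent (Set.range q) := by
  obtain ⟨χ, h1, h2⟩ := S.univ A p q fun x y => (mem_cent_range.1 (hq y) x).symm
  refine ⟨χ, fun z => ?_⟩
  simp only [mem_cent_range]
  exact ⟨fun h => ⟨fun d => h1 d ▸ h _, fun d => h2 d ▸ h _⟩, fun h =>
    tens_commute S.dense χ (fun x => (h1 x).symm ▸ h.1 x) fun x => (h2 x).symm ▸ h.2 x⟩

/-- Commuting homomorphisms are approximately unitarily equivalent inside every closed subalgebra
that contains their ranges. -/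
theorem SSA.flip_mem (S : SSA D) {A : Type} [CStarAlgebra A] (p q : D →⋆ₐ[ℂ] A)
    (hpq : ∀ x y, Commute (p x) (q y)) {C : StarSubalgebra ℂ A} (hC : IsClosed (C : Set A))
    (hp : ∀ x, p x ∈ C) (hq : ∀ x, q x ∈ C) (s : Finset D) {ε : ℝ} (hε : 0 < ε) :
    ∃ u ∈ unitary A, u ∈ C ∧ ∀ x ∈ s, ‖u * p x * star u - q x‖ ≤ ε := by
  obtain ⟨χ, h1, h2⟩ := S.univ A p q hpq
  obtain ⟨u, hu, h3⟩ := S.flip s ε hε
  refine ⟨χ u, Unitary.map_mem χ hu, tens_map_mem S.dense χ hC (fun x => (h1 x).symm ▸ hp x)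
    (fun x => (h2 x).symm ▸ hq x) u, fun x hx => ?_⟩
  rw [← h1, ← h2, ← map_star, ← map_mul, ← map_mul, ← map_sub]
  exact (NonUnitalStarAlgHom.norm_apply_le χ _).trans (h3 x hx)

end Pool.Agent.Izumi
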