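import Pool.Agent.Lib.MP_b2135d_an.YS4

/-! Traces, central homomorphisms, product actions (PLAN section YS5). -/

namespace Pool.Agent.Izumi

open scoped ComplexOrder
open Filter Topology

variable {D : Type} [CStarAlgebra D] [PartialOrder D] [StarOrderedRing D] {τ : D →ₚ[ℂ] ℂ}

theorem SSA.trUniq (S : SSA D) (hτ : IsTracialState τ) : TrUniq τ := fun f hf x => by
  obtain ⟨L, -, hL⟩ := S.slice τ hτ.1
  obtain ⟨g, hg⟩ : ∃ g : D →L[ℂ] ℂ, ∀ a b, g (S.al a * S.be b) = τ b * f a :=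
    ⟨f.comp L, fun a b => by rw [ContinuousLinearMap.comp_apply, hL, map_smul, smul_eq_mul]⟩
  have h1 : ∀ z w, g (z * w) = g (w * z) := fun z w =>
    tens_induct S.dense (P := fun z => g (z * w) = g (w * z))
      (isClosed_eq (by fun_prop) (by fun_prop)) (by simp)
      (fun z w h1 h2 => by simp only [mul_add, add_mul, map_add, h1, h2])
      (fun c z h1 => by simp only [mul_smul_comm, smul_mul_assoc, map_smul, h1])
      (fun a b => tens_induct S.dense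
        (P := fun w => g (S.al a * S.be b * w) = g (w * (S.al a * S.be b)))
        (isClosed_eq (by fun_prop) (by fun_prop)) (by simp)
        (fun z w h1 h2 => by simp only [mul_add, add_mul, map_add, h1, h2])
        (fun c z h1 => by simp only [mul_smul_comm, smul_mul_assoc, map_smul, h1])
        (fun c d => by rw [tens_mul S.comm, tens_mul S.comm, hg, hg, hτ.2, hf]) w) z
  have h2 : ∀ p : D →⋆ₐ[ℂ] D, g x = g (p x) := fun p =>
    (S.au_end p).apply_eq g Set.univ g.continuous.continuousOn (fun u hu a _ => ⟨trivial, by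
      rw [h1, ← mul_assoc, Unitary.star_mul_self_of_mem hu, one_mul]⟩) trivial trivial
  have h3 := hg x 1
  have h4 := hg 1 x
  rw [map_one, mul_one, hτ.1, one_mul, ← h2] at h3
  rw [map_one, one_mul, ← h2] at h4
  rw [← h3, h4, mul_comm]

theorem TrUniq.tr_mul (h : TrUniq τ) {A : Type} [CStarAlgebra A] [PartialOrder A]
    [StarOrderedRing A] (τA : A →ₚ[ℂ] ℂ) (hA : ∀ x y, τA (x * y) = τA (y * x))
    (p : D →⋆ₐ[ℂ] A) {y : A} (hy : ∀ b, Commute y (p b)) (b : D) :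
    τA (p b * y) = τ b * τA y := by
  let f : D →L[ℂ] ℂ :=
    { toFun := fun b => τA (p b * y)
      map_add' := fun a b => by rw [map_add, add_mul, map_add]
      map_smul' := fun c a => by rw [map_smul, smul_mul_assoc, map_smul]; rfl
      cont := (tr_continuous τA).comp ((hom_continuous p).mul continuous_const) }
  have h1 := h f (fun a c => by
    change τA (p (a * c) * y) = τA (p (c * a) * y)
    rw [map_mul p, map_mul p, mul_assoc, hA, mul_assoc, hy, mul_assoc]) b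
  change τA (p b * y) = τA (p 1 * y) * τ b at h1
  rw [h1, map_one, one_mul, mul_comm]

theorem TrUniq.tr_eq (h : TrUniq τ) {τ' : D →ₚ[ℂ] ℂ} (h' : IsTracialState τ') (x : D) :
    τ' x = τ x := by
  have := h.tr_mul τ' h'.2 (.id ℂ D) (y := 1) (fun _ => Commute.one_left _) x
  rwa [mul_one, h'.1, mul_one] at this

theorem TrUniq.tr_hom (h : TrUniq τ) (hτ : IsTracialState τ) (p : D →⋆ₐ[ℂ] D) (x : D) :
    τ (p x) = τ x := by
  have := h.tr_mul τ hτ.2 p (y := 1) (fun _ => Commute.one_left _) x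
  rwa [mul_one, hτ.1, mul_one] at this

theorem SSA.faith (S : SSA D) (hτ : IsTracialState τ) (x : D) (hx : n2 τ x = 0) : x = 0 := by
  by_contra h0
  obtain ⟨n, a, b, h1⟩ := S.full h0
  have h2 := hτ.1
  rw [← h1, map_sum, Finset.sum_eq_zero fun i _ => ?_] at h2
  · exact zero_ne_one h2
  · have := norm_tr_mul_le τ (star (b i * a i)) x
    rw [star_star, hx, mul_zero, norm_le_zero_iff] at this
    rw [hτ.2, ← mul_assoc, this]

theorem SSA.exists_central (S : SSA D) (s : Finset D) {ε : ℝ} (hε : 0 < ε) :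
    ∃ ka : D →⋆ₐ[ℂ] D, ∀ a ∈ s, ∀ x, ‖ka x * a - a * ka x‖ ≤ ε * ‖x‖ := by
  obtain ⟨v, hv, h1⟩ := S.au.symm s _ (half_pos hε)
  refine ⟨(adHom hv).comp S.be, fun a ha x => ?_⟩
  have h2 : Commute (adHom hv (S.al a)) (adHom hv (S.be x)) := (S.comm a x).map _
  have h3 : ‖adHom hv (S.be x)‖ ≤ ‖x‖ := NonUnitalStarAlgHom.norm_apply_le ((adHom hv).comp S.be) x
  have h4 : ‖adHom hv (S.al a) - a‖ ≤ ε / 2 := h1 a ha
  rw [StarAlgHom.comp_apply]
  generalize adHom hv (S.be x) = z at *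
  generalize adHom hv (S.al a) = w at *
  rw [show z * a - a * z = (w - a) * z - z * (w - a) by
    simp only [mul_sub, sub_mul, h2.eq]; abel]
  nlinarith [norm_sub_le ((w - a) * z) (z * (w - a)), norm_mul_le (w - a) z, norm_mul_le z (w - a),
    norm_nonneg z, norm_nonneg (w - a)]

theorem SSA.exists_prod_act (S : SSA D) {G : Type} [Group G] (α β : G →* (D ≃⋆ₐ[ℂ] D)) :
    ∃ δ : G →* (D ≃⋆ₐ[ℂ] D), (∀ g x, S.al (α g x) = δ g (S.al x)) ∧
      ∀ g x, S.be (β g x) = δ g (S.be x) := by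
  choose χ h1 h2 using fun g => S.univ D (S.al.comp (α g : D →⋆ₐ[ℂ] D))
    (S.be.comp (β g : D →⋆ₐ[ℂ] D)) fun _ _ => S.comm _ _
  replace h1 : ∀ g x, χ g (S.al x) = S.al (α g x) := h1
  replace h2 : ∀ g x, χ g (S.be x) = S.be (β g x) := h2
  have h3 : ∀ g h x, χ (g * h) x = χ g (χ h x) := fun g h =>
    tens_hom_ext S.dense (χ' := (χ g).comp (χ h))
      (fun x => by rw [StarAlgHom.comp_apply, h1, h1, h1, act_act])
      fun x => by rw [StarAlgHom.comp_apply, h2, h2, h2, act_act]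
  have h4 : ∀ x, χ 1 x = x := tens_hom_ext S.dense (χ' := .id ℂ D)
    (fun x => by rw [h1, act_one]; rfl) fun x => by rw [h2, act_one]; rfl
  refine ⟨MonoidHom.mk' (fun g => StarAlgEquiv.ofStarAlgHom (χ g) (χ g⁻¹)
    (StarAlgHom.ext fun x => ((h3 _ _ x).symm.trans (by rw [inv_mul_cancel, h4]; rfl)))
    (StarAlgHom.ext fun x => ((h3 _ _ x).symm.trans (by rw [mul_inv_cancel, h4]; rfl))))
    fun g h => StarAlgEquiv.ext (h3 g h), fun g x => (h1 g x).symm, fun g x => (h2 g x).symm⟩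

theorem SSA.exists_orth (S : SSA D) : ∃ a b : D, 0 ≤ a ∧ 0 ≤ b ∧ a ≠ 0 ∧ b ≠ 0 ∧ a * b = 0 := by
  have := S.nontriv
  obtain ⟨h, hs, hn⟩ : ∃ h : D, IsSelfAdjoint h ∧ ∀ r : ℝ, h ≠ algebraMap ℝ D r := by
    by_contra! hc
    obtain ⟨x, hx⟩ := S.nonscalar
    obtain ⟨r, hr⟩ := hc _ (realPart x).2
    obtain ⟨t, ht⟩ := hc _ (imaginaryPart x).2
    refine hx (r + Complex.I * t) ?_
    rw [← realPart_add_I_smul_imaginaryPart x, hr, ht]
    simp only [Algebra.algebraMap_eq_smul_one, add_smul, mul_smul, Complex.coe_smul]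
  obtain ⟨r, hr⟩ := ContinuousFunctionalCalculus.spectrum_nonempty (R := ℝ) h hs
  obtain ⟨t, ht, hrt⟩ : ∃ t ∈ spectrum ℝ h, t ≠ r := by
    by_contra! hc
    exact hn r (CFC.eq_algebraMap_of_spectrum_subset_singleton h r hc hs)
  have key : ∀ r ∈ spectrum ℝ h, ∀ t ∈ spectrum ℝ h, r < t →
      ∃ a b : D, 0 ≤ a ∧ 0 ≤ b ∧ a ≠ 0 ∧ b ≠ 0 ∧ a * b = 0 := fun r hr t ht hrt => by
    have h1 : ∀ (f : ℝ → ℝ), Continuous f → ∀ s ∈ spectrum ℝ h, f s ≠ 0 → cfc f h ≠ 0 :=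
      fun f hf s hs' h0 h2 => h0 (norm_le_zero_iff.1 (by
        simpa [h2] using norm_apply_le_norm_cfc f h hs' hf.continuousOn hs))
    refine ⟨cfc (fun x => max (x - (r + t) / 2) 0) h, cfc (fun x => max ((r + t) / 2 - x) 0) h,
      cfc_nonneg fun _ _ => le_max_right _ _, cfc_nonneg fun _ _ => le_max_right _ _,
      h1 _ (by fun_prop) t ht (lt_max_of_lt_left (by linarith)).ne',
      h1 _ (by fun_prop) r hr (lt_max_of_lt_left (by linarith)).ne', ?_⟩
    rw [← cfc_mul .., ← cfc_const_zero ℝ h]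
    refine cfc_congr fun x _ => ?_
    rcases le_total x ((r + t) / 2) with c | c
    · rw [max_eq_right (sub_nonpos.2 c), zero_mul]
    · rw [max_eq_right (sub_nonpos.2 c), mul_zero]
  rcases hrt.lt_or_gt with c | c
  exacts [key t ht r hr c, key r hr t ht c]

theorem SSA.exists_nil (S : SSA D) : ∃ v : D, v ≠ 0 ∧ v * v = 0 := by
  obtain ⟨a, b, -, -, ha, hb, h⟩ := S.exists_orth
  obtain ⟨c, hc⟩ := S.simple.exists_mul_ne hb ha
  exact ⟨_, hc, by rw [mul_assoc b c a, ← mul_assoc, mul_assoc b, mul_assoc c, h, mul_zero,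
    mul_zero, zero_mul]⟩

theorem SSA.isN_norm (S : SSA D) : ∃ φ : D →ₚ[ℂ] ℂ, IsN S φ (fun x => ‖x‖) := by
  obtain ⟨φ, hφ⟩ := S.exists_state
  obtain ⟨L, h1, h2⟩ := S.slice φ hφ
  exact ⟨φ, norm_add_le, norm_smul, norm_mul_le, norm_star, fun _ => le_rfl, S.norm_end, hφ,
    state_norm_le φ hφ, L, h1, h1, h2⟩

theorem SSA.isN_n2 (S : SSA D) (hτ : IsTracialState τ) : IsN S τ (n2 τ) := by
  obtain ⟨L, h1, h2⟩ := S.slice τ hτ.1
  have hU := S.trUniq hτ
  have h3 : ∀ (p : D →⋆ₐ[ℂ] D) x, n2 τ (p x) = n2 τ x := fun p x => by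
    unfold n2
    rw [← map_star, ← map_mul, hU.tr_hom hτ]
  refine ⟨n2_add_le τ, n2_smul τ, n2_mul_le_left τ, n2_star hτ, n2_le_norm hτ, h3, hτ.1,
    norm_tr_le_n2 hτ, L, h1, fun x => ?_, h2⟩
  have h4 : ∀ z, τ (L z) = τ z := tens_induct S.dense (isClosed_eq ((tr_continuous τ).comp
    L.continuous) (tr_continuous τ)) (by simp) (fun z w h1 h2 => by simp only [map_add, h1, h2])
    (fun c z h1 => by simp only [map_smul, h1]) fun a b => by
      rw [h2, map_smul, S.comm, hU.tr_mul τ hτ.2 S.be (S.comm a), hU.tr_hom hτ, smul_eq_mul]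
  have h5 := S.slice_mul h2 (star (L x)) x 1
  rw [map_one, mul_one, mul_one] at h5
  have h6 := norm_tr_mul_le τ (S.al (L x)) x
  rw [← map_star, ← h4, h5, h3] at h6
  have h7 := n2_sq τ (L x)
  nlinarith [Complex.re_le_norm (τ (star (L x) * L x)), n2_nonneg τ x, n2_nonneg τ (L x)]

theorem CN.prod {N : D → ℝ} {ι₁ ι₂ : D →⋆ₐ[ℂ] D} (hc : ∀ x y, Commute (ι₁ x) (ι₂ y))
    (hd : Dense (Submodule.span ℂ {z : D | ∃ x y, z = ι₁ x * ι₂ y} : Set D))
    (hN : ∀ x, N (ι₁ x) = N x) {θ θ' : D ≃⋆ₐ[ℂ] D} (he : ∀ x, ι₁ (θ x) = θ' (ι₁ x))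
    (h : CN N θ) : CN N θ' := by
  classical
  obtain ⟨δ, hδ, h⟩ := h
  refine ⟨δ, hδ, fun s ε hε => ?_⟩
  choose n a b h1 using fun z => tens_near hd z (show 0 < ε / 4 by positivity)
  have h0 : ∀ z, 0 ≤ ∑ i, ‖b z i‖ := fun z => Finset.sum_nonneg fun _ _ => norm_nonneg _
  have h0' : 0 ≤ ∑ z ∈ s, ∑ i, ‖b z i‖ := Finset.sum_nonneg fun z _ => h0 z
  obtain ⟨y, h2, h3, h4⟩ := h (s.biUnion fun z => Finset.univ.image (a z))
    (ε / 2 / (∑ z ∈ s, ∑ i, ‖b z i‖ + 1)) (by positivity)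
  have h5 : ‖ι₁ y‖ ≤ 1 := (NonUnitalStarAlgHom.norm_apply_le ι₁ y).trans h2
  refine ⟨ι₁ y, h5, fun z hz => ?_, by rwa [← he, ← map_sub, hN]⟩
  have h6 : ‖∑ i, ι₁ (y * a z i - a z i * y) * ι₂ (b z i)‖ ≤ ε / 2 := by
    refine ((norm_sum_le _ _).trans (Finset.sum_le_sum fun i _ => (norm_mul_le _ _).trans
      (mul_le_mul ((NonUnitalStarAlgHom.norm_apply_le ι₁ _).trans (h3 _ (Finset.mem_biUnion.2
        ⟨z, hz, Finset.mem_image_of_mem _ (Finset.mem_univ i)⟩)))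
        (NonUnitalStarAlgHom.norm_apply_le ι₂ _) (norm_nonneg _) (by positivity)))).trans ?_
    rw [← Finset.mul_sum, div_mul_eq_mul_div, div_le_iff₀ (by positivity)]
    have := Finset.single_le_sum (fun z _ => h0 z) hz
    nlinarith
  have h7 := h1 z
  have h8 : ι₁ y * ∑ i, ι₁ (a z i) * ι₂ (b z i) - (∑ i, ι₁ (a z i) * ι₂ (b z i)) * ι₁ y =
      ∑ i, ι₁ (y * a z i - a z i * y) * ι₂ (b z i) := by
    rw [Finset.mul_sum, Finset.sum_mul, ← Finset.sum_sub_distrib]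
    refine Finset.sum_congr rfl fun i _ => ?_
    rw [map_sub, map_mul, map_mul, sub_mul, mul_assoc (ι₁ (a z i)), ← hc, mul_assoc, mul_assoc]
  rw [← h8] at h6
  generalize ∑ i, ι₁ (a z i) * ι₂ (b z i) = w at *
  rw [show ι₁ y * z - z * ι₁ y = ι₁ y * w - w * ι₁ y + (ι₁ y * (z - w) - (z - w) * ι₁ y) by
    simp only [mul_sub, sub_mul]; abel]
  nlinarith [norm_add_le (ι₁ y * w - w * ι₁ y) (ι₁ y * (z - w) - (z - w) * ι₁ y),
    norm_sub_le (ι₁ y * (z - w)) ((z - w) * ι₁ y), norm_mul_le (ι₁ y) (z - w),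
    norm_mul_le (z - w) (ι₁ y), norm_nonneg (z - w)]

end Pool.Agent.Izumi
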