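import Pool.Agent.Lib.MP_b2135d_an.YA
import Pool.Agent.Lib.MP_b2135d_an.YJ
import Pool.Agent.Lib.MP_b2135d_an.SC

/-! Elements with almost orthogonal translates (PLAN section YT4). -/

namespace Pool.Agent.Izumi

open scoped ComplexOrder
open Filter Topology

variable {G D A : Type} [Group G] [Countable G] [CStarAlgebra D] [PartialOrder D] [CStarAlgebra A]
  [PartialOrder A] [StarOrderedRing A]

omit [Countable G] in
theorem TSys.yt4_tp_act (X : TSys G D A) {p : A} (hp : TP X.τ p) (h : G) : TP X.τ (X.γ h p) :=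
  hp.aut (X.γ h) (X.inv h)

omit [Countable G] in
theorem TSys.yt4_ov_nonneg (X : TSys G D A) {p : A} (hp : TP X.τ p) (h : G) :
    0 ≤ (X.τ (p * X.γ h p)).re :=
  tr_mul_nonneg X.tr hp.nonneg (X.yt4_tp_act hp h).nonneg

omit [Countable G] in
theorem TSys.yt4_ov_le (X : TSys G D A) {p : A} (hp : TP X.τ p) (h : G) :
    (X.τ (p * X.γ h p)).re ≤ (X.τ p).re :=
  tr_mul_le X.tr hp.nonneg (X.yt4_tp_act hp h).le_one

theorem TSys.yt4_prod (X : TSys G D A) {p p' : A} (hF : p ∈ X.F) (hF' : p' ∈ X.F)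
    (hp : TP X.τ p) (hp' : TP X.τ p') :
    ∃ q ∈ X.F, TP X.τ q ∧ (X.τ q).re = (X.τ p).re * (X.τ p').re ∧
      ∀ h, (X.τ (q * X.γ h q)).re = (X.τ (p * X.γ h p)).re * (X.τ (p' * X.γ h p')).re := by
  obtain ⟨𝒮, Ψ, hS, hc⟩ := X.ic {p'} (insert p (Set.range fun h => p * X.γ h p))
    (Set.countable_singleton _) ((Set.countable_range _).insert _) (Set.singleton_subset_iff.2 hF')
  have h1 : p' ∈ 𝒮 := hS rfl
  have h2 : ∀ h, Commute (Ψ p') (X.γ h p) := fun h => by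
    simpa only [act_one] using X.commute_of_FT (hc.mem p' h1) (Set.mem_insert _ _) 1 h
  have h3 : Commute p (Ψ p') := by simpa only [act_one] using (h2 1).symm
  have h5 : 0 ≤ Ψ p' := hc.nonneg h1 hp'.nonneg
  have h6 : Ψ p' ≤ 1 := by
    have := hc.le h1 (one_mem _) hp'.le_one
    rwa [hc.map_one] at this
  have h7 := mul_between hp.nonneg hp.le_one h5 h6 h3
  have h8 : Ψ p' * Ψ p' - Ψ p' ∈ Jd X.τ := by
    rw [← hc.map_mul _ h1 _ h1, ← map_sub, mem_Jd, hc.n2_eq (sub_mem (mul_mem h1 h1) h1)]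
    exact hp'.idem
  have h9 : p * Ψ p' * (p * Ψ p') = p * p * (Ψ p' * Ψ p') := by
    rw [mul_assoc, ← mul_assoc (Ψ p'), ← h3.eq, mul_assoc, mul_assoc]
  refine ⟨p * Ψ p', mul_mem hF (X.FT_le_F _ (hc.mem p' h1)), ⟨h7.1, h7.2.2.2, ?_⟩, ?_,
    fun h => ?_⟩
  · rw [h9]
    exact Jd_mul_sub X.tr hp.idem h8
  · rw [hc.indep p (Set.mem_insert _ _) p' h1, Complex.mul_re,
      tr_im_of_sa _ hp.nonneg.isSelfAdjoint, zero_mul, sub_zero]
  · have h4 : p * Ψ p' * X.γ h (p * Ψ p') = p * X.γ h p * Ψ (p' * X.γ h p') := by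
      rw [map_mul, hc.map_mul _ h1 _ (hc.act_mem h _ h1), hc.map_act h _ h1, mul_assoc, mul_assoc,
        ← mul_assoc (Ψ p'), (h2 h).eq, mul_assoc]
    rw [h4, hc.indep _ (Set.mem_insert_of_mem _ ⟨h, rfl⟩) _ (mul_mem h1 (hc.act_mem h _ h1)),
      Complex.mul_re, tr_mul_im X.tr hp.nonneg.isSelfAdjoint
        (X.yt4_tp_act hp h).nonneg.isSelfAdjoint, zero_mul, sub_zero]

theorem TSys.yt4_small_one (X : TSys G D A) {h : G} (h1 : h ≠ 1) {δ : ℝ} (hδ : 0 < δ) :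
    ∃ p ∈ X.F, TP X.τ p ∧ 0 < (X.τ p).re ∧ (X.τ (p * X.γ h p)).re ≤ δ * (X.τ p).re := by
  obtain ⟨p₀, hF, hp, hlt⟩ := X.free h h1
  have h0 := X.yt4_ov_nonneg hp h
  have ht : 0 < (X.τ p₀).re := h0.trans_lt hlt
  set c := (X.τ (p₀ * X.γ h p₀)).re / (X.τ p₀).re with hc
  have key : ∀ n : ℕ, ∃ p ∈ X.F, TP X.τ p ∧ 0 < (X.τ p).re ∧
      (X.τ (p * X.γ h p)).re ≤ c ^ n * (X.τ p).re := by
    intro n
    induction n with
    | zero => exact ⟨p₀, hF, hp, ht, by simpa using hlt.le⟩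
    | succ n ih =>
      obtain ⟨p, h2, h3, h4, h5⟩ := ih
      obtain ⟨q, h6, h7, h8, h9⟩ := X.yt4_prod h2 hF h3 hp
      refine ⟨q, h6, h7, h8 ▸ mul_pos h4 ht, ?_⟩
      rw [h9, h8]
      refine (mul_le_mul_of_nonneg_right h5 h0).trans (le_of_eq ?_)
      rw [pow_succ, hc]
      field_simp
  obtain ⟨n, hn⟩ := exists_pow_lt_of_lt_one hδ ((div_lt_one ht).2 hlt)
  obtain ⟨p, h2, h3, h4, h5⟩ := key n
  exact ⟨p, h2, h3, h4, h5.trans (mul_le_mul_of_nonneg_right hn.le h4.le)⟩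

omit [Countable G] in
theorem yt4_sq_le {x : A} (h0 : 0 ≤ x) (h1 : x ≤ 1) : x * x ≤ x :=
  (mul_between h0 h1 h0 h1 (Commute.refl x)).2.1

theorem TSys.small_overlap (X : TSys G D A) (L : Finset G) (h1 : (1 : G) ∉ L) {δ : ℝ}
    (hδ : 0 < δ) : ∃ p ∈ X.F, TP X.τ p ∧ 0 < (X.τ p).re ∧
      ∀ h ∈ L, (X.τ (p * X.γ h p)).re ≤ δ * (X.τ p).re := by
  classical
  induction L using Finset.induction_on with
  | empty =>
    exact ⟨1, one_mem _, ⟨zero_le_one, le_rfl, by rw [mul_one, sub_self]; exact zero_mem _⟩,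
      by simp [X.tr.1], by simp⟩
  | insert g L _ ih =>
    obtain ⟨p, h2, h3, h4, h5⟩ := ih fun h => h1 (Finset.mem_insert_of_mem h)
    obtain ⟨p', h2', h3', h4', h5'⟩ :=
      X.yt4_small_one (h := g) (fun h => h1 (h ▸ Finset.mem_insert_self _ _)) hδ
    obtain ⟨q, h6, h7, h8, h9⟩ := X.yt4_prod h2 h2' h3 h3'
    refine ⟨q, h6, h7, h8 ▸ mul_pos h4 h4', fun h hh => ?_⟩
    rw [h9, h8]
    rcases Finset.mem_insert.1 hh with rfl | hh
    · rw [mul_left_comm]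
      exact mul_le_mul (X.yt4_ov_le h3 h) h5' (X.yt4_ov_nonneg h3' h) h4.le
    · rw [← mul_assoc]
      exact mul_le_mul (h5 h hh) (X.yt4_ov_le h3' h) (X.yt4_ov_nonneg h3' h) (by positivity)

theorem yt4_exists_cut {y : A} (hy : 0 ≤ y) {η : ℝ} (hη : 0 < η) :
    ∃ f : A, 0 ≤ f ∧ f ≤ 1 ∧ (∀ t, Commute y t → Commute f t) ∧ ‖f * y * f‖ ≤ η ∧
      1 - (2 / η) • y ≤ f * f := by
  have hs : ∀ t ∈ spectrum ℝ y, 0 ≤ t := fun t ht => spectrum_nonneg_of_nonneg hy ht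
  have hsa : IsSelfAdjoint y := hy.isSelfAdjoint
  refine ⟨cfc (fun t : ℝ => max 0 (1 - t / η)) y, cfc_nonneg fun t _ => le_max_left _ _,
    cfc_le_one _ _ fun t ht => max_le zero_le_one (sub_le_self _ (div_nonneg (hs t ht) hη.le)),
    fun t ht => ht.cfc_real _, ?_, ?_⟩
  · have h1 : cfc (fun t : ℝ => max 0 (1 - t / η) * t * max 0 (1 - t / η)) y =
        cfc (fun t : ℝ => max 0 (1 - t / η)) y * y * cfc (fun t : ℝ => max 0 (1 - t / η)) y := by
      rw [cfc_mul _ _ y, cfc_mul _ _ y, cfc_id' ℝ y]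
    rw [← h1]
    refine norm_cfc_le hη.le fun t ht => ?_
    have h2 := hs t ht
    rcases le_total 0 (1 - t / η) with h3 | h3
    · have h4 : 0 ≤ t / η := by positivity
      have h5 : t ≤ η := (div_le_one hη).1 (by linarith)
      rw [max_eq_right h3, Real.norm_of_nonneg (by positivity)]
      calc (1 - t / η) * t * (1 - t / η) ≤ 1 * η * 1 := by gcongr <;> linarith
        _ = η := by ring
    · simp [max_eq_left h3, hη.le]
  · have h1 : cfc (fun t : ℝ => 1 - (2 / η) * t) y = 1 - (2 / η) • y := by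
      rw [cfc_sub _ _ y, cfc_const_one ℝ y, cfc_const_mul_id _ y]
    rw [← h1, ← cfc_mul _ _ y]
    refine cfc_mono fun t _ => ?_
    have h2 : 2 / η * t = 2 * (t / η) := by ring
    rw [h2]
    rcases le_total 0 (1 - t / η) with h3 | h3
    · rw [max_eq_right h3]
      nlinarith [sq_nonneg (t / η)]
    · rw [max_eq_left h3]
      linarith

theorem TSys.almost_orth (X : TSys G D A) (L : Finset G) (h1 : (1 : G) ∉ L) {δ ε : ℝ}
    (hδ : 0 < δ) (hε : 0 < ε) : ∃ r ∈ X.F, 0 ≤ r ∧ r ≤ 1 ∧ (∀ h ∈ L, ‖r * X.γ h r‖ ≤ ε) ∧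
      ∃ a : ℝ, 0 < a ∧ (X.τ r).re ≤ a ∧ (1 - δ) * a ≤ (X.τ (r * r)).re := by
  obtain ⟨q, hF, hq, h0, hov⟩ := X.small_overlap L h1
    (δ := δ * ε ^ 2 / (4 * (L.card + 1))) (by positivity)
  have hqs : star q = q := hq.nonneg.isSelfAdjoint.star_eq
  have hq1 : ‖q‖ ≤ 1 := (CStarAlgebra.norm_le_one_iff_of_nonneg q hq.nonneg).2 hq.le_one
  have hle : ∀ h, 0 ≤ q * X.γ h q * q := fun h => by
    simpa only [hqs] using star_left_conjugate_nonneg (X.yt4_tp_act hq h).nonneg q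
  set y := ∑ h ∈ L, q * X.γ h q * q with hy
  have hy0 : 0 ≤ y := Finset.sum_nonneg fun h _ => hle h
  have hyF : y ∈ X.F := sum_mem fun h _ => mul_mem (mul_mem hF (X.act_mem_F h hF)) hF
  obtain ⟨f, f0, f1, fc, fn, fl⟩ := yt4_exists_cut (y := y) hy0 (pow_pos hε 2)
  have hfs : star f = f := f0.isSelfAdjoint.star_eq
  have hfF : f ∈ X.F := mem_cent.2 fun t ht =>
    ⟨fc _ (mem_cent.1 hyF t ht).1, fc _ (mem_cent.1 hyF t ht).2⟩
  have hf1 : ‖f‖ ≤ 1 := (CStarAlgebra.norm_le_one_iff_of_nonneg f f0).2 f1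
  have hfq1 : ‖f * q‖ ≤ 1 := (norm_mul_le _ _).trans (mul_le_one₀ hf1 (norm_nonneg _) hq1)
  have hqf1 : ‖q * f‖ ≤ 1 := (norm_mul_le _ _).trans (mul_le_one₀ hq1 (norm_nonneg _) hf1)
  have hff1 : f * f ≤ 1 := (yt4_sq_le f0 f1).trans f1
  have hqq0 : 0 ≤ q * q := by simpa only [hqs] using star_mul_self_nonneg q
  have r0 : 0 ≤ q * f * (f * q) := by
    simpa only [star_mul, hqs, hfs] using star_mul_self_nonneg (f * q)
  refine ⟨q * f * (f * q), mul_mem (mul_mem hF hfF) (mul_mem hfF hF), r0, ?_, fun h hh => ?_,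
    (X.τ q).re, h0, ?_, ?_⟩
  · refine (CStarAlgebra.norm_le_one_iff_of_nonneg _ r0).1 ((norm_mul_le _ _).trans ?_)
    exact mul_le_one₀ hqf1 (norm_nonneg _) hfq1
  · have hh0 := (X.yt4_tp_act hq h).nonneg
    have hh2 : X.γ h q * X.γ h q ≤ X.γ h q := yt4_sq_le hh0 (X.yt4_tp_act hq h).le_one
    have h2 : ‖f * q * X.γ h q‖ * ‖f * q * X.γ h q‖ ≤ ε ^ 2 := by
      rw [← CStarRing.norm_self_mul_star]
      refine (CStarAlgebra.norm_le_norm_of_nonneg_of_le (mul_star_self_nonneg _) ?_).trans fn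
      have h3 : f * q * X.γ h q * star (f * q * X.γ h q) =
          star (q * f) * (X.γ h q * X.γ h q) * (q * f) := by
        simp only [star_mul, hqs, hfs, hh0.isSelfAdjoint.star_eq, mul_assoc]
      have h4 : star (q * f) * X.γ h q * (q * f) = star f * (q * X.γ h q * q) * f := by
        simp only [star_mul, hqs, hfs, mul_assoc]
      rw [h3]
      refine (star_left_conjugate_le_conjugate hh2 (q * f)).trans ?_
      rw [h4]
      refine (star_left_conjugate_le_conjugate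
        (Finset.single_le_sum (fun h _ => hle h) hh) f).trans_eq ?_
      rw [hfs]
    have h3 : ‖f * q * X.γ h q‖ ≤ ε := by nlinarith [norm_nonneg (f * q * X.γ h q)]
    have h4 : q * f * (f * q) * X.γ h (q * f * (f * q)) =
        q * f * (f * q * X.γ h q * X.γ h (f * (f * q))) := by
      simp only [map_mul, mul_assoc]
    have h5 : ‖X.γ h (f * (f * q))‖ ≤ 1 := by
      rw [norm_act]
      exact (norm_mul_le _ _).trans (mul_le_one₀ hf1 (norm_nonneg _) hfq1)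
    rw [h4]
    refine (norm_mul_le _ _).trans ((mul_le_of_le_one_left (norm_nonneg _) hqf1).trans ?_)
    exact (norm_mul_le _ _).trans ((mul_le_mul h3 h5 (norm_nonneg _) hε.le).trans_eq (mul_one _))
  · have h2 : X.τ (q * f * (f * q)) = X.τ (q * q * (f * f)) := by
      rw [← mul_assoc, X.tr.2]
      simp only [mul_assoc]
    rw [h2, ← hq.tr_sq X.tr]
    exact tr_mul_le X.tr hqq0 hff1
  · set r := q * f * (f * q) with hr
    have h2 : X.τ (q * r) = X.τ (q * (f * f)) := by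
      have h3 : X.τ (q * r) = X.τ (q ^ (2 + 1) * (f * f)) := by
        rw [hr, ← mul_assoc, ← mul_assoc, X.tr.2]
        simp only [pow_succ, pow_zero, one_mul, mul_assoc]
      rw [h3]
      refine tr_eq_of_Jd X.tr ?_
      rw [← sub_mul]
      exact Jd_mul_right X.tr _ (hq.pow_sub X.tr 2)
    have h3 := tr_mul_nonneg X.tr hq.nonneg (sub_nonneg.2 fl)
    have h4 : (X.τ y).re ≤ L.card * (δ * ε ^ 2 / (4 * (L.card + 1)) * (X.τ q).re) := by
      rw [hy, map_sum, Complex.re_sum, ← nsmul_eq_mul]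
      refine Finset.sum_le_card_nsmul _ _ _ fun h hh => ?_
      have h5 : X.τ (q * X.γ h q * q) = X.τ (q * X.γ h q) := by
        rw [X.tr.2, ← mul_assoc]
        refine tr_eq_of_Jd X.tr ?_
        rw [← sub_mul]
        exact Jd_mul_right X.tr _ hq.idem
      rw [h5]
      exact hov h hh
    have h7 : (X.τ (q * y)).re ≤ (X.τ y).re := by
      rw [X.tr.2]
      exact tr_mul_le X.tr hy0 hq.le_one
    have h5 : 2 / ε ^ 2 * (X.τ (q * y)).re ≤ δ / 2 * (X.τ q).re := by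
      refine (mul_le_mul_of_nonneg_left (h7.trans h4) (by positivity)).trans ?_
      have h6 : 2 / ε ^ 2 * (L.card * (δ * ε ^ 2 / (4 * (L.card + 1)) * (X.τ q).re)) =
          L.card / (L.card + 1) * (δ / 2 * (X.τ q).re) := by
        field_simp
        ring
      rw [h6]
      exact mul_le_of_le_one_left (by positivity) ((div_le_one (by positivity)).2 (by linarith))
    rw [mul_sub, mul_sub, mul_one, mul_smul_comm, map_sub, map_sub, ← Complex.coe_smul,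
      map_smul, smul_eq_mul, Complex.sub_re, Complex.sub_re, Complex.re_ofReal_mul] at h3
    have h8 := tr_re_nonneg X.τ (star_mul_self_nonneg (q - r))
    rw [star_sub, hqs, r0.isSelfAdjoint.star_eq, sub_mul, mul_sub, mul_sub, map_sub, map_sub,
      map_sub, X.tr.2 r q, h2, hq.tr_sq X.tr, Complex.sub_re, Complex.sub_re,
      Complex.sub_re] at h8
    linarith

theorem TSys.orth_elt (X : TSys G D A) (Λ : Finset G) {δ : ℝ} (hδ : 0 < δ) :
    ∃ r ∈ X.F, 0 ≤ r ∧ r ≤ 1 ∧ ∑ l ∈ Λ, X.γ l r ≤ 1 ∧ 0 < (X.τ r).re ∧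
      (1 - δ) * (X.τ r).re ≤ (X.τ (r * r)).re := by
  classical
  wlog hδ1 : δ ≤ 1 generalizing δ
  · obtain ⟨r, h1, h2, h3, h4, h5, h6⟩ := this one_pos le_rfl
    exact ⟨r, h1, h2, h3, h4, h5, (mul_le_mul_of_nonneg_right (by linarith) h5.le).trans h6⟩
  obtain ⟨r, hF, r0, r1, hr, a, ha, h1, h2⟩ := X.almost_orth
    (((Λ ×ˢ Λ).image fun x => x.1⁻¹ * x.2).erase 1) (Finset.notMem_erase _ _) (half_pos hδ)
    (ε := δ / 2 / (Λ.card ^ 2 + 1)) (by positivity)
  have hc : 0 < 1 - δ / 2 := by linarith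
  have hl0 : ∀ l, 0 ≤ X.γ l r := fun l => map_nonneg (X.γ l) r0
  have hl1 : ∀ l, X.γ l r ≤ 1 := fun l => by
    simpa only [map_one] using OrderHomClass.mono (X.γ l) r1
  have h3 := near_orth Λ (fun l => X.γ l r) (fun l _ => hl0 l) (fun l _ => hl1 l)
    (ε := δ / 2 / (Λ.card ^ 2 + 1)) (by positivity) fun l hl l' hl' hne => by
      have h3 := hr (l⁻¹ * l') (Finset.mem_erase.2 ⟨fun h => hne (inv_mul_eq_one.1 h),
        Finset.mem_image.2 ⟨(l, l'), Finset.mem_product.2 ⟨hl, hl'⟩, rfl⟩⟩)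
      rwa [← norm_act X.γ l, map_mul, act_act, mul_inv_cancel_left] at h3
  have h4 : (Λ.card : ℝ) ^ 2 * (δ / 2 / (Λ.card ^ 2 + 1)) ≤ δ / 2 := by
    rw [mul_div_assoc', div_le_iff₀ (by positivity)]
    nlinarith
  have h5 : ∀ x, (X.τ ((1 - δ / 2) • x)).re = (1 - δ / 2) * (X.τ x).re := fun x => by
    rw [← Complex.coe_smul, map_smul, smul_eq_mul, Complex.re_ofReal_mul]
  have h6 := tr_mul_le X.tr r0 r1
  have h7 : 0 < (X.τ r).re := ((mul_pos hc ha).trans_le h2).trans_le h6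
  refine ⟨(1 - δ / 2) • r, ?_, smul_nonneg hc.le r0, ?_, ?_, ?_, ?_⟩
  · rw [← Complex.coe_smul]
    exact SMulMemClass.smul_mem _ hF
  · exact (smul_le_of_le_one_left r0 (by linarith)).trans r1
  · have h8 : ∑ l ∈ Λ, X.γ l ((1 - δ / 2) • r) = (1 - δ / 2) • ∑ l ∈ Λ, X.γ l r := by
      simp only [← Complex.coe_smul, map_smul, Finset.smul_sum]
    rw [h8, ← CStarAlgebra.norm_le_one_iff_of_nonneg _
      (smul_nonneg hc.le (Finset.sum_nonneg fun l _ => hl0 l)), norm_smul, Real.norm_of_nonneg hc.le]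
    nlinarith
  · rw [h5]
    positivity
  · rw [smul_mul_smul_comm, mul_smul, h5, h5, h5, mul_left_comm]
    refine mul_le_mul_of_nonneg_left ?_ hc.le
    calc (1 - δ) * (X.τ r).re ≤ (1 - δ) * a := mul_le_mul_of_nonneg_left h1 (by linarith)
      _ ≤ (1 - δ / 2) * ((1 - δ / 2) * a) := by nlinarith [mul_nonneg (sq_nonneg δ) ha.le]
      _ ≤ _ := mul_le_mul_of_nonneg_left h2 hc.le

end Pool.Agent.Izumi
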