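import Pool.Agent.Lib.MP_b2135d_an.YT4

/-! Filling (PLAN section YT5). -/

namespace Pool.Agent.Izumi

open scoped ComplexOrder
open Filter Topology

section Aux

variable {A : Type} [CStarAlgebra A] [PartialOrder A] [StarOrderedRing A] {τ : A →ₚ[ℂ] ℂ}

theorem yt5_mono (h : IsTracialState τ) {a b c : A} (ha : 0 ≤ a) (hbc : b ≤ c) :
    (τ (a * b)).re ≤ (τ (a * c)).re := by
  have h1 := tr_mul_nonneg h ha (sub_nonneg.2 hbc)
  rw [mul_sub, map_sub, Complex.sub_re] at h1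
  linarith

theorem yt5_aut_nonneg (θ : A ≃⋆ₐ[ℂ] A) {x : A} (hx : 0 ≤ x) : 0 ≤ θ x := by
  have h1 : θ 0 ≤ θ x := OrderHomClass.mono θ hx
  rwa [map_zero] at h1

theorem yt5_aut_mono (θ : A ≃⋆ₐ[ℂ] A) {x y : A} (hx : x ≤ y) : θ x ≤ θ y :=
  OrderHomClass.mono θ hx

theorem yt5_drop (h : IsTracialState τ) {a b c d : A} (ha : 0 ≤ a) (hb : 0 ≤ b) (hc : 0 ≤ c)
    (hd : 0 ≤ d) : (τ (a * c)).re + (τ (b * d)).re ≤ (τ ((a + b) * (c + d))).re := by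
  have h1 := tr_mul_nonneg h ha hd
  have h2 := tr_mul_nonneg h hb hc
  have e : (a + b) * (c + d) = a * c + b * d + (a * d + b * c) := by noncomm_ring
  rw [e, map_add, map_add, map_add, Complex.add_re, Complex.add_re, Complex.add_re]
  linarith

end Aux

theorem yt5_ncard {G : Type} [Group G] [DecidableEq G] (Λ : Finset G) (l : G) :
    Set.ncard {x | x ∈ Λ ∧ l⁻¹ * x ∈ Λ} = (Λ.filter fun x => l⁻¹ * x ∈ Λ).card := by
  have e2 : {x | x ∈ Λ ∧ l⁻¹ * x ∈ Λ} = ((Λ.filter fun x => l⁻¹ * x ∈ Λ : Finset G) : Set G) := by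
    ext x; simp
  rw [e2, Set.ncard_coe_finset]

theorem yt5_arith {i d δ g : ℝ} (hi0 : 0 ≤ i) (hi1 : i ≤ 1) (hd0 : 0 ≤ d) (hd1 : d ≤ 1)
    (hd4 : d ≤ δ / 4) (hg : g ≤ 2 * i - 1 - δ) :
    δ / 2 ≤ (1 - d) * i - (2 - (1 - d) * i) * g := by
  have hx0 : 0 ≤ (1 - d) * i := mul_nonneg (by linarith) hi0
  have hdi : d * i ≤ d := by nlinarith
  have hdi0 : 0 ≤ d * i := mul_nonneg hd0 hi0
  obtain ⟨x, hx⟩ : ∃ x, (1 - d) * i = x := ⟨_, rfl⟩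
  have hxi : x = i - d * i := by rw [← hx]; ring
  rw [hx] at hx0 ⊢
  have hx1 : x ≤ 1 := by linarith
  have hg2 : g ≤ 2 * x - 1 - δ / 2 := by linarith
  have h2 : (2 - x) * g ≤ (2 - x) * (2 * x - 1 - δ / 2) :=
    mul_le_mul_of_nonneg_left hg2 (by linarith)
  have h3 : δ / 2 ≤ (2 - x) * (δ / 2) := by nlinarith
  nlinarith [sq_nonneg (1 - x)]

variable {G D A : Type} [Group G] [Countable G] [CStarAlgebra D] [PartialOrder D] [CStarAlgebra A]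
  [PartialOrder A] [StarOrderedRing A]

theorem TSys.fill_step (X : TSys G D A) (L Λ : Finset G) {r : A} (hrF : r ∈ X.F) (hr : 0 ≤ r)
    (hsum : ∑ k ∈ Λ, X.γ k r ≤ 1) (p g : G → ℝ) (hg : ∀ l ∈ L, 0 ≤ g l)
    (hp : ∀ l ∈ L, p l ≤ (Set.ncard {x | x ∈ Λ ∧ l⁻¹ * x ∈ Λ} : ℝ) * (X.τ (r * r)).re)
    (E : G → A) (hE : ∀ y, E y ∈ X.F ∧ 0 ≤ E y) (hE0 : ∀ y, y ∉ Λ → E y = 0)
    (hE1 : ∑ y ∈ Λ, E y ≤ 1)
    (hG : ∀ l ∈ L, g l ≤ ∑ y ∈ Λ, (X.τ (E y * X.γ l (E (l⁻¹ * y)))).re) :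
    ∃ E' : G → A, (∀ y, E' y ∈ X.F ∧ 0 ≤ E' y) ∧ (∀ y, y ∉ Λ → E' y = 0) ∧ ∑ y ∈ Λ, E' y ≤ 1 ∧
      ∀ l ∈ L, p l + (1 - 2 * (Λ.card * (X.τ r).re) + p l) * g l ≤
        ∑ y ∈ Λ, (X.τ (E' y * X.γ l (E' (l⁻¹ * y)))).re := by
  classical
  obtain ⟨W, hW⟩ : ∃ W : G → A, W = fun y => if y ∈ Λ then X.γ y r else 0 := ⟨_, rfl⟩
  have hWin : ∀ y ∈ Λ, W y = X.γ y r := fun y hy => by rw [hW]; exact if_pos hy
  have hWout : ∀ y, y ∉ Λ → W y = 0 := fun y hy => by rw [hW]; exact if_neg hy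
  have hW0 : ∀ y, 0 ≤ W y := fun y => by
    by_cases hy : y ∈ Λ
    · rw [hWin y hy]; exact yt5_aut_nonneg _ hr
    · rw [hWout y hy]
  have hWF : ∀ y, W y ∈ X.F := fun y => by
    by_cases hy : y ∈ Λ
    · rw [hWin y hy]; exact X.toBSys.act_mem_F _ hrF
    · rw [hWout y hy]; exact zero_mem _
  obtain ⟨T, hT⟩ : ∃ T : A, T = ∑ k ∈ Λ, X.γ k r := ⟨_, rfl⟩
  have hWT : ∑ y ∈ Λ, W y = T := by
    rw [hT]; exact Finset.sum_congr rfl hWin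
  obtain ⟨U, hU⟩ : ∃ U : A, U = 1 - T := ⟨_, rfl⟩
  have hU0 : 0 ≤ U := by rw [hU, hT]; exact sub_nonneg.2 hsum
  have hT0 : 0 ≤ T := by rw [← hWT]; exact Finset.sum_nonneg fun y _ => hW0 y
  have hTF : T ∈ X.F := by rw [← hWT]; exact sum_mem fun y _ => hWF y
  have hUF : U ∈ X.F := by rw [hU]; exact sub_mem (one_mem _) hTF
  have hWle : ∀ y, W y ≤ T := fun y => by
    by_cases hy : y ∈ Λ
    · rw [← hWT]; exact Finset.single_le_sum (f := W) (fun y _ => hW0 y) hy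
    · rw [hWout y hy]; exact hT0
  obtain ⟨𝒮, Ψ, hS, hc⟩ := X.ic (Set.range E)
    (insert U ((fun l : G => U * X.γ l U) '' (L : Set G))) (Set.countable_range E)
    (((L.countable_toSet).image _).insert U) (by rintro _ ⟨y, rfl⟩; exact (hE y).1)
  have hES : ∀ y, E y ∈ 𝒮 := fun y => hS ⟨y, rfl⟩
  have hcomm : ∀ x ∈ 𝒮, ∀ h : G, Commute (Ψ x) (X.γ h U) := by
    intro x hx h
    have := X.toBSys.commute_of_FT (hc.mem x hx) (Set.mem_insert U _) 1 h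
    rwa [act_one] at this
  have hcomm1 : ∀ x ∈ 𝒮, Commute U (Ψ x) := by
    intro x hx
    have := hcomm x hx 1
    rw [act_one] at this
    exact this.symm
  have ha0 : ∀ y, 0 ≤ U * Ψ (E y) := fun y =>
    Commute.mul_nonneg hU0 (hc.nonneg (hES y) (hE y).2) (hcomm1 _ (hES y))
  refine ⟨fun y => W y + U * Ψ (E y), fun y => ⟨?_, ?_⟩, fun y hy => ?_, ?_, ?_⟩
  · exact add_mem (hWF y) (mul_mem hUF (X.toBSys.FT_le_F _ (hc.mem _ (hES y))))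
  · exact add_nonneg (hW0 y) (ha0 y)
  · change W y + U * Ψ (E y) = 0
    rw [hWout y hy, hE0 y hy, map_zero, mul_zero, add_zero]
  · rw [Finset.sum_add_distrib, hWT, ← Finset.mul_sum, ← map_sum]
    have hm : (1 - ∑ y ∈ Λ, E y) ∈ 𝒮 := sub_mem (one_mem _) (sum_mem fun y _ => hES y)
    have h1 := Commute.mul_nonneg hU0 (hc.nonneg hm (sub_nonneg.2 hE1)) (hcomm1 _ hm)
    rw [map_sub, hc.map_one, mul_sub, mul_one, sub_nonneg] at h1
    calc T + U * Ψ (∑ y ∈ Λ, E y) ≤ T + U := by gcongr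
      _ = 1 := by rw [hU]; abel
  · intro l hl
    obtain ⟨P, hP⟩ : ∃ P : ℝ, P = ∑ y ∈ Λ, (X.τ (W y * X.γ l (W (l⁻¹ * y)))).re := ⟨_, rfl⟩
    obtain ⟨κ, hκ⟩ : ∃ κ : ℝ, κ = (X.τ (U * X.γ l U)).re := ⟨_, rfl⟩
    have hpP : p l ≤ P := by
      refine (hp l hl).trans ?_
      rw [yt5_ncard, hP]
      calc ((Λ.filter fun x => l⁻¹ * x ∈ Λ).card : ℝ) * (X.τ (r * r)).re
          = ∑ _k ∈ Λ with l⁻¹ * _k ∈ Λ, (X.τ (r * r)).re := by
            rw [Finset.sum_const, nsmul_eq_mul]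
        _ = ∑ y ∈ Λ with l⁻¹ * y ∈ Λ, (X.τ (W y * X.γ l (W (l⁻¹ * y)))).re := by
            refine Finset.sum_congr rfl fun y hy => ?_
            obtain ⟨h1, h2⟩ := Finset.mem_filter.1 hy
            rw [hWin y h1, hWin _ h2, act_act, mul_inv_cancel_left, ← map_mul, X.inv]
        _ ≤ _ := by
            refine Finset.sum_le_sum_of_subset_of_nonneg (Finset.filter_subset _ _)
              fun y _ _ => ?_
            exact tr_mul_nonneg X.tr (hW0 y) (yt5_aut_nonneg _ (hW0 _))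
    have hκ0 : 0 ≤ κ := by rw [hκ]; exact tr_mul_nonneg X.tr hU0 (yt5_aut_nonneg _ hU0)
    have hκim : (X.τ (U * X.γ l U)).im = 0 :=
      tr_mul_im X.tr hU0.isSelfAdjoint (yt5_aut_nonneg _ hU0).isSelfAdjoint
    have hτT : (X.τ T).re = Λ.card * (X.τ r).re := by
      rw [hT, map_sum, Complex.re_sum]
      simp_rw [X.inv]
      rw [Finset.sum_const, nsmul_eq_mul]
    have hPT : P ≤ (X.τ (T * X.γ l T)).re := by
      have e : T * X.γ l T = ∑ y ∈ Λ, W y * X.γ l T := by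
        rw [← Finset.sum_mul, hWT]
      rw [e, map_sum, Complex.re_sum, hP]
      exact Finset.sum_le_sum fun y _ => yt5_mono X.tr (hW0 y) (yt5_aut_mono _ (hWle _))
    have hκe : κ = 1 - 2 * (Λ.card * (X.τ r).re) + (X.τ (T * X.γ l T)).re := by
      have e : U * X.γ l U = 1 - T - X.γ l T + T * X.γ l T := by
        rw [hU, map_sub, map_one]; noncomm_ring
      rw [hκ, e, map_add, map_sub, map_sub, X.inv, X.tr.1, Complex.add_re, Complex.sub_re,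
        Complex.sub_re, hτT, Complex.one_re]
      ring
    have hb : ∀ y, (X.τ (U * Ψ (E y) * X.γ l (U * Ψ (E (l⁻¹ * y))))).re =
        κ * (X.τ (E y * X.γ l (E (l⁻¹ * y)))).re := by
      intro y
      have hm : X.γ l (E (l⁻¹ * y)) ∈ 𝒮 := hc.act_mem _ _ (hES _)
      have e : U * Ψ (E y) * X.γ l (U * Ψ (E (l⁻¹ * y))) =
          (U * X.γ l U) * Ψ (E y * X.γ l (E (l⁻¹ * y))) := by
        rw [map_mul, hc.map_mul _ (hES y) _ hm, hc.map_act _ _ (hES _), mul_assoc U,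
          ← mul_assoc (Ψ (E y)), (hcomm _ (hES y) l).eq]
        simp only [mul_assoc]
      rw [e, hc.indep _ (Set.mem_insert_of_mem U ⟨l, hl, rfl⟩) _ (mul_mem (hES y) hm),
        Complex.mul_re, hκim, zero_mul, sub_zero, hκ]
    have hlow : P + κ * ∑ y ∈ Λ, (X.τ (E y * X.γ l (E (l⁻¹ * y)))).re ≤
        ∑ y ∈ Λ, (X.τ ((W y + U * Ψ (E y)) *
          X.γ l (W (l⁻¹ * y) + U * Ψ (E (l⁻¹ * y))))).re := by
      rw [hP, Finset.mul_sum, ← Finset.sum_add_distrib]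
      refine Finset.sum_le_sum fun y _ => ?_
      rw [← hb y, map_add (X.γ l)]
      exact yt5_drop X.tr (hW0 y) (ha0 y) (yt5_aut_nonneg _ (hW0 _)) (yt5_aut_nonneg _ (ha0 _))
    have h1 : κ * g l ≤ κ * ∑ y ∈ Λ, (X.τ (E y * X.γ l (E (l⁻¹ * y)))).re :=
      mul_le_mul_of_nonneg_left (hG l hl) hκ0
    have h2 : (1 - 2 * (Λ.card * (X.τ r).re) + p l) * g l ≤ κ * g l :=
      mul_le_mul_of_nonneg_right (by rw [hκe]; linarith) (hg l hl)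
    linarith

theorem TSys.fill (X : TSys G D A) (L Λ : Finset G) (hΛ : Λ.Nonempty) {δ : ℝ} (hδ : 0 < δ) :
    ∃ E : G → A, (∀ y, E y ∈ X.F ∧ 0 ≤ E y) ∧ (∀ y, y ∉ Λ → E y = 0) ∧ ∑ y ∈ Λ, E y ≤ 1 ∧
      ∀ l ∈ L, 2 * ((Set.ncard {x | x ∈ Λ ∧ l⁻¹ * x ∈ Λ} : ℝ) / Λ.card) - 1 - δ ≤
        ∑ y ∈ Λ, (X.τ (E y * X.γ l (E (l⁻¹ * y)))).re := by
  classical
  obtain ⟨d, hd⟩ : ∃ d : ℝ, d = min (δ / 4) 1 := ⟨_, rfl⟩
  have hd0 : 0 < d := by rw [hd]; exact lt_min (by positivity) one_pos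
  have hd1 : d ≤ 1 := by rw [hd]; exact min_le_right _ _
  have hd4 : d ≤ δ / 4 := by rw [hd]; exact min_le_left _ _
  obtain ⟨r, hrF, hr, -, hsum, hpos, hsq⟩ := X.orth_elt Λ hd0
  have hn : (0 : ℝ) < Λ.card := by exact_mod_cast hΛ.card_pos
  obtain ⟨s, hs⟩ : ∃ s : ℝ, s = Λ.card * (X.τ r).re := ⟨_, rfl⟩
  have hs0 : 0 < s := by rw [hs]; exact mul_pos hn hpos
  obtain ⟨i, hi⟩ : ∃ i : G → ℝ,
      ∀ l, i l = (Set.ncard {x | x ∈ Λ ∧ l⁻¹ * x ∈ Λ} : ℝ) / Λ.card := ⟨_, fun _ => rfl⟩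
  have hi0 : ∀ l, 0 ≤ i l := fun l => by rw [hi]; positivity
  have hi1 : ∀ l, i l ≤ 1 := fun l => by
    rw [hi, div_le_one hn, yt5_ncard]
    exact_mod_cast Finset.card_filter_le _ _
  have hp : ∀ l ∈ L, (1 - d) * i l * s ≤
      (Set.ncard {x | x ∈ Λ ∧ l⁻¹ * x ∈ Λ} : ℝ) * (X.τ (r * r)).re := by
    intro l _
    have e : (1 - d) * i l * s =
        (Set.ncard {x | x ∈ Λ ∧ l⁻¹ * x ∈ Λ} : ℝ) * ((1 - d) * (X.τ r).re) := by
      rw [hi, hs]; field_simp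
    rw [e]
    exact mul_le_mul_of_nonneg_left hsq (Nat.cast_nonneg _)
  have hpos' : ∀ E : G → A, (∀ y, E y ∈ X.F ∧ 0 ≤ E y) → ∀ l : G,
      0 ≤ ∑ y ∈ Λ, (X.τ (E y * X.γ l (E (l⁻¹ * y)))).re := fun E hE l =>
    Finset.sum_nonneg fun y _ => tr_mul_nonneg X.tr (hE y).2 (yt5_aut_nonneg _ (hE _).2)
  obtain ⟨η, hη⟩ : ∃ η : ℝ, η = s * (δ / 2) := ⟨_, rfl⟩
  have hη0 : 0 < η := by rw [hη]; positivity
  have key : ∀ k : ℕ, ∃ E : G → A, (∀ y, E y ∈ X.F ∧ 0 ≤ E y) ∧ (∀ y, y ∉ Λ → E y = 0) ∧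
      ∑ y ∈ Λ, E y ≤ 1 ∧ ∀ l ∈ L, min (2 * i l - 1 - δ) (k * η) ≤
        ∑ y ∈ Λ, (X.τ (E y * X.γ l (E (l⁻¹ * y)))).re := by
    intro k
    induction k with
    | zero =>
      refine ⟨fun _ => 0, fun _ => ⟨zero_mem _, le_rfl⟩, fun _ _ => rfl, by simp, fun l _ => ?_⟩
      simp
    | succ k ih =>
      obtain ⟨E, hE, hE0, hE1, hG⟩ := ih
      obtain ⟨E', hE', hE0', hE1', hG'⟩ := X.fill_step L Λ hrF hr hsum
        (fun l => (1 - d) * i l * s) (fun l => max 0 (min (2 * i l - 1 - δ) (k * η)))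
        (fun l _ => le_max_left _ _) hp E hE hE0 hE1
        (fun l hl => max_le (hpos' E hE l) (hG l hl))
      refine ⟨E', hE', hE0', hE1', fun l hl => ?_⟩
      rcases le_total (2 * i l - 1 - δ) 0 with ht | ht
      · exact (min_le_left _ _).trans (ht.trans (hpos' E' hE' l))
      · refine le_trans ?_ (hG' l hl)
        have hk0 : 0 ≤ (k : ℝ) * η := by positivity
        rw [← hs, max_eq_right (le_min ht hk0)]
        obtain ⟨g, hgd⟩ : ∃ g : ℝ, min (2 * i l - 1 - δ) (k * η) = g := ⟨_, rfl⟩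
        have hgt : g ≤ 2 * i l - 1 - δ := by rw [← hgd]; exact min_le_left _ _
        have h1 := yt5_arith (hi0 l) (hi1 l) hd0.le hd1 hd4 hgt
        have h4 := mul_le_mul_of_nonneg_left h1 hs0.le
        have h5 : min (2 * i l - 1 - δ) (((k + 1 : ℕ) : ℝ) * η) ≤ g + η := by
          rw [← hgd, ← min_add_add_right]
          refine min_le_min (by linarith) (le_of_eq ?_)
          push_cast
          ring
        rw [hgd]
        refine h5.trans ?_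
        rw [hη]
        nlinarith
  obtain ⟨k, hk⟩ := exists_nat_ge (1 / η)
  obtain ⟨E, hE, hE0, hE1, hG⟩ := key k
  rw [div_le_iff₀ hη0] at hk
  refine ⟨E, hE, hE0, hE1, fun l hl => ?_⟩
  have h1 := hG l hl
  rw [min_eq_left (by linarith [hi1 l])] at h1
  rw [← hi]
  exact h1

end Pool.Agent.Izumi
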