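import Pool.Agent.Lib.MP_b2135d_an.YT1
import Pool.Agent.Lib.MP_b2135d_an.YT8

/-! Wandering elements (PLAN section YT7). -/

namespace Pool.Agent.Izumi

open scoped ComplexOrder
open Filter Topology

theorem exists_heavy_indep {G : Type} [Group G] (K Λ : Finset G) (w : G → ℝ) (hw : ∀ g, 0 ≤ w g) :
    ∃ Y ⊆ Λ, (∀ y ∈ Y, ∀ k ∈ K, k ≠ 1 → k * y ∉ Y) ∧
      ∑ g ∈ Λ, w g ≤ (2 * K.card + 1) * ∑ g ∈ Y, w g := by
  classical
  induction Λ using Finset.strongInduction with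
  | H Λ ih =>
    rcases Λ.eq_empty_or_nonempty with rfl | hne
    · exact ⟨∅, Finset.Subset.refl _, by simp, by simp⟩
    obtain ⟨g, hg, hmax⟩ := Finset.exists_max_image Λ w hne
    set B : Finset G := insert g (K.image (fun k => k * g) ∪ K.image (fun k => k⁻¹ * g)) with hB
    have hgB : g ∈ B := Finset.mem_insert_self _ _
    have hB1 : ∀ k ∈ K, k * g ∈ B := fun k hk =>
      Finset.mem_insert_of_mem (Finset.mem_union_left _ (Finset.mem_image_of_mem _ hk))
    have hB2 : ∀ k ∈ K, k⁻¹ * g ∈ B := fun k hk =>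
      Finset.mem_insert_of_mem (Finset.mem_union_right _
        (Finset.mem_image_of_mem (fun k => k⁻¹ * g) hk))
    have hcard : B.card ≤ 2 * K.card + 1 := by
      have h1 : B.card ≤ (K.image (fun k => k * g) ∪ K.image (fun k => k⁻¹ * g)).card + 1 :=
        Finset.card_insert_le _ _
      have h2 := Finset.card_union_le (K.image (fun k => k * g)) (K.image (fun k => k⁻¹ * g))
      have h3 : (K.image (fun k => k * g)).card ≤ K.card := Finset.card_image_le
      have h4 : (K.image (fun k => k⁻¹ * g)).card ≤ K.card := Finset.card_image_le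
      omega
    have hss : Λ \ B ⊂ Λ :=
      Finset.ssubset_iff_subset_ne.2 ⟨Finset.sdiff_subset, fun e => by
        have : g ∈ Λ \ B := e.symm ▸ hg
        exact (Finset.mem_sdiff.1 this).2 hgB⟩
    obtain ⟨Y, hY, hind, hsum⟩ := ih _ hss
    have hYB : ∀ y ∈ Y, y ∉ B := fun y hy => (Finset.mem_sdiff.1 (hY hy)).2
    have hgY : g ∉ Y := fun h => hYB g h hgB
    refine ⟨insert g Y, Finset.insert_subset hg (hY.trans Finset.sdiff_subset), ?_, ?_⟩
    · intro y hy k hk hk1 hky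
      rcases Finset.mem_insert.1 hy with rfl | hy
      · rcases Finset.mem_insert.1 hky with e | e
        · exact hk1 (mul_eq_right.1 e)
        · exact hYB _ e (hB1 k hk)
      · rcases Finset.mem_insert.1 hky with e | e
        · refine hYB y hy ?_
          have : y = k⁻¹ * g := by rw [← e, inv_mul_cancel_left]
          rw [this]
          exact hB2 k hk
        · exact hind y hy k hk hk1 e
    · rw [Finset.sum_insert hgY, ← Finset.sum_inter_add_sum_sdiff Λ B w]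
      have h1 : ∑ x ∈ Λ ∩ B, w x ≤ (Λ ∩ B).card • w g :=
        Finset.sum_le_card_nsmul _ _ _ fun x hx => hmax x (Finset.mem_inter.1 hx).1
      have h2 : ((Λ ∩ B).card : ℝ) ≤ 2 * K.card + 1 := by
        have h3 : (Λ ∩ B).card ≤ 2 * K.card + 1 :=
          (Finset.card_le_card Finset.inter_subset_right).trans hcard
        exact_mod_cast h3
      rw [nsmul_eq_mul] at h1
      have h4 := mul_le_mul_of_nonneg_right h2 (hw g)
      rw [mul_add]
      linarith

section Aux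

variable {G A : Type} [CStarAlgebra A] [PartialOrder A] [StarOrderedRing A] {τ : A →ₚ[ℂ] ℂ}
  {C : StarSubalgebra ℂ A} {Λ : Finset G} {E : G → A}

theorem yt7_sum_nonneg (h : IsTw τ C Λ E) (s : Finset G) : 0 ≤ ∑ g ∈ s, E g :=
  Finset.sum_nonneg fun g _ => (h.tp g).nonneg

theorem yt7_sum_le_one (h : IsTw τ C Λ E) (s : Finset G) : ∑ g ∈ s, E g ≤ 1 := by
  have h1 := near_orth s E (fun g _ => (h.tp g).nonneg) (fun g _ => (h.tp g).le_one) (le_refl 0)
    (fun g _ g' _ e => by rw [h.orth g g' e, norm_zero])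
  rw [mul_zero, add_zero] at h1
  exact (CStarAlgebra.norm_le_one_iff_of_nonneg _ (yt7_sum_nonneg h s)).1 h1

theorem yt7_sum_tp (h : IsTw τ C Λ E) (s : Finset G) : TP τ (∑ g ∈ s, E g) := by
  refine ⟨yt7_sum_nonneg h s, yt7_sum_le_one h s, ?_⟩
  have e : (∑ g ∈ s, E g) * (∑ g ∈ s, E g) = ∑ g ∈ s, E g * E g := by
    rw [Finset.sum_mul]
    refine Finset.sum_congr rfl fun g hg => ?_
    rw [Finset.mul_sum]
    exact Finset.sum_eq_single_of_mem g hg fun g' _ hne => h.orth g g' hne.symm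
  rw [e, ← Finset.sum_sub_distrib]
  exact Submodule.sum_mem _ fun g _ => (h.tp g).idem

theorem yt7_aut_le_one (θ : A ≃⋆ₐ[ℂ] A) {x : A} (h0 : 0 ≤ x) (h1 : x ≤ 1) : θ x ≤ 1 := by
  have h2 : 0 ≤ θ x := map_nonneg θ h0
  rw [← CStarAlgebra.norm_le_one_iff_of_nonneg _ h2, StarAlgEquiv.norm_map]
  exact (CStarAlgebra.norm_le_one_iff_of_nonneg _ h0).2 h1

end Aux

variable {G D A : Type} [Group G] [Countable G] [CStarAlgebra D] [PartialOrder D] [CStarAlgebra A]
  [PartialOrder A] [StarOrderedRing A]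

theorem TSys.wander_approx (X : TSys G D A) (ht : X.Tow) (K : Finset G) {T : Set A}
    (hT : T.Countable) {δ : ℝ} (hδ : 0 < δ) : ∃ r ∈ X.FT T, TP X.τ r ∧
      1 / (2 * (K.card : ℝ) + 1) ≤ (X.τ r).re ∧
        ∀ k ∈ K, k ≠ 1 → (X.τ (r * X.γ k r)).re ≤ δ := by
  classical
  obtain ⟨Λ, E, hE, hL⟩ := ht K δ T hδ hT
  obtain ⟨Y, hY, hind, hsum⟩ := exists_heavy_indep K Λ (fun g => (X.τ (E g)).re)
    (fun g => tr_re_nonneg X.τ (hE.tp g).nonneg)
  have htot := hE.sum_tr X.tr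
  refine ⟨∑ g ∈ Y, E g, sum_mem fun g _ => hE.mem g, yt7_sum_tp hE Y, ?_, ?_⟩
  · rw [map_sum, Complex.re_sum, div_le_iff₀ (by positivity), mul_comm]
    rw [htot] at hsum
    exact hsum
  · intro k hk hk1
    have hd : ∀ g, 0 ≤ (X.τ (E g)).re - (X.τ (E g * X.γ k (E (k⁻¹ * g)))).re := fun g =>
      sub_nonneg.2 (tr_mul_le X.tr (hE.tp g).nonneg
        (yt7_aut_le_one _ (hE.tp _).nonneg (hE.tp _).le_one))
    have h1 : ∀ y ∈ Y, (X.τ (E y * X.γ k (∑ g ∈ Y, E g))).re ≤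
        (X.τ (E y)).re - (X.τ (E y * X.γ k (E (k⁻¹ * y)))).re := by
      intro y hy
      have hn : k⁻¹ * y ∉ Y := fun h => hind _ h k hk hk1 (by rwa [mul_inv_cancel_left])
      have h2 := tr_mul_le X.tr (hE.tp y).nonneg
        (yt7_aut_le_one (X.γ k) (yt7_sum_nonneg hE (insert (k⁻¹ * y) Y))
          (yt7_sum_le_one hE (insert (k⁻¹ * y) Y)))
      rw [Finset.sum_insert hn, map_add, mul_add, map_add, Complex.add_re] at h2
      linarith
    have h3 := hL k hk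
    calc (X.τ ((∑ g ∈ Y, E g) * X.γ k (∑ g ∈ Y, E g))).re
        = ∑ y ∈ Y, (X.τ (E y * X.γ k (∑ g ∈ Y, E g))).re := by
          rw [Finset.sum_mul, map_sum X.τ, Complex.re_sum]
      _ ≤ ∑ y ∈ Y, ((X.τ (E y)).re - (X.τ (E y * X.γ k (E (k⁻¹ * y)))).re) :=
          Finset.sum_le_sum h1
      _ ≤ ∑ y ∈ Λ, ((X.τ (E y)).re - (X.τ (E y * X.γ k (E (k⁻¹ * y)))).re) :=
          Finset.sum_le_sum_of_subset_of_nonneg hY fun g _ _ => hd g
      _ ≤ δ := by
          rw [Finset.sum_sub_distrib, htot]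
          linarith

theorem yt7_wander_J (X : TSys G D A) (ht : X.Tow) (K : Finset G) {T : Set A}
    (hT : T.Countable) : ∃ r ∈ X.FT T, TP X.τ r ∧ 0 < (X.τ r).re ∧
      ∀ k ∈ K, k ≠ 1 → r * X.γ k r ∈ Jd X.τ := by
  have hv : IsTerm X.γ (fun x : Unit → A => x ()) := IsTerm.var ()
  have hP : Defn X.τ X.γ (fun x : Unit → A => x () ∈ cent (X.T0 ∪ orb X.γ T) ∧
      (0 ≤ x () ∧ x () ≤ 1) ∧ (x () * x () - x () ∈ Jd X.τ) ∧
        1 / (2 * (K.card : ℝ) + 1) ≤ (X.τ (x ())).re) :=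
    (Defn.mem_cent (X.countable_FT hT) hv).and ((Defn.between hv).and
      ((Defn.mem_Jd ((hv.mul hv).sub hv)).and (Defn.tr_ge hv _)))
  obtain ⟨x, -, ⟨h1, h2, h3, h4⟩, -, h5⟩ := X.sat.approx (κ := Empty)
    (κ' := {k : G // k ∈ K ∧ k ≠ 1}) (fun _ : Unit => (1 : ℝ)) hP (fun k => k.elim)
    (fun k => k.elim) (fun k x => -(x () * X.γ k.1 (x ())))
    (fun k => (hv.mul (hv.act k.1)).neg) (fun _ => 0) (by
      intro s s' ε hε
      obtain ⟨r, hr, htp, hc, ho⟩ := X.wander_approx ht K hT hε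
      refine ⟨fun _ => r, fun _ => (CStarAlgebra.norm_le_one_iff_of_nonneg _ htp.nonneg).2
        htp.le_one, ⟨hr, ⟨htp.nonneg, htp.le_one⟩, htp.idem, hc⟩, fun k => k.elim,
        fun k _ => ?_⟩
      have h6 := ho k.1 k.2.1 k.2.2
      rw [map_neg, Complex.neg_re]
      linarith)
  refine ⟨x (), h1, ⟨h2.1, h2.2, h3⟩, lt_of_lt_of_le (by positivity) h4, fun k hk hk1 => ?_⟩
  have h6 := h5 ⟨k, hk, hk1⟩
  rw [map_neg, Complex.neg_re] at h6
  exact mul_mem_Jd X.tr h2.1 (map_nonneg (X.γ k) h2.1) (by linarith)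

theorem TSys.wander (X : TSys G D A) (ht : X.Tow) (K : Finset G) {T : Set A} (hT : T.Countable) :
    ∃ r ∈ X.FT T, TP X.τ r ∧ 0 < (X.τ r).re ∧ ∀ k ∈ K, k ≠ 1 → r * X.γ k r = 0 := by
  obtain ⟨r, hr, htp, hpos, hJ⟩ := yt7_wander_J X ht K hT
  have hc1 : ((X.T0 ∪ orb X.γ T) ∪ {r}).Countable :=
    (X.countable_FT hT).union (Set.countable_singleton r)
  have hc2 : ((fun k => r * X.γ k r) '' {k : G | k ∈ K ∧ k ≠ 1}).Countable :=
    (Set.to_countable _).image _
  obtain ⟨e, he0, he1, heJ, hei, hec, heu⟩ := X.toSat.sigma hc1 hc2 (by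
    rintro _ ⟨k, ⟨hk, hk1⟩, rfl⟩
    exact hJ k hk hk1)
  have hei' : ∀ g, X.γ g e = e := hei
  have heJ' : e ∈ Jd X.τ := heJ
  obtain ⟨heF, her⟩ := mem_cent_union.1 hec
  have hcom : Commute e r := (mem_cent.1 her r rfl).1
  have hcom1 : Commute r (1 - e) := (Commute.one_right r).sub_right hcom.symm
  obtain ⟨b0, -, -, b1⟩ := mul_between htp.nonneg htp.le_one (sub_nonneg.2 he1)
    (sub_le_self 1 he0) hcom1
  have hsub : r * (1 - e) - r ∈ Jd X.τ := by
    have e1 : r * (1 - e) - r = -(r * e) := by rw [mul_sub, mul_one, sub_sub_cancel_left]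
    rw [e1]
    exact neg_mem (Jd_mul_left r heJ')
  refine ⟨r * (1 - e), mul_mem hr (sub_mem (one_mem _) heF),
    TP.of_sub_mem X.tr htp b0 b1 hsub, ?_, fun k hk hk1 => ?_⟩
  · rw [tr_eq_of_Jd X.tr hsub]
    exact hpos
  · have hk2 : Commute (X.γ k r) (1 - e) := by
      have h1 := hcom1.map (X.γ k)
      rwa [map_sub, map_one, hei'] at h1
    have hz : r * X.γ k r * (1 - e) = 0 := by
      rw [mul_sub, mul_one, (heu _ ⟨k, ⟨hk, hk1⟩, rfl⟩).2, sub_self]
    rw [map_mul, map_sub, map_one, hei']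
    calc r * (1 - e) * (X.γ k r * (1 - e)) = r * ((1 - e) * X.γ k r) * (1 - e) := by
          simp only [mul_assoc]
      _ = r * X.γ k r * (1 - e) * (1 - e) := by
          rw [← hk2.eq]
          simp only [mul_assoc]
      _ = 0 := by rw [hz, zero_mul]

end Pool.Agent.Izumi
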