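import Pool.Agent.Lib.MP_b2135d_an.YDefs
import Pool.Agent.Lib.MP_b2135d_an.UB
import Pool.Agent.Lib.MP_b2135d_an.SB

/-! Saturation of ultrapowers (PLAN section YU1). -/

namespace Pool.Agent.Izumi

open scoped ComplexOrder
open Filter Topology

variable {G B A : Type} [Group G] [CStarAlgebra B] [PartialOrder B] [StarOrderedRing B]
  [CStarAlgebra A] [PartialOrder A] [StarOrderedRing A] {q : Bdd B →⋆ₐ[ℂ] A}
  {β : G →* (B ≃⋆ₐ[ℂ] B)} {τB : B →ₚ[ℂ] ℂ} {γ : G →* (A ≃⋆ₐ[ℂ] A)} {τ : A →ₚ[ℂ] ℂ}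

omit [StarOrderedRing B] [StarOrderedRing A] in
/-- Every term is computed coordinatewise. -/
theorem IsUP2.yu1_term (h : IsUP2 β τB q γ τ) {ι : Type}
    {f : (ι → A) → A} (hf : IsTerm γ f) :
    ∃ F : ℕ → (ι → B) → B, ∀ x : ι → Bdd B, ∃ y : Bdd B,
      (∀ n, y.1 n = F n fun i => (x i).1 n) ∧ q y = f fun i => q (x i) := by
  induction hf with
  | var i => exact ⟨fun _ b => b i, fun x => ⟨x i, fun _ => rfl, rfl⟩⟩
  | const a =>
    obtain ⟨y, hy⟩ := h.ult.surj a
    exact ⟨fun n _ => y.1 n, fun _ => ⟨y, fun _ => rfl, hy⟩⟩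
  | add _ _ ih1 ih2 =>
    obtain ⟨F1, h1⟩ := ih1
    obtain ⟨F2, h2⟩ := ih2
    refine ⟨fun n b => F1 n b + F2 n b, fun x => ?_⟩
    obtain ⟨y1, a1, b1⟩ := h1 x
    obtain ⟨y2, a2, b2⟩ := h2 x
    refine ⟨y1 + y2, fun n => ?_, by rw [map_add, b1, b2]⟩
    show y1.1 n + y2.1 n = _
    rw [a1, a2]
  | mul _ _ ih1 ih2 =>
    obtain ⟨F1, h1⟩ := ih1
    obtain ⟨F2, h2⟩ := ih2
    refine ⟨fun n b => F1 n b * F2 n b, fun x => ?_⟩
    obtain ⟨y1, a1, b1⟩ := h1 x
    obtain ⟨y2, a2, b2⟩ := h2 x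
    refine ⟨y1 * y2, fun n => ?_, by rw [map_mul, b1, b2]⟩
    show y1.1 n * y2.1 n = _
    rw [a1, a2]
  | star _ ih1 =>
    obtain ⟨F1, h1⟩ := ih1
    refine ⟨fun n b => star (F1 n b), fun x => ?_⟩
    obtain ⟨y1, a1, b1⟩ := h1 x
    refine ⟨star y1, fun n => ?_, by rw [map_star, b1]⟩
    show star (y1.1 n) = _
    rw [a1]
  | smul c _ ih1 =>
    obtain ⟨F1, h1⟩ := ih1
    refine ⟨fun n b => c • F1 n b, fun x => ?_⟩
    obtain ⟨y1, a1, b1⟩ := h1 x
    refine ⟨c • y1, fun n => ?_, by rw [map_smul, b1]⟩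
    show c • y1.1 n = _
    rw [a1]
  | act k _ ih1 =>
    obtain ⟨F1, h1⟩ := ih1
    refine ⟨fun n b => β k (F1 n b), fun x => ?_⟩
    obtain ⟨y1, a1, b1⟩ := h1 x
    refine ⟨Bdd.map (β k : B →⋆ₐ[ℂ] B) y1, fun n => ?_, by rw [← h.act, b1]⟩
    show β k (y1.1 n) = _
    rw [a1]

omit [StarOrderedRing B] [StarOrderedRing A] in
/-- Every definable predicate is a countable conjunction of limits of coordinate conditions. -/
theorem IsUP2.yu1_defn (h : IsUP2 β τB q γ τ) {ι : Type}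
    {P : (ι → A) → Prop} (hP : Defn τ γ P) :
    ∃ (φ : ℕ → ℕ → (ι → B) → ℝ) (Φ : ℕ → (ι → A) → ℝ),
      (∀ k (x : ι → Bdd B), Tendsto (fun n => φ k n fun i => (x i).1 n) (hyperfilter ℕ)
        (𝓝 (Φ k fun i => q (x i)))) ∧ ∀ a, P a ↔ ∀ k, Φ k a ≤ 0 := by
  induction hP with
  | @norm_le f hf c =>
    obtain ⟨F, hF⟩ := h.yu1_term hf
    refine ⟨fun _ n b => ‖F n b‖ - c, fun _ a => ‖f a‖ - c, fun _ x => ?_, fun a => ?_⟩
    · obtain ⟨y, a1, b1⟩ := hF x
      have := (h.ult.norm y).sub_const c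
      simp only [a1, b1] at this
      exact this
    · exact ⟨fun h _ => sub_nonpos.2 h, fun h => sub_nonpos.1 (h 0)⟩
  | @tr_le f hf c =>
    obtain ⟨F, hF⟩ := h.yu1_term hf
    refine ⟨fun _ n b => (τB (F n b)).re - c, fun _ a => (τ (f a)).re - c, fun _ x => ?_,
      fun a => ?_⟩
    · obtain ⟨y, a1, b1⟩ := hF x
      have := ((Complex.continuous_re.tendsto _).comp (h.tr y)).sub_const c
      simp only [Function.comp_def, a1, b1] at this
      exact this
    · exact ⟨fun h _ => sub_nonpos.2 h, fun h => sub_nonpos.1 (h 0)⟩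
  | all _ ih =>
    choose φ Φ h1 h2 using ih
    refine ⟨fun k => φ k.unpair.1 k.unpair.2, fun k => Φ k.unpair.1 k.unpair.2,
      fun k x => h1 _ _ x, fun a => ⟨fun ha k => (h2 _ a).1 (ha _) _, fun ha n => ?_⟩⟩
    refine (h2 n a).2 fun k => ?_
    have := ha (Nat.pair n k)
    simp only [Nat.unpair_pair] at this
    exact this
  | congr _ e ih =>
    obtain ⟨φ, Φ, h1, h2⟩ := ih
    exact ⟨φ, Φ, h1, fun a => (e a).symm.trans (h2 a)⟩

theorem IsUP2.saturated (h : IsUP2 β τB q γ τ) : Saturated τ γ := by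
  classical
  intro ι _ R Z hZ hsol
  choose φ Φ h1 h2 using fun n => h.yu1_defn (hZ n)
  choose a ha1 ha2 using hsol
  choose x hx1 hx2 using fun N i => h.ult.exists_lift (a N i) (ha1 N i)
  let V : ℕ → ℕ → Prop := fun N m =>
    ∀ n ≤ N, ∀ k ≤ N, φ n k m (fun i => (x N i).1 m) < 1 / ((N : ℝ) + 1)
  have hV : ∀ N, ∀ᶠ m in (hyperfilter ℕ : Filter ℕ), V N m := by
    intro N
    refine (eventually_all_finite (Set.finite_Iic N)).2 fun n hn => ?_
    refine (eventually_all_finite (Set.finite_Iic N)).2 fun k _ => ?_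
    have t := h1 n k (x N)
    have e : (fun i => q (x N i)) = a N := funext fun i => hx1 N i
    rw [e] at t
    exact t.eventually_lt_const
      (lt_of_le_of_lt ((h2 n _).1 (ha2 N n hn) k) Nat.one_div_pos_of_nat)
  let M : ℕ → ℕ := fun m => Nat.findGreatest (fun N => V N m) m
  let y : ι → Bdd B := fun i => ⟨fun m => (x (M m) i).1 m, R i, fun m => hx2 _ i m⟩
  refine ⟨fun i => q (y i), fun i => h.ult.norm_le _ (Eventually.of_forall fun m => hx2 _ i m),
    fun n => (h2 n _).2 fun k => ?_⟩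
  refine le_of_forall_pos_le_add fun ε hε => ?_
  obtain ⟨N1, hN1⟩ := exists_nat_one_div_lt hε
  refine le_of_tendsto (h1 n k y) ?_
  have hge : ∀ᶠ m in (hyperfilter ℕ : Filter ℕ), max N1 (max n k) ≤ m :=
    Nat.hyperfilter_le_atTop (eventually_ge_atTop _)
  filter_upwards [hV (max N1 (max n k)), hge] with m hm1 hm2
  have b1 : max N1 (max n k) ≤ M m := Nat.le_findGreatest (P := fun N => V N m) hm2 hm1
  have b2 : V (M m) m := Nat.findGreatest_spec (P := fun N => V N m) hm2 hm1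
  have b3 := b2 n (by omega) k (by omega)
  have b4 : 1 / ((M m : ℝ) + 1) ≤ 1 / ((N1 : ℝ) + 1) := Nat.one_div_le_one_div (by omega)
  have b5 : φ n k m (fun i => (y i).1 m) = φ n k m (fun i => (x (M m) i).1 m) := rfl
  linarith

theorem Saturated.satHom (h : Saturated τ γ) {E : Type} [CStarAlgebra E]
    [TopologicalSpace.SeparableSpace E] {κ : Type} [Countable κ] (gs : κ → G) (ρ : κ → E → E)
    (hρ : ∀ k, Continuous (ρ k)) (T T₁ : Set A) (hT : T.Countable) (hT₁ : T₁.Countable)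
    (σ : E → ℂ) (hσ : Continuous σ)
    (H : ∀ (s : Finset E) (sk : Finset κ) (sT sT₁ : Finset A) (ε : ℝ), (sT : Set A) ⊆ T →
      (sT₁ : Set A) ⊆ T₁ → 0 < ε → ∃ Φ : E → A, ApproxHom s ε Φ ∧
        (∀ k ∈ sk, ∀ x ∈ s, ‖γ (gs k) (Φ x) - Φ (ρ k x)‖ ≤ ε) ∧
        (∀ t ∈ sT, ∀ x ∈ s, ‖Φ x * t - t * Φ x‖ ≤ ε) ∧
        ∀ t ∈ sT₁, ∀ x ∈ s, ‖τ (t * Φ x) - τ t * σ x‖ ≤ ε) :
    ∃ φ : E →⋆ₐ[ℂ] A, (∀ k x, φ (ρ k x) = γ (gs k) (φ x)) ∧ (∀ x, φ x ∈ cent T) ∧
      ∀ t ∈ T₁, ∀ x, τ (t * φ x) = τ t * σ x := by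
  classical
  obtain ⟨D, hc, hd, h1, hadd, hmul, hstar, hI, hrho⟩ := sb_exists_dense ρ
  have : Countable D := hc.to_subtype
  have : Countable T := hT.to_subtype
  have : Countable T₁ := hT₁.to_subtype
  let X : (D → A) → E → A := fun x e => if h : e ∈ D then x ⟨e, h⟩ else 0
  have hX : ∀ e, IsTerm γ (fun x => X x e) := by
    intro e
    by_cases h : e ∈ D
    · exact (IsTerm.var ⟨e, h⟩).congr fun x => by simp only [X, dif_pos h]
    · exact (IsTerm.const 0).congr fun x => by simp only [X, dif_neg h]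
  let U : Set ℂ := {1, -1, Complex.I, -Complex.I}
  have hU : U.Countable := (Set.toFinite U).countable
  let C : D × D × Option κ × Option T × Option T₁ → ℝ → (D → A) → Prop := fun j ε x =>
    ‖X x (j.1 + j.2.1) - (X x j.1 + X x j.2.1)‖ ≤ ε ∧
    ‖X x (j.1 * j.2.1) - X x j.1 * X x j.2.1‖ ≤ ε ∧
    ‖X x (star (j.1 : E)) - star (X x j.1)‖ ≤ ε ∧
    ‖X x (Complex.I • (j.1 : E)) - Complex.I • X x j.1‖ ≤ ε ∧
    ‖X x 1 - 1‖ ≤ ε ∧ ‖X x j.1‖ ≤ ‖(j.1 : E)‖ + ε ∧
    (∀ k, j.2.2.1 = some k → ‖γ (gs k) (X x j.1) - X x (ρ k j.1)‖ ≤ ε) ∧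
    (∀ t : T, j.2.2.2.1 = some t → ‖X x j.1 * t - t * X x j.1‖ ≤ ε) ∧
    ∀ t : T₁, j.2.2.2.2 = some t → ∀ c ∈ U,
      (τ (c • ((t : A) * X x j.1))).re ≤ (c * (τ t * σ j.1)).re + ε
  obtain ⟨x, hx⟩ := sb_sat_eps h (fun i : D => ‖(i : E)‖ + 1) C
    (fun N e => Defn.forall fun j => Defn.imp _ fun _ =>
      (Defn.norm_le ((hX _).sub ((hX _).add (hX _))) _).and <|
      (Defn.norm_le ((hX _).sub ((hX _).mul (hX _))) _).and <|
      (Defn.norm_le ((hX _).sub (hX _).star) _).and <|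
      (Defn.norm_le ((hX _).sub ((hX _).smul _)) _).and <|
      (Defn.norm_le ((hX _).sub (IsTerm.const 1)) _).and <|
      (Defn.norm_le (hX _) _).and <|
      (Defn.forall fun k => Defn.imp _ fun _ =>
        Defn.norm_le (((hX _).act (gs k)).sub (hX _)) _).and <|
      (Defn.forall fun t : T => Defn.imp _ fun _ =>
        Defn.norm_le (((hX _).mul (IsTerm.const _)).sub ((IsTerm.const _).mul (hX _))) _).and <|
      Defn.forall fun t : T₁ => Defn.imp _ fun _ => Defn.forall_mem hU fun c _ =>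
        Defn.tr_le (((IsTerm.const _).mul (hX _)).smul c) _)
    (fun j ε ε' x hle h => by
      obtain ⟨c1, c2, c3, c4, c5, c6, c7, c8, c9⟩ := h
      exact ⟨c1.trans hle, c2.trans hle, c3.trans hle, c4.trans hle, c5.trans hle,
        c6.trans (by linarith), fun k hk => (c7 k hk).trans hle, fun t ht => (c8 t ht).trans hle,
        fun t ht c hc => (c9 t ht c hc).trans (by linarith)⟩)
    (fun s ε hε hε1 => by
      let sk : Finset κ := s.biUnion fun j => j.2.2.1.toFinset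
      let sE : Finset E := s.biUnion fun j =>
        ({(j.1 : E), (j.2.1 : E), (j.1 : E) + j.2.1, (j.1 : E) * j.2.1,
          star (j.1 : E),
          Complex.I • (j.1 : E), 1} : Finset E) ∪ sk.image fun k => ρ k j.1
      let sT : Finset A := (s.biUnion fun j => j.2.2.2.1.toFinset).image Subtype.val
      let sT₁ : Finset A := (s.biUnion fun j => j.2.2.2.2.toFinset).image Subtype.val
      obtain ⟨Φ, hΦ, p1, p2, p3⟩ := H sE sk sT sT₁ ε
        (fun t ht => by
          obtain ⟨u, -, rfl⟩ := Finset.mem_image.1 (Finset.mem_coe.1 ht)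
          exact u.2)
        (fun t ht => by
          obtain ⟨u, -, rfl⟩ := Finset.mem_image.1 (Finset.mem_coe.1 ht)
          exact u.2) hε
      let y : D → A := fun i => if ‖Φ i‖ ≤ ‖(i : E)‖ + 1 then Φ i else 0
      have hy : ∀ e ∈ D, e ∈ sE → X y e = Φ e := by
        intro e he hs
        have h2 : ‖Φ e‖ ≤ ‖e‖ + 1 := (hΦ.norm e hs).trans (by linarith)
        exact (dif_pos he).trans (if_pos h2)
      refine ⟨y, fun i => ?_, fun j hj => ?_⟩
      · by_cases h : ‖Φ i‖ ≤ ‖(i : E)‖ + 1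
        · exact (congrArg norm (if_pos h)).le.trans h
        · refine (congrArg norm (if_neg h)).le.trans ?_
          rw [norm_zero]; positivity
      · have hm : ∀ e, e ∈ ({(j.1 : E), (j.2.1 : E), (j.1 : E) + j.2.1, (j.1 : E) * j.2.1,
          star (j.1 : E),
            Complex.I • (j.1 : E), 1} : Finset E) → e ∈ sE := fun e he =>
          Finset.mem_biUnion.2 ⟨j, hj, Finset.mem_union_left _ he⟩
        have m1 : (j.1 : E) ∈ sE := hm _ (by simp)
        have m2 : (j.2.1 : E) ∈ sE := hm _ (by simp)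
        have e1 := hy _ j.1.2 m1
        have e2 := hy _ j.2.1.2 m2
        have e3 := hy _ (hadd _ j.1.2 _ j.2.1.2) (hm _ (by simp))
        have e4 := hy _ (hmul _ j.1.2 _ j.2.1.2) (hm _ (by simp))
        have e5 := hy _ (hstar _ j.1.2) (hm _ (by simp))
        have e6 := hy _ (hI _ j.1.2) (hm _ (by simp))
        have e7 := hy _ h1 (hm _ (by simp))
        refine ⟨?_, ?_, ?_, ?_, ?_, ?_, fun k hk => ?_, fun t ht => ?_, fun t ht c hc => ?_⟩
        · rw [e1, e2, e3]; exact hΦ.add _ m1 _ m2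
        · rw [e1, e2, e4]; exact hΦ.mul _ m1 _ m2
        · rw [e1, e5]; exact hΦ.star _ m1
        · rw [e1, e6]; exact hΦ.smul_I _ m1
        · rw [e7]; exact hΦ.one
        · rw [e1]; exact hΦ.norm _ m1
        · have hk' : k ∈ sk := Finset.mem_biUnion.2 ⟨j, hj, by simp [hk]⟩
          rw [e1, hy _ (hrho k _ j.1.2) (Finset.mem_biUnion.2 ⟨j, hj,
            Finset.mem_union_right _ (Finset.mem_image_of_mem _ hk')⟩)]
          exact p1 k hk' _ m1
        · rw [e1]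
          exact p2 _ (Finset.mem_image_of_mem _ (Finset.mem_biUnion.2 ⟨j, hj, by simp [ht]⟩)) _ m1
        · rw [e1, map_smul, smul_eq_mul]
          have q := p3 _ (Finset.mem_image_of_mem _
            (Finset.mem_biUnion.2 ⟨j, hj, (by simp [ht] : t ∈ j.2.2.2.2.toFinset)⟩)) _ m1
          have hc1 : ‖c‖ = 1 := by
            rcases hc with rfl | rfl | rfl | rfl <;> simp
          have q2 := Complex.re_le_norm (c * (τ ((t : A) * Φ j.1) - τ t * σ j.1))
          rw [norm_mul, hc1, one_mul, mul_sub, Complex.sub_re] at q2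
          linarith)
  obtain ⟨φ, hφ⟩ := sb_extend hd h1 hadd hmul hstar hI (X x)
    (fun a ha b hb => sb_eq_of_le fun ε hε => (hx (⟨a, ha⟩, ⟨b, hb⟩, none, none, none) ε hε).1)
    (fun a ha b hb => sb_eq_of_le fun ε hε => (hx (⟨a, ha⟩, ⟨b, hb⟩, none, none, none) ε hε).2.1)
    (fun a ha => sb_eq_of_le fun ε hε => (hx (⟨a, ha⟩, ⟨a, ha⟩, none, none, none) ε hε).2.2.1)
    (fun a ha => sb_eq_of_le fun ε hε => (hx (⟨a, ha⟩, ⟨a, ha⟩, none, none, none) ε hε).2.2.2.1)
    (sb_eq_of_le fun ε hε => (hx (⟨1, h1⟩, ⟨1, h1⟩, none, none, none) ε hε).2.2.2.2.1)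
    (fun a ha => le_of_forall_pos_le_add fun ε hε =>
      (hx (⟨a, ha⟩, ⟨a, ha⟩, none, none, none) ε hε).2.2.2.2.2.1)
  have hφc := hom_continuous φ
  have hcomm : ∀ t ∈ T, ∀ e, φ e * t = t * φ e := by
    intro t ht e
    have : (fun e => φ e * t) = fun e => t * φ e :=
      Continuous.ext_on hd (by fun_prop) (by fun_prop) fun a ha => by
        show φ a * t = t * φ a
        rw [hφ _ ha]
        exact sb_eq_of_le fun ε hε =>
          (hx (⟨a, ha⟩, ⟨a, ha⟩, none, some ⟨t, ht⟩, none) ε hε).2.2.2.2.2.2.2.1 ⟨t, ht⟩ rfl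
    exact congrFun this e
  refine ⟨φ, fun k e => ?_, fun e => ?_, fun t ht e => ?_⟩
  · have : (fun e => φ (ρ k e)) = fun e => γ (gs k) (φ e) :=
      Continuous.ext_on hd (hφc.comp (hρ k)) ((aut_continuous _).comp hφc) fun a ha => by
        show φ (ρ k a) = γ (gs k) (φ a)
        rw [hφ _ ha, hφ _ (hrho k _ ha)]
        exact (sb_eq_of_le fun ε hε =>
          (hx (⟨a, ha⟩, ⟨a, ha⟩, some k, none, none) ε hε).2.2.2.2.2.2.1 k rfl).symm
    exact congrFun this e
  · refine mem_cent.2 fun t ht => ⟨hcomm t ht e, ?_⟩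
    have h2 := congrArg star (hcomm t ht (star e))
    rw [star_mul, star_mul, map_star, star_star] at h2
    exact h2.symm
  · have : (fun e => τ (t * φ e)) = fun e => τ t * σ e :=
      Continuous.ext_on hd ((tr_continuous _).comp (continuous_const.mul hφc))
        (continuous_const.mul hσ) fun a ha => by
        show τ (t * φ a) = τ t * σ a
        rw [hφ _ ha]
        have q : ∀ c ∈ U, (c * τ (t * X x a)).re ≤ (c * (τ t * σ a)).re := fun c hc =>
          le_of_forall_pos_le_add fun ε hε => by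
            have := (hx (⟨a, ha⟩, ⟨a, ha⟩, none, none, some ⟨t, ht⟩) ε hε).2.2.2.2.2.2.2.2
              ⟨t, ht⟩ rfl c hc
            rwa [map_smul, smul_eq_mul] at this
        have q1 := q 1 (by simp [U])
        have q2 := q (-1) (by simp [U])
        have q3 := q Complex.I (by simp [U])
        have q4 := q (-Complex.I) (by simp [U])
        generalize τ (t * X x a) = u at q1 q2 q3 q4 ⊢
        generalize τ t * σ a = v at q1 q2 q3 q4 ⊢
        simp only [one_mul, neg_mul, Complex.neg_re, Complex.I_mul_re, neg_neg] at q1 q2 q3 q4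
        exact Complex.ext (by linarith) (by linarith)
    exact congrFun this e

end Pool.Agent.Izumi
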