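import Pool.Agent.Lib.MP_b2135d_an.YU1

/-! Independent copies in ultrapowers (PLAN section YU2). -/

namespace Pool.Agent.Izumi

open scoped ComplexOrder
open Filter Topology

variable {G B A : Type} [Group G] [CStarAlgebra B] [PartialOrder B] [StarOrderedRing B]
  [CStarAlgebra A] [PartialOrder A] [StarOrderedRing A] {q : Bdd B →⋆ₐ[ℂ] A}
  {β : G →* (B ≃⋆ₐ[ℂ] B)} {τB : B →ₚ[ℂ] ℂ} {γ : G →* (A ≃⋆ₐ[ℂ] A)} {τ : A →ₚ[ℂ] ℂ}

/-- Reindexing of bounded sequences. -/
def yu2Reix (B : Type) [CStarAlgebra B] (m : ℕ → ℕ) : Bdd B →⋆ₐ[ℂ] Bdd B where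
  toFun x := ⟨fun n => x.1 (m n), by
    obtain ⟨C, hC⟩ := x.2
    exact ⟨C, fun n => hC (m n)⟩⟩
  map_one' := rfl
  map_mul' _ _ := rfl
  map_zero' := rfl
  map_add' _ _ := rfl
  commutes' _ := rfl
  map_star' _ := rfl

/-- The closed subalgebra generated by a countable set is separable. -/
theorem yu2_separable {A : Type} [CStarAlgebra A] {S : Set A} (hS : S.Countable) :
    TopologicalSpace.SeparableSpace (StarAlgebra.adjoin ℂ S).topologicalClosure := by
  have h1 : (S ∪ star S).Countable := by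
    refine hS.union ?_
    have : star S = (fun x => star x) '' S := by
      ext x
      constructor
      · intro hx
        exact ⟨star x, hx, star_star x⟩
      · rintro ⟨y, hy, rfl⟩
        simpa using hy
    rw [this]
    exact hS.image _
  have h2 : ((Submonoid.closure (S ∪ star S) : Submonoid A) : Set A).Countable := by
    have := h1.to_subtype
    refine (Set.countable_range
      (fun l : List (S ∪ star S : Set A) => (l.map Subtype.val).prod)).mono ?_
    intro x hx
    induction hx using Submonoid.closure_induction with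
    | mem x hx => exact ⟨[⟨x, hx⟩], by simp⟩
    | one => exact ⟨[], by simp⟩
    | mul x y _ _ ihx ihy =>
      obtain ⟨l, rfl⟩ := ihx
      obtain ⟨l', rfl⟩ := ihy
      exact ⟨l ++ l', by simp⟩
  have h3 : TopologicalSpace.IsSeparable
      ((Submodule.span ℂ ((Submonoid.closure (S ∪ star S) : Submonoid A) : Set A) :
        Submodule ℂ A) : Set A) := h2.isSeparable.span
  have h4 : ((StarAlgebra.adjoin ℂ S : StarSubalgebra ℂ A) : Set A) =
      ((Submodule.span ℂ ((Submonoid.closure (S ∪ star S) : Submonoid A) : Set A) :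
        Submodule ℂ A) : Set A) := by
    rw [← Algebra.adjoin_eq_span, ← StarAlgebra.adjoin_toSubalgebra]
    rfl
  have h5 : TopologicalSpace.IsSeparable
      (((StarAlgebra.adjoin ℂ S).topologicalClosure : StarSubalgebra ℂ A) : Set A) := by
    rw [StarSubalgebra.topologicalClosure_coe, h4]
    exact h3.closure
  exact h5.separableSpace

theorem IsUP2.ic [Countable G] (h : IsUP2 β τB q γ τ) (h1 : ∀ x, τ 1 * τ x = τ x)
    (hmul : ∀ y, (∀ b, Commute y (q (Bdd.const B b))) →
      ∀ b, τ (q (Bdd.const B b) * y) = τB b * τ y) {T0 : Set A} (hc : T0.Countable)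
    (hi : ∀ g, ∀ t ∈ T0, γ g t ∈ T0)
    (hF : ∀ y, y ∈ cent T0 ↔ ∀ b, Commute y (q (Bdd.const B b))) (S₀ T : Set A)
    (hS : S₀.Countable) (hT : T.Countable) (hSF : S₀ ⊆ cent T0) :
    ∃ (𝒮 : StarSubalgebra ℂ A) (Ψ : A →ₗ[ℂ] A), S₀ ⊆ 𝒮 ∧ IsCopy τ γ T0 T 𝒮 Ψ := by
  have hone := h1
  clear h1
  set E : StarSubalgebra ℂ A := (StarAlgebra.adjoin ℂ (orb γ S₀)).topologicalClosure with hE
  have hcl : IsClosed (E : Set A) := StarSubalgebra.isClosed_topologicalClosure _
  have hsep : TopologicalSpace.SeparableSpace E := yu2_separable (countable_orb γ hS)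
  have hmin : ∀ C : StarSubalgebra ℂ A, IsClosed (C : Set A) → orb γ S₀ ⊆ C → E ≤ C :=
    fun C hC hsub => StarSubalgebra.topologicalClosure_minimal (StarAlgebra.adjoin_le hsub) hC
  have horb : orb γ S₀ ⊆ E := fun x hx =>
    StarSubalgebra.le_topologicalClosure _ (StarAlgebra.subset_adjoin ℂ _ hx)
  have hEF : E ≤ cent T0 := by
    refine hmin _ (isClosed_cent T0) ?_
    rintro x ⟨g, t, ht, rfl⟩
    exact act_mem_cent γ g (hi g⁻¹) (hSF ht)
  have hact : ∀ g, ∀ x ∈ E, γ g x ∈ E := by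
    intro g x hx
    have h1 : E ≤ E.comap (γ g : A →⋆ₐ[ℂ] A) :=
      hmin _ (hcl.preimage (aut_continuous (γ g))) fun y hy => horb (act_mem_orb γ g hy)
    exact h1 hx
  let ρ : G → E → E := fun g x => ⟨γ g x, hact g x x.2⟩
  have hρ : ∀ g, Continuous (ρ g) := fun g =>
    ((aut_continuous (γ g)).comp continuous_subtype_val).subtype_mk _
  let σ : E → ℂ := fun x => τ x
  have hσ : Continuous σ := (tr_continuous τ).comp continuous_subtype_val
  choose L hLq hLn using fun a : A => h.ult.exists_lift a (le_refl ‖a‖)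
  obtain ⟨φ, hφ1, hφ2, hφ3⟩ := h.saturated.satHom (E := E) (fun g : G => g) ρ hρ (T0 ∪ orb γ T)
    (insert 1 T) (hc.union (countable_orb γ hT)) (hT.insert 1) σ hσ (by
      intro s sk sT sT₁ ε _ _ hε
      have null : ∀ z : Bdd B, q z = 0 → ∀ᶠ m in (hyperfilter ℕ : Filter ℕ), ‖z.1 m‖ ≤ ε :=
        fun z hz => (h.ult.eventually_lt z (by rw [hz, norm_zero]; exact hε)).mono
          fun _ hm => hm.le
      have key : ∀ n : ℕ, ∃ m : ℕ,
          ((∀ x ∈ s, ∀ y ∈ s, ‖(L (x + y : E) - (L x + L y)).1 m‖ ≤ ε) ∧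
          (∀ x ∈ s, ∀ y ∈ s, ‖(L (x * y : E) - L x * L y).1 m‖ ≤ ε) ∧
          (∀ x ∈ s, ‖(L (star x : E) - star (L x)).1 m‖ ≤ ε) ∧
          (∀ x ∈ s, ‖(L (Complex.I • x : E) - Complex.I • L x).1 m‖ ≤ ε) ∧
          ‖(L (1 : E) - 1).1 m‖ ≤ ε ∧
          (∀ g ∈ sk, ∀ x ∈ s,
            ‖(Bdd.map (β g : B →⋆ₐ[ℂ] B) (L x) - L (ρ g x)).1 m‖ ≤ ε)) ∧
          (∀ t ∈ sT, ∀ x ∈ s, ‖(L x).1 m * (L t).1 n - (L t).1 n * (L x).1 m‖ ≤ ε) ∧
          ∀ t ∈ sT₁, ∀ x ∈ s, ‖τB ((L t).1 n * (L x).1 m) - τB ((L t).1 n) * σ x‖ ≤ ε := by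
        intro n
        refine Filter.Eventually.exists (f := (hyperfilter ℕ : Filter ℕ)) ?_
        refine Eventually.and (Eventually.and ?_ (Eventually.and ?_ (Eventually.and ?_
          (Eventually.and ?_ (Eventually.and ?_ ?_))))) (Eventually.and ?_ ?_)
        · refine (eventually_all_finset _).2 fun x _ => (eventually_all_finset _).2 fun y _ => ?_
          exact null _ (by simp [map_sub, map_add, hLq])
        · refine (eventually_all_finset _).2 fun x _ => (eventually_all_finset _).2 fun y _ => ?_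
          exact null _ (by simp [map_sub, map_mul, hLq])
        · refine (eventually_all_finset _).2 fun x _ => ?_
          exact null _ (by rw [map_sub, map_star, hLq, hLq]; simp)
        · refine (eventually_all_finset _).2 fun x _ => ?_
          exact null _ (by simp [map_sub, map_smul, hLq])
        · exact null _ (by simp [map_sub, map_one, hLq])
        · refine (eventually_all_finset _).2 fun g _ => (eventually_all_finset _).2 fun x _ => ?_
          exact null _ (by rw [map_sub, ← h.act, hLq, hLq]; exact sub_self _)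
        · refine (eventually_all_finset _).2 fun t _ => (eventually_all_finset _).2 fun x _ => ?_
          have h1 := ((hF x).1 (hEF x.2) ((L t).1 n)).eq
          exact null (L x * Bdd.const B ((L t).1 n) - Bdd.const B ((L t).1 n) * L x)
            (by rw [map_sub, map_mul, map_mul, hLq, h1, sub_self])
        · refine (eventually_all_finset _).2 fun t _ => (eventually_all_finset _).2 fun x _ => ?_
          have h1 := h.tr (Bdd.const B ((L t).1 n) * L x)
          rw [map_mul, hLq, hmul _ ((hF x).1 (hEF x.2))] at h1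
          refine ((Metric.tendsto_nhds.1 h1) ε hε).mono fun m hm => ?_
          rw [dist_eq_norm] at hm
          exact hm.le
      choose m hm1 hm2 hm3 using key
      let J : Bdd B →⋆ₐ[ℂ] A := q.comp (yu2Reix B m)
      have hJ : ∀ z, J z = q (yu2Reix B m z) := fun _ => rfl
      have hJn : ∀ (z : Bdd B) (r : ℝ), (∀ n, ‖z.1 (m n)‖ ≤ r) → ‖J z‖ ≤ r :=
        fun z r hz => h.ult.norm_le _ (Eventually.of_forall hz)
      refine ⟨fun x => J (L x), ⟨fun x hx y hy => ?_, fun x hx y hy => ?_, fun x hx => ?_,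
        fun x hx => ?_, ?_, fun x _ => ?_⟩, fun g hg x hx => ?_, fun t ht x hx => ?_,
        fun t ht x hx => ?_⟩
      · have := hJn _ ε fun n => (hm1 n).1 x hx y hy
        rwa [map_sub, map_add] at this
      · have := hJn _ ε fun n => (hm1 n).2.1 x hx y hy
        rwa [map_sub, map_mul] at this
      · have := hJn _ ε fun n => (hm1 n).2.2.1 x hx
        rwa [map_sub, map_star] at this
      · have := hJn _ ε fun n => (hm1 n).2.2.2.1 x hx
        rwa [map_sub, map_smul] at this
      · have := hJn _ ε fun n => (hm1 n).2.2.2.2.1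
        rwa [map_sub, map_one] at this
      · exact (hJn _ _ fun n => hLn x (m n)).trans (le_add_of_nonneg_right hε.le)
      · have := hJn _ ε fun n => (hm1 n).2.2.2.2.2 g hg x hx
        rw [map_sub] at this
        have h1 : γ g (J (L x)) = J (Bdd.map (β g : B →⋆ₐ[ℂ] B) (L x)) := h.act g _
        rw [h1]
        exact this
      · have := h.ult.norm_le (yu2Reix B m (L x) * L t - L t * yu2Reix B m (L x))
          (Eventually.of_forall fun n => hm2 n t ht x hx)
        rwa [map_sub, map_mul, map_mul, hLq] at this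
      · have h1 := h.tr (L t * yu2Reix B m (L x))
        have h2 := (h.tr (L t)).mul_const (σ x)
        rw [map_mul, hLq] at h1
        rw [hLq] at h2
        exact le_of_tendsto (h1.sub h2).norm (Eventually.of_forall fun n => hm3 n t ht x hx))
  let f : Subalgebra.toSubmodule E.toSubalgebra →ₗ[ℂ] A :=
    { toFun := fun x => φ ⟨x.1, x.2⟩
      map_add' := fun x y => map_add φ ⟨x.1, x.2⟩ ⟨y.1, y.2⟩
      map_smul' := fun c x => map_smul φ c ⟨x.1, x.2⟩ }
  obtain ⟨Ψ, hΨ⟩ := f.exists_extend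
  have hΨ' : ∀ x (hx : x ∈ E), Ψ x = φ ⟨x, hx⟩ := fun x hx =>
    LinearMap.congr_fun hΨ ⟨x, hx⟩
  refine ⟨E, Ψ, (subset_orb γ S₀).trans horb, hcl, hact, ?_, fun x hx y hy => ?_,
    fun x hx => ?_, fun x hx => ?_, fun g x hx => ?_, fun x hx => ?_, fun t ht x hx => ?_,
    fun x hx => ?_⟩
  · rw [hΨ' 1 E.one_mem]
    exact map_one φ
  · rw [hΨ' _ (mul_mem hx hy), hΨ' x hx, hΨ' y hy]
    exact map_mul φ ⟨x, hx⟩ ⟨y, hy⟩
  · rw [hΨ' _ (star_mem hx), hΨ' x hx]
    exact map_star φ ⟨x, hx⟩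
  · rw [hΨ' x hx]
    exact NonUnitalStarAlgHom.norm_apply_le φ ⟨x, hx⟩
  · rw [hΨ' _ (hact g x hx), hΨ' x hx]
    exact hφ1 g ⟨x, hx⟩
  · rw [hΨ' x hx]
    exact hφ2 _
  · rw [hΨ' x hx]
    exact hφ3 t (Set.mem_insert_of_mem _ ht) ⟨x, hx⟩
  · have := hφ3 1 (Set.mem_insert _ _) ⟨x, hx⟩
    rw [one_mul] at this
    rw [hΨ' x hx]
    exact this.trans (hone x)

end Pool.Agent.Izumi
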