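import Pool.Agent.Lib.MP_b2135d_an.TC
import Pool.Agent.Lib.MP_b2135d_an.DB
import Pool.Agent.Lib.MP_b2135d_an.CB
import Pool.Agent.Lib.MP_b2135d_an.CC

/-! Closing a tower (PLAN section 8, Z1). -/

namespace Pool.Agent.Izumi

open scoped ComplexOrder Matrix
open Filter Topology

variable {G A : Type} [Group G] [CStarAlgebra A] [PartialOrder A] [StarOrderedRing A] [Countable G] {X : Sys G A}
  {H K : Subgroup G} {g : G}

theorem ZCtx.act_mem_Fix (hz : ZCtx H K g) (γ : G →* (A ≃⋆ₐ[ℂ] A)) {k : G} (hk : k ∈ K) {x : A}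
    (hx : x ∈ Fix γ H) : γ k x ∈ Fix γ H := by
  refine Izumi.act_mem_Fix (fun h hh => ?_) hx
  have := hz.normal k⁻¹ (K.inv_mem hk) h hh
  rwa [inv_inv] at this

theorem ZCtx.act_mem_FH (hz : ZCtx H K g) {k : G} (hk : k ∈ K) {x : A} (hx : x ∈ X.FH H) :
    X.γ k x ∈ X.FH H :=
  ⟨X.act_mem_F k hx.1, hz.act_mem_Fix X.γ hk hx.2⟩

theorem ZCtx.pow_mem_FH (hz : ZCtx H K g) (i : ℕ) {x : A} (hx : x ∈ X.FH H) :
    (X.γ g ^ i) x ∈ X.FH H := by
  rw [← map_pow]
  exact hz.act_mem_FH (K.pow_mem hz.mem i) hx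

theorem za_zpow_fix {γ : G →* (A ≃⋆ₐ[ℂ] A)} {x : A} (hg : γ g x = x) (n : ℤ) :
    γ (g ^ n) x = x := by
  have hi : γ g⁻¹ x = x := by
    conv_lhs => rw [← hg]
    exact act_inv_act γ g x
  induction n using Int.induction_on with
  | zero => rw [zpow_zero, act_one]
  | succ n ih => rw [zpow_add_one, ← act_act, hg, ih]
  | pred n ih => rw [zpow_sub_one, ← act_act, hi, ih]

theorem ZCtx.mem_Fix_of (hz : ZCtx H K g) {γ : G →* (A ≃⋆ₐ[ℂ] A)} {x : A} (hx : x ∈ Fix γ H)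
    (hg : γ g x = x) : x ∈ Fix γ K := by
  intro k hk
  obtain ⟨n, h, hh, rfl⟩ := hz.gen k hk
  rw [← act_act, hx h hh, za_zpow_fix hg]

theorem za_pow_add (α : A ≃⋆ₐ[ℂ] A) (i j : ℕ) (x : A) :
    (α ^ (i + j)) x = (α ^ i) ((α ^ j) x) := by
  rw [pow_add]; rfl

/-- Translates of a tower base are orthogonal. -/
theorem za_orth_base {α : A ≃⋆ₐ[ℂ] A} {a : A} (ha : star a = a) {N : ℕ}
    (ho : ∀ i, 0 < i → i < N → a * (α ^ i) a = 0) {i j : ℕ} (hij : i ≠ j) (h1 : i < j + N)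
    (h2 : j < i + N) : (α ^ i) a * (α ^ j) a = 0 := by
  have key : ∀ i j : ℕ, i < j → j < i + N → (α ^ i) a * (α ^ j) a = 0 := by
    intro i j hlt hN
    obtain ⟨d, rfl⟩ := Nat.exists_eq_add_of_le hlt.le
    rw [za_pow_add, ← map_mul, ho d (by omega) (by omega), map_zero]
  rcases lt_or_gt_of_ne hij with h | h
  · exact key i j h h2
  · have h3 := congrArg star (key j i h h1)
    rwa [star_mul, ← map_star, ← map_star, ha, star_zero] at h3

/-- Translates of elements supported under a tower base are orthogonal. -/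
theorem za_orth {α : A ≃⋆ₐ[ℂ] A} {a : A} (ha : star a = a) {N : ℕ}
    (ho : ∀ i, 0 < i → i < N → a * (α ^ i) a = 0) {y y' : A} (hy : y * a = y) (hy' : a * y' = y')
    {i j : ℕ} (hij : i ≠ j) (h1 : i < j + N) (h2 : j < i + N) :
    (α ^ i) y * (α ^ j) y' = 0 := by
  rw [← hy, ← hy', map_mul, map_mul, mul_assoc, ← mul_assoc ((α ^ i) a),
    za_orth_base ha ho hij h1 h2, zero_mul, mul_zero]

theorem za_norm_proj_sub {s t : A} (hs : ‖s‖ ≤ 1) (ht : ‖t‖ ≤ 1) :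
    ‖s * star s - t * star t‖ ≤ 2 * ‖t - s‖ := by
  have e : s * star s - t * star t = (s - t) * star s + t * star (s - t) := by
    rw [star_sub]; noncomm_ring
  have h0 := norm_nonneg (t - s)
  rw [e]
  refine (norm_add_le _ _).trans ?_
  have h1 := norm_mul_le (s - t) (star s)
  have h2 := norm_mul_le t (star (s - t))
  rw [norm_star, norm_sub_rev s t] at h1 h2
  have h3 : ‖t - s‖ * ‖s‖ ≤ ‖t - s‖ := mul_le_of_le_one_right h0 hs
  have h4 : ‖t‖ * ‖t - s‖ ≤ ‖t - s‖ := mul_le_of_le_one_left h0 ht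
  linarith

/-- The approximately closed tower. -/
theorem Sys.closing_approx (hz : ZCtx H K g) (hH : X.Good H) {M : ℕ} (hM : 0 < M) {l : ℕ}
    (hl : 0 < l) :
    ∃ e ∈ X.FH H, IsStarProjection e ∧ (∀ i, 0 < i → i < M → e * (X.γ g ^ i) e = 0) ∧
      1 / (4 * (M : ℝ)) ≤ (X.τ e).re ∧ ‖(X.γ g ^ M) e - e‖ ≤ 8 / (l : ℝ) := by
  obtain ⟨N, hNdef⟩ : ∃ N, N = l * M := ⟨_, rfl⟩
  have hN : 0 < N := hNdef ▸ Nat.mul_pos hl hM
  have hNr : (0 : ℝ) < N := by exact_mod_cast hN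
  have hlr : (0 : ℝ) < l := by exact_mod_cast hl
  have hMr : (0 : ℝ) < M := by exact_mod_cast hM
  obtain ⟨a, haC, ha0, ha1, ho, hcyc, htr⟩ := X.ttZ hz hN
  have has : star a = a := (IsSelfAdjoint.of_nonneg ha0).star_eq
  haveI : Nonempty (Fin (4 * N)) := ⟨⟨0, by omega⟩⟩
  obtain ⟨ψ, hψ, hψC⟩ := hH.2.1.divT (Fin (4 * N)) (T := ∅) Set.countable_empty
  have hψF : ∀ i j, ψ i j ∈ X.FH H := fun i j => ⟨X.FT_le_F _ (hψC i j).1, (hψC i j).2⟩
  obtain ⟨o⟩ : Nonempty (Fin (4 * N)) := inferInstance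
  have hp : IsStarProjection (ψ o o) := hψ.proj o
  have hτp : (X.τ (ψ o o)).re = 1 / (4 * (N : ℝ)) := by
    have h1 := tr_mu X.tr hψ (x := 1) (fun i j => Commute.one_left _) o o
    rw [one_mul, if_pos rfl, X.tr.1, Fintype.card_fin] at h1
    rw [h1]
    have h2 : (1 : ℂ) / ((4 * N : ℕ) : ℂ) = ((1 / (4 * (N : ℝ)) : ℝ) : ℂ) := by push_cast; rfl
    rw [h2, Complex.ofReal_re]
  have hq : 0 < 1 / (4 * (N : ℝ)) := by positivity
  have h4 : 1 / (N : ℝ) = 4 * (1 / (4 * (N : ℝ))) := by field_simp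
  obtain ⟨s₀, hs₀C, hs₀p, hs₀a⟩ := hH.1 (ψ o o) a (hψF o o) haC hp ha0 ha1
    ⟨1 / (4 * (N : ℝ)), hq, fun m => by have := htr m; rw [hτp]; linarith⟩
  obtain ⟨u, hu, huc⟩ := Sys.uni_chn_MU hH.2.1 hH.2.2 X.T0_count hψ (hψ.map_aut (X.γ g ^ N))
    (fun i j => ⟨(hψF i j).2, (hψF i j).1⟩)
    (fun i j => ⟨(hz.pow_mem_FH N (hψF i j)).2, (hz.pow_mem_FH N (hψF i j)).1⟩)
  obtain ⟨huu, huC'⟩ := huc.right
  have huC : u ∈ X.FH H := ⟨huC'.2, huC'.1⟩
  have hu1 : star u * u = 1 := (Unitary.mem_iff.1 huu).1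
  have hu2 : u * star u = 1 := (Unitary.mem_iff.1 huu).2
  have hs₁C : (X.γ g ^ N) s₀ * u ∈ X.FH H := mul_mem (hz.pow_mem_FH N hs₀C) huC
  have hs₁p : star ((X.γ g ^ N) s₀ * u) * ((X.γ g ^ N) s₀ * u) = ψ o o := by
    rw [star_mul, mul_assoc, ← mul_assoc (star ((X.γ g ^ N) s₀)), ← map_star, ← map_mul, hs₀p,
      ← hu o o]
    calc star u * (u * ψ o o * star u * u) = (star u * u) * ψ o o * (star u * u) := by
          simp only [mul_assoc]
      _ = ψ o o := by rw [hu1, one_mul, mul_one]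
  have hs₁a : a * ((X.γ g ^ N) s₀ * u) = (X.γ g ^ N) s₀ * u := by
    conv_lhs => rw [← hcyc]
    rw [← mul_assoc, ← map_mul, hs₀a]
  obtain ⟨z, hz0, hzl, hzP, hzn⟩ := chn_iso X.tr hH.1 (hψF o o) haC hs₁C hs₀C hp ha0 ha1 hs₁p hs₀p
    hs₁a hs₀a ⟨1 / (4 * (N : ℝ)), hq, fun m => by have := htr m; rw [hτp]; linarith⟩ l hl
  obtain ⟨q, hqdef⟩ : ∃ q : ℕ → A, ∀ j, q j = z j * star (z j) := ⟨_, fun _ => rfl⟩
  have hqC : ∀ j, q j ∈ X.FH H := fun j => by
    rw [hqdef]; exact mul_mem (hzP j).1 (star_mem (hzP j).1)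
  have hqp : ∀ j, IsStarProjection (q j) := fun j => by
    rw [hqdef]; exact isStarProjection_mul_star hp (hzP j).2.1
  have hqa : ∀ j, a * q j = q j := fun j => by rw [hqdef, ← mul_assoc, (hzP j).2.2]
  have hqa' : ∀ j, q j * a = q j := fun j => by
    have h1 := congrArg star (hqa j)
    rwa [star_mul, has, (hqp j).isSelfAdjoint.star_eq] at h1
  have hqn : ∀ j, ‖q j - q (j + 1)‖ ≤ 8 / (l : ℝ) := fun j => by
    rw [hqdef, hqdef]
    refine (za_norm_proj_sub (norm_le_one_of_star_mul_self hp (hzP j).2.1)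
      (norm_le_one_of_star_mul_self hp (hzP (j + 1)).2.1)).trans ?_
    have h1 := hzn j
    have h2 : 8 / (l : ℝ) = 2 * (4 / (l : ℝ)) := by ring
    linarith
  have hqτ : ∀ j, (X.τ (q j)).re = 1 / (4 * (N : ℝ)) := fun j => by
    rw [hqdef, X.tr.2, (hzP j).2.1, hτp]
  have hq0 : (X.γ g ^ N) (q l) = q 0 := by
    rw [hqdef, hqdef, hz0, hzl, map_mul, map_star, star_mul, mul_assoc, ← mul_assoc u, hu2,
      one_mul]
  have hlt : ∀ j, j < l → ∀ i, i < M → i + j * M < N := fun j hj i hi => by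
    have h1 : (j + 1) * M ≤ l * M := Nat.mul_le_mul_right M hj
    rw [add_mul, one_mul] at h1
    omega
  refine ⟨∑ j ∈ Finset.range l, (X.γ g ^ (j * M)) (q j),
    sum_mem fun j _ => hz.pow_mem_FH _ (hqC j), ?_, fun i hi0 hiM => ?_, ?_, ?_⟩
  · refine isStarProjection_sum _ _ (fun j _ => (hqp j).map (X.γ g ^ (j * M))) ?_
    intro i hi j hj hij
    have h1 := hlt i (Finset.mem_range.1 hi) 0 hM
    have h2 := hlt j (Finset.mem_range.1 hj) 0 hM
    exact za_orth has ho (hqa' i) (hqa j)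
      (fun h => hij (Nat.eq_of_mul_eq_mul_right hM h)) (by omega) (by omega)
  · rw [map_sum, Finset.sum_mul_sum]
    refine Finset.sum_eq_zero fun j hj => Finset.sum_eq_zero fun k hk => ?_
    have h1 := hlt j (Finset.mem_range.1 hj) 0 hM
    have h2 := hlt k (Finset.mem_range.1 hk) i hiM
    rw [← za_pow_add]
    refine za_orth has ho (hqa' j) (hqa k) (fun h => ?_) (by omega) (by omega)
    have h3 := congrArg (· % M) h
    simp only [Nat.mul_mod_left, Nat.add_mul_mod_self_right, Nat.mod_eq_of_lt hiM] at h3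
    omega
  · rw [map_sum, Complex.re_sum]
    have h1 : ∀ j ∈ Finset.range l,
        (X.τ ((X.γ g ^ (j * M)) (q j))).re = 1 / (4 * (N : ℝ)) := fun j _ => by
      rw [← map_pow, X.inv, hqτ]
    rw [Finset.sum_congr rfl h1, Finset.sum_const, Finset.card_range, nsmul_eq_mul, hNdef]
    push_cast
    apply le_of_eq
    field_simp
  · have e1 : ∑ j ∈ Finset.range l, (X.γ g ^ (j * M)) (q j) =
        ∑ j ∈ Finset.range l, (X.γ g ^ ((j + 1) * M)) (q (j + 1)) := by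
      have h1 := Finset.sum_range_succ (fun j => (X.γ g ^ (j * M)) (q j)) l
      have h2 := Finset.sum_range_succ' (fun j => (X.γ g ^ (j * M)) (q j)) l
      rw [h2] at h1
      simp only [← hNdef, hq0, zero_mul, pow_zero] at h1
      exact (add_right_cancel h1).symm
    have e2 : (X.γ g ^ M) (∑ j ∈ Finset.range l, (X.γ g ^ (j * M)) (q j)) =
        ∑ j ∈ Finset.range l, (X.γ g ^ ((j + 1) * M)) (q j) := by
      rw [map_sum]
      refine Finset.sum_congr rfl fun j _ => ?_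
      rw [← za_pow_add, add_mul, one_mul, add_comm]
    rw [e2, e1, ← Finset.sum_sub_distrib]
    have hd : ∀ j, star (q j - q (j + 1)) = q j - q (j + 1) := fun j => by
      rw [star_sub, (hqp j).isSelfAdjoint.star_eq, (hqp (j + 1)).isSelfAdjoint.star_eq]
    have hor : ∀ i ∈ Finset.range l, ∀ j ∈ Finset.range l, i ≠ j →
        (X.γ g ^ ((i + 1) * M)) (q i - q (i + 1)) * (X.γ g ^ ((j + 1) * M)) (q j - q (j + 1)) = 0 := by
      intro i hi j hj hij
      have h1 := hlt i (Finset.mem_range.1 hi) 0 hM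
      have h2 := hlt j (Finset.mem_range.1 hj) 0 hM
      refine za_orth has ho (by rw [sub_mul, hqa', hqa']) (by rw [mul_sub, hqa, hqa])
        (fun h => hij ?_) ?_ ?_
      · have := Nat.eq_of_mul_eq_mul_right hM h
        omega
      · rw [add_mul, add_mul]; omega
      · rw [add_mul, add_mul]; omega
    simp only [← map_sub]
    refine norm_orth_sum _ _ (by positivity) (fun i hi j hj hij => ?_) (fun i hi j hj hij => ?_)
      (fun j _ => ?_)
    · rw [← map_star, hd]; exact hor i hi j hj hij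
    · rw [← map_star, hd]; exact hor i hi j hj hij
    · rw [StarAlgEquiv.norm_map]; exact hqn j

theorem Sys.closing (hz : ZCtx H K g) (hH : X.Good H) {M : ℕ} (hM : 0 < M) :
    ∃ e, IsTower (X.γ g) (X.FH H) M e ∧ 1 / (4 * (M : ℝ)) ≤ (X.τ e).re := by
  have hv : IsTerm X.γ (fun x : Unit → A => x ()) := IsTerm.var ()
  have hP : Defn X.τ X.γ (fun x : Unit → A => (x () ∈ cent X.T0 ∧ x () ∈ Fix X.γ H) ∧
      IsStarProjection (x ()) ∧ (∀ i : ℕ, 0 < i → i < M → x () * (X.γ g ^ i) (x ()) = 0) ∧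
        1 / (4 * (M : ℝ)) ≤ (X.τ (x ())).re) :=
    ((Defn.mem_cent X.T0_count hv).and (Defn.mem_Fix H hv)).and ((Defn.proj hv).and
      ((Defn.forall fun i => Defn.imp _ fun _ => Defn.imp _ fun _ =>
        Defn.eq (hv.mul (hv.act_pow g i)) (IsTerm.const 0)).and (Defn.tr_ge hv _)))
  obtain ⟨x, -, ⟨hC, hp, ho, ht⟩, hf⟩ := X.sat.approx_eq (κ := Unit) (fun _ => 1) hP
    (fun _ x => (X.γ g ^ M) (x ()) - x ()) (fun _ => (hv.act_pow g M).sub hv) (by
      intro s ε hε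
      obtain ⟨l, hl⟩ := exists_nat_gt (8 / ε)
      have hl0 : (0 : ℝ) < l := (div_pos (by norm_num) hε).trans hl
      obtain ⟨e, heC, hep, heo, het, hen⟩ := Sys.closing_approx hz hH hM
        (l := l) (by exact_mod_cast hl0)
      refine ⟨fun _ => e, fun _ => hep.norm_le, ⟨heC, hep, heo, het⟩, fun _ _ => hen.trans ?_⟩
      rw [div_lt_iff₀ hε] at hl
      rw [div_le_iff₀ hl0]
      linarith)
  exact ⟨x (), ⟨hC, hp, ho, sub_eq_zero.1 (hf ())⟩, ht⟩

end Pool.Agent.Izumi
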