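import Pool.Agent.Lib.MP_b2135d_an.ZA

/-! Small remainder and the absorbing isometries (PLAN section 8, Z2 and Z3). -/

namespace Pool.Agent.Izumi

open scoped ComplexOrder Matrix
open Filter Topology

variable {G A : Type} [Group G] [CStarAlgebra A] [PartialOrder A] [StarOrderedRing A] [Countable G] {X : Sys G A}
  {H K : Subgroup G} {g : G}

omit [PartialOrder A] [StarOrderedRing A] in
theorem pow_add_apply_ZB (α : A ≃⋆ₐ[ℂ] A) (i j : ℕ) (x : A) :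
    (α ^ (i + j)) x = (α ^ i) ((α ^ j) x) := by
  rw [pow_add]
  rfl

omit [PartialOrder A] [StarOrderedRing A] in
theorem pow_succ_apply_ZB (α : A ≃⋆ₐ[ℂ] A) (i : ℕ) (x : A) :
    (α ^ (i + 1)) x = α ((α ^ i) x) := by
  rw [pow_succ']
  rfl

omit [PartialOrder A] [StarOrderedRing A] in
theorem proj_map_ZB (α : A ≃⋆ₐ[ℂ] A) {e : A} (he : IsStarProjection e) :
    IsStarProjection (α e) :=
  ⟨by rw [IsIdempotentElem, ← map_mul, he.isIdempotentElem.eq],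
    by rw [IsSelfAdjoint, ← map_star, he.isSelfAdjoint.star_eq]⟩

omit [PartialOrder A] [StarOrderedRing A] in
theorem pow_fixed_ZB {α : A ≃⋆ₐ[ℂ] A} {x : A} (h : α x = x) (i : ℕ) : (α ^ i) x = x := by
  induction i with
  | zero => rfl
  | succ i ih => rw [pow_succ_apply_ZB, ih, h]

omit [PartialOrder A] [StarOrderedRing A] in
theorem orth_lt_ZB {α : A ≃⋆ₐ[ℂ] A} {C : StarSubalgebra ℂ A} {M : ℕ} {e : A}
    (h : IsTower α C M e) {i j : ℕ} (hj : j < M) (hij : i < j) :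
    (α ^ i) e * (α ^ j) e = 0 := by
  obtain ⟨d, rfl⟩ := Nat.exists_eq_add_of_le hij.le
  rw [pow_add_apply_ZB, ← map_mul, h.orth d (by omega) (by omega), map_zero]

theorem IsTower.orth' {α : A ≃⋆ₐ[ℂ] A} {C : StarSubalgebra ℂ A} {M : ℕ} {e : A}
    (h : IsTower α C M e) {i j : ℕ} (hi : i < M) (hj : j < M) (hij : i ≠ j) :
    (α ^ i) e * (α ^ j) e = 0 := by
  rcases lt_or_gt_of_ne hij with h1 | h1
  · exact orth_lt_ZB h hj h1
  · have h2 := congrArg star (orth_lt_ZB h hi h1)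
    rwa [star_mul, (proj_map_ZB _ h.proj).isSelfAdjoint.star_eq,
      (proj_map_ZB _ h.proj).isSelfAdjoint.star_eq, star_zero] at h2

theorem IsTower.rest_proj {α : A ≃⋆ₐ[ℂ] A} {C : StarSubalgebra ℂ A} {M : ℕ} {e : A}
    (h : IsTower α C M e) : IsStarProjection (1 - ∑ i ∈ Finset.range M, (α ^ i) e) :=
  (isStarProjection_sum _ _ (fun _ _ => proj_map_ZB _ h.proj) fun _ hi _ hj hij =>
    h.orth' (Finset.mem_range.1 hi) (Finset.mem_range.1 hj) hij).one_sub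

theorem IsTower.rest_fixed {α : A ≃⋆ₐ[ℂ] A} {C : StarSubalgebra ℂ A} {M : ℕ} {e : A}
    (h : IsTower α C M e) :
    α (1 - ∑ i ∈ Finset.range M, (α ^ i) e) = 1 - ∑ i ∈ Finset.range M, (α ^ i) e := by
  have h1 := Finset.sum_range_succ' (fun i => (α ^ i) e) M
  rw [Finset.sum_range_succ, h.cyc] at h1
  have h2 : (α ^ 0) e = e := rfl
  rw [h2, add_left_inj] at h1
  rw [map_sub, map_one, map_sum]
  simp only [← pow_succ_apply_ZB]
  rw [← h1]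

theorem rest_mul_ZB {α : A ≃⋆ₐ[ℂ] A} {C : StarSubalgebra ℂ A} {M : ℕ} {e : A}
    (h : IsTower α C M e) {j : ℕ} (hj : j < M) :
    (α ^ j) e * (1 - ∑ i ∈ Finset.range M, (α ^ i) e) = 0 := by
  rw [mul_sub, mul_one, Finset.mul_sum, Finset.sum_eq_single j
    (fun i hi hij => h.orth' hj (Finset.mem_range.1 hi) hij.symm)
    (fun hn => (hn (Finset.mem_range.2 hj)).elim), (proj_map_ZB _ h.proj).isIdempotentElem.eq,
    sub_self]

theorem mul_rest_ZB {α : A ≃⋆ₐ[ℂ] A} {C : StarSubalgebra ℂ A} {M : ℕ} {e : A}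
    (h : IsTower α C M e) {j : ℕ} (hj : j < M) :
    (1 - ∑ i ∈ Finset.range M, (α ^ i) e) * (α ^ j) e = 0 := by
  have h2 := congrArg star (rest_mul_ZB h hj)
  rwa [star_mul, (proj_map_ZB _ h.proj).isSelfAdjoint.star_eq,
    h.rest_proj.isSelfAdjoint.star_eq, star_zero] at h2

theorem rest_mem_ZB (hz : ZCtx H K g) {M : ℕ} {e : A} (h : IsTower (X.γ g) (X.FH H) M e) :
    1 - ∑ i ∈ Finset.range M, (X.γ g ^ i) e ∈ X.FH H :=
  sub_mem (one_mem _) (sum_mem fun i _ => hz.pow_mem_FH i h.mem)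

omit [StarOrderedRing A] [Countable G] in
theorem tr_rest_ZB (M : ℕ) (e : A) :
    (X.τ (1 - ∑ i ∈ Finset.range M, (X.γ g ^ i) e)).re = 1 - M * (X.τ e).re := by
  have h1 : ∀ i ∈ Finset.range M, X.τ ((X.γ g ^ i) e) = X.τ e := fun i _ => by
    rw [← map_pow, X.inv]
  rw [map_sub, map_sum, X.tr.1, Finset.sum_congr rfl h1]
  simp

theorem step_ZB (hz : ZCtx H K g) {M : ℕ} (hM : 0 < M) {e e₁ : A}
    (h : IsTower (X.γ g) (X.FH H) M e) (h₁ : IsTower (X.γ g) (X.FH H) M e₁) :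
    ∃ e', IsTower (X.γ g) (X.FH H) M e' ∧
      (X.τ (1 - ∑ i ∈ Finset.range M, (X.γ g ^ i) e')).re =
        (X.τ (1 - ∑ i ∈ Finset.range M, (X.γ g ^ i) e₁)).re *
          (X.τ (1 - ∑ i ∈ Finset.range M, (X.γ g ^ i) e)).re := by
  have hP := h.rest_proj
  have hP₁ := h₁.rest_proj
  have hf := h.rest_fixed
  have hm := rest_mem_ZB hz h
  have hl := fun j (hj : j < M) => rest_mul_ZB h hj
  have hr := fun j (hj : j < M) => mul_rest_ZB h hj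
  set P := 1 - ∑ i ∈ Finset.range M, (X.γ g ^ i) e with hPd
  set P₁ := 1 - ∑ i ∈ Finset.range M, (X.γ g ^ i) e₁ with hPd₁
  obtain ⟨𝒮, Ψ, hS, hΨ⟩ := X.ic {e} {e₁, P₁} (Set.countable_singleton _)
    ((Set.countable_singleton _).insert _) (Set.singleton_subset_iff.2 h.mem.1)
  have he : e ∈ 𝒮 := hS rfl
  have hei : ∀ i : ℕ, (X.γ g ^ i) e ∈ 𝒮 := fun i => by
    rw [← map_pow]
    exact hΨ.act_mem _ _ he
  have hPS : P ∈ 𝒮 := sub_mem (one_mem _) (sum_mem fun i _ => hei i)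
  have hFH : ∀ x ∈ 𝒮, x ∈ X.FH H → Ψ x ∈ X.FH H := fun x hx hx' =>
    ⟨X.FT_le_F _ (hΨ.mem x hx), hΨ.mem_Fix hx hx'.2⟩
  have hc : ∀ x ∈ 𝒮, ∀ i : ℕ, Commute (Ψ x) ((X.γ g ^ i) e₁) := fun x hx i => by
    have := X.commute_of_FT (hΨ.mem x hx) (Set.mem_insert e₁ {P₁}) 1 (g ^ i)
    rwa [act_one, map_pow] at this
  have hc₁ : Commute (Ψ P) P₁ := by
    have := X.commute_of_FT (hΨ.mem P hPS) (Set.mem_insert_of_mem e₁ (Set.mem_singleton P₁)) 1 1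
    rwa [act_one, act_one] at this
  have hq := hΨ.proj hPS hP
  have hα : ∀ i : ℕ, (X.γ g ^ i) (Ψ e + Ψ P * e₁) =
      Ψ ((X.γ g ^ i) e) + Ψ P * (X.γ g ^ i) e₁ := fun i => by
    rw [map_add, map_mul, ← hΨ.map_act_pow g i he, ← hΨ.map_act_pow g i hPS, pow_fixed_ZB hf]
  have hmul : ∀ i j : ℕ, i < M → j < M →
      (Ψ ((X.γ g ^ i) e) + Ψ P * (X.γ g ^ i) e₁) * (Ψ ((X.γ g ^ j) e) + Ψ P * (X.γ g ^ j) e₁) =
        Ψ ((X.γ g ^ i) e * (X.γ g ^ j) e) + Ψ P * ((X.γ g ^ i) e₁ * (X.γ g ^ j) e₁) := by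
    intro i j hi hj
    have a1 : Ψ ((X.γ g ^ i) e) * (Ψ P * (X.γ g ^ j) e₁) = 0 := by
      rw [← mul_assoc, ← hΨ.map_mul _ (hei i) _ hPS, hl i hi, map_zero, zero_mul]
    have a2 : Ψ P * (X.γ g ^ i) e₁ * Ψ ((X.γ g ^ j) e) = 0 := by
      rw [mul_assoc, ← (hc _ (hei j) i).eq, ← mul_assoc, ← hΨ.map_mul _ hPS _ (hei j), hr j hj,
        map_zero, zero_mul]
    have a3 : Ψ P * (X.γ g ^ i) e₁ * (Ψ P * (X.γ g ^ j) e₁) =
        Ψ P * ((X.γ g ^ i) e₁ * (X.γ g ^ j) e₁) := by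
      rw [mul_assoc, ← mul_assoc _ (Ψ P), ← (hc _ hPS i).eq, mul_assoc, ← mul_assoc,
        hq.isIdempotentElem.eq]
    rw [add_mul, mul_add, mul_add, a1, a2, a3, ← hΨ.map_mul _ (hei i) _ (hei j), add_zero,
      zero_add]
  have h00 : ∀ x : A, (X.γ g ^ 0) x = x := fun _ => rfl
  refine ⟨Ψ e + Ψ P * e₁, ⟨add_mem (hFH _ he h.mem) (mul_mem (hFH _ hPS hm) h₁.mem), ⟨?_, ?_⟩,
    fun i h0 hi => ?_, ?_⟩, ?_⟩
  · have := hmul 0 0 hM hM
    simp only [h00] at this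
    rw [IsIdempotentElem, this, h.proj.isIdempotentElem.eq, h₁.proj.isIdempotentElem.eq]
  · have := (hc _ hPS 0).eq
    rw [h00] at this
    rw [IsSelfAdjoint, star_add, star_mul, (hΨ.proj he h.proj).isSelfAdjoint.star_eq,
      hq.isSelfAdjoint.star_eq, h₁.proj.isSelfAdjoint.star_eq, this]
  · have := hmul 0 i hM hi
    simp only [h00] at this
    rw [hα, this, h.orth i h0 hi, h₁.orth i h0 hi, map_zero, mul_zero, add_zero]
  · rw [hα, h.cyc, h₁.cyc]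
  · have e1 : 1 - ∑ i ∈ Finset.range M, (X.γ g ^ i) (Ψ e + Ψ P * e₁) = P₁ * Ψ P := by
      simp only [hα]
      rw [Finset.sum_add_distrib, ← map_sum, ← Finset.mul_sum, ← hc₁.eq, hPd₁, mul_sub, mul_one]
      have : Ψ P = 1 - Ψ (∑ i ∈ Finset.range M, (X.γ g ^ i) e) := by
        rw [hPd, map_sub, hΨ.map_one]
      rw [sub_add_eq_sub_sub, ← this]
    rw [e1, hΨ.indep P₁ (Set.mem_insert_of_mem e₁ (Set.mem_singleton P₁)) P hPS, Complex.mul_re,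
      tr_im_of_sa X.τ hP.isSelfAdjoint, mul_zero, sub_zero]

theorem Sys.closing_boost (hz : ZCtx H K g) (hH : X.Good H) {M : ℕ} (hM : 0 < M) {η : ℝ}
    (hη : 0 < η) : ∃ e, IsTower (X.γ g) (X.FH H) M e ∧
      (X.τ (1 - ∑ i ∈ Finset.range M, (X.γ g ^ i) e)).re ≤ η := by
  obtain ⟨e₁, h₁, ht⟩ := Sys.closing hz hH hM
  have hM' : (0 : ℝ) < M := Nat.cast_pos.2 hM
  have h34 : (X.τ (1 - ∑ i ∈ Finset.range M, (X.γ g ^ i) e₁)).re ≤ 3 / 4 := by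
    rw [tr_rest_ZB]
    have := mul_le_mul_of_nonneg_left ht hM'.le
    have e : (M : ℝ) * (1 / (4 * M)) = 1 / 4 := by field_simp
    linarith
  have key : ∀ n : ℕ, ∃ e, IsTower (X.γ g) (X.FH H) M e ∧
      (X.τ (1 - ∑ i ∈ Finset.range M, (X.γ g ^ i) e)).re ≤ (3 / 4) ^ n := by
    intro n
    induction n with
    | zero => exact ⟨e₁, h₁, h34.trans (by norm_num)⟩
    | succ n ih =>
      obtain ⟨e, h, hle⟩ := ih
      obtain ⟨e', h', heq⟩ := step_ZB hz hM h h₁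
      refine ⟨e', h', ?_⟩
      rw [heq, pow_succ']
      exact mul_le_mul h34 hle (tr_re_nonneg _ h.rest_proj.nonneg) (by norm_num)
  obtain ⟨n, hn⟩ := exists_pow_lt_of_lt_one hη (by norm_num : (3 / 4 : ℝ) < 1)
  obtain ⟨e, h, hle⟩ := key n
  exact ⟨e, h, hle.trans hn.le⟩

theorem Sys.absorb_chain (hz : ZCtx H K g) (hH : X.Good H) {M : ℕ} (hM : 0 < M) :
    ∃ (e : A) (v : ℕ → A), IsTower (X.γ g) (X.FH H) M e ∧ (∀ j, v j ∈ X.FH H) ∧
      ∀ j < M, star (v j) * v j = 1 - ∑ i ∈ Finset.range M, (X.γ g ^ i) e ∧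
        (X.γ g ^ j) e * v j = v j ∧ ‖X.γ g (v j) - v ((j + 1) % M)‖ ≤ 4 / (M : ℝ) := by
  have hM' : (0 : ℝ) < M := Nat.cast_pos.2 hM
  have hM1 : (1 : ℝ) ≤ M := Nat.one_le_cast.2 hM
  obtain ⟨e, h, ht⟩ := Sys.closing_boost hz hH hM (η := 1 / (8 * M)) (by positivity)
  have hP := h.rest_proj
  have hf := h.rest_fixed
  have hm := rest_mem_ZB hz h
  have htr := tr_rest_ZB (X := X) (g := g) M e
  set P := 1 - ∑ i ∈ Finset.range M, (X.γ g ^ i) e with hPd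
  have hP0 := tr_re_nonneg X.τ hP.nonneg
  have hx : (M : ℝ) * (1 / (8 * M)) = 1 / 8 := by field_simp
  have hx0 : (0 : ℝ) < 1 / (8 * M) := by positivity
  have hδ : ∀ m : ℕ, 3 * (X.τ P).re + 1 / (8 * M) ≤ (X.τ (e ^ m)).re := by
    intro m
    rcases Nat.eq_zero_or_pos m with rfl | hm0
    · rw [pow_zero, X.tr.1, Complex.one_re]
      nlinarith
    · rw [h.proj.isIdempotentElem.pow_eq hm0.ne']
      refine le_of_mul_le_mul_left ?_ hM'
      nlinarith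
  obtain ⟨s₀, hs₀, hs₁, hs₂⟩ := hH.1 P e hm h.mem hP h.proj.nonneg h.proj.le_one
    ⟨1 / (8 * M), hx0, fun m => by linarith [hδ m]⟩
  have hc := chn_iso X.tr hH.1 hm h.mem (hz.pow_mem_FH M hs₀) hs₀ hP h.proj.nonneg h.proj.le_one
    (by rw [← map_star, ← map_mul, hs₁, pow_fixed_ZB hf]) hs₁
    (by rw [← congrArg (fun x => x * (X.γ g ^ M) s₀) h.cyc, ← map_mul, hs₂]) hs₂
    ⟨1 / (8 * M), hx0, hδ⟩
  obtain ⟨z, hz0, hzM, hzP, hzd⟩ := hc M hM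
  refine ⟨e, fun j => (X.γ g ^ j) (z j), h, fun j => hz.pow_mem_FH j (hzP j).1, fun j hj =>
    ⟨?_, ?_, ?_⟩⟩
  · rw [← map_star, ← map_mul, (hzP j).2.1, pow_fixed_ZB hf]
  · rw [← map_mul, (hzP j).2.2]
  · have e1 : (X.γ g ^ ((j + 1) % M)) (z ((j + 1) % M)) = (X.γ g ^ (j + 1)) (z (j + 1)) := by
      rcases (Nat.succ_le_of_lt hj).eq_or_lt with h1 | h1
      · have h2 : j + 1 = M := h1
        rw [h2, Nat.mod_self, hz0, hzM]
        rfl
      · rw [Nat.mod_eq_of_lt h1]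
    change ‖X.γ g ((X.γ g ^ j) (z j)) - (X.γ g ^ ((j + 1) % M)) (z ((j + 1) % M))‖ ≤ _
    rw [e1, ← pow_succ_apply_ZB, ← map_sub, StarAlgEquiv.norm_map, norm_sub_rev]
    exact hzd j

end Pool.Agent.Izumi
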