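import Pool.Agent.Lib.MP_b2135d_an.Core

/-! The cyclic shift plus a fixed vector is close to a cyclic shift (PLAN section 8, Z4). -/

namespace Pool.Agent.Izumi

open scoped Matrix Matrix.Norms.L2Operator

/-- The standard primitive root of unity. -/
noncomputable def zcE (n : ℕ) : ℂ := Complex.exp (2 * Real.pi * Complex.I / n)

/-- The Fourier matrix. -/
noncomputable def zcF (n : ℕ) : Matrix (Fin n) (Fin n) ℂ :=
  Matrix.of fun k t => (zcE n ^ (k : ℕ)) ^ (t : ℕ) / ((√(n : ℝ) : ℝ) : ℂ)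

theorem zcF_orth {n : ℕ} (k l : Fin n) :
    ∑ t, zcF n k t * star (zcF n l t) = if k = l then 1 else 0 := by
  have hn : n ≠ 0 := k.pos.ne'
  have h1 : IsPrimitiveRoot (zcE n) n := Complex.isPrimitiveRoot_exp n hn
  have h2 : star (zcE n) = (zcE n)⁻¹ := (Complex.inv_eq_conj (h1.norm'_eq_one hn)).symm
  have h0 : zcE n ≠ 0 := h1.ne_zero hn
  have h3 : ((√(n : ℝ) : ℝ) : ℂ) * ((√(n : ℝ) : ℝ) : ℂ) = n := by
    rw [← Complex.ofReal_mul, Real.mul_self_sqrt (Nat.cast_nonneg n), Complex.ofReal_natCast]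
  have h4 : ∀ t : Fin n, zcF n k t * star (zcF n l t) =
      (zcE n ^ (k : ℕ) / zcE n ^ (l : ℕ)) ^ (t : ℕ) / n := fun t => by
    simp only [zcF, Matrix.of_apply, star_div₀, star_pow, h2]
    rw [Complex.star_def, Complex.conj_ofReal, div_mul_div_comm, h3, ← mul_pow, inv_pow,
      div_eq_mul_inv (zcE n ^ (k : ℕ))]
  have hn' : (n : ℂ) ≠ 0 := Nat.cast_ne_zero.2 hn
  simp only [h4]
  rw [← Finset.sum_div, Fin.sum_univ_eq_sum_range
    (fun t => (zcE n ^ (k : ℕ) / zcE n ^ (l : ℕ)) ^ t) n]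
  split_ifs with h
  · subst h
    simp [div_self (pow_ne_zero _ h0), hn']
  · have h5 : zcE n ^ (k : ℕ) / zcE n ^ (l : ℕ) ≠ 1 := fun e =>
      h (Fin.ext (h1.pow_inj k.2 l.2 ((div_eq_one_iff_eq (pow_ne_zero _ h0)).1 e)))
    rw [geom_sum_eq h5, div_pow, pow_right_comm, pow_right_comm _ (l : ℕ), h1.pow_eq_one]
    simp

theorem zcF_shift {n : ℕ} {k k' : Fin n} (h : (k' : ℕ) = (k + 1) % n) (t : Fin n) :
    zcF n k' t = zcE n ^ (t : ℕ) * zcF n k t := by
  have h1 : IsPrimitiveRoot (zcE n) n := Complex.isPrimitiveRoot_exp n k.pos.ne'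
  simp only [zcF, Matrix.of_apply]
  rw [h, ← pow_eq_pow_mod _ h1.pow_eq_one, pow_succ', mul_pow, mul_div_assoc]

/-- The eigenvectors of the rotation that fixes the last point. -/
noncomputable def zcX (M : ℕ) : Matrix (Fin (M + 1)) (Fin (M + 1)) ℂ :=
  Matrix.of fun a t => Fin.lastCases (motive := fun _ => ℂ)
    (Fin.cases (motive := fun _ => ℂ) 1 (fun _ => 0) t)
    (fun a' => Fin.cases (motive := fun _ => ℂ) 0 (fun t' => zcF M a' t') t) a

/-- The eigenvalues of the rotation that fixes the last point. -/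
noncomputable def zcL (M : ℕ) (t : Fin (M + 1)) : ℂ :=
  Fin.cases (motive := fun _ => ℂ) 1 (fun t' => zcE M ^ (t' : ℕ)) t

theorem zcX_mem (M : ℕ) : zcX M ∈ Matrix.unitaryGroup (Fin (M + 1)) ℂ := by
  rw [Matrix.mem_unitaryGroup_iff]
  ext a b
  rw [Matrix.mul_apply, Fin.sum_univ_succ, Matrix.one_apply]
  simp only [Matrix.star_apply]
  induction a using Fin.lastCases with
  | last =>
    induction b using Fin.lastCases with
    | last => simp [zcX]
    | cast b => simp [zcX, (Fin.castSucc_lt_last b).ne']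
  | cast a =>
    induction b using Fin.lastCases with
    | last => simp [zcX, (Fin.castSucc_lt_last a).ne]
    | cast b =>
      simp only [zcX, Matrix.of_apply, Fin.lastCases_castSucc, Fin.cases_zero, Fin.cases_succ,
        zero_mul, zero_add, zcF_orth, Fin.castSucc_inj]

theorem zcX_shift (M : ℕ) (a t : Fin (M + 1)) : zcX M (rotFix M a) t = zcL M t * zcX M a t := by
  induction a using Fin.lastCases with
  | last =>
    have h : rotFix M (Fin.last M) = Fin.last M := dif_neg (lt_irrefl M)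
    rw [h]
    induction t using Fin.cases <;> simp [zcX, zcL]
  | cast a =>
    have h : rotFix M a.castSucc = Fin.castSucc ⟨(a + 1) % M, Nat.mod_lt _ a.pos⟩ := dif_pos a.2
    rw [h]
    induction t using Fin.cases with
    | zero => simp only [zcX, Matrix.of_apply, Fin.lastCases_castSucc, Fin.cases_zero, mul_zero]
    | succ t =>
      simp only [zcX, zcL, Matrix.of_apply, Fin.lastCases_castSucc, Fin.cases_succ]
      exact zcF_shift rfl t

theorem zc_bound {M : ℕ} (hM : 0 < M) (t : Fin (M + 1)) :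
    ‖1 - zcE (M + 1) ^ (t : ℕ) * star (zcL M t)‖ ≤ 7 / (M : ℝ) := by
  have hM' : (0 : ℝ) < M := Nat.cast_pos.2 hM
  induction t using Fin.cases with
  | zero =>
    simp only [zcL, Fin.cases_zero, Fin.val_zero, pow_zero, star_one, mul_one, sub_self, norm_zero]
    positivity
  | succ s =>
    have h1 : IsPrimitiveRoot (zcE M) M := Complex.isPrimitiveRoot_exp M hM.ne'
    have h2 : star (zcE M) = (zcE M)⁻¹ := (Complex.inv_eq_conj (h1.norm'_eq_one hM.ne')).symm
    have h3 : zcE (M + 1) ^ ((s : ℕ) + 1) * (zcE M)⁻¹ ^ (s : ℕ) = Complex.exp (Complex.I *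
        (2 * Real.pi * ((M - (s : ℕ)) / (M * (M + 1))) : ℝ)) := by
      have h4 : (M : ℂ) ≠ 0 := Nat.cast_ne_zero.2 hM.ne'
      have h5 : (M : ℂ) + 1 ≠ 0 := by exact_mod_cast M.succ_ne_zero
      rw [zcE, zcE, ← Complex.exp_neg, ← Complex.exp_nat_mul, ← Complex.exp_nat_mul,
        ← Complex.exp_add]
      congr 1
      push_cast
      field_simp
      ring
    have h4 : ((s : ℕ) : ℝ) ≤ M := Nat.cast_le.2 s.2.le
    have h5 : (0 : ℝ) ≤ (s : ℕ) := Nat.cast_nonneg _
    have h6 : (0 : ℝ) ≤ (M - (s : ℕ)) / (M * (M + 1)) := div_nonneg (by linarith) (by positivity)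
    have h7 : ((M : ℝ) - (s : ℕ)) / (M * (M + 1)) ≤ 1 / M := by
      rw [div_le_div_iff₀ (by positivity) hM']
      nlinarith
    simp only [zcL, Fin.cases_succ, Fin.val_succ, star_pow, h2]
    rw [h3, norm_sub_rev]
    refine Real.norm_exp_I_mul_ofReal_sub_one_le.trans ?_
    rw [Real.norm_of_nonneg (by positivity)]
    calc _ ≤ 7 * (1 / (M : ℝ)) :=
          mul_le_mul (by linarith [Real.pi_lt_d2]) h7 h6 (by norm_num)
      _ = _ := by ring

theorem dft_matrix {M : ℕ} (hM : 0 < M) :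
    ∃ c ∈ Matrix.unitaryGroup (Fin (M + 1)) ℂ,
      ‖(Matrix.of fun k a => c k a - c (k + 1) (rotFix M a) :
        Matrix (Fin (M + 1)) (Fin (M + 1)) ℂ)‖ ≤ 7 / (M : ℝ) := by
  have h1 : zcF (M + 1) ∈ Matrix.unitaryGroup (Fin (M + 1)) ℂ := by
    rw [Matrix.mem_unitaryGroup_iff]
    ext k l
    exact (zcF_orth k l).trans Matrix.one_apply.symm
  have h2 : star (zcX M) ∈ Matrix.unitaryGroup (Fin (M + 1)) ℂ := Unitary.star_mem (zcX_mem M)
  refine ⟨zcF (M + 1) * star (zcX M), mul_mem h1 h2, ?_⟩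
  have h3 : (Matrix.of fun k a => (zcF (M + 1) * star (zcX M)) k a -
      (zcF (M + 1) * star (zcX M)) (k + 1) (rotFix M a) : Matrix (Fin (M + 1)) (Fin (M + 1)) ℂ) =
      zcF (M + 1) * Matrix.diagonal
        (fun t : Fin (M + 1) => 1 - zcE (M + 1) ^ (t : ℕ) * star (zcL M t)) * star (zcX M) := by
    ext k a
    rw [Matrix.of_apply, Matrix.mul_apply, Matrix.mul_apply, Matrix.mul_apply,
      ← Finset.sum_sub_distrib]
    refine Finset.sum_congr rfl fun t _ => ?_
    rw [Matrix.mul_diagonal, Matrix.star_apply, Matrix.star_apply, zcX_shift,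
      zcF_shift (k := k) (k' := k + 1) (by rw [Fin.val_add, Fin.val_one', Nat.add_mod_mod]) t,
      star_mul']
    ring
  rw [h3, CStarRing.norm_mul_mem_unitary _ h2, CStarRing.norm_mem_unitary_mul _ h1,
    Matrix.l2_opNorm_diagonal]
  exact (pi_norm_le_iff_of_nonneg (by positivity)).2 (zc_bound hM)

theorem rotFix_bijective (M : ℕ) : Function.Bijective (rotFix M) := by
  refine Finite.injective_iff_bijective.1 fun a b h => Fin.ext ?_
  have h1 := congrArg Fin.val h
  have ha := a.2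
  have hb := b.2
  unfold rotFix at h1
  have key : ∀ x, x < M → (x + 1) % M = if x + 1 = M then 0 else x + 1 := fun x hx => by
    split_ifs with e
    · rw [e, Nat.mod_self]
    · exact Nat.mod_eq_of_lt (by omega)
  by_cases h2 : (a : ℕ) < M <;> by_cases h3 : (b : ℕ) < M
  · rw [dif_pos h2, dif_pos h3] at h1
    simp only [key _ h2, key _ h3] at h1
    split_ifs at h1 <;> omega
  · rw [dif_pos h2, dif_neg h3] at h1
    simp only [key _ h2] at h1
    split_ifs at h1 <;> omega
  · rw [dif_neg h2, dif_pos h3] at h1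
    simp only [key _ h3] at h1
    split_ifs at h1 <;> omega
  · omega

end Pool.Agent.Izumi
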