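import Pool.Agent.Lib.MP_b2135d_an.ZB
import Pool.Agent.Lib.MP_b2135d_an.ZC
import Pool.Agent.Lib.MP_b2135d_an.CB
import Pool.Agent.Lib.MP_b2135d_an.CB2

/-! Towers of heights M and M + 1 up to a small error (PLAN section 8, Z4 and Z5). -/

namespace Pool.Agent.Izumi

open scoped ComplexOrder Matrix
open Filter Topology

variable {G A : Type} [Group G] [CStarAlgebra A] [PartialOrder A] [StarOrderedRing A] [Countable G] {X : Sys G A}
  {H K : Subgroup G} {g : G}

omit [PartialOrder A] [StarOrderedRing A] in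
theorem zd_star_comb {n : Type} [Fintype n] (r : n → ℂ) (x : n → A) :
    star (∑ a, star (r a) • x a) = ∑ b, r b • star (x b) := by
  rw [star_sum]
  refine Finset.sum_congr rfl fun b _ => ?_
  rw [star_smul, star_star]

omit [PartialOrder A] [StarOrderedRing A] in
theorem zd_row_comb {n : Type} [Fintype n] (c : Matrix n n ℂ) (x : n → A) :
    ∑ k, (∑ a, star (c k a) • x a) * star (∑ a, star (c k a) • x a)
      = ∑ a, ∑ b, (cᴴ * c) a b • (x a * star (x b)) := by
  have h1 : ∀ k, (∑ a, star (c k a) • x a) * star (∑ a, star (c k a) • x a)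
      = ∑ a, ∑ b, (star (c k a) * c k b) • (x a * star (x b)) := by
    intro k
    rw [zd_star_comb (fun a => c k a) x, Finset.sum_mul_sum]
    refine Finset.sum_congr rfl fun a _ => Finset.sum_congr rfl fun b _ => ?_
    rw [smul_mul_smul_comm]
  rw [Finset.sum_congr rfl fun k _ => h1 k, Finset.sum_comm]
  refine Finset.sum_congr rfl fun a _ => ?_
  rw [Finset.sum_comm]
  refine Finset.sum_congr rfl fun b _ => ?_
  rw [← Finset.sum_smul, Matrix.mul_apply]
  rfl

omit [PartialOrder A] [StarOrderedRing A] in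
theorem zd_row_unitary {n : Type} [Fintype n] [DecidableEq n] {c : Matrix n n ℂ}
    (hc : cᴴ * c = 1) (x : n → A) :
    ∑ k, (∑ a, star (c k a) • x a) * star (∑ a, star (c k a) • x a) = ∑ a, x a * star (x a) := by
  rw [zd_row_comb, hc]
  refine Finset.sum_congr rfl fun a _ => ?_
  rw [Finset.sum_eq_single a]
  · rw [Matrix.one_apply_eq, one_smul]
  · intro b _ hb
    rw [Matrix.one_apply_ne (Ne.symm hb), zero_smul]
  · intro h; exact absurd (Finset.mem_univ a) h

/-- The homomorphism from complex matrices defined by a family of isometries. -/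
noncomputable def zdHom {n : Type} [Fintype n] [DecidableEq n] {P : A} (y : n → A)
    (hy : ∀ a b, star (y a) * y b = if a = b then P else 0) (hP : ∀ a, y a * P = y a) :
    Matrix n n ℂ →⋆ₙₐ[ℂ] A where
  toFun m := ∑ a, ∑ b, m a b • (y a * star (y b))
  map_smul' r m := by
    simp only [Matrix.smul_apply, smul_eq_mul, MonoidHom.id_apply, Finset.smul_sum, smul_smul]
  map_zero' := by simp
  map_add' m m' := by
    simp only [Matrix.add_apply, add_smul, Finset.sum_add_distrib]
  map_mul' m m' := by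
    have key : ∀ a b c d, (m a b • (y a * star (y b))) * (m' c d • (y c * star (y d)))
        = if b = c then (m a b * m' c d) • (y a * star (y d)) else 0 := by
      intro a b c d
      rw [smul_mul_smul_comm, mul_assoc (y a), ← mul_assoc (star (y b)), hy]
      split_ifs with h
      · rw [← mul_assoc (y a), hP]
      · rw [zero_mul, mul_zero, smul_zero]
    rw [Finset.sum_mul]
    refine Finset.sum_congr rfl fun a _ => ?_
    have h2 : ∀ b, (m a b • (y a * star (y b))) * ∑ c, ∑ d, m' c d • (y c * star (y d))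
        = ∑ d, (m a b * m' b d) • (y a * star (y d)) := by
      intro b
      rw [Finset.mul_sum, Finset.sum_eq_single b]
      · rw [Finset.mul_sum]
        refine Finset.sum_congr rfl fun d _ => ?_
        rw [key, if_pos rfl]
      · intro c _ hc
        rw [Finset.mul_sum]
        refine Finset.sum_eq_zero fun d _ => ?_
        rw [key, if_neg (Ne.symm hc)]
      · intro h; exact absurd (Finset.mem_univ b) h
    rw [Finset.sum_mul, Finset.sum_congr rfl fun b _ => h2 b, Finset.sum_comm]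
    refine Finset.sum_congr rfl fun d _ => ?_
    rw [← Finset.sum_smul, Matrix.mul_apply]
  map_star' m := by
    rw [star_sum, Finset.sum_comm]
    refine Finset.sum_congr rfl fun a _ => ?_
    rw [star_sum]
    refine Finset.sum_congr rfl fun b _ => ?_
    rw [star_smul, star_mul, star_star, Matrix.star_apply]

omit [PartialOrder A] [StarOrderedRing A] in
open scoped Matrix.Norms.L2Operator in
theorem zd_row_norm {n : Type} [Fintype n] [DecidableEq n] {P : A} (y : n → A)
    (hy : ∀ a b, star (y a) * y b = if a = b then P else 0) (hP : ∀ a, y a * P = y a)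
    (D : Matrix n n ℂ) :
    ‖∑ k, (∑ a, star (D k a) • y a) * star (∑ a, star (D k a) • y a)‖ ≤ ‖D‖ ^ 2 := by
  rw [zd_row_comb]
  have h1 := NonUnitalStarAlgHom.norm_apply_le (zdHom y hy hP) (Dᴴ * D)
  have h2 : ‖Dᴴ * D‖ = ‖D‖ * ‖D‖ := Matrix.l2_opNorm_conjTranspose_mul_self D
  rw [h2, ← sq] at h1
  exact h1

open scoped Matrix.Norms.L2Operator in
theorem dft_op (α : A ≃⋆ₐ[ℂ] A) {M : ℕ} (hM : 0 < M) (C : StarSubalgebra ℂ A) {P : A}
    (hP : IsStarProjection P) (w : Fin (M + 1) → A) (hwC : ∀ a, w a ∈ C)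
    (hw : ∀ a b, star (w a) * w b = if a = b then P else 0) {η : ℝ} (hη : 0 ≤ η)
    (he : ‖∑ a, (α (w a) - w (rotFix M a)) * star (α (w a) - w (rotFix M a))‖ ≤ η ^ 2) :
    ∃ u : Fin (M + 1) → A, (∀ k, u k ∈ C) ∧
      (∀ k l, star (u k) * u l = if k = l then P else 0) ∧
      ∑ k, u k * star (u k) = ∑ a, w a * star (w a) ∧
      ‖∑ k, (α (u k) - u (k + 1)) * star (α (u k) - u (k + 1))‖ ≤ (η + 7 / (M : ℝ)) ^ 2 := by
  obtain ⟨c, hc, hD⟩ := dft_matrix hM
  have hc1 : cᴴ * c = 1 := Matrix.mem_unitaryGroup_iff'.1 hc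
  have hc2 : c * cᴴ = 1 := Matrix.mem_unitaryGroup_iff.1 hc
  have hν := rotFix_bijective M
  set D : Matrix (Fin (M + 1)) (Fin (M + 1)) ℂ :=
    Matrix.of fun k a => c k a - c (k + 1) (rotFix M a) with hDdef
  refine ⟨fun k => ∑ a, star (c k a) • w a, fun k => ?_, fun k l => ?_, zd_row_unitary hc1 w, ?_⟩
  · exact sum_mem fun a _ => SMulMemClass.smul_mem _ (hwC a)
  · rw [zd_star_comb (fun a => c k a) w, Finset.sum_mul_sum]
    have h1 : ∀ a, ∑ b, (c k a • star (w a)) * (star (c l b) • w b) = (c k a * star (c l a)) • P := by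
      intro a
      rw [Finset.sum_eq_single a]
      · rw [smul_mul_smul_comm, hw, if_pos rfl]
      · intro b _ hb
        rw [smul_mul_smul_comm, hw, if_neg (Ne.symm hb), smul_zero]
      · intro h; exact absurd (Finset.mem_univ a) h
    rw [Finset.sum_congr rfl fun a _ => h1 a, ← Finset.sum_smul]
    have h2 : ∑ a, c k a * star (c l a) = (c * cᴴ) k l := by
      rw [Matrix.mul_apply]; rfl
    rw [h2, hc2, Matrix.one_apply]
    split_ifs
    · rw [one_smul]
    · rw [zero_smul]
  · have hsplit : ∀ k, α (∑ a, star (c k a) • w a) - ∑ a, star (c (k + 1) a) • w a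
        = (∑ a, star (c k a) • (α (w a) - w (rotFix M a)))
          + ∑ a, star (D k a) • w (rotFix M a) := by
      intro k
      rw [map_sum, ← hν.sum_comp (fun a => star (c (k + 1) a) • w a), ← Finset.sum_sub_distrib,
        ← Finset.sum_add_distrib]
      refine Finset.sum_congr rfl fun a _ => ?_
      rw [map_smul, hDdef, Matrix.of_apply, star_sub, sub_smul, smul_sub]
      abel
    have hwP : ∀ a, w a * P = w a := fun a =>
      mul_eq_of_star_mul_self hP (by rw [hw, if_pos rfl])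
    have hy : ∀ a b, star (w (rotFix M a)) * w (rotFix M b) = if a = b then P else 0 := by
      intro a b
      rw [hw]
      by_cases h : a = b
      · rw [if_pos h, if_pos (congrArg _ h)]
      · rw [if_neg h, if_neg fun h' => h (hν.1 h')]
    have h7 : 0 ≤ 7 / (M : ℝ) := by positivity
    have hA := zd_row_unitary hc1 (fun a => α (w a) - w (rotFix M a))
    have hB := zd_row_norm (fun a => w (rotFix M a)) hy (fun a => hwP _) D
    have hrow := row_add_le Finset.univ
      (fun k => ∑ a, star (c k a) • (α (w a) - w (rotFix M a)))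
      (fun k => ∑ a, star (D k a) • w (rotFix M a))
    rw [hA] at hrow
    have h3 : √‖∑ a, (α (w a) - w (rotFix M a)) * star (α (w a) - w (rotFix M a))‖ ≤ η :=
      Real.sqrt_le_iff.2 ⟨hη, he⟩
    have h4 : √‖∑ k, (∑ a, star (D k a) • w (rotFix M a))
        * star (∑ a, star (D k a) • w (rotFix M a))‖ ≤ 7 / (M : ℝ) :=
      Real.sqrt_le_iff.2 ⟨h7, hB.trans (pow_le_pow_left₀ (norm_nonneg _) hD 2)⟩
    have h5 := hrow.trans (add_le_add h3 h4)
    simp only [hsplit]
    exact (Real.sqrt_le_iff.1 h5).2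

theorem zd_orth_sum {ι : Type} (s : Finset ι) (F y : ι → A) {c : ℝ} (hc : 0 ≤ c)
    (hF : ∀ i ∈ s, star (F i) = F i) (ho : ∀ i ∈ s, ∀ j ∈ s, i ≠ j → F i * F j = 0)
    (hy : ∀ i ∈ s, star (y i) = y i) (hFy : ∀ i ∈ s, F i * y i = y i)
    (hn : ∀ i ∈ s, ‖y i‖ ≤ c) : ‖∑ i ∈ s, y i‖ ≤ c := by
  have key : ∀ i ∈ s, ∀ j ∈ s, i ≠ j → y i * y j = 0 := by
    intro i hi j hj hij
    have h1 : y i * F i = y i := by
      have h2 := congrArg star (hFy i hi)
      rwa [star_mul, hy i hi, hF i hi] at h2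
    calc y i * y j = (y i * F i) * (F j * y j) := by rw [h1, hFy j hj]
      _ = y i * (F i * F j) * y j := by simp only [mul_assoc]
      _ = 0 := by rw [ho i hi j hj hij, mul_zero, zero_mul]
  refine norm_orth_sum s y hc (fun i hi j hj hij => ?_) (fun i hi j hj hij => ?_) hn
  · rw [hy i hi]; exact key i hi j hj hij
  · rw [hy j hj]; exact key i hi j hj hij

omit [PartialOrder A] [StarOrderedRing A] in
theorem zd_diff_split (a b : A) :
    a * star a - b * star b = (a - b) * star a + b * star (a - b) := by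
  rw [star_sub]; noncomm_ring

omit [PartialOrder A] [StarOrderedRing A] in
theorem zd_diff_norm {a b : A} (ha : ‖a‖ ≤ 1) (hb : ‖b‖ ≤ 1) :
    ‖a * star a - b * star b‖ ≤ 2 * ‖a - b‖ := by
  rw [zd_diff_split]
  have h1 : ‖(a - b) * star a‖ ≤ ‖a - b‖ := by
    refine (norm_mul_le _ _).trans ?_
    rw [norm_star]
    exact mul_le_of_le_one_right (norm_nonneg _) ha
  have h2 : ‖b * star (a - b)‖ ≤ ‖a - b‖ := by
    refine (norm_mul_le _ _).trans ?_
    rw [norm_star]
    exact mul_le_of_le_one_left (norm_nonneg _) hb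
  have h3 := norm_add_le ((a - b) * star a) (b * star (a - b))
  linarith

theorem zd_diff_sum {ι : Type} {J t : Finset ι} (hJ : J ⊆ t) (a b : ι → A) {c : ℝ} (hc : 0 ≤ c)
    (ha : ‖∑ i ∈ t, a i * star (a i)‖ ≤ 1) (hb : ‖∑ i ∈ t, b i * star (b i)‖ ≤ 1)
    (hd : ‖∑ i ∈ t, (a i - b i) * star (a i - b i)‖ ≤ c ^ 2) :
    ‖∑ i ∈ J, (a i * star (a i) - b i * star (b i))‖ ≤ 2 * c := by
  have ha' : √‖∑ i ∈ J, a i * star (a i)‖ ≤ 1 :=
    Real.sqrt_le_iff.2 ⟨zero_le_one, by
      rw [one_pow]; exact (norm_sum_mul_star_mono hJ a).trans ha⟩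
  have hb' : √‖∑ i ∈ J, b i * star (b i)‖ ≤ 1 :=
    Real.sqrt_le_iff.2 ⟨zero_le_one, by
      rw [one_pow]; exact (norm_sum_mul_star_mono hJ b).trans hb⟩
  have hd' : √‖∑ i ∈ J, (a i - b i) * star (a i - b i)‖ ≤ c :=
    Real.sqrt_le_iff.2 ⟨hc, (norm_sum_mul_star_mono hJ fun i => a i - b i).trans hd⟩
  have h1 := cs_sum_one J (fun i => a i - b i) a
  have h2 := cs_sum_one J b (fun i => a i - b i)
  have h3 : ‖∑ i ∈ J, (a i - b i) * star (a i)‖ ≤ c :=
    h1.trans ((mul_le_of_le_one_right (Real.sqrt_nonneg _) ha').trans hd')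
  have h4 : ‖∑ i ∈ J, b i * star (a i - b i)‖ ≤ c :=
    h2.trans ((mul_le_of_le_one_left (Real.sqrt_nonneg _) hb').trans hd')
  rw [Finset.sum_congr rfl fun i _ => zd_diff_split (a i) (b i), Finset.sum_add_distrib]
  have h5 := norm_add_le (∑ i ∈ J, (a i - b i) * star (a i)) (∑ i ∈ J, b i * star (a i - b i))
  linarith

theorem zd_succ_mod_inj {M i j : ℕ} (hi : i < M) (hj : j < M)
    (h : (i + 1) % M = (j + 1) % M) : i = j := by
  rcases Nat.lt_or_ge (i + 1) M with h1 | h1 <;> rcases Nat.lt_or_ge (j + 1) M with h2 | h2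
  · rw [Nat.mod_eq_of_lt h1, Nat.mod_eq_of_lt h2] at h; omega
  · have h3 : j + 1 = M := by omega
    rw [Nat.mod_eq_of_lt h1, h3, Nat.mod_self] at h; omega
  · have h3 : i + 1 = M := by omega
    rw [Nat.mod_eq_of_lt h2, h3, Nat.mod_self] at h; omega
  · omega

theorem zd_towers (α : A ≃⋆ₐ[ℂ] A) (C : StarSubalgebra ℂ A) {M : ℕ} (hM : 0 < M)
    (E v : ℕ → A) (P : A) (hEC : ∀ j, E j ∈ C) (hvC : ∀ j, v j ∈ C)
    (hE : ∀ j, IsStarProjection (E j))
    (hEo : ∀ i < M, ∀ j < M, i ≠ j → E i * E j = 0)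
    (hEα : ∀ j < M, α (E j) = E ((j + 1) % M))
    (hPdef : P = 1 - ∑ i ∈ Finset.range M, E i) (hP : IsStarProjection P) (hPα : α P = P)
    (hv : ∀ j < M, star (v j) * v j = P ∧ E j * v j = v j ∧
      ‖α (v j) - v ((j + 1) % M)‖ ≤ 4 / (M : ℝ)) :
    ∃ e f : ℕ → A, (∀ j, e j ∈ C ∧ IsStarProjection (e j)) ∧
      (∀ k, f k ∈ C ∧ IsStarProjection (f k)) ∧
      ∑ j ∈ Finset.range M, e j + ∑ k ∈ Finset.range (M + 1), f k = 1 ∧
      (∀ J ⊆ Finset.range M, ‖∑ j ∈ J, (α (e j) - e ((j + 1) % M))‖ ≤ 30 / (M : ℝ)) ∧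
      ∀ J ⊆ Finset.range (M + 1),
        ‖∑ k ∈ J, (α (f k) - f ((k + 1) % (M + 1)))‖ ≤ 30 / (M : ℝ) := by
  have hMr : (0 : ℝ) < M := Nat.cast_pos.2 hM
  have hmod : ∀ j, j % M < M := fun j => Nat.mod_lt j hM
  have hEs : ∀ j, star (E j) = E j := fun j => (hE j).isSelfAdjoint.star_eq
  have hPs : star P = P := hP.isSelfAdjoint.star_eq
  have hPP : P * P = P := hP.isIdempotentElem.eq
  have hPC : P ∈ C := by
    rw [hPdef]
    exact sub_mem (one_mem C) (sum_mem fun i _ => hEC i)
  have hEP : ∀ j < M, E j * P = 0 := by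
    intro j hj
    rw [hPdef, mul_sub, mul_one, Finset.mul_sum, Finset.sum_eq_single j]
    · rw [(hE j).isIdempotentElem.eq, sub_self]
    · intro i hi hij
      exact hEo j hj i (Finset.mem_range.1 hi) (Ne.symm hij)
    · intro h; exact absurd (Finset.mem_range.2 hj) h
  have hvE : ∀ j < M, star (v j) * E j = star (v j) := by
    intro j hj
    have h := congrArg star (hv j hj).2.1
    rwa [star_mul, hEs] at h
  have hvP : ∀ j < M, star (v j) * P = 0 := by
    intro j hj
    rw [← hvE j hj, mul_assoc, hEP j hj, mul_zero]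
  have hPv : ∀ j < M, P * v j = 0 := by
    intro j hj
    have h := congrArg star (hvP j hj)
    rwa [star_mul, star_star, hPs, star_zero] at h
  have hvv : ∀ i < M, ∀ j < M, i ≠ j → star (v i) * v j = 0 := by
    intro i hi j hj hij
    calc star (v i) * v j = (star (v i) * E i) * (E j * v j) := by rw [hvE i hi, (hv j hj).2.1]
      _ = star (v i) * (E i * E j) * v j := by simp only [mul_assoc]
      _ = 0 := by rw [hEo i hi j hj hij, mul_zero, zero_mul]
  have hvn : ∀ j < M, ‖v j‖ ≤ 1 := fun j hj => norm_le_one_of_star_mul_self hP (hv j hj).1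
  have hαv : ∀ j < M, E ((j + 1) % M) * α (v j) = α (v j) := by
    intro j hj
    rw [← hEα j hj, ← map_mul, (hv j hj).2.1]
  have hEo' : ∀ i ∈ Finset.range M, ∀ j ∈ Finset.range M, i ≠ j →
      E ((i + 1) % M) * E ((j + 1) % M) = 0 := fun i hi j hj hij =>
    hEo _ (hmod _) _ (hmod _) fun h =>
      hij (zd_succ_mod_inj (Finset.mem_range.1 hi) (Finset.mem_range.1 hj) h)
  obtain ⟨W, hW1, hW2⟩ : ∃ W : ℕ → A, (∀ j < M, W j = v j) ∧ W M = P :=
    ⟨fun j => if j < M then v j else P, fun j hj => if_pos hj, if_neg (lt_irrefl M)⟩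
  have hcase : ∀ a : Fin (M + 1), (a : ℕ) < M ∨ (a : ℕ) = M := fun a => by
    have := a.2; omega
  have hwC : ∀ a : Fin (M + 1), W a ∈ C := by
    intro a
    rcases hcase a with h | h
    · rw [hW1 _ h]; exact hvC _
    · rw [h, hW2]; exact hPC
  have hw : ∀ a b : Fin (M + 1), star (W a) * W b = if a = b then P else 0 := by
    intro a b
    by_cases hab : a = b
    · subst hab
      rw [if_pos rfl]
      rcases hcase a with h | h
      · rw [hW1 _ h]; exact (hv _ h).1
      · rw [h, hW2, hPs, hPP]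
    · rw [if_neg hab]
      have hne : (a : ℕ) ≠ b := fun h => hab (Fin.ext h)
      rcases hcase a with h | h <;> rcases hcase b with h' | h'
      · rw [hW1 _ h, hW1 _ h']; exact hvv _ h _ h' hne
      · rw [hW1 _ h, h', hW2]; exact hvP _ h
      · rw [hW1 _ h', h, hW2, hPs]; exact hPv _ h'
      · exact absurd (h.trans h'.symm) hne
  have h4 : 0 ≤ 4 / (M : ℝ) := by positivity
  have he : ‖∑ a : Fin (M + 1), (α (W a) - W (rotFix M a)) * star (α (W a) - W (rotFix M a))‖
      ≤ (4 / (M : ℝ)) ^ 2 := by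
    have h1 : ∑ a : Fin (M + 1), (α (W a) - W (rotFix M a)) * star (α (W a) - W (rotFix M a))
        = ∑ j ∈ Finset.range M,
          (α (v j) - v ((j + 1) % M)) * star (α (v j) - v ((j + 1) % M)) := by
      rw [Fin.sum_univ_castSucc, Finset.sum_range]
      have h2 : rotFix M (Fin.last M) = Fin.last M := by
        unfold rotFix
        rw [dif_neg (by simp)]
      rw [h2, Fin.val_last, hW2, hPα, sub_self, zero_mul, add_zero]
      refine Finset.sum_congr rfl fun j _ => ?_
      have h3 : ((rotFix M j.castSucc : Fin (M + 1)) : ℕ) = ((j : ℕ) + 1) % M := by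
        unfold rotFix
        rw [dif_pos (by simp)]
        rfl
      rw [h3, Fin.val_castSucc, hW1 _ j.2, hW1 _ (hmod _)]
    rw [h1]
    refine zd_orth_sum (Finset.range M) (fun j => E ((j + 1) % M)) _ (by positivity)
      (fun i _ => hEs _) hEo' (fun i _ => by rw [star_mul, star_star]) (fun i hi => ?_)
      (fun i hi => ?_)
    · rw [← mul_assoc, mul_sub, hαv i (Finset.mem_range.1 hi), (hv _ (hmod _)).2.1]
    · refine (norm_mul_le _ _).trans ?_
      rw [norm_star, ← sq]
      exact pow_le_pow_left₀ (norm_nonneg _) (hv i (Finset.mem_range.1 hi)).2.2 2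
  obtain ⟨u, huC, hu, hus, hun⟩ := dft_op α hM C hP (fun a => W a) hwC hw h4 he
  have huu : ∀ k, star (u k) * u k = P := fun k => by rw [hu, if_pos rfl]
  have hup : IsStarProjection (∑ k, u k * star (u k)) := by
    refine isStarProjection_sum Finset.univ _
      (fun k _ => isStarProjection_mul_star hP (huu k)) fun k _ l _ hkl => ?_
    rw [mul_assoc, ← mul_assoc (star (u k)), hu, if_neg hkl, zero_mul, mul_zero]
  obtain ⟨U, hU1, hU2, hU3⟩ : ∃ U : ℕ → A, (∀ k, ∃ l, U k = u l) ∧
      (∀ k : Fin (M + 1), U k = u k) ∧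
      ∀ k : Fin (M + 1), U (((k : ℕ) + 1) % (M + 1)) = u (k + 1) := by
    refine ⟨fun k => u (Fin.ofNat (M + 1) k), fun k => ⟨_, rfl⟩, fun k => ?_, fun k => ?_⟩
    · refine congrArg u (Fin.ext ?_)
      rw [Fin.val_ofNat, Nat.mod_eq_of_lt k.2]
    · refine congrArg u (Fin.ext ?_)
      rw [Fin.val_ofNat, Nat.mod_mod, Fin.val_add, Fin.val_one', Nat.add_mod_mod]
  refine ⟨fun j => E (j % M) - v (j % M) * star (v (j % M)), fun k => U k * star (U k),
    fun j => ⟨?_, ?_⟩, fun k => ?_, ?_, fun J hJ => ?_, fun J hJ => ?_⟩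
  · exact sub_mem (hEC _) (mul_mem (hvC _) (star_mem (hvC _)))
  · refine (isStarProjection_mul_star hP (hv _ (hmod j)).1).sub_of_mul_eq_right (hE _) ?_
    rw [← mul_assoc, (hv _ (hmod j)).2.1]
  · obtain ⟨l, hl⟩ := hU1 k
    show U k * star (U k) ∈ C ∧ IsStarProjection (U k * star (U k))
    rw [hl]
    exact ⟨mul_mem (huC l) (star_mem (huC l)), isStarProjection_mul_star hP (huu l)⟩
  · have h1 : ∑ k ∈ Finset.range (M + 1), U k * star (U k)
        = ∑ j ∈ Finset.range M, v j * star (v j) + P := by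
      rw [Finset.sum_range, Finset.sum_congr rfl fun k _ => by rw [hU2 k], hus,
        Fin.sum_univ_castSucc, Fin.val_last, hW2, hPs, hPP, Finset.sum_range]
      refine congrArg (· + P) (Finset.sum_congr rfl fun j _ => ?_)
      rw [Fin.val_castSucc, hW1 _ j.2]
    have h2 : ∑ j ∈ Finset.range M, (E (j % M) - v (j % M) * star (v (j % M)))
        = ∑ j ∈ Finset.range M, E j - ∑ j ∈ Finset.range M, v j * star (v j) := by
      rw [← Finset.sum_sub_distrib]
      refine Finset.sum_congr rfl fun j hj => ?_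
      rw [Nat.mod_eq_of_lt (Finset.mem_range.1 hj)]
    rw [h1, h2, hPdef]
    abel
  · have h1 : ∀ j ∈ J, α (E (j % M) - v (j % M) * star (v (j % M)))
        - (E ((j + 1) % M % M) - v ((j + 1) % M % M) * star (v ((j + 1) % M % M)))
        = v ((j + 1) % M) * star (v ((j + 1) % M)) - α (v j) * star (α (v j)) := by
      intro j hj
      have hj' := Finset.mem_range.1 (hJ hj)
      rw [Nat.mod_mod, Nat.mod_eq_of_lt hj', map_sub, map_mul, map_star, hEα j hj']
      abel
    rw [Finset.sum_congr rfl h1]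
    refine zd_orth_sum J (fun j => E ((j + 1) % M)) _ (by positivity) (fun i _ => hEs _)
      (fun i hi j hj hij => hEo' i (hJ hi) j (hJ hj) hij)
      (fun i _ => by rw [star_sub, star_mul, star_mul, star_star, star_star]) (fun i hi => ?_)
      (fun i hi => ?_)
    · rw [mul_sub, ← mul_assoc, ← mul_assoc, hαv i (Finset.mem_range.1 (hJ hi)),
        (hv _ (hmod _)).2.1]
    · have hi' := Finset.mem_range.1 (hJ hi)
      have h2 : ‖α (v i)‖ ≤ 1 := by
        rw [StarAlgEquiv.norm_map]; exact hvn i hi'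
      have h3 := zd_diff_norm (hvn _ (hmod (i + 1))) h2
      rw [norm_sub_rev (v ((i + 1) % M))] at h3
      have h5 := (hv i hi').2.2
      have h6 : 2 * (4 / (M : ℝ)) ≤ 30 / (M : ℝ) := by
        rw [← mul_div_assoc]
        exact div_le_div_of_nonneg_right (by norm_num) hMr.le
      linarith
  · have h1 : ∀ k ∈ J, α (U k * star (U k))
        - U ((k + 1) % (M + 1)) * star (U ((k + 1) % (M + 1)))
        = α (U k) * star (α (U k)) - U ((k + 1) % (M + 1)) * star (U ((k + 1) % (M + 1))) := by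
      intro k _
      rw [map_mul, map_star]
    rw [Finset.sum_congr rfl h1]
    have h2 : ‖∑ k ∈ Finset.range (M + 1), α (U k) * star (α (U k))‖ ≤ 1 := by
      have h3 : ∑ k ∈ Finset.range (M + 1), α (U k) * star (α (U k))
          = α (∑ k, u k * star (u k)) := by
        rw [Finset.sum_range, map_sum]
        refine Finset.sum_congr rfl fun k _ => ?_
        rw [hU2 k, map_mul, map_star]
      rw [h3, StarAlgEquiv.norm_map]
      exact hup.norm_le
    have h3 : ‖∑ k ∈ Finset.range (M + 1),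
        U ((k + 1) % (M + 1)) * star (U ((k + 1) % (M + 1)))‖ ≤ 1 := by
      have h5 : ∑ k ∈ Finset.range (M + 1), U ((k + 1) % (M + 1)) * star (U ((k + 1) % (M + 1)))
          = ∑ k, u k * star (u k) := by
        rw [Finset.sum_range, Finset.sum_congr rfl fun k _ => by rw [hU3 k]]
        exact Equiv.sum_comp (Equiv.addRight (1 : Fin (M + 1))) fun k => u k * star (u k)
      rw [h5]
      exact hup.norm_le
    have h5 : ‖∑ k ∈ Finset.range (M + 1), (α (U k) - U ((k + 1) % (M + 1)))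
        * star (α (U k) - U ((k + 1) % (M + 1)))‖ ≤ (4 / (M : ℝ) + 7 / (M : ℝ)) ^ 2 := by
      rw [Finset.sum_range, Finset.sum_congr rfl fun k _ => by rw [hU2 k, hU3 k]]
      exact hun
    have h6 := zd_diff_sum hJ (fun k => α (U k)) (fun k => U ((k + 1) % (M + 1)))
      (by positivity) h2 h3 h5
    have h7 : 2 * (4 / (M : ℝ) + 7 / (M : ℝ)) ≤ 30 / (M : ℝ) := by
      rw [← add_div, ← mul_div_assoc]
      exact div_le_div_of_nonneg_right (by norm_num) hMr.le
    exact h6.trans h7

theorem Sys.two_towers (hz : ZCtx H K g) (hH : X.Good H) {M : ℕ} (hM : 0 < M) :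
    ∃ e f : ℕ → A, (∀ j, e j ∈ X.FH H ∧ IsStarProjection (e j)) ∧
      (∀ k, f k ∈ X.FH H ∧ IsStarProjection (f k)) ∧
      ∑ j ∈ Finset.range M, e j + ∑ k ∈ Finset.range (M + 1), f k = 1 ∧
      (∀ J ⊆ Finset.range M, ‖∑ j ∈ J, (X.γ g (e j) - e ((j + 1) % M))‖ ≤ 30 / (M : ℝ)) ∧
      ∀ J ⊆ Finset.range (M + 1),
        ‖∑ k ∈ J, (X.γ g (f k) - f ((k + 1) % (M + 1)))‖ ≤ 30 / (M : ℝ) := by
  obtain ⟨e, v, hT, hvC, hv⟩ := Sys.absorb_chain (X := X) hz hH hM
  refine zd_towers (X.γ g) (X.FH H) hM (fun j => (X.γ g ^ j) e) v _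
    (fun j => hz.pow_mem_FH j hT.mem) hvC (fun j => hT.proj.map (X.γ g ^ j))
    (fun i hi j hj hij => hT.orth' hi hj hij) (fun j hj => ?_) rfl hT.rest_proj hT.rest_fixed hv
  have h1 : X.γ g ((X.γ g ^ j) e) = (X.γ g ^ (j + 1)) e := by
    rw [pow_succ']; rfl
  rw [h1]
  rcases Nat.lt_or_ge (j + 1) M with h | h
  · rw [Nat.mod_eq_of_lt h]
  · have h2 : j + 1 = M := by omega
    rw [h2, Nat.mod_self, hT.cyc, pow_zero]
    rfl

end Pool.Agent.Izumi
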