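import Pool.Agent.Lib.MP_b2135d_an.ZD

/-! The Rokhlin property (PLAN section 8, Z5). -/

namespace Pool.Agent.Izumi

open scoped ComplexOrder Matrix
open Filter Topology

variable {G A : Type} [Group G] [CStarAlgebra A] [PartialOrder A] [StarOrderedRing A] [Countable G] {X : Sys G A}
  {H K : Subgroup G} {g : G}

theorem ze_sum_mul {B : Type} [AddCommMonoid B] (φ : ℕ → B) (m l : ℕ) :
    ∑ i ∈ Finset.range m, ∑ a ∈ Finset.range l, φ (m * a + i) = ∑ j ∈ Finset.range (m * l), φ j := by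
  rw [Finset.sum_comm]
  induction l with
  | zero => simp
  | succ l ih => rw [Finset.sum_range_succ, ih, Nat.mul_succ, Finset.sum_range_add]

theorem ze_sum_image {B : Type} [AddCommMonoid B] (φ : ℕ → B) {m : ℕ} (hm : 0 < m) (l i : ℕ) :
    ∑ j ∈ (Finset.range l).image (fun a => m * a + i), φ j =
      ∑ a ∈ Finset.range l, φ (m * a + i) :=
  Finset.sum_image fun _ _ _ _ h => Nat.eq_of_mul_eq_mul_left hm (Nat.add_right_cancel h)

theorem ze_lt {m l a i : ℕ} (ha : a < l) (hi : i < m) : m * a + i < m * l := by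
  have : m * (a + 1) ≤ m * l := Nat.mul_le_mul_left m ha
  rw [Nat.mul_succ] at this
  omega

theorem ze_subset {m l i N : ℕ} (hi : i < m) (h : m * l ≤ N) :
    (Finset.range l).image (fun a => m * a + i) ⊆ Finset.range N := by
  intro j hj
  obtain ⟨a, ha, rfl⟩ := Finset.mem_image.mp hj
  exact Finset.mem_range.mpr ((ze_lt (Finset.mem_range.mp ha) hi).trans_le h)

theorem ze_approx (hz : ZCtx H K g) (hH : X.Good H) {m : ℕ} (hm : 0 < m) {ε : ℝ} (hε : 0 < ε) :
    ∃ e f : ℕ → A, (∀ i, e i ∈ X.FH H ∧ IsStarProjection (e i)) ∧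
      (∀ j, f j ∈ X.FH H ∧ IsStarProjection (f j)) ∧
      ∑ i ∈ Finset.range m, e i + ∑ j ∈ Finset.range (m + 1), f j = 1 ∧
      (∀ i, i + 1 < m → ‖X.γ g (e i) - e (i + 1)‖ ≤ ε) ∧
      ∀ j, j < m → ‖X.γ g (f j) - f (j + 1)‖ ≤ ε := by
  obtain ⟨l, hl⟩ := exists_nat_ge (60 / ε)
  have hM : 0 < m * (l + 1) := Nat.mul_pos hm (Nat.succ_pos l)
  have hMe : m * (l + 1) = m * l + m := Nat.mul_succ m l
  have hle : 30 / ((m * (l + 1) : ℕ) : ℝ) ≤ ε / 2 := by
    have h1 : l + 1 ≤ m * (l + 1) := Nat.le_mul_of_pos_left _ hm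
    have h2 : ((l + 1 : ℕ) : ℝ) ≤ ((m * (l + 1) : ℕ) : ℝ) := by exact_mod_cast h1
    have h3 : (0 : ℝ) < ((m * (l + 1) : ℕ) : ℝ) := by exact_mod_cast hM
    rw [div_le_iff₀ hε] at hl
    rw [div_le_iff₀ h3]
    push_cast at h2 ⊢
    nlinarith
  obtain ⟨e, f, he, hf, hs, hE, hF⟩ := Sys.two_towers (X := X) hz hH hM
  have ho := orth_of_sum_le ((Finset.range (m * (l + 1))).disjSum (Finset.range (m * (l + 1) + 1)))
    (Sum.elim e f) (fun i _ => by
      cases i with
      | inl i => exact (he i).2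
      | inr i => exact (hf i).2) (by rw [Finset.sum_disjSum]; exact hs.le)
  refine ⟨fun i => if i < m then ∑ a ∈ Finset.range (l + 1), e (m * a + i) +
      ∑ a ∈ Finset.range l, f (m * a + i) else 0, fun j => f (m * l + j), fun i => ?_,
    fun j => hf _, ?_, fun i hi => ?_, fun j hj => ?_⟩
  · by_cases hi : i < m
    · simp only [if_pos hi]
      refine ⟨add_mem (sum_mem fun a _ => (he _).1) (sum_mem fun a _ => (hf _).1), ?_⟩
      have hsub : ((Finset.range (l + 1)).image (fun a => m * a + i)).disjSum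
          ((Finset.range l).image (fun a => m * a + i)) ⊆
          (Finset.range (m * (l + 1))).disjSum (Finset.range (m * (l + 1) + 1)) :=
        Finset.disjSum_mono (ze_subset hi le_rfl) (ze_subset hi (by omega))
      have := isStarProjection_sum _ (Sum.elim e f) (fun i _ => by
        cases i with
        | inl i => exact (he i).2
        | inr i => exact (hf i).2) fun a ha b hb hab => ho a (hsub ha) b (hsub hb) hab
      rw [Finset.sum_disjSum, ze_sum_image _ hm, ze_sum_image _ hm] at this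
      exact this
    · simp only [if_neg hi]
      exact ⟨zero_mem _, IsStarProjection.zero A⟩
  · rw [Finset.sum_congr rfl fun i hi => if_pos (Finset.mem_range.mp hi), Finset.sum_add_distrib,
      ze_sum_mul, ze_sum_mul, add_assoc, ← Finset.sum_range_add, ← hs, hMe, add_assoc]
  · have hi' : i < m := by omega
    simp only [if_pos hi, if_pos hi']
    have a1 := hE _ (ze_subset (l := l + 1) hi' le_rfl)
    have a2 := hF _ (ze_subset (l := l) hi' (by omega))
    rw [ze_sum_image _ hm] at a1 a2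
    have b1 : ∀ a ∈ Finset.range (l + 1), X.γ g (e (m * a + i)) -
        e ((m * a + i + 1) % (m * (l + 1))) = X.γ g (e (m * a + i)) - e (m * a + (i + 1)) :=
      fun a ha => by
        rw [add_assoc, Nat.mod_eq_of_lt (ze_lt (Finset.mem_range.mp ha) hi)]
    have b2 : ∀ a ∈ Finset.range l, X.γ g (f (m * a + i)) -
        f ((m * a + i + 1) % (m * (l + 1) + 1)) = X.γ g (f (m * a + i)) - f (m * a + (i + 1)) :=
      fun a ha => by
        have := ze_lt (Finset.mem_range.mp ha) hi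
        rw [add_assoc, Nat.mod_eq_of_lt (by omega)]
    rw [Finset.sum_congr rfl b1, Finset.sum_sub_distrib] at a1
    rw [Finset.sum_congr rfl b2, Finset.sum_sub_distrib] at a2
    rw [map_add, map_sum, map_sum, add_sub_add_comm]
    exact (norm_add_le _ _).trans (by linarith)
  · have a1 := hF {m * l + j} (by
      rw [Finset.singleton_subset_iff, Finset.mem_range]; omega)
    rw [Finset.sum_singleton, Nat.mod_eq_of_lt (by omega), add_assoc] at a1
    exact a1.trans (by linarith)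

theorem ze_exact (hz : ZCtx H K g) (hH : X.Good H) {m : ℕ} (hm : 0 < m) :
    ∃ e f : ℕ → A, IsRok (X.γ g) (X.FH H) m e f := by
  have hP : Defn X.τ X.γ (fun x : ℕ ⊕ ℕ → A =>
      (∀ i, (x i ∈ cent X.T0 ∧ x i ∈ Fix X.γ H) ∧ IsStarProjection (x i)) ∧
      ∑ i ∈ Finset.range m, x (.inl i) + ∑ j ∈ Finset.range (m + 1), x (.inr j) = 1) :=
    Defn.and (Defn.forall fun i => Defn.and (Defn.and (Defn.mem_cent X.T0_count (.var i))
      (Defn.mem_Fix H (.var i))) (Defn.proj (.var i)))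
      (Defn.eq (.add (IsTerm.sum _ fun i _ => .var _) (IsTerm.sum _ fun i _ => .var _)) (.const 1))
  obtain ⟨x, -, ⟨h1, h2⟩, h3⟩ := X.sat.approx_eq (κ := {i // i + 1 < m} ⊕ {j // j < m})
    (fun _ => 1) hP
    (Sum.elim (fun i x => X.γ g (x (.inl i.1)) - x (.inl (i.1 + 1)))
      (fun j x => X.γ g (x (.inr j.1)) - x (.inr (j.1 + 1))))
    (fun k => by
      cases k with
      | inl i => exact IsTerm.sub (.act g (.var _)) (.var _)
      | inr j => exact IsTerm.sub (.act g (.var _)) (.var _))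
    (fun s ε hε => by
      obtain ⟨e, f, he, hf, hs, hE, hF⟩ := ze_approx (X := X) hz hH hm hε
      have hx : ∀ i, (Sum.elim e f i ∈ cent X.T0 ∧ Sum.elim e f i ∈ Fix X.γ H) ∧
          IsStarProjection (Sum.elim e f i) := fun i => by
        cases i with
        | inl i => exact he i
        | inr i => exact hf i
      refine ⟨Sum.elim e f, fun i => IsStarProjection.norm_le _ (hx i).2, ⟨hx, hs⟩, fun k _ => ?_⟩
      cases k with
      | inl i => exact hE i.1 i.2
      | inr j => exact hF j.1 j.2)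
  exact ⟨fun i => x (.inl i), fun j => x (.inr j), fun i => (h1 _).1, fun j => (h1 _).1,
    fun i => (h1 _).2, fun j => (h1 _).2, h2, fun i hi => sub_eq_zero.mp (h3 (.inl ⟨i, hi⟩)),
    fun j hj => sub_eq_zero.mp (h3 (.inr ⟨j, hj⟩))⟩

theorem Sys.rokZ (hz : ZCtx H K g) (hH : X.Good H) {m : ℕ} (hm : 0 < m) {T : Set A}
    (hT : T.Countable) : ∃ e f : ℕ → A, IsRok (X.γ g) (X.FT T ⊓ Fix X.γ H) m e f := by
  obtain ⟨e, f, h⟩ := ze_exact (X := X) hz hH hm
  obtain ⟨S, Ψ, hS, hc⟩ := X.ic (Set.range e ∪ Set.range f) T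
    ((Set.countable_range e).union (Set.countable_range f)) hT (by
      rintro _ (⟨i, rfl⟩ | ⟨j, rfl⟩)
      · exact (h.e_mem i).1
      · exact (h.f_mem j).1)
  have he : ∀ i, e i ∈ S := fun i => hS (Or.inl ⟨i, rfl⟩)
  have hf : ∀ j, f j ∈ S := fun j => hS (Or.inr ⟨j, rfl⟩)
  refine ⟨fun i => Ψ (e i), fun j => Ψ (f j),
    fun i => ⟨hc.mem _ (he i), hc.mem_Fix (he i) (h.e_mem i).2⟩,
    fun j => ⟨hc.mem _ (hf j), hc.mem_Fix (hf j) (h.f_mem j).2⟩,
    fun i => hc.proj (he i) (h.e_proj i), fun j => hc.proj (hf j) (h.f_proj j), ?_,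
    fun i hi => ?_, fun j hj => ?_⟩
  · rw [← map_sum, ← map_sum, ← map_add, h.sum, hc.map_one]
  · rw [← hc.map_act g _ (he i), h.e_next i hi]
  · rw [← hc.map_act g _ (hf j), h.f_next j hj]

end Pool.Agent.Izumi
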