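import Pool.Agent.Lib.MP_b2135d_an.ZE
import Pool.Agent.Lib.MP_b2135d_an.ZF
import Pool.Agent.Lib.MP_b2135d_an.SB

/-! Embeddings pass to extensions by the integers (PLAN section 8, Z7). -/

namespace Pool.Agent.Izumi

open scoped ComplexOrder Matrix
open Filter Topology

variable {G A : Type} [Group G] [CStarAlgebra A] [PartialOrder A] [StarOrderedRing A] [Countable G] {X : Sys G A}
  {H K : Subgroup G} {g : G}

omit [PartialOrder A] [StarOrderedRing A] in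
theorem norm_conj_sub_ZG {u v b : A} (hu : u ∈ unitary A) (hv : v ∈ unitary A) :
    ‖u * b * star u - v * b * star v‖ ≤ 2 * ‖v - u‖ * ‖b‖ := by
  have h1 : u * b * star u - v * b * star v =
      (u - v) * b * star u + v * (b * star (u - v)) := by
    rw [star_sub]; noncomm_ring
  have h2 : ‖(u - v) * b * star u‖ ≤ ‖v - u‖ * ‖b‖ := by
    rw [CStarRing.norm_mul_mem_unitary _ (Unitary.star_mem hu), norm_sub_rev v u]
    exact norm_mul_le _ _
  have h3 : ‖v * (b * star (u - v))‖ ≤ ‖v - u‖ * ‖b‖ := by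
    rw [CStarRing.norm_mem_unitary_mul _ hv, norm_sub_rev v u, mul_comm ‖u - v‖,
      ← norm_star (u - v)]
    exact norm_mul_le _ _
  rw [h1]
  linarith [norm_add_le ((u - v) * b * star u) (v * (b * star (u - v)))]

omit [PartialOrder A] [StarOrderedRing A] [Countable G] in
theorem exists_lvl_ZG {E : Type} [CStarAlgebra E] (θ : A ≃⋆ₐ[ℂ] A) (η : E ≃⋆ₐ[ℂ] E)
    (φ : E →⋆ₐ[ℂ] A) {u : A} (hu : u ∈ unitary A) :
    ∃ ψ : E →⋆ₐ[ℂ] A, ∀ a, ψ a = θ (u * φ (η a) * star u) :=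
  ⟨(θ : A →⋆ₐ[ℂ] A).comp ((Unitary.conjStarAlgAut ℂ A ⟨u, hu⟩ : A →⋆ₐ[ℂ] A).comp
    (φ.comp (η : E →⋆ₐ[ℂ] E))), fun _ => rfl⟩

theorem tower_ZG (hz : ZCtx H K g) (hH : X.Good H) {E : Type} [CStarAlgebra E] (hE : IsUHF E)
    (ρ : K →* (E ≃⋆ₐ[ℂ] E)) (φ : E →⋆ₐ[ℂ] A) (hF : ∀ x, φ x ∈ X.F)
    (he : ∀ k : K, (k : G) ∈ H → ∀ x, φ (ρ k x) = X.γ k (φ x)) {n : ℕ} (hn : 0 < n) :
    ∃ ψ : ℕ → E →⋆ₐ[ℂ] A, (∀ a, ψ 0 a = φ a) ∧ (∀ a, ψ n a = φ a) ∧ (∀ i a, ψ i a ∈ X.F) ∧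
      (∀ i, ∀ k : K, (k : G) ∈ H → ∀ a, ψ i (ρ k a) = X.γ k (ψ i a)) ∧
      ∀ i a, ‖X.γ g (ψ i a) - ψ (i + 1) (ρ ⟨g, hz.mem⟩ a)‖ ≤ 48 / n * ‖a‖ := by
  set t : K := ⟨g, hz.mem⟩ with ht
  have hconj : ∀ (k l : K) (u : A), u ∈ Fix X.γ H → (k : G) ∈ H → ∀ a,
      X.γ l (u * φ (ρ l⁻¹ (ρ k a)) * star u) = X.γ k (X.γ l (u * φ (ρ l⁻¹ a) * star u)) := by
    intro k l u hu hk a
    have h1 : ((l⁻¹ * k * l : K) : G) ∈ H := by
      have := hz.normal _ (l⁻¹).2 _ hk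
      simpa using this
    have h2 : ρ l⁻¹ (ρ k a) = ρ (l⁻¹ * k * l) (ρ l⁻¹ a) := by
      rw [act_act, act_act]
      congr 2
      group
    have h3 : X.γ ((l⁻¹ * k * l : K) : G) u = u := hu _ h1
    have h4 : u * X.γ ((l⁻¹ * k * l : K) : G) (φ (ρ l⁻¹ a)) * star u =
        X.γ ((l⁻¹ * k * l : K) : G) (u * φ (ρ l⁻¹ a) * star u) := by
      rw [map_mul, map_mul, map_star, h3]
    rw [h2, he _ h1, h4, act_act, act_act]
    congr 2
    push_cast
    group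
  obtain ⟨φ', hφ'⟩ := exists_lvl_ZG (X.γ ((t ^ n)⁻¹ : K)) (ρ ((t ^ n)⁻¹)⁻¹) φ (one_mem (unitary A))
  obtain ⟨u, hu, hc⟩ := Sys.uni_chn hH.2.1 hH.2.2 E hE (ρ.comp (Subgroup.inclusion hz.le))
    X.T0_count φ φ' hF
    (fun x => by
      rw [hφ']
      exact X.act_mem_F _ (mul_mem (mul_mem (one_mem _) (hF _)) (star_mem (one_mem _))))
    (fun h x => he (Subgroup.inclusion hz.le h) h.2 x)
    (fun h x => by
      rw [hφ', hφ']
      exact hconj (Subgroup.inclusion hz.le h) _ 1 (one_mem _) h.2 x)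
  obtain ⟨z, hz0, hzn, hzP, hzd⟩ := hc n hn
  choose ψ hψ using fun i : ℕ => exists_lvl_ZG (X.γ ((t ^ i : K) : G)) (ρ (t ^ i)⁻¹) φ (hzP i).1
  refine ⟨ψ, fun a => ?_, fun a => ?_, fun i a => ?_, fun i k hk a => ?_, fun i a => ?_⟩
  · rw [hψ, hz0, pow_zero, inv_one, act_one, star_one, one_mul, mul_one]
    exact act_one _ _
  · rw [hψ, hzn, hu, hφ', inv_inv, act_act_inv, star_one, one_mul, mul_one]
    exact act_act_inv _ _ _
  · rw [hψ]
    exact X.act_mem_F _ (mul_mem (mul_mem (hzP i).2.2 (hF _)) (star_mem (hzP i).2.2))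
  · rw [hψ, hψ]
    exact hconj k _ _ (hzP i).2.1 hk a
  · have h1 : ρ (t ^ (i + 1))⁻¹ (ρ t a) = ρ (t ^ i)⁻¹ a := by
      rw [act_act]
      congr 2
      group
    have h2 : g * ((t ^ i : K) : G) = ((t ^ (i + 1) : K) : G) := by
      rw [pow_succ']
      rfl
    rw [hψ, hψ, h1, act_act, h2, ← map_sub, norm_act]
    refine (norm_conj_sub_ZG (hzP i).1 (hzP (i + 1)).1).trans ?_
    have h3 : ‖φ (ρ (t ^ i)⁻¹ a)‖ ≤ ‖a‖ :=
      (NonUnitalStarAlgHom.norm_apply_le φ _).trans (norm_act ρ _ a).le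
    calc 2 * ‖z (i + 1) - z i‖ * ‖φ (ρ (t ^ i)⁻¹ a)‖ ≤ 2 * (24 / n) * ‖a‖ := by
          gcongr
          exact hzd i
      _ = 48 / n * ‖a‖ := by ring

omit [Countable G] in
theorem exists_glue_ZG {α : A ≃⋆ₐ[ℂ] A} {C : StarSubalgebra ℂ A} {m : ℕ} {e f : ℕ → A}
    (hr : IsRok α C m e f) {E : Type} [CStarAlgebra E] (ψ ψ' : ℕ → E →⋆ₐ[ℂ] A)
    (hx : ∀ i a, Commute (ψ i a) (e i)) (hy : ∀ j a, Commute (ψ' j a) (f j)) :
    ∃ Φ : E →⋆ₐ[ℂ] A, ∀ a, Φ a = rglue m e f (fun i => ψ i a) (fun j => ψ' j a) :=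
  ⟨{ toFun := fun a => rglue m e f (fun i => ψ i a) (fun j => ψ' j a)
     map_one' := by
       simp only [map_one]
       exact rglue_const hr 1
     map_mul' := fun a b => by
       rw [rglue_mul hr _ _ (fun i _ => hx i b) (fun j _ => hy j b)]
       simp only [map_mul]
     map_zero' := by
       simp only [map_zero]
       exact rglue_const hr 0
     map_add' := fun a b => by
       rw [rglue_add]
       simp only [map_add]
     commutes' := fun c => by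
       simp only [AlgHomClass.commutes]
       exact rglue_const hr _
     map_star' := fun a => by
       rw [rglue_star hr (fun i _ => hx i a) (fun j _ => hy j a)]
       simp only [map_star] }, fun _ => rfl⟩

theorem approx_ZG (hz : ZCtx H K g) (hH : X.Good H) {E : Type} [CStarAlgebra E] (hE : IsUHF E)
    (ρ : K →* (E ≃⋆ₐ[ℂ] E)) {m : ℕ} (hm : 0 < m) :
    ∃ Φ : E →⋆ₐ[ℂ] A, (∀ a, Φ a ∈ X.F) ∧
      (∀ k : K, (k : G) ∈ H → ∀ a, Φ (ρ k a) = X.γ k (Φ a)) ∧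
      ∀ a, ‖X.γ g (Φ a) - Φ (ρ ⟨g, hz.mem⟩ a)‖ ≤ 48 / m * ‖a‖ := by
  have := hE.separable
  obtain ⟨φ, hF, he'⟩ := hH.2.1 E hE (ρ.comp (Subgroup.inclusion hz.le))
  have he : ∀ k : K, (k : G) ∈ H → ∀ x, φ (ρ k x) = X.γ k (φ x) := fun k hk x => he' ⟨k, hk⟩ x
  obtain ⟨ψ, h0, hn, h1, h2, h3⟩ := tower_ZG hz hH hE ρ φ hF he hm
  obtain ⟨ψ', h0', hn', h1', h2', h3'⟩ := tower_ZG hz hH hE ρ φ hF he (Nat.succ_pos m)
  obtain ⟨T, hT, hc⟩ := X.exists_test_set (fun p : ℕ × E => ψ p.1 p.2)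
    (continuous_prod_of_discrete_left.2 fun i => hom_continuous (ψ i))
  obtain ⟨T', hT', hc'⟩ := X.exists_test_set (fun p : ℕ × E => ψ' p.1 p.2)
    (continuous_prod_of_discrete_left.2 fun i => hom_continuous (ψ' i))
  obtain ⟨e, f, hr⟩ := Sys.rokZ hz hH hm (hT.union hT')
  have hx : ∀ (k l : G) i j a, Commute (X.γ k (ψ i a)) (X.γ l (e j)) := fun k l i j a =>
    (hc _ (X.FT_anti Set.subset_union_left (hr.e_mem j).1) l k (i, a)).symm
  have hy : ∀ (k l : G) i j a, Commute (X.γ k (ψ' i a)) (X.γ l (f j)) := fun k l i j a =>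
    (hc' _ (X.FT_anti Set.subset_union_right (hr.f_mem j).1) l k (i, a)).symm
  obtain ⟨Φ, hΦ⟩ := exists_glue_ZG hr ψ ψ'
    (fun i a => by simpa only [act_one] using hx 1 1 i i a)
    (fun i a => by simpa only [act_one] using hy 1 1 i i a)
  refine ⟨Φ, fun a => ?_, fun k hk a => ?_, fun a => ?_⟩
  · rw [hΦ]
    exact rglue_mem hr (inf_le_left.trans (X.FT_le_F _)) (fun i _ => h1 i a) (fun i _ => h1' i a)
  · rw [hΦ, hΦ, rglue, rglue, map_add, map_sum, map_sum]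
    congr 1
    · exact Finset.sum_congr rfl fun i _ => by rw [map_mul, (hr.e_mem i).2 _ hk, h2 i k hk]
    · exact Finset.sum_congr rfl fun i _ => by rw [map_mul, (hr.f_mem i).2 _ hk, h2' i k hk]
  · rw [hΦ, hΦ]
    refine glueZ hr hm _ _ _ _ ((h0 _).trans (h0' _).symm) ((hn _).trans (h0 _).symm)
      ((hn' _).trans (h0' _).symm) (by positivity) (fun i _ => ⟨h3 i a, ?_⟩)
      (fun i _ => ⟨(h3' i a).trans ?_, ?_⟩)
    · refine (hx g g i i a).sub_left ?_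
      simpa only [act_one] using hx 1 g (i + 1) i _
    · have : (0 : ℝ) < m := by exact_mod_cast hm
      gcongr
      exact Nat.le_succ m
    · refine (hy g g i i a).sub_left ?_
      simpa only [act_one] using hy 1 g (i + 1) i _

theorem Sys.emb_Z (hz : ZCtx H K g) (hH : X.Good H) : X.Emb K := by
  intro E _ hE ρ
  have := hE.separable
  let ks : Option H → K := fun o => o.elim ⟨g, hz.mem⟩ (Subgroup.inclusion hz.le)
  obtain ⟨φ, h1, h2, -⟩ := X.toSat.satHom (E := E) (fun o => (ks o : G)) (fun o => ρ (ks o))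
    (fun o => aut_continuous _) X.T0 ∅ X.T0_count Set.countable_empty (fun _ => 0)
    continuous_const (by
      intro s sk sT sT₁ ε hsT hsT₁ hε
      obtain ⟨R, hR⟩ := (s.finite_toSet.image fun a => ‖a‖).bddAbove
      obtain ⟨m, hm⟩ := exists_nat_gt (48 * R / ε)
      obtain ⟨Φ, h1, h2, h3⟩ := approx_ZG hz hH hE ρ (Nat.succ_pos m)
      refine ⟨Φ, ApproxHom.of_hom s hε.le Φ, fun k _ a ha => ?_, fun t ht a _ => ?_,
        fun t ht => (hsT₁ ht).elim⟩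
      · cases k with
        | none =>
          refine (h3 a).trans ?_
          have h4 : ‖a‖ ≤ R := hR ⟨a, ha, rfl⟩
          have h5 : (0 : ℝ) < (m.succ : ℕ) := by exact_mod_cast Nat.succ_pos m
          rw [div_lt_iff₀ hε] at hm
          rw [div_mul_eq_mul_div, div_le_iff₀ h5]
          push_cast
          nlinarith
        | some h =>
          have h4 := h2 (Subgroup.inclusion hz.le h) h.2 a
          change ‖X.γ (Subgroup.inclusion hz.le h : K) (Φ a) -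
            Φ (ρ (Subgroup.inclusion hz.le h) a)‖ ≤ ε
          rw [h4, sub_self, norm_zero]
          exact hε.le
      · rw [(mem_cent.1 (h1 a) t (hsT ht)).1.eq, sub_self, norm_zero]
        exact hε.le)
  let S : Subgroup K :=
    { carrier := {k | ∀ x, φ (ρ k x) = X.γ k (φ x)}
      one_mem' := fun x => by
        rw [act_one]
        exact (act_one _ _).symm
      mul_mem' := fun {a b} ha hb x => by
        rw [← act_act, ha, hb, act_act]
        rfl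
      inv_mem' := fun {a} ha x => by
        have h3 := ha (ρ a⁻¹ x)
        rw [act_act_inv] at h3
        rw [h3]
        exact (act_inv_act _ _ _).symm }
  refine ⟨φ, h2, fun k => ?_⟩
  obtain ⟨n, h, hh, hk⟩ := hz.gen k k.2
  have h3 : k = ks none ^ n * ks (some ⟨h, hh⟩) := Subtype.ext hk
  have h4 : k ∈ S := by
    have h5 : ∀ o, ks o ∈ S := h1
    rw [h3]
    exact mul_mem (zpow_mem (h5 none) n) (h5 (some ⟨h, hh⟩))
  exact h4

end Pool.Agent.Izumi
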